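import Pool.Agent.L3E.RM.Run

set_option autoImplicit false
set_option linter.unusedSimpArgs false
set_option linter.unusedSectionVars false

/-!
# L3E, large right module tables: basis elements, exactness, evaluation (helper31)
-/

namespace Pool.Agent.L3E.RM

open Pool.Agent.L3E.RMG

variable {R : Type} [Ring R]

/-- The number of entries. -/
def Bs.len : Bs → ℕ
  | .e => 0
  | .c _ _ s => s.len + 1

/-- The basis elements. -/
noncomputable def fam (a : Lt → R) (γ : R) (top : ℕ) : Bs → ℕ → R
  | .e => fun k => if k = top then γ else 0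
  | .c q l s => fun k => if k + (s.len + 1) = top then fam a γ top s q * a l
      else fam a γ top s k

/-- The numbers of letters for the kernel. -/
noncomputable def Lt.nu (l : Lt) : ℕ := Lt.rec (motive := fun _ => ℕ) 0 1 2 3 l

theorem nu_eq (l : Lt) : l.nu = l.num := by cases l <;> rfl

/-- Check the entries of the table which define the basis elements. -/
noncomputable def bok (t : Tb) (top : ℕ) (s : Bs) : ℕ → Bool :=
  Bs.rec (motive := fun _ => ℕ → Bool) (fun k => Nat.beq k top)
    (fun q l _ ih k => cond (Nat.blt k q)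
      (cond (Nat.beq (Nat.shiftRight (ap t l (Nat.pow 2 q)) 64) (Nat.pow 2 (Nat.sub k 64)))
        (ih (Nat.succ k)) false) false) s

/-- The mask of the entries which define the basis elements. -/
noncomputable def bm (n : ℕ) (s : Bs) : ℕ :=
  Bs.rec (motive := fun _ => ℕ) 0
    (fun q l _ ih => Nat.lor (Nat.pow 2 (Nat.add q (Nat.add (Nat.mul l.nu n) 64))) ih) s

/-- The entries. -/
def Ent : Bs → ℕ → ℕ → ℕ → Lt → Prop
  | .e => fun _ _ _ _ => False
  | .c q l s => fun k k' q' l' => (k' = k ∧ q' = q ∧ l' = l) ∨ Ent s (k + 1) k' q' l'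

theorem bok_c (t : Tb) (top q : ℕ) (l : Lt) (s : Bs) (k : ℕ) : bok t top (.c q l s) k =
    cond (Nat.blt k q)
      (cond (Nat.beq (Nat.shiftRight (ap t l (Nat.pow 2 q)) 64) (Nat.pow 2 (Nat.sub k 64)))
        (bok t top s (Nat.succ k)) false) false := rfl

theorem blt_lt {a b : ℕ} (h : Nat.blt a b = true) : a < b := by
  simpa [Nat.blt] using h

theorem bok_len {t : Tb} {top : ℕ} : ∀ {s : Bs} {k : ℕ}, bok t top s k = true →
    k + s.len = top := by
  intro s
  induction s with
  | e => intro k h; exact Nat.eq_of_beq_eq_true h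
  | c q l s ih =>
    intro k h
    rw [bok_c] at h
    obtain ⟨-, h⟩ := cond_true h
    obtain ⟨-, h⟩ := cond_true h
    have := ih h
    change k + (s.len + 1) = top
    omega

theorem fam_c (a : Lt → R) (γ : R) (top q : ℕ) (l : Lt) (s : Bs) (k : ℕ) :
    fam a γ top (.c q l s) k = if k + (s.len + 1) = top then fam a γ top s q * a l
      else fam a γ top s k := rfl

theorem fam_low (a : Lt → R) (γ : R) {top : ℕ} : ∀ {s : Bs} {k : ℕ}, k + s.len < top →
    fam a γ top s k = 0 := by
  intro s
  induction s with
  | e =>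
    intro k h
    change (if k = top then γ else 0) = 0
    have h' : k < top := h
    rw [if_neg (by omega)]
  | c q l s ih =>
    intro k h
    have h' : k + (s.len + 1) < top := h
    rw [fam_c, if_neg (by omega)]
    exact ih (by omega)

theorem fam_high (a : Lt → R) (γ : R) {top : ℕ} : ∀ {s : Bs} {k : ℕ}, top < k →
    fam a γ top s k = 0 := by
  intro s
  induction s with
  | e =>
    intro k h
    change (if k = top then γ else 0) = 0
    rw [if_neg (by omega)]
  | c q l s ih =>
    intro k h
    rw [fam_c, if_neg (by omega)]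
    exact ih h

theorem fam_top (a : Lt → R) (γ : R) {top : ℕ} : ∀ {s : Bs}, fam a γ top s top = γ := by
  intro s
  induction s with
  | e =>
    change (if top = top then γ else 0) = γ
    rw [if_pos rfl]
  | c q l s ih =>
    rw [fam_c, if_neg (by omega)]
    exact ih

theorem fam_ent (a : Lt → R) (γ : R) {t : Tb} {top : ℕ} : ∀ {s : Bs} {k : ℕ},
    bok t top s k = true → ∀ k' q' l', Ent s k k' q' l' → k ≤ k' ∧ k' < q' ∧
      fam a γ top s k' = fam a γ top s q' * a l' ∧
      Nat.shiftRight (ap t l' (2 ^ q')) 64 = 2 ^ (k' - 64) := by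
  intro s
  induction s with
  | e => intro k _ k' q' l' h; exact absurd h id
  | c q l s ih =>
    intro k h k' q' l' he
    have hlen := bok_len h
    change k + (s.len + 1) = top at hlen
    rw [bok_c] at h
    obtain ⟨h1, h⟩ := cond_true h
    obtain ⟨h3, h⟩ := cond_true h
    have h1' := blt_lt h1
    rcases he with ⟨rfl, rfl, rfl⟩ | he
    · refine ⟨le_refl _, h1', ?_, Nat.eq_of_beq_eq_true h3⟩
      rw [fam_c, if_pos hlen, fam_c, if_neg (by omega)]
    · obtain ⟨g1, g2, g3, g4⟩ := ih h k' q' l' he
      have g1' : k + 1 ≤ k' := g1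
      refine ⟨by omega, g2, ?_, g4⟩
      rw [fam_c, if_neg (by omega), fam_c, if_neg (by omega)]
      exact g3

theorem bm_ent (n : ℕ) : ∀ {s : Bs} (k j : ℕ), (bm n s).testBit j = true →
    ∃ k' q' l', Ent s k k' q' l' ∧ j = q' + (l'.num * n + 64) := by
  intro s
  induction s with
  | e =>
    intro k j h
    change (0 : ℕ).testBit j = true at h
    rw [Nat.zero_testBit] at h
    exact absurd h (by simp)
  | c q l s ih =>
    intro k j h
    have e : (bm n (.c q l s)).testBit j =
        ((2 ^ (q + (l.nu * n + 64))).testBit j || (bm n s).testBit j) := Nat.testBit_or _ _ _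
    rw [e, Bool.or_eq_true] at h
    rcases h with h | h
    · rw [Nat.testBit_two_pow, decide_eq_true_eq, nu_eq] at h
      exact ⟨k, q, l, Or.inl ⟨rfl, rfl, rfl⟩, h.symm⟩
    · obtain ⟨k', q', l', h1, h3⟩ := ih (k + 1) j h
      exact ⟨k', q', l', Or.inr h1, h3⟩

/-- The mask of all entries. -/
noncomputable def fm (n top : ℕ) : ℕ :=
  (fun M => Nat.lor (Nat.shiftLeft M 64) (Nat.lor (Nat.shiftLeft M (Nat.add n 64))
    (Nat.lor (Nat.shiftLeft M (Nat.add (Nat.mul 2 n) 64))
      (Nat.shiftLeft M (Nat.add (Nat.mul 3 n) 64)))))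
    (Nat.sub (Nat.pow 2 (Nat.succ top)) (Nat.pow 2 64))

theorem fm_bit {n top k : ℕ} (l : Lt) (h1 : 64 ≤ k) (h2 : k ≤ top) :
    (fm n top).testBit (k + (l.num * n + 64)) = true := by
  set M := 2 ^ (top + 1) - 2 ^ 64 with hM
  have hMk : M.testBit k = true := by
    have e : M = 2 ^ 64 * (2 ^ (top + 1 - 64) - 1) := by
      have : (2 : ℕ) ^ 64 * 2 ^ (top + 1 - 64) = 2 ^ (top + 1) := by
        rw [← pow_add, show 64 + (top + 1 - 64) = top + 1 by omega]
      rw [hM, Nat.mul_sub, mul_one, this]
    rw [e, Nat.testBit_two_pow_mul, Nat.testBit_two_pow_sub_one]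
    simp only [Bool.and_eq_true, decide_eq_true_eq]
    omega
  have hs : ∀ s, (Nat.shiftLeft M s).testBit (k + s) = true := by
    intro s
    have e : Nat.shiftLeft M s = 2 ^ s * M := by
      rw [Nat.mul_comm]; exact Nat.shiftLeft_eq M s
    rw [e, Nat.testBit_two_pow_mul]
    simp only [Bool.and_eq_true, decide_eq_true_eq]
    exact ⟨by omega, by rw [Nat.add_sub_cancel]; exact hMk⟩
  have e : ∀ j, (fm n top).testBit j = ((Nat.shiftLeft M 64).testBit j ||
      ((Nat.shiftLeft M (n + 64)).testBit j || ((Nat.shiftLeft M (2 * n + 64)).testBit j ||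
        (Nat.shiftLeft M (3 * n + 64)).testBit j))) := by
    intro j
    have e1 : fm n top = (Nat.shiftLeft M 64) ||| ((Nat.shiftLeft M (n + 64)) |||
      ((Nat.shiftLeft M (2 * n + 64)) ||| (Nat.shiftLeft M (3 * n + 64)))) := rfl
    rw [e1, Nat.testBit_or, Nat.testBit_or, Nat.testBit_or]
  rw [e]
  cases l
  · have := hs 64
    simp only [Lt.num, Nat.zero_mul, Nat.zero_add, this, Bool.true_or]
  · have := hs (n + 64)
    simp only [Lt.num, Nat.one_mul, this, Bool.true_or, Bool.or_true]
  · have := hs (2 * n + 64)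
    simp only [Lt.num, this, Bool.true_or, Bool.or_true]
  · have := hs (3 * n + 64)
    simp only [Lt.num, this, Bool.or_true]

/-- The rows `k, ..., k + c - 1` vanish. -/
noncomputable def zr (t : Tb) (k c : ℕ) : Bool :=
  Nat.rec (motive := fun _ => Bool) true (fun i ih =>
    cond (Nat.beq (ap t .x (Nat.pow 2 (Nat.add k i))) 0)
      (cond (Nat.beq (ap t .y (Nat.pow 2 (Nat.add k i))) 0)
        (cond (Nat.beq (ap t .g (Nat.pow 2 (Nat.add k i))) 0)
          (cond (Nat.beq (ap t .c (Nat.pow 2 (Nat.add k i))) 0) ih false) false) false) false) c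

theorem zr_spec (t : Tb) (k c : ℕ) (h : zr t k c = true) : ∀ j, k ≤ j → j < k + c →
    ∀ l, ap t l (2 ^ j) = 0 := by
  induction c with
  | zero => intro j h1 h3; omega
  | succ c ih =>
    intro j h1 h3 l
    obtain ⟨hx, h⟩ := cond_true h
    obtain ⟨hy, h⟩ := cond_true h
    obtain ⟨hg, h⟩ := cond_true h
    obtain ⟨hc, h⟩ := cond_true (c := zr t k c) h
    by_cases hj : j = k + c
    · subst hj
      cases l
      · exact Nat.eq_of_beq_eq_true hx
      · exact Nat.eq_of_beq_eq_true hy
      · exact Nat.eq_of_beq_eq_true hg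
      · exact Nat.eq_of_beq_eq_true hc
    · exact ih h j h1 (by omega) l

section
variable {t : Tb} {n : ℕ} (hw : WF t n n) (h2 : (2 : R) = 0) (a : Lt → R) (γ : R)
  {top : ℕ} {s : Bs} (hb : bok t top s 64 = true)

include hb in
theorem F_low (k : ℕ) (hk : k < 64) : fam a γ top s k = 0 := by
  refine fam_low a γ ?_
  have := bok_len hb
  omega

include hw h2 hb in
/-- The initial mask. -/
theorem base (hz : zr t (top + 1) (n - (top + 1)) = true) (htn : top < n) {q : ℕ}
    (hq : Nat.beq (Nat.lor q (bm n s)) (fm n top) = true) (j : ℕ) (hj : q.testBit j = false) :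
    dd t n (fam a γ top s) a j = 0 := by
  set F := fam a γ top s with hF
  have hq' : q ||| bm n s = fm n top := Nat.eq_of_beq_eq_true hq
  have hbit : (bm n s).testBit j = (fm n top).testBit j := by
    rw [← hq', Nat.testBit_or, hj, Bool.false_or]
  by_cases hbm : (bm n s).testBit j = true
  · obtain ⟨k', q', l', h1, h3⟩ := bm_ent n 64 j hbm
    obtain ⟨g1, g2, g3, g4⟩ := fam_ent a γ hb k' q' l' h1
    rw [← hF] at g3
    have hq't : q' ≤ top ∨ F k' = 0 := by
      by_contra hcon
      push Not at hcon
      have : F q' = 0 := fam_high a γ hcon.1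
      rw [this, zero_mul] at g3
      exact hcon.2 g3
    have hrow : vec F (ap t l' (2 ^ q')) = F k' := by
      have hsp := vec_split F 64 (ap t l' (2 ^ q'))
      have hdiv : ap t l' (2 ^ q') / 2 ^ 64 = 2 ^ (k' - 64) := by
        have : Nat.shiftRight (ap t l' (2 ^ q')) 64 = ap t l' (2 ^ q') / 2 ^ 64 :=
          Nat.shiftRight_eq_div_pow _ _
        rw [← this, g4]
      have hlow : vec F (ap t l' (2 ^ q') % 2 ^ 64) = 0 := by
        rw [vec_congr_lt (g := fun _ => (0 : R)) (Nat.mod_lt _ (Nat.two_pow_pos 64))
          fun k hk => F_low a γ hb k hk, vec_null _ fun _ => rfl]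
      rw [hsp, hlow, hdiv, vec_two_pow, zero_add]
      congr 1
      omega
    have hde : de t F a l' q' = 0 := by
      rw [de, hrow, g3, sub_self]
    by_cases hqn : q' < n
    · rw [h3, dd_num t F a l' hqn, hde]
    · exfalso
      have h5 : q' < n := by
        by_contra hqn'
        have hrow0 : ap t l' (2 ^ q') = 0 := by
          have hlt := ap_lt hw l' (2 ^ q')
          have key : ∀ (T : Tp), wfp T 64 n = true → ay T (2 ^ q') = 0 := by
            intro T hT
            exact ay_out T hT (by omega)
          cases l'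
          · exact key _ hw.wx
          · exact key _ hw.wy
          · exact key _ hw.wg
          · exact key _ hw.wc
        rw [hrow0] at g4
        have h6 : (0 : ℕ) = 2 ^ (k' - 64) := g4
        exact absurd h6.symm (Nat.two_pow_pos _).ne'
      exact hqn h5
  · have hfm : (fm n top).testBit j = false := by
      rw [← hbit]
      simpa using hbm
    by_cases hj64 : j < 64
    · unfold dd
      rw [if_pos hj64]
    · have hn : 0 < n := by omega
      have hkn : (j - 64) % n < n := Nat.mod_lt _ hn
      have hjd : j = (j - 64) % n + ((j - 64) / n * n + 64) := by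
        have := Nat.mod_add_div (j - 64) n
        rw [Nat.mul_comm] at this
        omega
      have triv : ∀ l : Lt, (j - 64) / n = l.num → de t F a l ((j - 64) % n) = 0 := by
        intro l hl
        set k := (j - 64) % n with hk
        have hk' : k < 64 ∨ top < k := by
          by_contra hcon
          push Not at hcon
          have := fm_bit (n := n) (top := top) l hcon.1 hcon.2
          rw [← hl, ← hjd, hfm] at this
          exact absurd this (by simp)
        have hFk : F k = 0 := by
          rcases hk' with h | h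
          · exact F_low a γ hb k h
          · exact fam_high a γ h
        have hvec : vec F (ap t l (2 ^ k)) = 0 := by
          rcases hk' with h | h
          · have key : ∀ (T : Tp), wfp T 64 n = true → vec F (ay T (2 ^ k)) = 0 := by
              intro T hT
              rw [ay_spec h2 F T hT, vec_two_pow]
              exact gp_out F T hT k (Or.inl h)
            cases l
            · exact key _ hw.wx
            · exact key _ hw.wy
            · exact key _ hw.wg
            · exact key _ hw.wc
          · rw [zr_spec t _ _ hz k (by omega) (by omega) l, vec_zero]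
        rw [de, hFk, zero_mul, hvec, sub_zero]
      unfold dd
      rw [if_neg hj64]
      by_cases i0 : (j - 64) / n = 0
      · rw [if_pos i0]; exact triv .x i0
      · rw [if_neg i0]
        by_cases i1 : (j - 64) / n = 1
        · rw [if_pos i1]; exact triv .y i1
        · rw [if_neg i1]
          by_cases i2 : (j - 64) / n = 2
          · rw [if_pos i2]; exact triv .g i2
          · rw [if_neg i2]
            by_cases i3 : (j - 64) / n = 3
            · rw [if_pos i3]; exact triv .c i3
            · rw [if_neg i3]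

end

/-! ### Evaluation -/

/-- Check that a product vanishes. -/
noncomputable def zt (t : Tb) (p : Pr) : ℕ → Bool :=
  Pr.rec (motive := fun _ => ℕ → Bool)
    (fun l v => Nat.beq (ap t l v) 0)
    (fun w v => Nat.beq (Nat.xor (gm t w v) v) 0)
    (fun l _ ih v => fo (ap t l v) ih)
    (fun w _ ih v => fo (gm t w v) ih)
    (fun w _ ih v => fo (Nat.xor (gm t w v) v) ih) p

/-- Check that the product of the basis element `b` with `p` vanishes. -/
noncomputable def ztb (t : Tb) (p : Pr) (b : ℕ) : Bool := zt t p (Nat.add (Nat.pow 2 b) b)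

section
variable {t : Tb} {n hi : ℕ} (hw : WF t n hi) (h2 : (2 : R) = 0) (F : ℕ → R) (a : Lt → R)
  (H : ∀ j, dd t n F a j = 0)

include H in
theorem de_zero (l : Lt) {v : ℕ} (hv : v < 2 ^ n) : vec (de t F a l) v = 0 := by
  rw [vec_congr_lt (g := fun _ => (0 : R)) hv fun k hk => ?_, vec_null _ fun _ => rfl]
  rw [← dd_num t F a l hk, H]

include hw h2 H in
theorem gm_ex (w : Wd) : ∀ {v : ℕ}, v < 2 ^ n → vec F v * gw a w = vec F (gm t w v) := by
  induction w with
  | n => intro v _; rw [gw, mul_one, gm_n]
  | k l w ih =>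
    intro v hv
    have hx : Nat.xor v (ap t l v) < 2 ^ n := Nat.xor_lt_two_pow hv (ap_lt hw l v)
    rw [gm_k, ← ih hx, vec_xor h2, gw, ← mul_assoc, mul_add,
      mul_one, ap_mul hw h2 F a l v, de_zero F a H l hv, add_zero]

include hw h2 H in
theorem zt_spec (p : Pr) : ∀ {v : ℕ}, v < 2 ^ n → zt t p v = true → vec F v * pv a p = 0 := by
  induction p with
  | fin l =>
    intro v hv h
    have h' : ap t l v = 0 := Nat.eq_of_beq_eq_true h
    rw [pv, ap_mul hw h2 F a l v, de_zero F a H l hv, add_zero, h', vec_zero]
  | finw w =>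
    intro v hv h
    have h' : Nat.xor (gm t w v) v = 0 := Nat.eq_of_beq_eq_true h
    have h3 := vec_xor h2 F (gm t w v) v
    rw [h', vec_zero] at h3
    rw [pv, mul_sub, mul_one, gm_ex hw h2 F a H w hv, sub_eq_add_neg, ng h2]
    exact h3.symm
  | mul l p ih =>
    intro v hv h
    have h' : zt t p (ap t l v) = true := by
      have e : zt t (.mul l p) v = fo (ap t l v) (zt t p) := rfl
      rwa [e, fo_eq] at h
    have := ih (ap_lt hw l v) h'
    rw [pv, ← mul_assoc, ap_mul hw h2 F a l v, de_zero F a H l hv, add_zero, this]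
  | grp w p ih =>
    intro v hv h
    have h' : zt t p (gm t w v) = true := by
      have e : zt t (.grp w p) v = fo (gm t w v) (zt t p) := rfl
      rwa [e, fo_eq] at h
    have := ih (gm_lt hw w hv) h'
    rw [pv, ← mul_assoc, gm_ex hw h2 F a H w hv, this]
  | mwd w p ih =>
    intro v hv h
    have h' : zt t p (Nat.xor (gm t w v) v) = true := by
      have e : zt t (.mwd w p) v = fo (Nat.xor (gm t w v) v) (zt t p) := rfl
      rwa [e, fo_eq] at h
    have hx : Nat.xor (gm t w v) v < 2 ^ n := Nat.xor_lt_two_pow (gm_lt hw w hv) hv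
    have := ih hx h'
    rw [vec_xor h2, add_mul] at this
    rw [pv, ← mul_assoc, mul_sub, mul_one, gm_ex hw h2 F a H w hv, sub_mul, sub_eq_add_neg,
      ng h2]
    exact this

end

end Pool.Agent.L3E.RM
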