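import Pool.Agent.L3E.RM.Core

set_option autoImplicit false
set_option maxRecDepth 100000
set_option linter.all false

namespace Pool.Agent.L3E.RM.M

open Pool.Agent.L3E.RMG Pool.Agent.L3E.RM

noncomputable def q0 : ℕ := nat_lit 10314467309801983933986695054915934348589622491164913052462372387561583529099828751167595144016926958819451371070894242818591243927191899479157722791859603968339535355303357911354600017378284360452929682815918500263809875986398273860123277485197017247240249121228513777114643536874855283988382294162357209161752431386349720374137795059288661355175813846689679750550488567843424350614045512159846725080645637594677737535290511684791330047770239403340989530972853292531966331578521947307039460534010280710404073271907533075051282909287259600875920344226847936499814503836713916979047480981099451594420362250719305959468410264255537508152385362953006673025922218928694451500423681982878087774463788060577066260054275992344975536847870283579382330231913645944933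3087861986766139250370257396783737278183098547586307160536755004592041081225258239680646352790586215150946391956870431807397100140154648857699882968565057267205200577006424983024683606872876033139723699484524699985027003675828160996892117915362523491343439385263267719354017180517988529489630558940272261562695872362289315954209314813520820527548339449472126639359363701735328836749714369928222166382175846692670589126887791683884094502241921934379110892300773073929039102216674747417078031395069354667884879073458229408001824691288718611132398082780289766440107894204411431417063441601260404191892658139520396648499678815157149609217926164446681007877260126989964612046511586082364761919276331515847259853984515913748175220039738521606354911397704522686290860943384453204067749798506479706979930883879937018677317018848539310835351204450004164468697668701809751300898436299174494545647593165012799229363367852924564424277673690339184585198559776777944348411731957142116080239214633282534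3116451406429304921225830697632402084674364603123876049151874416252707582815736998058022780681081711982134861320075931508593167012566785152753583041925607135113513371339793646653977252681070745537731672936391648582019601141775248532719017763338863830339102159201990831655821026061990816588112170887671216601406987283411345012612486710519572260663168228053925217358463032680213186593364175595809322293484080465350725011706192492459117422922416964846655946327821580895363735521940506966961520006897666647770878201271356462430832778921379986462113300095583942797779900064776880969715320958912000484500216099292449322139774096727440657444458890121395344892716093167181251384019791884419397741521572073771683490084735277628159456940053671662180447898255361548975884440998680558883813552748340461858196158098886247524396235578570363595969290441795555132306951962820837727506714154183100072997525361875769984321988987600108838105971782713864457375298945270020766992908674679950678865273618821125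490454341630087555400952732476037977921561825617869112780654503818548877449603181679597815440089948421550397946223164621703492723061467008195118608035207216089219454463073066247866806816640788264050362782341881812199426077656714843283204172067929995027537498629770267551520940727626075047629790498690890032709537517979366388437962139305193547599559738212453079646946503392903059683911757659819621754324667696231044670716628391070228877087461897587767099891962663660028199141127358126427385587779049326438019279587424001035079583883291313301171393894697516808309147095268869235116495409782980608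

noncomputable def q1 : ℕ := nat_lit 94934185669078649923044978560320780141407954764216227999226705657187247542995307646966546600941533302751696216920354370289885586169056571807920179262055372537955256021202713030330258915684363063119974273504846881809935684761605505566296836015146616834054320793907724746997827329761183960403589343827150163846378962329548309673287064545096853989179003590645346662462624681149174743653552170299807109766411218749485274411950845616319497039419537093856467860735261526644254815680585759230711318504386724994873733895182968896212530638130056042806486388051745215385008374355816281326077287381656944533953343572641588765439372612537183209954866883696784128502367094615761425155498662532255734395720213583089601904589835292988283567354238698083649542931659086596466463336218505732100581662484547856617898922826845185624565248272672583616893465269462236576490632870695870684562373435752250972404907743800230945622137540875356135426871532490690541650701111738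6446089808735874119556367037061327110905674639347192036560378422582297188734807504781642863241012452983122043478887090438320992300384130344617097656954515894214068207086097207304023791137405811449823494490504036282555220118923734170011436393400329123804137358545594182807203180415602083477343201123216746221842478711735141698698381793929275014506386942431318855918365849247883810136252911488589233454935983280858113368102738786888296844791586744106349601331356799499421613892666203621288345446928474539204584362213365214875324377907453194963194487746633940045863434211397527702760757196812276936401749156456791148044415757509919472884393554275954181657876720902462448501468023189734851563981352818924559791920941376398628901532920294345561451239489452417242439344708241741497686741402026290597260487028177262071201612779101632160341224501609342433478130495640834503997504553545250977082123828547045614658132496297862719473173203464869403509822993931311389951256207540273714593918378084770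53994384667093326153720173646795901853860500004745167070974934306642342604209111834319414377321051608261594128001555747766049840184675447316819659197888560114032332272015724954249841468476233272127738022552287586778361897253811886245896706699052545409852315857866512336306594394368926042478883041181608294233472284042841797424581342069517450959249080046537469388287343879845102357293575114105543631971106418454585675585467427469145254590146204227731465354541601191231721744302760133097144838335659294804153730718172829229054947547348791861459215102830614163507456707570125725779831575225884672862508719631818356050466525045717696738054206634599824845634439755516580036355686249166732370889117608373398416824402100088287498004404326162591509262657637146104889923298649159222209829771477334982454672207488308159399252788751025369207471882857420465002629257449350899314007964124536561700196682164568402043945148722144681457759203057501929176348240436128439716412845145509451414577130015859553666869915688321727734725013548867228708483052622126240350133118826763517782585036619112719730532539354854809447156789167560995571741247092877705182746239258148895731650953785646136659441172322625329142998376398475397093400790074862346339723411225845016887240389562053660397956792294066197855846824038919473752289760014791073060991635524507018626979354257434043941669301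

noncomputable def q2 : ℕ := nat_lit 94934185669078649923044978560320780141407954764216227999226705657187247542995307646966546600941533302751696216920354370289885586169056571807920179262055372537955256021202713030330258915684363063119974273504846881809935684761605505566296836015146616834054320793907724746997827329761183960403589343827150163846378962329548309673287064545096853989179003590645346662462624681149174743653552170299807109766411218749485274411950845616319497039419537093856467860735261526644254815680585759230711318504386724994873733895182968896212530638130056042806486388051745215385008374355816281326077287381656944533953343572641588765439372612537183209954866883696784128502367094615761425155498662532255734395720213583089601904589835292988283567354238698083649542931659086596466463336218505732100581662484547856617898922826845185624565248272672583616893465269462236576490632870695870684562373435752250972404907743800230945622137540875356135426871532490690541650701111738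6446089808735874119556367037061327110905674639347192036560378422582297188734807504781642863241012452983122043478887090438320992300384130344617097656954515894214068207086097207304023791137405811449823494490504036282555220118923734170011436393400329119084378615642806935301213200133896400036520282885448547148326988679903572539066850084776274305905668077084856572501616279301745748482363616850427192156291406568873580744437247824004883116474212595392363317868150859737677382759976559302667637423416390256629882637860381389149734468637082086282202053548406693935830438767727005157924159329220491217027972757377453788643215068600314893128400158225498902636271781491510855423289546143379331190048533150680168846891534779846734566352768871890393672284307813972055877417393787814408033454597646606219372110237658918422318200182572097886935988135437217577561849201066811491781742065837047345592135087641742445258828773330566895388102843306875007646706856588474178254717824180994527093322917597477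31037671679232914846024050497627680324928750257344293889919609497200095985336004978409661489207882402060944339898190663000477605875911759530677818076791687502030977412497291474936672390108615033153015050891612641185869474128614992327415918664384811798696807876992694450507681132150693128360799266761213508444312937773181528488140352440215284304453723262604770988830631819777960898572692825777213337069466467570573217510734942823213279126279507123945021623510385535418613410303457762413415915333520446687374412379315458885264252924431266105334494709794022808850974239023455535572090100093382335607427311791850741598296995563618157526565181167196325630407460082886270425983885559147964621837053276877170099262454061941696447636677007462457232877152506666784664049010575783260161341558612155531267821315619514343425619383896141798741971339717314989678607746905032471787714170353540860760002855938320561705095675564742111186216607554311785544411283651785759934378841569080464843793009560194324957459522113183835268358906260331088124251744275636809144291164121234193920669695758356644216126712090947109637412948632844905302434231507958221198216212211722702506511946734613735212173556847394492031007995087457737370238558602158394291110515060915356581642667877014920664878395123347379538821496633903491961009758518199212145215973988382998773098188822935025542023741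

noncomputable def q3 : ℕ := nat_lit 94934185669078649923044978560320780141407954764216227999226705657187247542995307646966546600941533302751696216920354370289885586169056571807920179262055372537955256021202713030330258915684363063119974273504846881809935684761605505566296836015146616834054320793907724746997827329761183960403589343827150163846378962329548309673287064545096853989179003590645346662462624681149174743653552170299807109766411218749485274411950845616319497039419537093856467860735261526644254815680585759230711318504386724994873733895182968896212530638130056042806486388051745215385008374355816281326077287381656944533953343572641588765439372612537183209954866883696784128502367094615761425155498662532255734395720213583089601904589835292988283567354238698083649542931659086596466463336218505732100581662484547856617898922826845185624565248272672583616893465269462236576490632870695870684562373435752250972404907743800230945622137540875356135426871532490690526788743489238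6864187232517470131440571931607687945328741662657720549461769780793787685001746067412822223025294470127875284500737999588794593211319743536334572937474947196401790044326053437617325685500847458941784095336060537783808222889835199242277997772977658356518283869503855893131569590719738773778233525041676253398144239208642154795669059620895176124296013949140392079986710957147314741210657180728481994603044307039311583687550596795827603355996206129835420973959837604582576793588777970287041299475322713187732794575532769907565830031059455995520041616283697083769993815201169705865081970737236856039071279787047187969315439968711054001279758357299288999615863053797453106477645255307994427177207003776512990949238014432307819474489286257044171562126669972504675675834610727033615891214912422487576343146554606421297687484949144730744505720898086028752846622249115779466974036471226701012030239028117997435135989690979021045045342237044968076358661664697246115127663962964749555738461389855306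79693045437679902322470257872347887697705656499752844659362418476996827956457090527111606485598590587427091354579461465660948835813839422723906429234853295358984266814914297255005004896712812858828100984825202479036520974942502961670903227762397949244214991960697721560595934837468020751153241551703754322593491413711939268411466801743976772078155390233889843220060633585895908129858341629564125582819141154561749340886070167431267363331731149736343863139865656566646966728754495761421984505634524823290518935600486670927464192133356818786336519498116698192076959772217146969820715453825196626037805335650165278331874527337141690716177203235354951635007938105063856107772907769977221638796793246292361146263389184975757529469914730171033469506469168527152827070675389606108858961230188456646483506741117452469428685469261366685221726576922968749782406290863995242713843125363755930028160954808305342381053846419752842406002237601823222591943002269592595153159340646344753154232644409592666078010301637519297718229995579932422802375974805414610212969064543780829645473395969617621985793244248635803656554454224669545941054969802679756748517830533246326386558966419134194121960652151004604276570606842697304236206340411281874594244916024691598566531986152460788428432260871806188495892549354349828636712867326231633477260634580206300287415401641935012521832258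

noncomputable def q4 : ℕ := nat_lit 803658954916273708

noncomputable def w44 : Bs := (.c (nat_lit 2721) .c (.c (nat_lit 2722) .y (.c (nat_lit 2722) .x (.c (nat_lit 2723) .x (.c (nat_lit 2723) .c (.c (nat_lit 2724) .g (.c (nat_lit 2724) .y (.c (nat_lit 2724) .c (.c (nat_lit 2725) .g (.c (nat_lit 2725) .x (.c (nat_lit 2726) .x (.c (nat_lit 2726) .c (.c (nat_lit 2727) .g (.c (nat_lit 2727) .x (.c (nat_lit 2727) .c (.c (nat_lit 2728) .g (.c (nat_lit 2728) .y (.c (nat_lit 2729) .x (.c (nat_lit 2729) .c (.c (nat_lit 2730) .g (.c (nat_lit 2730) .x (.c (nat_lit 2730) .c (.c (nat_lit 2731) .g (.c (nat_lit 2731) .y (.c (nat_lit 2731) .c (.c (nat_lit 2732) .g (.c (nat_lit 2732) .y (.c (nat_lit 2732) .x .e))))))))))))))))))))))))))))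

noncomputable def w43 : Bs := (.c (nat_lit 2694) .c (.c (nat_lit 2695) .g (.c (nat_lit 2695) .x (.c (nat_lit 2696) .g (.c (nat_lit 2696) .y (.c (nat_lit 2697) .g (.c (nat_lit 2697) .y (.c (nat_lit 2697) .c (.c (nat_lit 2698) .y (.c (nat_lit 2698) .x (.c (nat_lit 2699) .x (.c (nat_lit 2699) .c (.c (nat_lit 2700) .g (.c (nat_lit 2700) .y (.c (nat_lit 2700) .c (.c (nat_lit 2701) .g (.c (nat_lit 2701) .x (.c (nat_lit 2702) .c (.c (nat_lit 2703) .g (.c (nat_lit 2703) .c (.c (nat_lit 2704) .y (.c (nat_lit 2705) .x (.c (nat_lit 2705) .c (.c (nat_lit 2706) .g (.c (nat_lit 2706) .y (.c (nat_lit 2706) .c (.c (nat_lit 2707) .g (.c (nat_lit 2707) .y (.c (nat_lit 2707) .c (.c (nat_lit 2708) .g (.c (nat_lit 2708) .y (.c (nat_lit 2708) .x (.c (nat_lit 2709) .x (.c (nat_lit 2709) .c (.c (nat_lit 2710) .g (.c (nat_lit 2710) .c (.c (nat_lit 2711) .g (.c (nat_lit 2712) .x (.c (nat_lit 2712) .c (.c (nat_lit 2713) .g (.c (nat_lit 2713) .y (.c (nat_lit 2713) .c (.c (nat_lit 2714) .c (.c (nat_lit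 2715) .g (.c (nat_lit 2715) .y (.c (nat_lit 2715) .x (.c (nat_lit 2716) .x (.c (nat_lit 2716) .c (.c (nat_lit 2717) .g (.c (nat_lit 2717) .c (.c (nat_lit 2718) .g (.c (nat_lit 2718) .y (.c (nat_lit 2718) .x (.c (nat_lit 2719) .x (.c (nat_lit 2719) .c (.c (nat_lit 2720) .g (.c (nat_lit 2720) .x (.c (nat_lit 2720) .c (.c (nat_lit 2721) .g (.c (nat_lit 2721) .y w44))))))))))))))))))))))))))))))))))))))))))))))))))))))))))))

noncomputable def w42 : Bs := (.c (nat_lit 2665) .y (.c (nat_lit 2665) .c (.c (nat_lit 2666) .g (.c (nat_lit 2666) .x (.c (nat_lit 2667) .x (.c (nat_lit 2667) .c (.c (nat_lit 2668) .g (.c (nat_lit 2668) .c (.c (nat_lit 2669) .g (.c (nat_lit 2669) .y (.c (nat_lit 2670) .c (.c (nat_lit 2671) .c (.c (nat_lit 2672) .g (.c (nat_lit 2672) .y (.c (nat_lit 2672) .x (.c (nat_lit 2673) .x (.c (nat_lit 2674) .x (.c (nat_lit 2675) .g (.c (nat_lit 2675) .y (.c (nat_lit 2675) .c (.c (nat_lit 2676) .c (.c (nat_lit 2677) .g (.c (nat_lit 2677) .y (.c (nat_lit 2677) .x (.c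 (nat_lit 2678) .x (.c (nat_lit 2678) .c (.c (nat_lit 2679) .g (.c (nat_lit 2679) .y (.c (nat_lit 2680) .x (.c (nat_lit 2680) .c (.c (nat_lit 2681) .g (.c (nat_lit 2681) .y (.c (nat_lit 2681) .c (.c (nat_lit 2682) .y (.c (nat_lit 2682) .x (.c (nat_lit 2683) .x (.c (nat_lit 2683) .c (.c (nat_lit 2684) .g (.c (nat_lit 2684) .x (.c (nat_lit 2684) .c (.c (nat_lit 2685) .g (.c (nat_lit 2685) .y (.c (nat_lit 2686) .x (.c (nat_lit 2687) .x (.c (nat_lit 2688) .g (.c (nat_lit 2688) .x (.c (nat_lit 2688) .c (.c (nat_lit 2689) .g (.c (nat_lit 2689) .y (.c (nat_lit 2690) .g (.c (nat_lit 2690) .y (.c (nat_lit 2690) .c (.c (nat_lit 2691) .g (.c (nat_lit 2691) .y (.c (nat_lit 2691) .x (.c (nat_lit 2692) .x (.c (nat_lit 2692) .c (.c (nat_lit 2693) .g (.c (nat_lit 2693) .x (.c (nat_lit 2694) .x w43))))))))))))))))))))))))))))))))))))))))))))))))))))))))))))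

noncomputable def w41 : Bs := (.c (nat_lit 2635) .x (.c (nat_lit 2636) .x (.c (nat_lit 2637) .x (.c (nat_lit 2638) .g (.c (nat_lit 2638) .y (.c (nat_lit 2638) .c (.c (nat_lit 2639) .c (.c (nat_lit 2640) .g (.c (nat_lit 2640) .y (.c (nat_lit 2640) .x (.c (nat_lit 2641) .x (.c (nat_lit 2641) .c (.c (nat_lit 2642) .g (.c (nat_lit 2642) .y (.c (nat_lit 2643) .g (.c (nat_lit 2643) .y (.c (nat_lit 2643) .c (.c (nat_lit 2644) .y (.c (nat_lit 2644) .x (.c (nat_lit 2645) .x (.c (nat_lit 2645) .c (.c (nat_lit 2646) .g (.c (nat_lit 2646) .y (.c (nat_lit 2647) .x (.c (nat_lit 2647) .c (.c (nat_lit 2648) .g (.c (nat_lit 2648) .x (.c (nat_lit 2648) .c (.c (nat_lit 2649) .c (.c (nat_lit 2650) .g (.c (nat_lit 2650) .c (.c (nat_lit 2651) .y (.c (nat_lit 2652) .x (.c (nat_lit 2652) .c (.c (nat_lit 2653) .g (.c (nat_lit 2653) .y (.c (nat_lit 2653) .c (.c (nat_lit 2654) .g (.c (nat_lit 2654) .y (.c (nat_lit 2654) .c (.c (nat_lit 2655) .g (.c (nat_lit 2655) .y (.c (nat_lit 2655) .x (.c (nat_lit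 2656) .x (.c (nat_lit 2656) .c (.c (nat_lit 2657) .g (.c (nat_lit 2657) .c (.c (nat_lit 2658) .g (.c (nat_lit 2659) .x (.c (nat_lit 2659) .c (.c (nat_lit 2660) .g (.c (nat_lit 2660) .y (.c (nat_lit 2660) .c (.c (nat_lit 2661) .g (.c (nat_lit 2661) .y (.c (nat_lit 2662) .x (.c (nat_lit 2662) .c (.c (nat_lit 2664) .x (.c (nat_lit 2664) .c (.c (nat_lit 2665) .g w42))))))))))))))))))))))))))))))))))))))))))))))))))))))))))))

noncomputable def w40 : Bs := (.c (nat_lit 2604) .x (.c (nat_lit 2605) .x (.c (nat_lit 2606) .g (.c (nat_lit 2606) .x (.c (nat_lit 2606) .c (.c (nat_lit 2607) .g (.c (nat_lit 2607) .y (.c (nat_lit 2608) .g (.c (nat_lit 2608) .c (.c (nat_lit 2609) .g (.c (nat_lit 2609) .y (.c (nat_lit 2609) .x (.c (nat_lit 2610) .x (.c (nat_lit 2610) .c (.c (nat_lit 2611) .g (.c (nat_lit 2611) .x (.c (nat_lit 2612) .g (.c (nat_lit 2612) .y (.c (nat_lit 2612) .c (.c (nat_lit 2613) .y (.c (nat_lit 2613) .x (.c (nat_lit 2614) .c (.c (nat_lit 2615) .g (.c (nat_lit 2615) .c (.c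 (nat_lit 2616) .y (.c (nat_lit 2617) .x (.c (nat_lit 2617) .c (.c (nat_lit 2618) .g (.c (nat_lit 2618) .y (.c (nat_lit 2618) .c (.c (nat_lit 2619) .c (.c (nat_lit 2620) .g (.c (nat_lit 2620) .y (.c (nat_lit 2620) .x (.c (nat_lit 2621) .x (.c (nat_lit 2621) .c (.c (nat_lit 2622) .g (.c (nat_lit 2623) .g (.c (nat_lit 2624) .x (.c (nat_lit 2624) .c (.c (nat_lit 2625) .g (.c (nat_lit 2625) .x (.c (nat_lit 2625) .c (.c (nat_lit 2626) .g (.c (nat_lit 2626) .y (.c (nat_lit 2627) .g (.c (nat_lit 2627) .y (.c (nat_lit 2628) .x (.c (nat_lit 2628) .c (.c (nat_lit 2630) .g (.c (nat_lit 2630) .x (.c (nat_lit 2631) .x (.c (nat_lit 2631) .c (.c (nat_lit 2632) .g (.c (nat_lit 2632) .x (.c (nat_lit 2632) .c (.c (nat_lit 2633) .c (.c (nat_lit 2634) .c (.c (nat_lit 2635) .g (.c (nat_lit 2635) .y w41))))))))))))))))))))))))))))))))))))))))))))))))))))))))))))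

noncomputable def w39 : Bs := (.c (nat_lit 2568) .y (.c (nat_lit 2568) .x (.c (nat_lit 2569) .x (.c (nat_lit 2569) .c (.c (nat_lit 2570) .g (.c (nat_lit 2570) .y (.c (nat_lit 2571) .x (.c (nat_lit 2571) .c (.c (nat_lit 2572) .g (.c (nat_lit 2572) .y (.c (nat_lit 2572) .c (.c (nat_lit 2573) .y (.c (nat_lit 2573) .x (.c (nat_lit 2574) .x (.c (nat_lit 2574) .c (.c (nat_lit 2575) .g (.c (nat_lit 2575) .x (.c (nat_lit 2575) .c (.c (nat_lit 2576) .g (.c (nat_lit 2576) .y (.c (nat_lit 2577) .x (.c (nat_lit 2578) .c (.c (nat_lit 2579) .c (.c (nat_lit 2580) .g (.c (nat_lit 2580) .x (.c (nat_lit 2581) .g (.c (nat_lit 2581) .c (.c (nat_lit 2582) .x (.c (nat_lit 2583) .c (.c (nat_lit 2584) .c (.c (nat_lit 2585) .g (.c (nat_lit 2586) .x (.c (nat_lit 2586) .c (.c (nat_lit 2587) .g (.c (nat_lit 2587) .y (.c (nat_lit 2587) .c (.c (nat_lit 2589) .y (.c (nat_lit 2590) .x (.c (nat_lit 2590) .c (.c (nat_lit 2591) .g (.c (nat_lit 2592) .x (.c (nat_lit 2592) .c (.c (nat_lit 2593) .g (.c (nat_lit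 2593) .x (.c (nat_lit 2593) .c (.c (nat_lit 2594) .g (.c (nat_lit 2594) .y (.c (nat_lit 2596) .x (.c (nat_lit 2597) .x (.c (nat_lit 2599) .g (.c (nat_lit 2599) .y (.c (nat_lit 2599) .c (.c (nat_lit 2600) .g (.c (nat_lit 2600) .y (.c (nat_lit 2601) .x (.c (nat_lit 2601) .c (.c (nat_lit 2602) .g (.c (nat_lit 2602) .c (.c (nat_lit 2603) .g (.c (nat_lit 2603) .y w40))))))))))))))))))))))))))))))))))))))))))))))))))))))))))))

noncomputable def w38 : Bs := (.c (nat_lit 2535) .x (.c (nat_lit 2536) .x (.c (nat_lit 2536) .c (.c (nat_lit 2537) .g (.c (nat_lit 2538) .c (.c (nat_lit 2539) .g (.c (nat_lit 2539) .c (.c (nat_lit 2540) .y (.c (nat_lit 2541) .x (.c (nat_lit 2541) .c (.c (nat_lit 2542) .g (.c (nat_lit 2542) .y (.c (nat_lit 2542) .c (.c (nat_lit 2543) .g (.c (nat_lit 2543) .y (.c (nat_lit 2543) .c (.c (nat_lit 2544) .g (.c (nat_lit 2544) .x (.c (nat_lit 2545) .x (.c (nat_lit 2545) .c (.c (nat_lit 2546) .g (.c (nat_lit 2546) .c (.c (nat_lit 2547) .c (.c (nat_lit 2548) .g (.c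 (nat_lit 2548) .y (.c (nat_lit 2548) .x (.c (nat_lit 2549) .x (.c (nat_lit 2549) .c (.c (nat_lit 2550) .g (.c (nat_lit 2550) .c (.c (nat_lit 2551) .g (.c (nat_lit 2552) .g (.c (nat_lit 2552) .y (.c (nat_lit 2553) .x (.c (nat_lit 2553) .c (.c (nat_lit 2555) .x (.c (nat_lit 2555) .c (.c (nat_lit 2556) .g (.c (nat_lit 2556) .y (.c (nat_lit 2556) .c (.c (nat_lit 2557) .g (.c (nat_lit 2557) .x (.c (nat_lit 2558) .x (.c (nat_lit 2558) .c (.c (nat_lit 2559) .g (.c (nat_lit 2559) .c (.c (nat_lit 2560) .g (.c (nat_lit 2560) .y (.c (nat_lit 2561) .c (.c (nat_lit 2562) .c (.c (nat_lit 2563) .g (.c (nat_lit 2563) .y (.c (nat_lit 2563) .x (.c (nat_lit 2564) .x (.c (nat_lit 2565) .x (.c (nat_lit 2566) .g (.c (nat_lit 2566) .y (.c (nat_lit 2566) .c (.c (nat_lit 2567) .c (.c (nat_lit 2568) .g w39))))))))))))))))))))))))))))))))))))))))))))))))))))))))))))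

noncomputable def w37 : Bs := (.c (nat_lit 2496) .x (.c (nat_lit 2496) .c (.c (nat_lit 2497) .g (.c (nat_lit 2497) .y (.c (nat_lit 2498) .g (.c (nat_lit 2498) .y (.c (nat_lit 2498) .c (.c (nat_lit 2499) .g (.c (nat_lit 2499) .y (.c (nat_lit 2499) .x (.c (nat_lit 2500) .c (.c (nat_lit 2501) .x (.c (nat_lit 2501) .c (.c (nat_lit 2502) .y (.c (nat_lit 2502) .c (.c (nat_lit 2503) .y (.c (nat_lit 2503) .x (.c (nat_lit 2504) .x (.c (nat_lit 2504) .c (.c (nat_lit 2505) .g (.c (nat_lit 2505) .c (.c (nat_lit 2506) .g (.c (nat_lit 2506) .x (.c (nat_lit 2509) .c (.c (nat_lit 2511) .g (.c (nat_lit 2511) .c (.c (nat_lit 2512) .x (.c (nat_lit 2513) .x (.c (nat_lit 2513) .c (.c (nat_lit 2515) .c (.c (nat_lit 2517) .x (.c (nat_lit 2517) .c (.c (nat_lit 2518) .g (.c (nat_lit 2518) .c (.c (nat_lit 2519) .g (.c (nat_lit 2519) .x (.c (nat_lit 2520) .g (.c (nat_lit 2520) .y (.c (nat_lit 2522) .x (.c (nat_lit 2523) .x (.c (nat_lit 2524) .g (.c (nat_lit 2525) .g (.c (nat_lit 2525) .y (.c (nat_lit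 2525) .c (.c (nat_lit 2526) .g (.c (nat_lit 2526) .y (.c (nat_lit 2527) .x (.c (nat_lit 2527) .c (.c (nat_lit 2528) .g (.c (nat_lit 2528) .c (.c (nat_lit 2529) .g (.c (nat_lit 2530) .x (.c (nat_lit 2531) .x (.c (nat_lit 2532) .g (.c (nat_lit 2532) .x (.c (nat_lit 2533) .g (.c (nat_lit 2533) .y (.c (nat_lit 2534) .g (.c (nat_lit 2534) .y (.c (nat_lit 2534) .c w38))))))))))))))))))))))))))))))))))))))))))))))))))))))))))))

noncomputable def w36 : Bs := (.c (nat_lit 2457) .g (.c (nat_lit 2459) .g (.c (nat_lit 2459) .y (.c (nat_lit 2460) .x (.c (nat_lit 2460) .c (.c (nat_lit 2461) .g (.c (nat_lit 2461) .y (.c (nat_lit 2462) .x (.c (nat_lit 2462) .c (.c (nat_lit 2464) .g (.c (nat_lit 2464) .y (.c (nat_lit 2465) .g (.c (nat_lit 2465) .y (.c (nat_lit 2466) .x (.c (nat_lit 2466) .c (.c (nat_lit 2468) .g (.c (nat_lit 2468) .x (.c (nat_lit 2469) .x (.c (nat_lit 2470) .g (.c (nat_lit 2470) .x (.c (nat_lit 2471) .c (.c (nat_lit 2473) .x (.c (nat_lit 2474) .x (.c (nat_lit 2475) .g (.c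 (nat_lit 2475) .y (.c (nat_lit 2475) .c (.c (nat_lit 2476) .g (.c (nat_lit 2476) .y (.c (nat_lit 2476) .c (.c (nat_lit 2477) .y (.c (nat_lit 2477) .x (.c (nat_lit 2478) .x (.c (nat_lit 2478) .c (.c (nat_lit 2479) .g (.c (nat_lit 2480) .c (.c (nat_lit 2481) .c (.c (nat_lit 2482) .y (.c (nat_lit 2483) .x (.c (nat_lit 2483) .c (.c (nat_lit 2484) .g (.c (nat_lit 2484) .y (.c (nat_lit 2484) .c (.c (nat_lit 2485) .g (.c (nat_lit 2485) .y (.c (nat_lit 2486) .x (.c (nat_lit 2486) .c (.c (nat_lit 2488) .x (.c (nat_lit 2488) .c (.c (nat_lit 2489) .g (.c (nat_lit 2489) .y (.c (nat_lit 2489) .c (.c (nat_lit 2490) .g (.c (nat_lit 2490) .x (.c (nat_lit 2491) .x (.c (nat_lit 2491) .c (.c (nat_lit 2492) .g (.c (nat_lit 2492) .c (.c (nat_lit 2493) .g (.c (nat_lit 2493) .y (.c (nat_lit 2495) .x w37))))))))))))))))))))))))))))))))))))))))))))))))))))))))))))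

noncomputable def w35 : Bs := (.c (nat_lit 2418) .x (.c (nat_lit 2419) .x (.c (nat_lit 2419) .c (.c (nat_lit 2420) .g (.c (nat_lit 2421) .g (.c (nat_lit 2422) .x (.c (nat_lit 2422) .c (.c (nat_lit 2423) .g (.c (nat_lit 2423) .x (.c (nat_lit 2423) .c (.c (nat_lit 2427) .x (.c (nat_lit 2428) .g (.c (nat_lit 2428) .y (.c (nat_lit 2428) .c (.c (nat_lit 2429) .c (.c (nat_lit 2430) .g (.c (nat_lit 2431) .g (.c (nat_lit 2431) .y (.c (nat_lit 2431) .c (.c (nat_lit 2433) .g (.c (nat_lit 2434) .x (.c (nat_lit 2434) .c (.c (nat_lit 2435) .g (.c (nat_lit 2435) .y (.c (nat_lit 2435) .c (.c (nat_lit 2436) .x (.c (nat_lit 2437) .c (.c (nat_lit 2438) .g (.c (nat_lit 2438) .c (.c (nat_lit 2439) .g (.c (nat_lit 2439) .y (.c (nat_lit 2440) .x (.c (nat_lit 2440) .c (.c (nat_lit 2441) .g (.c (nat_lit 2441) .y (.c (nat_lit 2441) .c (.c (nat_lit 2442) .g (.c (nat_lit 2442) .y (.c (nat_lit 2442) .x (.c (nat_lit 2443) .x (.c (nat_lit 2443) .c (.c (nat_lit 2444) .y (.c (nat_lit 2444) .c (.c (nat_lit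 2445) .y (.c (nat_lit 2445) .x (.c (nat_lit 2446) .x (.c (nat_lit 2446) .c (.c (nat_lit 2447) .g (.c (nat_lit 2447) .c (.c (nat_lit 2448) .g (.c (nat_lit 2448) .x (.c (nat_lit 2449) .x (.c (nat_lit 2451) .g (.c (nat_lit 2451) .y (.c (nat_lit 2451) .c (.c (nat_lit 2452) .g (.c (nat_lit 2453) .c (.c (nat_lit 2454) .g (.c (nat_lit 2455) .y (.c (nat_lit 2456) .x w36))))))))))))))))))))))))))))))))))))))))))))))))))))))))))))

noncomputable def w34 : Bs := (.c (nat_lit 2384) .x (.c (nat_lit 2384) .c (.c (nat_lit 2385) .g (.c (nat_lit 2385) .y (.c (nat_lit 2385) .c (.c (nat_lit 2387) .y (.c (nat_lit 2388) .x (.c (nat_lit 2388) .c (.c (nat_lit 2389) .g (.c (nat_lit 2390) .x (.c (nat_lit 2390) .c (.c (nat_lit 2391) .g (.c (nat_lit 2391) .x (.c (nat_lit 2391) .c (.c (nat_lit 2392) .g (.c (nat_lit 2392) .y (.c (nat_lit 2394) .x (.c (nat_lit 2395) .x (.c (nat_lit 2397) .g (.c (nat_lit 2397) .y (.c (nat_lit 2397) .c (.c (nat_lit 2398) .g (.c (nat_lit 2398) .y (.c (nat_lit 2399) .x (.c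 (nat_lit 2399) .c (.c (nat_lit 2400) .g (.c (nat_lit 2400) .c (.c (nat_lit 2401) .g (.c (nat_lit 2401) .y (.c (nat_lit 2402) .x (.c (nat_lit 2403) .x (.c (nat_lit 2404) .g (.c (nat_lit 2404) .x (.c (nat_lit 2404) .c (.c (nat_lit 2405) .g (.c (nat_lit 2405) .y (.c (nat_lit 2406) .c (.c (nat_lit 2407) .g (.c (nat_lit 2407) .y (.c (nat_lit 2407) .x (.c (nat_lit 2408) .x (.c (nat_lit 2408) .c (.c (nat_lit 2409) .g (.c (nat_lit 2410) .g (.c (nat_lit 2410) .y (.c (nat_lit 2410) .c (.c (nat_lit 2411) .y (.c (nat_lit 2411) .x (.c (nat_lit 2412) .c (.c (nat_lit 2413) .g (.c (nat_lit 2413) .c (.c (nat_lit 2414) .y (.c (nat_lit 2415) .x (.c (nat_lit 2415) .c (.c (nat_lit 2416) .g (.c (nat_lit 2416) .y (.c (nat_lit 2416) .c (.c (nat_lit 2417) .c (.c (nat_lit 2418) .g (.c (nat_lit 2418) .y w35))))))))))))))))))))))))))))))))))))))))))))))))))))))))))))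

noncomputable def w33 : Bs := (.c (nat_lit 2337) .x (.c (nat_lit 2337) .c (.c (nat_lit 2339) .x (.c (nat_lit 2340) .g (.c (nat_lit 2341) .c (.c (nat_lit 2344) .g (.c (nat_lit 2344) .y (.c (nat_lit 2345) .c (.c (nat_lit 2346) .y (.c (nat_lit 2346) .x (.c (nat_lit 2347) .x (.c (nat_lit 2348) .g (.c (nat_lit 2348) .y (.c (nat_lit 2349) .x (.c (nat_lit 2349) .c (.c (nat_lit 2351) .x (.c (nat_lit 2351) .c (.c (nat_lit 2352) .g (.c (nat_lit 2352) .y (.c (nat_lit 2352) .c (.c (nat_lit 2353) .g (.c (nat_lit 2353) .x (.c (nat_lit 2354) .c (.c (nat_lit 2355) .g (.c (nat_lit 2355) .c (.c (nat_lit 2356) .g (.c (nat_lit 2356) .y (.c (nat_lit 2357) .c (.c (nat_lit 2358) .c (.c (nat_lit 2360) .x (.c (nat_lit 2361) .g (.c (nat_lit 2361) .y (.c (nat_lit 2362) .c (.c (nat_lit 2363) .g (.c (nat_lit 2363) .y (.c (nat_lit 2364) .x (.c (nat_lit 2364) .c (.c (nat_lit 2365) .g (.c (nat_lit 2368) .x (.c (nat_lit 2368) .c (.c (nat_lit 2369) .g (.c (nat_lit 2369) .y (.c (nat_lit 2370) .g (.c (nat_lit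 2370) .y (.c (nat_lit 2370) .c (.c (nat_lit 2371) .g (.c (nat_lit 2371) .x (.c (nat_lit 2372) .x (.c (nat_lit 2372) .c (.c (nat_lit 2373) .g (.c (nat_lit 2376) .c (.c (nat_lit 2377) .c (.c (nat_lit 2378) .g (.c (nat_lit 2378) .x (.c (nat_lit 2379) .g (.c (nat_lit 2379) .c (.c (nat_lit 2380) .x (.c (nat_lit 2381) .c (.c (nat_lit 2382) .c (.c (nat_lit 2383) .g w34))))))))))))))))))))))))))))))))))))))))))))))))))))))))))))

noncomputable def w32 : Bs := (.c (nat_lit 2295) .y (.c (nat_lit 2295) .c (.c (nat_lit 2296) .y (.c (nat_lit 2296) .x (.c (nat_lit 2297) .c (.c (nat_lit 2298) .y (.c (nat_lit 2299) .x (.c (nat_lit 2299) .c (.c (nat_lit 2300) .g (.c (nat_lit 2300) .y (.c (nat_lit 2300) .c (.c (nat_lit 2301) .g (.c (nat_lit 2301) .y (.c (nat_lit 2301) .c (.c (nat_lit 2302) .g (.c (nat_lit 2302) .y (.c (nat_lit 2302) .x (.c (nat_lit 2303) .x (.c (nat_lit 2303) .c (.c (nat_lit 2304) .g (.c (nat_lit 2305) .x (.c (nat_lit 2305) .c (.c (nat_lit 2306) .g (.c (nat_lit 2306) .y (.c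 (nat_lit 2306) .c (.c (nat_lit 2308) .c (.c (nat_lit 2310) .g (.c (nat_lit 2311) .g (.c (nat_lit 2311) .c (.c (nat_lit 2312) .y (.c (nat_lit 2312) .x (.c (nat_lit 2315) .x (.c (nat_lit 2316) .c (.c (nat_lit 2317) .g (.c (nat_lit 2318) .x (.c (nat_lit 2318) .c (.c (nat_lit 2319) .g (.c (nat_lit 2320) .x (.c (nat_lit 2322) .g (.c (nat_lit 2322) .y (.c (nat_lit 2323) .g (.c (nat_lit 2323) .y (.c (nat_lit 2324) .x (.c (nat_lit 2325) .c (.c (nat_lit 2326) .g (.c (nat_lit 2327) .y (.c (nat_lit 2328) .c (.c (nat_lit 2329) .g (.c (nat_lit 2330) .c (.c (nat_lit 2331) .g (.c (nat_lit 2331) .y (.c (nat_lit 2332) .x (.c (nat_lit 2332) .c (.c (nat_lit 2333) .g (.c (nat_lit 2334) .x (.c (nat_lit 2334) .c (.c (nat_lit 2335) .g (.c (nat_lit 2335) .y (.c (nat_lit 2336) .g (.c (nat_lit 2336) .y w33))))))))))))))))))))))))))))))))))))))))))))))))))))))))))))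

noncomputable def w31 : Bs := (.c (nat_lit 2245) .y (.c (nat_lit 2247) .x (.c (nat_lit 2247) .c (.c (nat_lit 2248) .g (.c (nat_lit 2250) .c (.c (nat_lit 2253) .x (.c (nat_lit 2254) .g (.c (nat_lit 2255) .g (.c (nat_lit 2255) .y (.c (nat_lit 2255) .c (.c (nat_lit 2256) .x (.c (nat_lit 2257) .x (.c (nat_lit 2257) .c (.c (nat_lit 2260) .x (.c (nat_lit 2260) .c (.c (nat_lit 2261) .g (.c (nat_lit 2261) .c (.c (nat_lit 2262) .g (.c (nat_lit 2262) .x (.c (nat_lit 2263) .c (.c (nat_lit 2264) .g (.c (nat_lit 2264) .c (.c (nat_lit 2265) .g (.c (nat_lit 2265) .y (.c (nat_lit 2266) .x (.c (nat_lit 2267) .c (.c (nat_lit 2270) .g (.c (nat_lit 2270) .c (.c (nat_lit 2271) .x (.c (nat_lit 2272) .c (.c (nat_lit 2273) .c (.c (nat_lit 2274) .g (.c (nat_lit 2275) .x (.c (nat_lit 2275) .c (.c (nat_lit 2276) .g (.c (nat_lit 2276) .y (.c (nat_lit 2276) .c (.c (nat_lit 2278) .y (.c (nat_lit 2279) .x (.c (nat_lit 2279) .c (.c (nat_lit 2280) .g (.c (nat_lit 2281) .x (.c (nat_lit 2281) .c (.c (nat_lit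 2282) .g (.c (nat_lit 2282) .x (.c (nat_lit 2282) .c (.c (nat_lit 2283) .g (.c (nat_lit 2283) .y (.c (nat_lit 2285) .g (.c (nat_lit 2285) .x (.c (nat_lit 2286) .x (.c (nat_lit 2288) .c (.c (nat_lit 2289) .c (.c (nat_lit 2290) .x (.c (nat_lit 2291) .x (.c (nat_lit 2292) .x (.c (nat_lit 2293) .g (.c (nat_lit 2293) .y (.c (nat_lit 2293) .c (.c (nat_lit 2295) .g w32))))))))))))))))))))))))))))))))))))))))))))))))))))))))))))

noncomputable def w30 : Bs := (.c (nat_lit 2197) .c (.c (nat_lit 2198) .c (.c (nat_lit 2200) .x (.c (nat_lit 2201) .x (.c (nat_lit 2202) .g (.c (nat_lit 2202) .c (.c (nat_lit 2203) .y (.c (nat_lit 2203) .c (.c (nat_lit 2204) .y (.c (nat_lit 2204) .x (.c (nat_lit 2205) .c (.c (nat_lit 2206) .y (.c (nat_lit 2207) .x (.c (nat_lit 2207) .c (.c (nat_lit 2208) .g (.c (nat_lit 2208) .y (.c (nat_lit 2208) .c (.c (nat_lit 2209) .g (.c (nat_lit 2209) .y (.c (nat_lit 2209) .c (.c (nat_lit 2210) .g (.c (nat_lit 2210) .y (.c (nat_lit 2210) .x (.c (nat_lit 2211) .x (.c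 (nat_lit 2211) .c (.c (nat_lit 2212) .g (.c (nat_lit 2213) .x (.c (nat_lit 2213) .c (.c (nat_lit 2214) .g (.c (nat_lit 2214) .y (.c (nat_lit 2214) .c (.c (nat_lit 2216) .c (.c (nat_lit 2221) .x (.c (nat_lit 2221) .c (.c (nat_lit 2224) .x (.c (nat_lit 2224) .c (.c (nat_lit 2225) .x (.c (nat_lit 2226) .g (.c (nat_lit 2226) .c (.c (nat_lit 2227) .c (.c (nat_lit 2229) .x (.c (nat_lit 2230) .g (.c (nat_lit 2231) .y (.c (nat_lit 2231) .c (.c (nat_lit 2232) .y (.c (nat_lit 2232) .x (.c (nat_lit 2235) .c (.c (nat_lit 2237) .g (.c (nat_lit 2237) .c (.c (nat_lit 2238) .x (.c (nat_lit 2239) .x (.c (nat_lit 2239) .c (.c (nat_lit 2241) .c (.c (nat_lit 2242) .x (.c (nat_lit 2242) .c (.c (nat_lit 2243) .g (.c (nat_lit 2243) .c (.c (nat_lit 2244) .g (.c (nat_lit 2244) .y (.c (nat_lit 2245) .g w31))))))))))))))))))))))))))))))))))))))))))))))))))))))))))))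

noncomputable def w29 : Bs := (.c (nat_lit 2155) .x (.c (nat_lit 2155) .c (.c (nat_lit 2156) .g (.c (nat_lit 2156) .y (.c (nat_lit 2156) .c (.c (nat_lit 2157) .g (.c (nat_lit 2157) .x (.c (nat_lit 2158) .c (.c (nat_lit 2159) .g (.c (nat_lit 2159) .c (.c (nat_lit 2160) .g (.c (nat_lit 2160) .y (.c (nat_lit 2163) .x (.c (nat_lit 2163) .c (.c (nat_lit 2164) .g (.c (nat_lit 2164) .y (.c (nat_lit 2165) .g (.c (nat_lit 2165) .y (.c (nat_lit 2165) .c (.c (nat_lit 2166) .g (.c (nat_lit 2166) .y (.c (nat_lit 2166) .x (.c (nat_lit 2168) .x (.c (nat_lit 2168) .c (.c (nat_lit 2169) .y (.c (nat_lit 2169) .c (.c (nat_lit 2170) .y (.c (nat_lit 2170) .x (.c (nat_lit 2171) .x (.c (nat_lit 2171) .c (.c (nat_lit 2172) .g (.c (nat_lit 2172) .c (.c (nat_lit 2173) .g (.c (nat_lit 2173) .x (.c (nat_lit 2174) .g (.c (nat_lit 2174) .y (.c (nat_lit 2175) .x (.c (nat_lit 2179) .x (.c (nat_lit 2179) .c (.c (nat_lit 2180) .c (.c (nat_lit 2181) .g (.c (nat_lit 2181) .c (.c (nat_lit 2183) .c (.c (nat_lit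 2184) .y (.c (nat_lit 2184) .c (.c (nat_lit 2185) .x (.c (nat_lit 2186) .c (.c (nat_lit 2187) .c (.c (nat_lit 2189) .g (.c (nat_lit 2189) .y (.c (nat_lit 2189) .c (.c (nat_lit 2190) .y (.c (nat_lit 2191) .x (.c (nat_lit 2191) .c (.c (nat_lit 2192) .g (.c (nat_lit 2193) .c (.c (nat_lit 2194) .g (.c (nat_lit 2194) .c (.c (nat_lit 2196) .g (.c (nat_lit 2196) .x w30))))))))))))))))))))))))))))))))))))))))))))))))))))))))))))

noncomputable def w28 : Bs := (.c (nat_lit 2103) .c (.c (nat_lit 2104) .g (.c (nat_lit 2104) .y (.c (nat_lit 2104) .c (.c (nat_lit 2105) .x (.c (nat_lit 2106) .c (.c (nat_lit 2107) .g (.c (nat_lit 2107) .c (.c (nat_lit 2109) .x (.c (nat_lit 2109) .c (.c (nat_lit 2110) .c (.c (nat_lit 2111) .g (.c (nat_lit 2111) .y (.c (nat_lit 2111) .x (.c (nat_lit 2112) .x (.c (nat_lit 2112) .c (.c (nat_lit 2113) .y (.c (nat_lit 2113) .c (.c (nat_lit 2114) .y (.c (nat_lit 2114) .x (.c (nat_lit 2115) .x (.c (nat_lit 2115) .c (.c (nat_lit 2116) .g (.c (nat_lit 2116) .c (.c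 (nat_lit 2117) .g (.c (nat_lit 2117) .x (.c (nat_lit 2121) .g (.c (nat_lit 2122) .c (.c (nat_lit 2123) .g (.c (nat_lit 2124) .y (.c (nat_lit 2126) .g (.c (nat_lit 2128) .g (.c (nat_lit 2128) .y (.c (nat_lit 2129) .x (.c (nat_lit 2129) .c (.c (nat_lit 2130) .g (.c (nat_lit 2130) .y (.c (nat_lit 2131) .x (.c (nat_lit 2131) .c (.c (nat_lit 2133) .g (.c (nat_lit 2133) .y (.c (nat_lit 2134) .g (.c (nat_lit 2134) .y (.c (nat_lit 2135) .x (.c (nat_lit 2135) .c (.c (nat_lit 2137) .g (.c (nat_lit 2143) .g (.c (nat_lit 2144) .g (.c (nat_lit 2145) .y (.c (nat_lit 2146) .c (.c (nat_lit 2148) .c (.c (nat_lit 2149) .y (.c (nat_lit 2150) .x (.c (nat_lit 2150) .c (.c (nat_lit 2151) .g (.c (nat_lit 2151) .y (.c (nat_lit 2151) .c (.c (nat_lit 2152) .g (.c (nat_lit 2152) .y (.c (nat_lit 2153) .x w29))))))))))))))))))))))))))))))))))))))))))))))))))))))))))))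

noncomputable def w27 : Bs := (.c (nat_lit 2046) .c (.c (nat_lit 2047) .c (.c (nat_lit 2048) .g (.c (nat_lit 2048) .y (.c (nat_lit 2049) .c (.c (nat_lit 2053) .g (.c (nat_lit 2053) .y (.c (nat_lit 2054) .c (.c (nat_lit 2055) .x (.c (nat_lit 2056) .c (.c (nat_lit 2057) .c (.c (nat_lit 2058) .g (.c (nat_lit 2058) .x (.c (nat_lit 2059) .g (.c (nat_lit 2059) .c (.c (nat_lit 2060) .x (.c (nat_lit 2061) .c (.c (nat_lit 2063) .g (.c (nat_lit 2064) .x (.c (nat_lit 2064) .c (.c (nat_lit 2065) .g (.c (nat_lit 2065) .y (.c (nat_lit 2066) .y (.c (nat_lit 2067) .x (.c (nat_lit 2067) .c (.c (nat_lit 2068) .g (.c (nat_lit 2069) .x (.c (nat_lit 2069) .c (.c (nat_lit 2070) .g (.c (nat_lit 2070) .x (.c (nat_lit 2070) .c (.c (nat_lit 2071) .g (.c (nat_lit 2071) .y (.c (nat_lit 2074) .c (.c (nat_lit 2075) .g (.c (nat_lit 2077) .x (.c (nat_lit 2078) .c (.c (nat_lit 2079) .c (.c (nat_lit 2080) .g (.c (nat_lit 2080) .x (.c (nat_lit 2081) .x (.c (nat_lit 2081) .c (.c (nat_lit 2083) .g (.c (nat_lit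 2083) .x (.c (nat_lit 2085) .c (.c (nat_lit 2086) .c (.c (nat_lit 2087) .c (.c (nat_lit 2090) .g (.c (nat_lit 2091) .c (.c (nat_lit 2092) .g (.c (nat_lit 2092) .y (.c (nat_lit 2093) .x (.c (nat_lit 2093) .c (.c (nat_lit 2098) .c (.c (nat_lit 2099) .g (.c (nat_lit 2100) .g (.c (nat_lit 2100) .y (.c (nat_lit 2100) .c (.c (nat_lit 2102) .g (.c (nat_lit 2103) .x w28))))))))))))))))))))))))))))))))))))))))))))))))))))))))))))

noncomputable def w26 : Bs := (.c (nat_lit 1989) .x (.c (nat_lit 1989) .c (.c (nat_lit 1990) .g (.c (nat_lit 1990) .c (.c (nat_lit 1991) .g (.c (nat_lit 1991) .x (.c (nat_lit 1992) .c (.c (nat_lit 1993) .g (.c (nat_lit 1993) .c (.c (nat_lit 1994) .g (.c (nat_lit 1994) .y (.c (nat_lit 1997) .y (.c (nat_lit 1998) .x (.c (nat_lit 1999) .x (.c (nat_lit 2000) .g (.c (nat_lit 2000) .y (.c (nat_lit 2000) .c (.c (nat_lit 2002) .g (.c (nat_lit 2002) .y (.c (nat_lit 2002) .x (.c (nat_lit 2003) .x (.c (nat_lit 2003) .c (.c (nat_lit 2004) .g (.c (nat_lit 2004) .y (.c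 (nat_lit 2004) .c (.c (nat_lit 2005) .y (.c (nat_lit 2005) .x (.c (nat_lit 2006) .x (.c (nat_lit 2006) .c (.c (nat_lit 2007) .g (.c (nat_lit 2007) .c (.c (nat_lit 2008) .g (.c (nat_lit 2008) .y (.c (nat_lit 2009) .y (.c (nat_lit 2010) .c (.c (nat_lit 2011) .c (.c (nat_lit 2013) .x (.c (nat_lit 2014) .g (.c (nat_lit 2014) .y (.c (nat_lit 2017) .x (.c (nat_lit 2019) .y (.c (nat_lit 2019) .x (.c (nat_lit 2020) .c (.c (nat_lit 2022) .c (.c (nat_lit 2023) .g (.c (nat_lit 2025) .g (.c (nat_lit 2026) .c (.c (nat_lit 2028) .x (.c (nat_lit 2028) .c (.c (nat_lit 2031) .x (.c (nat_lit 2031) .c (.c (nat_lit 2033) .x (.c (nat_lit 2034) .c (.c (nat_lit 2035) .c (.c (nat_lit 2037) .x (.c (nat_lit 2038) .y (.c (nat_lit 2038) .c (.c (nat_lit 2039) .y (.c (nat_lit 2039) .x (.c (nat_lit 2042) .c w27))))))))))))))))))))))))))))))))))))))))))))))))))))))))))))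

noncomputable def w25 : Bs := (.c (nat_lit 1941) .x (.c (nat_lit 1941) .c (.c (nat_lit 1942) .g (.c (nat_lit 1942) .c (.c (nat_lit 1943) .y (.c (nat_lit 1944) .x (.c (nat_lit 1944) .c (.c (nat_lit 1945) .g (.c (nat_lit 1946) .x (.c (nat_lit 1946) .c (.c (nat_lit 1947) .g (.c (nat_lit 1947) .x (.c (nat_lit 1947) .c (.c (nat_lit 1950) .c (.c (nat_lit 1951) .g (.c (nat_lit 1952) .g (.c (nat_lit 1952) .y (.c (nat_lit 1952) .c (.c (nat_lit 1954) .g (.c (nat_lit 1955) .x (.c (nat_lit 1955) .c (.c (nat_lit 1956) .g (.c (nat_lit 1956) .y (.c (nat_lit 1956) .c (.c (nat_lit 1957) .x (.c (nat_lit 1958) .c (.c (nat_lit 1959) .g (.c (nat_lit 1959) .c (.c (nat_lit 1960) .g (.c (nat_lit 1960) .y (.c (nat_lit 1961) .x (.c (nat_lit 1961) .c (.c (nat_lit 1962) .c (.c (nat_lit 1963) .g (.c (nat_lit 1963) .y (.c (nat_lit 1963) .x (.c (nat_lit 1964) .x (.c (nat_lit 1964) .c (.c (nat_lit 1965) .y (.c (nat_lit 1965) .c (.c (nat_lit 1966) .y (.c (nat_lit 1966) .x (.c (nat_lit 1967) .x (.c (nat_lit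 1967) .c (.c (nat_lit 1968) .g (.c (nat_lit 1968) .c (.c (nat_lit 1969) .g (.c (nat_lit 1969) .x (.c (nat_lit 1972) .x (.c (nat_lit 1972) .c (.c (nat_lit 1979) .g (.c (nat_lit 1980) .c (.c (nat_lit 1982) .g (.c (nat_lit 1984) .c (.c (nat_lit 1985) .y (.c (nat_lit 1986) .x (.c (nat_lit 1986) .c (.c (nat_lit 1987) .g (.c (nat_lit 1987) .y (.c (nat_lit 1987) .c w26))))))))))))))))))))))))))))))))))))))))))))))))))))))))))))

noncomputable def w24 : Bs := (.c (nat_lit 1877) .x (.c (nat_lit 1878) .c (.c (nat_lit 1879) .g (.c (nat_lit 1879) .c (.c (nat_lit 1880) .g (.c (nat_lit 1880) .y (.c (nat_lit 1884) .x (.c (nat_lit 1885) .x (.c (nat_lit 1886) .g (.c (nat_lit 1886) .y (.c (nat_lit 1886) .c (.c (nat_lit 1888) .g (.c (nat_lit 1888) .y (.c (nat_lit 1888) .x (.c (nat_lit 1889) .x (.c (nat_lit 1889) .c (.c (nat_lit 1890) .g (.c (nat_lit 1890) .y (.c (nat_lit 1890) .c (.c (nat_lit 1891) .y (.c (nat_lit 1891) .x (.c (nat_lit 1892) .x (.c (nat_lit 1892) .c (.c (nat_lit 1893) .g (.c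 (nat_lit 1893) .c (.c (nat_lit 1894) .g (.c (nat_lit 1894) .y (.c (nat_lit 1900) .g (.c (nat_lit 1900) .y (.c (nat_lit 1901) .x (.c (nat_lit 1901) .c (.c (nat_lit 1902) .g (.c (nat_lit 1905) .x (.c (nat_lit 1905) .c (.c (nat_lit 1906) .c (.c (nat_lit 1907) .y (.c (nat_lit 1908) .x (.c (nat_lit 1908) .c (.c (nat_lit 1909) .g (.c (nat_lit 1909) .y (.c (nat_lit 1909) .c (.c (nat_lit 1911) .c (.c (nat_lit 1914) .c (.c (nat_lit 1915) .y (.c (nat_lit 1915) .x (.c (nat_lit 1919) .c (.c (nat_lit 1920) .g (.c (nat_lit 1923) .c (.c (nat_lit 1927) .c (.c (nat_lit 1928) .g (.c (nat_lit 1928) .y (.c (nat_lit 1931) .c (.c (nat_lit 1932) .c (.c (nat_lit 1934) .g (.c (nat_lit 1934) .y (.c (nat_lit 1937) .g (.c (nat_lit 1937) .c (.c (nat_lit 1938) .x (.c (nat_lit 1939) .c (.c (nat_lit 1940) .g w25))))))))))))))))))))))))))))))))))))))))))))))))))))))))))))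

noncomputable def w23 : Bs := (.c (nat_lit 1831) .c (.c (nat_lit 1832) .g (.c (nat_lit 1832) .y (.c (nat_lit 1832) .c (.c (nat_lit 1833) .g (.c (nat_lit 1833) .y (.c (nat_lit 1833) .x (.c (nat_lit 1834) .x (.c (nat_lit 1834) .c (.c (nat_lit 1835) .g (.c (nat_lit 1836) .x (.c (nat_lit 1836) .c (.c (nat_lit 1837) .g (.c (nat_lit 1837) .y (.c (nat_lit 1837) .c (.c (nat_lit 1838) .c (.c (nat_lit 1841) .y (.c (nat_lit 1841) .c (.c (nat_lit 1842) .x (.c (nat_lit 1843) .y (.c (nat_lit 1844) .x (.c (nat_lit 1844) .c (.c (nat_lit 1847) .c (.c (nat_lit 1848) .y (.c (nat_lit 1849) .g (.c (nat_lit 1849) .y (.c (nat_lit 1849) .c (.c (nat_lit 1850) .y (.c (nat_lit 1852) .c (.c (nat_lit 1853) .g (.c (nat_lit 1853) .c (.c (nat_lit 1854) .g (.c (nat_lit 1854) .y (.c (nat_lit 1855) .x (.c (nat_lit 1855) .c (.c (nat_lit 1856) .c (.c (nat_lit 1857) .g (.c (nat_lit 1857) .y (.c (nat_lit 1857) .x (.c (nat_lit 1858) .c (.c (nat_lit 1859) .y (.c (nat_lit 1860) .x (.c (nat_lit 1860) .c (.c (nat_lit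 1861) .g (.c (nat_lit 1862) .x (.c (nat_lit 1862) .c (.c (nat_lit 1866) .y (.c (nat_lit 1868) .c (.c (nat_lit 1869) .g (.c (nat_lit 1870) .c (.c (nat_lit 1871) .y (.c (nat_lit 1872) .x (.c (nat_lit 1872) .c (.c (nat_lit 1873) .g (.c (nat_lit 1873) .y (.c (nat_lit 1873) .c (.c (nat_lit 1875) .x (.c (nat_lit 1875) .c (.c (nat_lit 1876) .c (.c (nat_lit 1877) .g w24))))))))))))))))))))))))))))))))))))))))))))))))))))))))))))

noncomputable def w22 : Bs := (.c (nat_lit 1766) .x (.c (nat_lit 1766) .c (.c (nat_lit 1767) .g (.c (nat_lit 1768) .x (.c (nat_lit 1768) .c (.c (nat_lit 1769) .g (.c (nat_lit 1769) .y (.c (nat_lit 1769) .c (.c (nat_lit 1776) .c (.c (nat_lit 1781) .y (.c (nat_lit 1781) .c (.c (nat_lit 1782) .y (.c (nat_lit 1782) .x (.c (nat_lit 1789) .x (.c (nat_lit 1789) .c (.c (nat_lit 1791) .c (.c (nat_lit 1795) .x (.c (nat_lit 1795) .c (.c (nat_lit 1796) .g (.c (nat_lit 1796) .c (.c (nat_lit 1797) .g (.c (nat_lit 1798) .c (.c (nat_lit 1799) .g (.c (nat_lit 1799) .c (.c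 (nat_lit 1800) .g (.c (nat_lit 1800) .y (.c (nat_lit 1802) .c (.c (nat_lit 1804) .g (.c (nat_lit 1804) .c (.c (nat_lit 1805) .x (.c (nat_lit 1806) .c (.c (nat_lit 1807) .c (.c (nat_lit 1808) .g (.c (nat_lit 1809) .x (.c (nat_lit 1809) .c (.c (nat_lit 1810) .g (.c (nat_lit 1810) .y (.c (nat_lit 1810) .c (.c (nat_lit 1811) .y (.c (nat_lit 1812) .x (.c (nat_lit 1812) .c (.c (nat_lit 1813) .g (.c (nat_lit 1814) .x (.c (nat_lit 1814) .c (.c (nat_lit 1815) .g (.c (nat_lit 1815) .x (.c (nat_lit 1815) .c (.c (nat_lit 1817) .g (.c (nat_lit 1825) .g (.c (nat_lit 1825) .c (.c (nat_lit 1826) .y (.c (nat_lit 1826) .c (.c (nat_lit 1827) .y (.c (nat_lit 1827) .x (.c (nat_lit 1828) .c (.c (nat_lit 1829) .y (.c (nat_lit 1830) .x (.c (nat_lit 1830) .c (.c (nat_lit 1831) .g (.c (nat_lit 1831) .y w23))))))))))))))))))))))))))))))))))))))))))))))))))))))))))))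

noncomputable def w21 : Bs := (.c (nat_lit 1704) .c (.c (nat_lit 1705) .c (.c (nat_lit 1706) .x (.c (nat_lit 1706) .c (.c (nat_lit 1707) .c (.c (nat_lit 1708) .g (.c (nat_lit 1708) .y (.c (nat_lit 1708) .x (.c (nat_lit 1709) .x (.c (nat_lit 1709) .c (.c (nat_lit 1710) .y (.c (nat_lit 1710) .c (.c (nat_lit 1711) .x (.c (nat_lit 1712) .x (.c (nat_lit 1712) .c (.c (nat_lit 1713) .g (.c (nat_lit 1713) .c (.c (nat_lit 1714) .x (.c (nat_lit 1715) .x (.c (nat_lit 1717) .y (.c (nat_lit 1720) .g (.c (nat_lit 1722) .x (.c (nat_lit 1723) .g (.c (nat_lit 1726) .x (.c (nat_lit 1726) .c (.c (nat_lit 1728) .g (.c (nat_lit 1738) .x (.c (nat_lit 1738) .c (.c (nat_lit 1739) .c (.c (nat_lit 1740) .c (.c (nat_lit 1742) .c (.c (nat_lit 1743) .y (.c (nat_lit 1743) .c (.c (nat_lit 1744) .x (.c (nat_lit 1745) .c (.c (nat_lit 1748) .g (.c (nat_lit 1748) .y (.c (nat_lit 1748) .c (.c (nat_lit 1749) .y (.c (nat_lit 1750) .x (.c (nat_lit 1750) .c (.c (nat_lit 1751) .g (.c (nat_lit 1753) .g (.c (nat_lit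 1757) .g (.c (nat_lit 1757) .c (.c (nat_lit 1758) .y (.c (nat_lit 1758) .c (.c (nat_lit 1759) .y (.c (nat_lit 1759) .x (.c (nat_lit 1760) .c (.c (nat_lit 1761) .y (.c (nat_lit 1762) .x (.c (nat_lit 1762) .c (.c (nat_lit 1763) .g (.c (nat_lit 1763) .y (.c (nat_lit 1763) .c (.c (nat_lit 1764) .g (.c (nat_lit 1764) .y (.c (nat_lit 1764) .c (.c (nat_lit 1765) .g w22))))))))))))))))))))))))))))))))))))))))))))))))))))))))))))

noncomputable def w20 : Bs := (.c (nat_lit 1628) .c (.c (nat_lit 1629) .g (.c (nat_lit 1629) .y (.c (nat_lit 1629) .c (.c (nat_lit 1630) .y (.c (nat_lit 1631) .x (.c (nat_lit 1631) .c (.c (nat_lit 1632) .g (.c (nat_lit 1633) .x (.c (nat_lit 1633) .c (.c (nat_lit 1634) .g (.c (nat_lit 1634) .x (.c (nat_lit 1634) .c (.c (nat_lit 1638) .c (.c (nat_lit 1640) .g (.c (nat_lit 1644) .c (.c (nat_lit 1645) .y (.c (nat_lit 1645) .x (.c (nat_lit 1647) .c (.c (nat_lit 1648) .y (.c (nat_lit 1649) .x (.c (nat_lit 1649) .c (.c (nat_lit 1650) .g (.c (nat_lit 1650) .y (.c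 (nat_lit 1650) .c (.c (nat_lit 1652) .g (.c (nat_lit 1652) .y (.c (nat_lit 1652) .x (.c (nat_lit 1653) .x (.c (nat_lit 1653) .c (.c (nat_lit 1654) .g (.c (nat_lit 1655) .x (.c (nat_lit 1655) .c (.c (nat_lit 1656) .g (.c (nat_lit 1656) .x (.c (nat_lit 1656) .c (.c (nat_lit 1659) .y (.c (nat_lit 1661) .c (.c (nat_lit 1664) .x (.c (nat_lit 1664) .c (.c (nat_lit 1668) .x (.c (nat_lit 1669) .x (.c (nat_lit 1671) .c (.c (nat_lit 1673) .c (.c (nat_lit 1675) .y (.c (nat_lit 1676) .g (.c (nat_lit 1679) .c (.c (nat_lit 1681) .x (.c (nat_lit 1681) .c (.c (nat_lit 1682) .y (.c (nat_lit 1688) .y (.c (nat_lit 1697) .c (.c (nat_lit 1698) .g (.c (nat_lit 1699) .g (.c (nat_lit 1701) .x (.c (nat_lit 1701) .c (.c (nat_lit 1702) .g (.c (nat_lit 1702) .y (.c (nat_lit 1702) .c (.c (nat_lit 1703) .x w21))))))))))))))))))))))))))))))))))))))))))))))))))))))))))))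

noncomputable def w19 : Bs := (.c (nat_lit 1585) .c (.c (nat_lit 1588) .g (.c (nat_lit 1588) .y (.c (nat_lit 1588) .c (.c (nat_lit 1590) .x (.c (nat_lit 1590) .c (.c (nat_lit 1591) .g (.c (nat_lit 1592) .c (.c (nat_lit 1593) .c (.c (nat_lit 1595) .g (.c (nat_lit 1595) .x (.c (nat_lit 1597) .x (.c (nat_lit 1598) .x (.c (nat_lit 1599) .g (.c (nat_lit 1599) .c (.c (nat_lit 1600) .y (.c (nat_lit 1600) .c (.c (nat_lit 1601) .y (.c (nat_lit 1601) .x (.c (nat_lit 1602) .c (.c (nat_lit 1603) .y (.c (nat_lit 1604) .x (.c (nat_lit 1604) .c (.c (nat_lit 1605) .g (.c (nat_lit 1605) .y (.c (nat_lit 1605) .c (.c (nat_lit 1606) .g (.c (nat_lit 1606) .y (.c (nat_lit 1606) .c (.c (nat_lit 1607) .g (.c (nat_lit 1607) .y (.c (nat_lit 1607) .x (.c (nat_lit 1608) .x (.c (nat_lit 1608) .c (.c (nat_lit 1609) .g (.c (nat_lit 1610) .x (.c (nat_lit 1610) .c (.c (nat_lit 1611) .g (.c (nat_lit 1611) .y (.c (nat_lit 1611) .c (.c (nat_lit 1612) .c (.c (nat_lit 1613) .x (.c (nat_lit 1615) .y (.c (nat_lit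 1616) .x (.c (nat_lit 1616) .c (.c (nat_lit 1618) .x (.c (nat_lit 1618) .c (.c (nat_lit 1619) .g (.c (nat_lit 1620) .g (.c (nat_lit 1620) .x (.c (nat_lit 1621) .c (.c (nat_lit 1622) .g (.c (nat_lit 1622) .c (.c (nat_lit 1623) .g (.c (nat_lit 1624) .g (.c (nat_lit 1624) .c (.c (nat_lit 1625) .x (.c (nat_lit 1626) .c (.c (nat_lit 1627) .g (.c (nat_lit 1628) .x w20))))))))))))))))))))))))))))))))))))))))))))))))))))))))))))

noncomputable def w18 : Bs := (.c (nat_lit 1519) .y (.c (nat_lit 1519) .x (.c (nat_lit 1521) .c (.c (nat_lit 1522) .y (.c (nat_lit 1523) .x (.c (nat_lit 1523) .c (.c (nat_lit 1524) .g (.c (nat_lit 1524) .y (.c (nat_lit 1524) .c (.c (nat_lit 1526) .g (.c (nat_lit 1526) .y (.c (nat_lit 1526) .x (.c (nat_lit 1527) .x (.c (nat_lit 1528) .g (.c (nat_lit 1529) .x (.c (nat_lit 1529) .c (.c (nat_lit 1530) .x (.c (nat_lit 1530) .c (.c (nat_lit 1534) .x (.c (nat_lit 1535) .x (.c (nat_lit 1537) .x (.c (nat_lit 1540) .g (.c (nat_lit 1540) .c (.c (nat_lit 1542) .c (.c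 (nat_lit 1543) .c (.c (nat_lit 1544) .g (.c (nat_lit 1544) .y (.c (nat_lit 1547) .x (.c (nat_lit 1548) .g (.c (nat_lit 1548) .y (.c (nat_lit 1550) .x (.c (nat_lit 1559) .c (.c (nat_lit 1563) .x (.c (nat_lit 1563) .c (.c (nat_lit 1564) .c (.c (nat_lit 1565) .x (.c (nat_lit 1566) .c (.c (nat_lit 1568) .x (.c (nat_lit 1568) .c (.c (nat_lit 1569) .c (.c (nat_lit 1570) .g (.c (nat_lit 1570) .y (.c (nat_lit 1570) .x (.c (nat_lit 1571) .x (.c (nat_lit 1571) .c (.c (nat_lit 1572) .y (.c (nat_lit 1572) .c (.c (nat_lit 1573) .y (.c (nat_lit 1573) .x (.c (nat_lit 1574) .x (.c (nat_lit 1574) .c (.c (nat_lit 1575) .g (.c (nat_lit 1576) .g (.c (nat_lit 1576) .x (.c (nat_lit 1578) .x (.c (nat_lit 1578) .c (.c (nat_lit 1579) .c (.c (nat_lit 1580) .g (.c (nat_lit 1583) .y (.c (nat_lit 1583) .c w19))))))))))))))))))))))))))))))))))))))))))))))))))))))))))))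

noncomputable def w17 : Bs := (.c (nat_lit 1444) .y (.c (nat_lit 1450) .g (.c (nat_lit 1450) .c (.c (nat_lit 1452) .g (.c (nat_lit 1453) .x (.c (nat_lit 1453) .c (.c (nat_lit 1454) .g (.c (nat_lit 1454) .y (.c (nat_lit 1454) .c (.c (nat_lit 1455) .x (.c (nat_lit 1456) .x (.c (nat_lit 1456) .c (.c (nat_lit 1457) .g (.c (nat_lit 1457) .c (.c (nat_lit 1458) .g (.c (nat_lit 1458) .y (.c (nat_lit 1469) .g (.c (nat_lit 1472) .y (.c (nat_lit 1473) .x (.c (nat_lit 1475) .c (.c (nat_lit 1476) .c (.c (nat_lit 1478) .g (.c (nat_lit 1480) .x (.c (nat_lit 1481) .x (.c (nat_lit 1482) .g (.c (nat_lit 1483) .y (.c (nat_lit 1484) .x (.c (nat_lit 1484) .c (.c (nat_lit 1485) .c (.c (nat_lit 1486) .x (.c (nat_lit 1487) .x (.c (nat_lit 1487) .c (.c (nat_lit 1489) .x (.c (nat_lit 1491) .y (.c (nat_lit 1492) .x (.c (nat_lit 1492) .c (.c (nat_lit 1495) .c (.c (nat_lit 1496) .g (.c (nat_lit 1496) .x (.c (nat_lit 1497) .c (.c (nat_lit 1498) .g (.c (nat_lit 1498) .c (.c (nat_lit 1501) .x (.c (nat_lit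 1503) .x (.c (nat_lit 1503) .c (.c (nat_lit 1504) .g (.c (nat_lit 1504) .y (.c (nat_lit 1504) .c (.c (nat_lit 1505) .y (.c (nat_lit 1506) .x (.c (nat_lit 1507) .g (.c (nat_lit 1508) .x (.c (nat_lit 1508) .c (.c (nat_lit 1509) .x (.c (nat_lit 1509) .c (.c (nat_lit 1512) .c (.c (nat_lit 1514) .g (.c (nat_lit 1516) .c (.c (nat_lit 1518) .y (.c (nat_lit 1518) .c w18))))))))))))))))))))))))))))))))))))))))))))))))))))))))))))

noncomputable def w16 : Bs := (.c (nat_lit 1405) .y (.c (nat_lit 1406) .x (.c (nat_lit 1406) .c (.c (nat_lit 1407) .g (.c (nat_lit 1408) .x (.c (nat_lit 1408) .c (.c (nat_lit 1409) .c (.c (nat_lit 1411) .c (.c (nat_lit 1412) .g (.c (nat_lit 1413) .g (.c (nat_lit 1413) .c (.c (nat_lit 1415) .g (.c (nat_lit 1416) .x (.c (nat_lit 1416) .c (.c (nat_lit 1417) .g (.c (nat_lit 1417) .c (.c (nat_lit 1418) .x (.c (nat_lit 1419) .c (.c (nat_lit 1420) .c (.c (nat_lit 1421) .g (.c (nat_lit 1421) .y (.c (nat_lit 1422) .x (.c (nat_lit 1422) .c (.c (nat_lit 1423) .c (.c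 (nat_lit 1424) .g (.c (nat_lit 1424) .y (.c (nat_lit 1424) .x (.c (nat_lit 1425) .x (.c (nat_lit 1425) .c (.c (nat_lit 1426) .y (.c (nat_lit 1426) .c (.c (nat_lit 1427) .y (.c (nat_lit 1427) .x (.c (nat_lit 1428) .x (.c (nat_lit 1428) .c (.c (nat_lit 1429) .g (.c (nat_lit 1429) .c (.c (nat_lit 1430) .g (.c (nat_lit 1430) .x (.c (nat_lit 1431) .x (.c (nat_lit 1431) .c (.c (nat_lit 1432) .c (.c (nat_lit 1433) .g (.c (nat_lit 1434) .c (.c (nat_lit 1435) .y (.c (nat_lit 1436) .x (.c (nat_lit 1436) .c (.c (nat_lit 1437) .g (.c (nat_lit 1437) .y (.c (nat_lit 1437) .c (.c (nat_lit 1439) .x (.c (nat_lit 1439) .c (.c (nat_lit 1440) .g (.c (nat_lit 1440) .c (.c (nat_lit 1441) .g (.c (nat_lit 1441) .x (.c (nat_lit 1442) .c (.c (nat_lit 1443) .g (.c (nat_lit 1443) .c (.c (nat_lit 1444) .g w17))))))))))))))))))))))))))))))))))))))))))))))))))))))))))))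

noncomputable def w15 : Bs := (.c (nat_lit 1336) .c (.c (nat_lit 1339) .c (.c (nat_lit 1341) .g (.c (nat_lit 1341) .y (.c (nat_lit 1341) .c (.c (nat_lit 1348) .x (.c (nat_lit 1357) .c (.c (nat_lit 1358) .y (.c (nat_lit 1359) .c (.c (nat_lit 1360) .c (.c (nat_lit 1361) .g (.c (nat_lit 1361) .y (.c (nat_lit 1362) .c (.c (nat_lit 1364) .x (.c (nat_lit 1365) .c (.c (nat_lit 1366) .x (.c (nat_lit 1366) .c (.c (nat_lit 1367) .c (.c (nat_lit 1368) .g (.c (nat_lit 1369) .c (.c (nat_lit 1371) .x (.c (nat_lit 1371) .c (.c (nat_lit 1372) .g (.c (nat_lit 1372) .y (.c (nat_lit 1372) .c (.c (nat_lit 1374) .c (.c (nat_lit 1375) .c (.c (nat_lit 1376) .x (.c (nat_lit 1377) .c (.c (nat_lit 1378) .c (.c (nat_lit 1379) .g (.c (nat_lit 1379) .y (.c (nat_lit 1386) .x (.c (nat_lit 1386) .c (.c (nat_lit 1387) .g (.c (nat_lit 1387) .y (.c (nat_lit 1387) .c (.c (nat_lit 1388) .y (.c (nat_lit 1388) .x (.c (nat_lit 1389) .x (.c (nat_lit 1389) .c (.c (nat_lit 1390) .g (.c (nat_lit 1390) .c (.c (nat_lit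 1391) .g (.c (nat_lit 1391) .y (.c (nat_lit 1393) .c (.c (nat_lit 1394) .y (.c (nat_lit 1395) .x (.c (nat_lit 1395) .c (.c (nat_lit 1396) .g (.c (nat_lit 1396) .y (.c (nat_lit 1396) .c (.c (nat_lit 1397) .c (.c (nat_lit 1398) .y (.c (nat_lit 1398) .x (.c (nat_lit 1400) .g (.c (nat_lit 1402) .c (.c (nat_lit 1403) .g (.c (nat_lit 1404) .x (.c (nat_lit 1404) .c w16))))))))))))))))))))))))))))))))))))))))))))))))))))))))))))

noncomputable def w14 : Bs := (.c (nat_lit 1270) .y (.c (nat_lit 1270) .x (.c (nat_lit 1271) .x (.c (nat_lit 1271) .c (.c (nat_lit 1272) .y (.c (nat_lit 1272) .c (.c (nat_lit 1273) .y (.c (nat_lit 1273) .x (.c (nat_lit 1274) .x (.c (nat_lit 1274) .c (.c (nat_lit 1275) .g (.c (nat_lit 1275) .c (.c (nat_lit 1276) .g (.c (nat_lit 1276) .x (.c (nat_lit 1277) .y (.c (nat_lit 1278) .x (.c (nat_lit 1278) .c (.c (nat_lit 1281) .g (.c (nat_lit 1281) .y (.c (nat_lit 1281) .c (.c (nat_lit 1283) .x (.c (nat_lit 1283) .c (.c (nat_lit 1284) .g (.c (nat_lit 1284) .c (.c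 (nat_lit 1285) .g (.c (nat_lit 1285) .x (.c (nat_lit 1286) .c (.c (nat_lit 1287) .g (.c (nat_lit 1287) .c (.c (nat_lit 1288) .g (.c (nat_lit 1288) .y (.c (nat_lit 1290) .c (.c (nat_lit 1293) .g (.c (nat_lit 1294) .x (.c (nat_lit 1294) .c (.c (nat_lit 1295) .y (.c (nat_lit 1295) .c (.c (nat_lit 1296) .y (.c (nat_lit 1296) .x (.c (nat_lit 1297) .x (.c (nat_lit 1297) .c (.c (nat_lit 1298) .g (.c (nat_lit 1298) .c (.c (nat_lit 1299) .g (.c (nat_lit 1299) .x (.c (nat_lit 1301) .y (.c (nat_lit 1304) .c (.c (nat_lit 1305) .c (.c (nat_lit 1323) .g (.c (nat_lit 1323) .y (.c (nat_lit 1323) .c (.c (nat_lit 1325) .g (.c (nat_lit 1327) .g (.c (nat_lit 1331) .g (.c (nat_lit 1332) .y (.c (nat_lit 1332) .c (.c (nat_lit 1333) .y (.c (nat_lit 1333) .x (.c (nat_lit 1336) .g (.c (nat_lit 1336) .y w15))))))))))))))))))))))))))))))))))))))))))))))))))))))))))))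

noncomputable def w13 : Bs := (.c (nat_lit 1217) .c (.c (nat_lit 1218) .g (.c (nat_lit 1219) .c (.c (nat_lit 1221) .x (.c (nat_lit 1221) .c (.c (nat_lit 1222) .g (.c (nat_lit 1222) .y (.c (nat_lit 1222) .c (.c (nat_lit 1224) .x (.c (nat_lit 1224) .c (.c (nat_lit 1225) .c (.c (nat_lit 1226) .g (.c (nat_lit 1226) .x (.c (nat_lit 1227) .c (.c (nat_lit 1228) .c (.c (nat_lit 1229) .g (.c (nat_lit 1229) .y (.c (nat_lit 1233) .x (.c (nat_lit 1234) .x (.c (nat_lit 1235) .g (.c (nat_lit 1235) .c (.c (nat_lit 1238) .x (.c (nat_lit 1238) .c (.c (nat_lit 1239) .g (.c (nat_lit 1239) .y (.c (nat_lit 1239) .c (.c (nat_lit 1240) .y (.c (nat_lit 1240) .x (.c (nat_lit 1241) .c (.c (nat_lit 1242) .c (.c (nat_lit 1243) .g (.c (nat_lit 1243) .y (.c (nat_lit 1245) .g (.c (nat_lit 1246) .c (.c (nat_lit 1247) .y (.c (nat_lit 1248) .y (.c (nat_lit 1249) .g (.c (nat_lit 1251) .c (.c (nat_lit 1252) .x (.c (nat_lit 1252) .c (.c (nat_lit 1253) .g (.c (nat_lit 1254) .y (.c (nat_lit 1255) .x (.c (nat_lit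 1255) .c (.c (nat_lit 1256) .g (.c (nat_lit 1257) .x (.c (nat_lit 1257) .c (.c (nat_lit 1258) .c (.c (nat_lit 1260) .g (.c (nat_lit 1262) .x (.c (nat_lit 1262) .c (.c (nat_lit 1263) .c (.c (nat_lit 1264) .x (.c (nat_lit 1265) .c (.c (nat_lit 1266) .g (.c (nat_lit 1266) .c (.c (nat_lit 1268) .x (.c (nat_lit 1268) .c (.c (nat_lit 1269) .c (.c (nat_lit 1270) .g w14))))))))))))))))))))))))))))))))))))))))))))))))))))))))))))

noncomputable def w12 : Bs := (.c (nat_lit 1135) .c (.c (nat_lit 1136) .y (.c (nat_lit 1136) .x (.c (nat_lit 1137) .g (.c (nat_lit 1137) .c (.c (nat_lit 1138) .g (.c (nat_lit 1138) .x (.c (nat_lit 1139) .y (.c (nat_lit 1140) .x (.c (nat_lit 1140) .c (.c (nat_lit 1144) .c (.c (nat_lit 1145) .g (.c (nat_lit 1145) .y (.c (nat_lit 1147) .x (.c (nat_lit 1147) .c (.c (nat_lit 1148) .g (.c (nat_lit 1148) .c (.c (nat_lit 1149) .g (.c (nat_lit 1149) .x (.c (nat_lit 1150) .c (.c (nat_lit 1151) .g (.c (nat_lit 1151) .c (.c (nat_lit 1152) .g (.c (nat_lit 1152) .y (.c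 (nat_lit 1154) .c (.c (nat_lit 1157) .x (.c (nat_lit 1157) .c (.c (nat_lit 1158) .y (.c (nat_lit 1158) .c (.c (nat_lit 1159) .y (.c (nat_lit 1159) .x (.c (nat_lit 1160) .c (.c (nat_lit 1161) .g (.c (nat_lit 1161) .x (.c (nat_lit 1169) .x (.c (nat_lit 1169) .c (.c (nat_lit 1172) .c (.c (nat_lit 1179) .g (.c (nat_lit 1179) .y (.c (nat_lit 1179) .c (.c (nat_lit 1182) .g (.c (nat_lit 1186) .g (.c (nat_lit 1186) .c (.c (nat_lit 1187) .c (.c (nat_lit 1188) .x (.c (nat_lit 1191) .x (.c (nat_lit 1191) .c (.c (nat_lit 1192) .g (.c (nat_lit 1192) .y (.c (nat_lit 1192) .c (.c (nat_lit 1196) .x (.c (nat_lit 1196) .c (.c (nat_lit 1205) .c (.c (nat_lit 1206) .c (.c (nat_lit 1207) .g (.c (nat_lit 1207) .y (.c (nat_lit 1210) .c (.c (nat_lit 1212) .g (.c (nat_lit 1213) .x (.c (nat_lit 1213) .c w13))))))))))))))))))))))))))))))))))))))))))))))))))))))))))))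

noncomputable def w11 : Bs := (.c (nat_lit 1074) .g (.c (nat_lit 1074) .c (.c (nat_lit 1076) .c (.c (nat_lit 1077) .g (.c (nat_lit 1078) .x (.c (nat_lit 1078) .c (.c (nat_lit 1079) .g (.c (nat_lit 1079) .c (.c (nat_lit 1080) .y (.c (nat_lit 1081) .c (.c (nat_lit 1082) .g (.c (nat_lit 1083) .x (.c (nat_lit 1083) .c (.c (nat_lit 1084) .g (.c (nat_lit 1084) .x (.c (nat_lit 1084) .c (.c (nat_lit 1085) .c (.c (nat_lit 1086) .g (.c (nat_lit 1088) .c (.c (nat_lit 1092) .y (.c (nat_lit 1093) .g (.c (nat_lit 1093) .y (.c (nat_lit 1093) .c (.c (nat_lit 1095) .g (.c (nat_lit 1095) .y (.c (nat_lit 1095) .x (.c (nat_lit 1096) .c (.c (nat_lit 1097) .g (.c (nat_lit 1098) .x (.c (nat_lit 1098) .c (.c (nat_lit 1099) .g (.c (nat_lit 1099) .c (.c (nat_lit 1101) .c (.c (nat_lit 1103) .y (.c (nat_lit 1105) .x (.c (nat_lit 1105) .c (.c (nat_lit 1109) .x (.c (nat_lit 1109) .c (.c (nat_lit 1110) .c (.c (nat_lit 1111) .g (.c (nat_lit 1111) .x (.c (nat_lit 1113) .c (.c (nat_lit 1114) .c (.c (nat_lit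 1115) .y (.c (nat_lit 1115) .x (.c (nat_lit 1117) .c (.c (nat_lit 1118) .y (.c (nat_lit 1119) .y (.c (nat_lit 1121) .x (.c (nat_lit 1121) .c (.c (nat_lit 1123) .y (.c (nat_lit 1124) .x (.c (nat_lit 1124) .c (.c (nat_lit 1127) .c (.c (nat_lit 1128) .x (.c (nat_lit 1129) .c (.c (nat_lit 1130) .c (.c (nat_lit 1132) .c (.c (nat_lit 1134) .x (.c (nat_lit 1134) .c w12))))))))))))))))))))))))))))))))))))))))))))))))))))))))))))

noncomputable def w10 : Bs := (.c (nat_lit 1013) .c (.c (nat_lit 1015) .g (.c (nat_lit 1015) .y (.c (nat_lit 1018) .g (.c (nat_lit 1021) .c (.c (nat_lit 1022) .c (.c (nat_lit 1023) .x (.c (nat_lit 1024) .c (.c (nat_lit 1025) .c (.c (nat_lit 1026) .x (.c (nat_lit 1027) .x (.c (nat_lit 1027) .c (.c (nat_lit 1028) .c (.c (nat_lit 1030) .g (.c (nat_lit 1033) .c (.c (nat_lit 1040) .g (.c (nat_lit 1040) .y (.c (nat_lit 1040) .c (.c (nat_lit 1042) .g (.c (nat_lit 1043) .c (.c (nat_lit 1044) .c (.c (nat_lit 1046) .g (.c (nat_lit 1046) .x (.c (nat_lit 1050) .g (.c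 (nat_lit 1050) .c (.c (nat_lit 1051) .y (.c (nat_lit 1051) .c (.c (nat_lit 1052) .y (.c (nat_lit 1052) .x (.c (nat_lit 1053) .c (.c (nat_lit 1055) .x (.c (nat_lit 1055) .c (.c (nat_lit 1056) .g (.c (nat_lit 1056) .y (.c (nat_lit 1056) .c (.c (nat_lit 1057) .g (.c (nat_lit 1057) .y (.c (nat_lit 1057) .c (.c (nat_lit 1058) .g (.c (nat_lit 1058) .y (.c (nat_lit 1058) .x (.c (nat_lit 1059) .x (.c (nat_lit 1059) .c (.c (nat_lit 1060) .g (.c (nat_lit 1061) .x (.c (nat_lit 1061) .c (.c (nat_lit 1062) .g (.c (nat_lit 1062) .c (.c (nat_lit 1063) .c (.c (nat_lit 1064) .x (.c (nat_lit 1065) .y (.c (nat_lit 1066) .x (.c (nat_lit 1066) .c (.c (nat_lit 1068) .c (.c (nat_lit 1069) .g (.c (nat_lit 1070) .x (.c (nat_lit 1071) .c (.c (nat_lit 1072) .g (.c (nat_lit 1072) .c (.c (nat_lit 1073) .g w11))))))))))))))))))))))))))))))))))))))))))))))))))))))))))))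

noncomputable def w9 : Bs := (.c (nat_lit 935) .g (.c (nat_lit 941) .x (.c (nat_lit 941) .c (.c (nat_lit 942) .g (.c (nat_lit 942) .y (.c (nat_lit 942) .c (.c (nat_lit 943) .c (.c (nat_lit 944) .g (.c (nat_lit 944) .x (.c (nat_lit 947) .x (.c (nat_lit 947) .c (.c (nat_lit 948) .g (.c (nat_lit 949) .c (.c (nat_lit 952) .c (.c (nat_lit 953) .c (.c (nat_lit 955) .c (.c (nat_lit 956) .x (.c (nat_lit 956) .c (.c (nat_lit 957) .c (.c (nat_lit 958) .c (.c (nat_lit 960) .x (.c (nat_lit 960) .c (.c (nat_lit 961) .g (.c (nat_lit 961) .y (.c (nat_lit 961) .c (.c (nat_lit 963) .c (.c (nat_lit 966) .c (.c (nat_lit 968) .g (.c (nat_lit 972) .y (.c (nat_lit 974) .c (.c (nat_lit 975) .c (.c (nat_lit 976) .g (.c (nat_lit 978) .y (.c (nat_lit 980) .x (.c (nat_lit 981) .y (.c (nat_lit 982) .c (.c (nat_lit 986) .c (.c (nat_lit 987) .g (.c (nat_lit 987) .c (.c (nat_lit 991) .c (.c (nat_lit 993) .g (.c (nat_lit 994) .c (.c (nat_lit 995) .x (.c (nat_lit 995) .c (.c (nat_lit 996) .y (.c (nat_lit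 996) .c (.c (nat_lit 999) .c (.c (nat_lit 1001) .x (.c (nat_lit 1001) .c (.c (nat_lit 1002) .g (.c (nat_lit 1002) .y (.c (nat_lit 1002) .c (.c (nat_lit 1004) .g (.c (nat_lit 1004) .y (.c (nat_lit 1004) .x (.c (nat_lit 1006) .g (.c (nat_lit 1007) .x (.c (nat_lit 1007) .c (.c (nat_lit 1008) .x (.c (nat_lit 1008) .c w10))))))))))))))))))))))))))))))))))))))))))))))))))))))))))))

noncomputable def w8 : Bs := (.c (nat_lit 880) .c (.c (nat_lit 883) .x (.c (nat_lit 885) .c (.c (nat_lit 886) .c (.c (nat_lit 887) .x (.c (nat_lit 888) .x (.c (nat_lit 888) .c (.c (nat_lit 889) .c (.c (nat_lit 890) .x (.c (nat_lit 893) .y (.c (nat_lit 893) .c (.c (nat_lit 894) .x (.c (nat_lit 896) .g (.c (nat_lit 896) .y (.c (nat_lit 896) .c (.c (nat_lit 898) .c (.c (nat_lit 899) .g (.c (nat_lit 901) .g (.c (nat_lit 905) .g (.c (nat_lit 906) .y (.c (nat_lit 906) .c (.c (nat_lit 907) .y (.c (nat_lit 907) .x (.c (nat_lit 908) .c (.c (nat_lit 910) .x (.c (nat_lit 910) .c (.c (nat_lit 911) .g (.c (nat_lit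 911) .y (.c (nat_lit 911) .c (.c (nat_lit 914) .c (.c (nat_lit 915) .g (.c (nat_lit 916) .x (.c (nat_lit 916) .c (.c (nat_lit 917) .g (.c (nat_lit 917) .y (.c (nat_lit 917) .c (.c (nat_lit 918) .c (.c (nat_lit 919) .y (.c (nat_lit 919) .c (.c (nat_lit 920) .y (.c (nat_lit 920) .x (.c (nat_lit 921) .c (.c (nat_lit 923) .g (.c (nat_lit 923) .y (.c (nat_lit 924) .g (.c (nat_lit 926) .c (.c (nat_lit 927) .g (.c (nat_lit 928) .x (.c (nat_lit 928) .c (.c (nat_lit 929) .g (.c (nat_lit 929) .y (.c (nat_lit 929) .c (.c (nat_lit 930) .y (.c (nat_lit 931) .c (.c (nat_lit 932) .g (.c (nat_lit 933) .x (.c (nat_lit 933) .c (.c (nat_lit 934) .g (.c (nat_lit 934) .x (.c (nat_lit 934) .c w9))))))))))))))))))))))))))))))))))))))))))))))))))))))))))))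

noncomputable def w7 : Bs := (.c (nat_lit 813) .x (.c (nat_lit 813) .c (.c (nat_lit 814) .g (.c (nat_lit 814) .y (.c (nat_lit 814) .c (.c (nat_lit 816) .x (.c (nat_lit 816) .c (.c (nat_lit 817) .g (.c (nat_lit 817) .c (.c (nat_lit 819) .x (.c (nat_lit 821) .c (.c (nat_lit 823) .g (.c (nat_lit 823) .y (.c (nat_lit 824) .c (.c (nat_lit 825) .c (.c (nat_lit 826) .g (.c (nat_lit 828) .g (.c (nat_lit 830) .x (.c (nat_lit 831) .c (.c (nat_lit 833) .g (.c (nat_lit 833) .y (.c (nat_lit 834) .c (.c (nat_lit 835) .x (.c (nat_lit 838) .c (.c (nat_lit 839) .c (.c (nat_lit 841) .c (.c (nat_lit 843) .x (.c (nat_lit 845) .x (.c (nat_lit 845) .c (.c (nat_lit 848) .g (.c (nat_lit 848) .x (.c (nat_lit 850) .g (.c (nat_lit 853) .x (.c (nat_lit 855) .x (.c (nat_lit 855) .c (.c (nat_lit 856) .g (.c (nat_lit 856) .y (.c (nat_lit 856) .c (.c (nat_lit 857) .y (.c (nat_lit 858) .g (.c (nat_lit 859) .x (.c (nat_lit 859) .c (.c (nat_lit 860) .x (.c (nat_lit 860) .c (.c (nat_lit 863) .c (.c (nat_lit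 864) .g (.c (nat_lit 866) .x (.c (nat_lit 869) .y (.c (nat_lit 870) .x (.c (nat_lit 870) .c (.c (nat_lit 871) .g (.c (nat_lit 871) .y (.c (nat_lit 871) .c (.c (nat_lit 872) .g (.c (nat_lit 872) .y (.c (nat_lit 873) .g (.c (nat_lit 874) .x (.c (nat_lit 874) .c (.c (nat_lit 875) .c (.c (nat_lit 876) .c w8))))))))))))))))))))))))))))))))))))))))))))))))))))))))))))

noncomputable def w6 : Bs := (.c (nat_lit 732) .c (.c (nat_lit 734) .x (.c (nat_lit 734) .c (.c (nat_lit 735) .c (.c (nat_lit 736) .y (.c (nat_lit 736) .x (.c (nat_lit 737) .c (.c (nat_lit 738) .g (.c (nat_lit 738) .c (.c (nat_lit 739) .g (.c (nat_lit 739) .x (.c (nat_lit 741) .c (.c (nat_lit 744) .c (.c (nat_lit 745) .c (.c (nat_lit 746) .g (.c (nat_lit 746) .y (.c (nat_lit 748) .c (.c (nat_lit 751) .c (.c (nat_lit 752) .c (.c (nat_lit 753) .y (.c (nat_lit 753) .x (.c (nat_lit 754) .c (.c (nat_lit 755) .g (.c (nat_lit 757) .c (.c (nat_lit 759) .x (.c (nat_lit 763) .x (.c (nat_lit 763) .c (.c (nat_lit 764) .c (.c (nat_lit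 767) .x (.c (nat_lit 767) .c (.c (nat_lit 768) .c (.c (nat_lit 775) .c (.c (nat_lit 776) .x (.c (nat_lit 778) .g (.c (nat_lit 778) .y (.c (nat_lit 778) .c (.c (nat_lit 779) .y (.c (nat_lit 783) .y (.c (nat_lit 785) .x (.c (nat_lit 785) .c (.c (nat_lit 789) .c (.c (nat_lit 790) .g (.c (nat_lit 790) .y (.c (nat_lit 790) .c (.c (nat_lit 792) .y (.c (nat_lit 793) .y (.c (nat_lit 799) .c (.c (nat_lit 801) .x (.c (nat_lit 801) .c (.c (nat_lit 802) .g (.c (nat_lit 802) .y (.c (nat_lit 802) .c (.c (nat_lit 803) .y (.c (nat_lit 805) .g (.c (nat_lit 806) .x (.c (nat_lit 806) .c (.c (nat_lit 807) .g (.c (nat_lit 807) .c (.c (nat_lit 808) .g (.c (nat_lit 810) .x w7))))))))))))))))))))))))))))))))))))))))))))))))))))))))))))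

noncomputable def w5 : Bs := (.c (nat_lit 644) .c (.c (nat_lit 647) .g (.c (nat_lit 651) .c (.c (nat_lit 652) .x (.c (nat_lit 653) .c (.c (nat_lit 655) .g (.c (nat_lit 657) .c (.c (nat_lit 659) .c (.c (nat_lit 660) .c (.c (nat_lit 661) .y (.c (nat_lit 661) .x (.c (nat_lit 662) .c (.c (nat_lit 663) .g (.c (nat_lit 663) .x (.c (nat_lit 665) .c (.c (nat_lit 667) .c (.c (nat_lit 673) .g (.c (nat_lit 674) .c (.c (nat_lit 677) .c (.c (nat_lit 679) .c (.c (nat_lit 680) .c (.c (nat_lit 681) .g (.c (nat_lit 681) .y (.c (nat_lit 682) .c (.c (nat_lit 684) .g (.c (nat_lit 685) .c (.c (nat_lit 687) .c (.c (nat_lit 688) .g (.c (nat_lit 689) .c (.c (nat_lit 691) .c (.c (nat_lit 692) .c (.c (nat_lit 694) .c (.c (nat_lit 695) .g (.c (nat_lit 695) .x (.c (nat_lit 696) .c (.c (nat_lit 697) .c (.c (nat_lit 698) .g (.c (nat_lit 698) .y (.c (nat_lit 704) .c (.c (nat_lit 707) .x (.c (nat_lit 707) .c (.c (nat_lit 708) .c (.c (nat_lit 709) .y (.c (nat_lit 709) .x (.c (nat_lit 710) .c (.c (nat_lit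 711) .g (.c (nat_lit 713) .g (.c (nat_lit 715) .y (.c (nat_lit 716) .y (.c (nat_lit 718) .c (.c (nat_lit 720) .y (.c (nat_lit 721) .x (.c (nat_lit 721) .c (.c (nat_lit 722) .g (.c (nat_lit 723) .c (.c (nat_lit 727) .x (.c (nat_lit 727) .c (.c (nat_lit 728) .c (.c (nat_lit 729) .x (.c (nat_lit 730) .c w6))))))))))))))))))))))))))))))))))))))))))))))))))))))))))))

noncomputable def w4 : Bs := (.c (nat_lit 542) .g (.c (nat_lit 548) .g (.c (nat_lit 549) .y (.c (nat_lit 556) .c (.c (nat_lit 558) .g (.c (nat_lit 558) .y (.c (nat_lit 561) .x (.c (nat_lit 561) .c (.c (nat_lit 565) .c (.c (nat_lit 566) .c (.c (nat_lit 568) .c (.c (nat_lit 569) .x (.c (nat_lit 570) .c (.c (nat_lit 571) .c (.c (nat_lit 572) .g (.c (nat_lit 572) .y (.c (nat_lit 574) .c (.c (nat_lit 575) .c (.c (nat_lit 576) .y (.c (nat_lit 576) .x (.c (nat_lit 577) .c (.c (nat_lit 579) .g (.c (nat_lit 579) .y (.c (nat_lit 586) .c (.c (nat_lit 590) .c (.c (nat_lit 591) .c (.c (nat_lit 592) .x (.c (nat_lit 593) .c (.c (nat_lit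 594) .c (.c (nat_lit 595) .g (.c (nat_lit 595) .y (.c (nat_lit 596) .c (.c (nat_lit 598) .x (.c (nat_lit 598) .c (.c (nat_lit 599) .c (.c (nat_lit 600) .y (.c (nat_lit 600) .x (.c (nat_lit 601) .c (.c (nat_lit 602) .g (.c (nat_lit 602) .c (.c (nat_lit 603) .g (.c (nat_lit 603) .x (.c (nat_lit 604) .c (.c (nat_lit 606) .g (.c (nat_lit 606) .x (.c (nat_lit 607) .c (.c (nat_lit 608) .c (.c (nat_lit 609) .g (.c (nat_lit 609) .y (.c (nat_lit 613) .c (.c (nat_lit 614) .x (.c (nat_lit 615) .c (.c (nat_lit 631) .c (.c (nat_lit 632) .c (.c (nat_lit 633) .y (.c (nat_lit 635) .c (.c (nat_lit 636) .c (.c (nat_lit 640) .y (.c (nat_lit 641) .x (.c (nat_lit 641) .c w5))))))))))))))))))))))))))))))))))))))))))))))))))))))))))))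

noncomputable def w3 : Bs := (.c (nat_lit 446) .c (.c (nat_lit 449) .c (.c (nat_lit 450) .x (.c (nat_lit 452) .c (.c (nat_lit 453) .x (.c (nat_lit 456) .g (.c (nat_lit 457) .c (.c (nat_lit 459) .g (.c (nat_lit 459) .y (.c (nat_lit 463) .x (.c (nat_lit 464) .y (.c (nat_lit 466) .c (.c (nat_lit 471) .c (.c (nat_lit 472) .x (.c (nat_lit 473) .c (.c (nat_lit 474) .c (.c (nat_lit 475) .g (.c (nat_lit 475) .y (.c (nat_lit 476) .c (.c (nat_lit 477) .c (.c (nat_lit 478) .c (.c (nat_lit 479) .y (.c (nat_lit 479) .x (.c (nat_lit 481) .g (.c (nat_lit 482) .c (.c (nat_lit 484) .c (.c (nat_lit 485) .g (.c (nat_lit 485) .x (.c (nat_lit 486) .c (.c (nat_lit 487) .c (.c (nat_lit 488) .g (.c (nat_lit 488) .y (.c (nat_lit 489) .c (.c (nat_lit 490) .x (.c (nat_lit 491) .c (.c (nat_lit 492) .g (.c (nat_lit 511) .y (.c (nat_lit 513) .x (.c (nat_lit 513) .c (.c (nat_lit 515) .c (.c (nat_lit 517) .c (.c (nat_lit 518) .x (.c (nat_lit 522) .c (.c (nat_lit 523) .c (.c (nat_lit 524) .c (.c (nat_lit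 525) .y (.c (nat_lit 525) .x (.c (nat_lit 527) .g (.c (nat_lit 529) .c (.c (nat_lit 532) .c (.c (nat_lit 533) .g (.c (nat_lit 533) .x (.c (nat_lit 534) .c (.c (nat_lit 535) .c (.c (nat_lit 536) .g (.c (nat_lit 536) .y (.c (nat_lit 539) .c (.c (nat_lit 540) .c (.c (nat_lit 541) .y (.c (nat_lit 541) .x w4))))))))))))))))))))))))))))))))))))))))))))))))))))))))))))

noncomputable def w2 : Bs := (.c (nat_lit 347) .x (.c (nat_lit 347) .c (.c (nat_lit 351) .x (.c (nat_lit 351) .c (.c (nat_lit 354) .g (.c (nat_lit 354) .c (.c (nat_lit 358) .c (.c (nat_lit 365) .c (.c (nat_lit 369) .c (.c (nat_lit 370) .g (.c (nat_lit 373) .c (.c (nat_lit 374) .c (.c (nat_lit 377) .c (.c (nat_lit 380) .c (.c (nat_lit 385) .c (.c (nat_lit 386) .c (.c (nat_lit 388) .c (.c (nat_lit 391) .c (.c (nat_lit 396) .x (.c (nat_lit 396) .c (.c (nat_lit 397) .c (.c (nat_lit 398) .y (.c (nat_lit 399) .g (.c (nat_lit 400) .x (.c (nat_lit 400) .c (.c (nat_lit 401) .c (.c (nat_lit 406) .x (.c (nat_lit 406) .c (.c (nat_lit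 407) .g (.c (nat_lit 407) .y (.c (nat_lit 407) .c (.c (nat_lit 409) .x (.c (nat_lit 409) .c (.c (nat_lit 415) .c (.c (nat_lit 417) .c (.c (nat_lit 422) .g (.c (nat_lit 422) .c (.c (nat_lit 425) .c (.c (nat_lit 426) .y (.c (nat_lit 426) .x (.c (nat_lit 428) .x (.c (nat_lit 428) .c (.c (nat_lit 429) .g (.c (nat_lit 429) .y (.c (nat_lit 429) .c (.c (nat_lit 433) .x (.c (nat_lit 433) .c (.c (nat_lit 434) .g (.c (nat_lit 434) .y (.c (nat_lit 434) .c (.c (nat_lit 436) .y (.c (nat_lit 437) .g (.c (nat_lit 438) .x (.c (nat_lit 438) .c (.c (nat_lit 439) .c (.c (nat_lit 440) .g (.c (nat_lit 443) .c (.c (nat_lit 444) .g (.c (nat_lit 444) .c (.c (nat_lit 446) .x w3))))))))))))))))))))))))))))))))))))))))))))))))))))))))))))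

noncomputable def w1 : Bs := (.c (nat_lit 236) .c (.c (nat_lit 238) .g (.c (nat_lit 239) .c (.c (nat_lit 241) .c (.c (nat_lit 243) .c (.c (nat_lit 244) .x (.c (nat_lit 246) .c (.c (nat_lit 248) .c (.c (nat_lit 249) .c (.c (nat_lit 251) .c (.c (nat_lit 257) .g (.c (nat_lit 257) .c (.c (nat_lit 259) .g (.c (nat_lit 260) .c (.c (nat_lit 261) .c (.c (nat_lit 262) .g (.c (nat_lit 263) .y (.c (nat_lit 265) .c (.c (nat_lit 266) .y (.c (nat_lit 267) .x (.c (nat_lit 267) .c (.c (nat_lit 270) .x (.c (nat_lit 270) .c (.c (nat_lit 271) .c (.c (nat_lit 273) .g (.c (nat_lit 275) .c (.c (nat_lit 277) .c (.c (nat_lit 285) .c (.c (nat_lit 291) .c (.c (nat_lit 294) .x (.c (nat_lit 294) .c (.c (nat_lit 295) .c (.c (nat_lit 298) .x (.c (nat_lit 298) .c (.c (nat_lit 299) .c (.c (nat_lit 303) .c (.c (nat_lit 305) .c (.c (nat_lit 306) .c (.c (nat_lit 307) .y (.c (nat_lit 308) .c (.c (nat_lit 318) .c (.c (nat_lit 319) .c (.c (nat_lit 322) .c (.c (nat_lit 323) .c (.c (nat_lit 324) .y (.c (nat_lit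 325) .c (.c (nat_lit 330) .g (.c (nat_lit 330) .y (.c (nat_lit 330) .c (.c (nat_lit 333) .c (.c (nat_lit 334) .c (.c (nat_lit 335) .g (.c (nat_lit 337) .y (.c (nat_lit 339) .x (.c (nat_lit 339) .c (.c (nat_lit 340) .g (.c (nat_lit 340) .c (.c (nat_lit 344) .x (.c (nat_lit 344) .c (.c (nat_lit 345) .g w2))))))))))))))))))))))))))))))))))))))))))))))))))))))))))))

noncomputable def w0 : Bs := (.c (nat_lit 82) .c (.c (nat_lit 85) .c (.c (nat_lit 86) .c (.c (nat_lit 88) .c (.c (nat_lit 90) .c (.c (nat_lit 93) .c (.c (nat_lit 95) .c (.c (nat_lit 100) .c (.c (nat_lit 102) .c (.c (nat_lit 103) .c (.c (nat_lit 106) .c (.c (nat_lit 111) .c (.c (nat_lit 115) .c (.c (nat_lit 120) .c (.c (nat_lit 121) .c (.c (nat_lit 123) .c (.c (nat_lit 134) .c (.c (nat_lit 136) .c (.c (nat_lit 138) .g (.c (nat_lit 139) .c (.c (nat_lit 140) .c (.c (nat_lit 141) .g (.c (nat_lit 144) .y (.c (nat_lit 145) .c (.c (nat_lit 146) .x (.c (nat_lit 148) .c (.c (nat_lit 149) .g (.c (nat_lit 154) .x (.c (nat_lit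 162) .c (.c (nat_lit 163) .y (.c (nat_lit 168) .c (.c (nat_lit 169) .y (.c (nat_lit 170) .c (.c (nat_lit 171) .c (.c (nat_lit 175) .c (.c (nat_lit 176) .c (.c (nat_lit 178) .g (.c (nat_lit 181) .c (.c (nat_lit 182) .y (.c (nat_lit 182) .x (.c (nat_lit 188) .c (.c (nat_lit 202) .c (.c (nat_lit 203) .x (.c (nat_lit 206) .c (.c (nat_lit 208) .x (.c (nat_lit 209) .g (.c (nat_lit 210) .c (.c (nat_lit 211) .x (.c (nat_lit 212) .c (.c (nat_lit 213) .c (.c (nat_lit 219) .c (.c (nat_lit 220) .g (.c (nat_lit 222) .c (.c (nat_lit 225) .x (.c (nat_lit 226) .c (.c (nat_lit 229) .c (.c (nat_lit 230) .y (.c (nat_lit 230) .x (.c (nat_lit 231) .c (.c (nat_lit 233) .g w1))))))))))))))))))))))))))))))))))))))))))))))))))))))))))))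

end Pool.Agent.L3E.RM.M
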