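import Pool.Agent.L3E.RM.DatX
import Pool.Agent.L3E.RM.DatY
import Pool.Agent.L3E.RM.DatG
import Pool.Agent.L3E.RM.DatC

set_option autoImplicit false
set_option maxRecDepth 100000
set_option linter.all false

namespace Pool.Agent.L3E.RM.M

open Pool.Agent.L3E.RMG Pool.Agent.L3E.RM

noncomputable def tb : Tb := ⟨nat_lit 64, nat_lit 2816, nat_lit 5568, nat_lit 8320, tx, ty, tg, tc⟩

end Pool.Agent.L3E.RM.M
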