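import Pool.Agent.L3E.RM.Laws
import Pool.Agent.L3E.RM.DatT
import Pool.Agent.L3E.RM.DatQ

set_option autoImplicit false
set_option maxRecDepth 1000000
set_option exponentiation.threshold 100000

/-!
# L3E, Claim M: small kernel checks (helper31)
-/

namespace Pool.Agent.L3E.RM.M

open Pool.Agent.L3E.RMG Pool.Agent.L3E.RM

theorem wx : wfp tx 64 2752 = true := by decide +kernel
theorem wy : wfp ty 64 2752 = true := by decide +kernel
theorem wg : wfp tg 64 2752 = true := by decide +kernel
theorem wc : wfp tc 64 2752 = true := by decide +kernel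
theorem bx : bp (Nat.pow 2 2752) tx = true := by decide +kernel
theorem by' : bp (Nat.pow 2 2752) ty = true := by decide +kernel
theorem bg : bp (Nat.pow 2 2752) tg = true := by decide +kernel
theorem bc : bp (Nat.pow 2 2752) tc = true := by decide +kernel
theorem bo : bok tb 2732 w0 64 = true := by decide +kernel
theorem zz : zr tb (nat_lit 2733) (nat_lit 19) = true := by decide +kernel
theorem mq : Nat.beq (Nat.lor q0 (bm 2752 w0)) (fm 2752 2732) = true := by decide +kernel
theorem q4z : Nat.beq (Nat.shiftRight q4 64) 0 = true := by decide +kernel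

/-- The word `x y x y`. -/
def exy : Wd := .k .x (.k .y (.k .x (.k .y .n)))

/-- `E C E (1 + G) X`. -/
def p1 : Pr := .mwd exy (.mul .c (.mwd exy (.grp (.k .g .n) (.fin .x))))

/-- `E C E X`. -/
def p2 : Pr := .mwd exy (.mul .c (.mwd exy (.fin .x)))

theorem z1 : ztb tb p1 2732 = true := by decide +kernel
theorem z2 : ztb tb p2 2732 = true := by decide +kernel

end Pool.Agent.L3E.RM.M
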