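import Pool.Agent.L3E.RM.DatL

set_option autoImplicit false
set_option maxRecDepth 100000
set_option linter.all false

namespace Pool.Agent.L3E.RM.M

open Pool.Agent.L3E.RMG Pool.Agent.L3E.RM

noncomputable def s0_158 : Ss := (.s (.c (nat_lit 2034) l53 .e) (.s (.c (nat_lit 2713) l111 .e) (.s (.c (nat_lit 2666) l116 .e) (.s (.c (nat_lit 2706) l302 .e) (.s (.c (nat_lit 2586) l74 .e) (.s (.c (nat_lit 2666) l293 .e) (.s (.c (nat_lit 813) l58 .e) (.s (.c (nat_lit 2669) l215 .e) (.s (.c (nat_lit 2677) l246 .e) (.s (.c (nat_lit 2704) l309 .e) (.s (.c (nat_lit 2706) l103 .e) (.s (.c (nat_lit 2686) l247 .e) (.s (.c (nat_lit 2707) l273 .e) (.s (.c (nat_lit 2690) l104 .e) (.s (.c (nat_lit 2729) l205 .e) (.s (.c (nat_lit 2730) l230 .e) (.s (.c (nat_lit 2618) l300 .e) (.s (.c (nat_lit 2192) l75 .e) (.s (.c (nat_lit 2194) l75 .e) (.s (.c (nat_lit 2732)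 l287 .e) (.s (.c (nat_lit 2732) l299 .e) (.s (.c (nat_lit 2730) l303 .e) (.s (.c (nat_lit 2732) l290 .e) (.s (.c (nat_lit 2721) l310 .e) (.s (.c (nat_lit 2721) l308 .e) .e)))))))))))))))))))))))))

noncomputable def s0_157 : Ss := (.s (.c (nat_lit 2732) l144 .e) (.s (.c (nat_lit 2693) l257 .e) (.s (.c (nat_lit 2730) l237 .e) (.s (.c (nat_lit 2732) l163 .e) (.s (.c (nat_lit 2728) l278 .e) (.s (.c (nat_lit 2635) l138 .e) (.s (.c (nat_lit 2635) l134 .e) (.s (.c (nat_lit 2729) l218 .e) (.s (.c (nat_lit 2661) l114 .e) (.s (.c (nat_lit 2713) l170 .e) (.s (.c (nat_lit 2724) l115 .e) (.s (.c (nat_lit 2592) l307 .e) (.s (.c (nat_lit 2730) l229 .e) (.s (.c (nat_lit 2712) l199 .e) (.s (.c (nat_lit 2709) l269 .e) (.s (.c (nat_lit 2682) l291 .e) (.s (.c (nat_lit 916) l55 .e) (.s (.c (nat_lit 2727) l248 .e) (.s (.c (nat_lit 2731) l282 .e) (.s (.c (nat_lit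 2705) l201 .e) (.s (.c (nat_lit 2677) l221 .e) (.s (.c (nat_lit 2713) l237 .e) (.s (.c (nat_lit 2721) l103 .e) (.s (.c (nat_lit 2729) l219 .e) (.s (.c (nat_lit 2732) l292 .e) (.s (.c (nat_lit 2732) l259 .e) (.s (.c (nat_lit 2707) l286 .e) (.s (.c (nat_lit 2690) l114 .e) (.s (.c (nat_lit 2690) l102 .e) (.s (.c (nat_lit 2731) l237 .e) s0_158))))))))))))))))))))))))))))))

noncomputable def s0_156 : Ss := (.s (.c (nat_lit 1869) l62 .e) (.s (.c (nat_lit 2684) l267 .e) (.s (.c (nat_lit 2727) l237 .e) (.s (.c (nat_lit 2669) l275 .e) (.s (.c (nat_lit 2685) l290 .e) (.s (.c (nat_lit 2698) l219 .e) (.s (.c (nat_lit 2720) l296 .e) (.s (.c (nat_lit 2380) l49 .e) (.s (.c (nat_lit 2519) l49 .e) (.s (.c (nat_lit 2418) l49 .e) (.s (.c (nat_lit 2653) l65 .e) (.s (.c (nat_lit 2169) l65 .e) (.s (.c (nat_lit 2411) l49 .e) (.s (.c (nat_lit 2117) l49 .e) (.s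 (.c (nat_lit 1769) l65 .e) (.s (.c (nat_lit 2391) l65 .e) (.s (.c (nat_lit 2345) l50 .e) (.s (.c (nat_lit 2411) l69 .e) (.s (.c (nat_lit 2555) l65 .e) (.s (.c (nat_lit 2422) l69 .e) (.s (.c (nat_lit 2410) l65 .e) (.s (.c (nat_lit 2711) l143 .e) (.s (.c (nat_lit 2731) l206 .e) (.s (.c (nat_lit 2635) l185 .e) (.s (.c (nat_lit 2726) l215 .e) (.s (.c (nat_lit 2731) l215 .e) (.s (.c (nat_lit 2074) l50 .e) (.s (.c (nat_lit 2610) l141 .e) (.s (.c (nat_lit 2682) l101 .e) (.s (.c (nat_lit 2710) l100 .e) s0_157))))))))))))))))))))))))))))))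

noncomputable def s0_155 : Ss := (.s (.c (nat_lit 2227) l50 .e) (.s (.c (nat_lit 2261) l50 .e) (.s (.c (nat_lit 2475) l50 .e) (.s (.c (nat_lit 1914) l65 .e) (.s (.c (nat_lit 2284) l50 .e) (.s (.c (nat_lit 2521) l78 .e) (.s (.c (nat_lit 2482) l69 .e) (.s (.c (nat_lit 2430) l78 .e) (.s (.c (nat_lit 2116) l74 .e) (.s (.c (nat_lit 2418) l52 .e) (.s (.c (nat_lit 1769) l74 .e) (.s (.c (nat_lit 2151) l74 .e) (.s (.c (nat_lit 2641) l74 .e) (.s (.c (nat_lit 2717) l177 .e) (.s (.c (nat_lit 2643) l161 .e) (.s (.c (nat_lit 2712) l125 .e) (.s (.c (nat_lit 2410) l265 .e) (.s (.c (nat_lit 2690) l154 .e) (.s (.c (nat_lit 2698) l215 .e) (.s (.c (nat_lit 1425) l65 .e) (.s (.c (nat_lit 1061) l65 .e) (.s (.c (nat_lit 2541) l97 .e) (.s (.c (nat_lit 2207) l298 .e) (.s (.c (nat_lit 2701) l242 .e) (.s (.c (nat_lit 2697) l103 .e) (.s (.c (nat_lit 2498) l50 .e) (.s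 (.c (nat_lit 2710) l147 .e) (.s (.c (nat_lit 2213) l304 .e) (.s (.c (nat_lit 2667) l160 .e) (.s (.c (nat_lit 2728) l275 .e) s0_156))))))))))))))))))))))))))))))

noncomputable def s0_154 : Ss := (.s (.c (nat_lit 2725) l111 .e) (.s (.c (nat_lit 2693) l174 .e) (.s (.c (nat_lit 2706) l64 .e) (.s (.c (nat_lit 2441) l42 .e) (.s (.c (nat_lit 2311) l108 .e) (.s (.c (nat_lit 2239) l74 .e) (.s (.c (nat_lit 1870) l74 .e) (.s (.c (nat_lit 2574) l208 .e) (.s (.c (nat_lit 1781) l51 .e) (.s (.c (nat_lit 1798) l51 .e) (.s (.c (nat_lit 1992) l66 .e) (.s (.c (nat_lit 2557) l83 .e) (.s (.c (nat_lit 2575) l161 .e) (.s (.c (nat_lit 2038) l51 .e) (.s (.c (nat_lit 2038) l66 .e) (.s (.c (nat_lit 2354) l66 .e) (.s (.c (nat_lit 2728) l228 .e) (.s (.c (nat_lit 923) l42 .e) (.s (.c (nat_lit 2648) l161 .e) (.s (.c (nat_lit 2718) l111 .e) (.s (.c (nat_lit 2600) l50 .e)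 (.s (.c (nat_lit 2520) l69 .e) (.s (.c (nat_lit 2410) l271 .e) (.s (.c (nat_lit 2558) l208 .e) (.s (.c (nat_lit 2558) l142 .e) (.s (.c (nat_lit 2295) l62 .e) (.s (.c (nat_lit 1944) l55 .e) (.s (.c (nat_lit 2440) l160 .e) (.s (.c (nat_lit 2272) l148 .e) (.s (.c (nat_lit 1914) l50 .e) s0_155))))))))))))))))))))))))))))))

noncomputable def s0_153 : Ss := (.s (.c (nat_lit 2716) l200 .e) (.s (.c (nat_lit 2720) l88 .e) (.s (.c (nat_lit 2306) l161 .e) (.s (.c (nat_lit 1904) l53 .e) (.s (.c (nat_lit 1856) l53 .e) (.s (.c (nat_lit 1870) l53 .e) (.s (.c (nat_lit 2334) l141 .e) (.s (.c (nat_lit 1868) l65 .e) (.s (.c (nat_lit 2263) l141 .e) (.s (.c (nat_lit 2493) l208 .e) (.s (.c (nat_lit 2039) l62 .e) (.s (.c (nat_lit 2661) l64 .e) (.s (.c (nat_lit 2174) l42 .e) (.s (.c (nat_lit 2714) l71 .e) (.s (.c (nat_lit 2690) l79 .e) (.s (.c (nat_lit 2592) l110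 .e) (.s (.c (nat_lit 2716) l84 .e) (.s (.c (nat_lit 2719) l84 .e) (.s (.c (nat_lit 1869) l47 .e) (.s (.c (nat_lit 2560) l233 .e) (.s (.c (nat_lit 1015) l42 .e) (.s (.c (nat_lit 2428) l96 .e) (.s (.c (nat_lit 2131) l58 .e) (.s (.c (nat_lit 2399) l58 .e) (.s (.c (nat_lit 2566) l66 .e) (.s (.c (nat_lit 2701) l237 .e) (.s (.c (nat_lit 1422) l74 .e) (.s (.c (nat_lit 975) l74 .e) (.s (.c (nat_lit 2679) l111 .e) (.s (.c (nat_lit 2710) l111 .e) s0_154))))))))))))))))))))))))))))))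

noncomputable def s0_152 : Ss := (.s (.c (nat_lit 2331) l47 .e) (.s (.c (nat_lit 1985) l47 .e) (.s (.c (nat_lit 1982) l47 .e) (.s (.c (nat_lit 2521) l52 .e) (.s (.c (nat_lit 2492) l161 .e) (.s (.c (nat_lit 2441) l53 .e) (.s (.c (nat_lit 2590) l74 .e) (.s (.c (nat_lit 2578) l53 .e) (.s (.c (nat_lit 2160) l104 .e) (.s (.c (nat_lit 974) l65 .e) (.s (.c (nat_lit 2717) l245 .e) (.s (.c (nat_lit 2281) l142 .e) (.s (.c (nat_lit 2068) l62 .e) (.s (.c (nat_lit 2506) l147 .e) (.s (.c (nat_lit 2267) l65 .e) (.s (.c (nat_lit 2357) l50 .e) (.s (.c (nat_lit 2610) l50 .e) (.s (.c (nat_lit 1540) l50 .e) (.s (.c (nat_lit 2646) l70 .e) (.s (.c (nat_lit 1241) l50 .e) (.s (.c (nat_lit 1278) l50 .e) (.s (.c (nat_lit 1616) l50 .e) (.s (.c (nat_lit 1941) l65 .e) (.s (.c (nat_lit 2275) l65 .e) (.s (.c (nat_lit 2695) l100 .e) (.s (.c (nat_lit 2623) l100 .e) (.s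 (.c (nat_lit 2399) l66 .e) (.s (.c (nat_lit 2423) l260 .e) (.s (.c (nat_lit 1888) l47 .e) (.s (.c (nat_lit 2000) l160 .e) s0_153))))))))))))))))))))))))))))))

noncomputable def s0_151 : Ss := (.s (.c (nat_lit 2490) l134 .e) (.s (.c (nat_lit 2169) l160 .e) (.s (.c (nat_lit 1161) l52 .e) (.s (.c (nat_lit 2380) l52 .e) (.s (.c (nat_lit 2519) l52 .e) (.s (.c (nat_lit 2568) l52 .e) (.s (.c (nat_lit 2411) l52 .e) (.s (.c (nat_lit 2170) l52 .e) (.s (.c (nat_lit 2660) l74 .e) (.s (.c (nat_lit 2422) l74 .e) (.s (.c (nat_lit 2505) l74 .e) (.s (.c (nat_lit 1799) l74 .e) (.s (.c (nat_lit 2560) l73 .e) (.s (.c (nat_lit 1764) l42 .e) (.s (.c (nat_lit 2689) l73 .e) (.s (.c (nat_lit 2336) l42 .e) (.s (.c (nat_lit 2451) l53 .e) (.s (.c (nat_lit 2112) l141 .e) (.s (.c (nat_lit 2690) l70 .e) (.s (.c (nat_lit 2717) l70 .e) (.s (.c (nat_lit 2716) l88 .e) (.s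 (.c (nat_lit 2635) l64 .e) (.s (.c (nat_lit 2717) l111 .e) (.s (.c (nat_lit 2401) l79 .e) (.s (.c (nat_lit 1992) l141 .e) (.s (.c (nat_lit 1894) l70 .e) (.s (.c (nat_lit 2635) l73 .e) (.s (.c (nat_lit 2368) l160 .e) (.s (.c (nat_lit 1434) l53 .e) (.s (.c (nat_lit 2690) l81 .e) s0_152))))))))))))))))))))))))))))))

noncomputable def s0_150 : Ss := (.s (.c (nat_lit 2732) l60 .e) (.s (.c (nat_lit 2732) l8 .e) (.s (.c (nat_lit 2732) l95 .e) (.s (.c (nat_lit 2726) l45 .e) (.s (.c (nat_lit 2732) l61 .e) (.s (.c (nat_lit 2732) l9 .e) (.s (.c (nat_lit 2149) l47 .e) (.s (.c (nat_lit 1753) l62 .e) (.s (.c (nat_lit 1753) l47 .e) (.s (.c (nat_lit 2160) l114 .e) (.s (.c (nat_lit 1811) l62 .e) (.s (.c (nat_lit 2019) l47 .e) (.s (.c (nat_lit 1782) l47 .e) (.s (.c (nat_lit 1630) l47 .e) (.s (.c (nat_lit 1522) l47 .e) (.s (.c (nat_lit 2363) l44 .e) (.s (.c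 (nat_lit 1944) l58 .e) (.s (.c (nat_lit 2363) l47 .e) (.s (.c (nat_lit 2579) l53 .e) (.s (.c (nat_lit 1648) l47 .e) (.s (.c (nat_lit 1640) l47 .e) (.s (.c (nat_lit 2403) l43 .e) (.s (.c (nat_lit 1943) l47 .e) (.s (.c (nat_lit 2264) l161 .e) (.s (.c (nat_lit 2608) l50 .e) (.s (.c (nat_lit 2160) l110 .e) (.s (.c (nat_lit 1044) l74 .e) (.s (.c (nat_lit 2160) l100 .e) (.s (.c (nat_lit 2131) l141 .e) (.s (.c (nat_lit 2577) l49 .e) s0_151))))))))))))))))))))))))))))))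

noncomputable def s0_149 : Ss := (.s (.c (nat_lit 2068) l47 .e) (.s (.c (nat_lit 2725) l84 .e) (.s (.c (nat_lit 2576) l43 .e) (.s (.c (nat_lit 2685) l43 .e) (.s (.c (nat_lit 2423) l55 .e) (.s (.c (nat_lit 2710) l45 .e) (.s (.c (nat_lit 2730) l55 .e) (.s (.c (nat_lit 2731) l55 .e) (.s (.c (nat_lit 2718) l60 .e) (.s (.c (nat_lit 2732) l84 .e) (.s (.c (nat_lit 2722) l88 .e) (.s (.c (nat_lit 2560) l44 .e) (.s (.c (nat_lit 2669) l44 .e) (.s (.c (nat_lit 2390) l58 .e) (.s (.c (nat_lit 2702) l45 .e) (.s (.c (nat_lit 2729) l58 .e) (.s (.c (nat_lit 2731) l58 .e) (.s (.c (nat_lit 2715) l61 .e) (.s (.c (nat_lit 2732) l88 .e) (.s (.c (nat_lit 1868) l141 .e) (.s (.c (nat_lit 2063) l47 .e) (.s (.c (nat_lit 1831) l97 .e) (.s (.c (nat_lit 1003) l1 .e) (.s (.c (nat_lit 738) l42 .e) (.s (.c (nat_lit 1413) l42 .e) (.s (.c (nat_lit 1412) l42 .e) (.s (.c (nat_lit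 1814) l69 .e) (.s (.c (nat_lit 1389) l65 .e) (.s (.c (nat_lit 2732) l92 .e) (.s (.c (nat_lit 2727) l45 .e) s0_150))))))))))))))))))))))))))))))

noncomputable def s0_148 : Ss := (.s (.c (nat_lit 2728) l99 .e) (.s (.c (nat_lit 2506) l49 .e) (.s (.c (nat_lit 2306) l65 .e) (.s (.c (nat_lit 2731) l65 .e) (.s (.c (nat_lit 2718) l69 .e) (.s (.c (nat_lit 2731) l99 .e) (.s (.c (nat_lit 2724) l50 .e) (.s (.c (nat_lit 2732) l69 .e) (.s (.c (nat_lit 2730) l65 .e) (.s (.c (nat_lit 1391) l70 .e) (.s (.c (nat_lit 1862) l46 .e) (.s (.c (nat_lit 1825) l108 .e) (.s (.c (nat_lit 2624) l74 .e) (.s (.c (nat_lit 2151) l66 .e) (.s (.c (nat_lit 2709) l79 .e) (.s (.c (nat_lit 1388) l69 .e) (.s (.c (nat_lit 1007) l65 .e) (.s (.c (nat_lit 1831) l108 .e) (.s (.c (nat_lit 427) l42 .e) (.s (.c (nat_lit 2038) l42 .e) (.s (.c (nat_lit 2355) l45 .e) (.s (.c (nat_lit 2542)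 l55 .e) (.s (.c (nat_lit 1104) l78 .e) (.s (.c (nat_lit 2618) l58 .e) (.s (.c (nat_lit 1915) l62 .e) (.s (.c (nat_lit 2435) l53 .e) (.s (.c (nat_lit 2732) l99 .e) (.s (.c (nat_lit 2732) l10 .e) (.s (.c (nat_lit 2732) l111 .e) (.s (.c (nat_lit 2732) l11 .e) s0_149))))))))))))))))))))))))))))))

noncomputable def s0_147 : Ss := (.s (.c (nat_lit 2401) l70 .e) (.s (.c (nat_lit 2435) l70 .e) (.s (.c (nat_lit 2618) l79 .e) (.s (.c (nat_lit 1963) l42 .e) (.s (.c (nat_lit 1952) l50 .e) (.s (.c (nat_lit 1154) l74 .e) (.s (.c (nat_lit 813) l74 .e) (.s (.c (nat_lit 1769) l70 .e) (.s (.c (nat_lit 986) l50 .e) (.s (.c (nat_lit 1367) l50 .e) (.s (.c (nat_lit 1359) l65 .e) (.s (.c (nat_lit 1367) l65 .e) (.s (.c (nat_lit 1661) l65 .e) (.s (.c (nat_lit 1128) l49 .e) (.s (.c (nat_lit 1128) l69 .e) (.s (.c (nat_lit 806) l65 .e) (.s (.c (nat_lit 2189) l74 .e)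 (.s (.c (nat_lit 2489) l50 .e) (.s (.c (nat_lit 1622) l108 .e) (.s (.c (nat_lit 2728) l115 .e) (.s (.c (nat_lit 2445) l52 .e) (.s (.c (nat_lit 2208) l74 .e) (.s (.c (nat_lit 2731) l74 .e) (.s (.c (nat_lit 2715) l78 .e) (.s (.c (nat_lit 2731) l111 .e) (.s (.c (nat_lit 2721) l53 .e) (.s (.c (nat_lit 2732) l78 .e) (.s (.c (nat_lit 2729) l74 .e) (.s (.c (nat_lit 2203) l53 .e) (.s (.c (nat_lit 2184) l53 .e) s0_148))))))))))))))))))))))))))))))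

noncomputable def s0_146 : Ss := (.s (.c (nat_lit 1990) l75 .e) (.s (.c (nat_lit 2355) l75 .e) (.s (.c (nat_lit 1767) l47 .e) (.s (.c (nat_lit 1914) l53 .e) (.s (.c (nat_lit 2000) l50 .e) (.s (.c (nat_lit 2307) l69 .e) (.s (.c (nat_lit 2631) l49 .e) (.s (.c (nat_lit 2066) l47 .e) (.s (.c (nat_lit 2311) l53 .e) (.s (.c (nat_lit 2513) l74 .e) (.s (.c (nat_lit 1524) l79 .e) (.s (.c (nat_lit 2703) l111 .e) (.s (.c (nat_lit 2709) l99 .e) (.s (.c (nat_lit 1960) l79 .e) (.s (.c (nat_lit 1524) l70 .e) (.s (.c (nat_lit 2376) l53 .e) (.s (.c (nat_lit 2732) l68 .e) (.s (.c (nat_lit 2729) l49 .e) (.s (.c (nat_lit 2732) l77 .e) (.s (.c (nat_lit 1854) l70 .e) (.s (.c (nat_lit 2493) l73 .e) (.s (.c (nat_lit 1606) l42 .e) (.s (.c (nat_lit 2731) l72 .e) (.s (.c (nat_lit 2731) l81 .e) (.s (.c (nat_lit 1980) l65 .e) (.s (.c (nat_lit 1569) l50 .e) (.s (.c (nat_lit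 1827) l62 .e) (.s (.c (nat_lit 2679) l89 .e) (.s (.c (nat_lit 2039) l48 .e) (.s (.c (nat_lit 1498) l53 .e) s0_147))))))))))))))))))))))))))))))

noncomputable def s0_145 : Ss := (.s (.c (nat_lit 991) l65 .e) (.s (.c (nat_lit 735) l50 .e) (.s (.c (nat_lit 911) l65 .e) (.s (.c (nat_lit 1630) l49 .e) (.s (.c (nat_lit 1782) l49 .e) (.s (.c (nat_lit 1573) l49 .e) (.s (.c (nat_lit 1430) l48 .e) (.s (.c (nat_lit 1529) l49 .e) (.s (.c (nat_lit 1388) l49 .e) (.s (.c (nat_lit 1798) l65 .e) (.s (.c (nat_lit 1159) l49 .e) (.s (.c (nat_lit 2387) l49 .e) (.s (.c (nat_lit 2641) l49 .e) (.s (.c (nat_lit 1805) l48 .e) (.s (.c (nat_lit 1150) l65 .e) (.s (.c (nat_lit 2724) l66 .e) (.s (.c (nat_lit 2721) l75 .e) (.s (.c (nat_lit 1813) l47 .e) (.s (.c (nat_lit 1528) l47 .e) (.s (.c (nat_lit 1649) l74 .e) (.s (.c (nat_lit 2580) l61 .e) (.s (.c (nat_lit 2731) l66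 .e) (.s (.c (nat_lit 2732) l56 .e) (.s (.c (nat_lit 2730) l46 .e) (.s (.c (nat_lit 2731) l75 .e) (.s (.c (nat_lit 2732) l59 .e) (.s (.c (nat_lit 2729) l46 .e) (.s (.c (nat_lit 1829) l47 .e) (.s (.c (nat_lit 2262) l75 .e) (.s (.c (nat_lit 2352) l75 .e) s0_146))))))))))))))))))))))))))))))

noncomputable def s0_144 : Ss := (.s (.c (nat_lit 1830) l58 .e) (.s (.c (nat_lit 1431) l45 .e) (.s (.c (nat_lit 2511) l53 .e) (.s (.c (nat_lit 2727) l56 .e) (.s (.c (nat_lit 2711) l42 .e) (.s (.c (nat_lit 2728) l47 .e) (.s (.c (nat_lit 1815) l58 .e) (.s (.c (nat_lit 1425) l55 .e) (.s (.c (nat_lit 596) l45 .e) (.s (.c (nat_lit 1219) l45 .e) (.s (.c (nat_lit 1255) l45 .e) (.s (.c (nat_lit 2257) l45 .e) (.s (.c (nat_lit 2364) l45 .e) (.s (.c (nat_lit 1290) l45 .e) (.s (.c (nat_lit 1061) l55 .e) (.s (.c (nat_lit 1388) l60 .e) (.s (.c (nat_lit 1709) l55 .e) (.s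 (.c (nat_lit 2083) l47 .e) (.s (.c (nat_lit 2379) l50 .e) (.s (.c (nat_lit 2726) l59 .e) (.s (.c (nat_lit 1849) l53 .e) (.s (.c (nat_lit 1567) l2 .e) (.s (.c (nat_lit 823) l42 .e) (.s (.c (nat_lit 2476) l51 .e) (.s (.c (nat_lit 1638) l65 .e) (.s (.c (nat_lit 1986) l46 .e) (.s (.c (nat_lit 2422) l66 .e) (.s (.c (nat_lit 2410) l53 .e) (.s (.c (nat_lit 2439) l79 .e) (.s (.c (nat_lit 2439) l70 .e) s0_145))))))))))))))))))))))))))))))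

noncomputable def s0_143 : Ss := (.s (.c (nat_lit 2667) l58 .e) (.s (.c (nat_lit 2501) l58 .e) (.s (.c (nat_lit 1812) l58 .e) (.s (.c (nat_lit 1241) l55 .e) (.s (.c (nat_lit 1622) l74 .e) (.s (.c (nat_lit 2708) l47 .e) (.s (.c (nat_lit 1240) l69 .e) (.s (.c (nat_lit 1523) l74 .e) (.s (.c (nat_lit 1649) l78 .e) (.s (.c (nat_lit 2718) l47 .e) (.s (.c (nat_lit 2067) l74 .e) (.s (.c (nat_lit 1389) l55 .e) (.s (.c (nat_lit 2232) l78 .e) (.s (.c (nat_lit 2232) l52 .e) (.s (.c (nat_lit 1956) l53 .e) (.s (.c (nat_lit 2732) l47 .e) (.s (.c (nat_lit 1152) l70 .e) (.s (.c (nat_lit 2156) l75 .e) (.s (.c (nat_lit 1186) l42 .e) (.s (.c (nat_lit 1656) l58 .e) (.s (.c (nat_lit 1990) l50 .e) (.s (.c (nat_lit 2685) l73 .e) (.s (.c (nat_lit 2301) l42 .e) (.s (.c (nat_lit 1812) l55 .e) (.s (.c (nat_lit 871) l65 .e) (.s (.c (nat_lit 2067) l65 .e) (.s (.c (nat_lit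 1815) l78 .e) (.s (.c (nat_lit 1440) l74 .e) (.s (.c (nat_lit 2534) l75 .e) (.s (.c (nat_lit 1942) l50 .e) s0_144))))))))))))))))))))))))))))))

noncomputable def s0_142 : Ss := (.s (.c (nat_lit 2717) l80 .e) (.s (.c (nat_lit 2725) l76 .e) (.s (.c (nat_lit 1110) l50 .e) (.s (.c (nat_lit 1263) l50 .e) (.s (.c (nat_lit 2151) l79 .e) (.s (.c (nat_lit 602) l53 .e) (.s (.c (nat_lit 929) l74 .e) (.s (.c (nat_lit 1420) l74 .e) (.s (.c (nat_lit 1430) l78 .e) (.s (.c (nat_lit 2684) l55 .e) (.s (.c (nat_lit 1407) l47 .e) (.s (.c (nat_lit 1152) l79 .e) (.s (.c (nat_lit 2560) l79 .e) (.s (.c (nat_lit 2732) l64 .e) (.s (.c (nat_lit 1994) l73 .e) (.s (.c (nat_lit 407) l42 .e) (.s (.c (nat_lit 818) l1 .e) (.s (.c (nat_lit 671) l42 .e) (.s (.c (nat_lit 906) l42 .e) (.s (.c (nat_lit 1332) l42 .e) (.s (.c (nat_lit 1302) l42 .e) (.s (.c (nat_lit 1331) l42 .e)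 (.s (.c (nat_lit 961) l42 .e) (.s (.c (nat_lit 919) l42 .e) (.s (.c (nat_lit 905) l42 .e) (.s (.c (nat_lit 1011) l42 .e) (.s (.c (nat_lit 893) l42 .e) (.s (.c (nat_lit 826) l42 .e) (.s (.c (nat_lit 1254) l42 .e) (.s (.c (nat_lit 1569) l42 .e) s0_143))))))))))))))))))))))))))))))

noncomputable def s0_141 : Ss := (.s (.c (nat_lit 2112) l46 .e) (.s (.c (nat_lit 1606) l53 .e) (.s (.c (nat_lit 1124) l58 .e) (.s (.c (nat_lit 2732) l73 .e) (.s (.c (nat_lit 2707) l42 .e) (.s (.c (nat_lit 1354) l42 .e) (.s (.c (nat_lit 1058) l42 .e) (.s (.c (nat_lit 1012) l42 .e) (.s (.c (nat_lit 681) l42 .e) (.s (.c (nat_lit 2160) l79 .e) (.s (.c (nat_lit 2160) l70 .e) (.s (.c (nat_lit 2416) l58 .e) (.s (.c (nat_lit 2160) l44 .e) (.s (.c (nat_lit 2659) l58 .e) (.s (.c (nat_lit 1312) l42 .e) (.s (.c (nat_lit 2623) l48 .e) (.s (.c (nat_lit 2701) l76 .e) (.s (.c (nat_lit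 2652) l52 .e) (.s (.c (nat_lit 1285) l52 .e) (.s (.c (nat_lit 1285) l48 .e) (.s (.c (nat_lit 1601) l49 .e) (.s (.c (nat_lit 1601) l48 .e) (.s (.c (nat_lit 2056) l53 .e) (.s (.c (nat_lit 1972) l74 .e) (.s (.c (nat_lit 2170) l56 .e) (.s (.c (nat_lit 2470) l46 .e) (.s (.c (nat_lit 2469) l46 .e) (.s (.c (nat_lit 2731) l79 .e) (.s (.c (nat_lit 2691) l42 .e) (.s (.c (nat_lit 2731) l70 .e) s0_142))))))))))))))))))))))))))))))

noncomputable def s0_140 : Ss := (.s (.c (nat_lit 2493) l79 .e) (.s (.c (nat_lit 1607) l42 .e) (.s (.c (nat_lit 1994) l79 .e) (.s (.c (nat_lit 1148) l53 .e) (.s (.c (nat_lit 2693) l42 .e) (.s (.c (nat_lit 2669) l79 .e) (.s (.c (nat_lit 2210) l42 .e) (.s (.c (nat_lit 2669) l70 .e) (.s (.c (nat_lit 2493) l70 .e) (.s (.c (nat_lit 2576) l70 .e) (.s (.c (nat_lit 2685) l79 .e) (.s (.c (nat_lit 2302) l42 .e) (.s (.c (nat_lit 2685)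 l70 .e) (.s (.c (nat_lit 2732) l79 .e) (.s (.c (nat_lit 2708) l42 .e) (.s (.c (nat_lit 2732) l70 .e) (.s (.c (nat_lit 2276) l79 .e) (.s (.c (nat_lit 1441) l61 .e) (.s (.c (nat_lit 806) l45 .e) (.s (.c (nat_lit 1892) l45 .e) (.s (.c (nat_lit 2399) l45 .e) (.s (.c (nat_lit 2576) l73 .e) (.s (.c (nat_lit 1832) l42 .e) (.s (.c (nat_lit 2719) l74 .e) (.s (.c (nat_lit 2546) l75 .e) (.s (.c (nat_lit 2541) l65 .e) (.s (.c (nat_lit 2720) l65 .e) (.s (.c (nat_lit 2172) l58 .e) (.s (.c (nat_lit 1835) l44 .e) (.s (.c (nat_lit 2173) l75 .e) s0_141))))))))))))))))))))))))))))))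

noncomputable def s0_139 : Ss := (.s (.c (nat_lit 2697) l75 .e) (.s (.c (nat_lit 2719) l46 .e) (.s (.c (nat_lit 2700) l66 .e) (.s (.c (nat_lit 2720) l46 .e) (.s (.c (nat_lit 1246) l55 .e) (.s (.c (nat_lit 2732) l48 .e) (.s (.c (nat_lit 1650) l79 .e) (.s (.c (nat_lit 1288) l70 .e) (.s (.c (nat_lit 1217) l55 .e) (.s (.c (nat_lit 2158) l60 .e) (.s (.c (nat_lit 1650) l70 .e) (.s (.c (nat_lit 1288) l79 .e) (.s (.c (nat_lit 1425) l58 .e) (.s (.c (nat_lit 1061) l58 .e) (.s (.c (nat_lit 2028) l45 .e) (.s (.c (nat_lit 1124) l45 .e) (.s (.c (nat_lit 2160) l73 .e) (.s (.c (nat_lit 1057) l42 .e) (.s (.c (nat_lit 1051) l42 .e) (.s (.c (nat_lit 1311) l42 .e) (.s (.c (nat_lit 1862) l50 .e) (.s (.c (nat_lit 2117) l75 .e) (.s (.c (nat_lit 1504) l53 .e) (.s (.c (nat_lit 1429) l74 .e) (.s (.c (nat_lit 1062) l74 .e) (.s (.c (nat_lit 1629) l50 .e) (.s (.c (nat_lit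 1444) l79 .e) (.s (.c (nat_lit 2728) l79 .e) (.s (.c (nat_lit 2655) l42 .e) (.s (.c (nat_lit 2728) l70 .e) s0_140))))))))))))))))))))))))))))))

noncomputable def s0_138 : Ss := (.s (.c (nat_lit 2592) l58 .e) (.s (.c (nat_lit 2213) l58 .e) (.s (.c (nat_lit 2300) l65 .e) (.s (.c (nat_lit 1814) l58 .e) (.s (.c (nat_lit 1605) l74 .e) (.s (.c (nat_lit 1966) l52 .e) (.s (.c (nat_lit 2653) l74 .e) (.s (.c (nat_lit 2720) l55 .e) (.s (.c (nat_lit 2391) l55 .e) (.s (.c (nat_lit 2306) l74 .e) (.s (.c (nat_lit 1831) l74 .e) (.s (.c (nat_lit 2013) l74 .e) (.s (.c (nat_lit 2208) l65 .e) (.s (.c (nat_lit 2722) l47 .e) (.s (.c (nat_lit 1633) l58 .e) (.s (.c (nat_lit 1994) l44 .e) (.s (.c (nat_lit 2675) l74 .e) (.s (.c (nat_lit 2300) l74 .e) (.s (.c (nat_lit 1831) l65 .e) (.s (.c (nat_lit 948) l74 .e) (.s (.c (nat_lit 2713) l65 .e) (.s (.c (nat_lit 2680)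 l58 .e) (.s (.c (nat_lit 2701) l48 .e) (.s (.c (nat_lit 2159) l45 .e) (.s (.c (nat_lit 792) l50 .e) (.s (.c (nat_lit 2305) l58 .e) (.s (.c (nat_lit 2725) l48 .e) (.s (.c (nat_lit 2679) l73 .e) (.s (.c (nat_lit 2255) l42 .e) (.s (.c (nat_lit 2718) l48 .e) s0_139))))))))))))))))))))))))))))))

noncomputable def s0_137 : Ss := (.s (.c (nat_lit 1702) l53 .e) (.s (.c (nat_lit 1405) l47 .e) (.s (.c (nat_lit 1105) l65 .e) (.s (.c (nat_lit 1702) l50 .e) (.s (.c (nat_lit 2013) l65 .e) (.s (.c (nat_lit 2660) l65 .e) (.s (.c (nat_lit 2618) l65 .e) (.s (.c (nat_lit 2214) l74 .e) (.s (.c (nat_lit 1610) l58 .e) (.s (.c (nat_lit 2165) l50 .e) (.s (.c (nat_lit 2281) l58 .e) (.s (.c (nat_lit 1650) l74 .e) (.s (.c (nat_lit 1836) l58 .e) (.s (.c (nat_lit 2719) l58 .e) (.s (.c (nat_lit 2462) l58 .e) (.s (.c (nat_lit 2542) l74 .e) (.s (.c (nat_lit 2422) l58 .e)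 (.s (.c (nat_lit 1837) l74 .e) (.s (.c (nat_lit 2593) l55 .e) (.s (.c (nat_lit 2618) l74 .e) (.s (.c (nat_lit 2624) l58 .e) (.s (.c (nat_lit 2625) l55 .e) (.s (.c (nat_lit 2566) l74 .e) (.s (.c (nat_lit 2484) l74 .e) (.s (.c (nat_lit 1956) l50 .e) (.s (.c (nat_lit 2416) l74 .e) (.s (.c (nat_lit 2706) l74 .e) (.s (.c (nat_lit 2542) l65 .e) (.s (.c (nat_lit 2571) l58 .e) (.s (.c (nat_lit 1655) l58 .e) s0_138))))))))))))))))))))))))))))))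

noncomputable def s0_136 : Ss := (.s (.c (nat_lit 1569) l53 .e) (.s (.c (nat_lit 1248) l47 .e) (.s (.c (nat_lit 2609) l48 .e) (.s (.c (nat_lit 2505) l42 .e) (.s (.c (nat_lit 2415) l65 .e) (.s (.c (nat_lit 1825) l74 .e) (.s (.c (nat_lit 1833) l52 .e) (.s (.c (nat_lit 1634) l52 .e) (.s (.c (nat_lit 1430) l52 .e) (.s (.c (nat_lit 2395) l52 .e) (.s (.c (nat_lit 1805) l52 .e) (.s (.c (nat_lit 2421) l48 .e) (.s (.c (nat_lit 805) l42 .e) (.s (.c (nat_lit 2235) l45 .e) (.s (.c (nat_lit 2039) l47 .e) (.s (.c (nat_lit 838) l65 .e) (.s (.c (nat_lit 839) l74 .e) (.s (.c (nat_lit 1225) l53 .e) (.s (.c (nat_lit 2542) l51 .e) (.s (.c (nat_lit 2384) l74 .e) (.s (.c (nat_lit 928) l58 .e) (.s (.c (nat_lit 1093) l74 .e) (.s (.c (nat_lit 1826) l53 .e) (.s (.c (nat_lit 1629) l53 .e) (.s (.c (nat_lit 1221) l74 .e) (.s (.c (nat_lit 2173) l48 .e) (.s (.c (nat_lit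 801) l58 .e) (.s (.c (nat_lit 928) l55 .e) (.s (.c (nat_lit 2110) l53 .e) (.s (.c (nat_lit 1137) l53 .e) s0_137))))))))))))))))))))))))))))))

noncomputable def s0_135 : Ss := (.s (.c (nat_lit 2108) l2 .e) (.s (.c (nat_lit 1361) l42 .e) (.s (.c (nat_lit 2208) l51 .e) (.s (.c (nat_lit 2557) l47 .e) (.s (.c (nat_lit 1104) l52 .e) (.s (.c (nat_lit 2117) l47 .e) (.s (.c (nat_lit 2226) l53 .e) (.s (.c (nat_lit 2353) l47 .e) (.s (.c (nat_lit 1624) l42 .e) (.s (.c (nat_lit 2725) l47 .e) (.s (.c (nat_lit 2005) l47 .e) (.s (.c (nat_lit 2666) l47 .e) (.s (.c (nat_lit 2701) l47 .e) (.s (.c (nat_lit 1283) l53 .e) (.s (.c (nat_lit 2644) l47 .e) (.s (.c (nat_lit 2573) l47 .e) (.s (.c (nat_lit 1119) l47 .e) (.s (.c (nat_lit 1969) l47 .e) (.s (.c (nat_lit 2296) l47 .e) (.s (.c (nat_lit 2361) l54 .e) (.s (.c (nat_lit 1138) l48 .e) (.s (.c (nat_lit 1136) l49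 .e) (.s (.c (nat_lit 1296) l48 .e) (.s (.c (nat_lit 1299) l52 .e) (.s (.c (nat_lit 1828) l45 .e) (.s (.c (nat_lit 2682) l47 .e) (.s (.c (nat_lit 1941) l50 .e) (.s (.c (nat_lit 2106) l51 .e) (.s (.c (nat_lit 1993) l45 .e) (.s (.c (nat_lit 1182) l47 .e) s0_136))))))))))))))))))))))))))))))

noncomputable def s0_134 : Ss := (.s (.c (nat_lit 2151) l51 .e) (.s (.c (nat_lit 2156) l50 .e) (.s (.c (nat_lit 1622) l45 .e) (.s (.c (nat_lit 1212) l44 .e) (.s (.c (nat_lit 1103) l43 .e) (.s (.c (nat_lit 2536) l45 .e) (.s (.c (nat_lit 790) l50 .e) (.s (.c (nat_lit 2172) l42 .e) (.s (.c (nat_lit 1765) l42 .e) (.s (.c (nat_lit 1890) l53 .e) (.s (.c (nat_lit 1362) l45 .e) (.s (.c (nat_lit 1707) l50 .e) (.s (.c (nat_lit 2658) l42 .e) (.s (.c (nat_lit 1679) l45 .e) (.s (.c (nat_lit 1834) l45 .e) (.s (.c (nat_lit 1239) l50 .e) (.s (.c (nat_lit 2717) l50 .e) (.s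 (.c (nat_lit 1832) l50 .e) (.s (.c (nat_lit 1256) l47 .e) (.s (.c (nat_lit 1827) l47 .e) (.s (.c (nat_lit 2714) l53 .e) (.s (.c (nat_lit 1595) l47 .e) (.s (.c (nat_lit 1341) l50 .e) (.s (.c (nat_lit 2408) l50 .e) (.s (.c (nat_lit 1713) l50 .e) (.s (.c (nat_lit 2352) l50 .e) (.s (.c (nat_lit 1763) l51 .e) (.s (.c (nat_lit 1564) l53 .e) (.s (.c (nat_lit 2173) l47 .e) (.s (.c (nat_lit 2104) l53 .e) s0_135))))))))))))))))))))))))))))))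

noncomputable def s0_133 : Ss := (.s (.c (nat_lit 2677) l42 .e) (.s (.c (nat_lit 2715) l42 .e) (.s (.c (nat_lit 1831) l42 .e) (.s (.c (nat_lit 1829) l42 .e) (.s (.c (nat_lit 2700) l42 .e) (.s (.c (nat_lit 2697) l42 .e) (.s (.c (nat_lit 2600) l42 .e) (.s (.c (nat_lit 1629) l42 .e) (.s (.c (nat_lit 2685) l42 .e) (.s (.c (nat_lit 2551) l42 .e) (.s (.c (nat_lit 2008) l42 .e) (.s (.c (nat_lit 568) l50 .e) (.s (.c (nat_lit 2416) l42 .e) (.s (.c (nat_lit 2533) l42 .e) (.s (.c (nat_lit 1444) l42 .e) (.s (.c (nat_lit 2576) l42 .e) (.s (.c (nat_lit 1767) l42 .e) (.s (.c (nat_lit 2214) l42 .e) (.s (.c (nat_lit 2681) l42 .e) (.s (.c (nat_lit 2300) l42 .e) (.s (.c (nat_lit 2322) l42 .e) (.s (.c (nat_lit 1837) l42 .e) (.s (.c (nat_lit 1769) l42 .e) (.s (.c (nat_lit 2059) l54 .e) (.s (.c (nat_lit 1679) l53 .e) (.s (.c (nat_lit 999) l45 .e) (.s (.c (nat_lit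 713) l42 .e) (.s (.c (nat_lit 1397) l50 .e) (.s (.c (nat_lit 2461) l43 .e) (.s (.c (nat_lit 1758) l53 .e) s0_134))))))))))))))))))))))))))))))

noncomputable def s0_132 : Ss := (.s (.c (nat_lit 1789) l50 .e) (.s (.c (nat_lit 1372) l42 .e) (.s (.c (nat_lit 2276) l42 .e) (.s (.c (nat_lit 2160) l42 .e) (.s (.c (nat_lit 2675) l42 .e) (.s (.c (nat_lit 2189) l42 .e) (.s (.c (nat_lit 2732) l42 .e) (.s (.c (nat_lit 1278) l45 .e) (.s (.c (nat_lit 2689) l42 .e) (.s (.c (nat_lit 2623) l42 .e) (.s (.c (nat_lit 1650) l42 .e) (.s (.c (nat_lit 2642) l42 .e) (.s (.c (nat_lit 1849) l42 .e) (.s (.c (nat_lit 2493) l42 .e) (.s (.c (nat_lit 1404) l45 .e) (.s (.c (nat_lit 1222) l42 .e) (.s (.c (nat_lit 1288) l42 .e) (.s (.c (nat_lit 2638) l42 .e) (.s (.c (nat_lit 2361) l42 .e) (.s (.c (nat_lit 2599) l42 .e) (.s (.c (nat_lit 2459) l42 .e) (.s (.c (nat_lit 1524)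 l51 .e) (.s (.c (nat_lit 2728) l42 .e) (.s (.c (nat_lit 2646) l42 .e) (.s (.c (nat_lit 2208) l42 .e) (.s (.c (nat_lit 2206) l42 .e) (.s (.c (nat_lit 2542) l42 .e) (.s (.c (nat_lit 2439) l42 .e) (.s (.c (nat_lit 2398) l42 .e) (.s (.c (nat_lit 2587) l42 .e) s0_133))))))))))))))))))))))))))))))

noncomputable def s0_131 : Ss := (.s (.c (nat_lit 2265) l42 .e) (.s (.c (nat_lit 2323) l42 .e) (.s (.c (nat_lit 2568) l42 .e) (.s (.c (nat_lit 1152) l42 .e) (.s (.c (nat_lit 2607) l42 .e) (.s (.c (nat_lit 2484) l42 .e) (.s (.c (nat_lit 2640) l42 .e) (.s (.c (nat_lit 2706) l42 .e) (.s (.c (nat_lit 1148) l50 .e) (.s (.c (nat_lit 1524) l42 .e) (.s (.c (nat_lit 2151) l42 .e) (.s (.c (nat_lit 1458) l42 .e) (.s (.c (nat_lit 2304) l42 .e) (.s (.c (nat_lit 2679) l42 .e) (.s (.c (nat_lit 2718) l42 .e) (.s (.c (nat_lit 2385) l42 .e) (.s (.c (nat_lit 2560) l42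 .e) (.s (.c (nat_lit 2618) l42 .e) (.s (.c (nat_lit 2653) l42 .e) (.s (.c (nat_lit 2526) l42 .e) (.s (.c (nat_lit 1809) l46 .e) (.s (.c (nat_lit 2431) l42 .e) (.s (.c (nat_lit 1835) l42 .e) (.s (.c (nat_lit 2713) l42 .e) (.s (.c (nat_lit 1952) l42 .e) (.s (.c (nat_lit 2193) l51 .e) (.s (.c (nat_lit 1873) l42 .e) (.s (.c (nat_lit 2643) l42 .e) (.s (.c (nat_lit 2721) l42 .e) (.s (.c (nat_lit 896) l50 .e) s0_132))))))))))))))))))))))))))))))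

noncomputable def s0_130 : Ss := (.s (.c (nat_lit 455) l42 .e) (.s (.c (nat_lit 324) l42 .e) (.s (.c (nat_lit 1437) l50 .e) (.s (.c (nat_lit 1281) l50 .e) (.s (.c (nat_lit 1253) l42 .e) (.s (.c (nat_lit 930) l42 .e) (.s (.c (nat_lit 2447) l50 .e) (.s (.c (nat_lit 1653) l45 .e) (.s (.c (nat_lit 2731) l42 .e) (.s (.c (nat_lit 2572) l42 .e) (.s (.c (nat_lit 2724) l42 .e) (.s (.c (nat_lit 2525) l42 .e) (.s (.c (nat_lit 2669) l42 .e) (.s (.c (nat_lit 1079) l53 .e) (.s (.c (nat_lit 2356) l42 .e) (.s (.c (nat_lit 2403) l51 .e) (.s (.c (nat_lit 2566) l42 .e) (.s (.c (nat_lit 1994) l42 .e) (.s (.c (nat_lit 1437) l42 .e) (.s (.c (nat_lit 2373) l42 .e) (.s (.c (nat_lit 2475) l42 .e) (.s (.c (nat_lit 2570) l42 .e) (.s (.c (nat_lit 2696) l42 .e) (.s (.c (nat_lit 2660) l42 .e) (.s (.c (nat_lit 2461) l42 .e) (.s (.c (nat_lit 1947) l54 .e) (.s (.c (nat_lit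 1987) l42 .e) (.s (.c (nat_lit 2306) l42 .e) (.s (.c (nat_lit 2397) l42 .e) (.s (.c (nat_lit 1609) l44 .e) s0_131))))))))))))))))))))))))))))))

noncomputable def s0_129 : Ss := (.s (.c (nat_lit 1243) l44 .e) (.s (.c (nat_lit 1397) l53 .e) (.s (.c (nat_lit 1624) l54 .e) (.s (.c (nat_lit 509) l42 .e) (.s (.c (nat_lit 2370) l42 .e) (.s (.c (nat_lit 2165) l42 .e) (.s (.c (nat_lit 929) l42 .e) (.s (.c (nat_lit 399) l42 .e) (.s (.c (nat_lit 502) l1 .e) (.s (.c (nat_lit 1284) l42 .e) (.s (.c (nat_lit 447) l42 .e) (.s (.c (nat_lit 475) l42 .e) (.s (.c (nat_lit 273) l42 .e) (.s (.c (nat_lit 558) l42 .e) (.s (.c (nat_lit 2116) l54 .e) (.s (.c (nat_lit 1065) l42 .e) (.s (.c (nat_lit 672) l42 .e) (.s (.c (nat_lit 609) l42 .e) (.s (.c (nat_lit 1619) l42 .e) (.s (.c (nat_lit 1421) l42 .e) (.s (.c (nat_lit 872) l42 .e) (.s (.c (nat_lit 1833) l42 .e) (.s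 (.c (nat_lit 1416) l45 .e) (.s (.c (nat_lit 1422) l45 .e) (.s (.c (nat_lit 858) l42 .e) (.s (.c (nat_lit 2690) l42 .e) (.s (.c (nat_lit 756) l42 .e) (.s (.c (nat_lit 778) l42 .e) (.s (.c (nat_lit 547) l42 .e) (.s (.c (nat_lit 1172) l45 .e) s0_130))))))))))))))))))))))))))))))

noncomputable def s0_128 : Ss := (.s (.c (nat_lit 2550) l42 .e) (.s (.c (nat_lit 2547) l1 .e) (.s (.c (nat_lit 436) l42 .e) (.s (.c (nat_lit 1136) l42 .e) (.s (.c (nat_lit 2039) l42 .e) (.s (.c (nat_lit 1123) l42 .e) (.s (.c (nat_lit 2667) l45 .e) (.s (.c (nat_lit 1409) l45 .e) (.s (.c (nat_lit 2365) l42 .e) (.s (.c (nat_lit 1441) l42 .e) (.s (.c (nat_lit 481) l42 .e) (.s (.c (nat_lit 1755) l1 .e) (.s (.c (nat_lit 1432) l50 .e) (.s (.c (nat_lit 860) l45 .e) (.s (.c (nat_lit 2400) l54 .e) (.s (.c (nat_lit 1634) l54 .e) (.s (.c (nat_lit 917) l50 .e) (.s (.c (nat_lit 1263)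 l53 .e) (.s (.c (nat_lit 1406) l45 .e) (.s (.c (nat_lit 1795) l54 .e) (.s (.c (nat_lit 799) l45 .e) (.s (.c (nat_lit 874) l50 .e) (.s (.c (nat_lit 1272) l51 .e) (.s (.c (nat_lit 2354) l45 .e) (.s (.c (nat_lit 1807) l53 .e) (.s (.c (nat_lit 1423) l50 .e) (.s (.c (nat_lit 840) l42 .e) (.s (.c (nat_lit 2498) l42 .e) (.s (.c (nat_lit 927) l42 .e) (.s (.c (nat_lit 2333) l44 .e) s0_129))))))))))))))))))))))))))))))

noncomputable def s0_127 : Ss := (.s (.c (nat_lit 1759) l43 .e) (.s (.c (nat_lit 1675) l42 .e) (.s (.c (nat_lit 808) l42 .e) (.s (.c (nat_lit 485) l42 .e) (.s (.c (nat_lit 1472) l42 .e) (.s (.c (nat_lit 720) l42 .e) (.s (.c (nat_lit 1325) l42 .e) (.s (.c (nat_lit 2285) l42 .e) (.s (.c (nat_lit 758) l42 .e) (.s (.c (nat_lit 1256) l42 .e) (.s (.c (nat_lit 1398) l42 .e) (.s (.c (nat_lit 1491) l42 .e) (.s (.c (nat_lit 370) l42 .e) (.s (.c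 (nat_lit 1782) l43 .e) (.s (.c (nat_lit 600) l42 .e) (.s (.c (nat_lit 1824) l2 .e) (.s (.c (nat_lit 1297) l45 .e) (.s (.c (nat_lit 1046) l42 .e) (.s (.c (nat_lit 1276) l42 .e) (.s (.c (nat_lit 1161) l42 .e) (.s (.c (nat_lit 541) l42 .e) (.s (.c (nat_lit 2232) l42 .e) (.s (.c (nat_lit 2684) l45 .e) (.s (.c (nat_lit 1062) l50 .e) (.s (.c (nat_lit 996) l42 .e) (.s (.c (nat_lit 137) l42 .e) (.s (.c (nat_lit 1773) l2 .e) (.s (.c (nat_lit 2005) l42 .e) (.s (.c (nat_lit 1052) l42 .e) (.s (.c (nat_lit 141) l42 .e) s0_128))))))))))))))))))))))))))))))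

noncomputable def s0_126 : Ss := (.s (.c (nat_lit 1212) l42 .e) (.s (.c (nat_lit 194) l42 .e) (.s (.c (nat_lit 2009) l42 .e) (.s (.c (nat_lit 149) l42 .e) (.s (.c (nat_lit 151) l42 .e) (.s (.c (nat_lit 2448) l42 .e) (.s (.c (nat_lit 1138) l42 .e) (.s (.c (nat_lit 924) l42 .e) (.s (.c (nat_lit 873) l42 .e) (.s (.c (nat_lit 1238) l1 .e) (.s (.c (nat_lit 2630) l42 .e) (.s (.c (nat_lit 1430) l42 .e) (.s (.c (nat_lit 2131) l1 .e) (.s (.c (nat_lit 2573) l42 .e) (.s (.c (nat_lit 2502) l53 .e) (.s (.c (nat_lit 603) l42 .e) (.s (.c (nat_lit 1779) l1 .e) (.s (.c (nat_lit 1186) l53 .e) (.s (.c (nat_lit 1723) l42 .e) (.s (.c (nat_lit 1943) l42 .e) (.s (.c (nat_lit 785) l45 .e) (.s (.c (nat_lit 263) l42 .e) (.s (.c (nat_lit 1688) l42 .e) (.s (.c (nat_lit 793) l42 .e) (.s (.c (nat_lit 633) l42 .e) (.s (.c (nat_lit 2114) l42 .e) (.s (.c (nat_lit 1478)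 l42 .e) (.s (.c (nat_lit 1891) l42 .e) (.s (.c (nat_lit 2296) l42 .e) (.s (.c (nat_lit 1428) l46 .e) s0_127))))))))))))))))))))))))))))))

noncomputable def s0_125 : Ss := (.s (.c (nat_lit 663) l42 .e) (.s (.c (nat_lit 2196) l42 .e) (.s (.c (nat_lit 899) l42 .e) (.s (.c (nat_lit 544) l42 .e) (.s (.c (nat_lit 803) l42 .e) (.s (.c (nat_lit 779) l42 .e) (.s (.c (nat_lit 972) l42 .e) (.s (.c (nat_lit 2173) l42 .e) (.s (.c (nat_lit 2170) l42 .e) (.s (.c (nat_lit 1119) l42 .e) (.s (.c (nat_lit 2503) l42 .e) (.s (.c (nat_lit 1273) l42 .e) (.s (.c (nat_lit 1861) l42 .e) (.s (.c (nat_lit 935) l42 .e) (.s (.c (nat_lit 2717) l42 .e) (.s (.c (nat_lit 2714) l1 .e) (.s (.c (nat_lit 1327) l42 .e) (.s (.c (nat_lit 1169) l45 .e) (.s (.c (nat_lit 1219) l53 .e) (.s (.c (nat_lit 1427) l42 .e) (.s (.c (nat_lit 1817) l42 .e) (.s (.c (nat_lit 2682) l42 .e) (.s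 (.c (nat_lit 2262) l42 .e) (.s (.c (nat_lit 907) l42 .e) (.s (.c (nat_lit 2411) l42 .e) (.s (.c (nat_lit 1630) l42 .e) (.s (.c (nat_lit 2518) l42 .e) (.s (.c (nat_lit 981) l42 .e) (.s (.c (nat_lit 2613) l42 .e) (.s (.c (nat_lit 1782) l42 .e) s0_126))))))))))))))))))))))))))))))

noncomputable def s0_124 : Ss := (.s (.c (nat_lit 158) l42 .e) (.s (.c (nat_lit 847) l42 .e) (.s (.c (nat_lit 1332) l53 .e) (.s (.c (nat_lit 1850) l42 .e) (.s (.c (nat_lit 598) l45 .e) (.s (.c (nat_lit 1866) l42 .e) (.s (.c (nat_lit 978) l42 .e) (.s (.c (nat_lit 2687) l51 .e) (.s (.c (nat_lit 647) l42 .e) (.s (.c (nat_lit 1902) l42 .e) (.s (.c (nat_lit 716) l42 .e) (.s (.c (nat_lit 2137) l42 .e) (.s (.c (nat_lit 1247) l42 .e) (.s (.c (nat_lit 1028) l50 .e) (.s (.c (nat_lit 2700) l50 .e) (.s (.c (nat_lit 1859) l42 .e) (.s (.c (nat_lit 1645) l42 .e) (.s (.c (nat_lit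 2080) l42 .e) (.s (.c (nat_lit 527) l42 .e) (.s (.c (nat_lit 819) l1 .e) (.s (.c (nat_lit 2145) l42 .e) (.s (.c (nat_lit 1006) l42 .e) (.s (.c (nat_lit 159) l42 .e) (.s (.c (nat_lit 1139) l42 .e) (.s (.c (nat_lit 1601) l42 .e) (.s (.c (nat_lit 1969) l42 .e) (.s (.c (nat_lit 1134) l50 .e) (.s (.c (nat_lit 831) l50 .e) (.s (.c (nat_lit 1991) l42 .e) (.s (.c (nat_lit 1069) l42 .e) s0_125))))))))))))))))))))))))))))))

noncomputable def s0_123 : Ss := (.s (.c (nat_lit 2557) l42 .e) (.s (.c (nat_lit 2117) l42 .e) (.s (.c (nat_lit 684) l42 .e) (.s (.c (nat_lit 1405) l42 .e) (.s (.c (nat_lit 722) l42 .e) (.s (.c (nat_lit 576) l42 .e) (.s (.c (nat_lit 2722) l42 .e) (.s (.c (nat_lit 1333) l42 .e) (.s (.c (nat_lit 661) l42 .e) (.s (.c (nat_lit 2666) l42 .e) (.s (.c (nat_lit 2506) l42 .e) (.s (.c (nat_lit 479) l42 .e) (.s (.c (nat_lit 1417) l53 .e)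 (.s (.c (nat_lit 1118) l42 .e) (.s (.c (nat_lit 1656) l44 .e) (.s (.c (nat_lit 1654) l44 .e) (.s (.c (nat_lit 1966) l42 .e) (.s (.c (nat_lit 1528) l42 .e) (.s (.c (nat_lit 2644) l42 .e) (.s (.c (nat_lit 1595) l42 .e) (.s (.c (nat_lit 1226) l42 .e) (.s (.c (nat_lit 284) l42 .e) (.s (.c (nat_lit 2701) l42 .e) (.s (.c (nat_lit 1358) l42 .e) (.s (.c (nat_lit 173) l42 .e) (.s (.c (nat_lit 1827) l42 .e) (.s (.c (nat_lit 1954) l42 .e) (.s (.c (nat_lit 2622) l42 .e) (.s (.c (nat_lit 2619) l1 .e) (.s (.c (nat_lit 640) l42 .e) s0_124))))))))))))))))))))))))))))))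

noncomputable def s0_122 : Ss := (.s (.c (nat_lit 1877) l42 .e) (.s (.c (nat_lit 792) l42 .e) (.s (.c (nat_lit 1573) l42 .e) (.s (.c (nat_lit 2647) l49 .e) (.s (.c (nat_lit 1620) l42 .e) (.s (.c (nat_lit 131) l42 .e) (.s (.c (nat_lit 2477) l42 .e) (.s (.c (nat_lit 1417) l50 .e) (.s (.c (nat_lit 1248) l42 .e) (.s (.c (nat_lit 1505) l42 .e) (.s (.c (nat_lit 1654) l42 .e) (.s (.c (nat_lit 1659) l42 .e) (.s (.c (nat_lit 2698) l42 .e) (.s (.c (nat_lit 335) l42 .e) (.s (.c (nat_lit 920) l42 .e) (.s (.c (nat_lit 1415) l42 .e) (.s (.c (nat_lit 1565) l1 .e) (.s (.c (nat_lit 1182) l42 .e) (.s (.c (nat_lit 1797) l42 .e) (.s (.c (nat_lit 1483) l42 .e) (.s (.c (nat_lit 901) l42 .e) (.s (.c (nat_lit 2725) l42 .e) (.s (.c (nat_lit 1720) l42 .e) (.s (.c (nat_lit 2445) l42 .e) (.s (.c (nat_lit 1159) l42 .e) (.s (.c (nat_lit 1080) l42 .e) (.s (.c (nat_lit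 498) l42 .e) (.s (.c (nat_lit 2421) l42 .e) (.s (.c (nat_lit 2387) l42 .e) (.s (.c (nat_lit 1576) l42 .e) s0_123))))))))))))))))))))))))))))))

noncomputable def s0_121 : Ss := (.s (.c (nat_lit 1519) l42 .e) (.s (.c (nat_lit 2468) l42 .e) (.s (.c (nat_lit 1301) l42 .e) (.s (.c (nat_lit 1296) l42 .e) (.s (.c (nat_lit 1915) l42 .e) (.s (.c (nat_lit 2479) l42 .e) (.s (.c (nat_lit 2399) l43 .e) (.s (.c (nat_lit 230) l42 .e) (.s (.c (nat_lit 709) l42 .e) (.s (.c (nat_lit 382) l42 .e) (.s (.c (nat_lit 1074) l42 .e) (.s (.c (nat_lit 674) l42 .e) (.s (.c (nat_lit 1111) l42 .e) (.s (.c (nat_lit 247) l42 .e) (.s (.c (nat_lit 2544) l42 .e) (.s (.c (nat_lit 2636) l1 .e) (.s (.c (nat_lit 1753) l42 .e) (.s (.c (nat_lit 2697) l53 .e) (.s (.c (nat_lit 1103) l42 .e) (.s (.c (nat_lit 2204) l42 .e) (.s (.c (nat_lit 1496) l42 .e) (.s (.c (nat_lit 695) l42 .e)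 (.s (.c (nat_lit 753) l42 .e) (.s (.c (nat_lit 946) l2 .e) (.s (.c (nat_lit 2491) l45 .e) (.s (.c (nat_lit 1807) l45 .e) (.s (.c (nat_lit 2726) l49 .e) (.s (.c (nat_lit 2243) l42 .e) (.s (.c (nat_lit 1030) l42 .e) (.s (.c (nat_lit 1759) l42 .e) s0_122))))))))))))))))))))))))))))))

noncomputable def s0_120 : Ss := (.s (.c (nat_lit 1634) l44 .e) (.s (.c (nat_lit 1713) l54 .e) (.s (.c (nat_lit 1372) l51 .e) (.s (.c (nat_lit 1931) l45 .e) (.s (.c (nat_lit 1387) l53 .e) (.s (.c (nat_lit 2158) l45 .e) (.s (.c (nat_lit 692) l50 .e) (.s (.c (nat_lit 1246) l45 .e) (.s (.c (nat_lit 1762) l46 .e) (.s (.c (nat_lit 815) l1 .e) (.s (.c (nat_lit 1651) l1 .e) (.s (.c (nat_lit 1632) l44 .e) (.s (.c (nat_lit 1811) l43 .e) (.s (.c (nat_lit 2365) l44 .e) (.s (.c (nat_lit 1239) l53 .e) (.s (.c (nat_lit 1379) l43 .e) (.s (.c (nat_lit 934) l45 .e) (.s (.c (nat_lit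 1676) l42 .e) (.s (.c (nat_lit 2019) l42 .e) (.s (.c (nat_lit 976) l42 .e) (.s (.c (nat_lit 1591) l42 .e) (.s (.c (nat_lit 739) l42 .e) (.s (.c (nat_lit 1299) l42 .e) (.s (.c (nat_lit 1979) l42 .e) (.s (.c (nat_lit 1115) l42 .e) (.s (.c (nat_lit 1249) l42 .e) (.s (.c (nat_lit 1388) l42 .e) (.s (.c (nat_lit 2312) l42 .e) (.s (.c (nat_lit 1240) l42 .e) (.s (.c (nat_lit 2083) l42 .e) s0_121))))))))))))))))))))))))))))))

noncomputable def s0_119 : Ss := (.s (.c (nat_lit 1964) l50 .e) (.s (.c (nat_lit 2691) l52 .e) (.s (.c (nat_lit 2648) l44 .e) (.s (.c (nat_lit 2440) l53 .e) (.s (.c (nat_lit 2438) l54 .e) (.s (.c (nat_lit 1389) l50 .e) (.s (.c (nat_lit 816) l45 .e) (.s (.c (nat_lit 2207) l45 .e) (.s (.c (nat_lit 2648) l54 .e) (.s (.c (nat_lit 388) l45 .e) (.s (.c (nat_lit 744) l50 .e) (.s (.c (nat_lit 2444) l50 .e) (.s (.c (nat_lit 2173) l44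 .e) (.s (.c (nat_lit 2722) l43 .e) (.s (.c (nat_lit 948) l53 .e) (.s (.c (nat_lit 1442) l50 .e) (.s (.c (nat_lit 407) l50 .e) (.s (.c (nat_lit 1650) l50 .e) (.s (.c (nat_lit 1814) l49 .e) (.s (.c (nat_lit 838) l50 .e) (.s (.c (nat_lit 586) l45 .e) (.s (.c (nat_lit 1426) l51 .e) (.s (.c (nat_lit 851) l2 .e) (.s (.c (nat_lit 1194) l2 .e) (.s (.c (nat_lit 1059) l45 .e) (.s (.c (nat_lit 1454) l53 .e) (.s (.c (nat_lit 1217) l45 .e) (.s (.c (nat_lit 708) l53 .e) (.s (.c (nat_lit 2155) l46 .e) (.s (.c (nat_lit 2385) l51 .e) s0_120))))))))))))))))))))))))))))))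

noncomputable def s0_118 : Ss := (.s (.c (nat_lit 1621) l45 .e) (.s (.c (nat_lit 1585) l50 .e) (.s (.c (nat_lit 2476) l54 .e) (.s (.c (nat_lit 1061) l45 .e) (.s (.c (nat_lit 2390) l45 .e) (.s (.c (nat_lit 2091) l50 .e) (.s (.c (nat_lit 1709) l50 .e) (.s (.c (nat_lit 1365) l50 .e) (.s (.c (nat_lit 2727) l53 .e) (.s (.c (nat_lit 2437) l51 .e) (.s (.c (nat_lit 285) l50 .e) (.s (.c (nat_lit 2225) l43 .e) (.s (.c (nat_lit 2545) l50 .e) (.s (.c (nat_lit 2709) l50 .e) (.s (.c (nat_lit 2419) l45 .e) (.s (.c (nat_lit 2571) l45 .e) (.s (.c (nat_lit 1769) l53 .e) (.s (.c (nat_lit 801) l45 .e) (.s (.c (nat_lit 2630) l44 .e) (.s (.c (nat_lit 1633) l50 .e) (.s (.c (nat_lit 1628) l45 .e) (.s (.c (nat_lit 1487) l45 .e) (.s (.c (nat_lit 2318) l50 .e) (.s (.c (nat_lit 2189) l50 .e) (.s (.c (nat_lit 1503) l50 .e) (.s (.c (nat_lit 2711) l44 .e) (.s (.c (nat_lit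 373) l53 .e) (.s (.c (nat_lit 2706) l53 .e) (.s (.c (nat_lit 2504) l45 .e) (.s (.c (nat_lit 1838) l50 .e) s0_119))))))))))))))))))))))))))))))

noncomputable def s0_117 : Ss := (.s (.c (nat_lit 947) l45 .e) (.s (.c (nat_lit 2703) l54 .e) (.s (.c (nat_lit 2679) l44 .e) (.s (.c (nat_lit 2689) l54 .e) (.s (.c (nat_lit 1240) l43 .e) (.s (.c (nat_lit 2570) l44 .e) (.s (.c (nat_lit 1965) l53 .e) (.s (.c (nat_lit 1967) l45 .e) (.s (.c (nat_lit 295) l50 .e) (.s (.c (nat_lit 2720) l54 .e) (.s (.c (nat_lit 2725) l44 .e) (.s (.c (nat_lit 1709) l45 .e) (.s (.c (nat_lit 1150) l50 .e) (.s (.c (nat_lit 2723) l46 .e) (.s (.c (nat_lit 2655) l52 .e) (.s (.c (nat_lit 2625) l54 .e) (.s (.c (nat_lit 2660) l54 .e) (.s (.c (nat_lit 859) l45 .e) (.s (.c (nat_lit 599) l53 .e) (.s (.c (nat_lit 2489) l53 .e) (.s (.c (nat_lit 2000) l53 .e) (.s (.c (nat_lit 2624) l50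 .e) (.s (.c (nat_lit 2667) l43 .e) (.s (.c (nat_lit 2724) l51 .e) (.s (.c (nat_lit 2692) l46 .e) (.s (.c (nat_lit 1061) l50 .e) (.s (.c (nat_lit 2699) l45 .e) (.s (.c (nat_lit 2658) l44 .e) (.s (.c (nat_lit 886) l53 .e) (.s (.c (nat_lit 2557) l44 .e) s0_118))))))))))))))))))))))))))))))

noncomputable def s0_116 : Ss := (.s (.c (nat_lit 2694) l50 .e) (.s (.c (nat_lit 1484) l45 .e) (.s (.c (nat_lit 1056) l50 .e) (.s (.c (nat_lit 1008) l45 .e) (.s (.c (nat_lit 2593) l53 .e) (.s (.c (nat_lit 2580) l52 .e) (.s (.c (nat_lit 2155) l45 .e) (.s (.c (nat_lit 1814) l45 .e) (.s (.c (nat_lit 1388) l43 .e) (.s (.c (nat_lit 2214) l50 .e) (.s (.c (nat_lit 2574) l51 .e) (.s (.c (nat_lit 2657) l54 .e) (.s (.c (nat_lit 2609) l43 .e) (.s (.c (nat_lit 2675) l53 .e) (.s (.c (nat_lit 1781) l53 .e) (.s (.c (nat_lit 577) l50 .e) (.s (.c (nat_lit 696) l45 .e) (.s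 (.c (nat_lit 1968) l50 .e) (.s (.c (nat_lit 916) l50 .e) (.s (.c (nat_lit 2013) l45 .e) (.s (.c (nat_lit 1798) l45 .e) (.s (.c (nat_lit 1993) l53 .e) (.s (.c (nat_lit 1420) l53 .e) (.s (.c (nat_lit 2263) l45 .e) (.s (.c (nat_lit 2391) l44 .e) (.s (.c (nat_lit 2688) l44 .e) (.s (.c (nat_lit 2281) l51 .e) (.s (.c (nat_lit 2574) l43 .e) (.s (.c (nat_lit 1456) l45 .e) (.s (.c (nat_lit 1757) l53 .e) s0_117))))))))))))))))))))))))))))))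

noncomputable def s0_115 : Ss := (.s (.c (nat_lit 2625) l52 .e) (.s (.c (nat_lit 1390) l45 .e) (.s (.c (nat_lit 2593) l52 .e) (.s (.c (nat_lit 1588) l53 .e) (.s (.c (nat_lit 2422) l43 .e) (.s (.c (nat_lit 1661) l50 .e) (.s (.c (nat_lit 875) l53 .e) (.s (.c (nat_lit 2158) l51 .e) (.s (.c (nat_lit 1830) l45 .e) (.s (.c (nat_lit 2543) l54 .e) (.s (.c (nat_lit 1810) l50 .e) (.s (.c (nat_lit 2683) l51 .e) (.s (.c (nat_lit 2726) l51 .e) (.s (.c (nat_lit 2702) l50 .e) (.s (.c (nat_lit 2194) l53 .e) (.s (.c (nat_lit 2575) l45 .e) (.s (.c (nat_lit 2173) l52 .e) (.s (.c (nat_lit 1362) l53 .e) (.s (.c (nat_lit 2573) l43 .e) (.s (.c (nat_lit 2501) l50 .e) (.s (.c (nat_lit 802) l50 .e) (.s (.c (nat_lit 1893) l45 .e) (.s (.c (nat_lit 2681) l54 .e) (.s (.c (nat_lit 1484) l53 .e) (.s (.c (nat_lit 2117) l44 .e) (.s (.c (nat_lit 2691) l43 .e) (.s (.c (nat_lit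 2581) l53 .e) (.s (.c (nat_lit 917) l54 .e) (.s (.c (nat_lit 2621) l45 .e) (.s (.c (nat_lit 2168) l50 .e) s0_116))))))))))))))))))))))))))))))

noncomputable def s0_114 : Ss := (.s (.c (nat_lit 1389) l45 .e) (.s (.c (nat_lit 2207) l53 .e) (.s (.c (nat_lit 1810) l53 .e) (.s (.c (nat_lit 2270) l53 .e) (.s (.c (nat_lit 2638) l54 .e) (.s (.c (nat_lit 2702) l43 .e) (.s (.c (nat_lit 749) l53 .e) (.s (.c (nat_lit 590) l50 .e) (.s (.c (nat_lit 2169) l50 .e) (.s (.c (nat_lit 2555) l45 .e) (.s (.c (nat_lit 2720) l52 .e) (.s (.c (nat_lit 934) l53 .e) (.s (.c (nat_lit 2719) l45 .e) (.s (.c (nat_lit 1509) l45 .e) (.s (.c (nat_lit 1855) l53 .e) (.s (.c (nat_lit 1605) l51 .e) (.s (.c (nat_lit 2546) l53 .e) (.s (.c (nat_lit 2300) l50 .e) (.s (.c (nat_lit 1055) l53 .e) (.s (.c (nat_lit 1287) l45 .e) (.s (.c (nat_lit 2726) l50 .e) (.s (.c (nat_lit 2572) l54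 .e) (.s (.c (nat_lit 2572) l50 .e) (.s (.c (nat_lit 1137) l50 .e) (.s (.c (nat_lit 2131) l45 .e) (.s (.c (nat_lit 1268) l53 .e) (.s (.c (nat_lit 1271) l45 .e) (.s (.c (nat_lit 1638) l45 .e) (.s (.c (nat_lit 1941) l45 .e) (.s (.c (nat_lit 2496) l53 .e) s0_115))))))))))))))))))))))))))))))

noncomputable def s0_113 : Ss := (.s (.c (nat_lit 2618) l50 .e) (.s (.c (nat_lit 2705) l53 .e) (.s (.c (nat_lit 2650) l54 .e) (.s (.c (nat_lit 2587) l50 .e) (.s (.c (nat_lit 2724) l53 .e) (.s (.c (nat_lit 2159) l54 .e) (.s (.c (nat_lit 1989) l54 .e) (.s (.c (nat_lit 813) l45 .e) (.s (.c (nat_lit 615) l45 .e) (.s (.c (nat_lit 2505) l53 .e) (.s (.c (nat_lit 2158) l50 .e) (.s (.c (nat_lit 1799) l53 .e) (.s (.c (nat_lit 871) l50 .e) (.s (.c (nat_lit 2388) l45 .e) (.s (.c (nat_lit 2700) l53 .e) (.s (.c (nat_lit 2656) l50 .e) (.s (.c (nat_lit 1878) l45 .e) (.s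 (.c (nat_lit 2625) l44 .e) (.s (.c (nat_lit 996) l50 .e) (.s (.c (nat_lit 2624) l43 .e) (.s (.c (nat_lit 1825) l54 .e) (.s (.c (nat_lit 1987) l53 .e) (.s (.c (nat_lit 995) l53 .e) (.s (.c (nat_lit 1868) l50 .e) (.s (.c (nat_lit 2727) l46 .e) (.s (.c (nat_lit 2681) l50 .e) (.s (.c (nat_lit 2612) l50 .e) (.s (.c (nat_lit 2558) l50 .e) (.s (.c (nat_lit 2657) l53 .e) (.s (.c (nat_lit 2593) l45 .e) s0_114))))))))))))))))))))))))))))))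

noncomputable def s0_112 : Ss := (.s (.c (nat_lit 1815) l45 .e) (.s (.c (nat_lit 767) l45 .e) (.s (.c (nat_lit 2715) l49 .e) (.s (.c (nat_lit 1611) l54 .e) (.s (.c (nat_lit 2421) l52 .e) (.s (.c (nat_lit 1769) l54 .e) (.s (.c (nat_lit 1426) l53 .e) (.s (.c (nat_lit 295) l53 .e) (.s (.c (nat_lit 697) l53 .e) (.s (.c (nat_lit 1227) l50 .e) (.s (.c (nat_lit 2592) l43 .e) (.s (.c (nat_lit 2282) l53 .e) (.s (.c (nat_lit 2354) l50 .e) (.s (.c (nat_lit 1523) l45 .e) (.s (.c (nat_lit 1478) l44 .e) (.s (.c (nat_lit 1425) l50 .e) (.s (.c (nat_lit 814) l50 .e) (.s (.c (nat_lit 1496) l44 .e) (.s (.c (nat_lit 2550) l53 .e) (.s (.c (nat_lit 1634) l53 .e) (.s (.c (nat_lit 2415) l45 .e) (.s (.c (nat_lit 1656) l53 .e) (.s (.c (nat_lit 1055) l45 .e) (.s (.c (nat_lit 1947) l53 .e) (.s (.c (nat_lit 1763) l50 .e) (.s (.c (nat_lit 2609) l44 .e) (.s (.c (nat_lit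 916) l45 .e) (.s (.c (nat_lit 1879) l53 .e) (.s (.c (nat_lit 2373) l44 .e) (.s (.c (nat_lit 677) l50 .e) s0_113))))))))))))))))))))))))))))))

noncomputable def s0_111 : Ss := (.s (.c (nat_lit 2664) l45 .e) (.s (.c (nat_lit 303) l50 .e) (.s (.c (nat_lit 2575) l44 .e) (.s (.c (nat_lit 2334) l50 .e) (.s (.c (nat_lit 2213) l45 .e) (.s (.c (nat_lit 929) l53 .e) (.s (.c (nat_lit 2701) l49 .e) (.s (.c (nat_lit 2677) l52 .e) (.s (.c (nat_lit 2732) l43 .e) (.s (.c (nat_lit 2527) l50 .e) (.s (.c (nat_lit 1714) l49 .e) (.s (.c (nat_lit 2384) l45 .e) (.s (.c (nat_lit 1837) l53 .e) (.s (.c (nat_lit 2708) l43 .e) (.s (.c (nat_lit 2448) l44 .e) (.s (.c (nat_lit 1815) l54 .e) (.s (.c (nat_lit 2666) l44 .e) (.s (.c (nat_lit 2712) l50 .e) (.s (.c (nat_lit 2719) l51 .e) (.s (.c (nat_lit 1456) l50 .e) (.s (.c (nat_lit 2151) l50 .e) (.s (.c (nat_lit 2169) l53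 .e) (.s (.c (nat_lit 2488) l45 .e) (.s (.c (nat_lit 2611) l52 .e) (.s (.c (nat_lit 2624) l51 .e) (.s (.c (nat_lit 2390) l50 .e) (.s (.c (nat_lit 2541) l53 .e) (.s (.c (nat_lit 299) l45 .e) (.s (.c (nat_lit 1889) l50 .e) (.s (.c (nat_lit 1264) l43 .e) s0_112))))))))))))))))))))))))))))))

noncomputable def s0_110 : Ss := (.s (.c (nat_lit 2719) l43 .e) (.s (.c (nat_lit 2648) l52 .e) (.s (.c (nat_lit 825) l50 .e) (.s (.c (nat_lit 1450) l53 .e) (.s (.c (nat_lit 735) l53 .e) (.s (.c (nat_lit 2656) l46 .e) (.s (.c (nat_lit 2434) l45 .e) (.s (.c (nat_lit 2632) l53 .e) (.s (.c (nat_lit 1056) l51 .e) (.s (.c (nat_lit 778) l53 .e) (.s (.c (nat_lit 2256) l52 .e) (.s (.c (nat_lit 2282) l54 .e) (.s (.c (nat_lit 2732) l52 .e) (.s (.c (nat_lit 1837) l50 .e) (.s (.c (nat_lit 1072) l53 .e) (.s (.c (nat_lit 2713) l53 .e) (.s (.c (nat_lit 2729) l45 .e) (.s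 (.c (nat_lit 1158) l53 .e) (.s (.c (nat_lit 1487) l50 .e) (.s (.c (nat_lit 1529) l45 .e) (.s (.c (nat_lit 2451) l54 .e) (.s (.c (nat_lit 2635) l52 .e) (.s (.c (nat_lit 2620) l52 .e) (.s (.c (nat_lit 2575) l54 .e) (.s (.c (nat_lit 2506) l44 .e) (.s (.c (nat_lit 1151) l53 .e) (.s (.c (nat_lit 2491) l50 .e) (.s (.c (nat_lit 1390) l53 .e) (.s (.c (nat_lit 1296) l52 .e) (.s (.c (nat_lit 2592) l50 .e) s0_111))))))))))))))))))))))))))))))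

noncomputable def s0_109 : Ss := (.s (.c (nat_lit 2300) l53 .e) (.s (.c (nat_lit 2601) l50 .e) (.s (.c (nat_lit 449) l53 .e) (.s (.c (nat_lit 2611) l44 .e) (.s (.c (nat_lit 1442) l45 .e) (.s (.c (nat_lit 2617) l45 .e) (.s (.c (nat_lit 2353) l44 .e) (.s (.c (nat_lit 942) l53 .e) (.s (.c (nat_lit 1852) l50 .e) (.s (.c (nat_lit 885) l53 .e) (.s (.c (nat_lit 1649) l45 .e) (.s (.c (nat_lit 1814) l43 .e) (.s (.c (nat_lit 2643) l50 .e) (.s (.c (nat_lit 2713) l54 .e) (.s (.c (nat_lit 1812) l45 .e) (.s (.c (nat_lit 1271) l50 .e) (.s (.c (nat_lit 2566) l51 .e) (.s (.c (nat_lit 911) l50 .e) (.s (.c (nat_lit 596) l53 .e) (.s (.c (nat_lit 2446) l45 .e) (.s (.c (nat_lit 1083) l45 .e) (.s (.c (nat_lit 1154) l53 .e) (.s (.c (nat_lit 2281) l50 .e) (.s (.c (nat_lit 2718) l52 .e) (.s (.c (nat_lit 2586) l45 .e) (.s (.c (nat_lit 1093) l53 .e) (.s (.c (nat_lit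 1508) l50 .e) (.s (.c (nat_lit 2590) l45 .e) (.s (.c (nat_lit 1748) l50 .e) (.s (.c (nat_lit 2483) l53 .e) s0_110))))))))))))))))))))))))))))))

noncomputable def s0_108 : Ss := (.s (.c (nat_lit 2618) l53 .e) (.s (.c (nat_lit 1768) l45 .e) (.s (.c (nat_lit 1228) l53 .e) (.s (.c (nat_lit 728) l53 .e) (.s (.c (nat_lit 2306) l54 .e) (.s (.c (nat_lit 1892) l50 .e) (.s (.c (nat_lit 1836) l45 .e) (.s (.c (nat_lit 1235) l53 .e) (.s (.c (nat_lit 1084) l53 .e) (.s (.c (nat_lit 933) l50 .e) (.s (.c (nat_lit 2447) l53 .e) (.s (.c (nat_lit 813) l53 .e) (.s (.c (nat_lit 1441) l44 .e) (.s (.c (nat_lit 1826) l50 .e) (.s (.c (nat_lit 2007) l45 .e) (.s (.c (nat_lit 2502) l50 .e) (.s (.c (nat_lit 1040) l53 .e) (.s (.c (nat_lit 248) l53 .e) (.s (.c (nat_lit 1284) l50 .e) (.s (.c (nat_lit 2644) l43 .e) (.s (.c (nat_lit 2659) l49 .e) (.s (.c (nat_lit 1287) l53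 .e) (.s (.c (nat_lit 1815) l44 .e) (.s (.c (nat_lit 855) l45 .e) (.s (.c (nat_lit 2668) l53 .e) (.s (.c (nat_lit 2720) l53 .e) (.s (.c (nat_lit 2668) l44 .e) (.s (.c (nat_lit 1932) l53 .e) (.s (.c (nat_lit 1286) l45 .e) (.s (.c (nat_lit 1422) l53 .e) s0_109))))))))))))))))))))))))))))))

noncomputable def s0_107 : Ss := (.s (.c (nat_lit 775) l53 .e) (.s (.c (nat_lit 1886) l53 .e) (.s (.c (nat_lit 2391) l52 .e) (.s (.c (nat_lit 2282) l44 .e) (.s (.c (nat_lit 2713) l50 .e) (.s (.c (nat_lit 2655) l43 .e) (.s (.c (nat_lit 2649) l50 .e) (.s (.c (nat_lit 632) l45 .e) (.s (.c (nat_lit 2264) l53 .e) (.s (.c (nat_lit 2719) l50 .e) (.s (.c (nat_lit 723) l45 .e) (.s (.c (nat_lit 2399) l50 .e) (.s (.c (nat_lit 2306) l50 .e) (.s (.c (nat_lit 2109) l53 .e) (.s (.c (nat_lit 2117) l52 .e) (.s (.c (nat_lit 477) l50 .e) (.s (.c (nat_lit 1241) l45 .e) (.s (.c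 (nat_lit 2727) l54 .e) (.s (.c (nat_lit 1159) l52 .e) (.s (.c (nat_lit 1295) l53 .e) (.s (.c (nat_lit 1378) l53 .e) (.s (.c (nat_lit 2281) l45 .e) (.s (.c (nat_lit 2656) l51 .e) (.s (.c (nat_lit 2635) l44 .e) (.s (.c (nat_lit 2459) l44 .e) (.s (.c (nat_lit 2491) l51 .e) (.s (.c (nat_lit 1454) l50 .e) (.s (.c (nat_lit 2606) l53 .e) (.s (.c (nat_lit 1644) l53 .e) (.s (.c (nat_lit 2422) l50 .e) s0_108))))))))))))))))))))))))))))))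

noncomputable def s0_106 : Ss := (.s (.c (nat_lit 2559) l53 .e) (.s (.c (nat_lit 2513) l50 .e) (.s (.c (nat_lit 1817) l44 .e) (.s (.c (nat_lit 2674) l52 .e) (.s (.c (nat_lit 2384) l50 .e) (.s (.c (nat_lit 2684) l54 .e) (.s (.c (nat_lit 2492) l54 .e) (.s (.c (nat_lit 1066) l50 .e) (.s (.c (nat_lit 377) l53 .e) (.s (.c (nat_lit 2726) l46 .e) (.s (.c (nat_lit 1286) l50 .e) (.s (.c (nat_lit 2447) l54 .e) (.s (.c (nat_lit 1656) l45 .e) (.s (.c (nat_lit 1946) l50 .e) (.s (.c (nat_lit 2213) l50 .e) (.s (.c (nat_lit 2295) l50 .e) (.s (.c (nat_lit 743) l53 .e) (.s (.c (nat_lit 2006) l50 .e) (.s (.c (nat_lit 1831) l53 .e) (.s (.c (nat_lit 1992) l50 .e) (.s (.c (nat_lit 738) l53 .e) (.s (.c (nat_lit 926) l50 .e) (.s (.c (nat_lit 2667) l51 .e) (.s (.c (nat_lit 2391) l53 .e) (.s (.c (nat_lit 2680) l45 .e) (.s (.c (nat_lit 2263) l50 .e) (.s (.c (nat_lit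 2620) l44 .e) (.s (.c (nat_lit 1959) l53 .e) (.s (.c (nat_lit 2695) l44 .e) (.s (.c (nat_lit 1509) l53 .e) s0_107))))))))))))))))))))))))))))))

noncomputable def s0_105 : Ss := (.s (.c (nat_lit 806) l50 .e) (.s (.c (nat_lit 710) l45 .e) (.s (.c (nat_lit 2410) l50 .e) (.s (.c (nat_lit 2299) l45 .e) (.s (.c (nat_lit 2718) l43 .e) (.s (.c (nat_lit 2168) l45 .e) (.s (.c (nat_lit 2697) l50 .e) (.s (.c (nat_lit 1391) l43 .e) (.s (.c (nat_lit 2443) l45 .e) (.s (.c (nat_lit 2196) l44 .e) (.s (.c (nat_lit 1040) l50 .e) (.s (.c (nat_lit 2671) l54 .e) (.s (.c (nat_lit 1098) l45 .e) (.s (.c (nat_lit 1992) l45 .e) (.s (.c (nat_lit 2701) l44 .e) (.s (.c (nat_lit 2546) l54 .e) (.s (.c (nat_lit 2717) l54 .e) (.s (.c (nat_lit 1341) l53 .e) (.s (.c (nat_lit 2727) l44 .e) (.s (.c (nat_lit 789) l50 .e) (.s (.c (nat_lit 2677) l44 .e) (.s (.c (nat_lit 2667) l50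 .e) (.s (.c (nat_lit 2592) l51 .e) (.s (.c (nat_lit 2279) l45 .e) (.s (.c (nat_lit 1762) l45 .e) (.s (.c (nat_lit 471) l53 .e) (.s (.c (nat_lit 2368) l53 .e) (.s (.c (nat_lit 1990) l53 .e) (.s (.c (nat_lit 1621) l50 .e) (.s (.c (nat_lit 2559) l54 .e) s0_106))))))))))))))))))))))))))))))

noncomputable def s0_104 : Ss := (.s (.c (nat_lit 821) l50 .e) (.s (.c (nat_lit 2443) l50 .e) (.s (.c (nat_lit 2725) l52 .e) (.s (.c (nat_lit 802) l53 .e) (.s (.c (nat_lit 2276) l53 .e) (.s (.c (nat_lit 2729) l50 .e) (.s (.c (nat_lit 1837) l54 .e) (.s (.c (nat_lit 1007) l45 .e) (.s (.c (nat_lit 1396) l53 .e) (.s (.c (nat_lit 2691) l44 .e) (.s (.c (nat_lit 2675) l51 .e) (.s (.c (nat_lit 2437) l50 .e) (.s (.c (nat_lit 2683) l43 .e) (.s (.c (nat_lit 487) l53 .e) (.s (.c (nat_lit 1093) l50 .e) (.s (.c (nat_lit 1831) l50 .e) (.s (.c (nat_lit 2587) l53 .e) (.s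 (.c (nat_lit 539) l45 .e) (.s (.c (nat_lit 2653) l50 .e) (.s (.c (nat_lit 2281) l49 .e) (.s (.c (nat_lit 1044) l53 .e) (.s (.c (nat_lit 2208) l53 .e) (.s (.c (nat_lit 1242) l53 .e) (.s (.c (nat_lit 2593) l44 .e) (.s (.c (nat_lit 2724) l54 .e) (.s (.c (nat_lit 1056) l53 .e) (.s (.c (nat_lit 1992) l51 .e) (.s (.c (nat_lit 871) l53 .e) (.s (.c (nat_lit 933) l45 .e) (.s (.c (nat_lit 2131) l50 .e) s0_105))))))))))))))))))))))))))))))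

noncomputable def s0_103 : Ss := (.s (.c (nat_lit 1127) l53 .e) (.s (.c (nat_lit 2193) l50 .e) (.s (.c (nat_lit 2701) l52 .e) (.s (.c (nat_lit 1429) l53 .e) (.s (.c (nat_lit 2592) l45 .e) (.s (.c (nat_lit 1457) l53 .e) (.s (.c (nat_lit 2539) l54 .e) (.s (.c (nat_lit 1150) l45 .e) (.s (.c (nat_lit 2730) l54 .e) (.s (.c (nat_lit 1814) l51 .e) (.s (.c (nat_lit 1649) l53 .e) (.s (.c (nat_lit 1524) l50 .e) (.s (.c (nat_lit 2729) l43 .e) (.s (.c (nat_lit 767) l53 .e) (.s (.c (nat_lit 1409) l53 .e) (.s (.c (nat_lit 2422) l51 .e) (.s (.c (nat_lit 2688) l53 .e) (.s (.c (nat_lit 2712) l49 .e) (.s (.c (nat_lit 2665) l53 .e) (.s (.c (nat_lit 1605) l53 .e) (.s (.c (nat_lit 1025) l53 .e) (.s (.c (nat_lit 1815) l52 .e) (.s (.c (nat_lit 2580) l44 .e) (.s (.c (nat_lit 763) l45 .e) (.s (.c (nat_lit 1605) l50 .e) (.s (.c (nat_lit 2609) l49 .e) (.s (.c (nat_lit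 1078) l45 .e) (.s (.c (nat_lit 1706) l53 .e) (.s (.c (nat_lit 1284) l53 .e) (.s (.c (nat_lit 1002) l53 .e) s0_104))))))))))))))))))))))))))))))

noncomputable def s0_102 : Ss := (.s (.c (nat_lit 2720) l45 .e) (.s (.c (nat_lit 2675) l54 .e) (.s (.c (nat_lit 1227) l45 .e) (.s (.c (nat_lit 1138) l49 .e) (.s (.c (nat_lit 1611) l53 .e) (.s (.c (nat_lit 911) l53 .e) (.s (.c (nat_lit 2640) l44 .e) (.s (.c (nat_lit 1604) l45 .e) (.s (.c (nat_lit 2683) l50 .e) (.s (.c (nat_lit 275) l53 .e) (.s (.c (nat_lit 860) l53 .e) (.s (.c (nat_lit 2558) l45 .e) (.s (.c (nat_lit 2423) l53 .e) (.s (.c (nat_lit 1428) l45 .e) (.s (.c (nat_lit 1572) l53 .e) (.s (.c (nat_lit 2171) l45 .e) (.s (.c (nat_lit 1946) l45 .e) (.s (.c (nat_lit 1961) l53 .e) (.s (.c (nat_lit 1276) l49 .e) (.s (.c (nat_lit 2069) l45 .e) (.s (.c (nat_lit 2606) l44 .e) (.s (.c (nat_lit 1524) l53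 .e) (.s (.c (nat_lit 1825) l53 .e) (.s (.c (nat_lit 2721) l50 .e) (.s (.c (nat_lit 2542) l53 .e) (.s (.c (nat_lit 2113) l50 .e) (.s (.c (nat_lit 2638) l53 .e) (.s (.c (nat_lit 942) l50 .e) (.s (.c (nat_lit 1893) l53 .e) (.s (.c (nat_lit 2694) l45 .e) s0_103))))))))))))))))))))))))))))))

noncomputable def s0_101 : Ss := (.s (.c (nat_lit 880) l45 .e) (.s (.c (nat_lit 1611) l50 .e) (.s (.c (nat_lit 2490) l44 .e) (.s (.c (nat_lit 1909) l53 .e) (.s (.c (nat_lit 2423) l45 .e) (.s (.c (nat_lit 2172) l53 .e) (.s (.c (nat_lit 1857) l52 .e) (.s (.c (nat_lit 1050) l53 .e) (.s (.c (nat_lit 2715) l44 .e) (.s (.c (nat_lit 2660) l50 .e) (.s (.c (nat_lit 2705) l45 .e) (.s (.c (nat_lit 974) l50 .e) (.s (.c (nat_lit 1593) l53 .e) (.s (.c (nat_lit 2727) l52 .e) (.s (.c (nat_lit 1633) l45 .e) (.s (.c (nat_lit 1791) l45 .e) (.s (.c (nat_lit 1860) l45 .e) (.s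 (.c (nat_lit 1290) l53 .e) (.s (.c (nat_lit 2710) l53 .e) (.s (.c (nat_lit 2391) l54 .e) (.s (.c (nat_lit 2712) l45 .e) (.s (.c (nat_lit 2159) l53 .e) (.s (.c (nat_lit 2698) l43 .e) (.s (.c (nat_lit 1815) l53 .e) (.s (.c (nat_lit 2709) l51 .e) (.s (.c (nat_lit 1769) l50 .e) (.s (.c (nat_lit 2391) l45 .e) (.s (.c (nat_lit 1628) l50 .e) (.s (.c (nat_lit 2264) l54 .e) (.s (.c (nat_lit 2208) l50 .e) s0_102))))))))))))))))))))))))))))))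

noncomputable def s0_100 : Ss := (.s (.c (nat_lit 2566) l54 .e) (.s (.c (nat_lit 1800) l44 .e) (.s (.c (nat_lit 1529) l50 .e) (.s (.c (nat_lit 1568) l53 .e) (.s (.c (nat_lit 1025) l50 .e) (.s (.c (nat_lit 2625) l53 .e) (.s (.c (nat_lit 2550) l54 .e) (.s (.c (nat_lit 2172) l54 .e) (.s (.c (nat_lit 1748) l53 .e) (.s (.c (nat_lit 1650) l53 .e) (.s (.c (nat_lit 2462) l45 .e) (.s (.c (nat_lit 2299) l53 .e) (.s (.c (nat_lit 2534) l54 .e) (.s (.c (nat_lit 2625) l45 .e) (.s (.c (nat_lit 2202) l53 .e) (.s (.c (nat_lit 2731) l50 .e) (.s (.c (nat_lit 2007) l54 .e) (.s (.c (nat_lit 2708) l44 .e) (.s (.c (nat_lit 1763) l53 .e) (.s (.c (nat_lit 2709) l46 .e) (.s (.c (nat_lit 2731) l51 .e) (.s (.c (nat_lit 2655) l44 .e) (.s (.c (nat_lit 1604) l53 .e) (.s (.c (nat_lit 2617) l52 .e) (.s (.c (nat_lit 1858) l50 .e) (.s (.c (nat_lit 2584) l53 .e) (.s (.c (nat_lit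 2412) l50 .e) (.s (.c (nat_lit 2699) l46 .e) (.s (.c (nat_lit 929) l50 .e) (.s (.c (nat_lit 1437) l53 .e) s0_101))))))))))))))))))))))))))))))

noncomputable def s0_99 : Ss := (.s (.c (nat_lit 2556) l53 .e) (.s (.c (nat_lit 2189) l53 .e) (.s (.c (nat_lit 246) l50 .e) (.s (.c (nat_lit 2150) l53 .e) (.s (.c (nat_lit 917) l53 .e) (.s (.c (nat_lit 2678) l45 .e) (.s (.c (nat_lit 1440) l53 .e) (.s (.c (nat_lit 1610) l45 .e) (.s (.c (nat_lit 896) l53 .e) (.s (.c (nat_lit 1964) l45 .e) (.s (.c (nat_lit 2614) l50 .e) (.s (.c (nat_lit 2730) l53 .e) (.s (.c (nat_lit 2720) l44 .e) (.s (.c (nat_lit 2721) l54 .e) (.s (.c (nat_lit 1622) l53 .e) (.s (.c (nat_lit 2282) l45 .e) (.s (.c (nat_lit 2617) l53 .e) (.s (.c (nat_lit 928) l45 .e) (.s (.c (nat_lit 2668) l54 .e) (.s (.c (nat_lit 1768) l50 .e) (.s (.c (nat_lit 2717) l53 .e) (.s (.c (nat_lit 2723) l45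 .e) (.s (.c (nat_lit 2261) l53 .e) (.s (.c (nat_lit 2718) l49 .e) (.s (.c (nat_lit 1890) l50 .e) (.s (.c (nat_lit 265) l45 .e) (.s (.c (nat_lit 452) l53 .e) (.s (.c (nat_lit 2355) l53 .e) (.s (.c (nat_lit 2635) l43 .e) (.s (.c (nat_lit 1610) l50 .e) s0_100))))))))))))))))))))))))))))))

noncomputable def s0_98 : Ss := (.s (.c (nat_lit 2728) l43 .e) (.s (.c (nat_lit 2698) l52 .e) (.s (.c (nat_lit 2113) l53 .e) (.s (.c (nat_lit 1878) l50 .e) (.s (.c (nat_lit 2112) l45 .e) (.s (.c (nat_lit 2484) l53 .e) (.s (.c (nat_lit 2282) l52 .e) (.s (.c (nat_lit 2694) l43 .e) (.s (.c (nat_lit 2106) l50 .e) (.s (.c (nat_lit 2716) l46 .e) (.s (.c (nat_lit 2652) l53 .e) (.s (.c (nat_lit 2354) l51 .e) (.s (.c (nat_lit 473) l45 .e) (.s (.c (nat_lit 1083) l50 .e) (.s (.c (nat_lit 2007) l53 .e) (.s (.c (nat_lit 2214) l53 .e) (.s (.c (nat_lit 2660) l53 .e) (.s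 (.c (nat_lit 1986) l53 .e) (.s (.c (nat_lit 2263) l51 .e) (.s (.c (nat_lit 2579) l51 .e) (.s (.c (nat_lit 1229) l43 .e) (.s (.c (nat_lit 1503) l45 .e) (.s (.c (nat_lit 517) l50 .e) (.s (.c (nat_lit 2352) l53 .e) (.s (.c (nat_lit 2684) l53 .e) (.s (.c (nat_lit 2646) l54 .e) (.s (.c (nat_lit 2505) l50 .e) (.s (.c (nat_lit 957) l45 .e) (.s (.c (nat_lit 1275) l53 .e) (.s (.c (nat_lit 2693) l52 .e) s0_99))))))))))))))))))))))))))))))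

noncomputable def s0_97 : Ss := (.s (.c (nat_lit 2693) l44 .e) (.s (.c (nat_lit 1638) l50 .e) (.s (.c (nat_lit 1172) l50 .e) (.s (.c (nat_lit 1969) l44 .e) (.s (.c (nat_lit 2725) l49 .e) (.s (.c (nat_lit 2506) l52 .e) (.s (.c (nat_lit 2623) l44 .e) (.s (.c (nat_lit 1830) l53 .e) (.s (.c (nat_lit 874) l45 .e) (.s (.c (nat_lit 2151) l53 .e) (.s (.c (nat_lit 2003) l45 .e) (.s (.c (nat_lit 2621) l46 .e) (.s (.c (nat_lit 482) l45 .e) (.s (.c (nat_lit 1705) l53 .e) (.s (.c (nat_lit 807) l53 .e) (.s (.c (nat_lit 1109) l53 .e) (.s (.c (nat_lit 2684) l44 .e) (.s (.c (nat_lit 2696) l51 .e) (.s (.c (nat_lit 2112) l50 .e) (.s (.c (nat_lit 2448) l52 .e) (.s (.c (nat_lit 2116) l50 .e) (.s (.c (nat_lit 2156) l53 .e) (.s (.c (nat_lit 1980) l50 .e) (.s (.c (nat_lit 2647) l50 .e) (.s (.c (nat_lit 2715) l52 .e) (.s (.c (nat_lit 2574) l50 .e) (.s (.c (nat_lit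 2662) l45 .e) (.s (.c (nat_lit 2415) l53 .e) (.s (.c (nat_lit 2732) l44 .e) (.s (.c (nat_lit 2070) l45 .e) s0_98))))))))))))))))))))))))))))))

noncomputable def s0_96 : Ss := (.s (.c (nat_lit 1944) l45 .e) (.s (.c (nat_lit 2293) l53 .e) (.s (.c (nat_lit 1288) l44 .e) (.s (.c (nat_lit 2654) l54 .e) (.s (.c (nat_lit 2462) l50 .e) (.s (.c (nat_lit 1599) l53 .e) (.s (.c (nat_lit 2379) l53 .e) (.s (.c (nat_lit 1968) l53 .e) (.s (.c (nat_lit 636) l45 .e) (.s (.c (nat_lit 2103) l45 .e) (.s (.c (nat_lit 1965) l50 .e) (.s (.c (nat_lit 1809) l45 .e) (.s (.c (nat_lit 2647) l43 .e) (.s (.c (nat_lit 2565) l44 .e) (.s (.c (nat_lit 2575) l53 .e) (.s (.c (nat_lit 2566) l53 .e) (.s (.c (nat_lit 2640) l52 .e) (.s (.c (nat_lit 2726) l43 .e) (.s (.c (nat_lit 2659) l50 .e) (.s (.c (nat_lit 2444) l53 .e) (.s (.c (nat_lit 870) l45 .e) (.s (.c (nat_lit 2422) l45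 .e) (.s (.c (nat_lit 2492) l53 .e) (.s (.c (nat_lit 2296) l43 .e) (.s (.c (nat_lit 2483) l45 .e) (.s (.c (nat_lit 2423) l44 .e) (.s (.c (nat_lit 2716) l45 .e) (.s (.c (nat_lit 2355) l54 .e) (.s (.c (nat_lit 2609) l52 .e) (.s (.c (nat_lit 1655) l45 .e) s0_97))))))))))))))))))))))))))))))

noncomputable def s0_95 : Ss := (.s (.c (nat_lit 1872) l53 .e) (.s (.c (nat_lit 2730) l52 .e) (.s (.c (nat_lit 1062) l53 .e) (.s (.c (nat_lit 2700) l54 .e) (.s (.c (nat_lit 2305) l50 .e) (.s (.c (nat_lit 2172) l50 .e) (.s (.c (nat_lit 1425) l45 .e) (.s (.c (nat_lit 1588) l50 .e) (.s (.c (nat_lit 2695) l52 .e) (.s (.c (nat_lit 1226) l49 .e) (.s (.c (nat_lit 2624) l45 .e) (.s (.c (nat_lit 1281) l53 .e) (.s (.c (nat_lit 246) l53 .e) (.s (.c (nat_lit 2501) l45 .e) (.s (.c (nat_lit 2436) l43 .e) (.s (.c (nat_lit 1530) l53 .e) (.s (.c (nat_lit 2586) l49 .e) (.s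 (.c (nat_lit 2305) l45 .e) (.s (.c (nat_lit 2163) l53 .e) (.s (.c (nat_lit 2538) l50 .e) (.s (.c (nat_lit 2708) l52 .e) (.s (.c (nat_lit 2652) l45 .e) (.s (.c (nat_lit 2695) l54 .e) (.s (.c (nat_lit 2558) l51 .e) (.s (.c (nat_lit 2730) l45 .e) (.s (.c (nat_lit 1272) l53 .e) (.s (.c (nat_lit 2484) l50 .e) (.s (.c (nat_lit 2586) l50 .e) (.s (.c (nat_lit 2643) l54 .e) (.s (.c (nat_lit 1711) l52 .e) s0_96))))))))))))))))))))))))))))))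

noncomputable def s0_94 : Ss := (.s (.c (nat_lit 2732) l49 .e) (.s (.c (nat_lit 1475) l50 .e) (.s (.c (nat_lit 1359) l50 .e) (.s (.c (nat_lit 2728) l44 .e) (.s (.c (nat_lit 2710) l54 .e) (.s (.c (nat_lit 1814) l50 .e) (.s (.c (nat_lit 1443) l53 .e) (.s (.c (nat_lit 2231) l53 .e) (.s (.c (nat_lit 880) l50 .e) (.s (.c (nat_lit 2505) l54 .e) (.s (.c (nat_lit 2571) l50 .e) (.s (.c (nat_lit 2696) l54 .e) (.s (.c (nat_lit 1798) l50 .e) (.s (.c (nat_lit 2281) l43 .e) (.s (.c (nat_lit 1508) l45 .e) (.s (.c (nat_lit 2438) l53 .e) (.s (.c (nat_lit 2707) l54 .e) (.s (.c (nat_lit 1007) l50 .e) (.s (.c (nat_lit 2653) l53 .e) (.s (.c (nat_lit 2706) l50 .e) (.s (.c (nat_lit 2682) l52 .e) (.s (.c (nat_lit 2423) l54 .e) (.s (.c (nat_lit 1084) l45 .e) (.s (.c (nat_lit 2731) l53 .e) (.s (.c (nat_lit 2211) l50 .e) (.s (.c (nat_lit 2276) l50 .e) (.s (.c (nat_lit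 2416) l53 .e) (.s (.c (nat_lit 2659) l45 .e) (.s (.c (nat_lit 2390) l43 .e) (.s (.c (nat_lit 2680) l50 .e) s0_95))))))))))))))))))))))))))))))

noncomputable def s0_93 : Ss := (.s (.c (nat_lit 2542) l50 .e) (.s (.c (nat_lit 2672) l44 .e) (.s (.c (nat_lit 2731) l54 .e) (.s (.c (nat_lit 1634) l45 .e) (.s (.c (nat_lit 2677) l49 .e) (.s (.c (nat_lit 358) l45 .e) (.s (.c (nat_lit 2306) l53 .e) (.s (.c (nat_lit 2200) l49 .e) (.s (.c (nat_lit 1655) l50 .e) (.s (.c (nat_lit 2729) l51 .e) (.s (.c (nat_lit 2682) l43 .e) (.s (.c (nat_lit 2214) l54 .e) (.s (.c (nat_lit 1796) l53 .e) (.s (.c (nat_lit 2416) l50 .e) (.s (.c (nat_lit 2593) l54 .e) (.s (.c (nat_lit 1523) l53 .e) (.s (.c (nat_lit 2116) l53 .e) (.s (.c (nat_lit 2718) l44 .e) (.s (.c (nat_lit 373) l45 .e) (.s (.c (nat_lit 2107) l53 .e) (.s (.c (nat_lit 2004) l50 .e) (.s (.c (nat_lit 2690) l54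 .e) (.s (.c (nat_lit 2730) l44 .e) (.s (.c (nat_lit 2404) l53 .e) (.s (.c (nat_lit 2275) l45 .e) (.s (.c (nat_lit 2382) l53 .e) (.s (.c (nat_lit 2239) l50 .e) (.s (.c (nat_lit 2568) l44 .e) (.s (.c (nat_lit 1530) l45 .e) (.s (.c (nat_lit 2722) l52 .e) s0_94))))))))))))))))))))))))))))))

noncomputable def s0_92 : Ss := (.s (.c (nat_lit 2302) l0 .e) (.s (.c (nat_lit 2681) l2 .e) (.s (.c (nat_lit 2296) l0 .e) (.s (.c (nat_lit 2672) l1 .e) (.s (.c (nat_lit 1063) l2 .e) (.s (.c (nat_lit 2560) l1 .e) (.s (.c (nat_lit 2310) l2 .e) (.s (.c (nat_lit 1084) l2 .e) (.s (.c (nat_lit 2527) l1 .e) (.s (.c (nat_lit 2336) l2 .e) (.s (.c (nat_lit 1098) l1 .e) (.s (.c (nat_lit 2626) l1 .e) (.s (.c (nat_lit 646) l1 .e) (.s (.c (nat_lit 874) l1 .e) (.s (.c (nat_lit 642) l1 .e) (.s (.c (nat_lit 711) l1 .e) (.s (.c (nat_lit 2417) l1 .e) (.s (.c (nat_lit 1765)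 l1 .e) (.s (.c (nat_lit 521) l2 .e) (.s (.c (nat_lit 913) l2 .e) (.s (.c (nat_lit 731) l2 .e) (.s (.c (nat_lit 2732) l6 .e) (.s (.c (nat_lit 2732) l5 .e) (.s (.c (nat_lit 2732) l7 .e) (.s (.c (nat_lit 1953) l1 .e) (.s (.c (nat_lit 811) l2 .e) (.s (.c (nat_lit 1785) l1 .e) (.s (.c (nat_lit 1697) l1 .e) (.s (.c (nat_lit 540) l1 .e) (.s (.c (nat_lit 968) l1 .e) s0_93))))))))))))))))))))))))))))))

noncomputable def s0_91 : Ss := (.s (.c (nat_lit 1798) l3 .e) (.s (.c (nat_lit 1222) l1 .e) (.s (.c (nat_lit 2128) l1 .e) (.s (.c (nat_lit 1781) l3 .e) (.s (.c (nat_lit 2229) l1 .e) (.s (.c (nat_lit 2520) l2 .e) (.s (.c (nat_lit 2553) l0 .e) (.s (.c (nat_lit 1061) l3 .e) (.s (.c (nat_lit 976) l2 .e) (.s (.c (nat_lit 1179) l2 .e) (.s (.c (nat_lit 1252) l3 .e) (.s (.c (nat_lit 1235) l2 .e) (.s (.c (nat_lit 1748) l2 .e) (.s (.c (nat_lit 931) l3 .e) (.s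 (.c (nat_lit 248) l3 .e) (.s (.c (nat_lit 1765) l2 .e) (.s (.c (nat_lit 1749) l1 .e) (.s (.c (nat_lit 845) l3 .e) (.s (.c (nat_lit 2318) l0 .e) (.s (.c (nat_lit 2729) l0 .e) (.s (.c (nat_lit 1526) l2 .e) (.s (.c (nat_lit 1809) l0 .e) (.s (.c (nat_lit 2578) l3 .e) (.s (.c (nat_lit 2409) l0 .e) (.s (.c (nat_lit 2638) l3 .e) (.s (.c (nat_lit 2264) l3 .e) (.s (.c (nat_lit 2232) l0 .e) (.s (.c (nat_lit 1286) l1 .e) (.s (.c (nat_lit 446) l3 .e) (.s (.c (nat_lit 2328) l1 .e) s0_92))))))))))))))))))))))))))))))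

noncomputable def s0_90 : Ss := (.s (.c (nat_lit 1412) l2 .e) (.s (.c (nat_lit 812) l2 .e) (.s (.c (nat_lit 1362) l3 .e) (.s (.c (nat_lit 2100) l3 .e) (.s (.c (nat_lit 2242) l3 .e) (.s (.c (nat_lit 2596) l0 .e) (.s (.c (nat_lit 103) l3 .e) (.s (.c (nat_lit 905) l2 .e) (.s (.c (nat_lit 1066) l3 .e) (.s (.c (nat_lit 1966) l1 .e) (.s (.c (nat_lit 1760) l3 .e) (.s (.c (nat_lit 2116) l2 .e) (.s (.c (nat_lit 1226) l2 .e) (.s (.c (nat_lit 1941) l3 .e) (.s (.c (nat_lit 1607) l1 .e) (.s (.c (nat_lit 940) l2 .e) (.s (.c (nat_lit 2611) l0 .e) (.s (.c (nat_lit 2417) l3 .e) (.s (.c (nat_lit 2484) l3 .e) (.s (.c (nat_lit 2065) l2 .e) (.s (.c (nat_lit 2513) l3 .e) (.s (.c (nat_lit 1815) l3 .e) (.s (.c (nat_lit 2118) l1 .e) (.s (.c (nat_lit 2693) l0 .e) (.s (.c (nat_lit 1268) l0 .e) (.s (.c (nat_lit 1579) l3 .e) (.s (.c (nat_lit 2581) l3 .e) (.s (.c (nat_lit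 2451) l2 .e) (.s (.c (nat_lit 2413) l2 .e) (.s (.c (nat_lit 1387) l1 .e) s0_91))))))))))))))))))))))))))))))

noncomputable def s0_89 : Ss := (.s (.c (nat_lit 1804) l3 .e) (.s (.c (nat_lit 2039) l0 .e) (.s (.c (nat_lit 1159) l0 .e) (.s (.c (nat_lit 400) l3 .e) (.s (.c (nat_lit 1762) l3 .e) (.s (.c (nat_lit 433) l3 .e) (.s (.c (nat_lit 728) l3 .e) (.s (.c (nat_lit 82) l3 .e) (.s (.c (nat_lit 606) l0 .e) (.s (.c (nat_lit 334) l3 .e) (.s (.c (nat_lit 932) l2 .e) (.s (.c (nat_lit 2579) l1 .e) (.s (.c (nat_lit 1439) l2 .e) (.s (.c (nat_lit 2300) l2 .e) (.s (.c (nat_lit 2599) l2 .e) (.s (.c (nat_lit 793) l1 .e) (.s (.c (nat_lit 806) l3 .e) (.s (.c (nat_lit 2536) l0 .e) (.s (.c (nat_lit 2221) l3 .e) (.s (.c (nat_lit 1496) l0 .e) (.s (.c (nat_lit 2002) l0 .e) (.s (.c (nat_lit 2172) l3 .e) (.s (.c (nat_lit 2267) l3 .e) (.s (.c (nat_lit 2708) l2 .e)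 (.s (.c (nat_lit 1875) l0 .e) (.s (.c (nat_lit 1496) l2 .e) (.s (.c (nat_lit 2677) l2 .e) (.s (.c (nat_lit 181) l3 .e) (.s (.c (nat_lit 1241) l3 .e) (.s (.c (nat_lit 1713) l3 .e) s0_90))))))))))))))))))))))))))))))

noncomputable def s0_88 : Ss := (.s (.c (nat_lit 1645) l1 .e) (.s (.c (nat_lit 1007) l0 .e) (.s (.c (nat_lit 661) l0 .e) (.s (.c (nat_lit 2080) l2 .e) (.s (.c (nat_lit 1058) l1 .e) (.s (.c (nat_lit 2617) l3 .e) (.s (.c (nat_lit 1812) l0 .e) (.s (.c (nat_lit 2419) l3 .e) (.s (.c (nat_lit 2600) l2 .e) (.s (.c (nat_lit 600) l1 .e) (.s (.c (nat_lit 492) l2 .e) (.s (.c (nat_lit 1482) l2 .e) (.s (.c (nat_lit 1634) l2 .e) (.s (.c (nat_lit 1758) l1 .e) (.s (.c (nat_lit 2103) l0 .e) (.s (.c (nat_lit 1928) l1 .e) (.s (.c (nat_lit 2641) l3 .e) (.s (.c (nat_lit 2416) l3 .e) (.s (.c (nat_lit 1876) l3 .e) (.s (.c (nat_lit 1228) l3 .e) (.s (.c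 (nat_lit 2557) l0 .e) (.s (.c (nat_lit 2721) l1 .e) (.s (.c (nat_lit 870) l3 .e) (.s (.c (nat_lit 2492) l3 .e) (.s (.c (nat_lit 749) l2 .e) (.s (.c (nat_lit 1626) l3 .e) (.s (.c (nat_lit 1426) l1 .e) (.s (.c (nat_lit 1095) l2 .e) (.s (.c (nat_lit 2709) l0 .e) (.s (.c (nat_lit 2493) l1 .e) s0_89))))))))))))))))))))))))))))))

noncomputable def s0_87 : Ss := (.s (.c (nat_lit 2005) l1 .e) (.s (.c (nat_lit 697) l3 .e) (.s (.c (nat_lit 1239) l3 .e) (.s (.c (nat_lit 93) l3 .e) (.s (.c (nat_lit 1946) l3 .e) (.s (.c (nat_lit 2732) l0 .e) (.s (.c (nat_lit 1049) l0 .e) (.s (.c (nat_lit 2683) l1 .e) (.s (.c (nat_lit 2276) l2 .e) (.s (.c (nat_lit 1245) l2 .e) (.s (.c (nat_lit 2336) l1 .e) (.s (.c (nat_lit 2504) l3 .e) (.s (.c (nat_lit 1371) l0 .e) (.s (.c (nat_lit 872) l0 .e) (.s (.c (nat_lit 2601) l1 .e) (.s (.c (nat_lit 1880) l2 .e) (.s (.c (nat_lit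 1207) l1 .e) (.s (.c (nat_lit 2524) l2 .e) (.s (.c (nat_lit 1941) l0 .e) (.s (.c (nat_lit 2412) l3 .e) (.s (.c (nat_lit 2363) l2 .e) (.s (.c (nat_lit 934) l3 .e) (.s (.c (nat_lit 2323) l1 .e) (.s (.c (nat_lit 2434) l3 .e) (.s (.c (nat_lit 2462) l0 .e) (.s (.c (nat_lit 2459) l2 .e) (.s (.c (nat_lit 1160) l3 .e) (.s (.c (nat_lit 2500) l3 .e) (.s (.c (nat_lit 294) l3 .e) (.s (.c (nat_lit 1404) l3 .e) s0_88))))))))))))))))))))))))))))))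

noncomputable def s0_86 : Ss := (.s (.c (nat_lit 2263) l1 .e) (.s (.c (nat_lit 1972) l3 .e) (.s (.c (nat_lit 1832) l2 .e) (.s (.c (nat_lit 1056) l3 .e) (.s (.c (nat_lit 1294) l3 .e) (.s (.c (nat_lit 1115) l0 .e) (.s (.c (nat_lit 2225) l0 .e) (.s (.c (nat_lit 2461) l2 .e) (.s (.c (nat_lit 614) l0 .e) (.s (.c (nat_lit 871) l1 .e) (.s (.c (nat_lit 1597) l0 .e) (.s (.c (nat_lit 1059) l3 .e) (.s (.c (nat_lit 1367) l3 .e) (.s (.c (nat_lit 910) l0 .e) (.s (.c (nat_lit 1720) l2 .e) (.s (.c (nat_lit 1767) l1 .e) (.s (.c (nat_lit 1890) l1 .e) (.s (.c (nat_lit 2574) l0 .e) (.s (.c (nat_lit 2677) l0 .e) (.s (.c (nat_lit 1390) l2 .e) (.s (.c (nat_lit 2701) l0 .e) (.s (.c (nat_lit 1467) l2 .e) (.s (.c (nat_lit 817) l2 .e) (.s (.c (nat_lit 1807) l3 .e) (.s (.c (nat_lit 2496) l0 .e) (.s (.c (nat_lit 482) l3 .e) (.s (.c (nat_lit 2196) l0 .e) (.s (.c (nat_lit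 2059) l3 .e) (.s (.c (nat_lit 2679) l2 .e) (.s (.c (nat_lit 2327) l1 .e) s0_87))))))))))))))))))))))))))))))

noncomputable def s0_85 : Ss := (.s (.c (nat_lit 1873) l2 .e) (.s (.c (nat_lit 1402) l3 .e) (.s (.c (nat_lit 956) l3 .e) (.s (.c (nat_lit 1632) l2 .e) (.s (.c (nat_lit 707) l3 .e) (.s (.c (nat_lit 2361) l1 .e) (.s (.c (nat_lit 1191) l0 .e) (.s (.c (nat_lit 1875) l3 .e) (.s (.c (nat_lit 1288) l2 .e) (.s (.c (nat_lit 2603) l2 .e) (.s (.c (nat_lit 136) l3 .e) (.s (.c (nat_lit 245) l2 .e) (.s (.c (nat_lit 786) l3 .e) (.s (.c (nat_lit 2209) l1 .e) (.s (.c (nat_lit 2495) l0 .e) (.s (.c (nat_lit 1986) l0 .e) (.s (.c (nat_lit 1650) l3 .e) (.s (.c (nat_lit 1490) l0 .e) (.s (.c (nat_lit 2399) l3 .e) (.s (.c (nat_lit 2710) l2 .e) (.s (.c (nat_lit 1857) l0 .e) (.s (.c (nat_lit 1046) l2 .e) (.s (.c (nat_lit 652) l0 .e) (.s (.c (nat_lit 1492) l3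 .e) (.s (.c (nat_lit 1272) l1 .e) (.s (.c (nat_lit 595) l2 .e) (.s (.c (nat_lit 295) l2 .e) (.s (.c (nat_lit 2349) l0 .e) (.s (.c (nat_lit 2683) l0 .e) (.s (.c (nat_lit 140) l3 .e) s0_86))))))))))))))))))))))))))))))

noncomputable def s0_84 : Ss := (.s (.c (nat_lit 2691) l2 .e) (.s (.c (nat_lit 1239) l2 .e) (.s (.c (nat_lit 2009) l1 .e) (.s (.c (nat_lit 1186) l2 .e) (.s (.c (nat_lit 117) l3 .e) (.s (.c (nat_lit 1212) l2 .e) (.s (.c (nat_lit 2687) l1 .e) (.s (.c (nat_lit 1416) l0 .e) (.s (.c (nat_lit 2687) l0 .e) (.s (.c (nat_lit 757) l3 .e) (.s (.c (nat_lit 2433) l2 .e) (.s (.c (nat_lit 95) l3 .e) (.s (.c (nat_lit 747) l0 .e) (.s (.c (nat_lit 2416) l2 .e) (.s (.c (nat_lit 488) l1 .e) (.s (.c (nat_lit 293) l1 .e) (.s (.c (nat_lit 2558) l3 .e) (.s (.c (nat_lit 1264) l0 .e) (.s (.c (nat_lit 246) l1 .e) (.s (.c (nat_lit 659) l3 .e) (.s (.c (nat_lit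 1530) l3 .e) (.s (.c (nat_lit 1453) l0 .e) (.s (.c (nat_lit 943) l3 .e) (.s (.c (nat_lit 607) l0 .e) (.s (.c (nat_lit 2168) l3 .e) (.s (.c (nat_lit 1111) l0 .e) (.s (.c (nat_lit 2694) l1 .e) (.s (.c (nat_lit 2334) l0 .e) (.s (.c (nat_lit 1161) l0 .e) (.s (.c (nat_lit 906) l3 .e) s0_85))))))))))))))))))))))))))))))

noncomputable def s0_83 : Ss := (.s (.c (nat_lit 1110) l3 .e) (.s (.c (nat_lit 1943) l1 .e) (.s (.c (nat_lit 2573) l0 .e) (.s (.c (nat_lit 1411) l3 .e) (.s (.c (nat_lit 271) l3 .e) (.s (.c (nat_lit 1994) l1 .e) (.s (.c (nat_lit 1849) l2 .e) (.s (.c (nat_lit 834) l3 .e) (.s (.c (nat_lit 813) l0 .e) (.s (.c (nat_lit 2544) l0 .e) (.s (.c (nat_lit 1491) l0 .e) (.s (.c (nat_lit 802) l2 .e) (.s (.c (nat_lit 1227) l3 .e) (.s (.c (nat_lit 2004) l3 .e) (.s (.c (nat_lit 2410) l3 .e) (.s (.c (nat_lit 1965) l1 .e) (.s (.c (nat_lit 2337) l0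 .e) (.s (.c (nat_lit 2533) l2 .e) (.s (.c (nat_lit 2415) l3 .e) (.s (.c (nat_lit 609) l1 .e) (.s (.c (nat_lit 1782) l0 .e) (.s (.c (nat_lit 813) l3 .e) (.s (.c (nat_lit 1258) l3 .e) (.s (.c (nat_lit 1151) l2 .e) (.s (.c (nat_lit 606) l2 .e) (.s (.c (nat_lit 2404) l2 .e) (.s (.c (nat_lit 1427) l0 .e) (.s (.c (nat_lit 2235) l3 .e) (.s (.c (nat_lit 1004) l0 .e) (.s (.c (nat_lit 1888) l2 .e) s0_84))))))))))))))))))))))))))))))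

noncomputable def s0_82 : Ss := (.s (.c (nat_lit 2513) l0 .e) (.s (.c (nat_lit 1830) l3 .e) (.s (.c (nat_lit 2004) l2 .e) (.s (.c (nat_lit 1336) l3 .e) (.s (.c (nat_lit 2295) l1 .e) (.s (.c (nat_lit 1987) l1 .e) (.s (.c (nat_lit 1798) l1 .e) (.s (.c (nat_lit 1504) l3 .e) (.s (.c (nat_lit 790) l3 .e) (.s (.c (nat_lit 1456) l0 .e) (.s (.c (nat_lit 2435) l2 .e) (.s (.c (nat_lit 2592) l3 .e) (.s (.c (nat_lit 2567) l3 .e) (.s (.c (nat_lit 1574) l0 .e) (.s (.c (nat_lit 2731) l1 .e) (.s (.c (nat_lit 1761) l2 .e) (.s (.c (nat_lit 308) l3 .e) (.s (.c (nat_lit 88) l3 .e) (.s (.c (nat_lit 141) l0 .e) (.s (.c (nat_lit 1573) l0 .e) (.s (.c (nat_lit 651) l3 .e) (.s (.c (nat_lit 2384) l3 .e) (.s (.c (nat_lit 2189) l1 .e) (.s (.c (nat_lit 2035) l3 .e) (.s (.c (nat_lit 963) l3 .e) (.s (.c (nat_lit 1599) l3 .e) (.s (.c (nat_lit 1998) l0 .e) (.s (.c (nat_lit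 176) l3 .e) (.s (.c (nat_lit 2519) l0 .e) (.s (.c (nat_lit 1040) l2 .e) s0_83))))))))))))))))))))))))))))))

noncomputable def s0_81 : Ss := (.s (.c (nat_lit 899) l2 .e) (.s (.c (nat_lit 1583) l3 .e) (.s (.c (nat_lit 306) l3 .e) (.s (.c (nat_lit 1098) l3 .e) (.s (.c (nat_lit 928) l3 .e) (.s (.c (nat_lit 1859) l1 .e) (.s (.c (nat_lit 1333) l0 .e) (.s (.c (nat_lit 1421) l2 .e) (.s (.c (nat_lit 2545) l0 .e) (.s (.c (nat_lit 729) l0 .e) (.s (.c (nat_lit 2446) l0 .e) (.s (.c (nat_lit 2209) l2 .e) (.s (.c (nat_lit 2587) l3 .e) (.s (.c (nat_lit 2412) l1 .e) (.s (.c (nat_lit 1396) l1 .e) (.s (.c (nat_lit 2200) l0 .e) (.s (.c (nat_lit 754) l3 .e) (.s (.c (nat_lit 1295) l1 .e) (.s (.c (nat_lit 2499) l0 .e) (.s (.c (nat_lit 2385) l3 .e) (.s (.c (nat_lit 591) l3 .e) (.s (.c (nat_lit 916) l0 .e) (.s (.c (nat_lit 2165) l3 .e) (.s (.c (nat_lit 1856) l3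 .e) (.s (.c (nat_lit 1397) l3 .e) (.s (.c (nat_lit 2478) l0 .e) (.s (.c (nat_lit 901) l2 .e) (.s (.c (nat_lit 1841) l1 .e) (.s (.c (nat_lit 2380) l0 .e) (.s (.c (nat_lit 1136) l1 .e) s0_82))))))))))))))))))))))))))))))

noncomputable def s0_80 : Ss := (.s (.c (nat_lit 1218) l2 .e) (.s (.c (nat_lit 338) l2 .e) (.s (.c (nat_lit 460) l0 .e) (.s (.c (nat_lit 2068) l2 .e) (.s (.c (nat_lit 1366) l3 .e) (.s (.c (nat_lit 927) l2 .e) (.s (.c (nat_lit 1815) l2 .e) (.s (.c (nat_lit 1825) l2 .e) (.s (.c (nat_lit 2286) l0 .e) (.s (.c (nat_lit 1395) l0 .e) (.s (.c (nat_lit 2065) l1 .e) (.s (.c (nat_lit 1547) l0 .e) (.s (.c (nat_lit 981) l1 .e) (.s (.c (nat_lit 1188) l0 .e) (.s (.c (nat_lit 2319) l2 .e) (.s (.c (nat_lit 1298) l3 .e) (.s (.c (nat_lit 1056) l1 .e) (.s (.c (nat_lit 1150) l1 .e) (.s (.c (nat_lit 2410) l2 .e) (.s (.c (nat_lit 685) l3 .e) (.s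 (.c (nat_lit 2304) l2 .e) (.s (.c (nat_lit 1143) l2 .e) (.s (.c (nat_lit 1938) l0 .e) (.s (.c (nat_lit 2107) l2 .e) (.s (.c (nat_lit 602) l2 .e) (.s (.c (nat_lit 1957) l0 .e) (.s (.c (nat_lit 130) l2 .e) (.s (.c (nat_lit 2474) l0 .e) (.s (.c (nat_lit 1726) l0 .e) (.s (.c (nat_lit 2007) l3 .e) s0_81))))))))))))))))))))))))))))))

noncomputable def s0_79 : Ss := (.s (.c (nat_lit 1262) l0 .e) (.s (.c (nat_lit 1528) l0 .e) (.s (.c (nat_lit 949) l3 .e) (.s (.c (nat_lit 1287) l3 .e) (.s (.c (nat_lit 2422) l1 .e) (.s (.c (nat_lit 1420) l3 .e) (.s (.c (nat_lit 2281) l3 .e) (.s (.c (nat_lit 916) l3 .e) (.s (.c (nat_lit 1389) l0 .e) (.s (.c (nat_lit 329) l1 .e) (.s (.c (nat_lit 1350) l1 .e) (.s (.c (nat_lit 1157) l3 .e) (.s (.c (nat_lit 2728) l1 .e) (.s (.c (nat_lit 2692) l3 .e) (.s (.c (nat_lit 623) l0 .e) (.s (.c (nat_lit 2523) l0 .e) (.s (.c (nat_lit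 2204) l1 .e) (.s (.c (nat_lit 1659) l1 .e) (.s (.c (nat_lit 2418) l0 .e) (.s (.c (nat_lit 2558) l1 .e) (.s (.c (nat_lit 2488) l0 .e) (.s (.c (nat_lit 1033) l3 .e) (.s (.c (nat_lit 966) l3 .e) (.s (.c (nat_lit 2232) l1 .e) (.s (.c (nat_lit 2468) l2 .e) (.s (.c (nat_lit 1437) l3 .e) (.s (.c (nat_lit 2537) l2 .e) (.s (.c (nat_lit 2552) l1 .e) (.s (.c (nat_lit 2151) l1 .e) (.s (.c (nat_lit 1425) l0 .e) s0_80))))))))))))))))))))))))))))))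

noncomputable def s0_78 : Ss := (.s (.c (nat_lit 1654) l0 .e) (.s (.c (nat_lit 1296) l1 .e) (.s (.c (nat_lit 2420) l2 .e) (.s (.c (nat_lit 2569) l3 .e) (.s (.c (nat_lit 2151) l2 .e) (.s (.c (nat_lit 1860) l0 .e) (.s (.c (nat_lit 2438) l3 .e) (.s (.c (nat_lit 1810) l3 .e) (.s (.c (nat_lit 2620) l2 .e) (.s (.c (nat_lit 1809) l3 .e) (.s (.c (nat_lit 1376) l0 .e) (.s (.c (nat_lit 2460) l3 .e) (.s (.c (nat_lit 2156) l1 .e) (.s (.c (nat_lit 1854) l2 .e) (.s (.c (nat_lit 2279) l0 .e) (.s (.c (nat_lit 792) l1 .e) (.s (.c (nat_lit 1082) l2 .e) (.s (.c (nat_lit 571) l3 .e) (.s (.c (nat_lit 1611) l2 .e) (.s (.c (nat_lit 488) l2 .e) (.s (.c (nat_lit 2468) l0 .e) (.s (.c (nat_lit 1668) l0 .e) (.s (.c (nat_lit 2134) l1 .e) (.s (.c (nat_lit 692) l3 .e) (.s (.c (nat_lit 290) l3 .e) (.s (.c (nat_lit 2203) l1 .e) (.s (.c (nat_lit 2556) l2 .e) (.s (.c (nat_lit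 2063) l2 .e) (.s (.c (nat_lit 691) l3 .e) (.s (.c (nat_lit 1714) l0 .e) s0_79))))))))))))))))))))))))))))))

noncomputable def s0_77 : Ss := (.s (.c (nat_lit 1933) l1 .e) (.s (.c (nat_lit 2131) l3 .e) (.s (.c (nat_lit 2585) l2 .e) (.s (.c (nat_lit 1024) l3 .e) (.s (.c (nat_lit 1966) l0 .e) (.s (.c (nat_lit 351) l3 .e) (.s (.c (nat_lit 1058) l0 .e) (.s (.c (nat_lit 1952) l3 .e) (.s (.c (nat_lit 1699) l2 .e) (.s (.c (nat_lit 2428) l2 .e) (.s (.c (nat_lit 2415) l0 .e) (.s (.c (nat_lit 1450) l3 .e) (.s (.c (nat_lit 1483) l1 .e) (.s (.c (nat_lit 1008) l3 .e) (.s (.c (nat_lit 2348) l1 .e) (.s (.c (nat_lit 2353) l0 .e) (.s (.c (nat_lit 1892) l0 .e) (.s (.c (nat_lit 930) l1 .e) (.s (.c (nat_lit 1265) l3 .e) (.s (.c (nat_lit 1992) l3 .e) (.s (.c (nat_lit 2655) l0 .e) (.s (.c (nat_lit 2439) l2 .e) (.s (.c (nat_lit 2428) l1 .e) (.s (.c (nat_lit 2644)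 l1 .e) (.s (.c (nat_lit 2003) l3 .e) (.s (.c (nat_lit 1396) l3 .e) (.s (.c (nat_lit 2695) l2 .e) (.s (.c (nat_lit 1618) l0 .e) (.s (.c (nat_lit 1018) l2 .e) (.s (.c (nat_lit 1701) l0 .e) s0_78))))))))))))))))))))))))))))))

noncomputable def s0_76 : Ss := (.s (.c (nat_lit 871) l2 .e) (.s (.c (nat_lit 2105) l0 .e) (.s (.c (nat_lit 2152) l2 .e) (.s (.c (nat_lit 1457) l3 .e) (.s (.c (nat_lit 2347) l0 .e) (.s (.c (nat_lit 2599) l1 .e) (.s (.c (nat_lit 2144) l2 .e) (.s (.c (nat_lit 663) l0 .e) (.s (.c (nat_lit 2730) l2 .e) (.s (.c (nat_lit 1006) l0 .e) (.s (.c (nat_lit 282) l0 .e) (.s (.c (nat_lit 2550) l3 .e) (.s (.c (nat_lit 2405) l1 .e) (.s (.c (nat_lit 2566) l1 .e) (.s (.c (nat_lit 1555) l0 .e) (.s (.c (nat_lit 1564) l3 .e) (.s (.c (nat_lit 1372) l3 .e) (.s (.c (nat_lit 2392) l1 .e) (.s (.c (nat_lit 586) l3 .e) (.s (.c (nat_lit 2708) l1 .e)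 (.s (.c (nat_lit 1270) l0 .e) (.s (.c (nat_lit 275) l3 .e) (.s (.c (nat_lit 1454) l2 .e) (.s (.c (nat_lit 764) l3 .e) (.s (.c (nat_lit 1111) l2 .e) (.s (.c (nat_lit 2193) l3 .e) (.s (.c (nat_lit 2344) l2 .e) (.s (.c (nat_lit 1078) l0 .e) (.s (.c (nat_lit 1934) l2 .e) (.s (.c (nat_lit 2360) l0 .e) s0_77))))))))))))))))))))))))))))))

noncomputable def s0_75 : Ss := (.s (.c (nat_lit 1950) l3 .e) (.s (.c (nat_lit 2014) l2 .e) (.s (.c (nat_lit 2601) l0 .e) (.s (.c (nat_lit 2656) l0 .e) (.s (.c (nat_lit 2379) l2 .e) (.s (.c (nat_lit 2684) l0 .e) (.s (.c (nat_lit 2539) l2 .e) (.s (.c (nat_lit 2226) l3 .e) (.s (.c (nat_lit 736) l1 .e) (.s (.c (nat_lit 2686) l0 .e) (.s (.c (nat_lit 2529) l2 .e) (.s (.c (nat_lit 2706) l3 .e) (.s (.c (nat_lit 2299) l0 .e) (.s (.c (nat_lit 1739) l3 .e) (.s (.c (nat_lit 1853) l2 .e) (.s (.c (nat_lit 427) l1 .e) (.s (.c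 (nat_lit 2413) l3 .e) (.s (.c (nat_lit 594) l3 .e) (.s (.c (nat_lit 2207) l0 .e) (.s (.c (nat_lit 1026) l0 .e) (.s (.c (nat_lit 1323) l2 .e) (.s (.c (nat_lit 1127) l3 .e) (.s (.c (nat_lit 2443) l0 .e) (.s (.c (nat_lit 1580) l2 .e) (.s (.c (nat_lit 1797) l2 .e) (.s (.c (nat_lit 870) l0 .e) (.s (.c (nat_lit 1485) l3 .e) (.s (.c (nat_lit 1621) l1 .e) (.s (.c (nat_lit 2148) l3 .e) (.s (.c (nat_lit 2348) l2 .e) s0_76))))))))))))))))))))))))))))))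

noncomputable def s0_74 : Ss := (.s (.c (nat_lit 396) l3 .e) (.s (.c (nat_lit 2646) l2 .e) (.s (.c (nat_lit 2655) l2 .e) (.s (.c (nat_lit 2189) l3 .e) (.s (.c (nat_lit 175) l3 .e) (.s (.c (nat_lit 1442) l1 .e) (.s (.c (nat_lit 2262) l2 .e) (.s (.c (nat_lit 2103) l3 .e) (.s (.c (nat_lit 2586) l3 .e) (.s (.c (nat_lit 251) l3 .e) (.s (.c (nat_lit 953) l3 .e) (.s (.c (nat_lit 1664) l3 .e) (.s (.c (nat_lit 2156) l2 .e) (.s (.c (nat_lit 1979) l2 .e) (.s (.c (nat_lit 2453) l3 .e) (.s (.c (nat_lit 2525) l3 .e) (.s (.c (nat_lit 2647) l0 .e) (.s (.c (nat_lit 2266) l0 .e) (.s (.c (nat_lit 2464) l1 .e) (.s (.c (nat_lit 814) l1 .e) (.s (.c (nat_lit 540) l3 .e) (.s (.c (nat_lit 2613) l1 .e) (.s (.c (nat_lit 1095) l1 .e) (.s (.c (nat_lit 1002) l3 .e) (.s (.c (nat_lit 2260) l3 .e) (.s (.c (nat_lit 2414) l1 .e) (.s (.c (nat_lit 2411) l0 .e) (.s (.c (nat_lit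 2126) l2 .e) (.s (.c (nat_lit 1848) l1 .e) (.s (.c (nat_lit 2618) l3 .e) s0_75))))))))))))))))))))))))))))))

noncomputable def s0_73 : Ss := (.s (.c (nat_lit 1242) l3 .e) (.s (.c (nat_lit 1368) l2 .e) (.s (.c (nat_lit 608) l3 .e) (.s (.c (nat_lit 1071) l3 .e) (.s (.c (nat_lit 1844) l3 .e) (.s (.c (nat_lit 1860) l3 .e) (.s (.c (nat_lit 544) l1 .e) (.s (.c (nat_lit 2368) l3 .e) (.s (.c (nat_lit 1618) l3 .e) (.s (.c (nat_lit 2024) l1 .e) (.s (.c (nat_lit 857) l0 .e) (.s (.c (nat_lit 864) l2 .e) (.s (.c (nat_lit 1843) l1 .e) (.s (.c (nat_lit 1519) l1 .e) (.s (.c (nat_lit 2104) l3 .e) (.s (.c (nat_lit 2492) l2 .e) (.s (.c (nat_lit 681) l1 .e) (.s (.c (nat_lit 1890) l3 .e) (.s (.c (nat_lit 1939) l3 .e) (.s (.c (nat_lit 898) l3 .e) (.s (.c (nat_lit 1529) l3 .e) (.s (.c (nat_lit 1281) l3 .e) (.s (.c (nat_lit 932) l0 .e) (.s (.c (nat_lit 1606) l1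 .e) (.s (.c (nat_lit 1055) l3 .e) (.s (.c (nat_lit 513) l0 .e) (.s (.c (nat_lit 952) l3 .e) (.s (.c (nat_lit 2274) l2 .e) (.s (.c (nat_lit 2110) l1 .e) (.s (.c (nat_lit 1886) l1 .e) s0_74))))))))))))))))))))))))))))))

noncomputable def s0_72 : Ss := (.s (.c (nat_lit 2682) l1 .e) (.s (.c (nat_lit 2471) l3 .e) (.s (.c (nat_lit 2496) l3 .e) (.s (.c (nat_lit 2620) l0 .e) (.s (.c (nat_lit 1277) l0 .e) (.s (.c (nat_lit 2395) l0 .e) (.s (.c (nat_lit 2133) l2 .e) (.s (.c (nat_lit 2551) l0 .e) (.s (.c (nat_lit 2724) l2 .e) (.s (.c (nat_lit 1249) l2 .e) (.s (.c (nat_lit 1254) l0 .e) (.s (.c (nat_lit 490) l0 .e) (.s (.c (nat_lit 411) l3 .e) (.s (.c (nat_lit 1612) l3 .e) (.s (.c (nat_lit 1629) l2 .e) (.s (.c (nat_lit 485) l0 .e) (.s (.c (nat_lit 2128) l2 .e) (.s (.c (nat_lit 102) l3 .e) (.s (.c (nat_lit 2257) l3 .e) (.s (.c (nat_lit 876) l3 .e) (.s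 (.c (nat_lit 1192) l1 .e) (.s (.c (nat_lit 1649) l0 .e) (.s (.c (nat_lit 2688) l2 .e) (.s (.c (nat_lit 1172) l3 .e) (.s (.c (nat_lit 1388) l1 .e) (.s (.c (nat_lit 303) l3 .e) (.s (.c (nat_lit 698) l1 .e) (.s (.c (nat_lit 2465) l2 .e) (.s (.c (nat_lit 2566) l3 .e) (.s (.c (nat_lit 1386) l0 .e) s0_73))))))))))))))))))))))))))))))

noncomputable def s0_71 : Ss := (.s (.c (nat_lit 2081) l3 .e) (.s (.c (nat_lit 1430) l2 .e) (.s (.c (nat_lit 1954) l2 .e) (.s (.c (nat_lit 2172) l2 .e) (.s (.c (nat_lit 2400) l2 .e) (.s (.c (nat_lit 1937) l3 .e) (.s (.c (nat_lit 2648) l3 .e) (.s (.c (nat_lit 1276) l2 .e) (.s (.c (nat_lit 2640) l0 .e) (.s (.c (nat_lit 802) l3 .e) (.s (.c (nat_lit 2569) l0 .e) (.s (.c (nat_lit 401) l3 .e) (.s (.c (nat_lit 2422) l0 .e) (.s (.c (nat_lit 1915) l0 .e) (.s (.c (nat_lit 111) l3 .e) (.s (.c (nat_lit 1769) l2 .e) (.s (.c (nat_lit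 2624) l3 .e) (.s (.c (nat_lit 1077) l2 .e) (.s (.c (nat_lit 1158) l3 .e) (.s (.c (nat_lit 1179) l1 .e) (.s (.c (nat_lit 2117) l2 .e) (.s (.c (nat_lit 2483) l0 .e) (.s (.c (nat_lit 1117) l3 .e) (.s (.c (nat_lit 919) l3 .e) (.s (.c (nat_lit 2119) l2 .e) (.s (.c (nat_lit 2638) l2 .e) (.s (.c (nat_lit 663) l2 .e) (.s (.c (nat_lit 935) l2 .e) (.s (.c (nat_lit 479) l1 .e) (.s (.c (nat_lit 1588) l1 .e) s0_72))))))))))))))))))))))))))))))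

noncomputable def s0_70 : Ss := (.s (.c (nat_lit 1442) l3 .e) (.s (.c (nat_lit 2730) l3 .e) (.s (.c (nat_lit 1294) l0 .e) (.s (.c (nat_lit 1804) l2 .e) (.s (.c (nat_lit 2311) l2 .e) (.s (.c (nat_lit 1222) l3 .e) (.s (.c (nat_lit 1968) l3 .e) (.s (.c (nat_lit 2080) l0 .e) (.s (.c (nat_lit 716) l0 .e) (.s (.c (nat_lit 2190) l1 .e) (.s (.c (nat_lit 2194) l3 .e) (.s (.c (nat_lit 1394) l2 .e) (.s (.c (nat_lit 2017) l0 .e) (.s (.c (nat_lit 662) l3 .e) (.s (.c (nat_lit 1450) l2 .e) (.s (.c (nat_lit 2191) l0 .e) (.s (.c (nat_lit 2656) l1 .e) (.s (.c (nat_lit 1323) l1 .e) (.s (.c (nat_lit 2387) l0 .e) (.s (.c (nat_lit 1566) l3 .e) (.s (.c (nat_lit 2506) l2 .e) (.s (.c (nat_lit 2064) l0 .e) (.s (.c (nat_lit 2520) l1 .e) (.s (.c (nat_lit 1892) l3 .e) (.s (.c (nat_lit 2281) l1 .e) (.s (.c (nat_lit 789) l3 .e) (.s (.c (nat_lit 1563) l0 .e) (.s (.c (nat_lit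 667) l3 .e) (.s (.c (nat_lit 911) l3 .e) (.s (.c (nat_lit 826) l2 .e) s0_71))))))))))))))))))))))))))))))

noncomputable def s0_69 : Ss := (.s (.c (nat_lit 1829) l1 .e) (.s (.c (nat_lit 755) l2 .e) (.s (.c (nat_lit 1915) l1 .e) (.s (.c (nat_lit 1548) l2 .e) (.s (.c (nat_lit 1240) l0 .e) (.s (.c (nat_lit 2456) l1 .e) (.s (.c (nat_lit 1069) l2 .e) (.s (.c (nat_lit 1109) l3 .e) (.s (.c (nat_lit 2211) l3 .e) (.s (.c (nat_lit 603) l2 .e) (.s (.c (nat_lit 2489) l2 .e) (.s (.c (nat_lit 2422) l3 .e) (.s (.c (nat_lit 1439) l0 .e) (.s (.c (nat_lit 960) l3 .e) (.s (.c (nat_lit 1372) l2 .e) (.s (.c (nat_lit 2038) l3 .e) (.s (.c (nat_lit 1810) l2 .e) (.s (.c (nat_lit 1487) l3 .e) (.s (.c (nat_lit 869) l1 .e) (.s (.c (nat_lit 2134) l2 .e) (.s (.c (nat_lit 2449) l0 .e) (.s (.c (nat_lit 2597) l0 .e) (.s (.c (nat_lit 344) l3 .e) (.s (.c (nat_lit 2295) l3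 .e) (.s (.c (nat_lit 385) l3 .e) (.s (.c (nat_lit 1826) l3 .e) (.s (.c (nat_lit 1213) l0 .e) (.s (.c (nat_lit 2457) l2 .e) (.s (.c (nat_lit 194) l2 .e) (.s (.c (nat_lit 2151) l3 .e) s0_70))))))))))))))))))))))))))))))

noncomputable def s0_68 : Ss := (.s (.c (nat_lit 2445) l1 .e) (.s (.c (nat_lit 1535) l0 .e) (.s (.c (nat_lit 2526) l2 .e) (.s (.c (nat_lit 2566) l2 .e) (.s (.c (nat_lit 2098) l3 .e) (.s (.c (nat_lit 1914) l3 .e) (.s (.c (nat_lit 1428) l0 .e) (.s (.c (nat_lit 2586) l0 .e) (.s (.c (nat_lit 737) l3 .e) (.s (.c (nat_lit 2630) l2 .e) (.s (.c (nat_lit 1758) l3 .e) (.s (.c (nat_lit 2575) l3 .e) (.s (.c (nat_lit 1608) l3 .e) (.s (.c (nat_lit 2184) l3 .e) (.s (.c (nat_lit 2111) l1 .e) (.s (.c (nat_lit 1424) l0 .e) (.s (.c (nat_lit 887) l0 .e) (.s (.c (nat_lit 391) l3 .e) (.s (.c (nat_lit 2239) l0 .e) (.s (.c (nat_lit 2248) l2 .e) (.s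 (.c (nat_lit 1766) l3 .e) (.s (.c (nat_lit 2220) l2 .e) (.s (.c (nat_lit 2244) l1 .e) (.s (.c (nat_lit 942) l3 .e) (.s (.c (nat_lit 1361) l1 .e) (.s (.c (nat_lit 858) l2 .e) (.s (.c (nat_lit 2661) l1 .e) (.s (.c (nat_lit 2362) l3 .e) (.s (.c (nat_lit 2305) l0 .e) (.s (.c (nat_lit 2003) l0 .e) s0_69))))))))))))))))))))))))))))))

noncomputable def s0_67 : Ss := (.s (.c (nat_lit 2092) l2 .e) (.s (.c (nat_lit 1051) l1 .e) (.s (.c (nat_lit 2160) l2 .e) (.s (.c (nat_lit 1717) l1 .e) (.s (.c (nat_lit 1629) l3 .e) (.s (.c (nat_lit 1264) l1 .e) (.s (.c (nat_lit 1253) l1 .e) (.s (.c (nat_lit 1969) l2 .e) (.s (.c (nat_lit 2694) l3 .e) (.s (.c (nat_lit 2609) l2 .e) (.s (.c (nat_lit 1764) l2 .e) (.s (.c (nat_lit 1135) l3 .e) (.s (.c (nat_lit 658) l2 .e) (.s (.c (nat_lit 1789) l3 .e) (.s (.c (nat_lit 85) l3 .e) (.s (.c (nat_lit 1875) l2 .e) (.s (.c (nat_lit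 1222) l2 .e) (.s (.c (nat_lit 1556) l2 .e) (.s (.c (nat_lit 1027) l3 .e) (.s (.c (nat_lit 2055) l0 .e) (.s (.c (nat_lit 382) l1 .e) (.s (.c (nat_lit 1497) l1 .e) (.s (.c (nat_lit 2438) l2 .e) (.s (.c (nat_lit 2135) l3 .e) (.s (.c (nat_lit 1832) l3 .e) (.s (.c (nat_lit 2462) l3 .e) (.s (.c (nat_lit 1305) l3 .e) (.s (.c (nat_lit 1956) l3 .e) (.s (.c (nat_lit 768) l3 .e) (.s (.c (nat_lit 2436) l0 .e) s0_68))))))))))))))))))))))))))))))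

noncomputable def s0_66 : Ss := (.s (.c (nat_lit 609) l2 .e) (.s (.c (nat_lit 1274) l3 .e) (.s (.c (nat_lit 542) l2 .e) (.s (.c (nat_lit 2031) l0 .e) (.s (.c (nat_lit 919) l1 .e) (.s (.c (nat_lit 880) l3 .e) (.s (.c (nat_lit 2100) l1 .e) (.s (.c (nat_lit 2667) l1 .e) (.s (.c (nat_lit 1947) l2 .e) (.s (.c (nat_lit 1336) l1 .e) (.s (.c (nat_lit 1417) l2 .e) (.s (.c (nat_lit 1043) l3 .e) (.s (.c (nat_lit 2158) l3 .e) (.s (.c (nat_lit 801) l3 .e) (.s (.c (nat_lit 1386) l1 .e) (.s (.c (nat_lit 2115) l0 .e) (.s (.c (nat_lit 2448) l2 .e) (.s (.c (nat_lit 838) l3 .e) (.s (.c (nat_lit 633) l1 .e) (.s (.c (nat_lit 2170) l0 .e) (.s (.c (nat_lit 746) l1 .e) (.s (.c (nat_lit 1849) l3 .e) (.s (.c (nat_lit 2719) l1 .e) (.s (.c (nat_lit 2731) l2 .e) (.s (.c (nat_lit 2085) l3 .e) (.s (.c (nat_lit 517) l3 .e) (.s (.c (nat_lit 1191) l3 .e) (.s (.c (nat_lit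 996) l1 .e) (.s (.c (nat_lit 1945) l2 .e) (.s (.c (nat_lit 1210) l3 .e) s0_67))))))))))))))))))))))))))))))

noncomputable def s0_65 : Ss := (.s (.c (nat_lit 2650) l3 .e) (.s (.c (nat_lit 386) l3 .e) (.s (.c (nat_lit 2111) l2 .e) (.s (.c (nat_lit 2724) l3 .e) (.s (.c (nat_lit 1893) l2 .e) (.s (.c (nat_lit 2671) l3 .e) (.s (.c (nat_lit 1164) l2 .e) (.s (.c (nat_lit 1891) l1 .e) (.s (.c (nat_lit 1134) l3 .e) (.s (.c (nat_lit 1909) l3 .e) (.s (.c (nat_lit 657) l0 .e) (.s (.c (nat_lit 1890) l2 .e) (.s (.c (nat_lit 2321) l2 .e) (.s (.c (nat_lit 596) l0 .e) (.s (.c (nat_lit 986) l3 .e) (.s (.c (nat_lit 1263) l3 .e) (.s (.c (nat_lit 910) l3 .e) (.s (.c (nat_lit 1509) l0 .e) (.s (.c (nat_lit 1956) l2 .e) (.s (.c (nat_lit 2565) l0 .e) (.s (.c (nat_lit 434) l3 .e) (.s (.c (nat_lit 2700) l1 .e) (.s (.c (nat_lit 2695) l0 .e) (.s (.c (nat_lit 1523) l3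 .e) (.s (.c (nat_lit 489) l3 .e) (.s (.c (nat_lit 2060) l0 .e) (.s (.c (nat_lit 640) l1 .e) (.s (.c (nat_lit 1406) l3 .e) (.s (.c (nat_lit 1480) l1 .e) (.s (.c (nat_lit 1430) l0 .e) s0_66))))))))))))))))))))))))))))))

noncomputable def s0_64 : Ss := (.s (.c (nat_lit 2191) l3 .e) (.s (.c (nat_lit 322) l3 .e) (.s (.c (nat_lit 655) l2 .e) (.s (.c (nat_lit 1965) l3 .e) (.s (.c (nat_lit 2038) l1 .e) (.s (.c (nat_lit 763) l3 .e) (.s (.c (nat_lit 1257) l1 .e) (.s (.c (nat_lit 2717) l2 .e) (.s (.c (nat_lit 2661) l2 .e) (.s (.c (nat_lit 1838) l3 .e) (.s (.c (nat_lit 1391) l2 .e) (.s (.c (nat_lit 674) l3 .e) (.s (.c (nat_lit 2654) l2 .e) (.s (.c (nat_lit 921) l3 .e) (.s (.c (nat_lit 2509) l3 .e) (.s (.c (nat_lit 1518) l1 .e) (.s (.c (nat_lit 1825) l3 .e) (.s (.c (nat_lit 2208) l3 .e) (.s (.c (nat_lit 1569) l3 .e) (.s (.c (nat_lit 1606) l2 .e) (.s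 (.c (nat_lit 1407) l2 .e) (.s (.c (nat_lit 2074) l1 .e) (.s (.c (nat_lit 2711) l2 .e) (.s (.c (nat_lit 1273) l0 .e) (.s (.c (nat_lit 688) l2 .e) (.s (.c (nat_lit 2283) l1 .e) (.s (.c (nat_lit 1888) l0 .e) (.s (.c (nat_lit 1712) l0 .e) (.s (.c (nat_lit 1287) l2 .e) (.s (.c (nat_lit 2624) l1 .e) s0_65))))))))))))))))))))))))))))))

noncomputable def s0_63 : Ss := (.s (.c (nat_lit 2371) l2 .e) (.s (.c (nat_lit 972) l1 .e) (.s (.c (nat_lit 1705) l3 .e) (.s (.c (nat_lit 2157) l2 .e) (.s (.c (nat_lit 2634) l3 .e) (.s (.c (nat_lit 1509) l3 .e) (.s (.c (nat_lit 2532) l2 .e) (.s (.c (nat_lit 1279) l2 .e) (.s (.c (nat_lit 785) l3 .e) (.s (.c (nat_lit 908) l3 .e) (.s (.c (nat_lit 896) l1 .e) (.s (.c (nat_lit 575) l3 .e) (.s (.c (nat_lit 1943) l0 .e) (.s (.c (nat_lit 558) l1 .e) (.s (.c (nat_lit 1702) l1 .e) (.s (.c (nat_lit 2322) l2 .e) (.s (.c (nat_lit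 426) l0 .e) (.s (.c (nat_lit 1604) l3 .e) (.s (.c (nat_lit 1987) l3 .e) (.s (.c (nat_lit 1873) l1 .e) (.s (.c (nat_lit 1257) l3 .e) (.s (.c (nat_lit 2701) l2 .e) (.s (.c (nat_lit 1498) l2 .e) (.s (.c (nat_lit 1088) l3 .e) (.s (.c (nat_lit 2373) l2 .e) (.s (.c (nat_lit 354) l2 .e) (.s (.c (nat_lit 2230) l2 .e) (.s (.c (nat_lit 2709) l1 .e) (.s (.c (nat_lit 131) l2 .e) (.s (.c (nat_lit 1542) l3 .e) s0_64))))))))))))))))))))))))))))))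

noncomputable def s0_62 : Ss := (.s (.c (nat_lit 1079) l3 .e) (.s (.c (nat_lit 1138) l2 .e) (.s (.c (nat_lit 835) l0 .e) (.s (.c (nat_lit 2644) l0 .e) (.s (.c (nat_lit 2699) l0 .e) (.s (.c (nat_lit 1015) l2 .e) (.s (.c (nat_lit 672) l2 .e) (.s (.c (nat_lit 1836) l0 .e) (.s (.c (nat_lit 1468) l1 .e) (.s (.c (nat_lit 1963) l1 .e) (.s (.c (nat_lit 1516) l3 .e) (.s (.c (nat_lit 2632) l0 .e) (.s (.c (nat_lit 2718) l2 .e) (.s (.c (nat_lit 2341) l3 .e) (.s (.c (nat_lit 872) l1 .e) (.s (.c (nat_lit 1968) l2 .e) (.s (.c (nat_lit 1615) l1 .e) (.s (.c (nat_lit 90) l3 .e) (.s (.c (nat_lit 2242) l0 .e) (.s (.c (nat_lit 1119) l1 .e) (.s (.c (nat_lit 2378) l0 .e) (.s (.c (nat_lit 1994) l2 .e) (.s (.c (nat_lit 407) l1 .e) (.s (.c (nat_lit 1394) l1 .e) (.s (.c (nat_lit 1795) l2 .e) (.s (.c (nat_lit 2549) l3 .e) (.s (.c (nat_lit 968) l2 .e) (.s (.c (nat_lit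 1610) l0 .e) (.s (.c (nat_lit 2099) l2 .e) (.s (.c (nat_lit 2536) l3 .e) s0_63))))))))))))))))))))))))))))))

noncomputable def s0_61 : Ss := (.s (.c (nat_lit 2700) l3 .e) (.s (.c (nat_lit 2628) l3 .e) (.s (.c (nat_lit 1889) l3 .e) (.s (.c (nat_lit 1491) l1 .e) (.s (.c (nat_lit 1802) l3 .e) (.s (.c (nat_lit 2678) l3 .e) (.s (.c (nat_lit 1908) l3 .e) (.s (.c (nat_lit 1194) l1 .e) (.s (.c (nat_lit 2697) l3 .e) (.s (.c (nat_lit 1834) l3 .e) (.s (.c (nat_lit 2579) l3 .e) (.s (.c (nat_lit 1053) l3 .e) (.s (.c (nat_lit 982) l3 .e) (.s (.c (nat_lit 1062) l2 .e) (.s (.c (nat_lit 1441) l0 .e) (.s (.c (nat_lit 2526) l1 .e) (.s (.c (nat_lit 2214) l2 .e) (.s (.c (nat_lit 839) l3 .e) (.s (.c (nat_lit 1568) l0 .e) (.s (.c (nat_lit 2705) l3 .e) (.s (.c (nat_lit 2404) l3 .e) (.s (.c (nat_lit 2614) l1 .e) (.s (.c (nat_lit 436) l1 .e) (.s (.c (nat_lit 2720)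 l3 .e) (.s (.c (nat_lit 1366) l0 .e) (.s (.c (nat_lit 2146) l3 .e) (.s (.c (nat_lit 1151) l3 .e) (.s (.c (nat_lit 2540) l1 .e) (.s (.c (nat_lit 2363) l1 .e) (.s (.c (nat_lit 1457) l2 .e) s0_62))))))))))))))))))))))))))))))

noncomputable def s0_60 : Ss := (.s (.c (nat_lit 1942) l3 .e) (.s (.c (nat_lit 437) l2 .e) (.s (.c (nat_lit 2692) l0 .e) (.s (.c (nat_lit 1476) l3 .e) (.s (.c (nat_lit 473) l3 .e) (.s (.c (nat_lit 1815) l0 .e) (.s (.c (nat_lit 1358) l1 .e) (.s (.c (nat_lit 2390) l1 .e) (.s (.c (nat_lit 1679) l3 .e) (.s (.c (nat_lit 1702) l3 .e) (.s (.c (nat_lit 1738) l3 .e) (.s (.c (nat_lit 2166) l2 .e) (.s (.c (nat_lit 2276) l1 .e) (.s (.c (nat_lit 2150) l3 .e) (.s (.c (nat_lit 2332) l0 .e) (.s (.c (nat_lit 1340) l1 .e) (.s (.c (nat_lit 2511) l2 .e) (.s (.c (nat_lit 2152) l1 .e) (.s (.c (nat_lit 814) l3 .e) (.s (.c (nat_lit 779) l1 .e)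 (.s (.c (nat_lit 432) l2 .e) (.s (.c (nat_lit 1387) l2 .e) (.s (.c (nat_lit 2700) l2 .e) (.s (.c (nat_lit 2451) l1 .e) (.s (.c (nat_lit 2713) l3 .e) (.s (.c (nat_lit 2469) l1 .e) (.s (.c (nat_lit 397) l3 .e) (.s (.c (nat_lit 1506) l0 .e) (.s (.c (nat_lit 232) l3 .e) (.s (.c (nat_lit 960) l0 .e) s0_61))))))))))))))))))))))))))))))

noncomputable def s0_59 : Ss := (.s (.c (nat_lit 2446) l3 .e) (.s (.c (nat_lit 1697) l3 .e) (.s (.c (nat_lit 2643) l2 .e) (.s (.c (nat_lit 1553) l0 .e) (.s (.c (nat_lit 738) l3 .e) (.s (.c (nat_lit 164) l1 .e) (.s (.c (nat_lit 749) l3 .e) (.s (.c (nat_lit 2204) l0 .e) (.s (.c (nat_lit 1808) l2 .e) (.s (.c (nat_lit 1764) l3 .e) (.s (.c (nat_lit 1387) l3 .e) (.s (.c (nat_lit 2587) l2 .e) (.s (.c (nat_lit 2542) l1 .e) (.s (.c (nat_lit 681) l2 .e) (.s (.c (nat_lit 2349) l3 .e) (.s (.c (nat_lit 2546) l3 .e) (.s (.c (nat_lit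 2225) l1 .e) (.s (.c (nat_lit 2559) l3 .e) (.s (.c (nat_lit 1248) l1 .e) (.s (.c (nat_lit 2325) l3 .e) (.s (.c (nat_lit 1609) l1 .e) (.s (.c (nat_lit 1986) l3 .e) (.s (.c (nat_lit 2574) l3 .e) (.s (.c (nat_lit 2482) l1 .e) (.s (.c (nat_lit 1497) l3 .e) (.s (.c (nat_lit 358) l3 .e) (.s (.c (nat_lit 536) l2 .e) (.s (.c (nat_lit 1850) l1 .e) (.s (.c (nat_lit 2497) l1 .e) (.s (.c (nat_lit 1192) l3 .e) s0_60))))))))))))))))))))))))))))))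

noncomputable def s0_58 : Ss := (.s (.c (nat_lit 2397) l3 .e) (.s (.c (nat_lit 2282) l0 .e) (.s (.c (nat_lit 2716) l0 .e) (.s (.c (nat_lit 1508) l3 .e) (.s (.c (nat_lit 1681) l0 .e) (.s (.c (nat_lit 2728) l2 .e) (.s (.c (nat_lit 2436) l1 .e) (.s (.c (nat_lit 565) l3 .e) (.s (.c (nat_lit 2345) l3 .e) (.s (.c (nat_lit 1576) l2 .e) (.s (.c (nat_lit 2587) l1 .e) (.s (.c (nat_lit 525) l0 .e) (.s (.c (nat_lit 2231) l1 .e) (.s (.c (nat_lit 247) l2 .e) (.s (.c (nat_lit 2593) l0 .e) (.s (.c (nat_lit 2442) l2 .e) (.s (.c (nat_lit 2102) l2 .e) (.s (.c (nat_lit 139) l3 .e) (.s (.c (nat_lit 1944) l0 .e) (.s (.c (nat_lit 2110) l3 .e) (.s (.c (nat_lit 106) l3 .e) (.s (.c (nat_lit 1748) l1 .e) (.s (.c (nat_lit 1593) l3 .e) (.s (.c (nat_lit 484) l3 .e) (.s (.c (nat_lit 2275) l3 .e) (.s (.c (nat_lit 1201) l0 .e) (.s (.c (nat_lit 2149) l1 .e) (.s (.c (nat_lit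 2210) l1 .e) (.s (.c (nat_lit 2187) l3 .e) (.s (.c (nat_lit 2454) l2 .e) s0_59))))))))))))))))))))))))))))))

noncomputable def s0_57 : Ss := (.s (.c (nat_lit 1238) l0 .e) (.s (.c (nat_lit 1297) l3 .e) (.s (.c (nat_lit 1260) l2 .e) (.s (.c (nat_lit 2271) l0 .e) (.s (.c (nat_lit 1518) l3 .e) (.s (.c (nat_lit 759) l0 .e) (.s (.c (nat_lit 2185) l0 .e) (.s (.c (nat_lit 1298) l2 .e) (.s (.c (nat_lit 317) l0 .e) (.s (.c (nat_lit 2067) l0 .e) (.s (.c (nat_lit 1942) l2 .e) (.s (.c (nat_lit 823) l2 .e) (.s (.c (nat_lit 2208) l1 .e) (.s (.c (nat_lit 2632) l2 .e) (.s (.c (nat_lit 821) l3 .e) (.s (.c (nat_lit 828) l2 .e) (.s (.c (nat_lit 1603) l1 .e) (.s (.c (nat_lit 1605) l3 .e) (.s (.c (nat_lit 471) l3 .e) (.s (.c (nat_lit 1299) l2 .e) (.s (.c (nat_lit 2000) l3 .e) (.s (.c (nat_lit 256) l2 .e) (.s (.c (nat_lit 947) l3 .e) (.s (.c (nat_lit 948) l2 .e)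 (.s (.c (nat_lit 1952) l2 .e) (.s (.c (nat_lit 2379) l3 .e) (.s (.c (nat_lit 2245) l2 .e) (.s (.c (nat_lit 1504) l1 .e) (.s (.c (nat_lit 863) l3 .e) (.s (.c (nat_lit 2475) l1 .e) s0_58))))))))))))))))))))))))))))))

noncomputable def s0_56 : Ss := (.s (.c (nat_lit 833) l2 .e) (.s (.c (nat_lit 1985) l1 .e) (.s (.c (nat_lit 1893) l3 .e) (.s (.c (nat_lit 2680) l3 .e) (.s (.c (nat_lit 888) l3 .e) (.s (.c (nat_lit 1576) l0 .e) (.s (.c (nat_lit 1619) l2 .e) (.s (.c (nat_lit 2672) l0 .e) (.s (.c (nat_lit 2210) l2 .e) (.s (.c (nat_lit 1099) l3 .e) (.s (.c (nat_lit 2683) l3 .e) (.s (.c (nat_lit 1084) l0 .e) (.s (.c (nat_lit 2058) l0 .e) (.s (.c (nat_lit 1083) l1 .e) (.s (.c (nat_lit 636) l3 .e) (.s (.c (nat_lit 2133) l1 .e) (.s (.c (nat_lit 2315) l0 .e) (.s (.c (nat_lit 2169) l1 .e) (.s (.c (nat_lit 1042) l0 .e) (.s (.c (nat_lit 1570) l2 .e) (.s (.c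 (nat_lit 736) l0 .e) (.s (.c (nat_lit 2334) l3 .e) (.s (.c (nat_lit 855) l3 .e) (.s (.c (nat_lit 2584) l3 .e) (.s (.c (nat_lit 2486) l3 .e) (.s (.c (nat_lit 2092) l1 .e) (.s (.c (nat_lit 2672) l2 .e) (.s (.c (nat_lit 2405) l2 .e) (.s (.c (nat_lit 2627) l2 .e) (.s (.c (nat_lit 2478) l3 .e) s0_57))))))))))))))))))))))))))))))

noncomputable def s0_55 : Ss := (.s (.c (nat_lit 728) l2 .e) (.s (.c (nat_lit 1522) l1 .e) (.s (.c (nat_lit 1832) l1 .e) (.s (.c (nat_lit 2265) l2 .e) (.s (.c (nat_lit 907) l0 .e) (.s (.c (nat_lit 1855) l3 .e) (.s (.c (nat_lit 1001) l3 .e) (.s (.c (nat_lit 412) l3 .e) (.s (.c (nat_lit 1631) l3 .e) (.s (.c (nat_lit 1990) l3 .e) (.s (.c (nat_lit 2020) l3 .e) (.s (.c (nat_lit 2660) l3 .e) (.s (.c (nat_lit 2166) l1 .e) (.s (.c (nat_lit 457) l3 .e) (.s (.c (nat_lit 360) l0 .e) (.s (.c (nat_lit 2337) l3 .e) (.s (.c (nat_lit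 1836) l3 .e) (.s (.c (nat_lit 2688) l0 .e) (.s (.c (nat_lit 2518) l2 .e) (.s (.c (nat_lit 2722) l0 .e) (.s (.c (nat_lit 2459) l1 .e) (.s (.c (nat_lit 1217) l3 .e) (.s (.c (nat_lit 1001) l0 .e) (.s (.c (nat_lit 2352) l2 .e) (.s (.c (nat_lit 2333) l2 .e) (.s (.c (nat_lit 2113) l1 .e) (.s (.c (nat_lit 2355) l2 .e) (.s (.c (nat_lit 730) l3 .e) (.s (.c (nat_lit 1224) l0 .e) (.s (.c (nat_lit 1800) l2 .e) s0_56))))))))))))))))))))))))))))))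

noncomputable def s0_54 : Ss := (.s (.c (nat_lit 1980) l3 .e) (.s (.c (nat_lit 2691) l1 .e) (.s (.c (nat_lit 1837) l2 .e) (.s (.c (nat_lit 399) l2 .e) (.s (.c (nat_lit 2706) l1 .e) (.s (.c (nat_lit 2197) l3 .e) (.s (.c (nat_lit 168) l3 .e) (.s (.c (nat_lit 1127) l2 .e) (.s (.c (nat_lit 721) l3 .e) (.s (.c (nat_lit 2498) l3 .e) (.s (.c (nat_lit 1708) l0 .e) (.s (.c (nat_lit 487) l3 .e) (.s (.c (nat_lit 1789) l0 .e) (.s (.c (nat_lit 2645) l3 .e) (.s (.c (nat_lit 1021) l3 .e) (.s (.c (nat_lit 2171) l0 .e) (.s (.c (nat_lit 1644) l3 .e) (.s (.c (nat_lit 1982) l2 .e) (.s (.c (nat_lit 2320) l1 .e) (.s (.c (nat_lit 572) l2 .e) (.s (.c (nat_lit 1128) l0 .e) (.s (.c (nat_lit 1601) l1 .e) (.s (.c (nat_lit 2518) l3 .e) (.s (.c (nat_lit 2431) l2 .e) (.s (.c (nat_lit 2525) l2 .e) (.s (.c (nat_lit 1583) l1 .e) (.s (.c (nat_lit 853) l0 .e) (.s (.c (nat_lit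 2605) l1 .e) (.s (.c (nat_lit 2665) l1 .e) (.s (.c (nat_lit 1252) l0 .e) s0_55))))))))))))))))))))))))))))))

noncomputable def s0_53 : Ss := (.s (.c (nat_lit 2329) l2 .e) (.s (.c (nat_lit 2612) l1 .e) (.s (.c (nat_lit 1629) l1 .e) (.s (.c (nat_lit 1937) l2 .e) (.s (.c (nat_lit 2603) l1 .e) (.s (.c (nat_lit 1103) l1 .e) (.s (.c (nat_lit 665) l3 .e) (.s (.c (nat_lit 996) l3 .e) (.s (.c (nat_lit 2591) l2 .e) (.s (.c (nat_lit 541) l0 .e) (.s (.c (nat_lit 2571) l0 .e) (.s (.c (nat_lit 1433) l2 .e) (.s (.c (nat_lit 299) l3 .e) (.s (.c (nat_lit 1847) l3 .e) (.s (.c (nat_lit 1656) l2 .e) (.s (.c (nat_lit 1369) l0 .e) (.s (.c (nat_lit 2654) l3 .e) (.s (.c (nat_lit 1764) l1 .e) (.s (.c (nat_lit 2048) l2 .e) (.s (.c (nat_lit 159) l1 .e) (.s (.c (nat_lit 1273) l1 .e) (.s (.c (nat_lit 848) l0 .e) (.s (.c (nat_lit 1621) l3 .e) (.s (.c (nat_lit 1990) l2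 .e) (.s (.c (nat_lit 444) l3 .e) (.s (.c (nat_lit 2594) l2 .e) (.s (.c (nat_lit 2122) l3 .e) (.s (.c (nat_lit 1537) l0 .e) (.s (.c (nat_lit 1905) l3 .e) (.s (.c (nat_lit 2419) l0 .e) s0_54))))))))))))))))))))))))))))))

noncomputable def s0_52 : Ss := (.s (.c (nat_lit 2590) l3 .e) (.s (.c (nat_lit 491) l3 .e) (.s (.c (nat_lit 1878) l3 .e) (.s (.c (nat_lit 816) l3 .e) (.s (.c (nat_lit 2721) l2 .e) (.s (.c (nat_lit 2254) l2 .e) (.s (.c (nat_lit 2723) l0 .e) (.s (.c (nat_lit 1243) l1 .e) (.s (.c (nat_lit 2699) l3 .e) (.s (.c (nat_lit 231) l3 .e) (.s (.c (nat_lit 602) l3 .e) (.s (.c (nat_lit 1359) l3 .e) (.s (.c (nat_lit 1601) l0 .e) (.s (.c (nat_lit 2340) l2 .e) (.s (.c (nat_lit 2155) l3 .e) (.s (.c (nat_lit 2163) l0 .e) (.s (.c (nat_lit 2181) l2 .e) (.s (.c (nat_lit 1877) l2 .e) (.s (.c (nat_lit 260) l3 .e) (.s (.c (nat_lit 577) l3 .e) (.s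 (.c (nat_lit 2677) l1 .e) (.s (.c (nat_lit 2456) l0 .e) (.s (.c (nat_lit 2461) l1 .e) (.s (.c (nat_lit 1360) l3 .e) (.s (.c (nat_lit 2388) l3 .e) (.s (.c (nat_lit 2684) l2 .e) (.s (.c (nat_lit 1750) l3 .e) (.s (.c (nat_lit 2721) l3 .e) (.s (.c (nat_lit 2619) l3 .e) (.s (.c (nat_lit 2155) l0 .e) s0_53))))))))))))))))))))))))))))))

noncomputable def s0_51 : Ss := (.s (.c (nat_lit 1158) l1 .e) (.s (.c (nat_lit 995) l3 .e) (.s (.c (nat_lit 1810) l1 .e) (.s (.c (nat_lit 2163) l3 .e) (.s (.c (nat_lit 1595) l2 .e) (.s (.c (nat_lit 2563) l0 .e) (.s (.c (nat_lit 2528) l3 .e) (.s (.c (nat_lit 1148) l3 .e) (.s (.c (nat_lit 1484) l0 .e) (.s (.c (nat_lit 856) l3 .e) (.s (.c (nat_lit 2562) l3 .e) (.s (.c (nat_lit 1544) l1 .e) (.s (.c (nat_lit 926) l3 .e) (.s (.c (nat_lit 2653) l2 .e) (.s (.c (nat_lit 841) l3 .e) (.s (.c (nat_lit 858) l0 .e) (.s (.c (nat_lit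 2669) l2 .e) (.s (.c (nat_lit 2306) l2 .e) (.s (.c (nat_lit 1454) l3 .e) (.s (.c (nat_lit 2641) l0 .e) (.s (.c (nat_lit 2476) l2 .e) (.s (.c (nat_lit 1065) l0 .e) (.s (.c (nat_lit 2453) l1 .e) (.s (.c (nat_lit 2165) l2 .e) (.s (.c (nat_lit 2181) l3 .e) (.s (.c (nat_lit 1246) l3 .e) (.s (.c (nat_lit 873) l2 .e) (.s (.c (nat_lit 2297) l3 .e) (.s (.c (nat_lit 2398) l2 .e) (.s (.c (nat_lit 1129) l3 .e) s0_52))))))))))))))))))))))))))))))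

noncomputable def s0_50 : Ss := (.s (.c (nat_lit 1406) l0 .e) (.s (.c (nat_lit 1436) l3 .e) (.s (.c (nat_lit 1147) l3 .e) (.s (.c (nat_lit 2243) l2 .e) (.s (.c (nat_lit 1624) l2 .e) (.s (.c (nat_lit 1187) l3 .e) (.s (.c (nat_lit 2693) l2 .e) (.s (.c (nat_lit 672) l1 .e) (.s (.c (nat_lit 1487) l0 .e) (.s (.c (nat_lit 1806) l3 .e) (.s (.c (nat_lit 2129) l0 .e) (.s (.c (nat_lit 2205) l3 .e) (.s (.c (nat_lit 2631) l0 .e) (.s (.c (nat_lit 2272) l3 .e) (.s (.c (nat_lit 1503) l3 .e) (.s (.c (nat_lit 2551) l1 .e) (.s (.c (nat_lit 179) l3 .e) (.s (.c (nat_lit 2435) l1 .e) (.s (.c (nat_lit 1907) l2 .e) (.s (.c (nat_lit 2606) l0 .e) (.s (.c (nat_lit 1768) l0 .e) (.s (.c (nat_lit 1894) l1 .e) (.s (.c (nat_lit 2441) l3 .e) (.s (.c (nat_lit 2503) l1 .e) (.s (.c (nat_lit 193) l3 .e) (.s (.c (nat_lit 855) l0 .e) (.s (.c (nat_lit 1443) l3 .e) (.s (.c (nat_lit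 2698) l1 .e) (.s (.c (nat_lit 459) l1 .e) (.s (.c (nat_lit 1571) l3 .e) s0_51))))))))))))))))))))))))))))))

noncomputable def s0_49 : Ss := (.s (.c (nat_lit 1096) l3 .e) (.s (.c (nat_lit 1591) l2 .e) (.s (.c (nat_lit 2051) l2 .e) (.s (.c (nat_lit 1372) l1 .e) (.s (.c (nat_lit 1652) l0 .e) (.s (.c (nat_lit 1332) l3 .e) (.s (.c (nat_lit 1121) l0 .e) (.s (.c (nat_lit 1074) l2 .e) (.s (.c (nat_lit 428) l3 .e) (.s (.c (nat_lit 2488) l3 .e) (.s (.c (nat_lit 2718) l0 .e) (.s (.c (nat_lit 539) l3 .e) (.s (.c (nat_lit 1599) l2 .e) (.s (.c (nat_lit 455) l2 .e) (.s (.c (nat_lit 2515) l3 .e) (.s (.c (nat_lit 2445) l0 .e) (.s (.c (nat_lit 767) l0 .e) (.s (.c (nat_lit 857) l1 .e) (.s (.c (nat_lit 1478) l2 .e) (.s (.c (nat_lit 2358) l3 .e) (.s (.c (nat_lit 1278) l3 .e) (.s (.c (nat_lit 238) l2 .e) (.s (.c (nat_lit 2627) l1 .e) (.s (.c (nat_lit 1025) l3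 .e) (.s (.c (nat_lit 1885) l0 .e) (.s (.c (nat_lit 1544) l2 .e) (.s (.c (nat_lit 1062) l3 .e) (.s (.c (nat_lit 716) l1 .e) (.s (.c (nat_lit 2071) l1 .e) (.s (.c (nat_lit 1432) l1 .e) s0_50))))))))))))))))))))))))))))))

noncomputable def s0_48 : Ss := (.s (.c (nat_lit 1708) l1 .e) (.s (.c (nat_lit 1057) l3 .e) (.s (.c (nat_lit 1311) l1 .e) (.s (.c (nat_lit 1814) l0 .e) (.s (.c (nat_lit 2290) l0 .e) (.s (.c (nat_lit 2696) l1 .e) (.s (.c (nat_lit 929) l3 .e) (.s (.c (nat_lit 2150) l0 .e) (.s (.c (nat_lit 2180) l3 .e) (.s (.c (nat_lit 2582) l0 .e) (.s (.c (nat_lit 2511) l3 .e) (.s (.c (nat_lit 2696) l2 .e) (.s (.c (nat_lit 825) l3 .e) (.s (.c (nat_lit 2657) l2 .e) (.s (.c (nat_lit 1480) l0 .e) (.s (.c (nat_lit 2429) l3 .e) (.s (.c (nat_lit 1526) l0 .e) (.s (.c (nat_lit 2051) l1 .e) (.s (.c (nat_lit 1507) l2 .e) (.s (.c (nat_lit 1633) l1 .e)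 (.s (.c (nat_lit 2452) l2 .e) (.s (.c (nat_lit 2675) l1 .e) (.s (.c (nat_lit 2646) l1 .e) (.s (.c (nat_lit 2180) l1 .e) (.s (.c (nat_lit 2283) l2 .e) (.s (.c (nat_lit 1063) l3 .e) (.s (.c (nat_lit 923) l2 .e) (.s (.c (nat_lit 1150) l3 .e) (.s (.c (nat_lit 1620) l2 .e) (.s (.c (nat_lit 2516) l0 .e) s0_49))))))))))))))))))))))))))))))

noncomputable def s0_47 : Ss := (.s (.c (nat_lit 843) l0 .e) (.s (.c (nat_lit 2545) l3 .e) (.s (.c (nat_lit 280) l3 .e) (.s (.c (nat_lit 2409) l2 .e) (.s (.c (nat_lit 2156) l3 .e) (.s (.c (nat_lit 922) l2 .e) (.s (.c (nat_lit 2707) l2 .e) (.s (.c (nat_lit 2614) l3 .e) (.s (.c (nat_lit 1844) l0 .e) (.s (.c (nat_lit 1781) l1 .e) (.s (.c (nat_lit 2640) l1 .e) (.s (.c (nat_lit 1109) l0 .e) (.s (.c (nat_lit 1723) l2 .e) (.s (.c (nat_lit 1854) l1 .e) (.s (.c (nat_lit 1795) l3 .e) (.s (.c (nat_lit 2391) l0 .e) (.s (.c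 (nat_lit 590) l3 .e) (.s (.c (nat_lit 1415) l2 .e) (.s (.c (nat_lit 858) l1 .e) (.s (.c (nat_lit 2534) l3 .e) (.s (.c (nat_lit 2273) l3 .e) (.s (.c (nat_lit 1114) l3 .e) (.s (.c (nat_lit 2712) l3 .e) (.s (.c (nat_lit 2260) l0 .e) (.s (.c (nat_lit 735) l3 .e) (.s (.c (nat_lit 587) l0 .e) (.s (.c (nat_lit 1332) l1 .e) (.s (.c (nat_lit 1969) l0 .e) (.s (.c (nat_lit 2013) l0 .e) (.s (.c (nat_lit 1453) l1 .e) s0_48))))))))))))))))))))))))))))))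

noncomputable def s0_46 : Ss := (.s (.c (nat_lit 1540) l3 .e) (.s (.c (nat_lit 1023) l0 .e) (.s (.c (nat_lit 1073) l2 .e) (.s (.c (nat_lit 2003) l1 .e) (.s (.c (nat_lit 2370) l1 .e) (.s (.c (nat_lit 1753) l2 .e) (.s (.c (nat_lit 2427) l0 .e) (.s (.c (nat_lit 2667) l0 .e) (.s (.c (nat_lit 1149) l2 .e) (.s (.c (nat_lit 710) l3 .e) (.s (.c (nat_lit 2725) l0 .e) (.s (.c (nat_lit 1645) l0 .e) (.s (.c (nat_lit 1768) l3 .e) (.s (.c (nat_lit 2403) l0 .e) (.s (.c (nat_lit 2385) l2 .e) (.s (.c (nat_lit 1100) l0 .e) (.s (.c (nat_lit 1726) l3 .e) (.s (.c (nat_lit 2303) l0 .e) (.s (.c (nat_lit 872) l2 .e) (.s (.c (nat_lit 1833) l2 .e) (.s (.c (nat_lit 2206) l2 .e) (.s (.c (nat_lit 148) l3 .e) (.s (.c (nat_lit 615) l3 .e) (.s (.c (nat_lit 1271) l3 .e) (.s (.c (nat_lit 2066) l1 .e) (.s (.c (nat_lit 1171) l2 .e) (.s (.c (nat_lit 1852) l3 .e) (.s (.c (nat_lit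 1243) l2 .e) (.s (.c (nat_lit 2171) l3 .e) (.s (.c (nat_lit 2716) l3 .e) s0_47))))))))))))))))))))))))))))))

noncomputable def s0_45 : Ss := (.s (.c (nat_lit 522) l3 .e) (.s (.c (nat_lit 1959) l3 .e) (.s (.c (nat_lit 2352) l1 .e) (.s (.c (nat_lit 1664) l0 .e) (.s (.c (nat_lit 2033) l0 .e) (.s (.c (nat_lit 1766) l0 .e) (.s (.c (nat_lit 941) l3 .e) (.s (.c (nat_lit 2455) l1 .e) (.s (.c (nat_lit 2285) l2 .e) (.s (.c (nat_lit 1357) l3 .e) (.s (.c (nat_lit 261) l3 .e) (.s (.c (nat_lit 2241) l3 .e) (.s (.c (nat_lit 1827) l1 .e) (.s (.c (nat_lit 1813) l2 .e) (.s (.c (nat_lit 1393) l3 .e) (.s (.c (nat_lit 2193) l1 .e) (.s (.c (nat_lit 1991) l0 .e) (.s (.c (nat_lit 330) l3 .e) (.s (.c (nat_lit 212) l3 .e) (.s (.c (nat_lit 533) l0 .e) (.s (.c (nat_lit 2302) l1 .e) (.s (.c (nat_lit 1782) l1 .e) (.s (.c (nat_lit 961) l3 .e) (.s (.c (nat_lit 2070) l0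 .e) (.s (.c (nat_lit 2470) l2 .e) (.s (.c (nat_lit 1611) l3 .e) (.s (.c (nat_lit 2109) l0 .e) (.s (.c (nat_lit 1640) l2 .e) (.s (.c (nat_lit 1676) l2 .e) (.s (.c (nat_lit 2261) l3 .e) s0_46))))))))))))))))))))))))))))))

noncomputable def s0_44 : Ss := (.s (.c (nat_lit 1603) l2 .e) (.s (.c (nat_lit 1828) l3 .e) (.s (.c (nat_lit 978) l1 .e) (.s (.c (nat_lit 2186) l3 .e) (.s (.c (nat_lit 2300) l1 .e) (.s (.c (nat_lit 1609) l2 .e) (.s (.c (nat_lit 1121) l3 .e) (.s (.c (nat_lit 2078) l3 .e) (.s (.c (nat_lit 2071) l2 .e) (.s (.c (nat_lit 1429) l3 .e) (.s (.c (nat_lit 1633) l3 .e) (.s (.c (nat_lit 2112) l3 .e) (.s (.c (nat_lit 2203) l3 .e) (.s (.c (nat_lit 856) l2 .e) (.s (.c (nat_lit 1138) l0 .e) (.s (.c (nat_lit 1886) l2 .e) (.s (.c (nat_lit 2022) l3 .e) (.s (.c (nat_lit 2004) l1 .e) (.s (.c (nat_lit 2403) l1 .e) (.s (.c (nat_lit 805) l2 .e)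 (.s (.c (nat_lit 2117) l0 .e) (.s (.c (nat_lit 2104) l2 .e) (.s (.c (nat_lit 2574) l1 .e) (.s (.c (nat_lit 1058) l2 .e) (.s (.c (nat_lit 2486) l0 .e) (.s (.c (nat_lit 1830) l0 .e) (.s (.c (nat_lit 1769) l3 .e) (.s (.c (nat_lit 1379) l2 .e) (.s (.c (nat_lit 1835) l2 .e) (.s (.c (nat_lit 1757) l3 .e) s0_45))))))))))))))))))))))))))))))

noncomputable def s0_43 : Ss := (.s (.c (nat_lit 944) l0 .e) (.s (.c (nat_lit 2041) l2 .e) (.s (.c (nat_lit 1130) l3 .e) (.s (.c (nat_lit 155) l2 .e) (.s (.c (nat_lit 1857) l1 .e) (.s (.c (nat_lit 2527) l3 .e) (.s (.c (nat_lit 2702) l1 .e) (.s (.c (nat_lit 2278) l1 .e) (.s (.c (nat_lit 2306) l3 .e) (.s (.c (nat_lit 354) l3 .e) (.s (.c (nat_lit 753) l1 .e) (.s (.c (nat_lit 2370) l2 .e) (.s (.c (nat_lit 1570) l0 .e) (.s (.c (nat_lit 1602) l3 .e) (.s (.c (nat_lit 2042) l3 .e) (.s (.c (nat_lit 622) l0 .e) (.s (.c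 (nat_lit 2557) l2 .e) (.s (.c (nat_lit 2476) l3 .e) (.s (.c (nat_lit 993) l2 .e) (.s (.c (nat_lit 196) l2 .e) (.s (.c (nat_lit 1169) l3 .e) (.s (.c (nat_lit 2568) l2 .e) (.s (.c (nat_lit 158) l0 .e) (.s (.c (nat_lit 1908) l0 .e) (.s (.c (nat_lit 1710) l3 .e) (.s (.c (nat_lit 1196) l0 .e) (.s (.c (nat_lit 2113) l3 .e) (.s (.c (nat_lit 2130) l2 .e) (.s (.c (nat_lit 479) l0 .e) (.s (.c (nat_lit 2589) l1 .e) s0_44))))))))))))))))))))))))))))))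

noncomputable def s0_42 : Ss := (.s (.c (nat_lit 2652) l3 .e) (.s (.c (nat_lit 1962) l3 .e) (.s (.c (nat_lit 687) l3 .e) (.s (.c (nat_lit 958) l3 .e) (.s (.c (nat_lit 1932) l3 .e) (.s (.c (nat_lit 2530) l0 .e) (.s (.c (nat_lit 1740) l3 .e) (.s (.c (nat_lit 1403) l2 .e) (.s (.c (nat_lit 1682) l1 .e) (.s (.c (nat_lit 723) l3 .e) (.s (.c (nat_lit 2715) l1 .e) (.s (.c (nat_lit 2543) l2 .e) (.s (.c (nat_lit 1543) l3 .e) (.s (.c (nat_lit 2209) l3 .e) (.s (.c (nat_lit 149) l2 .e) (.s (.c (nat_lit 2703) l3 .e) (.s (.c (nat_lit 2057) l3 .e) (.s (.c (nat_lit 2544) l2 .e) (.s (.c (nat_lit 2666) l2 .e) (.s (.c (nat_lit 647) l2 .e) (.s (.c (nat_lit 1853) l3 .e) (.s (.c (nat_lit 2048) l1 .e) (.s (.c (nat_lit 682) l3 .e) (.s (.c (nat_lit 2381) l3 .e) (.s (.c (nat_lit 1829) l2 .e) (.s (.c (nat_lit 1669) l0 .e) (.s (.c (nat_lit 2160) l1 .e) (.s (.c (nat_lit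 2609) l1 .e) (.s (.c (nat_lit 833) l1 .e) (.s (.c (nat_lit 2293) l1 .e) s0_43))))))))))))))))))))))))))))))

noncomputable def s0_41 : Ss := (.s (.c (nat_lit 2502) l1 .e) (.s (.c (nat_lit 1139) l1 .e) (.s (.c (nat_lit 2304) l1 .e) (.s (.c (nat_lit 2000) l1 .e) (.s (.c (nat_lit 644) l3 .e) (.s (.c (nat_lit 2201) l0 .e) (.s (.c (nat_lit 1431) l3 .e) (.s (.c (nat_lit 2106) l3 .e) (.s (.c (nat_lit 1046) l0 .e) (.s (.c (nat_lit 569) l0 .e) (.s (.c (nat_lit 2685) l2 .e) (.s (.c (nat_lit 2028) l0 .e) (.s (.c (nat_lit 748) l3 .e) (.s (.c (nat_lit 2353) l2 .e) (.s (.c (nat_lit 2368) l0 .e) (.s (.c (nat_lit 1270) l1 .e) (.s (.c (nat_lit 2293) l2 .e) (.s (.c (nat_lit 2026) l3 .e) (.s (.c (nat_lit 1757) l2 .e) (.s (.c (nat_lit 2660) l2 .e) (.s (.c (nat_lit 2615) l2 .e) (.s (.c (nat_lit 941) l0 .e) (.s (.c (nat_lit 455) l1 .e) (.s (.c (nat_lit 324) l1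 .e) (.s (.c (nat_lit 1743) l3 .e) (.s (.c (nat_lit 763) l0 .e) (.s (.c (nat_lit 775) l3 .e) (.s (.c (nat_lit 2301) l2 .e) (.s (.c (nat_lit 1473) l0 .e) (.s (.c (nat_lit 1157) l0 .e) s0_42))))))))))))))))))))))))))))))

noncomputable def s0_40 : Ss := (.s (.c (nat_lit 2289) l3 .e) (.s (.c (nat_lit 1505) l0 .e) (.s (.c (nat_lit 2351) l3 .e) (.s (.c (nat_lit 2556) l1 .e) (.s (.c (nat_lit 1050) l2 .e) (.s (.c (nat_lit 2224) l0 .e) (.s (.c (nat_lit 1911) l3 .e) (.s (.c (nat_lit 2489) l1 .e) (.s (.c (nat_lit 2086) l3 .e) (.s (.c (nat_lit 1528) l2 .e) (.s (.c (nat_lit 2109) l3 .e) (.s (.c (nat_lit 2633) l3 .e) (.s (.c (nat_lit 2609) l0 .e) (.s (.c (nat_lit 1006) l2 .e) (.s (.c (nat_lit 1389) l3 .e) (.s (.c (nat_lit 2061) l3 .e) (.s (.c (nat_lit 1703) l0 .e) (.s (.c (nat_lit 1378) l3 .e) (.s (.c (nat_lit 162) l3 .e) (.s (.c (nat_lit 2632) l3 .e)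 (.s (.c (nat_lit 1989) l0 .e) (.s (.c (nat_lit 2093) l0 .e) (.s (.c (nat_lit 1179) l3 .e) (.s (.c (nat_lit 1900) l1 .e) (.s (.c (nat_lit 2648) l2 .e) (.s (.c (nat_lit 1573) l1 .e) (.s (.c (nat_lit 2399) l1 .e) (.s (.c (nat_lit 134) l3 .e) (.s (.c (nat_lit 2292) l0 .e) (.s (.c (nat_lit 2391) l3 .e) s0_41))))))))))))))))))))))))))))))

noncomputable def s0_39 : Ss := (.s (.c (nat_lit 325) l3 .e) (.s (.c (nat_lit 2568) l1 .e) (.s (.c (nat_lit 604) l3 .e) (.s (.c (nat_lit 1272) l3 .e) (.s (.c (nat_lit 704) l3 .e) (.s (.c (nat_lit 2668) l3 .e) (.s (.c (nat_lit 2227) l3 .e) (.s (.c (nat_lit 2385) l1 .e) (.s (.c (nat_lit 2536) l1 .e) (.s (.c (nat_lit 1221) l3 .e) (.s (.c (nat_lit 576) l0 .e) (.s (.c (nat_lit 753) l0 .e) (.s (.c (nat_lit 1955) l3 .e) (.s (.c (nat_lit 1098) l0 .e) (.s (.c (nat_lit 237) l1 .e) (.s (.c (nat_lit 2330) l3 .e) (.s (.c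 (nat_lit 1504) l2 .e) (.s (.c (nat_lit 200) l0 .e) (.s (.c (nat_lit 2572) l2 .e) (.s (.c (nat_lit 369) l3 .e) (.s (.c (nat_lit 1868) l3 .e) (.s (.c (nat_lit 803) l1 .e) (.s (.c (nat_lit 406) l3 .e) (.s (.c (nat_lit 2543) l3 .e) (.s (.c (nat_lit 1391) l1 .e) (.s (.c (nat_lit 2331) l1 .e) (.s (.c (nat_lit 896) l2 .e) (.s (.c (nat_lit 1709) l3 .e) (.s (.c (nat_lit 2712) l0 .e) (.s (.c (nat_lit 1139) l0 .e) s0_40))))))))))))))))))))))))))))))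

noncomputable def s0_38 : Ss := (.s (.c (nat_lit 1268) l3 .e) (.s (.c (nat_lit 1521) l3 .e) (.s (.c (nat_lit 1271) l0 .e) (.s (.c (nat_lit 2441) l1 .e) (.s (.c (nat_lit 2659) l3 .e) (.s (.c (nat_lit 1432) l3 .e) (.s (.c (nat_lit 718) l3 .e) (.s (.c (nat_lit 2382) l3 .e) (.s (.c (nat_lit 1993) l3 .e) (.s (.c (nat_lit 2407) l2 .e) (.s (.c (nat_lit 1437) l2 .e) (.s (.c (nat_lit 2411) l1 .e) (.s (.c (nat_lit 1871) l1 .e) (.s (.c (nat_lit 1817) l2 .e) (.s (.c (nat_lit 1196) l3 .e) (.s (.c (nat_lit 156) l3 .e) (.s (.c (nat_lit 2635) l1 .e) (.s (.c (nat_lit 1698) l2 .e) (.s (.c (nat_lit 999) l3 .e) (.s (.c (nat_lit 2592) l0 .e) (.s (.c (nat_lit 1132) l3 .e) (.s (.c (nat_lit 2615) l3 .e) (.s (.c (nat_lit 883) l0 .e) (.s (.c (nat_lit 265) l3 .e) (.s (.c (nat_lit 2538) l3 .e) (.s (.c (nat_lit 1475) l3 .e) (.s (.c (nat_lit 1255) l3 .e) (.s (.c (nat_lit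 1761) l1 .e) (.s (.c (nat_lit 1030) l2 .e) (.s (.c (nat_lit 1563) l3 .e) s0_39))))))))))))))))))))))))))))))

noncomputable def s0_37 : Ss := (.s (.c (nat_lit 1992) l1 .e) (.s (.c (nat_lit 429) l3 .e) (.s (.c (nat_lit 2642) l1 .e) (.s (.c (nat_lit 1503) l0 .e) (.s (.c (nat_lit 2548) l2 .e) (.s (.c (nat_lit 2428) l3 .e) (.s (.c (nat_lit 2730) l0 .e) (.s (.c (nat_lit 600) l0 .e) (.s (.c (nat_lit 1256) l2 .e) (.s (.c (nat_lit 2667) l3 .e) (.s (.c (nat_lit 1097) l2 .e) (.s (.c (nat_lit 256) l1 .e) (.s (.c (nat_lit 215) l3 .e) (.s (.c (nat_lit 860) l3 .e) (.s (.c (nat_lit 2010) l3 .e) (.s (.c (nat_lit 2377) l3 .e) (.s (.c (nat_lit 661) l1 .e) (.s (.c (nat_lit 2475) l2 .e) (.s (.c (nat_lit 1137) l3 .e) (.s (.c (nat_lit 2213) l0 .e) (.s (.c (nat_lit 1434) l3 .e) (.s (.c (nat_lit 1886) l3 .e) (.s (.c (nat_lit 1831) l1 .e) (.s (.c (nat_lit 957) l3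 .e) (.s (.c (nat_lit 2484) l2 .e) (.s (.c (nat_lit 2553) l3 .e) (.s (.c (nat_lit 2680) l0 .e) (.s (.c (nat_lit 823) l1 .e) (.s (.c (nat_lit 481) l2 .e) (.s (.c (nat_lit 2399) l0 .e) s0_38))))))))))))))))))))))))))))))

noncomputable def s0_36 : Ss := (.s (.c (nat_lit 2316) l3 .e) (.s (.c (nat_lit 2649) l1 .e) (.s (.c (nat_lit 433) l0 .e) (.s (.c (nat_lit 1946) l1 .e) (.s (.c (nat_lit 695) l0 .e) (.s (.c (nat_lit 2665) l2 .e) (.s (.c (nat_lit 893) l3 .e) (.s (.c (nat_lit 2402) l0 .e) (.s (.c (nat_lit 2435) l3 .e) (.s (.c (nat_lit 151) l1 .e) (.s (.c (nat_lit 2111) l0 .e) (.s (.c (nat_lit 696) l3 .e) (.s (.c (nat_lit 2697) l2 .e) (.s (.c (nat_lit 1205) l3 .e) (.s (.c (nat_lit 808) l2 .e) (.s (.c (nat_lit 914) l3 .e) (.s (.c (nat_lit 398) l1 .e) (.s (.c (nat_lit 2300) l3 .e) (.s (.c (nat_lit 2224) l3 .e) (.s (.c (nat_lit 1167) l0 .e) (.s (.c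 (nat_lit 1590) l0 .e) (.s (.c (nat_lit 579) l2 .e) (.s (.c (nat_lit 2054) l3 .e) (.s (.c (nat_lit 1613) l0 .e) (.s (.c (nat_lit 2681) l3 .e) (.s (.c (nat_lit 915) l2 .e) (.s (.c (nat_lit 2684) l3 .e) (.s (.c (nat_lit 2621) l3 .e) (.s (.c (nat_lit 928) l0 .e) (.s (.c (nat_lit 579) l1 .e) s0_37))))))))))))))))))))))))))))))

noncomputable def s0_35 : Ss := (.s (.c (nat_lit 2011) l3 .e) (.s (.c (nat_lit 2542) l2 .e) (.s (.c (nat_lit 513) l3 .e) (.s (.c (nat_lit 2335) l2 .e) (.s (.c (nat_lit 2673) l0 .e) (.s (.c (nat_lit 1706) l3 .e) (.s (.c (nat_lit 1524) l2 .e) (.s (.c (nat_lit 2202) l3 .e) (.s (.c (nat_lit 1079) l2 .e) (.s (.c (nat_lit 2295) l2 .e) (.s (.c (nat_lit 572) l1 .e) (.s (.c (nat_lit 1869) l2 .e) (.s (.c (nat_lit 2631) l1 .e) (.s (.c (nat_lit 2270) l3 .e) (.s (.c (nat_lit 2391) l2 .e) (.s (.c (nat_lit 2713) l1 .e) (.s (.c (nat_lit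 955) l3 .e) (.s (.c (nat_lit 2335) l1 .e) (.s (.c (nat_lit 1931) l3 .e) (.s (.c (nat_lit 2662) l0 .e) (.s (.c (nat_lit 819) l0 .e) (.s (.c (nat_lit 2611) l2 .e) (.s (.c (nat_lit 2344) l1 .e) (.s (.c (nat_lit 2034) l3 .e) (.s (.c (nat_lit 2491) l3 .e) (.s (.c (nat_lit 2282) l2 .e) (.s (.c (nat_lit 2656) l3 .e) (.s (.c (nat_lit 1650) l2 .e) (.s (.c (nat_lit 680) l3 .e) (.s (.c (nat_lit 695) l2 .e) s0_36))))))))))))))))))))))))))))))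

noncomputable def s0_34 : Ss := (.s (.c (nat_lit 2647) l1 .e) (.s (.c (nat_lit 1186) l3 .e) (.s (.c (nat_lit 463) l0 .e) (.s (.c (nat_lit 1681) l3 .e) (.s (.c (nat_lit 2543) l1 .e) (.s (.c (nat_lit 1624) l3 .e) (.s (.c (nat_lit 2115) l3 .e) (.s (.c (nat_lit 2184) l1 .e) (.s (.c (nat_lit 2394) l0 .e) (.s (.c (nat_lit 558) l2 .e) (.s (.c (nat_lit 2056) l3 .e) (.s (.c (nat_lit 1742) l3 .e) (.s (.c (nat_lit 2726) l3 .e) (.s (.c (nat_lit 2561) l3 .e) (.s (.c (nat_lit 2265) l1 .e) (.s (.c (nat_lit 2659) l0 .e) (.s (.c (nat_lit 2299) l3 .e) (.s (.c (nat_lit 2364) l0 .e) (.s (.c (nat_lit 706) l0 .e) (.s (.c (nat_lit 1092) l1 .e) (.s (.c (nat_lit 2662) l3 .e) (.s (.c (nat_lit 2649) l3 .e) (.s (.c (nat_lit 810) l0 .e) (.s (.c (nat_lit 1805) l0 .e) (.s (.c (nat_lit 1655) l1 .e) (.s (.c (nat_lit 2376) l3 .e) (.s (.c (nat_lit 541) l1 .e) (.s (.c (nat_lit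 2276) l3 .e) (.s (.c (nat_lit 2620) l1 .e) (.s (.c (nat_lit 1514) l2 .e) s0_35))))))))))))))))))))))))))))))

noncomputable def s0_33 : Ss := (.s (.c (nat_lit 2675) l3 .e) (.s (.c (nat_lit 2491) l1 .e) (.s (.c (nat_lit 1905) l0 .e) (.s (.c (nat_lit 2407) l0 .e) (.s (.c (nat_lit 2618) l1 .e) (.s (.c (nat_lit 1379) l1 .e) (.s (.c (nat_lit 974) l3 .e) (.s (.c (nat_lit 155) l1 .e) (.s (.c (nat_lit 806) l1 .e) (.s (.c (nat_lit 739) l2 .e) (.s (.c (nat_lit 1284) l3 .e) (.s (.c (nat_lit 822) l0 .e) (.s (.c (nat_lit 2491) l0 .e) (.s (.c (nat_lit 2648) l0 .e) (.s (.c (nat_lit 776) l0 .e) (.s (.c (nat_lit 2311) l3 .e) (.s (.c (nat_lit 1559) l3 .e) (.s (.c (nat_lit 1060) l2 .e) (.s (.c (nat_lit 2564) l1 .e) (.s (.c (nat_lit 257) l3 .e) (.s (.c (nat_lit 2143) l2 .e) (.s (.c (nat_lit 2618) l2 .e) (.s (.c (nat_lit 767) l3 .e) (.s (.c (nat_lit 1704) l3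 .e) (.s (.c (nat_lit 2694) l0 .e) (.s (.c (nat_lit 830) l0 .e) (.s (.c (nat_lit 2238) l0 .e) (.s (.c (nat_lit 1940) l2 .e) (.s (.c (nat_lit 2539) l3 .e) (.s (.c (nat_lit 1395) l3 .e) s0_34))))))))))))))))))))))))))))))

noncomputable def s0_32 : Ss := (.s (.c (nat_lit 2058) l2 .e) (.s (.c (nat_lit 476) l3 .e) (.s (.c (nat_lit 2580) l2 .e) (.s (.c (nat_lit 2568) l0 .e) (.s (.c (nat_lit 2485) l1 .e) (.s (.c (nat_lit 1578) l3 .e) (.s (.c (nat_lit 2216) l3 .e) (.s (.c (nat_lit 1421) l1 .e) (.s (.c (nat_lit 2490) l0 .e) (.s (.c (nat_lit 1219) l3 .e) (.s (.c (nat_lit 2722) l1 .e) (.s (.c (nat_lit 2577) l0 .e) (.s (.c (nat_lit 352) l3 .e) (.s (.c (nat_lit 1872) l3 .e) (.s (.c (nat_lit 1253) l2 .e) (.s (.c (nat_lit 1375) l3 .e) (.s (.c (nat_lit 1574) l3 .e) (.s (.c (nat_lit 2477) l1 .e) (.s (.c (nat_lit 2668) l2 .e) (.s (.c (nat_lit 2664) l0 .e)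 (.s (.c (nat_lit 664) l0 .e) (.s (.c (nat_lit 2070) l2 .e) (.s (.c (nat_lit 732) l3 .e) (.s (.c (nat_lit 523) l3 .e) (.s (.c (nat_lit 1877) l0 .e) (.s (.c (nat_lit 2651) l1 .e) (.s (.c (nat_lit 1598) l0 .e) (.s (.c (nat_lit 254) l3 .e) (.s (.c (nat_lit 944) l2 .e) (.s (.c (nat_lit 2466) l0 .e) s0_33))))))))))))))))))))))))))))))

noncomputable def s0_31 : Ss := (.s (.c (nat_lit 2179) l3 .e) (.s (.c (nat_lit 1206) l2 .e) (.s (.c (nat_lit 2607) l2 .e) (.s (.c (nat_lit 2702) l3 .e) (.s (.c (nat_lit 2602) l2 .e) (.s (.c (nat_lit 1951) l2 .e) (.s (.c (nat_lit 171) l3 .e) (.s (.c (nat_lit 1738) l0 .e) (.s (.c (nat_lit 1085) l3 .e) (.s (.c (nat_lit 1999) l0 .e) (.s (.c (nat_lit 1960) l2 .e) (.s (.c (nat_lit 373) l3 .e) (.s (.c (nat_lit 657) l3 .e) (.s (.c (nat_lit 1454) l1 .e) (.s (.c (nat_lit 722) l2 .e) (.s (.c (nat_lit 930) l0 .e) (.s (.c (nat_lit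 1086) l2 .e) (.s (.c (nat_lit 689) l3 .e) (.s (.c (nat_lit 1437) l1 .e) (.s (.c (nat_lit 333) l3 .e) (.s (.c (nat_lit 2593) l3 .e) (.s (.c (nat_lit 1297) l0 .e) (.s (.c (nat_lit 1653) l0 .e) (.s (.c (nat_lit 1341) l2 .e) (.s (.c (nat_lit 1226) l0 .e) (.s (.c (nat_lit 1592) l3 .e) (.s (.c (nat_lit 1799) l3 .e) (.s (.c (nat_lit 2522) l0 .e) (.s (.c (nat_lit 2288) l3 .e) (.s (.c (nat_lit 2028) l3 .e) s0_32))))))))))))))))))))))))))))))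

noncomputable def s0_30 : Ss := (.s (.c (nat_lit 2606) l2 .e) (.s (.c (nat_lit 1444) l2 .e) (.s (.c (nat_lit 1004) l2 .e) (.s (.c (nat_lit 1284) l2 .e) (.s (.c (nat_lit 1275) l3 .e) (.s (.c (nat_lit 1638) l3 .e) (.s (.c (nat_lit 1796) l3 .e) (.s (.c (nat_lit 561) l3 .e) (.s (.c (nat_lit 1906) l3 .e) (.s (.c (nat_lit 778) l1 .e) (.s (.c (nat_lit 2551) l2 .e) (.s (.c (nat_lit 2226) l2 .e) (.s (.c (nat_lit 1960) l1 .e) (.s (.c (nat_lit 2512) l0 .e) (.s (.c (nat_lit 438) l3 .e) (.s (.c (nat_lit 2229) l0 .e) (.s (.c (nat_lit 2247) l3 .e) (.s (.c (nat_lit 2624) l0 .e) (.s (.c (nat_lit 2610) l3 .e) (.s (.c (nat_lit 1984) l3 .e) (.s (.c (nat_lit 1431) l0 .e) (.s (.c (nat_lit 2726) l0 .e) (.s (.c (nat_lit 2706) l2 .e) (.s (.c (nat_lit 2194) l2 .e) (.s (.c (nat_lit 2213) l3 .e) (.s (.c (nat_lit 270) l3 .e) (.s (.c (nat_lit 2019) l1 .e) (.s (.c (nat_lit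 2573) l1 .e) (.s (.c (nat_lit 1751) l2 .e) (.s (.c (nat_lit 422) l3 .e) s0_31))))))))))))))))))))))))))))))

noncomputable def s0_29 : Ss := (.s (.c (nat_lit 2253) l0 .e) (.s (.c (nat_lit 677) l3 .e) (.s (.c (nat_lit 1796) l2 .e) (.s (.c (nat_lit 1745) l3 .e) (.s (.c (nat_lit 350) l2 .e) (.s (.c (nat_lit 1341) l3 .e) (.s (.c (nat_lit 1989) l2 .e) (.s (.c (nat_lit 475) l2 .e) (.s (.c (nat_lit 2406) l3 .e) (.s (.c (nat_lit 246) l3 .e) (.s (.c (nat_lit 2546) l2 .e) (.s (.c (nat_lit 1600) l3 .e) (.s (.c (nat_lit 1051) l3 .e) (.s (.c (nat_lit 2263) l3 .e) (.s (.c (nat_lit 1061) l0 .e) (.s (.c (nat_lit 1405) l1 .e) (.s (.c (nat_lit 2398) l1 .e) (.s (.c (nat_lit 2346) l1 .e) (.s (.c (nat_lit 194) l0 .e) (.s (.c (nat_lit 2658) l2 .e) (.s (.c (nat_lit 2388) l0 .e) (.s (.c (nat_lit 1134) l0 .e) (.s (.c (nat_lit 1880) l1 .e) (.s (.c (nat_lit 2631) l3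 .e) (.s (.c (nat_lit 1675) l1 .e) (.s (.c (nat_lit 1052) l0 .e) (.s (.c (nat_lit 2690) l1 .e) (.s (.c (nat_lit 1408) l3 .e) (.s (.c (nat_lit 2606) l3 .e) (.s (.c (nat_lit 2705) l0 .e) s0_30))))))))))))))))))))))))))))))

noncomputable def s0_28 : Ss := (.s (.c (nat_lit 2729) l3 .e) (.s (.c (nat_lit 1015) l1 .e) (.s (.c (nat_lit 1083) l3 .e) (.s (.c (nat_lit 2439) l1 .e) (.s (.c (nat_lit 1076) l3 .e) (.s (.c (nat_lit 2497) l2 .e) (.s (.c (nat_lit 2502) l3 .e) (.s (.c (nat_lit 1862) l0 .e) (.s (.c (nat_lit 2469) l0 .e) (.s (.c (nat_lit 2528) l2 .e) (.s (.c (nat_lit 1759) l0 .e) (.s (.c (nat_lit 2372) l3 .e) (.s (.c (nat_lit 2729) l1 .e) (.s (.c (nat_lit 2460) l0 .e) (.s (.c (nat_lit 1927) l3 .e) (.s (.c (nat_lit 1316) l1 .e) (.s (.c (nat_lit 2070) l3 .e) (.s (.c (nat_lit 1595) l0 .e) (.s (.c (nat_lit 1286) l3 .e) (.s (.c (nat_lit 2688) l3 .e)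 (.s (.c (nat_lit 1835) l1 .e) (.s (.c (nat_lit 893) l1 .e) (.s (.c (nat_lit 1631) l0 .e) (.s (.c (nat_lit 2114) l0 .e) (.s (.c (nat_lit 1115) l1 .e) (.s (.c (nat_lit 1578) l0 .e) (.s (.c (nat_lit 1763) l3 .e) (.s (.c (nat_lit 2250) l3 .e) (.s (.c (nat_lit 464) l1 .e) (.s (.c (nat_lit 298) l3 .e) s0_29))))))))))))))))))))))))))))))

noncomputable def s0_27 : Ss := (.s (.c (nat_lit 2397) l1 .e) (.s (.c (nat_lit 2104) l1 .e) (.s (.c (nat_lit 1610) l3 .e) (.s (.c (nat_lit 799) l3 .e) (.s (.c (nat_lit 210) l3 .e) (.s (.c (nat_lit 2466) l3 .e) (.s (.c (nat_lit 2548) l0 .e) (.s (.c (nat_lit 1285) l2 .e) (.s (.c (nat_lit 2727) l3 .e) (.s (.c (nat_lit 1958) l3 .e) (.s (.c (nat_lit 1837) l3 .e) (.s (.c (nat_lit 1648) l1 .e) (.s (.c (nat_lit 2519) l2 .e) (.s (.c (nat_lit 1572) l1 .e) (.s (.c (nat_lit 1416) l3 .e) (.s (.c (nat_lit 2322) l1 .e) (.s (.c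 (nat_lit 1123) l1 .e) (.s (.c (nat_lit 1959) l2 .e) (.s (.c (nat_lit 2408) l3 .e) (.s (.c (nat_lit 1413) l2 .e) (.s (.c (nat_lit 1418) l0 .e) (.s (.c (nat_lit 100) l3 .e) (.s (.c (nat_lit 1270) l2 .e) (.s (.c (nat_lit 1206) l3 .e) (.s (.c (nat_lit 1762) l0 .e) (.s (.c (nat_lit 535) l3 .e) (.s (.c (nat_lit 2339) l1 .e) (.s (.c (nat_lit 388) l3 .e) (.s (.c (nat_lit 1484) l3 .e) (.s (.c (nat_lit 1622) l3 .e) s0_28))))))))))))))))))))))))))))))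

noncomputable def s0_26 : Ss := (.s (.c (nat_lit 1456) l3 .e) (.s (.c (nat_lit 1161) l2 .e) (.s (.c (nat_lit 1054) l2 .e) (.s (.c (nat_lit 1361) l2 .e) (.s (.c (nat_lit 2724) l1 .e) (.s (.c (nat_lit 1293) l2 .e) (.s (.c (nat_lit 653) l0 .e) (.s (.c (nat_lit 1858) l3 .e) (.s (.c (nat_lit 894) l0 .e) (.s (.c (nat_lit 2280) l2 .e) (.s (.c (nat_lit 2719) l3 .e) (.s (.c (nat_lit 1386) l3 .e) (.s (.c (nat_lit 626) l3 .e) (.s (.c (nat_lit 2248) l0 .e) (.s (.c (nat_lit 918) l3 .e) (.s (.c (nat_lit 1540) l2 .e) (.s (.c (nat_lit 923) l1 .e) (.s (.c (nat_lit 524) l3 .e) (.s (.c (nat_lit 1909) l1 .e) (.s (.c (nat_lit 2378) l2 .e) (.s (.c (nat_lit 653) l3 .e) (.s (.c (nat_lit 1105) l3 .e) (.s (.c (nat_lit 2499) l1 .e) (.s (.c (nat_lit 2301) l3 .e) (.s (.c (nat_lit 1852) l1 .e) (.s (.c (nat_lit 1923) l3 .e) (.s (.c (nat_lit 2715) l2 .e) (.s (.c (nat_lit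 2324) l0 .e) (.s (.c (nat_lit 214) l1 .e) (.s (.c (nat_lit 598) l3 .e) s0_27))))))))))))))))))))))))))))))

noncomputable def s0_25 : Ss := (.s (.c (nat_lit 1661) l3 .e) (.s (.c (nat_lit 2320) l0 .e) (.s (.c (nat_lit 2525) l1 .e) (.s (.c (nat_lit 807) l2 .e) (.s (.c (nat_lit 1444) l1 .e) (.s (.c (nat_lit 2666) l0 .e) (.s (.c (nat_lit 2408) l0 .e) (.s (.c (nat_lit 975) l3 .e) (.s (.c (nat_lit 1113) l3 .e) (.s (.c (nat_lit 2725) l2 .e) (.s (.c (nat_lit 1118) l1 .e) (.s (.c (nat_lit 1269) l3 .e) (.s (.c (nat_lit 1529) l0 .e) (.s (.c (nat_lit 909) l2 .e) (.s (.c (nat_lit 1247) l1 .e) (.s (.c (nat_lit 536) l1 .e) (.s (.c (nat_lit 2476) l1 .e) (.s (.c (nat_lit 2707) l3 .e) (.s (.c (nat_lit 2145) l1 .e) (.s (.c (nat_lit 2158) l1 .e) (.s (.c (nat_lit 1221) l0 .e) (.s (.c (nat_lit 2166) l0 .e) (.s (.c (nat_lit 2247) l0 .e) (.s (.c (nat_lit 1440) l3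 .e) (.s (.c (nat_lit 871) l3 .e) (.s (.c (nat_lit 2256) l0 .e) (.s (.c (nat_lit 2025) l2 .e) (.s (.c (nat_lit 515) l3 .e) (.s (.c (nat_lit 2008) l1 .e) (.s (.c (nat_lit 1585) l3 .e) s0_26))))))))))))))))))))))))))))))

noncomputable def s0_24 : Ss := (.s (.c (nat_lit 1616) l0 .e) (.s (.c (nat_lit 2605) l0 .e) (.s (.c (nat_lit 2005) l0 .e) (.s (.c (nat_lit 1093) l2 .e) (.s (.c (nat_lit 1275) l2 .e) (.s (.c (nat_lit 1776) l3 .e) (.s (.c (nat_lit 2640) l2 .e) (.s (.c (nat_lit 121) l3 .e) (.s (.c (nat_lit 778) l3 .e) (.s (.c (nat_lit 2473) l0 .e) (.s (.c (nat_lit 1145) l1 .e) (.s (.c (nat_lit 947) l0 .e) (.s (.c (nat_lit 1701) l3 .e) (.s (.c (nat_lit 2622) l2 .e) (.s (.c (nat_lit 2642) l2 .e) (.s (.c (nat_lit 2715) l0 .e) (.s (.c (nat_lit 874) l3 .e) (.s (.c (nat_lit 1207) l2 .e) (.s (.c (nat_lit 439) l3 .e) (.s (.c (nat_lit 2477) l0 .e) (.s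 (.c (nat_lit 2239) l3 .e) (.s (.c (nat_lit 475) l1 .e) (.s (.c (nat_lit 1894) l2 .e) (.s (.c (nat_lit 2371) l0 .e) (.s (.c (nat_lit 844) l0 .e) (.s (.c (nat_lit 2390) l3 .e) (.s (.c (nat_lit 1857) l2 .e) (.s (.c (nat_lit 2087) l3 .e) (.s (.c (nat_lit 2351) l0 .e) (.s (.c (nat_lit 2247) l1 .e) s0_25))))))))))))))))))))))))))))))

noncomputable def s0_23 : Ss := (.s (.c (nat_lit 1081) l3 .e) (.s (.c (nat_lit 1224) l3 .e) (.s (.c (nat_lit 2484) l1 .e) (.s (.c (nat_lit 1498) l3 .e) (.s (.c (nat_lit 1575) l2 .e) (.s (.c (nat_lit 2601) l3 .e) (.s (.c (nat_lit 184) l3 .e) (.s (.c (nat_lit 1374) l3 .e) (.s (.c (nat_lit 1234) l2 .e) (.s (.c (nat_lit 2246) l1 .e) (.s (.c (nat_lit 1435) l1 .e) (.s (.c (nat_lit 2410) l1 .e) (.s (.c (nat_lit 856) l1 .e) (.s (.c (nat_lit 1861) l2 .e) (.s (.c (nat_lit 249) l3 .e) (.s (.c (nat_lit 1472) l1 .e) (.s (.c (nat_lit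 267) l3 .e) (.s (.c (nat_lit 1152) l2 .e) (.s (.c (nat_lit 2575) l2 .e) (.s (.c (nat_lit 1295) l3 .e) (.s (.c (nat_lit 1148) l2 .e) (.s (.c (nat_lit 694) l3 .e) (.s (.c (nat_lit 2690) l2 .e) (.s (.c (nat_lit 1625) l0 .e) (.s (.c (nat_lit 727) l0 .e) (.s (.c (nat_lit 2303) l3 .e) (.s (.c (nat_lit 1842) l0 .e) (.s (.c (nat_lit 1827) l0 .e) (.s (.c (nat_lit 2179) l0 .e) (.s (.c (nat_lit 1422) l0 .e) s0_24))))))))))))))))))))))))))))))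

noncomputable def s0_22 : Ss := (.s (.c (nat_lit 1795) l0 .e) (.s (.c (nat_lit 2331) l2 .e) (.s (.c (nat_lit 2214) l1 .e) (.s (.c (nat_lit 2006) l0 .e) (.s (.c (nat_lit 783) l1 .e) (.s (.c (nat_lit 357) l0 .e) (.s (.c (nat_lit 1571) l0 .e) (.s (.c (nat_lit 2365) l2 .e) (.s (.c (nat_lit 1080) l1 .e) (.s (.c (nat_lit 2323) l2 .e) (.s (.c (nat_lit 1744) l0 .e) (.s (.c (nat_lit 2678) l0 .e) (.s (.c (nat_lit 449) l3 .e) (.s (.c (nat_lit 1728) l2 .e) (.s (.c (nat_lit 2653) l3 .e) (.s (.c (nat_lit 2116) l3 .e) (.s (.c (nat_lit 375) l1 .e) (.s (.c (nat_lit 1713) l2 .e) (.s (.c (nat_lit 362) l3 .e) (.s (.c (nat_lit 2481) l3 .e) (.s (.c (nat_lit 1920) l2 .e) (.s (.c (nat_lit 2625) l2 .e) (.s (.c (nat_lit 1519) l0 .e) (.s (.c (nat_lit 2212) l2 .e) (.s (.c (nat_lit 720) l1 .e) (.s (.c (nat_lit 2369) l1 .e) (.s (.c (nat_lit 2531) l0 .e) (.s (.c (nat_lit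 2389) l2 .e) (.s (.c (nat_lit 2635) l2 .e) (.s (.c (nat_lit 1425) l3 .e) s0_23))))))))))))))))))))))))))))))

noncomputable def s0_21 : Ss := (.s (.c (nat_lit 1101) l3 .e) (.s (.c (nat_lit 2168) l0 .e) (.s (.c (nat_lit 2293) l3 .e) (.s (.c (nat_lit 1377) l3 .e) (.s (.c (nat_lit 961) l2 .e) (.s (.c (nat_lit 2709) l3 .e) (.s (.c (nat_lit 1708) l2 .e) (.s (.c (nat_lit 1967) l0 .e) (.s (.c (nat_lit 2501) l0 .e) (.s (.c (nat_lit 1028) l3 .e) (.s (.c (nat_lit 920) l1 .e) (.s (.c (nat_lit 1323) l3 .e) (.s (.c (nat_lit 1313) l2 .e) (.s (.c (nat_lit 2638) l1 .e) (.s (.c (nat_lit 2444) l3 .e) (.s (.c (nat_lit 2135) l0 .e) (.s (.c (nat_lit 1364) l0 .e) (.s (.c (nat_lit 2121) l2 .e) (.s (.c (nat_lit 1800) l1 .e) (.s (.c (nat_lit 1964) l3 .e) (.s (.c (nat_lit 2505) l3 .e) (.s (.c (nat_lit 2475) l3 .e) (.s (.c (nat_lit 319) l3 .e) (.s (.c (nat_lit 241)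 l3 .e) (.s (.c (nat_lit 911) l1 .e) (.s (.c (nat_lit 1602) l0 .e) (.s (.c (nat_lit 2372) l0 .e) (.s (.c (nat_lit 684) l2 .e) (.s (.c (nat_lit 2470) l0 .e) (.s (.c (nat_lit 1505) l1 .e) s0_22))))))))))))))))))))))))))))))

noncomputable def s0_20 : Ss := (.s (.c (nat_lit 2547) l3 .e) (.s (.c (nat_lit 2645) l0 .e) (.s (.c (nat_lit 2107) l3 .e) (.s (.c (nat_lit 295) l3 .e) (.s (.c (nat_lit 2541) l0 .e) (.s (.c (nat_lit 2483) l3 .e) (.s (.c (nat_lit 698) l2 .e) (.s (.c (nat_lit 1655) l0 .e) (.s (.c (nat_lit 1628) l0 .e) (.s (.c (nat_lit 2498) l1 .e) (.s (.c (nat_lit 2682) l0 .e) (.s (.c (nat_lit 2421) l0 .e) (.s (.c (nat_lit 2370) l3 .e) (.s (.c (nat_lit 2397) l2 .e) (.s (.c (nat_lit 2593) l2 .e) (.s (.c (nat_lit 1074) l3 .e) (.s (.c (nat_lit 1987) l2 .e) (.s (.c (nat_lit 1961) l3 .e) (.s (.c (nat_lit 2689) l1 .e) (.s (.c (nat_lit 920) l0 .e)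 (.s (.c (nat_lit 277) l3 .e) (.s (.c (nat_lit 2354) l1 .e) (.s (.c (nat_lit 1811) l1 .e) (.s (.c (nat_lit 2270) l2 .e) (.s (.c (nat_lit 929) l2 .e) (.s (.c (nat_lit 2517) l3 .e) (.s (.c (nat_lit 1238) l3 .e) (.s (.c (nat_lit 2231) l3 .e) (.s (.c (nat_lit 635) l3 .e) (.s (.c (nat_lit 2665) l3 .e) s0_21))))))))))))))))))))))))))))))

noncomputable def s0_19 : Ss := (.s (.c (nat_lit 2655) l1 .e) (.s (.c (nat_lit 2174) l1 .e) (.s (.c (nat_lit 709) l0 .e) (.s (.c (nat_lit 1040) l1 .e) (.s (.c (nat_lit 2022) l1 .e) (.s (.c (nat_lit 1367) l1 .e) (.s (.c (nat_lit 2064) l3 .e) (.s (.c (nat_lit 343) l2 .e) (.s (.c (nat_lit 2653) l1 .e) (.s (.c (nat_lit 2421) l2 .e) (.s (.c (nat_lit 1458) l1 .e) (.s (.c (nat_lit 1459) l1 .e) (.s (.c (nat_lit 1285) l0 .e) (.s (.c (nat_lit 1050) l3 .e) (.s (.c (nat_lit 532) l3 .e) (.s (.c (nat_lit 2173) l2 .e) (.s (.c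 (nat_lit 2571) l3 .e) (.s (.c (nat_lit 2657) l3 .e) (.s (.c (nat_lit 1812) l3 .e) (.s (.c (nat_lit 877) l0 .e) (.s (.c (nat_lit 831) l3 .e) (.s (.c (nat_lit 1902) l2 .e) (.s (.c (nat_lit 2535) l0 .e) (.s (.c (nat_lit 1907) l1 .e) (.s (.c (nat_lit 2464) l2 .e) (.s (.c (nat_lit 2069) l0 .e) (.s (.c (nat_lit 2718) l1 .e) (.s (.c (nat_lit 1961) l0 .e) (.s (.c (nat_lit 2210) l0 .e) (.s (.c (nat_lit 596) l3 .e) s0_20))))))))))))))))))))))))))))))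

noncomputable def s0_18 : Ss := (.s (.c (nat_lit 751) l3 .e) (.s (.c (nat_lit 2563) l1 .e) (.s (.c (nat_lit 942) l1 .e) (.s (.c (nat_lit 2499) l2 .e) (.s (.c (nat_lit 1628) l3 .e) (.s (.c (nat_lit 1254) l1 .e) (.s (.c (nat_lit 2261) l2 .e) (.s (.c (nat_lit 1964) l0 .e) (.s (.c (nat_lit 2550) l2 .e) (.s (.c (nat_lit 961) l1 .e) (.s (.c (nat_lit 1348) l0 .e) (.s (.c (nat_lit 2628) l0 .e) (.s (.c (nat_lit 1455) l0 .e) (.s (.c (nat_lit 1040) l3 .e) (.s (.c (nat_lit 576) l1 .e) (.s (.c (nat_lit 1928) l2 .e) (.s (.c (nat_lit 2305) l3 .e) (.s (.c (nat_lit 1229) l2 .e) (.s (.c (nat_lit 2159) l3 .e) (.s (.c (nat_lit 525) l1 .e) (.s (.c (nat_lit 2000) l2 .e) (.s (.c (nat_lit 1419) l3 .e) (.s (.c (nat_lit 477) l3 .e) (.s (.c (nat_lit 2444) l1 .e) (.s (.c (nat_lit 2423) l3 .e) (.s (.c (nat_lit 1027) l0 .e) (.s (.c (nat_lit 323) l3 .e) (.s (.c (nat_lit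 2607) l1 .e) (.s (.c (nat_lit 1668) l3 .e) (.s (.c (nat_lit 2602) l3 .e) s0_19))))))))))))))))))))))))))))))

noncomputable def s0_17 : Ss := (.s (.c (nat_lit 2059) l2 .e) (.s (.c (nat_lit 115) l3 .e) (.s (.c (nat_lit 1878) l1 .e) (.s (.c (nat_lit 2517) l0 .e) (.s (.c (nat_lit 713) l2 .e) (.s (.c (nat_lit 1616) l3 .e) (.s (.c (nat_lit 972) l0 .e) (.s (.c (nat_lit 165) l2 .e) (.s (.c (nat_lit 2440) l0 .e) (.s (.c (nat_lit 1919) l3 .e) (.s (.c (nat_lit 820) l1 .e) (.s (.c (nat_lit 1655) l3 .e) (.s (.c (nat_lit 529) l3 .e) (.s (.c (nat_lit 2100) l2 .e) (.s (.c (nat_lit 1423) l3 .e) (.s (.c (nat_lit 1901) l0 .e) (.s (.c (nat_lit 1290) l3 .e) (.s (.c (nat_lit 1647) l3 .e) (.s (.c (nat_lit 1588) l2 .e) (.s (.c (nat_lit 1889) l1 .e) (.s (.c (nat_lit 1884) l0 .e) (.s (.c (nat_lit 1524) l3 .e) (.s (.c (nat_lit 801) l0 .e) (.s (.c (nat_lit 1064) l0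 .e) (.s (.c (nat_lit 744) l3 .e) (.s (.c (nat_lit 2548) l1 .e) (.s (.c (nat_lit 2650) l2 .e) (.s (.c (nat_lit 2664) l3 .e) (.s (.c (nat_lit 2202) l2 .e) (.s (.c (nat_lit 1409) l3 .e) s0_18))))))))))))))))))))))))))))))

noncomputable def s0_16 : Ss := (.s (.c (nat_lit 2493) l2 .e) (.s (.c (nat_lit 2282) l3 .e) (.s (.c (nat_lit 1565) l0 .e) (.s (.c (nat_lit 1262) l3 .e) (.s (.c (nat_lit 2401) l1 .e) (.s (.c (nat_lit 607) l3 .e) (.s (.c (nat_lit 917) l3 .e) (.s (.c (nat_lit 2114) l1 .e) (.s (.c (nat_lit 2090) l2 .e) (.s (.c (nat_lit 1052) l1 .e) (.s (.c (nat_lit 2434) l0 .e) (.s (.c (nat_lit 2489) l3 .e) (.s (.c (nat_lit 2654) l1 .e) (.s (.c (nat_lit 1240) l1 .e) (.s (.c (nat_lit 2583) l3 .e) (.s (.c (nat_lit 2196) l2 .e) (.s (.c (nat_lit 1652) l1 .e) (.s (.c (nat_lit 2106) l1 .e) (.s (.c (nat_lit 790) l2 .e) (.s (.c (nat_lit 1233) l0 .e) (.s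 (.c (nat_lit 1534) l0 .e) (.s (.c (nat_lit 2448) l0 .e) (.s (.c (nat_lit 2346) l0 .e) (.s (.c (nat_lit 2164) l1 .e) (.s (.c (nat_lit 2612) l2 .e) (.s (.c (nat_lit 1327) l2 .e) (.s (.c (nat_lit 486) l3 .e) (.s (.c (nat_lit 2400) l3 .e) (.s (.c (nat_lit 746) l2 .e) (.s (.c (nat_lit 2413) l0 .e) s0_17))))))))))))))))))))))))))))))

noncomputable def s0_15 : Ss := (.s (.c (nat_lit 1078) l3 .e) (.s (.c (nat_lit 1333) l1 .e) (.s (.c (nat_lit 2006) l3 .e) (.s (.c (nat_lit 1570) l1 .e) (.s (.c (nat_lit 2727) l2 .e) (.s (.c (nat_lit 2681) l1 .e) (.s (.c (nat_lit 890) l0 .e) (.s (.c (nat_lit 2691) l0 .e) (.s (.c (nat_lit 2689) l2 .e) (.s (.c (nat_lit 2534) l1 .e) (.s (.c (nat_lit 1398) l0 .e) (.s (.c (nat_lit 2245) l1 .e) (.s (.c (nat_lit 1304) l3 .e) (.s (.c (nat_lit 1630) l1 .e) (.s (.c (nat_lit 1622) l2 .e) (.s (.c (nat_lit 2298) l1 .e) (.s (.c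 (nat_lit 2440) l3 .e) (.s (.c (nat_lit 154) l0 .e) (.s (.c (nat_lit 264) l1 .e) (.s (.c (nat_lit 1144) l3 .e) (.s (.c (nat_lit 2312) l0 .e) (.s (.c (nat_lit 285) l3 .e) (.s (.c (nat_lit 603) l0 .e) (.s (.c (nat_lit 2626) l2 .e) (.s (.c (nat_lit 2576) l2 .e) (.s (.c (nat_lit 236) l3 .e) (.s (.c (nat_lit 1124) l3 .e) (.s (.c (nat_lit 2431) l1 .e) (.s (.c (nat_lit 1891) l0 .e) (.s (.c (nat_lit 1623) l2 .e) s0_16))))))))))))))))))))))))))))))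

noncomputable def s0_14 : Ss := (.s (.c (nat_lit 1055) l0 .e) (.s (.c (nat_lit 1901) l3 .e) (.s (.c (nat_lit 1283) l0 .e) (.s (.c (nat_lit 1841) l3 .e) (.s (.c (nat_lit 1956) l1 .e) (.s (.c (nat_lit 816) l0 .e) (.s (.c (nat_lit 1481) l0 .e) (.s (.c (nat_lit 2613) l0 .e) (.s (.c (nat_lit 485) l2 .e) (.s (.c (nat_lit 889) l3 .e) (.s (.c (nat_lit 592) l0 .e) (.s (.c (nat_lit 170) l3 .e) (.s (.c (nat_lit 885) l3 .e) (.s (.c (nat_lit 1065) l1 .e) (.s (.c (nat_lit 566) l3 .e) (.s (.c (nat_lit 2564) l0 .e) (.s (.c (nat_lit 222) l3 .e) (.s (.c (nat_lit 2312) l1 .e) (.s (.c (nat_lit 2124) l1 .e) (.s (.c (nat_lit 2285) l0 .e) (.s (.c (nat_lit 2545) l1 .e) (.s (.c (nat_lit 2418) l1 .e) (.s (.c (nat_lit 2442) l0 .e) (.s (.c (nat_lit 2660) l1 .e) (.s (.c (nat_lit 304) l3 .e) (.s (.c (nat_lit 1458) l2 .e) (.s (.c (nat_lit 1235) l3 .e) (.s (.c (nat_lit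 1849) l1 .e) (.s (.c (nat_lit 2169) l3 .e) (.s (.c (nat_lit 339) l3 .e) s0_15))))))))))))))))))))))))))))))

noncomputable def s0_13 : Ss := (.s (.c (nat_lit 1365) l3 .e) (.s (.c (nat_lit 2079) l3 .e) (.s (.c (nat_lit 2723) l3 .e) (.s (.c (nat_lit 2364) l3 .e) (.s (.c (nat_lit 2074) l3 .e) (.s (.c (nat_lit 2594) l1 .e) (.s (.c (nat_lit 2047) l3 .e) (.s (.c (nat_lit 425) l3 .e) (.s (.c (nat_lit 2710) l3 .e) (.s (.c (nat_lit 1335) l2 .e) (.s (.c (nat_lit 949) l0 .e) (.s (.c (nat_lit 2674) l0 .e) (.s (.c (nat_lit 1652) l2 .e) (.s (.c (nat_lit 1989) l3 .e) (.s (.c (nat_lit 120) l3 .e) (.s (.c (nat_lit 2384) l0 .e) (.s (.c (nat_lit 1834) l0 .e) (.s (.c (nat_lit 2556) l3 .e) (.s (.c (nat_lit 807) l3 .e) (.s (.c (nat_lit 1578) l1 .e) (.s (.c (nat_lit 727) l3 .e) (.s (.c (nat_lit 2159) l2 .e) (.s (.c (nat_lit 1972) l0 .e) (.s (.c (nat_lit 2339) l0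 .e) (.s (.c (nat_lit 1831) l3 .e) (.s (.c (nat_lit 2590) l0 .e) (.s (.c (nat_lit 409) l3 .e) (.s (.c (nat_lit 1251) l3 .e) (.s (.c (nat_lit 1748) l3 .e) (.s (.c (nat_lit 2560) l2 .e) s0_14))))))))))))))))))))))))))))))

noncomputable def s0_12 : Ss := (.s (.c (nat_lit 2447) l3 .e) (.s (.c (nat_lit 2430) l2 .e) (.s (.c (nat_lit 599) l3 .e) (.s (.c (nat_lit 2703) l2 .e) (.s (.c (nat_lit 518) l0 .e) (.s (.c (nat_lit 1958) l1 .e) (.s (.c (nat_lit 1833) l0 .e) (.s (.c (nat_lit 1099) l2 .e) (.s (.c (nat_lit 547) l2 .e) (.s (.c (nat_lit 1093) l3 .e) (.s (.c (nat_lit 1991) l2 .e) (.s (.c (nat_lit 1137) l2 .e) (.s (.c (nat_lit 2355) l3 .e) (.s (.c (nat_lit 2531) l1 .e) (.s (.c (nat_lit 1266) l2 .e) (.s (.c (nat_lit 1873) l3 .e) (.s (.c (nat_lit 1296) l0 .e) (.s (.c (nat_lit 2604) l0 .e) (.s (.c (nat_lit 1452) l2 .e) (.s (.c (nat_lit 2570) l2 .e) (.s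 (.c (nat_lit 2592) l1 .e) (.s (.c (nat_lit 2002) l1 .e) (.s (.c (nat_lit 2732) l2 .e) (.s (.c (nat_lit 2243) l3 .e) (.s (.c (nat_lit 1154) l3 .e) (.s (.c (nat_lit 2416) l1 .e) (.s (.c (nat_lit 340) l3 .e) (.s (.c (nat_lit 734) l3 .e) (.s (.c (nat_lit 1436) l0 .e) (.s (.c (nat_lit 1607) l0 .e) s0_13))))))))))))))))))))))))))))))

noncomputable def s0_11 : Ss := (.s (.c (nat_lit 2049) l3 .e) (.s (.c (nat_lit 1371) l3 .e) (.s (.c (nat_lit 450) l1 .e) (.s (.c (nat_lit 2037) l0 .e) (.s (.c (nat_lit 2610) l1 .e) (.s (.c (nat_lit 2670) l3 .e) (.s (.c (nat_lit 2717) l3 .e) (.s (.c (nat_lit 1750) l0 .e) (.s (.c (nat_lit 2572) l1 .e) (.s (.c (nat_lit 933) l1 .e) (.s (.c (nat_lit 1002) l2 .e) (.s (.c (nat_lit 1884) l1 .e) (.s (.c (nat_lit 1634) l0 .e) (.s (.c (nat_lit 1654) l2 .e) (.s (.c (nat_lit 2019) l0 .e) (.s (.c (nat_lit 1605) l1 .e) (.s (.c (nat_lit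 743) l3 .e) (.s (.c (nat_lit 1234) l0 .e) (.s (.c (nat_lit 1225) l3 .e) (.s (.c (nat_lit 788) l1 .e) (.s (.c (nat_lit 2581) l2 .e) (.s (.c (nat_lit 2361) l2 .e) (.s (.c (nat_lit 2407) l1 .e) (.s (.c (nat_lit 2669) l1 .e) (.s (.c (nat_lit 1388) l0 .e) (.s (.c (nat_lit 1767) l2 .e) (.s (.c (nat_lit 2175) l0 .e) (.s (.c (nat_lit 2612) l3 .e) (.s (.c (nat_lit 2165) l1 .e) (.s (.c (nat_lit 1301) l1 .e) s0_12))))))))))))))))))))))))))))))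

noncomputable def s0_10 : Ss := (.s (.c (nat_lit 578) l0 .e) (.s (.c (nat_lit 1855) l0 .e) (.s (.c (nat_lit 1588) l3 .e) (.s (.c (nat_lit 2674) l2 .e) (.s (.c (nat_lit 2732) l1 .e) (.s (.c (nat_lit 1872) l0 .e) (.s (.c (nat_lit 570) l3 .e) (.s (.c (nat_lit 1791) l3 .e) (.s (.c (nat_lit 1862) l3 .e) (.s (.c (nat_lit 785) l0 .e) (.s (.c (nat_lit 1889) l0 .e) (.s (.c (nat_lit 2302) l2 .e) (.s (.c (nat_lit 1057) l2 .e) (.s (.c (nat_lit 1182) l2 .e) (.s (.c (nat_lit 1325) l2 .e) (.s (.c (nat_lit 2643) l3 .e) (.s (.c (nat_lit 2093) l3 .e) (.s (.c (nat_lit 1649) l3 .e) (.s (.c (nat_lit 2555) l3 .e) (.s (.c (nat_lit 738) l2 .e) (.s (.c (nat_lit 1653) l3 .e) (.s (.c (nat_lit 1149) l0 .e) (.s (.c (nat_lit 2332) l3 .e) (.s (.c (nat_lit 1441) l2 .e) (.s (.c (nat_lit 273) l2 .e) (.s (.c (nat_lit 1634) l3 .e) (.s (.c (nat_lit 1833) l1 .e) (.s (.c (nat_lit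 2726) l1 .e) (.s (.c (nat_lit 1093) l1 .e) (.s (.c (nat_lit 1709) l0 .e) s0_11))))))))))))))))))))))))))))))

noncomputable def s0_9 : Ss := (.s (.c (nat_lit 2690) l3 .e) (.s (.c (nat_lit 1007) l3 .e) (.s (.c (nat_lit 1277) l1 .e) (.s (.c (nat_lit 906) l1 .e) (.s (.c (nat_lit 190) l0 .e) (.s (.c (nat_lit 991) l3 .e) (.s (.c (nat_lit 1826) l1 .e) (.s (.c (nat_lit 2437) l1 .e) (.s (.c (nat_lit 1669) l3 .e) (.s (.c (nat_lit 1413) l3 .e) (.s (.c (nat_lit 2441) l2 .e) (.s (.c (nat_lit 1548) l1 .e) (.s (.c (nat_lit 1814) l3 .e) (.s (.c (nat_lit 1967) l3 .e) (.s (.c (nat_lit 207) l3 .e) (.s (.c (nat_lit 739) l0 .e) (.s (.c (nat_lit 365) l3 .e) (.s (.c (nat_lit 2676) l3 .e) (.s (.c (nat_lit 2081) l0 .e) (.s (.c (nat_lit 1140) l3 .e) (.s (.c (nat_lit 2192) l2 .e) (.s (.c (nat_lit 2069) l3 .e) (.s (.c (nat_lit 1870) l3 .e) (.s (.c (nat_lit 1288) l1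 .e) (.s (.c (nat_lit 2534) l2 .e) (.s (.c (nat_lit 2707) l1 .e) (.s (.c (nat_lit 202) l3 .e) (.s (.c (nat_lit 86) l3 .e) (.s (.c (nat_lit 1331) l2 .e) (.s (.c (nat_lit 284) l1 .e) s0_10))))))))))))))))))))))))))))))

noncomputable def s0_8 : Ss := (.s (.c (nat_lit 1607) l2 .e) (.s (.c (nat_lit 2318) l3 .e) (.s (.c (nat_lit 2617) l0 .e) (.s (.c (nat_lit 1398) l1 .e) (.s (.c (nat_lit 1152) l1 .e) (.s (.c (nat_lit 2112) l0 .e) (.s (.c (nat_lit 1489) l0 .e) (.s (.c (nat_lit 2506) l0 .e) (.s (.c (nat_lit 1439) l3 .e) (.s (.c (nat_lit 632) l3 .e) (.s (.c (nat_lit 2542) l3 .e) (.s (.c (nat_lit 574) l3 .e) (.s (.c (nat_lit 2317) l2 .e) (.s (.c (nat_lit 1997) l1 .e) (.s (.c (nat_lit 2083) l0 .e) (.s (.c (nat_lit 1963) l2 .e) (.s (.c (nat_lit 2431) l3 .e) (.s (.c (nat_lit 2637) l0 .e) (.s (.c (nat_lit 2714) l3 .e) (.s (.c (nat_lit 2719) l0 .e) (.s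 (.c (nat_lit 1190) l2 .e) (.s (.c (nat_lit 2083) l2 .e) (.s (.c (nat_lit 1044) l3 .e) (.s (.c (nat_lit 2600) l1 .e) (.s (.c (nat_lit 1276) l0 .e) (.s (.c (nat_lit 2207) l3 .e) (.s (.c (nat_lit 2404) l0 .e) (.s (.c (nat_lit 2067) l3 .e) (.s (.c (nat_lit 1239) l1 .e) (.s (.c (nat_lit 2480) l3 .e) s0_9))))))))))))))))))))))))))))))

noncomputable def s0_7 : Ss := (.s (.c (nat_lit 2533) l1 .e) (.s (.c (nat_lit 1429) l2 .e) (.s (.c (nat_lit 1526) l1 .e) (.s (.c (nat_lit 2639) l3 .e) (.s (.c (nat_lit 267) l0 .e) (.s (.c (nat_lit 601) l3 .e) (.s (.c (nat_lit 2451) l3 .e) (.s (.c (nat_lit 987) l3 .e) (.s (.c (nat_lit 1213) l3 .e) (.s (.c (nat_lit 709) l1 .e) (.s (.c (nat_lit 2505) l2 .e) (.s (.c (nat_lit 2255) l3 .e) (.s (.c (nat_lit 1547) l3 .e) (.s (.c (nat_lit 2697) l1 .e) (.s (.c (nat_lit 2625) l3 .e) (.s (.c (nat_lit 1550) l0 .e) (.s (.c (nat_lit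 2465) l1 .e) (.s (.c (nat_lit 708) l3 .e) (.s (.c (nat_lit 2555) l0 .e) (.s (.c (nat_lit 2354) l3 .e) (.s (.c (nat_lit 1627) l2 .e) (.s (.c (nat_lit 213) l3 .e) (.s (.c (nat_lit 917) l2 .e) (.s (.c (nat_lit 2720) l2 .e) (.s (.c (nat_lit 472) l0 .e) (.s (.c (nat_lit 2131) l0 .e) (.s (.c (nat_lit 1405) l0 .e) (.s (.c (nat_lit 1390) l3 .e) (.s (.c (nat_lit 2308) l3 .e) (.s (.c (nat_lit 2189) l2 .e) s0_8))))))))))))))))))))))))))))))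

noncomputable def s0_6 : Ss := (.s (.c (nat_lit 1568) l3 .e) (.s (.c (nat_lit 1512) l3 .e) (.s (.c (nat_lit 2125) l1 .e) (.s (.c (nat_lit 2599) l3 .e) (.s (.c (nat_lit 408) l0 .e) (.s (.c (nat_lit 2170) l1 .e) (.s (.c (nat_lit 1105) l0 .e) (.s (.c (nat_lit 1955) l0 .e) (.s (.c (nat_lit 2541) l3 .e) (.s (.c (nat_lit 1422) l3 .e) (.s (.c (nat_lit 2237) l3 .e) (.s (.c (nat_lit 933) l3 .e) (.s (.c (nat_lit 145) l3 .e) (.s (.c (nat_lit 2503) l0 .e) (.s (.c (nat_lit 595) l1 .e) (.s (.c (nat_lit 452) l3 .e) (.s (.c (nat_lit 1274) l0 .e) (.s (.c (nat_lit 527) l2 .e) (.s (.c (nat_lit 2296) l1 .e) (.s (.c (nat_lit 1159) l1 .e) (.s (.c (nat_lit 1426) l3 .e) (.s (.c (nat_lit 2275) l0 .e) (.s (.c (nat_lit 2383) l2 .e) (.s (.c (nat_lit 1706) l0 .e) (.s (.c (nat_lit 2563) l2 .e) (.s (.c (nat_lit 1947) l0 .e) (.s (.c (nat_lit 2281) l0 .e) (.s (.c (nat_lit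 2576) l1 .e) (.s (.c (nat_lit 1600) l1 .e) (.s (.c (nat_lit 1604) l0 .e) s0_7))))))))))))))))))))))))))))))

noncomputable def s0_5 : Ss := (.s (.c (nat_lit 2610) l0 .e) (.s (.c (nat_lit 2211) l0 .e) (.s (.c (nat_lit 817) l3 .e) (.s (.c (nat_lit 2137) l2 .e) (.s (.c (nat_lit 2608) l3 .e) (.s (.c (nat_lit 459) l2 .e) (.s (.c (nat_lit 2174) l2 .e) (.s (.c (nat_lit 2442) l1 .e) (.s (.c (nat_lit 407) l3 .e) (.s (.c (nat_lit 466) l3 .e) (.s (.c (nat_lit 474) l3 .e) (.s (.c (nat_lit 2214) l3 .e) (.s (.c (nat_lit 1424) l2 .e) (.s (.c (nat_lit 2731) l3 .e) (.s (.c (nat_lit 450) l0 .e) (.s (.c (nat_lit 1495) l3 .e) (.s (.c (nat_lit 2538) l1 .e) (.s (.c (nat_lit 2031) l3 .e) (.s (.c (nat_lit 2498) l2 .e) (.s (.c (nat_lit 859) l3 .e) (.s (.c (nat_lit 2479) l2 .e) (.s (.c (nat_lit 907) l1 .e) (.s (.c (nat_lit 1743) l1 .e) (.s (.c (nat_lit 2679) l1 .e)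 (.s (.c (nat_lit 2221) l0 .e) (.s (.c (nat_lit 2527) l0 .e) (.s (.c (nat_lit 1369) l3 .e) (.s (.c (nat_lit 2129) l3 .e) (.s (.c (nat_lit 1814) l1 .e) (.s (.c (nat_lit 534) l3 .e) s0_6))))))))))))))))))))))))))))))

noncomputable def s0_4 : Ss := (.s (.c (nat_lit 2685) l1 .e) (.s (.c (nat_lit 1630) l0 .e) (.s (.c (nat_lit 2279) l3 .e) (.s (.c (nat_lit 374) l3 .e) (.s (.c (nat_lit 2727) l0 .e) (.s (.c (nat_lit 2713) l2 .e) (.s (.c (nat_lit 1404) l0 .e) (.s (.c (nat_lit 2704) l1 .e) (.s (.c (nat_lit 2516) l2 .e) (.s (.c (nat_lit 1095) l0 .e) (.s (.c (nat_lit 2572) l3 .e) (.s (.c (nat_lit 2374) l1 .e) (.s (.c (nat_lit 2708) l0 .e) (.s (.c (nat_lit 1527) l0 .e) (.s (.c (nat_lit 2014) l1 .e) (.s (.c (nat_lit 1084) l3 .e) (.s (.c (nat_lit 2580) l0 .e) (.s (.c (nat_lit 2206) l1 .e) (.s (.c (nat_lit 1501) l0 .e) (.s (.c (nat_lit 1688) l1 .e) (.s (.c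 (nat_lit 1283) l3 .e) (.s (.c (nat_lit 407) l2 .e) (.s (.c (nat_lit 2504) l0 .e) (.s (.c (nat_lit 2423) l2 .e) (.s (.c (nat_lit 1963) l0 .e) (.s (.c (nat_lit 2075) l2 .e) (.s (.c (nat_lit 2255) l2 .e) (.s (.c (nat_lit 1486) l0 .e) (.s (.c (nat_lit 2183) l3 .e) (.s (.c (nat_lit 1440) l2 .e) s0_5))))))))))))))))))))))))))))))

noncomputable def s0_3 : Ss := (.s (.c (nat_lit 824) l3 .e) (.s (.c (nat_lit 1428) l3 .e) (.s (.c (nat_lit 2392) l2 .e) (.s (.c (nat_lit 2418) l2 .e) (.s (.c (nat_lit 1266) l3 .e) (.s (.c (nat_lit 1711) l0 .e) (.s (.c (nat_lit 802) l1 .e) (.s (.c (nat_lit 1710) l1 .e) (.s (.c (nat_lit 2635) l0 .e) (.s (.c (nat_lit 2301) l1 .e) (.s (.c (nat_lit 2328) l3 .e) (.s (.c (nat_lit 1879) l3 .e) (.s (.c (nat_lit 2291) l0 .e) (.s (.c (nat_lit 478) l3 .e) (.s (.c (nat_lit 2091) l3 .e) (.s (.c (nat_lit 2069) l1 .e) (.s (.c (nat_lit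 1944) l3 .e) (.s (.c (nat_lit 2264) l2 .e) (.s (.c (nat_lit 924) l2 .e) (.s (.c (nat_lit 934) l2 .e) (.s (.c (nat_lit 453) l0 .e) (.s (.c (nat_lit 2559) l2 .e) (.s (.c (nat_lit 1707) l3 .e) (.s (.c (nat_lit 803) l0 .e) (.s (.c (nat_lit 2443) l3 .e) (.s (.c (nat_lit 896) l3 .e) (.s (.c (nat_lit 2401) l2 .e) (.s (.c (nat_lit 875) l3 .e) (.s (.c (nat_lit 2046) l3 .e) (.s (.c (nat_lit 593) l3 .e) s0_4))))))))))))))))))))))))))))))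

noncomputable def s0_2 : Ss := (.s (.c (nat_lit 1523) l0 .e) (.s (.c (nat_lit 2437) l3 .e) (.s (.c (nat_lit 1042) l2 .e) (.s (.c (nat_lit 2698) l0 .e) (.s (.c (nat_lit 866) l0 .e) (.s (.c (nat_lit 2173) l0 .e) (.s (.c (nat_lit 2549) l0 .e) (.s (.c (nat_lit 1068) l3 .e) (.s (.c (nat_lit 995) l0 .e) (.s (.c (nat_lit 2352) l3 .e) (.s (.c (nat_lit 2157) l0 .e) (.s (.c (nat_lit 2357) l3 .e) (.s (.c (nat_lit 1013) l3 .e) (.s (.c (nat_lit 2671) l2 .e) (.s (.c (nat_lit 1888) l1 .e) (.s (.c (nat_lit 2501) l3 .e) (.s (.c (nat_lit 741) l3 .e) (.s (.c (nat_lit 2008) l2 .e) (.s (.c (nat_lit 2720) l0 .e) (.s (.c (nat_lit 1702) l2 .e) (.s (.c (nat_lit 1229) l1 .e) (.s (.c (nat_lit 1424) l1 .e) (.s (.c (nat_lit 1004) l1 .e) (.s (.c (nat_lit 2485) l2 .e) (.s (.c (nat_lit 679) l3 .e) (.s (.c (nat_lit 2447) l2 .e) (.s (.c (nat_lit 658) l3 .e) (.s (.c (nat_lit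 2647) l3 .e) (.s (.c (nat_lit 1572) l3 .e) (.s (.c (nat_lit 2002) l2 .e) s0_3))))))))))))))))))))))))))))))

noncomputable def s0_1 : Ss := (.s (.c (nat_lit 1712) l3 .e) (.s (.c (nat_lit 1072) l3 .e) (.s (.c (nat_lit 2237) l2 .e) (.s (.c (nat_lit 377) l3 .e) (.s (.c (nat_lit 1281) l1 .e) (.s (.c (nat_lit 711) l2 .e) (.s (.c (nat_lit 613) l3 .e) (.s (.c (nat_lit 1866) l1 .e) (.s (.c (nat_lit 1947) l3 .e) (.s (.c (nat_lit 2023) l2 .e) (.s (.c (nat_lit 2356) l1 .e) (.s (.c (nat_lit 1650) l1 .e) (.s (.c (nat_lit 2244) l2 .e) (.s (.c (nat_lit 1453) l3 .e) (.s (.c (nat_lit 2636) l0 .e) (.s (.c (nat_lit 556) l3 .e) (.s (.c (nat_lit 1417) l3 .e) (.s (.c (nat_lit 631) l3 .e) (.s (.c (nat_lit 1606) l3 .e) (.s (.c (nat_lit 1080) l0 .e) (.s (.c (nat_lit 2532) l0 .e) (.s (.c (nat_lit 1656) l3 .e) (.s (.c (nat_lit 1952) l1 .e) (.s (.c (nat_lit 130) l1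 .e) (.s (.c (nat_lit 2262) l0 .e) (.s (.c (nat_lit 2616) l1 .e) (.s (.c (nat_lit 2643) l1 .e) (.s (.c (nat_lit 1022) l3 .e) (.s (.c (nat_lit 2375) l0 .e) (.s (.c (nat_lit 1763) l1 .e) s0_2))))))))))))))))))))))))))))))

noncomputable def s0_0 : Ss := (.s (.c (nat_lit 2732) l4 .e) (.s (.c (nat_lit 2164) l2 .e) (.s (.c (nat_lit 1002) l1 .e) (.s (.c (nat_lit 2130) l1 .e) (.s (.c (nat_lit 2630) l0 .e) (.s (.c (nat_lit 2077) l0 .e) (.s (.c (nat_lit 2369) l2 .e) (.s (.c (nat_lit 2039) l1 .e) (.s (.c (nat_lit 1759) l1 .e) (.s (.c (nat_lit 1147) l0 .e) (.s (.c (nat_lit 2198) l3 .e) (.s (.c (nat_lit 344) l0 .e) (.s (.c (nat_lit 2356) l2 .e) (.s (.c (nat_lit 1620) l0 .e) (.s (.c (nat_lit 2007) l2 .e) (.s (.c (nat_lit 268) l0 .e) (.s (.c (nat_lit 2623) l2 .e) (.s (.c (nat_lit 886) l3 .e) (.s (.c (nat_lit 2675) l2 .e) (.s (.c (nat_lit 2387) l1 .e) (.s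 (.c (nat_lit 2621) l0 .e) (.s (.c (nat_lit 915) l1 .e) (.s (.c (nat_lit 228) l1 .e) (.s (.c (nat_lit 1427) l1 .e) (.s (.c (nat_lit 650) l2 .e) (.s (.c (nat_lit 1339) l3 .e) (.s (.c (nat_lit 1524) l1 .e) (.s (.c (nat_lit 2652) l0 .e) (.s (.c (nat_lit 2625) l0 .e) (.s (.c (nat_lit 568) l3 .e) s0_1))))))))))))))))))))))))))))))

end Pool.Agent.L3E.RM.M
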