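import Pool.Agent.L3E.RM.DatL

set_option autoImplicit false
set_option maxRecDepth 100000
set_option linter.all false

namespace Pool.Agent.L3E.RM.M

open Pool.Agent.L3E.RMG Pool.Agent.L3E.RM

noncomputable def u1_0 : St := (.c (nat_lit 2341) l1 (.c (nat_lit 1407) l42 (.c (nat_lit 1089) l42 (.c (nat_lit 2343) l1 (.c (nat_lit 2557) l107 (.c (nat_lit 988) l1 (.c (nat_lit 643) l1 (.c (nat_lit 2576) l176 (.c (nat_lit 1137) l1 (.c (nat_lit 2541) l63 (.c (nat_lit 1387) l50 (.c (nat_lit 1814) l65 (.c (nat_lit 2720) l107 (.c (nat_lit 2157) l63 (.c (nat_lit 2660) l100 (.c (nat_lit 2214) l97 (.c (nat_lit 1764) l50 (.c (nat_lit 2397) l65 (.c (nat_lit 1192) l50 (.c (nat_lit 1375) l50 (.c (nat_lit 1757) l50 (.c (nat_lit 1396) l50 (.c (nat_lit 1386) l50 (.c (nat_lit 1426) l50 (.c (nat_lit 2354) l65 .e)))))))))))))))))))))))))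
noncomputable def u1_1 : St := (.c (nat_lit 2659) l69 (.c (nat_lit 2505) l179 (.c (nat_lit 2658) l104 (.c (nat_lit 1969) l52 (.c (nat_lit 1991) l52 (.c (nat_lit 2575) l171 (.c (nat_lit 2423) l231 (.c (nat_lit 2271) l52 (.c (nat_lit 2157) l52 (.c (nat_lit 2157) l78 (.c (nat_lit 2541) l78 (.c (nat_lit 2302) l78 (.c (nat_lit 2005) l52 (.c (nat_lit 869) l42 (.c (nat_lit 1877) l49 (.c (nat_lit 1966) l49 (.c (nat_lit 1849) l65 (.c (nat_lit 909) l1 (.c (nat_lit 2300) l157 (.c (nat_lit 2049) l50 (.c (nat_lit 2271) l48 (.c (nat_lit 1991) l63 (.c (nat_lit 1992) l65 (.c (nat_lit 1572) l50 (.c (nat_lit 1991) l48 (.c (nat_lit 2625) l63 (.c (nat_lit 1965) l65 (.c (nat_lit 2241) l50 (.c (nat_lit 2642) l70 (.c (nat_lit 2312) l69 (.c (nat_lit 1969) l48 (.c (nat_lit 1272) l50 (.c (nat_lit 2302) l63 (.c (nat_lit 2158) l65 (.c (nat_lit 1841) l50 (.c (nat_lit 1095) l42 (.c (nat_lit 1741) l1 (.c (nat_lit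 2157) l48 (.c (nat_lit 2659) l207 (.c (nat_lit 2700) l157 u1_0))))))))))))))))))))))))))))))))))))))))
noncomputable def u1_2 : St := (.c (nat_lit 2564) l49 (.c (nat_lit 1648) l42 (.c (nat_lit 1808) l42 (.c (nat_lit 1713) l42 (.c (nat_lit 1529) l1 (.c (nat_lit 2379) l1 (.c (nat_lit 2417) l50 (.c (nat_lit 1650) l65 (.c (nat_lit 2296) l52 (.c (nat_lit 1575) l42 (.c (nat_lit 2299) l78 (.c (nat_lit 1410) l42 (.c (nat_lit 871) l42 (.c (nat_lit 2506) l118 (.c (nat_lit 1298) l53 (.c (nat_lit 2700) l114 (.c (nat_lit 2624) l97 (.c (nat_lit 2571) l65 (.c (nat_lit 2655) l69 (.c (nat_lit 2573) l69 (.c (nat_lit 2720) l157 (.c (nat_lit 2557) l49 (.c (nat_lit 2574) l65 (.c (nat_lit 2416) l65 (.c (nat_lit 2353) l49 (.c (nat_lit 2143) l42 (.c (nat_lit 915) l42 (.c (nat_lit 2499) l49 (.c (nat_lit 1991) l49 (.c (nat_lit 2005) l63 (.c (nat_lit 2546) l74 (.c (nat_lit 2341) l50 (.c (nat_lit 1890) l65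 (.c (nat_lit 1656) l74 (.c (nat_lit 2353) l48 (.c (nat_lit 2312) l49 (.c (nat_lit 1433) l42 (.c (nat_lit 2506) l91 (.c (nat_lit 2618) l141 (.c (nat_lit 1155) l1 u1_1))))))))))))))))))))))))))))))))))))))))
noncomputable def u1_3 : St := (.c (nat_lit 2296) l48 (.c (nat_lit 2624) l69 (.c (nat_lit 2334) l65 (.c (nat_lit 2571) l97 (.c (nat_lit 2575) l160 (.c (nat_lit 2659) l65 (.c (nat_lit 2624) l65 (.c (nat_lit 2214) l65 (.c (nat_lit 2302) l49 (.c (nat_lit 2172) l74 (.c (nat_lit 2575) l74 (.c (nat_lit 1810) l42 (.c (nat_lit 2423) l74 (.c (nat_lit 2385) l50 (.c (nat_lit 2660) l97 (.c (nat_lit 2110) l50 (.c (nat_lit 2567) l50 (.c (nat_lit 2503) l69 (.c (nat_lit 2385) l65 (.c (nat_lit 2660) l157 (.c (nat_lit 2566) l65 (.c (nat_lit 2624) l141 (.c (nat_lit 1529) l65 (.c (nat_lit 2296) l49 (.c (nat_lit 1158) l50 (.c (nat_lit 1295) l42 (.c (nat_lit 2353) l52 (.c (nat_lit 1877) l69 (.c (nat_lit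 1849) l50 (.c (nat_lit 2618) l97 (.c (nat_lit 1640) l42 (.c (nat_lit 2660) l70 (.c (nat_lit 1435) l42 (.c (nat_lit 2658) l70 (.c (nat_lit 2700) l79 (.c (nat_lit 2423) l108 (.c (nat_lit 2306) l108 (.c (nat_lit 2007) l74 (.c (nat_lit 2625) l118 (.c (nat_lit 2624) l49 u1_2))))))))))))))))))))))))))))))))))))))))
noncomputable def u1_4 : St := (.c (nat_lit 2302) l63 (.c (nat_lit 1841) l50 (.c (nat_lit 2131) l65 (.c (nat_lit 2701) l104 (.c (nat_lit 1093) l42 (.c (nat_lit 2659) l207 (.c (nat_lit 2341) l1 (.c (nat_lit 1766) l50 (.c (nat_lit 1450) l42 (.c (nat_lit 2343) l1 (.c (nat_lit 2557) l107 (.c (nat_lit 1336) l50 (.c (nat_lit 1029) l1 (.c (nat_lit 988) l1 (.c (nat_lit 1007) l1 (.c (nat_lit 1385) l1 (.c (nat_lit 643) l1 (.c (nat_lit 2541) l63 (.c (nat_lit 2422) l97 (.c (nat_lit 1387) l50 (.c (nat_lit 2416) l157 (.c (nat_lit 1781) l50 (.c (nat_lit 2720) l107 (.c (nat_lit 1748) l65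 (.c (nat_lit 2660) l100 (.c (nat_lit 1886) l65 (.c (nat_lit 1758) l50 (.c (nat_lit 2318) l65 (.c (nat_lit 2281) l69 (.c (nat_lit 2397) l65 (.c (nat_lit 1375) l50 (.c (nat_lit 1396) l50 (.c (nat_lit 2385) l157 (.c (nat_lit 1002) l50 (.c (nat_lit 2576) l104 .e)))))))))))))))))))))))))))))))))))
noncomputable def u1_5 : St := (.c (nat_lit 2506) l91 (.c (nat_lit 2538) l65 (.c (nat_lit 2618) l141 (.c (nat_lit 2443) l69 (.c (nat_lit 579) l42 (.c (nat_lit 2659) l69 (.c (nat_lit 2505) l179 (.c (nat_lit 2020) l50 (.c (nat_lit 2399) l65 (.c (nat_lit 2658) l104 (.c (nat_lit 2564) l69 (.c (nat_lit 1969) l52 (.c (nat_lit 1611) l74 (.c (nat_lit 1991) l52 (.c (nat_lit 942) l42 (.c (nat_lit 2575) l171 (.c (nat_lit 2423) l231 (.c (nat_lit 2271) l52 (.c (nat_lit 1629) l74 (.c (nat_lit 2541) l78 (.c (nat_lit 2302) l78 (.c (nat_lit 2005) l52 (.c (nat_lit 869) l42 (.c (nat_lit 1966) l49 (.c (nat_lit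 1849) l65 (.c (nat_lit 909) l1 (.c (nat_lit 1889) l65 (.c (nat_lit 2038) l50 (.c (nat_lit 1969) l63 (.c (nat_lit 2412) l65 (.c (nat_lit 2271) l48 (.c (nat_lit 1946) l65 (.c (nat_lit 1605) l65 (.c (nat_lit 1965) l65 (.c (nat_lit 2241) l50 (.c (nat_lit 2377) l50 (.c (nat_lit 1518) l50 (.c (nat_lit 2447) l97 (.c (nat_lit 2312) l69 (.c (nat_lit 1909) l65 u1_4))))))))))))))))))))))))))))))))))))))))
noncomputable def u1_6 : St := (.c (nat_lit 2423) l108 (.c (nat_lit 1140) l50 (.c (nat_lit 2625) l118 (.c (nat_lit 2440) l65 (.c (nat_lit 1648) l42 (.c (nat_lit 1529) l1 (.c (nat_lit 2417) l50 (.c (nat_lit 2092) l42 (.c (nat_lit 817) l42 (.c (nat_lit 2296) l52 (.c (nat_lit 2299) l78 (.c (nat_lit 2138) l1 (.c (nat_lit 1410) l42 (.c (nat_lit 1655) l65 (.c (nat_lit 871) l42 (.c (nat_lit 2642) l79 (.c (nat_lit 1298) l53 (.c (nat_lit 2700) l114 (.c (nat_lit 2624) l97 (.c (nat_lit 2571) l65 (.c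 (nat_lit 2655) l69 (.c (nat_lit 2573) l69 (.c (nat_lit 2557) l49 (.c (nat_lit 2574) l65 (.c (nat_lit 2416) l65 (.c (nat_lit 915) l42 (.c (nat_lit 1341) l42 (.c (nat_lit 2499) l49 (.c (nat_lit 1991) l49 (.c (nat_lit 2005) l48 (.c (nat_lit 2546) l74 (.c (nat_lit 2232) l49 (.c (nat_lit 2446) l65 (.c (nat_lit 2341) l50 (.c (nat_lit 1656) l74 (.c (nat_lit 2495) l49 (.c (nat_lit 2353) l48 (.c (nat_lit 2210) l49 (.c (nat_lit 2211) l65 (.c (nat_lit 2503) l159 u1_5))))))))))))))))))))))))))))))))))))))))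
noncomputable def u1_7 : St := (.c (nat_lit 2296) l48 (.c (nat_lit 2571) l97 (.c (nat_lit 2575) l160 (.c (nat_lit 2659) l65 (.c (nat_lit 2506) l63 (.c (nat_lit 2624) l65 (.c (nat_lit 2625) l78 (.c (nat_lit 2593) l65 (.c (nat_lit 2302) l49 (.c (nat_lit 2172) l74 (.c (nat_lit 2575) l74 (.c (nat_lit 2423) l74 (.c (nat_lit 2503) l49 (.c (nat_lit 2385) l50 (.c (nat_lit 2660) l97 (.c (nat_lit 2110) l50 (.c (nat_lit 2659) l97 (.c (nat_lit 2567) l50 (.c (nat_lit 2503) l69 (.c (nat_lit 2422) l65 (.c (nat_lit 2572) l65 (.c (nat_lit 2624) l141 (.c (nat_lit 2203) l50 (.c (nat_lit 2296) l49 (.c (nat_lit 1158) l50 (.c (nat_lit 1295) l42 (.c (nat_lit 1886) l50 (.c (nat_lit 2353) l52 (.c (nat_lit 1877) l69 (.c (nat_lit 2202) l50 (.c (nat_lit 1873) l50 (.c (nat_lit 2561) l50 (.c (nat_lit 2618) l97 (.c (nat_lit 1640) l42 (.c (nat_lit 2384) l65 (.c (nat_lit 2397) l50 (.c (nat_lit 2660) l70 (.c (nat_lit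 1876) l50 (.c (nat_lit 2503) l107 (.c (nat_lit 2700) l79 u1_6))))))))))))))))))))))))))))))))))))))))
noncomputable def u1_8 : St := (.c (nat_lit 2576) l176 (.c (nat_lit 2422) l97 (.c (nat_lit 1748) l65 (.c (nat_lit 2106) l65 (.c (nat_lit 1757) l50 (.c (nat_lit 1372) l50 (.c (nat_lit 2385) l157 (.c (nat_lit 2104) l65 .e))))))))
noncomputable def u1_9 : St := (.c (nat_lit 2506) l78 (.c (nat_lit 2503) l49 (.c (nat_lit 2503) l69 (.c (nat_lit 2422) l65 (.c (nat_lit 2385) l65 (.c (nat_lit 1529) l65 (.c (nat_lit 1158) l50 (.c (nat_lit 2503) l107 (.c (nat_lit 2104) l50 (.c (nat_lit 2306) l108 (.c (nat_lit 2007) l74 (.c (nat_lit 1650) l65 (.c (nat_lit 2299) l78 (.c (nat_lit 1655) l65 (.c (nat_lit 2506) l118 (.c (nat_lit 2416) l65 (.c (nat_lit 2546) l74 (.c (nat_lit 2503) l159 (.c (nat_lit 579) l42 (.c (nat_lit 1454) l42 (.c (nat_lit 1611) l74 (.c (nat_lit 1991) l52 (.c (nat_lit 1629)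 l74 (.c (nat_lit 817) l53 (.c (nat_lit 909) l1 (.c (nat_lit 1524) l65 (.c (nat_lit 1969) l63 (.c (nat_lit 1969) l48 (.c (nat_lit 2416) l97 (.c (nat_lit 1095) l42 (.c (nat_lit 1450) l42 (.c (nat_lit 746) l42 (.c (nat_lit 1743) l50 (.c (nat_lit 1336) l50 (.c (nat_lit 1029) l1 (.c (nat_lit 993) l1 (.c (nat_lit 988) l1 (.c (nat_lit 1007) l1 (.c (nat_lit 1082) l42 (.c (nat_lit 1385) l1 u1_8))))))))))))))))))))))))))))))))))))))))
noncomputable def u1_10 : St := (.c (nat_lit 2506) l78 (.c (nat_lit 2503) l49 (.c (nat_lit 2503) l69 (.c (nat_lit 1529) l65 (.c (nat_lit 1158) l50 (.c (nat_lit 2503) l107 (.c (nat_lit 2306) l108 (.c (nat_lit 2007) l74 (.c (nat_lit 1650) l65 (.c (nat_lit 2299) l78 (.c (nat_lit 1655) l65 (.c (nat_lit 2506) l118 (.c (nat_lit 2546) l74 (.c (nat_lit 2503) l159 (.c (nat_lit 579) l42 (.c (nat_lit 1611) l74 (.c (nat_lit 1991) l52 (.c (nat_lit 1629) l74 (.c (nat_lit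 817) l53 (.c (nat_lit 909) l1 (.c (nat_lit 1524) l65 (.c (nat_lit 1969) l63 (.c (nat_lit 1969) l48 (.c (nat_lit 1336) l50 (.c (nat_lit 1375) l50 (.c (nat_lit 1408) l50 .e))))))))))))))))))))))))))
noncomputable def u1_11 : St := (.c (nat_lit 2506) l78 (.c (nat_lit 2503) l49 (.c (nat_lit 2503) l69 (.c (nat_lit 1529) l65 (.c (nat_lit 1158) l50 (.c (nat_lit 2503) l107 (.c (nat_lit 2306) l108 (.c (nat_lit 2007) l74 (.c (nat_lit 1650) l65 (.c (nat_lit 2299) l78 (.c (nat_lit 1655) l65 (.c (nat_lit 2506) l118 (.c (nat_lit 2546) l74 (.c (nat_lit 2503) l159 (.c (nat_lit 579) l42 (.c (nat_lit 1611) l74 (.c (nat_lit 1991) l52 (.c (nat_lit 1629) l74 (.c (nat_lit 817) l53 (.c (nat_lit 909) l1 (.c (nat_lit 1524) l65 (.c (nat_lit 1969) l63 (.c (nat_lit 1969) l48 (.c (nat_lit 1336) l50 (.c (nat_lit 1375) l50 (.c (nat_lit 1396) l50 (.c (nat_lit 1426) l50 .e)))))))))))))))))))))))))))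
noncomputable def u1_12 : St := (.c (nat_lit 1272) l50 (.c (nat_lit 2302) l63 (.c (nat_lit 2416) l97 (.c (nat_lit 1841) l50 (.c (nat_lit 2701) l104 (.c (nat_lit 1093) l42 (.c (nat_lit 2157) l48 (.c (nat_lit 2341) l1 (.c (nat_lit 1766) l50 (.c (nat_lit 1710) l50 (.c (nat_lit 1089) l42 (.c (nat_lit 2343) l1 (.c (nat_lit 1743) l50 (.c (nat_lit 2557) l107 (.c (nat_lit 1336) l50 (.c (nat_lit 993) l1 (.c (nat_lit 1007) l1 (.c (nat_lit 1082) l42 (.c (nat_lit 643) l1 (.c (nat_lit 2541) l63 (.c (nat_lit 1387) l50 (.c (nat_lit 1781) l50 (.c (nat_lit 2720) l107 (.c (nat_lit 2157) l63 (.c (nat_lit 2660) l100 (.c (nat_lit 1886) l65 (.c (nat_lit 1758) l50 (.c (nat_lit 2106) l65 (.c (nat_lit 2318) l65 (.c (nat_lit 2069) l65 (.c (nat_lit 2281) l69 (.c (nat_lit 1764) l50 (.c (nat_lit 2397) l65 (.c (nat_lit 1192) l50 (.c (nat_lit 1375) l50 (.c (nat_lit 1757) l50 (.c (nat_lit 1372) l50 (.c (nat_lit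 2658) l100 .e))))))))))))))))))))))))))))))))))))))
noncomputable def u1_13 : St := (.c (nat_lit 2538) l65 (.c (nat_lit 2618) l141 (.c (nat_lit 2443) l69 (.c (nat_lit 579) l42 (.c (nat_lit 2659) l69 (.c (nat_lit 2505) l179 (.c (nat_lit 1454) l42 (.c (nat_lit 2020) l50 (.c (nat_lit 2399) l65 (.c (nat_lit 2564) l69 (.c (nat_lit 1969) l52 (.c (nat_lit 1611) l74 (.c (nat_lit 1991) l52 (.c (nat_lit 942) l42 (.c (nat_lit 2575) l171 (.c (nat_lit 2423) l231 (.c (nat_lit 2271) l52 (.c (nat_lit 1629) l74 (.c (nat_lit 2157) l52 (.c (nat_lit 2157) l78 (.c (nat_lit 2541) l78 (.c (nat_lit 2302) l78 (.c (nat_lit 2005) l52 (.c (nat_lit 869) l42 (.c (nat_lit 1966) l49 (.c (nat_lit 1849) l65 (.c (nat_lit 909) l1 (.c (nat_lit 1889) l65 (.c (nat_lit 2038) l50 (.c (nat_lit 1969) l63 (.c (nat_lit 2271) l48 (.c (nat_lit 1946) l65 (.c (nat_lit 1605) l65 (.c (nat_lit 1965) l65 (.c (nat_lit 2241) l50 (.c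 (nat_lit 2377) l50 (.c (nat_lit 1518) l50 (.c (nat_lit 2447) l97 (.c (nat_lit 2312) l69 (.c (nat_lit 1909) l65 u1_12))))))))))))))))))))))))))))))))))))))))
noncomputable def u1_14 : St := (.c (nat_lit 1140) l50 (.c (nat_lit 2625) l118 (.c (nat_lit 2440) l65 (.c (nat_lit 1648) l42 (.c (nat_lit 1529) l1 (.c (nat_lit 2417) l50 (.c (nat_lit 2092) l42 (.c (nat_lit 817) l42 (.c (nat_lit 2296) l52 (.c (nat_lit 2299) l78 (.c (nat_lit 2138) l1 (.c (nat_lit 1410) l42 (.c (nat_lit 1655) l65 (.c (nat_lit 871) l42 (.c (nat_lit 2642) l79 (.c (nat_lit 1298) l53 (.c (nat_lit 2700) l114 (.c (nat_lit 2624) l97 (.c (nat_lit 2571) l65 (.c (nat_lit 2655) l69 (.c (nat_lit 2573) l69 (.c (nat_lit 2557) l49 (.c (nat_lit 2574) l65 (.c (nat_lit 2416) l65 (.c (nat_lit 915) l42 (.c (nat_lit 1341) l42 (.c (nat_lit 2499) l49 (.c (nat_lit 1991) l49 (.c (nat_lit 2005) l48 (.c (nat_lit 2546) l74 (.c (nat_lit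 2232) l49 (.c (nat_lit 2446) l65 (.c (nat_lit 2341) l50 (.c (nat_lit 1656) l74 (.c (nat_lit 2495) l49 (.c (nat_lit 2353) l48 (.c (nat_lit 2210) l49 (.c (nat_lit 2211) l65 (.c (nat_lit 2503) l159 (.c (nat_lit 2506) l91 u1_13))))))))))))))))))))))))))))))))))))))))
noncomputable def u1_15 : St := (.c (nat_lit 2296) l48 (.c (nat_lit 2571) l97 (.c (nat_lit 2575) l160 (.c (nat_lit 2659) l65 (.c (nat_lit 2506) l63 (.c (nat_lit 2624) l65 (.c (nat_lit 2625) l78 (.c (nat_lit 2593) l65 (.c (nat_lit 2302) l49 (.c (nat_lit 2172) l74 (.c (nat_lit 2575) l74 (.c (nat_lit 2423) l74 (.c (nat_lit 2503) l49 (.c (nat_lit 2385) l50 (.c (nat_lit 2660) l97 (.c (nat_lit 2110) l50 (.c (nat_lit 2659) l97 (.c (nat_lit 2567) l50 (.c (nat_lit 2503) l69 (.c (nat_lit 2385) l65 (.c (nat_lit 2572) l65 (.c (nat_lit 2624) l141 (.c (nat_lit 2203) l50 (.c (nat_lit 2296) l49 (.c (nat_lit 1158) l50 (.c (nat_lit 1295)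 l42 (.c (nat_lit 1886) l50 (.c (nat_lit 2353) l52 (.c (nat_lit 1877) l69 (.c (nat_lit 2202) l50 (.c (nat_lit 1873) l50 (.c (nat_lit 2561) l50 (.c (nat_lit 2618) l97 (.c (nat_lit 1640) l42 (.c (nat_lit 1876) l50 (.c (nat_lit 2503) l107 (.c (nat_lit 2658) l70 (.c (nat_lit 2700) l79 (.c (nat_lit 2104) l50 (.c (nat_lit 2423) l108 u1_14))))))))))))))))))))))))))))))))))))))))
noncomputable def u1_16 : St := (.c (nat_lit 2385) l65 (.c (nat_lit 2416) l65 (.c (nat_lit 2157) l52 (.c (nat_lit 2157) l78 (.c (nat_lit 1095) l42 (.c (nat_lit 2105) l49 (.c (nat_lit 2157) l48 (.c (nat_lit 1089) l42 (.c (nat_lit 2105) l69 (.c (nat_lit 1082) l42 (.c (nat_lit 643) l1 (.c (nat_lit 1137) l1 (.c (nat_lit 2416) l157 (.c (nat_lit 2157) l63 (.c (nat_lit 2385) l157 .e)))))))))))))))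
noncomputable def u1_17 : St := (.c (nat_lit 2506) l78 (.c (nat_lit 2503) l49 (.c (nat_lit 2503) l69 (.c (nat_lit 1529) l65 (.c (nat_lit 1158) l50 (.c (nat_lit 2503) l107 (.c (nat_lit 2306) l108 (.c (nat_lit 2007) l74 (.c (nat_lit 1650) l65 (.c (nat_lit 2299) l78 (.c (nat_lit 1655) l65 (.c (nat_lit 2506) l118 (.c (nat_lit 2546) l74 (.c (nat_lit 2503) l159 (.c (nat_lit 579) l42 (.c (nat_lit 1611) l74 (.c (nat_lit 1991) l52 (.c (nat_lit 1629) l74 (.c (nat_lit 817) l53 (.c (nat_lit 909) l1 (.c (nat_lit 1524) l65 (.c (nat_lit 1969) l63 (.c (nat_lit 1969) l48 (.c (nat_lit 1336) l50 (.c (nat_lit 1375) l50 (.c (nat_lit 1396) l50 .e))))))))))))))))))))))))))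
noncomputable def u1_18 : St := (.c (nat_lit 1814) l65 (.c (nat_lit 2416) l157 (.c (nat_lit 1781) l50 (.c (nat_lit 1886) l65 (.c (nat_lit 1758) l50 (.c (nat_lit 2106) l65 (.c (nat_lit 2069) l65 (.c (nat_lit 1764) l50 (.c (nat_lit 2700) l100 .e)))))))))
noncomputable def u1_19 : St := (.c (nat_lit 1849) l65 (.c (nat_lit 2499) l48 (.c (nat_lit 2502) l152 (.c (nat_lit 2300) l157 (.c (nat_lit 1524) l65 (.c (nat_lit 1889) l65 (.c (nat_lit 2049) l50 (.c (nat_lit 2271) l48 (.c (nat_lit 2613) l107 (.c (nat_lit 1992) l65 (.c (nat_lit 2625) l63 (.c (nat_lit 1605) l65 (.c (nat_lit 1965) l65 (.c (nat_lit 2642) l70 (.c (nat_lit 2377) l50 (.c (nat_lit 2300) l97 (.c (nat_lit 2462) l69 (.c (nat_lit 2312) l69 (.c (nat_lit 1969) l48 (.c (nat_lit 2302) l63 (.c (nat_lit 2416) l97 (.c (nat_lit 2158) l65 (.c (nat_lit 1841) l50 (.c (nat_lit 2131) l65 (.c (nat_lit 1741) l1 (.c (nat_lit 2105) l49 (.c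 (nat_lit 2112) l65 (.c (nat_lit 2700) l157 (.c (nat_lit 1766) l50 (.c (nat_lit 1407) l42 (.c (nat_lit 2343) l1 (.c (nat_lit 1768) l65 (.c (nat_lit 1029) l1 (.c (nat_lit 993) l1 (.c (nat_lit 988) l1 (.c (nat_lit 1007) l1 (.c (nat_lit 1082) l42 (.c (nat_lit 2576) l176 (.c (nat_lit 2541) l63 (.c (nat_lit 2422) l97 u1_18))))))))))))))))))))))))))))))))))))))))
noncomputable def u1_20 : St := (.c (nat_lit 2660) l79 (.c (nat_lit 817) l42 (.c (nat_lit 1575) l42 (.c (nat_lit 2138) l1 (.c (nat_lit 1644) l50 (.c (nat_lit 2642) l79 (.c (nat_lit 2506) l118 (.c (nat_lit 1298) l53 (.c (nat_lit 2720) l157 (.c (nat_lit 2416) l65 (.c (nat_lit 2353) l49 (.c (nat_lit 2143) l42 (.c (nat_lit 1341) l42 (.c (nat_lit 2005) l49 (.c (nat_lit 1991) l49 (.c (nat_lit 2731) l228 (.c (nat_lit 2505) l108 (.c (nat_lit 2005) l48 (.c (nat_lit 2005) l63 (.c (nat_lit 2232) l49 (.c (nat_lit 2302) l48 (.c (nat_lit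 1890) l65 (.c (nat_lit 1656) l74 (.c (nat_lit 2312) l49 (.c (nat_lit 2210) l49 (.c (nat_lit 1433) l42 (.c (nat_lit 2503) l159 (.c (nat_lit 2506) l91 (.c (nat_lit 2443) l69 (.c (nat_lit 2505) l179 (.c (nat_lit 2658) l104 (.c (nat_lit 2499) l52 (.c (nat_lit 1969) l52 (.c (nat_lit 942) l42 (.c (nat_lit 2575) l171 (.c (nat_lit 2271) l52 (.c (nat_lit 2302) l52 (.c (nat_lit 2541) l78 (.c (nat_lit 2302) l78 (.c (nat_lit 1966) l49 u1_19))))))))))))))))))))))))))))))))))))))))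
noncomputable def u1_21 : St := (.c (nat_lit 2502) l97 (.c (nat_lit 2624) l69 (.c (nat_lit 2659) l65 (.c (nat_lit 2625) l78 (.c (nat_lit 2718) l114 (.c (nat_lit 2724) l110 (.c (nat_lit 2172) l74 (.c (nat_lit 2575) l74 (.c (nat_lit 1810) l42 (.c (nat_lit 2611) l78 (.c (nat_lit 2503) l49 (.c (nat_lit 2724) l79 (.c (nat_lit 2724) l114 (.c (nat_lit 2724) l166 (.c (nat_lit 2110) l50 (.c (nat_lit 2695) l181 (.c (nat_lit 2613) l69 (.c (nat_lit 2422) l65 (.c (nat_lit 2572) l65 (.c (nat_lit 2660) l157 (.c (nat_lit 2566) l65 (.c (nat_lit 1529) l65 (.c (nat_lit 2443) l49 (.c (nat_lit 1892) l65 (.c (nat_lit 1295) l42 (.c (nat_lit 1886) l50 (.c (nat_lit 1877) l69 (.c (nat_lit 1849) l50 (.c (nat_lit 2384) l65 (.c (nat_lit 2660) l70 (.c (nat_lit 2503) l107 (.c (nat_lit 2700) l79 (.c (nat_lit 2104) l50 (.c (nat_lit 2306) l108 (.c (nat_lit 2624) l49 (.c (nat_lit 2700) l70 (.c (nat_lit 1808) l42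 (.c (nat_lit 1713) l42 (.c (nat_lit 2379) l1 (.c (nat_lit 1275) l50 u1_20))))))))))))))))))))))))))))))))))))))))
noncomputable def u1_22 : St := (.c (nat_lit 643) l1 (.c (nat_lit 2576) l176 (.c (nat_lit 1137) l1 (.c (nat_lit 2541) l63 (.c (nat_lit 2422) l97 (.c (nat_lit 1387) l50 (.c (nat_lit 1814) l65 (.c (nat_lit 2157) l63 (.c (nat_lit 1886) l65 (.c (nat_lit 1758) l50 (.c (nat_lit 2214) l97 (.c (nat_lit 2397) l65 (.c (nat_lit 1757) l50 .e)))))))))))))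
noncomputable def u1_23 : St := (.c (nat_lit 2157) l78 (.c (nat_lit 2541) l78 (.c (nat_lit 2005) l52 (.c (nat_lit 869) l42 (.c (nat_lit 1877) l49 (.c (nat_lit 2502) l152 (.c (nat_lit 909) l1 (.c (nat_lit 1524) l65 (.c (nat_lit 2038) l50 (.c (nat_lit 2412) l65 (.c (nat_lit 2271) l48 (.c (nat_lit 1605) l65 (.c (nat_lit 1965) l65 (.c (nat_lit 2241) l50 (.c (nat_lit 2642) l70 (.c (nat_lit 2377) l50 (.c (nat_lit 2300) l97 (.c (nat_lit 2312) l69 (.c (nat_lit 1909) l65 (.c (nat_lit 1969) l48 (.c (nat_lit 1272) l50 (.c (nat_lit 2416) l97 (.c (nat_lit 1841) l50 (.c (nat_lit 1093) l42 (.c (nat_lit 2112) l65 (.c (nat_lit 2700) l157 (.c (nat_lit 2341) l1 (.c (nat_lit 1407) l42 (.c (nat_lit 1450) l42 (.c (nat_lit 1710) l50 (.c (nat_lit 746) l42 (.c (nat_lit 1089) l42 (.c (nat_lit 2105) l69 (.c (nat_lit 1768) l65 (.c (nat_lit 1743) l50 (.c (nat_lit 1336) l50 (.c (nat_lit 1351) l1 (.c (nat_lit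 1029) l1 (.c (nat_lit 1007) l1 (.c (nat_lit 1385) l1 u1_22))))))))))))))))))))))))))))))))))))))))
noncomputable def u1_24 : St := (.c (nat_lit 2379) l1 (.c (nat_lit 1275) l50 (.c (nat_lit 2092) l42 (.c (nat_lit 1650) l65 (.c (nat_lit 2296) l52 (.c (nat_lit 1575) l42 (.c (nat_lit 2138) l1 (.c (nat_lit 1410) l42 (.c (nat_lit 1644) l50 (.c (nat_lit 1655) l65 (.c (nat_lit 871) l42 (.c (nat_lit 2642) l79 (.c (nat_lit 1298) l53 (.c (nat_lit 2700) l114 (.c (nat_lit 2624) l97 (.c (nat_lit 2720) l157 (.c (nat_lit 2143) l42 (.c (nat_lit 915) l42 (.c (nat_lit 1341) l42 (.c (nat_lit 2501) l69 (.c (nat_lit 2005) l49 (.c (nat_lit 2499) l49 (.c (nat_lit 1991) l49 (.c (nat_lit 2005) l63 (.c (nat_lit 2546) l74 (.c (nat_lit 2302) l48 (.c (nat_lit 1656) l74 (.c (nat_lit 2353) l48 (.c (nat_lit 2312) l49 (.c (nat_lit 1433) l42 (.c (nat_lit 2506) l91 (.c (nat_lit 2618) l141 (.c (nat_lit 1155) l1 (.c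 (nat_lit 579) l42 (.c (nat_lit 2020) l50 (.c (nat_lit 1969) l52 (.c (nat_lit 942) l42 (.c (nat_lit 2423) l231 (.c (nat_lit 2271) l52 (.c (nat_lit 2302) l52 u1_23))))))))))))))))))))))))))))))))))))))))
noncomputable def u1_25 : St := (.c (nat_lit 2296) l48 (.c (nat_lit 2502) l97 (.c (nat_lit 2659) l65 (.c (nat_lit 2506) l63 (.c (nat_lit 2624) l65 (.c (nat_lit 2625) l78 (.c (nat_lit 2214) l65 (.c (nat_lit 2302) l49 (.c (nat_lit 1810) l42 (.c (nat_lit 2110) l50 (.c (nat_lit 2422) l65 (.c (nat_lit 2572) l65 (.c (nat_lit 2660) l157 (.c (nat_lit 2566) l65 (.c (nat_lit 2624) l141 (.c (nat_lit 1529) l65 (.c (nat_lit 2207) l65 (.c (nat_lit 1158) l50 (.c (nat_lit 1886) l50 (.c (nat_lit 2353) l52 (.c (nat_lit 1877) l69 (.c (nat_lit 2618) l97 (.c (nat_lit 1909) l50 (.c (nat_lit 1640) l42 (.c (nat_lit 2384) l65 (.c (nat_lit 2103) l50 (.c (nat_lit 2397) l50 (.c (nat_lit 2660) l70 (.c (nat_lit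 1876) l50 (.c (nat_lit 1435) l42 (.c (nat_lit 2658) l70 (.c (nat_lit 2700) l79 (.c (nat_lit 2104) l50 (.c (nat_lit 2306) l108 (.c (nat_lit 2007) l74 (.c (nat_lit 2625) l118 (.c (nat_lit 1648) l42 (.c (nat_lit 1808) l42 (.c (nat_lit 1713) l42 (.c (nat_lit 1529) l1 u1_24))))))))))))))))))))))))))))))))))))))))
noncomputable def u1_26 : St := (.c (nat_lit 2506) l78 (.c (nat_lit 2503) l49 (.c (nat_lit 2503) l69 (.c (nat_lit 1529) l65 (.c (nat_lit 1158) l50 (.c (nat_lit 2503) l107 (.c (nat_lit 2306) l108 (.c (nat_lit 2007) l74 (.c (nat_lit 1650) l65 (.c (nat_lit 2299) l78 (.c (nat_lit 1655) l65 (.c (nat_lit 2506) l118 (.c (nat_lit 2546) l74 (.c (nat_lit 2503) l159 (.c (nat_lit 579) l42 (.c (nat_lit 1611) l74 (.c (nat_lit 1991) l52 (.c (nat_lit 1629) l74 (.c (nat_lit 817) l53 (.c (nat_lit 909) l1 (.c (nat_lit 1524) l65 (.c (nat_lit 1969) l63 (.c (nat_lit 1969) l48 (.c (nat_lit 1336)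 l50 (.c (nat_lit 1375) l50 .e)))))))))))))))))))))))))
noncomputable def u1_27 : St := (.c (nat_lit 1969) l48 (.c (nat_lit 2302) l63 (.c (nat_lit 2416) l97 (.c (nat_lit 1841) l50 (.c (nat_lit 2701) l104 (.c (nat_lit 1095) l42 (.c (nat_lit 1093) l42 (.c (nat_lit 1741) l1 (.c (nat_lit 2105) l49 (.c (nat_lit 2157) l48 (.c (nat_lit 2112) l65 (.c (nat_lit 2659) l207 (.c (nat_lit 2700) l157 (.c (nat_lit 1407) l42 (.c (nat_lit 1450) l42 (.c (nat_lit 1089) l42 (.c (nat_lit 2343) l1 (.c (nat_lit 1743) l50 (.c (nat_lit 2557) l107 (.c (nat_lit 1351) l1 (.c (nat_lit 1357) l1 (.c (nat_lit 1029) l1 (.c (nat_lit 1007) l1 (.c (nat_lit 643) l1 (.c (nat_lit 1137) l1 (.c (nat_lit 1814) l65 (.c (nat_lit 1781) l50 (.c (nat_lit 2728) l104 (.c (nat_lit 2573) l107 (.c (nat_lit 1758) l50 (.c (nat_lit 2232) l69 (.c (nat_lit 2106) l65 (.c (nat_lit 2318) l65 (.c (nat_lit 2069) l65 (.c (nat_lit 2557) l87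 .e)))))))))))))))))))))))))))))))))))
noncomputable def u1_28 : St := (.c (nat_lit 2659) l69 (.c (nat_lit 2701) l107 (.c (nat_lit 2505) l179 (.c (nat_lit 1454) l42 (.c (nat_lit 2572) l97 (.c (nat_lit 1969) l52 (.c (nat_lit 1991) l52 (.c (nat_lit 942) l42 (.c (nat_lit 698) l42 (.c (nat_lit 2423) l231 (.c (nat_lit 2271) l52 (.c (nat_lit 2656) l65 (.c (nat_lit 2557) l118 (.c (nat_lit 2157) l52 (.c (nat_lit 2302) l78 (.c (nat_lit 2005) l52 (.c (nat_lit 869) l42 (.c (nat_lit 909) l1 (.c (nat_lit 2300) l157 (.c (nat_lit 2049) l50 (.c (nat_lit 2412) l65 (.c (nat_lit 2271) l48 (.c (nat_lit 1991) l63 (.c (nat_lit 2613) l107 (.c (nat_lit 1992) l65 (.c (nat_lit 1572) l50 (.c (nat_lit 1991) l48 (.c (nat_lit 2625) l63 (.c (nat_lit 1605) l65 (.c (nat_lit 1965) l65 (.c (nat_lit 2241) l50 (.c (nat_lit 2542) l97 (.c (nat_lit 2720) l152 (.c (nat_lit 2377) l50 (.c (nat_lit 1518) l50 (.c (nat_lit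 2651) l101 (.c (nat_lit 2447) l97 (.c (nat_lit 2462) l69 (.c (nat_lit 2312) l69 (.c (nat_lit 1909) l65 u1_27))))))))))))))))))))))))))))))))))))))))
noncomputable def u1_29 : St := (.c (nat_lit 2651) l100 (.c (nat_lit 2208) l157 (.c (nat_lit 1368) l42 (.c (nat_lit 911) l42 (.c (nat_lit 645) l1 (.c (nat_lit 572) l42 (.c (nat_lit 833) l42 (.c (nat_lit 2185) l49 (.c (nat_lit 1410) l42 (.c (nat_lit 871) l42 (.c (nat_lit 2642) l79 (.c (nat_lit 2506) l118 (.c (nat_lit 1298) l53 (.c (nat_lit 2700) l114 (.c (nat_lit 2624) l97 (.c (nat_lit 2571) l65 (.c (nat_lit 2573) l69 (.c (nat_lit 2557) l49 (.c (nat_lit 2353) l49 (.c (nat_lit 1377) l1 (.c (nat_lit 915) l42 (.c (nat_lit 1341) l42 (.c (nat_lit 2499) l49 (.c (nat_lit 1991) l49 (.c (nat_lit 2576) l114 (.c (nat_lit 2005) l63 (.c (nat_lit 2446) l65 (.c (nat_lit 1891) l49 (.c (nat_lit 1890) l65 (.c (nat_lit 1656) l74 (.c (nat_lit 2495) l49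 (.c (nat_lit 2656) l141 (.c (nat_lit 2210) l49 (.c (nat_lit 2211) l65 (.c (nat_lit 1433) l42 (.c (nat_lit 2506) l91 (.c (nat_lit 2538) l65 (.c (nat_lit 2618) l141 (.c (nat_lit 2443) l69 (.c (nat_lit 1155) l1 u1_28))))))))))))))))))))))))))))))))))))))))
noncomputable def u1_30 : St := (.c (nat_lit 2660) l157 (.c (nat_lit 2566) l65 (.c (nat_lit 2624) l141 (.c (nat_lit 2203) l50 (.c (nat_lit 2296) l49 (.c (nat_lit 2443) l49 (.c (nat_lit 1892) l65 (.c (nat_lit 1295) l42 (.c (nat_lit 2558) l152 (.c (nat_lit 1877) l69 (.c (nat_lit 2202) l50 (.c (nat_lit 1873) l50 (.c (nat_lit 1849) l50 (.c (nat_lit 2561) l50 (.c (nat_lit 2618) l97 (.c (nat_lit 1640) l42 (.c (nat_lit 2660) l70 (.c (nat_lit 1876) l50 (.c (nat_lit 2700) l79 (.c (nat_lit 2104) l50 (.c (nat_lit 1140) l50 (.c (nat_lit 2306) l108 (.c (nat_lit 2007) l74 (.c (nat_lit 2625) l118 (.c (nat_lit 2624) l49 (.c (nat_lit 2440) l65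 (.c (nat_lit 2564) l49 (.c (nat_lit 1648) l42 (.c (nat_lit 1426) l42 (.c (nat_lit 1813) l42 (.c (nat_lit 1529) l1 (.c (nat_lit 2379) l1 (.c (nat_lit 2417) l50 (.c (nat_lit 2092) l42 (.c (nat_lit 1650) l65 (.c (nat_lit 989) l42 (.c (nat_lit 1751) l42 (.c (nat_lit 817) l42 (.c (nat_lit 2296) l52 (.c (nat_lit 2299) l78 u1_29))))))))))))))))))))))))))))))))))))))))
noncomputable def u1_31 : St := (.c (nat_lit 2296) l48 (.c (nat_lit 2719) l65 (.c (nat_lit 2719) l49 (.c (nat_lit 2720) l97 (.c (nat_lit 2624) l69 (.c (nat_lit 2558) l141 (.c (nat_lit 2571) l97 (.c (nat_lit 2654) l42 (.c (nat_lit 1741) l2 (.c (nat_lit 2659) l65 (.c (nat_lit 2624) l65 (.c (nat_lit 2728) l100 (.c (nat_lit 2719) l207 (.c (nat_lit 2558) l65 (.c (nat_lit 2728) l147 (.c (nat_lit 2383) l42 (.c (nat_lit 2649) l65 (.c (nat_lit 2653) l97 (.c (nat_lit 1391) l42 (.c (nat_lit 2728) l154 (.c (nat_lit 2719) l48 (.c (nat_lit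 2116) l42 (.c (nat_lit 2593) l65 (.c (nat_lit 2302) l49 (.c (nat_lit 2728) l73 (.c (nat_lit 2113) l65 (.c (nat_lit 2557) l78 (.c (nat_lit 2728) l209 (.c (nat_lit 2390) l65 (.c (nat_lit 2719) l157 (.c (nat_lit 2557) l63 (.c (nat_lit 2389) l42 (.c (nat_lit 2169) l42 (.c (nat_lit 2164) l42 (.c (nat_lit 2385) l50 (.c (nat_lit 2567) l50 (.c (nat_lit 2503) l69 (.c (nat_lit 2656) l97 (.c (nat_lit 2613) l69 (.c (nat_lit 2385) l65 u1_30))))))))))))))))))))))))))))))))))))))))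
noncomputable def u1_32 : St := (.c (nat_lit 2343) l1 (.c (nat_lit 1768) l65 (.c (nat_lit 1743) l50 (.c (nat_lit 1351) l1 (.c (nat_lit 1029) l1 (.c (nat_lit 993) l1 (.c (nat_lit 1007) l1 (.c (nat_lit 1082) l42 (.c (nat_lit 1385) l1 (.c (nat_lit 643) l1 (.c (nat_lit 1781) l50 (.c (nat_lit 2157) l63 (.c (nat_lit 1886) l65 (.c (nat_lit 1758) l50 (.c (nat_lit 2214) l97 (.c (nat_lit 2573) l87 (.c (nat_lit 2281) l69 (.c (nat_lit 1764) l50 (.c (nat_lit 1192) l50 .e)))))))))))))))))))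
noncomputable def u1_33 : St := (.c (nat_lit 2446) l65 (.c (nat_lit 2341) l50 (.c (nat_lit 1890) l65 (.c (nat_lit 2495) l49 (.c (nat_lit 2312) l49 (.c (nat_lit 2210) l49 (.c (nat_lit 2211) l65 (.c (nat_lit 2443) l69 (.c (nat_lit 1155) l1 (.c (nat_lit 1454) l42 (.c (nat_lit 2020) l50 (.c (nat_lit 2564) l69 (.c (nat_lit 1991) l52 (.c (nat_lit 942) l42 (.c (nat_lit 2575) l171 (.c (nat_lit 2159) l74 (.c (nat_lit 2416) l108 (.c (nat_lit 1828) l53 (.c (nat_lit 2156) l74 (.c (nat_lit 1832) l53 (.c (nat_lit 817) l53 (.c (nat_lit 909) l1 (.c (nat_lit 2300) l157 (.c (nat_lit 1524) l65 (.c (nat_lit 2038) l50 (.c (nat_lit 1991) l63 (.c (nat_lit 1991) l48 (.c (nat_lit 1605) l65 (.c (nat_lit 2642) l70 (.c (nat_lit 2377) l50 (.c (nat_lit 1518) l50 (.c (nat_lit 2447) l97 (.c (nat_lit 1909) l65 (.c (nat_lit 1272) l50 (.c (nat_lit 2416) l97 (.c (nat_lit 2158) l65 (.c (nat_lit 2112) l65 (.c (nat_lit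 2659) l207 (.c (nat_lit 1766) l50 (.c (nat_lit 1089) l42 u1_32))))))))))))))))))))))))))))))))))))))))
noncomputable def u1_34 : St := (.c (nat_lit 2575) l160 (.c (nat_lit 2214) l65 (.c (nat_lit 2593) l65 (.c (nat_lit 2172) l74 (.c (nat_lit 2575) l74 (.c (nat_lit 2573) l63 (.c (nat_lit 2423) l74 (.c (nat_lit 1529) l65 (.c (nat_lit 2203) l50 (.c (nat_lit 2207) l65 (.c (nat_lit 1158) l50 (.c (nat_lit 1892) l65 (.c (nat_lit 1886) l50 (.c (nat_lit 2202) l50 (.c (nat_lit 1873) l50 (.c (nat_lit 1849) l50 (.c (nat_lit 2384) l65 (.c (nat_lit 2381) l50 (.c (nat_lit 2103) l50 (.c (nat_lit 2660) l70 (.c (nat_lit 1435) l42 (.c (nat_lit 2658) l70 (.c (nat_lit 2104) l50 (.c (nat_lit 2423) l108 (.c (nat_lit 1140) l50 (.c (nat_lit 2440) l65 (.c (nat_lit 2564) l49 (.c (nat_lit 1713) l42 (.c (nat_lit 2379) l1 (.c (nat_lit 817) l42 (.c (nat_lit 1575) l42 (.c (nat_lit 2299) l78 (.c (nat_lit 2138)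 l1 (.c (nat_lit 2416) l65 (.c (nat_lit 2353) l49 (.c (nat_lit 2143) l42 (.c (nat_lit 2576) l114 (.c (nat_lit 2005) l48 (.c (nat_lit 2005) l63 (.c (nat_lit 2232) l49 u1_33))))))))))))))))))))))))))))))))))))))))
noncomputable def u1_35 : St := (.c (nat_lit 2300) l97 (.c (nat_lit 1969) l48 (.c (nat_lit 1272) l50 (.c (nat_lit 2416) l97 (.c (nat_lit 1841) l50 (.c (nat_lit 1741) l1 (.c (nat_lit 2105) l49 (.c (nat_lit 2157) l48 (.c (nat_lit 2112) l65 (.c (nat_lit 2700) l157 (.c (nat_lit 2341) l1 (.c (nat_lit 1450) l42 (.c (nat_lit 746) l42 (.c (nat_lit 2105) l69 (.c (nat_lit 1768) l65 (.c (nat_lit 1336) l50 (.c (nat_lit 1351) l1 (.c (nat_lit 1137) l1 (.c (nat_lit 1814) l65 (.c (nat_lit 2416) l157 (.c (nat_lit 1748) l65 (.c (nat_lit 1886) l65 (.c (nat_lit 1758) l50 (.c (nat_lit 2573) l87 (.c (nat_lit 2397) l65 .e)))))))))))))))))))))))))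
noncomputable def u1_36 : St := (.c (nat_lit 1655) l65 (.c (nat_lit 2506) l118 (.c (nat_lit 2720) l157 (.c (nat_lit 2416) l65 (.c (nat_lit 2353) l49 (.c (nat_lit 2143) l42 (.c (nat_lit 915) l42 (.c (nat_lit 1341) l42 (.c (nat_lit 2576) l114 (.c (nat_lit 1796) l42 (.c (nat_lit 2005) l48 (.c (nat_lit 2005) l63 (.c (nat_lit 2546) l74 (.c (nat_lit 1890) l65 (.c (nat_lit 1454) l42 (.c (nat_lit 2020) l50 (.c (nat_lit 1611) l74 (.c (nat_lit 1916) l1 (.c (nat_lit 2575) l171 (.c (nat_lit 1629) l74 (.c (nat_lit 2159) l74 (.c (nat_lit 2157) l52 (.c (nat_lit 2157) l78 (.c (nat_lit 2416) l108 (.c (nat_lit 1828) l53 (.c (nat_lit 2156) l74 (.c (nat_lit 1832) l53 (.c (nat_lit 1966) l49 (.c (nat_lit 1849) l65 (.c (nat_lit 2502) l152 (.c (nat_lit 917) l42 (.c (nat_lit 2038) l50 (.c (nat_lit 1969) l63 (.c (nat_lit 2412) l65 (.c (nat_lit 1991) l63 (.c (nat_lit 1992) l65 (.c (nat_lit 1572) l50 (.c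 (nat_lit 1991) l48 (.c (nat_lit 2625) l63 (.c (nat_lit 2377) l50 u1_35))))))))))))))))))))))))))))))))))))))))
noncomputable def u1_37 : St := (.c (nat_lit 2502) l97 (.c (nat_lit 2624) l69 (.c (nat_lit 2575) l160 (.c (nat_lit 2659) l65 (.c (nat_lit 2506) l63 (.c (nat_lit 2625) l78 (.c (nat_lit 2172) l74 (.c (nat_lit 2575) l74 (.c (nat_lit 2573) l63 (.c (nat_lit 1825) l42 (.c (nat_lit 1810) l42 (.c (nat_lit 2423) l74 (.c (nat_lit 2110) l50 (.c (nat_lit 2503) l69 (.c (nat_lit 2572) l65 (.c (nat_lit 2660) l157 (.c (nat_lit 2566) l65 (.c (nat_lit 1529) l65 (.c (nat_lit 2207) l65 (.c (nat_lit 1158) l50 (.c (nat_lit 1295) l42 (.c (nat_lit 1886) l50 (.c (nat_lit 1849) l50 (.c (nat_lit 2384) l65 (.c (nat_lit 2103) l50 (.c (nat_lit 2397) l50 (.c (nat_lit 2660) l70 (.c (nat_lit 1876) l50 (.c (nat_lit 2658) l70 (.c (nat_lit 2104) l50 (.c (nat_lit 2423) l108 (.c (nat_lit 2306) l108 (.c (nat_lit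 2090) l42 (.c (nat_lit 1920) l42 (.c (nat_lit 2007) l74 (.c (nat_lit 2624) l49 (.c (nat_lit 1808) l42 (.c (nat_lit 1650) l65 (.c (nat_lit 1575) l42 (.c (nat_lit 1728) l42 u1_36))))))))))))))))))))))))))))))))))))))))
noncomputable def u1_38 : St := (.c (nat_lit 2541) l63 (.c (nat_lit 1387) l50 (.c (nat_lit 1814) l65 (.c (nat_lit 2416) l157 (.c (nat_lit 2660) l100 (.c (nat_lit 2728) l104 (.c (nat_lit 2232) l69 (.c (nat_lit 2214) l97 (.c (nat_lit 1764) l50 .e)))))))))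
noncomputable def u1_39 : St := (.c (nat_lit 2302) l78 (.c (nat_lit 817) l53 (.c (nat_lit 1966) l49 (.c (nat_lit 1849) l65 (.c (nat_lit 909) l1 (.c (nat_lit 917) l42 (.c (nat_lit 2300) l157 (.c (nat_lit 1889) l65 (.c (nat_lit 2038) l50 (.c (nat_lit 2613) l107 (.c (nat_lit 1992) l65 (.c (nat_lit 1946) l65 (.c (nat_lit 1572) l50 (.c (nat_lit 2625) l63 (.c (nat_lit 2542) l97 (.c (nat_lit 2720) l152 (.c (nat_lit 2377) l50 (.c (nat_lit 1518) l50 (.c (nat_lit 2651) l101 (.c (nat_lit 2447) l97 (.c (nat_lit 2462) l69 (.c (nat_lit 2302) l63 (.c (nat_lit 2416) l97 (.c (nat_lit 1841) l50 (.c (nat_lit 1095) l42 (.c (nat_lit 1741) l1 (.c (nat_lit 2157) l48 (.c (nat_lit 2659) l207 (.c (nat_lit 1407) l42 (.c (nat_lit 1710) l50 (.c (nat_lit 1089) l42 (.c (nat_lit 2343) l1 (.c (nat_lit 1768) l65 (.c (nat_lit 1743) l50 (.c (nat_lit 1336) l50 (.c (nat_lit 1357) l1 (.c (nat_lit 993) l1 (.c (nat_lit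 1082) l42 (.c (nat_lit 2576) l176 (.c (nat_lit 1137) l1 u1_38))))))))))))))))))))))))))))))))))))))))
noncomputable def u1_40 : St := (.c (nat_lit 2573) l69 (.c (nat_lit 2720) l157 (.c (nat_lit 2574) l65 (.c (nat_lit 1377) l1 (.c (nat_lit 2143) l42 (.c (nat_lit 915) l42 (.c (nat_lit 2501) l69 (.c (nat_lit 2005) l49 (.c (nat_lit 2576) l114 (.c (nat_lit 1796) l42 (.c (nat_lit 2005) l48 (.c (nat_lit 2005) l63 (.c (nat_lit 2302) l48 (.c (nat_lit 2446) l65 (.c (nat_lit 1891) l49 (.c (nat_lit 2341) l50 (.c (nat_lit 2495) l49 (.c (nat_lit 2353) l48 (.c (nat_lit 2656) l141 (.c (nat_lit 2312) l49 (.c (nat_lit 2210) l49 (.c (nat_lit 2211) l65 (.c (nat_lit 1433) l42 (.c (nat_lit 2503) l159 (.c (nat_lit 2443) l69 (.c (nat_lit 1155) l1 (.c (nat_lit 2659) l69 (.c (nat_lit 2505) l179 (.c (nat_lit 2020) l50 (.c (nat_lit 2399) l65 (.c (nat_lit 2658) l104 (.c (nat_lit 2572) l97 (.c (nat_lit 942)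 l42 (.c (nat_lit 1916) l1 (.c (nat_lit 698) l42 (.c (nat_lit 2423) l231 (.c (nat_lit 2302) l52 (.c (nat_lit 2656) l65 (.c (nat_lit 2157) l52 (.c (nat_lit 2541) l78 u1_39))))))))))))))))))))))))))))))))))))))))
noncomputable def u1_41 : St := (.c (nat_lit 2443) l49 (.c (nat_lit 2207) l65 (.c (nat_lit 1158) l50 (.c (nat_lit 2353) l52 (.c (nat_lit 2558) l152 (.c (nat_lit 2202) l50 (.c (nat_lit 1873) l50 (.c (nat_lit 1909) l50 (.c (nat_lit 2384) l65 (.c (nat_lit 2381) l50 (.c (nat_lit 2103) l50 (.c (nat_lit 1435) l42 (.c (nat_lit 2503) l107 (.c (nat_lit 2104) l50 (.c (nat_lit 1140) l50 (.c (nat_lit 2090) l42 (.c (nat_lit 1920) l42 (.c (nat_lit 2624) l49 (.c (nat_lit 2440) l65 (.c (nat_lit 2564) l49 (.c (nat_lit 1808) l42 (.c (nat_lit 1426) l42 (.c (nat_lit 1813) l42 (.c (nat_lit 2379) l1 (.c (nat_lit 2092) l42 (.c (nat_lit 989) l42 (.c (nat_lit 1751) l42 (.c (nat_lit 1575) l42 (.c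 (nat_lit 2651) l100 (.c (nat_lit 2208) l157 (.c (nat_lit 1368) l42 (.c (nat_lit 911) l42 (.c (nat_lit 645) l1 (.c (nat_lit 572) l42 (.c (nat_lit 833) l42 (.c (nat_lit 2185) l49 (.c (nat_lit 1728) l42 (.c (nat_lit 1655) l65 (.c (nat_lit 2642) l79 (.c (nat_lit 2506) l118 u1_40))))))))))))))))))))))))))))))))))))))))
noncomputable def u1_42 : St := (.c (nat_lit 2719) l65 (.c (nat_lit 2719) l49 (.c (nat_lit 2720) l97 (.c (nat_lit 2624) l69 (.c (nat_lit 2558) l141 (.c (nat_lit 2654) l42 (.c (nat_lit 1741) l2 (.c (nat_lit 2659) l65 (.c (nat_lit 2506) l63 (.c (nat_lit 2625) l78 (.c (nat_lit 2728) l100 (.c (nat_lit 2719) l207 (.c (nat_lit 2558) l65 (.c (nat_lit 2728) l147 (.c (nat_lit 2383) l42 (.c (nat_lit 2649) l65 (.c (nat_lit 2653) l97 (.c (nat_lit 2214) l65 (.c (nat_lit 1391) l42 (.c (nat_lit 2728) l154 (.c (nat_lit 2719) l48 (.c (nat_lit 2116) l42 (.c (nat_lit 2593) l65 (.c (nat_lit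 2728) l73 (.c (nat_lit 2113) l65 (.c (nat_lit 2728) l209 (.c (nat_lit 2390) l65 (.c (nat_lit 2719) l157 (.c (nat_lit 1825) l42 (.c (nat_lit 2389) l42 (.c (nat_lit 2169) l42 (.c (nat_lit 1810) l42 (.c (nat_lit 2164) l42 (.c (nat_lit 2503) l49 (.c (nat_lit 2660) l97 (.c (nat_lit 2659) l97 (.c (nat_lit 2656) l97 (.c (nat_lit 2613) l69 (.c (nat_lit 2203) l50 (.c (nat_lit 2296) l49 u1_41))))))))))))))))))))))))))))))))))))))))
noncomputable def u1_43 : St := (.c (nat_lit 2416) l157 (.c (nat_lit 1781) l50 (.c (nat_lit 2157) l63 (.c (nat_lit 2660) l100 (.c (nat_lit 2728) l104 (.c (nat_lit 1886) l65 (.c (nat_lit 1758) l50 (.c (nat_lit 2232) l69 (.c (nat_lit 2573) l87 (.c (nat_lit 2281) l69 .e))))))))))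
noncomputable def u1_44 : St := (.c (nat_lit 1849) l65 (.c (nat_lit 917) l42 (.c (nat_lit 1524) l65 (.c (nat_lit 1889) l65 (.c (nat_lit 1991) l63 (.c (nat_lit 2613) l107 (.c (nat_lit 1992) l65 (.c (nat_lit 1946) l65 (.c (nat_lit 1572) l50 (.c (nat_lit 1991) l48 (.c (nat_lit 2625) l63 (.c (nat_lit 1605) l65 (.c (nat_lit 2642) l70 (.c (nat_lit 2542) l97 (.c (nat_lit 2720) l152 (.c (nat_lit 2651) l101 (.c (nat_lit 2462) l69 (.c (nat_lit 1909) l65 (.c (nat_lit 2302) l63 (.c (nat_lit 2158) l65 (.c (nat_lit 1841) l50 (.c (nat_lit 1095) l42 (.c (nat_lit 1741) l1 (.c (nat_lit 2157) l48 (.c (nat_lit 2112) l65 (.c (nat_lit 1766) l50 (.c (nat_lit 1407) l42 (.c (nat_lit 1710) l50 (.c (nat_lit 1336) l50 (.c (nat_lit 1351) l1 (.c (nat_lit 1357) l1 (.c (nat_lit 1029) l1 (.c (nat_lit 1007) l1 (.c (nat_lit 1385) l1 (.c (nat_lit 643) l1 (.c (nat_lit 2576) l176 (.c (nat_lit 1137) l1 (.c (nat_lit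 2541) l63 (.c (nat_lit 1387) l50 (.c (nat_lit 1814) l65 u1_43))))))))))))))))))))))))))))))))))))))))
noncomputable def u1_45 : St := (.c (nat_lit 2720) l157 (.c (nat_lit 2574) l65 (.c (nat_lit 2416) l65 (.c (nat_lit 2353) l49 (.c (nat_lit 1377) l1 (.c (nat_lit 915) l42 (.c (nat_lit 2501) l69 (.c (nat_lit 2005) l49 (.c (nat_lit 1796) l42 (.c (nat_lit 2232) l49 (.c (nat_lit 2302) l48 (.c (nat_lit 1891) l49 (.c (nat_lit 1890) l65 (.c (nat_lit 2353) l48 (.c (nat_lit 2656) l141 (.c (nat_lit 1433) l42 (.c (nat_lit 2503) l159 (.c (nat_lit 2659) l69 (.c (nat_lit 2505) l179 (.c (nat_lit 1454) l42 (.c (nat_lit 2399) l65 (.c (nat_lit 2658) l104 (.c (nat_lit 2564) l69 (.c (nat_lit 2572) l97 (.c (nat_lit 1991) l52 (.c (nat_lit 1916) l1 (.c (nat_lit 698) l42 (.c (nat_lit 2575) l171 (.c (nat_lit 2423) l231 (.c (nat_lit 2302) l52 (.c (nat_lit 2656) l65 (.c (nat_lit 2159) l74 (.c (nat_lit 2157)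 l52 (.c (nat_lit 2416) l108 (.c (nat_lit 2541) l78 (.c (nat_lit 1828) l53 (.c (nat_lit 2302) l78 (.c (nat_lit 2156) l74 (.c (nat_lit 1832) l53 (.c (nat_lit 1966) l49 u1_44))))))))))))))))))))))))))))))))))))))))
noncomputable def u1_46 : St := (.c (nat_lit 2613) l69 (.c (nat_lit 1529) l65 (.c (nat_lit 2296) l49 (.c (nat_lit 2443) l49 (.c (nat_lit 1892) l65 (.c (nat_lit 1886) l50 (.c (nat_lit 2353) l52 (.c (nat_lit 2558) l152 (.c (nat_lit 1849) l50 (.c (nat_lit 1909) l50 (.c (nat_lit 2660) l70 (.c (nat_lit 2503) l107 (.c (nat_lit 2658) l70 (.c (nat_lit 2423) l108 (.c (nat_lit 2090) l42 (.c (nat_lit 1920) l42 (.c (nat_lit 2624) l49 (.c (nat_lit 1808) l42 (.c (nat_lit 1713) l42 (.c (nat_lit 1426) l42 (.c (nat_lit 1813) l42 (.c (nat_lit 2092) l42 (.c (nat_lit 989) l42 (.c (nat_lit 1751) l42 (.c (nat_lit 817) l42 (.c (nat_lit 2299) l78 (.c (nat_lit 2651) l100 (.c (nat_lit 2208) l157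 (.c (nat_lit 1368) l42 (.c (nat_lit 911) l42 (.c (nat_lit 645) l1 (.c (nat_lit 572) l42 (.c (nat_lit 833) l42 (.c (nat_lit 2185) l49 (.c (nat_lit 2138) l1 (.c (nat_lit 1728) l42 (.c (nat_lit 1655) l65 (.c (nat_lit 2642) l79 (.c (nat_lit 2506) l118 (.c (nat_lit 2573) l69 u1_45))))))))))))))))))))))))))))))))))))))))
noncomputable def u1_47 : St := (.c (nat_lit 2719) l65 (.c (nat_lit 2719) l49 (.c (nat_lit 2720) l97 (.c (nat_lit 2624) l69 (.c (nat_lit 2558) l141 (.c (nat_lit 2654) l42 (.c (nat_lit 1741) l2 (.c (nat_lit 2575) l160 (.c (nat_lit 2659) l65 (.c (nat_lit 2506) l63 (.c (nat_lit 2625) l78 (.c (nat_lit 2728) l100 (.c (nat_lit 2719) l207 (.c (nat_lit 2558) l65 (.c (nat_lit 2728) l147 (.c (nat_lit 2383) l42 (.c (nat_lit 2649) l65 (.c (nat_lit 2653) l97 (.c (nat_lit 1391) l42 (.c (nat_lit 2728) l154 (.c (nat_lit 2719) l48 (.c (nat_lit 2116) l42 (.c (nat_lit 2728) l73 (.c (nat_lit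 2172) l74 (.c (nat_lit 2575) l74 (.c (nat_lit 2113) l65 (.c (nat_lit 2728) l209 (.c (nat_lit 2390) l65 (.c (nat_lit 2719) l157 (.c (nat_lit 2573) l63 (.c (nat_lit 1825) l42 (.c (nat_lit 2389) l42 (.c (nat_lit 2169) l42 (.c (nat_lit 1810) l42 (.c (nat_lit 2164) l42 (.c (nat_lit 2423) l74 (.c (nat_lit 2503) l49 (.c (nat_lit 2660) l97 (.c (nat_lit 2659) l97 (.c (nat_lit 2656) l97 u1_46))))))))))))))))))))))))))))))))))))))))
noncomputable def u1_48 : St := (.c (nat_lit 2069) l65 .e)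
noncomputable def u1_49 : St := (.c (nat_lit 1992) l65 (.c (nat_lit 1946) l65 (.c (nat_lit 2625) l63 (.c (nat_lit 1965) l65 (.c (nat_lit 2241) l50 (.c (nat_lit 2642) l70 (.c (nat_lit 2542) l97 (.c (nat_lit 2720) l152 (.c (nat_lit 2300) l97 (.c (nat_lit 1518) l50 (.c (nat_lit 2651) l101 (.c (nat_lit 2447) l97 (.c (nat_lit 2462) l69 (.c (nat_lit 2312) l69 (.c (nat_lit 1909) l65 (.c (nat_lit 1969) l48 (.c (nat_lit 1272) l50 (.c (nat_lit 2416) l97 (.c (nat_lit 2158) l65 (.c (nat_lit 1841) l50 (.c (nat_lit 2701) l104 (.c (nat_lit 1093) l42 (.c (nat_lit 1741) l1 (.c (nat_lit 1450) l42 (.c (nat_lit 1710) l50 (.c (nat_lit 2105) l69 (.c (nat_lit 1768) l65 (.c (nat_lit 2557) l107 (.c (nat_lit 1336) l50 (.c (nat_lit 1357) l1 (.c (nat_lit 643) l1 (.c (nat_lit 1137) l1 (.c (nat_lit 2541) l63 (.c (nat_lit 2720) l107 (.c (nat_lit 2728) l104 (.c (nat_lit 1886) l65 (.c (nat_lit 1758) l50 (.c (nat_lit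 2573) l87 (.c (nat_lit 2106) l65 (.c (nat_lit 2318) l65 u1_48))))))))))))))))))))))))))))))))))))))))
noncomputable def u1_50 : St := (.c (nat_lit 1656) l74 (.c (nat_lit 2495) l49 (.c (nat_lit 2353) l48 (.c (nat_lit 2656) l141 (.c (nat_lit 2210) l49 (.c (nat_lit 2211) l65 (.c (nat_lit 2506) l91 (.c (nat_lit 2538) l65 (.c (nat_lit 2618) l141 (.c (nat_lit 2443) l69 (.c (nat_lit 579) l42 (.c (nat_lit 1454) l42 (.c (nat_lit 2572) l97 (.c (nat_lit 1969) l52 (.c (nat_lit 942) l42 (.c (nat_lit 698) l42 (.c (nat_lit 2575) l171 (.c (nat_lit 2423) l231 (.c (nat_lit 2271) l52 (.c (nat_lit 2302) l52 (.c (nat_lit 2656) l65 (.c (nat_lit 2159) l74 (.c (nat_lit 2157) l78 (.c (nat_lit 2416) l108 (.c (nat_lit 2541) l78 (.c (nat_lit 1828) l53 (.c (nat_lit 2156) l74 (.c (nat_lit 1832) l53 (.c (nat_lit 2005) l52 (.c (nat_lit 869) l42 (.c (nat_lit 1877) l49 (.c (nat_lit 1966) l49 (.c (nat_lit 1849)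 l65 (.c (nat_lit 2502) l152 (.c (nat_lit 909) l1 (.c (nat_lit 1524) l65 (.c (nat_lit 1889) l65 (.c (nat_lit 2049) l50 (.c (nat_lit 2271) l48 (.c (nat_lit 2613) l107 u1_49))))))))))))))))))))))))))))))))))))))))
noncomputable def u1_51 : St := (.c (nat_lit 1650) l65 (.c (nat_lit 989) l42 (.c (nat_lit 1751) l42 (.c (nat_lit 2296) l52 (.c (nat_lit 1575) l42 (.c (nat_lit 2651) l100 (.c (nat_lit 2208) l157 (.c (nat_lit 1368) l42 (.c (nat_lit 911) l42 (.c (nat_lit 645) l1 (.c (nat_lit 572) l42 (.c (nat_lit 833) l42 (.c (nat_lit 2185) l49 (.c (nat_lit 1410) l42 (.c (nat_lit 1655) l65 (.c (nat_lit 871) l42 (.c (nat_lit 2642) l79 (.c (nat_lit 1298) l53 (.c (nat_lit 2700) l114 (.c (nat_lit 2624) l97 (.c (nat_lit 2571) l65 (.c (nat_lit 2655) l69 (.c (nat_lit 2720) l157 (.c (nat_lit 2557) l49 (.c (nat_lit 2416) l65 (.c (nat_lit 1377) l1 (.c (nat_lit 2143) l42 (.c (nat_lit 915) l42 (.c (nat_lit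 1341) l42 (.c (nat_lit 2501) l69 (.c (nat_lit 2005) l49 (.c (nat_lit 2499) l49 (.c (nat_lit 1991) l49 (.c (nat_lit 2576) l114 (.c (nat_lit 2005) l63 (.c (nat_lit 2232) l49 (.c (nat_lit 2302) l48 (.c (nat_lit 2446) l65 (.c (nat_lit 1891) l49 (.c (nat_lit 2341) l50 u1_50))))))))))))))))))))))))))))))))))))))))
noncomputable def u1_52 : St := (.c (nat_lit 2567) l50 (.c (nat_lit 2503) l69 (.c (nat_lit 2656) l97 (.c (nat_lit 2613) l69 (.c (nat_lit 2385) l65 (.c (nat_lit 2572) l65 (.c (nat_lit 2624) l141 (.c (nat_lit 1529) l65 (.c (nat_lit 2203) l50 (.c (nat_lit 2443) l49 (.c (nat_lit 1886) l50 (.c (nat_lit 2353) l52 (.c (nat_lit 2558) l152 (.c (nat_lit 1877) l69 (.c (nat_lit 2202) l50 (.c (nat_lit 1873) l50 (.c (nat_lit 2561) l50 (.c (nat_lit 2618) l97 (.c (nat_lit 1640) l42 (.c (nat_lit 2397) l50 (.c (nat_lit 2660) l70 (.c (nat_lit 1876) l50 (.c (nat_lit 1435) l42 (.c (nat_lit 2700)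 l79 (.c (nat_lit 2104) l50 (.c (nat_lit 2423) l108 (.c (nat_lit 1140) l50 (.c (nat_lit 2306) l108 (.c (nat_lit 2007) l74 (.c (nat_lit 2625) l118 (.c (nat_lit 2624) l49 (.c (nat_lit 2440) l65 (.c (nat_lit 1648) l42 (.c (nat_lit 1808) l42 (.c (nat_lit 1713) l42 (.c (nat_lit 1426) l42 (.c (nat_lit 1813) l42 (.c (nat_lit 1529) l1 (.c (nat_lit 2417) l50 (.c (nat_lit 2092) l42 u1_51))))))))))))))))))))))))))))))))))))))))
noncomputable def u1_53 : St := (.c (nat_lit 2296) l48 (.c (nat_lit 2719) l65 (.c (nat_lit 2502) l97 (.c (nat_lit 2719) l49 (.c (nat_lit 2720) l97 (.c (nat_lit 2624) l69 (.c (nat_lit 2558) l141 (.c (nat_lit 2571) l97 (.c (nat_lit 2654) l42 (.c (nat_lit 1741) l2 (.c (nat_lit 2575) l160 (.c (nat_lit 2624) l65 (.c (nat_lit 2728) l100 (.c (nat_lit 2719) l207 (.c (nat_lit 2558) l65 (.c (nat_lit 2728) l147 (.c (nat_lit 2383) l42 (.c (nat_lit 2649) l65 (.c (nat_lit 2653)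 l97 (.c (nat_lit 1391) l42 (.c (nat_lit 2728) l154 (.c (nat_lit 2719) l48 (.c (nat_lit 2116) l42 (.c (nat_lit 2506) l78 (.c (nat_lit 2593) l65 (.c (nat_lit 2302) l49 (.c (nat_lit 2728) l73 (.c (nat_lit 2172) l74 (.c (nat_lit 2575) l74 (.c (nat_lit 2113) l65 (.c (nat_lit 2728) l209 (.c (nat_lit 2390) l65 (.c (nat_lit 2719) l157 (.c (nat_lit 2573) l63 (.c (nat_lit 2389) l42 (.c (nat_lit 2169) l42 (.c (nat_lit 1810) l42 (.c (nat_lit 2164) l42 (.c (nat_lit 2423) l74 (.c (nat_lit 2385) l50 u1_52))))))))))))))))))))))))))))))))))))))))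
noncomputable def u1_54 : St := (.c (nat_lit 643) l1 (.c (nat_lit 2576) l176 (.c (nat_lit 2541) l63 (.c (nat_lit 2422) l97 (.c (nat_lit 1387) l50 (.c (nat_lit 2416) l157 (.c (nat_lit 2720) l107 (.c (nat_lit 2157) l63 (.c (nat_lit 1748) l65 (.c (nat_lit 2573) l107 (.c (nat_lit 2232) l69 (.c (nat_lit 2214) l97 (.c (nat_lit 2573) l87 (.c (nat_lit 2106) l65 (.c (nat_lit 2573) l159 .e)))))))))))))))
noncomputable def u1_55 : St := (.c (nat_lit 1629) l74 (.c (nat_lit 2159) l74 (.c (nat_lit 2416) l108 (.c (nat_lit 2541) l78 (.c (nat_lit 1828) l53 (.c (nat_lit 2302) l78 (.c (nat_lit 2156) l74 (.c (nat_lit 1832) l53 (.c (nat_lit 2005) l52 (.c (nat_lit 869) l42 (.c (nat_lit 817) l53 (.c (nat_lit 1966) l49 (.c (nat_lit 1849) l65 (.c (nat_lit 2300) l157 (.c (nat_lit 1524) l65 (.c (nat_lit 1889) l65 (.c (nat_lit 2049) l50 (.c (nat_lit 1969) l63 (.c (nat_lit 2271) l48 (.c (nat_lit 1991) l63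 (.c (nat_lit 1946) l65 (.c (nat_lit 1572) l50 (.c (nat_lit 1991) l48 (.c (nat_lit 1965) l65 (.c (nat_lit 2241) l50 (.c (nat_lit 2642) l70 (.c (nat_lit 1909) l65 (.c (nat_lit 2302) l63 (.c (nat_lit 2158) l65 (.c (nat_lit 1093) l42 (.c (nat_lit 2105) l49 (.c (nat_lit 2341) l1 (.c (nat_lit 1766) l50 (.c (nat_lit 1450) l42 (.c (nat_lit 746) l42 (.c (nat_lit 1089) l42 (.c (nat_lit 1743) l50 (.c (nat_lit 2557) l107 (.c (nat_lit 1351) l1 (.c (nat_lit 988) l1 u1_54))))))))))))))))))))))))))))))))))))))))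
noncomputable def u1_56 : St := (.c (nat_lit 1575) l42 (.c (nat_lit 1410) l42 (.c (nat_lit 1644) l50 (.c (nat_lit 1655) l65 (.c (nat_lit 871) l42 (.c (nat_lit 2642) l79 (.c (nat_lit 1298) l53 (.c (nat_lit 2700) l114 (.c (nat_lit 2624) l97 (.c (nat_lit 2655) l69 (.c (nat_lit 2573) l69 (.c (nat_lit 2557) l49 (.c (nat_lit 2416) l65 (.c (nat_lit 2353) l49 (.c (nat_lit 2143) l42 (.c (nat_lit 915) l42 (.c (nat_lit 1341) l42 (.c (nat_lit 2499) l49 (.c (nat_lit 1991) l49 (.c (nat_lit 2576) l114 (.c (nat_lit 2005) l63 (.c (nat_lit 2546) l74 (.c (nat_lit 2232) l49 (.c (nat_lit 2341) l50 (.c (nat_lit 1890) l65 (.c (nat_lit 1656) l74 (.c (nat_lit 2353) l48 (.c (nat_lit 2503) l159 (.c (nat_lit 2506) l91 (.c (nat_lit 2618) l141 (.c (nat_lit 1155) l1 (.c (nat_lit 579) l42 (.c (nat_lit 2659) l69 (.c (nat_lit 2701) l107 (.c (nat_lit 2505) l179 (.c (nat_lit 1454) l42 (.c (nat_lit 1969) l52 (.c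 (nat_lit 1611) l74 (.c (nat_lit 2423) l231 (.c (nat_lit 2271) l52 u1_55))))))))))))))))))))))))))))))))))))))))
noncomputable def u1_57 : St := (.c (nat_lit 2296) l48 (.c (nat_lit 2506) l63 (.c (nat_lit 2624) l65 (.c (nat_lit 2625) l78 (.c (nat_lit 2214) l65 (.c (nat_lit 2302) l49 (.c (nat_lit 2573) l63 (.c (nat_lit 2503) l49 (.c (nat_lit 2385) l50 (.c (nat_lit 2100) l50 (.c (nat_lit 2503) l69 (.c (nat_lit 2573) l49 (.c (nat_lit 2422) l65 (.c (nat_lit 2385) l65 (.c (nat_lit 2624) l141 (.c (nat_lit 1529) l65 (.c (nat_lit 2296) l49 (.c (nat_lit 2207) l65 (.c (nat_lit 1892) l65 (.c (nat_lit 1295) l42 (.c (nat_lit 2353) l52 (.c (nat_lit 1877) l69 (.c (nat_lit 1849) l50 (.c (nat_lit 2618) l97 (.c (nat_lit 1909) l50 (.c (nat_lit 1640) l42 (.c (nat_lit 1876) l50 (.c (nat_lit 1435) l42 (.c (nat_lit 2503) l107 (.c (nat_lit 2700) l79 (.c (nat_lit 2625) l118 (.c (nat_lit 2564) l49 (.c (nat_lit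 1648) l42 (.c (nat_lit 1713) l42 (.c (nat_lit 1529) l1 (.c (nat_lit 2379) l1 (.c (nat_lit 1275) l50 (.c (nat_lit 2417) l50 (.c (nat_lit 2092) l42 (.c (nat_lit 2296) l52 u1_56))))))))))))))))))))))))))))))))))))))))
noncomputable def u1_58 : St := (.c (nat_lit 2720) l152 (.c (nat_lit 2377) l50 (.c (nat_lit 1518) l50 (.c (nat_lit 2651) l101 (.c (nat_lit 2447) l97 (.c (nat_lit 2462) l69 (.c (nat_lit 1969) l48 (.c (nat_lit 2131) l65 (.c (nat_lit 2701) l104 (.c (nat_lit 2157) l48 (.c (nat_lit 2112) l65 (.c (nat_lit 2700) l157 (.c (nat_lit 1766) l50 (.c (nat_lit 1710) l50 (.c (nat_lit 746) l42 (.c (nat_lit 2105) l69 (.c (nat_lit 1336) l50 (.c (nat_lit 1351) l1 (.c (nat_lit 1357) l1 (.c (nat_lit 1385) l1 (.c (nat_lit 643) l1 (.c (nat_lit 2576) l176 (.c (nat_lit 2541) l63 (.c (nat_lit 2422) l97 (.c (nat_lit 2720) l107 (.c (nat_lit 2728) l104 (.c (nat_lit 2232) l69 (.c (nat_lit 2318) l65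 .e))))))))))))))))))))))))))))
noncomputable def u1_59 : St := (.c (nat_lit 2495) l49 (.c (nat_lit 2353) l48 (.c (nat_lit 2656) l141 (.c (nat_lit 2312) l49 (.c (nat_lit 2210) l49 (.c (nat_lit 2211) l65 (.c (nat_lit 2503) l159 (.c (nat_lit 2506) l91 (.c (nat_lit 2538) l65 (.c (nat_lit 2618) l141 (.c (nat_lit 2443) l69 (.c (nat_lit 1155) l1 (.c (nat_lit 2020) l50 (.c (nat_lit 2572) l97 (.c (nat_lit 1969) l52 (.c (nat_lit 1991) l52 (.c (nat_lit 1916) l1 (.c (nat_lit 698) l42 (.c (nat_lit 2423) l231 (.c (nat_lit 2271) l52 (.c (nat_lit 2302) l52 (.c (nat_lit 2656) l65 (.c (nat_lit 2157) l52 (.c (nat_lit 2541) l78 (.c (nat_lit 2005) l52 (.c (nat_lit 869) l42 (.c (nat_lit 817) l53 (.c (nat_lit 917) l42 (.c (nat_lit 2049) l50 (.c (nat_lit 2038) l50 (.c (nat_lit 2271) l48 (.c (nat_lit 1991) l63 (.c (nat_lit 2613) l107 (.c (nat_lit 1992) l65 (.c (nat_lit 1572) l50 (.c (nat_lit 1991) l48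 (.c (nat_lit 2625) l63 (.c (nat_lit 1965) l65 (.c (nat_lit 2241) l50 (.c (nat_lit 2542) l97 u1_58))))))))))))))))))))))))))))))))))))))))
noncomputable def u1_60 : St := (.c (nat_lit 1751) l42 (.c (nat_lit 817) l42 (.c (nat_lit 2296) l52 (.c (nat_lit 1575) l42 (.c (nat_lit 2299) l78 (.c (nat_lit 2651) l100 (.c (nat_lit 2208) l157 (.c (nat_lit 1368) l42 (.c (nat_lit 911) l42 (.c (nat_lit 645) l1 (.c (nat_lit 572) l42 (.c (nat_lit 833) l42 (.c (nat_lit 2185) l49 (.c (nat_lit 2138) l1 (.c (nat_lit 1728) l42 (.c (nat_lit 1410) l42 (.c (nat_lit 1655) l65 (.c (nat_lit 871) l42 (.c (nat_lit 1298) l53 (.c (nat_lit 2700) l114 (.c (nat_lit 2624) l97 (.c (nat_lit 2571) l65 (.c (nat_lit 2655) l69 (.c (nat_lit 2416) l65 (.c (nat_lit 2353) l49 (.c (nat_lit 1377) l1 (.c (nat_lit 2143) l42 (.c (nat_lit 1341) l42 (.c (nat_lit 2501) l69 (.c (nat_lit 2005) l49 (.c (nat_lit 2499) l49 (.c (nat_lit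 1991) l49 (.c (nat_lit 1796) l42 (.c (nat_lit 2005) l48 (.c (nat_lit 2302) l48 (.c (nat_lit 2446) l65 (.c (nat_lit 1891) l49 (.c (nat_lit 2341) l50 (.c (nat_lit 1890) l65 (.c (nat_lit 1656) l74 u1_59))))))))))))))))))))))))))))))))))))))))
noncomputable def u1_61 : St := (.c (nat_lit 2422) l65 (.c (nat_lit 2660) l157 (.c (nat_lit 2566) l65 (.c (nat_lit 2624) l141 (.c (nat_lit 2203) l50 (.c (nat_lit 2443) l49 (.c (nat_lit 1892) l65 (.c (nat_lit 1295) l42 (.c (nat_lit 2353) l52 (.c (nat_lit 2558) l152 (.c (nat_lit 1877) l69 (.c (nat_lit 2202) l50 (.c (nat_lit 1873) l50 (.c (nat_lit 1849) l50 (.c (nat_lit 2561) l50 (.c (nat_lit 2618) l97 (.c (nat_lit 1909) l50 (.c (nat_lit 1640) l42 (.c (nat_lit 2384) l65 (.c (nat_lit 2397) l50 (.c (nat_lit 1876) l50 (.c (nat_lit 1435) l42 (.c (nat_lit 2503) l107 (.c (nat_lit 2658) l70 (.c (nat_lit 2700) l79 (.c (nat_lit 1140) l50 (.c (nat_lit 2306)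 l108 (.c (nat_lit 2090) l42 (.c (nat_lit 1920) l42 (.c (nat_lit 2007) l74 (.c (nat_lit 2625) l118 (.c (nat_lit 2624) l49 (.c (nat_lit 2440) l65 (.c (nat_lit 1648) l42 (.c (nat_lit 1426) l42 (.c (nat_lit 1813) l42 (.c (nat_lit 1529) l1 (.c (nat_lit 2379) l1 (.c (nat_lit 1650) l65 (.c (nat_lit 989) l42 u1_60))))))))))))))))))))))))))))))))))))))))
noncomputable def u1_62 : St := (.c (nat_lit 2296) l48 (.c (nat_lit 2719) l65 (.c (nat_lit 2719) l49 (.c (nat_lit 2720) l97 (.c (nat_lit 2624) l69 (.c (nat_lit 2558) l141 (.c (nat_lit 2571) l97 (.c (nat_lit 2654) l42 (.c (nat_lit 1741) l2 (.c (nat_lit 2659) l65 (.c (nat_lit 2624) l65 (.c (nat_lit 2728) l100 (.c (nat_lit 2719) l207 (.c (nat_lit 2558) l65 (.c (nat_lit 2728) l147 (.c (nat_lit 2383) l42 (.c (nat_lit 2649) l65 (.c (nat_lit 2653) l97 (.c (nat_lit 1391) l42 (.c (nat_lit 2728) l154 (.c (nat_lit 2719) l48 (.c (nat_lit 2116) l42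 (.c (nat_lit 2506) l78 (.c (nat_lit 2593) l65 (.c (nat_lit 2302) l49 (.c (nat_lit 2728) l73 (.c (nat_lit 2113) l65 (.c (nat_lit 2728) l209 (.c (nat_lit 2390) l65 (.c (nat_lit 2719) l157 (.c (nat_lit 1825) l42 (.c (nat_lit 2389) l42 (.c (nat_lit 2169) l42 (.c (nat_lit 2164) l42 (.c (nat_lit 2503) l49 (.c (nat_lit 2100) l50 (.c (nat_lit 2110) l50 (.c (nat_lit 2567) l50 (.c (nat_lit 2656) l97 (.c (nat_lit 2613) l69 u1_61))))))))))))))))))))))))))))))))))))))))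
noncomputable def u1_63 : St := (.c (nat_lit 1089) l42 (.c (nat_lit 2105) l69 (.c (nat_lit 1768) l65 (.c (nat_lit 1351) l1 (.c (nat_lit 1029) l1 (.c (nat_lit 1385) l1 (.c (nat_lit 2576) l176 (.c (nat_lit 1137) l1 (.c (nat_lit 1387) l50 (.c (nat_lit 1814) l65 (.c (nat_lit 2416) l157 (.c (nat_lit 1781) l50 (.c (nat_lit 1748) l65 (.c (nat_lit 1886) l65 (.c (nat_lit 1758) l50 (.c (nat_lit 2573) l87 (.c (nat_lit 2106) l65 .e)))))))))))))))))
noncomputable def u1_64 : St := (.c (nat_lit 1341) l42 (.c (nat_lit 2576) l114 (.c (nat_lit 1796) l42 (.c (nat_lit 2005) l48 (.c (nat_lit 2005) l63 (.c (nat_lit 2546) l74 (.c (nat_lit 1890) l65 (.c (nat_lit 1611) l74 (.c (nat_lit 1916) l1 (.c (nat_lit 2575) l171 (.c (nat_lit 1629) l74 (.c (nat_lit 2159) l74 (.c (nat_lit 2157) l52 (.c (nat_lit 2157) l78 (.c (nat_lit 2416) l108 (.c (nat_lit 1828) l53 (.c (nat_lit 2156) l74 (.c (nat_lit 1832) l53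 (.c (nat_lit 1966) l49 (.c (nat_lit 1849) l65 (.c (nat_lit 2502) l152 (.c (nat_lit 917) l42 (.c (nat_lit 1969) l63 (.c (nat_lit 2412) l65 (.c (nat_lit 1991) l63 (.c (nat_lit 1992) l65 (.c (nat_lit 1572) l50 (.c (nat_lit 1991) l48 (.c (nat_lit 2625) l63 (.c (nat_lit 2377) l50 (.c (nat_lit 2300) l97 (.c (nat_lit 1969) l48 (.c (nat_lit 1272) l50 (.c (nat_lit 1741) l1 (.c (nat_lit 2105) l49 (.c (nat_lit 2157) l48 (.c (nat_lit 2112) l65 (.c (nat_lit 2659) l207 (.c (nat_lit 2700) l157 (.c (nat_lit 2341) l1 u1_63))))))))))))))))))))))))))))))))))))))))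
noncomputable def u1_65 : St := (.c (nat_lit 2502) l97 (.c (nat_lit 2624) l69 (.c (nat_lit 2575) l160 (.c (nat_lit 2659) l65 (.c (nat_lit 2506) l63 (.c (nat_lit 2625) l78 (.c (nat_lit 2172) l74 (.c (nat_lit 2575) l74 (.c (nat_lit 2573) l63 (.c (nat_lit 1825) l42 (.c (nat_lit 1810) l42 (.c (nat_lit 2423) l74 (.c (nat_lit 2503) l69 (.c (nat_lit 2572) l65 (.c (nat_lit 2660) l157 (.c (nat_lit 2566) l65 (.c (nat_lit 1529) l65 (.c (nat_lit 2207) l65 (.c (nat_lit 1158) l50 (.c (nat_lit 1295) l42 (.c (nat_lit 1886) l50 (.c (nat_lit 1849) l50 (.c (nat_lit 2397) l50 (.c (nat_lit 1876) l50 (.c (nat_lit 2423) l108 (.c (nat_lit 2306) l108 (.c (nat_lit 2090) l42 (.c (nat_lit 1920) l42 (.c (nat_lit 2007) l74 (.c (nat_lit 2624) l49 (.c (nat_lit 1808) l42 (.c (nat_lit 1650) l65 (.c (nat_lit 1575) l42 (.c (nat_lit 1728) l42 (.c (nat_lit 1655) l65 (.c (nat_lit 2506) l118 (.c (nat_lit 2720) l157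 (.c (nat_lit 2353) l49 (.c (nat_lit 2143) l42 (.c (nat_lit 915) l42 u1_64))))))))))))))))))))))))))))))))))))))))
noncomputable def u1_66 : St := (.c (nat_lit 1572) l50 (.c (nat_lit 2625) l63 (.c (nat_lit 1605) l65 (.c (nat_lit 1965) l65 (.c (nat_lit 2241) l50 (.c (nat_lit 2642) l70 (.c (nat_lit 2542) l97 (.c (nat_lit 2720) l152 (.c (nat_lit 2300) l97 (.c (nat_lit 1518) l50 (.c (nat_lit 2651) l101 (.c (nat_lit 2447) l97 (.c (nat_lit 2462) l69 (.c (nat_lit 2312) l69 (.c (nat_lit 1909) l65 (.c (nat_lit 1272) l50 (.c (nat_lit 2302) l63 (.c (nat_lit 2416) l97 (.c (nat_lit 2158) l65 (.c (nat_lit 2112) l65 (.c (nat_lit 2700) l157 (.c (nat_lit 2341) l1 (.c (nat_lit 1089) l42 (.c (nat_lit 2105) l69 (.c (nat_lit 1743) l50 (.c (nat_lit 1336) l50 (.c (nat_lit 1351) l1 (.c (nat_lit 1029) l1 (.c (nat_lit 1082) l42 (.c (nat_lit 643) l1 (.c (nat_lit 1137) l1 (.c (nat_lit 2416) l157 (.c (nat_lit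 2157) l63 (.c (nat_lit 2660) l100 (.c (nat_lit 2728) l104 (.c (nat_lit 1886) l65 (.c (nat_lit 2232) l69 (.c (nat_lit 2573) l87 .e))))))))))))))))))))))))))))))))))))))
noncomputable def u1_67 : St := (.c (nat_lit 2211) l65 (.c (nat_lit 2506) l91 (.c (nat_lit 2618) l141 (.c (nat_lit 2443) l69 (.c (nat_lit 2659) l69 (.c (nat_lit 2505) l179 (.c (nat_lit 2399) l65 (.c (nat_lit 2658) l104 (.c (nat_lit 2572) l97 (.c (nat_lit 1969) l52 (.c (nat_lit 1611) l74 (.c (nat_lit 1991) l52 (.c (nat_lit 1916) l1 (.c (nat_lit 698) l42 (.c (nat_lit 2575) l171 (.c (nat_lit 2271) l52 (.c (nat_lit 2656) l65 (.c (nat_lit 1629) l74 (.c (nat_lit 2159) l74 (.c (nat_lit 2416) l108 (.c (nat_lit 1828) l53 (.c (nat_lit 2302) l78 (.c (nat_lit 2156) l74 (.c (nat_lit 1832) l53 (.c (nat_lit 2005) l52 (.c (nat_lit 869) l42 (.c (nat_lit 1877) l49 (.c (nat_lit 1966) l49 (.c (nat_lit 1849) l65 (.c (nat_lit 2502) l152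 (.c (nat_lit 909) l1 (.c (nat_lit 917) l42 (.c (nat_lit 2300) l157 (.c (nat_lit 1889) l65 (.c (nat_lit 1969) l63 (.c (nat_lit 2412) l65 (.c (nat_lit 2271) l48 (.c (nat_lit 2613) l107 (.c (nat_lit 1992) l65 (.c (nat_lit 1946) l65 u1_66))))))))))))))))))))))))))))))))))))))))
noncomputable def u1_68 : St := (.c (nat_lit 1275) l50 (.c (nat_lit 2092) l42 (.c (nat_lit 989) l42 (.c (nat_lit 1751) l42 (.c (nat_lit 2296) l52 (.c (nat_lit 2299) l78 (.c (nat_lit 2651) l100 (.c (nat_lit 2208) l157 (.c (nat_lit 1368) l42 (.c (nat_lit 911) l42 (.c (nat_lit 645) l1 (.c (nat_lit 572) l42 (.c (nat_lit 833) l42 (.c (nat_lit 2185) l49 (.c (nat_lit 2138) l1 (.c (nat_lit 1728) l42 (.c (nat_lit 1410) l42 (.c (nat_lit 1644) l50 (.c (nat_lit 1655) l65 (.c (nat_lit 871) l42 (.c (nat_lit 2642) l79 (.c (nat_lit 1298) l53 (.c (nat_lit 2700) l114 (.c (nat_lit 2624) l97 (.c (nat_lit 2573) l69 (.c (nat_lit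 2574) l65 (.c (nat_lit 2416) l65 (.c (nat_lit 1377) l1 (.c (nat_lit 2499) l49 (.c (nat_lit 1991) l49 (.c (nat_lit 1796) l42 (.c (nat_lit 2005) l48 (.c (nat_lit 2546) l74 (.c (nat_lit 2446) l65 (.c (nat_lit 1891) l49 (.c (nat_lit 2341) l50 (.c (nat_lit 1656) l74 (.c (nat_lit 2495) l49 (.c (nat_lit 2656) l141 (.c (nat_lit 2210) l49 u1_67))))))))))))))))))))))))))))))))))))))))
noncomputable def u1_69 : St := (.c (nat_lit 2659) l97 (.c (nat_lit 2503) l69 (.c (nat_lit 2656) l97 (.c (nat_lit 2613) l69 (.c (nat_lit 2572) l65 (.c (nat_lit 2660) l157 (.c (nat_lit 2566) l65 (.c (nat_lit 2624) l141 (.c (nat_lit 2203) l50 (.c (nat_lit 2296) l49 (.c (nat_lit 2443) l49 (.c (nat_lit 1158) l50 (.c (nat_lit 1886) l50 (.c (nat_lit 2558) l152 (.c (nat_lit 1877) l69 (.c (nat_lit 2202) l50 (.c (nat_lit 1873) l50 (.c (nat_lit 2618) l97 (.c (nat_lit 1640) l42 (.c (nat_lit 2384) l65 (.c (nat_lit 2381)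 l50 (.c (nat_lit 2103) l50 (.c (nat_lit 2397) l50 (.c (nat_lit 1876) l50 (.c (nat_lit 1435) l42 (.c (nat_lit 2700) l79 (.c (nat_lit 2104) l50 (.c (nat_lit 2423) l108 (.c (nat_lit 1140) l50 (.c (nat_lit 2090) l42 (.c (nat_lit 1920) l42 (.c (nat_lit 2625) l118 (.c (nat_lit 2624) l49 (.c (nat_lit 2440) l65 (.c (nat_lit 2564) l49 (.c (nat_lit 1648) l42 (.c (nat_lit 1713) l42 (.c (nat_lit 1426) l42 (.c (nat_lit 1813) l42 (.c (nat_lit 1529) l1 u1_68))))))))))))))))))))))))))))))))))))))))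
noncomputable def u1_70 : St := (.c (nat_lit 2296) l48 (.c (nat_lit 2719) l65 (.c (nat_lit 2502) l97 (.c (nat_lit 2719) l49 (.c (nat_lit 2720) l97 (.c (nat_lit 2624) l69 (.c (nat_lit 2558) l141 (.c (nat_lit 2654) l42 (.c (nat_lit 1741) l2 (.c (nat_lit 2575) l160 (.c (nat_lit 2624) l65 (.c (nat_lit 2728) l100 (.c (nat_lit 2719) l207 (.c (nat_lit 2558) l65 (.c (nat_lit 2728) l147 (.c (nat_lit 2383) l42 (.c (nat_lit 2649) l65 (.c (nat_lit 2653) l97 (.c (nat_lit 1391) l42 (.c (nat_lit 2728) l154 (.c (nat_lit 2719) l48 (.c (nat_lit 2116) l42 (.c (nat_lit 2506) l78 (.c (nat_lit 2593) l65 (.c (nat_lit 2302) l49 (.c (nat_lit 2728) l73 (.c (nat_lit 2172) l74 (.c (nat_lit 2575) l74 (.c (nat_lit 2113) l65 (.c (nat_lit 2728) l209 (.c (nat_lit 2390) l65 (.c (nat_lit 2719) l157 (.c (nat_lit 2573) l63 (.c (nat_lit 1825) l42 (.c (nat_lit 2389) l42 (.c (nat_lit 2169) l42 (.c (nat_lit 2164) l42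 (.c (nat_lit 2423) l74 (.c (nat_lit 2660) l97 (.c (nat_lit 2110) l50 u1_69))))))))))))))))))))))))))))))))))))))))
noncomputable def u1_71 : St := (.c (nat_lit 1748) l65 (.c (nat_lit 2660) l100 (.c (nat_lit 2728) l104 (.c (nat_lit 1886) l65 (.c (nat_lit 2232) l69 (.c (nat_lit 2214) l97 .e))))))
noncomputable def u1_72 : St := (.c (nat_lit 1969) l63 (.c (nat_lit 2412) l65 (.c (nat_lit 1991) l63 (.c (nat_lit 2613) l107 (.c (nat_lit 1946) l65 (.c (nat_lit 1991) l48 (.c (nat_lit 2542) l97 (.c (nat_lit 2720) l152 (.c (nat_lit 2300) l97 (.c (nat_lit 1518) l50 (.c (nat_lit 2651) l101 (.c (nat_lit 2447) l97 (.c (nat_lit 2462) l69 (.c (nat_lit 1969) l48 (.c (nat_lit 1272) l50 (.c (nat_lit 2302) l63 (.c (nat_lit 2416) l97 (.c (nat_lit 2158) l65 (.c (nat_lit 1841) l50 (.c (nat_lit 1093) l42 (.c (nat_lit 1741) l1 (.c (nat_lit 2105) l49 (.c (nat_lit 2157) l48 (.c (nat_lit 2112) l65 (.c (nat_lit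 2700) l157 (.c (nat_lit 2341) l1 (.c (nat_lit 1407) l42 (.c (nat_lit 1710) l50 (.c (nat_lit 2105) l69 (.c (nat_lit 1743) l50 (.c (nat_lit 1336) l50 (.c (nat_lit 1351) l1 (.c (nat_lit 988) l1 (.c (nat_lit 1082) l42 (.c (nat_lit 1385) l1 (.c (nat_lit 2576) l176 (.c (nat_lit 1137) l1 (.c (nat_lit 2541) l63 (.c (nat_lit 1387) l50 (.c (nat_lit 1781) l50 u1_71))))))))))))))))))))))))))))))))))))))))
noncomputable def u1_73 : St := (.c (nat_lit 2005) l49 (.c (nat_lit 2576) l114 (.c (nat_lit 2302) l48 (.c (nat_lit 2446) l65 (.c (nat_lit 1891) l49 (.c (nat_lit 2341) l50 (.c (nat_lit 1890) l65 (.c (nat_lit 2495) l49 (.c (nat_lit 2353) l48 (.c (nat_lit 2656) l141 (.c (nat_lit 2312) l49 (.c (nat_lit 2210) l49 (.c (nat_lit 2211) l65 (.c (nat_lit 1433) l42 (.c (nat_lit 2503) l159 (.c (nat_lit 2443) l69 (.c (nat_lit 1155) l1 (.c (nat_lit 2659) l69 (.c (nat_lit 2505) l179 (.c (nat_lit 1454) l42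 (.c (nat_lit 2020) l50 (.c (nat_lit 2399) l65 (.c (nat_lit 2658) l104 (.c (nat_lit 2572) l97 (.c (nat_lit 1611) l74 (.c (nat_lit 942) l42 (.c (nat_lit 698) l42 (.c (nat_lit 2423) l231 (.c (nat_lit 2302) l52 (.c (nat_lit 2656) l65 (.c (nat_lit 1629) l74 (.c (nat_lit 2157) l52 (.c (nat_lit 2541) l78 (.c (nat_lit 2302) l78 (.c (nat_lit 817) l53 (.c (nat_lit 2502) l152 (.c (nat_lit 909) l1 (.c (nat_lit 2300) l157 (.c (nat_lit 1889) l65 (.c (nat_lit 2038) l50 u1_72))))))))))))))))))))))))))))))))))))))))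
noncomputable def u1_74 : St := (.c (nat_lit 2443) l49 (.c (nat_lit 1295) l42 (.c (nat_lit 1886) l50 (.c (nat_lit 2353) l52 (.c (nat_lit 2558) l152 (.c (nat_lit 2202) l50 (.c (nat_lit 1873) l50 (.c (nat_lit 1849) l50 (.c (nat_lit 1909) l50 (.c (nat_lit 2384) l65 (.c (nat_lit 2381) l50 (.c (nat_lit 2103) l50 (.c (nat_lit 2397) l50 (.c (nat_lit 1876) l50 (.c (nat_lit 2503) l107 (.c (nat_lit 2104) l50 (.c (nat_lit 1140) l50 (.c (nat_lit 2306) l108 (.c (nat_lit 2007) l74 (.c (nat_lit 2440) l65 (.c (nat_lit 2564) l49 (.c (nat_lit 1426) l42 (.c (nat_lit 1813) l42 (.c (nat_lit 2379) l1 (.c (nat_lit 1650) l65 (.c (nat_lit 989) l42 (.c (nat_lit 1751) l42 (.c (nat_lit 2651) l100 (.c (nat_lit 2208) l157 (.c (nat_lit 1368) l42 (.c (nat_lit 911) l42 (.c (nat_lit 645) l1 (.c (nat_lit 572) l42 (.c (nat_lit 833) l42 (.c (nat_lit 2185) l49 (.c (nat_lit 2573) l69 (.c (nat_lit 2574) l65 (.c (nat_lit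 2353) l49 (.c (nat_lit 1377) l1 (.c (nat_lit 2501) l69 u1_73))))))))))))))))))))))))))))))))))))))))
noncomputable def u1_75 : St := (.c (nat_lit 2719) l65 (.c (nat_lit 2502) l97 (.c (nat_lit 2719) l49 (.c (nat_lit 2720) l97 (.c (nat_lit 2558) l141 (.c (nat_lit 2654) l42 (.c (nat_lit 1741) l2 (.c (nat_lit 2728) l100 (.c (nat_lit 2719) l207 (.c (nat_lit 2558) l65 (.c (nat_lit 2728) l147 (.c (nat_lit 2383) l42 (.c (nat_lit 2649) l65 (.c (nat_lit 2653) l97 (.c (nat_lit 2214) l65 (.c (nat_lit 1391) l42 (.c (nat_lit 2728) l154 (.c (nat_lit 2719) l48 (.c (nat_lit 2116) l42 (.c (nat_lit 2593) l65 (.c (nat_lit 2728) l73 (.c (nat_lit 2113) l65 (.c (nat_lit 2728) l209 (.c (nat_lit 2390) l65 (.c (nat_lit 2719) l157 (.c (nat_lit 2389) l42 (.c (nat_lit 2169) l42 (.c (nat_lit 2164) l42 (.c (nat_lit 2503) l49 (.c (nat_lit 2660) l97 (.c (nat_lit 2659) l97 (.c (nat_lit 2503) l69 (.c (nat_lit 2656)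 l97 (.c (nat_lit 2613) l69 (.c (nat_lit 2572) l65 (.c (nat_lit 2660) l157 (.c (nat_lit 2566) l65 (.c (nat_lit 1529) l65 (.c (nat_lit 2203) l50 (.c (nat_lit 2296) l49 u1_74))))))))))))))))))))))))))))))))))))))))
noncomputable def u1_76 : St := (.c (nat_lit 2302) l63 (.c (nat_lit 2416) l97 (.c (nat_lit 1741) l1 (.c (nat_lit 2105) l49 (.c (nat_lit 2659) l207 (.c (nat_lit 1768) l65 (.c (nat_lit 1743) l50 (.c (nat_lit 1082) l42 (.c (nat_lit 1385) l1 (.c (nat_lit 643) l1 (.c (nat_lit 2576) l176 (.c (nat_lit 1814) l65 (.c (nat_lit 1781) l50 (.c (nat_lit 1748) l65 (.c (nat_lit 2660) l100 (.c (nat_lit 2728) l104 (.c (nat_lit 2232) l69 .e)))))))))))))))))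
noncomputable def u1_77 : St := (.c (nat_lit 2443) l69 (.c (nat_lit 579) l42 (.c (nat_lit 2659) l69 (.c (nat_lit 2505) l179 (.c (nat_lit 2399) l65 (.c (nat_lit 2658) l104 (.c (nat_lit 2572) l97 (.c (nat_lit 1969) l52 (.c (nat_lit 1611) l74 (.c (nat_lit 698) l42 (.c (nat_lit 2271) l52 (.c (nat_lit 2656) l65 (.c (nat_lit 1629) l74 (.c (nat_lit 2302) l78 (.c (nat_lit 2005) l52 (.c (nat_lit 869) l42 (.c (nat_lit 817) l53 (.c (nat_lit 1877) l49 (.c (nat_lit 2300) l157 (.c (nat_lit 1524) l65 (.c (nat_lit 1889) l65 (.c (nat_lit 1969) l63 (.c (nat_lit 2271) l48 (.c (nat_lit 1991) l63 (.c (nat_lit 2613) l107 (.c (nat_lit 1946) l65 (.c (nat_lit 1991) l48 (.c (nat_lit 1605) l65 (.c (nat_lit 1965) l65 (.c (nat_lit 2241) l50 (.c (nat_lit 2642) l70 (.c (nat_lit 2542) l97 (.c (nat_lit 2720) l152 (.c (nat_lit 2377) l50 (.c (nat_lit 1518) l50 (.c (nat_lit 2651) l101 (.c (nat_lit 2447) l97 (.c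 (nat_lit 2462) l69 (.c (nat_lit 2312) l69 (.c (nat_lit 1909) l65 u1_76))))))))))))))))))))))))))))))))))))))))
noncomputable def u1_78 : St := (.c (nat_lit 911) l42 (.c (nat_lit 645) l1 (.c (nat_lit 572) l42 (.c (nat_lit 833) l42 (.c (nat_lit 2185) l49 (.c (nat_lit 2138) l1 (.c (nat_lit 1410) l42 (.c (nat_lit 1644) l50 (.c (nat_lit 1655) l65 (.c (nat_lit 871) l42 (.c (nat_lit 2642) l79 (.c (nat_lit 1298) l53 (.c (nat_lit 2700) l114 (.c (nat_lit 2624) l97 (.c (nat_lit 2573) l69 (.c (nat_lit 2720) l157 (.c (nat_lit 2574) l65 (.c (nat_lit 2416) l65 (.c (nat_lit 2353) l49 (.c (nat_lit 1377) l1 (.c (nat_lit 2143) l42 (.c (nat_lit 915) l42 (.c (nat_lit 1341) l42 (.c (nat_lit 2499) l49 (.c (nat_lit 1991) l49 (.c (nat_lit 2576) l114 (.c (nat_lit 2005) l63 (.c (nat_lit 2546) l74 (.c (nat_lit 2446) l65 (.c (nat_lit 1891) l49 (.c (nat_lit 2341) l50 (.c (nat_lit 1890) l65 (.c (nat_lit 1656)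 l74 (.c (nat_lit 2495) l49 (.c (nat_lit 2656) l141 (.c (nat_lit 2210) l49 (.c (nat_lit 2211) l65 (.c (nat_lit 2503) l159 (.c (nat_lit 2506) l91 (.c (nat_lit 2618) l141 u1_77))))))))))))))))))))))))))))))))))))))))
noncomputable def u1_79 : St := (.c (nat_lit 2624) l141 (.c (nat_lit 2203) l50 (.c (nat_lit 2296) l49 (.c (nat_lit 2443) l49 (.c (nat_lit 2207) l65 (.c (nat_lit 1158) l50 (.c (nat_lit 1295) l42 (.c (nat_lit 2558) l152 (.c (nat_lit 1877) l69 (.c (nat_lit 2202) l50 (.c (nat_lit 1873) l50 (.c (nat_lit 1849) l50 (.c (nat_lit 2618) l97 (.c (nat_lit 1640) l42 (.c (nat_lit 2384) l65 (.c (nat_lit 2381) l50 (.c (nat_lit 2103) l50 (.c (nat_lit 1435) l42 (.c (nat_lit 2503) l107 (.c (nat_lit 2700) l79 (.c (nat_lit 2104) l50 (.c (nat_lit 1140) l50 (.c (nat_lit 2625) l118 (.c (nat_lit 2440) l65 (.c (nat_lit 2564) l49 (.c (nat_lit 1648) l42 (.c (nat_lit 1808) l42 (.c (nat_lit 1713)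 l42 (.c (nat_lit 1426) l42 (.c (nat_lit 1813) l42 (.c (nat_lit 1529) l1 (.c (nat_lit 1275) l50 (.c (nat_lit 2092) l42 (.c (nat_lit 989) l42 (.c (nat_lit 1751) l42 (.c (nat_lit 2296) l52 (.c (nat_lit 1575) l42 (.c (nat_lit 2651) l100 (.c (nat_lit 2208) l157 (.c (nat_lit 1368) l42 u1_78))))))))))))))))))))))))))))))))))))))))
noncomputable def u1_80 : St := (.c (nat_lit 2296) l48 (.c (nat_lit 2719) l65 (.c (nat_lit 2719) l49 (.c (nat_lit 2720) l97 (.c (nat_lit 2558) l141 (.c (nat_lit 2654) l42 (.c (nat_lit 1741) l2 (.c (nat_lit 2659) l65 (.c (nat_lit 2506) l63 (.c (nat_lit 2624) l65 (.c (nat_lit 2625) l78 (.c (nat_lit 2728) l100 (.c (nat_lit 2719) l207 (.c (nat_lit 2558) l65 (.c (nat_lit 2728) l147 (.c (nat_lit 2383) l42 (.c (nat_lit 2649) l65 (.c (nat_lit 2653) l97 (.c (nat_lit 1391) l42 (.c (nat_lit 2728) l154 (.c (nat_lit 2719) l48 (.c (nat_lit 2116) l42 (.c (nat_lit 2593) l65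 (.c (nat_lit 2302) l49 (.c (nat_lit 2728) l73 (.c (nat_lit 2113) l65 (.c (nat_lit 2728) l209 (.c (nat_lit 2390) l65 (.c (nat_lit 2719) l157 (.c (nat_lit 2389) l42 (.c (nat_lit 2169) l42 (.c (nat_lit 1810) l42 (.c (nat_lit 2164) l42 (.c (nat_lit 2503) l49 (.c (nat_lit 2660) l97 (.c (nat_lit 2110) l50 (.c (nat_lit 2659) l97 (.c (nat_lit 2503) l69 (.c (nat_lit 2656) l97 (.c (nat_lit 2613) l69 u1_79))))))))))))))))))))))))))))))))))))))))
noncomputable def u1_81 : St := (.c (nat_lit 2506) l78 (.c (nat_lit 2503) l49 (.c (nat_lit 2110) l50 (.c (nat_lit 2503) l69 (.c (nat_lit 1529) l65 (.c (nat_lit 1158) l50 (.c (nat_lit 2503) l107 (.c (nat_lit 2306) l108 (.c (nat_lit 2007) l74 (.c (nat_lit 1650) l65 (.c (nat_lit 2299) l78 (.c (nat_lit 1655) l65 (.c (nat_lit 2506) l118 (.c (nat_lit 2546) l74 (.c (nat_lit 2503) l159 (.c (nat_lit 579) l42 (.c (nat_lit 2020) l50 (.c (nat_lit 1611) l74 (.c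 (nat_lit 1991) l52 (.c (nat_lit 1629) l74 (.c (nat_lit 817) l53 (.c (nat_lit 909) l1 (.c (nat_lit 1524) l65 (.c (nat_lit 2038) l50 (.c (nat_lit 1969) l63 (.c (nat_lit 1969) l48 (.c (nat_lit 1841) l50 (.c (nat_lit 1781) l50 (.c (nat_lit 1758) l50 .e)))))))))))))))))))))))))))))
noncomputable def u1_82 : St := (.c (nat_lit 2659) l207 (.c (nat_lit 2700) l157 (.c (nat_lit 2341) l1 (.c (nat_lit 1766) l50 (.c (nat_lit 1450) l42 (.c (nat_lit 746) l42 (.c (nat_lit 1089) l42 (.c (nat_lit 2105) l69 (.c (nat_lit 1768) l65 (.c (nat_lit 1336) l50 (.c (nat_lit 1029) l1 (.c (nat_lit 993) l1 (.c (nat_lit 1007) l1 (.c (nat_lit 1082) l42 (.c (nat_lit 643) l1 (.c (nat_lit 2541) l63 (.c (nat_lit 1387) l50 (.c (nat_lit 1814) l65 (.c (nat_lit 2416) l157 (.c (nat_lit 1781) l50 (.c (nat_lit 1748) l65 (.c (nat_lit 1886) l65 .e))))))))))))))))))))))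
noncomputable def u1_83 : St := (.c (nat_lit 2576) l114 (.c (nat_lit 1796) l42 (.c (nat_lit 2005) l48 (.c (nat_lit 2005) l63 (.c (nat_lit 1890) l65 (.c (nat_lit 2353) l48 (.c (nat_lit 2312) l49 (.c (nat_lit 2503) l159 (.c (nat_lit 1155) l1 (.c (nat_lit 579) l42 (.c (nat_lit 1454) l42 (.c (nat_lit 1991) l52 (.c (nat_lit 942) l42 (.c (nat_lit 1916) l1 (.c (nat_lit 2575) l171 (.c (nat_lit 2423) l231 (.c (nat_lit 2541) l78 (.c (nat_lit 817) l53 (.c (nat_lit 1966) l49 (.c (nat_lit 1849) l65 (.c (nat_lit 2502) l152 (.c (nat_lit 909) l1 (.c (nat_lit 917) l42 (.c (nat_lit 1524) l65 (.c (nat_lit 2049) l50 (.c (nat_lit 2412) l65 (.c (nat_lit 1991) l63 (.c (nat_lit 1992) l65 (.c (nat_lit 1572) l50 (.c (nat_lit 1991) l48 (.c (nat_lit 2625) l63 (.c (nat_lit 2642) l70 (.c (nat_lit 2377) l50 (.c (nat_lit 2300) l97 (.c (nat_lit 2312) l69 (.c (nat_lit 1272) l50 (.c (nat_lit 2158) l65 (.c (nat_lit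 1095) l42 (.c (nat_lit 2105) l49 (.c (nat_lit 2112) l65 u1_82))))))))))))))))))))))))))))))))))))))))
noncomputable def u1_84 : St := (.c (nat_lit 2502) l97 (.c (nat_lit 2624) l69 (.c (nat_lit 2575) l160 (.c (nat_lit 2659) l65 (.c (nat_lit 2506) l63 (.c (nat_lit 2625) l78 (.c (nat_lit 2506) l78 (.c (nat_lit 2172) l74 (.c (nat_lit 2575) l74 (.c (nat_lit 1825) l42 (.c (nat_lit 1810) l42 (.c (nat_lit 2423) l74 (.c (nat_lit 2503) l49 (.c (nat_lit 2572) l65 (.c (nat_lit 2660) l157 (.c (nat_lit 2566) l65 (.c (nat_lit 2207) l65 (.c (nat_lit 1295) l42 (.c (nat_lit 1886) l50 (.c (nat_lit 2353) l52 (.c (nat_lit 1849) l50 (.c (nat_lit 2397) l50 (.c (nat_lit 1876) l50 (.c (nat_lit 2503) l107 (.c (nat_lit 2423) l108 (.c (nat_lit 2090) l42 (.c (nat_lit 1920) l42 (.c (nat_lit 2624) l49 (.c (nat_lit 1808) l42 (.c (nat_lit 1713) l42 (.c (nat_lit 2379) l1 (.c (nat_lit 2092) l42 (.c (nat_lit 817)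 l42 (.c (nat_lit 2299) l78 (.c (nat_lit 2138) l1 (.c (nat_lit 1728) l42 (.c (nat_lit 2642) l79 (.c (nat_lit 2720) l157 (.c (nat_lit 2353) l49 (.c (nat_lit 915) l42 u1_83))))))))))))))))))))))))))))))))))))))))
noncomputable def u1_85 : St := (.c (nat_lit 2573) l107 .e)
noncomputable def u1_86 : St := (.c (nat_lit 2613) l107 (.c (nat_lit 1992) l65 (.c (nat_lit 1991) l48 (.c (nat_lit 2625) l63 (.c (nat_lit 1965) l65 (.c (nat_lit 2241) l50 (.c (nat_lit 2542) l97 (.c (nat_lit 2720) l152 (.c (nat_lit 2377) l50 (.c (nat_lit 1518) l50 (.c (nat_lit 2651) l101 (.c (nat_lit 2447) l97 (.c (nat_lit 2462) l69 (.c (nat_lit 2312) l69 (.c (nat_lit 1909) l65 (.c (nat_lit 1969) l48 (.c (nat_lit 2416) l97 (.c (nat_lit 1841) l50 (.c (nat_lit 1093) l42 (.c (nat_lit 2157) l48 (.c (nat_lit 2659) l207 (.c (nat_lit 2341) l1 (.c (nat_lit 1407) l42 (.c (nat_lit 1450) l42 (.c (nat_lit 1710) l50 (.c (nat_lit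 746) l42 (.c (nat_lit 1089) l42 (.c (nat_lit 2343) l1 (.c (nat_lit 2105) l69 (.c (nat_lit 1768) l65 (.c (nat_lit 1743) l50 (.c (nat_lit 2557) l107 (.c (nat_lit 1385) l1 (.c (nat_lit 2541) l63 (.c (nat_lit 2422) l97 (.c (nat_lit 1387) l50 (.c (nat_lit 2720) l107 (.c (nat_lit 2157) l63 (.c (nat_lit 2660) l100 (.c (nat_lit 2728) l104 u1_85))))))))))))))))))))))))))))))))))))))))
noncomputable def u1_87 : St := (.c (nat_lit 2302) l48 (.c (nat_lit 2446) l65 (.c (nat_lit 1891) l49 (.c (nat_lit 1890) l65 (.c (nat_lit 1656) l74 (.c (nat_lit 2495) l49 (.c (nat_lit 2353) l48 (.c (nat_lit 2656) l141 (.c (nat_lit 2210) l49 (.c (nat_lit 2211) l65 (.c (nat_lit 1433) l42 (.c (nat_lit 2503) l159 (.c (nat_lit 2506) l91 (.c (nat_lit 2618) l141 (.c (nat_lit 2443) l69 (.c (nat_lit 1155) l1 (.c (nat_lit 2701) l107 (.c (nat_lit 1454) l42 (.c (nat_lit 2020) l50 (.c (nat_lit 2399) l65 (.c (nat_lit 2658)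 l104 (.c (nat_lit 2572) l97 (.c (nat_lit 1969) l52 (.c (nat_lit 1991) l52 (.c (nat_lit 1916) l1 (.c (nat_lit 698) l42 (.c (nat_lit 2423) l231 (.c (nat_lit 2271) l52 (.c (nat_lit 2302) l52 (.c (nat_lit 2656) l65 (.c (nat_lit 2157) l52 (.c (nat_lit 2157) l78 (.c (nat_lit 2541) l78 (.c (nat_lit 2005) l52 (.c (nat_lit 869) l42 (.c (nat_lit 817) l53 (.c (nat_lit 917) l42 (.c (nat_lit 2038) l50 (.c (nat_lit 2271) l48 (.c (nat_lit 1991) l63 u1_86))))))))))))))))))))))))))))))))))))))))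
noncomputable def u1_88 : St := (.c (nat_lit 1650) l65 (.c (nat_lit 989) l42 (.c (nat_lit 1751) l42 (.c (nat_lit 817) l42 (.c (nat_lit 2296) l52 (.c (nat_lit 1575) l42 (.c (nat_lit 2299) l78 (.c (nat_lit 2651) l100 (.c (nat_lit 2208) l157 (.c (nat_lit 1368) l42 (.c (nat_lit 911) l42 (.c (nat_lit 645) l1 (.c (nat_lit 572) l42 (.c (nat_lit 833) l42 (.c (nat_lit 2185) l49 (.c (nat_lit 2138) l1 (.c (nat_lit 1728) l42 (.c (nat_lit 1410) l42 (.c (nat_lit 1644) l50 (.c (nat_lit 1655) l65 (.c (nat_lit 871) l42 (.c (nat_lit 2642) l79 (.c (nat_lit 1298) l53 (.c (nat_lit 2700) l114 (.c (nat_lit 2624) l97 (.c (nat_lit 2655) l69 (.c (nat_lit 2720) l157 (.c (nat_lit 2557) l49 (.c (nat_lit 2574) l65 (.c (nat_lit 2416) l65 (.c (nat_lit 2353) l49 (.c (nat_lit 1377) l1 (.c (nat_lit 2143) l42 (.c (nat_lit 2501) l69 (.c (nat_lit 2005) l49 (.c (nat_lit 2499) l49 (.c (nat_lit 1991) l49 (.c (nat_lit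 1796) l42 (.c (nat_lit 2005) l48 (.c (nat_lit 2232) l49 u1_87))))))))))))))))))))))))))))))))))))))))
noncomputable def u1_89 : St := (.c (nat_lit 2613) l69 (.c (nat_lit 2422) l65 (.c (nat_lit 2385) l65 (.c (nat_lit 2624) l141 (.c (nat_lit 2203) l50 (.c (nat_lit 2443) l49 (.c (nat_lit 1892) l65 (.c (nat_lit 1295) l42 (.c (nat_lit 2353) l52 (.c (nat_lit 2558) l152 (.c (nat_lit 1877) l69 (.c (nat_lit 2202) l50 (.c (nat_lit 1873) l50 (.c (nat_lit 1849) l50 (.c (nat_lit 2618) l97 (.c (nat_lit 1640) l42 (.c (nat_lit 2384) l65 (.c (nat_lit 2381) l50 (.c (nat_lit 2103) l50 (.c (nat_lit 1876) l50 (.c (nat_lit 2503) l107 (.c (nat_lit 2700) l79 (.c (nat_lit 2104) l50 (.c (nat_lit 1140) l50 (.c (nat_lit 2306) l108 (.c (nat_lit 2090) l42 (.c (nat_lit 1920) l42 (.c (nat_lit 2007) l74 (.c (nat_lit 2625) l118 (.c (nat_lit 2624) l49 (.c (nat_lit 2440) l65 (.c (nat_lit 1648) l42 (.c (nat_lit 1808)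 l42 (.c (nat_lit 1426) l42 (.c (nat_lit 1813) l42 (.c (nat_lit 1529) l1 (.c (nat_lit 2379) l1 (.c (nat_lit 1275) l50 (.c (nat_lit 2417) l50 (.c (nat_lit 2092) l42 u1_88))))))))))))))))))))))))))))))))))))))))
noncomputable def u1_90 : St := (.c (nat_lit 2296) l48 (.c (nat_lit 2719) l65 (.c (nat_lit 2719) l49 (.c (nat_lit 2720) l97 (.c (nat_lit 2624) l69 (.c (nat_lit 2558) l141 (.c (nat_lit 2654) l42 (.c (nat_lit 1741) l2 (.c (nat_lit 2659) l65 (.c (nat_lit 2624) l65 (.c (nat_lit 2728) l100 (.c (nat_lit 2719) l207 (.c (nat_lit 2558) l65 (.c (nat_lit 2728) l147 (.c (nat_lit 2383) l42 (.c (nat_lit 2649) l65 (.c (nat_lit 2653) l97 (.c (nat_lit 1391) l42 (.c (nat_lit 2728) l154 (.c (nat_lit 2719) l48 (.c (nat_lit 2116) l42 (.c (nat_lit 2506) l78 (.c (nat_lit 2593) l65 (.c (nat_lit 2302) l49 (.c (nat_lit 2728) l73 (.c (nat_lit 2113) l65 (.c (nat_lit 2728) l209 (.c (nat_lit 2390) l65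 (.c (nat_lit 2719) l157 (.c (nat_lit 1825) l42 (.c (nat_lit 2389) l42 (.c (nat_lit 2169) l42 (.c (nat_lit 1810) l42 (.c (nat_lit 2164) l42 (.c (nat_lit 2503) l49 (.c (nat_lit 2385) l50 (.c (nat_lit 2660) l97 (.c (nat_lit 2100) l50 (.c (nat_lit 2659) l97 (.c (nat_lit 2656) l97 u1_89))))))))))))))))))))))))))))))))))))))))
noncomputable def u1_91 : St := (.c (nat_lit 2462) l69 (.c (nat_lit 1969) l48 (.c (nat_lit 2302) l63 (.c (nat_lit 2158) l65 (.c (nat_lit 1841) l50 (.c (nat_lit 2131) l65 (.c (nat_lit 1093) l42 (.c (nat_lit 1741) l1 (.c (nat_lit 2341) l1 (.c (nat_lit 1766) l50 (.c (nat_lit 1450) l42 (.c (nat_lit 1710) l50 (.c (nat_lit 746) l42 (.c (nat_lit 1089) l42 (.c (nat_lit 2105) l69 (.c (nat_lit 1768) l65 (.c (nat_lit 1743) l50 (.c (nat_lit 2557) l107 (.c (nat_lit 1029) l1 (.c (nat_lit 1082) l42 (.c (nat_lit 1385) l1 (.c (nat_lit 643) l1 (.c (nat_lit 2576) l176 (.c (nat_lit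 2422) l97 (.c (nat_lit 2416) l157 (.c (nat_lit 2660) l100 (.c (nat_lit 2728) l104 .e)))))))))))))))))))))))))))
noncomputable def u1_92 : St := (.c (nat_lit 2211) l65 (.c (nat_lit 2506) l91 (.c (nat_lit 2618) l141 (.c (nat_lit 2443) l69 (.c (nat_lit 1155) l1 (.c (nat_lit 2659) l69 (.c (nat_lit 2505) l179 (.c (nat_lit 1454) l42 (.c (nat_lit 2020) l50 (.c (nat_lit 2399) l65 (.c (nat_lit 2658) l104 (.c (nat_lit 2572) l97 (.c (nat_lit 1969) l52 (.c (nat_lit 1991) l52 (.c (nat_lit 942) l42 (.c (nat_lit 698) l42 (.c (nat_lit 2271) l52 (.c (nat_lit 2656) l65 (.c (nat_lit 2302) l78 (.c (nat_lit 2005) l52 (.c (nat_lit 869) l42 (.c (nat_lit 909) l1 (.c (nat_lit 2300) l157 (.c (nat_lit 2038) l50 (.c (nat_lit 2412) l65 (.c (nat_lit 2271) l48 (.c (nat_lit 1991) l63 (.c (nat_lit 2613) l107 (.c (nat_lit 1992) l65 (.c (nat_lit 1991) l48 (.c (nat_lit 2625) l63 (.c (nat_lit 1605) l65 (.c (nat_lit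 1965) l65 (.c (nat_lit 2241) l50 (.c (nat_lit 2542) l97 (.c (nat_lit 2720) l152 (.c (nat_lit 2377) l50 (.c (nat_lit 1518) l50 (.c (nat_lit 2651) l101 (.c (nat_lit 2447) l97 u1_91))))))))))))))))))))))))))))))))))))))))
noncomputable def u1_93 : St := (.c (nat_lit 817) l42 (.c (nat_lit 2296) l52 (.c (nat_lit 2299) l78 (.c (nat_lit 2651) l100 (.c (nat_lit 2208) l157 (.c (nat_lit 1368) l42 (.c (nat_lit 911) l42 (.c (nat_lit 645) l1 (.c (nat_lit 572) l42 (.c (nat_lit 833) l42 (.c (nat_lit 2185) l49 (.c (nat_lit 1410) l42 (.c (nat_lit 1644) l50 (.c (nat_lit 871) l42 (.c (nat_lit 2506) l118 (.c (nat_lit 1298) l53 (.c (nat_lit 2700) l114 (.c (nat_lit 2624) l97 (.c (nat_lit 2573) l69 (.c (nat_lit 2720) l157 (.c (nat_lit 2557) l49 (.c (nat_lit 2574) l65 (.c (nat_lit 2416) l65 (.c (nat_lit 2353) l49 (.c (nat_lit 1377) l1 (.c (nat_lit 915) l42 (.c (nat_lit 2499) l49 (.c (nat_lit 1991) l49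 (.c (nat_lit 2576) l114 (.c (nat_lit 2005) l63 (.c (nat_lit 2232) l49 (.c (nat_lit 2446) l65 (.c (nat_lit 1891) l49 (.c (nat_lit 2341) l50 (.c (nat_lit 1890) l65 (.c (nat_lit 1656) l74 (.c (nat_lit 2495) l49 (.c (nat_lit 2656) l141 (.c (nat_lit 2312) l49 (.c (nat_lit 2210) l49 u1_92))))))))))))))))))))))))))))))))))))))))
noncomputable def u1_94 : St := (.c (nat_lit 2385) l65 (.c (nat_lit 2624) l141 (.c (nat_lit 2203) l50 (.c (nat_lit 2296) l49 (.c (nat_lit 2443) l49 (.c (nat_lit 1892) l65 (.c (nat_lit 1295) l42 (.c (nat_lit 2558) l152 (.c (nat_lit 1877) l69 (.c (nat_lit 2202) l50 (.c (nat_lit 1873) l50 (.c (nat_lit 1849) l50 (.c (nat_lit 2618) l97 (.c (nat_lit 1909) l50 (.c (nat_lit 1640) l42 (.c (nat_lit 2381) l50 (.c (nat_lit 2397) l50 (.c (nat_lit 2660) l70 (.c (nat_lit 1876) l50 (.c (nat_lit 1435) l42 (.c (nat_lit 2658) l70 (.c (nat_lit 2700) l79 (.c (nat_lit 1140) l50 (.c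 (nat_lit 2306) l108 (.c (nat_lit 2007) l74 (.c (nat_lit 2625) l118 (.c (nat_lit 2624) l49 (.c (nat_lit 2440) l65 (.c (nat_lit 2564) l49 (.c (nat_lit 1648) l42 (.c (nat_lit 1808) l42 (.c (nat_lit 1426) l42 (.c (nat_lit 1813) l42 (.c (nat_lit 1529) l1 (.c (nat_lit 2379) l1 (.c (nat_lit 1275) l50 (.c (nat_lit 2417) l50 (.c (nat_lit 1650) l65 (.c (nat_lit 989) l42 (.c (nat_lit 1751) l42 u1_93))))))))))))))))))))))))))))))))))))))))
noncomputable def u1_95 : St := (.c (nat_lit 2296) l48 (.c (nat_lit 2719) l65 (.c (nat_lit 2719) l49 (.c (nat_lit 2720) l97 (.c (nat_lit 2624) l69 (.c (nat_lit 2558) l141 (.c (nat_lit 2654) l42 (.c (nat_lit 1741) l2 (.c (nat_lit 2659) l65 (.c (nat_lit 2624) l65 (.c (nat_lit 2728) l100 (.c (nat_lit 2719) l207 (.c (nat_lit 2558) l65 (.c (nat_lit 2728) l147 (.c (nat_lit 2383) l42 (.c (nat_lit 2649) l65 (.c (nat_lit 2653) l97 (.c (nat_lit 1391) l42 (.c (nat_lit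 2728) l154 (.c (nat_lit 2719) l48 (.c (nat_lit 2116) l42 (.c (nat_lit 2593) l65 (.c (nat_lit 2302) l49 (.c (nat_lit 2728) l73 (.c (nat_lit 2113) l65 (.c (nat_lit 2728) l209 (.c (nat_lit 2390) l65 (.c (nat_lit 2719) l157 (.c (nat_lit 2389) l42 (.c (nat_lit 2169) l42 (.c (nat_lit 1810) l42 (.c (nat_lit 2164) l42 (.c (nat_lit 2385) l50 (.c (nat_lit 2660) l97 (.c (nat_lit 2100) l50 (.c (nat_lit 2659) l97 (.c (nat_lit 2503) l69 (.c (nat_lit 2656) l97 (.c (nat_lit 2613) l69 (.c (nat_lit 2422) l65 u1_94))))))))))))))))))))))))))))))))))))))))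
noncomputable def u1_96 : St := (.c (nat_lit 2422) l65 (.c (nat_lit 2660) l70 (.c (nat_lit 2658) l70 (.c (nat_lit 1454) l42 (.c (nat_lit 2658) l104 (.c (nat_lit 2412) l65 (.c (nat_lit 2416) l97 (.c (nat_lit 2158) l65 (.c (nat_lit 2131) l65 (.c (nat_lit 1095) l42 (.c (nat_lit 1741) l1 (.c (nat_lit 2105) l49 (.c (nat_lit 2341) l1 (.c (nat_lit 1450) l42 (.c (nat_lit 2105) l69 (.c (nat_lit 1768) l65 (.c (nat_lit 1351) l1 (.c (nat_lit 1029) l1 (.c (nat_lit 993) l1 (.c (nat_lit 988) l1 (.c (nat_lit 643) l1 (.c (nat_lit 1137) l1 (.c (nat_lit 2422) l97 (.c (nat_lit 2416) l157 (.c (nat_lit 2660) l100 .e)))))))))))))))))))))))))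
noncomputable def u1_97 : St := (.c (nat_lit 1841) l50 (.c (nat_lit 1095) l42 (.c (nat_lit 1093) l42 (.c (nat_lit 2105) l49 (.c (nat_lit 2157) l48 (.c (nat_lit 2659) l207 (.c (nat_lit 2341) l1 (.c (nat_lit 1450) l42 (.c (nat_lit 1710) l50 (.c (nat_lit 2343) l1 (.c (nat_lit 1768) l65 (.c (nat_lit 1336) l50 (.c (nat_lit 1351) l1 (.c (nat_lit 1357) l1 (.c (nat_lit 988) l1 (.c (nat_lit 1007) l1 (.c (nat_lit 1385) l1 (.c (nat_lit 643) l1 (.c (nat_lit 2576) l176 (.c (nat_lit 1137) l1 (.c (nat_lit 2541) l63 (.c (nat_lit 1814) l65 (.c (nat_lit 1781) l50 (.c (nat_lit 2720) l107 (.c (nat_lit 2698) l106 .e)))))))))))))))))))))))))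
noncomputable def u1_98 : St := (.c (nat_lit 2368) l74 (.c (nat_lit 1713) l53 (.c (nat_lit 2157) l78 (.c (nat_lit 2282) l78 (.c (nat_lit 1634) l74 (.c (nat_lit 2541) l78 (.c (nat_lit 1987) l74 (.c (nat_lit 1624) l53 (.c (nat_lit 2488) l78 (.c (nat_lit 2085) l53 (.c (nat_lit 2059) l53 (.c (nat_lit 2499) l78 (.c (nat_lit 1439) l53 (.c (nat_lit 2005) l52 (.c (nat_lit 869) l42 (.c (nat_lit 817) l53 (.c (nat_lit 1849) l65 (.c (nat_lit 2499) l48 (.c (nat_lit 909) l1 (.c (nat_lit 2300) l157 (.c (nat_lit 1524) l65 (.c (nat_lit 1889) l65 (.c (nat_lit 2566) l97 (.c (nat_lit 2038) l50 (.c (nat_lit 2412) l65 (.c (nat_lit 2271) l48 (.c (nat_lit 2613) l107 (.c (nat_lit 1633) l65 (.c (nat_lit 1572) l50 (.c (nat_lit 1991) l48 (.c (nat_lit 1605) l65 (.c (nat_lit 2241) l50 (.c (nat_lit 2720) l152 (.c (nat_lit 1518) l50 (.c (nat_lit 2447) l97 (.c (nat_lit 1909) l65 (.c (nat_lit 1272) l50 (.c (nat_lit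 2302) l63 (.c (nat_lit 2416) l97 (.c (nat_lit 2158) l65 u1_97))))))))))))))))))))))))))))))))))))))))
noncomputable def u1_99 : St := (.c (nat_lit 2499) l49 (.c (nat_lit 2576) l114 (.c (nat_lit 1947) l74 (.c (nat_lit 2731) l228 (.c (nat_lit 2005) l63 (.c (nat_lit 2302) l48 (.c (nat_lit 2446) l65 (.c (nat_lit 1890) l65 (.c (nat_lit 1656) l74 (.c (nat_lit 2495) l49 (.c (nat_lit 2353) l48 (.c (nat_lit 2656) l141 (.c (nat_lit 2312) l49 (.c (nat_lit 2210) l49 (.c (nat_lit 2484) l97 (.c (nat_lit 1433) l42 (.c (nat_lit 2501) l108 (.c (nat_lit 2503) l159 (.c (nat_lit 2506) l91 (.c (nat_lit 2618) l141 (.c (nat_lit 2443) l69 (.c (nat_lit 579) l42 (.c (nat_lit 1454) l42 (.c (nat_lit 2148) l53 (.c (nat_lit 2572) l97 (.c (nat_lit 1969) l52 (.c (nat_lit 1611) l74 (.c (nat_lit 2719) l114 (.c (nat_lit 2575) l171 (.c (nat_lit 2271) l52 (.c (nat_lit 2698) l114 (.c (nat_lit 2719) l110 (.c (nat_lit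 2302) l52 (.c (nat_lit 2566) l108 (.c (nat_lit 2305) l74 (.c (nat_lit 2566) l160 (.c (nat_lit 2564) l63 (.c (nat_lit 1989) l74 (.c (nat_lit 2271) l78 (.c (nat_lit 1629) l74 u1_98))))))))))))))))))))))))))))))))))))))))
noncomputable def u1_100 : St := (.c (nat_lit 2660) l70 (.c (nat_lit 2501) l74 (.c (nat_lit 1435) l42 (.c (nat_lit 2503) l107 (.c (nat_lit 2423) l108 (.c (nat_lit 778) l50 (.c (nat_lit 2090) l42 (.c (nat_lit 2102) l42 (.c (nat_lit 2624) l49 (.c (nat_lit 2700) l70 (.c (nat_lit 2653) l79 (.c (nat_lit 1648) l42 (.c (nat_lit 1713) l42 (.c (nat_lit 2628) l69 (.c (nat_lit 2004) l53 (.c (nat_lit 1989) l53 (.c (nat_lit 1813) l42 (.c (nat_lit 2651) l79 (.c (nat_lit 1529) l1 (.c (nat_lit 2379) l1 (.c (nat_lit 2092) l42 (.c (nat_lit 2660) l79 (.c (nat_lit 1751) l42 (.c (nat_lit 817) l42 (.c (nat_lit 2299) l78 (.c (nat_lit 1396) l42 (.c (nat_lit 2716) l69 (.c (nat_lit 1728)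 l42 (.c (nat_lit 1410) l42 (.c (nat_lit 871) l42 (.c (nat_lit 2642) l79 (.c (nat_lit 2506) l118 (.c (nat_lit 1298) l53 (.c (nat_lit 2700) l114 (.c (nat_lit 2624) l97 (.c (nat_lit 2655) l69 (.c (nat_lit 2720) l157 (.c (nat_lit 2416) l65 (.c (nat_lit 2143) l42 (.c (nat_lit 1341) l42 u1_99))))))))))))))))))))))))))))))))))))))))
noncomputable def u1_101 : St := (.c (nat_lit 2724) l166 (.c (nat_lit 2100) l50 (.c (nat_lit 2110) l50 (.c (nat_lit 2695) l181 (.c (nat_lit 2209) l50 (.c (nat_lit 2567) l50 (.c (nat_lit 2503) l69 (.c (nat_lit 2484) l65 (.c (nat_lit 2613) l69 (.c (nat_lit 2572) l65 (.c (nat_lit 2566) l65 (.c (nat_lit 2488) l52 (.c (nat_lit 2596) l69 (.c (nat_lit 2636) l69 (.c (nat_lit 2624) l141 (.c (nat_lit 1529) l65 (.c (nat_lit 2525) l50 (.c (nat_lit 1984) l53 (.c (nat_lit 2443) l49 (.c (nat_lit 2636) l49 (.c (nat_lit 2180) l50 (.c (nat_lit 1295) l42 (.c (nat_lit 2353)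 l52 (.c (nat_lit 2565) l52 (.c (nat_lit 1877) l69 (.c (nat_lit 2231) l50 (.c (nat_lit 2180) l65 (.c (nat_lit 1849) l50 (.c (nat_lit 2561) l50 (.c (nat_lit 2694) l207 (.c (nat_lit 2618) l97 (.c (nat_lit 1909) l50 (.c (nat_lit 1640) l42 (.c (nat_lit 2696) l70 (.c (nat_lit 2311) l50 (.c (nat_lit 2381) l50 (.c (nat_lit 2693) l70 (.c (nat_lit 2103) l50 (.c (nat_lit 2397) l50 (.c (nat_lit 2698) l105 u1_100))))))))))))))))))))))))))))))))))))))))
noncomputable def u1_102 : St := (.c (nat_lit 2411) l63 (.c (nat_lit 1394) l42 (.c (nat_lit 2720) l97 (.c (nat_lit 2404) l74 (.c (nat_lit 2231) l65 (.c (nat_lit 2580) l49 (.c (nat_lit 2059) l74 (.c (nat_lit 2575) l160 (.c (nat_lit 2506) l63 (.c (nat_lit 2694) l69 (.c (nat_lit 2718) l107 (.c (nat_lit 2624) l65 (.c (nat_lit 2051) l42 (.c (nat_lit 2513) l65 (.c (nat_lit 2718) l114 (.c (nat_lit 2387) l69 (.c (nat_lit 2391) l78 (.c (nat_lit 2727)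 l107 (.c (nat_lit 2724) l110 (.c (nat_lit 1763) l65 (.c (nat_lit 2506) l78 (.c (nat_lit 2593) l65 (.c (nat_lit 2575) l74 (.c (nat_lit 2113) l65 (.c (nat_lit 2345) l53 (.c (nat_lit 1825) l42 (.c (nat_lit 2421) l78 (.c (nat_lit 2170) l63 (.c (nat_lit 2693) l87 (.c (nat_lit 2418) l48 (.c (nat_lit 2531) l49 (.c (nat_lit 2550) l74 (.c (nat_lit 2117) l78 (.c (nat_lit 2411) l48 (.c (nat_lit 2423) l74 (.c (nat_lit 2693) l91 (.c (nat_lit 2611) l78 (.c (nat_lit 2503) l49 (.c (nat_lit 2724) l79 (.c (nat_lit 2724) l114 u1_101))))))))))))))))))))))))))))))))))))))))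
noncomputable def u1_103 : St := (.c (nat_lit 1433) l42 (.c (nat_lit 2503) l159 (.c (nat_lit 1155) l1 (.c (nat_lit 2659) l69 (.c (nat_lit 2701) l107 (.c (nat_lit 2505) l179 (.c (nat_lit 1454) l42 (.c (nat_lit 1916) l1 (.c (nat_lit 2575) l171 (.c (nat_lit 2302) l52 (.c (nat_lit 2157) l52 (.c (nat_lit 2302) l78 (.c (nat_lit 817) l53 (.c (nat_lit 909) l1 (.c (nat_lit 917) l42 (.c (nat_lit 2300) l157 (.c (nat_lit 2049) l50 (.c (nat_lit 2412) l65 (.c (nat_lit 1605) l65 (.c (nat_lit 2642) l70 (.c (nat_lit 1909) l65 (.c (nat_lit 2302) l63 (.c (nat_lit 2416) l97 (.c (nat_lit 2158) l65 (.c (nat_lit 2131) l65 (.c (nat_lit 1093) l42 (.c (nat_lit 1741) l1 (.c (nat_lit 2157) l48 (.c (nat_lit 2659) l207 (.c (nat_lit 1407) l42 (.c (nat_lit 1089) l42 (.c (nat_lit 1351) l1 (.c (nat_lit 1029) l1 (.c (nat_lit 988) l1 (.c (nat_lit 1007) l1 (.c (nat_lit 1385) l1 (.c (nat_lit 643) l1 (.c (nat_lit 1137)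 l1 (.c (nat_lit 1814) l65 (.c (nat_lit 2720) l107 .e))))))))))))))))))))))))))))))))))))))))
noncomputable def u1_104 : St := (.c (nat_lit 2575) l160 (.c (nat_lit 2506) l78 (.c (nat_lit 2172) l74 (.c (nat_lit 2575) l74 (.c (nat_lit 1825) l42 (.c (nat_lit 2423) l74 (.c (nat_lit 2503) l49 (.c (nat_lit 2503) l69 (.c (nat_lit 2296) l49 (.c (nat_lit 1909) l50 (.c (nat_lit 2384) l65 (.c (nat_lit 2103) l50 (.c (nat_lit 2397) l50 (.c (nat_lit 2660) l70 (.c (nat_lit 2503) l107 (.c (nat_lit 2658) l70 (.c (nat_lit 2104) l50 (.c (nat_lit 2423) l108 (.c (nat_lit 2090) l42 (.c (nat_lit 1920) l42 (.c (nat_lit 2564) l49 (.c (nat_lit 1713) l42 (.c (nat_lit 2379) l1 (.c (nat_lit 2092) l42 (.c (nat_lit 817) l42 (.c (nat_lit 1728) l42 (.c (nat_lit 1655) l65 (.c (nat_lit 2642) l79 (.c (nat_lit 2506) l118 (.c (nat_lit 2655) l69 (.c (nat_lit 2416) l65 (.c (nat_lit 915) l42 (.c (nat_lit 2501) l69 (.c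 (nat_lit 2005) l49 (.c (nat_lit 1796) l42 (.c (nat_lit 2005) l48 (.c (nat_lit 2005) l63 (.c (nat_lit 2546) l74 (.c (nat_lit 2302) l48 (.c (nat_lit 2341) l50 u1_103))))))))))))))))))))))))))))))))))))))))
noncomputable def u1_105 : St := (.c (nat_lit 2575) l160 (.c (nat_lit 2172) l74 (.c (nat_lit 2575) l74 (.c (nat_lit 2423) l74 (.c (nat_lit 2353) l52 (.c (nat_lit 1435) l42 (.c (nat_lit 2423) l108 (.c (nat_lit 1713) l42 (.c (nat_lit 2379) l1 (.c (nat_lit 817) l42 (.c (nat_lit 1575) l42 (.c (nat_lit 2138) l1 (.c (nat_lit 2143) l42 (.c (nat_lit 2576) l114 (.c (nat_lit 2546) l74 (.c (nat_lit 2353) l48 (.c (nat_lit 2312) l49 (.c (nat_lit 1155) l1 (.c (nat_lit 942) l42 (.c (nat_lit 2575) l171 (.c (nat_lit 2423) l231 (.c (nat_lit 2541) l78 (.c (nat_lit 2049) l50 (.c (nat_lit 2642) l70 (.c (nat_lit 2312) l69 (.c (nat_lit 1093) l42 (.c (nat_lit 1766) l50 (.c (nat_lit 1450) l42 (.c (nat_lit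 746) l42 (.c (nat_lit 2343) l1 (.c (nat_lit 1351) l1 (.c (nat_lit 1357) l1 (.c (nat_lit 1029) l1 (.c (nat_lit 988) l1 (.c (nat_lit 1007) l1 (.c (nat_lit 1082) l42 (.c (nat_lit 1385) l1 (.c (nat_lit 643) l1 (.c (nat_lit 2541) l63 .e)))))))))))))))))))))))))))))))))))))))
noncomputable def u1_106 : St := (.c (nat_lit 2506) l78 (.c (nat_lit 2503) l49 (.c (nat_lit 2503) l69 (.c (nat_lit 1529) l65 (.c (nat_lit 1158) l50 (.c (nat_lit 2503) l107 (.c (nat_lit 2306) l108 (.c (nat_lit 2007) l74 (.c (nat_lit 1650) l65 (.c (nat_lit 2299) l78 (.c (nat_lit 1655) l65 (.c (nat_lit 2506) l118 (.c (nat_lit 2546) l74 (.c (nat_lit 2503) l159 (.c (nat_lit 579) l42 (.c (nat_lit 1611) l74 (.c (nat_lit 1991) l52 (.c (nat_lit 1629) l74 (.c (nat_lit 817) l53 (.c (nat_lit 909) l1 (.c (nat_lit 1524) l65 (.c (nat_lit 1969) l63 (.c (nat_lit 1969) l48 (.c (nat_lit 1336) l50 .e))))))))))))))))))))))))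
noncomputable def u1_107 : St := (.c (nat_lit 2385) l50 (.c (nat_lit 2100) l50 (.c (nat_lit 2385) l65 (.c (nat_lit 2417) l50 (.c (nat_lit 2092) l42 (.c (nat_lit 2642) l79 (.c (nat_lit 2557) l49 (.c (nat_lit 1341) l42 (.c (nat_lit 1454) l42 (.c (nat_lit 1093) l42 (.c (nat_lit 1766) l50 (.c (nat_lit 746) l42 (.c (nat_lit 1089) l42 (.c (nat_lit 2343) l1 (.c (nat_lit 2105) l69 (.c (nat_lit 2557) l107 .e))))))))))))))))
noncomputable def u1_108 : St := (.c (nat_lit 2659) l65 (.c (nat_lit 1810) l42 (.c (nat_lit 2572) l65 (.c (nat_lit 2660) l157 (.c (nat_lit 2566) l65 (.c (nat_lit 2384) l65 (.c (nat_lit 2103) l50 (.c (nat_lit 2660) l70 (.c (nat_lit 1435) l42 (.c (nat_lit 2658) l70 (.c (nat_lit 2104) l50 (.c (nat_lit 1808) l42 (.c (nat_lit 2720) l157 (.c (nat_lit 2416) l65 (.c (nat_lit 1433) l42 (.c (nat_lit 1095) l42 (.c (nat_lit 2112) l65 (.c (nat_lit 2700) l157 .e))))))))))))))))))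
noncomputable def u1_109 : St := (.c (nat_lit 2659) l65 (.c (nat_lit 2660) l97 (.c (nat_lit 2100) l50 (.c (nat_lit 2659) l97 (.c (nat_lit 2567) l50 (.c (nat_lit 2572) l65 (.c (nat_lit 2561) l50 (.c (nat_lit 2381) l50 (.c (nat_lit 2103) l50 (.c (nat_lit 2660) l70 (.c (nat_lit 2658) l70 (.c (nat_lit 2104) l50 (.c (nat_lit 1275) l50 (.c (nat_lit 1644) l50 (.c (nat_lit 2574) l65 (.c (nat_lit 2416) l65 (.c (nat_lit 2659) l69 (.c (nat_lit 2701) l107 (.c (nat_lit 2658) l104 (.c (nat_lit 2416) l97 (.c (nat_lit 2701) l104 (.c (nat_lit 2112) l65 .e))))))))))))))))))))))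
noncomputable def u1_110 : St := (.c (nat_lit 2659) l65 (.c (nat_lit 2660) l97 (.c (nat_lit 2100) l50 (.c (nat_lit 2659) l97 (.c (nat_lit 2567) l50 (.c (nat_lit 2572) l65 (.c (nat_lit 2561) l50 (.c (nat_lit 2381) l50 (.c (nat_lit 2103) l50 (.c (nat_lit 2660) l70 (.c (nat_lit 2658) l70 (.c (nat_lit 2104) l50 (.c (nat_lit 1275) l50 (.c (nat_lit 1644) l50 (.c (nat_lit 2574) l65 (.c (nat_lit 2659) l69 (.c (nat_lit 2701) l107 (.c (nat_lit 2658) l104 (.c (nat_lit 2701) l104 .e)))))))))))))))))))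
noncomputable def u1_111 : St := (.c (nat_lit 2506) l78 (.c (nat_lit 2503) l49 (.c (nat_lit 2110) l50 (.c (nat_lit 2503) l69 (.c (nat_lit 1529) l65 (.c (nat_lit 1158) l50 (.c (nat_lit 2503) l107 (.c (nat_lit 2306) l108 (.c (nat_lit 2007) l74 (.c (nat_lit 1650) l65 (.c (nat_lit 2299) l78 (.c (nat_lit 1655) l65 (.c (nat_lit 2506) l118 (.c (nat_lit 2546) l74 (.c (nat_lit 2503) l159 (.c (nat_lit 579) l42 (.c (nat_lit 2020) l50 (.c (nat_lit 1611) l74 (.c (nat_lit 1991) l52 (.c (nat_lit 1629) l74 (.c (nat_lit 817) l53 (.c (nat_lit 909) l1 (.c (nat_lit 1524) l65 (.c (nat_lit 2038) l50 (.c (nat_lit 1969) l63 (.c (nat_lit 1969) l48 (.c (nat_lit 1841) l50 .e)))))))))))))))))))))))))))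
noncomputable def u1_112 : St := (.c (nat_lit 2412) l65 (.c (nat_lit 1605) l65 (.c (nat_lit 1909) l65 (.c (nat_lit 2302) l63 .e))))
noncomputable def u1_113 : St := (.c (nat_lit 2575) l160 (.c (nat_lit 2506) l78 (.c (nat_lit 2172) l74 (.c (nat_lit 2575) l74 (.c (nat_lit 1825) l42 (.c (nat_lit 2423) l74 (.c (nat_lit 2503) l49 (.c (nat_lit 2503) l69 (.c (nat_lit 2296) l49 (.c (nat_lit 1909) l50 (.c (nat_lit 2503) l107 (.c (nat_lit 2423) l108 (.c (nat_lit 2090) l42 (.c (nat_lit 1920) l42 (.c (nat_lit 1575) l42 (.c (nat_lit 1728) l42 (.c (nat_lit 1655) l65 (.c (nat_lit 2506) l118 (.c (nat_lit 2143) l42 (.c (nat_lit 915) l42 (.c (nat_lit 1341) l42 (.c (nat_lit 2501) l69 (.c (nat_lit 2005) l49 (.c (nat_lit 1796) l42 (.c (nat_lit 2005) l48 (.c (nat_lit 2005) l63 (.c (nat_lit 2546) l74 (.c (nat_lit 2302) l48 (.c (nat_lit 1433) l42 (.c (nat_lit 2503) l159 (.c (nat_lit 2505) l179 (.c (nat_lit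 942) l42 (.c (nat_lit 1916) l1 (.c (nat_lit 2575) l171 (.c (nat_lit 2302) l52 (.c (nat_lit 2302) l78 (.c (nat_lit 817) l53 (.c (nat_lit 909) l1 (.c (nat_lit 917) l42 (.c (nat_lit 2300) l157 u1_112))))))))))))))))))))))))))))))))))))))))
noncomputable def u1_114 : St := (.c (nat_lit 2506) l78 (.c (nat_lit 2503) l49 (.c (nat_lit 2503) l69 (.c (nat_lit 1529) l65 (.c (nat_lit 1158) l50 (.c (nat_lit 2503) l107 (.c (nat_lit 2306) l108 (.c (nat_lit 2007) l74 (.c (nat_lit 1650) l65 (.c (nat_lit 2299) l78 (.c (nat_lit 1655) l65 (.c (nat_lit 2506) l118 (.c (nat_lit 2546) l74 (.c (nat_lit 2503) l159 (.c (nat_lit 579) l42 (.c (nat_lit 1611) l74 (.c (nat_lit 1991) l52 (.c (nat_lit 1629) l74 (.c (nat_lit 817) l53 (.c (nat_lit 909) l1 (.c (nat_lit 1524) l65 (.c (nat_lit 1969) l63 (.c (nat_lit 1969) l48 .e)))))))))))))))))))))))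
noncomputable def u1_115 : St := (.c (nat_lit 1804) l53 (.c (nat_lit 2005) l52 (.c (nat_lit 2210) l48 (.c (nat_lit 2232) l48 (.c (nat_lit 869) l42 (.c (nat_lit 2032) l1 (.c (nat_lit 1666) l42 (.c (nat_lit 1966) l49 (.c (nat_lit 2499) l48 (.c (nat_lit 917) l42 (.c (nat_lit 1524) l65 (.c (nat_lit 1985) l42 (.c (nat_lit 1889) l65 (.c (nat_lit 2049) l50 (.c (nat_lit 2038) l50 (.c (nat_lit 1969) l63 (.c (nat_lit 1991) l63 (.c (nat_lit 1992) l65 (.c (nat_lit 1946) l65 (.c (nat_lit 1572) l50 (.c (nat_lit 1991) l48 (.c (nat_lit 1605) l65 (.c (nat_lit 1965) l65 (.c (nat_lit 2241) l50 (.c (nat_lit 2642) l70 (.c (nat_lit 2542) l97 (.c (nat_lit 2377) l50 (.c (nat_lit 2300) l97 (.c (nat_lit 2718) l113 .e)))))))))))))))))))))))))))))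
noncomputable def u1_116 : St := (.c (nat_lit 2295) l53 (.c (nat_lit 1969) l52 (.c (nat_lit 1611) l74 (.c (nat_lit 1991) l52 (.c (nat_lit 698) l42 (.c (nat_lit 2271) l52 (.c (nat_lit 2698) l114 (.c (nat_lit 2261) l74 (.c (nat_lit 1937) l53 (.c (nat_lit 1160) l53 (.c (nat_lit 2305) l74 (.c (nat_lit 2659) l108 (.c (nat_lit 2564) l63 (.c (nat_lit 994) l1 (.c (nat_lit 2656) l65 (.c (nat_lit 1629) l74 (.c (nat_lit 2385) l108 (.c (nat_lit 1713) l53 (.c (nat_lit 2645) l74 (.c (nat_lit 2165) l53 (.c (nat_lit 2155) l74 (.c (nat_lit 2157) l78 (.c (nat_lit 1634) l74 (.c (nat_lit 2382) l74 (.c (nat_lit 2000) l74 (.c (nat_lit 2300) l179 (.c (nat_lit 2626) l79 (.c (nat_lit 1993) l74 (.c (nat_lit 1810) l74 (.c (nat_lit 2488) l78 (.c (nat_lit 2156) l74 (.c (nat_lit 1830) l74 (.c (nat_lit 2163) l74 (.c (nat_lit 1942) l74 (.c (nat_lit 2573) l91 (.c (nat_lit 2652) l78 (.c (nat_lit 1815) l74 (.c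 (nat_lit 2391) l108 (.c (nat_lit 2105) l63 (.c (nat_lit 1832) l53 u1_115))))))))))))))))))))))))))))))))))))))))
noncomputable def u1_117 : St := (.c (nat_lit 1396) l42 (.c (nat_lit 1002) l42 (.c (nat_lit 2185) l49 (.c (nat_lit 2699) l65 (.c (nat_lit 2138) l1 (.c (nat_lit 1728) l42 (.c (nat_lit 1179) l42 (.c (nat_lit 1040) l42 (.c (nat_lit 1410) l42 (.c (nat_lit 536) l42 (.c (nat_lit 2237) l42 (.c (nat_lit 1424) l42 (.c (nat_lit 992) l1 (.c (nat_lit 2506) l118 (.c (nat_lit 2700) l114 (.c (nat_lit 2571) l65 (.c (nat_lit 2573) l69 (.c (nat_lit 1377) l1 (.c (nat_lit 2143) l42 (.c (nat_lit 915) l42 (.c (nat_lit 1341) l42 (.c (nat_lit 2501) l69 (.c (nat_lit 2499) l49 (.c (nat_lit 2576) l114 (.c (nat_lit 2731) l228 (.c (nat_lit 2005) l48 (.c (nat_lit 2581) l97 (.c (nat_lit 1890) l65 (.c (nat_lit 2495) l49 (.c (nat_lit 2717) l100 (.c (nat_lit 2484) l97 (.c (nat_lit 2211) l65 (.c (nat_lit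 1433) l42 (.c (nat_lit 2501) l108 (.c (nat_lit 2506) l91 (.c (nat_lit 579) l42 (.c (nat_lit 2659) l69 (.c (nat_lit 2505) l179 (.c (nat_lit 2020) l50 (.c (nat_lit 2658) l104 u1_116))))))))))))))))))))))))))))))))))))))))
noncomputable def u1_118 : St := (.c (nat_lit 2166) l42 (.c (nat_lit 1808) l42 (.c (nat_lit 1702) l42 (.c (nat_lit 1713) l42 (.c (nat_lit 1615) l42 (.c (nat_lit 2628) l69 (.c (nat_lit 1877) l63 (.c (nat_lit 2004) l53 (.c (nat_lit 1426) l42 (.c (nat_lit 2643) l70 (.c (nat_lit 2058) l42 (.c (nat_lit 1538) l42 (.c (nat_lit 1323) l42 (.c (nat_lit 2562) l53 (.c (nat_lit 2155) l53 (.c (nat_lit 1529) l1 (.c (nat_lit 2721) l141 (.c (nat_lit 2697) l104 (.c (nat_lit 2390) l141 (.c (nat_lit 2208) l97 (.c (nat_lit 2092) l42 (.c (nat_lit 1708) l42 (.c (nat_lit 896) l42 (.c (nat_lit 1239) l42 (.c (nat_lit 1700) l42 (.c (nat_lit 1270) l42 (.c (nat_lit 1167) l1 (.c (nat_lit 989)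 l42 (.c (nat_lit 2296) l52 (.c (nat_lit 2651) l100 (.c (nat_lit 1891) l63 (.c (nat_lit 1877) l48 (.c (nat_lit 1135) l50 (.c (nat_lit 2560) l104 (.c (nat_lit 2208) l157 (.c (nat_lit 1966) l48 (.c (nat_lit 2573) l140 (.c (nat_lit 1368) l42 (.c (nat_lit 2557) l91 (.c (nat_lit 911) l42 u1_117))))))))))))))))))))))))))))))))))))))))
noncomputable def u1_119 : St := (.c (nat_lit 2311) l50 (.c (nat_lit 2381) l50 (.c (nat_lit 2397) l50 (.c (nat_lit 1540) l42 (.c (nat_lit 1876) l50 (.c (nat_lit 1435) l42 (.c (nat_lit 1336) l42 (.c (nat_lit 1192) l42 (.c (nat_lit 2390) l207 (.c (nat_lit 2626) l70 (.c (nat_lit 2260) l74 (.c (nat_lit 1942) l53 (.c (nat_lit 2658) l70 (.c (nat_lit 2700) l79 (.c (nat_lit 1140) l50 (.c (nat_lit 2306) l108 (.c (nat_lit 1758) l42 (.c (nat_lit 2090) l42 (.c (nat_lit 802) l42 (.c (nat_lit 2624) l49 (.c (nat_lit 1583) l42 (.c (nat_lit 2653) l79 (.c (nat_lit 1507)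 l42 (.c (nat_lit 2308) l50 (.c (nat_lit 2094) l42 (.c (nat_lit 2512) l49 (.c (nat_lit 2688) l97 (.c (nat_lit 2643) l104 (.c (nat_lit 2440) l65 (.c (nat_lit 2590) l65 (.c (nat_lit 2156) l42 (.c (nat_lit 1243) l42 (.c (nat_lit 1940) l42 (.c (nat_lit 1600) l42 (.c (nat_lit 1990) l42 (.c (nat_lit 2154) l42 (.c (nat_lit 1945) l42 (.c (nat_lit 1275) l42 (.c (nat_lit 1648) l42 (.c (nat_lit 1951) l42 u1_118))))))))))))))))))))))))))))))))))))))))
noncomputable def u1_120 : St := (.c (nat_lit 1984) l53 (.c (nat_lit 2681) l160 (.c (nat_lit 2180) l50 (.c (nat_lit 1158) l50 (.c (nat_lit 1892) l65 (.c (nat_lit 2204) l49 (.c (nat_lit 2727) l236 (.c (nat_lit 2244) l42 (.c (nat_lit 2705) l52 (.c (nat_lit 1295) l42 (.c (nat_lit 2353) l52 (.c (nat_lit 2708) l73 (.c (nat_lit 1871) l42 (.c (nat_lit 2592) l48 (.c (nat_lit 2477) l52 (.c (nat_lit 488) l42 (.c (nat_lit 1158) l42 (.c (nat_lit 2581) l108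 (.c (nat_lit 2696) l117 (.c (nat_lit 2351) l74 (.c (nat_lit 1893) l74 (.c (nat_lit 1842) l42 (.c (nat_lit 1965) l42 (.c (nat_lit 1148) l42 (.c (nat_lit 2543) l53 (.c (nat_lit 2124) l42 (.c (nat_lit 1883) l42 (.c (nat_lit 1848) l42 (.c (nat_lit 1877) l69 (.c (nat_lit 2260) l53 (.c (nat_lit 2202) l50 (.c (nat_lit 2231) l50 (.c (nat_lit 2180) l65 (.c (nat_lit 1873) l50 (.c (nat_lit 1849) l50 (.c (nat_lit 2561) l50 (.c (nat_lit 1570) l42 (.c (nat_lit 1909) l50 (.c (nat_lit 1640) l42 (.c (nat_lit 2696) l70 u1_119))))))))))))))))))))))))))))))))))))))))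
noncomputable def u1_121 : St := (.c (nat_lit 2441) l50 (.c (nat_lit 2429) l50 (.c (nat_lit 1891) l52 (.c (nat_lit 2312) l52 (.c (nat_lit 2210) l52 (.c (nat_lit 2634) l53 (.c (nat_lit 2731) l244 (.c (nat_lit 2637) l52 (.c (nat_lit 2718) l112 (.c (nat_lit 2544) l52 (.c (nat_lit 2209) l50 (.c (nat_lit 2002) l42 (.c (nat_lit 2350) l42 (.c (nat_lit 2484) l65 (.c (nat_lit 2214) l108 (.c (nat_lit 2680) l108 (.c (nat_lit 814) l42 (.c (nat_lit 2110) l65 (.c (nat_lit 2444) l141 (.c (nat_lit 2488) l52 (.c (nat_lit 2654) l108 (.c (nat_lit 2712) l108 (.c (nat_lit 2596) l69 (.c (nat_lit 2731) l204 (.c (nat_lit 2636) l69 (.c (nat_lit 2429) l65 (.c (nat_lit 2375) l1 (.c (nat_lit 2014) l42 (.c (nat_lit 2392) l42 (.c (nat_lit 1544) l42 (.c (nat_lit 2048) l42 (.c (nat_lit 2696) l100 (.c (nat_lit 2615) l74 (.c (nat_lit 2351) l53 (.c (nat_lit 2262) l52 (.c (nat_lit 2652) l160 (.c (nat_lit 2695) l63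 (.c (nat_lit 2203) l50 (.c (nat_lit 2525) l50 (.c (nat_lit 2731) l146 u1_120))))))))))))))))))))))))))))))))))))))))
noncomputable def u1_122 : St := (.c (nat_lit 2718) l246 (.c (nat_lit 2369) l42 (.c (nat_lit 2506) l78 (.c (nat_lit 2700) l97 (.c (nat_lit 2731) l102 (.c (nat_lit 2544) l49 (.c (nat_lit 2630) l49 (.c (nat_lit 2644) l69 (.c (nat_lit 2688) l65 (.c (nat_lit 2727) l100 (.c (nat_lit 2175) l1 (.c (nat_lit 2410) l42 (.c (nat_lit 2245) l42 (.c (nat_lit 2172) l74 (.c (nat_lit 1572) l42 (.c (nat_lit 2380) l48 (.c (nat_lit 2113) l65 (.c (nat_lit 2557) l78 (.c (nat_lit 2557) l63 (.c (nat_lit 2573) l63 (.c (nat_lit 2573) l48 (.c (nat_lit 1825) l42 (.c (nat_lit 2660) l108 (.c (nat_lit 2728) l68 (.c (nat_lit 2170) l63 (.c (nat_lit 2418) l48 (.c (nat_lit 2531) l49 (.c (nat_lit 1800) l42 (.c (nat_lit 2604) l52 (.c (nat_lit 2117) l78 (.c (nat_lit 2173) l78 (.c (nat_lit 2552) l49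 (.c (nat_lit 2667) l49 (.c (nat_lit 2117) l48 (.c (nat_lit 2660) l160 (.c (nat_lit 2582) l49 (.c (nat_lit 2613) l49 (.c (nat_lit 2213) l69 (.c (nat_lit 2715) l64 (.c (nat_lit 2694) l108 u1_121))))))))))))))))))))))))))))))))))))))))
noncomputable def u1_123 : St := (.c (nat_lit 2638) l108 (.c (nat_lit 2133) l42 (.c (nat_lit 2659) l74 (.c (nat_lit 2559) l108 (.c (nat_lit 2687) l48 (.c (nat_lit 2582) l48 (.c (nat_lit 2559) l74 (.c (nat_lit 2391) l74 (.c (nat_lit 2214) l179 (.c (nat_lit 2506) l63 (.c (nat_lit 2694) l69 (.c (nat_lit 2718) l102 (.c (nat_lit 2648) l78 (.c (nat_lit 2519) l42 (.c (nat_lit 2307) l1 (.c (nat_lit 2726) l102 (.c (nat_lit 2631) l69 (.c (nat_lit 2715) l68 (.c (nat_lit 2715) l221 (.c (nat_lit 2513) l65 (.c (nat_lit 2695) l78 (.c (nat_lit 2317) l42 (.c (nat_lit 2554) l42 (.c (nat_lit 2348) l42 (.c (nat_lit 2718) l114 (.c (nat_lit 2613) l48 (.c (nat_lit 2548)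 l42 (.c (nat_lit 2694) l48 (.c (nat_lit 2391) l78 (.c (nat_lit 2686) l48 (.c (nat_lit 2727) l108 (.c (nat_lit 2684) l52 (.c (nat_lit 2697) l70 (.c (nat_lit 2311) l42 (.c (nat_lit 2727) l97 (.c (nat_lit 2664) l65 (.c (nat_lit 2731) l202 (.c (nat_lit 2520) l42 (.c (nat_lit 2653) l70 (.c (nat_lit 2724) l108 u1_122))))))))))))))))))))))))))))))))))))))))
noncomputable def u1_124 : St := (.c (nat_lit 2264) l74 (.c (nat_lit 2724) l160 (.c (nat_lit 2716) l65 (.c (nat_lit 2721) l97 (.c (nat_lit 2721) l65 (.c (nat_lit 1394) l42 (.c (nat_lit 2355) l160 (.c (nat_lit 2693) l48 (.c (nat_lit 2621) l74 (.c (nat_lit 2481) l74 (.c (nat_lit 2430) l42 (.c (nat_lit 2724) l74 (.c (nat_lit 2720) l97 (.c (nat_lit 2404) l74 (.c (nat_lit 1982) l42 (.c (nat_lit 2592) l49 (.c (nat_lit 2231) l65 (.c (nat_lit 2605) l48 (.c (nat_lit 2597) l52 (.c (nat_lit 2664) l52 (.c (nat_lit 2638) l74 (.c (nat_lit 2683)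 l49 (.c (nat_lit 2541) l74 (.c (nat_lit 2694) l49 (.c (nat_lit 2558) l141 (.c (nat_lit 2571) l97 (.c (nat_lit 2482) l42 (.c (nat_lit 2654) l42 (.c (nat_lit 2712) l74 (.c (nat_lit 2681) l53 (.c (nat_lit 2581) l74 (.c (nat_lit 2726) l114 (.c (nat_lit 2687) l49 (.c (nat_lit 2613) l52 (.c (nat_lit 2582) l52 (.c (nat_lit 2680) l74 (.c (nat_lit 2644) l52 (.c (nat_lit 2699) l74 (.c (nat_lit 2728) l77 (.c (nat_lit 2385) l74 u1_123))))))))))))))))))))))))))))))))))))))))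
noncomputable def u1_125 : St := (.c (nat_lit 2624) l69 (.c (nat_lit 2506) l63 (.c (nat_lit 2625) l78 (.c (nat_lit 2506) l78 (.c (nat_lit 2503) l69 (.c (nat_lit 1529) l65 (.c (nat_lit 2207) l65 (.c (nat_lit 1892) l65 (.c (nat_lit 1876) l50 (.c (nat_lit 2624) l49 (.c (nat_lit 2512) l49 (.c (nat_lit 2628) l69 (.c (nat_lit 2312) l49 (.c (nat_lit 2020) l50 (.c (nat_lit 1877) l49 (.c (nat_lit 1889) l65 (.c (nat_lit 2049) l50 (.c (nat_lit 2038) l50 (.c (nat_lit 1992) l65 (.c (nat_lit 1946) l65 (.c (nat_lit 2625) l63 (.c (nat_lit 2312) l69 .e))))))))))))))))))))))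
noncomputable def u1_126 : St := (.c (nat_lit 2505) l108 (.c (nat_lit 2005) l48 (.c (nat_lit 2005) l63 (.c (nat_lit 2232) l49 (.c (nat_lit 2341) l50 (.c (nat_lit 1656) l74 (.c (nat_lit 2353) l48 (.c (nat_lit 2210) l49 (.c (nat_lit 2506) l91 (.c (nat_lit 2443) l69 (.c (nat_lit 2659) l69 (.c (nat_lit 2658) l104 (.c (nat_lit 2564) l69 (.c (nat_lit 2499) l52 (.c (nat_lit 1969) l52 (.c (nat_lit 1611) l74 (.c (nat_lit 942) l42 (.c (nat_lit 2575) l171 (.c (nat_lit 2423) l231 (.c (nat_lit 2271) l52 (.c (nat_lit 1629) l74 (.c (nat_lit 817) l53 (.c (nat_lit 1966) l49 (.c (nat_lit 2499) l48 (.c (nat_lit 909) l1 (.c (nat_lit 1524) l65 (.c (nat_lit 1889) l65 (.c (nat_lit 2049) l50 (.c (nat_lit 1969) l63 (.c (nat_lit 2271) l48 (.c (nat_lit 1991) l63 (.c (nat_lit 2613) l107 (.c (nat_lit 1991) l48 (.c (nat_lit 1605) l65 (.c (nat_lit 1965) l65 (.c (nat_lit 2241) l50 (.c (nat_lit 1518) l50 (.c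 (nat_lit 2462) l69 .e))))))))))))))))))))))))))))))))))))))
noncomputable def u1_127 : St := (.c (nat_lit 2506) l63 (.c (nat_lit 2718) l114 (.c (nat_lit 2724) l110 (.c (nat_lit 2506) l78 (.c (nat_lit 2172) l74 (.c (nat_lit 2575) l74 (.c (nat_lit 2611) l78 (.c (nat_lit 2724) l79 (.c (nat_lit 2724) l114 (.c (nat_lit 2724) l166 (.c (nat_lit 2695) l181 (.c (nat_lit 2613) l69 (.c (nat_lit 2296) l49 (.c (nat_lit 2443) l49 (.c (nat_lit 2207) l65 (.c (nat_lit 1158) l50 (.c (nat_lit 1892) l65 (.c (nat_lit 2204) l49 (.c (nat_lit 2353) l52 (.c (nat_lit 1877) l69 (.c (nat_lit 1876) l50 (.c (nat_lit 2658) l70 (.c (nat_lit 2700) l79 (.c (nat_lit 2007) l74 (.c (nat_lit 2624) l49 (.c (nat_lit 2379) l1 (.c (nat_lit 1275) l50 (.c (nat_lit 2660) l79 (.c (nat_lit 1650) l65 (.c (nat_lit 2185) l49 (.c (nat_lit 1644) l50 (.c (nat_lit 2642) l79 (.c (nat_lit 2506) l118 (.c (nat_lit 1298) l53 (.c (nat_lit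 2573) l69 (.c (nat_lit 1341) l42 (.c (nat_lit 2501) l69 (.c (nat_lit 1991) l49 (.c (nat_lit 2576) l114 (.c (nat_lit 2731) l228 u1_126))))))))))))))))))))))))))))))))))))))))
noncomputable def u1_128 : St := (.c (nat_lit 2143) l42 (.c (nat_lit 1341) l42 (.c (nat_lit 2501) l69 (.c (nat_lit 2499) l49 (.c (nat_lit 2576) l114 (.c (nat_lit 1796) l42 (.c (nat_lit 2731) l228 (.c (nat_lit 2546) l74 (.c (nat_lit 2446) l65 (.c (nat_lit 1891) l49 (.c (nat_lit 1890) l65 (.c (nat_lit 1656) l74 (.c (nat_lit 2495) l49 (.c (nat_lit 2353) l48 (.c (nat_lit 2312) l49 (.c (nat_lit 2211) l65 (.c (nat_lit 1433) l42 (.c (nat_lit 2506) l91 (.c (nat_lit 1155) l1 (.c (nat_lit 2505) l179 (.c (nat_lit 2499) l52 (.c (nat_lit 1991) l52 (.c (nat_lit 1916) l1 (.c (nat_lit 2423) l231 (.c (nat_lit 2271) l52 (.c (nat_lit 817) l53 (.c (nat_lit 1966) l49 (.c (nat_lit 2499) l48 (.c (nat_lit 1889) l65 (.c (nat_lit 2049)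 l50 (.c (nat_lit 2271) l48 (.c (nat_lit 1992) l65 (.c (nat_lit 1633) l65 (.c (nat_lit 1572) l50 (.c (nat_lit 1991) l48 (.c (nat_lit 2241) l50 (.c (nat_lit 2447) l97 .e)))))))))))))))))))))))))))))))))))))
noncomputable def u1_129 : St := (.c (nat_lit 2506) l63 (.c (nat_lit 2718) l114 (.c (nat_lit 2724) l110 (.c (nat_lit 2593) l65 (.c (nat_lit 1825) l42 (.c (nat_lit 2611) l78 (.c (nat_lit 2724) l79 (.c (nat_lit 2724) l114 (.c (nat_lit 2724) l166 (.c (nat_lit 2695) l181 (.c (nat_lit 1529) l65 (.c (nat_lit 2203) l50 (.c (nat_lit 2296) l49 (.c (nat_lit 2207) l65 (.c (nat_lit 2204) l49 (.c (nat_lit 1295) l42 (.c (nat_lit 2353) l52 (.c (nat_lit 2202) l50 (.c (nat_lit 1873) l50 (.c (nat_lit 1849) l50 (.c (nat_lit 1909) l50 (.c (nat_lit 2381) l50 (.c (nat_lit 2397) l50 (.c (nat_lit 1435) l42 (.c (nat_lit 1140) l50 (.c (nat_lit 2090) l42 (.c (nat_lit 1920) l42 (.c (nat_lit 2624) l49 (.c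 (nat_lit 2440) l65 (.c (nat_lit 1275) l50 (.c (nat_lit 2660) l79 (.c (nat_lit 817) l42 (.c (nat_lit 1575) l42 (.c (nat_lit 1728) l42 (.c (nat_lit 1644) l50 (.c (nat_lit 1655) l65 (.c (nat_lit 2642) l79 (.c (nat_lit 1298) l53 (.c (nat_lit 2700) l114 (.c (nat_lit 2353) l49 u1_128))))))))))))))))))))))))))))))))))))))))
noncomputable def u1_130 : St := (.c (nat_lit 2658) l104 (.c (nat_lit 2564) l69 (.c (nat_lit 2572) l97 (.c (nat_lit 1969) l52 (.c (nat_lit 1611) l74 (.c (nat_lit 1991) l52 (.c (nat_lit 2271) l52 (.c (nat_lit 2302) l52 (.c (nat_lit 2656) l65 (.c (nat_lit 1629) l74 (.c (nat_lit 2005) l52 (.c (nat_lit 869) l42 (.c (nat_lit 2032) l1 (.c (nat_lit 817) l53 (.c (nat_lit 1877) l49 (.c (nat_lit 1966) l49 (.c (nat_lit 1849) l65 (.c (nat_lit 909) l1 (.c (nat_lit 1524) l65 (.c (nat_lit 1985) l42 (.c (nat_lit 2049) l50 (.c (nat_lit 1969) l63 (.c (nat_lit 2271) l48 (.c (nat_lit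 1992) l65 (.c (nat_lit 1633) l65 (.c (nat_lit 1572) l50 (.c (nat_lit 2625) l63 (.c (nat_lit 1605) l65 (.c (nat_lit 1965) l65 (.c (nat_lit 2542) l97 (.c (nat_lit 2720) l152 (.c (nat_lit 2651) l101 .e))))))))))))))))))))))))))))))))
noncomputable def u1_131 : St := (.c (nat_lit 1808) l42 (.c (nat_lit 1713) l42 (.c (nat_lit 1813) l42 (.c (nat_lit 1529) l1 (.c (nat_lit 2092) l42 (.c (nat_lit 1650) l65 (.c (nat_lit 1751) l42 (.c (nat_lit 2296) l52 (.c (nat_lit 2299) l78 (.c (nat_lit 2651) l100 (.c (nat_lit 1728) l42 (.c (nat_lit 1410) l42 (.c (nat_lit 1655) l65 (.c (nat_lit 871) l42 (.c (nat_lit 2642) l79 (.c (nat_lit 1298) l53 (.c (nat_lit 2700) l114 (.c (nat_lit 2624) l97 (.c (nat_lit 2720) l157 (.c (nat_lit 2574) l65 (.c (nat_lit 2143) l42 (.c (nat_lit 915) l42 (.c (nat_lit 1341) l42 (.c (nat_lit 2005) l49 (.c (nat_lit 2499) l49 (.c (nat_lit 2576) l114 (.c (nat_lit 1796) l42 (.c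 (nat_lit 2505) l108 (.c (nat_lit 2005) l48 (.c (nat_lit 2546) l74 (.c (nat_lit 2302) l48 (.c (nat_lit 2656) l141 (.c (nat_lit 1433) l42 (.c (nat_lit 2503) l159 (.c (nat_lit 2618) l141 (.c (nat_lit 1155) l1 (.c (nat_lit 579) l42 (.c (nat_lit 2505) l179 (.c (nat_lit 1454) l42 (.c (nat_lit 2399) l65 u1_130))))))))))))))))))))))))))))))))))))))))
noncomputable def u1_132 : St := (.c (nat_lit 2296) l48 (.c (nat_lit 2720) l97 (.c (nat_lit 2684) l160 (.c (nat_lit 2624) l69 (.c (nat_lit 2684) l74 (.c (nat_lit 2575) l160 (.c (nat_lit 2659) l65 (.c (nat_lit 2506) l63 (.c (nat_lit 2624) l65 (.c (nat_lit 2625) l78 (.c (nat_lit 2506) l78 (.c (nat_lit 2302) l49 (.c (nat_lit 1825) l42 (.c (nat_lit 1810) l42 (.c (nat_lit 2423) l74 (.c (nat_lit 2503) l49 (.c (nat_lit 2660) l97 (.c (nat_lit 2110) l50 (.c (nat_lit 2695) l181 (.c (nat_lit 2002) l42 (.c (nat_lit 2659) l97 (.c (nat_lit 2656) l97 (.c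 (nat_lit 2684) l108 (.c (nat_lit 2624) l141 (.c (nat_lit 2296) l49 (.c (nat_lit 1892) l65 (.c (nat_lit 1849) l50 (.c (nat_lit 2618) l97 (.c (nat_lit 1640) l42 (.c (nat_lit 2503) l107 (.c (nat_lit 2658) l70 (.c (nat_lit 1281) l42 (.c (nat_lit 2700) l79 (.c (nat_lit 2423) l108 (.c (nat_lit 2090) l42 (.c (nat_lit 2007) l74 (.c (nat_lit 2624) l49 (.c (nat_lit 2564) l49 (.c (nat_lit 1275) l42 (.c (nat_lit 1648) l42 u1_131))))))))))))))))))))))))))))))))))))))))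
noncomputable def u1_133 : St := (.c (nat_lit 1629) l74 (.c (nat_lit 869) l42 (.c (nat_lit 817) l53 (.c (nat_lit 1849) l65 (.c (nat_lit 2499) l48 (.c (nat_lit 1524) l65 (.c (nat_lit 1889) l65 (.c (nat_lit 2049) l50 (.c (nat_lit 2038) l50 (.c (nat_lit 1969) l63 (.c (nat_lit 1991) l63 (.c (nat_lit 2613) l107 (.c (nat_lit 1946) l65 (.c (nat_lit 1633) l65 (.c (nat_lit 1572) l50 (.c (nat_lit 1991) l48 (.c (nat_lit 1605) l65 (.c (nat_lit 1965) l65 (.c (nat_lit 2241) l50 (.c (nat_lit 2642) l70 (.c (nat_lit 2377) l50 (.c (nat_lit 2300) l97 .e))))))))))))))))))))))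
noncomputable def u1_134 : St := (.c (nat_lit 2092) l42 (.c (nat_lit 2660) l79 (.c (nat_lit 1650) l65 (.c (nat_lit 817) l42 (.c (nat_lit 2296) l52 (.c (nat_lit 1575) l42 (.c (nat_lit 2185) l49 (.c (nat_lit 2138) l1 (.c (nat_lit 1410) l42 (.c (nat_lit 1644) l50 (.c (nat_lit 871) l42 (.c (nat_lit 2700) l114 (.c (nat_lit 2624) l97 (.c (nat_lit 2573) l69 (.c (nat_lit 2143) l42 (.c (nat_lit 2501) l69 (.c (nat_lit 1991) l49 (.c (nat_lit 2731) l228 (.c (nat_lit 2505) l108 (.c (nat_lit 2005) l48 (.c (nat_lit 2005) l63 (.c (nat_lit 2546) l74 (.c (nat_lit 2302) l48 (.c (nat_lit 1891) l49 (.c (nat_lit 2341) l50 (.c (nat_lit 1890) l65 (.c (nat_lit 2353) l48 (.c (nat_lit 2210) l49 (.c (nat_lit 2501) l108 (.c (nat_lit 2506) l91 (.c (nat_lit 2618) l141 (.c (nat_lit 2659) l69 (.c (nat_lit 2505) l179 (.c (nat_lit 2020) l50 (.c (nat_lit 2658) l104 (.c (nat_lit 2499) l52 (.c (nat_lit 1969) l52 (.c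 (nat_lit 1611) l74 (.c (nat_lit 2575) l171 (.c (nat_lit 2302) l52 u1_133))))))))))))))))))))))))))))))))))))))))
noncomputable def u1_135 : St := (.c (nat_lit 2296) l48 (.c (nat_lit 2506) l63 (.c (nat_lit 2624) l65 (.c (nat_lit 2625) l78 (.c (nat_lit 2718) l114 (.c (nat_lit 2724) l110 (.c (nat_lit 2302) l49 (.c (nat_lit 2172) l74 (.c (nat_lit 2575) l74 (.c (nat_lit 2611) l78 (.c (nat_lit 2724) l79 (.c (nat_lit 2724) l114 (.c (nat_lit 2724) l166 (.c (nat_lit 2695) l181 (.c (nat_lit 2613) l69 (.c (nat_lit 2624) l141 (.c (nat_lit 1529) l65 (.c (nat_lit 1984) l53 (.c (nat_lit 2443) l49 (.c (nat_lit 2207) l65 (.c (nat_lit 1892) l65 (.c (nat_lit 1295) l42 (.c (nat_lit 2353) l52 (.c (nat_lit 1849) l50 (.c (nat_lit 2618) l97 (.c (nat_lit 1640) l42 (.c (nat_lit 1876) l50 (.c (nat_lit 2501) l74 (.c (nat_lit 1435) l42 (.c (nat_lit 2658) l70 (.c (nat_lit 2306) l108 (.c (nat_lit 2007) l74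 (.c (nat_lit 2625) l118 (.c (nat_lit 2624) l49 (.c (nat_lit 2512) l49 (.c (nat_lit 1648) l42 (.c (nat_lit 1713) l42 (.c (nat_lit 2628) l69 (.c (nat_lit 1529) l1 (.c (nat_lit 1275) l50 u1_134))))))))))))))))))))))))))))))))))))))))
noncomputable def u1_136 : St := (.c (nat_lit 2542) l97 .e)
noncomputable def u1_137 : St := (.c (nat_lit 1890) l65 (.c (nat_lit 2353) l48 (.c (nat_lit 2484) l97 (.c (nat_lit 2211) l65 (.c (nat_lit 1433) l42 (.c (nat_lit 2503) l159 (.c (nat_lit 2538) l65 (.c (nat_lit 2618) l141 (.c (nat_lit 2443) l69 (.c (nat_lit 1155) l1 (.c (nat_lit 579) l42 (.c (nat_lit 2659) l69 (.c (nat_lit 2701) l107 (.c (nat_lit 2020) l50 (.c (nat_lit 2658) l104 (.c (nat_lit 2499) l52 (.c (nat_lit 1969) l52 (.c (nat_lit 1611) l74 (.c (nat_lit 1991) l52 (.c (nat_lit 942) l42 (.c (nat_lit 1916) l1 (.c (nat_lit 2575) l171 (.c (nat_lit 2423) l231 (.c (nat_lit 2271) l52 (.c (nat_lit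 1629) l74 (.c (nat_lit 2005) l52 (.c (nat_lit 869) l42 (.c (nat_lit 817) l53 (.c (nat_lit 1966) l49 (.c (nat_lit 2499) l48 (.c (nat_lit 909) l1 (.c (nat_lit 1524) l65 (.c (nat_lit 1969) l63 (.c (nat_lit 2412) l65 (.c (nat_lit 2271) l48 (.c (nat_lit 2613) l107 (.c (nat_lit 1992) l65 (.c (nat_lit 1633) l65 (.c (nat_lit 1572) l50 (.c (nat_lit 2625) l63 u1_136))))))))))))))))))))))))))))))))))))))))
noncomputable def u1_138 : St := (.c (nat_lit 2397) l50 (.c (nat_lit 1435) l42 (.c (nat_lit 2503) l107 (.c (nat_lit 2658) l70 (.c (nat_lit 2423) l108 (.c (nat_lit 1140) l50 (.c (nat_lit 2306) l108 (.c (nat_lit 2090) l42 (.c (nat_lit 1920) l42 (.c (nat_lit 2007) l74 (.c (nat_lit 2512) l49 (.c (nat_lit 2440) l65 (.c (nat_lit 1648) l42 (.c (nat_lit 2628) l69 (.c (nat_lit 1529) l1 (.c (nat_lit 2379) l1 (.c (nat_lit 1275) l50 (.c (nat_lit 1650) l65 (.c (nat_lit 1751) l42 (.c (nat_lit 1575)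 l42 (.c (nat_lit 2299) l78 (.c (nat_lit 1728) l42 (.c (nat_lit 1410) l42 (.c (nat_lit 1644) l50 (.c (nat_lit 1655) l65 (.c (nat_lit 871) l42 (.c (nat_lit 2506) l118 (.c (nat_lit 2624) l97 (.c (nat_lit 2571) l65 (.c (nat_lit 2574) l65 (.c (nat_lit 2353) l49 (.c (nat_lit 2143) l42 (.c (nat_lit 1341) l42 (.c (nat_lit 2005) l49 (.c (nat_lit 2576) l114 (.c (nat_lit 1796) l42 (.c (nat_lit 2005) l48 (.c (nat_lit 2546) l74 (.c (nat_lit 1891) l49 (.c (nat_lit 2341) l50 u1_137))))))))))))))))))))))))))))))))))))))))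
noncomputable def u1_139 : St := (.c (nat_lit 2231) l65 (.c (nat_lit 2624) l69 (.c (nat_lit 2571) l97 (.c (nat_lit 2575) l160 (.c (nat_lit 2506) l63 (.c (nat_lit 2624) l65 (.c (nat_lit 2625) l78 (.c (nat_lit 2172) l74 (.c (nat_lit 2575) l74 (.c (nat_lit 1825) l42 (.c (nat_lit 2423) l74 (.c (nat_lit 2503) l49 (.c (nat_lit 2660) l97 (.c (nat_lit 2100) l50 (.c (nat_lit 2110) l50 (.c (nat_lit 2209) l50 (.c (nat_lit 2567) l50 (.c (nat_lit 2484) l65 (.c (nat_lit 2613) l69 (.c (nat_lit 2572) l65 (.c (nat_lit 2110) l65 (.c (nat_lit 2624) l141 (.c (nat_lit 1529) l65 (.c (nat_lit 2203) l50 (.c (nat_lit 2207) l65 (.c (nat_lit 2180) l50 (.c (nat_lit 1158) l50 (.c (nat_lit 2204) l49 (.c (nat_lit 1295) l42 (.c (nat_lit 2353) l52 (.c (nat_lit 1877) l69 (.c (nat_lit 2202) l50 (.c (nat_lit 2231) l50 (.c (nat_lit 2180) l65 (.c (nat_lit 1873) l50 (.c (nat_lit 1849) l50 (.c (nat_lit 2618) l97 (.c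 (nat_lit 1909) l50 (.c (nat_lit 1640) l42 (.c (nat_lit 2381) l50 u1_138))))))))))))))))))))))))))))))))))))))))
noncomputable def u1_140 : St := (.c (nat_lit 2110) l50 (.c (nat_lit 1713) l42 (.c (nat_lit 2379) l1 (.c (nat_lit 2092) l42 (.c (nat_lit 817) l42 (.c (nat_lit 1575) l42 (.c (nat_lit 2138) l1 (.c (nat_lit 2642) l79 (.c (nat_lit 2143) l42 (.c (nat_lit 1341) l42 (.c (nat_lit 1155) l1 (.c (nat_lit 942) l42 (.c (nat_lit 2038) l50 (.c (nat_lit 2642) l70 .e))))))))))))))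
noncomputable def u1_141 : St := (.c (nat_lit 2423) l231 (.c (nat_lit 2271) l52 (.c (nat_lit 2302) l52 (.c (nat_lit 869) l42 (.c (nat_lit 817) l53 (.c (nat_lit 1966) l49 (.c (nat_lit 917) l42 (.c (nat_lit 2300) l157 (.c (nat_lit 2271) l48 (.c (nat_lit 1991) l63 (.c (nat_lit 1992) l65 (.c (nat_lit 1633) l65 (.c (nat_lit 1572) l50 (.c (nat_lit 1991) l48 .e))))))))))))))
noncomputable def u1_142 : St := (.c (nat_lit 2296) l48 (.c (nat_lit 2624) l65 (.c (nat_lit 2625) l78 (.c (nat_lit 2506) l78 (.c (nat_lit 2302) l49 (.c (nat_lit 2503) l69 (.c (nat_lit 2624) l141 (.c (nat_lit 1984) l53 (.c (nat_lit 2296) l49 (.c (nat_lit 1295) l42 (.c (nat_lit 2618) l97 (.c (nat_lit 1640) l42 (.c (nat_lit 2501) l74 (.c (nat_lit 1435) l42 (.c (nat_lit 2503) l107 (.c (nat_lit 2700) l79 (.c (nat_lit 2306) l108 (.c (nat_lit 2625) l118 (.c (nat_lit 1648) l42 (.c (nat_lit 1529) l1 (.c (nat_lit 2296) l52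 (.c (nat_lit 2299) l78 (.c (nat_lit 1410) l42 (.c (nat_lit 871) l42 (.c (nat_lit 2506) l118 (.c (nat_lit 1298) l53 (.c (nat_lit 2700) l114 (.c (nat_lit 2624) l97 (.c (nat_lit 2353) l49 (.c (nat_lit 915) l42 (.c (nat_lit 2576) l114 (.c (nat_lit 2005) l48 (.c (nat_lit 2005) l63 (.c (nat_lit 2302) l48 (.c (nat_lit 1656) l74 (.c (nat_lit 2501) l108 (.c (nat_lit 2618) l141 (.c (nat_lit 1155) l1 (.c (nat_lit 2505) l179 (.c (nat_lit 1991) l52 u1_141))))))))))))))))))))))))))))))))))))))))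
noncomputable def u1_143 : St := (.c (nat_lit 2658) l104 (.c (nat_lit 2499) l52 (.c (nat_lit 1969) l52 (.c (nat_lit 1611) l74 (.c (nat_lit 1991) l52 (.c (nat_lit 942) l42 (.c (nat_lit 1916) l1 (.c (nat_lit 2302) l52 (.c (nat_lit 1629) l74 (.c (nat_lit 2005) l52 (.c (nat_lit 869) l42 (.c (nat_lit 2032) l1 (.c (nat_lit 817) l53 (.c (nat_lit 1849) l65 (.c (nat_lit 2499) l48 (.c (nat_lit 909) l1 (.c (nat_lit 2300) l157 (.c (nat_lit 1524) l65 (.c (nat_lit 1985) l42 (.c (nat_lit 1889) l65 (.c (nat_lit 1969) l63 (.c (nat_lit 2412) l65 (.c (nat_lit 2613) l107 .e)))))))))))))))))))))))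
noncomputable def u1_144 : St := (.c (nat_lit 2628) l69 (.c (nat_lit 1529) l1 (.c (nat_lit 2379) l1 (.c (nat_lit 1275) l50 (.c (nat_lit 2092) l42 (.c (nat_lit 2296) l52 (.c (nat_lit 1575) l42 (.c (nat_lit 2299) l78 (.c (nat_lit 2185) l49 (.c (nat_lit 1410) l42 (.c (nat_lit 1644) l50 (.c (nat_lit 871) l42 (.c (nat_lit 2642) l79 (.c (nat_lit 2506) l118 (.c (nat_lit 1298) l53 (.c (nat_lit 2700) l114 (.c (nat_lit 2624) l97 (.c (nat_lit 2573) l69 (.c (nat_lit 2353) l49 (.c (nat_lit 915) l42 (.c (nat_lit 2501) l69 (.c (nat_lit 2005) l49 (.c (nat_lit 1991) l49 (.c (nat_lit 2505) l108 (.c (nat_lit 2005) l63 (.c (nat_lit 2302) l48 (.c (nat_lit 1891) l49 (.c (nat_lit 2341) l50 (.c (nat_lit 1890) l65 (.c (nat_lit 2353) l48 (.c (nat_lit 2210) l49 (.c (nat_lit 2501) l108 (.c (nat_lit 2503) l159 (.c (nat_lit 2506) l91 (.c (nat_lit 2618) l141 (.c (nat_lit 1155) l1 (.c (nat_lit 579) l42 (.c (nat_lit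 2659) l69 (.c (nat_lit 1454) l42 (.c (nat_lit 2020) l50 u1_143))))))))))))))))))))))))))))))))))))))))
noncomputable def u1_145 : St := (.c (nat_lit 2296) l48 (.c (nat_lit 2684) l160 (.c (nat_lit 2684) l74 (.c (nat_lit 2575) l160 (.c (nat_lit 2506) l63 (.c (nat_lit 2624) l65 (.c (nat_lit 2506) l78 (.c (nat_lit 2302) l49 (.c (nat_lit 2423) l74 (.c (nat_lit 2503) l49 (.c (nat_lit 2110) l50 (.c (nat_lit 2695) l181 (.c (nat_lit 2002) l42 (.c (nat_lit 2503) l69 (.c (nat_lit 2613) l69 (.c (nat_lit 2684) l108 (.c (nat_lit 2624) l141 (.c (nat_lit 1529) l65 (.c (nat_lit 1984) l53 (.c (nat_lit 2443) l49 (.c (nat_lit 2207) l65 (.c (nat_lit 1892) l65 (.c (nat_lit 2353) l52 (.c (nat_lit 1849) l50 (.c (nat_lit 2618) l97 (.c (nat_lit 1640) l42 (.c (nat_lit 1876) l50 (.c (nat_lit 2501) l74 (.c (nat_lit 1435) l42 (.c (nat_lit 2503) l107 (.c (nat_lit 2658) l70 (.c (nat_lit 1281) l42 (.c (nat_lit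 2700) l79 (.c (nat_lit 2423) l108 (.c (nat_lit 1920) l42 (.c (nat_lit 2624) l49 (.c (nat_lit 2512) l49 (.c (nat_lit 1275) l42 (.c (nat_lit 1648) l42 (.c (nat_lit 1713) l42 u1_144))))))))))))))))))))))))))))))))))))))))
noncomputable def u1_146 : St := (.c (nat_lit 1155) l1 (.c (nat_lit 2505) l179 (.c (nat_lit 2271) l52 (.c (nat_lit 2302) l52 (.c (nat_lit 869) l42 (.c (nat_lit 1966) l49 (.c (nat_lit 909) l1 (.c (nat_lit 917) l42 (.c (nat_lit 2300) l157 (.c (nat_lit 2271) l48 (.c (nat_lit 1991) l63 .e)))))))))))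
noncomputable def u1_147 : St := (.c (nat_lit 2296) l48 (.c (nat_lit 2624) l65 (.c (nat_lit 2625) l78 (.c (nat_lit 2718) l114 (.c (nat_lit 2724) l110 (.c (nat_lit 2302) l49 (.c (nat_lit 2611) l78 (.c (nat_lit 2503) l49 (.c (nat_lit 2724) l79 (.c (nat_lit 2724) l114 (.c (nat_lit 2724) l166 (.c (nat_lit 2695) l181 (.c (nat_lit 2503) l69 (.c (nat_lit 2624) l141 (.c (nat_lit 2296) l49 (.c (nat_lit 2618) l97 (.c (nat_lit 1640) l42 (.c (nat_lit 1435) l42 (.c (nat_lit 2503) l107 (.c (nat_lit 2700) l79 (.c (nat_lit 2306) l108 (.c (nat_lit 2007) l74 (.c (nat_lit 2625) l118 (.c (nat_lit 1648) l42 (.c (nat_lit 1529) l1 (.c (nat_lit 2660) l79 (.c (nat_lit 1650) l65 (.c (nat_lit 2296) l52 (.c (nat_lit 2299) l78 (.c (nat_lit 1410) l42 (.c (nat_lit 871) l42 (.c (nat_lit 2642) l79 (.c (nat_lit 2624) l97 (.c (nat_lit 2353) l49 (.c (nat_lit 1991) l49 (.c (nat_lit 2576) l114 (.c (nat_lit 2731) l228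 (.c (nat_lit 2302) l48 (.c (nat_lit 2503) l159 (.c (nat_lit 2618) l141 u1_146))))))))))))))))))))))))))))))))))))))))
noncomputable def u1_148 : St := (.c (nat_lit 909) l1 (.c (nat_lit 2271) l48 .e))
noncomputable def u1_149 : St := (.c (nat_lit 2296) l48 (.c (nat_lit 2624) l65 (.c (nat_lit 2625) l78 (.c (nat_lit 2506) l78 (.c (nat_lit 2302) l49 (.c (nat_lit 2503) l49 (.c (nat_lit 2624) l141 (.c (nat_lit 1984) l53 (.c (nat_lit 2296) l49 (.c (nat_lit 1295) l42 (.c (nat_lit 2618) l97 (.c (nat_lit 1640) l42 (.c (nat_lit 2501) l74 (.c (nat_lit 1435) l42 (.c (nat_lit 2700) l79 (.c (nat_lit 2306) l108 (.c (nat_lit 2625) l118 (.c (nat_lit 1648) l42 (.c (nat_lit 1529) l1 (.c (nat_lit 2296) l52 (.c (nat_lit 1410) l42 (.c (nat_lit 871) l42 (.c (nat_lit 2506) l118 (.c (nat_lit 1298) l53 (.c (nat_lit 2700) l114 (.c (nat_lit 2624) l97 (.c (nat_lit 2576) l114 (.c (nat_lit 2546) l74 (.c (nat_lit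 2302) l48 (.c (nat_lit 1656) l74 (.c (nat_lit 2501) l108 (.c (nat_lit 2503) l159 (.c (nat_lit 2618) l141 (.c (nat_lit 1155) l1 (.c (nat_lit 2505) l179 (.c (nat_lit 2423) l231 (.c (nat_lit 2271) l52 (.c (nat_lit 2302) l52 (.c (nat_lit 869) l42 (.c (nat_lit 1966) l49 u1_148))))))))))))))))))))))))))))))))))))))))
noncomputable def u1_150 : St := (.c (nat_lit 2501) l108 (.c (nat_lit 2506) l91 (.c (nat_lit 1155) l1 (.c (nat_lit 579) l42 (.c (nat_lit 1454) l42 (.c (nat_lit 1969) l52 (.c (nat_lit 1611) l74 (.c (nat_lit 1991) l52 (.c (nat_lit 942) l42 (.c (nat_lit 1916) l1 (.c (nat_lit 2423) l231 (.c (nat_lit 1629) l74 (.c (nat_lit 2032) l1 (.c (nat_lit 1966) l49 (.c (nat_lit 909) l1 (.c (nat_lit 1985) l42 (.c (nat_lit 1969) l63 .e)))))))))))))))))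
noncomputable def u1_151 : St := (.c (nat_lit 2684) l160 (.c (nat_lit 2684) l74 (.c (nat_lit 2506) l63 (.c (nat_lit 2625) l78 (.c (nat_lit 2718) l114 (.c (nat_lit 2724) l110 (.c (nat_lit 2506) l78 (.c (nat_lit 2611) l78 (.c (nat_lit 2724) l79 (.c (nat_lit 2724) l114 (.c (nat_lit 2724) l166 (.c (nat_lit 2002) l42 (.c (nat_lit 2503) l69 (.c (nat_lit 2684) l108 (.c (nat_lit 1984) l53 (.c (nat_lit 2296) l49 (.c (nat_lit 2501) l74 (.c (nat_lit 2503) l107 (.c (nat_lit 1281) l42 (.c (nat_lit 2700) l79 (.c (nat_lit 1920) l42 (.c (nat_lit 2007) l74 (.c (nat_lit 2625) l118 (.c (nat_lit 1275) l42 (.c (nat_lit 1713) l42 (.c (nat_lit 1275) l50 (.c (nat_lit 2092) l42 (.c (nat_lit 2660) l79 (.c (nat_lit 1650) l65 (.c (nat_lit 1575) l42 (.c (nat_lit 2299) l78 (.c (nat_lit 1644) l50 (.c (nat_lit 2506) l118 (.c (nat_lit 1298) l53 (.c (nat_lit 915) l42 (.c (nat_lit 1341) l42 (.c (nat_lit 2501) l69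 (.c (nat_lit 2499) l49 (.c (nat_lit 1991) l49 (.c (nat_lit 2731) l228 u1_150))))))))))))))))))))))))))))))))))))))))
noncomputable def u1_152 : St := (.c (nat_lit 2411) l63 (.c (nat_lit 1394) l42 (.c (nat_lit 2059) l74 (.c (nat_lit 2051) l42 (.c (nat_lit 2387) l69 (.c (nat_lit 2391) l78 (.c (nat_lit 1763) l65 (.c (nat_lit 2172) l74 (.c (nat_lit 2113) l65 (.c (nat_lit 2345) l53 (.c (nat_lit 2421) l78 (.c (nat_lit 2170) l63 (.c (nat_lit 2693) l87 (.c (nat_lit 2418) l48 (.c (nat_lit 2550) l74 (.c (nat_lit 2117) l78 (.c (nat_lit 2411) l48 (.c (nat_lit 2693) l91 (.c (nat_lit 2572) l65 (.c (nat_lit 2110) l65 (.c (nat_lit 2566) l65 (.c (nat_lit 2103) l50 (.c (nat_lit 2698) l105 (.c (nat_lit 1435) l42 (.c (nat_lit 778) l50 (.c (nat_lit 2564) l49 (.c (nat_lit 1813) l42 (.c (nat_lit 1396) l42 (.c (nat_lit 1433) l42 (.c (nat_lit 2698) l101 (.c (nat_lit 2020) l50 (.c (nat_lit 2564) l69 (.c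 (nat_lit 2572) l97 (.c (nat_lit 2566) l108 (.c (nat_lit 2566) l160 (.c (nat_lit 2059) l53 (.c (nat_lit 2566) l97 .e)))))))))))))))))))))))))))))))))))))
noncomputable def u1_153 : St := (.c (nat_lit 2575) l171 (.c (nat_lit 2005) l52 (.c (nat_lit 2032) l1 (.c (nat_lit 817) l53 (.c (nat_lit 917) l42 (.c (nat_lit 1985) l42 .e))))))
noncomputable def u1_154 : St := (.c (nat_lit 2684) l160 (.c (nat_lit 2684) l74 (.c (nat_lit 2575) l160 (.c (nat_lit 2625) l78 (.c (nat_lit 2718) l114 (.c (nat_lit 2724) l110 (.c (nat_lit 2506) l78 (.c (nat_lit 2172) l74 (.c (nat_lit 2575) l74 (.c (nat_lit 2423) l74 (.c (nat_lit 2611) l78 (.c (nat_lit 2724) l79 (.c (nat_lit 2724) l114 (.c (nat_lit 2724) l166 (.c (nat_lit 2002) l42 (.c (nat_lit 2684) l108 (.c (nat_lit 1295) l42 (.c (nat_lit 1281) l42 (.c (nat_lit 2700) l79 (.c (nat_lit 2423) l108 (.c (nat_lit 2306) l108 (.c (nat_lit 1920) l42 (.c (nat_lit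 2007) l74 (.c (nat_lit 2625) l118 (.c (nat_lit 1275) l42 (.c (nat_lit 1713) l42 (.c (nat_lit 2092) l42 (.c (nat_lit 2660) l79 (.c (nat_lit 1650) l65 (.c (nat_lit 1575) l42 (.c (nat_lit 2506) l118 (.c (nat_lit 1298) l53 (.c (nat_lit 1341) l42 (.c (nat_lit 2005) l49 (.c (nat_lit 2731) l228 (.c (nat_lit 2005) l63 (.c (nat_lit 579) l42 (.c (nat_lit 2505) l179 (.c (nat_lit 1454) l42 (.c (nat_lit 1916) l1 u1_153))))))))))))))))))))))))))))))))))))))))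
noncomputable def u1_155 : St := (.c (nat_lit 2502) l97 (.c (nat_lit 1825) l42 (.c (nat_lit 1295) l42 (.c (nat_lit 2090) l42 (.c (nat_lit 1920) l42 (.c (nat_lit 1575) l42 (.c (nat_lit 1728) l42 (.c (nat_lit 2143) l42 (.c (nat_lit 1341) l42 (.c (nat_lit 1796) l42 (.c (nat_lit 1433) l42 (.c (nat_lit 579) l42 (.c (nat_lit 1916) l1 (.c (nat_lit 2502) l152 .e))))))))))))))
noncomputable def u1_156 : St := (.c (nat_lit 579) l42 (.c (nat_lit 2499) l52 (.c (nat_lit 942) l42 (.c (nat_lit 2423) l231 (.c (nat_lit 2302) l52 (.c (nat_lit 869) l42 (.c (nat_lit 1877) l49 (.c (nat_lit 1966) l49 (.c (nat_lit 2499) l48 .e)))))))))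
noncomputable def u1_157 : St := (.c (nat_lit 2296) l48 (.c (nat_lit 2506) l63 (.c (nat_lit 2624) l65 (.c (nat_lit 2625) l78 (.c (nat_lit 2302) l49 (.c (nat_lit 2624) l141 (.c (nat_lit 2443) l49 (.c (nat_lit 2353) l52 (.c (nat_lit 2618) l97 (.c (nat_lit 1640) l42 (.c (nat_lit 2700) l79 (.c (nat_lit 2306) l108 (.c (nat_lit 2007) l74 (.c (nat_lit 2625) l118 (.c (nat_lit 2624) l49 (.c (nat_lit 1648) l42 (.c (nat_lit 1529) l1 (.c (nat_lit 1275) l50 (.c (nat_lit 1650) l65 (.c (nat_lit 2296) l52 (.c (nat_lit 1410) l42 (.c (nat_lit 1644) l50 (.c (nat_lit 1655) l65 (.c (nat_lit 871) l42 (.c (nat_lit 1298) l53 (.c (nat_lit 2700) l114 (.c (nat_lit 2624) l97 (.c (nat_lit 2353) l49 (.c (nat_lit 2501) l69 (.c (nat_lit 2499) l49 (.c (nat_lit 1991) l49 (.c (nat_lit 2005) l48 (.c (nat_lit 2005) l63 (.c (nat_lit 2232) l49 (.c (nat_lit 2302) l48 (.c (nat_lit 1656) l74 (.c (nat_lit 2353) l48 (.c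 (nat_lit 2210) l49 (.c (nat_lit 2506) l91 (.c (nat_lit 2618) l141 u1_156))))))))))))))))))))))))))))))))))))))))
noncomputable def u1_158 : St := (.c (nat_lit 2501) l69 (.c (nat_lit 2005) l49 (.c (nat_lit 2576) l114 (.c (nat_lit 1796) l42 (.c (nat_lit 2005) l48 (.c (nat_lit 2005) l63 (.c (nat_lit 2546) l74 (.c (nat_lit 2232) l49 (.c (nat_lit 2302) l48 (.c (nat_lit 2581) l97 (.c (nat_lit 1890) l65 (.c (nat_lit 1656) l74 (.c (nat_lit 2353) l48 (.c (nat_lit 2694) l97 (.c (nat_lit 2717) l100 (.c (nat_lit 2484) l97 (.c (nat_lit 2211) l65 (.c (nat_lit 2506) l91 (.c (nat_lit 2538) l65 (.c (nat_lit 2443) l69 (.c (nat_lit 2698) l101 (.c (nat_lit 2505) l179 (.c (nat_lit 1454) l42 (.c (nat_lit 2020) l50 (.c (nat_lit 2564) l69 (.c (nat_lit 942) l42 (.c (nat_lit 2302) l52 (.c (nat_lit 2656) l65 (.c (nat_lit 869) l42 (.c (nat_lit 1877) l49 (.c (nat_lit 2724) l152 .e)))))))))))))))))))))))))))))))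
noncomputable def u1_159 : St := (.c (nat_lit 2728) l250 (.c (nat_lit 1245) l42 (.c (nat_lit 2512) l49 (.c (nat_lit 2643) l104 (.c (nat_lit 2434) l49 (.c (nat_lit 2564) l49 (.c (nat_lit 2675) l97 (.c (nat_lit 1968) l42 (.c (nat_lit 1883) l1 (.c (nat_lit 2154) l42 (.c (nat_lit 1652) l42 (.c (nat_lit 1997) l42 (.c (nat_lit 1275) l42 (.c (nat_lit 2458) l1 (.c (nat_lit 1808) l42 (.c (nat_lit 1713) l42 (.c (nat_lit 2643) l70 (.c (nat_lit 2058) l42 (.c (nat_lit 1323) l42 (.c (nat_lit 1611) l42 (.c (nat_lit 1813) l42 (.c (nat_lit 1235) l42 (.c (nat_lit 1869) l1 (.c (nat_lit 2379) l1 (.c (nat_lit 1708) l42 (.c (nat_lit 1239) l42 (.c (nat_lit 1650) l65 (.c (nat_lit 1693) l42 (.c (nat_lit 817) l42 (.c (nat_lit 1575) l42 (.c (nat_lit 2185) l49 (.c (nat_lit 2699) l65 (.c (nat_lit 2138) l1 (.c (nat_lit 1728) l42 (.c (nat_lit 1410) l42 (.c (nat_lit 2027) l1 (.c (nat_lit 871) l42 (.c (nat_lit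 2700) l114 (.c (nat_lit 915) l42 (.c (nat_lit 1341) l42 u1_158))))))))))))))))))))))))))))))))))))))))
noncomputable def u1_160 : St := (.c (nat_lit 1873) l50 (.c (nat_lit 1610) l65 (.c (nat_lit 2682) l159 (.c (nat_lit 1849) l50 (.c (nat_lit 2694) l207 (.c (nat_lit 2281) l65 (.c (nat_lit 2730) l159 (.c (nat_lit 2725) l104 (.c (nat_lit 1570) l42 (.c (nat_lit 2685) l176 (.c (nat_lit 1640) l42 (.c (nat_lit 2696) l70 (.c (nat_lit 2384) l65 (.c (nat_lit 2381) l50 (.c (nat_lit 2685) l147 (.c (nat_lit 2693) l70 (.c (nat_lit 2397) l50 (.c (nat_lit 2698) l105 (.c (nat_lit 2011) l50 (.c (nat_lit 1876) l50 (.c (nat_lit 2629) l1 (.c (nat_lit 1435) l42 (.c (nat_lit 1609) l42 (.c (nat_lit 2658) l70 (.c (nat_lit 1281) l42 (.c (nat_lit 2700) l79 (.c (nat_lit 2407) l42 (.c (nat_lit 2104) l50 (.c (nat_lit 1129) l50 (.c (nat_lit 1140) l50 (.c (nat_lit 1745) l50 (.c (nat_lit 778) l50 (.c (nat_lit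 2306) l108 (.c (nat_lit 2090) l42 (.c (nat_lit 802) l42 (.c (nat_lit 2102) l42 (.c (nat_lit 1920) l42 (.c (nat_lit 2007) l74 (.c (nat_lit 2625) l118 (.c (nat_lit 2624) l49 u1_159))))))))))))))))))))))))))))))))))))))))
noncomputable def u1_161 : St := (.c (nat_lit 2484) l65 (.c (nat_lit 2213) l65 (.c (nat_lit 2110) l65 (.c (nat_lit 2636) l69 (.c (nat_lit 2429) l65 (.c (nat_lit 2725) l100 (.c (nat_lit 2680) l97 (.c (nat_lit 2614) l65 (.c (nat_lit 2624) l141 (.c (nat_lit 2675) l141 (.c (nat_lit 2694) l141 (.c (nat_lit 1529) l65 (.c (nat_lit 2428) l50 (.c (nat_lit 2203) l50 (.c (nat_lit 2725) l107 (.c (nat_lit 2437) l65 (.c (nat_lit 2525) l50 (.c (nat_lit 2189) l65 (.c (nat_lit 2296) l49 (.c (nat_lit 2280) l42 (.c (nat_lit 2599) l50 (.c (nat_lit 2491) l65 (.c (nat_lit 2599) l65 (.c (nat_lit 2203) l65 (.c (nat_lit 2207) l65 (.c (nat_lit 2462) l65 (.c (nat_lit 1158) l50 (.c (nat_lit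 2204) l49 (.c (nat_lit 2071) l42 (.c (nat_lit 2068) l42 (.c (nat_lit 2271) l42 (.c (nat_lit 2353) l52 (.c (nat_lit 2624) l207 (.c (nat_lit 1148) l42 (.c (nat_lit 1877) l69 (.c (nat_lit 2179) l50 (.c (nat_lit 2231) l50 (.c (nat_lit 2184) l50 (.c (nat_lit 2180) l65 (.c (nat_lit 2682) l107 u1_160))))))))))))))))))))))))))))))))))))))))
noncomputable def u1_162 : St := (.c (nat_lit 2502) l65 (.c (nat_lit 2683) l65 (.c (nat_lit 2720) l97 (.c (nat_lit 2712) l65 (.c (nat_lit 2263) l65 (.c (nat_lit 2580) l49 (.c (nat_lit 2694) l65 (.c (nat_lit 2612) l97 (.c (nat_lit 2724) l97 (.c (nat_lit 2708) l69 (.c (nat_lit 2680) l65 (.c (nat_lit 2708) l49 (.c (nat_lit 2334) l65 (.c (nat_lit 2683) l157 (.c (nat_lit 2675) l50 (.c (nat_lit 2730) l107 (.c (nat_lit 2506) l63 (.c (nat_lit 2730) l157 (.c (nat_lit 2681) l65 (.c (nat_lit 2625) l78 (.c (nat_lit 2513) l65 (.c (nat_lit 1260) l42 (.c (nat_lit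 2065) l42 (.c (nat_lit 2664) l65 (.c (nat_lit 2580) l69 (.c (nat_lit 1942) l42 (.c (nat_lit 2700) l97 (.c (nat_lit 2713) l157 (.c (nat_lit 2302) l49 (.c (nat_lit 2673) l69 (.c (nat_lit 2728) l73 (.c (nat_lit 2673) l49 (.c (nat_lit 2000) l42 (.c (nat_lit 1825) l42 (.c (nat_lit 2647) l65 (.c (nat_lit 2434) l65 (.c (nat_lit 2429) l50 (.c (nat_lit 2110) l50 (.c (nat_lit 2209) l50 (.c (nat_lit 2656) l97 u1_161))))))))))))))))))))))))))))))))))))))))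
noncomputable def u1_163 : St := (.c (nat_lit 2642) l79 (.c (nat_lit 784) l1 (.c (nat_lit 2143) l42 (.c (nat_lit 1341) l42 (.c (nat_lit 2501) l108 (.c (nat_lit 1155) l1 (.c (nat_lit 2295) l53 (.c (nat_lit 2297) l53 (.c (nat_lit 1991) l52 (.c (nat_lit 942) l42 (.c (nat_lit 698) l42 (.c (nat_lit 1160) l53 (.c (nat_lit 2302) l52 (.c (nat_lit 2385) l108 (.c (nat_lit 2159) l74 (.c (nat_lit 2566) l179 (.c (nat_lit 2300) l179 (.c (nat_lit 2626) l79 (.c (nat_lit 1993) l74 (.c (nat_lit 2302) l78 (.c (nat_lit 1810) l74 (.c (nat_lit 2156) l74 (.c (nat_lit 1990) l74 (.c (nat_lit 1004) l42 (.c (nat_lit 2416) l179 (.c (nat_lit 2391) l108 (.c (nat_lit 1832) l53 (.c (nat_lit 1804) l53 (.c (nat_lit 2005) l52 (.c (nat_lit 817) l53 (.c (nat_lit 2642) l81 .e)))))))))))))))))))))))))))))))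
noncomputable def u1_164 : St := (.c (nat_lit 1394) l42 (.c (nat_lit 2385) l74 (.c (nat_lit 2391) l74 (.c (nat_lit 2048) l42 (.c (nat_lit 1984) l53 (.c (nat_lit 1710) l42 (.c (nat_lit 2301) l53 (.c (nat_lit 2624) l108 (.c (nat_lit 2626) l70 (.c (nat_lit 1758) l42 (.c (nat_lit 1713) l42 (.c (nat_lit 1743) l42 (.c (nat_lit 1426) l42 (.c (nat_lit 2155) l53 (.c (nat_lit 2273) l53 (.c (nat_lit 2078) l53 (.c (nat_lit 1618) l53 (.c (nat_lit 2379) l1 (.c (nat_lit 1277) l42 (.c (nat_lit 2092) l42 (.c (nat_lit 1199) l42 (.c (nat_lit 856) l42 (.c (nat_lit 1239) l42 (.c (nat_lit 1270) l42 (.c (nat_lit 1167) l1 (.c (nat_lit 817) l42 (.c (nat_lit 2296) l52 (.c (nat_lit 1575) l42 (.c (nat_lit 1135) l1 (.c (nat_lit 2299) l78 (.c (nat_lit 786) l1 (.c (nat_lit 790) l42 (.c (nat_lit 911) l42 (.c (nat_lit 645) l1 (.c (nat_lit 1396) l42 (.c (nat_lit 1272) l42 (.c (nat_lit 2300) l108 (.c (nat_lit 2138)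 l1 (.c (nat_lit 2200) l1 (.c (nat_lit 536) l42 u1_163))))))))))))))))))))))))))))))))))))))))
noncomputable def u1_165 : St := (.c (nat_lit 2416) l108 (.c (nat_lit 2541) l78 (.c (nat_lit 2382) l74 (.c (nat_lit 1828) l53 (.c (nat_lit 2000) l74 (.c (nat_lit 1624) l53 (.c (nat_lit 1993) l74 (.c (nat_lit 2302) l78 (.c (nat_lit 2651) l110 (.c (nat_lit 2512) l48 (.c (nat_lit 2406) l53 (.c (nat_lit 1810) l74 (.c (nat_lit 2488) l78 (.c (nat_lit 2085) l53 (.c (nat_lit 1990) l74 (.c (nat_lit 1942) l74 (.c (nat_lit 1004) l42 (.c (nat_lit 2416) l179 (.c (nat_lit 1439) l53 (.c (nat_lit 817) l53 (.c (nat_lit 2717) l117 .e)))))))))))))))))))))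
noncomputable def u1_166 : St := (.c (nat_lit 2390) l141 (.c (nat_lit 2208) l97 (.c (nat_lit 2296) l52 (.c (nat_lit 1137) l42 (.c (nat_lit 2299) l78 (.c (nat_lit 1891) l63 (.c (nat_lit 786) l1 (.c (nat_lit 2503) l91 (.c (nat_lit 2560) l104 (.c (nat_lit 994) l50 (.c (nat_lit 1966) l48 (.c (nat_lit 2573) l140 (.c (nat_lit 1966) l63 (.c (nat_lit 1368) l42 (.c (nat_lit 1396) l42 (.c (nat_lit 2185) l49 (.c (nat_lit 2027) l1 (.c (nat_lit 2717) l100 (.c (nat_lit 2312) l49 (.c (nat_lit 2362) l53 (.c (nat_lit 2544) l78 (.c (nat_lit 2148) l53 (.c (nat_lit 2564) l69 (.c (nat_lit 2499) l52 (.c (nat_lit 1611) l74 (.c (nat_lit 1991) l52 (.c (nat_lit 698) l42 (.c (nat_lit 2562) l74 (.c (nat_lit 2719) l110 (.c (nat_lit 2302) l52 (.c (nat_lit 2413) l53 (.c (nat_lit 2305) l74 (.c (nat_lit 2655) l118 (.c (nat_lit 2564) l63 (.c (nat_lit 2271) l78 (.c (nat_lit 1629) l74 (.c (nat_lit 2560) l114 (.c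 (nat_lit 2659) l179 (.c (nat_lit 2107) l74 (.c (nat_lit 2157) l52 u1_165))))))))))))))))))))))))))))))))))))))))
noncomputable def u1_167 : St := (.c (nat_lit 2717) l167 (.c (nat_lit 2503) l69 (.c (nat_lit 2214) l108 (.c (nat_lit 814) l42 (.c (nat_lit 2444) l141 (.c (nat_lit 2488) l52 (.c (nat_lit 2715) l100 (.c (nat_lit 1544) l42 (.c (nat_lit 2696) l100 (.c (nat_lit 1377) l50 (.c (nat_lit 2262) l52 (.c (nat_lit 2652) l160 (.c (nat_lit 2204) l49 (.c (nat_lit 2697) l79 (.c (nat_lit 1229) l42 (.c (nat_lit 2477) l52 (.c (nat_lit 488) l42 (.c (nat_lit 2312) l48 (.c (nat_lit 2696) l117 (.c (nat_lit 2204) l48 (.c (nat_lit 2351) l74 (.c (nat_lit 1811) l42 (.c (nat_lit 2558) l152 (.c (nat_lit 2696) l70 (.c (nat_lit 1878) l65 (.c (nat_lit 2503) l107 (.c (nat_lit 1942) l53 (.c (nat_lit 2696) l81 (.c (nat_lit 1507) l42 (.c (nat_lit 2512) l49 (.c (nat_lit 2643) l104 (.c (nat_lit 2004) l53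 (.c (nat_lit 1581) l2 (.c (nat_lit 2643) l70 (.c (nat_lit 2651) l79 (.c (nat_lit 1661) l1 (.c (nat_lit 1508) l1 (.c (nat_lit 2661) l63 (.c (nat_lit 2697) l104 (.c (nat_lit 1749) l42 u1_166))))))))))))))))))))))))))))))))))))))))
noncomputable def u1_168 : St := (.c (nat_lit 2185) l48 (.c (nat_lit 2719) l49 (.c (nat_lit 2404) l74 (.c (nat_lit 2664) l78 (.c (nat_lit 2664) l52 (.c (nat_lit 2541) l74 (.c (nat_lit 2726) l110 (.c (nat_lit 2654) l42 (.c (nat_lit 2721) l70 (.c (nat_lit 2721) l147 (.c (nat_lit 2635) l78 (.c (nat_lit 2726) l114 (.c (nat_lit 2687) l49 (.c (nat_lit 2728) l178 (.c (nat_lit 2582) l78 (.c (nat_lit 2728) l77 (.c (nat_lit 2659) l74 (.c (nat_lit 2655) l78 (.c (nat_lit 2687) l48 (.c (nat_lit 2661) l69 (.c (nat_lit 2214) l179 (.c (nat_lit 2307) l1 (.c (nat_lit 2558) l65 (.c (nat_lit 2721) l104 (.c (nat_lit 2697) l70 (.c (nat_lit 2728) l154 (.c (nat_lit 2503) l63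 (.c (nat_lit 2719) l48 (.c (nat_lit 2728) l73 (.c (nat_lit 2113) l65 (.c (nat_lit 2573) l48 (.c (nat_lit 2213) l69 (.c (nat_lit 2721) l100 (.c (nat_lit 1891) l52 (.c (nat_lit 2312) l52 (.c (nat_lit 2210) l52 (.c (nat_lit 2637) l52 (.c (nat_lit 2731) l203 (.c (nat_lit 2544) l52 (.c (nat_lit 2509) l1 u1_167))))))))))))))))))))))))))))))))))))))))
noncomputable def u1_169 : St := (.c (nat_lit 2501) l108 (.c (nat_lit 1155) l1 (.c (nat_lit 2148) l53 (.c (nat_lit 2295) l53 (.c (nat_lit 2297) l53 (.c (nat_lit 1991) l52 (.c (nat_lit 698) l42 (.c (nat_lit 1937) l53 (.c (nat_lit 1160) l53 (.c (nat_lit 2302) l52 (.c (nat_lit 994) l1 (.c (nat_lit 1629) l74 (.c (nat_lit 2385) l108 (.c (nat_lit 1713) l53 (.c (nat_lit 2165) l53 (.c (nat_lit 2105) l48 (.c (nat_lit 2560) l114 (.c (nat_lit 2659) l179 (.c (nat_lit 2107) l74 (.c (nat_lit 2391) l231 (.c (nat_lit 2157) l78 (.c (nat_lit 2150) l74 (.c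 (nat_lit 2416) l108 (.c (nat_lit 2566) l179 (.c (nat_lit 2382) l74 (.c (nat_lit 1987) l74 (.c (nat_lit 1828) l53 (.c (nat_lit 2000) l74 (.c (nat_lit 2626) l79 (.c (nat_lit 1624) l53 (.c (nat_lit 2302) l78 (.c (nat_lit 1942) l74 (.c (nat_lit 1004) l42 (.c (nat_lit 2059) l53 (.c (nat_lit 2391) l108 (.c (nat_lit 1804) l53 (.c (nat_lit 1439) l53 (.c (nat_lit 869) l42 (.c (nat_lit 1666) l42 .e)))))))))))))))))))))))))))))))))))))))
noncomputable def u1_170 : St := (.c (nat_lit 1781) l42 (.c (nat_lit 2385) l74 (.c (nat_lit 2659) l74 (.c (nat_lit 2391) l74 (.c (nat_lit 2048) l42 (.c (nat_lit 1984) l53 (.c (nat_lit 1710) l42 (.c (nat_lit 1811) l42 (.c (nat_lit 2301) l53 (.c (nat_lit 2624) l108 (.c (nat_lit 2626) l70 (.c (nat_lit 1942) l53 (.c (nat_lit 1758) l42 (.c (nat_lit 1387) l42 (.c (nat_lit 2415) l74 (.c (nat_lit 2273) l53 (.c (nat_lit 2078) l53 (.c (nat_lit 1618) l53 (.c (nat_lit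 1277) l42 (.c (nat_lit 1199) l42 (.c (nat_lit 856) l42 (.c (nat_lit 1239) l42 (.c (nat_lit 1270) l42 (.c (nat_lit 1167) l1 (.c (nat_lit 989) l42 (.c (nat_lit 2296) l52 (.c (nat_lit 1135) l1 (.c (nat_lit 2299) l78 (.c (nat_lit 790) l42 (.c (nat_lit 1368) l42 (.c (nat_lit 911) l42 (.c (nat_lit 1396) l42 (.c (nat_lit 1272) l42 (.c (nat_lit 2484) l179 (.c (nat_lit 1002) l42 (.c (nat_lit 2200) l1 (.c (nat_lit 536) l42 (.c (nat_lit 871) l42 (.c (nat_lit 992) l1 (.c (nat_lit 1377) l1 u1_169))))))))))))))))))))))))))))))))))))))))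
noncomputable def u1_171 : St := (.c (nat_lit 1140) l50 (.c (nat_lit 1745) l50 (.c (nat_lit 2448) l104 (.c (nat_lit 2214) l70 (.c (nat_lit 2300) l79 (.c (nat_lit 2308) l50 (.c (nat_lit 1652) l42 (.c (nat_lit 2458) l1 (.c (nat_lit 2596) l1 (.c (nat_lit 1702) l42 (.c (nat_lit 1632) l42 (.c (nat_lit 1615) l42 (.c (nat_lit 2484) l79 (.c (nat_lit 1647) l53 (.c (nat_lit 2646) l80 (.c (nat_lit 2542) l79 (.c (nat_lit 2638) l70 (.c (nat_lit 2273) l53 (.c (nat_lit 1813) l42 (.c (nat_lit 2416) l79 (.c (nat_lit 1661) l1 (.c (nat_lit 1470) l1 (.c (nat_lit 896) l42 (.c (nat_lit 2613) l114 (.c (nat_lit 1693) l42 (.c (nat_lit 1751) l42 (.c (nat_lit 2138) l1 (.c (nat_lit 2358) l53 (.c (nat_lit 1179) l42 (.c (nat_lit 1562) l42 (.c (nat_lit 2200) l1 (.c (nat_lit 2237) l42 (.c (nat_lit 1424) l42 (.c (nat_lit 2732) l268 (.c (nat_lit 2032) l1 .e)))))))))))))))))))))))))))))))))))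
noncomputable def u1_172 : St := (.c (nat_lit 2618) l70 (.c (nat_lit 2707) l104 (.c (nat_lit 2707) l114 (.c (nat_lit 2601) l141 (.c (nat_lit 2710) l117 (.c (nat_lit 2175) l1 (.c (nat_lit 2681) l104 (.c (nat_lit 2491) l141 (.c (nat_lit 2707) l70 (.c (nat_lit 2709) l110 (.c (nat_lit 2708) l100 (.c (nat_lit 2668) l100 (.c (nat_lit 2722) l67 (.c (nat_lit 2493) l104 (.c (nat_lit 2677) l64 (.c (nat_lit 2453) l65 (.c (nat_lit 2732) l280 (.c (nat_lit 2623) l117 (.c (nat_lit 1512) l50 (.c (nat_lit 2462) l141 (.c (nat_lit 2707) l79 (.c (nat_lit 2732) l301 (.c (nat_lit 1956) l42 (.c (nat_lit 2708) l73 (.c (nat_lit 2691) l110 (.c (nat_lit 2586) l141 (.c (nat_lit 2277) l1 (.c (nat_lit 2186) l50 (.c (nat_lit 2707) l100 (.c (nat_lit 1949) l42 (.c (nat_lit 1953) l42 (.c (nat_lit 2286) l1 (.c (nat_lit 2503) l114 (.c (nat_lit 1959) l74 (.c (nat_lit 1497) l50 (.c (nat_lit 2216) l50 (.c (nat_lit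 2281) l141 (.c (nat_lit 2282) l160 (.c (nat_lit 2300) l70 (.c (nat_lit 1129) l50 u1_171))))))))))))))))))))))))))))))))))))))))
noncomputable def u1_173 : St := (.c (nat_lit 2261) l74 (.c (nat_lit 2302) l52 (.c (nat_lit 2655) l118 (.c (nat_lit 994) l1 (.c (nat_lit 1989) l74 (.c (nat_lit 1713) l53 (.c (nat_lit 2165) l53 (.c (nat_lit 2159) l74 (.c (nat_lit 2105) l48 (.c (nat_lit 2560) l114 (.c (nat_lit 2107) l74 (.c (nat_lit 2658) l117 (.c (nat_lit 2150) l74 (.c (nat_lit 2416) l108 (.c (nat_lit 1828) l53 (.c (nat_lit 2000) l74 (.c (nat_lit 2626) l79 (.c (nat_lit 1624) l53 (.c (nat_lit 1993) l74 (.c (nat_lit 2557) l181 (.c (nat_lit 2512) l48 (.c (nat_lit 2406) l53 (.c (nat_lit 2156) l74 (.c (nat_lit 1830) l74 (.c (nat_lit 2085) l53 (.c (nat_lit 1990) l74 (.c (nat_lit 1942) l74 (.c (nat_lit 2573) l91 (.c (nat_lit 2416) l179 (.c (nat_lit 2059) l53 (.c (nat_lit 1832) l53 (.c (nat_lit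 1439) l53 (.c (nat_lit 1891) l48 (.c (nat_lit 2210) l48 (.c (nat_lit 2232) l48 .e)))))))))))))))))))))))))))))))))))
noncomputable def u1_174 : St := (.c (nat_lit 1661) l1 (.c (nat_lit 2661) l63 (.c (nat_lit 1749) l42 (.c (nat_lit 2390) l141 (.c (nat_lit 1135) l1 (.c (nat_lit 2515) l1 (.c (nat_lit 1137) l42 (.c (nat_lit 2299) l78 (.c (nat_lit 2651) l100 (.c (nat_lit 2542) l108 (.c (nat_lit 786) l1 (.c (nat_lit 790) l42 (.c (nat_lit 2503) l91 (.c (nat_lit 1966) l48 (.c (nat_lit 1966) l63 (.c (nat_lit 1368) l42 (.c (nat_lit 2557) l91 (.c (nat_lit 1396) l42 (.c (nat_lit 1272) l42 (.c (nat_lit 572) l42 (.c (nat_lit 1002) l42 (.c (nat_lit 2300) l108 (.c (nat_lit 2185) l49 (.c (nat_lit 2027) l1 (.c (nat_lit 1377) l1 (.c (nat_lit 1947) l74 (.c (nat_lit 2232) l49 (.c (nat_lit 1891) l49 (.c (nat_lit 2312) l49 (.c (nat_lit 2210) l49 (.c (nat_lit 2362) l53 (.c (nat_lit 2148) l53 (.c (nat_lit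 2658) l104 (.c (nat_lit 2499) l52 (.c (nat_lit 1969) l52 (.c (nat_lit 1611) l74 (.c (nat_lit 2719) l114 (.c (nat_lit 2562) l74 (.c (nat_lit 2243) l53 (.c (nat_lit 2698) l114 u1_173))))))))))))))))))))))))))))))))))))))))
noncomputable def u1_175 : St := (.c (nat_lit 2210) l52 (.c (nat_lit 2731) l203 (.c (nat_lit 2509) l1 (.c (nat_lit 2717) l167 (.c (nat_lit 2503) l69 (.c (nat_lit 2214) l108 (.c (nat_lit 814) l42 (.c (nat_lit 2636) l69 (.c (nat_lit 2715) l100 (.c (nat_lit 2048) l42 (.c (nat_lit 2696) l100 (.c (nat_lit 2204) l49 (.c (nat_lit 2697) l79 (.c (nat_lit 1710) l42 (.c (nat_lit 2353) l52 (.c (nat_lit 2477) l52 (.c (nat_lit 488) l42 (.c (nat_lit 2565) l52 (.c (nat_lit 2312) l48 (.c (nat_lit 2636) l63 (.c (nat_lit 2696) l117 (.c (nat_lit 2204) l48 (.c (nat_lit 2351) l74 (.c (nat_lit 2558) l152 (.c (nat_lit 1877) l69 (.c (nat_lit 2696) l70 (.c (nat_lit 1336) l42 (.c (nat_lit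 1878) l65 (.c (nat_lit 1508) l65 (.c (nat_lit 2626) l70 (.c (nat_lit 2503) l107 (.c (nat_lit 1942) l53 (.c (nat_lit 2696) l81 (.c (nat_lit 1758) l42 (.c (nat_lit 2653) l79 (.c (nat_lit 2512) l49 (.c (nat_lit 1877) l63 (.c (nat_lit 1743) l42 (.c (nat_lit 2562) l53 (.c (nat_lit 1989) l53 u1_174))))))))))))))))))))))))))))))))))))))))
noncomputable def u1_176 : St := (.c (nat_lit 2185) l48 (.c (nat_lit 2264) l74 (.c (nat_lit 2719) l49 (.c (nat_lit 2404) l74 (.c (nat_lit 2664) l78 (.c (nat_lit 2664) l52 (.c (nat_lit 2541) l74 (.c (nat_lit 2726) l110 (.c (nat_lit 2558) l141 (.c (nat_lit 2654) l42 (.c (nat_lit 2721) l70 (.c (nat_lit 2721) l147 (.c (nat_lit 2691) l78 (.c (nat_lit 2635) l78 (.c (nat_lit 2726) l114 (.c (nat_lit 2687) l49 (.c (nat_lit 2728) l178 (.c (nat_lit 2582) l78 (.c (nat_lit 2728) l77 (.c (nat_lit 2691) l118 (.c (nat_lit 2717) l112 (.c (nat_lit 2655) l78 (.c (nat_lit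 2687) l48 (.c (nat_lit 2661) l69 (.c (nat_lit 2307) l1 (.c (nat_lit 2577) l69 (.c (nat_lit 2558) l65 (.c (nat_lit 2721) l104 (.c (nat_lit 2653) l70 (.c (nat_lit 2728) l154 (.c (nat_lit 2503) l63 (.c (nat_lit 2719) l48 (.c (nat_lit 2728) l73 (.c (nat_lit 2113) l65 (.c (nat_lit 2557) l52 (.c (nat_lit 2557) l63 (.c (nat_lit 2573) l63 (.c (nat_lit 2721) l100 (.c (nat_lit 1891) l52 (.c (nat_lit 2312) l52 u1_175))))))))))))))))))))))))))))))))))))))))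
noncomputable def u1_177 : St := (.c (nat_lit 2157) l78 (.c (nat_lit 2150) l74 (.c (nat_lit 2416) l108 (.c (nat_lit 2566) l179 (.c (nat_lit 1634) l74 (.c (nat_lit 2382) l74 (.c (nat_lit 1987) l74 (.c (nat_lit 1828) l53 (.c (nat_lit 2626) l79 (.c (nat_lit 1624) l53 (.c (nat_lit 2651) l110 (.c (nat_lit 2557) l181 (.c (nat_lit 2512) l48 (.c (nat_lit 1830) l74 (.c (nat_lit 2163) l74 (.c (nat_lit 1990) l74 (.c (nat_lit 2573) l91 (.c (nat_lit 2499) l78 (.c (nat_lit 1815) l74 (.c (nat_lit 2105) l63 (.c (nat_lit 1832) l53 (.c (nat_lit 1804) l53 (.c (nat_lit 1439) l53 (.c (nat_lit 2005) l52 (.c (nat_lit 2644) l63 .e)))))))))))))))))))))))))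
noncomputable def u1_178 : St := (.c (nat_lit 1433) l42 (.c (nat_lit 2506) l91 (.c (nat_lit 2362) l53 (.c (nat_lit 2544) l78 (.c (nat_lit 2659) l69 (.c (nat_lit 2505) l179 (.c (nat_lit 2148) l53 (.c (nat_lit 2020) l50 (.c (nat_lit 2564) l69 (.c (nat_lit 2572) l97 (.c (nat_lit 2499) l52 (.c (nat_lit 2700) l116 (.c (nat_lit 2295) l53 (.c (nat_lit 2297) l53 (.c (nat_lit 1969) l52 (.c (nat_lit 2685) l117 (.c (nat_lit 1611) l74 (.c (nat_lit 1991) l52 (.c (nat_lit 942) l42 (.c (nat_lit 1916) l1 (.c (nat_lit 1056) l42 (.c (nat_lit 2575) l171 (.c (nat_lit 2423) l231 (.c (nat_lit 2701) l116 (.c (nat_lit 2243) l53 (.c (nat_lit 1937) l53 (.c (nat_lit 1160) l53 (.c (nat_lit 2413) l53 (.c (nat_lit 2305) l74 (.c (nat_lit 2659) l108 (.c (nat_lit 2655) l118 (.c (nat_lit 994) l1 (.c (nat_lit 1989) l74 (.c (nat_lit 2656) l65 (.c (nat_lit 1629) l74 (.c (nat_lit 2165) l53 (.c (nat_lit 2159) l74 (.c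 (nat_lit 2560) l114 (.c (nat_lit 2157) l52 (.c (nat_lit 2155) l74 u1_177))))))))))))))))))))))))))))))))))))))))
noncomputable def u1_179 : St := (.c (nat_lit 1728) l42 (.c (nat_lit 1179) l42 (.c (nat_lit 1562) l42 (.c (nat_lit 1040) l42 (.c (nat_lit 1644) l50 (.c (nat_lit 2027) l1 (.c (nat_lit 871) l42 (.c (nat_lit 1424) l42 (.c (nat_lit 2642) l79 (.c (nat_lit 2506) l118 (.c (nat_lit 2624) l97 (.c (nat_lit 2571) l65 (.c (nat_lit 2655) l69 (.c (nat_lit 2534) l50 (.c (nat_lit 2573) l69 (.c (nat_lit 2701) l136 (.c (nat_lit 2732) l268 (.c (nat_lit 2353) l49 (.c (nat_lit 1377) l1 (.c (nat_lit 784) l1 (.c (nat_lit 2143) l42 (.c (nat_lit 1341) l42 (.c (nat_lit 2005) l49 (.c (nat_lit 2499) l49 (.c (nat_lit 1991) l49 (.c (nat_lit 2576) l114 (.c (nat_lit 1796) l42 (.c (nat_lit 2731) l228 (.c (nat_lit 2005) l48 (.c (nat_lit 2005) l63 (.c (nat_lit 2302) l48 (.c (nat_lit 2581) l97 (.c (nat_lit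 1891) l49 (.c (nat_lit 2495) l49 (.c (nat_lit 2353) l48 (.c (nat_lit 2717) l100 (.c (nat_lit 2656) l141 (.c (nat_lit 2312) l49 (.c (nat_lit 2210) l49 (.c (nat_lit 2211) l65 u1_178))))))))))))))))))))))))))))))))))))))))
noncomputable def u1_180 : St := (.c (nat_lit 2078) l53 (.c (nat_lit 1813) l42 (.c (nat_lit 2651) l79 (.c (nat_lit 1235) l42 (.c (nat_lit 2618) l179 (.c (nat_lit 1869) l1 (.c (nat_lit 2379) l1 (.c (nat_lit 2721) l141 (.c (nat_lit 2101) l42 (.c (nat_lit 2697) l104 (.c (nat_lit 1470) l1 (.c (nat_lit 896) l42 (.c (nat_lit 1199) l42 (.c (nat_lit 856) l42 (.c (nat_lit 1239) l42 (.c (nat_lit 1650) l65 (.c (nat_lit 2613) l114 (.c (nat_lit 1700) l42 (.c (nat_lit 1167) l1 (.c (nat_lit 1693) l42 (.c (nat_lit 1751) l42 (.c (nat_lit 1575) l42 (.c (nat_lit 1137) l42 (.c (nat_lit 2299) l78 (.c (nat_lit 2651) l100 (.c (nat_lit 1891) l63 (.c (nat_lit 2542) l108 (.c (nat_lit 1877)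 l48 (.c (nat_lit 790) l42 (.c (nat_lit 1135) l50 (.c (nat_lit 2503) l91 (.c (nat_lit 2560) l104 (.c (nat_lit 1966) l48 (.c (nat_lit 2557) l91 (.c (nat_lit 645) l1 (.c (nat_lit 2484) l179 (.c (nat_lit 1002) l42 (.c (nat_lit 2699) l65 (.c (nat_lit 2716) l69 (.c (nat_lit 2138) l1 u1_179))))))))))))))))))))))))))))))))))))))))
noncomputable def u1_181 : St := (.c (nat_lit 2259) l2 (.c (nat_lit 2618) l108 (.c (nat_lit 1583) l42 (.c (nat_lit 1603) l42 (.c (nat_lit 2728) l250 (.c (nat_lit 1245) l42 (.c (nat_lit 1507) l42 (.c (nat_lit 2094) l42 (.c (nat_lit 2688) l97 (.c (nat_lit 2643) l104 (.c (nat_lit 2590) l65 (.c (nat_lit 2564) l49 (.c (nat_lit 1600) l42 (.c (nat_lit 1990) l42 (.c (nat_lit 2154) l42 (.c (nat_lit 1652) l42 (.c (nat_lit 1275) l42 (.c (nat_lit 1648) l42 (.c (nat_lit 1951) l42 (.c (nat_lit 1808) l42 (.c (nat_lit 2596) l1 (.c (nat_lit 1702) l42 (.c (nat_lit 1713) l42 (.c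 (nat_lit 1632) l42 (.c (nat_lit 2628) l69 (.c (nat_lit 1877) l63 (.c (nat_lit 2484) l79 (.c (nat_lit 2282) l231 (.c (nat_lit 2706) l79 (.c (nat_lit 2492) l74 (.c (nat_lit 2004) l53 (.c (nat_lit 2573) l114 (.c (nat_lit 1717) l42 (.c (nat_lit 2646) l80 (.c (nat_lit 1426) l42 (.c (nat_lit 2542) l79 (.c (nat_lit 2643) l70 (.c (nat_lit 2058) l42 (.c (nat_lit 2182) l2 (.c (nat_lit 1611) l42 u1_180))))))))))))))))))))))))))))))))))))))))
noncomputable def u1_182 : St := (.c (nat_lit 2286) l1 (.c (nat_lit 1959) l74 (.c (nat_lit 2453) l50 (.c (nat_lit 2011) l50 (.c (nat_lit 1497) l50 (.c (nat_lit 2216) l50 (.c (nat_lit 1876) l50 (.c (nat_lit 2501) l74 (.c (nat_lit 2301) l53 (.c (nat_lit 2712) l179 (.c (nat_lit 2275) l74 (.c (nat_lit 2606) l74 (.c (nat_lit 1986) l74 (.c (nat_lit 2267) l74 (.c (nat_lit 2282) l74 (.c (nat_lit 2281) l141 (.c (nat_lit 1435) l42 (.c (nat_lit 1336) l42 (.c (nat_lit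 1192) l42 (.c (nat_lit 2390) l207 (.c (nat_lit 1878) l65 (.c (nat_lit 2626) l70 (.c (nat_lit 1942) l53 (.c (nat_lit 2701) l112 (.c (nat_lit 1609) l42 (.c (nat_lit 2407) l42 (.c (nat_lit 2066) l42 (.c (nat_lit 2423) l108 (.c (nat_lit 1129) l50 (.c (nat_lit 1140) l50 (.c (nat_lit 1745) l50 (.c (nat_lit 778) l50 (.c (nat_lit 1127) l50 (.c (nat_lit 2306) l108 (.c (nat_lit 1758) l42 (.c (nat_lit 2090) l42 (.c (nat_lit 1920) l42 (.c (nat_lit 2625) l118 (.c (nat_lit 2624) l49 (.c (nat_lit 2483) l78 u1_181))))))))))))))))))))))))))))))))))))))))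
noncomputable def u1_183 : St := (.c (nat_lit 2707) l79 (.c (nat_lit 2244) l42 (.c (nat_lit 2732) l301 (.c (nat_lit 1710) l42 (.c (nat_lit 2496) l74 (.c (nat_lit 2475) l53 (.c (nat_lit 2675) l179 (.c (nat_lit 2071) l42 (.c (nat_lit 1956) l42 (.c (nat_lit 2708) l73 (.c (nat_lit 1229) l42 (.c (nat_lit 2586) l141 (.c (nat_lit 1871) l42 (.c (nat_lit 2592) l48 (.c (nat_lit 2481) l53 (.c (nat_lit 2477) l52 (.c (nat_lit 1158) l42 (.c (nat_lit 2565) l52 (.c (nat_lit 2581) l108 (.c (nat_lit 2696) l117 (.c (nat_lit 2351) l74 (.c (nat_lit 1842) l42 (.c (nat_lit 2686) l70 (.c (nat_lit 1502) l42 (.c (nat_lit 1148) l42 (.c (nat_lit 1811) l42 (.c (nat_lit 2124) l42 (.c (nat_lit 1883) l42 (.c (nat_lit 2231) l50 (.c (nat_lit 2685) l104 (.c (nat_lit 2180) l65 (.c (nat_lit 2561) l50 (.c (nat_lit 1570) l42 (.c (nat_lit 2685) l176 (.c (nat_lit 1640) l42 (.c (nat_lit 2186) l50 (.c (nat_lit 2707) l100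 (.c (nat_lit 1949) l42 (.c (nat_lit 1953) l42 (.c (nat_lit 2685) l147 u1_182))))))))))))))))))))))))))))))))))))))))
noncomputable def u1_184 : St := (.c (nat_lit 2214) l108 (.c (nat_lit 2539) l53 (.c (nat_lit 2363) l42 (.c (nat_lit 814) l42 (.c (nat_lit 2677) l64 (.c (nat_lit 2488) l53 (.c (nat_lit 1503) l65 (.c (nat_lit 2660) l157 (.c (nat_lit 2110) l65 (.c (nat_lit 2684) l108 (.c (nat_lit 2488) l52 (.c (nat_lit 2654) l108 (.c (nat_lit 2731) l204 (.c (nat_lit 2429) l65 (.c (nat_lit 2732) l280 (.c (nat_lit 2721) l209 (.c (nat_lit 2014) l42 (.c (nat_lit 1888) l42 (.c (nat_lit 1544) l42 (.c (nat_lit 1843) l42 (.c (nat_lit 2669) l64 (.c (nat_lit 2623) l117 (.c (nat_lit 2696) l100 (.c (nat_lit 2615) l74 (.c (nat_lit 2498) l53 (.c (nat_lit 2351) l53 (.c (nat_lit 2624) l141 (.c (nat_lit 1512) l50 (.c (nat_lit 2203) l50 (.c (nat_lit 2525) l50 (.c (nat_lit 2731) l146 (.c (nat_lit 2296)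 l49 (.c (nat_lit 2462) l141 (.c (nat_lit 1541) l42 (.c (nat_lit 2203) l65 (.c (nat_lit 2207) l65 (.c (nat_lit 2180) l50 (.c (nat_lit 1892) l65 (.c (nat_lit 2204) l49 (.c (nat_lit 2436) l63 u1_183))))))))))))))))))))))))))))))))))))))))
noncomputable def u1_185 : St := (.c (nat_lit 2647) l65 (.c (nat_lit 2213) l69 (.c (nat_lit 2718) l73 (.c (nat_lit 2385) l50 (.c (nat_lit 2660) l97 (.c (nat_lit 2721) l100 (.c (nat_lit 2685) l114 (.c (nat_lit 2694) l108 (.c (nat_lit 2724) l79 (.c (nat_lit 2707) l70 (.c (nat_lit 2724) l114 (.c (nat_lit 2724) l166 (.c (nat_lit 2441) l50 (.c (nat_lit 2709) l110 (.c (nat_lit 2429) l50 (.c (nat_lit 1862) l65 (.c (nat_lit 2312) l52 (.c (nat_lit 2708) l100 (.c (nat_lit 2668) l100 (.c (nat_lit 2722) l67 (.c (nat_lit 2724) l233 (.c (nat_lit 2634) l53 (.c (nat_lit 2731) l244 (.c (nat_lit 2327) l42 (.c (nat_lit 2637) l52 (.c (nat_lit 2695) l181 (.c (nat_lit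 2544) l52 (.c (nat_lit 2509) l1 (.c (nat_lit 2685) l116 (.c (nat_lit 2597) l78 (.c (nat_lit 2511) l42 (.c (nat_lit 2493) l104 (.c (nat_lit 2567) l50 (.c (nat_lit 2350) l42 (.c (nat_lit 2658) l112 (.c (nat_lit 2656) l97 (.c (nat_lit 2385) l65 (.c (nat_lit 2572) l65 (.c (nat_lit 2705) l231 (.c (nat_lit 1530) l74 u1_184))))))))))))))))))))))))))))))))))))))))
noncomputable def u1_186 : St := (.c (nat_lit 2630) l49 (.c (nat_lit 2688) l65 (.c (nat_lit 2302) l49 (.c (nat_lit 2681) l104 (.c (nat_lit 2410) l42 (.c (nat_lit 2245) l42 (.c (nat_lit 2380) l48 (.c (nat_lit 2448) l49 (.c (nat_lit 2417) l53 (.c (nat_lit 2491) l141 (.c (nat_lit 2557) l78 (.c (nat_lit 2728) l209 (.c (nat_lit 2731) l306 (.c (nat_lit 2698) l107 (.c (nat_lit 2630) l63 (.c (nat_lit 2557) l48 (.c (nat_lit 2731) l283 (.c (nat_lit 2573) l63 (.c (nat_lit 2698) l136 (.c (nat_lit 2573) l48 (.c (nat_lit 2720) l162 (.c (nat_lit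 2720) l160 (.c (nat_lit 1825) l42 (.c (nat_lit 2660) l108 (.c (nat_lit 2421) l78 (.c (nat_lit 2414) l42 (.c (nat_lit 2531) l49 (.c (nat_lit 2389) l42 (.c (nat_lit 2701) l181 (.c (nat_lit 1810) l42 (.c (nat_lit 2173) l78 (.c (nat_lit 2667) l49 (.c (nat_lit 2411) l48 (.c (nat_lit 2660) l160 (.c (nat_lit 2616) l63 (.c (nat_lit 2423) l74 (.c (nat_lit 2611) l78 (.c (nat_lit 2582) l49 (.c (nat_lit 2655) l49 (.c (nat_lit 2613) l49 u1_185))))))))))))))))))))))))))))))))))))))))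
noncomputable def u1_187 : St := (.c (nat_lit 2720) l118 (.c (nat_lit 2684) l52 (.c (nat_lit 2697) l70 (.c (nat_lit 2311) l42 (.c (nat_lit 2707) l104 (.c (nat_lit 2727) l97 (.c (nat_lit 2727) l107 (.c (nat_lit 2664) l65 (.c (nat_lit 2731) l202 (.c (nat_lit 2724) l110 (.c (nat_lit 2099) l42 (.c (nat_lit 2635) l69 (.c (nat_lit 2635) l49 (.c (nat_lit 2653) l70 (.c (nat_lit 2214) l65 (.c (nat_lit 1961) l74 (.c (nat_lit 1391) l42 (.c (nat_lit 2194) l74 (.c (nat_lit 2707) l114 (.c (nat_lit 2601) l141 (.c (nat_lit 2436) l49 (.c (nat_lit 2728) l154 (.c (nat_lit 2503) l63 (.c (nat_lit 2713) l108 (.c (nat_lit 2710) l117 (.c (nat_lit 2369) l42 (.c (nat_lit 2717) l108 (.c (nat_lit 2696) l74 (.c (nat_lit 2725) l162 (.c (nat_lit 2718) l91 (.c (nat_lit 2134) l42 (.c (nat_lit 2719) l48 (.c (nat_lit 2563) l42 (.c (nat_lit 2116) l42 (.c (nat_lit 2536) l50 (.c (nat_lit 2700) l97 (.c (nat_lit 1804)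 l42 (.c (nat_lit 2731) l102 (.c (nat_lit 2593) l65 (.c (nat_lit 2544) l49 u1_186))))))))))))))))))))))))))))))))))))))))
noncomputable def u1_188 : St := (.c (nat_lit 2572) l53 (.c (nat_lit 2555) l53 (.c (nat_lit 2506) l63 (.c (nat_lit 2694) l69 (.c (nat_lit 2718) l107 (.c (nat_lit 2718) l102 (.c (nat_lit 2624) l65 (.c (nat_lit 2121) l42 (.c (nat_lit 2648) l78 (.c (nat_lit 2436) l48 (.c (nat_lit 2635) l48 (.c (nat_lit 2519) l42 (.c (nat_lit 2726) l102 (.c (nat_lit 2630) l48 (.c (nat_lit 2556) l42 (.c (nat_lit 2635) l63 (.c (nat_lit 2715) l68 (.c (nat_lit 2577) l69 (.c (nat_lit 2558) l65 (.c (nat_lit 2732) l246 (.c (nat_lit 2697) l152 (.c (nat_lit 2715) l221 (.c (nat_lit 2445) l49 (.c (nat_lit 2704) l69 (.c (nat_lit 2727) l246 (.c (nat_lit 2644) l48 (.c (nat_lit 2721) l104 (.c (nat_lit 2648) l53 (.c (nat_lit 2317) l42 (.c (nat_lit 2418) l42 (.c (nat_lit 2727) l162 (.c (nat_lit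 2383) l42 (.c (nat_lit 2704) l79 (.c (nat_lit 2613) l48 (.c (nat_lit 2697) l97 (.c (nat_lit 2731) l294 (.c (nat_lit 2548) l42 (.c (nat_lit 2516) l1 (.c (nat_lit 2602) l74 (.c (nat_lit 2690) l108 u1_187))))))))))))))))))))))))))))))))))))))))
noncomputable def u1_189 : St := (.c (nat_lit 2720) l74 (.c (nat_lit 2720) l108 (.c (nat_lit 2684) l74 (.c (nat_lit 2725) l78 (.c (nat_lit 2194) l231 (.c (nat_lit 2587) l74 (.c (nat_lit 2700) l108 (.c (nat_lit 2654) l42 (.c (nat_lit 2688) l52 (.c (nat_lit 2721) l70 (.c (nat_lit 2721) l147 (.c (nat_lit 2712) l74 (.c (nat_lit 2587) l179 (.c (nat_lit 2691) l78 (.c (nat_lit 2635) l78 (.c (nat_lit 2581) l74 (.c (nat_lit 2632) l74 (.c (nat_lit 2726) l114 (.c (nat_lit 2687) l49 (.c (nat_lit 1741) l2 (.c (nat_lit 2613) l52 (.c (nat_lit 2582) l52 (.c (nat_lit 2650) l74 (.c (nat_lit 2694) l74 (.c (nat_lit 2204) l52 (.c (nat_lit 2699) l74 (.c (nat_lit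 2653) l179 (.c (nat_lit 2653) l108 (.c (nat_lit 2555) l74 (.c (nat_lit 2638) l108 (.c (nat_lit 2691) l118 (.c (nat_lit 2133) l42 (.c (nat_lit 2687) l48 (.c (nat_lit 2620) l48 (.c (nat_lit 2582) l48 (.c (nat_lit 2661) l69 (.c (nat_lit 2650) l53 (.c (nat_lit 2567) l53 (.c (nat_lit 2556) l74 (.c (nat_lit 2100) l53 u1_188))))))))))))))))))))))))))))))))))))))))
noncomputable def u1_190 : St := (.c (nat_lit 2690) l74 (.c (nat_lit 2718) l87 (.c (nat_lit 2716) l65 (.c (nat_lit 2721) l97 (.c (nat_lit 2721) l65 (.c (nat_lit 1394) l42 (.c (nat_lit 2355) l160 (.c (nat_lit 2618) l70 (.c (nat_lit 2715) l107 (.c (nat_lit 2298) l42 (.c (nat_lit 2717) l74 (.c (nat_lit 2727) l78 (.c (nat_lit 2481) l74 (.c (nat_lit 2430) l42 (.c (nat_lit 2698) l48 (.c (nat_lit 2732) l288 (.c (nat_lit 2436) l69 (.c (nat_lit 2719) l69 (.c (nat_lit 2719) l49 (.c (nat_lit 2698) l69 (.c (nat_lit 2720) l97 (.c (nat_lit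 1781) l42 (.c (nat_lit 2684) l160 (.c (nat_lit 1982) l42 (.c (nat_lit 2592) l49 (.c (nat_lit 2263) l65 (.c (nat_lit 2231) l65 (.c (nat_lit 2313) l1 (.c (nat_lit 2580) l49 (.c (nat_lit 2617) l231 (.c (nat_lit 2605) l48 (.c (nat_lit 2715) l159 (.c (nat_lit 2638) l74 (.c (nat_lit 1207) l42 (.c (nat_lit 2697) l65 (.c (nat_lit 2334) l65 (.c (nat_lit 2731) l160 (.c (nat_lit 2713) l160 (.c (nat_lit 2558) l141 (.c (nat_lit 2278) l42 u1_189))))))))))))))))))))))))))))))))))))))))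
noncomputable def u1_191 : St := (.c (nat_lit 2261) l74 (.c (nat_lit 1160) l53 (.c (nat_lit 2719) l110 (.c (nat_lit 2655) l118 (.c (nat_lit 994) l1 (.c (nat_lit 2368) l74 (.c (nat_lit 1713) l53 (.c (nat_lit 2645) l74 (.c (nat_lit 2165) l53 (.c (nat_lit 2105) l48 (.c (nat_lit 2157) l52 (.c (nat_lit 2155) l74 (.c (nat_lit 2150) l74 (.c (nat_lit 1634) l74 (.c (nat_lit 2382) l74 (.c (nat_lit 1987) l74 (.c (nat_lit 1828) l53 (.c (nat_lit 2300) l179 (.c (nat_lit 2626) l79 (.c (nat_lit 1993) l74 (.c (nat_lit 2302) l78 (.c (nat_lit 2557) l181 (.c (nat_lit 2512) l48 (.c (nat_lit 1810) l74 (.c (nat_lit 2488) l78 (.c (nat_lit 2156) l74 (.c (nat_lit 1830) l74 (.c (nat_lit 2163) l74 (.c (nat_lit 2085) l53 (.c (nat_lit 2573) l91 (.c (nat_lit 1004) l42 (.c (nat_lit 2059) l53 (.c (nat_lit 2499) l78 (.c (nat_lit 2652) l78 (.c (nat_lit 2391) l108 (.c (nat_lit 1439) l53 (.c (nat_lit 2210) l48 .e)))))))))))))))))))))))))))))))))))))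
noncomputable def u1_192 : St := (.c (nat_lit 2697) l104 (.c (nat_lit 1749) l42 (.c (nat_lit 1277) l42 (.c (nat_lit 2390) l141 (.c (nat_lit 1470) l1 (.c (nat_lit 856) l42 (.c (nat_lit 1167) l1 (.c (nat_lit 1751) l42 (.c (nat_lit 2296) l52 (.c (nat_lit 1135) l1 (.c (nat_lit 2299) l78 (.c (nat_lit 2651) l100 (.c (nat_lit 2484) l108 (.c (nat_lit 2542) l108 (.c (nat_lit 786) l1 (.c (nat_lit 2503) l91 (.c (nat_lit 1966) l48 (.c (nat_lit 2573) l140 (.c (nat_lit 2557) l91 (.c (nat_lit 911) l42 (.c (nat_lit 1396) l42 (.c (nat_lit 1272) l42 (.c (nat_lit 833) l42 (.c (nat_lit 2504) l74 (.c (nat_lit 2300) l108 (.c (nat_lit 2185) l49 (.c (nat_lit 2270) l74 (.c (nat_lit 1179) l42 (.c (nat_lit 871) l42 (.c (nat_lit 1424) l42 (.c (nat_lit 1947) l74 (.c (nat_lit 2312) l49 (.c (nat_lit 2210) l49 (.c (nat_lit 2362) l53 (.c (nat_lit 2419) l74 (.c (nat_lit 2148) l53 (.c (nat_lit 1969) l52 (.c (nat_lit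 2719) l114 (.c (nat_lit 2562) l74 (.c (nat_lit 2243) l53 u1_191))))))))))))))))))))))))))))))))))))))))
noncomputable def u1_193 : St := (.c (nat_lit 2592) l48 (.c (nat_lit 2477) l52 (.c (nat_lit 1158) l42 (.c (nat_lit 2312) l48 (.c (nat_lit 2696) l117 (.c (nat_lit 2204) l48 (.c (nat_lit 2351) l74 (.c (nat_lit 1893) l74 (.c (nat_lit 2543) l53 (.c (nat_lit 2111) l42 (.c (nat_lit 1848) l42 (.c (nat_lit 2260) l53 (.c (nat_lit 2696) l70 (.c (nat_lit 2301) l53 (.c (nat_lit 1526) l42 (.c (nat_lit 1878) l65 (.c (nat_lit 2626) l70 (.c (nat_lit 2503) l107 (.c (nat_lit 2260) l74 (.c (nat_lit 2696) l81 (.c (nat_lit 2066) l42 (.c (nat_lit 1758) l42 (.c (nat_lit 802) l42 (.c (nat_lit 2259) l2 (.c (nat_lit 1387) l42 (.c (nat_lit 1245) l42 (.c (nat_lit 2512) l49 (.c (nat_lit 1652) l42 (.c (nat_lit 1632) l42 (.c (nat_lit 1743) l42 (.c (nat_lit 1426) l42 (.c (nat_lit 1581) l2 (.c (nat_lit 1323)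 l42 (.c (nat_lit 2562) l53 (.c (nat_lit 2415) l74 (.c (nat_lit 1813) l42 (.c (nat_lit 1235) l42 (.c (nat_lit 1869) l1 (.c (nat_lit 1508) l1 (.c (nat_lit 2101) l42 u1_192))))))))))))))))))))))))))))))))))))))))
noncomputable def u1_194 : St := (.c (nat_lit 2502) l108 (.c (nat_lit 2185) l48 (.c (nat_lit 2264) l74 (.c (nat_lit 2592) l49 (.c (nat_lit 1869) l42 (.c (nat_lit 2667) l65 (.c (nat_lit 2558) l141 (.c (nat_lit 2293) l74 (.c (nat_lit 2691) l78 (.c (nat_lit 2691) l118 (.c (nat_lit 2717) l112 (.c (nat_lit 2655) l78 (.c (nat_lit 2391) l74 (.c (nat_lit 2697) l70 (.c (nat_lit 2653) l70 (.c (nat_lit 2503) l63 (.c (nat_lit 2667) l141 (.c (nat_lit 2557) l78 (.c (nat_lit 2557) l52 (.c (nat_lit 2557) l63 (.c (nat_lit 2573) l63 (.c (nat_lit 2573) l48 (.c (nat_lit 2312) l52 (.c (nat_lit 2637) l52 (.c (nat_lit 2717) l167 (.c (nat_lit 2503) l69 (.c (nat_lit 1530) l74 (.c (nat_lit 1890)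 l42 (.c (nat_lit 2444) l141 (.c (nat_lit 2488) l52 (.c (nat_lit 1544) l42 (.c (nat_lit 2048) l42 (.c (nat_lit 2667) l97 (.c (nat_lit 2696) l100 (.c (nat_lit 2351) l53 (.c (nat_lit 2262) l52 (.c (nat_lit 2204) l49 (.c (nat_lit 1710) l42 (.c (nat_lit 2353) l52 (.c (nat_lit 1229) l42 u1_193))))))))))))))))))))))))))))))))))))))))
noncomputable def u1_195 : St := (.c (nat_lit 1394) l42 (.c (nat_lit 2385) l74 (.c (nat_lit 2391) l74 (.c (nat_lit 2214) l179 (.c (nat_lit 2213) l69 (.c (nat_lit 2312) l52 (.c (nat_lit 1877) l69 (.c (nat_lit 1877) l63 (.c (nat_lit 2155) l53 (.c (nat_lit 2299) l78 (.c (nat_lit 1891) l63 (.c (nat_lit 786) l1 (.c (nat_lit 1877) l48 (.c (nat_lit 2208) l157 (.c (nat_lit 645) l1 (.c (nat_lit 1396) l42 (.c (nat_lit 1002) l42 (.c (nat_lit 992) l1 (.c (nat_lit 784) l1 (.c (nat_lit 1891) l49 (.c (nat_lit 1991) l52 (.c (nat_lit 1056) l42 (.c (nat_lit 698) l42 (.c (nat_lit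 2385) l108 (.c (nat_lit 2159) l74 (.c (nat_lit 2566) l179 (.c (nat_lit 2300) l179 (.c (nat_lit 1810) l74 (.c (nat_lit 2156) l74 (.c (nat_lit 2416) l179 (.c (nat_lit 2391) l108 (.c (nat_lit 1804) l53 (.c (nat_lit 1891) l48 .e)))))))))))))))))))))))))))))))))
noncomputable def u1_196 : St := (.c (nat_lit 1394) l42 (.c (nat_lit 2385) l74 (.c (nat_lit 2391) l74 (.c (nat_lit 2155) l53 (.c (nat_lit 786) l1 (.c (nat_lit 645) l1 (.c (nat_lit 1396) l42 (.c (nat_lit 1002) l42 (.c (nat_lit 992) l1 (.c (nat_lit 784) l1 (.c (nat_lit 1056) l42 (.c (nat_lit 698) l42 (.c (nat_lit 994) l1 (.c (nat_lit 2385) l108 (.c (nat_lit 2159) l74 (.c (nat_lit 2566) l179 (.c (nat_lit 1810) l74 (.c (nat_lit 2156) l74 (.c (nat_lit 2416) l179 (.c (nat_lit 2391) l108 (.c (nat_lit 1804) l53 .e)))))))))))))))))))))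
noncomputable def u1_197 : St := (.c (nat_lit 2385) l74 (.c (nat_lit 2391) l74 (.c (nat_lit 786) l1 (.c (nat_lit 645) l1 (.c (nat_lit 1002) l42 (.c (nat_lit 992) l1 (.c (nat_lit 784) l1 (.c (nat_lit 1056) l42 (.c (nat_lit 698) l42 (.c (nat_lit 994) l1 (.c (nat_lit 2385) l108 (.c (nat_lit 2159) l74 (.c (nat_lit 1810) l74 (.c (nat_lit 2156) l74 (.c (nat_lit 2416) l179 (.c (nat_lit 1815) l74 (.c (nat_lit 2391) l108 (.c (nat_lit 1832) l53 .e))))))))))))))))))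
noncomputable def u1_198 : St := (.c (nat_lit 2541) l78 (.c (nat_lit 2382) l74 (.c (nat_lit 1987) l74 (.c (nat_lit 2626) l79 (.c (nat_lit 1624) l53 (.c (nat_lit 1993) l74 (.c (nat_lit 1830) l74 (.c (nat_lit 2085) l53 (.c (nat_lit 1990) l74 (.c (nat_lit 1942) l74 (.c (nat_lit 2416) l179 (.c (nat_lit 2652) l78 (.c (nat_lit 2105) l63 .e)))))))))))))
noncomputable def u1_199 : St := (.c (nat_lit 2404) l74 (.c (nat_lit 2659) l74 (.c (nat_lit 2557) l78 (.c (nat_lit 2048) l42 (.c (nat_lit 2262) l52 (.c (nat_lit 1710) l42 (.c (nat_lit 2353) l52 (.c (nat_lit 2565) l52 (.c (nat_lit 1811) l42 (.c (nat_lit 2626) l70 (.c (nat_lit 1942) l53 (.c (nat_lit 1758) l42 (.c (nat_lit 2483) l78 (.c (nat_lit 1743) l42 (.c (nat_lit 1135) l1 (.c (nat_lit 786) l1 (.c (nat_lit 790) l42 (.c (nat_lit 645) l1 (.c (nat_lit 572) l42 (.c (nat_lit 784) l1 (.c (nat_lit 1947) l74 (.c (nat_lit 2148) l53 (.c (nat_lit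 2564) l69 (.c (nat_lit 1969) l52 (.c (nat_lit 1991) l52 (.c (nat_lit 2719) l114 (.c (nat_lit 1056) l42 (.c (nat_lit 698) l42 (.c (nat_lit 2719) l110 (.c (nat_lit 2564) l63 (.c (nat_lit 994) l1 (.c (nat_lit 1629) l74 (.c (nat_lit 2368) l74 (.c (nat_lit 2105) l48 (.c (nat_lit 2659) l179 (.c (nat_lit 2157) l52 (.c (nat_lit 2150) l74 (.c (nat_lit 2416) l108 (.c (nat_lit 2282) l78 (.c (nat_lit 1634) l74 u1_198))))))))))))))))))))))))))))))))))))))))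
noncomputable def u1_200 : St := (.c (nat_lit 2385) l74 (.c (nat_lit 2391) l74 (.c (nat_lit 786) l1 (.c (nat_lit 645) l1 (.c (nat_lit 1002) l42 (.c (nat_lit 992) l1 (.c (nat_lit 784) l1 (.c (nat_lit 2148) l53 (.c (nat_lit 1056) l42 (.c (nat_lit 698) l42 (.c (nat_lit 1937) l53 (.c (nat_lit 994) l1 (.c (nat_lit 2385) l108 (.c (nat_lit 2165) l53 (.c (nat_lit 2159) l74 (.c (nat_lit 1810) l74 (.c (nat_lit 2156) l74 (.c (nat_lit 2416) l179 (.c (nat_lit 2059) l53 (.c (nat_lit 1815) l74 (.c (nat_lit 2391) l108 .e)))))))))))))))))))))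
noncomputable def u1_201 : St := (.c (nat_lit 2541) l78 (.c (nat_lit 2382) l74 (.c (nat_lit 1987) l74 (.c (nat_lit 2626) l79 (.c (nat_lit 1624) l53 (.c (nat_lit 1993) l74 (.c (nat_lit 1810) l74 (.c (nat_lit 2085) l53 (.c (nat_lit 1990) l74 (.c (nat_lit 1942) l74 (.c (nat_lit 2652) l78 .e)))))))))))
noncomputable def u1_202 : St := (.c (nat_lit 2404) l74 (.c (nat_lit 2659) l74 (.c (nat_lit 2557) l78 (.c (nat_lit 2048) l42 (.c (nat_lit 2262) l52 (.c (nat_lit 1710) l42 (.c (nat_lit 2353) l52 (.c (nat_lit 2565) l52 (.c (nat_lit 1811) l42 (.c (nat_lit 2626) l70 (.c (nat_lit 1942) l53 (.c (nat_lit 1758) l42 (.c (nat_lit 2483) l78 (.c (nat_lit 1743) l42 (.c (nat_lit 1135) l1 (.c (nat_lit 786) l1 (.c (nat_lit 790) l42 (.c (nat_lit 645) l1 (.c (nat_lit 572) l42 (.c (nat_lit 784) l1 (.c (nat_lit 1947) l74 (.c (nat_lit 2148) l53 (.c (nat_lit 2564) l69 (.c (nat_lit 1969) l52 (.c (nat_lit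 1991) l52 (.c (nat_lit 2719) l114 (.c (nat_lit 1056) l42 (.c (nat_lit 698) l42 (.c (nat_lit 2719) l110 (.c (nat_lit 2564) l63 (.c (nat_lit 994) l1 (.c (nat_lit 1629) l74 (.c (nat_lit 2368) l74 (.c (nat_lit 2659) l179 (.c (nat_lit 2391) l231 (.c (nat_lit 2157) l78 (.c (nat_lit 2150) l74 (.c (nat_lit 2416) l108 (.c (nat_lit 2282) l78 (.c (nat_lit 1634) l74 u1_201))))))))))))))))))))))))))))))))))))))))
noncomputable def u1_203 : St := (.c (nat_lit 2302) l78 (.c (nat_lit 2488) l78 (.c (nat_lit 2156) l74 (.c (nat_lit 1990) l74 (.c (nat_lit 1942) l74 (.c (nat_lit 2499) l78 .e))))))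
noncomputable def u1_204 : St := (.c (nat_lit 2659) l74 (.c (nat_lit 2488) l52 (.c (nat_lit 2048) l42 (.c (nat_lit 2262) l52 (.c (nat_lit 1710) l42 (.c (nat_lit 2353) l52 (.c (nat_lit 1811) l42 (.c (nat_lit 2626) l70 (.c (nat_lit 1942) l53 (.c (nat_lit 1758) l42 (.c (nat_lit 2483) l78 (.c (nat_lit 2004) l53 (.c (nat_lit 1743) l42 (.c (nat_lit 2155) l53 (.c (nat_lit 1989) l53 (.c (nat_lit 2415) l74 (.c (nat_lit 1135) l1 (.c (nat_lit 2299) l78 (.c (nat_lit 786) l1 (.c (nat_lit 790) l42 (.c (nat_lit 645) l1 (.c (nat_lit 572) l42 (.c (nat_lit 784) l1 (.c (nat_lit 2499) l52 (.c (nat_lit 1611) l74 (.c (nat_lit 1056) l42 (.c (nat_lit 698) l42 (.c (nat_lit 2305) l74 (.c (nat_lit 994) l1 (.c (nat_lit 1989) l74 (.c (nat_lit 2271) l78 (.c (nat_lit 1713) l53 (.c (nat_lit 2159) l74 (.c (nat_lit 2659) l179 (.c (nat_lit 2391) l231 (.c (nat_lit 2157) l78 (.c (nat_lit 2416) l108 (.c (nat_lit 2541)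 l78 (.c (nat_lit 2626) l79 (.c (nat_lit 1993) l74 u1_203))))))))))))))))))))))))))))))))))))))))
noncomputable def u1_205 : St := (.c (nat_lit 2406) l53 (.c (nat_lit 2163) l74 (.c (nat_lit 1990) l74 (.c (nat_lit 2719) l108 .e))))
noncomputable def u1_206 : St := (.c (nat_lit 579) l42 (.c (nat_lit 2544) l78 (.c (nat_lit 2419) l74 (.c (nat_lit 2148) l53 (.c (nat_lit 2564) l69 (.c (nat_lit 2700) l116 (.c (nat_lit 2295) l53 (.c (nat_lit 2297) l53 (.c (nat_lit 1969) l52 (.c (nat_lit 1611) l74 (.c (nat_lit 1916) l1 (.c (nat_lit 2243) l53 (.c (nat_lit 2271) l52 (.c (nat_lit 2261) l74 (.c (nat_lit 1160) l53 (.c (nat_lit 2302) l52 (.c (nat_lit 2305) l74 (.c (nat_lit 2655) l118 (.c (nat_lit 2564) l63 (.c (nat_lit 994) l1 (.c (nat_lit 2271) l78 (.c (nat_lit 2656) l65 (.c (nat_lit 2368) l74 (.c (nat_lit 2165) l53 (.c (nat_lit 2105) l48 (.c (nat_lit 2560) l114 (.c (nat_lit 2659) l179 (.c (nat_lit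 2391) l231 (.c (nat_lit 2155) l74 (.c (nat_lit 2157) l78 (.c (nat_lit 2416) l108 (.c (nat_lit 2566) l179 (.c (nat_lit 2382) l74 (.c (nat_lit 1828) l53 (.c (nat_lit 2300) l179 (.c (nat_lit 2626) l79 (.c (nat_lit 1624) l53 (.c (nat_lit 1993) l74 (.c (nat_lit 2302) l78 (.c (nat_lit 2557) l181 u1_205))))))))))))))))))))))))))))))))))))))))
noncomputable def u1_207 : St := (.c (nat_lit 2208) l97 (.c (nat_lit 1199) l42 (.c (nat_lit 856) l42 (.c (nat_lit 1239) l42 (.c (nat_lit 1270) l42 (.c (nat_lit 1167) l1 (.c (nat_lit 989) l42 (.c (nat_lit 1575) l42 (.c (nat_lit 1135) l1 (.c (nat_lit 2515) l1 (.c (nat_lit 2651) l100 (.c (nat_lit 786) l1 (.c (nat_lit 790) l42 (.c (nat_lit 2208) l157 (.c (nat_lit 994) l50 (.c (nat_lit 1966) l48 (.c (nat_lit 1368) l42 (.c (nat_lit 2557) l91 (.c (nat_lit 911) l42 (.c (nat_lit 645) l1 (.c (nat_lit 1396) l42 (.c (nat_lit 2484) l179 (.c (nat_lit 2300) l108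 (.c (nat_lit 2358) l53 (.c (nat_lit 1728) l42 (.c (nat_lit 1410) l42 (.c (nat_lit 2200) l1 (.c (nat_lit 536) l42 (.c (nat_lit 1424) l42 (.c (nat_lit 992) l1 (.c (nat_lit 2700) l114 (.c (nat_lit 784) l1 (.c (nat_lit 2143) l42 (.c (nat_lit 1341) l42 (.c (nat_lit 1796) l42 (.c (nat_lit 1947) l74 (.c (nat_lit 2656) l141 (.c (nat_lit 2312) l49 (.c (nat_lit 1433) l42 (.c (nat_lit 2501) l108 u1_206))))))))))))))))))))))))))))))))))))))))
noncomputable def u1_208 : St := (.c (nat_lit 2696) l100 (.c (nat_lit 2262) l52 (.c (nat_lit 1984) l53 (.c (nat_lit 1710) l42 (.c (nat_lit 2700) l81 (.c (nat_lit 1295) l42 (.c (nat_lit 1229) l42 (.c (nat_lit 2691) l110 (.c (nat_lit 2565) l52 (.c (nat_lit 2312) l48 (.c (nat_lit 2696) l117 (.c (nat_lit 1811) l42 (.c (nat_lit 2111) l42 (.c (nat_lit 2558) l152 (.c (nat_lit 2696) l70 (.c (nat_lit 2301) l53 (.c (nat_lit 2624) l108 (.c (nat_lit 2390) l207 (.c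 (nat_lit 2626) l70 (.c (nat_lit 2696) l81 (.c (nat_lit 2090) l42 (.c (nat_lit 1920) l42 (.c (nat_lit 2700) l70 (.c (nat_lit 2644) l114 (.c (nat_lit 1507) l42 (.c (nat_lit 2004) l53 (.c (nat_lit 1426) l42 (.c (nat_lit 1581) l2 (.c (nat_lit 2542) l79 (.c (nat_lit 2562) l53 (.c (nat_lit 2155) l53 (.c (nat_lit 2415) l74 (.c (nat_lit 2273) l53 (.c (nat_lit 2078) l53 (.c (nat_lit 1618) l53 (.c (nat_lit 1508) l1 (.c (nat_lit 2101) l42 (.c (nat_lit 2697) l104 (.c (nat_lit 1277) l42 (.c (nat_lit 2390) l141 u1_207))))))))))))))))))))))))))))))))))))))))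
noncomputable def u1_209 : St := (.c (nat_lit 2264) l74 (.c (nat_lit 1394) l42 (.c (nat_lit 2693) l48 (.c (nat_lit 1781) l42 (.c (nat_lit 2404) l74 (.c (nat_lit 2597) l52 (.c (nat_lit 2664) l52 (.c (nat_lit 2683) l49 (.c (nat_lit 2654) l42 (.c (nat_lit 2688) l52 (.c (nat_lit 2650) l74 (.c (nat_lit 2697) l108 (.c (nat_lit 2699) l74 (.c (nat_lit 2728) l77 (.c (nat_lit 2717) l112 (.c (nat_lit 2659) l74 (.c (nat_lit 2655) l78 (.c (nat_lit 2558) l65 (.c (nat_lit 2686) l48 (.c (nat_lit 2684) l52 (.c (nat_lit 2697) l70 (.c (nat_lit 2653) l70 (.c (nat_lit 2134) l42 (.c (nat_lit 2113) l65 (.c (nat_lit 2557) l52 (.c (nat_lit 2557) l63 (.c (nat_lit 1825) l42 (.c (nat_lit 2660) l108 (.c (nat_lit 2728) l68 (.c (nat_lit 2667) l49 (.c (nat_lit 2411) l48 (.c (nat_lit 2660) l160 (.c (nat_lit 2312) l52 (.c (nat_lit 2637) l52 (.c (nat_lit 2717) l167 (.c (nat_lit 2597) l78 (.c (nat_lit 2656) l97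 (.c (nat_lit 2444) l141 (.c (nat_lit 1544) l42 (.c (nat_lit 2048) l42 u1_208))))))))))))))))))))))))))))))))))))))))
noncomputable def u1_210 : St := (.c (nat_lit 2413) l53 (.c (nat_lit 994) l1 (.c (nat_lit 1629) l74 (.c (nat_lit 2645) l74 (.c (nat_lit 2560) l114 (.c (nat_lit 2107) l74 (.c (nat_lit 2157) l52 (.c (nat_lit 2155) l74 (.c (nat_lit 2157) l78 (.c (nat_lit 2416) l108 (.c (nat_lit 1634) l74 (.c (nat_lit 2300) l179 (.c (nat_lit 1624) l53 (.c (nat_lit 2406) l53 (.c (nat_lit 1810) l74 (.c (nat_lit 2488) l78 (.c (nat_lit 1830) l74 (.c (nat_lit 2163) l74 (.c (nat_lit 2573) l91 .e)))))))))))))))))))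
noncomputable def u1_211 : St := (.c (nat_lit 2404) l74 (.c (nat_lit 2573) l63 (.c (nat_lit 2488) l52 (.c (nat_lit 2351) l53 (.c (nat_lit 2652) l160 (.c (nat_lit 1984) l53 (.c (nat_lit 2351) l74 (.c (nat_lit 2543) l53 (.c (nat_lit 2301) l53 (.c (nat_lit 2624) l108 (.c (nat_lit 2653) l79 (.c (nat_lit 2415) l74 (.c (nat_lit 2273) l53 (.c (nat_lit 2078) l53 (.c (nat_lit 1618) l53 (.c (nat_lit 1749) l42 (.c (nat_lit 1277) l42 (.c (nat_lit 1199) l42 (.c (nat_lit 856) l42 (.c (nat_lit 1239) l42 (.c (nat_lit 1270) l42 (.c (nat_lit 1167) l1 (.c (nat_lit 2296) l52 (.c (nat_lit 2299) l78 (.c (nat_lit 2300) l108 (.c (nat_lit 2200) l1 (.c (nat_lit 536) l42 (.c (nat_lit 1947) l74 (.c (nat_lit 2501) l108 (.c (nat_lit 2362) l53 (.c (nat_lit 2295) l53 (.c (nat_lit 2297) l53 (.c (nat_lit 2719) l114 (.c (nat_lit 1056) l42 (.c (nat_lit 2562) l74 (.c (nat_lit 1968) l74 (.c (nat_lit 2271) l52 (.c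 (nat_lit 2698) l114 (.c (nat_lit 1160) l53 (.c (nat_lit 2719) l110 u1_210))))))))))))))))))))))))))))))))))))))))
noncomputable def u1_212 : St := (.c (nat_lit 2626) l79 (.c (nat_lit 1993) l74 (.c (nat_lit 2302) l78 (.c (nat_lit 2156) l74 (.c (nat_lit 2085) l53 .e)))))
noncomputable def u1_213 : St := (.c (nat_lit 2048) l42 (.c (nat_lit 1984) l53 (.c (nat_lit 1710) l42 (.c (nat_lit 2301) l53 (.c (nat_lit 2624) l108 (.c (nat_lit 2626) l70 (.c (nat_lit 1758) l42 (.c (nat_lit 1743) l42 (.c (nat_lit 1426) l42 (.c (nat_lit 2273) l53 (.c (nat_lit 2078) l53 (.c (nat_lit 1618) l53 (.c (nat_lit 1277) l42 (.c (nat_lit 1199) l42 (.c (nat_lit 856) l42 (.c (nat_lit 1239) l42 (.c (nat_lit 1270) l42 (.c (nat_lit 1167) l1 (.c (nat_lit 2296) l52 (.c (nat_lit 1135) l1 (.c (nat_lit 2299) l78 (.c (nat_lit 786) l1 (.c (nat_lit 790) l42 (.c (nat_lit 645) l1 (.c (nat_lit 572) l42 (.c (nat_lit 2300)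 l108 (.c (nat_lit 2200) l1 (.c (nat_lit 536) l42 (.c (nat_lit 784) l1 (.c (nat_lit 2501) l108 (.c (nat_lit 2148) l53 (.c (nat_lit 2295) l53 (.c (nat_lit 2297) l53 (.c (nat_lit 1991) l52 (.c (nat_lit 1160) l53 (.c (nat_lit 2302) l52 (.c (nat_lit 994) l1 (.c (nat_lit 2159) l74 (.c (nat_lit 2416) l108 (.c (nat_lit 2300) l179 u1_212))))))))))))))))))))))))))))))))))))))))
noncomputable def u1_214 : St := (.c (nat_lit 1629) l74 (.c (nat_lit 2645) l74 (.c (nat_lit 2560) l114 (.c (nat_lit 2107) l74 (.c (nat_lit 2155) l74 (.c (nat_lit 2157) l78 (.c (nat_lit 2416) l108 (.c (nat_lit 1634) l74 (.c (nat_lit 1828) l53 (.c (nat_lit 2300) l179 (.c (nat_lit 1624) l53 (.c (nat_lit 2406) l53 (.c (nat_lit 1810) l74 (.c (nat_lit 2488) l78 .e))))))))))))))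
noncomputable def u1_215 : St := (.c (nat_lit 2404) l74 (.c (nat_lit 2488) l52 (.c (nat_lit 2351) l53 (.c (nat_lit 2652) l160 (.c (nat_lit 1984) l53 (.c (nat_lit 2351) l74 (.c (nat_lit 2543) l53 (.c (nat_lit 2301) l53 (.c (nat_lit 2624) l108 (.c (nat_lit 2653) l79 (.c (nat_lit 2415) l74 (.c (nat_lit 2273) l53 (.c (nat_lit 2078) l53 (.c (nat_lit 1618) l53 (.c (nat_lit 1749) l42 (.c (nat_lit 1277) l42 (.c (nat_lit 1199) l42 (.c (nat_lit 856) l42 (.c (nat_lit 1239) l42 (.c (nat_lit 1270) l42 (.c (nat_lit 1167) l1 (.c (nat_lit 2296) l52 (.c (nat_lit 2299) l78 (.c (nat_lit 2300) l108 (.c (nat_lit 2200) l1 (.c (nat_lit 536) l42 (.c (nat_lit 1947) l74 (.c (nat_lit 2501) l108 (.c (nat_lit 2362) l53 (.c (nat_lit 2295) l53 (.c (nat_lit 2297) l53 (.c (nat_lit 2719) l114 (.c (nat_lit 2562) l74 (.c (nat_lit 1968) l74 (.c (nat_lit 2271) l52 (.c (nat_lit 2698) l114 (.c (nat_lit 1160) l53 (.c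 (nat_lit 2719) l110 (.c (nat_lit 2413) l53 (.c (nat_lit 994) l1 u1_214))))))))))))))))))))))))))))))))))))))))
noncomputable def u1_216 : St := (.c (nat_lit 2698) l114 (.c (nat_lit 1937) l53 (.c (nat_lit 1160) l53 (.c (nat_lit 2719) l110 (.c (nat_lit 2302) l52 (.c (nat_lit 2593) l108 (.c (nat_lit 2305) l74 (.c (nat_lit 2566) l160 (.c (nat_lit 994) l1 (.c (nat_lit 2656) l65 (.c (nat_lit 1629) l74 (.c (nat_lit 2385) l108 (.c (nat_lit 2368) l74 (.c (nat_lit 1713) l53 (.c (nat_lit 2645) l74 (.c (nat_lit 2159) l74 (.c (nat_lit 2659) l179 (.c (nat_lit 2107) l74 (.c (nat_lit 2155) l74 (.c (nat_lit 2157) l78 (.c (nat_lit 2566) l179 (.c (nat_lit 2282) l78 (.c (nat_lit 2541) l78 (.c (nat_lit 2382) l74 (.c (nat_lit 2626) l79 (.c (nat_lit 2302) l78 (.c (nat_lit 2724) l167 .e)))))))))))))))))))))))))))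
noncomputable def u1_217 : St := (.c (nat_lit 2573) l69 (.c (nat_lit 2732) l268 (.c (nat_lit 2353) l49 (.c (nat_lit 2501) l69 (.c (nat_lit 1947) l74 (.c (nat_lit 2505) l108 (.c (nat_lit 2005) l48 (.c (nat_lit 2546) l74 (.c (nat_lit 2232) l49 (.c (nat_lit 2302) l48 (.c (nat_lit 2527) l65 (.c (nat_lit 2581) l97 (.c (nat_lit 2341) l50 (.c (nat_lit 1890) l65 (.c (nat_lit 2717) l100 (.c (nat_lit 2656) l141 (.c (nat_lit 1433) l42 (.c (nat_lit 2501) l108 (.c (nat_lit 2503) l159 (.c (nat_lit 2506) l91 (.c (nat_lit 2443) l69 (.c (nat_lit 579) l42 (.c (nat_lit 2544) l78 (.c (nat_lit 2659) l69 (.c (nat_lit 2505) l179 (.c (nat_lit 2419) l74 (.c (nat_lit 2564) l69 (.c (nat_lit 2499) l52 (.c (nat_lit 2295) l53 (.c (nat_lit 1969) l52 (.c (nat_lit 2685) l117 (.c (nat_lit 1611) l74 (.c (nat_lit 1991) l52 (.c (nat_lit 942) l42 (.c (nat_lit 698) l42 (.c (nat_lit 2575) l171 (.c (nat_lit 2423) l231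 (.c (nat_lit 2352) l74 (.c (nat_lit 2701) l116 (.c (nat_lit 2271) l52 u1_216))))))))))))))))))))))))))))))))))))))))
noncomputable def u1_218 : St := (.c (nat_lit 1199) l42 (.c (nat_lit 2613) l114 (.c (nat_lit 1700) l42 (.c (nat_lit 1270) l42 (.c (nat_lit 1693) l42 (.c (nat_lit 817) l42 (.c (nat_lit 2515) l1 (.c (nat_lit 1137) l42 (.c (nat_lit 2299) l78 (.c (nat_lit 2651) l100 (.c (nat_lit 2484) l108 (.c (nat_lit 1891) l63 (.c (nat_lit 2542) l108 (.c (nat_lit 786) l1 (.c (nat_lit 1877) l48 (.c (nat_lit 1135) l50 (.c (nat_lit 2503) l91 (.c (nat_lit 994) l50 (.c (nat_lit 1966) l48 (.c (nat_lit 2557) l91 (.c (nat_lit 911) l42 (.c (nat_lit 645) l1 (.c (nat_lit 1272) l42 (.c (nat_lit 833) l42 (.c (nat_lit 1002) l42 (.c (nat_lit 2300) l108 (.c (nat_lit 2699) l65 (.c (nat_lit 2138) l1 (.c (nat_lit 1728) l42 (.c (nat_lit 1562) l42 (.c (nat_lit 1410) l42 (.c (nat_lit 1655) l65 (.c (nat_lit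 2255) l53 (.c (nat_lit 2237) l42 (.c (nat_lit 2027) l1 (.c (nat_lit 1424) l42 (.c (nat_lit 992) l1 (.c (nat_lit 2506) l118 (.c (nat_lit 1298) l53 (.c (nat_lit 2700) l114 u1_217))))))))))))))))))))))))))))))))))))))))
noncomputable def u1_219 : St := (.c (nat_lit 2564) l49 (.c (nat_lit 1243) l42 (.c (nat_lit 1600) l42 (.c (nat_lit 1275) l42 (.c (nat_lit 1648) l42 (.c (nat_lit 2458) l1 (.c (nat_lit 1951) l42 (.c (nat_lit 1808) l42 (.c (nat_lit 2596) l1 (.c (nat_lit 1713) l42 (.c (nat_lit 1632) l42 (.c (nat_lit 2628) l69 (.c (nat_lit 2484) l79 (.c (nat_lit 1952) l53 (.c (nat_lit 2282) l231 (.c (nat_lit 2706) l79 (.c (nat_lit 2492) l74 (.c (nat_lit 2004) l53 (.c (nat_lit 2573) l114 (.c (nat_lit 1647) l53 (.c (nat_lit 2646) l80 (.c (nat_lit 1426) l42 (.c (nat_lit 2484) l70 (.c (nat_lit 1581) l2 (.c (nat_lit 2058) l42 (.c (nat_lit 2725) l113 (.c (nat_lit 1989) l53 (.c (nat_lit 2078)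 l53 (.c (nat_lit 1618) l53 (.c (nat_lit 2618) l179 (.c (nat_lit 1869) l1 (.c (nat_lit 2721) l141 (.c (nat_lit 2101) l42 (.c (nat_lit 2697) l104 (.c (nat_lit 2390) l141 (.c (nat_lit 1470) l1 (.c (nat_lit 2208) l97 (.c (nat_lit 1708) l42 (.c (nat_lit 2660) l79 (.c (nat_lit 896) l42 u1_218))))))))))))))))))))))))))))))))))))))))
noncomputable def u1_220 : St := (.c (nat_lit 2453) l50 (.c (nat_lit 1497) l50 (.c (nat_lit 2629) l1 (.c (nat_lit 2181) l53 (.c (nat_lit 2712) l179 (.c (nat_lit 1986) l74 (.c (nat_lit 2282) l74 (.c (nat_lit 1526) l42 (.c (nat_lit 1435) l42 (.c (nat_lit 1336) l42 (.c (nat_lit 2390) l207 (.c (nat_lit 1878) l65 (.c (nat_lit 1508) l65 (.c (nat_lit 2626) l70 (.c (nat_lit 2503) l107 (.c (nat_lit 1942) l53 (.c (nat_lit 2701) l112 (.c (nat_lit 2152) l42 (.c (nat_lit 1281) l42 (.c (nat_lit 2700) l79 (.c (nat_lit 2066) l42 (.c (nat_lit 2104) l50 (.c (nat_lit 2423)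 l108 (.c (nat_lit 2300) l70 (.c (nat_lit 1745) l50 (.c (nat_lit 2090) l42 (.c (nat_lit 2102) l42 (.c (nat_lit 2625) l118 (.c (nat_lit 2483) l78 (.c (nat_lit 2618) l108 (.c (nat_lit 1583) l42 (.c (nat_lit 2700) l70 (.c (nat_lit 2644) l114 (.c (nat_lit 1603) l42 (.c (nat_lit 2653) l79 (.c (nat_lit 2308) l50 (.c (nat_lit 2542) l70 (.c (nat_lit 2094) l42 (.c (nat_lit 2688) l97 (.c (nat_lit 2156) l42 u1_219))))))))))))))))))))))))))))))))))))))))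
noncomputable def u1_221 : St := (.c (nat_lit 2700) l81 (.c (nat_lit 1295) l42 (.c (nat_lit 2068) l42 (.c (nat_lit 2728) l226 (.c (nat_lit 2708) l73 (.c (nat_lit 1748) l42 (.c (nat_lit 1229) l42 (.c (nat_lit 2691) l110 (.c (nat_lit 2586) l141 (.c (nat_lit 2624) l207 (.c (nat_lit 1871) l42 (.c (nat_lit 1158) l42 (.c (nat_lit 2581) l108 (.c (nat_lit 2312) l48 (.c (nat_lit 2696) l117 (.c (nat_lit 1893) l74 (.c (nat_lit 1965) l42 (.c (nat_lit 1907) l42 (.c (nat_lit 1502) l42 (.c (nat_lit 2111) l42 (.c (nat_lit 1883) l42 (.c (nat_lit 1848) l42 (.c (nat_lit 1877) l69 (.c (nat_lit 2231) l50 (.c (nat_lit 2184) l50 (.c (nat_lit 2682) l107 (.c (nat_lit 2561) l50 (.c (nat_lit 2725) l104 (.c (nat_lit 2277) l1 (.c (nat_lit 1909) l50 (.c (nat_lit 1640) l42 (.c (nat_lit 2707) l100 (.c (nat_lit 1949) l42 (.c (nat_lit 2311) l50 (.c (nat_lit 1953) l42 (.c (nat_lit 1482) l42 (.c (nat_lit 2103) l50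 (.c (nat_lit 2286) l1 (.c (nat_lit 1540) l42 (.c (nat_lit 1959) l74 u1_220))))))))))))))))))))))))))))))))))))))))
noncomputable def u1_222 : St := (.c (nat_lit 2669) l64 (.c (nat_lit 2708) l110 (.c (nat_lit 2623) l117 (.c (nat_lit 2696) l100 (.c (nat_lit 2615) l74 (.c (nat_lit 1377) l50 (.c (nat_lit 2262) l52 (.c (nat_lit 2725) l100 (.c (nat_lit 2713) l79 (.c (nat_lit 2614) l65 (.c (nat_lit 1512) l50 (.c (nat_lit 2203) l50 (.c (nat_lit 2725) l107 (.c (nat_lit 2525) l50 (.c (nat_lit 2731) l146 (.c (nat_lit 2435) l50 (.c (nat_lit 1984) l53 (.c (nat_lit 2280) l42 (.c (nat_lit 2599) l50 (.c (nat_lit 2274) l42 (.c (nat_lit 2682) l114 (.c (nat_lit 2462) l141 (.c (nat_lit 1541) l42 (.c (nat_lit 2443) l49 (.c (nat_lit 2636) l49 (.c (nat_lit 2180) l50 (.c (nat_lit 1158) l50 (.c (nat_lit 1892) l65 (.c (nat_lit 2713) l117 (.c (nat_lit 2697) l79 (.c (nat_lit 2436) l63 (.c (nat_lit 2713)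 l80 (.c (nat_lit 2707) l79 (.c (nat_lit 2732) l301 (.c (nat_lit 2130) l42 (.c (nat_lit 1710) l42 (.c (nat_lit 2476) l53 (.c (nat_lit 2675) l179 (.c (nat_lit 2071) l42 (.c (nat_lit 1956) l42 u1_221))))))))))))))))))))))))))))))))))))))))
noncomputable def u1_223 : St := (.c (nat_lit 2722) l67 (.c (nat_lit 2634) l53 (.c (nat_lit 2731) l244 (.c (nat_lit 2327) l42 (.c (nat_lit 2695) l181 (.c (nat_lit 2712) l141 (.c (nat_lit 2731) l203 (.c (nat_lit 2331) l42 (.c (nat_lit 2509) l1 (.c (nat_lit 2685) l116 (.c (nat_lit 2583) l50 (.c (nat_lit 2717) l167 (.c (nat_lit 2597) l78 (.c (nat_lit 2713) l97 (.c (nat_lit 2350) l42 (.c (nat_lit 2658) l112 (.c (nat_lit 2431) l50 (.c (nat_lit 2503) l69 (.c (nat_lit 2705) l231 (.c (nat_lit 2680) l108 (.c (nat_lit 814) l42 (.c (nat_lit 2677) l64 (.c (nat_lit 2453) l65 (.c (nat_lit 2488) l53 (.c (nat_lit 1503) l65 (.c (nat_lit 2110) l65 (.c (nat_lit 2654)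 l108 (.c (nat_lit 2596) l69 (.c (nat_lit 2731) l204 (.c (nat_lit 2636) l69 (.c (nat_lit 2643) l97 (.c (nat_lit 2063) l42 (.c (nat_lit 2732) l280 (.c (nat_lit 2730) l113 (.c (nat_lit 2104) l42 (.c (nat_lit 2014) l42 (.c (nat_lit 2708) l117 (.c (nat_lit 2669) l154 (.c (nat_lit 1888) l42 (.c (nat_lit 2682) l116 u1_222))))))))))))))))))))))))))))))))))))))))
noncomputable def u1_224 : St := (.c (nat_lit 2556) l50 (.c (nat_lit 2728) l73 (.c (nat_lit 2410) l42 (.c (nat_lit 1572) l42 (.c (nat_lit 2575) l74 (.c (nat_lit 2380) l48 (.c (nat_lit 2113) l65 (.c (nat_lit 2491) l141 (.c (nat_lit 2557) l63 (.c (nat_lit 1825) l42 (.c (nat_lit 2170) l63 (.c (nat_lit 2418) l48 (.c (nat_lit 2531) l49 (.c (nat_lit 1800) l42 (.c (nat_lit 2604) l52 (.c (nat_lit 2117) l78 (.c (nat_lit 2173) l78 (.c (nat_lit 2552) l49 (.c (nat_lit 2411) l48 (.c (nat_lit 2117) l48 (.c (nat_lit 2423) l74 (.c (nat_lit 2611)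 l78 (.c (nat_lit 2503) l49 (.c (nat_lit 2582) l49 (.c (nat_lit 2613) l49 (.c (nat_lit 2213) l69 (.c (nat_lit 2543) l42 (.c (nat_lit 2718) l73 (.c (nat_lit 2385) l50 (.c (nat_lit 2721) l100 (.c (nat_lit 2715) l64 (.c (nat_lit 2685) l114 (.c (nat_lit 2670) l50 (.c (nat_lit 2724) l79 (.c (nat_lit 2707) l70 (.c (nat_lit 2724) l114 (.c (nat_lit 2709) l110 (.c (nat_lit 1862) l65 (.c (nat_lit 2312) l52 (.c (nat_lit 2668) l100 u1_223))))))))))))))))))))))))))))))))))))))))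
noncomputable def u1_225 : St := (.c (nat_lit 2704) l79 (.c (nat_lit 2613) l48 (.c (nat_lit 2548) l42 (.c (nat_lit 2602) l74 (.c (nat_lit 2694) l48 (.c (nat_lit 2391) l78 (.c (nat_lit 2690) l108 (.c (nat_lit 2697) l70 (.c (nat_lit 2311) l42 (.c (nat_lit 2707) l104 (.c (nat_lit 2727) l97 (.c (nat_lit 2065) l42 (.c (nat_lit 2638) l50 (.c (nat_lit 2664) l65 (.c (nat_lit 2724) l100 (.c (nat_lit 2731) l202 (.c (nat_lit 2730) l104 (.c (nat_lit 2724) l110 (.c (nat_lit 2520) l42 (.c (nat_lit 2718) l77 (.c (nat_lit 2194) l74 (.c (nat_lit 2707) l114 (.c (nat_lit 2601) l141 (.c (nat_lit 2436) l49 (.c (nat_lit 2503) l63 (.c (nat_lit 2724) l108 (.c (nat_lit 2710) l117 (.c (nat_lit 2718) l246 (.c (nat_lit 2369) l42 (.c (nat_lit 2719) l48 (.c (nat_lit 1942) l42 (.c (nat_lit 2506) l78 (.c (nat_lit 2612) l65 (.c (nat_lit 2700) l97 (.c (nat_lit 2731) l102 (.c (nat_lit 2544) l49 (.c (nat_lit 2630)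 l49 (.c (nat_lit 2688) l65 (.c (nat_lit 2302) l49 (.c (nat_lit 2175) l1 u1_224))))))))))))))))))))))))))))))))))))))))
noncomputable def u1_226 : St := (.c (nat_lit 2726) l114 (.c (nat_lit 2687) l49 (.c (nat_lit 2613) l52 (.c (nat_lit 2582) l52 (.c (nat_lit 2680) l74 (.c (nat_lit 2699) l74 (.c (nat_lit 1524) l74 (.c (nat_lit 2385) l74 (.c (nat_lit 2638) l108 (.c (nat_lit 2717) l112 (.c (nat_lit 2724) l70 (.c (nat_lit 2133) l42 (.c (nat_lit 1522) l42 (.c (nat_lit 2659) l74 (.c (nat_lit 2559) l108 (.c (nat_lit 2708) l112 (.c (nat_lit 1900) l42 (.c (nat_lit 2581) l50 (.c (nat_lit 2687) l48 (.c (nat_lit 2593) l160 (.c (nat_lit 2582) l48 (.c (nat_lit 2559) l74 (.c (nat_lit 2506) l63 (.c (nat_lit 2676) l50 (.c (nat_lit 2681) l65 (.c (nat_lit 2718) l102 (.c (nat_lit 2648) l78 (.c (nat_lit 2436) l48 (.c (nat_lit 2519) l42 (.c (nat_lit 2625) l78 (.c (nat_lit 2726) l102 (.c (nat_lit 2724)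 l117 (.c (nat_lit 2631) l69 (.c (nat_lit 2715) l68 (.c (nat_lit 2715) l221 (.c (nat_lit 2704) l104 (.c (nat_lit 2317) l42 (.c (nat_lit 2554) l42 (.c (nat_lit 2725) l167 (.c (nat_lit 2718) l114 u1_225))))))))))))))))))))))))))))))))))))))))
noncomputable def u1_227 : St := (.c (nat_lit 2690) l74 (.c (nat_lit 2724) l160 (.c (nat_lit 2716) l65 (.c (nat_lit 2721) l97 (.c (nat_lit 2721) l65 (.c (nat_lit 1394) l42 (.c (nat_lit 2355) l160 (.c (nat_lit 2355) l74 (.c (nat_lit 2683) l65 (.c (nat_lit 2621) l74 (.c (nat_lit 2430) l42 (.c (nat_lit 2724) l74 (.c (nat_lit 2436) l69 (.c (nat_lit 2719) l49 (.c (nat_lit 2720) l97 (.c (nat_lit 1781) l42 (.c (nat_lit 2612) l97 (.c (nat_lit 2724) l81 (.c (nat_lit 2617) l231 (.c (nat_lit 2605) l48 (.c (nat_lit 2638) l74 (.c (nat_lit 1207) l42 (.c (nat_lit 2643) l65 (.c (nat_lit 2334) l65 (.c (nat_lit 2712) l207 (.c (nat_lit 2694) l49 (.c (nat_lit 2278)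 l42 (.c (nat_lit 2194) l231 (.c (nat_lit 2587) l74 (.c (nat_lit 2730) l115 (.c (nat_lit 2482) l42 (.c (nat_lit 2654) l42 (.c (nat_lit 2688) l52 (.c (nat_lit 2661) l100 (.c (nat_lit 2721) l70 (.c (nat_lit 2721) l147 (.c (nat_lit 2712) l74 (.c (nat_lit 2593) l74 (.c (nat_lit 2587) l179 (.c (nat_lit 2581) l74 u1_226))))))))))))))))))))))))))))))))))))))))
noncomputable def u1_228 : St := (.c (nat_lit 2698) l114 (.c (nat_lit 1937) l53 (.c (nat_lit 1160) l53 (.c (nat_lit 2719) l110 (.c (nat_lit 2302) l52 (.c (nat_lit 2305) l74 (.c (nat_lit 2655) l118 (.c (nat_lit 994) l1 (.c (nat_lit 2165) l53 (.c (nat_lit 2159) l74 (.c (nat_lit 2105) l48 (.c (nat_lit 2659) l179 (.c (nat_lit 2157) l52 (.c (nat_lit 2150) l74 (.c (nat_lit 2416) l108 (.c (nat_lit 2566) l179 (.c (nat_lit 2282) l78 (.c (nat_lit 1634) l74 (.c (nat_lit 2000) l74 (.c (nat_lit 2626) l79 (.c (nat_lit 2302) l78 (.c (nat_lit 2512)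 l48 .e))))))))))))))))))))))
noncomputable def u1_229 : St := (.c (nat_lit 2512) l49 (.c (nat_lit 2004) l53 (.c (nat_lit 1743) l42 (.c (nat_lit 1581) l2 (.c (nat_lit 2562) l53 (.c (nat_lit 2155) l53 (.c (nat_lit 1661) l1 (.c (nat_lit 1508) l1 (.c (nat_lit 2661) l63 (.c (nat_lit 2697) l104 (.c (nat_lit 2208) l97 (.c (nat_lit 989) l42 (.c (nat_lit 2296) l52 (.c (nat_lit 1135) l1 (.c (nat_lit 1137) l42 (.c (nat_lit 2299) l78 (.c (nat_lit 1891) l63 (.c (nat_lit 786) l1 (.c (nat_lit 790) l42 (.c (nat_lit 1135) l50 (.c (nat_lit 2503) l91 (.c (nat_lit 1966) l48 (.c (nat_lit 1966) l63 (.c (nat_lit 2557) l91 (.c (nat_lit 911) l42 (.c (nat_lit 1272) l42 (.c (nat_lit 1002) l42 (.c (nat_lit 2185) l49 (.c (nat_lit 2027) l1 (.c (nat_lit 2312) l49 (.c (nat_lit 2362) l53 (.c (nat_lit 2544) l78 (.c (nat_lit 2419) l74 (.c (nat_lit 2499) l52 (.c (nat_lit 1611) l74 (.c (nat_lit 1991) l52 (.c (nat_lit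 2562) l74 (.c (nat_lit 2352) l74 (.c (nat_lit 2243) l53 (.c (nat_lit 1968) l74 u1_228))))))))))))))))))))))))))))))))))))))))
noncomputable def u1_230 : St := (.c (nat_lit 2210) l52 (.c (nat_lit 2731) l203 (.c (nat_lit 2544) l52 (.c (nat_lit 2509) l1 (.c (nat_lit 2717) l167 (.c (nat_lit 2503) l69 (.c (nat_lit 2214) l108 (.c (nat_lit 814) l42 (.c (nat_lit 2444) l141 (.c (nat_lit 2636) l69 (.c (nat_lit 2715) l100 (.c (nat_lit 1544) l42 (.c (nat_lit 2048) l42 (.c (nat_lit 2696) l100 (.c (nat_lit 1377) l50 (.c (nat_lit 2204) l49 (.c (nat_lit 2697) l79 (.c (nat_lit 1710) l42 (.c (nat_lit 2353) l52 (.c (nat_lit 1229) l42 (.c (nat_lit 2477) l52 (.c (nat_lit 488) l42 (.c (nat_lit 2565) l52 (.c (nat_lit 2312) l48 (.c (nat_lit 2636) l63 (.c (nat_lit 2696) l117 (.c (nat_lit 2204) l48 (.c (nat_lit 2351) l74 (.c (nat_lit 1811) l42 (.c (nat_lit 2696) l70 (.c (nat_lit 2390) l207 (.c (nat_lit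 1878) l65 (.c (nat_lit 1508) l65 (.c (nat_lit 2626) l70 (.c (nat_lit 2503) l107 (.c (nat_lit 2696) l81 (.c (nat_lit 1758) l42 (.c (nat_lit 2483) l78 (.c (nat_lit 2653) l79 (.c (nat_lit 1507) l42 u1_229))))))))))))))))))))))))))))))))))))))))
noncomputable def u1_231 : St := (.c (nat_lit 2185) l48 (.c (nat_lit 1394) l42 (.c (nat_lit 2355) l74 (.c (nat_lit 2719) l49 (.c (nat_lit 2404) l74 (.c (nat_lit 2664) l78 (.c (nat_lit 2664) l52 (.c (nat_lit 2541) l74 (.c (nat_lit 2726) l110 (.c (nat_lit 2558) l141 (.c (nat_lit 2654) l42 (.c (nat_lit 2721) l70 (.c (nat_lit 2721) l147 (.c (nat_lit 2691) l78 (.c (nat_lit 2635) l78 (.c (nat_lit 2726) l114 (.c (nat_lit 2687) l49 (.c (nat_lit 2728) l178 (.c (nat_lit 2582) l78 (.c (nat_lit 2728) l77 (.c (nat_lit 2691) l118 (.c (nat_lit 2717) l112 (.c (nat_lit 2659) l74 (.c (nat_lit 2655) l78 (.c (nat_lit 2687) l48 (.c (nat_lit 2661) l69 (.c (nat_lit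 2214) l179 (.c (nat_lit 2307) l1 (.c (nat_lit 2577) l69 (.c (nat_lit 2721) l104 (.c (nat_lit 2697) l70 (.c (nat_lit 2728) l154 (.c (nat_lit 2503) l63 (.c (nat_lit 2719) l48 (.c (nat_lit 2728) l73 (.c (nat_lit 2557) l63 (.c (nat_lit 2213) l69 (.c (nat_lit 2721) l100 (.c (nat_lit 1891) l52 (.c (nat_lit 2312) l52 u1_230))))))))))))))))))))))))))))))))))))))))
noncomputable def u1_232 : St := (.c (nat_lit 1969) l52 (.c (nat_lit 1991) l52 (.c (nat_lit 2352) l74 (.c (nat_lit 2243) l53 (.c (nat_lit 2271) l52 (.c (nat_lit 2698) l114 (.c (nat_lit 1937) l53 (.c (nat_lit 1160) l53 (.c (nat_lit 2413) l53 (.c (nat_lit 2271) l78 (.c (nat_lit 1629) l74 (.c (nat_lit 1713) l53 (.c (nat_lit 2165) l53 (.c (nat_lit 2159) l74 (.c (nat_lit 2105) l48 (.c (nat_lit 2157) l52 (.c (nat_lit 2150) l74 (.c (nat_lit 1634) l74 (.c (nat_lit 1987) l74 (.c (nat_lit 2300) l179 (.c (nat_lit 2626) l79 (.c (nat_lit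 1624) l53 (.c (nat_lit 2651) l110 .e)))))))))))))))))))))))
noncomputable def u1_233 : St := (.c (nat_lit 2355) l74 (.c (nat_lit 2048) l42 (.c (nat_lit 2652) l160 (.c (nat_lit 1984) l53 (.c (nat_lit 1710) l42 (.c (nat_lit 2301) l53 (.c (nat_lit 2624) l108 (.c (nat_lit 2626) l70 (.c (nat_lit 1758) l42 (.c (nat_lit 2653) l79 (.c (nat_lit 1743) l42 (.c (nat_lit 1426) l42 (.c (nat_lit 2562) l53 (.c (nat_lit 2273) l53 (.c (nat_lit 2078) l53 (.c (nat_lit 1618) l53 (.c (nat_lit 2651) l79 (.c (nat_lit 1749) l42 (.c (nat_lit 1277) l42 (.c (nat_lit 1199) l42 (.c (nat_lit 856) l42 (.c (nat_lit 1239) l42 (.c (nat_lit 1270) l42 (.c (nat_lit 1167) l1 (.c (nat_lit 2296) l52 (.c (nat_lit 1135) l1 (.c (nat_lit 2299) l78 (.c (nat_lit 786) l1 (.c (nat_lit 790) l42 (.c (nat_lit 645) l1 (.c (nat_lit 572) l42 (.c (nat_lit 2300) l108 (.c (nat_lit 2200) l1 (.c (nat_lit 536) l42 (.c (nat_lit 784) l1 (.c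 (nat_lit 2501) l108 (.c (nat_lit 2362) l53 (.c (nat_lit 2419) l74 (.c (nat_lit 2295) l53 (.c (nat_lit 2297) l53 u1_232))))))))))))))))))))))))))))))))))))))))
noncomputable def u1_234 : St := (.c (nat_lit 994) l1 (.c (nat_lit 2385) l108 (.c (nat_lit 2368) l74 (.c (nat_lit 2645) l74 (.c (nat_lit 2159) l74 (.c (nat_lit 2560) l114 (.c (nat_lit 2659) l179 (.c (nat_lit 2107) l74 (.c (nat_lit 2391) l231 (.c (nat_lit 2157) l52 (.c (nat_lit 2155) l74 (.c (nat_lit 2157) l78 (.c (nat_lit 2658) l117 (.c (nat_lit 2150) l74 (.c (nat_lit 2416) l108 (.c (nat_lit 2282) l78 (.c (nat_lit 2541) l78 (.c (nat_lit 1624) l53 (.c (nat_lit 2232) l63 .e)))))))))))))))))))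
noncomputable def u1_235 : St := (.c (nat_lit 2651) l100 (.c (nat_lit 2484) l108 (.c (nat_lit 1891) l63 (.c (nat_lit 1877) l48 (.c (nat_lit 790) l42 (.c (nat_lit 1135) l50 (.c (nat_lit 2208) l157 (.c (nat_lit 2573) l140 (.c (nat_lit 1966) l63 (.c (nat_lit 645) l1 (.c (nat_lit 572) l42 (.c (nat_lit 2313) l42 (.c (nat_lit 2504) l74 (.c (nat_lit 2300) l108 (.c (nat_lit 2270) l74 (.c (nat_lit 1179) l42 (.c (nat_lit 2200) l1 (.c (nat_lit 536) l42 (.c (nat_lit 2027) l1 (.c (nat_lit 871) l42 (.c (nat_lit 1424) l42 (.c (nat_lit 992) l1 (.c (nat_lit 2232) l49 (.c (nat_lit 2501) l108 (.c (nat_lit 2362) l53 (.c (nat_lit 2419) l74 (.c (nat_lit 2020) l50 (.c (nat_lit 2658) l104 (.c (nat_lit 2564) l69 (.c (nat_lit 2295) l53 (.c (nat_lit 2297) l53 (.c (nat_lit 1991) l52 (.c (nat_lit 2719) l114 (.c (nat_lit 1056) l42 (.c (nat_lit 2243) l53 (.c (nat_lit 2271) l52 (.c (nat_lit 2698) l114 (.c (nat_lit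 2302) l52 (.c (nat_lit 2305) l74 (.c (nat_lit 2564) l63 u1_234))))))))))))))))))))))))))))))))))))))))
noncomputable def u1_236 : St := (.c (nat_lit 1878) l65 (.c (nat_lit 1508) l65 (.c (nat_lit 2626) l70 (.c (nat_lit 2260) l74 (.c (nat_lit 2066) l42 (.c (nat_lit 1758) l42 (.c (nat_lit 802) l42 (.c (nat_lit 2259) l2 (.c (nat_lit 2653) l79 (.c (nat_lit 1387) l42 (.c (nat_lit 1245) l42 (.c (nat_lit 2512) l49 (.c (nat_lit 1652) l42 (.c (nat_lit 1632) l42 (.c (nat_lit 2628) l69 (.c (nat_lit 2004) l53 (.c (nat_lit 1743) l42 (.c (nat_lit 1581) l2 (.c (nat_lit 1323) l42 (.c (nat_lit 2415) l74 (.c (nat_lit 2273) l53 (.c (nat_lit 2078) l53 (.c (nat_lit 1813) l42 (.c (nat_lit 1618) l53 (.c (nat_lit 1235) l42 (.c (nat_lit 1661) l1 (.c (nat_lit 1869) l1 (.c (nat_lit 1508) l1 (.c (nat_lit 2101) l42 (.c (nat_lit 2661) l63 (.c (nat_lit 2697) l104 (.c (nat_lit 1470) l1 (.c (nat_lit 2208) l97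 (.c (nat_lit 1199) l42 (.c (nat_lit 1239) l42 (.c (nat_lit 1270) l42 (.c (nat_lit 1751) l42 (.c (nat_lit 1135) l1 (.c (nat_lit 1137) l42 (.c (nat_lit 2299) l78 u1_235))))))))))))))))))))))))))))))))))))))))
noncomputable def u1_237 : St := (.c (nat_lit 2721) l100 (.c (nat_lit 1891) l52 (.c (nat_lit 2312) l52 (.c (nat_lit 2210) l52 (.c (nat_lit 2110) l50 (.c (nat_lit 2637) l52 (.c (nat_lit 2731) l203 (.c (nat_lit 2509) l1 (.c (nat_lit 1530) l74 (.c (nat_lit 2214) l108 (.c (nat_lit 814) l42 (.c (nat_lit 1890) l42 (.c (nat_lit 2444) l141 (.c (nat_lit 2636) l69 (.c (nat_lit 2715) l100 (.c (nat_lit 1544) l42 (.c (nat_lit 2048) l42 (.c (nat_lit 2667) l97 (.c (nat_lit 2351) l53 (.c (nat_lit 1377) l50 (.c (nat_lit 2262) l52 (.c (nat_lit 1984) l53 (.c (nat_lit 2697) l79 (.c (nat_lit 1710) l42 (.c (nat_lit 2353) l52 (.c (nat_lit 1229) l42 (.c (nat_lit 2592) l48 (.c (nat_lit 488) l42 (.c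 (nat_lit 1158) l42 (.c (nat_lit 2636) l63 (.c (nat_lit 1893) l74 (.c (nat_lit 2543) l53 (.c (nat_lit 1811) l42 (.c (nat_lit 2111) l42 (.c (nat_lit 1848) l42 (.c (nat_lit 2260) l53 (.c (nat_lit 2624) l108 (.c (nat_lit 1526) l42 (.c (nat_lit 1336) l42 (.c (nat_lit 2390) l207 u1_236))))))))))))))))))))))))))))))))))))))))
noncomputable def u1_238 : St := (.c (nat_lit 2502) l108 (.c (nat_lit 2719) l49 (.c (nat_lit 2404) l74 (.c (nat_lit 2592) l49 (.c (nat_lit 1869) l42 (.c (nat_lit 2313) l1 (.c (nat_lit 2667) l65 (.c (nat_lit 2664) l78 (.c (nat_lit 2664) l52 (.c (nat_lit 1763) l42 (.c (nat_lit 2541) l74 (.c (nat_lit 2726) l110 (.c (nat_lit 2558) l141 (.c (nat_lit 2293) l74 (.c (nat_lit 2654) l42 (.c (nat_lit 2721) l70 (.c (nat_lit 2721) l147 (.c (nat_lit 2113) l42 (.c (nat_lit 2635) l78 (.c (nat_lit 2726) l114 (.c (nat_lit 2687) l49 (.c (nat_lit 2728) l178 (.c (nat_lit 2582) l78 (.c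 (nat_lit 2728) l77 (.c (nat_lit 2385) l74 (.c (nat_lit 2659) l74 (.c (nat_lit 2687) l48 (.c (nat_lit 2661) l69 (.c (nat_lit 2214) l179 (.c (nat_lit 2307) l1 (.c (nat_lit 2577) l69 (.c (nat_lit 2721) l104 (.c (nat_lit 2697) l70 (.c (nat_lit 2653) l70 (.c (nat_lit 2728) l154 (.c (nat_lit 2719) l48 (.c (nat_lit 2667) l141 (.c (nat_lit 2728) l73 (.c (nat_lit 2573) l48 (.c (nat_lit 2213) l69 u1_237))))))))))))))))))))))))))))))))))))))))
noncomputable def u1_239 : St := (.c (nat_lit 1624) l53 (.c (nat_lit 1993) l74 (.c (nat_lit 2302) l78 .e)))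
noncomputable def u1_240 : St := (.c (nat_lit 2048) l42 (.c (nat_lit 1984) l53 (.c (nat_lit 1710) l42 (.c (nat_lit 2301) l53 (.c (nat_lit 2624) l108 (.c (nat_lit 2626) l70 (.c (nat_lit 1758) l42 (.c (nat_lit 1743) l42 (.c (nat_lit 1426) l42 (.c (nat_lit 2273) l53 (.c (nat_lit 2078) l53 (.c (nat_lit 1618) l53 (.c (nat_lit 1277) l42 (.c (nat_lit 1199) l42 (.c (nat_lit 856) l42 (.c (nat_lit 1239) l42 (.c (nat_lit 1270) l42 (.c (nat_lit 1167) l1 (.c (nat_lit 2296) l52 (.c (nat_lit 1135) l1 (.c (nat_lit 2299) l78 (.c (nat_lit 786) l1 (.c (nat_lit 790) l42 (.c (nat_lit 645) l1 (.c (nat_lit 572) l42 (.c (nat_lit 2300) l108 (.c (nat_lit 2200) l1 (.c (nat_lit 536) l42 (.c (nat_lit 784) l1 (.c (nat_lit 2501) l108 (.c (nat_lit 2295) l53 (.c (nat_lit 2297) l53 (.c (nat_lit 1991) l52 (.c (nat_lit 1160) l53 (.c (nat_lit 2302) l52 (.c (nat_lit 994) l1 (.c (nat_lit 1713) l53 (.c (nat_lit 2000)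 l74 (.c (nat_lit 2300) l179 (.c (nat_lit 2626) l79 u1_239))))))))))))))))))))))))))))))))))))))))
noncomputable def u1_241 : St := (.c (nat_lit 2048) l42 (.c (nat_lit 1984) l53 (.c (nat_lit 1710) l42 (.c (nat_lit 2301) l53 (.c (nat_lit 2624) l108 (.c (nat_lit 2626) l70 (.c (nat_lit 1758) l42 (.c (nat_lit 1743) l42 (.c (nat_lit 1426) l42 (.c (nat_lit 2273) l53 (.c (nat_lit 2078) l53 (.c (nat_lit 1618) l53 (.c (nat_lit 1277) l42 (.c (nat_lit 1199) l42 (.c (nat_lit 856) l42 (.c (nat_lit 1239) l42 (.c (nat_lit 1270) l42 (.c (nat_lit 1167) l1 (.c (nat_lit 2296) l52 (.c (nat_lit 1135) l1 (.c (nat_lit 786) l1 (.c (nat_lit 790) l42 (.c (nat_lit 645) l1 (.c (nat_lit 572) l42 (.c (nat_lit 2300) l108 (.c (nat_lit 2200) l1 (.c (nat_lit 536) l42 (.c (nat_lit 784) l1 (.c (nat_lit 2501) l108 (.c (nat_lit 2295) l53 (.c (nat_lit 2297) l53 (.c (nat_lit 1160) l53 (.c (nat_lit 994) l1 (.c (nat_lit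 1629) l74 (.c (nat_lit 1713) l53 (.c (nat_lit 2300) l179 (.c (nat_lit 2626) l79 .e)))))))))))))))))))))))))))))))))))))
noncomputable def u1_242 : St := (.c (nat_lit 1984) l53 (.c (nat_lit 2301) l53 (.c (nat_lit 2624) l108 (.c (nat_lit 2273) l53 (.c (nat_lit 2078) l53 (.c (nat_lit 1618) l53 (.c (nat_lit 1277) l42 (.c (nat_lit 1199) l42 (.c (nat_lit 856) l42 (.c (nat_lit 1239) l42 (.c (nat_lit 1270) l42 (.c (nat_lit 1167) l1 (.c (nat_lit 2296) l52 (.c (nat_lit 2300) l108 (.c (nat_lit 2200) l1 (.c (nat_lit 536) l42 (.c (nat_lit 2501) l108 (.c (nat_lit 2295) l53 (.c (nat_lit 2297) l53 (.c (nat_lit 1629) l74 (.c (nat_lit 2300) l179 .e)))))))))))))))))))))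
noncomputable def u1_243 : St := (.c (nat_lit 1394) l42 (.c (nat_lit 2404) l74 (.c (nat_lit 2262) l52 (.c (nat_lit 2353) l52 (.c (nat_lit 2565) l52 (.c (nat_lit 2701) l112 (.c (nat_lit 2483) l78 (.c (nat_lit 2155) l53 (.c (nat_lit 2415) l74 (.c (nat_lit 2299) l78 (.c (nat_lit 1396) l42 (.c (nat_lit 2564) l69 (.c (nat_lit 2719) l114 (.c (nat_lit 698) l42 (.c (nat_lit 2701) l116 (.c (nat_lit 2271) l52 (.c (nat_lit 1160) l53 (.c (nat_lit 2719) l110 (.c (nat_lit 2564) l63 (.c (nat_lit 2271) l78 (.c (nat_lit 1629) l74 (.c (nat_lit 2368) l74 (.c (nat_lit 2159) l74 (.c (nat_lit 2391) l231 (.c (nat_lit 2155) l74 (.c (nat_lit 2157) l78 (.c (nat_lit 2150) l74 (.c (nat_lit 2416) l108 (.c (nat_lit 2566) l179 (.c (nat_lit 2282) l78 (.c (nat_lit 2541) l78 (.c (nat_lit 2382) l74 .e))))))))))))))))))))))))))))))))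
noncomputable def u1_244 : St := (.c (nat_lit 2351) l53 (.c (nat_lit 2262) l52 (.c (nat_lit 2652) l160 (.c (nat_lit 2353) l52 (.c (nat_lit 2351) l74 (.c (nat_lit 2543) l53 (.c (nat_lit 2701) l112 (.c (nat_lit 2483) l78 (.c (nat_lit 2653) l79 (.c (nat_lit 1749) l42 (.c (nat_lit 1947) l74 (.c (nat_lit 698) l42 (.c (nat_lit 2562) l74 (.c (nat_lit 2701) l116 (.c (nat_lit 2698) l114 (.c (nat_lit 2413) l53 (.c (nat_lit 994) l1 (.c (nat_lit 2368) l74 (.c (nat_lit 2645) l74 (.c (nat_lit 2560) l114 (.c (nat_lit 2107) l74 (.c (nat_lit 2391) l231 (.c (nat_lit 2541) l78 .e)))))))))))))))))))))))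
noncomputable def u1_245 : St := (.c (nat_lit 1394) l42 (.c (nat_lit 2404) l74 (.c (nat_lit 2565) l52 (.c (nat_lit 2701) l112 (.c (nat_lit 2155) l53 (.c (nat_lit 2415) l74 (.c (nat_lit 1396) l42 (.c (nat_lit 1947) l74 (.c (nat_lit 2564) l69 (.c (nat_lit 1969) l52 (.c (nat_lit 1991) l52 (.c (nat_lit 2719) l114 (.c (nat_lit 2701) l116 (.c (nat_lit 1160) l53 (.c (nat_lit 2719) l110 (.c (nat_lit 2564) l63 (.c (nat_lit 1629) l74 (.c (nat_lit 2368) l74 (.c (nat_lit 2159) l74 (.c (nat_lit 2107) l74 (.c (nat_lit 2155) l74 (.c (nat_lit 2150) l74 (.c (nat_lit 2416) l108 (.c (nat_lit 2566) l179 (.c (nat_lit 2282) l78 .e)))))))))))))))))))))))))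
noncomputable def u1_246 : St := (.c (nat_lit 1056) l42 (.c (nat_lit 698) l42 (.c (nat_lit 2575) l171 (.c (nat_lit 2562) l74 (.c (nat_lit 2352) l74 (.c (nat_lit 2701) l116 (.c (nat_lit 2243) l53 (.c (nat_lit 2566) l160 (.c (nat_lit 2564) l63 (.c (nat_lit 994) l1 (.c (nat_lit 2656) l65 (.c (nat_lit 2385) l108 (.c (nat_lit 1713) l53 (.c (nat_lit 2159) l74 (.c (nat_lit 2560) l114 (.c (nat_lit 2157) l52 (.c (nat_lit 2658) l117 .e)))))))))))))))))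
noncomputable def u1_247 : St := (.c (nat_lit 2693) l48 (.c (nat_lit 2355) l74 (.c (nat_lit 2404) l74 (.c (nat_lit 2664) l52 (.c (nat_lit 2683) l49 (.c (nat_lit 2654) l42 (.c (nat_lit 2688) l52 (.c (nat_lit 2728) l77 (.c (nat_lit 2385) l74 (.c (nat_lit 2575) l160 (.c (nat_lit 2686) l48 (.c (nat_lit 2684) l52 (.c (nat_lit 2172) l74 (.c (nat_lit 2575) l74 (.c (nat_lit 2660) l108 (.c (nat_lit 2728) l68 (.c (nat_lit 2667) l49 (.c (nat_lit 2411) l48 (.c (nat_lit 2660) l160 (.c (nat_lit 2658) l112 (.c (nat_lit 2656) l97 (.c (nat_lit 1295) l42 (.c (nat_lit 2565) l52 (.c (nat_lit 2701) l112 (.c (nat_lit 2562) l53 (.c (nat_lit 2660) l79 (.c (nat_lit 989) l42 (.c (nat_lit 1396) l42 (.c (nat_lit 1298) l53 (.c (nat_lit 1377) l1 (.c (nat_lit 2576) l114 (.c (nat_lit 2656) l141 (.c (nat_lit 579) l42 (.c (nat_lit 2362) l53 (.c (nat_lit 2505) l179 (.c (nat_lit 2419) l74 (.c (nat_lit 2148) l53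 (.c (nat_lit 2658) l104 (.c (nat_lit 2564) l69 (.c (nat_lit 942) l42 u1_246))))))))))))))))))))))))))))))))))))))))
noncomputable def u1_248 : St := (.c (nat_lit 2351) l53 (.c (nat_lit 2652) l160 (.c (nat_lit 2351) l74 (.c (nat_lit 2543) l53 (.c (nat_lit 2701) l112 (.c (nat_lit 2653) l79 (.c (nat_lit 1749) l42 (.c (nat_lit 2562) l74 (.c (nat_lit 2701) l116 (.c (nat_lit 2698) l114 (.c (nat_lit 2413) l53 (.c (nat_lit 994) l1 (.c (nat_lit 2368) l74 (.c (nat_lit 2645) l74 (.c (nat_lit 2560) l114 .e)))))))))))))))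
noncomputable def u1_249 : St := (.c (nat_lit 1394) l42 (.c (nat_lit 2404) l74 (.c (nat_lit 2659) l74 (.c (nat_lit 2351) l53 (.c (nat_lit 2652) l160 (.c (nat_lit 2565) l52 (.c (nat_lit 2351) l74 (.c (nat_lit 2543) l53 (.c (nat_lit 1811) l42 (.c (nat_lit 2701) l112 (.c (nat_lit 2653) l79 (.c (nat_lit 1749) l42 (.c (nat_lit 2299) l78 (.c (nat_lit 1396) l42 (.c (nat_lit 1040) l42 (.c (nat_lit 1410) l42 (.c (nat_lit 1424) l42 (.c (nat_lit 2419) l74 (.c (nat_lit 2564) l69 (.c (nat_lit 1969) l52 (.c (nat_lit 1991) l52 (.c (nat_lit 698) l42 (.c (nat_lit 2562) l74 (.c (nat_lit 2701) l116 (.c (nat_lit 2271) l52 (.c (nat_lit 2698) l114 (.c (nat_lit 2566) l108 (.c (nat_lit 2659) l108 (.c (nat_lit 2564) l63 (.c (nat_lit 2271) l78 (.c (nat_lit 2368) l74 (.c (nat_lit 2645) l74 .e))))))))))))))))))))))))))))))))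
noncomputable def u1_250 : St := (.c (nat_lit 2562) l74 (.c (nat_lit 2352) l74 (.c (nat_lit 2271) l52 (.c (nat_lit 2261) l74 (.c (nat_lit 2302) l52 (.c (nat_lit 2305) l74 (.c (nat_lit 2566) l160 (.c (nat_lit 2656) l65 .e))))))))
noncomputable def u1_251 : St := (.c (nat_lit 2264) l74 (.c (nat_lit 2693) l48 (.c (nat_lit 2355) l74 (.c (nat_lit 2404) l74 (.c (nat_lit 2664) l52 (.c (nat_lit 2683) l49 (.c (nat_lit 2654) l42 (.c (nat_lit 2688) l52 (.c (nat_lit 2728) l77 (.c (nat_lit 2575) l160 (.c (nat_lit 2686) l48 (.c (nat_lit 2684) l52 (.c (nat_lit 2172) l74 (.c (nat_lit 2575) l74 (.c (nat_lit 2660) l108 (.c (nat_lit 2728) l68 (.c (nat_lit 2667) l49 (.c (nat_lit 2411) l48 (.c (nat_lit 2660) l160 (.c (nat_lit 2544) l52 (.c (nat_lit 2658) l112 (.c (nat_lit 2656) l97 (.c (nat_lit 2262) l52 (.c (nat_lit 1295) l42 (.c (nat_lit 2483) l78 (.c (nat_lit 2004) l53 (.c (nat_lit 2562) l53 (.c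 (nat_lit 2660) l79 (.c (nat_lit 1298) l53 (.c (nat_lit 2576) l114 (.c (nat_lit 1947) l74 (.c (nat_lit 2656) l141 (.c (nat_lit 579) l42 (.c (nat_lit 2544) l78 (.c (nat_lit 2505) l179 (.c (nat_lit 2148) l53 (.c (nat_lit 1969) l52 (.c (nat_lit 1611) l74 (.c (nat_lit 942) l42 (.c (nat_lit 2575) l171 u1_250))))))))))))))))))))))))))))))))))))))))
noncomputable def u1_252 : St := (.c (nat_lit 1394) l42 (.c (nat_lit 2404) l74 (.c (nat_lit 2659) l74 (.c (nat_lit 2565) l52 (.c (nat_lit 1811) l42 (.c (nat_lit 1396) l42 (.c (nat_lit 1040) l42 (.c (nat_lit 1410) l42 (.c (nat_lit 1424) l42 (.c (nat_lit 2419) l74 (.c (nat_lit 2564) l69 (.c (nat_lit 698) l42 (.c (nat_lit 2413) l53 (.c (nat_lit 2566) l108 (.c (nat_lit 2659) l108 (.c (nat_lit 2564) l63 .e))))))))))))))))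
noncomputable def u1_253 : St := (.c (nat_lit 1394) l42 (.c (nat_lit 2404) l74 (.c (nat_lit 2659) l74 (.c (nat_lit 1811) l42 (.c (nat_lit 2413) l74 (.c (nat_lit 1396) l42 (.c (nat_lit 1040) l42 (.c (nat_lit 1410) l42 (.c (nat_lit 1424) l42 (.c (nat_lit 2419) l74 (.c (nat_lit 698) l42 (.c (nat_lit 2566) l108 (.c (nat_lit 2659) l108 .e)))))))))))))
noncomputable def u1_254 : St := (.c (nat_lit 2698) l114 (.c (nat_lit 2261) l74 (.c (nat_lit 1937) l53 (.c (nat_lit 2593) l108 .e))))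
noncomputable def u1_255 : St := (.c (nat_lit 2626) l70 (.c (nat_lit 2701) l112 (.c (nat_lit 1758) l42 (.c (nat_lit 2653) l79 (.c (nat_lit 1507) l42 (.c (nat_lit 1743) l42 (.c (nat_lit 1581) l2 (.c (nat_lit 2562) l53 (.c (nat_lit 1508) l1 (.c (nat_lit 2390) l141 (.c (nat_lit 2208) l97 (.c (nat_lit 989) l42 (.c (nat_lit 1135) l1 (.c (nat_lit 2515) l1 (.c (nat_lit 1137) l42 (.c (nat_lit 2651) l100 (.c (nat_lit 2484) l108 (.c (nat_lit 2208) l157 (.c (nat_lit 1368) l42 (.c (nat_lit 911) l42 (.c (nat_lit 645) l1 (.c (nat_lit 1272) l42 (.c (nat_lit 572) l42 (.c (nat_lit 2313) l42 (.c (nat_lit 833) l42 (.c (nat_lit 2504) l74 (.c (nat_lit 2185) l49 (.c (nat_lit 2270) l74 (.c (nat_lit 1377) l1 (.c (nat_lit 2312) l49 (.c (nat_lit 2419) l74 (.c (nat_lit 2295) l53 (.c (nat_lit 1969) l52 (.c (nat_lit 1991) l52 (.c (nat_lit 2719) l114 (.c (nat_lit 1056) l42 (.c (nat_lit 2562) l74 (.c (nat_lit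 2352) l74 (.c (nat_lit 2701) l116 (.c (nat_lit 2243) l53 u1_254))))))))))))))))))))))))))))))))))))))))
noncomputable def u1_256 : St := (.c (nat_lit 2502) l108 (.c (nat_lit 2185) l48 (.c (nat_lit 2264) l74 (.c (nat_lit 2355) l74 (.c (nat_lit 2404) l74 (.c (nat_lit 2592) l49 (.c (nat_lit 2313) l1 (.c (nat_lit 1763) l42 (.c (nat_lit 2293) l74 (.c (nat_lit 2113) l42 (.c (nat_lit 2593) l74 (.c (nat_lit 2204) l52 (.c (nat_lit 1522) l42 (.c (nat_lit 2593) l160 (.c (nat_lit 2558) l65 (.c (nat_lit 2653) l70 (.c (nat_lit 2113) l65 (.c (nat_lit 2312) l52 (.c (nat_lit 1530) l74 (.c (nat_lit 2214) l108 (.c (nat_lit 2444) l141 (.c (nat_lit 1544) l42 (.c (nat_lit 2048) l42 (.c (nat_lit 2351) l53 (.c (nat_lit 2204) l49 (.c (nat_lit 2697) l79 (.c (nat_lit 1710) l42 (.c (nat_lit 2353) l52 (.c (nat_lit 1229) l42 (.c (nat_lit 2592) l48 (.c (nat_lit 2565) l52 (.c (nat_lit 2312) l48 (.c (nat_lit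 2204) l48 (.c (nat_lit 2351) l74 (.c (nat_lit 2558) l152 (.c (nat_lit 2501) l74 (.c (nat_lit 2301) l53 (.c (nat_lit 1526) l42 (.c (nat_lit 1192) l42 (.c (nat_lit 2390) l207 u1_255))))))))))))))))))))))))))))))))))))))))
noncomputable def u1_257 : St := (.c (nat_lit 2592) l49 (.c (nat_lit 2313) l1 (.c (nat_lit 1763) l42 (.c (nat_lit 2113) l42 (.c (nat_lit 2544) l52 (.c (nat_lit 2488) l52 (.c (nat_lit 2048) l42 (.c (nat_lit 2262) l52 (.c (nat_lit 2697) l79 (.c (nat_lit 1710) l42 (.c (nat_lit 2592) l48 (.c (nat_lit 2565) l52 (.c (nat_lit 2626) l70 (.c (nat_lit 1758) l42 (.c (nat_lit 2483) l78 (.c (nat_lit 2653) l79 (.c (nat_lit 1743) l42 (.c (nat_lit 1426) l42 (.c (nat_lit 2296) l52 (.c (nat_lit 1135) l1 (.c (nat_lit 786) l1 (.c (nat_lit 790) l42 (.c (nat_lit 645) l1 (.c (nat_lit 572) l42 (.c (nat_lit 2313) l42 (.c (nat_lit 784) l1 (.c (nat_lit 2362) l53 (.c (nat_lit 2544) l78 (.c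 (nat_lit 2499) l52 (.c (nat_lit 1611) l74 (.c (nat_lit 2719) l114 (.c (nat_lit 1968) l74 (.c (nat_lit 2698) l114 .e)))))))))))))))))))))))))))))))))
noncomputable def u1_258 : St := (.c (nat_lit 2592) l49 (.c (nat_lit 2313) l1 (.c (nat_lit 1763) l42 (.c (nat_lit 2113) l42 (.c (nat_lit 2544) l52 (.c (nat_lit 2488) l52 (.c (nat_lit 2048) l42 (.c (nat_lit 2262) l52 (.c (nat_lit 2652) l160 (.c (nat_lit 2697) l79 (.c (nat_lit 1710) l42 (.c (nat_lit 2592) l48 (.c (nat_lit 2565) l52 (.c (nat_lit 2626) l70 (.c (nat_lit 2413) l74 (.c (nat_lit 1758) l42 (.c (nat_lit 2483) l78 (.c (nat_lit 1743) l42 (.c (nat_lit 1426) l42 (.c (nat_lit 2562) l53 (.c (nat_lit 1749) l42 (.c (nat_lit 2296) l52 (.c (nat_lit 1135) l1 (.c (nat_lit 786) l1 (.c (nat_lit 790) l42 (.c (nat_lit 645) l1 (.c (nat_lit 572) l42 (.c (nat_lit 2313) l42 (.c (nat_lit 784) l1 (.c (nat_lit 2362) l53 (.c (nat_lit 2544) l78 (.c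 (nat_lit 2499) l52 (.c (nat_lit 1611) l74 (.c (nat_lit 2719) l114 .e))))))))))))))))))))))))))))))))))
noncomputable def u1_259 : St := (.c (nat_lit 2700) l116 (.c (nat_lit 2295) l53 (.c (nat_lit 2685) l117 .e)))
noncomputable def u1_260 : St := (.c (nat_lit 1470) l1 (.c (nat_lit 2208) l97 (.c (nat_lit 2660) l79 (.c (nat_lit 896) l42 (.c (nat_lit 856) l42 (.c (nat_lit 1239) l42 (.c (nat_lit 1700) l42 (.c (nat_lit 1270) l42 (.c (nat_lit 1167) l1 (.c (nat_lit 1751) l42 (.c (nat_lit 2296) l52 (.c (nat_lit 1137) l42 (.c (nat_lit 2484) l108 (.c (nat_lit 786) l1 (.c (nat_lit 1877) l48 (.c (nat_lit 790) l42 (.c (nat_lit 2560) l104 (.c (nat_lit 2208) l157 (.c (nat_lit 994) l50 (.c (nat_lit 1368) l42 (.c (nat_lit 2557) l91 (.c (nat_lit 911) l42 (.c (nat_lit 645) l1 (.c (nat_lit 572) l42 (.c (nat_lit 2484) l179 (.c (nat_lit 1002) l42 (.c (nat_lit 2185) l49 (.c (nat_lit 2358) l53 (.c (nat_lit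 1179) l42 (.c (nat_lit 2200) l1 (.c (nat_lit 536) l42 (.c (nat_lit 1424) l42 (.c (nat_lit 992) l1 (.c (nat_lit 1298) l53 (.c (nat_lit 2700) l114 (.c (nat_lit 2312) l49 (.c (nat_lit 2501) l108 (.c (nat_lit 579) l42 (.c (nat_lit 2505) l179 (.c (nat_lit 2499) l52 u1_259))))))))))))))))))))))))))))))))))))))))
noncomputable def u1_261 : St := (.c (nat_lit 2390) l207 (.c (nat_lit 1508) l65 (.c (nat_lit 2626) l70 (.c (nat_lit 2260) l74 (.c (nat_lit 1942) l53 (.c (nat_lit 2423) l108 (.c (nat_lit 2300) l70 (.c (nat_lit 778) l50 (.c (nat_lit 1127) l50 (.c (nat_lit 1758) l42 (.c (nat_lit 2448) l104 (.c (nat_lit 802) l42 (.c (nat_lit 2214) l70 (.c (nat_lit 2483) l78 (.c (nat_lit 2618) l108 (.c (nat_lit 2300) l79 (.c (nat_lit 1507) l42 (.c (nat_lit 1600) l42 (.c (nat_lit 1652) l42 (.c (nat_lit 1632) l42 (.c (nat_lit 1615) l42 (.c (nat_lit 1877) l63 (.c (nat_lit 2282) l231 (.c (nat_lit 2706)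 l79 (.c (nat_lit 2492) l74 (.c (nat_lit 2573) l114 (.c (nat_lit 1647) l53 (.c (nat_lit 1717) l42 (.c (nat_lit 1743) l42 (.c (nat_lit 2638) l70 (.c (nat_lit 1989) l53 (.c (nat_lit 1813) l42 (.c (nat_lit 1618) l53 (.c (nat_lit 2416) l79 (.c (nat_lit 1661) l1 (.c (nat_lit 2618) l179 (.c (nat_lit 1508) l1 (.c (nat_lit 2101) l42 (.c (nat_lit 2697) l104 (.c (nat_lit 1749) l42 u1_260))))))))))))))))))))))))))))))))))))))))
noncomputable def u1_262 : St := (.c (nat_lit 2728) l226 (.c (nat_lit 1748) l42 (.c (nat_lit 1229) l42 (.c (nat_lit 2691) l110 (.c (nat_lit 2481) l53 (.c (nat_lit 488) l42 (.c (nat_lit 2565) l52 (.c (nat_lit 2581) l108 (.c (nat_lit 2312) l48 (.c (nat_lit 2696) l117 (.c (nat_lit 2204) l48 (.c (nat_lit 2351) l74 (.c (nat_lit 1965) l42 (.c (nat_lit 2686) l70 (.c (nat_lit 1907) l42 (.c (nat_lit 1502) l42 (.c (nat_lit 1148) l42 (.c (nat_lit 2111) l42 (.c (nat_lit 2124)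 l42 (.c (nat_lit 2128) l42 (.c (nat_lit 2558) l152 (.c (nat_lit 1877) l69 (.c (nat_lit 2260) l53 (.c (nat_lit 2685) l104 (.c (nat_lit 1482) l42 (.c (nat_lit 1599) l42 (.c (nat_lit 2685) l147 (.c (nat_lit 2503) l114 (.c (nat_lit 1540) l42 (.c (nat_lit 2453) l50 (.c (nat_lit 2011) l50 (.c (nat_lit 2712) l179 (.c (nat_lit 2275) l74 (.c (nat_lit 2606) l74 (.c (nat_lit 2624) l108 (.c (nat_lit 1986) l74 (.c (nat_lit 2267) l74 (.c (nat_lit 2282) l74 (.c (nat_lit 2282) l160 (.c (nat_lit 1435) l42 u1_261))))))))))))))))))))))))))))))))))))))))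
noncomputable def u1_263 : St := (.c (nat_lit 2557) l63 (.c (nat_lit 2423) l74 (.c (nat_lit 2685) l114 (.c (nat_lit 2694) l108 (.c (nat_lit 1862) l65 (.c (nat_lit 2637) l52 (.c (nat_lit 2544) l52 (.c (nat_lit 2685) l116 (.c (nat_lit 2717) l167 (.c (nat_lit 2597) l78 (.c (nat_lit 2658) l112 (.c (nat_lit 2705) l231 (.c (nat_lit 1530) l74 (.c (nat_lit 2539) l53 (.c (nat_lit 2453) l65 (.c (nat_lit 2488) l53 (.c (nat_lit 1503) l65 (.c (nat_lit 2444) l141 (.c (nat_lit 2488) l52 (.c (nat_lit 2654) l108 (.c (nat_lit 2375) l1 (.c (nat_lit 2104) l42 (.c (nat_lit 2392) l42 (.c (nat_lit 2669) l154 (.c (nat_lit 1888) l42 (.c (nat_lit 2048) l42 (.c (nat_lit 2669) l64 (.c (nat_lit 2696) l100 (.c (nat_lit 2615) l74 (.c (nat_lit 2498) l53 (.c (nat_lit 2351) l53 (.c (nat_lit 1377) l50 (.c (nat_lit 1984) l53 (.c (nat_lit 1541) l42 (.c (nat_lit 2204) l49 (.c (nat_lit 2436) l63 (.c (nat_lit 2496)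 l74 (.c (nat_lit 2475) l53 (.c (nat_lit 2675) l179 (.c (nat_lit 1295) l42 u1_262))))))))))))))))))))))))))))))))))))))))
noncomputable def u1_264 : St := (.c (nat_lit 2502) l108 (.c (nat_lit 2185) l48 (.c (nat_lit 2481) l74 (.c (nat_lit 2436) l69 (.c (nat_lit 2719) l49 (.c (nat_lit 1781) l42 (.c (nat_lit 2617) l231 (.c (nat_lit 2597) l52 (.c (nat_lit 2638) l74 (.c (nat_lit 1207) l42 (.c (nat_lit 2278) l42 (.c (nat_lit 2293) l74 (.c (nat_lit 2194) l231 (.c (nat_lit 2587) l74 (.c (nat_lit 2654) l42 (.c (nat_lit 2712) l74 (.c (nat_lit 2587) l179 (.c (nat_lit 2581) l74 (.c (nat_lit 2694) l74 (.c (nat_lit 2204) l52 (.c (nat_lit 2699) l74 (.c (nat_lit 1524) l74 (.c (nat_lit 2638) l108 (.c (nat_lit 2717) l112 (.c (nat_lit 2559) l108 (.c (nat_lit 2559) l74 (.c (nat_lit 2214) l179 (.c (nat_lit 2436) l48 (.c (nat_lit 2558) l65 (.c (nat_lit 2704) l79 (.c (nat_lit 2602) l74 (.c (nat_lit 2697)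 l70 (.c (nat_lit 1961) l74 (.c (nat_lit 2194) l74 (.c (nat_lit 2436) l49 (.c (nat_lit 2134) l42 (.c (nat_lit 2719) l48 (.c (nat_lit 2728) l73 (.c (nat_lit 1572) l42 (.c (nat_lit 2113) l65 u1_263))))))))))))))))))))))))))))))))))))))))
noncomputable def u1_265 : St := (.c (nat_lit 1984) l53 (.c (nat_lit 2301) l53 (.c (nat_lit 2624) l108 (.c (nat_lit 2273) l53 (.c (nat_lit 2078) l53 (.c (nat_lit 1618) l53 (.c (nat_lit 1277) l42 (.c (nat_lit 1199) l42 (.c (nat_lit 856) l42 (.c (nat_lit 1239) l42 (.c (nat_lit 1270) l42 (.c (nat_lit 1167) l1 (.c (nat_lit 2296) l52 (.c (nat_lit 2300) l108 (.c (nat_lit 2200) l1 (.c (nat_lit 536) l42 (.c (nat_lit 2501) l108 (.c (nat_lit 2295) l53 (.c (nat_lit 2297) l53 .e)))))))))))))))))))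
noncomputable def u1_266 : St := (.c (nat_lit 2270) l74 (.c (nat_lit 2700) l114 (.c (nat_lit 1377) l1 (.c (nat_lit 2362) l53 (.c (nat_lit 2148) l53 (.c (nat_lit 2700) l116 .e))))))
noncomputable def u1_267 : St := (.c (nat_lit 2502) l108 (.c (nat_lit 2185) l48 (.c (nat_lit 2592) l49 (.c (nat_lit 2313) l1 (.c (nat_lit 1763) l42 (.c (nat_lit 2293) l74 (.c (nat_lit 2113) l42 (.c (nat_lit 2204) l52 (.c (nat_lit 2697) l70 (.c (nat_lit 2134) l42 (.c (nat_lit 2488) l52 (.c (nat_lit 2048) l42 (.c (nat_lit 1377) l50 (.c (nat_lit 2262) l52 (.c (nat_lit 2204) l49 (.c (nat_lit 1710) l42 (.c (nat_lit 2700) l81 (.c (nat_lit 2353) l52 (.c (nat_lit 2592) l48 (.c (nat_lit 2477) l52 (.c (nat_lit 2204) l48 (.c (nat_lit 2301) l53 (.c (nat_lit 2626) l70 (.c (nat_lit 1758) l42 (.c (nat_lit 2700) l70 (.c (nat_lit 1743) l42 (.c (nat_lit 1426) l42 (.c (nat_lit 2697) l104 (.c (nat_lit 2515) l1 (.c (nat_lit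 1135) l50 (.c (nat_lit 1966) l48 (.c (nat_lit 911) l42 (.c (nat_lit 645) l1 (.c (nat_lit 1396) l42 (.c (nat_lit 572) l42 (.c (nat_lit 2313) l42 (.c (nat_lit 833) l42 (.c (nat_lit 2504) l74 (.c (nat_lit 2300) l108 (.c (nat_lit 2185) l49 u1_266))))))))))))))))))))))))))))))))))))))))
noncomputable def u1_268 : St := (.c (nat_lit 2660) l97 (.c (nat_lit 2100) l50 (.c (nat_lit 2567) l50 (.c (nat_lit 2572) l65 (.c (nat_lit 2103) l50 (.c (nat_lit 2698) l105 (.c (nat_lit 2658) l70 (.c (nat_lit 778) l50 (.c (nat_lit 1275) l50 (.c (nat_lit 1644) l50 (.c (nat_lit 2574) l65 (.c (nat_lit 2341) l50 (.c (nat_lit 2538) l65 (.c (nat_lit 2659) l69 (.c (nat_lit 2701) l107 (.c (nat_lit 2698) l101 (.c (nat_lit 2658) l104 .e)))))))))))))))))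
noncomputable def u1_269 : St := (.c (nat_lit 2411) l63 (.c (nat_lit 2404) l74 (.c (nat_lit 2059) l74 (.c (nat_lit 2051) l42 (.c (nat_lit 2387) l69 (.c (nat_lit 2391) l78 (.c (nat_lit 1763) l65 (.c (nat_lit 2172) l74 (.c (nat_lit 2113) l65 (.c (nat_lit 2345) l53 (.c (nat_lit 2421) l78 (.c (nat_lit 2170) l63 (.c (nat_lit 2693) l87 (.c (nat_lit 2418) l48 (.c (nat_lit 2550) l74 (.c (nat_lit 2117) l78 (.c (nat_lit 2411) l48 (.c (nat_lit 2693) l91 (.c (nat_lit 2110) l65 (.c (nat_lit 2103) l50 (.c (nat_lit 2698) l105 (.c (nat_lit 778) l50 (.c (nat_lit 2698) l101 (.c (nat_lit 2419) l74 (.c (nat_lit 2148) l53 (.c (nat_lit 2020) l50 (.c (nat_lit 2399) l65 .e)))))))))))))))))))))))))))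
noncomputable def s1_12 : Ss := (.s (.c (nat_lit 1810) l42 (.c (nat_lit 2110) l50 (.c (nat_lit 2572) l65 (.c (nat_lit 2564) l49 (.c (nat_lit 1808) l42 (.c (nat_lit 1813) l42 (.c (nat_lit 2020) l50 (.c (nat_lit 2564) l69 (.c (nat_lit 2572) l97 .e))))))))) (.s (.c (nat_lit 2110) l50 (.c (nat_lit 2564) l49 (.c (nat_lit 2020) l50 (.c (nat_lit 2564) l69 .e)))) (.s u1_268 (.s u1_269 .e))))

noncomputable def s1_11 : Ss := (.s (.c (nat_lit 2355) l74 (.c (nat_lit 2562) l53 (.c (nat_lit 2419) l74 (.c (nat_lit 1611) l74 (.c (nat_lit 2562) l74 (.c (nat_lit 2352) l74 .e)))))) (.s (.c (nat_lit 2562) l53 (.c (nat_lit 2562) l74 .e)) (.s (.c (nat_lit 2423) l231 .e) (.s (.c (nat_lit 2575) l160 (.c (nat_lit 2172) l74 (.c (nat_lit 2575) l74 (.c (nat_lit 2423) l74 (.c (nat_lit 1435) l42 (.c (nat_lit 2423) l108 (.c (nat_lit 2576) l114 (.c (nat_lit 2575) l171 .e)))))))) (.s (.c (nat_lit 698) l42 .e)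 (.s (.c (nat_lit 1056) l42 .e) (.s (.c (nat_lit 1825) l42 (.c (nat_lit 1295) l42 (.c (nat_lit 2090) l42 (.c (nat_lit 1920) l42 (.c (nat_lit 1575) l42 (.c (nat_lit 1728) l42 (.c (nat_lit 2143) l42 (.c (nat_lit 1341) l42 (.c (nat_lit 1796) l42 (.c (nat_lit 1433) l42 (.c (nat_lit 579) l42 (.c (nat_lit 1916) l1 .e)))))))))))) (.s (.c (nat_lit 942) l42 .e) (.s u1_258 (.s (.c (nat_lit 1991) l52 .e) (.s (.c (nat_lit 1611) l74 .e) (.s u1_264 (.s (.c (nat_lit 1969) l52 .e) (.s u1_265 (.s (.c (nat_lit 2501) l74 (.c (nat_lit 2296) l52 (.c (nat_lit 2295) l53 .e))) (.s u1_267 (.s (.c (nat_lit 2502) l108 (.c (nat_lit 2293) l74 (.c (nat_lit 2488) l52 (.c (nat_lit 2301) l53 (.c (nat_lit 2296) l52 (.c (nat_lit 2504) l74 (.c (nat_lit 2300) l108 (.c (nat_lit 2270) l74 (.c (nat_lit 2499) l52 .e))))))))) s1_12)))))))))))))))))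

noncomputable def s1_10 : Ss := (.s u1_253 (.s (.c (nat_lit 2004) l53 (.c (nat_lit 2305) l74 .e)) (.s (.c (nat_lit 1394) l42 (.c (nat_lit 2404) l74 (.c (nat_lit 1396) l42 (.c (nat_lit 2419) l74 (.c (nat_lit 2566) l108 .e))))) (.s (.c (nat_lit 2413) l74 (.c (nat_lit 2413) l53 .e)) (.s u1_256 (.s (.c (nat_lit 2302) l52 .e) (.s (.c (nat_lit 2701) l112 (.c (nat_lit 2155) l53 (.c (nat_lit 2415) l74 (.c (nat_lit 2296) l52 (.c (nat_lit 1947) l74 (.c (nat_lit 1611) l74 (.c (nat_lit 2719) l114 (.c (nat_lit 2701) l116 (.c (nat_lit 1968) l74 (.c (nat_lit 2271) l52 (.c (nat_lit 2719) l110 .e))))))))))) (.s (.c (nat_lit 1160) l53 .e) (.s (.c (nat_lit 2362) l53 (.c (nat_lit 2243) l53 (.c (nat_lit 1937) l53 .e))) (.s (.c (nat_lit 2264) l74 (.c (nat_lit 2544) l52 (.c (nat_lit 2262) l52 (.c (nat_lit 2483) l78 (.c (nat_lit 1947) l74 (.c (nat_lit 2544) l78 (.c (nat_lit 2419) l74 (.c (nat_lit 1969)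 l52 (.c (nat_lit 2271) l52 (.c (nat_lit 2261) l74 .e)))))))))) (.s u1_257 (.s (.c (nat_lit 2296) l52 (.c (nat_lit 2271) l52 .e)) (.s (.c (nat_lit 1611) l74 (.c (nat_lit 1968) l74 .e)) (.s (.c (nat_lit 2362) l53 (.c (nat_lit 2243) l53 .e)) (.s (.c (nat_lit 2701) l112 (.c (nat_lit 2562) l53 (.c (nat_lit 1611) l74 (.c (nat_lit 2562) l74 (.c (nat_lit 2701) l116 .e))))) s1_11)))))))))))))))

noncomputable def s1_9 : Ss := (.s u1_248 (.s (.c (nat_lit 2105) l48 .e) (.s (.c (nat_lit 2159) l74 .e) (.s (.c (nat_lit 2165) l53 .e) (.s u1_249 (.s (.c (nat_lit 1713) l53 .e) (.s (.c (nat_lit 2404) l74 (.c (nat_lit 2385) l74 (.c (nat_lit 698) l42 (.c (nat_lit 1160) l53 (.c (nat_lit 2385) l108 (.c (nat_lit 2368) l74 .e)))))) (.s (.c (nat_lit 2385) l74 (.c (nat_lit 698) l42 (.c (nat_lit 2385) l108 .e))) (.s (.c (nat_lit 1629) l74 .e) (.s u1_251 (.s (.c (nat_lit 2004) l53 (.c (nat_lit 1989) l53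 (.c (nat_lit 2299) l78 (.c (nat_lit 1969) l52 (.c (nat_lit 1991) l52 (.c (nat_lit 2271) l52 (.c (nat_lit 2305) l74 (.c (nat_lit 1989) l74 (.c (nat_lit 2271) l78 .e))))))))) (.s (.c (nat_lit 2004) l53 (.c (nat_lit 1989) l53 (.c (nat_lit 2305) l74 (.c (nat_lit 1989) l74 .e)))) (.s (.c (nat_lit 994) l1 .e) (.s u1_252 (.s (.c (nat_lit 1394) l42 (.c (nat_lit 2404) l74 (.c (nat_lit 1396) l42 (.c (nat_lit 2419) l74 (.c (nat_lit 2566) l108 (.c (nat_lit 2566) l160 .e)))))) (.s (.c (nat_lit 2659) l74 (.c (nat_lit 2655) l78 (.c (nat_lit 1811) l42 (.c (nat_lit 1040) l42 (.c (nat_lit 1410) l42 (.c (nat_lit 1424) l42 (.c (nat_lit 2362) l53 (.c (nat_lit 698) l42 (.c (nat_lit 1160) l53 (.c (nat_lit 2413) l53 (.c (nat_lit 2659) l108 (.c (nat_lit 2655) l118 .e)))))))))))) s1_10))))))))))))))))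

noncomputable def s1_8 : Ss := (.s (.c (nat_lit 1987) l74 .e) (.s u1_243 (.s u1_244 (.s (.c (nat_lit 1634) l74 .e) (.s u1_245 (.s (.c (nat_lit 1394) l42 (.c (nat_lit 2155) l53 (.c (nat_lit 1396) l42 (.c (nat_lit 2159) l74 (.c (nat_lit 2566) l179 .e))))) (.s (.c (nat_lit 2159) l74 (.c (nat_lit 2416) l108 .e)) (.s (.c (nat_lit 2159) l74 (.c (nat_lit 2150) l74 .e)) (.s u1_247 (.s (.c (nat_lit 2157) l78 .e) (.s (.c (nat_lit 2659) l74 (.c (nat_lit 1811) l42 (.c (nat_lit 1426) l42 (.c (nat_lit 2415) l74 (.c (nat_lit 1056) l42 (.c (nat_lit 2659) l179 (.c (nat_lit 2155) l74 .e))))))) (.s (.c (nat_lit 2157) l52 .e) (.s (.c (nat_lit 698) l42 (.c (nat_lit 2391) l231 .e)) (.s (.c (nat_lit 2557) l78 (.c (nat_lit 698) l42 (.c (nat_lit 2105) l48 (.c (nat_lit 2557) l118 .e)))) (.s (.c (nat_lit 2659) l74 (.c (nat_lit 1811) l42 (.c (nat_lit 1426) l42 (.c (nat_lit 2155) l53 (.c (nat_lit 2415) l74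 (.c (nat_lit 1056) l42 (.c (nat_lit 2659) l179 (.c (nat_lit 2107) l74 .e)))))))) (.s (.c (nat_lit 2659) l74 (.c (nat_lit 1811) l42 (.c (nat_lit 1426) l42 (.c (nat_lit 2155) l53 (.c (nat_lit 2415) l74 (.c (nat_lit 1056) l42 (.c (nat_lit 2659) l179 .e))))))) s1_9))))))))))))))))

noncomputable def s1_7 : Ss := (.s (.c (nat_lit 1942) l53 (.c (nat_lit 1947) l74 (.c (nat_lit 2148) l53 (.c (nat_lit 1713) l53 (.c (nat_lit 1987) l74 (.c (nat_lit 2085) l53 (.c (nat_lit 1942) l74 .e))))))) (.s (.c (nat_lit 1990) l74 .e) (.s u1_213 (.s (.c (nat_lit 2163) l74 .e) (.s (.c (nat_lit 1830) l74 .e) (.s (.c (nat_lit 2159) l74 (.c (nat_lit 2416) l108 (.c (nat_lit 2156) l74 .e))) (.s u1_215 (.s (.c (nat_lit 1810) l74 .e) (.s u1_227 (.s (.c (nat_lit 2362) l53 (.c (nat_lit 2243) l53 (.c (nat_lit 1624) l53 (.c (nat_lit 2406) l53 .e)))) (.s u1_231 (.s (.c (nat_lit 2557) l52 (.c (nat_lit 698) l42 (.c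 (nat_lit 2105) l48 (.c (nat_lit 2391) l231 (.c (nat_lit 2157) l52 (.c (nat_lit 2157) l78 (.c (nat_lit 2557) l181 .e))))))) (.s u1_233 (.s u1_238 (.s u1_240 (.s (.c (nat_lit 1624) l53 (.c (nat_lit 1993) l74 .e)) (.s (.c (nat_lit 1624) l53 .e) (.s u1_241 (.s u1_242 (.s (.c (nat_lit 2000) l74 .e) (.s (.c (nat_lit 1828) l53 .e) s1_8)))))))))))))))))))))

noncomputable def s1_6 : Ss := (.s u1_162 (.s (.c (nat_lit 1966) l49 .e) (.s (.c (nat_lit 1877) l49 .e) (.s u1_164 (.s u1_168 (.s u1_170 (.s (.c (nat_lit 817) l53 .e) (.s u1_172 (.s (.c (nat_lit 871) l42 (.c (nat_lit 869) l42 .e)) (.s u1_176 (.s u1_190 (.s u1_194 (.s (.c (nat_lit 2005) l52 .e) (.s u1_195 (.s (.c (nat_lit 1439) l53 .e) (.s u1_196 (.s u1_197 (.s u1_199 (.s u1_200 (.s (.c (nat_lit 1815) l74 .e) (.s u1_202 (.s u1_204 (.s (.c (nat_lit 2148) l53 (.c (nat_lit 1937) l53 (.c (nat_lit 2165) l53 (.c (nat_lit 2059) l53 .e))))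 (.s (.c (nat_lit 698) l42 (.c (nat_lit 1810) l74 (.c (nat_lit 2416) l179 .e))) (.s (.c (nat_lit 994) l1 (.c (nat_lit 1004) l42 .e)) (.s u1_209 (.s u1_211 s1_7)))))))))))))))))))))))))))

noncomputable def s1_5 : Ss := (.s (.c (nat_lit 1572) l50 .e) (.s (.c (nat_lit 1633) l65 .e) (.s (.c (nat_lit 1946) l65 .e) (.s (.c (nat_lit 2412) l65 (.c (nat_lit 1992) l65 .e)) (.s u1_145 (.s u1_147 (.s u1_149 (.s (.c (nat_lit 2412) l65 .e) (.s u1_151 (.s (.c (nat_lit 2110) l50 (.c (nat_lit 2038) l50 .e)) (.s (.c (nat_lit 2049) l50 .e) (.s u1_152 (.s (.c (nat_lit 1529) l65 (.c (nat_lit 2207) l65 (.c (nat_lit 1892) l65 (.c (nat_lit 1876) l50 (.c (nat_lit 1877) l49 (.c (nat_lit 1966) l49 (.c (nat_lit 1889) l65 .e))))))) (.s u1_154 (.s (.c (nat_lit 1529) l65 (.c (nat_lit 1158) l50 (.c (nat_lit 1524) l65 .e))) (.s (.c (nat_lit 915) l42 (.c (nat_lit 917) l42 (.c (nat_lit 2300) l157 .e))) (.s (.c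 (nat_lit 915) l42 (.c (nat_lit 917) l42 .e)) (.s (.c (nat_lit 909) l1 .e) (.s u1_155 (.s u1_157 (.s (.c (nat_lit 1529) l65 (.c (nat_lit 1158) l50 (.c (nat_lit 1892) l65 (.c (nat_lit 1849) l50 (.c (nat_lit 1877) l49 (.c (nat_lit 1849) l65 .e)))))) s1_6)))))))))))))))))))))

noncomputable def s1_4 : Ss := (.s (.c (nat_lit 1272) l50 .e) (.s u1_114 (.s u1_124 (.s (.c (nat_lit 1909) l50 (.c (nat_lit 2412) l65 (.c (nat_lit 1633) l65 (.c (nat_lit 1909) l65 .e)))) (.s u1_125 (.s u1_127 (.s u1_129 (.s u1_132 (.s (.c (nat_lit 1518) l50 .e) (.s u1_135 (.s (.c (nat_lit 1572) l50 (.c (nat_lit 2377) l50 .e)) (.s (.c (nat_lit 2720) l97 (.c (nat_lit 2659) l65 (.c (nat_lit 2660) l97 (.c (nat_lit 2659) l97 (.c (nat_lit 2572) l65 (.c (nat_lit 2720) l157 (.c (nat_lit 2574) l65 (.c (nat_lit 2720) l152 .e)))))))) (.s u1_139 (.s u1_140 (.s (.c (nat_lit 2049) l50 (.c (nat_lit 1633) l65 (.c (nat_lit 1605)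 l65 (.c (nat_lit 2241) l50 .e)))) (.s (.c (nat_lit 1965) l65 .e) (.s (.c (nat_lit 1633) l65 (.c (nat_lit 1605) l65 .e)) (.s (.c (nat_lit 2624) l69 (.c (nat_lit 2506) l63 (.c (nat_lit 2625) l78 (.c (nat_lit 2506) l78 (.c (nat_lit 2503) l69 (.c (nat_lit 2624) l49 (.c (nat_lit 1966) l49 (.c (nat_lit 1992) l65 (.c (nat_lit 2625) l63 .e))))))))) (.s u1_142 s1_5)))))))))))))))))))

noncomputable def s1_3 : Ss := (.s (.c (nat_lit 1095) l42 (.c (nat_lit 1093) l42 (.c (nat_lit 1089) l42 .e))) (.s (.c (nat_lit 746) l42 .e) (.s (.c (nat_lit 1710) l50 .e) (.s (.c (nat_lit 1454) l42 (.c (nat_lit 1095) l42 (.c (nat_lit 1450) l42 .e))) (.s (.c (nat_lit 1454) l42 (.c (nat_lit 1093) l42 (.c (nat_lit 1407) l42 .e))) (.s (.c (nat_lit 1766) l50 .e) (.s (.c (nat_lit 1741) l1 (.c (nat_lit 2341) l1 .e)) (.s u1_108 (.s (.c (nat_lit 2384) l65 (.c (nat_lit 2103) l50 (.c (nat_lit 2397) l50 (.c (nat_lit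 2660) l70 (.c (nat_lit 2658) l70 (.c (nat_lit 2104) l50 (.c (nat_lit 2659) l207 .e))))))) (.s u1_109 (.s (.c (nat_lit 2157) l52 (.c (nat_lit 2157) l48 .e)) (.s (.c (nat_lit 2105) l49 .e) (.s (.c (nat_lit 1741) l1 .e) (.s (.c (nat_lit 1093) l42 .e) (.s (.c (nat_lit 1095) l42 .e) (.s u1_110 (.s (.c (nat_lit 2416) l65 (.c (nat_lit 2416) l97 (.c (nat_lit 2158) l65 (.c (nat_lit 2131) l65 .e)))) (.s u1_111 (.s (.c (nat_lit 2158) l65 .e) (.s (.c (nat_lit 2416) l65 (.c (nat_lit 2416) l97 .e)) (.s u1_113 s1_4)))))))))))))))))))))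

noncomputable def s1_2 : Ss := (.s (.c (nat_lit 643) l1 .e) (.s (.c (nat_lit 1454) l42 (.c (nat_lit 1093) l42 (.c (nat_lit 1450) l42 (.c (nat_lit 1089) l42 (.c (nat_lit 1029) l1 (.c (nat_lit 1385) l1 .e)))))) (.s (.c (nat_lit 1093) l42 (.c (nat_lit 1082) l42 .e)) (.s (.c (nat_lit 988) l1 (.c (nat_lit 1007) l1 .e)) (.s (.c (nat_lit 1029) l1 (.c (nat_lit 988) l1 .e)) (.s (.c (nat_lit 993) l1 .e) (.s (.c (nat_lit 1095) l42 (.c (nat_lit 1093) l42 (.c (nat_lit 1089) l42 (.c (nat_lit 1029) l1 .e)))) (.s (.c (nat_lit 2092) l42 (.c (nat_lit 2642) l79 (.c (nat_lit 1341) l42 (.c (nat_lit 1454) l42 (.c (nat_lit 1093) l42 (.c (nat_lit 1407) l42 (.c (nat_lit 1450) l42 (.c (nat_lit 746) l42 (.c (nat_lit 2343) l1 (.c (nat_lit 1357) l1 .e)))))))))) (.s (.c (nat_lit 1095) l42 (.c (nat_lit 1093) l42 (.c (nat_lit 1741) l1 (.c (nat_lit 2341) l1 (.c (nat_lit 1407) l42 (.c (nat_lit 1450) l42 (.c (nat_lit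 1351) l1 .e))))))) (.s u1_106 (.s u1_107 (.s (.c (nat_lit 1743) l50 .e) (.s (.c (nat_lit 1768) l65 .e) (.s (.c (nat_lit 2105) l49 (.c (nat_lit 2105) l69 .e)) (.s (.c (nat_lit 2092) l42 (.c (nat_lit 2642) l79 (.c (nat_lit 1341) l42 (.c (nat_lit 1454) l42 (.c (nat_lit 1093) l42 (.c (nat_lit 746) l42 (.c (nat_lit 1089) l42 (.c (nat_lit 2343) l1 .e)))))))) s1_3)))))))))))))))

noncomputable def s1_1 : Ss := (.s u1_96 (.s u1_102 (.s (.c (nat_lit 2110) l50 (.c (nat_lit 2020) l50 (.c (nat_lit 2038) l50 (.c (nat_lit 1841) l50 (.c (nat_lit 2105) l49 (.c (nat_lit 2105) l69 (.c (nat_lit 1743) l50 (.c (nat_lit 1336) l50 (.c (nat_lit 1814) l65 (.c (nat_lit 1781) l50 (.c (nat_lit 1748) l65 .e))))))))))) (.s (.c (nat_lit 2157) l52 (.c (nat_lit 2157) l78 (.c (nat_lit 2157) l48 (.c (nat_lit 2157) l63 .e)))) (.s u1_104 (.s (.c (nat_lit 2110) l50 (.c (nat_lit 2020) l50 (.c (nat_lit 2038) l50 (.c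 (nat_lit 1841) l50 (.c (nat_lit 1743) l50 (.c (nat_lit 1336) l50 (.c (nat_lit 1781) l50 .e))))))) (.s (.c (nat_lit 2416) l65 (.c (nat_lit 993) l1 (.c (nat_lit 643) l1 (.c (nat_lit 1137) l1 (.c (nat_lit 1814) l65 (.c (nat_lit 2416) l157 .e)))))) (.s (.c (nat_lit 1814) l65 .e) (.s (.c (nat_lit 1387) l50 .e) (.s (.c (nat_lit 2422) l65 (.c (nat_lit 988) l1 (.c (nat_lit 1007) l1 (.c (nat_lit 2422) l97 .e)))) (.s u1_105 (.s (.c (nat_lit 1029) l1 (.c (nat_lit 993) l1 (.c (nat_lit 988) l1 (.c (nat_lit 643) l1 (.c (nat_lit 1137) l1 .e))))) (.s (.c (nat_lit 1093) l42 (.c (nat_lit 746) l42 (.c (nat_lit 643) l1 (.c (nat_lit 2576) l176 .e)))) s1_2)))))))))))))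

noncomputable def s1_0 : Ss := (.s u1_3 (.s u1_7 (.s u1_9 (.s (.c (nat_lit 1002) l50 .e) (.s u1_10 (.s u1_11 (.s (.c (nat_lit 1386) l50 .e) (.s u1_15 (.s u1_16 (.s (.c (nat_lit 1372) l50 .e) (.s u1_17 (.s u1_21 (.s u1_25 (.s u1_26 (.s u1_31 (.s u1_34 (.s u1_37 (.s u1_42 (.s u1_47 (.s u1_53 (.s u1_57 (.s u1_62 (.s u1_65 (.s u1_70 (.s u1_75 (.s u1_80 (.s u1_81 (.s u1_84 (.s u1_90 (.s u1_95 s1_1))))))))))))))))))))))))))))))

end Pool.Agent.L3E.RM.M
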