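import Pool.Agent.L3E.RM.DatL

set_option autoImplicit false
set_option maxRecDepth 100000
set_option linter.all false

namespace Pool.Agent.L3E.RM.M

open Pool.Agent.L3E.RMG Pool.Agent.L3E.RM

noncomputable def u2_0 : St := (.c (nat_lit 2718) l114 (.c (nat_lit 2724) l110 (.c (nat_lit 2423) l74 (.c (nat_lit 2611) l78 (.c (nat_lit 2724) l79 (.c (nat_lit 2724) l114 (.c (nat_lit 2724) l166 (.c (nat_lit 2695) l181 (.c (nat_lit 1435) l42 (.c (nat_lit 2423) l108 (.c (nat_lit 2306) l108 (.c (nat_lit 2660) l79 (.c (nat_lit 2642) l79 (.c (nat_lit 2700) l114 (.c (nat_lit 915) l42 (.c (nat_lit 2731) l228 (.c (nat_lit 1656) l74 (.c (nat_lit 579) l42 (.c (nat_lit 2505) l179 .e)))))))))))))))))))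
noncomputable def u2_1 : St := (.c (nat_lit 2660) l97 (.c (nat_lit 2100) l50 (.c (nat_lit 2567) l50 (.c (nat_lit 2572) l65 (.c (nat_lit 2103) l50 (.c (nat_lit 2698) l105 (.c (nat_lit 778) l50 (.c (nat_lit 1275) l50 (.c (nat_lit 1644) l50 (.c (nat_lit 2574) l65 (.c (nat_lit 2659) l69 (.c (nat_lit 2701) l107 (.c (nat_lit 2698) l101 .e)))))))))))))
noncomputable def u2_2 : St := (.c (nat_lit 2263) l65 (.c (nat_lit 2231) l65 (.c (nat_lit 2334) l65 (.c (nat_lit 2624) l65 (.c (nat_lit 2503) l49 (.c (nat_lit 2110) l65 (.c (nat_lit 2624) l141 (.c (nat_lit 2443) l49 (.c (nat_lit 2180) l50 (.c (nat_lit 1892) l65 (.c (nat_lit 2204) l49 (.c (nat_lit 1877) l69 (.c (nat_lit 2231) l50 (.c (nat_lit 2180) l65 (.c (nat_lit 2618) l97 (.c (nat_lit 1640) l42 (.c (nat_lit 1648) l42 (.c (nat_lit 1529) l1 (.c (nat_lit 1410) l42 (.c (nat_lit 2624) l97 (.c (nat_lit 1891) l49 (.c (nat_lit 2341) l50 (.c (nat_lit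 2503) l159 (.c (nat_lit 2618) l141 (.c (nat_lit 2443) l69 .e)))))))))))))))))))))))))
noncomputable def u2_3 : St := (.c (nat_lit 2575) l160 (.c (nat_lit 2506) l63 (.c (nat_lit 2718) l114 (.c (nat_lit 2724) l110 (.c (nat_lit 2423) l74 (.c (nat_lit 2611) l78 (.c (nat_lit 2724) l79 (.c (nat_lit 2724) l114 (.c (nat_lit 2724) l166 (.c (nat_lit 2695) l181 (.c (nat_lit 2296) l49 (.c (nat_lit 1435) l42 (.c (nat_lit 2700) l79 (.c (nat_lit 2423) l108 (.c (nat_lit 2306) l108 (.c (nat_lit 1275) l50 (.c (nat_lit 2660) l79 (.c (nat_lit 1644) l50 (.c (nat_lit 1655) l65 (.c (nat_lit 2642) l79 (.c (nat_lit 1298) l53 (.c (nat_lit 1341) l42 (.c (nat_lit 2501) l69 (.c (nat_lit 2005) l49 (.c (nat_lit 1991) l49 (.c (nat_lit 2731) l228 (.c (nat_lit 2505) l108 (.c (nat_lit 2005) l48 (.c (nat_lit 1656) l74 (.c (nat_lit 2506) l91 .e))))))))))))))))))))))))))))))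
noncomputable def u2_4 : St := (.c (nat_lit 2263) l65 (.c (nat_lit 2334) l65 (.c (nat_lit 2209) l50 (.c (nat_lit 2484) l65 (.c (nat_lit 2203) l50 (.c (nat_lit 2207) l65 (.c (nat_lit 2202) l50 (.c (nat_lit 1873) l50 (.c (nat_lit 1849) l50 (.c (nat_lit 1909) l50 (.c (nat_lit 2381) l50 (.c (nat_lit 2397) l50 (.c (nat_lit 1140) l50 (.c (nat_lit 2440) l65 (.c (nat_lit 2185) l49 (.c (nat_lit 1891) l49 (.c (nat_lit 2210) l49 (.c (nat_lit 2484) l97 (.c (nat_lit 2211) l65 .e)))))))))))))))))))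
noncomputable def u2_5 : St := (.c (nat_lit 2580) l49 (.c (nat_lit 2694) l69 (.c (nat_lit 2718) l107 (.c (nat_lit 2727) l107 (.c (nat_lit 1825) l42 (.c (nat_lit 2531) l49 (.c (nat_lit 2596) l69 (.c (nat_lit 2636) l69 (.c (nat_lit 2696) l100 (.c (nat_lit 1892) l65 (.c (nat_lit 2696) l70 (.c (nat_lit 1435) l42 (.c (nat_lit 2090) l42 (.c (nat_lit 2624) l49 (.c (nat_lit 2512) l49 (.c (nat_lit 2628) l69 (.c (nat_lit 2379) l1 (.c (nat_lit 2092) l42 (.c (nat_lit 817) l42 (.c (nat_lit 1575) l42 (.c (nat_lit 2716) l69 (.c (nat_lit 1728) l42 (.c (nat_lit 1341) l42 (.c (nat_lit 1796) l42 (.c (nat_lit 2232) l49 (.c (nat_lit 1890) l65 (.c (nat_lit 2717) l100 .e)))))))))))))))))))))))))))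
noncomputable def u2_6 : St := (.c (nat_lit 1562) l42 (.c (nat_lit 2200) l1 (.c (nat_lit 2237) l42 (.c (nat_lit 1424) l42 (.c (nat_lit 2732) l268 (.c (nat_lit 2143) l42 (.c (nat_lit 1341) l42 (.c (nat_lit 1796) l42 (.c (nat_lit 2694) l97 .e)))))))))
noncomputable def u2_7 : St := (.c (nat_lit 1497) l50 (.c (nat_lit 2216) l50 (.c (nat_lit 2281) l141 (.c (nat_lit 2282) l160 (.c (nat_lit 1435) l42 (.c (nat_lit 2300) l70 (.c (nat_lit 1129) l50 (.c (nat_lit 1140) l50 (.c (nat_lit 1745) l50 (.c (nat_lit 2090) l42 (.c (nat_lit 2448) l104 (.c (nat_lit 2214) l70 (.c (nat_lit 2300) l79 (.c (nat_lit 2308) l50 (.c (nat_lit 1652) l42 (.c (nat_lit 2458) l1 (.c (nat_lit 2596) l1 (.c (nat_lit 1702) l42 (.c (nat_lit 1713) l42 (.c (nat_lit 1632) l42 (.c (nat_lit 1615) l42 (.c (nat_lit 2484) l79 (.c (nat_lit 1647) l53 (.c (nat_lit 2646) l80 (.c (nat_lit 2542) l79 (.c (nat_lit 2638) l70 (.c (nat_lit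 2273) l53 (.c (nat_lit 1813) l42 (.c (nat_lit 2416) l79 (.c (nat_lit 1661) l1 (.c (nat_lit 1470) l1 (.c (nat_lit 2092) l42 (.c (nat_lit 896) l42 (.c (nat_lit 2613) l114 (.c (nat_lit 1693) l42 (.c (nat_lit 1751) l42 (.c (nat_lit 2138) l1 (.c (nat_lit 2358) l53 (.c (nat_lit 1728) l42 (.c (nat_lit 1179) l42 u2_6))))))))))))))))))))))))))))))))))))))))
noncomputable def u2_8 : St := (.c (nat_lit 2618) l70 (.c (nat_lit 2694) l65 (.c (nat_lit 2707) l104 (.c (nat_lit 2065) l42 (.c (nat_lit 2707) l114 (.c (nat_lit 2601) l141 (.c (nat_lit 2710) l117 (.c (nat_lit 2175) l1 (.c (nat_lit 2681) l104 (.c (nat_lit 2491) l141 (.c (nat_lit 1825) l42 (.c (nat_lit 2707) l70 (.c (nat_lit 2709) l110 (.c (nat_lit 2708) l100 (.c (nat_lit 2668) l100 (.c (nat_lit 2722) l67 (.c (nat_lit 2493) l104 (.c (nat_lit 2677) l64 (.c (nat_lit 2453) l65 (.c (nat_lit 2063) l42 (.c (nat_lit 2732) l280 (.c (nat_lit 2623)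 l117 (.c (nat_lit 2694) l141 (.c (nat_lit 1512) l50 (.c (nat_lit 2462) l141 (.c (nat_lit 2707) l79 (.c (nat_lit 2732) l301 (.c (nat_lit 1956) l42 (.c (nat_lit 2068) l42 (.c (nat_lit 2708) l73 (.c (nat_lit 2691) l110 (.c (nat_lit 2586) l141 (.c (nat_lit 2277) l1 (.c (nat_lit 2186) l50 (.c (nat_lit 2707) l100 (.c (nat_lit 1949) l42 (.c (nat_lit 1953) l42 (.c (nat_lit 2286) l1 (.c (nat_lit 2503) l114 (.c (nat_lit 1959) l74 u2_7))))))))))))))))))))))))))))))))))))))))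
noncomputable def u2_9 : St := (.c (nat_lit 2506) l118 (.c (nat_lit 1298) l53 (.c (nat_lit 2700) l114 (.c (nat_lit 2624) l97 (.c (nat_lit 2732) l268 (.c (nat_lit 2143) l42 (.c (nat_lit 915) l42 (.c (nat_lit 2005) l49 (.c (nat_lit 2576) l114 (.c (nat_lit 1796) l42 (.c (nat_lit 2731) l228 (.c (nat_lit 2505) l108 (.c (nat_lit 2005) l48 (.c (nat_lit 2302) l48 (.c (nat_lit 2581) l97 .e)))))))))))))))
noncomputable def u2_10 : St := (.c (nat_lit 1990) l42 (.c (nat_lit 1275) l42 (.c (nat_lit 1648) l42 (.c (nat_lit 2458) l1 (.c (nat_lit 1951) l42 (.c (nat_lit 2166) l42 (.c (nat_lit 2596) l1 (.c (nat_lit 1702) l42 (.c (nat_lit 1713) l42 (.c (nat_lit 1615) l42 (.c (nat_lit 2484) l79 (.c (nat_lit 1647) l53 (.c (nat_lit 2646) l80 (.c (nat_lit 2542) l79 (.c (nat_lit 2643) l70 (.c (nat_lit 2638) l70 (.c (nat_lit 1323) l42 (.c (nat_lit 1611) l42 (.c (nat_lit 2273) l53 (.c (nat_lit 1813) l42 (.c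 (nat_lit 1235) l42 (.c (nat_lit 2416) l79 (.c (nat_lit 1661) l1 (.c (nat_lit 1869) l1 (.c (nat_lit 2092) l42 (.c (nat_lit 2660) l79 (.c (nat_lit 896) l42 (.c (nat_lit 856) l42 (.c (nat_lit 2613) l114 (.c (nat_lit 1270) l42 (.c (nat_lit 1751) l42 (.c (nat_lit 2138) l1 (.c (nat_lit 2358) l53 (.c (nat_lit 1728) l42 (.c (nat_lit 1562) l42 (.c (nat_lit 1040) l42 (.c (nat_lit 536) l42 (.c (nat_lit 2237) l42 (.c (nat_lit 871) l42 (.c (nat_lit 1424) l42 u2_9))))))))))))))))))))))))))))))))))))))))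
noncomputable def u2_11 : St := (.c (nat_lit 2443) l49 (.c (nat_lit 2707) l79 (.c (nat_lit 2732) l301 (.c (nat_lit 1956) l42 (.c (nat_lit 2068) l42 (.c (nat_lit 2708) l73 (.c (nat_lit 2691) l110 (.c (nat_lit 2586) l141 (.c (nat_lit 1148) l42 (.c (nat_lit 2277) l1 (.c (nat_lit 1640) l42 (.c (nat_lit 2186) l50 (.c (nat_lit 2707) l100 (.c (nat_lit 1949) l42 (.c (nat_lit 1953) l42 (.c (nat_lit 2286) l1 (.c (nat_lit 2503) l114 (.c (nat_lit 1959) l74 (.c (nat_lit 1497) l50 (.c (nat_lit 2216) l50 (.c (nat_lit 2281) l141 (.c (nat_lit 2282) l160 (.c (nat_lit 1609) l42 (.c (nat_lit 2300) l70 (.c (nat_lit 1129) l50 (.c (nat_lit 1140) l50 (.c (nat_lit 1745) l50 (.c (nat_lit 2090) l42 (.c (nat_lit 2448) l104 (.c (nat_lit 802) l42 (.c (nat_lit 2214) l70 (.c (nat_lit 2102) l42 (.c (nat_lit 2624) l49 (.c (nat_lit 2300) l79 (.c (nat_lit 1245) l42 (.c (nat_lit 2308) l50 (.c (nat_lit 2512) l49 (.c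 (nat_lit 2643) l104 (.c (nat_lit 2434) l49 (.c (nat_lit 2590) l65 u2_10))))))))))))))))))))))))))))))))))))))))
noncomputable def u2_12 : St := (.c (nat_lit 2618) l70 (.c (nat_lit 2684) l160 (.c (nat_lit 1982) l42 (.c (nat_lit 2684) l74 (.c (nat_lit 2575) l160 (.c (nat_lit 2624) l65 (.c (nat_lit 2718) l114 (.c (nat_lit 2707) l104 (.c (nat_lit 2664) l65 (.c (nat_lit 2724) l110 (.c (nat_lit 2707) l114 (.c (nat_lit 2601) l141 (.c (nat_lit 2710) l117 (.c (nat_lit 2506) l78 (.c (nat_lit 2302) l49 (.c (nat_lit 2175) l1 (.c (nat_lit 2681) l104 (.c (nat_lit 2491) l141 (.c (nat_lit 1825) l42 (.c (nat_lit 2611) l78 (.c (nat_lit 2724) l79 (.c (nat_lit 2707) l70 (.c (nat_lit 2724) l114 (.c (nat_lit 2724) l166 (.c (nat_lit 2441) l50 (.c (nat_lit 2709) l110 (.c (nat_lit 2429) l50 (.c (nat_lit 2708) l100 (.c (nat_lit 2668) l100 (.c (nat_lit 2722) l67 (.c (nat_lit 2493) l104 (.c (nat_lit 2677)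 l64 (.c (nat_lit 2453) l65 (.c (nat_lit 2684) l108 (.c (nat_lit 2429) l65 (.c (nat_lit 2732) l280 (.c (nat_lit 2623) l117 (.c (nat_lit 2624) l141 (.c (nat_lit 1512) l50 (.c (nat_lit 2462) l141 u2_11))))))))))))))))))))))))))))))))))))))))
noncomputable def u2_13 : St := (.c (nat_lit 2143) l42 (.c (nat_lit 915) l42 (.c (nat_lit 2576) l114 (.c (nat_lit 2731) l228 (.c (nat_lit 2546) l74 (.c (nat_lit 2527) l65 .e))))))
noncomputable def u2_14 : St := (.c (nat_lit 2596) l1 (.c (nat_lit 1702) l42 (.c (nat_lit 1713) l42 (.c (nat_lit 1632) l42 (.c (nat_lit 1615) l42 (.c (nat_lit 2628) l69 (.c (nat_lit 2484) l79 (.c (nat_lit 1647) l53 (.c (nat_lit 2646) l80 (.c (nat_lit 2542) l79 (.c (nat_lit 2058) l42 (.c (nat_lit 2638) l70 (.c (nat_lit 1611) l42 (.c (nat_lit 2273) l53 (.c (nat_lit 1813) l42 (.c (nat_lit 2416) l79 (.c (nat_lit 1661) l1 (.c (nat_lit 1869) l1 (.c (nat_lit 2379) l1 (.c (nat_lit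 1470) l1 (.c (nat_lit 2092) l42 (.c (nat_lit 1708) l42 (.c (nat_lit 896) l42 (.c (nat_lit 856) l42 (.c (nat_lit 1239) l42 (.c (nat_lit 2613) l114 (.c (nat_lit 1270) l42 (.c (nat_lit 2716) l69 (.c (nat_lit 2138) l1 (.c (nat_lit 2358) l53 (.c (nat_lit 1728) l42 (.c (nat_lit 1562) l42 (.c (nat_lit 1040) l42 (.c (nat_lit 1410) l42 (.c (nat_lit 2237) l42 (.c (nat_lit 2027) l1 (.c (nat_lit 871) l42 (.c (nat_lit 2642) l79 (.c (nat_lit 2700) l114 (.c (nat_lit 2732) l268 u2_13))))))))))))))))))))))))))))))))))))))))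
noncomputable def u2_15 : St := (.c (nat_lit 2186) l50 (.c (nat_lit 2707) l100 (.c (nat_lit 1949) l42 (.c (nat_lit 1953) l42 (.c (nat_lit 2286) l1 (.c (nat_lit 2503) l114 (.c (nat_lit 2004) l42 (.c (nat_lit 1959) l74 (.c (nat_lit 1497) l50 (.c (nat_lit 2216) l50 (.c (nat_lit 2629) l1 (.c (nat_lit 2281) l141 (.c (nat_lit 2282) l160 (.c (nat_lit 1435) l42 (.c (nat_lit 1281) l42 (.c (nat_lit 2423) l108 (.c (nat_lit 2300) l70 (.c (nat_lit 1129) l50 (.c (nat_lit 1140) l50 (.c (nat_lit 1745) l50 (.c (nat_lit 2306) l108 (.c (nat_lit 2090) l42 (.c (nat_lit 2448) l104 (.c (nat_lit 2214) l70 (.c (nat_lit 2102) l42 (.c (nat_lit 1920) l42 (.c (nat_lit 2624) l49 (.c (nat_lit 2300) l79 (.c (nat_lit 2308) l50 (.c (nat_lit 2434) l49 (.c (nat_lit 2590) l65 (.c (nat_lit 2156) l42 (.c (nat_lit 2564) l49 (.c (nat_lit 2675) l97 (.c (nat_lit 1243) l42 (.c (nat_lit 1940) l42 (.c (nat_lit 2154) l42 (.c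 (nat_lit 1652) l42 (.c (nat_lit 1648) l42 (.c (nat_lit 2166) l42 u2_14))))))))))))))))))))))))))))))))))))))))
noncomputable def u2_16 : St := (.c (nat_lit 2611) l78 (.c (nat_lit 2724) l79 (.c (nat_lit 2707) l70 (.c (nat_lit 2724) l114 (.c (nat_lit 2724) l166 (.c (nat_lit 2441) l50 (.c (nat_lit 2709) l110 (.c (nat_lit 2429) l50 (.c (nat_lit 2708) l100 (.c (nat_lit 2668) l100 (.c (nat_lit 2722) l67 (.c (nat_lit 2544) l52 (.c (nat_lit 2493) l104 (.c (nat_lit 2002) l42 (.c (nat_lit 2658) l112 (.c (nat_lit 2677) l64 (.c (nat_lit 2453) l65 (.c (nat_lit 2110) l65 (.c (nat_lit 2596) l69 (.c (nat_lit 2636) l69 (.c (nat_lit 2643) l97 (.c (nat_lit 2429) l65 (.c (nat_lit 2544) l48 (.c (nat_lit 2732) l280 (.c (nat_lit 2623) l117 (.c (nat_lit 2675) l141 (.c (nat_lit 1512) l50 (.c (nat_lit 2462) l141 (.c (nat_lit 2443) l49 (.c (nat_lit 2636) l49 (.c (nat_lit 2707) l79 (.c (nat_lit 2732) l301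 (.c (nat_lit 2071) l42 (.c (nat_lit 1956) l42 (.c (nat_lit 2708) l73 (.c (nat_lit 2691) l110 (.c (nat_lit 2586) l141 (.c (nat_lit 2277) l1 (.c (nat_lit 1570) l42 (.c (nat_lit 1640) l42 u2_15))))))))))))))))))))))))))))))))))))))))
noncomputable def u2_17 : St := (.c (nat_lit 2618) l70 (.c (nat_lit 2693) l48 (.c (nat_lit 2404) l74 (.c (nat_lit 2580) l49 (.c (nat_lit 2612) l97 (.c (nat_lit 2675) l65 (.c (nat_lit 2664) l52 (.c (nat_lit 2683) l49 (.c (nat_lit 2643) l65 (.c (nat_lit 2334) l65 (.c (nat_lit 2675) l50 (.c (nat_lit 2654) l42 (.c (nat_lit 2688) l52 (.c (nat_lit 2728) l77 (.c (nat_lit 2694) l69 (.c (nat_lit 2718) l107 (.c (nat_lit 2718) l114 (.c (nat_lit 2686) l48 (.c (nat_lit 2684) l52 (.c (nat_lit 2707) l104 (.c (nat_lit 2727) l107 (.c (nat_lit 2065) l42 (.c (nat_lit 2724) l110 (.c (nat_lit 2707) l114 (.c (nat_lit 2601) l141 (.c (nat_lit 2710) l117 (.c (nat_lit 2612) l65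 (.c (nat_lit 2544) l49 (.c (nat_lit 2175) l1 (.c (nat_lit 2681) l104 (.c (nat_lit 2000) l42 (.c (nat_lit 2491) l141 (.c (nat_lit 1825) l42 (.c (nat_lit 2660) l108 (.c (nat_lit 2728) l68 (.c (nat_lit 2531) l49 (.c (nat_lit 2667) l49 (.c (nat_lit 2411) l48 (.c (nat_lit 2660) l160 (.c (nat_lit 2423) l74 u2_16))))))))))))))))))))))))))))))))))))))))
noncomputable def u2_18 : St := (.c (nat_lit 2302) l48 .e)
noncomputable def u2_19 : St := (.c (nat_lit 2680) l65 (.c (nat_lit 2575) l160 (.c (nat_lit 2624) l65 (.c (nat_lit 2625) l78 (.c (nat_lit 2718) l114 (.c (nat_lit 2724) l110 (.c (nat_lit 1942) l42 (.c (nat_lit 2302) l49 (.c (nat_lit 2423) l74 (.c (nat_lit 2611) l78 (.c (nat_lit 2724) l79 (.c (nat_lit 2724) l114 (.c (nat_lit 2724) l166 (.c (nat_lit 2695) l181 (.c (nat_lit 2680) l97 (.c (nat_lit 2624) l141 (.c (nat_lit 1640) l42 (.c (nat_lit 1435) l42 (.c (nat_lit 1609) l42 (.c (nat_lit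 2700) l79 (.c (nat_lit 2423) l108 (.c (nat_lit 2007) l74 (.c (nat_lit 2625) l118 (.c (nat_lit 1940) l42 (.c (nat_lit 1945) l42 (.c (nat_lit 1648) l42 (.c (nat_lit 1611) l42 (.c (nat_lit 1529) l1 (.c (nat_lit 2660) l79 (.c (nat_lit 1650) l65 (.c (nat_lit 1410) l42 (.c (nat_lit 2642) l79 (.c (nat_lit 1298) l53 (.c (nat_lit 2624) l97 (.c (nat_lit 2680) l141 (.c (nat_lit 1341) l42 (.c (nat_lit 2731) l228 (.c (nat_lit 2505) l108 (.c (nat_lit 2005) l48 (.c (nat_lit 2005) l63 u2_18))))))))))))))))))))))))))))))))))))))))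
noncomputable def u2_20 : St := (.c (nat_lit 2575) l160 (.c (nat_lit 2506) l78 (.c (nat_lit 2423) l74 (.c (nat_lit 1295) l42 (.c (nat_lit 1435) l42 (.c (nat_lit 2700) l79 (.c (nat_lit 2423) l108 (.c (nat_lit 2306) l108 (.c (nat_lit 2506) l118 (.c (nat_lit 2700) l114 (.c (nat_lit 915) l42 (.c (nat_lit 1341) l42 (.c (nat_lit 2505) l108 .e)))))))))))))
noncomputable def u2_21 : St := (.c (nat_lit 2718) l114 (.c (nat_lit 2724) l110 (.c (nat_lit 2611) l78 (.c (nat_lit 2724) l79 (.c (nat_lit 2724) l114 (.c (nat_lit 2724) l166 (.c (nat_lit 2695) l181 (.c (nat_lit 1295) l42 (.c (nat_lit 2306) l108 (.c (nat_lit 2660) l79 (.c (nat_lit 2642) l79 (.c (nat_lit 2700) l114 (.c (nat_lit 915) l42 (.c (nat_lit 2731) l228 .e))))))))))))))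
noncomputable def u2_22 : St := (.c (nat_lit 1129) l50 (.c (nat_lit 1140) l50 (.c (nat_lit 1745) l50 (.c (nat_lit 2090) l42 (.c (nat_lit 2448) l104 (.c (nat_lit 2214) l70 (.c (nat_lit 2300) l79 (.c (nat_lit 2308) l50 (.c (nat_lit 1652) l42 (.c (nat_lit 2458) l1 (.c (nat_lit 2596) l1 (.c (nat_lit 1702) l42 (.c (nat_lit 1713) l42 (.c (nat_lit 1632) l42 (.c (nat_lit 1615) l42 (.c (nat_lit 2484) l79 (.c (nat_lit 1647) l53 (.c (nat_lit 2646) l80 (.c (nat_lit 2542) l79 (.c (nat_lit 2638) l70 (.c (nat_lit 2273) l53 (.c (nat_lit 1813) l42 (.c (nat_lit 2416) l79 (.c (nat_lit 1661) l1 (.c (nat_lit 1470) l1 (.c (nat_lit 2092) l42 (.c (nat_lit 896) l42 (.c (nat_lit 2613) l114 (.c (nat_lit 1693) l42 (.c (nat_lit 1751) l42 (.c (nat_lit 2138) l1 (.c (nat_lit 2358) l53 (.c (nat_lit 1179) l42 (.c (nat_lit 1562) l42 (.c (nat_lit 2200) l1 (.c (nat_lit 2237) l42 (.c (nat_lit 1424) l42 (.c (nat_lit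 2732) l268 .e))))))))))))))))))))))))))))))))))))))
noncomputable def u2_23 : St := (.c (nat_lit 2618) l70 (.c (nat_lit 2707) l104 (.c (nat_lit 2707) l114 (.c (nat_lit 2601) l141 (.c (nat_lit 2710) l117 (.c (nat_lit 2175) l1 (.c (nat_lit 2681) l104 (.c (nat_lit 2491) l141 (.c (nat_lit 1825) l42 (.c (nat_lit 2707) l70 (.c (nat_lit 2709) l110 (.c (nat_lit 2708) l100 (.c (nat_lit 2668) l100 (.c (nat_lit 2722) l67 (.c (nat_lit 2493) l104 (.c (nat_lit 2677) l64 (.c (nat_lit 2453) l65 (.c (nat_lit 2732) l280 (.c (nat_lit 2623) l117 (.c (nat_lit 1512) l50 (.c (nat_lit 2462) l141 (.c (nat_lit 2707) l79 (.c (nat_lit 2732) l301 (.c (nat_lit 1956) l42 (.c (nat_lit 2708) l73 (.c (nat_lit 2691) l110 (.c (nat_lit 2586) l141 (.c (nat_lit 2277) l1 (.c (nat_lit 2186) l50 (.c (nat_lit 2707) l100 (.c (nat_lit 1949) l42 (.c (nat_lit 1953) l42 (.c (nat_lit 2286) l1 (.c (nat_lit 2503) l114 (.c (nat_lit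 1959) l74 (.c (nat_lit 1497) l50 (.c (nat_lit 2216) l50 (.c (nat_lit 2281) l141 (.c (nat_lit 2282) l160 (.c (nat_lit 2300) l70 u2_22))))))))))))))))))))))))))))))))))))))))
noncomputable def u2_24 : St := (.c (nat_lit 2701) l181 (.c (nat_lit 2667) l49 (.c (nat_lit 2411) l48 (.c (nat_lit 2660) l160 (.c (nat_lit 2582) l49 (.c (nat_lit 2655) l49 (.c (nat_lit 2647) l65 (.c (nat_lit 2718) l73 (.c (nat_lit 2385) l50 (.c (nat_lit 2718) l110 (.c (nat_lit 2567) l50 (.c (nat_lit 2658) l112 (.c (nat_lit 2656) l97 (.c (nat_lit 2573) l49 (.c (nat_lit 2613) l69 (.c (nat_lit 2385) l65 (.c (nat_lit 2660) l157 (.c (nat_lit 2110) l65 (.c (nat_lit 2296) l49 (.c (nat_lit 2718) l106 (.c (nat_lit 2180) l50 (.c (nat_lit 1892) l65 (.c (nat_lit 2231) l50 (.c (nat_lit 2180) l65 (.c (nat_lit 2660) l79 (.c (nat_lit 2138) l1 (.c (nat_lit 2655) l69 (.c (nat_lit 2652) l65 (.c (nat_lit 2534) l50 (.c (nat_lit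 2701) l136 (.c (nat_lit 2574) l65 (.c (nat_lit 2728) l110 (.c (nat_lit 2728) l106 .e)))))))))))))))))))))))))))))))))
noncomputable def u2_25 : St := (.c (nat_lit 2693) l48 (.c (nat_lit 2404) l74 (.c (nat_lit 2263) l65 (.c (nat_lit 2231) l65 (.c (nat_lit 2648) l63 (.c (nat_lit 2728) l102 (.c (nat_lit 2664) l52 (.c (nat_lit 2691) l49 (.c (nat_lit 2683) l49 (.c (nat_lit 2334) l65 (.c (nat_lit 2728) l114 (.c (nat_lit 2654) l42 (.c (nat_lit 2688) l52 (.c (nat_lit 2728) l77 (.c (nat_lit 2575) l160 (.c (nat_lit 2659) l65 (.c (nat_lit 2732) l264 (.c (nat_lit 2582) l69 (.c (nat_lit 2694) l69 (.c (nat_lit 2648) l78 (.c (nat_lit 2686) l48 (.c (nat_lit 2684) l52 (.c (nat_lit 2718) l68 (.c (nat_lit 2731) l202 (.c (nat_lit 2635) l69 (.c (nat_lit 2635) l49 (.c (nat_lit 2214) l65 (.c (nat_lit 2536) l50 (.c (nat_lit 2620) l49 (.c (nat_lit 2680) l69 (.c (nat_lit 2544) l49 (.c (nat_lit 2630) l49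 (.c (nat_lit 2644) l69 (.c (nat_lit 2725) l143 (.c (nat_lit 2556) l50 (.c (nat_lit 2448) l49 (.c (nat_lit 1825) l42 (.c (nat_lit 2660) l108 (.c (nat_lit 2728) l68 (.c (nat_lit 2531) l49 u2_24))))))))))))))))))))))))))))))))))))))))
noncomputable def u2_26 : St := (.c (nat_lit 645) l1 (.c (nat_lit 1272) l42 (.c (nat_lit 572) l42 (.c (nat_lit 833) l42 (.c (nat_lit 2484) l179 (.c (nat_lit 1002) l42 (.c (nat_lit 2300) l108 (.c (nat_lit 1644) l50 (.c (nat_lit 2571) l65 (.c (nat_lit 2652) l65 (.c (nat_lit 2701) l136 (.c (nat_lit 2728) l110 .e))))))))))))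
noncomputable def u2_27 : St := (.c (nat_lit 2719) l69 (.c (nat_lit 2698) l69 (.c (nat_lit 2701) l63 (.c (nat_lit 2720) l74 (.c (nat_lit 2701) l78 (.c (nat_lit 2720) l231 (.c (nat_lit 2728) l114 (.c (nat_lit 2654) l42 (.c (nat_lit 2720) l78 (.c (nat_lit 2575) l160 (.c (nat_lit 2418) l42 (.c (nat_lit 2391) l78 (.c (nat_lit 2728) l154 (.c (nat_lit 2657) l74 (.c (nat_lit 2563) l42 (.c (nat_lit 2556) l50 (.c (nat_lit 2728) l73 (.c (nat_lit 2401) l42 (.c (nat_lit 2728) l166 (.c (nat_lit 1825) l42 (.c (nat_lit 2660) l108 (.c (nat_lit 2414) l42 (.c (nat_lit 2720) l63 (.c (nat_lit 2701) l181 (.c (nat_lit 2720) l179 (.c (nat_lit 2728) l210 (.c (nat_lit 2117) l78 (.c (nat_lit 2164) l42 (.c (nat_lit 2423) l74 (.c (nat_lit 2385) l50 (.c (nat_lit 2660) l97 (.c (nat_lit 2567) l50 (.c (nat_lit 2573) l49 (.c (nat_lit 2385) l65 (.c (nat_lit 1435) l42 (.c (nat_lit 1713) l42 (.c (nat_lit 1275) l50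 (.c (nat_lit 2417) l50 (.c (nat_lit 817) l42 (.c (nat_lit 1575) l42 u2_26))))))))))))))))))))))))))))))))))))))))
noncomputable def u2_28 : St := (.c (nat_lit 2701) l63 (.c (nat_lit 2701) l78 (.c (nat_lit 2575) l160 (.c (nat_lit 2659) l65 (.c (nat_lit 2701) l118 (.c (nat_lit 1825) l42 (.c (nat_lit 1810) l42 (.c (nat_lit 2423) l74 (.c (nat_lit 2385) l50 (.c (nat_lit 2100) l50 (.c (nat_lit 2567) l50 (.c (nat_lit 2573) l49 (.c (nat_lit 2385) l65 (.c (nat_lit 2566) l65 (.c (nat_lit 2384) l65 (.c (nat_lit 2103) l50 (.c (nat_lit 2660) l70 (.c (nat_lit 2658) l70 (.c (nat_lit 2104) l50 (.c (nat_lit 2423) l108 (.c (nat_lit 1808) l42 (.c (nat_lit 1275) l50 (.c (nat_lit 2417) l50 (.c (nat_lit 1644) l50 (.c (nat_lit 2571) l65 (.c (nat_lit 2720) l157 (.c (nat_lit 2701) l87 .e)))))))))))))))))))))))))))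
noncomputable def u2_29 : St := (.c (nat_lit 2659) l65 (.c (nat_lit 2556) l50 (.c (nat_lit 1810) l42 (.c (nat_lit 2100) l50 (.c (nat_lit 2566) l50 (.c (nat_lit 2422) l65 (.c (nat_lit 2384) l65 (.c (nat_lit 2103) l50 (.c (nat_lit 2660) l70 (.c (nat_lit 2658) l70 (.c (nat_lit 2104) l50 (.c (nat_lit 1808) l42 (.c (nat_lit 2652) l65 (.c (nat_lit 2720) l157 .e))))))))))))))
noncomputable def u2_30 : St := (.c (nat_lit 2575) l160 (.c (nat_lit 2556) l50 (.c (nat_lit 1825) l42 (.c (nat_lit 2701) l181 (.c (nat_lit 2385) l50 (.c (nat_lit 2567) l50 (.c (nat_lit 2566) l50 (.c (nat_lit 2573) l49 (.c (nat_lit 2385) l65 (.c (nat_lit 2566) l65 (.c (nat_lit 1435) l42 (.c (nat_lit 1275) l50 (.c (nat_lit 1644) l50 (.c (nat_lit 2571) l65 (.c (nat_lit 2652) l65 (.c (nat_lit 2701) l136 .e))))))))))))))))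
noncomputable def u2_31 : St := (.c (nat_lit 2623) l117 (.c (nat_lit 2071) l42 (.c (nat_lit 1593) l74 (.c (nat_lit 1570) l42 (.c (nat_lit 2503) l114 (.c (nat_lit 1959) l74 (.c (nat_lit 2282) l160 (.c (nat_lit 2644) l114 (.c (nat_lit 2300) l79 (.c (nat_lit 2484) l79 (.c (nat_lit 2282) l231 (.c (nat_lit 2573) l114 (.c (nat_lit 2542) l79 (.c (nat_lit 2058) l42 (.c (nat_lit 1323) l42 (.c (nat_lit 2273) l53 (.c (nat_lit 2416) l79 (.c (nat_lit 1708) l42 (.c (nat_lit 896) l42 (.c (nat_lit 1239) l42 (.c (nat_lit 2613) l114 (.c (nat_lit 1270) l42 (.c (nat_lit 2358) l53 (.c (nat_lit 1410) l42 (.c (nat_lit 2200) l1 (.c (nat_lit 2255) l53 (.c (nat_lit 2027) l1 .e)))))))))))))))))))))))))))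
noncomputable def u2_32 : St := (.c (nat_lit 2175) l1 (.c (nat_lit 2245) l42 (.c (nat_lit 2244) l42 (.c (nat_lit 1583) l42 (.c (nat_lit 1600) l42 (.c (nat_lit 1652) l42 (.c (nat_lit 1632) l42 (.c (nat_lit 1615) l42 (.c (nat_lit 1323) l42 (.c (nat_lit 1813) l42 (.c (nat_lit 1470) l1 (.c (nat_lit 1239) l42 (.c (nat_lit 1270) l42 (.c (nat_lit 1693) l42 (.c (nat_lit 1751) l42 (.c (nat_lit 1179) l42 (.c (nat_lit 1040) l42 (.c (nat_lit 1410) l42 (.c (nat_lit 2200) l1 (.c (nat_lit 536) l42 (.c (nat_lit 2237) l42 .e)))))))))))))))))))))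
noncomputable def u2_33 : St := (.c (nat_lit 1540) l42 (.c (nat_lit 1245) l42 (.c (nat_lit 1702) l42 (.c (nat_lit 1615) l42 (.c (nat_lit 1538) l42 (.c (nat_lit 1323) l42 (.c (nat_lit 1235) l42 (.c (nat_lit 1661) l1 (.c (nat_lit 1277) l42 (.c (nat_lit 1708) l42 (.c (nat_lit 896) l42 (.c (nat_lit 856) l42 (.c (nat_lit 1270) l42 (.c (nat_lit 1562) l42 .e))))))))))))))
noncomputable def u2_34 : St := (.c (nat_lit 2580) l49 (.c (nat_lit 2694) l69 (.c (nat_lit 2718) l107 (.c (nat_lit 2727) l107 (.c (nat_lit 1825) l42 (.c (nat_lit 2531) l49 (.c (nat_lit 2596) l69 (.c (nat_lit 2636) l69 (.c (nat_lit 2636) l49 (.c (nat_lit 2090) l42 (.c (nat_lit 2628) l69 (.c (nat_lit 2379) l1 (.c (nat_lit 2716) l69 .e)))))))))))))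
noncomputable def u2_35 : St := (.c (nat_lit 2558) l141 (.c (nat_lit 2558) l65 (.c (nat_lit 2113) l65 (.c (nat_lit 2557) l63 (.c (nat_lit 1377) l50 (.c (nat_lit 2558) l152 (.c (nat_lit 2390) l207 (.c (nat_lit 1426) l42 (.c (nat_lit 2390) l141 (.c (nat_lit 989) l42 (.c (nat_lit 2560) l104 (.c (nat_lit 2208) l157 (.c (nat_lit 994) l50 (.c (nat_lit 1368) l42 (.c (nat_lit 2557) l91 .e)))))))))))))))
noncomputable def u2_36 : St := (.c (nat_lit 2558) l65 (.c (nat_lit 2653) l70 (.c (nat_lit 2113) l65 (.c (nat_lit 2312) l52 (.c (nat_lit 2210) l52 (.c (nat_lit 1530) l74 (.c (nat_lit 2444) l141 (.c (nat_lit 1544) l42 (.c (nat_lit 1377) l50 (.c (nat_lit 1229) l42 (.c (nat_lit 1893) l74 (.c (nat_lit 2558) l152 (.c (nat_lit 1192) l42 (.c (nat_lit 2390) l207 (.c (nat_lit 1507) l42 (.c (nat_lit 1581) l2 (.c (nat_lit 1508) l1 (.c (nat_lit 2390) l141 (.c (nat_lit 2208) l97 (.c (nat_lit 2515) l1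 (.c (nat_lit 1137) l42 (.c (nat_lit 2651) l100 (.c (nat_lit 2484) l108 (.c (nat_lit 1877) l48 .e))))))))))))))))))))))))
noncomputable def u2_37 : St := (.c (nat_lit 2214) l179 (.c (nat_lit 2697) l70 (.c (nat_lit 2213) l69 (.c (nat_lit 1891) l52 (.c (nat_lit 2210) l52 (.c (nat_lit 2214) l108 (.c (nat_lit 814) l42 (.c (nat_lit 1377) l50 (.c (nat_lit 488) l42 (.c (nat_lit 1893) l74 (.c (nat_lit 1877) l69 (.c (nat_lit 1336) l42 (.c (nat_lit 1192) l42 (.c (nat_lit 1877) l63 (.c (nat_lit 2697) l104 (.c (nat_lit 1749) l42 (.c (nat_lit 1137) l42 (.c (nat_lit 2299) l78 (.c (nat_lit 2484) l108 (.c (nat_lit 1891) l63 (.c (nat_lit 2542) l108 .e)))))))))))))))))))))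
noncomputable def u2_38 : St := (.c (nat_lit 2214) l179 (.c (nat_lit 2697) l70 (.c (nat_lit 2213) l69 (.c (nat_lit 1891) l52 (.c (nat_lit 2210) l52 (.c (nat_lit 2214) l108 (.c (nat_lit 814) l42 (.c (nat_lit 1377) l50 (.c (nat_lit 488) l42 (.c (nat_lit 1893) l74 (.c (nat_lit 1877) l69 (.c (nat_lit 1877) l63 (.c (nat_lit 2697) l104 (.c (nat_lit 989) l42 (.c (nat_lit 1135) l1 (.c (nat_lit 2515) l1 (.c (nat_lit 2299) l78 (.c (nat_lit 1891) l63 .e))))))))))))))))))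
noncomputable def u2_39 : St := (.c (nat_lit 2558) l141 (.c (nat_lit 2653) l70 (.c (nat_lit 2444) l141 (.c (nat_lit 1544) l42 (.c (nat_lit 1229) l42 (.c (nat_lit 1192) l42 (.c (nat_lit 1878) l65 (.c (nat_lit 1507) l42 (.c (nat_lit 1581) l2 (.c (nat_lit 1508) l1 (.c (nat_lit 2390) l141 (.c (nat_lit 2515) l1 (.c (nat_lit 1137) l42 (.c (nat_lit 2651) l100 (.c (nat_lit 2484) l108 .e)))))))))))))))
noncomputable def u2_40 : St := (.c (nat_lit 2558) l141 (.c (nat_lit 2653) l70 (.c (nat_lit 2444) l141 (.c (nat_lit 1544) l42 (.c (nat_lit 1229) l42 (.c (nat_lit 1878) l65 (.c (nat_lit 1507) l42 (.c (nat_lit 1581) l2 (.c (nat_lit 1508) l1 (.c (nat_lit 2390) l141 (.c (nat_lit 989) l42 (.c (nat_lit 1135) l1 (.c (nat_lit 2651) l100 .e)))))))))))))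
noncomputable def u2_41 : St := (.c (nat_lit 1883) l1 (.c (nat_lit 1990) l42 (.c (nat_lit 2154) l42 (.c (nat_lit 2730) l276 (.c (nat_lit 1652) l42 (.c (nat_lit 1648) l42 (.c (nat_lit 2166) l42 (.c (nat_lit 1808) l42 (.c (nat_lit 2489) l74 (.c (nat_lit 1952) l53 (.c (nat_lit 2492) l74 (.c (nat_lit 2004) l53 (.c (nat_lit 2573) l114 (.c (nat_lit 1717) l42 (.c (nat_lit 1426) l42 (.c (nat_lit 1581) l2 (.c (nat_lit 2542) l79 (.c (nat_lit 1538) l42 (.c (nat_lit 2730) l140 (.c (nat_lit 2730) l179 (.c (nat_lit 2273) l53 (.c (nat_lit 2078) l53 (.c (nat_lit 1813) l42 (.c (nat_lit 2416) l79 (.c (nat_lit 1869) l1 (.c (nat_lit 1529) l1 (.c (nat_lit 2101) l42 (.c (nat_lit 2661) l63 (.c (nat_lit 2092) l42 (.c (nat_lit 1708) l42 (.c (nat_lit 2729) l106 .e)))))))))))))))))))))))))))))))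
noncomputable def u2_42 : St := (.c (nat_lit 2503) l114 (.c (nat_lit 2004) l42 (.c (nat_lit 2566) l70 (.c (nat_lit 1540) l42 (.c (nat_lit 1959) l74 (.c (nat_lit 2216) l50 (.c (nat_lit 2301) l53 (.c (nat_lit 2624) l108 (.c (nat_lit 1986) l74 (.c (nat_lit 2682) l91 (.c (nat_lit 2267) l74 (.c (nat_lit 2682) l110 (.c (nat_lit 2493) l114 (.c (nat_lit 2265) l79 (.c (nat_lit 2282) l160 (.c (nat_lit 1336) l42 (.c (nat_lit 1192) l42 (.c (nat_lit 2390) l207 (.c (nat_lit 2682) l140 (.c (nat_lit 1942) l53 (.c (nat_lit 1281) l42 (.c (nat_lit 2700) l79 (.c (nat_lit 2104) l50 (.c (nat_lit 2423) l108 (.c (nat_lit 2300) l70 (.c (nat_lit 1140) l50 (.c (nat_lit 2306) l108 (.c (nat_lit 2618) l108 (.c (nat_lit 1583) l42 (.c (nat_lit 2700) l70 (.c (nat_lit 2644) l114 (.c (nat_lit 2300) l79 (.c (nat_lit 2728) l250 (.c (nat_lit 2289) l53 (.c (nat_lit 2688) l97 (.c (nat_lit 2643) l104 (.c (nat_lit 2564)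 l49 (.c (nat_lit 2675) l97 (.c (nat_lit 1243) l42 (.c (nat_lit 1940) l42 u2_41))))))))))))))))))))))))))))))))))))))))
noncomputable def u2_43 : St := (.c (nat_lit 2624) l207 (.c (nat_lit 2636) l63 (.c (nat_lit 2351) l74 (.c (nat_lit 1842) l42 (.c (nat_lit 1907) l42 (.c (nat_lit 1502) l42 (.c (nat_lit 1148) l42 (.c (nat_lit 2708) l63 (.c (nat_lit 2543) l53 (.c (nat_lit 2111) l42 (.c (nat_lit 2124) l42 (.c (nat_lit 2128) l42 (.c (nat_lit 1883) l42 (.c (nat_lit 1848) l42 (.c (nat_lit 2617) l74 (.c (nat_lit 1593) l74 (.c (nat_lit 2493) l110 (.c (nat_lit 2179) l50 (.c (nat_lit 2231) l50 (.c (nat_lit 2680) l157 (.c (nat_lit 2184) l50 (.c (nat_lit 2685) l104 (.c (nat_lit 2180) l65 (.c (nat_lit 2682) l107 (.c (nat_lit 1873) l50 (.c (nat_lit 2682) l159 (.c (nat_lit 2732) l219 (.c (nat_lit 2730) l159 (.c (nat_lit 2723) l157 (.c (nat_lit 1570) l42 (.c (nat_lit 1909) l50 (.c (nat_lit 2685)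 l176 (.c (nat_lit 2186) l50 (.c (nat_lit 2311) l50 (.c (nat_lit 2730) l120 (.c (nat_lit 1953) l42 (.c (nat_lit 1482) l42 (.c (nat_lit 2682) l136 (.c (nat_lit 2103) l50 (.c (nat_lit 2286) l1 u2_42))))))))))))))))))))))))))))))))))))))))
noncomputable def u2_44 : St := (.c (nat_lit 2601) l65 (.c (nat_lit 2697) l71 (.c (nat_lit 1529) l65 (.c (nat_lit 2203) l50 (.c (nat_lit 2725) l107 (.c (nat_lit 2586) l65 (.c (nat_lit 2434) l50 (.c (nat_lit 2729) l102 (.c (nat_lit 1984) l53 (.c (nat_lit 2296) l49 (.c (nat_lit 2280) l42 (.c (nat_lit 2711) l70 (.c (nat_lit 2706) l71 (.c (nat_lit 2713) l70 (.c (nat_lit 2490) l48 (.c (nat_lit 2583) l65 (.c (nat_lit 2682) l114 (.c (nat_lit 2617) l108 (.c (nat_lit 2462) l141 (.c (nat_lit 2636) l49 (.c (nat_lit 2180) l50 (.c (nat_lit 2462) l65 (.c (nat_lit 2674) l78 (.c (nat_lit 2615) l53 (.c (nat_lit 2244) l42 (.c (nat_lit 2681) l70 (.c (nat_lit 2705)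 l52 (.c (nat_lit 1710) l42 (.c (nat_lit 2602) l53 (.c (nat_lit 2475) l53 (.c (nat_lit 2675) l179 (.c (nat_lit 2071) l42 (.c (nat_lit 1295) l42 (.c (nat_lit 2068) l42 (.c (nat_lit 2271) l42 (.c (nat_lit 1886) l50 (.c (nat_lit 2708) l73 (.c (nat_lit 1229) l42 (.c (nat_lit 2691) l110 (.c (nat_lit 2586) l141 u2_43))))))))))))))))))))))))))))))))))))))))
noncomputable def u2_45 : St := (.c (nat_lit 2724) l166 (.c (nat_lit 2441) l50 (.c (nat_lit 2712) l69 (.c (nat_lit 2718) l110 (.c (nat_lit 2675) l79 (.c (nat_lit 2731) l244 (.c (nat_lit 2327) l42 (.c (nat_lit 2637) l52 (.c (nat_lit 2295) l42 (.c (nat_lit 1548) l42 (.c (nat_lit 2695) l181 (.c (nat_lit 2544) l52 (.c (nat_lit 2331) l42 (.c (nat_lit 2209) l50 (.c (nat_lit 2713) l97 (.c (nat_lit 2002) l42 (.c (nat_lit 2659) l97 (.c (nat_lit 2484) l65 (.c (nat_lit 2730) l152 (.c (nat_lit 2110) l65 (.c (nat_lit 2684) l108 (.c (nat_lit 2731)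 l204 (.c (nat_lit 2670) l65 (.c (nat_lit 2544) l48 (.c (nat_lit 2706) l100 (.c (nat_lit 2715) l100 (.c (nat_lit 2392) l42 (.c (nat_lit 1886) l42 (.c (nat_lit 1504) l42 (.c (nat_lit 1544) l42 (.c (nat_lit 2048) l42 (.c (nat_lit 2696) l100 (.c (nat_lit 1909) l42 (.c (nat_lit 2725) l100 (.c (nat_lit 2715) l101 (.c (nat_lit 2722) l105 (.c (nat_lit 2695) l63 (.c (nat_lit 2680) l97 (.c (nat_lit 2579) l50 (.c (nat_lit 2732) l227 u2_44))))))))))))))))))))))))))))))))))))))))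
noncomputable def u2_46 : St := (.c (nat_lit 1260) l42 (.c (nat_lit 2405) l42 (.c (nat_lit 2727) l97 (.c (nat_lit 2718) l68 (.c (nat_lit 2724) l102 (.c (nat_lit 2682) l69 (.c (nat_lit 2730) l87 (.c (nat_lit 2625) l231 (.c (nat_lit 2520) l42 (.c (nat_lit 1934) l42 (.c (nat_lit 2606) l160 (.c (nat_lit 2653) l70 (.c (nat_lit 1961) l74 (.c (nat_lit 2728) l154 (.c (nat_lit 2713) l108 (.c (nat_lit 2352) l42 (.c (nat_lit 2730) l97 (.c (nat_lit 2369) l42 (.c (nat_lit 2134) l42 (.c (nat_lit 2719) l48 (.c (nat_lit 2116) l42 (.c (nat_lit 2261) l42 (.c (nat_lit 2544) l49 (.c (nat_lit 2630) l49 (.c (nat_lit 2644) l69 (.c (nat_lit 2688) l65 (.c (nat_lit 2727) l100 (.c (nat_lit 2732) l215 (.c (nat_lit 2254) l42 (.c (nat_lit 2503) l52 (.c (nat_lit 1800) l42 (.c (nat_lit 2423) l74 (.c (nat_lit 2434) l65 (.c (nat_lit 2443) l65 (.c (nat_lit 2543) l42 (.c (nat_lit 2718) l73 (.c (nat_lit 2501) l65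 (.c (nat_lit 2721) l100 (.c (nat_lit 2715) l64 (.c (nat_lit 2724) l79 u2_45))))))))))))))))))))))))))))))))))))))))
noncomputable def u2_47 : St := (.c (nat_lit 2728) l178 (.c (nat_lit 2730) l108 (.c (nat_lit 2729) l110 (.c (nat_lit 2582) l78 (.c (nat_lit 1524) l74 (.c (nat_lit 2728) l77 (.c (nat_lit 2730) l107 (.c (nat_lit 1522) l42 (.c (nat_lit 2611) l63 (.c (nat_lit 2675) l70 (.c (nat_lit 2659) l65 (.c (nat_lit 2616) l42 (.c (nat_lit 2730) l231 (.c (nat_lit 2661) l69 (.c (nat_lit 2722) l69 (.c (nat_lit 2732) l155 (.c (nat_lit 2730) l157 (.c (nat_lit 2681) l65 (.c (nat_lit 2694) l69 (.c (nat_lit 2730) l171 (.c (nat_lit 2051) l42 (.c (nat_lit 2729) l159 (.c (nat_lit 2307) l1 (.c (nat_lit 2682) l48 (.c (nat_lit 2732) l224 (.c (nat_lit 2333) l42 (.c (nat_lit 2715) l68 (.c (nat_lit 2711) l104 (.c (nat_lit 2344) l42 (.c (nat_lit 2513) l65 (.c (nat_lit 2721) l104 (.c (nat_lit 2704)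 l104 (.c (nat_lit 2695) l78 (.c (nat_lit 2725) l91 (.c (nat_lit 2497) l42 (.c (nat_lit 1699) l42 (.c (nat_lit 2317) l42 (.c (nat_lit 2293) l42 (.c (nat_lit 2283) l42 (.c (nat_lit 2694) l48 u2_46))))))))))))))))))))))))))))))))))))))))
noncomputable def u2_48 : St := (.c (nat_lit 2716) l65 (.c (nat_lit 2618) l70 (.c (nat_lit 2683) l65 (.c (nat_lit 2298) l42 (.c (nat_lit 2708) l48 (.c (nat_lit 2722) l107 (.c (nat_lit 2729) l69 (.c (nat_lit 2729) l107 (.c (nat_lit 2719) l49 (.c (nat_lit 2723) l65 (.c (nat_lit 2722) l101 (.c (nat_lit 2492) l160 (.c (nat_lit 2684) l160 (.c (nat_lit 2404) l74 (.c (nat_lit 1982) l42 (.c (nat_lit 2263) l65 (.c (nat_lit 2231) l65 (.c (nat_lit 2313) l1 (.c (nat_lit 2708) l69 (.c (nat_lit 2708) l49 (.c (nat_lit 2664) l78 (.c (nat_lit 2664) l52 (.c (nat_lit 1207) l42 (.c (nat_lit 2541) l74 (.c (nat_lit 2620) l42 (.c (nat_lit 2334) l65 (.c (nat_lit 2724) l106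 (.c (nat_lit 2712) l207 (.c (nat_lit 2726) l110 (.c (nat_lit 2694) l49 (.c (nat_lit 2730) l74 (.c (nat_lit 2729) l114 (.c (nat_lit 2654) l42 (.c (nat_lit 2688) l52 (.c (nat_lit 2270) l42 (.c (nat_lit 2706) l70 (.c (nat_lit 2708) l78 (.c (nat_lit 2725) l63 (.c (nat_lit 2635) l78 (.c (nat_lit 2726) l114 u2_47))))))))))))))))))))))))))))))))))))))))
noncomputable def u2_49 : St := (.c (nat_lit 2719) l49 (.c (nat_lit 2404) l74 (.c (nat_lit 2664) l78 (.c (nat_lit 2664) l52 (.c (nat_lit 2541) l74 (.c (nat_lit 2726) l110 (.c (nat_lit 2558) l141 (.c (nat_lit 2654) l42 (.c (nat_lit 2635) l78 (.c (nat_lit 2726) l114 (.c (nat_lit 2687) l49 (.c (nat_lit 2728) l178 (.c (nat_lit 2582) l78 (.c (nat_lit 1524) l74 (.c (nat_lit 2728) l77 (.c (nat_lit 2687) l48 (.c (nat_lit 2661) l69 (.c (nat_lit 2558) l65 (.c (nat_lit 2728) l154 (.c (nat_lit 2719) l48 (.c (nat_lit 2728) l73 (.c (nat_lit 2113) l65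 (.c (nat_lit 2637) l52 (.c (nat_lit 2636) l69 (.c (nat_lit 1377) l50 (.c (nat_lit 2636) l63 (.c (nat_lit 2351) l74 (.c (nat_lit 2558) l152 (.c (nat_lit 2661) l63 .e)))))))))))))))))))))))))))))
noncomputable def u2_50 : St := (.c (nat_lit 1877) l63 (.c (nat_lit 2489) l74 (.c (nat_lit 2282) l231 (.c (nat_lit 1743) l42 (.c (nat_lit 1426) l42 (.c (nat_lit 1581) l2 (.c (nat_lit 2643) l70 (.c (nat_lit 1323) l42 (.c (nat_lit 2562) l53 (.c (nat_lit 2730) l140 (.c (nat_lit 2725) l113 (.c (nat_lit 1989) l53 (.c (nat_lit 2666) l140 (.c (nat_lit 1611) l42 (.c (nat_lit 2273) l53 (.c (nat_lit 2078) l53 (.c (nat_lit 2651) l79 (.c (nat_lit 1235) l42 (.c (nat_lit 2416) l79 (.c (nat_lit 1869) l1 (.c (nat_lit 1529) l1 (.c (nat_lit 1508) l1 (.c (nat_lit 2721) l141 .e)))))))))))))))))))))))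
noncomputable def u2_51 : St := (.c (nat_lit 1492) l50 (.c (nat_lit 1129) l50 (.c (nat_lit 1140) l50 (.c (nat_lit 1891) l107 (.c (nat_lit 1891) l159 (.c (nat_lit 2306) l108 (.c (nat_lit 1758) l42 (.c (nat_lit 2448) l104 (.c (nat_lit 2214) l70 (.c (nat_lit 1920) l42 (.c (nat_lit 2625) l118 (.c (nat_lit 2624) l49 (.c (nat_lit 1583) l42 (.c (nat_lit 2700) l70 (.c (nat_lit 2644) l114 (.c (nat_lit 2300) l79 (.c (nat_lit 2728) l250 (.c (nat_lit 2653) l79 (.c (nat_lit 1387) l42 (.c (nat_lit 1507) l42 (.c (nat_lit 2542) l70 (.c (nat_lit 2289) l53 (.c (nat_lit 2094) l42 (.c (nat_lit 2512) l49 (.c (nat_lit 2688) l97 (.c (nat_lit 2440) l65 (.c (nat_lit 2590) l65 (.c (nat_lit 2675) l97 (.c (nat_lit 2696) l79 (.c (nat_lit 1600) l42 (.c (nat_lit 1990) l42 (.c (nat_lit 1945) l42 (.c (nat_lit 2730) l276 (.c (nat_lit 1648) l42 (.c (nat_lit 2458) l1 (.c (nat_lit 1808) l42 (.c (nat_lit 2596) l1 (.c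 (nat_lit 1713) l42 (.c (nat_lit 1632) l42 (.c (nat_lit 1615) l42 u2_50))))))))))))))))))))))))))))))))))))))))
noncomputable def u2_52 : St := (.c (nat_lit 2730) l159 (.c (nat_lit 2725) l104 (.c (nat_lit 2277) l1 (.c (nat_lit 1909) l50 (.c (nat_lit 2685) l176 (.c (nat_lit 2696) l70 (.c (nat_lit 2730) l120 (.c (nat_lit 1953) l42 (.c (nat_lit 1482) l42 (.c (nat_lit 1599) l42 (.c (nat_lit 2682) l136 (.c (nat_lit 2693) l70 (.c (nat_lit 2286) l1 (.c (nat_lit 2004) l42 (.c (nat_lit 2660) l70 (.c (nat_lit 1540) l42 (.c (nat_lit 1959) l74 (.c (nat_lit 2453) l50 (.c (nat_lit 2629) l1 (.c (nat_lit 2181) l53 (.c (nat_lit 2712) l179 (.c (nat_lit 2606) l74 (.c (nat_lit 2624) l108 (.c (nat_lit 2267) l74 (.c (nat_lit 2682) l110 (.c (nat_lit 2493) l114 (.c (nat_lit 2282) l74 (.c (nat_lit 1526) l42 (.c (nat_lit 1192) l42 (.c (nat_lit 1878) l65 (.c (nat_lit 1508) l65 (.c (nat_lit 2626) l70 (.c (nat_lit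 2400) l53 (.c (nat_lit 2413) l74 (.c (nat_lit 2503) l107 (.c (nat_lit 2696) l81 (.c (nat_lit 2152) l42 (.c (nat_lit 1609) l42 (.c (nat_lit 1281) l42 (.c (nat_lit 2423) l108 u2_51))))))))))))))))))))))))))))))))))))))))
noncomputable def u2_53 : St := (.c (nat_lit 2697) l79 (.c (nat_lit 2436) l63 (.c (nat_lit 2185) l42 (.c (nat_lit 2711) l117 (.c (nat_lit 2244) l42 (.c (nat_lit 2673) l63 (.c (nat_lit 1928) l42 (.c (nat_lit 2681) l70 (.c (nat_lit 2475) l53 (.c (nat_lit 1956) l42 (.c (nat_lit 2353) l52 (.c (nat_lit 2586) l141 (.c (nat_lit 1871) l42 (.c (nat_lit 2592) l48 (.c (nat_lit 2481) l53 (.c (nat_lit 1158) l42 (.c (nat_lit 2565) l52 (.c (nat_lit 2581) l108 (.c (nat_lit 2351) l74 (.c (nat_lit 1893) l74 (.c (nat_lit 1842) l42 (.c (nat_lit 2686) l70 (.c (nat_lit 1148) l42 (.c (nat_lit 2708) l63 (.c (nat_lit 2543) l53 (.c (nat_lit 1811) l42 (.c (nat_lit 2111) l42 (.c (nat_lit 2124)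 l42 (.c (nat_lit 2558) l152 (.c (nat_lit 2617) l74 (.c (nat_lit 2617) l78 (.c (nat_lit 2493) l110 (.c (nat_lit 1877) l69 (.c (nat_lit 2202) l50 (.c (nat_lit 2231) l50 (.c (nat_lit 2451) l50 (.c (nat_lit 2180) l65 (.c (nat_lit 2618) l157 (.c (nat_lit 2561) l50 (.c (nat_lit 2281) l65 u2_52))))))))))))))))))))))))))))))))))))))))
noncomputable def u2_54 : St := (.c (nat_lit 2669) l154 (.c (nat_lit 1504) l42 (.c (nat_lit 1888) l42 (.c (nat_lit 2682) l116 (.c (nat_lit 2048) l42 (.c (nat_lit 2708) l110 (.c (nat_lit 2696) l100 (.c (nat_lit 2615) l74 (.c (nat_lit 2498) l53 (.c (nat_lit 2731) l164 (.c (nat_lit 2732) l249 (.c (nat_lit 2351) l53 (.c (nat_lit 1909) l42 (.c (nat_lit 2725) l100 (.c (nat_lit 2675) l141 (.c (nat_lit 1529) l65 (.c (nat_lit 1512) l50 (.c (nat_lit 2428) l50 (.c (nat_lit 2725) l107 (.c (nat_lit 2731) l146 (.c (nat_lit 2434) l50 (.c (nat_lit 2666) l87 (.c (nat_lit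 1475) l65 (.c (nat_lit 1984) l53 (.c (nat_lit 2296) l49 (.c (nat_lit 2711) l70 (.c (nat_lit 2713) l70 (.c (nat_lit 2490) l63 (.c (nat_lit 2490) l52 (.c (nat_lit 2617) l108 (.c (nat_lit 2443) l49 (.c (nat_lit 2636) l49 (.c (nat_lit 2203) l65 (.c (nat_lit 2207) l65 (.c (nat_lit 1158) l50 (.c (nat_lit 1892) l65 (.c (nat_lit 2204) l49 (.c (nat_lit 2669) l166 (.c (nat_lit 2727) l236 (.c (nat_lit 2732) l252 u2_53))))))))))))))))))))))))))))))))))))))))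
noncomputable def u2_55 : St := (.c (nat_lit 2327) l42 (.c (nat_lit 2684) l231 (.c (nat_lit 2731) l203 (.c (nat_lit 2718) l112 (.c (nat_lit 2544) l52 (.c (nat_lit 2509) l1 (.c (nat_lit 2685) l116 (.c (nat_lit 2597) l78 (.c (nat_lit 2511) l42 (.c (nat_lit 2688) l160 (.c (nat_lit 2567) l50 (.c (nat_lit 2350) l42 (.c (nat_lit 2658) l112 (.c (nat_lit 2503) l69 (.c (nat_lit 2656) l97 (.c (nat_lit 2385) l65 (.c (nat_lit 2213) l65 (.c (nat_lit 2732) l242 (.c (nat_lit 1476) l74 (.c (nat_lit 2539) l53 (.c (nat_lit 2705) l78 (.c (nat_lit 2363) l42 (.c (nat_lit 2488) l53 (.c (nat_lit 2190) l42 (.c (nat_lit 1503) l65 (.c (nat_lit 2444) l141 (.c (nat_lit 2596) l69 (.c (nat_lit 2731) l204 (.c (nat_lit 2429) l65 (.c (nat_lit 2063) l42 (.c (nat_lit 2544) l48 (.c (nat_lit 2706) l100 (.c (nat_lit 2730) l113 (.c (nat_lit 2721) l209 (.c (nat_lit 2715) l100 (.c (nat_lit 2014) l42 (.c (nat_lit 2708)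 l117 (.c (nat_lit 2392) l42 (.c (nat_lit 1886) l42 (.c (nat_lit 2509) l50 u2_54))))))))))))))))))))))))))))))))))))))))
noncomputable def u2_56 : St := (.c (nat_lit 2731) l283 (.c (nat_lit 2701) l140 (.c (nat_lit 2698) l136 (.c (nat_lit 2573) l48 (.c (nat_lit 2720) l162 (.c (nat_lit 2719) l107 (.c (nat_lit 2720) l160 (.c (nat_lit 1825) l42 (.c (nat_lit 2660) l108 (.c (nat_lit 2421) l78 (.c (nat_lit 2728) l68 (.c (nat_lit 2170) l63 (.c (nat_lit 2418) l48 (.c (nat_lit 2531) l49 (.c (nat_lit 2720) l179 (.c (nat_lit 2728) l210 (.c (nat_lit 2604) l52 (.c (nat_lit 2117) l48 (.c (nat_lit 2616) l63 (.c (nat_lit 2582) l49 (.c (nat_lit 2655) l49 (.c (nat_lit 2613) l49 (.c (nat_lit 2647) l65 (.c (nat_lit 2666) l136 (.c (nat_lit 2213) l69 (.c (nat_lit 2718) l73 (.c (nat_lit 2385) l50 (.c (nat_lit 2660) l97 (.c (nat_lit 2685) l114 (.c (nat_lit 2441) l50 (.c (nat_lit 2429) l50 (.c (nat_lit 1862)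 l65 (.c (nat_lit 2712) l69 (.c (nat_lit 1891) l52 (.c (nat_lit 2100) l50 (.c (nat_lit 2708) l100 (.c (nat_lit 2724) l233 (.c (nat_lit 2675) l79 (.c (nat_lit 2634) l53 (.c (nat_lit 2731) l244 u2_55))))))))))))))))))))))))))))))))))))))))
noncomputable def u2_57 : St := (.c (nat_lit 1934) l42 (.c (nat_lit 2606) l160 (.c (nat_lit 2214) l65 (.c (nat_lit 1961) l74 (.c (nat_lit 2281) l207 (.c (nat_lit 1391) l42 (.c (nat_lit 2194) l74 (.c (nat_lit 2728) l154 (.c (nat_lit 2655) l48 (.c (nat_lit 2713) l108 (.c (nat_lit 2717) l108 (.c (nat_lit 2725) l162 (.c (nat_lit 2134) l42 (.c (nat_lit 2719) l48 (.c (nat_lit 2657) l74 (.c (nat_lit 2149) l42 (.c (nat_lit 2116) l42 (.c (nat_lit 2506) l78 (.c (nat_lit 2612) l65 (.c (nat_lit 2536) l50 (.c (nat_lit 2731) l102 (.c (nat_lit 2593) l65 (.c (nat_lit 2630) l49 (.c (nat_lit 2688) l65 (.c (nat_lit 2673) l49 (.c (nat_lit 2410) l42 (.c (nat_lit 2401)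 l42 (.c (nat_lit 2000) l42 (.c (nat_lit 1572) l42 (.c (nat_lit 2575) l74 (.c (nat_lit 2380) l48 (.c (nat_lit 2448) l49 (.c (nat_lit 2193) l65 (.c (nat_lit 2455) l42 (.c (nat_lit 2390) l65 (.c (nat_lit 2653) l157 (.c (nat_lit 2731) l306 (.c (nat_lit 2386) l1 (.c (nat_lit 2719) l157 (.c (nat_lit 2630) l63 u2_56))))))))))))))))))))))))))))))))))))))))
noncomputable def u2_58 : St := (.c (nat_lit 2719) l207 (.c (nat_lit 2732) l246 (.c (nat_lit 2700) l74 (.c (nat_lit 2689) l65 (.c (nat_lit 2507) l50 (.c (nat_lit 2697) l152 (.c (nat_lit 1604) l74 (.c (nat_lit 2715) l221 (.c (nat_lit 2445) l49 (.c (nat_lit 2704) l69 (.c (nat_lit 2727) l246 (.c (nat_lit 2708) l154 (.c (nat_lit 2721) l104 (.c (nat_lit 2682) l63 (.c (nat_lit 2725) l91 (.c (nat_lit 2317) l42 (.c (nat_lit 2727) l162 (.c (nat_lit 2528) l53 (.c (nat_lit 2725) l167 (.c (nat_lit 2718) l114 (.c (nat_lit 2669) l100 (.c (nat_lit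 2649) l65 (.c (nat_lit 2613) l48 (.c (nat_lit 2697) l97 (.c (nat_lit 2731) l294 (.c (nat_lit 2653) l97 (.c (nat_lit 2548) l42 (.c (nat_lit 2516) l1 (.c (nat_lit 2602) l74 (.c (nat_lit 2690) l108 (.c (nat_lit 2686) l48 (.c (nat_lit 2405) l42 (.c (nat_lit 2727) l108 (.c (nat_lit 2311) l42 (.c (nat_lit 2727) l97 (.c (nat_lit 2731) l202 (.c (nat_lit 2682) l49 (.c (nat_lit 2730) l87 (.c (nat_lit 2635) l69 (.c (nat_lit 2635) l49 u2_57))))))))))))))))))))))))))))))))))))))))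
noncomputable def u2_59 : St := (.c (nat_lit 2717) l112 (.c (nat_lit 2730) l107 (.c (nat_lit 2133) l42 (.c (nat_lit 1522) l42 (.c (nat_lit 2659) l74 (.c (nat_lit 2675) l70 (.c (nat_lit 2559) l108 (.c (nat_lit 2655) l78 (.c (nat_lit 2708) l112 (.c (nat_lit 1900) l42 (.c (nat_lit 2730) l231 (.c (nat_lit 2687) l48 (.c (nat_lit 2620) l48 (.c (nat_lit 2582) l48 (.c (nat_lit 2661) l69 (.c (nat_lit 2650) l53 (.c (nat_lit 2567) l53 (.c (nat_lit 2556) l74 (.c (nat_lit 2100) l53 (.c (nat_lit 2559) l74 (.c (nat_lit 2572) l53 (.c (nat_lit 2555) l53 (.c (nat_lit 2666) l118 (.c (nat_lit 2214) l179 (.c (nat_lit 2718) l102 (.c (nat_lit 2507) l1 (.c (nat_lit 2648) l78 (.c (nat_lit 2436) l48 (.c (nat_lit 2730) l63 (.c (nat_lit 2635) l48 (.c (nat_lit 2519) l42 (.c (nat_lit 2729) l159 (.c (nat_lit 2726) l102 (.c (nat_lit 2630) l48 (.c (nat_lit 2666) l91 (.c (nat_lit 2556) l42 (.c (nat_lit 2635) l63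 (.c (nat_lit 2724) l117 (.c (nat_lit 2715) l68 (.c (nat_lit 2631) l50 u2_58))))))))))))))))))))))))))))))))))))))))
noncomputable def u2_60 : St := (.c (nat_lit 2732) l237 (.c (nat_lit 2731) l160 (.c (nat_lit 2675) l50 (.c (nat_lit 2712) l207 (.c (nat_lit 2726) l110 (.c (nat_lit 2713) l160 (.c (nat_lit 2730) l78 (.c (nat_lit 2558) l141 (.c (nat_lit 2586) l207 (.c (nat_lit 2278) l42 (.c (nat_lit 2720) l108 (.c (nat_lit 2571) l97 (.c (nat_lit 2293) l74 (.c (nat_lit 2666) l52 (.c (nat_lit 2729) l114 (.c (nat_lit 2730) l115 (.c (nat_lit 2700) l108 (.c (nat_lit 2720) l231 (.c (nat_lit 2603) l42 (.c (nat_lit 2666) l181 (.c (nat_lit 2720) l78 (.c (nat_lit 2661) l100 (.c (nat_lit 2712) l74 (.c (nat_lit 2708) l78 (.c (nat_lit 2635) l78 (.c (nat_lit 2581) l74 (.c (nat_lit 2632) l74 (.c (nat_lit 2726) l114 (.c (nat_lit 2687) l49 (.c (nat_lit 2729) l110 (.c (nat_lit 2613) l52 (.c (nat_lit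 2582) l52 (.c (nat_lit 2650) l74 (.c (nat_lit 2694) l74 (.c (nat_lit 2644) l52 (.c (nat_lit 1524) l74 (.c (nat_lit 2728) l77 (.c (nat_lit 2653) l179 (.c (nat_lit 2653) l108 (.c (nat_lit 2555) l74 u2_59))))))))))))))))))))))))))))))))))))))))
noncomputable def u2_61 : St := (.c (nat_lit 2690) l74 (.c (nat_lit 2502) l108 (.c (nat_lit 2716) l65 (.c (nat_lit 2721) l97 (.c (nat_lit 2721) l65 (.c (nat_lit 1854) l42 (.c (nat_lit 2355) l160 (.c (nat_lit 2618) l70 (.c (nat_lit 2693) l48 (.c (nat_lit 2719) l65 (.c (nat_lit 2715) l107 (.c (nat_lit 2298) l42 (.c (nat_lit 2717) l74 (.c (nat_lit 2727) l78 (.c (nat_lit 2481) l74 (.c (nat_lit 2430) l42 (.c (nat_lit 2698) l48 (.c (nat_lit 2732) l288 (.c (nat_lit 2732) l177 (.c (nat_lit 2708) l48 (.c (nat_lit 2722) l107 (.c (nat_lit 2729) l107 (.c (nat_lit 2719) l49 (.c (nat_lit 1487) l65 (.c (nat_lit 1960) l42 (.c (nat_lit 2492) l160 (.c (nat_lit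 2592) l49 (.c (nat_lit 2231) l65 (.c (nat_lit 2313) l1 (.c (nat_lit 2672) l42 (.c (nat_lit 2612) l97 (.c (nat_lit 2605) l48 (.c (nat_lit 2731) l112 (.c (nat_lit 2715) l159 (.c (nat_lit 2708) l69 (.c (nat_lit 2708) l49 (.c (nat_lit 2675) l65 (.c (nat_lit 2664) l52 (.c (nat_lit 2727) l111 (.c (nat_lit 2683) l49 u2_60))))))))))))))))))))))))))))))))))))))))
noncomputable def u2_62 : St := (.c (nat_lit 1281) l42 (.c (nat_lit 2700) l79 (.c (nat_lit 2306) l108 (.c (nat_lit 1758) l42 (.c (nat_lit 2090) l42 (.c (nat_lit 2625) l118 (.c (nat_lit 2259) l2 (.c (nat_lit 2644) l114 (.c (nat_lit 1603) l42 (.c (nat_lit 2300) l79 (.c (nat_lit 2728) l250 (.c (nat_lit 1245) l42 (.c (nat_lit 2289) l53 (.c (nat_lit 2156) l42 (.c (nat_lit 1243) l42 (.c (nat_lit 1968) l42 (.c (nat_lit 2154) l42 (.c (nat_lit 2730) l276 (.c (nat_lit 1652) l42 (.c (nat_lit 1648) l42 (.c (nat_lit 2713) l114 (.c (nat_lit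 1951) l42 (.c (nat_lit 1808) l42 (.c (nat_lit 2596) l1 (.c (nat_lit 1632) l42 (.c (nat_lit 2573) l114 (.c (nat_lit 1743) l42 (.c (nat_lit 2542) l79 (.c (nat_lit 2730) l179 .e)))))))))))))))))))))))))))))
noncomputable def u2_63 : St := (.c (nat_lit 2298) l42 (.c (nat_lit 1960) l42 (.c (nat_lit 2313) l1 (.c (nat_lit 2620) l42 (.c (nat_lit 2684) l74 (.c (nat_lit 2730) l74 (.c (nat_lit 2730) l108 (.c (nat_lit 2616) l42 (.c (nat_lit 2730) l231 (.c (nat_lit 2730) l171 (.c (nat_lit 2051) l42 (.c (nat_lit 2625) l78 (.c (nat_lit 2344) l42 (.c (nat_lit 2497) l42 (.c (nat_lit 1699) l42 (.c (nat_lit 2317) l42 (.c (nat_lit 2283) l42 (.c (nat_lit 1260) l42 (.c (nat_lit 2405) l42 (.c (nat_lit 2713) l108 (.c (nat_lit 2369) l42 (.c (nat_lit 2134) l42 (.c (nat_lit 2116) l42 (.c (nat_lit 2728) l73 (.c (nat_lit 2503) l52 (.c (nat_lit 1825) l42 (.c (nat_lit 1800) l42 (.c (nat_lit 2685) l114 (.c (nat_lit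 2713) l110 (.c (nat_lit 2695) l181 (.c (nat_lit 2002) l42 (.c (nat_lit 1965) l42 (.c (nat_lit 2124) l42 (.c (nat_lit 2685) l176 (.c (nat_lit 2004) l42 (.c (nat_lit 1991) l118 (.c (nat_lit 1336) l42 (.c (nat_lit 1192) l42 (.c (nat_lit 2626) l70 (.c (nat_lit 2152) l42 u2_62))))))))))))))))))))))))))))))))))))))))
noncomputable def u2_64 : St := (.c (nat_lit 2436) l48 (.c (nat_lit 2666) l48 (.c (nat_lit 2666) l91 (.c (nat_lit 2587) l65 (.c (nat_lit 1862) l65 (.c (nat_lit 2189) l65 (.c (nat_lit 2436) l63 (.c (nat_lit 1886) l50 (.c (nat_lit 1229) l42 (.c (nat_lit 1873) l50 (.c (nat_lit 2587) l157 (.c (nat_lit 1640) l42 (.c (nat_lit 1497) l50 (.c (nat_lit 2275) l74 (.c (nat_lit 1942) l53 (.c (nat_lit 1609) l42 (.c (nat_lit 1129) l50 (.c (nat_lit 1745) l50 (.c (nat_lit 1127) l50 (.c (nat_lit 2448) l104 (.c (nat_lit 802) l42 (.c (nat_lit 2214) l70 (.c (nat_lit 1245) l42 (.c (nat_lit 1652)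 l42 (.c (nat_lit 1648) l42 (.c (nat_lit 1632) l42 (.c (nat_lit 2666) l63 (.c (nat_lit 1989) l53 (.c (nat_lit 2666) l140 .e)))))))))))))))))))))))))))))
noncomputable def u2_65 : St := (.c (nat_lit 2659) l65 (.c (nat_lit 2312) l52 (.c (nat_lit 2659) l97 (.c (nat_lit 2104) l42 (.c (nat_lit 2652) l160 (.c (nat_lit 1748) l42 (.c (nat_lit 2111) l42 (.c (nat_lit 2561) l50 (.c (nat_lit 2384) l65 (.c (nat_lit 2381) l50 (.c (nat_lit 2103) l50 (.c (nat_lit 2400) l53 (.c (nat_lit 2658) l70 (.c (nat_lit 2653) l79 (.c (nat_lit 2094) l42 (.c (nat_lit 2562) l53 (.c (nat_lit 2701) l117 .e)))))))))))))))))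
noncomputable def u2_66 : St := (.c (nat_lit 1581) l2 (.c (nat_lit 2542) l79 (.c (nat_lit 2643) l70 (.c (nat_lit 2638) l70 (.c (nat_lit 1538) l42 (.c (nat_lit 1323) l42 (.c (nat_lit 2562) l53 (.c (nat_lit 2182) l2 (.c (nat_lit 2730) l140 (.c (nat_lit 2725) l113 .e))))))))))
noncomputable def u2_67 : St := (.c (nat_lit 2306) l108 (.c (nat_lit 1758) l42 (.c (nat_lit 2448) l104 (.c (nat_lit 802) l42 (.c (nat_lit 2214) l70 (.c (nat_lit 2102) l42 (.c (nat_lit 2007) l74 (.c (nat_lit 2483) l78 (.c (nat_lit 2722) l114 (.c (nat_lit 2618) l108 (.c (nat_lit 1583) l42 (.c (nat_lit 2700) l70 (.c (nat_lit 2644) l114 (.c (nat_lit 1603) l42 (.c (nat_lit 1245) l42 (.c (nat_lit 2308) l50 (.c (nat_lit 2289) l53 (.c (nat_lit 1243) l42 (.c (nat_lit 1940) l42 (.c (nat_lit 2696) l79 (.c (nat_lit 1600) l42 (.c (nat_lit 1990) l42 (.c (nat_lit 1945) l42 (.c (nat_lit 2730) l276 (.c (nat_lit 1652) l42 (.c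 (nat_lit 2458) l1 (.c (nat_lit 2166) l42 (.c (nat_lit 2596) l1 (.c (nat_lit 1702) l42 (.c (nat_lit 1713) l42 (.c (nat_lit 1615) l42 (.c (nat_lit 1877) l63 (.c (nat_lit 2489) l74 (.c (nat_lit 2706) l79 (.c (nat_lit 2004) l53 (.c (nat_lit 1647) l53 (.c (nat_lit 1717) l42 (.c (nat_lit 1743) l42 (.c (nat_lit 2646) l80 (.c (nat_lit 1426) l42 u2_66))))))))))))))))))))))))))))))))))))))))
noncomputable def u2_68 : St := (.c (nat_lit 2660) l70 (.c (nat_lit 2566) l70 (.c (nat_lit 1540) l42 (.c (nat_lit 1959) l74 (.c (nat_lit 2453) l50 (.c (nat_lit 2011) l50 (.c (nat_lit 1497) l50 (.c (nat_lit 2216) l50 (.c (nat_lit 1876) l50 (.c (nat_lit 2275) l74 (.c (nat_lit 2624) l108 (.c (nat_lit 1986) l74 (.c (nat_lit 2682) l110 (.c (nat_lit 2681) l113 (.c (nat_lit 2281) l141 (.c (nat_lit 1991) l181 (.c (nat_lit 2282) l160 (.c (nat_lit 1336) l42 (.c (nat_lit 1192) l42 (.c (nat_lit 1878) l65 (.c (nat_lit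 1508) l65 (.c (nat_lit 2413) l74 (.c (nat_lit 2260) l74 (.c (nat_lit 2682) l140 (.c (nat_lit 1942) l53 (.c (nat_lit 2696) l81 (.c (nat_lit 2701) l112 (.c (nat_lit 2152) l42 (.c (nat_lit 1609) l42 (.c (nat_lit 2407) l42 (.c (nat_lit 2066) l42 (.c (nat_lit 2423) l108 (.c (nat_lit 1492) l50 (.c (nat_lit 2300) l70 (.c (nat_lit 1129) l50 (.c (nat_lit 1745) l50 (.c (nat_lit 778) l50 (.c (nat_lit 1127) l50 (.c (nat_lit 1891) l107 (.c (nat_lit 1891) l159 u2_67))))))))))))))))))))))))))))))))))))))))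
noncomputable def u2_69 : St := (.c (nat_lit 2696) l117 (.c (nat_lit 1893) l74 (.c (nat_lit 1965) l42 (.c (nat_lit 2686) l70 (.c (nat_lit 1907) l42 (.c (nat_lit 1502) l42 (.c (nat_lit 2708) l63 (.c (nat_lit 1811) l42 (.c (nat_lit 2111) l42 (.c (nat_lit 2124) l42 (.c (nat_lit 2128) l42 (.c (nat_lit 1883) l42 (.c (nat_lit 1848) l42 (.c (nat_lit 2558) l152 (.c (nat_lit 2617) l78 (.c (nat_lit 2260) l53 (.c (nat_lit 2184) l50 (.c (nat_lit 2451) l50 (.c (nat_lit 2666) l107 (.c (nat_lit 2618) l157 (.c (nat_lit 2682) l159 (.c (nat_lit 1849) l50 (.c (nat_lit 2561) l50 (.c (nat_lit 2281) l65 (.c (nat_lit 2730) l159 (.c (nat_lit 2725) l104 (.c (nat_lit 2587) l157 (.c (nat_lit 1570) l42 (.c (nat_lit 1909) l50 (.c (nat_lit 1640) l42 (.c (nat_lit 2186) l50 (.c (nat_lit 2730) l120 (.c (nat_lit 2617) l160 (.c (nat_lit 1482) l42 (.c (nat_lit 1599) l42 (.c (nat_lit 2381) l50 (.c (nat_lit 2682) l136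 (.c (nat_lit 2693) l70 (.c (nat_lit 2286) l1 (.c (nat_lit 2503) l114 u2_68))))))))))))))))))))))))))))))))))))))))
noncomputable def u2_70 : St := (.c (nat_lit 1475) l65 (.c (nat_lit 2439) l100 (.c (nat_lit 1984) l53 (.c (nat_lit 2711) l70 (.c (nat_lit 2713) l70 (.c (nat_lit 2490) l63 (.c (nat_lit 2617) l108 (.c (nat_lit 2462) l141 (.c (nat_lit 2207) l65 (.c (nat_lit 2180) l50 (.c (nat_lit 1158) l50 (.c (nat_lit 2204) l49 (.c (nat_lit 2608) l53 (.c (nat_lit 2669) l166 (.c (nat_lit 2727) l236 (.c (nat_lit 2674) l78 (.c (nat_lit 2732) l252 (.c (nat_lit 2615) l53 (.c (nat_lit 2436) l63 (.c (nat_lit 2185) l42 (.c (nat_lit 2713) l80 (.c (nat_lit 2711) l117 (.c (nat_lit 2244) l42 (.c (nat_lit 1928) l42 (.c (nat_lit 2681) l70 (.c (nat_lit 2602) l53 (.c (nat_lit 2475) l53 (.c (nat_lit 2476) l53 (.c (nat_lit 2675) l179 (.c (nat_lit 2483) l74 (.c (nat_lit 2673) l48 (.c (nat_lit 2704) l114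 (.c (nat_lit 2728) l226 (.c (nat_lit 2691) l110 (.c (nat_lit 2586) l141 (.c (nat_lit 2592) l48 (.c (nat_lit 2481) l53 (.c (nat_lit 2477) l52 (.c (nat_lit 2581) l108 (.c (nat_lit 2636) l63 u2_69))))))))))))))))))))))))))))))))))))))))
noncomputable def u2_71 : St := (.c (nat_lit 2732) l242 (.c (nat_lit 1476) l74 (.c (nat_lit 2664) l108 (.c (nat_lit 2539) l53 (.c (nat_lit 2453) l65 (.c (nat_lit 2488) l53 (.c (nat_lit 2190) l42 (.c (nat_lit 2444) l141 (.c (nat_lit 2488) l52 (.c (nat_lit 2636) l69 (.c (nat_lit 2706) l100 (.c (nat_lit 2730) l113 (.c (nat_lit 2375) l1 (.c (nat_lit 2708) l117 (.c (nat_lit 1886) l42 (.c (nat_lit 2669) l154 (.c (nat_lit 1504) l42 (.c (nat_lit 1544) l42 (.c (nat_lit 2048) l42 (.c (nat_lit 2669) l64 (.c (nat_lit 2708) l110 (.c (nat_lit 2696) l100 (.c (nat_lit 2615) l74 (.c (nat_lit 2498) l53 (.c (nat_lit 2731) l164 (.c (nat_lit 2732) l249 (.c (nat_lit 1909)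 l42 (.c (nat_lit 1377) l50 (.c (nat_lit 2262) l52 (.c (nat_lit 2652) l160 (.c (nat_lit 2689) l79 (.c (nat_lit 2725) l100 (.c (nat_lit 2713) l79 (.c (nat_lit 1529) l65 (.c (nat_lit 1512) l50 (.c (nat_lit 2203) l50 (.c (nat_lit 2725) l107 (.c (nat_lit 2586) l65 (.c (nat_lit 2434) l50 (.c (nat_lit 2666) l87 u2_70))))))))))))))))))))))))))))))))))))))))
noncomputable def u2_72 : St := (.c (nat_lit 1934) l42 (.c (nat_lit 2606) l160 (.c (nat_lit 2281) l207 (.c (nat_lit 2194) l74 (.c (nat_lit 2719) l48 (.c (nat_lit 2673) l69 (.c (nat_lit 2728) l73 (.c (nat_lit 1572) l42 (.c (nat_lit 2113) l65 (.c (nat_lit 2491) l141 (.c (nat_lit 2193) l65 (.c (nat_lit 2455) l42 (.c (nat_lit 2423) l74 (.c (nat_lit 2666) l136 (.c (nat_lit 2213) l69 (.c (nat_lit 2685) l114 (.c (nat_lit 2694) l108 (.c (nat_lit 2586) l152 (.c (nat_lit 1862) l65 (.c (nat_lit 2712) l69 (.c (nat_lit 2312) l52 (.c (nat_lit 2210)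 l52 (.c (nat_lit 2708) l100 (.c (nat_lit 2722) l67 (.c (nat_lit 2675) l79 (.c (nat_lit 2684) l231 (.c (nat_lit 2718) l112 (.c (nat_lit 2544) l52 (.c (nat_lit 2509) l1 (.c (nat_lit 2671) l74 (.c (nat_lit 2685) l116 (.c (nat_lit 2209) l50 (.c (nat_lit 2717) l167 (.c (nat_lit 2597) l78 (.c (nat_lit 2619) l50 (.c (nat_lit 2493) l104 (.c (nat_lit 2002) l42 (.c (nat_lit 2658) l112 (.c (nat_lit 2431) l50 (.c (nat_lit 2213) l65 u2_71))))))))))))))))))))))))))))))))))))))))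
noncomputable def u2_73 : St := (.c (nat_lit 2654) l42 (.c (nat_lit 2661) l100 (.c (nat_lit 2708) l78 (.c (nat_lit 2581) l74 (.c (nat_lit 2726) l114 (.c (nat_lit 2729) l110 (.c (nat_lit 2644) l52 (.c (nat_lit 1524) l74 (.c (nat_lit 2638) l108 (.c (nat_lit 2730) l107 (.c (nat_lit 1522) l42 (.c (nat_lit 2675) l70 (.c (nat_lit 2559) l108 (.c (nat_lit 2708) l112 (.c (nat_lit 1900) l42 (.c (nat_lit 2730) l231 (.c (nat_lit 2666) l78 (.c (nat_lit 2559) l74 (.c (nat_lit 2666) l118 (.c (nat_lit 2214) l179 (.c (nat_lit 2507) l1 (.c (nat_lit 2669) l114 (.c (nat_lit 2705) l108 (.c (nat_lit 2730) l63 (.c (nat_lit 2666) l48 (.c (nat_lit 2729) l159 (.c (nat_lit 2307) l1 (.c (nat_lit 2682) l48 (.c (nat_lit 2666) l91 (.c (nat_lit 2724) l117 (.c (nat_lit 2558) l65 (.c (nat_lit 2666) l100 (.c (nat_lit 2721) l104 (.c (nat_lit 2682) l63 (.c (nat_lit 2725) l91 (.c (nat_lit 2669) l100 (.c (nat_lit 2704)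 l79 (.c (nat_lit 2727) l108 (.c (nat_lit 2666) l49 (.c (nat_lit 2730) l87 u2_72))))))))))))))))))))))))))))))))))))))))
noncomputable def u2_74 : St := (.c (nat_lit 2502) l108 (.c (nat_lit 1854) l42 (.c (nat_lit 2587) l70 (.c (nat_lit 2481) l74 (.c (nat_lit 2732) l177 (.c (nat_lit 2708) l48 (.c (nat_lit 2722) l107 (.c (nat_lit 2436) l69 (.c (nat_lit 2729) l107 (.c (nat_lit 2719) l49 (.c (nat_lit 1487) l65 (.c (nat_lit 1960) l42 (.c (nat_lit 1781) l42 (.c (nat_lit 2492) l160 (.c (nat_lit 2404) l74 (.c (nat_lit 2592) l49 (.c (nat_lit 2672) l42 (.c (nat_lit 2617) l231 (.c (nat_lit 2731) l112 (.c (nat_lit 2597) l52 (.c (nat_lit 2708) l69 (.c (nat_lit 2708) l49 (.c (nat_lit 2664) l74 (.c (nat_lit 2727) l111 (.c (nat_lit 2638) l74 (.c (nat_lit 1207) l42 (.c (nat_lit 2732) l237 (.c (nat_lit 2541) l74 (.c (nat_lit 2712) l207 (.c (nat_lit 2726) l110 (.c (nat_lit 2730) l78 (.c (nat_lit 2586)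 l207 (.c (nat_lit 2293) l74 (.c (nat_lit 2725) l78 (.c (nat_lit 2705) l74 (.c (nat_lit 2666) l52 (.c (nat_lit 2729) l114 (.c (nat_lit 2730) l115 (.c (nat_lit 2603) l42 (.c (nat_lit 2666) l181 u2_73))))))))))))))))))))))))))))))))))))))))
noncomputable def u2_75 : St := (.c (nat_lit 2653) l79 (.c (nat_lit 1387) l42 (.c (nat_lit 2542) l70 (.c (nat_lit 2289) l53 (.c (nat_lit 2094) l42 (.c (nat_lit 1652) l42 (.c (nat_lit 1648) l42 (.c (nat_lit 2458) l1 (.c (nat_lit 1713) l42 (.c (nat_lit 1632) l42 (.c (nat_lit 1877) l63 (.c (nat_lit 1952) l53 (.c (nat_lit 2282) l231 (.c (nat_lit 2004) l53 (.c (nat_lit 2573) l114 (.c (nat_lit 2646) l80 (.c (nat_lit 2666) l63 (.c (nat_lit 2542) l79 (.c (nat_lit 2643) l70 (.c (nat_lit 1323) l42 (.c (nat_lit 2182) l2 (.c (nat_lit 2708) l91 .e))))))))))))))))))))))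
noncomputable def u2_76 : St := (.c (nat_lit 1497) l50 (.c (nat_lit 2216) l50 (.c (nat_lit 2181) l53 (.c (nat_lit 2501) l74 (.c (nat_lit 2301) l53 (.c (nat_lit 2488) l74 (.c (nat_lit 2712) l179 (.c (nat_lit 2275) l74 (.c (nat_lit 2606) l74 (.c (nat_lit 2624) l108 (.c (nat_lit 2267) l74 (.c (nat_lit 2682) l110 (.c (nat_lit 2282) l74 (.c (nat_lit 2681) l113 (.c (nat_lit 2281) l141 (.c (nat_lit 2265) l79 (.c (nat_lit 1991) l181 (.c (nat_lit 2282) l160 (.c (nat_lit 1526) l42 (.c (nat_lit 2390) l207 (.c (nat_lit 1508) l65 (.c (nat_lit 2626) l70 (.c (nat_lit 2260) l74 (.c (nat_lit 1942) l53 (.c (nat_lit 2701) l112 (.c (nat_lit 2152) l42 (.c (nat_lit 1609) l42 (.c (nat_lit 2300) l70 (.c (nat_lit 1129) l50 (.c (nat_lit 778) l50 (.c (nat_lit 1891) l107 (.c (nat_lit 1891) l159 (.c (nat_lit 2448) l104 (.c (nat_lit 802) l42 (.c (nat_lit 2214) l70 (.c (nat_lit 1920) l42 (.c (nat_lit 2259) l2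 (.c (nat_lit 2618) l108 (.c (nat_lit 2644) l114 (.c (nat_lit 2300) l79 u2_75))))))))))))))))))))))))))))))))))))))))
noncomputable def u2_77 : St := (.c (nat_lit 2204) l49 (.c (nat_lit 2608) l53 (.c (nat_lit 2674) l78 (.c (nat_lit 2615) l53 (.c (nat_lit 2436) l63 (.c (nat_lit 2673) l63 (.c (nat_lit 2681) l70 (.c (nat_lit 2602) l53 (.c (nat_lit 2475) l53 (.c (nat_lit 2476) l53 (.c (nat_lit 2675) l179 (.c (nat_lit 2673) l48 (.c (nat_lit 1295) l42 (.c (nat_lit 1886) l50 (.c (nat_lit 2708) l73 (.c (nat_lit 2299) l74 (.c (nat_lit 1893) l74 (.c (nat_lit 1502) l42 (.c (nat_lit 1148) l42 (.c (nat_lit 1811) l42 (.c (nat_lit 2111) l42 (.c (nat_lit 1848) l42 (.c (nat_lit 2558) l152 (.c (nat_lit 2617) l78 (.c (nat_lit 2273) l74 (.c (nat_lit 1877) l69 (.c (nat_lit 2184) l50 (.c (nat_lit 2666) l107 (.c (nat_lit 2682) l107 (.c (nat_lit 1570) l42 (.c (nat_lit 1909) l50 (.c (nat_lit 1640) l42 (.c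 (nat_lit 2617) l160 (.c (nat_lit 1953) l42 (.c (nat_lit 2397) l50 (.c (nat_lit 2566) l70 (.c (nat_lit 1540) l42 (.c (nat_lit 1959) l74 (.c (nat_lit 2453) l50 (.c (nat_lit 2011) l50 u2_76))))))))))))))))))))))))))))))))))))))))
noncomputable def u2_78 : St := (.c (nat_lit 2666) l49 (.c (nat_lit 2682) l69 (.c (nat_lit 2520) l42 (.c (nat_lit 1961) l74 (.c (nat_lit 2673) l49 (.c (nat_lit 2113) l65 (.c (nat_lit 2491) l141 (.c (nat_lit 2455) l42 (.c (nat_lit 2213) l69 (.c (nat_lit 2721) l100 (.c (nat_lit 2586) l152 (.c (nat_lit 1862) l65 (.c (nat_lit 2312) l52 (.c (nat_lit 2210) l52 (.c (nat_lit 2722) l67 (.c (nat_lit 2327) l42 (.c (nat_lit 2331) l42 (.c (nat_lit 2509) l1 (.c (nat_lit 2511) l42 (.c (nat_lit 2619) l50 (.c (nat_lit 2493) l104 (.c (nat_lit 2431) l50 (.c (nat_lit 2453) l65 (.c (nat_lit 1503) l65 (.c (nat_lit 2654) l108 (.c (nat_lit 2706) l100 (.c (nat_lit 1888) l42 (.c (nat_lit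 1544) l42 (.c (nat_lit 1843) l42 (.c (nat_lit 2682) l116 (.c (nat_lit 2615) l74 (.c (nat_lit 2428) l50 (.c (nat_lit 2203) l50 (.c (nat_lit 2525) l50 (.c (nat_lit 2586) l65 (.c (nat_lit 2189) l65 (.c (nat_lit 2439) l100 (.c (nat_lit 2682) l114 (.c (nat_lit 2462) l141 (.c (nat_lit 1541) l42 u2_77))))))))))))))))))))))))))))))))))))))))
noncomputable def u2_79 : St := (.c (nat_lit 2587) l70 (.c (nat_lit 2621) l74 (.c (nat_lit 2722) l107 (.c (nat_lit 2436) l69 (.c (nat_lit 2729) l69 (.c (nat_lit 2729) l107 (.c (nat_lit 1207) l42 (.c (nat_lit 2594) l42 (.c (nat_lit 2558) l141 (.c (nat_lit 2278) l42 (.c (nat_lit 2729) l114 (.c (nat_lit 2712) l74 (.c (nat_lit 2708) l78 (.c (nat_lit 2676) l53 (.c (nat_lit 2725) l63 (.c (nat_lit 2729) l110 (.c (nat_lit 2699) l74 (.c (nat_lit 1524) l74 (.c (nat_lit 2577) l1 (.c (nat_lit 2732) l239 (.c (nat_lit 1900) l42 (.c (nat_lit 2722) l69 (.c (nat_lit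 2730) l63 (.c (nat_lit 2669) l104 (.c (nat_lit 2307) l1 (.c (nat_lit 2666) l91 (.c (nat_lit 2730) l91 (.c (nat_lit 2558) l65 (.c (nat_lit 2666) l100 (.c (nat_lit 2721) l104 (.c (nat_lit 2704) l104 (.c (nat_lit 2682) l63 (.c (nat_lit 2725) l91 (.c (nat_lit 2732) l226 (.c (nat_lit 2592) l207 (.c (nat_lit 2669) l100 (.c (nat_lit 2602) l74 (.c (nat_lit 2697) l70 (.c (nat_lit 2587) l65 (.c (nat_lit 2671) l53 u2_78))))))))))))))))))))))))))))))))))))))))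
noncomputable def u2_80 : St := (.c (nat_lit 1632) l42 (.c (nat_lit 1615) l42 (.c (nat_lit 2282) l231 (.c (nat_lit 1647) l53 (.c (nat_lit 1743) l42 (.c (nat_lit 2646) l80 (.c (nat_lit 1426) l42 (.c (nat_lit 2666) l63 (.c (nat_lit 1581) l2 (.c (nat_lit 1538) l42 (.c (nat_lit 2730) l140 .e)))))))))))
noncomputable def u2_81 : St := (.c (nat_lit 2488) l74 (.c (nat_lit 2712) l179 (.c (nat_lit 2275) l74 (.c (nat_lit 2606) l74 (.c (nat_lit 2624) l108 (.c (nat_lit 1986) l74 (.c (nat_lit 2682) l110 (.c (nat_lit 2282) l74 (.c (nat_lit 2681) l113 (.c (nat_lit 2281) l141 (.c (nat_lit 2265) l79 (.c (nat_lit 1991) l181 (.c (nat_lit 2282) l160 (.c (nat_lit 2390) l207 (.c (nat_lit 2626) l70 (.c (nat_lit 2260) l74 (.c (nat_lit 2682) l140 (.c (nat_lit 1942) l53 (.c (nat_lit 2701) l112 (.c (nat_lit 1609) l42 (.c (nat_lit 2300) l70 (.c (nat_lit 1140) l50 (.c (nat_lit 1745) l50 (.c (nat_lit 1758)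 l42 (.c (nat_lit 802) l42 (.c (nat_lit 1920) l42 (.c (nat_lit 2618) l108 (.c (nat_lit 2653) l79 (.c (nat_lit 1245) l42 (.c (nat_lit 1507) l42 (.c (nat_lit 2308) l50 (.c (nat_lit 2542) l70 (.c (nat_lit 2289) l53 (.c (nat_lit 2094) l42 (.c (nat_lit 1600) l42 (.c (nat_lit 1883) l1 (.c (nat_lit 1652) l42 (.c (nat_lit 1648) l42 (.c (nat_lit 2458) l1 (.c (nat_lit 1713) l42 u2_80))))))))))))))))))))))))))))))))))))))))
noncomputable def u2_82 : St := (.c (nat_lit 2475) l53 (.c (nat_lit 2476) l53 (.c (nat_lit 2673) l48 (.c (nat_lit 1295) l42 (.c (nat_lit 1886) l50 (.c (nat_lit 2708) l73 (.c (nat_lit 1748) l42 (.c (nat_lit 2299) l74 (.c (nat_lit 1842) l42 (.c (nat_lit 1502) l42 (.c (nat_lit 2708) l63 (.c (nat_lit 1811) l42 (.c (nat_lit 2111) l42 (.c (nat_lit 2124) l42 (.c (nat_lit 1883) l42 (.c (nat_lit 1848) l42 (.c (nat_lit 2558) l152 (.c (nat_lit 2617) l78 (.c (nat_lit 2273) l74 (.c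 (nat_lit 2184) l50 (.c (nat_lit 2666) l107 (.c (nat_lit 2682) l159 (.c (nat_lit 2730) l159 (.c (nat_lit 1570) l42 (.c (nat_lit 1909) l50 (.c (nat_lit 1640) l42 (.c (nat_lit 2186) l50 (.c (nat_lit 2617) l160 (.c (nat_lit 1953) l42 (.c (nat_lit 1482) l42 (.c (nat_lit 1599) l42 (.c (nat_lit 2503) l114 (.c (nat_lit 2397) l50 (.c (nat_lit 2566) l70 (.c (nat_lit 1540) l42 (.c (nat_lit 1959) l74 (.c (nat_lit 1497) l50 (.c (nat_lit 2216) l50 (.c (nat_lit 2501) l74 (.c (nat_lit 2301) l53 u2_81))))))))))))))))))))))))))))))))))))))))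
noncomputable def u2_83 : St := (.c (nat_lit 2491) l141 (.c (nat_lit 2721) l100 (.c (nat_lit 2586) l152 (.c (nat_lit 2712) l69 (.c (nat_lit 2312) l52 (.c (nat_lit 2722) l67 (.c (nat_lit 2327) l42 (.c (nat_lit 2331) l42 (.c (nat_lit 2509) l1 (.c (nat_lit 2511) l42 (.c (nat_lit 2619) l50 (.c (nat_lit 2493) l104 (.c (nat_lit 2431) l50 (.c (nat_lit 2453) l65 (.c (nat_lit 2488) l53 (.c (nat_lit 1503) l65 (.c (nat_lit 2654) l108 (.c (nat_lit 2706) l100 (.c (nat_lit 2104) l42 (.c (nat_lit 2392) l42 (.c (nat_lit 1886) l42 (.c (nat_lit 1504) l42 (.c (nat_lit 1544) l42 (.c (nat_lit 2682) l116 (.c (nat_lit 2048) l42 (.c (nat_lit 2615) l74 (.c (nat_lit 1377) l50 (.c (nat_lit 2428) l50 (.c (nat_lit 2203) l50 (.c (nat_lit 2725) l107 (.c (nat_lit 2525) l50 (.c (nat_lit 2586) l65 (.c (nat_lit 2189) l65 (.c (nat_lit 2439) l100 (.c (nat_lit 2682) l114 (.c (nat_lit 2462) l141 (.c (nat_lit 2615) l53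 (.c (nat_lit 2436) l63 (.c (nat_lit 1710) l42 (.c (nat_lit 2602) l53 u2_82))))))))))))))))))))))))))))))))))))))))
noncomputable def u2_84 : St := (.c (nat_lit 2587) l70 (.c (nat_lit 2618) l70 (.c (nat_lit 2621) l74 (.c (nat_lit 2708) l48 (.c (nat_lit 2722) l107 (.c (nat_lit 2436) l69 (.c (nat_lit 2729) l69 (.c (nat_lit 2729) l107 (.c (nat_lit 2708) l69 (.c (nat_lit 2708) l49 (.c (nat_lit 2558) l141 (.c (nat_lit 2278) l42 (.c (nat_lit 2729) l114 (.c (nat_lit 2712) l74 (.c (nat_lit 2708) l78 (.c (nat_lit 2725) l63 (.c (nat_lit 2729) l110 (.c (nat_lit 2699) l74 (.c (nat_lit 2730) l107 (.c (nat_lit 1522) l42 (.c (nat_lit 2722) l69 (.c (nat_lit 2730) l63 (.c (nat_lit 2729) l159 (.c (nat_lit 2307) l1 (.c (nat_lit 2666) l91 (.c (nat_lit 2730) l91 (.c (nat_lit 2558) l65 (.c (nat_lit 2666) l100 (.c (nat_lit 2721) l104 (.c (nat_lit 2704) l104 (.c (nat_lit 2682) l63 (.c (nat_lit 2725) l91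 (.c (nat_lit 2602) l74 (.c (nat_lit 2697) l70 (.c (nat_lit 2587) l65 (.c (nat_lit 2666) l49 (.c (nat_lit 2520) l42 (.c (nat_lit 2653) l70 (.c (nat_lit 2673) l49 (.c (nat_lit 2113) l65 u2_83))))))))))))))))))))))))))))))))))))))))
noncomputable def u2_85 : St := (.c (nat_lit 2104) l42 (.c (nat_lit 2669) l154 (.c (nat_lit 1888) l42 (.c (nat_lit 1843) l42 (.c (nat_lit 2669) l64 (.c (nat_lit 1909) l42 (.c (nat_lit 1748) l42 (.c (nat_lit 1842) l42 (.c (nat_lit 1907) l42 (.c (nat_lit 1502) l42 (.c (nat_lit 2111) l42 (.c (nat_lit 2128) l42 (.c (nat_lit 2152) l42 (.c (nat_lit 2653) l79 (.c (nat_lit 1387) l42 (.c (nat_lit 1507) l42 (.c (nat_lit 2182) l2 .e)))))))))))))))))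
noncomputable def u2_86 : St := (.c (nat_lit 1615) l42 (.c (nat_lit 2282) l231 (.c (nat_lit 2004) l53 (.c (nat_lit 1647) l53 (.c (nat_lit 1717) l42 (.c (nat_lit 2646) l80 (.c (nat_lit 2666) l63 .e)))))))
noncomputable def u2_87 : St := (.c (nat_lit 1886) l50 (.c (nat_lit 2708) l73 (.c (nat_lit 1229) l42 (.c (nat_lit 2617) l78 (.c (nat_lit 2276) l74 (.c (nat_lit 1593) l74 (.c (nat_lit 2493) l110 (.c (nat_lit 2184) l50 (.c (nat_lit 2666) l107 (.c (nat_lit 2682) l107 (.c (nat_lit 2682) l159 (.c (nat_lit 1570) l42 (.c (nat_lit 1909) l50 (.c (nat_lit 2186) l50 (.c (nat_lit 1953) l42 (.c (nat_lit 1482) l42 (.c (nat_lit 2397) l50 (.c (nat_lit 2566) l70 (.c (nat_lit 2011) l50 (.c (nat_lit 1497) l50 (.c (nat_lit 2216) l50 (.c (nat_lit 2301) l53 (.c (nat_lit 2488) l74 (.c (nat_lit 2606) l74 (.c (nat_lit 2682) l91 (.c (nat_lit 2682) l110 (.c (nat_lit 2493) l114 (.c (nat_lit 2260) l74 (.c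 (nat_lit 2682) l140 (.c (nat_lit 1942) l53 (.c (nat_lit 2300) l70 (.c (nat_lit 1745) l50 (.c (nat_lit 778) l50 (.c (nat_lit 1127) l50 (.c (nat_lit 1891) l107 (.c (nat_lit 2448) l104 (.c (nat_lit 802) l42 (.c (nat_lit 2259) l2 (.c (nat_lit 1603) l42 (.c (nat_lit 1507) l42 u2_86))))))))))))))))))))))))))))))))))))))))
noncomputable def u2_88 : St := (.c (nat_lit 2587) l70 (.c (nat_lit 2621) l74 (.c (nat_lit 2436) l69 (.c (nat_lit 2617) l231 (.c (nat_lit 2682) l48 (.c (nat_lit 2666) l91 (.c (nat_lit 1604) l74 (.c (nat_lit 2666) l100 (.c (nat_lit 2682) l63 (.c (nat_lit 2602) l74 (.c (nat_lit 2587) l65 (.c (nat_lit 2666) l49 (.c (nat_lit 2682) l49 (.c (nat_lit 2682) l69 (.c (nat_lit 2673) l49 (.c (nat_lit 2213) l69 (.c (nat_lit 2586) l152 (.c (nat_lit 1862) l65 (.c (nat_lit 2722) l67 (.c (nat_lit 2619) l50 (.c (nat_lit 2431) l50 (.c (nat_lit 2453) l65 (.c (nat_lit 2488) l53 (.c (nat_lit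 1503) l65 (.c (nat_lit 2615) l74 (.c (nat_lit 2428) l50 (.c (nat_lit 2203) l50 (.c (nat_lit 2525) l50 (.c (nat_lit 2586) l65 (.c (nat_lit 2189) l65 (.c (nat_lit 2439) l100 (.c (nat_lit 2490) l52 (.c (nat_lit 2682) l114 (.c (nat_lit 2462) l141 (.c (nat_lit 2615) l53 (.c (nat_lit 2436) l63 (.c (nat_lit 2602) l53 (.c (nat_lit 2475) l53 (.c (nat_lit 2476) l53 (.c (nat_lit 2673) l48 u2_87))))))))))))))))))))))))))))))))))))))))
noncomputable def u2_89 : St := (.c (nat_lit 1758) l42 (.c (nat_lit 2448) l104 (.c (nat_lit 2618) l108 (.c (nat_lit 2300) l79 (.c (nat_lit 2653) l79 (.c (nat_lit 1387) l42 (.c (nat_lit 1245) l42 (.c (nat_lit 1507) l42 (.c (nat_lit 2308) l50 (.c (nat_lit 2094) l42 (.c (nat_lit 1600) l42 (.c (nat_lit 1615) l42 (.c (nat_lit 2706) l79 .e)))))))))))))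
noncomputable def u2_90 : St := (.c (nat_lit 2602) l53 (.c (nat_lit 2496) l74 (.c (nat_lit 2476) l53 (.c (nat_lit 2728) l226 (.c (nat_lit 488) l42 (.c (nat_lit 1842) l42 (.c (nat_lit 1965) l42 (.c (nat_lit 2686) l70 (.c (nat_lit 1502) l42 (.c (nat_lit 1148) l42 (.c (nat_lit 2543) l53 (.c (nat_lit 1811) l42 (.c (nat_lit 2111) l42 (.c (nat_lit 2128) l42 (.c (nat_lit 2558) l152 (.c (nat_lit 1593) l74 (.c (nat_lit 1482) l42 (.c (nat_lit 1599) l42 (.c (nat_lit 2503) l114 (.c (nat_lit 1540) l42 (.c (nat_lit 2453) l50 (.c (nat_lit 2011) l50 (.c (nat_lit 1497) l50 (.c (nat_lit 2216) l50 (.c (nat_lit 2181) l53 (.c (nat_lit 2301) l53 (.c (nat_lit 2712) l179 (.c (nat_lit 2624) l108 (.c (nat_lit 1986) l74 (.c (nat_lit 2282) l160 (.c (nat_lit 1878) l65 (.c (nat_lit 2626) l70 (.c (nat_lit 2701) l112 (.c (nat_lit 2066) l42 (.c (nat_lit 1492) l50 (.c (nat_lit 1129) l50 (.c (nat_lit 1140) l50 (.c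 (nat_lit 1745) l50 (.c (nat_lit 1127) l50 (.c (nat_lit 1891) l107 u2_89))))))))))))))))))))))))))))))))))))))))
noncomputable def u2_91 : St := (.c (nat_lit 2436) l69 (.c (nat_lit 2719) l49 (.c (nat_lit 2617) l231 (.c (nat_lit 2278) l42 (.c (nat_lit 2194) l231 (.c (nat_lit 2587) l74 (.c (nat_lit 2654) l42 (.c (nat_lit 2712) l74 (.c (nat_lit 2587) l179 (.c (nat_lit 2699) l74 (.c (nat_lit 2214) l179 (.c (nat_lit 2436) l48 (.c (nat_lit 2558) l65 (.c (nat_lit 2704) l79 (.c (nat_lit 2194) l74 (.c (nat_lit 2436) l49 (.c (nat_lit 2719) l48 (.c (nat_lit 2728) l73 (.c (nat_lit 2113) l65 (.c (nat_lit 2213) l69 (.c (nat_lit 1862) l65 (.c (nat_lit 2312) l52 (.c (nat_lit 2705) l231 (.c (nat_lit 2453) l65 (.c (nat_lit 1503) l65 (.c (nat_lit 2444) l141 (.c (nat_lit 2654) l108 (.c (nat_lit 2375) l1 (.c (nat_lit 2392) l42 (.c (nat_lit 2669) l154 (.c (nat_lit 1888) l42 (.c (nat_lit 1544) l42 (.c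 (nat_lit 2048) l42 (.c (nat_lit 2669) l64 (.c (nat_lit 1909) l42 (.c (nat_lit 1377) l50 (.c (nat_lit 1512) l50 (.c (nat_lit 2615) l53 (.c (nat_lit 2436) l63 (.c (nat_lit 1710) l42 u2_90))))))))))))))))))))))))))))))))))))))))
noncomputable def u2_92 : St := (.c (nat_lit 2000) l42 (.c (nat_lit 2280) l42 (.c (nat_lit 2274) l42 (.c (nat_lit 2271) l42 (.c (nat_lit 2685) l176 (.c (nat_lit 1640) l42 (.c (nat_lit 1245) l42 (.c (nat_lit 1243) l42 (.c (nat_lit 1968) l42 (.c (nat_lit 1997) l42 (.c (nat_lit 1951) l42 (.c (nat_lit 2166) l42 (.c (nat_lit 2596) l1 .e)))))))))))))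
noncomputable def u2_93 : St := (.c (nat_lit 2625) l78 (.c (nat_lit 2352) l42 (.c (nat_lit 2728) l73 (.c (nat_lit 1825) l42 (.c (nat_lit 2713) l110 (.c (nat_lit 2684) l231 (.c (nat_lit 2002) l42 (.c (nat_lit 2350) l42 (.c (nat_lit 1295) l42 (.c (nat_lit 2685) l176 (.c (nat_lit 1640) l42 (.c (nat_lit 2286) l1 (.c (nat_lit 1991) l118 (.c (nat_lit 2700) l79 (.c (nat_lit 2407) l42 (.c (nat_lit 2090) l42 (.c (nat_lit 1920) l42 (.c (nat_lit 2625) l118 (.c (nat_lit 1583) l42 (.c (nat_lit 2644) l114 (.c (nat_lit 2300) l79 (.c (nat_lit 2728) l250 (.c (nat_lit 2289) l53 (.c (nat_lit 2156) l42 (.c (nat_lit 1243) l42 (.c (nat_lit 1600) l42 (.c (nat_lit 1968) l42 (.c (nat_lit 2154) l42 (.c (nat_lit 1652) l42 (.c (nat_lit 1648) l42 (.c (nat_lit 2713) l114 .e)))))))))))))))))))))))))))))))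
noncomputable def u2_94 : St := (.c (nat_lit 1825) l42 (.c (nat_lit 2063) l42 (.c (nat_lit 1295) l42 (.c (nat_lit 2068) l42 (.c (nat_lit 1640) l42 (.c (nat_lit 2629) l1 (.c (nat_lit 1609) l42 (.c (nat_lit 2090) l42 (.c (nat_lit 1920) l42 (.c (nat_lit 1940) l42 (.c (nat_lit 1968) l42 (.c (nat_lit 1990) l42 (.c (nat_lit 1648) l42 (.c (nat_lit 2458) l1 .e))))))))))))))
noncomputable def u2_95 : St := (.c (nat_lit 1960) l42 (.c (nat_lit 2730) l231 (.c (nat_lit 2728) l73 (.c (nat_lit 2423) l74 (.c (nat_lit 2684) l231 (.c (nat_lit 2002) l42 (.c (nat_lit 2280) l42 (.c (nat_lit 2274) l42 (.c (nat_lit 2271) l42 (.c (nat_lit 1640) l42 (.c (nat_lit 1991) l118 (.c (nat_lit 2700) l79 (.c (nat_lit 2423) l108 (.c (nat_lit 2306) l108 (.c (nat_lit 2007) l74 (.c (nat_lit 2300) l79 (.c (nat_lit 2728) l250 (.c (nat_lit 2289) l53 (.c (nat_lit 1945) l42 (.c (nat_lit 2730) l276 .e))))))))))))))))))))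
noncomputable def u2_96 : St := (.c (nat_lit 2684) l160 (.c (nat_lit 1982) l42 (.c (nat_lit 2675) l65 (.c (nat_lit 2675) l50 (.c (nat_lit 2684) l74 (.c (nat_lit 2625) l78 (.c (nat_lit 1942) l42 (.c (nat_lit 2544) l49 (.c (nat_lit 2000) l42 (.c (nat_lit 2544) l52 (.c (nat_lit 2002) l42 (.c (nat_lit 2684) l108 (.c (nat_lit 2544) l48 (.c (nat_lit 2675) l141 (.c (nat_lit 2443) l49 (.c (nat_lit 2004) l42 (.c (nat_lit 1609) l42 (.c (nat_lit 1281) l42 (.c (nat_lit 2306) l108 (.c (nat_lit 2102) l42 (.c (nat_lit 2625) l118 (.c (nat_lit 2624) l49 (.c (nat_lit 2434) l49 (.c (nat_lit 2675) l97 .e))))))))))))))))))))))))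
noncomputable def u2_97 : St := (.c (nat_lit 2544) l49 (.c (nat_lit 2695) l181 (.c (nat_lit 2544) l52 (.c (nat_lit 2209) l50 (.c (nat_lit 2544) l48 (.c (nat_lit 2203) l50 (.c (nat_lit 2202) l50 (.c (nat_lit 1873) l50 (.c (nat_lit 1849) l50 (.c (nat_lit 1909) l50 (.c (nat_lit 2381) l50 (.c (nat_lit 2397) l50 (.c (nat_lit 1876) l50 (.c (nat_lit 1140) l50 (.c (nat_lit 2440) l65 .e)))))))))))))))
noncomputable def u2_98 : St := (.c (nat_lit 2617) l78 (.c (nat_lit 2260) l53 (.c (nat_lit 1570) l42 (.c (nat_lit 2186) l50 (.c (nat_lit 2696) l70 (.c (nat_lit 1599) l42 (.c (nat_lit 2503) l114 (.c (nat_lit 1540) l42 (.c (nat_lit 1959) l74 (.c (nat_lit 2186) l65 (.c (nat_lit 2501) l74 (.c (nat_lit 2301) l53 (.c (nat_lit 1986) l74 (.c (nat_lit 2267) l74 (.c (nat_lit 2682) l110 (.c (nat_lit 2282) l74 (.c (nat_lit 2681) l113 (.c (nat_lit 2281) l141 (.c (nat_lit 1991) l181 (.c (nat_lit 1526) l42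 (.c (nat_lit 1192) l42 (.c (nat_lit 2400) l53 (.c (nat_lit 2260) l74 (.c (nat_lit 1942) l53 (.c (nat_lit 2696) l81 (.c (nat_lit 1129) l50 (.c (nat_lit 1891) l159 (.c (nat_lit 802) l42 (.c (nat_lit 2259) l2 (.c (nat_lit 2722) l114 .e))))))))))))))))))))))))))))))
noncomputable def u2_99 : St := (.c (nat_lit 2669) l154 (.c (nat_lit 1544) l42 (.c (nat_lit 2682) l116 (.c (nat_lit 2667) l97 (.c (nat_lit 1909) l42 (.c (nat_lit 1377) l50 (.c (nat_lit 2652) l160 (.c (nat_lit 2725) l107 (.c (nat_lit 2682) l114 (.c (nat_lit 2204) l49 (.c (nat_lit 2608) l53 (.c (nat_lit 2669) l166 (.c (nat_lit 2615) l53 (.c (nat_lit 2436) l63 (.c (nat_lit 1928) l42 (.c (nat_lit 2705) l52 (.c (nat_lit 2602) l53 (.c (nat_lit 2475) l53 (.c (nat_lit 2483) l74 (.c (nat_lit 2071) l42 (.c (nat_lit 2673) l48 (.c (nat_lit 2700) l81 (.c (nat_lit 2728) l226 (.c (nat_lit 1229) l42 (.c (nat_lit 2586) l141 (.c (nat_lit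 1871) l42 (.c (nat_lit 488) l42 (.c (nat_lit 1158) l42 (.c (nat_lit 2351) l74 (.c (nat_lit 1893) l74 (.c (nat_lit 1965) l42 (.c (nat_lit 2686) l70 (.c (nat_lit 1502) l42 (.c (nat_lit 2708) l63 (.c (nat_lit 2111) l42 (.c (nat_lit 2124) l42 (.c (nat_lit 2128) l42 (.c (nat_lit 1848) l42 (.c (nat_lit 2558) l152 (.c (nat_lit 2617) l74 u2_98))))))))))))))))))))))))))))))))))))))))
noncomputable def u2_100 : St := (.c (nat_lit 2577) l69 (.c (nat_lit 2558) l65 (.c (nat_lit 2721) l104 (.c (nat_lit 2682) l63 (.c (nat_lit 2725) l91 (.c (nat_lit 2732) l226 (.c (nat_lit 2669) l100 (.c (nat_lit 2707) l104 (.c (nat_lit 2671) l53 (.c (nat_lit 1961) l74 (.c (nat_lit 2194) l74 (.c (nat_lit 2438) l74 (.c (nat_lit 2707) l114 (.c (nat_lit 2601) l141 (.c (nat_lit 2436) l49 (.c (nat_lit 2719) l48 (.c (nat_lit 2447) l179 (.c (nat_lit 2728) l73 (.c (nat_lit 2673) l49 (.c (nat_lit 2113) l65 (.c (nat_lit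 2491) l141 (.c (nat_lit 2455) l42 (.c (nat_lit 2721) l100 (.c (nat_lit 2668) l276 (.c (nat_lit 2712) l69 (.c (nat_lit 2193) l141 (.c (nat_lit 2493) l104 (.c (nat_lit 2584) l74 (.c (nat_lit 2705) l231 (.c (nat_lit 1530) l74 (.c (nat_lit 2705) l78 (.c (nat_lit 2453) l65 (.c (nat_lit 2488) l53 (.c (nat_lit 1503) l65 (.c (nat_lit 2375) l1 (.c (nat_lit 2715) l100 (.c (nat_lit 2104) l42 (.c (nat_lit 2014) l42 (.c (nat_lit 2708) l117 (.c (nat_lit 1886) l42 u2_99))))))))))))))))))))))))))))))))))))))))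
noncomputable def u2_101 : St := (.c (nat_lit 1145) l42 (.c (nat_lit 2618) l70 (.c (nat_lit 2708) l118 (.c (nat_lit 2722) l107 (.c (nat_lit 2436) l69 (.c (nat_lit 2729) l69 (.c (nat_lit 2729) l107 (.c (nat_lit 2719) l49 (.c (nat_lit 2404) l74 (.c (nat_lit 1869) l42 (.c (nat_lit 2617) l231 (.c (nat_lit 2667) l65 (.c (nat_lit 2708) l69 (.c (nat_lit 2594) l42 (.c (nat_lit 2558) l141 (.c (nat_lit 2194) l231 (.c (nat_lit 2587) l74 (.c (nat_lit 2729) l114 (.c (nat_lit 2654) l42 (.c (nat_lit 2676) l53 (.c (nat_lit 2447) l74 (.c (nat_lit 2587) l179 (.c (nat_lit 2725) l63 (.c (nat_lit 2729) l110 (.c (nat_lit 2577) l1 (.c (nat_lit 2732) l239 (.c (nat_lit 2730) l107 (.c (nat_lit 2708) l112 (.c (nat_lit 1900) l42 (.c (nat_lit 2593) l160 (.c (nat_lit 2666) l78 (.c (nat_lit 2214) l179 (.c (nat_lit 2722) l69 (.c (nat_lit 2667) l267 (.c (nat_lit 2436) l48 (.c (nat_lit 2722) l110 (.c (nat_lit 2730)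 l63 (.c (nat_lit 2669) l104 (.c (nat_lit 2307) l1 (.c (nat_lit 2730) l91 u2_100))))))))))))))))))))))))))))))))))))))))
noncomputable def u2_102 : St := (.c (nat_lit 2621) l74 (.c (nat_lit 2617) l231 (.c (nat_lit 2682) l48 (.c (nat_lit 1604) l74 (.c (nat_lit 2682) l63 (.c (nat_lit 2602) l74 (.c (nat_lit 2682) l49 (.c (nat_lit 2682) l69 (.c (nat_lit 2453) l65 (.c (nat_lit 2488) l53 (.c (nat_lit 2615) l74 (.c (nat_lit 2490) l52 (.c (nat_lit 2682) l114 (.c (nat_lit 2615) l53 (.c (nat_lit 2602) l53 (.c (nat_lit 2475) l53 (.c (nat_lit 2476) l53 (.c (nat_lit 2483) l74 (.c (nat_lit 1229) l42 (.c (nat_lit 2617) l78 (.c (nat_lit 2276) l74 (.c (nat_lit 2493) l110 (.c (nat_lit 2682) l107 (.c (nat_lit 2682) l159 (.c (nat_lit 2453) l50 (.c (nat_lit 2216) l50 (.c (nat_lit 2181) l53 (.c (nat_lit 2301) l53 (.c (nat_lit 2488) l74 (.c (nat_lit 2275) l74 (.c (nat_lit 2606) l74 (.c (nat_lit 2624)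 l108 (.c (nat_lit 2682) l91 (.c (nat_lit 2682) l110 (.c (nat_lit 2493) l114 (.c (nat_lit 2682) l140 .e))))))))))))))))))))))))))))))))))))
noncomputable def u2_103 : St := (.c (nat_lit 2618) l70 (.c (nat_lit 2682) l63 (.c (nat_lit 2725) l237 (.c (nat_lit 2682) l69 (.c (nat_lit 1961) l74 (.c (nat_lit 2681) l104 (.c (nat_lit 2491) l141 (.c (nat_lit 2493) l104 (.c (nat_lit 2682) l116 (.c (nat_lit 2490) l52 (.c (nat_lit 2276) l74 (.c (nat_lit 2273) l74 (.c (nat_lit 2682) l107 (.c (nat_lit 2617) l160 (.c (nat_lit 1599) l42 (.c (nat_lit 2503) l114 (.c (nat_lit 2501) l74 (.c (nat_lit 2624) l108 (.c (nat_lit 1986) l74 (.c (nat_lit 2682) l91 .e))))))))))))))))))))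
noncomputable def u2_104 : St := (.c (nat_lit 2621) l74 (.c (nat_lit 2602) l74 (.c (nat_lit 2488) l53 (.c (nat_lit 2615) l74 (.c (nat_lit 2615) l53 (.c (nat_lit 2602) l53 (.c (nat_lit 2475) l53 (.c (nat_lit 2476) l53 (.c (nat_lit 2483) l74 (.c (nat_lit 2276) l74 (.c (nat_lit 2181) l53 (.c (nat_lit 2301) l53 (.c (nat_lit 2488) l74 (.c (nat_lit 2606) l74 .e))))))))))))))
noncomputable def u2_105 : St := (.c (nat_lit 2685) l104 (.c (nat_lit 2180) l65 (.c (nat_lit 2682) l107 (.c (nat_lit 1873) l50 (.c (nat_lit 1610) l65 (.c (nat_lit 2682) l159 (.c (nat_lit 2732) l219 (.c (nat_lit 2561) l50 (.c (nat_lit 2281) l65 (.c (nat_lit 2723) l157 (.c (nat_lit 2725) l104 (.c (nat_lit 2587) l157 (.c (nat_lit 1909) l50 (.c (nat_lit 2617) l160 (.c (nat_lit 1599) l42 (.c (nat_lit 2435) l65 (.c (nat_lit 2722) l149 (.c (nat_lit 2732) l220 .e))))))))))))))))))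
noncomputable def u2_106 : St := (.c (nat_lit 2624) l141 (.c (nat_lit 2579) l50 (.c (nat_lit 2732) l216 (.c (nat_lit 2601) l65 (.c (nat_lit 2675) l141 (.c (nat_lit 1529) l65 (.c (nat_lit 2428) l50 (.c (nat_lit 2437) l65 (.c (nat_lit 2525) l50 (.c (nat_lit 2434) l50 (.c (nat_lit 2711) l70 (.c (nat_lit 2599) l50 (.c (nat_lit 2713) l70 (.c (nat_lit 2490) l63 (.c (nat_lit 2490) l48 (.c (nat_lit 2583) l65 (.c (nat_lit 2490) l52 (.c (nat_lit 2491) l65 (.c (nat_lit 2274) l42 (.c (nat_lit 2462) l141 (.c (nat_lit 1541) l42 (.c (nat_lit 2636) l49 (.c (nat_lit 2203) l65 (.c (nat_lit 2207) l65 (.c (nat_lit 2180) l50 (.c (nat_lit 2615) l53 (.c (nat_lit 2130) l42 (.c (nat_lit 2602) l53 (.c (nat_lit 2475) l53 (.c (nat_lit 1956) l42 (.c (nat_lit 2673) l48 (.c (nat_lit 1886) l50 (.c (nat_lit 2708) l73 (.c (nat_lit 2691) l110 (.c (nat_lit 2586) l141 (.c (nat_lit 2624) l207 (.c (nat_lit 2543) l53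 (.c (nat_lit 2617) l78 (.c (nat_lit 1593) l74 (.c (nat_lit 2451) l50 u2_105))))))))))))))))))))))))))))))))))))))))
noncomputable def u2_107 : St := (.c (nat_lit 2732) l215 (.c (nat_lit 2493) l100 (.c (nat_lit 2673) l69 (.c (nat_lit 2193) l65 (.c (nat_lit 2443) l65 (.c (nat_lit 2543) l42 (.c (nat_lit 2715) l64 (.c (nat_lit 2685) l114 (.c (nat_lit 2724) l79 (.c (nat_lit 2724) l166 (.c (nat_lit 2441) l50 (.c (nat_lit 2712) l69 (.c (nat_lit 2675) l79 (.c (nat_lit 2731) l244 (.c (nat_lit 2295) l42 (.c (nat_lit 1548) l42 (.c (nat_lit 2695) l181 (.c (nat_lit 2509) l1 (.c (nat_lit 2511) l42 (.c (nat_lit 2493) l104 (.c (nat_lit 2713) l97 (.c (nat_lit 2002) l42 (.c (nat_lit 2659) l97 (.c (nat_lit 2350) l42 (.c (nat_lit 2730) l152 (.c (nat_lit 2363) l42 (.c (nat_lit 2453) l65 (.c (nat_lit 2488) l53 (.c (nat_lit 1503) l65 (.c (nat_lit 2110) l65 (.c (nat_lit 2731) l204 (.c (nat_lit 2670) l65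 (.c (nat_lit 2636) l69 (.c (nat_lit 2715) l100 (.c (nat_lit 2696) l100 (.c (nat_lit 2715) l101 (.c (nat_lit 2722) l105 (.c (nat_lit 2695) l63 (.c (nat_lit 2680) l97 (.c (nat_lit 2614) l65 u2_106))))))))))))))))))))))))))))))))))))))))
noncomputable def u2_108 : St := (.c (nat_lit 2716) l65 (.c (nat_lit 2683) l65 (.c (nat_lit 2723) l65 (.c (nat_lit 2722) l101 (.c (nat_lit 1960) l42 (.c (nat_lit 2231) l65 (.c (nat_lit 2617) l231 (.c (nat_lit 2680) l65 (.c (nat_lit 2675) l65 (.c (nat_lit 1207) l42 (.c (nat_lit 2675) l50 (.c (nat_lit 2694) l49 (.c (nat_lit 2688) l52 (.c (nat_lit 2270) l42 (.c (nat_lit 2687) l49 (.c (nat_lit 2675) l70 (.c (nat_lit 2659) l65 (.c (nat_lit 2687) l48 (.c (nat_lit 2732) l155 (.c (nat_lit 2730) l157 (.c (nat_lit 2681) l65 (.c (nat_lit 2694) l69 (.c (nat_lit 2333) l42 (.c (nat_lit 2715) l68 (.c (nat_lit 2711) l104 (.c (nat_lit 2708) l154 (.c (nat_lit 2513)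 l65 (.c (nat_lit 2695) l78 (.c (nat_lit 2293) l42 (.c (nat_lit 2694) l48 (.c (nat_lit 2587) l65 (.c (nat_lit 2727) l97 (.c (nat_lit 2731) l202 (.c (nat_lit 2682) l49 (.c (nat_lit 2625) l231 (.c (nat_lit 2730) l97 (.c (nat_lit 2261) l42 (.c (nat_lit 2630) l49 (.c (nat_lit 2644) l69 (.c (nat_lit 2727) l100 u2_107))))))))))))))))))))))))))))))))))))))))
noncomputable def u2_109 : St := (.c (nat_lit 1886) l50 (.c (nat_lit 2708) l73 (.c (nat_lit 2624) l207 (.c (nat_lit 2179) l50 (.c (nat_lit 2680) l157 (.c (nat_lit 2184) l50 (.c (nat_lit 2451) l50 (.c (nat_lit 2618) l157 (.c (nat_lit 1610) l65 (.c (nat_lit 1849) l50 (.c (nat_lit 2561) l50 (.c (nat_lit 2725) l104 (.c (nat_lit 2587) l157 (.c (nat_lit 1909) l50 (.c (nat_lit 2696) l70 (.c (nat_lit 2311) l50 (.c (nat_lit 2435) l65 (.c (nat_lit 2722) l149 .e))))))))))))))))))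
noncomputable def u2_110 : St := (.c (nat_lit 2263) l65 (.c (nat_lit 2680) l65 (.c (nat_lit 2334) l65 (.c (nat_lit 2706) l70 (.c (nat_lit 2708) l154 (.c (nat_lit 2697) l70 (.c (nat_lit 2587) l65 (.c (nat_lit 2682) l69 (.c (nat_lit 2281) l207 (.c (nat_lit 1942) l42 (.c (nat_lit 2673) l49 (.c (nat_lit 2193) l65 (.c (nat_lit 2434) l65 (.c (nat_lit 2712) l69 (.c (nat_lit 2209) l50 (.c (nat_lit 2484) l65 (.c (nat_lit 1503) l65 (.c (nat_lit 2725) l100 (.c (nat_lit 2614) l65 (.c (nat_lit 2624) l141 (.c (nat_lit 2697) l71 (.c (nat_lit 2428) l50 (.c (nat_lit 2203) l50 (.c (nat_lit 2437) l65 (.c (nat_lit 2586) l65 (.c (nat_lit 2434) l50 (.c (nat_lit 2280) l42 (.c (nat_lit 2711) l70 (.c (nat_lit 2706) l71 (.c (nat_lit 2713) l70 (.c (nat_lit 2491) l65 (.c (nat_lit 2274) l42 (.c (nat_lit 1541) l42 (.c (nat_lit 2203) l65 (.c (nat_lit 2207) l65 (.c (nat_lit 2180) l50 (.c (nat_lit 2462) l65 (.c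 (nat_lit 1956) l42 (.c (nat_lit 2673) l48 (.c (nat_lit 2271) l42 u2_109))))))))))))))))))))))))))))))))))))))))
noncomputable def u2_111 : St := (.c (nat_lit 2732) l223 (.c (nat_lit 2732) l225 (.c (nat_lit 2712) l207 (.c (nat_lit 2587) l65 (.c (nat_lit 2682) l49 (.c (nat_lit 2682) l69 (.c (nat_lit 2281) l207 (.c (nat_lit 2732) l215 (.c (nat_lit 2493) l100 (.c (nat_lit 2193) l65 (.c (nat_lit 2493) l104 (.c (nat_lit 2213) l65 (.c (nat_lit 1529) l65 (.c (nat_lit 2586) l65 (.c (nat_lit 2434) l50 (.c (nat_lit 2189) l65 (.c (nat_lit 2711) l70 (.c (nat_lit 2713) l70 (.c (nat_lit 2490) l63 (.c (nat_lit 2490) l48 (.c (nat_lit 2490) l52 (.c (nat_lit 2599) l65 (.c (nat_lit 2207) l65 (.c (nat_lit 1158) l50 (.c (nat_lit 2130) l42 (.c (nat_lit 1886) l50 (.c (nat_lit 2617) l78 (.c (nat_lit 1877) l69 (.c (nat_lit 2682) l107 (.c (nat_lit 2618) l157 (.c (nat_lit 1610) l65 (.c (nat_lit 2682) l159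 (.c (nat_lit 2732) l219 (.c (nat_lit 1849) l50 (.c (nat_lit 2587) l157 (.c (nat_lit 2435) l65 .e))))))))))))))))))))))))))))))))))))
noncomputable def u2_112 : St := (.c (nat_lit 2618) l70 (.c (nat_lit 2492) l160 (.c (nat_lit 1207) l42 (.c (nat_lit 2730) l63 (.c (nat_lit 2730) l91 (.c (nat_lit 2682) l63 (.c (nat_lit 2730) l87 (.c (nat_lit 1934) l42 (.c (nat_lit 2606) l160 (.c (nat_lit 2453) l65 (.c (nat_lit 1984) l53 (.c (nat_lit 2490) l63 (.c (nat_lit 2617) l108 (.c (nat_lit 1541) l42 (.c (nat_lit 2180) l50 (.c (nat_lit 2244) l42 (.c (nat_lit 1928) l42 (.c (nat_lit 2681) l70 (.c (nat_lit 2705) l52 (.c (nat_lit 2071) l42 (.c (nat_lit 1956) l42 (.c (nat_lit 2708) l73 (.c (nat_lit 1588) l42 (.c (nat_lit 1148) l42 (.c (nat_lit 2617) l74 (.c (nat_lit 2273) l74 (.c (nat_lit 2451) l50 (.c (nat_lit 1873) l50 (.c (nat_lit 1849) l50 (.c (nat_lit 2561) l50 (.c (nat_lit 2682) l87 (.c (nat_lit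 2186) l50 (.c (nat_lit 1949) l42 (.c (nat_lit 2696) l70 (.c (nat_lit 2311) l50 (.c (nat_lit 2730) l120 .e))))))))))))))))))))))))))))))))))))
noncomputable def u2_113 : St := (.c (nat_lit 2707) l104 (.c (nat_lit 2707) l114 (.c (nat_lit 2710) l117 (.c (nat_lit 2245) l42 (.c (nat_lit 2707) l70 (.c (nat_lit 2709) l110 (.c (nat_lit 1862) l65 (.c (nat_lit 2708) l100 (.c (nat_lit 2668) l100 (.c (nat_lit 2722) l67 (.c (nat_lit 2677) l64 (.c (nat_lit 1512) l50 (.c (nat_lit 2707) l79 (.c (nat_lit 2677) l100 (.c (nat_lit 2705) l52 (.c (nat_lit 2691) l110 (.c (nat_lit 2586) l141 (.c (nat_lit 1148) l42 (.c (nat_lit 2186) l50 (.c (nat_lit 2707) l100 .e))))))))))))))))))))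
noncomputable def u2_114 : St := (.c (nat_lit 2683) l65 (.c (nat_lit 2502) l97 (.c (nat_lit 2684) l160 (.c (nat_lit 1982) l42 (.c (nat_lit 2263) l65 (.c (nat_lit 2334) l65 (.c (nat_lit 2683) l157 (.c (nat_lit 2712) l207 (.c (nat_lit 2684) l74 (.c (nat_lit 1260) l42 (.c (nat_lit 2682) l69 (.c (nat_lit 2434) l65 (.c (nat_lit 2712) l69 (.c (nat_lit 2695) l181 (.c (nat_lit 2209) l50 (.c (nat_lit 2002) l42 (.c (nat_lit 2213) l65 (.c (nat_lit 2684) l108 (.c (nat_lit 2725) l100 (.c (nat_lit 1529) l65 (.c (nat_lit 2428) l50 (.c (nat_lit 2203) l50 (.c (nat_lit 2437) l65 (.c (nat_lit 2189) l65 (.c (nat_lit 2280) l42 (.c (nat_lit 2599) l50 (.c (nat_lit 2274) l42 (.c (nat_lit 2203) l65 (.c (nat_lit 2180) l50 (.c (nat_lit 2462) l65 (.c (nat_lit 1158) l50 (.c (nat_lit 2130) l42 (.c (nat_lit 2271) l42 (.c (nat_lit 2624) l207 (.c (nat_lit 1877) l69 (.c (nat_lit 2179) l50 (.c (nat_lit 2184) l50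 (.c (nat_lit 2451) l50 (.c (nat_lit 2685) l104 (.c (nat_lit 2725) l104 .e))))))))))))))))))))))))))))))))))))))))
noncomputable def u2_115 : St := (.c (nat_lit 2680) l97 (.c (nat_lit 2624) l141 (.c (nat_lit 2579) l50 (.c (nat_lit 2601) l65 (.c (nat_lit 2675) l141 (.c (nat_lit 2697) l71 (.c (nat_lit 1529) l65 (.c (nat_lit 2203) l50 (.c (nat_lit 2525) l50 (.c (nat_lit 2586) l65 (.c (nat_lit 2280) l42 (.c (nat_lit 2706) l71 (.c (nat_lit 2617) l152 (.c (nat_lit 2583) l65 (.c (nat_lit 2274) l42 (.c (nat_lit 2682) l114 (.c (nat_lit 2462) l141 (.c (nat_lit 2636) l49 (.c (nat_lit 1928) l42 (.c (nat_lit 1956) l42 (.c (nat_lit 1295) l42 (.c (nat_lit 2271) l42 (.c (nat_lit 2691) l110 (.c (nat_lit 1588) l42 (.c (nat_lit 2624) l207 (.c (nat_lit 2617) l78 (.c (nat_lit 1593) l74 (.c (nat_lit 2493) l110 (.c (nat_lit 2273) l74 (.c (nat_lit 2231) l50 (.c (nat_lit 2184) l50 (.c (nat_lit 2685) l104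 (.c (nat_lit 2180) l65 (.c (nat_lit 2618) l157 (.c (nat_lit 1964) l65 (.c (nat_lit 2682) l159 (.c (nat_lit 1849) l50 (.c (nat_lit 2682) l87 (.c (nat_lit 2723) l157 .e)))))))))))))))))))))))))))))))))))))))
noncomputable def u2_116 : St := (.c (nat_lit 2644) l69 (.c (nat_lit 2727) l100 (.c (nat_lit 2254) l42 (.c (nat_lit 2493) l100 (.c (nat_lit 2673) l69 (.c (nat_lit 2681) l104 (.c (nat_lit 2673) l49 (.c (nat_lit 2000) l42 (.c (nat_lit 2611) l78 (.c (nat_lit 2434) l65 (.c (nat_lit 2443) l65 (.c (nat_lit 2543) l42 (.c (nat_lit 2715) l64 (.c (nat_lit 2724) l79 (.c (nat_lit 2724) l114 (.c (nat_lit 2487) l42 (.c (nat_lit 2724) l166 (.c (nat_lit 2441) l50 (.c (nat_lit 2718) l110 (.c (nat_lit 2731) l244 (.c (nat_lit 2295) l42 (.c (nat_lit 2499) l42 (.c (nat_lit 2509) l1 (.c (nat_lit 2209) l50 (.c (nat_lit 2511) l42 (.c (nat_lit 2493) l104 (.c (nat_lit 2713) l97 (.c (nat_lit 2659) l97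 (.c (nat_lit 2350) l42 (.c (nat_lit 2730) l152 (.c (nat_lit 2110) l65 (.c (nat_lit 2731) l204 (.c (nat_lit 2670) l65 (.c (nat_lit 2636) l69 (.c (nat_lit 2715) l100 (.c (nat_lit 2696) l100 (.c (nat_lit 2725) l100 (.c (nat_lit 2715) l101 (.c (nat_lit 2722) l105 (.c (nat_lit 2695) l63 u2_115))))))))))))))))))))))))))))))))))))))))
noncomputable def u2_117 : St := (.c (nat_lit 2716) l65 (.c (nat_lit 2618) l70 (.c (nat_lit 2683) l65 (.c (nat_lit 2723) l65 (.c (nat_lit 2722) l101 (.c (nat_lit 2492) l160 (.c (nat_lit 2263) l65 (.c (nat_lit 2231) l65 (.c (nat_lit 2680) l65 (.c (nat_lit 2675) l65 (.c (nat_lit 2617) l65 (.c (nat_lit 2334) l65 (.c (nat_lit 2675) l50 (.c (nat_lit 2694) l49 (.c (nat_lit 2688) l52 (.c (nat_lit 2270) l42 (.c (nat_lit 2706) l70 (.c (nat_lit 2687) l49 (.c (nat_lit 2659) l65 (.c (nat_lit 2687) l48 (.c (nat_lit 2730) l157 (.c (nat_lit 2681) l65 (.c (nat_lit 2694)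 l69 (.c (nat_lit 2333) l42 (.c (nat_lit 2715) l68 (.c (nat_lit 2711) l104 (.c (nat_lit 2513) l65 (.c (nat_lit 2695) l78 (.c (nat_lit 2682) l63 (.c (nat_lit 2293) l42 (.c (nat_lit 2694) l48 (.c (nat_lit 2697) l70 (.c (nat_lit 2727) l97 (.c (nat_lit 2731) l202 (.c (nat_lit 2682) l49 (.c (nat_lit 2724) l110 (.c (nat_lit 2281) l207 (.c (nat_lit 2730) l97 (.c (nat_lit 2261) l42 (.c (nat_lit 2630) l49 u2_116))))))))))))))))))))))))))))))))))))))))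
noncomputable def u2_118 : St := (.c (nat_lit 2617) l78 (.c (nat_lit 1593) l74 (.c (nat_lit 2493) l110 (.c (nat_lit 2273) l74 (.c (nat_lit 2202) l50 (.c (nat_lit 2680) l157 (.c (nat_lit 2184) l50 (.c (nat_lit 2451) l50 (.c (nat_lit 2180) l65 (.c (nat_lit 2618) l157 (.c (nat_lit 1964) l65 (.c (nat_lit 2732) l219 (.c (nat_lit 1849) l50 (.c (nat_lit 2694) l207 (.c (nat_lit 2682) l87 (.c (nat_lit 2704) l106 .e))))))))))))))))
noncomputable def u2_119 : St := (.c (nat_lit 2491) l65 (.c (nat_lit 2274) l42 (.c (nat_lit 2682) l114 (.c (nat_lit 2599) l65 (.c (nat_lit 2180) l50 (.c (nat_lit 2722) l118 (.c (nat_lit 2705) l160 (.c (nat_lit 2669) l166 (.c (nat_lit 2674) l78 (.c (nat_lit 2615) l53 (.c (nat_lit 2697) l79 (.c (nat_lit 2185) l42 (.c (nat_lit 2713) l80 (.c (nat_lit 2707) l79 (.c (nat_lit 2673) l63 (.c (nat_lit 1928) l42 (.c (nat_lit 2677) l100 (.c (nat_lit 2705) l52 (.c (nat_lit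 2675) l179 (.c (nat_lit 2483) l74 (.c (nat_lit 2071) l42 (.c (nat_lit 1956) l42 (.c (nat_lit 2673) l48 (.c (nat_lit 2068) l42 (.c (nat_lit 2704) l114 (.c (nat_lit 2708) l73 (.c (nat_lit 1229) l42 (.c (nat_lit 2299) l74 (.c (nat_lit 2481) l53 (.c (nat_lit 2477) l52 (.c (nat_lit 488) l42 (.c (nat_lit 2581) l108 (.c (nat_lit 2636) l63 (.c (nat_lit 2696) l117 (.c (nat_lit 2351) l74 (.c (nat_lit 1502) l42 (.c (nat_lit 2708) l63 (.c (nat_lit 1811) l42 (.c (nat_lit 2128) l42 (.c (nat_lit 2617) l74 u2_118))))))))))))))))))))))))))))))))))))))))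
noncomputable def u2_120 : St := (.c (nat_lit 2596) l69 (.c (nat_lit 2063) l42 (.c (nat_lit 2544) l48 (.c (nat_lit 2715) l100 (.c (nat_lit 2104) l42 (.c (nat_lit 2014) l42 (.c (nat_lit 2708) l117 (.c (nat_lit 2392) l42 (.c (nat_lit 1886) l42 (.c (nat_lit 2669) l154 (.c (nat_lit 1888) l42 (.c (nat_lit 1843) l42 (.c (nat_lit 2682) l116 (.c (nat_lit 2667) l97 (.c (nat_lit 2696) l100 (.c (nat_lit 2498) l53 (.c (nat_lit 1377) l50 (.c (nat_lit 2652) l160 (.c (nat_lit 2689) l79 (.c (nat_lit 2725) l100 (.c (nat_lit 2695) l63 (.c (nat_lit 2713) l79 (.c (nat_lit 2614) l65 (.c (nat_lit 2624) l141 (.c (nat_lit 2722) l106 (.c (nat_lit 1529) l65 (.c (nat_lit 1512) l50 (.c (nat_lit 2428) l50 (.c (nat_lit 2203) l50 (.c (nat_lit 2525) l50 (.c (nat_lit 2731) l146 (.c (nat_lit 2586) l65 (.c (nat_lit 2434) l50 (.c (nat_lit 2729) l102 (.c (nat_lit 2709) l106 (.c (nat_lit 1984) l53 (.c (nat_lit 2280)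 l42 (.c (nat_lit 2711) l70 (.c (nat_lit 2713) l70 (.c (nat_lit 2490) l52 u2_119))))))))))))))))))))))))))))))))))))))))
noncomputable def u2_121 : St := (.c (nat_lit 2434) l65 (.c (nat_lit 2443) l65 (.c (nat_lit 2543) l42 (.c (nat_lit 2718) l73 (.c (nat_lit 2385) l50 (.c (nat_lit 2501) l65 (.c (nat_lit 2721) l100 (.c (nat_lit 2694) l108 (.c (nat_lit 2668) l276 (.c (nat_lit 2670) l50 (.c (nat_lit 2707) l70 (.c (nat_lit 2679) l110 (.c (nat_lit 1891) l52 (.c (nat_lit 2312) l52 (.c (nat_lit 2210) l52 (.c (nat_lit 2708) l100 (.c (nat_lit 2668) l100 (.c (nat_lit 2722) l67 (.c (nat_lit 2634) l53 (.c (nat_lit 2259) l42 (.c (nat_lit 2295) l42 (.c (nat_lit 2684) l231 (.c (nat_lit 2712) l141 (.c (nat_lit 2583) l50 (.c (nat_lit 2717) l167 (.c (nat_lit 2597) l78 (.c (nat_lit 2713) l97 (.c (nat_lit 2002) l42 (.c (nat_lit 2350) l42 (.c (nat_lit 2658) l112 (.c (nat_lit 2431) l50 (.c (nat_lit 2484)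 l65 (.c (nat_lit 1530) l74 (.c (nat_lit 2214) l108 (.c (nat_lit 2705) l78 (.c (nat_lit 2677) l64 (.c (nat_lit 2110) l65 (.c (nat_lit 2444) l141 (.c (nat_lit 2488) l52 (.c (nat_lit 2633) l50 u2_120))))))))))))))))))))))))))))))))))))))))
noncomputable def u2_122 : St := (.c (nat_lit 2713) l106 (.c (nat_lit 2721) l104 (.c (nat_lit 2695) l78 (.c (nat_lit 2725) l91 (.c (nat_lit 2528) l53 (.c (nat_lit 2293) l42 (.c (nat_lit 2732) l226 (.c (nat_lit 2725) l167 (.c (nat_lit 2718) l114 (.c (nat_lit 2669) l100 (.c (nat_lit 2694) l48 (.c (nat_lit 2725) l237 (.c (nat_lit 2665) l114 (.c (nat_lit 2707) l104 (.c (nat_lit 2718) l68 (.c (nat_lit 2724) l102 (.c (nat_lit 2638) l50 (.c (nat_lit 2731) l202 (.c (nat_lit 1934) l42 (.c (nat_lit 1961) l74 (.c (nat_lit 2281) l207 (.c (nat_lit 2438) l74 (.c (nat_lit 2601) l141 (.c (nat_lit 2710) l117 (.c (nat_lit 1942) l42 (.c (nat_lit 2447) l179 (.c (nat_lit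 2261) l42 (.c (nat_lit 2731) l102 (.c (nat_lit 2544) l49 (.c (nat_lit 2644) l69 (.c (nat_lit 2727) l100 (.c (nat_lit 2556) l50 (.c (nat_lit 2673) l69 (.c (nat_lit 2681) l104 (.c (nat_lit 2673) l49 (.c (nat_lit 2245) l42 (.c (nat_lit 1572) l42 (.c (nat_lit 2491) l141 (.c (nat_lit 2455) l42 (.c (nat_lit 2531) l49 u2_121))))))))))))))))))))))))))))))))))))))))
noncomputable def u2_123 : St := (.c (nat_lit 2447) l74 (.c (nat_lit 2612) l53 (.c (nat_lit 2725) l63 (.c (nat_lit 2706) l108 (.c (nat_lit 2581) l74 (.c (nat_lit 2726) l114 (.c (nat_lit 2729) l110 (.c (nat_lit 2694) l74 (.c (nat_lit 2643) l53 (.c (nat_lit 2577) l1 (.c (nat_lit 2638) l108 (.c (nat_lit 2717) l112 (.c (nat_lit 2732) l239 (.c (nat_lit 2730) l107 (.c (nat_lit 2559) l108 (.c (nat_lit 2708) l112 (.c (nat_lit 1900) l42 (.c (nat_lit 2581) l50 (.c (nat_lit 2593) l160 (.c (nat_lit 2666) l78 (.c (nat_lit 2654) l53 (.c (nat_lit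 2650) l53 (.c (nat_lit 2559) l74 (.c (nat_lit 2666) l118 (.c (nat_lit 2439) l110 (.c (nat_lit 2722) l69 (.c (nat_lit 2676) l50 (.c (nat_lit 2681) l65 (.c (nat_lit 2694) l69 (.c (nat_lit 2667) l267 (.c (nat_lit 2669) l114 (.c (nat_lit 2722) l110 (.c (nat_lit 2730) l63 (.c (nat_lit 2669) l104 (.c (nat_lit 2307) l1 (.c (nat_lit 2730) l91 (.c (nat_lit 2711) l104 (.c (nat_lit 2577) l69 (.c (nat_lit 2708) l154 (.c (nat_lit 2513) l65 u2_122))))))))))))))))))))))))))))))))))))))))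
noncomputable def u2_124 : St := (.c (nat_lit 1984) l74 (.c (nat_lit 2502) l108 (.c (nat_lit 1145) l42 (.c (nat_lit 2587) l79 (.c (nat_lit 2618) l70 (.c (nat_lit 2732) l223 (.c (nat_lit 2683) l65 (.c (nat_lit 2721) l102 (.c (nat_lit 2621) l74 (.c (nat_lit 2481) l74 (.c (nat_lit 2708) l118 (.c (nat_lit 2194) l160 (.c (nat_lit 2722) l107 (.c (nat_lit 2729) l69 (.c (nat_lit 2729) l107 (.c (nat_lit 1781) l42 (.c (nat_lit 2492) l160 (.c (nat_lit 1982) l42 (.c (nat_lit 1869) l42 (.c (nat_lit 2263) l65 (.c (nat_lit 2231) l65 (.c (nat_lit 2580) l49 (.c (nat_lit 2597) l52 (.c (nat_lit 2667) l65 (.c (nat_lit 2708) l69 (.c (nat_lit 2680) l65 (.c (nat_lit 2638) l74 (.c (nat_lit 1207) l42 (.c (nat_lit 2594) l42 (.c (nat_lit 2541) l74 (.c (nat_lit 2334) l65 (.c (nat_lit 2712) l207 (.c (nat_lit 2726) l106 (.c (nat_lit 2694) l49 (.c (nat_lit 2558) l141 (.c (nat_lit 2293) l74 (.c (nat_lit 2439)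 l166 (.c (nat_lit 2729) l114 (.c (nat_lit 2665) l74 (.c (nat_lit 2668) l74 u2_123))))))))))))))))))))))))))))))))))))))))
noncomputable def u2_125 : St := (.c (nat_lit 2618) l70 (.c (nat_lit 2732) l223 (.c (nat_lit 2732) l225 (.c (nat_lit 2708) l69 (.c (nat_lit 2708) l49 (.c (nat_lit 2617) l65 (.c (nat_lit 2730) l107 (.c (nat_lit 2281) l207 (.c (nat_lit 2732) l215 (.c (nat_lit 2673) l69 (.c (nat_lit 2681) l104 (.c (nat_lit 2673) l49 (.c (nat_lit 2712) l69 (.c (nat_lit 2209) l50 (.c (nat_lit 2725) l107 (.c (nat_lit 2617) l152 (.c (nat_lit 2490) l48 (.c (nat_lit 2490) l52 (.c (nat_lit 2180) l50 (.c (nat_lit 1886) l50 (.c (nat_lit 2202) l50 (.c (nat_lit 2451) l50 (.c (nat_lit 2618) l157 (.c (nat_lit 1964) l65 (.c (nat_lit 2682) l159 (.c (nat_lit 2732) l219 (.c (nat_lit 2730) l159 .e)))))))))))))))))))))))))))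
noncomputable def u2_126 : St := (.c (nat_lit 2618) l70 (.c (nat_lit 2617) l65 (.c (nat_lit 2682) l49 (.c (nat_lit 2281) l207 (.c (nat_lit 2493) l100 (.c (nat_lit 2681) l104 (.c (nat_lit 2493) l104 (.c (nat_lit 2490) l63 (.c (nat_lit 2617) l152 (.c (nat_lit 2617) l78 (.c (nat_lit 2618) l157 (.c (nat_lit 1964) l65 (.c (nat_lit 2682) l159 .e)))))))))))))
noncomputable def u2_127 : St := (.c (nat_lit 2618) l70 (.c (nat_lit 2732) l225 (.c (nat_lit 2682) l69 (.c (nat_lit 1934) l42 (.c (nat_lit 2732) l215 (.c (nat_lit 2681) l104 (.c (nat_lit 2679) l110 (.c (nat_lit 2709) l110 (.c (nat_lit 2709) l106 (.c (nat_lit 2617) l97 (.c (nat_lit 2617) l152 (.c (nat_lit 2490) l48 (.c (nat_lit 2490) l52 (.c (nat_lit 2682) l107 .e))))))))))))))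
noncomputable def u2_128 : St := (.c (nat_lit 2436) l69 (.c (nat_lit 2587) l65 (.c (nat_lit 2666) l49 (.c (nat_lit 2619) l50 (.c (nat_lit 2431) l50 (.c (nat_lit 2428) l50 (.c (nat_lit 2203) l50 (.c (nat_lit 2525) l50 (.c (nat_lit 1886) l50 (.c (nat_lit 2624) l207 (.c (nat_lit 2179) l50 (.c (nat_lit 2184) l50 (.c (nat_lit 2666) l107 .e)))))))))))))
noncomputable def u2_129 : St := (.c (nat_lit 2728) l73 (.c (nat_lit 2673) l49 (.c (nat_lit 2491) l141 (.c (nat_lit 2455) l42 (.c (nat_lit 2721) l100 (.c (nat_lit 2712) l69 (.c (nat_lit 2493) l104 (.c (nat_lit 2453) l65 (.c (nat_lit 2375) l1 (.c (nat_lit 2715) l100 (.c (nat_lit 2104) l42 (.c (nat_lit 2014) l42 (.c (nat_lit 2708) l117 (.c (nat_lit 1886) l42 (.c (nat_lit 2669) l154 (.c (nat_lit 1544) l42 (.c (nat_lit 2682) l116 (.c (nat_lit 2667) l97 (.c (nat_lit 1909) l42 (.c (nat_lit 2725) l107 (.c (nat_lit 2490) l52 (.c (nat_lit 2608)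 l53 (.c (nat_lit 1928) l42 (.c (nat_lit 2496) l74 (.c (nat_lit 2475) l53 (.c (nat_lit 2071) l42 (.c (nat_lit 2673) l48 (.c (nat_lit 2728) l226 (.c (nat_lit 1229) l42 (.c (nat_lit 2299) l74 (.c (nat_lit 2586) l141 (.c (nat_lit 1871) l42 (.c (nat_lit 1965) l42 (.c (nat_lit 2686) l70 (.c (nat_lit 1502) l42 (.c (nat_lit 2708) l63 .e))))))))))))))))))))))))))))))))))))
noncomputable def u2_130 : St := (.c (nat_lit 2618) l70 (.c (nat_lit 2708) l118 (.c (nat_lit 2722) l107 (.c (nat_lit 2729) l69 (.c (nat_lit 2729) l107 (.c (nat_lit 2719) l49 (.c (nat_lit 1869) l42 (.c (nat_lit 2667) l65 (.c (nat_lit 2708) l69 (.c (nat_lit 2594) l42 (.c (nat_lit 2729) l114 (.c (nat_lit 2654) l42 (.c (nat_lit 2676) l53 (.c (nat_lit 2725) l63 (.c (nat_lit 2729) l110 (.c (nat_lit 2577) l1 (.c (nat_lit 2732) l239 (.c (nat_lit 2730) l107 (.c (nat_lit 2708) l112 (.c (nat_lit 1900) l42 (.c (nat_lit 2722) l69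 (.c (nat_lit 2667) l267 (.c (nat_lit 2730) l63 (.c (nat_lit 2669) l104 (.c (nat_lit 2307) l1 (.c (nat_lit 2730) l91 (.c (nat_lit 2577) l69 (.c (nat_lit 2721) l104 (.c (nat_lit 2682) l63 (.c (nat_lit 2725) l91 (.c (nat_lit 2732) l226 (.c (nat_lit 2669) l100 (.c (nat_lit 2725) l237 (.c (nat_lit 2707) l104 (.c (nat_lit 2671) l53 (.c (nat_lit 1961) l74 (.c (nat_lit 2707) l114 (.c (nat_lit 2601) l141 (.c (nat_lit 2719) l48 (.c (nat_lit 2681) l104 u2_129))))))))))))))))))))))))))))))))))))))))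
noncomputable def u2_131 : St := (.c (nat_lit 2592) l49 (.c (nat_lit 2597) l52 (.c (nat_lit 2717) l112 (.c (nat_lit 2637) l52 (.c (nat_lit 2544) l52 (.c (nat_lit 2717) l167 (.c (nat_lit 2597) l78 (.c (nat_lit 2488) l52 (.c (nat_lit 2696) l100 (.c (nat_lit 1377) l50 (.c (nat_lit 2700) l81 (.c (nat_lit 2691) l110 (.c (nat_lit 2592) l48 (.c (nat_lit 2477) l52 (.c (nat_lit 2696) l117 .e)))))))))))))))
noncomputable def u2_132 : St := (.c (nat_lit 2621) l74 (.c (nat_lit 2481) l74 (.c (nat_lit 1781) l42 (.c (nat_lit 2404) l74 (.c (nat_lit 2638) l74 (.c (nat_lit 2581) l74 (.c (nat_lit 2694) l74 (.c (nat_lit 2638) l108 (.c (nat_lit 2559) l108 (.c (nat_lit 2559) l74 (.c (nat_lit 1572) l42 (.c (nat_lit 2694) l108 (.c (nat_lit 2658) l112 (.c (nat_lit 2539) l53 (.c (nat_lit 2498) l53 (.c (nat_lit 1710) l42 (.c (nat_lit 2481) l53 (.c (nat_lit 2565) l52 (.c (nat_lit 2581) l108 .e)))))))))))))))))))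
noncomputable def u2_133 : St := (.c (nat_lit 2264) l74 (.c (nat_lit 2355) l74 (.c (nat_lit 2447) l74 (.c (nat_lit 2680) l74 (.c (nat_lit 2559) l108 (.c (nat_lit 2559) l74 (.c (nat_lit 2544) l52 (.c (nat_lit 1530) l74 (.c (nat_lit 2214) l108 (.c (nat_lit 2680) l108 (.c (nat_lit 814) l42 (.c (nat_lit 2447) l108 (.c (nat_lit 2498) l53 (.c (nat_lit 2691) l110 (.c (nat_lit 2481) l53 .e)))))))))))))))
noncomputable def u2_134 : St := (.c (nat_lit 2476) l53 (.c (nat_lit 2700) l81 (.c (nat_lit 2704) l114 .e)))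
noncomputable def u2_135 : St := (.c (nat_lit 2502) l108 (.c (nat_lit 1145) l42 (.c (nat_lit 2621) l74 (.c (nat_lit 2664) l74 (.c (nat_lit 2541) l74 (.c (nat_lit 2293) l74 (.c (nat_lit 2705) l74 (.c (nat_lit 2447) l74 (.c (nat_lit 2726) l114 (.c (nat_lit 2717) l112 (.c (nat_lit 2593) l160 (.c (nat_lit 2669) l114 (.c (nat_lit 2722) l110 (.c (nat_lit 2705) l108 (.c (nat_lit 2708) l154 (.c (nat_lit 2528) l53 (.c (nat_lit 2725) l167 (.c (nat_lit 2438) l74 (.c (nat_lit 2447) l179 (.c (nat_lit 2673) l69 (.c (nat_lit 2668) l276 (.c (nat_lit 2671) l74 (.c (nat_lit 2717) l167 (.c (nat_lit 2688) l160 (.c (nat_lit 2584) l74 (.c (nat_lit 2664) l108 (.c (nat_lit 2539) l53 (.c (nat_lit 2615) l74 (.c (nat_lit 2351) l53 (.c (nat_lit 2689) l79 (.c (nat_lit 2713) l79 (.c (nat_lit 1541) l42 (.c (nat_lit 2608) l53 (.c (nat_lit 2669) l166 (.c (nat_lit 2674) l78 (.c (nat_lit 2697) l79 (.c (nat_lit 2713)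 l80 (.c (nat_lit 2673) l63 (.c (nat_lit 1710) l42 (.c (nat_lit 2475) l53 u2_134))))))))))))))))))))))))))))))))))))))))
noncomputable def u2_136 : St := (.c (nat_lit 1529) l65 (.c (nat_lit 1512) l50 (.c (nat_lit 2586) l65 (.c (nat_lit 2434) l50 (.c (nat_lit 2189) l65 (.c (nat_lit 2666) l87 (.c (nat_lit 2439) l100 (.c (nat_lit 2711) l70 (.c (nat_lit 2599) l50 (.c (nat_lit 2713) l70 (.c (nat_lit 2490) l63 (.c (nat_lit 2490) l48 (.c (nat_lit 2462) l141 (.c (nat_lit 2207) l65 (.c (nat_lit 2462) l65 (.c (nat_lit 1158) l50 (.c (nat_lit 2608) l53 (.c (nat_lit 2732) l243 (.c (nat_lit 2725) l117 (.c (nat_lit 2669) l166 (.c (nat_lit 2674) l78 (.c (nat_lit 2732) l252 (.c (nat_lit 2697) l79 (.c (nat_lit 2436) l63 (.c (nat_lit 2185) l42 (.c (nat_lit 2711) l117 .e))))))))))))))))))))))))))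
noncomputable def u2_137 : St := (.c (nat_lit 2520) l42 (.c (nat_lit 2653) l70 (.c (nat_lit 2194) l74 (.c (nat_lit 2710) l117 (.c (nat_lit 2673) l69 (.c (nat_lit 2702) l141 (.c (nat_lit 2673) l49 (.c (nat_lit 2245) l42 (.c (nat_lit 2193) l65 (.c (nat_lit 2666) l136 (.c (nat_lit 2721) l100 (.c (nat_lit 2670) l50 (.c (nat_lit 2586) l152 (.c (nat_lit 1891) l52 (.c (nat_lit 2708) l100 (.c (nat_lit 2722) l67 (.c (nat_lit 1548) l42 (.c (nat_lit 2731) l203 (.c (nat_lit 2671) l74 (.c (nat_lit 2213) l65 (.c (nat_lit 2732) l242 (.c (nat_lit 1476) l74 (.c (nat_lit 2707) l113 (.c (nat_lit 814) l42 (.c (nat_lit 2677) l64 (.c (nat_lit 1890) l42 (.c (nat_lit 1503) l65 (.c (nat_lit 2488) l52 (.c (nat_lit 2730) l113 (.c (nat_lit 2104) l42 (.c (nat_lit 2014) l42 (.c (nat_lit 2708) l117 (.c (nat_lit 2392) l42 (.c (nat_lit 1886) l42 (.c (nat_lit 1544) l42 (.c (nat_lit 2732) l249 (.c (nat_lit 2262)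 l52 (.c (nat_lit 2689) l79 (.c (nat_lit 2624) l141 (.c (nat_lit 2579) l50 u2_136))))))))))))))))))))))))))))))))))))))))
noncomputable def u2_138 : St := (.c (nat_lit 2587) l70 (.c (nat_lit 2707) l53 (.c (nat_lit 2723) l74 (.c (nat_lit 1487) l65 (.c (nat_lit 1869) l42 (.c (nat_lit 2703) l53 (.c (nat_lit 2730) l111 (.c (nat_lit 2712) l207 (.c (nat_lit 2666) l52 (.c (nat_lit 2666) l181 (.c (nat_lit 2721) l70 (.c (nat_lit 2721) l147 (.c (nat_lit 2442) l42 (.c (nat_lit 2676) l53 (.c (nat_lit 2451) l42 (.c (nat_lit 2578) l74 (.c (nat_lit 2577) l1 (.c (nat_lit 2732) l239 (.c (nat_lit 2732) l251 (.c (nat_lit 2666) l78 (.c (nat_lit 2666) l118 (.c (nat_lit 2214) l179 (.c (nat_lit 2209) l42 (.c (nat_lit 2666) l48 (.c (nat_lit 2307) l1 (.c (nat_lit 2666) l91 (.c (nat_lit 2732) l238 (.c (nat_lit 2724) l117 (.c (nat_lit 2729) l160 (.c (nat_lit 2184) l42 (.c (nat_lit 2465) l42 (.c (nat_lit 2666)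 l100 (.c (nat_lit 2424) l1 (.c (nat_lit 2704) l104 (.c (nat_lit 2732) l226 (.c (nat_lit 2283) l42 (.c (nat_lit 2432) l42 (.c (nat_lit 2311) l42 (.c (nat_lit 2178) l42 (.c (nat_lit 2723) l108 u2_137))))))))))))))))))))))))))))))))))))))))
noncomputable def u2_139 : St := (.c (nat_lit 2695) l63 (.c (nat_lit 1529) l65 (.c (nat_lit 1512) l50 (.c (nat_lit 2586) l65 (.c (nat_lit 2435) l50 (.c (nat_lit 2189) l65 (.c (nat_lit 2666) l87 (.c (nat_lit 2439) l100 (.c (nat_lit 2711) l70 (.c (nat_lit 2599) l50 (.c (nat_lit 2713) l70 (.c (nat_lit 2490) l63 (.c (nat_lit 2490) l48 (.c (nat_lit 2682) l114 (.c (nat_lit 2462) l141 (.c (nat_lit 2207) l65 (.c (nat_lit 2608) l53 (.c (nat_lit 2732) l243 (.c (nat_lit 2732) l165 (.c (nat_lit 2669) l166 (.c (nat_lit 2674) l78 (.c (nat_lit 2732) l252 .e))))))))))))))))))))))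
noncomputable def u2_140 : St := (.c (nat_lit 2312) l52 (.c (nat_lit 2210) l52 (.c (nat_lit 2718) l110 (.c (nat_lit 2675) l79 (.c (nat_lit 2634) l53 (.c (nat_lit 2327) l42 (.c (nat_lit 1548) l42 (.c (nat_lit 2731) l203 (.c (nat_lit 2718) l112 (.c (nat_lit 2509) l1 (.c (nat_lit 2685) l116 (.c (nat_lit 2717) l167 (.c (nat_lit 2213) l65 (.c (nat_lit 2732) l242 (.c (nat_lit 1476) l74 (.c (nat_lit 2705) l231 (.c (nat_lit 2725) l116 (.c (nat_lit 2664) l108 (.c (nat_lit 2539) l53 (.c (nat_lit 2677) l64 (.c (nat_lit 2444) l141 (.c (nat_lit 2488) l52 (.c (nat_lit 2654) l108 (.c (nat_lit 2063) l42 (.c (nat_lit 2730) l113 (.c (nat_lit 2375) l1 (.c (nat_lit 2014) l42 (.c (nat_lit 1886) l42 (.c (nat_lit 1544) l42 (.c (nat_lit 2682) l116 (.c (nat_lit 2669) l64 (.c (nat_lit 2623) l117 (.c (nat_lit 2615) l74 (.c (nat_lit 2498) l53 (.c (nat_lit 2731) l164 (.c (nat_lit 2732) l249 (.c (nat_lit 1909)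 l42 (.c (nat_lit 2262) l52 (.c (nat_lit 2689) l79 (.c (nat_lit 2725) l100 u2_139))))))))))))))))))))))))))))))))))))))))
noncomputable def u2_141 : St := (.c (nat_lit 1900) l42 (.c (nat_lit 2666) l78 (.c (nat_lit 2666) l118 (.c (nat_lit 2694) l69 (.c (nat_lit 2436) l48 (.c (nat_lit 2705) l108 (.c (nat_lit 2666) l48 (.c (nat_lit 2307) l1 (.c (nat_lit 2666) l91 (.c (nat_lit 2732) l238 (.c (nat_lit 2724) l117 (.c (nat_lit 2711) l104 (.c (nat_lit 2577) l69 (.c (nat_lit 2729) l160 (.c (nat_lit 2184) l42 (.c (nat_lit 2666) l100 (.c (nat_lit 2203) l42 (.c (nat_lit 2721) l104 (.c (nat_lit 2695) l78 (.c (nat_lit 2348) l42 (.c (nat_lit 2732) l226 (.c (nat_lit 2283) l42 (.c (nat_lit 2718) l114 (.c (nat_lit 2432) l42 (.c (nat_lit 2694) l48 (.c (nat_lit 2671) l53 (.c (nat_lit 2723) l108 (.c (nat_lit 2436) l49 (.c (nat_lit 2710) l117 (.c (nat_lit 2727) l117 (.c (nat_lit 2644) l69 (.c (nat_lit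 2727) l100 (.c (nat_lit 2673) l69 (.c (nat_lit 2702) l141 (.c (nat_lit 2673) l49 (.c (nat_lit 2193) l65 (.c (nat_lit 2666) l136 (.c (nat_lit 2721) l100 (.c (nat_lit 2685) l114 (.c (nat_lit 2586) l152 u2_140))))))))))))))))))))))))))))))))))))))))
noncomputable def u2_142 : St := (.c (nat_lit 2502) l108 (.c (nat_lit 2587) l70 (.c (nat_lit 2707) l53 (.c (nat_lit 2621) l74 (.c (nat_lit 2725) l112 (.c (nat_lit 2723) l74 (.c (nat_lit 2436) l69 (.c (nat_lit 1487) l65 (.c (nat_lit 2703) l53 (.c (nat_lit 2617) l231 (.c (nat_lit 2731) l112 (.c (nat_lit 2664) l74 (.c (nat_lit 2435) l42 (.c (nat_lit 2730) l111 (.c (nat_lit 2712) l207 (.c (nat_lit 2726) l110 (.c (nat_lit 2694) l49 (.c (nat_lit 2558) l141 (.c (nat_lit 2293) l74 (.c (nat_lit 2705) l74 (.c (nat_lit 2194) l231 (.c (nat_lit 2587) l74 (.c (nat_lit 2666) l52 (.c (nat_lit 2730) l115 (.c (nat_lit 2666) l181 (.c (nat_lit 2661) l100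 (.c (nat_lit 2721) l70 (.c (nat_lit 2721) l147 (.c (nat_lit 2442) l42 (.c (nat_lit 2676) l53 (.c (nat_lit 2587) l179 (.c (nat_lit 2691) l78 (.c (nat_lit 2732) l113 (.c (nat_lit 2699) l74 (.c (nat_lit 2578) l74 (.c (nat_lit 2691) l118 (.c (nat_lit 2717) l112 (.c (nat_lit 2732) l239 (.c (nat_lit 2732) l251 (.c (nat_lit 2708) l112 u2_141))))))))))))))))))))))))))))))))))))))))
noncomputable def u2_143 : St := (.c (nat_lit 2725) l100 (.c (nat_lit 2624) l141 (.c (nat_lit 2579) l50 (.c (nat_lit 1512) l50 (.c (nat_lit 2428) l50 (.c (nat_lit 2725) l107 (.c (nat_lit 2525) l50 (.c (nat_lit 2435) l50 (.c (nat_lit 2709) l106 (.c (nat_lit 1475) l65 (.c (nat_lit 2296) l49 (.c (nat_lit 2280) l42 (.c (nat_lit 2599) l50 (.c (nat_lit 2617) l97 (.c (nat_lit 2617) l152 (.c (nat_lit 2490) l48 (.c (nat_lit 2490) l52 (.c (nat_lit 2491) l65 (.c (nat_lit 2681) l160 (.c (nat_lit 2274) l42 (.c (nat_lit 2599)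 l65 (.c (nat_lit 1158) l50 (.c (nat_lit 2608) l53 (.c (nat_lit 2732) l243 (.c (nat_lit 2713) l117 .e)))))))))))))))))))))))))
noncomputable def u2_144 : St := (.c (nat_lit 2675) l79 (.c (nat_lit 2327) l42 (.c (nat_lit 2713) l110 (.c (nat_lit 1548) l42 (.c (nat_lit 2712) l141 (.c (nat_lit 2731) l203 (.c (nat_lit 2718) l112 (.c (nat_lit 2331) l42 (.c (nat_lit 2671) l74 (.c (nat_lit 2583) l50 (.c (nat_lit 2511) l42 (.c (nat_lit 2688) l160 (.c (nat_lit 2493) l104 (.c (nat_lit 2713) l97 (.c (nat_lit 2431) l50 (.c (nat_lit 2730) l279 (.c (nat_lit 2707) l113 (.c (nat_lit 814) l42 (.c (nat_lit 2677) l64 (.c (nat_lit 2190) l42 (.c (nat_lit 1890) l42 (.c (nat_lit 1503) l65 (.c (nat_lit 2488) l52 (.c (nat_lit 2654) l108 (.c (nat_lit 2063) l42 (.c (nat_lit 2104) l42 (.c (nat_lit 2014) l42 (.c (nat_lit 2392) l42 (.c (nat_lit 1886) l42 (.c (nat_lit 2669) l154 (.c (nat_lit 1843) l42 (.c (nat_lit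 2682) l116 (.c (nat_lit 2048) l42 (.c (nat_lit 2669) l64 (.c (nat_lit 2708) l110 (.c (nat_lit 2731) l164 (.c (nat_lit 2351) l53 (.c (nat_lit 1909) l42 (.c (nat_lit 2262) l52 (.c (nat_lit 2689) l79 u2_143))))))))))))))))))))))))))))))))))))))))
noncomputable def u2_145 : St := (.c (nat_lit 1900) l42 (.c (nat_lit 2581) l50 (.c (nat_lit 2730) l231 (.c (nat_lit 2722) l69 (.c (nat_lit 2676) l50 (.c (nat_lit 2681) l65 (.c (nat_lit 2507) l1 (.c (nat_lit 2209) l42 (.c (nat_lit 2730) l63 (.c (nat_lit 2307) l1 (.c (nat_lit 2732) l238 (.c (nat_lit 2729) l160 (.c (nat_lit 2184) l42 (.c (nat_lit 2465) l42 (.c (nat_lit 2424) l1 (.c (nat_lit 2528) l53 (.c (nat_lit 2732) l226 (.c (nat_lit 2730) l236 (.c (nat_lit 2669) l100 (.c (nat_lit 2432) l42 (.c (nat_lit 2697) l70 (.c (nat_lit 2311) l42 (.c (nat_lit 2178) l42 (.c (nat_lit 2638) l50 (.c (nat_lit 2682) l69 (.c (nat_lit 2713) l112 (.c (nat_lit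 2723) l108 (.c (nat_lit 1934) l42 (.c (nat_lit 2710) l117 (.c (nat_lit 2732) l215 (.c (nat_lit 2556) l50 (.c (nat_lit 2702) l141 (.c (nat_lit 2245) l42 (.c (nat_lit 2503) l52 (.c (nat_lit 2455) l42 (.c (nat_lit 2385) l50 (.c (nat_lit 2679) l110 (.c (nat_lit 2709) l110 (.c (nat_lit 1891) l52 (.c (nat_lit 2722) l67 u2_144))))))))))))))))))))))))))))))))))))))))
noncomputable def u2_146 : St := (.c (nat_lit 1854) l42 (.c (nat_lit 2296) l48 (.c (nat_lit 2732) l225 (.c (nat_lit 2707) l53 (.c (nat_lit 2683) l65 (.c (nat_lit 2723) l74 (.c (nat_lit 2732) l177 (.c (nat_lit 2729) l69 (.c (nat_lit 1869) l42 (.c (nat_lit 2672) l42 (.c (nat_lit 2703) l53 (.c (nat_lit 2731) l112 (.c (nat_lit 2727) l111 (.c (nat_lit 1207) l42 (.c (nat_lit 2730) l111 (.c (nat_lit 2732) l237 (.c (nat_lit 2712) l207 (.c (nat_lit 2726) l110 (.c (nat_lit 2730) l78 (.c (nat_lit 2586) l207 (.c (nat_lit 2278) l42 (.c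 (nat_lit 2725) l78 (.c (nat_lit 2730) l115 (.c (nat_lit 2603) l42 (.c (nat_lit 2661) l100 (.c (nat_lit 2721) l70 (.c (nat_lit 2721) l147 (.c (nat_lit 2442) l42 (.c (nat_lit 2712) l74 (.c (nat_lit 2676) l53 (.c (nat_lit 2725) l63 (.c (nat_lit 2730) l108 (.c (nat_lit 2451) l42 (.c (nat_lit 2699) l74 (.c (nat_lit 2578) l74 (.c (nat_lit 2577) l1 (.c (nat_lit 2732) l239 (.c (nat_lit 2732) l251 (.c (nat_lit 2675) l70 (.c (nat_lit 2708) l112 u2_145))))))))))))))))))))))))))))))))))))))))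
noncomputable def u2_147 : St := (.c (nat_lit 2264) l74 (.c (nat_lit 2355) l74 (.c (nat_lit 2447) l74 (.c (nat_lit 2680) l74 (.c (nat_lit 2559) l108 (.c (nat_lit 2559) l74 (.c (nat_lit 2602) l74 (.c (nat_lit 2544) l52 (.c (nat_lit 1530) l74 (.c (nat_lit 2214) l108 (.c (nat_lit 2680) l108 (.c (nat_lit 814) l42 (.c (nat_lit 2447) l108 (.c (nat_lit 2498) l53 (.c (nat_lit 2675) l108 (.c (nat_lit 2674) l78 .e))))))))))))))))
noncomputable def u2_148 : St := (.c (nat_lit 2722) l67 (.c (nat_lit 2327) l42 (.c (nat_lit 2671) l74 (.c (nat_lit 2511) l42 (.c (nat_lit 2677) l64 (.c (nat_lit 2444) l141 (.c (nat_lit 2488) l52 (.c (nat_lit 2706) l100 (.c (nat_lit 2375) l1 (.c (nat_lit 2715) l100 (.c (nat_lit 2104) l42 (.c (nat_lit 2014) l42 (.c (nat_lit 2708) l117 (.c (nat_lit 2392) l42 (.c (nat_lit 1886) l42 (.c (nat_lit 1843) l42 (.c (nat_lit 2682) l116 (.c (nat_lit 2048) l42 (.c (nat_lit 2669)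 l64 (.c (nat_lit 2667) l97 (.c (nat_lit 1909) l42 (.c (nat_lit 2262) l52 (.c (nat_lit 2689) l79 (.c (nat_lit 2624) l141 (.c (nat_lit 2579) l50 (.c (nat_lit 2435) l50 (.c (nat_lit 2434) l50 (.c (nat_lit 2682) l114 (.c (nat_lit 2462) l141 (.c (nat_lit 2462) l65 (.c (nat_lit 1158) l50 (.c (nat_lit 2608) l53 (.c (nat_lit 2732) l165 .e)))))))))))))))))))))))))))))))))
noncomputable def u2_149 : St := (.c (nat_lit 2707) l53 (.c (nat_lit 2723) l74 (.c (nat_lit 2703) l53 (.c (nat_lit 2667) l65 (.c (nat_lit 2732) l237 (.c (nat_lit 2558) l141 (.c (nat_lit 2730) l115 (.c (nat_lit 2706) l70 (.c (nat_lit 2676) l53 (.c (nat_lit 2732) l113 (.c (nat_lit 2451) l42 (.c (nat_lit 2577) l1 (.c (nat_lit 2732) l239 (.c (nat_lit 2667) l267 (.c (nat_lit 2209) l42 (.c (nat_lit 2669) l104 (.c (nat_lit 2732) l238 (.c (nat_lit 2577) l69 (.c (nat_lit 2729) l160 (.c (nat_lit 2184) l42 (.c (nat_lit 2465) l42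 (.c (nat_lit 2721) l104 (.c (nat_lit 2424) l1 (.c (nat_lit 2704) l104 (.c (nat_lit 2348) l42 (.c (nat_lit 2592) l207 (.c (nat_lit 2669) l100 (.c (nat_lit 2704) l79 (.c (nat_lit 2432) l42 (.c (nat_lit 2707) l104 (.c (nat_lit 2178) l42 (.c (nat_lit 2723) l108 (.c (nat_lit 2601) l141 (.c (nat_lit 2710) l117 (.c (nat_lit 2702) l141 (.c (nat_lit 2245) l42 (.c (nat_lit 2670) l50 (.c (nat_lit 1862) l65 (.c (nat_lit 2708) l100 (.c (nat_lit 2668) l100 u2_148))))))))))))))))))))))))))))))))))))))))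
noncomputable def u2_150 : St := (.c (nat_lit 2502) l108 (.c (nat_lit 2293) l74 (.c (nat_lit 2705) l74 (.c (nat_lit 2712) l74 (.c (nat_lit 2681) l53 (.c (nat_lit 2668) l74 (.c (nat_lit 2730) l108 (.c (nat_lit 2730) l231 (.c (nat_lit 2705) l108 (.c (nat_lit 2730) l236 (.c (nat_lit 1855) l74 (.c (nat_lit 2503) l52 (.c (nat_lit 2685) l114 (.c (nat_lit 2685) l116 (.c (nat_lit 2730) l279 (.c (nat_lit 2584) l74 (.c (nat_lit 1476) l74 (.c (nat_lit 1530) l74 (.c (nat_lit 2214) l108 (.c (nat_lit 814) l42 (.c (nat_lit 2488) l53 (.c (nat_lit 2190) l42 (.c (nat_lit 2668) l108 .e)))))))))))))))))))))))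
noncomputable def u2_151 : St := (.c (nat_lit 2264) l74 (.c (nat_lit 2355) l74 (.c (nat_lit 2447) l74 (.c (nat_lit 2680) l74 (.c (nat_lit 2559) l108 (.c (nat_lit 2559) l74 (.c (nat_lit 2544) l52 (.c (nat_lit 1530) l74 (.c (nat_lit 2214) l108 (.c (nat_lit 2680) l108 (.c (nat_lit 814) l42 (.c (nat_lit 2447) l108 (.c (nat_lit 2498) l53 (.c (nat_lit 2262) l52 (.c (nat_lit 2675) l160 .e)))))))))))))))
noncomputable def u2_152 : St := (.c (nat_lit 2665) l114 (.c (nat_lit 2732) l164 (.c (nat_lit 2436) l49 (.c (nat_lit 2447) l179 (.c (nat_lit 2503) l52 (.c (nat_lit 2685) l114 (.c (nat_lit 2668) l276 (.c (nat_lit 1891) l52 (.c (nat_lit 2312) l52 (.c (nat_lit 2210) l52 (.c (nat_lit 2708) l100 (.c (nat_lit 2718) l112 (.c (nat_lit 2685) l116 (.c (nat_lit 2688) l160 (.c (nat_lit 2730) l279 (.c (nat_lit 2584) l74 (.c (nat_lit 2705) l231 (.c (nat_lit 1530) l74 (.c (nat_lit 2214) l108 (.c (nat_lit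 814) l42 (.c (nat_lit 2488) l53 (.c (nat_lit 2654) l108 (.c (nat_lit 2712) l108 (.c (nat_lit 2708) l117 (.c (nat_lit 2731) l164 (.c (nat_lit 2652) l160 (.c (nat_lit 2296) l49 (.c (nat_lit 2490) l52 (.c (nat_lit 2681) l160 (.c (nat_lit 2682) l114 (.c (nat_lit 2617) l108 (.c (nat_lit 1541) l42 (.c (nat_lit 2722) l118 .e)))))))))))))))))))))))))))))))))
noncomputable def u2_153 : St := (.c (nat_lit 2502) l108 (.c (nat_lit 1145) l42 (.c (nat_lit 2587) l79 (.c (nat_lit 2732) l169 (.c (nat_lit 2296) l48 (.c (nat_lit 2725) l112 (.c (nat_lit 2194) l160 (.c (nat_lit 2731) l112 (.c (nat_lit 2727) l111 (.c (nat_lit 1207) l42 (.c (nat_lit 2730) l111 (.c (nat_lit 2732) l237 (.c (nat_lit 2726) l110 (.c (nat_lit 2293) l74 (.c (nat_lit 2705) l74 (.c (nat_lit 2439) l166 (.c (nat_lit 2712) l74 (.c (nat_lit 2665) l74 (.c (nat_lit 2676) l53 (.c (nat_lit 2668) l74 (.c (nat_lit 2447) l74 (.c (nat_lit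 2612) l53 (.c (nat_lit 2706) l108 (.c (nat_lit 2729) l110 (.c (nat_lit 2699) l74 (.c (nat_lit 2643) l53 (.c (nat_lit 2732) l239 (.c (nat_lit 2708) l112 (.c (nat_lit 1900) l42 (.c (nat_lit 2730) l231 (.c (nat_lit 2593) l160 (.c (nat_lit 2654) l53 (.c (nat_lit 2650) l53 (.c (nat_lit 2666) l118 (.c (nat_lit 2439) l110 (.c (nat_lit 2436) l48 (.c (nat_lit 2722) l110 (.c (nat_lit 2705) l108 (.c (nat_lit 2732) l238 (.c (nat_lit 2528) l53 u2_152))))))))))))))))))))))))))))))))))))))))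
noncomputable def u2_154 : St := (.c (nat_lit 2601) l141 (.c (nat_lit 2710) l117 (.c (nat_lit 2702) l141 (.c (nat_lit 2721) l100 (.c (nat_lit 2685) l114 (.c (nat_lit 1862) l65 (.c (nat_lit 2668) l100 (.c (nat_lit 2675) l79 (.c (nat_lit 2634) l53 (.c (nat_lit 2713) l110 (.c (nat_lit 1548) l42 (.c (nat_lit 2731) l203 (.c (nat_lit 2331) l42 (.c (nat_lit 2509) l1 (.c (nat_lit 2671) l74 (.c (nat_lit 2685) l116 (.c (nat_lit 2707) l113 (.c (nat_lit 2725) l116 (.c (nat_lit 2677) l64 (.c (nat_lit 1890) l42 (.c (nat_lit 2444) l141 (.c (nat_lit 2488) l52 (.c (nat_lit 2712) l108 (.c (nat_lit 2706) l100 (.c (nat_lit 2375) l1 (.c (nat_lit 2715) l100 (.c (nat_lit 2392) l42 (.c (nat_lit 1544) l42 (.c (nat_lit 2669) l64 (.c (nat_lit 2708) l110 (.c (nat_lit 2667) l97 (.c (nat_lit 1909) l42 (.c (nat_lit 2262) l52 (.c (nat_lit 2652) l160 (.c (nat_lit 2689) l79 (.c (nat_lit 2725) l100 (.c (nat_lit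 2682) l114 (.c (nat_lit 2462) l141 (.c (nat_lit 2608) l53 (.c (nat_lit 2725) l117 .e))))))))))))))))))))))))))))))))))))))))
noncomputable def u2_155 : St := (.c (nat_lit 2707) l53 (.c (nat_lit 2725) l112 (.c (nat_lit 2723) l74 (.c (nat_lit 2703) l53 (.c (nat_lit 2617) l231 (.c (nat_lit 2667) l65 (.c (nat_lit 2435) l42 (.c (nat_lit 2732) l237 (.c (nat_lit 2558) l141 (.c (nat_lit 2278) l42 (.c (nat_lit 2661) l100 (.c (nat_lit 2721) l70 (.c (nat_lit 2721) l147 (.c (nat_lit 2706) l70 (.c (nat_lit 2712) l74 (.c (nat_lit 2676) l53 (.c (nat_lit 2732) l239 (.c (nat_lit 2231) l42 (.c (nat_lit 2708) l112 (.c (nat_lit 1900) l42 (.c (nat_lit 2667) l267 (.c (nat_lit 2669) l104 (.c (nat_lit 2307) l1 (.c (nat_lit 2732) l238 (.c (nat_lit 2577) l69 (.c (nat_lit 2729) l160 (.c (nat_lit 2203) l42 (.c (nat_lit 2721) l104 (.c (nat_lit 2348) l42 (.c (nat_lit 2725) l167 (.c (nat_lit 2592) l207 (.c (nat_lit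 2669) l100 (.c (nat_lit 2704) l79 (.c (nat_lit 2432) l42 (.c (nat_lit 2311) l42 (.c (nat_lit 2707) l104 (.c (nat_lit 2178) l42 (.c (nat_lit 2713) l112 (.c (nat_lit 2723) l108 (.c (nat_lit 2653) l70 u2_154))))))))))))))))))))))))))))))))))))))))
noncomputable def u2_156 : St := (.c (nat_lit 1476) l74 (.c (nat_lit 2707) l113 (.c (nat_lit 2705) l231 (.c (nat_lit 1530) l74 (.c (nat_lit 2214) l108 (.c (nat_lit 2680) l108 (.c (nat_lit 2705) l78 (.c (nat_lit 814) l42 (.c (nat_lit 2677) l64 (.c (nat_lit 2453) l65 (.c (nat_lit 1890) l42 (.c (nat_lit 2447) l108 (.c (nat_lit 2712) l108 (.c (nat_lit 2375) l1 (.c (nat_lit 2104) l42 (.c (nat_lit 2708) l117 (.c (nat_lit 2392) l42 (.c (nat_lit 2669) l154 (.c (nat_lit 1544) l42 (.c (nat_lit 1843) l42 (.c (nat_lit 2708) l110 (.c (nat_lit 2615) l74 (.c (nat_lit 2498) l53 (.c (nat_lit 2731) l164 (.c (nat_lit 2732) l249 (.c (nat_lit 2675) l108 (.c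 (nat_lit 2579) l50 (.c (nat_lit 2439) l100 (.c (nat_lit 1984) l53 (.c (nat_lit 2296) l49 (.c (nat_lit 2280) l42 (.c (nat_lit 2681) l160 (.c (nat_lit 2274) l42 (.c (nat_lit 2682) l114 (.c (nat_lit 2617) l108 (.c (nat_lit 2732) l243 .e))))))))))))))))))))))))))))))))))))
noncomputable def u2_157 : St := (.c (nat_lit 2606) l160 (.c (nat_lit 2194) l74 (.c (nat_lit 2438) l74 (.c (nat_lit 2732) l164 (.c (nat_lit 2707) l114 (.c (nat_lit 2729) l108 (.c (nat_lit 2489) l42 (.c (nat_lit 2447) l179 (.c (nat_lit 2175) l1 (.c (nat_lit 2732) l250 (.c (nat_lit 2503) l52 (.c (nat_lit 2455) l42 (.c (nat_lit 2604) l52 (.c (nat_lit 2611) l78 (.c (nat_lit 2543) l42 (.c (nat_lit 2685) l114 (.c (nat_lit 2668) l276 (.c (nat_lit 2724) l114 (.c (nat_lit 2487) l42 (.c (nat_lit 2709) l110 (.c (nat_lit 2312) l52 (.c (nat_lit 2210) l52 (.c (nat_lit 2193) l141 (.c (nat_lit 2722) l67 (.c (nat_lit 2327) l42 (.c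 (nat_lit 2713) l110 (.c (nat_lit 2684) l231 (.c (nat_lit 1548) l42 (.c (nat_lit 2499) l42 (.c (nat_lit 2695) l181 (.c (nat_lit 2544) l52 (.c (nat_lit 2331) l42 (.c (nat_lit 2685) l116 (.c (nat_lit 2717) l167 (.c (nat_lit 2511) l42 (.c (nat_lit 2725) l87 (.c (nat_lit 2431) l50 (.c (nat_lit 2730) l279 (.c (nat_lit 2584) l74 (.c (nat_lit 2732) l242 u2_156))))))))))))))))))))))))))))))))))))))))
noncomputable def u2_158 : St := (.c (nat_lit 2578) l74 (.c (nat_lit 2428) l42 (.c (nat_lit 2425) l42 (.c (nat_lit 2717) l112 (.c (nat_lit 2724) l70 (.c (nat_lit 2609) l42 (.c (nat_lit 2732) l251 (.c (nat_lit 2559) l108 (.c (nat_lit 2730) l231 (.c (nat_lit 2593) l160 (.c (nat_lit 2666) l78 (.c (nat_lit 2559) l74 (.c (nat_lit 2439) l110 (.c (nat_lit 2214) l179 (.c (nat_lit 2438) l160 (.c (nat_lit 2676) l50 (.c (nat_lit 2722) l110 (.c (nat_lit 2705) l108 (.c (nat_lit 2730) l63 (.c (nat_lit 2725)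 l118 (.c (nat_lit 2465) l42 (.c (nat_lit 2666) l100 (.c (nat_lit 2203) l42 (.c (nat_lit 2424) l1 (.c (nat_lit 2528) l53 (.c (nat_lit 2348) l42 (.c (nat_lit 2725) l167 (.c (nat_lit 2730) l236 (.c (nat_lit 2283) l42 (.c (nat_lit 2704) l79 (.c (nat_lit 2432) l42 (.c (nat_lit 2665) l114 (.c (nat_lit 2311) l42 (.c (nat_lit 2587) l65 (.c (nat_lit 2178) l42 (.c (nat_lit 2666) l49 (.c (nat_lit 2730) l87 (.c (nat_lit 2476) l42 (.c (nat_lit 2713) l112 (.c (nat_lit 1934) l42 u2_157))))))))))))))))))))))))))))))))))))))))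
noncomputable def u2_159 : St := (.c (nat_lit 2721) l108 (.c (nat_lit 1145) l42 (.c (nat_lit 2587) l79 (.c (nat_lit 2264) l74 (.c (nat_lit 2732) l169 (.c (nat_lit 2587) l70 (.c (nat_lit 2485) l42 (.c (nat_lit 2296) l48 (.c (nat_lit 2355) l74 (.c (nat_lit 2621) l74 (.c (nat_lit 2723) l74 (.c (nat_lit 2708) l118 (.c (nat_lit 1846) l42 (.c (nat_lit 2194) l160 (.c (nat_lit 2724) l112 (.c (nat_lit 2605) l49 (.c (nat_lit 1869) l42 (.c (nat_lit 2724) l81 (.c (nat_lit 2703) l74 (.c (nat_lit 2605) l48 (.c (nat_lit 2731) l112 (.c (nat_lit 2597) l52 (.c (nat_lit 2708) l69 (.c (nat_lit 2727) l111 (.c (nat_lit 2435) l42 (.c (nat_lit 1207) l42 (.c (nat_lit 2726) l110 (.c (nat_lit 2730) l78 (.c (nat_lit 2730) l118 (.c (nat_lit 2586) l207 (.c (nat_lit 2278) l42 (.c (nat_lit 2725) l78 (.c (nat_lit 2705) l74 (.c (nat_lit 2439) l166 (.c (nat_lit 2730) l115 (.c (nat_lit 2708) l78 (.c (nat_lit 2725)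 l63 (.c (nat_lit 2730) l108 (.c (nat_lit 2729) l110 (.c (nat_lit 2680) l74 u2_158))))))))))))))))))))))))))))))))))))))))
noncomputable def u2_160 : St := (.c (nat_lit 2683) l65 (.c (nat_lit 2502) l97 (.c (nat_lit 2684) l160 (.c (nat_lit 1982) l42 (.c (nat_lit 2263) l65 (.c (nat_lit 2334) l65 (.c (nat_lit 2683) l157 (.c (nat_lit 2684) l74 (.c (nat_lit 1260) l42 (.c (nat_lit 2544) l49 (.c (nat_lit 2544) l52 (.c (nat_lit 2002) l42 (.c (nat_lit 2213) l65 (.c (nat_lit 2684) l108 (.c (nat_lit 2544) l48 (.c (nat_lit 2203) l50 (.c (nat_lit 2203) l65 .e)))))))))))))))))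
noncomputable def s2_28 : Ss := (.s (.c (nat_lit 2274) l42 .e) .e)

noncomputable def s2_27 : Ss := (.s (.c (nat_lit 2593) l231 .e) (.s (.c (nat_lit 2669) l166 .e) (.s u2_149 (.s (.c (nat_lit 2436) l48 (.c (nat_lit 2436) l49 (.c (nat_lit 2705) l160 .e))) (.s u2_150 (.s u2_151 (.s u2_153 (.s u2_155 (.s u2_159 (.s (.c (nat_lit 2671) l53 (.c (nat_lit 2689) l79 (.c (nat_lit 2608) l53 .e))) (.s (.c (nat_lit 2204) l49 .e) (.s (.c (nat_lit 1892) l65 .e) (.s (.c (nat_lit 1529) l65 (.c (nat_lit 1158) l50 .e)) (.s (.c (nat_lit 2624) l141 (.c (nat_lit 2462) l65 .e)) (.s (.c (nat_lit 2180) l50 .e) (.s (.c (nat_lit 2213) l65 (.c (nat_lit 2207) l65 .e)) (.s u2_160 (.s (.c (nat_lit 2624) l141 (.c (nat_lit 2599) l50 (.c (nat_lit 2599) l65 .e))) (.s (.c (nat_lit 2636) l49 .e) (.s (.c (nat_lit 2443) l49 .e) (.s (.c (nat_lit 1541) l42 .e) (.s (.c (nat_lit 2601) l141 (.c (nat_lit 2462) l141 .e)) (.s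 (.c (nat_lit 1207) l42 (.c (nat_lit 2488) l53 (.c (nat_lit 2682) l114 (.c (nat_lit 2617) l108 .e)))) (.s (.c (nat_lit 2682) l114 .e) s2_28))))))))))))))))))))))))

noncomputable def s2_26 : Ss := (.s (.c (nat_lit 1928) l42 .e) (.s (.c (nat_lit 2725) l112 (.c (nat_lit 2666) l78 (.c (nat_lit 2708) l154 (.c (nat_lit 2725) l167 (.c (nat_lit 2673) l69 (.c (nat_lit 2685) l114 (.c (nat_lit 2685) l116 (.c (nat_lit 2725) l116 (.c (nat_lit 2705) l78 (.c (nat_lit 1541) l42 (.c (nat_lit 2674) l78 (.c (nat_lit 2673) l63 .e)))))))))))) (.s (.c (nat_lit 2244) l42 (.c (nat_lit 2732) l301 .e)) (.s (.c (nat_lit 2244) l42 .e) (.s (.c (nat_lit 2707) l79 .e) (.s u2_138 (.s (.c (nat_lit 2617) l231 (.c (nat_lit 2675) l79 (.c (nat_lit 2713) l79 (.c (nat_lit 2713) l80 .e)))) (.s (.c (nat_lit 2190) l42 (.c (nat_lit 2185) l42 .e)) (.s (.c (nat_lit 2436) l69 (.c (nat_lit 2194) l231 (.c (nat_lit 2587) l74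 (.c (nat_lit 2587) l179 (.c (nat_lit 2214) l179 (.c (nat_lit 2436) l48 (.c (nat_lit 2194) l74 (.c (nat_lit 2436) l49 (.c (nat_lit 2705) l231 (.c (nat_lit 1503) l65 (.c (nat_lit 2436) l63 .e))))))))))) (.s (.c (nat_lit 2652) l160 (.c (nat_lit 2697) l79 .e)) (.s (.c (nat_lit 2615) l53 .e) (.s u2_142 (.s u2_146 (.s u2_147 (.s (.c (nat_lit 2694) l74 (.c (nat_lit 2644) l52 (.c (nat_lit 2727) l108 (.c (nat_lit 2539) l53 (.c (nat_lit 2351) l53 (.c (nat_lit 2727) l236 .e)))))) s2_27)))))))))))))))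

noncomputable def s2_25 : Ss := (.s u2_135 (.s (.c (nat_lit 2353) l52 .e) (.s (.c (nat_lit 1886) l50 .e) (.s (.c (nat_lit 2280) l42 (.c (nat_lit 2274) l42 (.c (nat_lit 2271) l42 .e))) (.s (.c (nat_lit 2068) l42 .e) (.s (.c (nat_lit 1295) l42 .e) (.s (.c (nat_lit 2700) l81 .e) (.s (.c (nat_lit 2673) l49 (.c (nat_lit 2722) l67 (.c (nat_lit 2705) l52 (.c (nat_lit 2673) l48 .e)))) (.s (.c (nat_lit 1956) l42 .e) (.s (.c (nat_lit 2071) l42 .e) (.s (.c (nat_lit 2483) l74 .e) (.s (.c (nat_lit 1207) l42 (.c (nat_lit 2488) l53 (.c (nat_lit 1541) l42 (.c (nat_lit 2675) l179 .e)))) (.s (.c (nat_lit 2496) l74 (.c (nat_lit 2476) l53 .e)) (.s (.c (nat_lit 2496) l74 (.c (nat_lit 2475) l53 .e)) (.s (.c (nat_lit 2496) l74 .e) (.s (.c (nat_lit 2615) l53 (.c (nat_lit 2602) l53 .e)) (.s (.c (nat_lit 1710) l42 .e) (.s (.c (nat_lit 2130) l42 .e) (.s (.c (nat_lit 2705) l52 .e) (.s (.c (nat_lit 2618)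 l70 (.c (nat_lit 2681) l70 .e)) (.s (.c (nat_lit 2707) l114 (.c (nat_lit 2710) l117 (.c (nat_lit 2245) l42 (.c (nat_lit 2709) l110 (.c (nat_lit 2677) l64 (.c (nat_lit 2707) l79 (.c (nat_lit 2244) l42 (.c (nat_lit 2732) l301 (.c (nat_lit 2677) l100 .e))))))))) s2_26)))))))))))))))))))))

noncomputable def s2_24 : Ss := (.s u2_131 (.s (.c (nat_lit 2637) l52 (.c (nat_lit 2717) l167 (.c (nat_lit 2636) l69 (.c (nat_lit 2565) l52 (.c (nat_lit 2636) l63 .e))))) (.s (.c (nat_lit 2699) l74 (.c (nat_lit 2312) l52 (.c (nat_lit 2654) l108 (.c (nat_lit 2353) l52 (.c (nat_lit 2312) l48 .e))))) (.s u2_132 (.s (.c (nat_lit 2565) l52 .e) (.s (.c (nat_lit 1158) l42 .e) (.s (.c (nat_lit 488) l42 .e) (.s (.c (nat_lit 2488) l52 (.c (nat_lit 2262) l52 (.c (nat_lit 2353) l52 (.c (nat_lit 2477) l52 .e)))) (.s u2_133 (.s (.c (nat_lit 2592) l49 (.c (nat_lit 2592) l48 .e)) (.s (.c (nat_lit 1888) l42 (.c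 (nat_lit 1871) l42 .e)) (.s (.c (nat_lit 2624) l207 .e) (.s (.c (nat_lit 1588) l42 .e) (.s (.c (nat_lit 2453) l65 (.c (nat_lit 2586) l141 .e)) (.s (.c (nat_lit 2299) l74 .e) (.s (.c (nat_lit 2691) l110 .e) (.s (.c (nat_lit 1229) l42 .e) (.s (.c (nat_lit 1748) l42 .e) (.s (.c (nat_lit 2705) l52 (.c (nat_lit 1956) l42 (.c (nat_lit 2708) l73 .e))) (.s (.c (nat_lit 2719) l49 (.c (nat_lit 2558) l141 (.c (nat_lit 2654) l42 (.c (nat_lit 2719) l48 (.c (nat_lit 2728) l73 (.c (nat_lit 2444) l141 (.c (nat_lit 2375) l1 (.c (nat_lit 2392) l42 (.c (nat_lit 2728) l226 .e))))))))) s2_25))))))))))))))))))))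

noncomputable def s2_23 : Ss := (.s (.c (nat_lit 1848) l42 .e) (.s (.c (nat_lit 1522) l42 (.c (nat_lit 1886) l42 (.c (nat_lit 2669) l154 (.c (nat_lit 1504) l42 (.c (nat_lit 2669) l64 (.c (nat_lit 2130) l42 (.c (nat_lit 1502) l42 (.c (nat_lit 1883) l42 .e)))))))) (.s (.c (nat_lit 2128) l42 .e) (.s (.c (nat_lit 2124) l42 .e) (.s (.c (nat_lit 2111) l42 .e) (.s (.c (nat_lit 1811) l42 .e) (.s (.c (nat_lit 2543) l53 .e) (.s u2_130 (.s (.c (nat_lit 1148) l42 .e) (.s (.c (nat_lit 2104) l42 (.c (nat_lit 2669) l154 (.c (nat_lit 1544) l42 (.c (nat_lit 2669) l64 (.c (nat_lit 1909) l42 (.c (nat_lit 1748) l42 (.c (nat_lit 1229) l42 (.c (nat_lit 1871) l42 (.c (nat_lit 2686) l70 (.c (nat_lit 1502) l42 .e)))))))))) (.s (.c (nat_lit 1909) l42 (.c (nat_lit 1907) l42 .e)) (.s (.c (nat_lit 1544) l42 (.c (nat_lit 1843) l42 (.c (nat_lit 1909) l42 (.c (nat_lit 1229) l42 (.c (nat_lit 2686) l70 .e)))))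 (.s (.c (nat_lit 1229) l42 (.c (nat_lit 1965) l42 .e)) (.s (.c (nat_lit 1842) l42 .e) (.s (.c (nat_lit 1530) l74 (.c (nat_lit 1893) l74 .e)) (.s (.c (nat_lit 2404) l74 (.c (nat_lit 2351) l53 (.c (nat_lit 2351) l74 .e))) (.s (.c (nat_lit 2185) l48 (.c (nat_lit 2204) l52 (.c (nat_lit 2312) l52 (.c (nat_lit 2353) l52 (.c (nat_lit 2312) l48 (.c (nat_lit 2204) l48 .e)))))) s2_24)))))))))))))))))

noncomputable def s2_22 : Ss := (.s u2_128 (.s (.c (nat_lit 2614) l65 (.c (nat_lit 2624) l141 (.c (nat_lit 2599) l50 (.c (nat_lit 2491) l65 (.c (nat_lit 2599) l65 (.c (nat_lit 2624) l207 (.c (nat_lit 2685) l104 .e))))))) (.s (.c (nat_lit 2180) l50 (.c (nat_lit 2451) l50 .e)) (.s (.c (nat_lit 2209) l50 (.c (nat_lit 2203) l50 (.c (nat_lit 2184) l50 .e))) (.s (.c (nat_lit 2680) l65 (.c (nat_lit 1942) l42 (.c (nat_lit 2484) l65 (.c (nat_lit 2680) l157 .e)))) (.s (.c (nat_lit 2209) l50 (.c (nat_lit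 2624) l141 (.c (nat_lit 2180) l50 (.c (nat_lit 2462) l65 (.c (nat_lit 1886) l50 (.c (nat_lit 2202) l50 (.c (nat_lit 2231) l50 .e))))))) (.s (.c (nat_lit 2179) l50 .e) (.s (.c (nat_lit 2209) l50 (.c (nat_lit 1886) l50 (.c (nat_lit 2202) l50 .e))) (.s (.c (nat_lit 2483) l74 (.c (nat_lit 2260) l53 .e)) (.s (.c (nat_lit 1877) l69 .e) (.s (.c (nat_lit 2273) l74 .e) (.s (.c (nat_lit 1593) l74 (.c (nat_lit 2493) l110 .e)) (.s (.c (nat_lit 1593) l74 .e) (.s (.c (nat_lit 2276) l74 .e) (.s (.c (nat_lit 2490) l52 (.c (nat_lit 2617) l78 .e)) (.s (.c (nat_lit 2488) l53 (.c (nat_lit 2617) l74 .e)) (.s (.c (nat_lit 2558) l141 (.c (nat_lit 2558) l65 (.c (nat_lit 2113) l65 (.c (nat_lit 1377) l50 (.c (nat_lit 2558) l152 .e))))) s2_23)))))))))))))))))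

noncomputable def s2_21 : Ss := (.s u2_125 (.s (.c (nat_lit 2492) l160 (.c (nat_lit 2682) l63 (.c (nat_lit 2490) l63 (.c (nat_lit 2682) l114 (.c (nat_lit 1593) l74 (.c (nat_lit 2493) l110 (.c (nat_lit 2273) l74 (.c (nat_lit 1873) l50 (.c (nat_lit 1849) l50 (.c (nat_lit 2682) l87 .e)))))))))) (.s (.c (nat_lit 2281) l207 (.c (nat_lit 2618) l157 (.c (nat_lit 2281) l65 .e))) (.s (.c (nat_lit 2618) l97 .e) (.s (.c (nat_lit 2513) l65 (.c (nat_lit 2525) l50 (.c (nat_lit 2694) l207 .e))) (.s (.c (nat_lit 2561) l50 .e) (.s (.c (nat_lit 1849) l50 .e) (.s (.c (nat_lit 2732) l223 (.c (nat_lit 2732) l225 (.c (nat_lit 2732) l215 (.c (nat_lit 2617) l97 (.c (nat_lit 2617) l152 (.c (nat_lit 1610) l65 (.c (nat_lit 2732) l219 .e))))))) (.s u2_126 (.s (.c (nat_lit 2732) l225 (.c (nat_lit 2617) l65 (.c (nat_lit 1934) l42 (.c (nat_lit 2732) l215 (.c (nat_lit 2679) l110 (.c (nat_lit 2709) l110 (.c (nat_lit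 2709) l106 (.c (nat_lit 2617) l152 (.c (nat_lit 1964) l65 .e))))))))) (.s (.c (nat_lit 1610) l65 .e) (.s (.c (nat_lit 1873) l50 .e) (.s (.c (nat_lit 2281) l207 (.c (nat_lit 2618) l157 .e)) (.s u2_127 (.s (.c (nat_lit 2263) l65 (.c (nat_lit 2231) l65 (.c (nat_lit 2334) l65 (.c (nat_lit 2110) l65 (.c (nat_lit 2180) l50 (.c (nat_lit 1892) l65 (.c (nat_lit 2231) l50 (.c (nat_lit 2180) l65 .e)))))))) s2_22)))))))))))))))

noncomputable def s2_20 : Ss := (.s u2_111 (.s (.c (nat_lit 2381) l50 .e) (.s (.c (nat_lit 1599) l42 .e) (.s (.c (nat_lit 2384) l65 .e) (.s (.c (nat_lit 1570) l42 (.c (nat_lit 1482) l42 .e)) (.s (.c (nat_lit 1956) l42 (.c (nat_lit 1588) l42 (.c (nat_lit 1949) l42 (.c (nat_lit 1953) l42 .e)))) (.s (.c (nat_lit 2617) l160 .e) (.s u2_112 (.s (.c (nat_lit 2696) l70 (.c (nat_lit 2311) l50 .e)) (.s (.c (nat_lit 2696) l70 .e) (.s (.c (nat_lit 2705) l52 (.c (nat_lit 1956)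 l42 (.c (nat_lit 2708) l73 (.c (nat_lit 1588) l42 (.c (nat_lit 1949) l42 .e))))) (.s u2_113 (.s (.c (nat_lit 2453) l65 (.c (nat_lit 2186) l50 .e)) (.s (.c (nat_lit 1640) l42 .e) (.s (.c (nat_lit 2685) l176 .e) (.s (.c (nat_lit 1909) l50 .e) (.s (.c (nat_lit 1570) l42 .e) (.s (.c (nat_lit 2587) l65 (.c (nat_lit 2281) l207 (.c (nat_lit 2189) l65 (.c (nat_lit 1886) l50 (.c (nat_lit 2618) l157 (.c (nat_lit 2281) l65 (.c (nat_lit 2587) l157 .e))))))) (.s (.c (nat_lit 2277) l1 .e) (.s u2_114 (.s u2_117 (.s u2_124 s2_21))))))))))))))))))))))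

noncomputable def s2_19 : Ss := (.s (.c (nat_lit 2566) l70 (.c (nat_lit 2011) l50 .e)) (.s (.c (nat_lit 2453) l65 (.c (nat_lit 2453) l50 .e)) (.s (.c (nat_lit 2273) l74 (.c (nat_lit 1959) l74 .e)) (.s (.c (nat_lit 1570) l42 (.c (nat_lit 1540) l42 .e)) (.s (.c (nat_lit 2566) l70 .e) (.s (.c (nat_lit 2660) l70 .e) (.s (.c (nat_lit 2004) l42 .e) (.s (.c (nat_lit 2513) l65 (.c (nat_lit 2525) l50 (.c (nat_lit 2694) l207 (.c (nat_lit 2696) l70 (.c (nat_lit 2311) l50 (.c (nat_lit 2693) l70 (.c (nat_lit 2103) l50 (.c (nat_lit 2698) l105 .e)))))))) (.s (.c (nat_lit 2397) l50 .e) (.s (.c (nat_lit 2503) l114 .e) (.s (.c (nat_lit 2286) l1 .e) (.s (.c (nat_lit 2103) l50 .e) (.s (.c (nat_lit 2693) l70 .e) (.s (.c (nat_lit 2682) l48 (.c (nat_lit 2682) l63 (.c (nat_lit 2490) l63 (.c (nat_lit 2490) l48 (.c (nat_lit 1873) l50 (.c (nat_lit 1849) l50 (.c (nat_lit 2682) l87 (.c (nat_lit 2682) l136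 .e)))))))) (.s u2_108 (.s (.c (nat_lit 2587) l65 (.c (nat_lit 2281) l207 (.c (nat_lit 2189) l65 (.c (nat_lit 1886) l50 (.c (nat_lit 2624) l207 (.c (nat_lit 2618) l157 (.c (nat_lit 2281) l65 (.c (nat_lit 2587) l157 (.c (nat_lit 2685) l147 .e))))))))) (.s u2_110 s2_20)))))))))))))))))

noncomputable def s2_18 : Ss := (.s (.c (nat_lit 1961) l74 (.c (nat_lit 2267) l74 .e)) (.s u2_103 (.s (.c (nat_lit 1986) l74 .e) (.s (.c (nat_lit 2624) l108 .e) (.s u2_104 (.s (.c (nat_lit 2275) l74 .e) (.s (.c (nat_lit 2617) l231 (.c (nat_lit 2278) l42 (.c (nat_lit 2712) l74 (.c (nat_lit 2488) l53 (.c (nat_lit 2490) l52 (.c (nat_lit 1229) l42 (.c (nat_lit 1965) l42 (.c (nat_lit 2617) l74 (.c (nat_lit 2617) l78 (.c (nat_lit 1593) l74 (.c (nat_lit 2503) l114 (.c (nat_lit 2712) l179 .e)))))))))))) (.s (.c (nat_lit 1207) l42 (.c (nat_lit 1909) l42 (.c (nat_lit 1541) l42 (.c (nat_lit 2675) l179 (.c (nat_lit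 2299) l74 (.c (nat_lit 1907) l42 (.c (nat_lit 2260) l53 (.c (nat_lit 2301) l53 (.c (nat_lit 2488) l74 .e))))))))) (.s (.c (nat_lit 2299) l74 (.c (nat_lit 2301) l53 .e)) (.s (.c (nat_lit 2501) l74 .e) (.s (.c (nat_lit 2299) l74 (.c (nat_lit 2181) l53 .e)) (.s (.c (nat_lit 2063) l42 (.c (nat_lit 2068) l42 (.c (nat_lit 2629) l1 .e))) (.s (.c (nat_lit 2193) l141 (.c (nat_lit 2453) l65 (.c (nat_lit 2186) l50 (.c (nat_lit 2453) l50 (.c (nat_lit 2186) l65 .e))))) (.s (.c (nat_lit 1876) l50 .e) (.s (.c (nat_lit 2216) l50 .e) (.s (.c (nat_lit 2566) l70 (.c (nat_lit 1497) l50 .e)) s2_19))))))))))))))))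

noncomputable def s2_17 : Ss := (.s u2_102 (.s (.c (nat_lit 2483) l74 (.c (nat_lit 2260) l74 .e)) (.s (.c (nat_lit 2503) l69 (.c (nat_lit 2503) l107 .e)) (.s (.c (nat_lit 2413) l74 .e) (.s (.c (nat_lit 2400) l53 .e) (.s (.c (nat_lit 2048) l42 (.c (nat_lit 2626) l70 .e)) (.s (.c (nat_lit 1508) l65 .e) (.s (.c (nat_lit 2390) l207 (.c (nat_lit 1878) l65 .e)) (.s (.c (nat_lit 2390) l207 .e) (.s (.c (nat_lit 1192) l42 .e) (.s (.c (nat_lit 1336) l42 .e) (.s (.c (nat_lit 1435) l42 .e) (.s (.c (nat_lit 1526) l42 .e) (.s (.c (nat_lit 2503) l114 (.c (nat_lit 1959) l74 (.c (nat_lit 1986) l74 (.c (nat_lit 2282) l160 .e)))) (.s (.c (nat_lit 1991) l181 .e) (.s (.c (nat_lit 2265) l79 .e) (.s (.c (nat_lit 2281) l141 .e) (.s (.c (nat_lit 2725) l237 (.c (nat_lit 1961) l74 (.c (nat_lit 2681) l104 (.c (nat_lit 2681) l113 .e)))) (.s (.c (nat_lit 1991) l118 .e) (.s (.c (nat_lit 2282) l74 .e) (.s (.c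 (nat_lit 1593) l74 (.c (nat_lit 2493) l110 (.c (nat_lit 2493) l114 .e))) (.s (.c (nat_lit 2617) l231 (.c (nat_lit 2682) l114 (.c (nat_lit 2273) l74 (.c (nat_lit 2503) l114 (.c (nat_lit 1986) l74 (.c (nat_lit 2682) l110 .e)))))) s2_18))))))))))))))))))))))

noncomputable def s2_16 : Ss := (.s (.c (nat_lit 2213) l69 (.c (nat_lit 778) l50 (.c (nat_lit 1891) l107 .e))) (.s (.c (nat_lit 1129) l50 (.c (nat_lit 1745) l50 (.c (nat_lit 1127) l50 .e))) (.s (.c (nat_lit 778) l50 .e) (.s (.c (nat_lit 2300) l70 (.c (nat_lit 1745) l50 .e)) (.s (.c (nat_lit 2416) l70 .e) (.s (.c (nat_lit 2300) l70 (.c (nat_lit 1129) l50 (.c (nat_lit 1140) l50 .e))) (.s (.c (nat_lit 2300) l70 (.c (nat_lit 1129) l50 .e)) (.s (.c (nat_lit 2300) l70 .e) (.s (.c (nat_lit 1512) l50 (.c (nat_lit 1492) l50 .e)) (.s (.c (nat_lit 2423) l74 (.c (nat_lit 2423) l108 .e)) (.s (.c (nat_lit 2103) l50 (.c (nat_lit 2104) l50 .e))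 (.s (.c (nat_lit 2066) l42 .e) (.s (.c (nat_lit 2407) l42 .e) (.s (.c (nat_lit 2700) l79 .e) (.s (.c (nat_lit 1281) l42 .e) (.s (.c (nat_lit 2658) l70 .e) (.s (.c (nat_lit 1609) l42 .e) (.s (.c (nat_lit 2152) l42 .e) (.s (.c (nat_lit 2699) l74 (.c (nat_lit 2312) l52 (.c (nat_lit 2654) l108 (.c (nat_lit 1811) l42 (.c (nat_lit 2124) l42 (.c (nat_lit 2128) l42 (.c (nat_lit 2701) l112 .e))))))) (.s (.c (nat_lit 2700) l81 (.c (nat_lit 2696) l70 (.c (nat_lit 2696) l81 .e))) (.s (.c (nat_lit 1942) l53 .e) s2_17)))))))))))))))))))))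

noncomputable def s2_15 : Ss := (.s (.c (nat_lit 2300) l79 .e) (.s (.c (nat_lit 1603) l42 .e) (.s (.c (nat_lit 2644) l114 .e) (.s (.c (nat_lit 2700) l70 .e) (.s (.c (nat_lit 1583) l42 .e) (.s (.c (nat_lit 2618) l108 .e) (.s u2_101 (.s (.c (nat_lit 1158) l42 (.c (nat_lit 1848) l42 (.c (nat_lit 1336) l42 (.c (nat_lit 1192) l42 (.c (nat_lit 2066) l42 (.c (nat_lit 2259) l2 .e)))))) (.s (.c (nat_lit 2262) l52 (.c (nat_lit 2483) l78 .e)) (.s (.c (nat_lit 2624) l49 .e) (.s (.c (nat_lit 2625) l78 (.c (nat_lit 2306) l108 (.c (nat_lit 2625) l118 .e))) (.s (.c (nat_lit 2306) l108 (.c (nat_lit 2007) l74 .e)) (.s (.c (nat_lit 1295) l42 (.c (nat_lit 1920) l42 .e)) (.s (.c (nat_lit 2102) l42 .e) (.s (.c (nat_lit 2214) l70 .e) (.s (.c (nat_lit 802) l42 .e) (.s (.c (nat_lit 1862) l65 (.c (nat_lit 2193) l141 (.c (nat_lit 2453) l65 (.c (nat_lit 2186) l50 (.c (nat_lit 2453) l50 (.c (nat_lit 2011)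 l50 (.c (nat_lit 1497) l50 (.c (nat_lit 2186) l65 (.c (nat_lit 2448) l104 .e))))))))) (.s (.c (nat_lit 1825) l42 (.c (nat_lit 2090) l42 .e)) (.s (.c (nat_lit 1758) l42 .e) (.s (.c (nat_lit 2306) l108 .e) (.s (.c (nat_lit 2204) l49 (.c (nat_lit 1891) l159 .e)) s2_16)))))))))))))))))))))

noncomputable def s2_14 : Ss := (.s u2_97 (.s (.c (nat_lit 2213) l69 (.c (nat_lit 2216) l50 (.c (nat_lit 2300) l70 (.c (nat_lit 1129) l50 (.c (nat_lit 1745) l50 (.c (nat_lit 778) l50 (.c (nat_lit 1127) l50 (.c (nat_lit 1891) l107 (.c (nat_lit 2214) l70 (.c (nat_lit 2308) l50 (.c (nat_lit 2643) l104 .e))))))))))) (.s (.c (nat_lit 2688) l65 (.c (nat_lit 2525) l50 (.c (nat_lit 2068) l42 (.c (nat_lit 2102) l42 (.c (nat_lit 2308) l50 (.c (nat_lit 2688) l97 .e)))))) (.s (.c (nat_lit 2512) l49 .e) (.s (.c (nat_lit 2104) l42 (.c (nat_lit 1748) l42 (.c (nat_lit 2111) l42 (.c (nat_lit 2653) l79 (.c (nat_lit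 2094) l42 .e))))) (.s (.c (nat_lit 2503) l114 (.c (nat_lit 1959) l74 (.c (nat_lit 1986) l74 (.c (nat_lit 2282) l160 (.c (nat_lit 2300) l79 (.c (nat_lit 2289) l53 .e)))))) (.s (.c (nat_lit 2542) l70 .e) (.s (.c (nat_lit 2213) l69 (.c (nat_lit 1512) l50 (.c (nat_lit 2216) l50 (.c (nat_lit 1492) l50 (.c (nat_lit 2300) l70 (.c (nat_lit 1129) l50 (.c (nat_lit 1140) l50 (.c (nat_lit 778) l50 (.c (nat_lit 1891) l107 (.c (nat_lit 2214) l70 (.c (nat_lit 2308) l50 .e))))))))))) (.s (.c (nat_lit 1507) l42 .e) (.s (.c (nat_lit 1245) l42 .e) (.s (.c (nat_lit 1387) l42 .e) (.s (.c (nat_lit 2653) l79 .e) (.s (.c (nat_lit 2728) l73 (.c (nat_lit 2407) l42 (.c (nat_lit 2728) l250 .e))) s2_15)))))))))))))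

noncomputable def s2_13 : Ss := (.s (.c (nat_lit 1640) l42 (.c (nat_lit 1648) l42 .e)) (.s (.c (nat_lit 1275) l42 .e) (.s (.c (nat_lit 2000) l42 (.c (nat_lit 2685) l176 (.c (nat_lit 1640) l42 (.c (nat_lit 2004) l42 (.c (nat_lit 1281) l42 (.c (nat_lit 1997) l42 .e)))))) (.s (.c (nat_lit 1652) l42 .e) (.s u2_95 (.s (.c (nat_lit 2002) l42 (.c (nat_lit 1945) l42 .e)) (.s (.c (nat_lit 2156) l42 (.c (nat_lit 2154) l42 .e)) (.s (.c (nat_lit 2002) l42 (.c (nat_lit 1990) l42 .e)) (.s (.c (nat_lit 2130) l42 (.c (nat_lit 2004) l42 (.c (nat_lit 1281) l42 (.c (nat_lit 2102) l42 (.c (nat_lit 2156) l42 (.c (nat_lit 1883) l1 .e)))))) (.s (.c (nat_lit 1243) l42 (.c (nat_lit 1968) l42 .e)) (.s (.c (nat_lit 1600) l42 .e) (.s (.c (nat_lit 2700) l79 (.c (nat_lit 1583) l42 (.c (nat_lit 2696) l79 .e))) (.s (.c (nat_lit 2002) l42 (.c (nat_lit 1243) l42 (.c (nat_lit 1940) l42 .e))) (.s (.c (nat_lit 1243)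 l42 .e) (.s u2_96 (.s (.c (nat_lit 2564) l49 .e) (.s (.c (nat_lit 2156) l42 .e) (.s (.c (nat_lit 2441) l50 (.c (nat_lit 2590) l65 .e)) (.s (.c (nat_lit 2443) l49 (.c (nat_lit 2624) l49 (.c (nat_lit 2434) l49 .e))) s2_14)))))))))))))))))))

noncomputable def s2_12 : Ss := (.s (.c (nat_lit 1952) l53 .e) (.s (.c (nat_lit 2623) l117 (.c (nat_lit 2503) l114 (.c (nat_lit 1959) l74 (.c (nat_lit 2282) l160 (.c (nat_lit 2300) l79 (.c (nat_lit 2496) l160 .e)))))) (.s (.c (nat_lit 1570) l42 (.c (nat_lit 2503) l114 (.c (nat_lit 1959) l74 (.c (nat_lit 1986) l74 (.c (nat_lit 2265) l79 (.c (nat_lit 2282) l160 (.c (nat_lit 2300) l79 (.c (nat_lit 2289) l53 (.c (nat_lit 2484) l79 .e))))))))) (.s (.c (nat_lit 2273) l74 (.c (nat_lit 2503) l114 (.c (nat_lit 1959) l74 (.c (nat_lit 1986) l74 (.c (nat_lit 2282) l160 (.c (nat_lit 2618) l108 (.c (nat_lit 2300) l79 (.c (nat_lit 2289) l53 (.c (nat_lit 2489)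 l74 .e))))))))) (.s (.c (nat_lit 1524) l74 (.c (nat_lit 2210) l52 (.c (nat_lit 1377) l50 (.c (nat_lit 1893) l74 (.c (nat_lit 1877) l69 (.c (nat_lit 1508) l65 (.c (nat_lit 1877) l63 .e))))))) (.s (.c (nat_lit 2512) l49 (.c (nat_lit 2628) l69 .e)) (.s (.c (nat_lit 1615) l42 .e) (.s (.c (nat_lit 1652) l42 (.c (nat_lit 1632) l42 .e)) (.s (.c (nat_lit 1713) l42 .e) (.s (.c (nat_lit 1702) l42 .e) (.s u2_92 (.s (.c (nat_lit 1808) l42 .e) (.s (.c (nat_lit 2166) l42 .e) (.s (.c (nat_lit 1951) l42 .e) (.s u2_93 (.s u2_94 s2_13))))))))))))))))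

noncomputable def s2_11 : Ss := (.s (.c (nat_lit 1323) l42 .e) (.s (.c (nat_lit 1540) l42 (.c (nat_lit 1538) l42 .e)) (.s (.c (nat_lit 1512) l50 (.c (nat_lit 1497) l50 (.c (nat_lit 1492) l50 (.c (nat_lit 1140) l50 (.c (nat_lit 1127) l50 (.c (nat_lit 2643) l70 (.c (nat_lit 2638) l70 .e))))))) (.s (.c (nat_lit 2071) l42 (.c (nat_lit 1570) l42 (.c (nat_lit 2058) l42 .e))) (.s (.c (nat_lit 2213) l69 (.c (nat_lit 2216) l50 (.c (nat_lit 2300) l70 (.c (nat_lit 1129) l50 (.c (nat_lit 1745) l50 (.c (nat_lit 778) l50 (.c (nat_lit 1127) l50 (.c (nat_lit 1891) l107 (.c (nat_lit 2214) l70 (.c (nat_lit 2308) l50 (.c (nat_lit 2643) l70 .e))))))))))) (.s (.c (nat_lit 2542) l79 .e) (.s (.c (nat_lit 1581) l2 .e) (.s (.c (nat_lit 2484) l70 .e) (.s u2_88 (.s (.c (nat_lit 1426) l42 .e) (.s (.c (nat_lit 1647) l53 (.c (nat_lit 2646) l80 .e)) (.s (.c (nat_lit 1743) l42 .e) (.s (.c (nat_lit 1717) l42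 .e) (.s (.c (nat_lit 1647) l53 .e) (.s (.c (nat_lit 2573) l114 .e) (.s (.c (nat_lit 2004) l53 .e) (.s (.c (nat_lit 1952) l53 (.c (nat_lit 2492) l74 .e)) (.s u2_91 (.s (.c (nat_lit 1593) l74 (.c (nat_lit 2282) l231 .e)) s2_12)))))))))))))))))))

noncomputable def s2_10 : Ss := (.s (.c (nat_lit 1869) l1 .e) (.s (.c (nat_lit 2276) l74 (.c (nat_lit 1952) l53 (.c (nat_lit 1581) l2 (.c (nat_lit 2273) l53 (.c (nat_lit 2618) l179 .e))))) (.s (.c (nat_lit 1245) l42 (.c (nat_lit 1235) l42 (.c (nat_lit 1661) l1 .e))) (.s (.c (nat_lit 2416) l79 .e) (.s (.c (nat_lit 1235) l42 .e) (.s (.c (nat_lit 2653) l79 (.c (nat_lit 2651) l79 .e)) (.s (.c (nat_lit 1647) l53 (.c (nat_lit 2646) l80 (.c (nat_lit 2273) l53 (.c (nat_lit 1618) l53 .e)))) (.s (.c (nat_lit 1813) l42 .e) (.s (.c (nat_lit 2273) l53 (.c (nat_lit 2078) l53 .e)) (.s (.c (nat_lit 2273) l53 .e) (.s u2_63 (.s (.c (nat_lit 1611) l42 .e)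 (.s u2_64 (.s (.c (nat_lit 2155) l53 (.c (nat_lit 2415) l74 .e)) (.s (.c (nat_lit 1989) l53 .e) (.s (.c (nat_lit 2155) l53 .e) (.s u2_65 (.s u2_74 (.s u2_79 (.s u2_84 (.s u2_85 (.s (.c (nat_lit 2652) l160 (.c (nat_lit 2273) l74 (.c (nat_lit 2503) l114 (.c (nat_lit 1959) l74 (.c (nat_lit 1986) l74 (.c (nat_lit 2282) l160 (.c (nat_lit 2400) l53 (.c (nat_lit 2618) l108 (.c (nat_lit 2300) l79 (.c (nat_lit 2289) l53 (.c (nat_lit 2489) l74 (.c (nat_lit 2562) l53 .e)))))))))))) s2_11))))))))))))))))))))))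

noncomputable def s2_9 : Ss := (.s (.c (nat_lit 2092) l42 .e) (.s (.c (nat_lit 2558) l141 (.c (nat_lit 2558) l65 (.c (nat_lit 2113) l65 (.c (nat_lit 1377) l50 (.c (nat_lit 2558) l152 (.c (nat_lit 2390) l207 (.c (nat_lit 1878) l65 (.c (nat_lit 2208) l97 .e)))))))) (.s (.c (nat_lit 802) l42 (.c (nat_lit 1652) l42 (.c (nat_lit 1632) l42 (.c (nat_lit 1813) l42 (.c (nat_lit 1470) l1 .e))))) (.s (.c (nat_lit 2390) l207 (.c (nat_lit 2390) l141 .e)) (.s (.c (nat_lit 2100) l50 (.c (nat_lit 2572) l65 (.c (nat_lit 2417) l50 .e))) (.s (.c (nat_lit 1277) l42 .e) (.s (.c (nat_lit 1275) l50 .e) (.s (.c (nat_lit 1749) l42 .e) (.s (.c (nat_lit 2697) l70 (.c (nat_lit 2697) l104 .e)) (.s u2_49 (.s (.c (nat_lit 2111) l42 (.c (nat_lit 2101) l42 .e)) (.s u2_61 (.s (.c (nat_lit 1544) l42 (.c (nat_lit 1229) l42 (.c (nat_lit 2276) l74 (.c (nat_lit 1952) l53 (.c (nat_lit 1581) l2 (.c (nat_lit 2273) l53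 (.c (nat_lit 2618) l179 (.c (nat_lit 1508) l1 .e)))))))) (.s (.c (nat_lit 2379) l1 .e) (.s (.c (nat_lit 1640) l42 (.c (nat_lit 1609) l42 (.c (nat_lit 1648) l42 (.c (nat_lit 1611) l42 (.c (nat_lit 1869) l1 (.c (nat_lit 1529) l1 .e)))))) (.s (.c (nat_lit 2625) l231 (.c (nat_lit 2685) l114 (.c (nat_lit 2685) l176 (.c (nat_lit 1632) l42 (.c (nat_lit 2685) l110 .e))))) s2_10))))))))))))))))

noncomputable def s2_8 : Ss := (.s (.c (nat_lit 989) l42 (.c (nat_lit 1135) l1 .e)) (.s (.c (nat_lit 1575) l42 .e) (.s (.c (nat_lit 2296) l52 .e) (.s (.c (nat_lit 817) l42 .e) (.s (.c (nat_lit 1751) l42 .e) (.s (.c (nat_lit 989) l42 .e) (.s (.c (nat_lit 1702) l42 (.c (nat_lit 1323) l42 (.c (nat_lit 1700) l42 (.c (nat_lit 1693) l42 .e)))) (.s (.c (nat_lit 896) l42 (.c (nat_lit 1199) l42 (.c (nat_lit 856) l42 (.c (nat_lit 1239) l42 (.c (nat_lit 1270) l42 (.c (nat_lit 1167) l1 .e)))))) (.s (.c (nat_lit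 1270) l42 .e) (.s (.c (nat_lit 1702) l42 (.c (nat_lit 1708) l42 (.c (nat_lit 1700) l42 .e))) (.s (.c (nat_lit 2623) l117 (.c (nat_lit 2503) l114 (.c (nat_lit 1959) l74 (.c (nat_lit 2282) l160 (.c (nat_lit 2300) l79 (.c (nat_lit 2484) l79 (.c (nat_lit 1647) l53 (.c (nat_lit 2273) l53 (.c (nat_lit 1708) l42 (.c (nat_lit 896) l42 (.c (nat_lit 2613) l114 .e))))))))))) (.s (.c (nat_lit 1275) l50 (.c (nat_lit 1650) l65 .e)) (.s (.c (nat_lit 1239) l42 .e) (.s (.c (nat_lit 856) l42 .e) (.s (.c (nat_lit 896) l42 (.c (nat_lit 1199) l42 .e)) (.s (.c (nat_lit 896) l42 .e) (.s u2_48 (.s (.c (nat_lit 2660) l79 .e) (.s (.c (nat_lit 1708) l42 .e) s2_9)))))))))))))))))))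

noncomputable def s2_7 : Ss := (.s (.c (nat_lit 2503) l63 (.c (nat_lit 2503) l69 (.c (nat_lit 1377) l50 (.c (nat_lit 2503) l107 (.c (nat_lit 2299) l78 (.c (nat_lit 1135) l50 (.c (nat_lit 2503) l91 (.c (nat_lit 1966) l63 .e)))))))) (.s (.c (nat_lit 2573) l48 (.c (nat_lit 2573) l140 .e)) (.s (.c (nat_lit 1966) l48 .e) (.s (.c (nat_lit 994) l50 .e) (.s (.c (nat_lit 1377) l50 (.c (nat_lit 2208) l157 .e)) (.s (.c (nat_lit 2558) l141 (.c (nat_lit 2558) l65 (.c (nat_lit 2113) l65 (.c (nat_lit 1377) l50 (.c (nat_lit 2558) l152 (.c (nat_lit 2390) l207 (.c (nat_lit 2390) l141 (.c (nat_lit 2560) l104 .e)))))))) (.s (.c (nat_lit 2503) l63 (.c (nat_lit 2503) l69 (.c (nat_lit 2503) l107 (.c (nat_lit 2299) l78 (.c (nat_lit 2503) l91 .e))))) (.s (.c (nat_lit 1377) l50 (.c (nat_lit 1135) l50 .e)) (.s (.c (nat_lit 790) l42 .e) (.s u2_36 (.s (.c (nat_lit 786) l1 .e) (.s u2_37 (.s u2_38 (.s u2_39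 (.s u2_40 (.s (.c (nat_lit 2299) l78 .e) (.s (.c (nat_lit 989) l42 (.c (nat_lit 1135) l1 (.c (nat_lit 2515) l1 (.c (nat_lit 1137) l42 .e)))) (.s (.c (nat_lit 989) l42 (.c (nat_lit 1135) l1 (.c (nat_lit 2515) l1 .e))) s2_8))))))))))))))))))

noncomputable def s2_6 : Ss := (.s (.c (nat_lit 1713) l42 (.c (nat_lit 2379) l1 (.c (nat_lit 2138) l1 .e))) (.s u2_34 (.s (.c (nat_lit 2720) l97 (.c (nat_lit 2700) l97 (.c (nat_lit 2656) l97 (.c (nat_lit 2561) l50 (.c (nat_lit 2154) l42 (.c (nat_lit 2166) l42 (.c (nat_lit 2699) l65 .e))))))) (.s (.c (nat_lit 2204) l49 (.c (nat_lit 2185) l49 .e)) (.s (.c (nat_lit 2300) l108 .e) (.s (.c (nat_lit 2301) l53 (.c (nat_lit 2504) l74 .e)) (.s (.c (nat_lit 1002) l42 .e) (.s (.c (nat_lit 911) l42 (.c (nat_lit 1272) l42 (.c (nat_lit 572) l42 (.c (nat_lit 833) l42 (.c (nat_lit 2484) l179 .e))))) (.s (.c (nat_lit 833) l42 .e) (.s (.c (nat_lit 2313) l1 (.c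 (nat_lit 1763) l42 (.c (nat_lit 2113) l42 (.c (nat_lit 2048) l42 (.c (nat_lit 1710) l42 (.c (nat_lit 2626) l70 (.c (nat_lit 1758) l42 (.c (nat_lit 1743) l42 (.c (nat_lit 1426) l42 (.c (nat_lit 1135) l1 (.c (nat_lit 2313) l42 .e))))))))))) (.s (.c (nat_lit 572) l42 .e) (.s (.c (nat_lit 911) l42 (.c (nat_lit 1272) l42 .e)) (.s (.c (nat_lit 1396) l42 .e) (.s (.c (nat_lit 645) l1 .e) (.s (.c (nat_lit 911) l42 .e) (.s u2_35 (.s (.c (nat_lit 2558) l141 (.c (nat_lit 2558) l65 (.c (nat_lit 2113) l65 (.c (nat_lit 2558) l152 (.c (nat_lit 2390) l207 (.c (nat_lit 1426) l42 (.c (nat_lit 2390) l141 (.c (nat_lit 2560) l104 (.c (nat_lit 2208) l157 (.c (nat_lit 1368) l42 .e)))))))))) s2_7)))))))))))))))))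

noncomputable def s2_5 : Ss := (.s (.c (nat_lit 2644) l114 (.c (nat_lit 1702) l42 (.c (nat_lit 2646) l80 (.c (nat_lit 1323) l42 (.c (nat_lit 2273) l53 (.c (nat_lit 1618) l53 (.c (nat_lit 2416) l79 (.c (nat_lit 1700) l42 (.c (nat_lit 1693) l42 (.c (nat_lit 2358) l53 (.c (nat_lit 1424) l42 .e))))))))))) (.s (.c (nat_lit 871) l42 .e) (.s u2_31 (.s u2_32 (.s (.c (nat_lit 1593) l74 (.c (nat_lit 2644) l114 (.c (nat_lit 2282) l231 (.c (nat_lit 2573) l114 (.c (nat_lit 1647) l53 (.c (nat_lit 2542) l79 (.c (nat_lit 2416) l79 (.c (nat_lit 2358) l53 (.c (nat_lit 1040) l42 (.c (nat_lit 1410) l42 (.c (nat_lit 2255) l53 .e))))))))))) (.s (.c (nat_lit 536) l42 .e) (.s (.c (nat_lit 2200) l1 .e) (.s (.c (nat_lit 1655) l65 .e) (.s (.c (nat_lit 1275) l50 (.c (nat_lit 1644) l50 .e)) (.s (.c (nat_lit 1040) l42 (.c (nat_lit 1410) l42 .e)) (.s (.c (nat_lit 1040) l42 .e) (.s u2_33 (.s (.c (nat_lit 1179)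 l42 .e) (.s (.c (nat_lit 2502) l108 (.c (nat_lit 2293) l74 (.c (nat_lit 2300) l108 (.c (nat_lit 2270) l74 .e)))) (.s (.c (nat_lit 1435) l42 (.c (nat_lit 1728) l42 .e)) (.s (.c (nat_lit 2644) l114 (.c (nat_lit 1702) l42 (.c (nat_lit 2646) l80 (.c (nat_lit 1323) l42 (.c (nat_lit 2273) l53 (.c (nat_lit 1618) l53 (.c (nat_lit 2416) l79 (.c (nat_lit 1700) l42 (.c (nat_lit 1693) l42 (.c (nat_lit 2358) l53 .e)))))))))) s2_6))))))))))))))))

noncomputable def s2_4 : Ss := (.s (.c (nat_lit 2557) l49 .e) (.s u2_29 (.s u2_30 (.s (.c (nat_lit 2100) l50 (.c (nat_lit 2573) l49 (.c (nat_lit 2422) l65 (.c (nat_lit 2660) l157 (.c (nat_lit 2573) l69 .e))))) (.s (.c (nat_lit 2385) l50 (.c (nat_lit 2660) l97 (.c (nat_lit 2100) l50 (.c (nat_lit 2567) l50 (.c (nat_lit 2566) l50 (.c (nat_lit 2422) l65 (.c (nat_lit 2385) l65 (.c (nat_lit 2660) l157 (.c (nat_lit 2566) l65 (.c (nat_lit 2417) l50 (.c (nat_lit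 2534) l50 .e))))))))))) (.s (.c (nat_lit 2556) l50 (.c (nat_lit 2422) l65 (.c (nat_lit 2571) l65 (.c (nat_lit 2652) l65 .e)))) (.s (.c (nat_lit 2655) l49 (.c (nat_lit 2567) l50 (.c (nat_lit 2417) l50 (.c (nat_lit 2655) l69 .e)))) (.s (.c (nat_lit 2571) l65 .e) (.s (.c (nat_lit 2624) l65 (.c (nat_lit 2624) l141 (.c (nat_lit 1640) l42 (.c (nat_lit 1609) l42 (.c (nat_lit 1648) l42 (.c (nat_lit 1611) l42 (.c (nat_lit 1529) l1 (.c (nat_lit 1410) l42 (.c (nat_lit 2624) l97 .e))))))))) (.s (.c (nat_lit 2506) l78 (.c (nat_lit 2700) l79 (.c (nat_lit 2506) l118 (.c (nat_lit 2700) l114 .e)))) (.s (.c (nat_lit 1298) l53 .e) (.s (.c (nat_lit 2506) l78 (.c (nat_lit 2506) l118 .e)) (.s (.c (nat_lit 2642) l79 .e) (.s (.c (nat_lit 572) l42 (.c (nat_lit 992) l1 .e)) s2_5))))))))))))))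

noncomputable def s2_3 : Ss := (.s (.c (nat_lit 2296) l49 (.c (nat_lit 1650) l65 (.c (nat_lit 1644) l50 (.c (nat_lit 2353) l49 (.c (nat_lit 2501) l69 (.c (nat_lit 2499) l49 .e)))))) (.s (.c (nat_lit 2353) l49 (.c (nat_lit 2005) l49 .e)) (.s (.c (nat_lit 2296) l49 (.c (nat_lit 1275) l50 (.c (nat_lit 1644) l50 (.c (nat_lit 1655) l65 (.c (nat_lit 2353) l49 (.c (nat_lit 2501) l69 .e)))))) (.s (.c (nat_lit 1341) l42 .e) (.s (.c (nat_lit 915) l42 .e) (.s (.c (nat_lit 2680) l65 (.c (nat_lit 1942) l42 (.c (nat_lit 2680) l97 (.c (nat_lit 1940) l42 (.c (nat_lit 1945) l42 (.c (nat_lit 2680) l141 .e)))))) (.s (.c (nat_lit 2143) l42 .e) (.s (.c (nat_lit 786) l1 (.c (nat_lit 645) l1 (.c (nat_lit 572) l42 (.c (nat_lit 784) l1 .e)))) (.s (.c (nat_lit 989) l42 (.c (nat_lit 645) l1 (.c (nat_lit 1396) l42 (.c (nat_lit 572) l42 (.c (nat_lit 992) l1 (.c (nat_lit 1377) l1 .e)))))) (.s (.c (nat_lit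 2353) l49 .e) (.s u2_23 (.s u2_25 (.s (.c (nat_lit 2416) l65 .e) (.s u2_27 (.s u2_28 (.s (.c (nat_lit 2655) l49 (.c (nat_lit 2660) l97 (.c (nat_lit 2100) l50 (.c (nat_lit 2567) l50 (.c (nat_lit 2566) l50 (.c (nat_lit 2572) l65 (.c (nat_lit 2660) l157 (.c (nat_lit 2566) l65 (.c (nat_lit 2417) l50 (.c (nat_lit 2655) l69 (.c (nat_lit 2574) l65 .e))))))))))) s2_4))))))))))))))))

noncomputable def s2_2 : Ss := (.s (.c (nat_lit 2341) l50 .e) (.s (.c (nat_lit 2624) l65 (.c (nat_lit 2624) l141 (.c (nat_lit 1640) l42 (.c (nat_lit 1609) l42 (.c (nat_lit 1648) l42 (.c (nat_lit 1611) l42 (.c (nat_lit 1529) l1 (.c (nat_lit 2185) l49 (.c (nat_lit 1410) l42 (.c (nat_lit 2624) l97 (.c (nat_lit 1891) l49 .e))))))))))) (.s u2_12 (.s (.c (nat_lit 2209) l50 (.c (nat_lit 2207) l65 (.c (nat_lit 1876) l50 (.c (nat_lit 2446) l65 .e)))) (.s u2_17 (.s u2_19 (.s (.c (nat_lit 2232) l49 .e) (.s (.c (nat_lit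 2546) l74 .e) (.s (.c (nat_lit 2506) l78 (.c (nat_lit 2306) l108 (.c (nat_lit 2007) l74 (.c (nat_lit 1650) l65 (.c (nat_lit 2506) l118 (.c (nat_lit 2005) l48 (.c (nat_lit 2005) l63 .e))))))) (.s (.c (nat_lit 2005) l49 (.c (nat_lit 2005) l48 .e)) (.s u2_20 (.s u2_21 (.s (.c (nat_lit 1947) l74 .e) (.s (.c (nat_lit 1796) l42 .e) (.s (.c (nat_lit 2423) l74 (.c (nat_lit 2423) l108 (.c (nat_lit 2576) l114 .e))) (.s (.c (nat_lit 2718) l68 (.c (nat_lit 2731) l202 (.c (nat_lit 2544) l49 (.c (nat_lit 2718) l73 (.c (nat_lit 2718) l110 (.c (nat_lit 2718) l106 (.c (nat_lit 1275) l50 (.c (nat_lit 1644) l50 (.c (nat_lit 1655) l65 (.c (nat_lit 2501) l69 (.c (nat_lit 2005) l49 (.c (nat_lit 1991) l49 .e)))))))))))) s2_3))))))))))))))))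

noncomputable def s2_1 : Ss := (.s (.c (nat_lit 1984) l53 (.c (nat_lit 2501) l74 (.c (nat_lit 2501) l108 .e))) (.s (.c (nat_lit 1435) l42 (.c (nat_lit 1433) l42 .e)) (.s u2_4 (.s (.c (nat_lit 2484) l65 (.c (nat_lit 2484) l97 .e)) (.s (.c (nat_lit 2624) l65 (.c (nat_lit 2624) l141 (.c (nat_lit 1640) l42 (.c (nat_lit 1609) l42 (.c (nat_lit 1648) l42 (.c (nat_lit 1611) l42 (.c (nat_lit 1529) l1 (.c (nat_lit 1410) l42 (.c (nat_lit 2624) l97 (.c (nat_lit 2210) l49 .e)))))))))) (.s (.c (nat_lit 2443) l49 (.c (nat_lit 2204) l49 (.c (nat_lit 2185) l49 (.c (nat_lit 2232) l49 (.c (nat_lit 2495) l49 (.c (nat_lit 2312) l49 .e)))))) (.s (.c (nat_lit 2443) l49 (.c (nat_lit 2353) l52 (.c (nat_lit 2353) l49 (.c (nat_lit 2005) l49 (.c (nat_lit 1796) l42 (.c (nat_lit 2005) l48 (.c (nat_lit 2232) l49 (.c (nat_lit 2495) l49 (.c (nat_lit 2353) l48 (.c (nat_lit 2656) l141 .e)))))))))) (.s u2_5 (.s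 u2_8 (.s (.c (nat_lit 2353) l52 (.c (nat_lit 2353) l49 (.c (nat_lit 2005) l49 (.c (nat_lit 2005) l48 (.c (nat_lit 2353) l48 .e))))) (.s (.c (nat_lit 2443) l49 (.c (nat_lit 2232) l49 (.c (nat_lit 2495) l49 .e))) (.s (.c (nat_lit 1298) l53 (.c (nat_lit 1656) l74 .e)) (.s (.c (nat_lit 1892) l65 (.c (nat_lit 1890) l65 .e)) s2_2)))))))))))))

noncomputable def s2_0 : Ss := (.s (.c (nat_lit 2110) l50 (.c (nat_lit 2020) l50 .e)) (.s (.c (nat_lit 2148) l53 .e) (.s (.c (nat_lit 2419) l74 .e) (.s (.c (nat_lit 1454) l42 .e) (.s u2_0 (.s u2_1 (.s (.c (nat_lit 2660) l97 (.c (nat_lit 2100) l50 (.c (nat_lit 2567) l50 (.c (nat_lit 2572) l65 (.c (nat_lit 1275) l50 (.c (nat_lit 1644) l50 (.c (nat_lit 2574) l65 (.c (nat_lit 2659) l69 (.c (nat_lit 2701) l107 .e))))))))) (.s (.c (nat_lit 2573) l69 (.c (nat_lit 2659) l69 .e)) (.s (.c (nat_lit 2544) l52 (.c (nat_lit 2262) l52 (.c (nat_lit 2483) l78 (.c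 (nat_lit 1947) l74 (.c (nat_lit 2362) l53 (.c (nat_lit 2544) l78 .e)))))) (.s (.c (nat_lit 2362) l53 .e) (.s (.c (nat_lit 579) l42 .e) (.s (.c (nat_lit 1155) l1 .e) (.s u2_2 (.s (.c (nat_lit 2503) l49 (.c (nat_lit 2618) l97 (.c (nat_lit 1609) l42 (.c (nat_lit 1611) l42 (.c (nat_lit 2503) l159 (.c (nat_lit 2618) l141 .e)))))) (.s (.c (nat_lit 2341) l50 (.c (nat_lit 2538) l65 .e)) (.s u2_3 (.s (.c (nat_lit 2624) l65 (.c (nat_lit 2503) l49 (.c (nat_lit 2624) l141 (.c (nat_lit 1640) l42 (.c (nat_lit 1609) l42 (.c (nat_lit 1648) l42 (.c (nat_lit 1611) l42 (.c (nat_lit 1529) l1 (.c (nat_lit 1410) l42 (.c (nat_lit 2624) l97 (.c (nat_lit 2503) l159 .e))))))))))) s2_1)))))))))))))))))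

end Pool.Agent.L3E.RM.M
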