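import Pool.Agent.L3E.RM.DatL

set_option autoImplicit false
set_option maxRecDepth 100000
set_option linter.all false

namespace Pool.Agent.L3E.RM.M

open Pool.Agent.L3E.RMG Pool.Agent.L3E.RM

noncomputable def u3_0 : St := (.c (nat_lit 2732) l225 (.c (nat_lit 2680) l65 (.c (nat_lit 2617) l65 (.c (nat_lit 2694) l49 (.c (nat_lit 2694) l69 (.c (nat_lit 2711) l104 (.c (nat_lit 2695) l78 (.c (nat_lit 2718) l114 (.c (nat_lit 2694) l48 (.c (nat_lit 2065) l42 (.c (nat_lit 1934) l42 (.c (nat_lit 2644) l69 (.c (nat_lit 2727) l100 (.c (nat_lit 2732) l215 (.c (nat_lit 2434) l65 (.c (nat_lit 2443) l65 (.c (nat_lit 2679) l110 (.c (nat_lit 2441) l50 (.c (nat_lit 2709) l110 (.c (nat_lit 2718) l110 (.c (nat_lit 2712) l141 (.c (nat_lit 2670) l65 (.c (nat_lit 2696) l100 (.c (nat_lit 2725) l100 (.c (nat_lit 2695) l63 (.c (nat_lit 2680) l97 (.c (nat_lit 2579) l50 (.c (nat_lit 2694) l141 (.c (nat_lit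 1529) l65 (.c (nat_lit 2586) l65 (.c (nat_lit 2709) l106 (.c (nat_lit 2280) l42 (.c (nat_lit 2617) l152 (.c (nat_lit 2583) l65 .e))))))))))))))))))))))))))))))))))
noncomputable def u3_1 : St := (.c (nat_lit 2587) l70 (.c (nat_lit 2436) l69 (.c (nat_lit 1487) l65 (.c (nat_lit 2586) l207 (.c (nat_lit 2194) l231 (.c (nat_lit 2587) l74 (.c (nat_lit 2666) l52 (.c (nat_lit 2666) l181 (.c (nat_lit 2587) l179 (.c (nat_lit 2666) l78 (.c (nat_lit 2666) l118 (.c (nat_lit 2214) l179 (.c (nat_lit 2436) l48 (.c (nat_lit 2666) l48 (.c (nat_lit 2666) l91 (.c (nat_lit 2666) l104 (.c (nat_lit 2194) l74 (.c (nat_lit 2601) l141 (.c (nat_lit 2436) l49 (.c (nat_lit 2666) l136 (.c (nat_lit 2213) l69 (.c (nat_lit 2586) l152 (.c (nat_lit 2193) l141 (.c (nat_lit 2705) l231 (.c (nat_lit 2586) l65 (.c (nat_lit 2666) l87 .e))))))))))))))))))))))))))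
noncomputable def u3_2 : St := (.c (nat_lit 2673) l49 (.c (nat_lit 2434) l65 (.c (nat_lit 2666) l136 (.c (nat_lit 2213) l69 (.c (nat_lit 2443) l65 (.c (nat_lit 2501) l65 (.c (nat_lit 2732) l146 (.c (nat_lit 2707) l70 (.c (nat_lit 2710) l160 (.c (nat_lit 2487) l42 (.c (nat_lit 2679) l110 (.c (nat_lit 2708) l106 (.c (nat_lit 2586) l152 (.c (nat_lit 2193) l141 (.c (nat_lit 2708) l100 (.c (nat_lit 2713) l110 (.c (nat_lit 2259) l42 (.c (nat_lit 1548) l42 (.c (nat_lit 2499) l42 (.c (nat_lit 2712) l141 (.c (nat_lit 2209) l50 (.c (nat_lit 2002) l42 (.c (nat_lit 2350) l42 (.c (nat_lit 2363) l42 (.c (nat_lit 2677) l64 (.c (nat_lit 1503) l65 (.c (nat_lit 2670) l65 (.c (nat_lit 2708) l110 (.c (nat_lit 2623) l117 (.c (nat_lit 2689) l79 (.c (nat_lit 2725) l100 (.c (nat_lit 2428) l50 (.c (nat_lit 2525) l50 (.c (nat_lit 2586) l65 (.c (nat_lit 2729) l211 .e)))))))))))))))))))))))))))))))))))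
noncomputable def u3_3 : St := (.c (nat_lit 2587) l79 (.c (nat_lit 1857) l42 (.c (nat_lit 1846) l42 (.c (nat_lit 2729) l97 (.c (nat_lit 2194) l160 (.c (nat_lit 1487) l65 (.c (nat_lit 2723) l65 (.c (nat_lit 2732) l145 (.c (nat_lit 2707) l50 (.c (nat_lit 2732) l102 (.c (nat_lit 2722) l101 (.c (nat_lit 1982) l42 (.c (nat_lit 2724) l97 (.c (nat_lit 2705) l65 (.c (nat_lit 2439) l166 (.c (nat_lit 2666) l52 (.c (nat_lit 2666) l181 (.c (nat_lit 2270) l42 (.c (nat_lit 2439) l110 (.c (nat_lit 2438) l160 (.c (nat_lit 2676) l50 (.c (nat_lit 2666) l48 (.c (nat_lit 2666) l104 (.c (nat_lit 2713) l106 (.c (nat_lit 2665) l102 (.c (nat_lit 2666) l49 (.c (nat_lit 2724) l102 (.c (nat_lit 2666) l101 (.c (nat_lit 2476) l42 (.c (nat_lit 2709) l97 (.c (nat_lit 2606) l160 (.c (nat_lit 2707) l114 (.c (nat_lit 2352) l42 (.c (nat_lit 2730) l97 (.c (nat_lit 2710) l117 (.c (nat_lit 2730) l141 (.c (nat_lit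 2261) l42 (.c (nat_lit 2732) l101 (.c (nat_lit 2254) l42 (.c (nat_lit 2175) l1 u3_2))))))))))))))))))))))))))))))))))))))))
noncomputable def u3_4 : St := (.c (nat_lit 2708) l117 (.c (nat_lit 2708) l110 (.c (nat_lit 2498) l53 (.c (nat_lit 2731) l164 (.c (nat_lit 2614) l65 (.c (nat_lit 2579) l50 (.c (nat_lit 2725) l107 (.c (nat_lit 2731) l146 (.c (nat_lit 2729) l102 .e)))))))))
noncomputable def u3_5 : St := (.c (nat_lit 2707) l114 (.c (nat_lit 2352) l42 (.c (nat_lit 2489) l42 (.c (nat_lit 2447) l179 (.c (nat_lit 2731) l102 (.c (nat_lit 2732) l215 (.c (nat_lit 2254) l42 (.c (nat_lit 2175) l1 (.c (nat_lit 2556) l50 (.c (nat_lit 2503) l52 (.c (nat_lit 2443) l65 (.c (nat_lit 2543) l42 (.c (nat_lit 2385) l50 (.c (nat_lit 2685) l114 (.c (nat_lit 2668) l276 (.c (nat_lit 2732) l146 (.c (nat_lit 2708) l106 (.c (nat_lit 2193) l141 (.c (nat_lit 2708) l100 (.c (nat_lit 2722) l67 (.c (nat_lit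 2634) l53 (.c (nat_lit 1548) l42 (.c (nat_lit 2712) l141 (.c (nat_lit 2718) l112 (.c (nat_lit 2685) l116 (.c (nat_lit 2209) l50 (.c (nat_lit 2583) l50 (.c (nat_lit 2688) l160 (.c (nat_lit 2493) l104 (.c (nat_lit 2713) l97 (.c (nat_lit 2659) l97 (.c (nat_lit 2431) l50 (.c (nat_lit 2730) l279 (.c (nat_lit 2705) l231 (.c (nat_lit 2705) l78 (.c (nat_lit 814) l42 (.c (nat_lit 2453) l65 (.c (nat_lit 2190) l42 (.c (nat_lit 2654) l108 (.c (nat_lit 2712) l108 u3_4))))))))))))))))))))))))))))))))))))))))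
noncomputable def u3_6 : St := (.c (nat_lit 2502) l108 (.c (nat_lit 1145) l42 (.c (nat_lit 2732) l169 (.c (nat_lit 2732) l225 (.c (nat_lit 2683) l65 (.c (nat_lit 2721) l102 (.c (nat_lit 2725) l112 (.c (nat_lit 2732) l102 (.c (nat_lit 2731) l112 (.c (nat_lit 2727) l111 (.c (nat_lit 2730) l111 (.c (nat_lit 2732) l237 (.c (nat_lit 2726) l110 (.c (nat_lit 2278) l42 (.c (nat_lit 2293) l74 (.c (nat_lit 2705) l74 (.c (nat_lit 2712) l74 (.c (nat_lit 2681) l53 (.c (nat_lit 2447) l74 (.c (nat_lit 2729) l110 (.c (nat_lit 2699) l74 (.c (nat_lit 2732) l239 (.c (nat_lit 2659) l65 (.c (nat_lit 2708) l112 (.c (nat_lit 1900) l42 (.c (nat_lit 2581) l50 (.c (nat_lit 2730) l231 (.c (nat_lit 2593) l160 (.c (nat_lit 2666) l78 (.c (nat_lit 2676) l50 (.c (nat_lit 2681) l65 (.c (nat_lit 2722) l110 (.c (nat_lit 2705) l108 (.c (nat_lit 2732) l238 (.c (nat_lit 2528) l53 (.c (nat_lit 2638) l50 (.c (nat_lit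 2682) l69 (.c (nat_lit 2476) l42 (.c (nat_lit 1934) l42 (.c (nat_lit 2732) l164 u3_5))))))))))))))))))))))))))))))))))))))))
noncomputable def u3_7 : St := (.c (nat_lit 2581) l50 (.c (nat_lit 2730) l157 (.c (nat_lit 2676) l50 (.c (nat_lit 2638) l50 (.c (nat_lit 2730) l97 (.c (nat_lit 2556) l50 (.c (nat_lit 2000) l42 (.c (nat_lit 2385) l50 (.c (nat_lit 2441) l50 (.c (nat_lit 2429) l50 (.c (nat_lit 2712) l69 (.c (nat_lit 2712) l141 (.c (nat_lit 2209) l50 (.c (nat_lit 2493) l104 (.c (nat_lit 2431) l50 (.c (nat_lit 2730) l152 (.c (nat_lit 2633) l50 (.c (nat_lit 2579) l50 (.c (nat_lit 2725) l107 .e)))))))))))))))))))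
noncomputable def u3_8 : St := (.c (nat_lit 2729) l266 .e)
noncomputable def u3_9 : St := (.c (nat_lit 2261) l42 (.c (nat_lit 2732) l101 (.c (nat_lit 2254) l42 (.c (nat_lit 2175) l1 (.c (nat_lit 2673) l49 (.c (nat_lit 2448) l49 (.c (nat_lit 2193) l65 (.c (nat_lit 2434) l65 (.c (nat_lit 2666) l136 (.c (nat_lit 2213) l69 (.c (nat_lit 2443) l65 (.c (nat_lit 2501) l65 (.c (nat_lit 2732) l146 (.c (nat_lit 2707) l70 (.c (nat_lit 2710) l160 (.c (nat_lit 2487) l42 (.c (nat_lit 2679) l110 (.c (nat_lit 2708) l106 (.c (nat_lit 2586) l152 (.c (nat_lit 2712) l69 (.c (nat_lit 2193) l141 (.c (nat_lit 2708) l100 (.c (nat_lit 2713) l110 (.c (nat_lit 2259) l42 (.c (nat_lit 1548) l42 (.c (nat_lit 2499) l42 (.c (nat_lit 2712) l141 (.c (nat_lit 2002) l42 (.c (nat_lit 2350) l42 (.c (nat_lit 2363) l42 (.c (nat_lit 2677) l64 (.c (nat_lit 1503) l65 (.c (nat_lit 2670) l65 (.c (nat_lit 2063) l42 (.c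 (nat_lit 2708) l110 (.c (nat_lit 2623) l117 (.c (nat_lit 2689) l79 (.c (nat_lit 2725) l100 (.c (nat_lit 2722) l105 (.c (nat_lit 2614) l65 u3_8))))))))))))))))))))))))))))))))))))))))
noncomputable def u3_10 : St := (.c (nat_lit 2587) l79 (.c (nat_lit 1857) l42 (.c (nat_lit 1846) l42 (.c (nat_lit 2194) l160 (.c (nat_lit 2729) l207 (.c (nat_lit 1487) l65 (.c (nat_lit 2723) l65 (.c (nat_lit 2732) l145 (.c (nat_lit 2707) l50 (.c (nat_lit 2732) l102 (.c (nat_lit 1982) l42 (.c (nat_lit 2665) l50 (.c (nat_lit 2724) l97 (.c (nat_lit 2586) l207 (.c (nat_lit 2439) l166 (.c (nat_lit 2666) l52 (.c (nat_lit 2666) l181 (.c (nat_lit 2270) l42 (.c (nat_lit 2675) l70 (.c (nat_lit 2439) l110 (.c (nat_lit 2438) l160 (.c (nat_lit 2676) l50 (.c (nat_lit 2666) l48 (.c (nat_lit 2666) l104 (.c (nat_lit 2713) l106 (.c (nat_lit 2665) l102 (.c (nat_lit 2587) l65 (.c (nat_lit 2666) l49 (.c (nat_lit 2724)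 l102 (.c (nat_lit 2682) l69 (.c (nat_lit 2666) l101 (.c (nat_lit 2476) l42 (.c (nat_lit 2709) l97 (.c (nat_lit 2606) l160 (.c (nat_lit 2214) l65 (.c (nat_lit 2707) l114 (.c (nat_lit 2352) l42 (.c (nat_lit 2730) l97 (.c (nat_lit 2710) l117 (.c (nat_lit 2730) l141 u3_9))))))))))))))))))))))))))))))))))))))))
noncomputable def u3_11 : St := (.c (nat_lit 2587) l70 (.c (nat_lit 2732) l225 (.c (nat_lit 2732) l102 (.c (nat_lit 2705) l65 (.c (nat_lit 2586) l207 (.c (nat_lit 2192) l42 (.c (nat_lit 2675) l70 (.c (nat_lit 2722) l110 (.c (nat_lit 2708) l154 (.c (nat_lit 2666) l104 (.c (nat_lit 2713) l106 (.c (nat_lit 2724) l102 (.c (nat_lit 2682) l69 (.c (nat_lit 2476) l42 (.c (nat_lit 1934) l42 (.c (nat_lit 2707) l114 (.c (nat_lit 2705) l97 (.c (nat_lit 2489) l42 (.c (nat_lit 2544) l49 (.c (nat_lit 2706) l101 (.c (nat_lit 2732) l215 (.c (nat_lit 2175) l1 (.c (nat_lit 2501) l65 (.c (nat_lit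 2732) l146 (.c (nat_lit 2708) l106 (.c (nat_lit 2429) l50 (.c (nat_lit 2712) l69 (.c (nat_lit 2684) l231 (.c (nat_lit 2695) l181 (.c (nat_lit 2712) l141 (.c (nat_lit 2544) l52 (.c (nat_lit 2363) l42 (.c (nat_lit 1503) l65 (.c (nat_lit 2633) l50 (.c (nat_lit 2544) l48 (.c (nat_lit 2706) l100 (.c (nat_lit 2708) l110 (.c (nat_lit 2689) l79 (.c (nat_lit 2722) l106 .e)))))))))))))))))))))))))))))))))))))))
noncomputable def u3_12 : St := (.c (nat_lit 2636) l69 (.c (nat_lit 2063) l42 (.c (nat_lit 2706) l100 (.c (nat_lit 2715) l100 (.c (nat_lit 2708) l110 (.c (nat_lit 2623) l117 (.c (nat_lit 2689) l79 (.c (nat_lit 2725) l100 (.c (nat_lit 2715) l101 (.c (nat_lit 2722) l105 (.c (nat_lit 2713) l79 (.c (nat_lit 2614) l65 (.c (nat_lit 2624) l141 (.c (nat_lit 2732) l227 .e))))))))))))))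
noncomputable def u3_13 : St := (.c (nat_lit 2730) l141 (.c (nat_lit 2489) l42 (.c (nat_lit 2630) l49 (.c (nat_lit 2732) l101 (.c (nat_lit 2706) l101 (.c (nat_lit 2254) l42 (.c (nat_lit 2175) l1 (.c (nat_lit 2556) l50 (.c (nat_lit 2732) l250 (.c (nat_lit 2673) l69 (.c (nat_lit 2245) l42 (.c (nat_lit 2491) l141 (.c (nat_lit 2193) l65 (.c (nat_lit 2434) l65 (.c (nat_lit 2385) l50 (.c (nat_lit 2715) l64 (.c (nat_lit 2732) l146 (.c (nat_lit 2724) l114 (.c (nat_lit 2679) l110 (.c (nat_lit 2441) l50 (.c (nat_lit 2709) l110 (.c (nat_lit 2586) l152 (.c (nat_lit 1862) l65 (.c (nat_lit 2668) l100 (.c (nat_lit 2722) l67 (.c (nat_lit 2259) l42 (.c (nat_lit 1548) l42 (.c (nat_lit 2712) l141 (.c (nat_lit 2509) l1 (.c (nat_lit 2209) l50 (.c (nat_lit 2583) l50 (.c (nat_lit 2511) l42 (.c (nat_lit 2713) l97 (.c (nat_lit 2659) l97 (.c (nat_lit 2350) l42 (.c (nat_lit 2431) l50 (.c (nat_lit 2363)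 l42 (.c (nat_lit 2453) l65 (.c (nat_lit 2633) l50 (.c (nat_lit 2670) l65 u3_12))))))))))))))))))))))))))))))))))))))))
noncomputable def u3_14 : St := (.c (nat_lit 2716) l65 (.c (nat_lit 2587) l70 (.c (nat_lit 1857) l42 (.c (nat_lit 2732) l225 (.c (nat_lit 2683) l65 (.c (nat_lit 2721) l71 (.c (nat_lit 2452) l42 (.c (nat_lit 2433) l42 (.c (nat_lit 2721) l105 (.c (nat_lit 2732) l145 (.c (nat_lit 2707) l50 (.c (nat_lit 2732) l102 (.c (nat_lit 2722) l101 (.c (nat_lit 1982) l42 (.c (nat_lit 2708) l69 (.c (nat_lit 2732) l156 (.c (nat_lit 2688) l52 (.c (nat_lit 2270) l42 (.c (nat_lit 2721) l70 (.c (nat_lit 2687) l49 (.c (nat_lit 2732) l239 (.c (nat_lit 2730) l107 (.c (nat_lit 2192) l42 (.c (nat_lit 2659) l65 (.c (nat_lit 2581) l50 (.c (nat_lit 2687) l48 (.c (nat_lit 2681) l65 (.c (nat_lit 2333) l42 (.c (nat_lit 2715) l68 (.c (nat_lit 2708) l154 (.c (nat_lit 2666) l100 (.c (nat_lit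 2513) l65 (.c (nat_lit 2721) l104 (.c (nat_lit 2727) l97 (.c (nat_lit 2638) l50 (.c (nat_lit 2476) l42 (.c (nat_lit 1934) l42 (.c (nat_lit 2606) l160 (.c (nat_lit 2352) l42 (.c (nat_lit 2710) l117 u3_13))))))))))))))))))))))))))))))))))))))))
noncomputable def u3_15 : St := (.c (nat_lit 2705) l65 (.c (nat_lit 2586) l207 (.c (nat_lit 2192) l42 (.c (nat_lit 2669) l114 (.c (nat_lit 2587) l65 (.c (nat_lit 2065) l42 (.c (nat_lit 1942) l42 (.c (nat_lit 2193) l65 (.c (nat_lit 2434) l65 (.c (nat_lit 2705) l157 (.c (nat_lit 2443) l65 (.c (nat_lit 2193) l141 (.c (nat_lit 2209) l50 (.c (nat_lit 2669) l102 .e))))))))))))))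
noncomputable def u3_16 : St := (.c (nat_lit 2683) l65 (.c (nat_lit 2722) l101 (.c (nat_lit 2586) l207 (.c (nat_lit 2675) l70 (.c (nat_lit 2659) l65 (.c (nat_lit 2730) l157 (.c (nat_lit 2681) l65 (.c (nat_lit 2730) l97 (.c (nat_lit 2000) l42 (.c (nat_lit 2670) l50 (.c (nat_lit 2712) l141 (.c (nat_lit 2713) l97 (.c (nat_lit 2659) l97 (.c (nat_lit 2730) l152 (.c (nat_lit 2633) l50 (.c (nat_lit 2670) l65 (.c (nat_lit 2725) l100 (.c (nat_lit 2722) l105 .e))))))))))))))))))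
noncomputable def u3_17 : St := (.c (nat_lit 2716) l65 (.c (nat_lit 2688) l52 (.c (nat_lit 2687) l49 (.c (nat_lit 2687) l48 (.c (nat_lit 2333) l42 (.c (nat_lit 2715) l68 (.c (nat_lit 2513) l65 (.c (nat_lit 2718) l114 (.c (nat_lit 2727) l97 (.c (nat_lit 2731) l202 (.c (nat_lit 2724) l110 (.c (nat_lit 2544) l49 (.c (nat_lit 2630) l49 (.c (nat_lit 2611) l78 (.c (nat_lit 2543) l42 (.c (nat_lit 2715) l64 (.c (nat_lit 2724) l79 (.c (nat_lit 2724) l114 (.c (nat_lit 2724) l166 (.c (nat_lit 2731) l244 (.c (nat_lit 2695) l181 (.c (nat_lit 2544) l52 (.c (nat_lit 2509) l1 (.c (nat_lit 2511) l42 (.c (nat_lit 2350) l42 (.c (nat_lit 2633) l50 (.c (nat_lit 2731) l204 (.c (nat_lit 2636) l69 (.c (nat_lit 2544) l48 (.c (nat_lit 2715) l100 (.c (nat_lit 2715) l101 .e)))))))))))))))))))))))))))))))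
noncomputable def u3_18 : St := (.c (nat_lit 2713) l110 (.c (nat_lit 2684) l231 (.c (nat_lit 2499) l42 (.c (nat_lit 2695) l181 (.c (nat_lit 2731) l203 (.c (nat_lit 2718) l112 (.c (nat_lit 2544) l52 (.c (nat_lit 2671) l74 (.c (nat_lit 2685) l116 (.c (nat_lit 2717) l167 (.c (nat_lit 2688) l160 (.c (nat_lit 2725) l87 (.c (nat_lit 2431) l50 (.c (nat_lit 2730) l279 (.c (nat_lit 2584) l74 (.c (nat_lit 2732) l242 (.c (nat_lit 1476) l74 (.c (nat_lit 2705) l231 (.c (nat_lit 1530) l74 (.c (nat_lit 2214) l108 (.c (nat_lit 2705) l78 (.c (nat_lit 2453) l65 (.c (nat_lit 2190) l42 (.c (nat_lit 1503) l65 (.c (nat_lit 2488) l52 (.c (nat_lit 2447) l108 (.c (nat_lit 2654) l108 (.c (nat_lit 2375) l1 (.c (nat_lit 2014) l42 (.c (nat_lit 2708) l117 (.c (nat_lit 1886) l42 (.c (nat_lit 2509) l50 (.c (nat_lit 1544) l42 (.c (nat_lit 2682) l116 (.c (nat_lit 2048) l42 (.c (nat_lit 2669) l64 (.c (nat_lit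 2732) l249 .e)))))))))))))))))))))))))))))))))))))
noncomputable def u3_19 : St := (.c (nat_lit 2730) l236 (.c (nat_lit 2669) l100 (.c (nat_lit 2704) l79 (.c (nat_lit 2697) l70 (.c (nat_lit 2665) l114 (.c (nat_lit 2587) l65 (.c (nat_lit 2671) l53 (.c (nat_lit 2666) l49 (.c (nat_lit 2730) l87 (.c (nat_lit 2476) l42 (.c (nat_lit 2713) l112 (.c (nat_lit 2723) l108 (.c (nat_lit 1934) l42 (.c (nat_lit 2606) l160 (.c (nat_lit 2194) l74 (.c (nat_lit 2438) l74 (.c (nat_lit 2732) l164 (.c (nat_lit 2707) l114 (.c (nat_lit 2729) l108 (.c (nat_lit 2710) l117 (.c (nat_lit 2489) l42 (.c (nat_lit 2447) l179 (.c (nat_lit 2175) l1 (.c (nat_lit 2732) l250 (.c (nat_lit 2702) l141 (.c (nat_lit 2245) l42 (.c (nat_lit 2503) l52 (.c (nat_lit 2604) l52 (.c (nat_lit 2611) l78 (.c (nat_lit 2543) l42 (.c (nat_lit 2685) l114 (.c (nat_lit 2668) l276 (.c (nat_lit 2670) l50 (.c (nat_lit 2724) l114 (.c (nat_lit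 2487) l42 (.c (nat_lit 2709) l110 (.c (nat_lit 1891) l52 (.c (nat_lit 2312) l52 (.c (nat_lit 2210) l52 (.c (nat_lit 2675) l79 u3_18))))))))))))))))))))))))))))))))))))))))
noncomputable def u3_20 : St := (.c (nat_lit 2708) l78 (.c (nat_lit 2676) l53 (.c (nat_lit 2730) l108 (.c (nat_lit 2729) l110 (.c (nat_lit 2451) l42 (.c (nat_lit 2699) l74 (.c (nat_lit 2428) l42 (.c (nat_lit 2577) l1 (.c (nat_lit 2425) l42 (.c (nat_lit 2717) l112 (.c (nat_lit 2732) l239 (.c (nat_lit 2724) l70 (.c (nat_lit 2609) l42 (.c (nat_lit 2675) l70 (.c (nat_lit 2559) l108 (.c (nat_lit 2708) l112 (.c (nat_lit 1900) l42 (.c (nat_lit 2730) l231 (.c (nat_lit 2593) l160 (.c (nat_lit 2666) l78 (.c (nat_lit 2559) l74 (.c (nat_lit 2439) l110 (.c (nat_lit 2214) l179 (.c (nat_lit 2722) l69 (.c (nat_lit 2438) l160 (.c (nat_lit 2676) l50 (.c (nat_lit 2507) l1 (.c (nat_lit 2209) l42 (.c (nat_lit 2722) l110 (.c (nat_lit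 2705) l108 (.c (nat_lit 2307) l1 (.c (nat_lit 2732) l238 (.c (nat_lit 2725) l118 (.c (nat_lit 2729) l160 (.c (nat_lit 2184) l42 (.c (nat_lit 2666) l100 (.c (nat_lit 2203) l42 (.c (nat_lit 2348) l42 (.c (nat_lit 2732) l226 (.c (nat_lit 2725) l167 u3_19))))))))))))))))))))))))))))))))))))))))
noncomputable def u3_21 : St := (.c (nat_lit 2721) l108 (.c (nat_lit 1145) l42 (.c (nat_lit 2587) l79 (.c (nat_lit 2264) l74 (.c (nat_lit 2732) l169 (.c (nat_lit 1854) l42 (.c (nat_lit 2587) l70 (.c (nat_lit 2485) l42 (.c (nat_lit 2355) l74 (.c (nat_lit 2707) l53 (.c (nat_lit 2708) l118 (.c (nat_lit 1846) l42 (.c (nat_lit 2194) l160 (.c (nat_lit 2724) l112 (.c (nat_lit 2732) l177 (.c (nat_lit 2729) l69 (.c (nat_lit 2605) l49 (.c (nat_lit 2672) l42 (.c (nat_lit 2703) l53 (.c (nat_lit 2724) l81 (.c (nat_lit 2703) l74 (.c (nat_lit 2605) l48 (.c (nat_lit 2597) l52 (.c (nat_lit 2708) l69 (.c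 (nat_lit 2435) l42 (.c (nat_lit 1207) l42 (.c (nat_lit 2730) l111 (.c (nat_lit 2732) l237 (.c (nat_lit 2712) l207 (.c (nat_lit 2730) l118 (.c (nat_lit 2278) l42 (.c (nat_lit 2705) l74 (.c (nat_lit 2439) l166 (.c (nat_lit 2603) l42 (.c (nat_lit 2661) l100 (.c (nat_lit 2721) l70 (.c (nat_lit 2721) l147 (.c (nat_lit 2442) l42 (.c (nat_lit 2712) l74 (.c (nat_lit 2681) l53 u3_20))))))))))))))))))))))))))))))))))))))))
noncomputable def u3_22 : St := (.c (nat_lit 1869) l42 (.c (nat_lit 2667) l65 (.c (nat_lit 2558) l141 (.c (nat_lit 2721) l70 (.c (nat_lit 2721) l147 (.c (nat_lit 2307) l1 (.c (nat_lit 2577) l69 (.c (nat_lit 2721) l104 (.c (nat_lit 2667) l141 (.c (nat_lit 2721) l100 (.c (nat_lit 2731) l203 (.c (nat_lit 2509) l1 (.c (nat_lit 1890) l42 (.c (nat_lit 2444) l141 (.c (nat_lit 2715) l100 (.c (nat_lit 2667) l97 .e))))))))))))))))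
noncomputable def u3_23 : St := (.c (nat_lit 2327) l42 (.c (nat_lit 1548) l42 (.c (nat_lit 2718) l112 (.c (nat_lit 2671) l74 (.c (nat_lit 2584) l74 (.c (nat_lit 1476) l74 (.c (nat_lit 2707) l113 (.c (nat_lit 1530) l74 (.c (nat_lit 2214) l108 (.c (nat_lit 2664) l108 (.c (nat_lit 2539) l53 (.c (nat_lit 2705) l78 (.c (nat_lit 2488) l53 (.c (nat_lit 2190) l42 (.c (nat_lit 1890) l42 (.c (nat_lit 2444) l141 (.c (nat_lit 2654) l108 (.c (nat_lit 2706) l100 (.c (nat_lit 2730) l113 .e)))))))))))))))))))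
noncomputable def u3_24 : St := (.c (nat_lit 2669) l104 (.c (nat_lit 2732) l238 (.c (nat_lit 2724) l117 (.c (nat_lit 2577) l69 (.c (nat_lit 2729) l160 (.c (nat_lit 2184) l42 (.c (nat_lit 2465) l42 (.c (nat_lit 2721) l104 (.c (nat_lit 2424) l1 (.c (nat_lit 2704) l104 (.c (nat_lit 2528) l53 (.c (nat_lit 2730) l236 (.c (nat_lit 2592) l207 (.c (nat_lit 2669) l100 (.c (nat_lit 2704) l79 (.c (nat_lit 2602) l74 (.c (nat_lit 2432) l42 (.c (nat_lit 2707) l104 (.c (nat_lit 2671) l53 (.c (nat_lit 2178) l42 (.c (nat_lit 2724) l100 (.c (nat_lit 2730) l104 (.c (nat_lit 2724) l110 (.c (nat_lit 2732) l164 (.c (nat_lit 1855) l74 (.c (nat_lit 2707) l114 (.c (nat_lit 2729) l108 (.c (nat_lit 2710) l117 (.c (nat_lit 2727) l117 (.c (nat_lit 2447) l179 (.c (nat_lit 2667) l141 (.c (nat_lit 2727) l100 (.c (nat_lit 2702) l141 (.c (nat_lit 1572) l42 (.c (nat_lit 2604) l52 (.c (nat_lit 2668) l276 (.c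 (nat_lit 2709) l110 (.c (nat_lit 1862) l65 (.c (nat_lit 2668) l100 (.c (nat_lit 2718) l110 u3_23))))))))))))))))))))))))))))))))))))))))
noncomputable def u3_25 : St := (.c (nat_lit 2721) l108 (.c (nat_lit 1145) l42 (.c (nat_lit 2732) l169 (.c (nat_lit 2707) l53 (.c (nat_lit 2725) l112 (.c (nat_lit 2723) l74 (.c (nat_lit 2708) l118 (.c (nat_lit 2724) l112 (.c (nat_lit 2605) l49 (.c (nat_lit 1869) l42 (.c (nat_lit 2703) l53 (.c (nat_lit 2724) l81 (.c (nat_lit 2703) l74 (.c (nat_lit 2605) l48 (.c (nat_lit 2597) l52 (.c (nat_lit 2664) l74 (.c (nat_lit 2727) l111 (.c (nat_lit 2435) l42 (.c (nat_lit 2730) l111 (.c (nat_lit 2732) l237 (.c (nat_lit 2558) l141 (.c (nat_lit 2730) l115 (.c (nat_lit 2706) l70 (.c (nat_lit 2712) l74 (.c (nat_lit 2708) l78 (.c (nat_lit 2676) l53 (.c (nat_lit 2447) l74 (.c (nat_lit 2691) l78 (.c (nat_lit 2730) l108 (.c (nat_lit 2729) l110 (.c (nat_lit 2699)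 l74 (.c (nat_lit 2691) l118 (.c (nat_lit 2732) l239 (.c (nat_lit 2724) l70 (.c (nat_lit 1900) l42 (.c (nat_lit 2593) l160 (.c (nat_lit 2666) l78 (.c (nat_lit 2667) l267 (.c (nat_lit 2209) l42 (.c (nat_lit 2722) l110 u3_24))))))))))))))))))))))))))))))))))))))))
noncomputable def u3_26 : St := (.c (nat_lit 2684) l160 (.c (nat_lit 1982) l42 (.c (nat_lit 2612) l97 (.c (nat_lit 2684) l74 (.c (nat_lit 1942) l42 (.c (nat_lit 2612) l65 (.c (nat_lit 2429) l50 (.c (nat_lit 2110) l50 (.c (nat_lit 2695) l181 (.c (nat_lit 2002) l42 (.c (nat_lit 2684) l108 (.c (nat_lit 2636) l69 (.c (nat_lit 2429) l65 .e)))))))))))))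
noncomputable def u3_27 : St := (.c (nat_lit 2723) l74 (.c (nat_lit 2492) l160 (.c (nat_lit 2712) l74 (.c (nat_lit 2681) l53 (.c (nat_lit 2730) l108 (.c (nat_lit 2231) l42 (.c (nat_lit 2730) l231 (.c (nat_lit 2730) l236 (.c (nat_lit 1572) l42 (.c (nat_lit 2503) l52 (.c (nat_lit 2455) l42 (.c (nat_lit 2730) l279 (.c (nat_lit 2723) l179 .e)))))))))))))
noncomputable def u3_28 : St := (.c (nat_lit 2725) l112 (.c (nat_lit 2617) l231 (.c (nat_lit 2712) l74 (.c (nat_lit 2681) l53 (.c (nat_lit 2730) l108 (.c (nat_lit 2730) l231 (.c (nat_lit 2730) l236 (.c (nat_lit 2438) l74 (.c (nat_lit 2503) l52 (.c (nat_lit 2675) l79 (.c (nat_lit 2634) l53 (.c (nat_lit 2688) l160 (.c (nat_lit 2730) l279 (.c (nat_lit 2584) l74 (.c (nat_lit 2725) l116 .e)))))))))))))))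
noncomputable def u3_29 : St := (.c (nat_lit 2693) l48 (.c (nat_lit 2731) l157 (.c (nat_lit 2404) l74 (.c (nat_lit 2664) l52 (.c (nat_lit 2683) l49 (.c (nat_lit 2654) l42 (.c (nat_lit 2688) l52 (.c (nat_lit 2728) l77 (.c (nat_lit 2686) l48 (.c (nat_lit 2684) l52 (.c (nat_lit 2731) l222 (.c (nat_lit 2214) l65 (.c (nat_lit 2700) l97 (.c (nat_lit 2593) l65 (.c (nat_lit 2644) l69 (.c (nat_lit 2644) l49 (.c (nat_lit 2448) l49 (.c (nat_lit 2660) l108 (.c (nat_lit 2728) l68 (.c (nat_lit 2667) l49 (.c (nat_lit 2411) l48 (.c (nat_lit 2660) l160 (.c (nat_lit 2613) l49 (.c (nat_lit 2647) l65 (.c (nat_lit 2385) l50 (.c (nat_lit 2731) l274 (.c (nat_lit 2658) l112 (.c (nat_lit 2503) l69 (.c (nat_lit 2547) l50 (.c (nat_lit 2613) l69 .e))))))))))))))))))))))))))))))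
noncomputable def u3_30 : St := (.c (nat_lit 2693) l48 (.c (nat_lit 2731) l157 (.c (nat_lit 2654) l50 (.c (nat_lit 2664) l52 (.c (nat_lit 2683) l49 (.c (nat_lit 2305) l65 (.c (nat_lit 2654) l42 (.c (nat_lit 2688) l52 (.c (nat_lit 2728) l77 (.c (nat_lit 2730) l157 (.c (nat_lit 2686) l48 (.c (nat_lit 2684) l52 (.c (nat_lit 2731) l222 (.c (nat_lit 2281) l207 (.c (nat_lit 2700) l97 (.c (nat_lit 2713) l157 (.c (nat_lit 2000) l42 (.c (nat_lit 2193) l65 (.c (nat_lit 2660) l108 (.c (nat_lit 2728) l68 (.c (nat_lit 1810) l42 (.c (nat_lit 2667) l49 (.c (nat_lit 2411) l48 (.c (nat_lit 2660) l160 (.c (nat_lit 2647) l65 (.c (nat_lit 2385) l50 (.c (nat_lit 2100) l50 (.c (nat_lit 2732) l38 .e))))))))))))))))))))))))))))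
noncomputable def u3_31 : St := (.c (nat_lit 2683) l65 (.c (nat_lit 2581) l50 (.c (nat_lit 2676) l50 (.c (nat_lit 2681) l65 (.c (nat_lit 2638) l50 (.c (nat_lit 2281) l207 (.c (nat_lit 2713) l157 (.c (nat_lit 2493) l100 (.c (nat_lit 2670) l50 (.c (nat_lit 2712) l141 (.c (nat_lit 2209) l50 (.c (nat_lit 2583) l50 (.c (nat_lit 2619) l50 (.c (nat_lit 2713) l97 .e))))))))))))))
noncomputable def u3_32 : St := (.c (nat_lit 2684) l160 (.c (nat_lit 2730) l295 (.c (nat_lit 2725) l78 (.c (nat_lit 2725) l63 (.c (nat_lit 2624) l65 (.c (nat_lit 2725) l118 (.c (nat_lit 2682) l49 (.c (nat_lit 2625) l160 (.c (nat_lit 2302) l49 (.c (nat_lit 2501) l65 (.c (nat_lit 2685) l114 (.c (nat_lit 2713) l110 (.c (nat_lit 2295) l42 (.c (nat_lit 2684) l231 (.c (nat_lit 2499) l42 (.c (nat_lit 2725) l87 .e))))))))))))))))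
noncomputable def u3_33 : St := (.c (nat_lit 2684) l160 (.c (nat_lit 1982) l42 (.c (nat_lit 2617) l65 (.c (nat_lit 2730) l295 (.c (nat_lit 2305) l65 (.c (nat_lit 2624) l65 (.c (nat_lit 2725) l181 (.c (nat_lit 2682) l69 (.c (nat_lit 2302) l49 (.c (nat_lit 2556) l50 (.c (nat_lit 2501) l65 (.c (nat_lit 2713) l110 (.c (nat_lit 2295) l42 (.c (nat_lit 2684) l231 (.c (nat_lit 2499) l42 (.c (nat_lit 2725) l136 .e))))))))))))))))
noncomputable def u3_34 : St := (.c (nat_lit 2690) l74 (.c (nat_lit 2694) l49 (.c (nat_lit 2694) l74 (.c (nat_lit 2348) l42 (.c (nat_lit 2694) l48 (.c (nat_lit 2690) l108 (.c (nat_lit 2718) l77 (.c (nat_lit 2543) l42 (.c (nat_lit 2718) l73 (.c (nat_lit 2694) l108 (.c (nat_lit 2718) l110 (.c (nat_lit 2327) l42 (.c (nat_lit 2718) l112 .e)))))))))))))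
noncomputable def u3_35 : St := (.c (nat_lit 1950) l45 (.c (nat_lit 2067) l45 (.c (nat_lit 2069) l55 (.c (nat_lit 2170) l62 (.c (nat_lit 2171) l58 (.c (nat_lit 2008) l44 (.c (nat_lit 2150) l58 (.c (nat_lit 2163) l58 (.c (nat_lit 2114) l60 (.c (nat_lit 1631) l45 (.c (nat_lit 1626) l45 (.c (nat_lit 1762) l55 (.c (nat_lit 1789) l45 (.c (nat_lit 1750) l45 (.c (nat_lit 1806) l45 (.c (nat_lit 1706) l45 (.c (nat_lit 2502) l82 (.c (nat_lit 2070) l58 (.c (nat_lit 1521) l45 (.c (nat_lit 1257) l45 (.c (nat_lit 1574) l45 (.c (nat_lit 2074) l45 (.c (nat_lit 2159) l58 (.c (nat_lit 1701) l45 (.c (nat_lit 1939) l45 (.c (nat_lit 1196) l45 .e))))))))))))))))))))))))))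
noncomputable def u3_36 : St := (.c (nat_lit 1705) l45 (.c (nat_lit 1984) l45 (.c (nat_lit 2419) l55 (.c (nat_lit 1980) l45 (.c (nat_lit 1870) l45 (.c (nat_lit 1847) l45 (.c (nat_lit 2297) l45 (.c (nat_lit 2505) l58 (.c (nat_lit 2211) l45 (.c (nat_lit 2298) l43 (.c (nat_lit 2303) l45 (.c (nat_lit 1132) l45 (.c (nat_lit 2318) l45 (.c (nat_lit 2553) l45 (.c (nat_lit 1875) l45 (.c (nat_lit 1994) l47 (.c (nat_lit 2356) l43 (.c (nat_lit 2561) l45 (.c (nat_lit 1889) l45 (.c (nat_lit 2179) l45 (.c (nat_lit 2117) l62 (.c (nat_lit 2109) l45 (.c (nat_lit 1768) l58 (.c (nat_lit 2265) l43 (.c (nat_lit 2114) l43 (.c (nat_lit 1879) l45 (.c (nat_lit 2158) l55 (.c (nat_lit 2170) l43 (.c (nat_lit 1994) l43 (.c (nat_lit 1994) l60 (.c (nat_lit 2070) l55 (.c (nat_lit 2160) l43 (.c (nat_lit 2422) l60 (.c (nat_lit 2131) l55 (.c (nat_lit 1571) l45 (.c (nat_lit 2061) l45 (.c (nat_lit 2288) l45 (.c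 (nat_lit 2658) l61 (.c (nat_lit 2173) l61 (.c (nat_lit 2170) l47 u3_35))))))))))))))))))))))))))))))))))))))))
noncomputable def u3_37 : St := (.c (nat_lit 1853) l55 (.c (nat_lit 1972) l55 (.c (nat_lit 1941) l55 (.c (nat_lit 1969) l62 (.c (nat_lit 2193) l55 (.c (nat_lit 1221) l58 (.c (nat_lit 1961) l55 (.c (nat_lit 2353) l62 (.c (nat_lit 2564) l60 (.c (nat_lit 2105) l43 (.c (nat_lit 2262) l47 (.c (nat_lit 2478) l58 (.c (nat_lit 1960) l62 (.c (nat_lit 1547) l45 (.c (nat_lit 2655) l89 (.c (nat_lit 2224) l45 (.c (nat_lit 2305) l187 (.c (nat_lit 1476) l55 (.c (nat_lit 870) l55 (.c (nat_lit 1210) l45 (.c (nat_lit 2282) l82 (.c (nat_lit 2312) l60 (.c (nat_lit 2210) l60 (.c (nat_lit 2349) l45 (.c (nat_lit 1631) l45 (.c (nat_lit 2725) l190 (.c (nat_lit 2437) l55 (.c (nat_lit 1762) l55 (.c (nat_lit 2720) l129 (.c (nat_lit 1789) l45 (.c (nat_lit 1806) l45 (.c (nat_lit 2725) l123 (.c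 (nat_lit 1704) l45 (.c (nat_lit 1701) l45 (.c (nat_lit 1238) l45 (.c (nat_lit 1939) l45 (.c (nat_lit 1262) l45 (.c (nat_lit 2391) l82 (.c (nat_lit 2318) l55 (.c (nat_lit 2549) l45 .e))))))))))))))))))))))))))))))))))))))))
noncomputable def u3_38 : St := (.c (nat_lit 1993) l58 (.c (nat_lit 1994) l93 (.c (nat_lit 1530) l58 (.c (nat_lit 2413) l58 (.c (nat_lit 2387) l43 (.c (nat_lit 2206) l43 (.c (nat_lit 2421) l61 (.c (nat_lit 2390) l60 (.c (nat_lit 2173) l61 (.c (nat_lit 2423) l61 (.c (nat_lit 2067) l45 (.c (nat_lit 2170) l62 (.c (nat_lit 2171) l58 (.c (nat_lit 2008) l44 (.c (nat_lit 1157) l45 (.c (nat_lit 2150) l58 (.c (nat_lit 2163) l58 (.c (nat_lit 2573) l86 (.c (nat_lit 1955) l58 (.c (nat_lit 1991) l44 (.c (nat_lit 1860) l58 (.c (nat_lit 2274) l61 (.c (nat_lit 1941) l58 (.c (nat_lit 2353) l61 (.c (nat_lit 2194) l58 (.c (nat_lit 2499) l61 (.c (nat_lit 2453) l55 (.c (nat_lit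 2659) l195 (.c (nat_lit 1853) l58 (.c (nat_lit 1105) l55 (.c (nat_lit 1854) l62 (.c (nat_lit 2285) l44 (.c (nat_lit 1105) l45 (.c (nat_lit 1604) l58 (.c (nat_lit 2448) l90 (.c (nat_lit 1585) l45 (.c (nat_lit 2448) l139 (.c (nat_lit 1891) l62 (.c (nat_lit 2278) l43 (.c (nat_lit 1854) l43 u3_37))))))))))))))))))))))))))))))))))))))))
noncomputable def u3_39 : St := (.c (nat_lit 2659) l82 (.c (nat_lit 2659) l187 (.c (nat_lit 2701) l62 (.c (nat_lit 2701) l139 (.c (nat_lit 2720) l187 (.c (nat_lit 1101) l45 (.c (nat_lit 2477) l62 (.c (nat_lit 1972) l45 (.c (nat_lit 870) l58 (.c (nat_lit 2312) l43 (.c (nat_lit 2262) l44 (.c (nat_lit 1960) l47 (.c (nat_lit 2158) l55 (.c (nat_lit 1859) l47 (.c (nat_lit 1861) l44 (.c (nat_lit 2544) l44 (.c (nat_lit 1877) l62 (.c (nat_lit 2226) l58 (.c (nat_lit 2443) l82 (.c (nat_lit 1523) l58 (.c (nat_lit 2262) l61 (.c (nat_lit 2282) l61 (.c (nat_lit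 2207) l82 (.c (nat_lit 2493) l43 (.c (nat_lit 2501) l82 (.c (nat_lit 2273) l45 (.c (nat_lit 2720) l253 (.c (nat_lit 1861) l47 (.c (nat_lit 2273) l58 (.c (nat_lit 2013) l55 (.c (nat_lit 2210) l43 (.c (nat_lit 2501) l55 (.c (nat_lit 2193) l43 (.c (nat_lit 2170) l43 (.c (nat_lit 2003) l55 (.c (nat_lit 2422) l60 (.c (nat_lit 2414) l43 (.c (nat_lit 1571) l45 (.c (nat_lit 2388) l55 (.c (nat_lit 2003) l58 u3_38))))))))))))))))))))))))))))))))))))))))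
noncomputable def u3_40 : St := (.c (nat_lit 2561) l45 (.c (nat_lit 2117) l62 (.c (nat_lit 2205) l45 (.c (nat_lit 2391) l58 (.c (nat_lit 1768) l58 (.c (nat_lit 1880) l43 (.c (nat_lit 2413) l45 (.c (nat_lit 2610) l45 (.c (nat_lit 2486) l45 (.c (nat_lit 2265) l43 (.c (nat_lit 2618) l55 (.c (nat_lit 2698) l62 (.c (nat_lit 2592) l60 (.c (nat_lit 2628) l55 (.c (nat_lit 2492) l61 (.c (nat_lit 2445) l60 (.c (nat_lit 2624) l82 (.c (nat_lit 2699) l253 (.c (nat_lit 2614) l55 (.c (nat_lit 2655) l62 (.c (nat_lit 2272) l58 (.c (nat_lit 2712) l183 (.c (nat_lit 2282) l55 (.c (nat_lit 2226) l45 (.c (nat_lit 2698) l135 (.c (nat_lit 2438) l58 (.c (nat_lit 1872) l45 (.c (nat_lit 2272) l45 (.c (nat_lit 1872) l55 (.c (nat_lit 2506) l61 (.c (nat_lit 2306) l58 (.c (nat_lit 2267) l45 (.c (nat_lit 2282) l58 (.c (nat_lit 2652) l195 (.c (nat_lit 2483) l58 (.c (nat_lit 2239) l55 (.c (nat_lit 2186) l55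 (.c (nat_lit 2573) l62 (.c (nat_lit 2720) l195 (.c (nat_lit 1855) l45 u3_39))))))))))))))))))))))))))))))))))))))))
noncomputable def u3_41 : St := (.c (nat_lit 2623) l61 (.c (nat_lit 2285) l47 (.c (nat_lit 2645) l58 (.c (nat_lit 2303) l45 (.c (nat_lit 2448) l47 (.c (nat_lit 2453) l45 (.c (nat_lit 1109) l58 (.c (nat_lit 2655) l61 (.c (nat_lit 2614) l45 (.c (nat_lit 2701) l90 (.c (nat_lit 2628) l45 (.c (nat_lit 1109) l45 (.c (nat_lit 2186) l45 (.c (nat_lit 2437) l45 (.c (nat_lit 2448) l62 (.c (nat_lit 2593) l82 (.c (nat_lit 2442) l43 (.c (nat_lit 2624) l55 (.c (nat_lit 2492) l58 (.c (nat_lit 2444) l55 (.c (nat_lit 2318) l45 (.c (nat_lit 2356) l47 (.c (nat_lit 2160) l47 (.c (nat_lit 2265) l47 (.c (nat_lit 2625) l61 (.c (nat_lit 2645) l45 (.c (nat_lit 2610) l58 (.c (nat_lit 2655) l57 (.c (nat_lit 2437) l43 (.c (nat_lit 2719) l138 (.c (nat_lit 1154) l45 (.c (nat_lit 2478) l45 (.c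 (nat_lit 2551) l44 (.c (nat_lit 2633) l55 (.c (nat_lit 2682) l119 (.c (nat_lit 1893) l58 (.c (nat_lit 2411) l47 (.c (nat_lit 2304) l44 (.c (nat_lit 1655) l55 (.c (nat_lit 2356) l43 u3_40))))))))))))))))))))))))))))))))))))))))
noncomputable def u3_42 : St := (.c (nat_lit 2399) l55 (.c (nat_lit 1877) l61 (.c (nat_lit 2207) l58 (.c (nat_lit 2415) l55 (.c (nat_lit 2720) l61 (.c (nat_lit 2698) l86 (.c (nat_lit 2698) l47 (.c (nat_lit 2443) l58 (.c (nat_lit 2719) l60 (.c (nat_lit 2196) l47 (.c (nat_lit 763) l55 (.c (nat_lit 2712) l82 (.c (nat_lit 2633) l45 (.c (nat_lit 2725) l119 (.c (nat_lit 2505) l58 (.c (nat_lit 2568) l47 (.c (nat_lit 2725) l85 (.c (nat_lit 2477) l47 (.c (nat_lit 2725) l121 (.c (nat_lit 2492) l45 (.c (nat_lit 2712) l95 (.c (nat_lit 2589) l43 (.c (nat_lit 2263) l55 (.c (nat_lit 763) l58 (.c (nat_lit 2720) l58 (.c (nat_lit 2593) l58 (.c (nat_lit 1859) l60 (.c (nat_lit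 2712) l84 (.c (nat_lit 2356) l44 (.c (nat_lit 2265) l44 (.c (nat_lit 1859) l43 (.c (nat_lit 2499) l44 (.c (nat_lit 2468) l44 (.c (nat_lit 1877) l47 (.c (nat_lit 2196) l62 (.c (nat_lit 2719) l89 (.c (nat_lit 2438) l44 (.c (nat_lit 2446) l55 (.c (nat_lit 2589) l60 (.c (nat_lit 2725) l185 u3_41))))))))))))))))))))))))))))))))))))))))
noncomputable def u3_43 : St := (.c (nat_lit 2247) l45 (.c (nat_lit 2328) l45 .e))
noncomputable def u3_44 : St := (.c (nat_lit 2003) l58 (.c (nat_lit 1530) l58 (.c (nat_lit 2250) l45 (.c (nat_lit 2288) l45 (.c (nat_lit 2242) l45 (.c (nat_lit 2421) l44 (.c (nat_lit 2658) l61 (.c (nat_lit 2421) l61 (.c (nat_lit 2390) l60 (.c (nat_lit 2173) l61 (.c (nat_lit 2170) l47 (.c (nat_lit 2423) l61 (.c (nat_lit 1950) l45 (.c (nat_lit 2067) l45 (.c (nat_lit 2069) l55 (.c (nat_lit 1509) l55 (.c (nat_lit 1634) l58 (.c (nat_lit 2170) l62 (.c (nat_lit 2008) l44 (.c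 (nat_lit 1157) l45 (.c (nat_lit 2150) l58 (.c (nat_lit 2163) l58 (.c (nat_lit 2349) l45 (.c (nat_lit 1602) l45 (.c (nat_lit 1631) l45 (.c (nat_lit 2725) l190 (.c (nat_lit 2575) l61 (.c (nat_lit 1762) l55 (.c (nat_lit 1568) l45 (.c (nat_lit 2502) l82 (.c (nat_lit 1521) l45 (.c (nat_lit 1257) l45 (.c (nat_lit 1574) l45 (.c (nat_lit 1992) l55 (.c (nat_lit 2517) l45 (.c (nat_lit 1704) l45 (.c (nat_lit 1701) l45 (.c (nat_lit 1238) l45 (.c (nat_lit 1939) l45 (.c (nat_lit 1191) l45 u3_43))))))))))))))))))))))))))))))))))))))))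
noncomputable def u3_45 : St := (.c (nat_lit 1705) l45 (.c (nat_lit 1984) l45 (.c (nat_lit 2419) l55 (.c (nat_lit 1980) l45 (.c (nat_lit 1870) l45 (.c (nat_lit 1847) l45 (.c (nat_lit 2297) l45 (.c (nat_lit 2505) l58 (.c (nat_lit 2211) l45 (.c (nat_lit 2208) l55 (.c (nat_lit 2298) l43 (.c (nat_lit 2303) l45 (.c (nat_lit 1132) l45 (.c (nat_lit 2318) l45 (.c (nat_lit 2553) l45 (.c (nat_lit 1875) l45 (.c (nat_lit 1994) l47 (.c (nat_lit 2725) l197 (.c (nat_lit 2356) l43 (.c (nat_lit 2561) l45 (.c (nat_lit 1889) l45 (.c (nat_lit 2179) l45 (.c (nat_lit 2117) l62 (.c (nat_lit 2109) l45 (.c (nat_lit 1768) l58 (.c (nat_lit 1880) l43 (.c (nat_lit 2265) l43 (.c (nat_lit 2306) l58 (.c (nat_lit 1946) l55 (.c (nat_lit 2158) l55 (.c (nat_lit 1647) l45 (.c (nat_lit 2168) l55 (.c (nat_lit 1994) l43 (.c (nat_lit 1994) l60 (.c (nat_lit 2070) l55 (.c (nat_lit 2160) l43 (.c (nat_lit 2414) l43 (.c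 (nat_lit 2006) l45 (.c (nat_lit 2131) l55 (.c (nat_lit 1571) l45 u3_44))))))))))))))))))))))))))))))))))))))))
noncomputable def u3_46 : St := (.c (nat_lit 1972) l55 (.c (nat_lit 1941) l55 (.c (nat_lit 1969) l62 (.c (nat_lit 2193) l55 (.c (nat_lit 1221) l58 (.c (nat_lit 1961) l55 (.c (nat_lit 2353) l62 (.c (nat_lit 2564) l60 (.c (nat_lit 2105) l43 (.c (nat_lit 2262) l47 (.c (nat_lit 2478) l58 (.c (nat_lit 1960) l62 (.c (nat_lit 1547) l45 (.c (nat_lit 2655) l89 (.c (nat_lit 2224) l45 (.c (nat_lit 2305) l187 (.c (nat_lit 1476) l55 (.c (nat_lit 870) l55 (.c (nat_lit 1210) l45 (.c (nat_lit 2282) l82 (.c (nat_lit 2312) l60 (.c (nat_lit 2210) l60 (.c (nat_lit 2349) l45 (.c (nat_lit 1602) l45 (.c (nat_lit 2437) l55 (.c (nat_lit 1626) l45 (.c (nat_lit 1762) l55 (.c (nat_lit 2720) l129 (.c (nat_lit 1789) l45 (.c (nat_lit 2725) l123 (.c (nat_lit 2070) l58 (.c (nat_lit 1257) l45 (.c (nat_lit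 2159) l58 (.c (nat_lit 1704) l45 (.c (nat_lit 1238) l45 (.c (nat_lit 1939) l45 (.c (nat_lit 2391) l82 (.c (nat_lit 2318) l55 .e))))))))))))))))))))))))))))))))))))))
noncomputable def u3_47 : St := (.c (nat_lit 1993) l58 (.c (nat_lit 1994) l93 (.c (nat_lit 2250) l45 (.c (nat_lit 2242) l45 (.c (nat_lit 2413) l58 (.c (nat_lit 2387) l43 (.c (nat_lit 2206) l43 (.c (nat_lit 2421) l61 (.c (nat_lit 2390) l60 (.c (nat_lit 2173) l61 (.c (nat_lit 2423) l61 (.c (nat_lit 2067) l45 (.c (nat_lit 1634) l58 (.c (nat_lit 2170) l62 (.c (nat_lit 2150) l58 (.c (nat_lit 2163) l58 (.c (nat_lit 2573) l86 (.c (nat_lit 1955) l58 (.c (nat_lit 1991) l44 (.c (nat_lit 1860) l58 (.c (nat_lit 2274) l61 (.c (nat_lit 1941) l58 (.c (nat_lit 2353) l61 (.c (nat_lit 2194) l58 (.c (nat_lit 2499) l61 (.c (nat_lit 2453) l55 (.c (nat_lit 2659) l195 (.c (nat_lit 1853) l58 (.c (nat_lit 1105) l55 (.c (nat_lit 1854) l62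 (.c (nat_lit 2285) l44 (.c (nat_lit 1105) l45 (.c (nat_lit 1604) l58 (.c (nat_lit 2448) l90 (.c (nat_lit 1585) l45 (.c (nat_lit 2448) l139 (.c (nat_lit 1891) l62 (.c (nat_lit 2278) l43 (.c (nat_lit 1854) l43 (.c (nat_lit 1853) l55 u3_46))))))))))))))))))))))))))))))))))))))))
noncomputable def u3_48 : St := (.c (nat_lit 1855) l45 (.c (nat_lit 2659) l82 (.c (nat_lit 2659) l187 (.c (nat_lit 2701) l62 (.c (nat_lit 2701) l139 (.c (nat_lit 2720) l187 (.c (nat_lit 1101) l45 (.c (nat_lit 2477) l62 (.c (nat_lit 1972) l45 (.c (nat_lit 870) l58 (.c (nat_lit 2312) l43 (.c (nat_lit 2262) l44 (.c (nat_lit 1960) l47 (.c (nat_lit 2158) l55 (.c (nat_lit 1859) l47 (.c (nat_lit 1861) l44 (.c (nat_lit 2544) l44 (.c (nat_lit 1877) l62 (.c (nat_lit 2226) l58 (.c (nat_lit 2443) l82 (.c (nat_lit 1523) l58 (.c (nat_lit 2262) l61 (.c (nat_lit 2282) l61 (.c (nat_lit 2207) l82 (.c (nat_lit 2493) l43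 (.c (nat_lit 2501) l82 (.c (nat_lit 2273) l45 (.c (nat_lit 2720) l253 (.c (nat_lit 1647) l45 (.c (nat_lit 1861) l47 (.c (nat_lit 2273) l58 (.c (nat_lit 2013) l55 (.c (nat_lit 2210) l43 (.c (nat_lit 2501) l55 (.c (nat_lit 2193) l43 (.c (nat_lit 2168) l55 (.c (nat_lit 2003) l55 (.c (nat_lit 1571) l45 (.c (nat_lit 2388) l55 (.c (nat_lit 2003) l58 u3_47))))))))))))))))))))))))))))))))))))))))
noncomputable def u3_49 : St := (.c (nat_lit 2356) l43 (.c (nat_lit 2561) l45 (.c (nat_lit 2117) l62 (.c (nat_lit 2205) l45 (.c (nat_lit 2391) l58 (.c (nat_lit 1768) l58 (.c (nat_lit 1880) l43 (.c (nat_lit 2413) l45 (.c (nat_lit 1947) l45 (.c (nat_lit 2610) l45 (.c (nat_lit 2486) l45 (.c (nat_lit 2265) l43 (.c (nat_lit 2618) l55 (.c (nat_lit 2698) l62 (.c (nat_lit 2592) l60 (.c (nat_lit 2628) l55 (.c (nat_lit 2492) l61 (.c (nat_lit 2445) l60 (.c (nat_lit 2624) l82 (.c (nat_lit 2699) l253 (.c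 (nat_lit 2614) l55 (.c (nat_lit 2655) l62 (.c (nat_lit 2272) l58 (.c (nat_lit 2712) l183 (.c (nat_lit 2282) l55 (.c (nat_lit 2226) l45 (.c (nat_lit 2698) l135 (.c (nat_lit 2438) l58 (.c (nat_lit 1872) l45 (.c (nat_lit 2272) l45 (.c (nat_lit 1872) l55 (.c (nat_lit 2506) l61 (.c (nat_lit 2267) l45 (.c (nat_lit 2282) l58 (.c (nat_lit 2652) l195 (.c (nat_lit 2483) l58 (.c (nat_lit 2239) l55 (.c (nat_lit 2186) l55 (.c (nat_lit 2573) l62 (.c (nat_lit 2720) l195 u3_48))))))))))))))))))))))))))))))))))))))))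
noncomputable def u3_50 : St := (.c (nat_lit 2623) l61 (.c (nat_lit 2285) l47 (.c (nat_lit 2645) l58 (.c (nat_lit 2303) l45 (.c (nat_lit 2448) l47 (.c (nat_lit 2453) l45 (.c (nat_lit 1109) l58 (.c (nat_lit 2655) l61 (.c (nat_lit 2614) l45 (.c (nat_lit 2701) l90 (.c (nat_lit 2628) l45 (.c (nat_lit 1109) l45 (.c (nat_lit 2186) l45 (.c (nat_lit 2437) l45 (.c (nat_lit 2448) l62 (.c (nat_lit 2593) l82 (.c (nat_lit 2442) l43 (.c (nat_lit 2624) l55 (.c (nat_lit 2492) l58 (.c (nat_lit 2444) l55 (.c (nat_lit 2318) l45 (.c (nat_lit 2356) l47 (.c (nat_lit 2160) l47 (.c (nat_lit 2265) l47 (.c (nat_lit 2625) l61 (.c (nat_lit 2645) l45 (.c (nat_lit 2610) l58 (.c (nat_lit 2655) l57 (.c (nat_lit 2437) l43 (.c (nat_lit 2719) l138 (.c (nat_lit 1154) l45 (.c (nat_lit 2478) l45 (.c (nat_lit 2551) l44 (.c (nat_lit 2725) l197 (.c (nat_lit 2633) l55 (.c (nat_lit 2682) l119 (.c (nat_lit 1893) l58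 (.c (nat_lit 2411) l47 (.c (nat_lit 2304) l44 (.c (nat_lit 1655) l55 u3_49))))))))))))))))))))))))))))))))))))))))
noncomputable def u3_51 : St := (.c (nat_lit 2399) l55 (.c (nat_lit 1877) l61 (.c (nat_lit 2207) l58 (.c (nat_lit 2415) l55 (.c (nat_lit 2720) l61 (.c (nat_lit 2698) l86 (.c (nat_lit 2698) l47 (.c (nat_lit 2443) l58 (.c (nat_lit 2719) l60 (.c (nat_lit 2196) l47 (.c (nat_lit 763) l55 (.c (nat_lit 2712) l82 (.c (nat_lit 2633) l45 (.c (nat_lit 2725) l119 (.c (nat_lit 2505) l58 (.c (nat_lit 2568) l47 (.c (nat_lit 2725) l85 (.c (nat_lit 2477) l47 (.c (nat_lit 2725) l121 (.c (nat_lit 2492) l45 (.c (nat_lit 2712) l95 (.c (nat_lit 2589) l43 (.c (nat_lit 2263) l55 (.c (nat_lit 763) l58 (.c (nat_lit 2720) l58 (.c (nat_lit 2593) l58 (.c (nat_lit 1859) l60 (.c (nat_lit 2712) l84 (.c (nat_lit 2356) l44 (.c (nat_lit 2265) l44 (.c (nat_lit 1859) l43 (.c (nat_lit 2499) l44 (.c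 (nat_lit 2468) l44 (.c (nat_lit 1877) l47 (.c (nat_lit 2196) l62 (.c (nat_lit 2719) l89 (.c (nat_lit 2438) l44 (.c (nat_lit 2446) l55 (.c (nat_lit 2589) l60 (.c (nat_lit 2725) l185 u3_50))))))))))))))))))))))))))))))))))))))))
noncomputable def u3_52 : St := (.c (nat_lit 2278) l43 (.c (nat_lit 1854) l43 (.c (nat_lit 1853) l55 (.c (nat_lit 1972) l55 (.c (nat_lit 1941) l55 (.c (nat_lit 1969) l62 (.c (nat_lit 2193) l55 (.c (nat_lit 1221) l58 (.c (nat_lit 1961) l55 (.c (nat_lit 2353) l62 (.c (nat_lit 2564) l60 (.c (nat_lit 2105) l43 (.c (nat_lit 2262) l47 (.c (nat_lit 2478) l58 (.c (nat_lit 1960) l62 (.c (nat_lit 1547) l45 (.c (nat_lit 2655) l89 (.c (nat_lit 2224) l45 (.c (nat_lit 2305) l187 (.c (nat_lit 1476) l55 (.c (nat_lit 870) l55 (.c (nat_lit 1210) l45 (.c (nat_lit 2282) l82 (.c (nat_lit 2312) l60 (.c (nat_lit 2210) l60 (.c (nat_lit 1602) l45 (.c (nat_lit 2437) l55 (.c (nat_lit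 1789) l45 (.c (nat_lit 1750) l45 (.c (nat_lit 1806) l45 (.c (nat_lit 1568) l45 (.c (nat_lit 2725) l123 (.c (nat_lit 2074) l45 (.c (nat_lit 1939) l45 (.c (nat_lit 1262) l45 (.c (nat_lit 1191) l45 (.c (nat_lit 1228) l45 (.c (nat_lit 1892) l55 .e))))))))))))))))))))))))))))))))))))))
noncomputable def u3_53 : St := (.c (nat_lit 1571) l45 (.c (nat_lit 1993) l58 (.c (nat_lit 1994) l93 (.c (nat_lit 2250) l45 (.c (nat_lit 2422) l82 (.c (nat_lit 2421) l44 (.c (nat_lit 2657) l58 (.c (nat_lit 2421) l61 (.c (nat_lit 2173) l61 (.c (nat_lit 2423) l61 (.c (nat_lit 2034) l45 (.c (nat_lit 2067) l45 (.c (nat_lit 2069) l55 (.c (nat_lit 1634) l58 (.c (nat_lit 2171) l58 (.c (nat_lit 1157) l45 (.c (nat_lit 2150) l58 (.c (nat_lit 2163) l58 (.c (nat_lit 2573) l86 (.c (nat_lit 1955) l58 (.c (nat_lit 1991) l44 (.c (nat_lit 1860) l58 (.c (nat_lit 2274) l61 (.c (nat_lit 1941) l58 (.c (nat_lit 2168) l58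 (.c (nat_lit 2353) l61 (.c (nat_lit 2194) l58 (.c (nat_lit 2499) l61 (.c (nat_lit 2453) l55 (.c (nat_lit 2659) l195 (.c (nat_lit 1853) l58 (.c (nat_lit 1105) l55 (.c (nat_lit 1854) l62 (.c (nat_lit 2285) l44 (.c (nat_lit 1105) l45 (.c (nat_lit 1604) l58 (.c (nat_lit 2448) l90 (.c (nat_lit 1585) l45 (.c (nat_lit 2448) l139 (.c (nat_lit 1891) l62 u3_52))))))))))))))))))))))))))))))))))))))))
noncomputable def u3_54 : St := (.c (nat_lit 2720) l187 (.c (nat_lit 1101) l45 (.c (nat_lit 2477) l62 (.c (nat_lit 1879) l45 (.c (nat_lit 1972) l45 (.c (nat_lit 870) l58 (.c (nat_lit 2312) l43 (.c (nat_lit 2262) l44 (.c (nat_lit 1960) l47 (.c (nat_lit 2158) l55 (.c (nat_lit 1768) l55 (.c (nat_lit 1859) l47 (.c (nat_lit 1861) l44 (.c (nat_lit 2544) l44 (.c (nat_lit 1877) l62 (.c (nat_lit 2226) l58 (.c (nat_lit 2443) l82 (.c (nat_lit 1523) l58 (.c (nat_lit 2262) l61 (.c (nat_lit 2282) l61 (.c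 (nat_lit 2207) l82 (.c (nat_lit 2493) l43 (.c (nat_lit 2501) l82 (.c (nat_lit 2273) l45 (.c (nat_lit 2720) l253 (.c (nat_lit 1861) l47 (.c (nat_lit 2273) l58 (.c (nat_lit 2013) l55 (.c (nat_lit 2210) l43 (.c (nat_lit 2501) l55 (.c (nat_lit 2193) l43 (.c (nat_lit 2170) l43 (.c (nat_lit 2168) l55 (.c (nat_lit 1894) l43 (.c (nat_lit 2003) l55 (.c (nat_lit 2070) l55 (.c (nat_lit 1836) l55 (.c (nat_lit 2422) l60 (.c (nat_lit 2131) l55 (.c (nat_lit 2732) l190 u3_53))))))))))))))))))))))))))))))))))))))))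
noncomputable def u3_55 : St := (.c (nat_lit 1947) l45 (.c (nat_lit 2422) l55 (.c (nat_lit 2423) l58 (.c (nat_lit 2610) l45 (.c (nat_lit 2486) l45 (.c (nat_lit 2265) l43 (.c (nat_lit 2618) l55 (.c (nat_lit 2698) l62 (.c (nat_lit 2592) l60 (.c (nat_lit 2628) l55 (.c (nat_lit 2492) l61 (.c (nat_lit 2445) l60 (.c (nat_lit 2624) l82 (.c (nat_lit 2699) l253 (.c (nat_lit 2614) l55 (.c (nat_lit 2655) l62 (.c (nat_lit 2272) l58 (.c (nat_lit 2712) l183 (.c (nat_lit 2282) l55 (.c (nat_lit 2226) l45 (.c (nat_lit 2698) l135 (.c (nat_lit 2438) l58 (.c (nat_lit 1872) l45 (.c (nat_lit 2272) l45 (.c (nat_lit 1872) l55 (.c (nat_lit 2506) l61 (.c (nat_lit 2306) l58 (.c (nat_lit 2267) l45 (.c (nat_lit 2282) l58 (.c (nat_lit 2652) l195 (.c (nat_lit 2483) l58 (.c (nat_lit 2239) l55 (.c (nat_lit 2186) l55 (.c (nat_lit 2573) l62 (.c (nat_lit 2720) l195 (.c (nat_lit 1855) l45 (.c (nat_lit 2659) l82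 (.c (nat_lit 2659) l187 (.c (nat_lit 2701) l62 (.c (nat_lit 2701) l139 u3_54))))))))))))))))))))))))))))))))))))))))
noncomputable def u3_56 : St := (.c (nat_lit 2589) l60 (.c (nat_lit 2725) l185 (.c (nat_lit 2623) l61 (.c (nat_lit 2285) l47 (.c (nat_lit 2645) l58 (.c (nat_lit 2303) l45 (.c (nat_lit 2448) l47 (.c (nat_lit 2453) l45 (.c (nat_lit 1109) l58 (.c (nat_lit 2655) l61 (.c (nat_lit 2614) l45 (.c (nat_lit 2701) l90 (.c (nat_lit 2628) l45 (.c (nat_lit 1109) l45 (.c (nat_lit 2186) l45 (.c (nat_lit 2437) l45 (.c (nat_lit 2448) l62 (.c (nat_lit 2593) l82 (.c (nat_lit 2442) l43 (.c (nat_lit 2624) l55 (.c (nat_lit 2492) l58 (.c (nat_lit 2732) l199 (.c (nat_lit 2625) l61 (.c (nat_lit 2645) l45 (.c (nat_lit 2610) l58 (.c (nat_lit 2655) l57 (.c (nat_lit 2437) l43 (.c (nat_lit 2719) l138 (.c (nat_lit 1154) l45 (.c (nat_lit 2478) l45 (.c (nat_lit 2725) l197 (.c (nat_lit 2682) l119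 (.c (nat_lit 2304) l44 (.c (nat_lit 1655) l55 (.c (nat_lit 2356) l43 (.c (nat_lit 1889) l45 (.c (nat_lit 1880) l43 (.c (nat_lit 1989) l45 (.c (nat_lit 2575) l58 (.c (nat_lit 2260) l45 u3_55))))))))))))))))))))))))))))))))))))))))
noncomputable def u3_57 : St := (.c (nat_lit 1705) l45 (.c (nat_lit 1877) l61 (.c (nat_lit 1870) l45 (.c (nat_lit 2207) l58 (.c (nat_lit 2415) l55 (.c (nat_lit 1847) l45 (.c (nat_lit 2698) l86 (.c (nat_lit 2698) l47 (.c (nat_lit 2732) l201 (.c (nat_lit 2443) l58 (.c (nat_lit 2719) l60 (.c (nat_lit 1529) l55 (.c (nat_lit 2196) l47 (.c (nat_lit 1889) l55 (.c (nat_lit 763) l55 (.c (nat_lit 2712) l82 (.c (nat_lit 2732) l197 (.c (nat_lit 2725) l119 (.c (nat_lit 2297) l45 (.c (nat_lit 2505) l58 (.c (nat_lit 2725) l85 (.c (nat_lit 2477) l47 (.c (nat_lit 2725) l121 (.c (nat_lit 2492) l45 (.c (nat_lit 2712) l95 (.c (nat_lit 2589) l43 (.c (nat_lit 763) l58 (.c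 (nat_lit 2720) l58 (.c (nat_lit 2208) l55 (.c (nat_lit 2593) l58 (.c (nat_lit 1859) l60 (.c (nat_lit 2712) l84 (.c (nat_lit 1859) l43 (.c (nat_lit 2499) l44 (.c (nat_lit 2468) l44 (.c (nat_lit 1877) l47 (.c (nat_lit 2196) l62 (.c (nat_lit 2719) l89 (.c (nat_lit 2438) l44 (.c (nat_lit 2446) l55 u3_56))))))))))))))))))))))))))))))))))))))))
noncomputable def u3_58 : St := (.c (nat_lit 1854) l43 (.c (nat_lit 1853) l55 (.c (nat_lit 1972) l55 (.c (nat_lit 1941) l55 (.c (nat_lit 1969) l62 (.c (nat_lit 2193) l55 (.c (nat_lit 1221) l58 (.c (nat_lit 1961) l55 (.c (nat_lit 2353) l62 (.c (nat_lit 2564) l60 (.c (nat_lit 2105) l43 (.c (nat_lit 2262) l47 (.c (nat_lit 2478) l58 (.c (nat_lit 1960) l62 (.c (nat_lit 1547) l45 (.c (nat_lit 2655) l89 (.c (nat_lit 2224) l45 (.c (nat_lit 2305) l187 (.c (nat_lit 1476) l55 (.c (nat_lit 870) l55 (.c (nat_lit 1210) l45 (.c (nat_lit 2282) l82 (.c (nat_lit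 2312) l60 (.c (nat_lit 2210) l60 (.c (nat_lit 2114) l60 (.c (nat_lit 1602) l45 (.c (nat_lit 1631) l45 (.c (nat_lit 2437) l55 (.c (nat_lit 2575) l61 (.c (nat_lit 1789) l45 (.c (nat_lit 1750) l45 (.c (nat_lit 1806) l45 (.c (nat_lit 1568) l45 (.c (nat_lit 2725) l123 (.c (nat_lit 2502) l82 (.c (nat_lit 2070) l58 (.c (nat_lit 1257) l45 (.c (nat_lit 2159) l58 (.c (nat_lit 2247) l45 .e)))))))))))))))))))))))))))))))))))))))
noncomputable def u3_59 : St := (.c (nat_lit 2003) l58 (.c (nat_lit 1993) l58 (.c (nat_lit 1530) l58 (.c (nat_lit 2250) l45 (.c (nat_lit 2061) l45 (.c (nat_lit 2288) l45 (.c (nat_lit 2421) l44 (.c (nat_lit 2657) l58 (.c (nat_lit 2658) l61 (.c (nat_lit 2421) l61 (.c (nat_lit 2390) l60 (.c (nat_lit 2423) l61 (.c (nat_lit 2034) l45 (.c (nat_lit 1950) l45 (.c (nat_lit 1634) l58 (.c (nat_lit 1608) l45 (.c (nat_lit 2150) l58 (.c (nat_lit 2163) l58 (.c (nat_lit 2573)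 l86 (.c (nat_lit 1955) l58 (.c (nat_lit 1991) l44 (.c (nat_lit 1860) l58 (.c (nat_lit 2274) l61 (.c (nat_lit 1941) l58 (.c (nat_lit 2353) l61 (.c (nat_lit 2194) l58 (.c (nat_lit 2499) l61 (.c (nat_lit 2453) l55 (.c (nat_lit 2659) l195 (.c (nat_lit 1853) l58 (.c (nat_lit 1105) l55 (.c (nat_lit 1854) l62 (.c (nat_lit 2285) l44 (.c (nat_lit 1105) l45 (.c (nat_lit 1604) l58 (.c (nat_lit 2448) l90 (.c (nat_lit 1585) l45 (.c (nat_lit 2448) l139 (.c (nat_lit 1891) l62 (.c (nat_lit 2278) l43 u3_58))))))))))))))))))))))))))))))))))))))))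
noncomputable def u3_60 : St := (.c (nat_lit 2701) l139 (.c (nat_lit 2720) l187 (.c (nat_lit 1101) l45 (.c (nat_lit 2477) l62 (.c (nat_lit 1879) l45 (.c (nat_lit 1972) l45 (.c (nat_lit 870) l58 (.c (nat_lit 2312) l43 (.c (nat_lit 2262) l44 (.c (nat_lit 1960) l47 (.c (nat_lit 1768) l55 (.c (nat_lit 1814) l55 (.c (nat_lit 1859) l47 (.c (nat_lit 1861) l44 (.c (nat_lit 2544) l44 (.c (nat_lit 1877) l62 (.c (nat_lit 2226) l58 (.c (nat_lit 2443) l82 (.c (nat_lit 1523) l58 (.c (nat_lit 2262) l61 (.c (nat_lit 2282) l61 (.c (nat_lit 2207) l82 (.c (nat_lit 2493) l43 (.c (nat_lit 2501) l82 (.c (nat_lit 2273) l45 (.c (nat_lit 2720) l253 (.c (nat_lit 1647) l45 (.c (nat_lit 1861) l47 (.c (nat_lit 2273) l58 (.c (nat_lit 2013) l55 (.c (nat_lit 2210) l43 (.c (nat_lit 2501) l55 (.c (nat_lit 2193) l43 (.c (nat_lit 2168) l55 (.c (nat_lit 1894) l43 (.c (nat_lit 2003) l55 (.c (nat_lit 2070) l55 (.c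 (nat_lit 2422) l60 (.c (nat_lit 2732) l190 (.c (nat_lit 1571) l45 u3_59))))))))))))))))))))))))))))))))))))))))
noncomputable def u3_61 : St := (.c (nat_lit 2575) l58 (.c (nat_lit 2260) l45 (.c (nat_lit 1947) l45 (.c (nat_lit 2423) l58 (.c (nat_lit 2610) l45 (.c (nat_lit 2486) l45 (.c (nat_lit 2618) l55 (.c (nat_lit 2698) l62 (.c (nat_lit 2592) l60 (.c (nat_lit 2628) l55 (.c (nat_lit 2492) l61 (.c (nat_lit 2445) l60 (.c (nat_lit 2624) l82 (.c (nat_lit 2699) l253 (.c (nat_lit 2614) l55 (.c (nat_lit 2655) l62 (.c (nat_lit 2272) l58 (.c (nat_lit 2712) l183 (.c (nat_lit 2282) l55 (.c (nat_lit 2114) l43 (.c (nat_lit 2226) l45 (.c (nat_lit 2698) l135 (.c (nat_lit 2438) l58 (.c (nat_lit 1872) l45 (.c (nat_lit 2272) l45 (.c (nat_lit 1872) l55 (.c (nat_lit 2506) l61 (.c (nat_lit 2306) l58 (.c (nat_lit 2267) l45 (.c (nat_lit 2282) l58 (.c (nat_lit 2652) l195 (.c (nat_lit 2483) l58 (.c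 (nat_lit 2239) l55 (.c (nat_lit 2186) l55 (.c (nat_lit 2573) l62 (.c (nat_lit 2720) l195 (.c (nat_lit 1855) l45 (.c (nat_lit 2659) l82 (.c (nat_lit 2659) l187 (.c (nat_lit 2701) l62 u3_60))))))))))))))))))))))))))))))))))))))))
noncomputable def u3_62 : St := (.c (nat_lit 2285) l47 (.c (nat_lit 2645) l58 (.c (nat_lit 2298) l43 (.c (nat_lit 2448) l47 (.c (nat_lit 2453) l45 (.c (nat_lit 1109) l58 (.c (nat_lit 2655) l61 (.c (nat_lit 2614) l45 (.c (nat_lit 2701) l90 (.c (nat_lit 2628) l45 (.c (nat_lit 1109) l45 (.c (nat_lit 2186) l45 (.c (nat_lit 2437) l45 (.c (nat_lit 2448) l62 (.c (nat_lit 1132) l45 (.c (nat_lit 2593) l82 (.c (nat_lit 2442) l43 (.c (nat_lit 2624) l55 (.c (nat_lit 2492) l58 (.c (nat_lit 2732) l199 (.c (nat_lit 2318) l45 (.c (nat_lit 2553) l45 (.c (nat_lit 1875) l45 (.c (nat_lit 2625) l61 (.c (nat_lit 2645) l45 (.c (nat_lit 2610) l58 (.c (nat_lit 2655) l57 (.c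 (nat_lit 2437) l43 (.c (nat_lit 2719) l138 (.c (nat_lit 1154) l45 (.c (nat_lit 2478) l45 (.c (nat_lit 2725) l197 (.c (nat_lit 2682) l119 (.c (nat_lit 2304) l44 (.c (nat_lit 1655) l55 (.c (nat_lit 2561) l45 (.c (nat_lit 1889) l45 (.c (nat_lit 2179) l45 (.c (nat_lit 2109) l45 (.c (nat_lit 1989) l45 u3_61))))))))))))))))))))))))))))))))))))))))
noncomputable def u3_63 : St := (.c (nat_lit 1705) l45 (.c (nat_lit 1984) l45 (.c (nat_lit 1877) l61 (.c (nat_lit 2419) l55 (.c (nat_lit 1980) l45 (.c (nat_lit 2207) l58 (.c (nat_lit 2415) l55 (.c (nat_lit 2698) l86 (.c (nat_lit 2698) l47 (.c (nat_lit 2732) l201 (.c (nat_lit 2443) l58 (.c (nat_lit 2719) l60 (.c (nat_lit 2196) l47 (.c (nat_lit 763) l55 (.c (nat_lit 2712) l82 (.c (nat_lit 2732) l197 (.c (nat_lit 2725) l119 (.c (nat_lit 2725) l85 (.c (nat_lit 2477) l47 (.c (nat_lit 2725) l121 (.c (nat_lit 2492) l45 (.c (nat_lit 2712) l95 (.c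 (nat_lit 2589) l43 (.c (nat_lit 763) l58 (.c (nat_lit 2211) l45 (.c (nat_lit 2720) l58 (.c (nat_lit 2593) l58 (.c (nat_lit 1859) l60 (.c (nat_lit 2712) l84 (.c (nat_lit 1859) l43 (.c (nat_lit 2499) l44 (.c (nat_lit 2468) l44 (.c (nat_lit 1877) l47 (.c (nat_lit 2196) l62 (.c (nat_lit 2719) l89 (.c (nat_lit 2438) l44 (.c (nat_lit 2446) l55 (.c (nat_lit 2589) l60 (.c (nat_lit 2725) l185 (.c (nat_lit 2623) l61 u3_62))))))))))))))))))))))))))))))))))))))))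
noncomputable def u3_64 : St := (.c (nat_lit 1972) l55 (.c (nat_lit 1941) l55 (.c (nat_lit 1969) l62 (.c (nat_lit 2193) l55 (.c (nat_lit 1221) l58 (.c (nat_lit 1961) l55 (.c (nat_lit 2353) l62 (.c (nat_lit 2564) l60 (.c (nat_lit 2105) l43 (.c (nat_lit 2262) l47 (.c (nat_lit 2478) l58 (.c (nat_lit 1960) l62 (.c (nat_lit 1547) l45 (.c (nat_lit 2655) l89 (.c (nat_lit 2224) l45 (.c (nat_lit 2305) l187 (.c (nat_lit 1476) l55 (.c (nat_lit 870) l55 (.c (nat_lit 1210) l45 (.c (nat_lit 2282) l82 (.c (nat_lit 2312) l60 (.c (nat_lit 2210) l60 (.c (nat_lit 1631) l45 (.c (nat_lit 2437) l55 (.c (nat_lit 2575) l61 (.c (nat_lit 1706) l45 (.c (nat_lit 1568) l45 (.c (nat_lit 2725) l123 (.c (nat_lit 1521) l45 (.c (nat_lit 1257) l45 (.c (nat_lit 1704) l45 (.c (nat_lit 1238) l45 (.c (nat_lit 2337) l45 .e)))))))))))))))))))))))))))))))))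
noncomputable def u3_65 : St := (.c (nat_lit 2421) l44 (.c (nat_lit 2657) l58 (.c (nat_lit 2421) l61 (.c (nat_lit 2390) l60 (.c (nat_lit 2173) l61 (.c (nat_lit 2170) l47 (.c (nat_lit 2423) l61 (.c (nat_lit 2034) l45 (.c (nat_lit 2069) l55 (.c (nat_lit 1509) l55 (.c (nat_lit 1634) l58 (.c (nat_lit 2170) l62 (.c (nat_lit 2171) l58 (.c (nat_lit 2008) l44 (.c (nat_lit 1157) l45 (.c (nat_lit 1608) l45 (.c (nat_lit 2573) l86 (.c (nat_lit 1955) l58 (.c (nat_lit 1991) l44 (.c (nat_lit 1860) l58 (.c (nat_lit 2274) l61 (.c (nat_lit 1941) l58 (.c (nat_lit 2353) l61 (.c (nat_lit 2194) l58 (.c (nat_lit 2499) l61 (.c (nat_lit 2453) l55 (.c (nat_lit 2659) l195 (.c (nat_lit 1853) l58 (.c (nat_lit 1105) l55 (.c (nat_lit 1854) l62 (.c (nat_lit 2285) l44 (.c (nat_lit 1105) l45 (.c (nat_lit 1604) l58 (.c (nat_lit 2448) l90 (.c (nat_lit 1585) l45 (.c (nat_lit 2448) l139 (.c (nat_lit 1891) l62 (.c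 (nat_lit 2278) l43 (.c (nat_lit 1854) l43 (.c (nat_lit 1853) l55 u3_64))))))))))))))))))))))))))))))))))))))))
noncomputable def u3_66 : St := (.c (nat_lit 2262) l44 (.c (nat_lit 1960) l47 (.c (nat_lit 2158) l55 (.c (nat_lit 1768) l55 (.c (nat_lit 1859) l47 (.c (nat_lit 1861) l44 (.c (nat_lit 2544) l44 (.c (nat_lit 1877) l62 (.c (nat_lit 2226) l58 (.c (nat_lit 2443) l82 (.c (nat_lit 1523) l58 (.c (nat_lit 2262) l61 (.c (nat_lit 2282) l61 (.c (nat_lit 2207) l82 (.c (nat_lit 2493) l43 (.c (nat_lit 2501) l82 (.c (nat_lit 2273) l45 (.c (nat_lit 2720) l253 (.c (nat_lit 1647) l45 (.c (nat_lit 1861) l47 (.c (nat_lit 2273) l58 (.c (nat_lit 2013) l55 (.c (nat_lit 2210) l43 (.c (nat_lit 2501) l55 (.c (nat_lit 2193) l43 (.c (nat_lit 2170) l43 (.c (nat_lit 2168) l55 (.c (nat_lit 1994) l43 (.c (nat_lit 1894) l43 (.c (nat_lit 2003) l55 (.c (nat_lit 1994) l60 (.c (nat_lit 2160) l43 (.c (nat_lit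 2131) l55 (.c (nat_lit 2732) l190 (.c (nat_lit 2003) l58 (.c (nat_lit 1993) l58 (.c (nat_lit 1530) l58 (.c (nat_lit 2250) l45 (.c (nat_lit 2061) l45 (.c (nat_lit 2288) l45 u3_65))))))))))))))))))))))))))))))))))))))))
noncomputable def u3_67 : St := (.c (nat_lit 2618) l55 (.c (nat_lit 2698) l62 (.c (nat_lit 2592) l60 (.c (nat_lit 2628) l55 (.c (nat_lit 2492) l61 (.c (nat_lit 2445) l60 (.c (nat_lit 2624) l82 (.c (nat_lit 2699) l253 (.c (nat_lit 2614) l55 (.c (nat_lit 2655) l62 (.c (nat_lit 2272) l58 (.c (nat_lit 2712) l183 (.c (nat_lit 2282) l55 (.c (nat_lit 2226) l45 (.c (nat_lit 2698) l135 (.c (nat_lit 2438) l58 (.c (nat_lit 1872) l45 (.c (nat_lit 2272) l45 (.c (nat_lit 1872) l55 (.c (nat_lit 2506) l61 (.c (nat_lit 2306) l58 (.c (nat_lit 2267) l45 (.c (nat_lit 2282) l58 (.c (nat_lit 2652) l195 (.c (nat_lit 2483) l58 (.c (nat_lit 2239) l55 (.c (nat_lit 2186) l55 (.c (nat_lit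 2573) l62 (.c (nat_lit 2720) l195 (.c (nat_lit 1855) l45 (.c (nat_lit 2659) l82 (.c (nat_lit 2659) l187 (.c (nat_lit 2701) l62 (.c (nat_lit 2701) l139 (.c (nat_lit 2720) l187 (.c (nat_lit 1101) l45 (.c (nat_lit 2477) l62 (.c (nat_lit 1972) l45 (.c (nat_lit 870) l58 (.c (nat_lit 2312) l43 u3_66))))))))))))))))))))))))))))))))))))))))
noncomputable def u3_68 : St := (.c (nat_lit 2448) l47 (.c (nat_lit 2453) l45 (.c (nat_lit 1109) l58 (.c (nat_lit 2655) l61 (.c (nat_lit 2614) l45 (.c (nat_lit 2701) l90 (.c (nat_lit 2628) l45 (.c (nat_lit 1109) l45 (.c (nat_lit 2186) l45 (.c (nat_lit 2437) l45 (.c (nat_lit 2448) l62 (.c (nat_lit 2593) l82 (.c (nat_lit 2442) l43 (.c (nat_lit 2624) l55 (.c (nat_lit 2492) l58 (.c (nat_lit 2732) l199 (.c (nat_lit 2625) l61 (.c (nat_lit 2645) l45 (.c (nat_lit 2610) l58 (.c (nat_lit 2655) l57 (.c (nat_lit 2437) l43 (.c (nat_lit 2719) l138 (.c (nat_lit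 1994) l47 (.c (nat_lit 1154) l45 (.c (nat_lit 2478) l45 (.c (nat_lit 2725) l197 (.c (nat_lit 2682) l119 (.c (nat_lit 2304) l44 (.c (nat_lit 1655) l55 (.c (nat_lit 2356) l43 (.c (nat_lit 2117) l62 (.c (nat_lit 1768) l58 (.c (nat_lit 1989) l45 (.c (nat_lit 2575) l58 (.c (nat_lit 2260) l45 (.c (nat_lit 1947) l45 (.c (nat_lit 2423) l58 (.c (nat_lit 2610) l45 (.c (nat_lit 2486) l45 (.c (nat_lit 2265) l43 u3_67))))))))))))))))))))))))))))))))))))))))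
noncomputable def u3_69 : St := (.c (nat_lit 1877) l61 (.c (nat_lit 2207) l58 (.c (nat_lit 2415) l55 (.c (nat_lit 2698) l86 (.c (nat_lit 2698) l47 (.c (nat_lit 2732) l201 (.c (nat_lit 2443) l58 (.c (nat_lit 2719) l60 (.c (nat_lit 2196) l47 (.c (nat_lit 763) l55 (.c (nat_lit 2712) l82 (.c (nat_lit 2732) l197 (.c (nat_lit 2725) l119 (.c (nat_lit 2297) l45 (.c (nat_lit 2505) l58 (.c (nat_lit 2725) l85 (.c (nat_lit 2477) l47 (.c (nat_lit 2725) l121 (.c (nat_lit 2492) l45 (.c (nat_lit 2712) l95 (.c (nat_lit 2589) l43 (.c (nat_lit 763) l58 (.c (nat_lit 2720) l58 (.c (nat_lit 2593) l58 (.c (nat_lit 1859) l60 (.c (nat_lit 2712) l84 (.c (nat_lit 1859) l43 (.c (nat_lit 2499) l44 (.c (nat_lit 2468) l44 (.c (nat_lit 1877) l47 (.c (nat_lit 2196) l62 (.c (nat_lit 2719) l89 (.c (nat_lit 2438) l44 (.c (nat_lit 2446) l55 (.c (nat_lit 2589) l60 (.c (nat_lit 2725) l185 (.c (nat_lit 2623) l61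 (.c (nat_lit 2285) l47 (.c (nat_lit 2645) l58 (.c (nat_lit 2303) l45 u3_68))))))))))))))))))))))))))))))))))))))))
noncomputable def u3_70 : St := (.c (nat_lit 1257) l45 (.c (nat_lit 1574) l45 (.c (nat_lit 1704) l45 (.c (nat_lit 2391) l82 .e))))
noncomputable def u3_71 : St := (.c (nat_lit 1585) l45 (.c (nat_lit 2448) l139 (.c (nat_lit 1891) l62 (.c (nat_lit 2278) l43 (.c (nat_lit 1854) l43 (.c (nat_lit 1853) l55 (.c (nat_lit 1972) l55 (.c (nat_lit 1941) l55 (.c (nat_lit 1969) l62 (.c (nat_lit 2193) l55 (.c (nat_lit 1221) l58 (.c (nat_lit 1961) l55 (.c (nat_lit 2353) l62 (.c (nat_lit 2564) l60 (.c (nat_lit 2105) l43 (.c (nat_lit 2262) l47 (.c (nat_lit 2478) l58 (.c (nat_lit 1960) l62 (.c (nat_lit 1547) l45 (.c (nat_lit 2655) l89 (.c (nat_lit 2224) l45 (.c (nat_lit 2305) l187 (.c (nat_lit 1476) l55 (.c (nat_lit 870) l55 (.c (nat_lit 1210) l45 (.c (nat_lit 2282) l82 (.c (nat_lit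 2312) l60 (.c (nat_lit 2210) l60 (.c (nat_lit 1602) l45 (.c (nat_lit 2725) l190 (.c (nat_lit 2437) l55 (.c (nat_lit 2575) l61 (.c (nat_lit 1626) l45 (.c (nat_lit 1762) l55 (.c (nat_lit 2334) l55 (.c (nat_lit 2720) l129 (.c (nat_lit 1789) l45 (.c (nat_lit 1750) l45 (.c (nat_lit 1706) l45 (.c (nat_lit 2725) l123 u3_70))))))))))))))))))))))))))))))))))))))))
noncomputable def u3_72 : St := (.c (nat_lit 1994) l43 (.c (nat_lit 2003) l55 (.c (nat_lit 1994) l60 (.c (nat_lit 2070) l55 (.c (nat_lit 2160) l43 (.c (nat_lit 1836) l55 (.c (nat_lit 2414) l43 (.c (nat_lit 2006) l45 (.c (nat_lit 2732) l190 (.c (nat_lit 1571) l45 (.c (nat_lit 2388) l55 (.c (nat_lit 1993) l58 (.c (nat_lit 2422) l82 (.c (nat_lit 2413) l58 (.c (nat_lit 2387) l43 (.c (nat_lit 2206) l43 (.c (nat_lit 2173) l61 (.c (nat_lit 2170) l47 (.c (nat_lit 2034) l45 (.c (nat_lit 2069) l55 (.c (nat_lit 2171) l58 (.c (nat_lit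 1608) l45 (.c (nat_lit 2573) l86 (.c (nat_lit 1955) l58 (.c (nat_lit 1991) l44 (.c (nat_lit 1860) l58 (.c (nat_lit 2274) l61 (.c (nat_lit 1941) l58 (.c (nat_lit 2353) l61 (.c (nat_lit 2194) l58 (.c (nat_lit 2499) l61 (.c (nat_lit 2453) l55 (.c (nat_lit 2659) l195 (.c (nat_lit 1853) l58 (.c (nat_lit 1105) l55 (.c (nat_lit 1854) l62 (.c (nat_lit 2285) l44 (.c (nat_lit 1105) l45 (.c (nat_lit 1604) l58 (.c (nat_lit 2448) l90 u3_71))))))))))))))))))))))))))))))))))))))))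
noncomputable def u3_73 : St := (.c (nat_lit 2720) l195 (.c (nat_lit 1855) l45 (.c (nat_lit 2659) l82 (.c (nat_lit 2659) l187 (.c (nat_lit 2701) l62 (.c (nat_lit 2701) l139 (.c (nat_lit 2720) l187 (.c (nat_lit 1101) l45 (.c (nat_lit 2477) l62 (.c (nat_lit 1972) l45 (.c (nat_lit 870) l58 (.c (nat_lit 2312) l43 (.c (nat_lit 2262) l44 (.c (nat_lit 1946) l55 (.c (nat_lit 1960) l47 (.c (nat_lit 2158) l55 (.c (nat_lit 1768) l55 (.c (nat_lit 1814) l55 (.c (nat_lit 1859) l47 (.c (nat_lit 1861) l44 (.c (nat_lit 2544) l44 (.c (nat_lit 1877) l62 (.c (nat_lit 2226) l58 (.c (nat_lit 2443) l82 (.c (nat_lit 1523) l58 (.c (nat_lit 2262) l61 (.c (nat_lit 2282) l61 (.c (nat_lit 2207) l82 (.c (nat_lit 2493) l43 (.c (nat_lit 2501) l82 (.c (nat_lit 2273) l45 (.c (nat_lit 2720) l253 (.c (nat_lit 1647) l45 (.c (nat_lit 1861) l47 (.c (nat_lit 2273) l58 (.c (nat_lit 2013) l55 (.c (nat_lit 2210) l43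 (.c (nat_lit 2501) l55 (.c (nat_lit 2193) l43 (.c (nat_lit 2170) l43 u3_72))))))))))))))))))))))))))))))))))))))))
noncomputable def u3_74 : St := (.c (nat_lit 2304) l44 (.c (nat_lit 1655) l55 (.c (nat_lit 2356) l43 (.c (nat_lit 2561) l45 (.c (nat_lit 2334) l45 (.c (nat_lit 2391) l58 (.c (nat_lit 2413) l45 (.c (nat_lit 1947) l45 (.c (nat_lit 2422) l55 (.c (nat_lit 2610) l45 (.c (nat_lit 2486) l45 (.c (nat_lit 2265) l43 (.c (nat_lit 2618) l55 (.c (nat_lit 2698) l62 (.c (nat_lit 2592) l60 (.c (nat_lit 2628) l55 (.c (nat_lit 2492) l61 (.c (nat_lit 2445) l60 (.c (nat_lit 2624) l82 (.c (nat_lit 2699) l253 (.c (nat_lit 2614) l55 (.c (nat_lit 2655) l62 (.c (nat_lit 2272) l58 (.c (nat_lit 2712) l183 (.c (nat_lit 2282) l55 (.c (nat_lit 2226) l45 (.c (nat_lit 2698) l135 (.c (nat_lit 2438) l58 (.c (nat_lit 1872) l45 (.c (nat_lit 2272) l45 (.c (nat_lit 1872) l55 (.c (nat_lit 2506) l61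 (.c (nat_lit 2306) l58 (.c (nat_lit 2267) l45 (.c (nat_lit 2282) l58 (.c (nat_lit 2652) l195 (.c (nat_lit 2483) l58 (.c (nat_lit 2239) l55 (.c (nat_lit 2186) l55 (.c (nat_lit 2573) l62 u3_73))))))))))))))))))))))))))))))))))))))))
noncomputable def u3_75 : St := (.c (nat_lit 2589) l60 (.c (nat_lit 2725) l185 (.c (nat_lit 2623) l61 (.c (nat_lit 2285) l47 (.c (nat_lit 2645) l58 (.c (nat_lit 2303) l45 (.c (nat_lit 2448) l47 (.c (nat_lit 2453) l45 (.c (nat_lit 1109) l58 (.c (nat_lit 2655) l61 (.c (nat_lit 2614) l45 (.c (nat_lit 2701) l90 (.c (nat_lit 2628) l45 (.c (nat_lit 1109) l45 (.c (nat_lit 2186) l45 (.c (nat_lit 2437) l45 (.c (nat_lit 2448) l62 (.c (nat_lit 2593) l82 (.c (nat_lit 2442) l43 (.c (nat_lit 2624) l55 (.c (nat_lit 2571) l55 (.c (nat_lit 2492) l58 (.c (nat_lit 2732) l199 (.c (nat_lit 2356) l47 (.c (nat_lit 2160) l47 (.c (nat_lit 2265) l47 (.c (nat_lit 2625) l61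 (.c (nat_lit 2645) l45 (.c (nat_lit 2610) l58 (.c (nat_lit 2655) l57 (.c (nat_lit 2437) l43 (.c (nat_lit 2719) l138 (.c (nat_lit 1994) l47 (.c (nat_lit 1154) l45 (.c (nat_lit 2478) l45 (.c (nat_lit 2551) l44 (.c (nat_lit 2633) l55 (.c (nat_lit 2682) l119 (.c (nat_lit 1893) l58 (.c (nat_lit 2411) l47 u3_74))))))))))))))))))))))))))))))))))))))))
noncomputable def u3_76 : St := (.c (nat_lit 1705) l45 (.c (nat_lit 1877) l61 (.c (nat_lit 2207) l58 (.c (nat_lit 2415) l55 (.c (nat_lit 2720) l61 (.c (nat_lit 2698) l86 (.c (nat_lit 2698) l47 (.c (nat_lit 2732) l201 (.c (nat_lit 2443) l58 (.c (nat_lit 2719) l60 (.c (nat_lit 2196) l47 (.c (nat_lit 763) l55 (.c (nat_lit 2712) l82 (.c (nat_lit 2633) l45 (.c (nat_lit 2732) l197 (.c (nat_lit 2725) l119 (.c (nat_lit 2505) l58 (.c (nat_lit 2568) l47 (.c (nat_lit 2725) l85 (.c (nat_lit 2477) l47 (.c (nat_lit 2725) l121 (.c (nat_lit 2492) l45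 (.c (nat_lit 2712) l95 (.c (nat_lit 2589) l43 (.c (nat_lit 763) l58 (.c (nat_lit 2720) l58 (.c (nat_lit 2593) l58 (.c (nat_lit 2571) l82 (.c (nat_lit 1859) l60 (.c (nat_lit 2712) l84 (.c (nat_lit 2356) l44 (.c (nat_lit 2265) l44 (.c (nat_lit 1859) l43 (.c (nat_lit 2499) l44 (.c (nat_lit 2468) l44 (.c (nat_lit 1877) l47 (.c (nat_lit 2196) l62 (.c (nat_lit 2719) l89 (.c (nat_lit 2438) l44 (.c (nat_lit 2446) l55 u3_75))))))))))))))))))))))))))))))))))))))))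
noncomputable def u3_77 : St := (.c (nat_lit 1950) l45 (.c (nat_lit 2067) l45 (.c (nat_lit 2069) l55 (.c (nat_lit 2170) l62 (.c (nat_lit 2171) l58 (.c (nat_lit 2008) l44 (.c (nat_lit 2150) l58 (.c (nat_lit 2163) l58 (.c (nat_lit 2114) l60 (.c (nat_lit 1631) l45 (.c (nat_lit 1626) l45 (.c (nat_lit 1762) l55 (.c (nat_lit 1789) l45 (.c (nat_lit 1750) l45 (.c (nat_lit 1806) l45 (.c (nat_lit 1706) l45 (.c (nat_lit 2502) l82 (.c (nat_lit 2070) l58 (.c (nat_lit 1521) l45 (.c (nat_lit 1257) l45 (.c (nat_lit 1574) l45 (.c (nat_lit 2074) l45 (.c (nat_lit 2159) l58 (.c (nat_lit 1701) l45 (.c (nat_lit 1939) l45 (.c (nat_lit 1191) l45 .e))))))))))))))))))))))))))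
noncomputable def u3_78 : St := (.c (nat_lit 1705) l45 (.c (nat_lit 1984) l45 (.c (nat_lit 2419) l55 (.c (nat_lit 1980) l45 (.c (nat_lit 1870) l45 (.c (nat_lit 1847) l45 (.c (nat_lit 2297) l45 (.c (nat_lit 2505) l58 (.c (nat_lit 2211) l45 (.c (nat_lit 2298) l43 (.c (nat_lit 2303) l45 (.c (nat_lit 1132) l45 (.c (nat_lit 2318) l45 (.c (nat_lit 2553) l45 (.c (nat_lit 1875) l45 (.c (nat_lit 1994) l47 (.c (nat_lit 2356) l43 (.c (nat_lit 2561) l45 (.c (nat_lit 1889) l45 (.c (nat_lit 2179) l45 (.c (nat_lit 2117) l62 (.c (nat_lit 2109) l45 (.c (nat_lit 1768) l58 (.c (nat_lit 2265) l43 (.c (nat_lit 2114) l43 (.c (nat_lit 1879) l45 (.c (nat_lit 2158) l55 (.c (nat_lit 2170) l43 (.c (nat_lit 1994) l43 (.c (nat_lit 1994) l60 (.c (nat_lit 2070) l55 (.c (nat_lit 2160) l43 (.c (nat_lit 2422) l60 (.c (nat_lit 2131) l55 (.c (nat_lit 1571) l45 (.c (nat_lit 2061) l45 (.c (nat_lit 2288) l45 (.c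 (nat_lit 2658) l61 (.c (nat_lit 2173) l61 (.c (nat_lit 2170) l47 u3_77))))))))))))))))))))))))))))))))))))))))
noncomputable def u3_79 : St := (.c (nat_lit 1950) l45 (.c (nat_lit 2067) l45 (.c (nat_lit 2069) l55 (.c (nat_lit 2170) l62 (.c (nat_lit 2171) l58 (.c (nat_lit 2008) l44 (.c (nat_lit 2150) l58 (.c (nat_lit 2163) l58 (.c (nat_lit 2114) l60 (.c (nat_lit 1631) l45 (.c (nat_lit 1626) l45 (.c (nat_lit 1762) l55 (.c (nat_lit 1789) l45 (.c (nat_lit 1750) l45 (.c (nat_lit 1806) l45 (.c (nat_lit 1706) l45 (.c (nat_lit 2502) l82 (.c (nat_lit 2070) l58 (.c (nat_lit 1521) l45 (.c (nat_lit 1574) l45 (.c (nat_lit 2074) l45 (.c (nat_lit 2159) l58 (.c (nat_lit 1939) l45 .e)))))))))))))))))))))))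
noncomputable def u3_80 : St := (.c (nat_lit 1705) l45 (.c (nat_lit 1984) l45 (.c (nat_lit 2419) l55 (.c (nat_lit 1980) l45 (.c (nat_lit 1870) l45 (.c (nat_lit 1847) l45 (.c (nat_lit 2297) l45 (.c (nat_lit 2505) l58 (.c (nat_lit 2211) l45 (.c (nat_lit 2298) l43 (.c (nat_lit 2303) l45 (.c (nat_lit 1132) l45 (.c (nat_lit 2318) l45 (.c (nat_lit 2553) l45 (.c (nat_lit 1875) l45 (.c (nat_lit 1994) l47 (.c (nat_lit 2356) l43 (.c (nat_lit 2561) l45 (.c (nat_lit 1889) l45 (.c (nat_lit 2179) l45 (.c (nat_lit 2117) l62 (.c (nat_lit 2109) l45 (.c (nat_lit 1768) l58 (.c (nat_lit 2265) l43 (.c (nat_lit 2114) l43 (.c (nat_lit 1879) l45 (.c (nat_lit 2158) l55 (.c (nat_lit 2170) l43 (.c (nat_lit 1994) l43 (.c (nat_lit 1994) l60 (.c (nat_lit 2070) l55 (.c (nat_lit 2160) l43 (.c (nat_lit 2422) l60 (.c (nat_lit 2131) l55 (.c (nat_lit 1571) l45 (.c (nat_lit 2061) l45 (.c (nat_lit 2288) l45 (.c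 (nat_lit 2658) l61 (.c (nat_lit 2173) l61 (.c (nat_lit 2170) l47 u3_79))))))))))))))))))))))))))))))))))))))))
noncomputable def u3_81 : St := (.c (nat_lit 2170) l62 (.c (nat_lit 2171) l58 (.c (nat_lit 2008) l44 (.c (nat_lit 1157) l45 (.c (nat_lit 2150) l58 (.c (nat_lit 2163) l58 (.c (nat_lit 2168) l58 (.c (nat_lit 1631) l45 (.c (nat_lit 2575) l61 (.c (nat_lit 2502) l82 (.c (nat_lit 2070) l58 (.c (nat_lit 1521) l45 (.c (nat_lit 1574) l45 (.c (nat_lit 2074) l45 .e))))))))))))))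
noncomputable def u3_82 : St := (.c (nat_lit 1705) l45 (.c (nat_lit 1984) l45 (.c (nat_lit 2419) l55 (.c (nat_lit 1980) l45 (.c (nat_lit 2297) l45 (.c (nat_lit 2505) l58 (.c (nat_lit 2211) l45 (.c (nat_lit 2298) l43 (.c (nat_lit 2303) l45 (.c (nat_lit 1132) l45 (.c (nat_lit 2318) l45 (.c (nat_lit 2553) l45 (.c (nat_lit 1875) l45 (.c (nat_lit 1994) l47 (.c (nat_lit 2356) l43 (.c (nat_lit 2561) l45 (.c (nat_lit 1889) l45 (.c (nat_lit 2179) l45 (.c (nat_lit 2109) l45 (.c (nat_lit 2422) l55 (.c (nat_lit 2265) l43 (.c (nat_lit 1879) l45 (.c (nat_lit 2158) l55 (.c (nat_lit 1814) l55 (.c (nat_lit 2170) l43 (.c (nat_lit 1994) l43 (.c (nat_lit 1994) l60 (.c (nat_lit 2070) l55 (.c (nat_lit 2160) l43 (.c (nat_lit 2422) l60 (.c (nat_lit 2131) l55 (.c (nat_lit 2061) l45 (.c (nat_lit 2422) l82 (.c (nat_lit 2658) l61 (.c (nat_lit 2173) l61 (.c (nat_lit 2170) l47 (.c (nat_lit 2423) l61 (.c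 (nat_lit 2034) l45 (.c (nat_lit 1950) l45 (.c (nat_lit 2069) l55 u3_81))))))))))))))))))))))))))))))))))))))))
noncomputable def u3_83 : St := (.c (nat_lit 2655) l89 (.c (nat_lit 2224) l45 (.c (nat_lit 2305) l187 (.c (nat_lit 1476) l55 (.c (nat_lit 870) l55 (.c (nat_lit 1210) l45 (.c (nat_lit 2282) l82 (.c (nat_lit 2312) l60 (.c (nat_lit 2210) l60 (.c (nat_lit 2114) l60 (.c (nat_lit 2349) l45 (.c (nat_lit 1602) l45 (.c (nat_lit 2725) l190 (.c (nat_lit 2437) l55 (.c (nat_lit 2575) l61 (.c (nat_lit 1626) l45 (.c (nat_lit 1789) l45 (.c (nat_lit 1750) l45 (.c (nat_lit 1706) l45 (.c (nat_lit 2725) l123 (.c (nat_lit 1521) l45 (.c (nat_lit 1574) l45 (.c (nat_lit 2517) l45 .e)))))))))))))))))))))))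
noncomputable def u3_84 : St := (.c (nat_lit 1509) l55 (.c (nat_lit 2170) l62 (.c (nat_lit 1608) l45 (.c (nat_lit 2573) l86 (.c (nat_lit 1955) l58 (.c (nat_lit 1991) l44 (.c (nat_lit 1860) l58 (.c (nat_lit 2274) l61 (.c (nat_lit 1941) l58 (.c (nat_lit 2353) l61 (.c (nat_lit 2194) l58 (.c (nat_lit 2499) l61 (.c (nat_lit 2453) l55 (.c (nat_lit 2659) l195 (.c (nat_lit 1853) l58 (.c (nat_lit 1105) l55 (.c (nat_lit 1854) l62 (.c (nat_lit 2285) l44 (.c (nat_lit 1105) l45 (.c (nat_lit 1604) l58 (.c (nat_lit 2448) l90 (.c (nat_lit 1585) l45 (.c (nat_lit 2448) l139 (.c (nat_lit 1891) l62 (.c (nat_lit 2278) l43 (.c (nat_lit 1854) l43 (.c (nat_lit 1853) l55 (.c (nat_lit 1972) l55 (.c (nat_lit 1941) l55 (.c (nat_lit 1969) l62 (.c (nat_lit 2193) l55 (.c (nat_lit 1221) l58 (.c (nat_lit 1961) l55 (.c (nat_lit 2353) l62 (.c (nat_lit 2564) l60 (.c (nat_lit 2105) l43 (.c (nat_lit 2262) l47 (.c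 (nat_lit 2478) l58 (.c (nat_lit 1960) l62 (.c (nat_lit 1547) l45 u3_83))))))))))))))))))))))))))))))))))))))))
noncomputable def u3_85 : St := (.c (nat_lit 1877) l62 (.c (nat_lit 2226) l58 (.c (nat_lit 2443) l82 (.c (nat_lit 1523) l58 (.c (nat_lit 2262) l61 (.c (nat_lit 2282) l61 (.c (nat_lit 2207) l82 (.c (nat_lit 2493) l43 (.c (nat_lit 2501) l82 (.c (nat_lit 2273) l45 (.c (nat_lit 2720) l253 (.c (nat_lit 1861) l47 (.c (nat_lit 2273) l58 (.c (nat_lit 2013) l55 (.c (nat_lit 2210) l43 (.c (nat_lit 2501) l55 (.c (nat_lit 2193) l43 (.c (nat_lit 1994) l43 (.c (nat_lit 1894) l43 (.c (nat_lit 2003) l55 (.c (nat_lit 1994) l60 (.c (nat_lit 2160) l43 (.c (nat_lit 2422) l60 (.c (nat_lit 2414) l43 (.c (nat_lit 2006) l45 (.c (nat_lit 2131) l55 (.c (nat_lit 1571) l45 (.c (nat_lit 2003) l58 (.c (nat_lit 1993) l58 (.c (nat_lit 2061) l45 (.c (nat_lit 2288) l45 (.c (nat_lit 2242) l45 (.c (nat_lit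 2421) l44 (.c (nat_lit 2657) l58 (.c (nat_lit 2421) l61 (.c (nat_lit 2390) l60 (.c (nat_lit 2173) l61 (.c (nat_lit 2170) l47 (.c (nat_lit 2423) l61 (.c (nat_lit 2034) l45 u3_84))))))))))))))))))))))))))))))))))))))))
noncomputable def u3_86 : St := (.c (nat_lit 2624) l82 (.c (nat_lit 2699) l253 (.c (nat_lit 2614) l55 (.c (nat_lit 2655) l62 (.c (nat_lit 2272) l58 (.c (nat_lit 2712) l183 (.c (nat_lit 2282) l55 (.c (nat_lit 2114) l43 (.c (nat_lit 2226) l45 (.c (nat_lit 2698) l135 (.c (nat_lit 2438) l58 (.c (nat_lit 1872) l45 (.c (nat_lit 2272) l45 (.c (nat_lit 1872) l55 (.c (nat_lit 2506) l61 (.c (nat_lit 2267) l45 (.c (nat_lit 2282) l58 (.c (nat_lit 2652) l195 (.c (nat_lit 2483) l58 (.c (nat_lit 2239) l55 (.c (nat_lit 2186) l55 (.c (nat_lit 2573) l62 (.c (nat_lit 2720) l195 (.c (nat_lit 1855) l45 (.c (nat_lit 2659) l82 (.c (nat_lit 2659) l187 (.c (nat_lit 2701) l62 (.c (nat_lit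 2701) l139 (.c (nat_lit 2720) l187 (.c (nat_lit 1101) l45 (.c (nat_lit 2477) l62 (.c (nat_lit 1972) l45 (.c (nat_lit 870) l58 (.c (nat_lit 2312) l43 (.c (nat_lit 2262) l44 (.c (nat_lit 1960) l47 (.c (nat_lit 1814) l55 (.c (nat_lit 1859) l47 (.c (nat_lit 1861) l44 (.c (nat_lit 2544) l44 u3_85))))))))))))))))))))))))))))))))))))))))
noncomputable def u3_87 : St := (.c (nat_lit 1109) l58 (.c (nat_lit 2655) l61 (.c (nat_lit 2614) l45 (.c (nat_lit 2701) l90 (.c (nat_lit 2628) l45 (.c (nat_lit 1109) l45 (.c (nat_lit 2186) l45 (.c (nat_lit 2437) l45 (.c (nat_lit 2448) l62 (.c (nat_lit 2593) l82 (.c (nat_lit 2442) l43 (.c (nat_lit 2624) l55 (.c (nat_lit 2492) l58 (.c (nat_lit 2625) l61 (.c (nat_lit 2645) l45 (.c (nat_lit 2610) l58 (.c (nat_lit 2655) l57 (.c (nat_lit 2437) l43 (.c (nat_lit 2719) l138 (.c (nat_lit 1994) l47 (.c (nat_lit 1154) l45 (.c (nat_lit 2478) l45 (.c (nat_lit 2682)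 l119 (.c (nat_lit 2304) l44 (.c (nat_lit 1655) l55 (.c (nat_lit 2356) l43 (.c (nat_lit 1989) l45 (.c (nat_lit 2575) l58 (.c (nat_lit 2260) l45 (.c (nat_lit 1947) l45 (.c (nat_lit 2423) l58 (.c (nat_lit 2610) l45 (.c (nat_lit 2486) l45 (.c (nat_lit 2265) l43 (.c (nat_lit 2618) l55 (.c (nat_lit 2698) l62 (.c (nat_lit 2592) l60 (.c (nat_lit 2628) l55 (.c (nat_lit 2492) l61 (.c (nat_lit 2445) l60 u3_86))))))))))))))))))))))))))))))))))))))))
noncomputable def u3_88 : St := (.c (nat_lit 1877) l61 (.c (nat_lit 2207) l58 (.c (nat_lit 2415) l55 (.c (nat_lit 2698) l86 (.c (nat_lit 2698) l47 (.c (nat_lit 2443) l58 (.c (nat_lit 2719) l60 (.c (nat_lit 2196) l47 (.c (nat_lit 763) l55 (.c (nat_lit 2712) l82 (.c (nat_lit 2725) l119 (.c (nat_lit 2297) l45 (.c (nat_lit 2505) l58 (.c (nat_lit 2725) l85 (.c (nat_lit 2477) l47 (.c (nat_lit 2725) l121 (.c (nat_lit 2492) l45 (.c (nat_lit 2712) l95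 (.c (nat_lit 2589) l43 (.c (nat_lit 763) l58 (.c (nat_lit 2720) l58 (.c (nat_lit 2593) l58 (.c (nat_lit 1859) l60 (.c (nat_lit 2712) l84 (.c (nat_lit 1859) l43 (.c (nat_lit 2499) l44 (.c (nat_lit 2468) l44 (.c (nat_lit 1877) l47 (.c (nat_lit 2196) l62 (.c (nat_lit 2719) l89 (.c (nat_lit 2438) l44 (.c (nat_lit 2446) l55 (.c (nat_lit 2589) l60 (.c (nat_lit 2725) l185 (.c (nat_lit 2623) l61 (.c (nat_lit 2285) l47 (.c (nat_lit 2645) l58 (.c (nat_lit 2303) l45 (.c (nat_lit 2448) l47 (.c (nat_lit 2453) l45 u3_87))))))))))))))))))))))))))))))))))))))))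
noncomputable def u3_89 : St := (.c (nat_lit 2168) l55 (.c (nat_lit 1894) l43 (.c (nat_lit 2540) l43 (.c (nat_lit 1994) l60 (.c (nat_lit 2070) l55 (.c (nat_lit 2160) l43 (.c (nat_lit 1836) l55 (.c (nat_lit 2006) l45 (.c (nat_lit 2112) l55 (.c (nat_lit 1571) l45 (.c (nat_lit 1994) l93 (.c (nat_lit 1530) l58 (.c (nat_lit 2250) l45 (.c (nat_lit 2288) l45 (.c (nat_lit 2242) l45 (.c (nat_lit 2387) l43 (.c (nat_lit 2658) l61 (.c (nat_lit 2421) l61 (.c (nat_lit 2390) l60 (.c (nat_lit 2731) l124 (.c (nat_lit 2171) l58 (.c (nat_lit 1157) l45 (.c (nat_lit 1608) l45 (.c (nat_lit 2150) l58 (.c (nat_lit 2163) l58 (.c (nat_lit 2168) l58 (.c (nat_lit 1602) l45 (.c (nat_lit 1631) l45 (.c (nat_lit 1762) l55 (.c (nat_lit 2731) l256 .e))))))))))))))))))))))))))))))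
noncomputable def u3_90 : St := (.c (nat_lit 2383) l44 (.c (nat_lit 2719) l55 (.c (nat_lit 2641) l55 (.c (nat_lit 2576) l47 (.c (nat_lit 2559) l58 (.c (nat_lit 1946) l58 (.c (nat_lit 1132) l45 (.c (nat_lit 2401) l44 (.c (nat_lit 2325) l45 (.c (nat_lit 2571) l55 (.c (nat_lit 2354) l55 (.c (nat_lit 2732) l199 (.c (nat_lit 2444) l55 (.c (nat_lit 2414) l47 (.c (nat_lit 2383) l47 (.c (nat_lit 2389) l44 (.c (nat_lit 2553) l45 (.c (nat_lit 2430) l44 (.c (nat_lit 1994) l47 (.c (nat_lit 2551) l44 (.c (nat_lit 2633) l55 (.c (nat_lit 2718) l121 (.c (nat_lit 2411) l47 (.c (nat_lit 2561) l45 (.c (nat_lit 2390) l55 (.c (nat_lit 1889) l45 (.c (nat_lit 2117) l62 (.c (nat_lit 1542) l45 (.c (nat_lit 1768) l58 (.c (nat_lit 2562) l45 (.c (nat_lit 1989) l45 (.c (nat_lit 2569) l45 (.c (nat_lit 2575) l58 (.c (nat_lit 2368) l45 (.c (nat_lit 2560) l43 (.c (nat_lit 2700) l82 (.c (nat_lit 1946) l55 (.c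 (nat_lit 1633) l55 (.c (nat_lit 1768) l55 (.c (nat_lit 2170) l43 u3_89))))))))))))))))))))))))))))))))))))))))
noncomputable def u3_91 : St := (.c (nat_lit 1705) l45 (.c (nat_lit 2388) l58 (.c (nat_lit 2211) l58 (.c (nat_lit 1870) l45 (.c (nat_lit 2635) l57 (.c (nat_lit 2632) l45 (.c (nat_lit 2529) l47 (.c (nat_lit 2731) l89 (.c (nat_lit 2401) l47 (.c (nat_lit 2558) l55 (.c (nat_lit 1847) l45 (.c (nat_lit 2522) l55 (.c (nat_lit 2559) l45 (.c (nat_lit 2727) l82 (.c (nat_lit 2633) l45 (.c (nat_lit 1868) l45 (.c (nat_lit 2640) l61 (.c (nat_lit 2212) l44 (.c (nat_lit 2690) l60 (.c (nat_lit 2631) l43 (.c (nat_lit 2732) l197 (.c (nat_lit 2658) l93 (.c (nat_lit 2643) l62 (.c (nat_lit 2481) l45 (.c (nat_lit 2697) l55 (.c (nat_lit 2656) l45 (.c (nat_lit 2263) l55 (.c (nat_lit 2211) l45 (.c (nat_lit 2653) l55 (.c (nat_lit 2208) l55 (.c (nat_lit 2539) l45 (.c (nat_lit 2656) l55 (.c (nat_lit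 2727) l193 (.c (nat_lit 2563) l44 (.c (nat_lit 1894) l44 (.c (nat_lit 2718) l85 (.c (nat_lit 2717) l85 (.c (nat_lit 2717) l90 (.c (nat_lit 2298) l43 (.c (nat_lit 2303) l45 u3_90))))))))))))))))))))))))))))))))))))))))
noncomputable def u3_92 : St := (.c (nat_lit 2250) l45 (.c (nat_lit 2288) l45 (.c (nat_lit 2422) l82 (.c (nat_lit 2421) l44 (.c (nat_lit 2413) l58 (.c (nat_lit 2387) l43 (.c (nat_lit 2421) l61 (.c (nat_lit 2034) l45 (.c (nat_lit 2069) l55 (.c (nat_lit 1634) l58 (.c (nat_lit 2170) l62 (.c (nat_lit 1157) l45 (.c (nat_lit 2114) l60 (.c (nat_lit 2349) l45 (.c (nat_lit 1602) l45 (.c (nat_lit 2725) l190 (.c (nat_lit 2575) l61 (.c (nat_lit 1762) l55 (.c (nat_lit 2334) l55 (.c (nat_lit 1750) l45 (.c (nat_lit 1706) l45 (.c (nat_lit 2070) l58 (.c (nat_lit 1992) l55 .e)))))))))))))))))))))))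
noncomputable def u3_93 : St := (.c (nat_lit 1705) l45 (.c (nat_lit 2732) l201 (.c (nat_lit 2732) l197 (.c (nat_lit 2297) l45 (.c (nat_lit 2656) l58 (.c (nat_lit 2656) l45 (.c (nat_lit 2208) l55 (.c (nat_lit 2571) l82 (.c (nat_lit 2656) l55 (.c (nat_lit 2571) l55 (.c (nat_lit 2732) l199 (.c (nat_lit 2160) l47 (.c (nat_lit 2725) l197 (.c (nat_lit 2411) l47 (.c (nat_lit 2334) l45 (.c (nat_lit 2117) l62 (.c (nat_lit 1768) l58 (.c (nat_lit 1880) l43 (.c (nat_lit 2413) l45 (.c (nat_lit 1989) l45 (.c (nat_lit 2569) l45 (.c (nat_lit 2575) l58 (.c (nat_lit 2260) l45 (.c (nat_lit 2422) l55 (.c (nat_lit 2423) l58 (.c (nat_lit 2114) l43 (.c (nat_lit 2700) l82 (.c (nat_lit 2306) l58 (.c (nat_lit 1879) l45 (.c (nat_lit 1946) l55 (.c (nat_lit 1768) l55 (.c (nat_lit 2168) l55 (.c (nat_lit 2070) l55 (.c (nat_lit 2160) l43 (.c (nat_lit 1836) l55 (.c (nat_lit 2131) l55 (.c (nat_lit 2732) l190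 (.c (nat_lit 2388) l55 (.c (nat_lit 2003) l58 (.c (nat_lit 1530) l58 u3_92))))))))))))))))))))))))))))))))))))))))
noncomputable def u3_94 : St := (.c (nat_lit 2170) l43 (.c (nat_lit 2168) l55 (.c (nat_lit 1994) l43 (.c (nat_lit 1994) l60 (.c (nat_lit 1836) l55 (.c (nat_lit 2422) l60 (.c (nat_lit 2388) l55 (.c (nat_lit 1530) l58 (.c (nat_lit 2250) l45 (.c (nat_lit 2061) l45 (.c (nat_lit 2288) l45 (.c (nat_lit 2422) l82 (.c (nat_lit 2413) l58 (.c (nat_lit 2387) l43 (.c (nat_lit 2658) l61 (.c (nat_lit 2390) l60 (.c (nat_lit 2173) l61 (.c (nat_lit 2170) l47 (.c (nat_lit 2423) l61 (.c (nat_lit 1950) l45 (.c (nat_lit 2069) l55 (.c (nat_lit 1509) l55 (.c (nat_lit 1634) l58 (.c (nat_lit 2171) l58 (.c (nat_lit 2150) l58 (.c (nat_lit 2163) l58 (.c (nat_lit 2349) l45 (.c (nat_lit 1602) l45 (.c (nat_lit 2725) l190 (.c (nat_lit 2334) l55 (.c (nat_lit 1750) l45 (.c (nat_lit 1806) l45 (.c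 (nat_lit 1706) l45 (.c (nat_lit 1568) l45 (.c (nat_lit 2502) l82 (.c (nat_lit 2070) l58 (.c (nat_lit 1521) l45 (.c (nat_lit 1574) l45 .e))))))))))))))))))))))))))))))))))))))
noncomputable def u3_95 : St := (.c (nat_lit 1984) l45 (.c (nat_lit 2419) l55 (.c (nat_lit 1980) l45 (.c (nat_lit 2505) l58 (.c (nat_lit 2656) l58 (.c (nat_lit 2656) l45 (.c (nat_lit 2211) l45 (.c (nat_lit 2571) l82 (.c (nat_lit 2656) l55 (.c (nat_lit 2298) l43 (.c (nat_lit 2303) l45 (.c (nat_lit 1132) l45 (.c (nat_lit 2571) l55 (.c (nat_lit 2318) l45 (.c (nat_lit 2160) l47 (.c (nat_lit 2553) l45 (.c (nat_lit 1875) l45 (.c (nat_lit 1994) l47 (.c (nat_lit 2725) l197 (.c (nat_lit 2411) l47 (.c (nat_lit 2356) l43 (.c (nat_lit 2561) l45 (.c (nat_lit 2334) l45 (.c (nat_lit 1889) l45 (.c (nat_lit 2179) l45 (.c (nat_lit 2117) l62 (.c (nat_lit 2109) l45 (.c (nat_lit 1768) l58 (.c (nat_lit 2413) l45 (.c (nat_lit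 1989) l45 (.c (nat_lit 2569) l45 (.c (nat_lit 2575) l58 (.c (nat_lit 2260) l45 (.c (nat_lit 2422) l55 (.c (nat_lit 2423) l58 (.c (nat_lit 2265) l43 (.c (nat_lit 2700) l82 (.c (nat_lit 2306) l58 (.c (nat_lit 1879) l45 (.c (nat_lit 1814) l55 u3_94))))))))))))))))))))))))))))))))))))))))
noncomputable def u3_96 : St := (.c (nat_lit 1969) l62 (.c (nat_lit 2193) l55 (.c (nat_lit 1221) l58 (.c (nat_lit 1961) l55 (.c (nat_lit 2353) l62 (.c (nat_lit 2564) l60 (.c (nat_lit 2105) l43 (.c (nat_lit 2262) l47 (.c (nat_lit 2478) l58 (.c (nat_lit 1960) l62 (.c (nat_lit 1547) l45 (.c (nat_lit 2655) l89 (.c (nat_lit 2224) l45 (.c (nat_lit 2305) l187 (.c (nat_lit 1476) l55 (.c (nat_lit 870) l55 (.c (nat_lit 1210) l45 (.c (nat_lit 2282) l82 (.c (nat_lit 2312) l60 (.c (nat_lit 2210) l60 (.c (nat_lit 1631) l45 (.c (nat_lit 2437) l55 (.c (nat_lit 2575) l61 (.c (nat_lit 1762) l55 (.c (nat_lit 1568)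 l45 (.c (nat_lit 2725) l123 (.c (nat_lit 1521) l45 .e)))))))))))))))))))))))))))
noncomputable def u3_97 : St := (.c (nat_lit 2421) l44 (.c (nat_lit 2657) l58 (.c (nat_lit 2421) l61 (.c (nat_lit 2390) l60 (.c (nat_lit 2173) l61 (.c (nat_lit 2170) l47 (.c (nat_lit 2423) l61 (.c (nat_lit 2069) l55 (.c (nat_lit 1634) l58 (.c (nat_lit 2170) l62 (.c (nat_lit 2171) l58 (.c (nat_lit 2008) l44 (.c (nat_lit 1157) l45 (.c (nat_lit 1608) l45 (.c (nat_lit 2573) l86 (.c (nat_lit 1955) l58 (.c (nat_lit 1991) l44 (.c (nat_lit 1860) l58 (.c (nat_lit 2274) l61 (.c (nat_lit 1941) l58 (.c (nat_lit 2353) l61 (.c (nat_lit 2194) l58 (.c (nat_lit 2499) l61 (.c (nat_lit 2453) l55 (.c (nat_lit 2659) l195 (.c (nat_lit 1853) l58 (.c (nat_lit 1105) l55 (.c (nat_lit 1854) l62 (.c (nat_lit 2285) l44 (.c (nat_lit 1105) l45 (.c (nat_lit 1604) l58 (.c (nat_lit 2448) l90 (.c (nat_lit 1585) l45 (.c (nat_lit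 2448) l139 (.c (nat_lit 1891) l62 (.c (nat_lit 2278) l43 (.c (nat_lit 1854) l43 (.c (nat_lit 1853) l55 (.c (nat_lit 1972) l55 (.c (nat_lit 1941) l55 u3_96))))))))))))))))))))))))))))))))))))))))
noncomputable def u3_98 : St := (.c (nat_lit 2262) l44 (.c (nat_lit 1960) l47 (.c (nat_lit 2158) l55 (.c (nat_lit 1768) l55 (.c (nat_lit 1814) l55 (.c (nat_lit 1859) l47 (.c (nat_lit 1861) l44 (.c (nat_lit 2544) l44 (.c (nat_lit 1877) l62 (.c (nat_lit 2226) l58 (.c (nat_lit 2443) l82 (.c (nat_lit 1523) l58 (.c (nat_lit 2262) l61 (.c (nat_lit 2282) l61 (.c (nat_lit 2207) l82 (.c (nat_lit 2493) l43 (.c (nat_lit 2501) l82 (.c (nat_lit 2273) l45 (.c (nat_lit 2720) l253 (.c (nat_lit 1647) l45 (.c (nat_lit 1861) l47 (.c (nat_lit 2273) l58 (.c (nat_lit 2013) l55 (.c (nat_lit 2210) l43 (.c (nat_lit 2501) l55 (.c (nat_lit 2193) l43 (.c (nat_lit 2170) l43 (.c (nat_lit 2168) l55 (.c (nat_lit 1994)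 l43 (.c (nat_lit 1894) l43 (.c (nat_lit 2003) l55 (.c (nat_lit 1994) l60 (.c (nat_lit 2160) l43 (.c (nat_lit 2131) l55 (.c (nat_lit 2732) l190 (.c (nat_lit 2003) l58 (.c (nat_lit 1993) l58 (.c (nat_lit 1530) l58 (.c (nat_lit 2250) l45 (.c (nat_lit 2288) l45 u3_97))))))))))))))))))))))))))))))))))))))))
noncomputable def u3_99 : St := (.c (nat_lit 2618) l55 (.c (nat_lit 2698) l62 (.c (nat_lit 2592) l60 (.c (nat_lit 2628) l55 (.c (nat_lit 2492) l61 (.c (nat_lit 2445) l60 (.c (nat_lit 2624) l82 (.c (nat_lit 2699) l253 (.c (nat_lit 2614) l55 (.c (nat_lit 2655) l62 (.c (nat_lit 2272) l58 (.c (nat_lit 2712) l183 (.c (nat_lit 2282) l55 (.c (nat_lit 2226) l45 (.c (nat_lit 2698) l135 (.c (nat_lit 2438) l58 (.c (nat_lit 1872) l45 (.c (nat_lit 2272) l45 (.c (nat_lit 1872) l55 (.c (nat_lit 2506) l61 (.c (nat_lit 2306) l58 (.c (nat_lit 2267) l45 (.c (nat_lit 2282) l58 (.c (nat_lit 2652)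 l195 (.c (nat_lit 2483) l58 (.c (nat_lit 2239) l55 (.c (nat_lit 2186) l55 (.c (nat_lit 2573) l62 (.c (nat_lit 2720) l195 (.c (nat_lit 1855) l45 (.c (nat_lit 2659) l82 (.c (nat_lit 2659) l187 (.c (nat_lit 2701) l62 (.c (nat_lit 2701) l139 (.c (nat_lit 2720) l187 (.c (nat_lit 1101) l45 (.c (nat_lit 2477) l62 (.c (nat_lit 1972) l45 (.c (nat_lit 870) l58 (.c (nat_lit 2312) l43 u3_98))))))))))))))))))))))))))))))))))))))))
noncomputable def u3_100 : St := (.c (nat_lit 2448) l47 (.c (nat_lit 2453) l45 (.c (nat_lit 1109) l58 (.c (nat_lit 2655) l61 (.c (nat_lit 2614) l45 (.c (nat_lit 2701) l90 (.c (nat_lit 2628) l45 (.c (nat_lit 1109) l45 (.c (nat_lit 2186) l45 (.c (nat_lit 2437) l45 (.c (nat_lit 2448) l62 (.c (nat_lit 2593) l82 (.c (nat_lit 2442) l43 (.c (nat_lit 2624) l55 (.c (nat_lit 2492) l58 (.c (nat_lit 2732) l199 (.c (nat_lit 2625) l61 (.c (nat_lit 2645) l45 (.c (nat_lit 2610)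 l58 (.c (nat_lit 2655) l57 (.c (nat_lit 2437) l43 (.c (nat_lit 2719) l138 (.c (nat_lit 1994) l47 (.c (nat_lit 1154) l45 (.c (nat_lit 2478) l45 (.c (nat_lit 2725) l197 (.c (nat_lit 2682) l119 (.c (nat_lit 2304) l44 (.c (nat_lit 1655) l55 (.c (nat_lit 2356) l43 (.c (nat_lit 2117) l62 (.c (nat_lit 1768) l58 (.c (nat_lit 1989) l45 (.c (nat_lit 2575) l58 (.c (nat_lit 2260) l45 (.c (nat_lit 1947) l45 (.c (nat_lit 2423) l58 (.c (nat_lit 2610) l45 (.c (nat_lit 2486) l45 (.c (nat_lit 2265) l43 u3_99))))))))))))))))))))))))))))))))))))))))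
noncomputable def u3_101 : St := (.c (nat_lit 1877) l61 (.c (nat_lit 2207) l58 (.c (nat_lit 2415) l55 (.c (nat_lit 2698) l86 (.c (nat_lit 2698) l47 (.c (nat_lit 2732) l201 (.c (nat_lit 2443) l58 (.c (nat_lit 2719) l60 (.c (nat_lit 2196) l47 (.c (nat_lit 763) l55 (.c (nat_lit 2712) l82 (.c (nat_lit 2732) l197 (.c (nat_lit 2725) l119 (.c (nat_lit 2297) l45 (.c (nat_lit 2505) l58 (.c (nat_lit 2725) l85 (.c (nat_lit 2477) l47 (.c (nat_lit 2725) l121 (.c (nat_lit 2492) l45 (.c (nat_lit 2712) l95 (.c (nat_lit 2589) l43 (.c (nat_lit 763) l58 (.c (nat_lit 2720) l58 (.c (nat_lit 2593) l58 (.c (nat_lit 1859) l60 (.c (nat_lit 2712) l84 (.c (nat_lit 1859) l43 (.c (nat_lit 2499) l44 (.c (nat_lit 2468) l44 (.c (nat_lit 1877) l47 (.c (nat_lit 2196) l62 (.c (nat_lit 2719) l89 (.c (nat_lit 2438) l44 (.c (nat_lit 2446) l55 (.c (nat_lit 2589) l60 (.c (nat_lit 2725) l185 (.c (nat_lit 2623) l61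 (.c (nat_lit 2285) l47 (.c (nat_lit 2645) l58 (.c (nat_lit 2303) l45 u3_100))))))))))))))))))))))))))))))))))))))))
noncomputable def u3_102 : St := (.c (nat_lit 1705) l45 (.c (nat_lit 2732) l201 (.c (nat_lit 2732) l197 (.c (nat_lit 2732) l199 (.c (nat_lit 2150) l45 (.c (nat_lit 2422) l55 (.c (nat_lit 2158) l55 (.c (nat_lit 1768) l55 (.c (nat_lit 1814) l55 (.c (nat_lit 1647) l45 (.c (nat_lit 2070) l55 (.c (nat_lit 2160) l43 (.c (nat_lit 1836) l55 (.c (nat_lit 2422) l60 (.c (nat_lit 2732) l190 (.c (nat_lit 2061) l45 (.c (nat_lit 2422) l82 (.c (nat_lit 2173) l61 (.c (nat_lit 2170) l47 (.c (nat_lit 2034) l45 (.c (nat_lit 2069) l55 (.c (nat_lit 2170) l62 (.c (nat_lit 2171) l58 (.c (nat_lit 2150) l58 (.c (nat_lit 2168) l58 (.c (nat_lit 2349) l45 (.c (nat_lit 1789) l45 (.c (nat_lit 1706) l45 (.c (nat_lit 2070) l58 .e)))))))))))))))))))))))))))))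
noncomputable def u3_103 : St := (.c (nat_lit 2278) l43 (.c (nat_lit 1854) l43 (.c (nat_lit 1853) l55 (.c (nat_lit 1972) l55 (.c (nat_lit 1941) l55 (.c (nat_lit 1969) l62 (.c (nat_lit 2193) l55 (.c (nat_lit 1221) l58 (.c (nat_lit 1961) l55 (.c (nat_lit 2353) l62 (.c (nat_lit 2564) l60 (.c (nat_lit 2105) l43 (.c (nat_lit 2262) l47 (.c (nat_lit 2478) l58 (.c (nat_lit 1960) l62 (.c (nat_lit 1547) l45 (.c (nat_lit 2655) l89 (.c (nat_lit 2224) l45 (.c (nat_lit 2305) l187 (.c (nat_lit 1476) l55 (.c (nat_lit 870) l55 (.c (nat_lit 1210) l45 (.c (nat_lit 2282) l82 (.c (nat_lit 2312) l60 (.c (nat_lit 2210) l60 (.c (nat_lit 1602) l45 (.c (nat_lit 1631) l45 (.c (nat_lit 2725) l190 (.c (nat_lit 2437) l55 (.c (nat_lit 2575) l61 (.c (nat_lit 1762) l55 (.c (nat_lit 2334) l55 (.c (nat_lit 1750) l45 (.c (nat_lit 2725) l123 (.c (nat_lit 2502) l82 .e)))))))))))))))))))))))))))))))))))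
noncomputable def u3_104 : St := (.c (nat_lit 1993) l58 (.c (nat_lit 2421) l44 (.c (nat_lit 2657) l58 (.c (nat_lit 2413) l58 (.c (nat_lit 2387) l43 (.c (nat_lit 2658) l61 (.c (nat_lit 2421) l61 (.c (nat_lit 2173) l61 (.c (nat_lit 2170) l47 (.c (nat_lit 2034) l45 (.c (nat_lit 1950) l45 (.c (nat_lit 2069) l55 (.c (nat_lit 1509) l55 (.c (nat_lit 2171) l58 (.c (nat_lit 2008) l44 (.c (nat_lit 1157) l45 (.c (nat_lit 1608) l45 (.c (nat_lit 2163) l58 (.c (nat_lit 2573) l86 (.c (nat_lit 1955) l58 (.c (nat_lit 1991) l44 (.c (nat_lit 1860) l58 (.c (nat_lit 2274) l61 (.c (nat_lit 1941) l58 (.c (nat_lit 2168) l58 (.c (nat_lit 2353) l61 (.c (nat_lit 2194) l58 (.c (nat_lit 2499) l61 (.c (nat_lit 2453) l55 (.c (nat_lit 2659) l195 (.c (nat_lit 1853) l58 (.c (nat_lit 1105) l55 (.c (nat_lit 1854) l62 (.c (nat_lit 2285) l44 (.c (nat_lit 1105) l45 (.c (nat_lit 1604) l58 (.c (nat_lit 2448) l90 (.c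 (nat_lit 1585) l45 (.c (nat_lit 2448) l139 (.c (nat_lit 1891) l62 u3_103))))))))))))))))))))))))))))))))))))))))
noncomputable def u3_105 : St := (.c (nat_lit 2659) l82 (.c (nat_lit 2659) l187 (.c (nat_lit 2701) l62 (.c (nat_lit 2701) l139 (.c (nat_lit 2720) l187 (.c (nat_lit 1101) l45 (.c (nat_lit 2477) l62 (.c (nat_lit 1879) l45 (.c (nat_lit 1972) l45 (.c (nat_lit 870) l58 (.c (nat_lit 2312) l43 (.c (nat_lit 2262) l44 (.c (nat_lit 1960) l47 (.c (nat_lit 1814) l55 (.c (nat_lit 1859) l47 (.c (nat_lit 1861) l44 (.c (nat_lit 2544) l44 (.c (nat_lit 1877) l62 (.c (nat_lit 2226) l58 (.c (nat_lit 2443) l82 (.c (nat_lit 1523) l58 (.c (nat_lit 2262) l61 (.c (nat_lit 2282) l61 (.c (nat_lit 2207) l82 (.c (nat_lit 2493) l43 (.c (nat_lit 2501) l82 (.c (nat_lit 2273) l45 (.c (nat_lit 2720) l253 (.c (nat_lit 1861) l47 (.c (nat_lit 2273) l58 (.c (nat_lit 2013) l55 (.c (nat_lit 2210) l43 (.c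 (nat_lit 2501) l55 (.c (nat_lit 2193) l43 (.c (nat_lit 1894) l43 (.c (nat_lit 2003) l55 (.c (nat_lit 2070) l55 (.c (nat_lit 2131) l55 (.c (nat_lit 2388) l55 (.c (nat_lit 2003) l58 u3_104))))))))))))))))))))))))))))))))))))))))
noncomputable def u3_106 : St := (.c (nat_lit 2334) l45 (.c (nat_lit 1889) l45 (.c (nat_lit 2179) l45 (.c (nat_lit 2109) l45 (.c (nat_lit 2413) l45 (.c (nat_lit 2569) l45 (.c (nat_lit 2150) l45 (.c (nat_lit 1947) l45 (.c (nat_lit 2610) l45 (.c (nat_lit 2486) l45 (.c (nat_lit 2618) l55 (.c (nat_lit 2698) l62 (.c (nat_lit 2592) l60 (.c (nat_lit 2628) l55 (.c (nat_lit 2492) l61 (.c (nat_lit 2445) l60 (.c (nat_lit 2624) l82 (.c (nat_lit 2699) l253 (.c (nat_lit 2614) l55 (.c (nat_lit 2655) l62 (.c (nat_lit 2272) l58 (.c (nat_lit 2712) l183 (.c (nat_lit 2282) l55 (.c (nat_lit 2700) l82 (.c (nat_lit 2226) l45 (.c (nat_lit 2698) l135 (.c (nat_lit 2438) l58 (.c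 (nat_lit 1872) l45 (.c (nat_lit 2272) l45 (.c (nat_lit 1872) l55 (.c (nat_lit 2506) l61 (.c (nat_lit 2267) l45 (.c (nat_lit 2282) l58 (.c (nat_lit 2652) l195 (.c (nat_lit 2483) l58 (.c (nat_lit 2239) l55 (.c (nat_lit 2186) l55 (.c (nat_lit 2573) l62 (.c (nat_lit 2720) l195 (.c (nat_lit 1855) l45 u3_105))))))))))))))))))))))))))))))))))))))))
noncomputable def u3_107 : St := (.c (nat_lit 2589) l60 (.c (nat_lit 2725) l185 (.c (nat_lit 2623) l61 (.c (nat_lit 2285) l47 (.c (nat_lit 2645) l58 (.c (nat_lit 2298) l43 (.c (nat_lit 2448) l47 (.c (nat_lit 2453) l45 (.c (nat_lit 1109) l58 (.c (nat_lit 2655) l61 (.c (nat_lit 2614) l45 (.c (nat_lit 2701) l90 (.c (nat_lit 2628) l45 (.c (nat_lit 1109) l45 (.c (nat_lit 2186) l45 (.c (nat_lit 2437) l45 (.c (nat_lit 2448) l62 (.c (nat_lit 1132) l45 (.c (nat_lit 2593) l82 (.c (nat_lit 2442) l43 (.c (nat_lit 2624) l55 (.c (nat_lit 2571) l55 (.c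 (nat_lit 2492) l58 (.c (nat_lit 2318) l45 (.c (nat_lit 2160) l47 (.c (nat_lit 2553) l45 (.c (nat_lit 1875) l45 (.c (nat_lit 2625) l61 (.c (nat_lit 2645) l45 (.c (nat_lit 2610) l58 (.c (nat_lit 2655) l57 (.c (nat_lit 2437) l43 (.c (nat_lit 2719) l138 (.c (nat_lit 1154) l45 (.c (nat_lit 2478) l45 (.c (nat_lit 2682) l119 (.c (nat_lit 2411) l47 (.c (nat_lit 2304) l44 (.c (nat_lit 1655) l55 (.c (nat_lit 2561) l45 u3_106))))))))))))))))))))))))))))))))))))))))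
noncomputable def u3_108 : St := (.c (nat_lit 1705) l45 (.c (nat_lit 1984) l45 (.c (nat_lit 1877) l61 (.c (nat_lit 2419) l55 (.c (nat_lit 1980) l45 (.c (nat_lit 2207) l58 (.c (nat_lit 2415) l55 (.c (nat_lit 2698) l86 (.c (nat_lit 2698) l47 (.c (nat_lit 2443) l58 (.c (nat_lit 2719) l60 (.c (nat_lit 2196) l47 (.c (nat_lit 763) l55 (.c (nat_lit 2712) l82 (.c (nat_lit 2725) l119 (.c (nat_lit 2297) l45 (.c (nat_lit 2656) l58 (.c (nat_lit 2656) l45 (.c (nat_lit 2725) l85 (.c (nat_lit 2477) l47 (.c (nat_lit 2725) l121 (.c (nat_lit 2492) l45 (.c (nat_lit 2712) l95 (.c (nat_lit 2589) l43 (.c (nat_lit 763) l58 (.c (nat_lit 2211) l45 (.c (nat_lit 2720) l58 (.c (nat_lit 2593) l58 (.c (nat_lit 2571) l82 (.c (nat_lit 1859) l60 (.c (nat_lit 2712) l84 (.c (nat_lit 2656) l55 (.c (nat_lit 1859) l43 (.c (nat_lit 2499) l44 (.c (nat_lit 2468) l44 (.c (nat_lit 1877) l47 (.c (nat_lit 2196) l62 (.c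 (nat_lit 2719) l89 (.c (nat_lit 2438) l44 (.c (nat_lit 2446) l55 u3_107))))))))))))))))))))))))))))))))))))))))
noncomputable def u3_109 : St := (.c (nat_lit 1941) l55 (.c (nat_lit 1969) l62 (.c (nat_lit 2193) l55 (.c (nat_lit 1221) l58 (.c (nat_lit 1961) l55 (.c (nat_lit 2353) l62 (.c (nat_lit 2564) l60 (.c (nat_lit 2105) l43 (.c (nat_lit 2262) l47 (.c (nat_lit 2478) l58 (.c (nat_lit 1960) l62 (.c (nat_lit 1547) l45 (.c (nat_lit 2655) l89 (.c (nat_lit 2224) l45 (.c (nat_lit 2305) l187 (.c (nat_lit 1476) l55 (.c (nat_lit 870) l55 (.c (nat_lit 1210) l45 (.c (nat_lit 2282) l82 (.c (nat_lit 2312) l60 (.c (nat_lit 2210) l60 (.c (nat_lit 2114) l60 (.c (nat_lit 2349) l45 (.c (nat_lit 2725) l190 (.c (nat_lit 2437) l55 (.c (nat_lit 1762) l55 (.c (nat_lit 2334) l55 (.c (nat_lit 1750) l45 (.c (nat_lit 2725) l123 .e)))))))))))))))))))))))))))))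
noncomputable def u3_110 : St := (.c (nat_lit 2003) l58 (.c (nat_lit 1993) l58 (.c (nat_lit 2422) l82 (.c (nat_lit 2421) l44 (.c (nat_lit 2657) l58 (.c (nat_lit 2413) l58 (.c (nat_lit 2387) l43 (.c (nat_lit 2421) l61 (.c (nat_lit 2423) l61 (.c (nat_lit 2034) l45 (.c (nat_lit 2069) l55 (.c (nat_lit 1509) l55 (.c (nat_lit 2170) l62 (.c (nat_lit 1157) l45 (.c (nat_lit 2150) l58 (.c (nat_lit 2573) l86 (.c (nat_lit 1955) l58 (.c (nat_lit 1991) l44 (.c (nat_lit 1860) l58 (.c (nat_lit 2274) l61 (.c (nat_lit 1941) l58 (.c (nat_lit 2353) l61 (.c (nat_lit 2194) l58 (.c (nat_lit 2499) l61 (.c (nat_lit 2453) l55 (.c (nat_lit 2659) l195 (.c (nat_lit 1853) l58 (.c (nat_lit 1105) l55 (.c (nat_lit 1854) l62 (.c (nat_lit 2285) l44 (.c (nat_lit 1105) l45 (.c (nat_lit 1604) l58 (.c (nat_lit 2448) l90 (.c (nat_lit 1585) l45 (.c (nat_lit 2448) l139 (.c (nat_lit 1891) l62 (.c (nat_lit 2278) l43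 (.c (nat_lit 1854) l43 (.c (nat_lit 1853) l55 (.c (nat_lit 1972) l55 u3_109))))))))))))))))))))))))))))))))))))))))
noncomputable def u3_111 : St := (.c (nat_lit 2701) l139 (.c (nat_lit 2720) l187 (.c (nat_lit 1101) l45 (.c (nat_lit 2477) l62 (.c (nat_lit 1972) l45 (.c (nat_lit 870) l58 (.c (nat_lit 2312) l43 (.c (nat_lit 2262) l44 (.c (nat_lit 1960) l47 (.c (nat_lit 1768) l55 (.c (nat_lit 1814) l55 (.c (nat_lit 1859) l47 (.c (nat_lit 1861) l44 (.c (nat_lit 2544) l44 (.c (nat_lit 1877) l62 (.c (nat_lit 2226) l58 (.c (nat_lit 2443) l82 (.c (nat_lit 1523) l58 (.c (nat_lit 2262) l61 (.c (nat_lit 2282) l61 (.c (nat_lit 2207) l82 (.c (nat_lit 2493) l43 (.c (nat_lit 2501) l82 (.c (nat_lit 2273) l45 (.c (nat_lit 2720) l253 (.c (nat_lit 1861) l47 (.c (nat_lit 2273) l58 (.c (nat_lit 2013) l55 (.c (nat_lit 2210) l43 (.c (nat_lit 2501) l55 (.c (nat_lit 2193) l43 (.c (nat_lit 2170) l43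 (.c (nat_lit 1994) l43 (.c (nat_lit 1894) l43 (.c (nat_lit 2003) l55 (.c (nat_lit 1994) l60 (.c (nat_lit 2160) l43 (.c (nat_lit 2422) l60 (.c (nat_lit 2732) l190 (.c (nat_lit 2388) l55 u3_110))))))))))))))))))))))))))))))))))))))))
noncomputable def u3_112 : St := (.c (nat_lit 2150) l45 (.c (nat_lit 1947) l45 (.c (nat_lit 2422) l55 (.c (nat_lit 2610) l45 (.c (nat_lit 2486) l45 (.c (nat_lit 2265) l43 (.c (nat_lit 2618) l55 (.c (nat_lit 2698) l62 (.c (nat_lit 2592) l60 (.c (nat_lit 2628) l55 (.c (nat_lit 2492) l61 (.c (nat_lit 2445) l60 (.c (nat_lit 2624) l82 (.c (nat_lit 2699) l253 (.c (nat_lit 2614) l55 (.c (nat_lit 2655) l62 (.c (nat_lit 2272) l58 (.c (nat_lit 2712) l183 (.c (nat_lit 2282) l55 (.c (nat_lit 2114) l43 (.c (nat_lit 2700) l82 (.c (nat_lit 2226) l45 (.c (nat_lit 2698) l135 (.c (nat_lit 2438) l58 (.c (nat_lit 1872) l45 (.c (nat_lit 2272) l45 (.c (nat_lit 1872) l55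 (.c (nat_lit 2506) l61 (.c (nat_lit 2267) l45 (.c (nat_lit 2282) l58 (.c (nat_lit 2652) l195 (.c (nat_lit 2483) l58 (.c (nat_lit 2239) l55 (.c (nat_lit 2186) l55 (.c (nat_lit 2573) l62 (.c (nat_lit 2720) l195 (.c (nat_lit 1855) l45 (.c (nat_lit 2659) l82 (.c (nat_lit 2659) l187 (.c (nat_lit 2701) l62 u3_111))))))))))))))))))))))))))))))))))))))))
noncomputable def u3_113 : St := (.c (nat_lit 2285) l47 (.c (nat_lit 2645) l58 (.c (nat_lit 2303) l45 (.c (nat_lit 2448) l47 (.c (nat_lit 2453) l45 (.c (nat_lit 1109) l58 (.c (nat_lit 2655) l61 (.c (nat_lit 2614) l45 (.c (nat_lit 2701) l90 (.c (nat_lit 2628) l45 (.c (nat_lit 1109) l45 (.c (nat_lit 2186) l45 (.c (nat_lit 2437) l45 (.c (nat_lit 2448) l62 (.c (nat_lit 2593) l82 (.c (nat_lit 2442) l43 (.c (nat_lit 2624) l55 (.c (nat_lit 2571) l55 (.c (nat_lit 2492) l58 (.c (nat_lit 2732) l199 (.c (nat_lit 2160) l47 (.c (nat_lit 2625) l61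 (.c (nat_lit 2645) l45 (.c (nat_lit 2610) l58 (.c (nat_lit 2655) l57 (.c (nat_lit 2437) l43 (.c (nat_lit 2719) l138 (.c (nat_lit 1994) l47 (.c (nat_lit 1154) l45 (.c (nat_lit 2478) l45 (.c (nat_lit 2682) l119 (.c (nat_lit 2411) l47 (.c (nat_lit 2304) l44 (.c (nat_lit 1655) l55 (.c (nat_lit 2356) l43 (.c (nat_lit 2334) l45 (.c (nat_lit 2117) l62 (.c (nat_lit 1768) l58 (.c (nat_lit 2413) l45 (.c (nat_lit 2569) l45 u3_112))))))))))))))))))))))))))))))))))))))))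
noncomputable def u3_114 : St := (.c (nat_lit 1877) l61 (.c (nat_lit 2207) l58 (.c (nat_lit 2415) l55 (.c (nat_lit 2698) l86 (.c (nat_lit 2698) l47 (.c (nat_lit 2732) l201 (.c (nat_lit 2443) l58 (.c (nat_lit 2719) l60 (.c (nat_lit 2196) l47 (.c (nat_lit 763) l55 (.c (nat_lit 2712) l82 (.c (nat_lit 2732) l197 (.c (nat_lit 2725) l119 (.c (nat_lit 2505) l58 (.c (nat_lit 2656) l58 (.c (nat_lit 2656) l45 (.c (nat_lit 2725) l85 (.c (nat_lit 2477) l47 (.c (nat_lit 2725) l121 (.c (nat_lit 2492) l45 (.c (nat_lit 2712) l95 (.c (nat_lit 2589) l43 (.c (nat_lit 763) l58 (.c (nat_lit 2720) l58 (.c (nat_lit 2593) l58 (.c (nat_lit 2571) l82 (.c (nat_lit 1859) l60 (.c (nat_lit 2712) l84 (.c (nat_lit 2656) l55 (.c (nat_lit 1859) l43 (.c (nat_lit 2499) l44 (.c (nat_lit 2468) l44 (.c (nat_lit 1877) l47 (.c (nat_lit 2196) l62 (.c (nat_lit 2719) l89 (.c (nat_lit 2438) l44 (.c (nat_lit 2446) l55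 (.c (nat_lit 2589) l60 (.c (nat_lit 2725) l185 (.c (nat_lit 2623) l61 u3_113))))))))))))))))))))))))))))))))))))))))
noncomputable def u3_115 : St := (.c (nat_lit 2168) l58 (.c (nat_lit 2349) l45 (.c (nat_lit 1602) l45 (.c (nat_lit 1631) l45 (.c (nat_lit 2725) l190 (.c (nat_lit 2575) l61 (.c (nat_lit 2334) l55 (.c (nat_lit 1750) l45 (.c (nat_lit 1806) l45 (.c (nat_lit 1706) l45 (.c (nat_lit 1568) l45 .e)))))))))))
noncomputable def u3_116 : St := (.c (nat_lit 1705) l45 (.c (nat_lit 2297) l45 (.c (nat_lit 2656) l58 (.c (nat_lit 2656) l45 (.c (nat_lit 2571) l82 (.c (nat_lit 2656) l55 (.c (nat_lit 2571) l55 (.c (nat_lit 2160) l47 (.c (nat_lit 2725) l197 (.c (nat_lit 2411) l47 (.c (nat_lit 2334) l45 (.c (nat_lit 2117) l62 (.c (nat_lit 1768) l58 (.c (nat_lit 2413) l45 (.c (nat_lit 1989) l45 (.c (nat_lit 2569) l45 (.c (nat_lit 2575) l58 (.c (nat_lit 2260) l45 (.c (nat_lit 2423) l58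 (.c (nat_lit 2700) l82 (.c (nat_lit 2306) l58 (.c (nat_lit 2158) l55 (.c (nat_lit 2168) l55 (.c (nat_lit 2070) l55 (.c (nat_lit 2160) l43 (.c (nat_lit 1836) l55 (.c (nat_lit 2131) l55 (.c (nat_lit 2388) l55 (.c (nat_lit 1530) l58 (.c (nat_lit 2250) l45 (.c (nat_lit 2288) l45 (.c (nat_lit 2413) l58 (.c (nat_lit 2387) l43 (.c (nat_lit 2390) l60 (.c (nat_lit 2034) l45 (.c (nat_lit 1509) l55 (.c (nat_lit 1634) l58 (.c (nat_lit 2170) l62 (.c (nat_lit 2008) l44 (.c (nat_lit 1157) l45 u3_115))))))))))))))))))))))))))))))))))))))))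
noncomputable def u3_117 : St := (.c (nat_lit 2657) l58 (.c (nat_lit 2387) l43 (.c (nat_lit 2421) l61 (.c (nat_lit 2173) l61 (.c (nat_lit 1509) l55 (.c (nat_lit 1634) l58 (.c (nat_lit 2171) l58 (.c (nat_lit 2150) l58 (.c (nat_lit 2114) l60 (.c (nat_lit 2349) l45 (.c (nat_lit 1631) l45 (.c (nat_lit 2725) l190 (.c (nat_lit 1626) l45 (.c (nat_lit 2720) l129 .e))))))))))))))
noncomputable def u3_118 : St := (.c (nat_lit 2720) l61 (.c (nat_lit 2732) l201 (.c (nat_lit 2633) l45 (.c (nat_lit 2732) l197 (.c (nat_lit 2568) l47 (.c (nat_lit 2656) l58 (.c (nat_lit 2656) l45 (.c (nat_lit 2656) l55 (.c (nat_lit 2356) l44 (.c (nat_lit 2265) l44 (.c (nat_lit 2732) l199 (.c (nat_lit 2356) l47 (.c (nat_lit 2265) l47 (.c (nat_lit 2551) l44 (.c (nat_lit 2725) l197 (.c (nat_lit 2633) l55 (.c (nat_lit 1893) l58 (.c (nat_lit 2304) l44 (.c (nat_lit 2561) l45 (.c (nat_lit 2117) l62 (.c (nat_lit 1768)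 l58 (.c (nat_lit 2569) l45 (.c (nat_lit 2150) l45 (.c (nat_lit 2422) l55 (.c (nat_lit 2114) l43 (.c (nat_lit 2700) l82 (.c (nat_lit 1946) l55 (.c (nat_lit 1768) l55 (.c (nat_lit 1814) l55 (.c (nat_lit 1647) l45 (.c (nat_lit 2170) l43 (.c (nat_lit 2168) l55 (.c (nat_lit 1894) l43 (.c (nat_lit 2160) l43 (.c (nat_lit 2422) l60 (.c (nat_lit 2732) l190 (.c (nat_lit 1571) l45 (.c (nat_lit 1993) l58 (.c (nat_lit 1530) l58 (.c (nat_lit 2422) l82 u3_117))))))))))))))))))))))))))))))))))))))))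
noncomputable def u3_119 : St := (.c (nat_lit 1221) l58 (.c (nat_lit 1961) l55 (.c (nat_lit 2353) l62 (.c (nat_lit 2564) l60 (.c (nat_lit 2105) l43 (.c (nat_lit 2262) l47 (.c (nat_lit 2478) l58 (.c (nat_lit 1960) l62 (.c (nat_lit 1547) l45 (.c (nat_lit 2655) l89 (.c (nat_lit 2224) l45 (.c (nat_lit 2305) l187 (.c (nat_lit 1476) l55 (.c (nat_lit 870) l55 (.c (nat_lit 1210) l45 (.c (nat_lit 2282) l82 (.c (nat_lit 2312) l60 (.c (nat_lit 2210) l60 (.c (nat_lit 1602) l45 (.c (nat_lit 2725) l190 (.c (nat_lit 2437) l55 (.c (nat_lit 2575) l61 (.c (nat_lit 1762) l55 (.c (nat_lit 2334) l55 .e))))))))))))))))))))))))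
noncomputable def u3_120 : St := (.c (nat_lit 2368) l58 (.c (nat_lit 2390) l60 (.c (nat_lit 2173) l61 (.c (nat_lit 2170) l47 (.c (nat_lit 2034) l45 (.c (nat_lit 2067) l45 (.c (nat_lit 1509) l55 (.c (nat_lit 1634) l58 (.c (nat_lit 2170) l62 (.c (nat_lit 2008) l44 (.c (nat_lit 1608) l45 (.c (nat_lit 2150) l58 (.c (nat_lit 2573) l86 (.c (nat_lit 1955) l58 (.c (nat_lit 1991) l44 (.c (nat_lit 1860) l58 (.c (nat_lit 2274) l61 (.c (nat_lit 1941) l58 (.c (nat_lit 2353) l61 (.c (nat_lit 2194) l58 (.c (nat_lit 2499) l61 (.c (nat_lit 2453) l55 (.c (nat_lit 2659) l195 (.c (nat_lit 1853) l58 (.c (nat_lit 1105) l55 (.c (nat_lit 1854) l62 (.c (nat_lit 2285) l44 (.c (nat_lit 1105) l45 (.c (nat_lit 1604) l58 (.c (nat_lit 2448) l90 (.c (nat_lit 1585) l45 (.c (nat_lit 2448) l139 (.c (nat_lit 1891) l62 (.c (nat_lit 2278) l43 (.c (nat_lit 1854) l43 (.c (nat_lit 1853) l55 (.c (nat_lit 1972) l55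 (.c (nat_lit 1941) l55 (.c (nat_lit 1969) l62 (.c (nat_lit 2193) l55 u3_119))))))))))))))))))))))))))))))))))))))))
noncomputable def u3_121 : St := (.c (nat_lit 2262) l44 (.c (nat_lit 2351) l58 (.c (nat_lit 1960) l47 (.c (nat_lit 1633) l55 (.c (nat_lit 1859) l47 (.c (nat_lit 1861) l44 (.c (nat_lit 2544) l44 (.c (nat_lit 1877) l62 (.c (nat_lit 2226) l58 (.c (nat_lit 2443) l82 (.c (nat_lit 1523) l58 (.c (nat_lit 2262) l61 (.c (nat_lit 2282) l61 (.c (nat_lit 2207) l82 (.c (nat_lit 2493) l43 (.c (nat_lit 2501) l82 (.c (nat_lit 2273) l45 (.c (nat_lit 2720) l253 (.c (nat_lit 1861) l47 (.c (nat_lit 2273) l58 (.c (nat_lit 2013) l55 (.c (nat_lit 2210) l43 (.c (nat_lit 2501) l55 (.c (nat_lit 2193) l43 (.c (nat_lit 2170) l43 (.c (nat_lit 2168) l55 (.c (nat_lit 1994) l43 (.c (nat_lit 1994) l60 (.c (nat_lit 2070) l55 (.c (nat_lit 1836) l55 (.c (nat_lit 2131) l55 (.c (nat_lit 1993) l58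 (.c (nat_lit 1994) l93 (.c (nat_lit 1530) l58 (.c (nat_lit 2250) l45 (.c (nat_lit 2288) l45 (.c (nat_lit 2242) l45 (.c (nat_lit 2422) l82 (.c (nat_lit 2421) l44 (.c (nat_lit 2387) l43 u3_120))))))))))))))))))))))))))))))))))))))))
noncomputable def u3_122 : St := (.c (nat_lit 2592) l60 (.c (nat_lit 2628) l55 (.c (nat_lit 2492) l61 (.c (nat_lit 2445) l60 (.c (nat_lit 2624) l82 (.c (nat_lit 2699) l253 (.c (nat_lit 2614) l55 (.c (nat_lit 2655) l62 (.c (nat_lit 2272) l58 (.c (nat_lit 2712) l183 (.c (nat_lit 2282) l55 (.c (nat_lit 2114) l43 (.c (nat_lit 2700) l82 (.c (nat_lit 2226) l45 (.c (nat_lit 2698) l135 (.c (nat_lit 2438) l58 (.c (nat_lit 1872) l45 (.c (nat_lit 2272) l45 (.c (nat_lit 1872) l55 (.c (nat_lit 2506) l61 (.c (nat_lit 2306) l58 (.c (nat_lit 2267) l45 (.c (nat_lit 2282) l58 (.c (nat_lit 2652) l195 (.c (nat_lit 2483) l58 (.c (nat_lit 2239) l55 (.c (nat_lit 2186) l55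 (.c (nat_lit 2573) l62 (.c (nat_lit 2720) l195 (.c (nat_lit 1855) l45 (.c (nat_lit 2659) l82 (.c (nat_lit 2659) l187 (.c (nat_lit 2701) l62 (.c (nat_lit 2701) l139 (.c (nat_lit 2720) l187 (.c (nat_lit 1101) l45 (.c (nat_lit 2477) l62 (.c (nat_lit 1972) l45 (.c (nat_lit 870) l58 (.c (nat_lit 2312) l43 u3_121))))))))))))))))))))))))))))))))))))))))
noncomputable def u3_123 : St := (.c (nat_lit 2655) l61 (.c (nat_lit 2614) l45 (.c (nat_lit 2701) l90 (.c (nat_lit 2628) l45 (.c (nat_lit 1109) l45 (.c (nat_lit 2186) l45 (.c (nat_lit 2437) l45 (.c (nat_lit 2448) l62 (.c (nat_lit 2593) l82 (.c (nat_lit 2442) l43 (.c (nat_lit 2624) l55 (.c (nat_lit 2492) l58 (.c (nat_lit 2625) l61 (.c (nat_lit 2645) l45 (.c (nat_lit 2610) l58 (.c (nat_lit 2655) l57 (.c (nat_lit 2437) l43 (.c (nat_lit 2719) l138 (.c (nat_lit 1994) l47 (.c (nat_lit 1154) l45 (.c (nat_lit 2478) l45 (.c (nat_lit 2725) l197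 (.c (nat_lit 2411) l47 (.c (nat_lit 2334) l45 (.c (nat_lit 2117) l62 (.c (nat_lit 1768) l58 (.c (nat_lit 2351) l45 (.c (nat_lit 1989) l45 (.c (nat_lit 2569) l45 (.c (nat_lit 2575) l58 (.c (nat_lit 2368) l45 (.c (nat_lit 2260) l45 (.c (nat_lit 2150) l45 (.c (nat_lit 1947) l45 (.c (nat_lit 2422) l55 (.c (nat_lit 2423) l58 (.c (nat_lit 2610) l45 (.c (nat_lit 2486) l45 (.c (nat_lit 2618) l55 (.c (nat_lit 2698) l62 u3_122))))))))))))))))))))))))))))))))))))))))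
noncomputable def u3_124 : St := (.c (nat_lit 1705) l45 (.c (nat_lit 1877) l61 (.c (nat_lit 2207) l58 (.c (nat_lit 2415) l55 (.c (nat_lit 2698) l86 (.c (nat_lit 2698) l47 (.c (nat_lit 2443) l58 (.c (nat_lit 2719) l60 (.c (nat_lit 2196) l47 (.c (nat_lit 763) l55 (.c (nat_lit 2712) l82 (.c (nat_lit 2297) l45 (.c (nat_lit 2656) l58 (.c (nat_lit 2656) l45 (.c (nat_lit 2725) l85 (.c (nat_lit 2477) l47 (.c (nat_lit 2725) l121 (.c (nat_lit 2492) l45 (.c (nat_lit 2589) l43 (.c (nat_lit 763) l58 (.c (nat_lit 2720) l58 (.c (nat_lit 2593) l58 (.c (nat_lit 1859) l60 (.c (nat_lit 2656) l55 (.c (nat_lit 1859) l43 (.c (nat_lit 2499) l44 (.c (nat_lit 2468) l44 (.c (nat_lit 1877) l47 (.c (nat_lit 2196) l62 (.c (nat_lit 2719) l89 (.c (nat_lit 2438) l44 (.c (nat_lit 2446) l55 (.c (nat_lit 2589) l60 (.c (nat_lit 2725) l185 (.c (nat_lit 2623) l61 (.c (nat_lit 2285) l47 (.c (nat_lit 2645) l58 (.c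 (nat_lit 2448) l47 (.c (nat_lit 2453) l45 (.c (nat_lit 1109) l58 u3_123))))))))))))))))))))))))))))))))))))))))
noncomputable def u3_125 : St := (.c (nat_lit 2437) l55 .e)
noncomputable def u3_126 : St := (.c (nat_lit 2499) l61 (.c (nat_lit 2453) l55 (.c (nat_lit 2659) l195 (.c (nat_lit 1853) l58 (.c (nat_lit 1105) l55 (.c (nat_lit 1854) l62 (.c (nat_lit 2285) l44 (.c (nat_lit 1105) l45 (.c (nat_lit 1604) l58 (.c (nat_lit 2448) l90 (.c (nat_lit 1585) l45 (.c (nat_lit 2448) l139 (.c (nat_lit 1891) l62 (.c (nat_lit 2278) l43 (.c (nat_lit 1854) l43 (.c (nat_lit 1853) l55 (.c (nat_lit 1972) l55 (.c (nat_lit 1941) l55 (.c (nat_lit 1969) l62 (.c (nat_lit 2193) l55 (.c (nat_lit 1221) l58 (.c (nat_lit 1961) l55 (.c (nat_lit 2353) l62 (.c (nat_lit 2564) l60 (.c (nat_lit 2105) l43 (.c (nat_lit 2262) l47 (.c (nat_lit 2478) l58 (.c (nat_lit 1960) l62 (.c (nat_lit 1547) l45 (.c (nat_lit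 2655) l89 (.c (nat_lit 2224) l45 (.c (nat_lit 2305) l187 (.c (nat_lit 1476) l55 (.c (nat_lit 870) l55 (.c (nat_lit 1210) l45 (.c (nat_lit 2282) l82 (.c (nat_lit 2312) l60 (.c (nat_lit 2210) l60 (.c (nat_lit 2349) l45 (.c (nat_lit 1602) l45 u3_125))))))))))))))))))))))))))))))))))))))))
noncomputable def u3_127 : St := (.c (nat_lit 2262) l61 (.c (nat_lit 2282) l61 (.c (nat_lit 2207) l82 (.c (nat_lit 2493) l43 (.c (nat_lit 2501) l82 (.c (nat_lit 2273) l45 (.c (nat_lit 2720) l253 (.c (nat_lit 1861) l47 (.c (nat_lit 2273) l58 (.c (nat_lit 2013) l55 (.c (nat_lit 2210) l43 (.c (nat_lit 2501) l55 (.c (nat_lit 2193) l43 (.c (nat_lit 2170) l43 (.c (nat_lit 1994) l43 (.c (nat_lit 1994) l60 (.c (nat_lit 2160) l43 (.c (nat_lit 2388) l55 (.c (nat_lit 1993) l58 (.c (nat_lit 1994) l93 (.c (nat_lit 2242) l45 (.c (nat_lit 2422) l82 (.c (nat_lit 2421) l44 (.c (nat_lit 2413) l58 (.c (nat_lit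 2368) l58 (.c (nat_lit 2173) l61 (.c (nat_lit 2170) l47 (.c (nat_lit 2067) l45 (.c (nat_lit 1157) l45 (.c (nat_lit 1608) l45 (.c (nat_lit 2150) l58 (.c (nat_lit 2573) l86 (.c (nat_lit 1955) l58 (.c (nat_lit 1991) l44 (.c (nat_lit 1860) l58 (.c (nat_lit 2274) l61 (.c (nat_lit 1941) l58 (.c (nat_lit 2168) l58 (.c (nat_lit 2353) l61 (.c (nat_lit 2194) l58 u3_126))))))))))))))))))))))))))))))))))))))))
noncomputable def u3_128 : St := (.c (nat_lit 2114) l43 (.c (nat_lit 2226) l45 (.c (nat_lit 2698) l135 (.c (nat_lit 2438) l58 (.c (nat_lit 1872) l45 (.c (nat_lit 2272) l45 (.c (nat_lit 1872) l55 (.c (nat_lit 2506) l61 (.c (nat_lit 2267) l45 (.c (nat_lit 2282) l58 (.c (nat_lit 2652) l195 (.c (nat_lit 2483) l58 (.c (nat_lit 2239) l55 (.c (nat_lit 2186) l55 (.c (nat_lit 2573) l62 (.c (nat_lit 2720) l195 (.c (nat_lit 1855) l45 (.c (nat_lit 2659) l82 (.c (nat_lit 2659) l187 (.c (nat_lit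 2701) l62 (.c (nat_lit 2701) l139 (.c (nat_lit 2720) l187 (.c (nat_lit 1101) l45 (.c (nat_lit 2477) l62 (.c (nat_lit 1972) l45 (.c (nat_lit 870) l58 (.c (nat_lit 2312) l43 (.c (nat_lit 2262) l44 (.c (nat_lit 2351) l58 (.c (nat_lit 1960) l47 (.c (nat_lit 1633) l55 (.c (nat_lit 2158) l55 (.c (nat_lit 1814) l55 (.c (nat_lit 1859) l47 (.c (nat_lit 1861) l44 (.c (nat_lit 2544) l44 (.c (nat_lit 1877) l62 (.c (nat_lit 2226) l58 (.c (nat_lit 2443) l82 (.c (nat_lit 1523) l58 u3_127))))))))))))))))))))))))))))))))))))))))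
noncomputable def u3_129 : St := (.c (nat_lit 1109) l45 (.c (nat_lit 2186) l45 (.c (nat_lit 2437) l45 (.c (nat_lit 2448) l62 (.c (nat_lit 2593) l82 (.c (nat_lit 2442) l43 (.c (nat_lit 2624) l55 (.c (nat_lit 2571) l55 (.c (nat_lit 2492) l58 (.c (nat_lit 2160) l47 (.c (nat_lit 2625) l61 (.c (nat_lit 2645) l45 (.c (nat_lit 2610) l58 (.c (nat_lit 2655) l57 (.c (nat_lit 2437) l43 (.c (nat_lit 2719) l138 (.c (nat_lit 1994) l47 (.c (nat_lit 1154) l45 (.c (nat_lit 2478) l45 (.c (nat_lit 2413) l45 (.c (nat_lit 2351) l45 (.c (nat_lit 2368) l45 (.c (nat_lit 2150) l45 (.c (nat_lit 1947) l45 (.c (nat_lit 2422) l55 (.c (nat_lit 2610) l45 (.c (nat_lit 2486) l45 (.c (nat_lit 2618) l55 (.c (nat_lit 2698) l62 (.c (nat_lit 2592) l60 (.c (nat_lit 2628) l55 (.c (nat_lit 2492) l61 (.c (nat_lit 2445) l60 (.c (nat_lit 2624) l82 (.c (nat_lit 2699) l253 (.c (nat_lit 2614) l55 (.c (nat_lit 2655) l62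 (.c (nat_lit 2272) l58 (.c (nat_lit 2712) l183 (.c (nat_lit 2282) l55 u3_128))))))))))))))))))))))))))))))))))))))))
noncomputable def u3_130 : St := (.c (nat_lit 1877) l61 (.c (nat_lit 2207) l58 (.c (nat_lit 2415) l55 (.c (nat_lit 2698) l86 (.c (nat_lit 2698) l47 (.c (nat_lit 2443) l58 (.c (nat_lit 2719) l60 (.c (nat_lit 2196) l47 (.c (nat_lit 763) l55 (.c (nat_lit 2712) l82 (.c (nat_lit 2725) l85 (.c (nat_lit 2477) l47 (.c (nat_lit 2725) l121 (.c (nat_lit 2492) l45 (.c (nat_lit 2589) l43 (.c (nat_lit 763) l58 (.c (nat_lit 2720) l58 (.c (nat_lit 2593) l58 (.c (nat_lit 2571) l82 (.c (nat_lit 1859) l60 (.c (nat_lit 1859) l43 (.c (nat_lit 2499) l44 (.c (nat_lit 2468) l44 (.c (nat_lit 1877) l47 (.c (nat_lit 2196) l62 (.c (nat_lit 2719) l89 (.c (nat_lit 2438) l44 (.c (nat_lit 2446) l55 (.c (nat_lit 2589) l60 (.c (nat_lit 2725) l185 (.c (nat_lit 2623) l61 (.c (nat_lit 2285) l47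 (.c (nat_lit 2645) l58 (.c (nat_lit 2448) l47 (.c (nat_lit 2453) l45 (.c (nat_lit 1109) l58 (.c (nat_lit 2655) l61 (.c (nat_lit 2614) l45 (.c (nat_lit 2701) l90 (.c (nat_lit 2628) l45 u3_129))))))))))))))))))))))))))))))))))))))))
noncomputable def u3_131 : St := (.c (nat_lit 1705) l45 (.c (nat_lit 2732) l201 (.c (nat_lit 2732) l197 (.c (nat_lit 2732) l199 (.c (nat_lit 2725) l197 (.c (nat_lit 2150) l45 (.c (nat_lit 2422) l55 (.c (nat_lit 2306) l58 (.c (nat_lit 2158) l55 (.c (nat_lit 1768) l55 (.c (nat_lit 1814) l55 (.c (nat_lit 2170) l43 (.c (nat_lit 2168) l55 (.c (nat_lit 2070) l55 (.c (nat_lit 2160) l43 (.c (nat_lit 1836) l55 (.c (nat_lit 2414) l43 (.c (nat_lit 2006) l45 (.c (nat_lit 2732) l190 (.c (nat_lit 1993) l58 (.c (nat_lit 1530) l58 (.c (nat_lit 2061) l45 (.c (nat_lit 2422) l82 (.c (nat_lit 2173) l61 (.c (nat_lit 2170) l47 (.c (nat_lit 2034) l45 (.c (nat_lit 2069)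 l55 (.c (nat_lit 1634) l58 (.c (nat_lit 2170) l62 (.c (nat_lit 2008) l44 (.c (nat_lit 1157) l45 (.c (nat_lit 2150) l58 (.c (nat_lit 2168) l58 (.c (nat_lit 2349) l45 (.c (nat_lit 1602) l45 (.c (nat_lit 1631) l45 (.c (nat_lit 2725) l190 .e)))))))))))))))))))))))))))))))))))))
noncomputable def u3_132 : St := (.c (nat_lit 1705) l45 (.c (nat_lit 2117) l62 (.c (nat_lit 1768) l58 (.c (nat_lit 2150) l45 (.c (nat_lit 2422) l55 (.c (nat_lit 2114) l43 (.c (nat_lit 1647) l45 (.c (nat_lit 2070) l55 (.c (nat_lit 2160) l43 (.c (nat_lit 1836) l55 (.c (nat_lit 2422) l60 (.c (nat_lit 2422) l82 (.c (nat_lit 2173) l61 (.c (nat_lit 2170) l47 (.c (nat_lit 2170) l62 (.c (nat_lit 2171) l58 (.c (nat_lit 2150) l58 (.c (nat_lit 2168) l58 (.c (nat_lit 2114) l60 (.c (nat_lit 1602) l45 .e))))))))))))))))))))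
noncomputable def u3_133 : St := (.c (nat_lit 1705) l45 (.c (nat_lit 2117) l62 (.c (nat_lit 1768) l58 (.c (nat_lit 2150) l45 (.c (nat_lit 2422) l55 (.c (nat_lit 2114) l43 (.c (nat_lit 1647) l45 (.c (nat_lit 2070) l55 (.c (nat_lit 2160) l43 (.c (nat_lit 1836) l55 (.c (nat_lit 2422) l60 (.c (nat_lit 2422) l82 (.c (nat_lit 2173) l61 (.c (nat_lit 2170) l47 (.c (nat_lit 2170) l62 (.c (nat_lit 2171) l58 (.c (nat_lit 2150) l58 (.c (nat_lit 2168) l58 (.c (nat_lit 2114) l60 .e)))))))))))))))))))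
noncomputable def u3_134 : St := (.c (nat_lit 1961) l45 (.c (nat_lit 2285) l44 (.c (nat_lit 1604) l58 (.c (nat_lit 1991) l61 (.c (nat_lit 1585) l45 (.c (nat_lit 1991) l62 (.c (nat_lit 1966) l43 (.c (nat_lit 1955) l55 (.c (nat_lit 1972) l55 (.c (nat_lit 1969) l62 (.c (nat_lit 2193) l55 (.c (nat_lit 1961) l55 (.c (nat_lit 1809) l55 (.c (nat_lit 1986) l58 (.c (nat_lit 2105) l43 (.c (nat_lit 2489) l62 (.c (nat_lit 1960) l62 (.c (nat_lit 1628) l55 (.c (nat_lit 1221) l55 (.c (nat_lit 1604) l55 (.c (nat_lit 2224) l45 (.c (nat_lit 1649) l58 (.c (nat_lit 1484) l55 (.c (nat_lit 2506) l85 (.c (nat_lit 1891) l60 (.c (nat_lit 1210) l45 (.c (nat_lit 2302) l47 (.c (nat_lit 2282) l82 (.c (nat_lit 1969) l85 (.c (nat_lit 2312) l60 (.c (nat_lit 2272) l55 .e)))))))))))))))))))))))))))))))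
noncomputable def u3_135 : St := (.c (nat_lit 2279) l55 (.c (nat_lit 763) l55 (.c (nat_lit 1986) l45 (.c (nat_lit 1859) l60 (.c (nat_lit 2213) l55 (.c (nat_lit 2274) l47 (.c (nat_lit 1213) l45 (.c (nat_lit 2282) l55 (.c (nat_lit 2226) l55 (.c (nat_lit 2226) l45 (.c (nat_lit 1872) l45 (.c (nat_lit 2272) l45 (.c (nat_lit 2207) l55 (.c (nat_lit 2506) l61 (.c (nat_lit 1212) l61 (.c (nat_lit 2282) l58 (.c (nat_lit 2281) l55 (.c (nat_lit 2239) l55 (.c (nat_lit 1855) l45 (.c (nat_lit 870) l58 (.c (nat_lit 2262) l44 (.c (nat_lit 2239) l45 (.c (nat_lit 1960) l47 (.c (nat_lit 1991) l47 (.c (nat_lit 1860) l55 (.c (nat_lit 1861) l44 (.c (nat_lit 2544) l44 (.c (nat_lit 2503) l43 (.c (nat_lit 2273) l45 (.c (nat_lit 2644) l138 (.c (nat_lit 1861) l47 (.c (nat_lit 2273) l58 (.c (nat_lit 2210) l43 (.c (nat_lit 2503) l138 (.c (nat_lit 2274) l44 (.c (nat_lit 2573) l138 (.c (nat_lit 1991) l44 (.c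 (nat_lit 2274) l61 (.c (nat_lit 1908) l45 (.c (nat_lit 1960) l44 u3_134))))))))))))))))))))))))))))))))))))))))
noncomputable def u3_136 : St := (.c (nat_lit 2204) l43 (.c (nat_lit 2478) l58 (.c (nat_lit 1547) l45 (.c (nat_lit 1628) l55 (.c (nat_lit 2204) l60 (.c (nat_lit 2224) l45 (.c (nat_lit 1649) l58 (.c (nat_lit 1484) l55 (.c (nat_lit 870) l55 (.c (nat_lit 2302) l47 (.c (nat_lit 2282) l82 (.c (nat_lit 1969) l85 (.c (nat_lit 2312) l60 (.c (nat_lit 2210) l60 .e))))))))))))))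
noncomputable def u3_137 : St := (.c (nat_lit 2005) l60 (.c (nat_lit 763) l55 (.c (nat_lit 2305) l55 (.c (nat_lit 1986) l45 (.c (nat_lit 2213) l55 (.c (nat_lit 1859) l43 (.c (nat_lit 2005) l62 (.c (nat_lit 2478) l45 (.c (nat_lit 2282) l55 (.c (nat_lit 1872) l45 (.c (nat_lit 2207) l55 (.c (nat_lit 1212) l61 (.c (nat_lit 2282) l58 (.c (nat_lit 2281) l55 (.c (nat_lit 1855) l45 (.c (nat_lit 1972) l45 (.c (nat_lit 2262) l44 (.c (nat_lit 1960) l47 (.c (nat_lit 1991) l47 (.c (nat_lit 1861) l44 (.c (nat_lit 2544) l44 (.c (nat_lit 2503) l43 (.c (nat_lit 1959) l45 (.c (nat_lit 2644) l138 (.c (nat_lit 1861) l47 (.c (nat_lit 2503) l138 (.c (nat_lit 2305) l82 (.c (nat_lit 2573) l138 (.c (nat_lit 1991) l44 (.c (nat_lit 1959) l58 (.c (nat_lit 1908) l45 (.c (nat_lit 2285) l44 (.c (nat_lit 1991) l61 (.c (nat_lit 1969) l61 (.c (nat_lit 1991) l62 (.c (nat_lit 1955) l55 (.c (nat_lit 1941) l55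 (.c (nat_lit 2193) l55 (.c (nat_lit 1986) l58 (.c (nat_lit 2105) l43 u3_136))))))))))))))))))))))))))))))))))))))))
noncomputable def u3_138 : St := (.c (nat_lit 2478) l58 (.c (nat_lit 1960) l62 (.c (nat_lit 1547) l45 (.c (nat_lit 2655) l89 (.c (nat_lit 2204) l60 (.c (nat_lit 2224) l45 (.c (nat_lit 1649) l58 (.c (nat_lit 1484) l55 (.c (nat_lit 2506) l85 (.c (nat_lit 1210) l45 (.c (nat_lit 2302) l47 (.c (nat_lit 2282) l82 (.c (nat_lit 1969) l85 (.c (nat_lit 2312) l60 .e))))))))))))))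
noncomputable def u3_139 : St := (.c (nat_lit 2005) l60 (.c (nat_lit 1986) l45 (.c (nat_lit 1523) l55 (.c (nat_lit 2005) l62 (.c (nat_lit 2285) l47 (.c (nat_lit 2478) l45 (.c (nat_lit 1853) l45 (.c (nat_lit 1213) l45 (.c (nat_lit 2282) l55 (.c (nat_lit 2506) l61 (.c (nat_lit 1212) l61 (.c (nat_lit 2282) l58 (.c (nat_lit 870) l58 (.c (nat_lit 1991) l47 (.c (nat_lit 1860) l55 (.c (nat_lit 2544) l44 (.c (nat_lit 2503) l43 (.c (nat_lit 2655) l60 (.c (nat_lit 2644) l138 (.c (nat_lit 2013) l55 (.c (nat_lit 2193) l43 (.c (nat_lit 2503) l138 (.c (nat_lit 2573) l138 (.c (nat_lit 1991) l44 (.c (nat_lit 2353) l61 (.c (nat_lit 1604) l58 (.c (nat_lit 1991) l61 (.c (nat_lit 1585) l45 (.c (nat_lit 1854) l43 (.c (nat_lit 1991) l62 (.c (nat_lit 1853) l55 (.c (nat_lit 1941) l55 (.c (nat_lit 1969) l62 (.c (nat_lit 2353) l62 (.c (nat_lit 1986) l58 (.c (nat_lit 2564) l60 (.c (nat_lit 2105) l43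 (.c (nat_lit 2262) l47 (.c (nat_lit 1967) l55 (.c (nat_lit 1964) l55 u3_138))))))))))))))))))))))))))))))))))))))))
noncomputable def u3_140 : St := (.c (nat_lit 2655) l89 (.c (nat_lit 2204) l60 (.c (nat_lit 1649) l58 (.c (nat_lit 2506) l85 (.c (nat_lit 2282) l82 .e)))))
noncomputable def u3_141 : St := (.c (nat_lit 763) l55 (.c (nat_lit 1523) l55 (.c (nat_lit 2213) l55 (.c (nat_lit 1853) l45 (.c (nat_lit 1213) l45 (.c (nat_lit 2282) l55 (.c (nat_lit 1872) l45 (.c (nat_lit 2207) l55 (.c (nat_lit 2506) l61 (.c (nat_lit 1212) l61 (.c (nat_lit 2282) l58 (.c (nat_lit 2281) l55 (.c (nat_lit 1855) l45 (.c (nat_lit 2190) l43 (.c (nat_lit 1860) l55 (.c (nat_lit 2503) l43 (.c (nat_lit 2655) l60 (.c (nat_lit 1959) l45 (.c (nat_lit 2503) l60 (.c (nat_lit 1969) l134 (.c (nat_lit 2013) l55 (.c (nat_lit 2193) l43 (.c (nat_lit 2503) l138 (.c (nat_lit 1610) l55 (.c (nat_lit 1959) l58 (.c (nat_lit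 1908) l45 (.c (nat_lit 1961) l45 (.c (nat_lit 2278) l43 (.c (nat_lit 1966) l43 (.c (nat_lit 1955) l55 (.c (nat_lit 1853) l55 (.c (nat_lit 1972) l55 (.c (nat_lit 1213) l55 (.c (nat_lit 1941) l55 (.c (nat_lit 2193) l55 (.c (nat_lit 1961) l55 (.c (nat_lit 2503) l89 (.c (nat_lit 2564) l60 (.c (nat_lit 2105) l43 (.c (nat_lit 1964) l55 u3_140))))))))))))))))))))))))))))))))))))))))
noncomputable def u3_142 : St := (.c (nat_lit 2503) l89 (.c (nat_lit 2564) l60 (.c (nat_lit 1967) l55 (.c (nat_lit 1960) l62 (.c (nat_lit 1628) l55 (.c (nat_lit 2204) l60 (.c (nat_lit 1604) l55 (.c (nat_lit 2224) l45 (.c (nat_lit 2232) l43 (.c (nat_lit 1210) l45 (.c (nat_lit 2302) l47 .e)))))))))))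
noncomputable def u3_143 : St := (.c (nat_lit 1986) l45 (.c (nat_lit 1853) l45 (.c (nat_lit 1213) l45 (.c (nat_lit 2573) l62 (.c (nat_lit 870) l58 (.c (nat_lit 1955) l45 (.c (nat_lit 2262) l44 (.c (nat_lit 1991) l47 (.c (nat_lit 1860) l55 (.c (nat_lit 1861) l44 (.c (nat_lit 2544) l44 (.c (nat_lit 1959) l45 (.c (nat_lit 2503) l60 (.c (nat_lit 1969) l134 (.c (nat_lit 2273) l45 (.c (nat_lit 2644) l138 (.c (nat_lit 1861) l47 (.c (nat_lit 2273) l58 (.c (nat_lit 2013) l55 (.c (nat_lit 2193) l43 (.c (nat_lit 2573) l138 (.c (nat_lit 2573) l86 (.c (nat_lit 1991) l44 (.c (nat_lit 1959) l58 (.c (nat_lit 2353) l61 (.c (nat_lit 1961) l45 (.c (nat_lit 2285) l44 (.c (nat_lit 1604) l58 (.c (nat_lit 1991) l61 (.c (nat_lit 1585) l45 (.c (nat_lit 1969) l61 (.c (nat_lit 1991) l62 (.c (nat_lit 1955) l55 (.c (nat_lit 1853) l55 (.c (nat_lit 1941) l55 (.c (nat_lit 1969) l62 (.c (nat_lit 1961) l55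 (.c (nat_lit 1809) l55 (.c (nat_lit 2353) l62 (.c (nat_lit 1986) l58 u3_142))))))))))))))))))))))))))))))))))))))))
noncomputable def u3_144 : St := (.c (nat_lit 1859) l60 (.c (nat_lit 1859) l43 (.c (nat_lit 2285) l47 (.c (nat_lit 2262) l44 (.c (nat_lit 1861) l44 (.c (nat_lit 1861) l47 (.c (nat_lit 2210) l43 (.c (nat_lit 2193) l43 (.c (nat_lit 1610) l55 (.c (nat_lit 2285) l44 (.c (nat_lit 2262) l47 (.c (nat_lit 2204) l43 (.c (nat_lit 1547) l45 (.c (nat_lit 1221) l55 (.c (nat_lit 1604) l55 (.c (nat_lit 2305) l187 (.c (nat_lit 1891) l60 .e)))))))))))))))))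
noncomputable def u3_145 : St := (.c (nat_lit 1221) l55 (.c (nat_lit 2204) l60 (.c (nat_lit 2506) l85 .e)))
noncomputable def u3_146 : St := (.c (nat_lit 1859) l43 (.c (nat_lit 2285) l47 (.c (nat_lit 1213) l45 (.c (nat_lit 2506) l61 (.c (nat_lit 1212) l61 (.c (nat_lit 2573) l62 (.c (nat_lit 1955) l45 (.c (nat_lit 2190) l43 (.c (nat_lit 2262) l44 (.c (nat_lit 1860) l55 (.c (nat_lit 1861) l44 (.c (nat_lit 2503) l43 (.c (nat_lit 2655) l60 (.c (nat_lit 2503) l60 (.c (nat_lit 1969) l134 (.c (nat_lit 2273) l45 (.c (nat_lit 1861) l47 (.c (nat_lit 2273) l58 (.c (nat_lit 2210) l43 (.c (nat_lit 2503) l138 (.c (nat_lit 1610) l55 (.c (nat_lit 2573) l86 (.c (nat_lit 2353) l61 (.c (nat_lit 2285) l44 (.c (nat_lit 1969) l61 (.c (nat_lit 2278) l43 (.c (nat_lit 1854) l43 (.c (nat_lit 1955) l55 (.c (nat_lit 1213) l55 (.c (nat_lit 1969) l62 (.c (nat_lit 1809) l55 (.c (nat_lit 2353) l62 (.c (nat_lit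 2503) l89 (.c (nat_lit 2564) l60 (.c (nat_lit 2262) l47 (.c (nat_lit 2204) l43 (.c (nat_lit 1967) l55 (.c (nat_lit 1964) l55 (.c (nat_lit 2655) l89 (.c (nat_lit 1628) l55 u3_145))))))))))))))))))))))))))))))))))))))))
noncomputable def u3_147 : St := (.c (nat_lit 1523) l55 (.c (nat_lit 1213) l45 (.c (nat_lit 1212) l61 (.c (nat_lit 2503) l43 (.c (nat_lit 2503) l60 (.c (nat_lit 1969) l134 (.c (nat_lit 2503) l138 (.c (nat_lit 1966) l43 (.c (nat_lit 1213) l55 (.c (nat_lit 2503) l89 (.c (nat_lit 1628) l55 (.c (nat_lit 1966) l60 (.c (nat_lit 2305) l187 (.c (nat_lit 1476) l55 (.c (nat_lit 1484) l55 .e)))))))))))))))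
noncomputable def u3_148 : St := (.c (nat_lit 1859) l43 (.c (nat_lit 2285) l47 (.c (nat_lit 1213) l45 (.c (nat_lit 1212) l61 (.c (nat_lit 2190) l43 (.c (nat_lit 2312) l43 (.c (nat_lit 2262) l44 (.c (nat_lit 1861) l44 (.c (nat_lit 2503) l43 (.c (nat_lit 2503) l60 (.c (nat_lit 1969) l134 (.c (nat_lit 1861) l47 (.c (nat_lit 2193) l43 (.c (nat_lit 2503) l138 (.c (nat_lit 1610) l55 (.c (nat_lit 2285) l44 (.c (nat_lit 2278) l43 (.c (nat_lit 1213) l55 (.c (nat_lit 2503) l89 (.c (nat_lit 2262) l47 (.c (nat_lit 2204) l43 (.c (nat_lit 1547) l45 (.c (nat_lit 1628) l55 (.c (nat_lit 1221) l55 (.c (nat_lit 1604) l55 (.c (nat_lit 2224) l45 (.c (nat_lit 2232) l43 .e)))))))))))))))))))))))))))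
noncomputable def u3_149 : St := (.c (nat_lit 1213) l45 (.c (nat_lit 1212) l61 (.c (nat_lit 2503) l43 (.c (nat_lit 2503) l60 (.c (nat_lit 1969) l134 (.c (nat_lit 2503) l138 (.c (nat_lit 1610) l55 (.c (nat_lit 1966) l43 (.c (nat_lit 1213) l55 (.c (nat_lit 2503) l89 (.c (nat_lit 1628) l55 (.c (nat_lit 1221) l55 (.c (nat_lit 1966) l60 (.c (nat_lit 1604) l55 (.c (nat_lit 2224) l45 .e)))))))))))))))
noncomputable def u3_150 : St := (.c (nat_lit 2305) l55 (.c (nat_lit 1859) l43 (.c (nat_lit 2285) l47 (.c (nat_lit 1213) l45 (.c (nat_lit 2652) l55 (.c (nat_lit 2652) l195 (.c (nat_lit 2652) l253 (.c (nat_lit 870) l58 (.c (nat_lit 2190) l43 (.c (nat_lit 2262) l44 (.c (nat_lit 1960) l47 (.c (nat_lit 1861) l44 (.c (nat_lit 1959) l45 (.c (nat_lit 1861) l47 (.c (nat_lit 2013) l55 (.c (nat_lit 2210) l43 (.c (nat_lit 2305) l82 (.c (nat_lit 1610) l55 (.c (nat_lit 1959) l58 (.c (nat_lit 2285)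 l44 (.c (nat_lit 1604) l58 (.c (nat_lit 1585) l45 (.c (nat_lit 2278) l43 (.c (nat_lit 1854) l43 (.c (nat_lit 1966) l43 (.c (nat_lit 1809) l55 (.c (nat_lit 2564) l60 (.c (nat_lit 2105) l43 (.c (nat_lit 2262) l47 (.c (nat_lit 2384) l55 (.c (nat_lit 2204) l43 (.c (nat_lit 1960) l62 (.c (nat_lit 1547) l45 (.c (nat_lit 1221) l55 (.c (nat_lit 2204) l60 .e)))))))))))))))))))))))))))))))))))
noncomputable def u3_151 : St := (.c (nat_lit 1213) l45 (.c (nat_lit 2652) l55 (.c (nat_lit 1212) l61 (.c (nat_lit 2652) l195 (.c (nat_lit 2652) l253 (.c (nat_lit 2503) l43 (.c (nat_lit 2655) l60 (.c (nat_lit 2503) l60 (.c (nat_lit 1969) l134 (.c (nat_lit 2503) l138 (.c (nat_lit 1966) l43 (.c (nat_lit 1213) l55 (.c (nat_lit 1809) l55 (.c (nat_lit 2503) l89 (.c (nat_lit 2564) l60 (.c (nat_lit 2105) l43 (.c (nat_lit 2384) l55 (.c (nat_lit 1547) l45 (.c (nat_lit 2655) l89 (.c (nat_lit 1628) l55 (.c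 (nat_lit 1966) l60 .e)))))))))))))))))))))
noncomputable def u3_152 : St := (.c (nat_lit 1960) l62 .e)
noncomputable def u3_153 : St := (.c (nat_lit 2005) l60 (.c (nat_lit 2305) l55 (.c (nat_lit 1859) l43 (.c (nat_lit 2005) l62 (.c (nat_lit 2478) l45 (.c (nat_lit 2652) l55 (.c (nat_lit 1212) l61 (.c (nat_lit 2652) l195 (.c (nat_lit 2652) l253 (.c (nat_lit 2573) l62 (.c (nat_lit 870) l58 (.c (nat_lit 2190) l43 (.c (nat_lit 1960) l47 (.c (nat_lit 2281) l60 (.c (nat_lit 2503) l43 (.c (nat_lit 1959) l45 (.c (nat_lit 2503) l60 (.c (nat_lit 1969) l134 (.c (nat_lit 2273) l45 (.c (nat_lit 2273) l58 (.c (nat_lit 2503) l138 (.c (nat_lit 2305) l82 (.c (nat_lit 2573) l86 (.c (nat_lit 1959) l58 (.c (nat_lit 2353) l61 (.c (nat_lit 1604) l58 (.c (nat_lit 1585) l45 (.c (nat_lit 1969) l61 (.c (nat_lit 2278) l43 (.c (nat_lit 1854) l43 (.c (nat_lit 1966) l43 (.c (nat_lit 1213) l55 (.c (nat_lit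 1969) l62 (.c (nat_lit 2193) l60 (.c (nat_lit 2353) l62 (.c (nat_lit 2503) l89 (.c (nat_lit 2105) l43 (.c (nat_lit 2384) l55 (.c (nat_lit 2204) l43 (.c (nat_lit 2478) l58 u3_152))))))))))))))))))))))))))))))))))))))))
noncomputable def u3_154 : St := (.c (nat_lit 1966) l43 (.c (nat_lit 2193) l55 (.c (nat_lit 2193) l60 (.c (nat_lit 2353) l62 (.c (nat_lit 2105) l43 (.c (nat_lit 1967) l55 (.c (nat_lit 2489) l62 (.c (nat_lit 2448) l86 .e))))))))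
noncomputable def u3_155 : St := (.c (nat_lit 2279) l55 (.c (nat_lit 763) l55 (.c (nat_lit 1523) l55 (.c (nat_lit 2213) l55 (.c (nat_lit 2274) l47 (.c (nat_lit 2448) l62 (.c (nat_lit 2448) l61 (.c (nat_lit 2644) l135 (.c (nat_lit 1872) l45 (.c (nat_lit 2207) l55 (.c (nat_lit 2281) l55 (.c (nat_lit 1855) l45 (.c (nat_lit 1972) l45 (.c (nat_lit 1955) l45 (.c (nat_lit 1960) l47 (.c (nat_lit 1991) l47 (.c (nat_lit 1860) l55 (.c (nat_lit 2281) l60 (.c (nat_lit 1861) l44 (.c (nat_lit 2448) l85 (.c (nat_lit 2501) l82 (.c (nat_lit 1959) l45 (.c (nat_lit 2273) l45 (.c (nat_lit 2644) l138 (.c (nat_lit 1861) l47 (.c (nat_lit 2273) l58 (.c (nat_lit 2013) l55 (.c (nat_lit 2501) l55 (.c (nat_lit 2193) l43 (.c (nat_lit 2274) l44 (.c (nat_lit 2573) l138 (.c (nat_lit 1610) l55 (.c (nat_lit 1991) l44 (.c (nat_lit 2274) l61 (.c (nat_lit 1959) l58 (.c (nat_lit 2353) l61 (.c (nat_lit 1908) l45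 (.c (nat_lit 1960) l44 (.c (nat_lit 1991) l61 (.c (nat_lit 1991) l62 u3_154))))))))))))))))))))))))))))))))))))))))
noncomputable def u3_156 : St := (.c (nat_lit 2005) l60 (.c (nat_lit 1986) l45 (.c (nat_lit 2005) l62 (.c (nat_lit 2478) l45 (.c (nat_lit 1213) l45 (.c (nat_lit 2652) l55 (.c (nat_lit 1212) l61 (.c (nat_lit 2652) l195 (.c (nat_lit 2652) l253 (.c (nat_lit 2503) l43 (.c (nat_lit 1959) l45 (.c (nat_lit 2503) l60 (.c (nat_lit 1969) l134 (.c (nat_lit 2013) l55 (.c (nat_lit 2503) l138 (.c (nat_lit 1959) l58 (.c (nat_lit 1213) l55 (.c (nat_lit 1809) l55 (.c (nat_lit 1986) l58 (.c (nat_lit 2503) l89 (.c (nat_lit 2564) l60 (.c (nat_lit 2105) l43 (.c (nat_lit 2384) l55 (.c (nat_lit 2478) l58 .e))))))))))))))))))))))))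
noncomputable def u3_157 : St := (.c (nat_lit 2262) l47 (.c (nat_lit 2384) l55 (.c (nat_lit 1967) l55 (.c (nat_lit 1964) l55 .e))))
noncomputable def u3_158 : St := (.c (nat_lit 763) l55 (.c (nat_lit 2305) l55 (.c (nat_lit 1986) l45 (.c (nat_lit 1523) l55 (.c (nat_lit 2213) l55 (.c (nat_lit 2285) l47 (.c (nat_lit 2652) l55 (.c (nat_lit 1872) l45 (.c (nat_lit 2207) l55 (.c (nat_lit 2652) l195 (.c (nat_lit 2652) l253 (.c (nat_lit 2281) l55 (.c (nat_lit 2573) l62 (.c (nat_lit 1855) l45 (.c (nat_lit 2190) l43 (.c (nat_lit 2262) l44 (.c (nat_lit 1861) l44 (.c (nat_lit 1959) l45 (.c (nat_lit 2273) l45 (.c (nat_lit 1861) l47 (.c (nat_lit 2273) l58 (.c (nat_lit 2210) l43 (.c (nat_lit 2305) l82 (.c (nat_lit 1610) l55 (.c (nat_lit 2573) l86 (.c (nat_lit 1959) l58 (.c (nat_lit 2353) l61 (.c (nat_lit 1908) l45 (.c (nat_lit 1961) l45 (.c (nat_lit 2285) l44 (.c (nat_lit 2278) l43 (.c (nat_lit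 1854) l43 (.c (nat_lit 1955) l55 (.c (nat_lit 1972) l55 (.c (nat_lit 1941) l55 (.c (nat_lit 2193) l55 (.c (nat_lit 1961) l55 (.c (nat_lit 2353) l62 (.c (nat_lit 1986) l58 (.c (nat_lit 2564) l60 u3_157))))))))))))))))))))))))))))))))))))))))
noncomputable def u3_159 : St := (.c (nat_lit 1986) l58 (.c (nat_lit 2105) l43 (.c (nat_lit 2489) l62 .e)))
noncomputable def u3_160 : St := (.c (nat_lit 2279) l55 (.c (nat_lit 2415) l55 (.c (nat_lit 1986) l45 (.c (nat_lit 2274) l47 (.c (nat_lit 2644) l135 (.c (nat_lit 1213) l45 (.c (nat_lit 1212) l61 (.c (nat_lit 2573) l62 (.c (nat_lit 2415) l58 (.c (nat_lit 1955) l45 (.c (nat_lit 1960) l47 (.c (nat_lit 1991) l47 (.c (nat_lit 1861) l44 (.c (nat_lit 2503) l43 (.c (nat_lit 2501) l82 (.c (nat_lit 1959) l45 (.c (nat_lit 2273) l45 (.c (nat_lit 2644) l138 (.c (nat_lit 1861) l47 (.c (nat_lit 2273) l58 (.c (nat_lit 2013) l55 (.c (nat_lit 2501)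 l55 (.c (nat_lit 2503) l138 (.c (nat_lit 2274) l44 (.c (nat_lit 2415) l82 (.c (nat_lit 1610) l55 (.c (nat_lit 2573) l86 (.c (nat_lit 1991) l44 (.c (nat_lit 2274) l61 (.c (nat_lit 1959) l58 (.c (nat_lit 1960) l44 (.c (nat_lit 1961) l45 (.c (nat_lit 1991) l61 (.c (nat_lit 1854) l43 (.c (nat_lit 1991) l62 (.c (nat_lit 1955) l55 (.c (nat_lit 1213) l55 (.c (nat_lit 1941) l55 (.c (nat_lit 1961) l55 (.c (nat_lit 1809) l55 u3_159))))))))))))))))))))))))))))))))))))))))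
noncomputable def u3_161 : St := (.c (nat_lit 2415) l55 (.c (nat_lit 1986) l45 (.c (nat_lit 2652) l55 (.c (nat_lit 2652) l195 (.c (nat_lit 2652) l253 (.c (nat_lit 2573) l62 (.c (nat_lit 2415) l58 (.c (nat_lit 1860) l55 (.c (nat_lit 2281) l60 (.c (nat_lit 1959) l45 (.c (nat_lit 2193) l43 (.c (nat_lit 2573) l138 (.c (nat_lit 2415) l82 (.c (nat_lit 2573) l86 (.c (nat_lit 1959) l58 (.c (nat_lit 2193) l60 (.c (nat_lit 1986) l58 (.c (nat_lit 2105) l43 (.c (nat_lit 2384) l55 (.c (nat_lit 1967) l55 .e))))))))))))))))))))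
noncomputable def u3_162 : St := (.c (nat_lit 2415) l55 (.c (nat_lit 1859) l43 (.c (nat_lit 2415) l58 (.c (nat_lit 2190) l43 (.c (nat_lit 1991) l47 (.c (nat_lit 2281) l60 (.c (nat_lit 2273) l45 (.c (nat_lit 2273) l58 (.c (nat_lit 2573) l138 (.c (nat_lit 2415) l82 (.c (nat_lit 1991) l44 (.c (nat_lit 2353) l61 (.c (nat_lit 1991) l61 (.c (nat_lit 2278) l43 (.c (nat_lit 1854) l43 (.c (nat_lit 1991) l62 (.c (nat_lit 1966) l43 (.c (nat_lit 2193) l60 (.c (nat_lit 2353) l62 (.c (nat_lit 2204) l43 .e))))))))))))))))))))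
noncomputable def u3_163 : St := (.c (nat_lit 2285) l47 (.c (nat_lit 2573) l62 (.c (nat_lit 2190) l43 (.c (nat_lit 2262) l44 (.c (nat_lit 1861) l44 (.c (nat_lit 2273) l45 (.c (nat_lit 1861) l47 (.c (nat_lit 2273) l58 (.c (nat_lit 2210) l43 (.c (nat_lit 2573) l86 (.c (nat_lit 2285) l44 (.c (nat_lit 2278) l43 (.c (nat_lit 1809) l55 (.c (nat_lit 2564) l60 (.c (nat_lit 2105) l43 (.c (nat_lit 2262) l47 .e))))))))))))))))
noncomputable def u3_164 : St := (.c (nat_lit 763) l55 (.c (nat_lit 2305) l55 (.c (nat_lit 1523) l55 (.c (nat_lit 2213) l55 (.c (nat_lit 1853) l45 (.c (nat_lit 1872) l45 (.c (nat_lit 2207) l55 (.c (nat_lit 2281) l55 (.c (nat_lit 2573) l62 (.c (nat_lit 1855) l45 (.c (nat_lit 1955) l45 (.c (nat_lit 1991) l47 (.c (nat_lit 1860) l55 (.c (nat_lit 1959) l45 (.c (nat_lit 2273) l45 (.c (nat_lit 2273) l58 (.c (nat_lit 2305) l82 (.c (nat_lit 1610) l55 (.c (nat_lit 2573) l86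 (.c (nat_lit 1991) l44 (.c (nat_lit 1959) l58 (.c (nat_lit 1908) l45 (.c (nat_lit 1991) l61 (.c (nat_lit 1969) l61 (.c (nat_lit 1991) l62 (.c (nat_lit 1853) l55 (.c (nat_lit 1972) l55 (.c (nat_lit 1941) l55 (.c (nat_lit 1969) l62 (.c (nat_lit 2193) l55 .e))))))))))))))))))))))))))))))
noncomputable def u3_165 : St := (.c (nat_lit 1853) l45 (.c (nat_lit 2573) l62 (.c (nat_lit 1991) l47 (.c (nat_lit 2273) l45 (.c (nat_lit 2273) l58 (.c (nat_lit 2573) l86 (.c (nat_lit 1991) l44 (.c (nat_lit 1991) l61 (.c (nat_lit 2278) l43 (.c (nat_lit 1854) l43 (.c (nat_lit 1991) l62 (.c (nat_lit 1966) l43 (.c (nat_lit 1853) l55 .e)))))))))))))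
noncomputable def u3_166 : St := (.c (nat_lit 2157) l61 (.c (nat_lit 2353) l61 (.c (nat_lit 2221) l45 (.c (nat_lit 2194) l58 (.c (nat_lit 1901) l45 (.c (nat_lit 2285) l61 (.c (nat_lit 2280) l44 (.c (nat_lit 2453) l55 (.c (nat_lit 1961) l45 (.c (nat_lit 1964) l58 (.c (nat_lit 1105) l45 (.c (nat_lit 1966) l47 (.c (nat_lit 2278) l47 (.c (nat_lit 1585) l45 (.c (nat_lit 1891) l62 .e)))))))))))))))
noncomputable def u3_167 : St := (.c (nat_lit 1877) l61 (.c (nat_lit 2207) l58 (.c (nat_lit 763) l58 (.c (nat_lit 1859) l43 (.c (nat_lit 2204) l47 (.c (nat_lit 1877) l47 (.c (nat_lit 2453) l45 (.c (nat_lit 1852) l45 (.c (nat_lit 2186) l45 (.c (nat_lit 1853) l45 (.c (nat_lit 1213) l45 (.c (nat_lit 1891) l47 (.c (nat_lit 2207) l55 (.c (nat_lit 2282) l58 (.c (nat_lit 2186) l55 (.c (nat_lit 2573) l62 (.c (nat_lit 1855) l45 (.c (nat_lit 1972) l45 (.c (nat_lit 2299) l58 (.c (nat_lit 1961) l58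 (.c (nat_lit 1955) l45 (.c (nat_lit 2190) l43 (.c (nat_lit 2262) l44 (.c (nat_lit 1859) l47 (.c (nat_lit 2544) l44 (.c (nat_lit 1877) l62 (.c (nat_lit 1852) l55 (.c (nat_lit 1523) l58 (.c (nat_lit 2262) l61 (.c (nat_lit 2207) l82 (.c (nat_lit 1859) l62 (.c (nat_lit 2273) l45 (.c (nat_lit 2273) l58 (.c (nat_lit 2193) l43 (.c (nat_lit 1967) l58 (.c (nat_lit 2573) l86 (.c (nat_lit 1955) l58 (.c (nat_lit 2194) l61 (.c (nat_lit 1809) l58 (.c (nat_lit 1860) l58 u3_166))))))))))))))))))))))))))))))))))))))))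
noncomputable def u3_168 : St := (.c (nat_lit 2194) l61 (.c (nat_lit 1991) l44 (.c (nat_lit 1860) l58 (.c (nat_lit 2353) l61 (.c (nat_lit 2221) l45 (.c (nat_lit 2194) l58 (.c (nat_lit 2285) l61 (.c (nat_lit 2280) l44 (.c (nat_lit 2453) l55 (.c (nat_lit 2573) l139 (.c (nat_lit 1961) l45 (.c (nat_lit 1964) l58 (.c (nat_lit 1628) l58 (.c (nat_lit 1105) l45 (.c (nat_lit 1966) l47 (.c (nat_lit 2573) l90 (.c (nat_lit 1991) l61 (.c (nat_lit 2278) l47 (.c (nat_lit 2448) l90 (.c (nat_lit 1585) l45 (.c (nat_lit 1969) l61 (.c (nat_lit 2448) l139 .e))))))))))))))))))))))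
noncomputable def u3_169 : St := (.c (nat_lit 1877) l61 (.c (nat_lit 2207) l58 (.c (nat_lit 2573) l60 (.c (nat_lit 763) l58 (.c (nat_lit 1859) l60 (.c (nat_lit 2204) l47 (.c (nat_lit 1877) l47 (.c (nat_lit 2448) l47 (.c (nat_lit 2453) l45 (.c (nat_lit 1852) l45 (.c (nat_lit 2186) l45 (.c (nat_lit 2573) l89 (.c (nat_lit 2448) l62 (.c (nat_lit 1853) l45 (.c (nat_lit 1213) l45 (.c (nat_lit 2207) l55 (.c (nat_lit 2282) l58 (.c (nat_lit 2186) l55 (.c (nat_lit 1855) l45 (.c (nat_lit 1972) l45 (.c (nat_lit 2299) l58 (.c (nat_lit 1961) l58 (.c (nat_lit 1955) l45 (.c (nat_lit 2190) l43 (.c (nat_lit 2262) l44 (.c (nat_lit 1859) l47 (.c (nat_lit 2544) l44 (.c (nat_lit 1877) l62 (.c (nat_lit 1852) l55 (.c (nat_lit 1523) l58 (.c (nat_lit 2262) l61 (.c (nat_lit 2207) l82 (.c (nat_lit 1859) l62 (.c (nat_lit 2273) l45 (.c (nat_lit 2273) l58 (.c (nat_lit 2193) l43 (.c (nat_lit 2573) l138 (.c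 (nat_lit 1967) l58 (.c (nat_lit 2573) l86 (.c (nat_lit 1955) l58 u3_168))))))))))))))))))))))))))))))))))))))))
noncomputable def u3_170 : St := (.c (nat_lit 1901) l45 (.c (nat_lit 2280) l44 (.c (nat_lit 2499) l61 (.c (nat_lit 2453) l55 (.c (nat_lit 1854) l62 (.c (nat_lit 1961) l45 (.c (nat_lit 2285) l44 (.c (nat_lit 1966) l47 (.c (nat_lit 2573) l90 (.c (nat_lit 1604) l58 (.c (nat_lit 1991) l61 (.c (nat_lit 2278) l47 (.c (nat_lit 2448) l90 .e)))))))))))))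
noncomputable def u3_171 : St := (.c (nat_lit 1877) l61 (.c (nat_lit 2207) l58 (.c (nat_lit 2573) l60 (.c (nat_lit 2499) l44 (.c (nat_lit 2204) l47 (.c (nat_lit 1877) l47 (.c (nat_lit 1854) l47 (.c (nat_lit 2453) l45 (.c (nat_lit 2186) l45 (.c (nat_lit 2573) l89 (.c (nat_lit 2448) l62 (.c (nat_lit 1853) l45 (.c (nat_lit 1891) l47 (.c (nat_lit 2207) l55 (.c (nat_lit 2282) l58 (.c (nat_lit 2186) l55 (.c (nat_lit 1855) l45 (.c (nat_lit 1101) l45 (.c (nat_lit 1958) l58 (.c (nat_lit 2299) l58 (.c (nat_lit 1961) l58 (.c (nat_lit 870) l58 (.c (nat_lit 2190) l43 (.c (nat_lit 2262) l44 (.c (nat_lit 1877) l62 (.c (nat_lit 2207) l82 (.c (nat_lit 2013) l58 (.c (nat_lit 2273) l45 (.c (nat_lit 2273) l58 (.c (nat_lit 2193) l43 (.c (nat_lit 2573) l86 (.c (nat_lit 1955) l58 (.c (nat_lit 1121) l45 (.c (nat_lit 2194) l61 (.c (nat_lit 2274) l61 (.c (nat_lit 2353) l61 (.c (nat_lit 1908) l45 (.c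 (nat_lit 2221) l45 (.c (nat_lit 2194) l58 (.c (nat_lit 1487) l58 u3_170))))))))))))))))))))))))))))))))))))))))
noncomputable def u3_172 : St := (.c (nat_lit 1859) l43 (.c (nat_lit 2204) l47 (.c (nat_lit 2573) l62 (.c (nat_lit 2190) l43 (.c (nat_lit 2273) l45 (.c (nat_lit 2273) l58 (.c (nat_lit 2193) l43 (.c (nat_lit 2274) l44 (.c (nat_lit 2573) l86 (.c (nat_lit 1991) l44 (.c (nat_lit 2280) l44 (.c (nat_lit 1960) l44 (.c (nat_lit 1966) l47 (.c (nat_lit 2278) l47 .e))))))))))))))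
noncomputable def u3_173 : St := (.c (nat_lit 1487) l58 (.c (nat_lit 1901) l45 (.c (nat_lit 2280) l44 (.c (nat_lit 2453) l55 (.c (nat_lit 2659) l195 (.c (nat_lit 2280) l61 (.c (nat_lit 1966) l47 .e)))))))
noncomputable def u3_174 : St := (.c (nat_lit 2239) l58 (.c (nat_lit 1877) l61 (.c (nat_lit 763) l58 (.c (nat_lit 2468) l44 (.c (nat_lit 1877) l47 (.c (nat_lit 2438) l44 (.c (nat_lit 2453) l45 (.c (nat_lit 1852) l45 (.c (nat_lit 2186) l45 (.c (nat_lit 2466) l45 (.c (nat_lit 2492) l61 (.c (nat_lit 2272) l58 (.c (nat_lit 2226) l45 (.c (nat_lit 2272) l45 (.c (nat_lit 2659) l55 (.c (nat_lit 2186) l55 (.c (nat_lit 2659) l187 (.c (nat_lit 1958) l58 (.c (nat_lit 2262) l44 (.c (nat_lit 2239) l45 (.c (nat_lit 2544) l44 (.c (nat_lit 2466) l58 (.c (nat_lit 1877) l62 (.c (nat_lit 2226) l58 (.c (nat_lit 1852) l55 (.c (nat_lit 1523) l58 (.c (nat_lit 2013) l58 (.c (nat_lit 2274) l44 (.c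 (nat_lit 2415) l82 (.c (nat_lit 1955) l58 (.c (nat_lit 1121) l45 (.c (nat_lit 1991) l44 (.c (nat_lit 1860) l58 (.c (nat_lit 2274) l61 (.c (nat_lit 1972) l58 (.c (nat_lit 1941) l58 (.c (nat_lit 2157) l61 (.c (nat_lit 2353) l61 (.c (nat_lit 1908) l45 (.c (nat_lit 2221) l45 u3_173))))))))))))))))))))))))))))))))))))))))
noncomputable def u3_175 : St := (.c (nat_lit 1972) l45 (.c (nat_lit 1955) l45 (.c (nat_lit 2262) l44 (.c (nat_lit 2544) l44 (.c (nat_lit 2262) l61 (.c (nat_lit 1955) l58 (.c (nat_lit 2194) l61 (.c (nat_lit 1809) l58 (.c (nat_lit 1991) l44 (.c (nat_lit 1860) l58 (.c (nat_lit 1972) l58 (.c (nat_lit 1941) l58 (.c (nat_lit 2157) l61 (.c (nat_lit 2353) l61 (.c (nat_lit 1964) l58 .e)))))))))))))))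
noncomputable def u3_176 : St := (.c (nat_lit 1877) l61 (.c (nat_lit 763) l58 (.c (nat_lit 1877) l47 (.c (nat_lit 2453) l45 (.c (nat_lit 1852) l45 (.c (nat_lit 2186) l45 (.c (nat_lit 2659) l55 (.c (nat_lit 2186) l55 (.c (nat_lit 2659) l187 (.c (nat_lit 1972) l45 (.c (nat_lit 1877) l62 (.c (nat_lit 1852) l55 (.c (nat_lit 1523) l58 (.c (nat_lit 2013) l58 (.c (nat_lit 2415) l82 (.c (nat_lit 1967) l58 (.c (nat_lit 1121) l45 (.c (nat_lit 1809) l58 (.c (nat_lit 1972) l58 (.c (nat_lit 2157) l61 (.c (nat_lit 2353) l61 (.c (nat_lit 1487) l58 (.c (nat_lit 2280) l44 (.c (nat_lit 2453) l55 (.c (nat_lit 2659) l195 (.c (nat_lit 1960) l44 (.c (nat_lit 2285) l44 .e)))))))))))))))))))))))))))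
noncomputable def u3_177 : St := (.c (nat_lit 1859) l60 (.c (nat_lit 1859) l43 (.c (nat_lit 2499) l44 (.c (nat_lit 1105) l58 (.c (nat_lit 1853) l45 (.c (nat_lit 2282) l58 (.c (nat_lit 1855) l45 (.c (nat_lit 2299) l58 (.c (nat_lit 870) l58 (.c (nat_lit 1955) l45 (.c (nat_lit 1859) l47 (.c (nat_lit 1861) l44 (.c (nat_lit 2544) l44 (.c (nat_lit 1523) l58 (.c (nat_lit 2262) l61 (.c (nat_lit 2282) l61 (.c (nat_lit 1859) l62 (.c (nat_lit 2274) l44 (.c (nat_lit 2573) l138 (.c (nat_lit 1967) l58 (.c (nat_lit 1955) l58 (.c (nat_lit 1121) l45 (.c (nat_lit 2274) l61 (.c (nat_lit 1972) l58 (.c (nat_lit 2221) l45 (.c (nat_lit 2194) l58 (.c (nat_lit 1901) l45 (.c (nat_lit 2499) l61 (.c (nat_lit 2573) l139 (.c (nat_lit 2280) l61 .e))))))))))))))))))))))))))))))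
noncomputable def u3_178 : St := (.c (nat_lit 2453) l55 (.c (nat_lit 1960) l44 (.c (nat_lit 1872) l58 (.c (nat_lit 1853) l58 (.c (nat_lit 1854) l62 .e)))))
noncomputable def u3_179 : St := (.c (nat_lit 1877) l61 (.c (nat_lit 1862) l45 (.c (nat_lit 763) l58 (.c (nat_lit 1859) l60 (.c (nat_lit 2499) l44 (.c (nat_lit 1877) l47 (.c (nat_lit 1854) l47 (.c (nat_lit 2453) l45 (.c (nat_lit 1859) l138 (.c (nat_lit 1105) l58 (.c (nat_lit 2186) l45 (.c (nat_lit 2448) l61 (.c (nat_lit 1853) l45 (.c (nat_lit 1872) l45 (.c (nat_lit 2186) l55 (.c (nat_lit 1972) l45 (.c (nat_lit 1955) l45 (.c (nat_lit 1859) l47 (.c (nat_lit 1861) l44 (.c (nat_lit 2448) l85 (.c (nat_lit 2544) l44 (.c (nat_lit 1862) l55 (.c (nat_lit 1877) l62 (.c (nat_lit 1523) l58 (.c (nat_lit 2262) l61 (.c (nat_lit 2013) l58 (.c (nat_lit 1859) l62 (.c (nat_lit 2274) l44 (.c (nat_lit 1967) l58 (.c (nat_lit 1955) l58 (.c (nat_lit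 1476) l58 (.c (nat_lit 1121) l45 (.c (nat_lit 1860) l58 (.c (nat_lit 2274) l61 (.c (nat_lit 1972) l58 (.c (nat_lit 2157) l61 (.c (nat_lit 2353) l61 (.c (nat_lit 1487) l58 (.c (nat_lit 2280) l44 (.c (nat_lit 2499) l61 u3_178))))))))))))))))))))))))))))))))))))))))
noncomputable def u3_180 : St := (.c (nat_lit 2221) l45 (.c (nat_lit 2194) l58 (.c (nat_lit 2285) l61 (.c (nat_lit 2280) l44 (.c (nat_lit 2499) l61 (.c (nat_lit 2453) l55 (.c (nat_lit 2573) l139 (.c (nat_lit 1960) l44 (.c (nat_lit 1872) l58 (.c (nat_lit 1853) l58 .e))))))))))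
noncomputable def u3_181 : St := (.c (nat_lit 1877) l61 (.c (nat_lit 2207) l58 (.c (nat_lit 1862) l45 (.c (nat_lit 763) l58 (.c (nat_lit 1859) l43 (.c (nat_lit 2499) l44 (.c (nat_lit 1877) l47 (.c (nat_lit 2453) l45 (.c (nat_lit 1852) l45 (.c (nat_lit 1859) l138 (.c (nat_lit 1105) l58 (.c (nat_lit 2186) l45 (.c (nat_lit 2448) l61 (.c (nat_lit 1872) l45 (.c (nat_lit 2207) l55 (.c (nat_lit 2282) l58 (.c (nat_lit 2186) l55 (.c (nat_lit 1855) l45 (.c (nat_lit 1101) l45 (.c (nat_lit 1958) l58 (.c (nat_lit 2299) l58 (.c (nat_lit 870) l58 (.c (nat_lit 1955) l45 (.c (nat_lit 1861) l44 (.c (nat_lit 2448) l85 (.c (nat_lit 2544) l44 (.c (nat_lit 1862) l55 (.c (nat_lit 1877) l62 (.c (nat_lit 1852) l55 (.c (nat_lit 1523) l58 (.c (nat_lit 2262) l61 (.c (nat_lit 2207) l82 (.c (nat_lit 2013) l58 (.c (nat_lit 2573) l138 (.c (nat_lit 1476) l58 (.c (nat_lit 1809) l58 (.c (nat_lit 1860) l58 (.c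 (nat_lit 2274) l61 (.c (nat_lit 1941) l58 (.c (nat_lit 1908) l45 u3_180))))))))))))))))))))))))))))))))))))))))
noncomputable def u3_182 : St := (.c (nat_lit 1991) l44 (.c (nat_lit 2274) l61 (.c (nat_lit 1941) l58 (.c (nat_lit 2194) l58 (.c (nat_lit 1901) l45 (.c (nat_lit 2285) l61 (.c (nat_lit 2280) l44 (.c (nat_lit 2644) l139 (.c (nat_lit 2499) l61 (.c (nat_lit 1960) l44 (.c (nat_lit 1872) l58 .e)))))))))))
noncomputable def u3_183 : St := (.c (nat_lit 2384) l58 (.c (nat_lit 2207) l58 (.c (nat_lit 763) l58 (.c (nat_lit 1859) l43 (.c (nat_lit 2499) l44 (.c (nat_lit 1852) l45 (.c (nat_lit 2513) l45 (.c (nat_lit 2513) l82 (.c (nat_lit 1853) l45 (.c (nat_lit 2513) l55 (.c (nat_lit 2652) l55 (.c (nat_lit 2272) l58 (.c (nat_lit 2226) l45 (.c (nat_lit 1872) l45 (.c (nat_lit 2272) l45 (.c (nat_lit 2207) l55 (.c (nat_lit 2282) l58 (.c (nat_lit 2652) l195 (.c (nat_lit 2652) l253 (.c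 (nat_lit 1855) l45 (.c (nat_lit 1101) l45 (.c (nat_lit 1972) l45 (.c (nat_lit 2299) l58 (.c (nat_lit 870) l58 (.c (nat_lit 1955) l45 (.c (nat_lit 1859) l47 (.c (nat_lit 1861) l44 (.c (nat_lit 2544) l44 (.c (nat_lit 2513) l58 (.c (nat_lit 2384) l82 (.c (nat_lit 2226) l58 (.c (nat_lit 1852) l55 (.c (nat_lit 1523) l58 (.c (nat_lit 2207) l82 (.c (nat_lit 2013) l58 (.c (nat_lit 2644) l138 (.c (nat_lit 1967) l58 (.c (nat_lit 1955) l58 (.c (nat_lit 2194) l61 (.c (nat_lit 1809) l58 u3_182))))))))))))))))))))))))))))))))))))))))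
noncomputable def u3_184 : St := (.c (nat_lit 1877) l61 (.c (nat_lit 763) l58 (.c (nat_lit 1877) l47 (.c (nat_lit 2453) l45 (.c (nat_lit 1852) l45 (.c (nat_lit 2186) l45 (.c (nat_lit 2186) l55 (.c (nat_lit 1972) l45 (.c (nat_lit 2262) l44 (.c (nat_lit 2544) l44 (.c (nat_lit 1877) l62 (.c (nat_lit 1852) l55 (.c (nat_lit 1523) l58 (.c (nat_lit 2262) l61 (.c (nat_lit 2013) l58 (.c (nat_lit 1121) l45 (.c (nat_lit 2194) l61 (.c (nat_lit 1991) l44 (.c (nat_lit 1860) l58 (.c (nat_lit 1972) l58 (.c (nat_lit 1941) l58 (.c (nat_lit 2157) l61 (.c (nat_lit 1487) l58 (.c (nat_lit 2453) l55 (.c (nat_lit 1960) l44 .e)))))))))))))))))))))))))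
noncomputable def u3_185 : St := (.c (nat_lit 1877) l61 (.c (nat_lit 1877) l47 (.c (nat_lit 2453) l45 (.c (nat_lit 1852) l45 (.c (nat_lit 2186) l45 (.c (nat_lit 2186) l55 (.c (nat_lit 1972) l45 (.c (nat_lit 2262) l44 (.c (nat_lit 2544) l44 (.c (nat_lit 1877) l62 (.c (nat_lit 1852) l55 (.c (nat_lit 2262) l61 (.c (nat_lit 2013) l58 (.c (nat_lit 2194) l61 (.c (nat_lit 1991) l44 (.c (nat_lit 1860) l58 (.c (nat_lit 1972) l58 (.c (nat_lit 1941) l58 (.c (nat_lit 2157) l61 (.c (nat_lit 2221) l45 (.c (nat_lit 2453) l55 .e)))))))))))))))))))))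
noncomputable def u3_186 : St := (.c (nat_lit 763) l58 (.c (nat_lit 1859) l60 (.c (nat_lit 1859) l43 (.c (nat_lit 2499) l44 (.c (nat_lit 1972) l45 (.c (nat_lit 1958) l58 (.c (nat_lit 2262) l44 (.c (nat_lit 1859) l47 (.c (nat_lit 1523) l58 (.c (nat_lit 1859) l62 (.c (nat_lit 2274) l44 (.c (nat_lit 1955) l58 (.c (nat_lit 1121) l45 (.c (nat_lit 2194) l61 (.c (nat_lit 1991) l44 (.c (nat_lit 2274) l61 (.c (nat_lit 1941) l58 (.c (nat_lit 2157) l61 (.c (nat_lit 2353) l61 (.c (nat_lit 1908) l45 (.c (nat_lit 2221) l45 (.c (nat_lit 1487) l58 (.c (nat_lit 1901) l45 (.c (nat_lit 2285) l61 (.c (nat_lit 2499) l61 .e)))))))))))))))))))))))))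
noncomputable def u3_187 : St := (.c (nat_lit 1105) l58 (.c (nat_lit 1853) l45 (.c (nat_lit 2282) l58 (.c (nat_lit 1855) l45 (.c (nat_lit 1972) l45 (.c (nat_lit 1958) l58 (.c (nat_lit 2299) l58 (.c (nat_lit 870) l58 (.c (nat_lit 1955) l45 (.c (nat_lit 1861) l44 (.c (nat_lit 1523) l58 (.c (nat_lit 1121) l45 (.c (nat_lit 1809) l58 (.c (nat_lit 1991) l44 (.c (nat_lit 1860) l58 (.c (nat_lit 1972) l58 (.c (nat_lit 1908) l45 (.c (nat_lit 2194) l58 .e))))))))))))))))))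
noncomputable def u3_188 : St := (.c (nat_lit 2587) l79 (.c (nat_lit 2587) l70 (.c (nat_lit 2194) l160 (.c (nat_lit 1487) l65 (.c (nat_lit 2439) l166 (.c (nat_lit 2666) l52 (.c (nat_lit 2666) l181 (.c (nat_lit 2439) l110 (.c (nat_lit 2438) l160 (.c (nat_lit 2666) l48 (.c (nat_lit 2666) l100 (.c (nat_lit 2666) l104 (.c (nat_lit 2665) l102 (.c (nat_lit 2666) l101 (.c (nat_lit 2436) l49 (.c (nat_lit 2666) l136 .e))))))))))))))))
noncomputable def u3_189 : St := (.c (nat_lit 2693) l48 (.c (nat_lit 2664) l52 (.c (nat_lit 2683) l49 (.c (nat_lit 2654) l42 (.c (nat_lit 2688) l52 (.c (nat_lit 2728) l77 (.c (nat_lit 2686) l48 (.c (nat_lit 2684) l52 (.c (nat_lit 2700) l97 (.c (nat_lit 2660) l108 (.c (nat_lit 2728) l68 (.c (nat_lit 2667) l49 (.c (nat_lit 2411) l48 (.c (nat_lit 2660) l160 (.c (nat_lit 2647) l65 .e)))))))))))))))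
noncomputable def u3_190 : St := (.c (nat_lit 2544) l49 (.c (nat_lit 2713) l157 (.c (nat_lit 2630) l49 (.c (nat_lit 2725) l143 (.c (nat_lit 2732) l101 (.c (nat_lit 2732) l215 (.c (nat_lit 2254) l42 (.c (nat_lit 2175) l1 (.c (nat_lit 2493) l100 (.c (nat_lit 2556) l50 (.c (nat_lit 2728) l73 (.c (nat_lit 2000) l42 (.c (nat_lit 2448) l49 (.c (nat_lit 2193) l65 (.c (nat_lit 2728) l209 (.c (nat_lit 2390) l65 (.c (nat_lit 2719) l157 (.c (nat_lit 1825) l42 (.c (nat_lit 2531) l49 (.c (nat_lit 2389) l42 (.c (nat_lit 2169) l42 (.c (nat_lit 2164) l42 (.c (nat_lit 2611) l78 (.c (nat_lit 2503) l49 (.c (nat_lit 2582) l49 (.c (nat_lit 2731) l106 .e))))))))))))))))))))))))))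
noncomputable def u3_191 : St := (.c (nat_lit 2732) l110 (.c (nat_lit 2732) l264 (.c (nat_lit 2732) l37 (.c (nat_lit 2732) l106 (.c (nat_lit 2730) l157 (.c (nat_lit 2681) l65 (.c (nat_lit 2582) l69 (.c (nat_lit 2694) l69 (.c (nat_lit 2718) l102 (.c (nat_lit 2648) l78 (.c (nat_lit 2731) l100 (.c (nat_lit 2719) l207 (.c (nat_lit 2728) l147 (.c (nat_lit 2513) l65 (.c (nat_lit 2293) l42 (.c (nat_lit 2383) l42 (.c (nat_lit 2718) l114 (.c (nat_lit 2649) l65 (.c (nat_lit 2653) l97 (.c (nat_lit 2732) l26 (.c (nat_lit 2718) l68 (.c (nat_lit 2731) l202 (.c (nat_lit 2731) l222 (.c (nat_lit 2730) l104 (.c (nat_lit 2635) l69 (.c (nat_lit 2635) l49 (.c (nat_lit 1934) l42 (.c (nat_lit 2281) l207 (.c (nat_lit 1391) l42 (.c (nat_lit 2728) l154 (.c (nat_lit 2730) l97 (.c (nat_lit 2506) l48 (.c (nat_lit 2719) l48 (.c (nat_lit 2116) l42 (.c (nat_lit 2261) l42 (.c (nat_lit 2700) l97 (.c (nat_lit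 2728) l151 (.c (nat_lit 1804) l42 (.c (nat_lit 2620) l49 (.c (nat_lit 2680) l69 u3_190))))))))))))))))))))))))))))))))))))))))
noncomputable def u3_192 : St := (.c (nat_lit 1937) l42 (.c (nat_lit 2504) l65 (.c (nat_lit 2732) l13 (.c (nat_lit 2732) l225 (.c (nat_lit 2724) l141 (.c (nat_lit 2731) l101 (.c (nat_lit 2719) l65 (.c (nat_lit 2732) l114 (.c (nat_lit 2731) l97 (.c (nat_lit 2732) l33 (.c (nat_lit 2732) l18 (.c (nat_lit 2732) l100 (.c (nat_lit 2732) l104 (.c (nat_lit 2719) l49 (.c (nat_lit 2732) l151 (.c (nat_lit 2723) l65 (.c (nat_lit 2605) l49 (.c (nat_lit 2731) l157 (.c (nat_lit 2707) l50 (.c (nat_lit 2732) l102 (.c (nat_lit 1982) l42 (.c (nat_lit 2580) l49 (.c (nat_lit 2694) l65 (.c (nat_lit 2654) l50 (.c (nat_lit 2665) l50 (.c (nat_lit 2648) l63 (.c (nat_lit 2728) l101 (.c (nat_lit 2680) l65 (.c (nat_lit 2675) l65 (.c (nat_lit 2705) l65 (.c (nat_lit 2617) l65 (.c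 (nat_lit 2691) l49 (.c (nat_lit 2732) l156 (.c (nat_lit 2731) l110 (.c (nat_lit 2654) l42 (.c (nat_lit 2270) l42 (.c (nat_lit 1741) l2 (.c (nat_lit 2575) l160 (.c (nat_lit 2611) l63 (.c (nat_lit 2581) l50 u3_191))))))))))))))))))))))))))))))))))))))))
noncomputable def u3_193 : St := (.c (nat_lit 2686) l69 (.c (nat_lit 2693) l48 (.c (nat_lit 2727) l78 (.c (nat_lit 2720) l78 (.c (nat_lit 2648) l78 (.c (nat_lit 2051) l42 (.c (nat_lit 2727) l246 (.c (nat_lit 2727) l162 (.c (nat_lit 2635) l69 (.c (nat_lit 2635) l49 (.c (nat_lit 2718) l246 (.c (nat_lit 1763) l65 (.c (nat_lit 2172) l74 (.c (nat_lit 2113) l65 (.c (nat_lit 2345) l53 (.c (nat_lit 2720) l162 (.c (nat_lit 2686) l49 (.c (nat_lit 2418) l48 (.c (nat_lit 2550) l74 (.c (nat_lit 2117) l78 (.c (nat_lit 2693) l91 .e)))))))))))))))))))))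
noncomputable def u3_194 : St := (.c (nat_lit 2169) l42 (.c (nat_lit 2701) l181 (.c (nat_lit 2720) l179 (.c (nat_lit 2701) l91 (.c (nat_lit 2550) l74 (.c (nat_lit 2604) l52 (.c (nat_lit 2117) l78 (.c (nat_lit 2173) l78 (.c (nat_lit 2552) l49 (.c (nat_lit 2667) l49 (.c (nat_lit 2727) l179 (.c (nat_lit 2616) l63 .e))))))))))))
noncomputable def u3_195 : St := (.c (nat_lit 1391) l42 (.c (nat_lit 2655) l48 (.c (nat_lit 2369) l42 (.c (nat_lit 2696) l74 (.c (nat_lit 2134) l42 (.c (nat_lit 2731) l171 (.c (nat_lit 2719) l48 (.c (nat_lit 2657) l74 (.c (nat_lit 2563) l42 (.c (nat_lit 2116) l42 (.c (nat_lit 2536) l50 (.c (nat_lit 2593) l65 (.c (nat_lit 2172) l74 (.c (nat_lit 1572) l42 (.c (nat_lit 2575) l74 (.c (nat_lit 2448) l49 (.c (nat_lit 2503) l52 (.c (nat_lit 2345) l53 (.c (nat_lit 2390) l65 (.c (nat_lit 2653) l157 (.c (nat_lit 2731) l306 (.c (nat_lit 2386) l1 (.c (nat_lit 2719)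 l157 (.c (nat_lit 2630) l63 (.c (nat_lit 2731) l283 (.c (nat_lit 2698) l136 (.c (nat_lit 2573) l48 (.c (nat_lit 2700) l171 (.c (nat_lit 2660) l179 (.c (nat_lit 2720) l181 (.c (nat_lit 2701) l118 (.c (nat_lit 2719) l107 (.c (nat_lit 2720) l160 (.c (nat_lit 1825) l42 (.c (nat_lit 2660) l108 (.c (nat_lit 2421) l78 (.c (nat_lit 2414) l42 (.c (nat_lit 2720) l63 (.c (nat_lit 2389) l42 (.c (nat_lit 1800) l42 u3_194))))))))))))))))))))))))))))))))))))))))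
noncomputable def u3_196 : St := (.c (nat_lit 2620) l48 (.c (nat_lit 2661) l69 (.c (nat_lit 2650) l53 (.c (nat_lit 2567) l53 (.c (nat_lit 2556) l74 (.c (nat_lit 2100) l53 (.c (nat_lit 2572) l53 (.c (nat_lit 2555) l53 (.c (nat_lit 2727) l276 (.c (nat_lit 2635) l48 (.c (nat_lit 2540) l42 (.c (nat_lit 2630) l48 (.c (nat_lit 2556) l42 (.c (nat_lit 2635) l63 (.c (nat_lit 2631) l69 (.c (nat_lit 2631) l50 (.c (nat_lit 2719) l207 (.c (nat_lit 2558) l65 (.c (nat_lit 2700) l74 (.c (nat_lit 2689) l65 (.c (nat_lit 2507) l50 (.c (nat_lit 2697) l152 (.c (nat_lit 2445) l49 (.c (nat_lit 2704) l69 (.c (nat_lit 2684) l78 (.c (nat_lit 2648) l53 (.c (nat_lit 2418) l42 (.c (nat_lit 2554) l42 (.c (nat_lit 2383) l42 (.c (nat_lit 2649) l65 (.c (nat_lit 2697) l97 (.c (nat_lit 2731) l294 (.c (nat_lit 2653) l97 (.c (nat_lit 2548) l42 (.c (nat_lit 2391) l78 (.c (nat_lit 1260) l42 (.c (nat_lit 2684) l52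 (.c (nat_lit 2635) l69 (.c (nat_lit 2635) l49 (.c (nat_lit 2214) l65 u3_195))))))))))))))))))))))))))))))))))))))))
noncomputable def u3_197 : St := (.c (nat_lit 2502) l108 (.c (nat_lit 2683) l65 (.c (nat_lit 2719) l65 (.c (nat_lit 2715) l107 (.c (nat_lit 2502) l97 (.c (nat_lit 2731) l179 (.c (nat_lit 2698) l48 (.c (nat_lit 2719) l69 (.c (nat_lit 2719) l49 (.c (nat_lit 2698) l69 (.c (nat_lit 2651) l42 (.c (nat_lit 1781) l42 (.c (nat_lit 2313) l1 (.c (nat_lit 2727) l74 (.c (nat_lit 2715) l159 (.c (nat_lit 2638) l74 (.c (nat_lit 1763) l42 (.c (nat_lit 2731) l160 (.c (nat_lit 2731) l108 (.c (nat_lit 2683) l157 (.c (nat_lit 2558) l141 (.c (nat_lit 2720) l74 (.c (nat_lit 2293) l74 (.c (nat_lit 2700) l108 (.c (nat_lit 2720) l231 (.c (nat_lit 2720) l78 (.c (nat_lit 2113) l42 (.c (nat_lit 2635) l78 (.c (nat_lit 2632) l74 (.c (nat_lit 1741) l2 (.c (nat_lit 2650) l74 (.c (nat_lit 2653)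 l179 (.c (nat_lit 2653) l108 (.c (nat_lit 2555) l74 (.c (nat_lit 2638) l108 (.c (nat_lit 2717) l112 (.c (nat_lit 2133) l42 (.c (nat_lit 2575) l160 (.c (nat_lit 2659) l74 (.c (nat_lit 2655) l78 u3_196))))))))))))))))))))))))))))))))))))))))
noncomputable def u3_198 : St := (.c (nat_lit 2731) l179 (.c (nat_lit 2701) l63 (.c (nat_lit 2651) l42 (.c (nat_lit 2727) l74 (.c (nat_lit 2718) l118 (.c (nat_lit 1763) l42 (.c (nat_lit 2731) l108 (.c (nat_lit 2701) l78 (.c (nat_lit 2720) l78 (.c (nat_lit 2113) l42 (.c (nat_lit 1741) l2 (.c (nat_lit 2133) l42 (.c (nat_lit 2575) l160 (.c (nat_lit 2727) l276 (.c (nat_lit 2540) l42 (.c (nat_lit 2700) l74 (.c (nat_lit 2548) l42 (.c (nat_lit 2720) l118 (.c (nat_lit 2718) l78 (.c (nat_lit 2369) l42 (.c (nat_lit 2134) l42 (.c (nat_lit 2718) l181 (.c (nat_lit 2731) l171 (.c (nat_lit 2149) l42 (.c (nat_lit 2172) l74 (.c (nat_lit 2575) l74 (.c (nat_lit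 2701) l140 (.c (nat_lit 2700) l171 (.c (nat_lit 2660) l179 (.c (nat_lit 2720) l181 (.c (nat_lit 2701) l118 (.c (nat_lit 2720) l160 (.c (nat_lit 2660) l108 (.c (nat_lit 2169) l42 (.c (nat_lit 2701) l181 (.c (nat_lit 2701) l91 (.c (nat_lit 2550) l74 (.c (nat_lit 2660) l160 (.c (nat_lit 2727) l179 .e)))))))))))))))))))))))))))))))))))))))
noncomputable def u3_199 : St := (.c (nat_lit 2686) l69 (.c (nat_lit 2693) l48 (.c (nat_lit 2727) l78 (.c (nat_lit 2720) l78 (.c (nat_lit 2648) l78 (.c (nat_lit 2727) l246 (.c (nat_lit 2727) l162 (.c (nat_lit 2387) l69 (.c (nat_lit 2391) l78 (.c (nat_lit 2635) l69 (.c (nat_lit 2635) l49 (.c (nat_lit 2718) l246 (.c (nat_lit 2720) l162 (.c (nat_lit 2421) l78 (.c (nat_lit 2686) l49 (.c (nat_lit 2170) l63 (.c (nat_lit 2693) l87 .e)))))))))))))))))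
noncomputable def u3_200 : St := (.c (nat_lit 2686) l69 (.c (nat_lit 2719) l69 (.c (nat_lit 2698) l69 (.c (nat_lit 2701) l63 (.c (nat_lit 2701) l78 (.c (nat_lit 2654) l42 (.c (nat_lit 2720) l78 (.c (nat_lit 2684) l78 (.c (nat_lit 2387) l69 (.c (nat_lit 2693) l63 (.c (nat_lit 2635) l69 (.c (nat_lit 2728) l154 (.c (nat_lit 2506) l78 (.c (nat_lit 2728) l73 (.c (nat_lit 2345) l53 (.c (nat_lit 2720) l63 .e))))))))))))))))
noncomputable def u3_201 : St := (.c (nat_lit 2698) l63 (.c (nat_lit 2698) l48 (.c (nat_lit 2719) l69 (.c (nat_lit 2698) l69 (.c (nat_lit 2731) l157 (.c (nat_lit 2731) l160 (.c (nat_lit 2700) l108 (.c (nat_lit 2653) l179 (.c (nat_lit 2385) l74 (.c (nat_lit 2655) l78 (.c (nat_lit 2567) l53 (.c (nat_lit 2573) l52 (.c (nat_lit 2385) l53 (.c (nat_lit 2556) l42 (.c (nat_lit 2700) l74 (.c (nat_lit 2554) l42 (.c (nat_lit 2383) l42 (.c (nat_lit 2405) l42 (.c (nat_lit 2719)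 l48 (.c (nat_lit 2563) l42 (.c (nat_lit 1763) l65 (.c (nat_lit 2149) l42 (.c (nat_lit 2410) l42 (.c (nat_lit 2401) l42 (.c (nat_lit 1572) l42 (.c (nat_lit 2575) l74 (.c (nat_lit 2655) l63 (.c (nat_lit 2390) l65 (.c (nat_lit 2653) l157 (.c (nat_lit 2731) l306 (.c (nat_lit 2698) l107 (.c (nat_lit 2720) l140 (.c (nat_lit 2386) l1 (.c (nat_lit 2557) l48 (.c (nat_lit 2557) l63 (.c (nat_lit 2731) l283 (.c (nat_lit 2573) l63 (.c (nat_lit 2698) l136 (.c (nat_lit 2698) l87 (.c (nat_lit 2719) l107 .e))))))))))))))))))))))))))))))))))))))))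
noncomputable def u3_202 : St := (.c (nat_lit 2719) l141 (.c (nat_lit 2719) l157 (.c (nat_lit 2630) l63 (.c (nat_lit 2731) l283 (.c (nat_lit 2582) l63 .e)))))
noncomputable def u3_203 : St := (.c (nat_lit 2727) l162 (.c (nat_lit 2554) l42 (.c (nat_lit 2383) l42 (.c (nat_lit 2649) l65 (.c (nat_lit 2653) l97 (.c (nat_lit 2387) l69 (.c (nat_lit 2706) l141 (.c (nat_lit 2686) l48 (.c (nat_lit 1260) l42 (.c (nat_lit 2720) l118 (.c (nat_lit 2684) l52 (.c (nat_lit 2635) l69 (.c (nat_lit 2214) l65 (.c (nat_lit 2728) l154 (.c (nat_lit 2613) l63 (.c (nat_lit 2503) l63 (.c (nat_lit 2655) l48 (.c (nat_lit 2713) l108 (.c (nat_lit 2114) l69 (.c (nat_lit 2506) l48 (.c (nat_lit 2696) l74 (.c (nat_lit 2725) l162 (.c (nat_lit 2718) l181 (.c (nat_lit 1763) l65 (.c (nat_lit 2149) l42 (.c (nat_lit 2116) l42 (.c (nat_lit 2713) l231 (.c (nat_lit 2536) l50 (.c (nat_lit 2593) l65 (.c (nat_lit 2644)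 l69 (.c (nat_lit 2644) l49 (.c (nat_lit 2172) l74 (.c (nat_lit 1572) l42 (.c (nat_lit 2503) l52 (.c (nat_lit 2557) l52 (.c (nat_lit 2390) l65 (.c (nat_lit 2653) l157 (.c (nat_lit 2731) l306 (.c (nat_lit 2698) l107 (.c (nat_lit 2720) l140 u3_202))))))))))))))))))))))))))))))))))))))))
noncomputable def u3_204 : St := (.c (nat_lit 2728) l77 (.c (nat_lit 2555) l74 (.c (nat_lit 2385) l74 (.c (nat_lit 2717) l112 (.c (nat_lit 2732) l94 (.c (nat_lit 2635) l42 (.c (nat_lit 2659) l74 (.c (nat_lit 2655) l78 (.c (nat_lit 2444) l65 (.c (nat_lit 2620) l48 (.c (nat_lit 2661) l69 (.c (nat_lit 2650) l53 (.c (nat_lit 2547) l53 (.c (nat_lit 2100) l53 (.c (nat_lit 2559) l74 (.c (nat_lit 2572) l53 (.c (nat_lit 2573) l52 (.c (nat_lit 2555) l53 (.c (nat_lit 2385) l53 (.c (nat_lit 2582) l69 (.c (nat_lit 2730) l246 (.c (nat_lit 2648) l78 (.c (nat_lit 2635) l48 (.c (nat_lit 2529) l42 (.c (nat_lit 2730)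 l162 (.c (nat_lit 2630) l48 (.c (nat_lit 2556) l42 (.c (nat_lit 2706) l97 (.c (nat_lit 2635) l63 (.c (nat_lit 2631) l69 (.c (nat_lit 2719) l97 (.c (nat_lit 2719) l207 (.c (nat_lit 2558) l65 (.c (nat_lit 2727) l181 (.c (nat_lit 2704) l69 (.c (nat_lit 2727) l246 (.c (nat_lit 2644) l48 (.c (nat_lit 2648) l53 (.c (nat_lit 2625) l74 (.c (nat_lit 2732) l162 u3_203))))))))))))))))))))))))))))))))))))))))
noncomputable def u3_205 : St := (.c (nat_lit 2502) l108 (.c (nat_lit 2693) l48 (.c (nat_lit 2706) l65 (.c (nat_lit 2683) l65 (.c (nat_lit 2212) l42 (.c (nat_lit 2715) l107 (.c (nat_lit 2502) l97 (.c (nat_lit 2727) l78 (.c (nat_lit 2732) l63 (.c (nat_lit 2719) l69 (.c (nat_lit 2719) l49 (.c (nat_lit 2698) l69 (.c (nat_lit 2731) l157 (.c (nat_lit 2313) l1 (.c (nat_lit 2580) l49 (.c (nat_lit 2448) l48 (.c (nat_lit 2605) l48 (.c (nat_lit 2597) l52 (.c (nat_lit 2732) l118 (.c (nat_lit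 2715) l159 (.c (nat_lit 2732) l168 (.c (nat_lit 2664) l52 (.c (nat_lit 2731) l160 (.c (nat_lit 2683) l157 (.c (nat_lit 2713) l160 (.c (nat_lit 2730) l78 (.c (nat_lit 2713) l179 (.c (nat_lit 2293) l74 (.c (nat_lit 2725) l78 (.c (nat_lit 2700) l108 (.c (nat_lit 2654) l42 (.c (nat_lit 2720) l78 (.c (nat_lit 2688) l52 (.c (nat_lit 2635) l78 (.c (nat_lit 2632) l74 (.c (nat_lit 2620) l78 (.c (nat_lit 2613) l52 (.c (nat_lit 2650) l74 (.c (nat_lit 2644) l52 (.c (nat_lit 2582) l78 u3_204))))))))))))))))))))))))))))))))))))))))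
noncomputable def u3_206 : St := (.c (nat_lit 2698) l63 (.c (nat_lit 2698) l49 (.c (nat_lit 2731) l160 (.c (nat_lit 2700) l108 (.c (nat_lit 1741) l2 (.c (nat_lit 2653) l108 (.c (nat_lit 2559) l108 (.c (nat_lit 2567) l53 (.c (nat_lit 2556) l74 (.c (nat_lit 2573) l52 (.c (nat_lit 2556) l42 (.c (nat_lit 2700) l74 (.c (nat_lit 2554) l42 (.c (nat_lit 2405) l42 (.c (nat_lit 1391) l42 (.c (nat_lit 2563) l42 (.c (nat_lit 2149) l42 (.c (nat_lit 2410) l42 (.c (nat_lit 1572) l42 (.c (nat_lit 2417) l53 (.c (nat_lit 2557) l78 (.c (nat_lit 2698) l159 (.c (nat_lit 2386) l1 (.c (nat_lit 2731) l283 (.c (nat_lit 2573) l63 (.c (nat_lit 2698) l87 .e))))))))))))))))))))))))))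
noncomputable def u3_207 : St := (.c (nat_lit 2698) l48 (.c (nat_lit 2698) l49 (.c (nat_lit 2653) l179 (.c (nat_lit 2653) l108 (.c (nat_lit 2385) l74 (.c (nat_lit 2559) l108 (.c (nat_lit 2567) l53 (.c (nat_lit 2556) l74 (.c (nat_lit 2385) l53 (.c (nat_lit 1391) l42 (.c (nat_lit 2113) l65 (.c (nat_lit 2557) l52 (.c (nat_lit 2390) l65 (.c (nat_lit 2698) l159 (.c (nat_lit 2701) l140 (.c (nat_lit 2698) l136 .e))))))))))))))))
noncomputable def u3_208 : St := (.c (nat_lit 2731) l160 (.c (nat_lit 2700) l108 (.c (nat_lit 2556) l42 (.c (nat_lit 2700) l74 (.c (nat_lit 2554) l42 (.c (nat_lit 2405) l42 (.c (nat_lit 1391) l42 (.c (nat_lit 2563) l42 (.c (nat_lit 2149) l42 (.c (nat_lit 2410) l42 (.c (nat_lit 1572) l42 (.c (nat_lit 2386) l1 (.c (nat_lit 2731) l283 .e)))))))))))))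
noncomputable def u3_209 : St := (.c (nat_lit 2630) l48 (.c (nat_lit 2635) l63 (.c (nat_lit 2631) l69 (.c (nat_lit 2719) l97 (.c (nat_lit 2631) l50 (.c (nat_lit 2719) l207 (.c (nat_lit 2700) l74 (.c (nat_lit 2689) l65 (.c (nat_lit 2704) l69 (.c (nat_lit 2445) l69 (.c (nat_lit 2648) l53 (.c (nat_lit 2649) l65 (.c (nat_lit 2653) l97 (.c (nat_lit 2686) l48 (.c (nat_lit 2405) l42 (.c (nat_lit 2720) l118 (.c (nat_lit 2693) l63 (.c (nat_lit 2728) l154 (.c (nat_lit 2718) l78 (.c (nat_lit 2369) l42 (.c (nat_lit 2696) l74 (.c (nat_lit 2718) l91 (.c (nat_lit 2718) l181 (.c (nat_lit 2657) l74 (.c (nat_lit 1763) l65 (.c (nat_lit 1804) l42 (.c (nat_lit 2644) l69 (.c (nat_lit 2644) l49 (.c (nat_lit 2557) l52 (.c (nat_lit 2728) l209 (.c (nat_lit 2653) l157 (.c (nat_lit 2698) l107 (.c (nat_lit 2720) l140 (.c (nat_lit 2719) l141 (.c (nat_lit 2719) l157 (.c (nat_lit 2630) l63 .e))))))))))))))))))))))))))))))))))))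
noncomputable def u3_210 : St := (.c (nat_lit 2718) l87 (.c (nat_lit 2686) l69 (.c (nat_lit 2693) l48 (.c (nat_lit 2715) l107 (.c (nat_lit 2719) l69 (.c (nat_lit 2719) l49 (.c (nat_lit 2698) l69 (.c (nat_lit 1781) l42 (.c (nat_lit 2313) l1 (.c (nat_lit 2715) l159 (.c (nat_lit 2718) l118 (.c (nat_lit 2664) l52 (.c (nat_lit 2638) l74 (.c (nat_lit 2697) l65 (.c (nat_lit 1757) l42 (.c (nat_lit 2720) l78 (.c (nat_lit 2688) l52 (.c (nat_lit 2635) l78 (.c (nat_lit 2632) l74 (.c (nat_lit 2620) l78 (.c (nat_lit 2650) l74 (.c (nat_lit 2728) l77 (.c (nat_lit 2555) l74 (.c (nat_lit 2385) l74 (.c (nat_lit 2638) l108 (.c (nat_lit 2717) l112 (.c (nat_lit 2659) l74 (.c (nat_lit 2559) l108 (.c (nat_lit 2655) l78 (.c (nat_lit 2661) l69 (.c (nat_lit 2650) l53 (.c (nat_lit 2567) l53 (.c (nat_lit 2547) l53 (.c (nat_lit 2100) l53 (.c (nat_lit 2572) l53 (.c (nat_lit 2573) l52 (.c (nat_lit 2555) l53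 (.c (nat_lit 2385) l53 (.c (nat_lit 2121) l42 (.c (nat_lit 2635) l48 u3_209))))))))))))))))))))))))))))))))))))))))
noncomputable def u3_211 : St := (.c (nat_lit 2719) l65 (.c (nat_lit 2731) l157 (.c (nat_lit 1757) l42 (.c (nat_lit 2719) l97 (.c (nat_lit 2418) l42 (.c (nat_lit 2380) l42 (.c (nat_lit 2383) l42 (.c (nat_lit 1763) l65 (.c (nat_lit 2401) l42 (.c (nat_lit 2113) l65 (.c (nat_lit 2653) l157 (.c (nat_lit 2731) l306 (.c (nat_lit 2719) l141 .e)))))))))))))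
noncomputable def u3_212 : St := (.c (nat_lit 2697) l65 (.c (nat_lit 2558) l141 (.c (nat_lit 2720) l78 (.c (nat_lit 2655) l78 (.c (nat_lit 2567) l53 (.c (nat_lit 2558) l65 (.c (nat_lit 2697) l152 (.c (nat_lit 2697) l97 (.c (nat_lit 2731) l294 (.c (nat_lit 2405) l42 (.c (nat_lit 2720) l118 (.c (nat_lit 2655) l48 (.c (nat_lit 2114) l69 (.c (nat_lit 2719) l48 (.c (nat_lit 1763) l65 (.c (nat_lit 2410) l42 (.c (nat_lit 2575) l74 (.c (nat_lit 2113) l65 (.c (nat_lit 2655) l63 (.c (nat_lit 2731) l306 (.c (nat_lit 2720) l140 .e)))))))))))))))))))))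
noncomputable def u3_213 : St := (.c (nat_lit 2732) l281 (.c (nat_lit 2557) l78 (.c (nat_lit 2557) l52 (.c (nat_lit 2728) l113 .e))))
noncomputable def u3_214 : St := (.c (nat_lit 1518) l42 (.c (nat_lit 2728) l117 (.c (nat_lit 1781) l42 (.c (nat_lit 2664) l52 (.c (nat_lit 2638) l74 (.c (nat_lit 2639) l53 (.c (nat_lit 2612) l53 (.c (nat_lit 2706) l108 (.c (nat_lit 2635) l78 (.c (nat_lit 2581) l74 (.c (nat_lit 1379) l42 (.c (nat_lit 2632) l74 (.c (nat_lit 2706) l160 (.c (nat_lit 1741) l2 (.c (nat_lit 2620) l78 (.c (nat_lit 2613) l52 (.c (nat_lit 2650) l74 (.c (nat_lit 2680) l74 (.c (nat_lit 2644) l52 (.c (nat_lit 2697) l108 (.c (nat_lit 2582) l78 (.c (nat_lit 2728) l77 (.c (nat_lit 2653) l108 (.c (nat_lit 2448) l78 (.c (nat_lit 2518) l53 (.c (nat_lit 2655) l78 (.c (nat_lit 2650) l53 (.c (nat_lit 2556) l74 (.c (nat_lit 2100) l53 (.c (nat_lit 2559) l74 (.c (nat_lit 2719) l179 (.c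 (nat_lit 2391) l74 (.c (nat_lit 2385) l53 (.c (nat_lit 2121) l42 (.c (nat_lit 2728) l147 (.c (nat_lit 2649) l65 (.c (nat_lit 1391) l42 (.c (nat_lit 2728) l154 (.c (nat_lit 2116) l42 (.c (nat_lit 1804) l42 u3_213))))))))))))))))))))))))))))))))))))))))
noncomputable def u3_215 : St := (.c (nat_lit 2652) l74 (.c (nat_lit 2686) l69 (.c (nat_lit 1781) l42 (.c (nat_lit 2728) l173 (.c (nat_lit 2664) l52 (.c (nat_lit 1763) l42 (.c (nat_lit 2731) l160 (.c (nat_lit 2720) l231 (.c (nat_lit 2688) l52 (.c (nat_lit 2113) l42 (.c (nat_lit 1379) l42 (.c (nat_lit 2728) l178 (.c (nat_lit 2731) l277 (.c (nat_lit 2650) l74 (.c (nat_lit 2699) l74 (.c (nat_lit 2448) l78 (.c (nat_lit 2518) l53 (.c (nat_lit 2385) l74 (.c (nat_lit 2567) l53 (.c (nat_lit 2556) l74 (.c (nat_lit 2100) l53 (.c (nat_lit 2559) l74 (.c (nat_lit 2719) l179 (.c (nat_lit 2391) l74 (.c (nat_lit 2555) l53 (.c (nat_lit 2684) l78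 (.c (nat_lit 2387) l69 (.c (nat_lit 2391) l78 (.c (nat_lit 2693) l63 (.c (nat_lit 2635) l69 (.c (nat_lit 2728) l154 (.c (nat_lit 2657) l74 (.c (nat_lit 2563) l42 (.c (nat_lit 2506) l78 (.c (nat_lit 2503) l52 (.c (nat_lit 2557) l78 (.c (nat_lit 2728) l169 .e)))))))))))))))))))))))))))))))))))))
noncomputable def u3_216 : St := (.c (nat_lit 1379) l42 (.c (nat_lit 1741) l2 (.c (nat_lit 2653) l179 (.c (nat_lit 2555) l74 (.c (nat_lit 2659) l74 (.c (nat_lit 2556) l74 (.c (nat_lit 2100) l53 (.c (nat_lit 2559) l74 (.c (nat_lit 2572) l53 (.c (nat_lit 2573) l52 (.c (nat_lit 2555) l53 (.c (nat_lit 2121) l42 (.c (nat_lit 2653) l97 (.c (nat_lit 2391) l78 (.c (nat_lit 1391) l42 (.c (nat_lit 2116) l42 (.c (nat_lit 1804) l42 (.c (nat_lit 2417) l53 (.c (nat_lit 2728) l234 .e)))))))))))))))))))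
noncomputable def u3_217 : St := (.c (nat_lit 1518) l42 (.c (nat_lit 1781) l42 (.c (nat_lit 2664) l52 (.c (nat_lit 2638) l74 (.c (nat_lit 1763) l42 (.c (nat_lit 2431) l53 (.c (nat_lit 2639) l53 (.c (nat_lit 2113) l42 (.c (nat_lit 2612) l53 (.c (nat_lit 2706) l108 (.c (nat_lit 2635) l78 (.c (nat_lit 2581) l74 (.c (nat_lit 1379) l42 (.c (nat_lit 2632) l74 (.c (nat_lit 2728) l178 (.c (nat_lit 2706) l160 (.c (nat_lit 2431) l74 (.c (nat_lit 1741) l2 (.c (nat_lit 2620) l78 (.c (nat_lit 2613) l52 (.c (nat_lit 2650) l74 (.c (nat_lit 2680) l74 (.c (nat_lit 2644) l52 (.c (nat_lit 2697) l108 (.c (nat_lit 2582) l78 (.c (nat_lit 2448) l78 (.c (nat_lit 2518) l53 (.c (nat_lit 2385) l74 (.c (nat_lit 2655) l78 (.c (nat_lit 2650) l53 (.c (nat_lit 2567) l53 (.c (nat_lit 2547) l53 (.c (nat_lit 2556) l74 (.c (nat_lit 2385) l53 (.c (nat_lit 2391) l78 (.c (nat_lit 2728) l154 (.c (nat_lit 2732) l281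 .e)))))))))))))))))))))))))))))))))))))
noncomputable def u3_218 : St := (.c (nat_lit 1857) l42 (.c (nat_lit 2433) l42 (.c (nat_lit 2723) l65 (.c (nat_lit 2732) l145 (.c (nat_lit 2707) l50 (.c (nat_lit 2724) l97 (.c (nat_lit 2270) l42 (.c (nat_lit 2192) l42 (.c (nat_lit 2676) l50 (.c (nat_lit 2293) l42 (.c (nat_lit 2709) l97 (.c (nat_lit 2730) l97 (.c (nat_lit 2710) l117 (.c (nat_lit 2730) l141 (.c (nat_lit 2732) l101 .e)))))))))))))))
noncomputable def u3_219 : St := (.c (nat_lit 2624) l69 (.c (nat_lit 2691) l49 (.c (nat_lit 2683) l49 (.c (nat_lit 2611) l63 (.c (nat_lit 2581) l50 (.c (nat_lit 2732) l264 (.c (nat_lit 2664) l65 (.c (nat_lit 2214) l65 (.c (nat_lit 2506) l48 (.c (nat_lit 2536) l50 (.c (nat_lit 2620) l49 (.c (nat_lit 2593) l65 (.c (nat_lit 2544) l49 (.c (nat_lit 2630) l49 (.c (nat_lit 2725) l143 .e)))))))))))))))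
noncomputable def u3_220 : St := (.c (nat_lit 2624) l69 (.c (nat_lit 2648) l63 (.c (nat_lit 2683) l49 (.c (nat_lit 2643) l65 (.c (nat_lit 2639) l50 (.c (nat_lit 2582) l69 (.c (nat_lit 2694) l69 (.c (nat_lit 2648) l78 (.c (nat_lit 2678) l65 (.c (nat_lit 2612) l65 (.c (nat_lit 2536) l50 (.c (nat_lit 2700) l97 (.c (nat_lit 2680) l69 .e)))))))))))))
noncomputable def u3_221 : St := (.c (nat_lit 2731) l150 (.c (nat_lit 2730) l157 (.c (nat_lit 2676) l50 (.c (nat_lit 2681) l65 (.c (nat_lit 2582) l69 (.c (nat_lit 2694) l69 (.c (nat_lit 2731) l114 (.c (nat_lit 2731) l100 (.c (nat_lit 2513) l65 (.c (nat_lit 2732) l26 (.c (nat_lit 2731) l222 (.c (nat_lit 2730) l104 (.c (nat_lit 2709) l97 (.c (nat_lit 2635) l49 (.c (nat_lit 2214) l65 (.c (nat_lit 2710) l117 (.c (nat_lit 2730) l141 (.c (nat_lit 2506) l48 (.c (nat_lit 2731) l166 (.c (nat_lit 2261) l42 (.c (nat_lit 2612) l65 (.c (nat_lit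 2700) l97 (.c (nat_lit 1804) l42 (.c (nat_lit 2731) l102 .e))))))))))))))))))))))))
noncomputable def u3_222 : St := (.c (nat_lit 1937) l42 (.c (nat_lit 2504) l65 (.c (nat_lit 2732) l13 (.c (nat_lit 1857) l42 (.c (nat_lit 2724) l141 (.c (nat_lit 2731) l101 (.c (nat_lit 2732) l114 (.c (nat_lit 2731) l97 (.c (nat_lit 2732) l33 (.c (nat_lit 2433) l42 (.c (nat_lit 2732) l18 (.c (nat_lit 2732) l100 (.c (nat_lit 2732) l104 (.c (nat_lit 2732) l151 (.c (nat_lit 2605) l49 (.c (nat_lit 2731) l157 (.c (nat_lit 2732) l145 (.c (nat_lit 2732) l102 (.c (nat_lit 1982) l42 (.c (nat_lit 2580) l49 (.c (nat_lit 2694) l65 (.c (nat_lit 2654) l50 (.c (nat_lit 2665) l50 (.c (nat_lit 2724) l97 (.c (nat_lit 2680) l65 (.c (nat_lit 2675) l65 (.c (nat_lit 2705) l65 (.c (nat_lit 2617) l65 (.c (nat_lit 2691) l49 (.c (nat_lit 2683) l49 (.c (nat_lit 2732) l156 (.c (nat_lit 2694) l49 (.c (nat_lit 2611) l63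 (.c (nat_lit 2192) l42 (.c (nat_lit 2639) l50 (.c (nat_lit 2581) l50 (.c (nat_lit 2732) l110 (.c (nat_lit 2732) l264 (.c (nat_lit 2732) l37 (.c (nat_lit 2732) l106 u3_221))))))))))))))))))))))))))))))))))))))))
noncomputable def u3_223 : St := (.c (nat_lit 2719) l49 (.c (nat_lit 2728) l101 (.c (nat_lit 2643) l65 (.c (nat_lit 2611) l63 (.c (nat_lit 2639) l50 (.c (nat_lit 2582) l69 (.c (nat_lit 2121) l42 (.c (nat_lit 2728) l147 (.c (nat_lit 2649) l65 (.c (nat_lit 2635) l69 (.c (nat_lit 2635) l49 (.c (nat_lit 1391) l42 (.c (nat_lit 2728) l154 (.c (nat_lit 2719) l48 (.c (nat_lit 2116) l42 (.c (nat_lit 2612) l65 (.c (nat_lit 2728) l151 .e)))))))))))))))))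
noncomputable def u3_224 : St := (.c (nat_lit 2718) l87 (.c (nat_lit 2731) l157 (.c (nat_lit 2697) l65 (.c (nat_lit 2558) l141 (.c (nat_lit 2547) l53 (.c (nat_lit 2558) l65 (.c (nat_lit 2697) l152 (.c (nat_lit 2445) l49 (.c (nat_lit 2445) l69 (.c (nat_lit 2383) l42 (.c (nat_lit 2697) l97 (.c (nat_lit 2731) l294 (.c (nat_lit 2114) l69 (.c (nat_lit 2369) l42 (.c (nat_lit 2718) l91 .e)))))))))))))))
noncomputable def u3_225 : St := (.c (nat_lit 2724) l160 (.c (nat_lit 2686) l69 (.c (nat_lit 2298) l42 (.c (nat_lit 2717) l74 (.c (nat_lit 2727) l78 (.c (nat_lit 2724) l74 (.c (nat_lit 2732) l288 (.c (nat_lit 2713) l160 (.c (nat_lit 2725) l78 (.c (nat_lit 2482) l42 (.c (nat_lit 2720) l78 (.c (nat_lit 2133) l42 (.c (nat_lit 2625) l78 (.c (nat_lit 2307) l1 (.c (nat_lit 2732) l246 (.c (nat_lit 2700) l74 (.c (nat_lit 2727) l246 (.c (nat_lit 2648) l53 (.c (nat_lit 2418) l42 (.c (nat_lit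 2727) l162 (.c (nat_lit 2380) l42 (.c (nat_lit 2387) l69 (.c (nat_lit 2516) l1 (.c (nat_lit 2405) l42 (.c (nat_lit 2720) l118 (.c (nat_lit 2693) l63 (.c (nat_lit 2099) l42 (.c (nat_lit 2635) l69 (.c (nat_lit 2724) l108 (.c (nat_lit 2713) l108 (.c (nat_lit 2718) l246 (.c (nat_lit 2369) l42 (.c (nat_lit 2717) l108 (.c (nat_lit 2696) l74 (.c (nat_lit 2725) l162 .e)))))))))))))))))))))))))))))))))))
noncomputable def u3_226 : St := (.c (nat_lit 2732) l63 (.c (nat_lit 2732) l288 (.c (nat_lit 2731) l110 (.c (nat_lit 2732) l94 (.c (nat_lit 2635) l42 (.c (nat_lit 2648) l78 (.c (nat_lit 2731) l114 (.c (nat_lit 2529) l42 (.c (nat_lit 2732) l246 (.c (nat_lit 2731) l233 (.c (nat_lit 2695) l78 (.c (nat_lit 2099) l42 (.c (nat_lit 2731) l166 .e)))))))))))))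
noncomputable def u3_227 : St := (.c (nat_lit 2717) l74 (.c (nat_lit 2727) l78 (.c (nat_lit 2732) l63 (.c (nat_lit 2732) l288 (.c (nat_lit 2732) l118 (.c (nat_lit 2732) l168 (.c (nat_lit 2718) l118 (.c (nat_lit 2654) l42 (.c (nat_lit 2720) l78 (.c (nat_lit 2732) l94 (.c (nat_lit 2635) l42 (.c (nat_lit 2727) l118 (.c (nat_lit 2307) l1 (.c (nat_lit 2529) l42 (.c (nat_lit 2732) l246 (.c (nat_lit 2732) l162 (.c (nat_lit 2418) l42 (.c (nat_lit 2346) l42 (.c (nat_lit 2380) l42 (.c (nat_lit 2548) l42 (.c (nat_lit 2516) l1 (.c (nat_lit 2099) l42 (.c (nat_lit 1391) l42 (.c (nat_lit 2503) l48 (.c (nat_lit 2369) l42 (.c (nat_lit 2717) l108 .e))))))))))))))))))))))))))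
noncomputable def u3_228 : St := (.c (nat_lit 2721) l108 (.c (nat_lit 2716) l65 (.c (nat_lit 2693) l48 (.c (nat_lit 2706) l65 (.c (nat_lit 2707) l53 (.c (nat_lit 2212) l42 (.c (nat_lit 2723) l74 (.c (nat_lit 2605) l49 (.c (nat_lit 1869) l42 (.c (nat_lit 2580) l49 (.c (nat_lit 2703) l53 (.c (nat_lit 2703) l74 (.c (nat_lit 2664) l52 (.c (nat_lit 1757) l42 (.c (nat_lit 2688) l52 (.c (nat_lit 2676) l53 (.c (nat_lit 2582) l52 (.c (nat_lit 2728) l77 (.c (nat_lit 2620) l48 (.c (nat_lit 2582) l48 (.c (nat_lit 2209) l42 (.c (nat_lit 2635) l48 (.c (nat_lit 2706) l97 (.c (nat_lit 2729) l160 (.c (nat_lit 2184) l42 (.c (nat_lit 2348) l42 (.c (nat_lit 2706) l141 (.c (nat_lit 2686) l48 (.c (nat_lit 2671) l53 (.c (nat_lit 2178) l42 (.c (nat_lit 2727) l97 (.c (nat_lit 2729) l108 .e))))))))))))))))))))))))))))))))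
noncomputable def u3_229 : St := (.c (nat_lit 2502) l65 (.c (nat_lit 2706) l65 (.c (nat_lit 2212) l42 (.c (nat_lit 2502) l97 (.c (nat_lit 2621) l74 (.c (nat_lit 2481) l74 (.c (nat_lit 2678) l78 (.c (nat_lit 2731) l157 (.c (nat_lit 2263) l65 (.c (nat_lit 2231) l65 (.c (nat_lit 2727) l74 (.c (nat_lit 2612) l97 (.c (nat_lit 2605) l48 (.c (nat_lit 2597) l52 (.c (nat_lit 2727) l160 (.c (nat_lit 2697) l65 (.c (nat_lit 2558) l141 (.c (nat_lit 1757) l42 (.c (nat_lit 2613) l52 (.c (nat_lit 2582) l52 (.c (nat_lit 2644) l52 (.c (nat_lit 2444) l65 (.c (nat_lit 2620) l48 (.c (nat_lit 2582) l48 (.c (nat_lit 2567) l53 (.c (nat_lit 2547) l53 (.c (nat_lit 2540) l42 (.c (nat_lit 2706) l97 (.c (nat_lit 2697) l152 (.c (nat_lit 2445) l49 (.c (nat_lit 2644) l48 (.c (nat_lit 2383) l42 (.c (nat_lit 2697) l97 (.c (nat_lit 2731) l294 (.c (nat_lit 2653) l97 (.c (nat_lit 2706) l141 (.c (nat_lit 2548)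 l42 (.c (nat_lit 2727) l108 (.c (nat_lit 2580) l69 (.c (nat_lit 2613) l63 .e))))))))))))))))))))))))))))))))))))))))
noncomputable def u3_230 : St := (.c (nat_lit 2732) l169 (.c (nat_lit 2725) l112 (.c (nat_lit 2730) l111 (.c (nat_lit 2732) l237 (.c (nat_lit 2705) l74 (.c (nat_lit 2712) l74 (.c (nat_lit 2730) l108 (.c (nat_lit 2729) l110 (.c (nat_lit 2732) l239 (.c (nat_lit 2708) l112 (.c (nat_lit 1900) l42 (.c (nat_lit 2722) l110 (.c (nat_lit 2705) l108 (.c (nat_lit 2732) l238 (.c (nat_lit 2730) l236 (.c (nat_lit 2732) l164 .e))))))))))))))))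
noncomputable def u3_231 : St := (.c (nat_lit 2707) l53 (.c (nat_lit 2723) l74 (.c (nat_lit 2703) l53 (.c (nat_lit 2676) l53 (.c (nat_lit 2586) l171 (.c (nat_lit 2732) l239 (.c (nat_lit 2732) l251 (.c (nat_lit 2708) l112 (.c (nat_lit 2732) l238 (.c (nat_lit 2729) l160 (.c (nat_lit 2184) l42 (.c (nat_lit 2203) l42 (.c (nat_lit 2723) l108 .e)))))))))))))
noncomputable def u3_232 : St := (.c (nat_lit 2684) l160 (.c (nat_lit 2624) l69 (.c (nat_lit 2709) l69 (.c (nat_lit 2648) l63 (.c (nat_lit 2708) l69 (.c (nat_lit 2730) l78 (.c (nat_lit 2730) l118 (.c (nat_lit 2694) l49 (.c (nat_lit 2305) l65 (.c (nat_lit 2724) l70 (.c (nat_lit 2676) l50 (.c (nat_lit 2694) l69 (.c (nat_lit 2648) l78 (.c (nat_lit 2730) l63 (.c (nat_lit 2677) l107 (.c (nat_lit 2694) l48 (.c (nat_lit 2587) l65 (.c (nat_lit 2666) l49 (.c (nat_lit 2724) l100 (.c (nat_lit 2682) l49 (.c (nat_lit 2730) l87 .e)))))))))))))))))))))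
noncomputable def u3_233 : St := (.c (nat_lit 2709) l65 (.c (nat_lit 2732) l63 (.c (nat_lit 2732) l288 (.c (nat_lit 2694) l65 (.c (nat_lit 2624) l69 (.c (nat_lit 2724) l97 (.c (nat_lit 2643) l65 (.c (nat_lit 2724) l106 (.c (nat_lit 2732) l156 (.c (nat_lit 2694) l49 (.c (nat_lit 2731) l110 (.c (nat_lit 2732) l94 (.c (nat_lit 2635) l42 (.c (nat_lit 2639) l50 (.c (nat_lit 2506) l63 (.c (nat_lit 2731) l150 (.c (nat_lit 2676) l50 (.c (nat_lit 2694) l69 (.c (nat_lit 2718) l107 (.c (nat_lit 2648) l78 (.c (nat_lit 2731) l114 (.c (nat_lit 2529) l42 (.c (nat_lit 2732) l246 (.c (nat_lit 2731) l233 (.c (nat_lit 2713) l106 (.c (nat_lit 2695) l78 (.c (nat_lit 2732) l233 (.c (nat_lit 2666) l49 (.c (nat_lit 2732) l210 .e)))))))))))))))))))))))))))))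
noncomputable def u3_234 : St := (.c (nat_lit 2732) l33 (.c (nat_lit 2732) l18 (.c (nat_lit 2712) l65 (.c (nat_lit 1858) l65 (.c (nat_lit 2694) l65 (.c (nat_lit 2675) l65 (.c (nat_lit 2617) l65 (.c (nat_lit 2730) l295 (.c (nat_lit 2691) l49 (.c (nat_lit 2724) l106 (.c (nat_lit 2732) l156 (.c (nat_lit 2694) l49 (.c (nat_lit 2611) l63 (.c (nat_lit 2659) l65 (.c (nat_lit 2639) l50 (.c (nat_lit 2732) l264 (.c (nat_lit 2730) l157 (.c (nat_lit 2681) l65 (.c (nat_lit 2694) l69 (.c (nat_lit 2513) l65 (.c (nat_lit 2293) l42 (.c (nat_lit 2665) l114 (.c (nat_lit 2665) l102 (.c (nat_lit 2732) l26 .e))))))))))))))))))))))))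
noncomputable def u3_235 : St := (.c (nat_lit 2626) l42 (.c (nat_lit 2444) l42 (.c (nat_lit 2627) l42 (.c (nat_lit 2727) l78 (.c (nat_lit 2732) l63 (.c (nat_lit 2724) l74 (.c (nat_lit 2704) l42 (.c (nat_lit 2732) l27 (.c (nat_lit 2651) l42 (.c (nat_lit 2313) l1 (.c (nat_lit 2727) l74 (.c (nat_lit 2448) l48 (.c (nat_lit 2718) l118 (.c (nat_lit 2552) l42 (.c (nat_lit 1763) l42 (.c (nat_lit 2620) l42 (.c (nat_lit 2730) l78 (.c (nat_lit 2654) l42 (.c (nat_lit 2720) l78 (.c (nat_lit 2113) l42 (.c (nat_lit 2732) l94 (.c (nat_lit 2635) l42 (.c (nat_lit 1522) l42 (.c (nat_lit 2616) l42 (.c (nat_lit 2732) l21 (.c (nat_lit 2730) l246 (.c (nat_lit 2732) l34 (.c (nat_lit 2625) l78 (.c (nat_lit 2727) l118 (.c (nat_lit 2529) l42 (.c (nat_lit 2730) l162 (.c (nat_lit 2556) l42 (.c (nat_lit 2727) l181 (.c (nat_lit 2497) l42 (.c (nat_lit 2502) l42 (.c (nat_lit 2554) l42 (.c (nat_lit 2283) l42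 (.c (nat_lit 2380) l42 (.c (nat_lit 2732) l39 .e)))))))))))))))))))))))))))))))))))))))
noncomputable def u3_236 : St := (.c (nat_lit 2727) l78 (.c (nat_lit 2732) l63 (.c (nat_lit 2732) l118 (.c (nat_lit 2732) l168 (.c (nat_lit 2718) l118 (.c (nat_lit 2654) l42 (.c (nat_lit 2720) l78 (.c (nat_lit 2732) l94 (.c (nat_lit 2635) l42 (.c (nat_lit 2648) l78 (.c (nat_lit 2727) l118 (.c (nat_lit 2529) l42 (.c (nat_lit 2344) l42 (.c (nat_lit 2732) l162 .e))))))))))))))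
noncomputable def u3_237 : St := (.c (nat_lit 2724) l179 (.c (nat_lit 2732) l63 (.c (nat_lit 2724) l74 (.c (nat_lit 2732) l114 (.c (nat_lit 2713) l160 (.c (nat_lit 2730) l78 (.c (nat_lit 2730) l181 (.c (nat_lit 2730) l118 (.c (nat_lit 2725) l78 (.c (nat_lit 2482) l42 (.c (nat_lit 2710) l74 (.c (nat_lit 2731) l110 (.c (nat_lit 2725) l63 (.c (nat_lit 2732) l94 (.c (nat_lit 2635) l42 (.c (nat_lit 2732) l176 (.c (nat_lit 2732) l110 (.c (nat_lit 2727) l276 (.c (nat_lit 2732) l166 (.c (nat_lit 2731) l114 (.c (nat_lit 2529) l42 (.c (nat_lit 1604) l74 (.c (nat_lit 2725) l118 (.c (nat_lit 2732) l233 (.c (nat_lit 2725) l242 (.c (nat_lit 2725) l91 (.c (nat_lit 2625) l74 (.c (nat_lit 2725) l140 .e))))))))))))))))))))))))))))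
noncomputable def u3_238 : St := (.c (nat_lit 2724) l179 (.c (nat_lit 2732) l63 (.c (nat_lit 2724) l74 (.c (nat_lit 2732) l114 (.c (nat_lit 2713) l160 (.c (nat_lit 2730) l78 (.c (nat_lit 2730) l181 (.c (nat_lit 2730) l118 (.c (nat_lit 2482) l42 (.c (nat_lit 2710) l74 (.c (nat_lit 2731) l110 (.c (nat_lit 2732) l94 (.c (nat_lit 2635) l42 (.c (nat_lit 2732) l176 (.c (nat_lit 2732) l110 (.c (nat_lit 2727) l276 (.c (nat_lit 2725) l181 (.c (nat_lit 2732) l166 (.c (nat_lit 2731) l114 (.c (nat_lit 2529) l42 (.c (nat_lit 2732) l233 .e)))))))))))))))))))))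
noncomputable def u3_239 : St := (.c (nat_lit 2648) l78 (.c (nat_lit 2436) l48 (.c (nat_lit 2722) l110 (.c (nat_lit 2705) l108 (.c (nat_lit 2725) l181 (.c (nat_lit 2669) l104 (.c (nat_lit 2519) l42 (.c (nat_lit 2722) l159 (.c (nat_lit 2732) l34 (.c (nat_lit 2682) l48 (.c (nat_lit 2732) l35 (.c (nat_lit 2556) l42 (.c (nat_lit 2631) l50 (.c (nat_lit 2732) l246 (.c (nat_lit 1604) l74 (.c (nat_lit 2725) l118 (.c (nat_lit 2344) l42 (.c (nat_lit 2708) l154 (.c (nat_lit 2203) l42 (.c (nat_lit 2682) l63 (.c (nat_lit 2722) l87 .e)))))))))))))))))))))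
noncomputable def u3_240 : St := (.c (nat_lit 2665) l42 (.c (nat_lit 2724) l160 (.c (nat_lit 2663) l42 (.c (nat_lit 1894) l42 (.c (nat_lit 2724) l179 (.c (nat_lit 2724) l74 (.c (nat_lit 2732) l19 (.c (nat_lit 2732) l288 (.c (nat_lit 2732) l27 (.c (nat_lit 2591) l42 (.c (nat_lit 2585) l42 (.c (nat_lit 2722) l49 (.c (nat_lit 1960) l42 (.c (nat_lit 2672) l42 (.c (nat_lit 2612) l42 (.c (nat_lit 2727) l160 (.c (nat_lit 2620) l42 (.c (nat_lit 2684) l74 (.c (nat_lit 2725) l78 (.c (nat_lit 2705) l74 (.c (nat_lit 2603) l42 (.c (nat_lit 2482) l42 (.c (nat_lit 2665) l74 (.c (nat_lit 2676) l53 (.c (nat_lit 2668) l74 (.c (nat_lit 2612) l53 (.c (nat_lit 2706) l108 (.c (nat_lit 2643) l53 (.c (nat_lit 2428) l42 (.c (nat_lit 2575) l160 (.c (nat_lit 2582) l42 (.c (nat_lit 2654) l53 (.c (nat_lit 2650) l53 (.c (nat_lit 2682) l78 (.c (nat_lit 2722) l63 (.c (nat_lit 2666) l118 (.c (nat_lit 2438)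 l160 (.c (nat_lit 2727) l276 (.c (nat_lit 2667) l267 (.c (nat_lit 2588) l1 u3_239))))))))))))))))))))))))))))))))))))))))
noncomputable def u3_241 : St := (.c (nat_lit 2667) l267 (.c (nat_lit 2209) l42 (.c (nat_lit 2722) l110 (.c (nat_lit 2705) l108 (.c (nat_lit 2725) l181 (.c (nat_lit 2730) l63 (.c (nat_lit 2669) l104 (.c (nat_lit 2519) l42 (.c (nat_lit 2666) l48 (.c (nat_lit 2722) l159 (.c (nat_lit 2729) l159 (.c (nat_lit 2592) l65 (.c (nat_lit 2307) l1 (.c (nat_lit 2666) l91 (.c (nat_lit 2333) l42 (.c (nat_lit 2556) l42 (.c (nat_lit 2730) l91 (.c (nat_lit 2577) l69 (.c (nat_lit 2445) l49 (.c (nat_lit 2445) l69 (.c (nat_lit 2725) l118 (.c (nat_lit 2666) l100 (.c (nat_lit 2666) l104 (.c (nat_lit 2203) l42 (.c (nat_lit 2704) l104 (.c (nat_lit 2722) l136 .e))))))))))))))))))))))))))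
noncomputable def u3_242 : St := (.c (nat_lit 1894) l42 (.c (nat_lit 2708) l118 (.c (nat_lit 2708) l48 (.c (nat_lit 2436) l69 (.c (nat_lit 1487) l65 (.c (nat_lit 2722) l49 (.c (nat_lit 2722) l48 (.c (nat_lit 2708) l49 (.c (nat_lit 2706) l179 (.c (nat_lit 2594) l42 (.c (nat_lit 2730) l78 (.c (nat_lit 2730) l181 (.c (nat_lit 2730) l118 (.c (nat_lit 2586) l207 (.c (nat_lit 2725) l78 (.c (nat_lit 2705) l74 (.c (nat_lit 2194) l231 (.c (nat_lit 2587) l74 (.c (nat_lit 2666) l52 (.c (nat_lit 2666) l181 (.c (nat_lit 2706) l70 (.c (nat_lit 2665) l74 (.c (nat_lit 2708) l78 (.c (nat_lit 2668) l74 (.c (nat_lit 2612) l53 (.c (nat_lit 2706) l108 (.c (nat_lit 2643) l53 (.c (nat_lit 2732) l239 (.c (nat_lit 2730) l107 (.c (nat_lit 2708) l112 (.c (nat_lit 1900) l42 (.c (nat_lit 2666) l78 (.c (nat_lit 2654) l53 (.c (nat_lit 2650) l53 (.c (nat_lit 2572) l53 (.c (nat_lit 2555) l53 (.c (nat_lit 2385)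 l53 (.c (nat_lit 2682) l78 (.c (nat_lit 2214) l179 (.c (nat_lit 2438) l160 u3_241))))))))))))))))))))))))))))))))))))))))
noncomputable def u3_243 : St := (.c (nat_lit 2732) l143 (.c (nat_lit 2727) l78 (.c (nat_lit 2732) l118 (.c (nat_lit 2732) l168 (.c (nat_lit 2718) l118 (.c (nat_lit 2731) l104 (.c (nat_lit 2720) l78 (.c (nat_lit 2687) l49 (.c (nat_lit 2335) l42 (.c (nat_lit 2534) l42 (.c (nat_lit 2732) l94 (.c (nat_lit 2592) l69 (.c (nat_lit 2661) l69 (.c (nat_lit 2507) l1 (.c (nat_lit 2059) l42 (.c (nat_lit 2121) l42 (.c (nat_lit 2648) l78 (.c (nat_lit 2731) l147 (.c (nat_lit 2635) l48 (.c (nat_lit 2727) l118 (.c (nat_lit 2731) l100 (.c (nat_lit 2732) l130 .e))))))))))))))))))))))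
noncomputable def u3_244 : St := (.c (nat_lit 2684) l74 (.c (nat_lit 2194) l231 (.c (nat_lit 2587) l74 (.c (nat_lit 2710) l74 (.c (nat_lit 2270) l42 (.c (nat_lit 2442) l42 (.c (nat_lit 2587) l179 (.c (nat_lit 2687) l49 (.c (nat_lit 2730) l108 (.c (nat_lit 2425) l42 (.c (nat_lit 2732) l94 (.c (nat_lit 1522) l42 (.c (nat_lit 2616) l42 (.c (nat_lit 2582) l42 (.c (nat_lit 2732) l176 (.c (nat_lit 2732) l110 (.c (nat_lit 2730) l231 (.c (nat_lit 2661) l69 (.c (nat_lit 2666) l78 (.c (nat_lit 2214) l179 (.c (nat_lit 2706) l157 (.c (nat_lit 2588) l1 (.c (nat_lit 2507) l1 (.c (nat_lit 2436) l48 (.c (nat_lit 2209) l42 (.c (nat_lit 2725) l181 (.c (nat_lit 2732) l25 (.c (nat_lit 2669) l104 (.c (nat_lit 2730) l171 (.c (nat_lit 2519) l42 (.c (nat_lit 2732) l166 (.c (nat_lit 2722) l159 (.c (nat_lit 2729) l159 (.c (nat_lit 2592) l65 (.c (nat_lit 2731) l100 (.c (nat_lit 2666) l91 (.c (nat_lit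 2732) l35 (.c (nat_lit 2333) l42 (.c (nat_lit 2732) l238 (.c (nat_lit 2732) l209 .e))))))))))))))))))))))))))))))))))))))))
noncomputable def u3_245 : St := (.c (nat_lit 2665) l42 (.c (nat_lit 1682) l42 (.c (nat_lit 1145) l42 (.c (nat_lit 2724) l160 (.c (nat_lit 2663) l42 (.c (nat_lit 2721) l97 (.c (nat_lit 2721) l152 (.c (nat_lit 1854) l42 (.c (nat_lit 2706) l65 (.c (nat_lit 2724) l179 (.c (nat_lit 2732) l32 (.c (nat_lit 2212) l42 (.c (nat_lit 2298) l42 (.c (nat_lit 2452) l42 (.c (nat_lit 2732) l63 (.c (nat_lit 2430) l42 (.c (nat_lit 2724) l74 (.c (nat_lit 2447) l42 (.c (nat_lit 2732) l19 (.c (nat_lit 2732) l114 (.c (nat_lit 2591) l42 (.c (nat_lit 2708) l48 (.c (nat_lit 2436) l69 (.c (nat_lit 2722) l49 (.c (nat_lit 2592) l49 (.c (nat_lit 2667) l65 (.c (nat_lit 2708) l49 (.c (nat_lit 2727) l160 (.c (nat_lit 2435) l42 (.c (nat_lit 2594) l42 (.c (nat_lit 2732) l237 (.c (nat_lit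 2620) l42 (.c (nat_lit 2713) l160 (.c (nat_lit 2730) l78 (.c (nat_lit 2730) l118 (.c (nat_lit 2731) l104 (.c (nat_lit 2558) l141 (.c (nat_lit 2720) l74 (.c (nat_lit 2720) l108 (.c (nat_lit 2713) l179 u3_244))))))))))))))))))))))))))))))))))))))))
noncomputable def u3_246 : St := (.c (nat_lit 2727) l63 (.c (nat_lit 2727) l78 (.c (nat_lit 2630) l52 (.c (nat_lit 2715) l159 (.c (nat_lit 2726) l110 (.c (nat_lit 2726) l106 (.c (nat_lit 2731) l104 (.c (nat_lit 2639) l53 (.c (nat_lit 2691) l78 (.c (nat_lit 2726) l114 (.c (nat_lit 2534) l42 (.c (nat_lit 2691) l118 (.c (nat_lit 2611) l63 (.c (nat_lit 2732) l264 (.c (nat_lit 2100) l53 (.c (nat_lit 2694) l69 (.c (nat_lit 2718) l107 (.c (nat_lit 2718) l102 (.c (nat_lit 2059) l42 (.c (nat_lit 2121) l42 (.c (nat_lit 2731) l147 (.c (nat_lit 2727) l118 (.c (nat_lit 2726) l102 (.c (nat_lit 2731) l100 (.c (nat_lit 2630) l48 (.c (nat_lit 2727)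 l91 .e))))))))))))))))))))))))))
noncomputable def u3_247 : St := (.c (nat_lit 2630) l52 (.c (nat_lit 1781) l42 (.c (nat_lit 2715) l159 (.c (nat_lit 2718) l118 (.c (nat_lit 2638) l74 (.c (nat_lit 2691) l49 (.c (nat_lit 2691) l48 (.c (nat_lit 2541) l74 (.c (nat_lit 2726) l110 (.c (nat_lit 2730) l78 (.c (nat_lit 2720) l78 (.c (nat_lit 2691) l78 (.c (nat_lit 2726) l114 (.c (nat_lit 2687) l49 (.c (nat_lit 2638) l108 (.c (nat_lit 2717) l112 (.c (nat_lit 2611) l63 (.c (nat_lit 2559) l108 (.c (nat_lit 2732) l264 (.c (nat_lit 2592) l69 (.c (nat_lit 2661) l69 (.c (nat_lit 2559) l74 (.c (nat_lit 2730) l246 (.c (nat_lit 2625) l78 (.c (nat_lit 2730) l162 (.c (nat_lit 2630) l48 (.c (nat_lit 2716) l63 .e)))))))))))))))))))))))))))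
noncomputable def u3_248 : St := (.c (nat_lit 2665) l42 (.c (nat_lit 2724) l160 (.c (nat_lit 2663) l42 (.c (nat_lit 2706) l65 (.c (nat_lit 1894) l42 (.c (nat_lit 2724) l179 (.c (nat_lit 2212) l42 (.c (nat_lit 2724) l74 (.c (nat_lit 2732) l19 (.c (nat_lit 2732) l27 (.c (nat_lit 2591) l42 (.c (nat_lit 2585) l42 (.c (nat_lit 1960) l42 (.c (nat_lit 2672) l42 (.c (nat_lit 2612) l42 (.c (nat_lit 2727) l160 (.c (nat_lit 2620) l42 (.c (nat_lit 2684) l74 (.c (nat_lit 2603) l42 (.c (nat_lit 2482) l42 (.c (nat_lit 2428) l42 (.c (nat_lit 2575) l160 (.c (nat_lit 2582) l42 (.c (nat_lit 2727) l276 (.c (nat_lit 2706) l157 (.c (nat_lit 2588) l1 (.c (nat_lit 2209) l42 (.c (nat_lit 2732) l34 (.c (nat_lit 2732) l35 .e)))))))))))))))))))))))))))))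
noncomputable def u3_249 : St := (.c (nat_lit 2502) l108 (.c (nat_lit 1682) l42 (.c (nat_lit 1145) l42 (.c (nat_lit 1894) l42 (.c (nat_lit 2683) l65 (.c (nat_lit 2729) l65 (.c (nat_lit 2212) l42 (.c (nat_lit 2502) l97 (.c (nat_lit 2447) l42 (.c (nat_lit 2729) l207 (.c (nat_lit 2591) l42 (.c (nat_lit 2585) l42 (.c (nat_lit 2448) l63 (.c (nat_lit 2722) l49 (.c (nat_lit 2448) l48 (.c (nat_lit 2683) l157 (.c (nat_lit 2293) l74 (.c (nat_lit 2666) l52 (.c (nat_lit 2448) l78 (.c (nat_lit 2706) l157 (.c (nat_lit 2588) l1 (.c (nat_lit 2669) l104 (.c (nat_lit 2666) l48 (.c (nat_lit 2051) l42 (.c (nat_lit 2722) l159 (.c (nat_lit 2682) l48 (.c (nat_lit 2729) l157 .e)))))))))))))))))))))))))))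
noncomputable def u3_250 : St := (.c (nat_lit 2706) l65 (.c (nat_lit 2212) l42 (.c (nat_lit 2708) l48 (.c (nat_lit 2436) l69 (.c (nat_lit 2722) l49 (.c (nat_lit 2612) l42 (.c (nat_lit 2708) l49 (.c (nat_lit 2594) l42 (.c (nat_lit 2730) l78 (.c (nat_lit 2730) l118 (.c (nat_lit 2194) l231 (.c (nat_lit 2587) l74 (.c (nat_lit 2587) l179 (.c (nat_lit 2732) l239 (.c (nat_lit 2708) l112 (.c (nat_lit 2666) l78 (.c (nat_lit 2214) l179 (.c (nat_lit 2706) l157 (.c (nat_lit 2667) l267 (.c (nat_lit 2588) l1 (.c (nat_lit 2436) l48 (.c (nat_lit 2669) l104 (.c (nat_lit 2519) l42 (.c (nat_lit 2722) l159 (.c (nat_lit 2729) l159 (.c (nat_lit 2666) l91 .e))))))))))))))))))))))))))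
noncomputable def u3_251 : St := (.c (nat_lit 2729) l110 (.c (nat_lit 2428) l42 (.c (nat_lit 2732) l239 (.c (nat_lit 2575) l160 (.c (nat_lit 1522) l42 (.c (nat_lit 2675) l70 (.c (nat_lit 2616) l42 (.c (nat_lit 2732) l110 (.c (nat_lit 2730) l231 (.c (nat_lit 2592) l69 (.c (nat_lit 2620) l48 (.c (nat_lit 2661) l69 (.c (nat_lit 2722) l69 (.c (nat_lit 2732) l155 (.c (nat_lit 2727) l276 (.c (nat_lit 2706) l157 (.c (nat_lit 2588) l1 (.c (nat_lit 2725) l181 (.c (nat_lit 2730) l63 (.c (nat_lit 2732) l25 (.c (nat_lit 2730) l171 (.c (nat_lit 2732) l166 (.c (nat_lit 2732) l34 (.c (nat_lit 2732) l224 .e))))))))))))))))))))))))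
noncomputable def u3_252 : St := (.c (nat_lit 1682) l42 (.c (nat_lit 1145) l42 (.c (nat_lit 1854) l42 (.c (nat_lit 2732) l223 (.c (nat_lit 2706) l65 (.c (nat_lit 1894) l42 (.c (nat_lit 2702) l65 (.c (nat_lit 2721) l102 (.c (nat_lit 2721) l71 (.c (nat_lit 2732) l32 (.c (nat_lit 2212) l42 (.c (nat_lit 2298) l42 (.c (nat_lit 2452) l42 (.c (nat_lit 2430) l42 (.c (nat_lit 2447) l42 (.c (nat_lit 2732) l114 (.c (nat_lit 2732) l27 (.c (nat_lit 2732) l100 (.c (nat_lit 2585) l42 (.c (nat_lit 2732) l104 (.c (nat_lit 2729) l69 (.c (nat_lit 2492) l160 (.c (nat_lit 2667) l65 (.c (nat_lit 2732) l147 (.c (nat_lit 1207) l42 (.c (nat_lit 2713) l160 (.c (nat_lit 2730) l78 (.c (nat_lit 2731) l104 (.c (nat_lit 2558) l141 (.c (nat_lit 2720) l74 (.c (nat_lit 2720) l108 (.c (nat_lit 2713) l179 (.c (nat_lit 2725) l78 (.c (nat_lit 2482) l42 (.c (nat_lit 2710) l74 (.c (nat_lit 2270) l42 (.c (nat_lit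 2721) l70 (.c (nat_lit 2725) l63 (.c (nat_lit 2687) l49 (.c (nat_lit 2730) l108 u3_251))))))))))))))))))))))))))))))))))))))))
noncomputable def u3_253 : St := (.c (nat_lit 2724) l179 (.c (nat_lit 2724) l74 (.c (nat_lit 2732) l27 (.c (nat_lit 2591) l42 (.c (nat_lit 2585) l42 (.c (nat_lit 1960) l42 (.c (nat_lit 2620) l42 (.c (nat_lit 2720) l74 (.c (nat_lit 2720) l108 (.c (nat_lit 2684) l74 (.c (nat_lit 2603) l42 (.c (nat_lit 2482) l42 (.c (nat_lit 2710) l74 (.c (nat_lit 2575) l160 (.c (nat_lit 2582) l42 (.c (nat_lit 2727) l276 (.c (nat_lit 2732) l34 .e)))))))))))))))))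
noncomputable def u3_254 : St := (.c (nat_lit 2355) l160 (.c (nat_lit 2706) l65 (.c (nat_lit 2202) l42 (.c (nat_lit 2729) l65 (.c (nat_lit 2212) l42 (.c (nat_lit 2729) l97 (.c (nat_lit 2591) l42 (.c (nat_lit 2585) l42 (.c (nat_lit 2715) l159 (.c (nat_lit 2691) l49 (.c (nat_lit 2691) l48 (.c (nat_lit 2726) l110 (.c (nat_lit 2726) l106 (.c (nat_lit 2666) l52 (.c (nat_lit 2688) l52 (.c (nat_lit 2687) l48 (.c (nat_lit 2620) l48 (.c (nat_lit 2706) l157 (.c (nat_lit 2519) l42 (.c (nat_lit 2666) l48 (.c (nat_lit 2729) l141 .e)))))))))))))))))))))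
noncomputable def u3_255 : St := (.c (nat_lit 2721) l97 (.c (nat_lit 2721) l152 (.c (nat_lit 1854) l42 (.c (nat_lit 2702) l65 (.c (nat_lit 2732) l32 (.c (nat_lit 2591) l42 (.c (nat_lit 2592) l49 (.c (nat_lit 2667) l65 (.c (nat_lit 2620) l42 (.c (nat_lit 2731) l104 (.c (nat_lit 2558) l141 (.c (nat_lit 2603) l42 (.c (nat_lit 2616) l42 (.c (nat_lit 2582) l42 (.c (nat_lit 2592) l69 (.c (nat_lit 2620) l48 (.c (nat_lit 2732) l25 .e)))))))))))))))))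
noncomputable def u3_256 : St := (.c (nat_lit 1937) l42 (.c (nat_lit 2504) l65 (.c (nat_lit 2732) l13 (.c (nat_lit 2709) l65 (.c (nat_lit 2724) l141 (.c (nat_lit 2731) l97 (.c (nat_lit 2605) l49 (.c (nat_lit 2690) l50 (.c (nat_lit 2707) l50 (.c (nat_lit 2580) l49 (.c (nat_lit 2654) l50 (.c (nat_lit 2724) l97 (.c (nat_lit 2728) l101 (.c (nat_lit 2683) l49 (.c (nat_lit 2270) l42 (.c (nat_lit 2611) l63 (.c (nat_lit 2581) l50 (.c (nat_lit 2732) l37 .e))))))))))))))))))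
noncomputable def u3_257 : St := (.c (nat_lit 2626) l42 (.c (nat_lit 2444) l42 (.c (nat_lit 2627) l42 (.c (nat_lit 2724) l74 (.c (nat_lit 2704) l42 (.c (nat_lit 2194) l160 (.c (nat_lit 2651) l42 (.c (nat_lit 2313) l1 (.c (nat_lit 2727) l74 (.c (nat_lit 2732) l14 (.c (nat_lit 2732) l20 (.c (nat_lit 2552) l42 (.c (nat_lit 1763) l42 (.c (nat_lit 2620) l42 (.c (nat_lit 2731) l108 (.c (nat_lit 2720) l74 (.c (nat_lit 2720) l108 (.c (nat_lit 2684) l74 (.c (nat_lit 2730) l74 (.c (nat_lit 2587) l74 (.c (nat_lit 2728) l114 (.c (nat_lit 2587) l108 (.c (nat_lit 2113) l42 (.c (nat_lit 2730) l108 (.c (nat_lit 2616) l42 (.c (nat_lit 2593) l160 (.c (nat_lit 2732) l21 .e)))))))))))))))))))))))))))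
noncomputable def u3_258 : St := (.c (nat_lit 2202) l42 (.c (nat_lit 1869) l42 (.c (nat_lit 2722) l48 (.c (nat_lit 1880) l42 (.c (nat_lit 2706) l179 (.c (nat_lit 2665) l74 (.c (nat_lit 2676) l53 (.c (nat_lit 2668) l74 (.c (nat_lit 2612) l53 (.c (nat_lit 2587) l179 (.c (nat_lit 2706) l108 (.c (nat_lit 2643) l53 (.c (nat_lit 2586) l171 (.c (nat_lit 2578) l74 (.c (nat_lit 2666) l78 (.c (nat_lit 2654) l53 (.c (nat_lit 2650) l53 (.c (nat_lit 2572) l53 (.c (nat_lit 2555) l53 (.c (nat_lit 2385) l53 (.c (nat_lit 2682) l78 (.c (nat_lit 2722) l140 .e))))))))))))))))))))))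
noncomputable def u3_259 : St := (.c (nat_lit 2202) l42 (.c (nat_lit 2722) l107 (.c (nat_lit 2729) l69 (.c (nat_lit 2725) l78 (.c (nat_lit 2722) l91 (.c (nat_lit 2666) l181 (.c (nat_lit 2665) l74 (.c (nat_lit 2676) l53 (.c (nat_lit 2668) l74 (.c (nat_lit 2593) l74 (.c (nat_lit 2612) l53 (.c (nat_lit 2587) l179 (.c (nat_lit 2725) l63 (.c (nat_lit 2706) l108 (.c (nat_lit 2643) l53 (.c (nat_lit 2448) l78 (.c (nat_lit 2578) l74 (.c (nat_lit 2654) l53 (.c (nat_lit 2650) l53 (.c (nat_lit 2572) l53 (.c (nat_lit 2555) l53 (.c (nat_lit 2722) l63 .e))))))))))))))))))))))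
noncomputable def u3_260 : St := (.c (nat_lit 2652) l74 (.c (nat_lit 1763) l42 (.c (nat_lit 2113) l42 (.c (nat_lit 1379) l42 (.c (nat_lit 1741) l2 (.c (nat_lit 2653) l179 (.c (nat_lit 2653) l108 (.c (nat_lit 2518) l53 (.c (nat_lit 2659) l74 (.c (nat_lit 2655) l78 (.c (nat_lit 2567) l53 (.c (nat_lit 2547) l53 (.c (nat_lit 2100) l53 (.c (nat_lit 2559) l74 (.c (nat_lit 2719) l179 .e)))))))))))))))
noncomputable def u3_261 : St := (.c (nat_lit 2428) l42 (.c (nat_lit 2385) l74 (.c (nat_lit 2577) l1 (.c (nat_lit 2425) l42 (.c (nat_lit 2732) l239 (.c (nat_lit 2133) l42 (.c (nat_lit 2732) l94 (.c (nat_lit 1522) l42 (.c (nat_lit 2732) l251 (.c (nat_lit 2659) l74 (.c (nat_lit 2231) l42 (.c (nat_lit 2708) l112 (.c (nat_lit 1900) l42 (.c (nat_lit 2732) l176 (.c (nat_lit 2732) l110 (.c (nat_lit 2593) l160 (.c (nat_lit 2592) l69 (.c (nat_lit 2620) l48 (.c (nat_lit 2661) l69 (.c (nat_lit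 2732) l234 .e))))))))))))))))))))
noncomputable def u3_262 : St := (.c (nat_lit 2435) l42 (.c (nat_lit 2730) l111 (.c (nat_lit 1763) l42 (.c (nat_lit 2594) l42 (.c (nat_lit 2732) l237 (.c (nat_lit 2731) l160 (.c (nat_lit 2731) l108 (.c (nat_lit 2587) l74 (.c (nat_lit 2729) l114 (.c (nat_lit 2730) l115 (.c (nat_lit 2603) l42 (.c (nat_lit 2666) l181 (.c (nat_lit 2731) l110 (.c (nat_lit 2727) l115 (.c (nat_lit 2270) l42 (.c (nat_lit 2442) l42 (.c (nat_lit 2712) l74 (.c (nat_lit 2681) l53 (.c (nat_lit 2676) l53 (.c (nat_lit 2729) l179 (.c (nat_lit 2447) l74 (.c (nat_lit 2706) l108 (.c (nat_lit 2581) l74 (.c (nat_lit 2732) l113 (.c (nat_lit 2687) l49 (.c (nat_lit 2593) l78 (.c (nat_lit 2451) l42 (.c (nat_lit 2620) l78 (.c (nat_lit 2731) l277 (.c (nat_lit 2613) l52 (.c (nat_lit 2582) l52 (.c (nat_lit 2680) l74 (.c (nat_lit 2694) l74 (.c (nat_lit 2644) l52 (.c (nat_lit 2728) l77 (.c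 (nat_lit 2653) l108 (.c (nat_lit 2335) l42 (.c (nat_lit 2586) l171 (.c (nat_lit 2578) l74 (.c (nat_lit 2534) l42 u3_261))))))))))))))))))))))))))))))))))))))))
noncomputable def u3_263 : St := (.c (nat_lit 2443) l74 (.c (nat_lit 1682) l42 (.c (nat_lit 2721) l160 (.c (nat_lit 1145) l42 (.c (nat_lit 1841) l42 (.c (nat_lit 2444) l42 (.c (nat_lit 2627) l42 (.c (nat_lit 2732) l117 (.c (nat_lit 2445) l48 (.c (nat_lit 2732) l169 (.c (nat_lit 1894) l42 (.c (nat_lit 2707) l53 (.c (nat_lit 2702) l65 (.c (nat_lit 2732) l203 (.c (nat_lit 2452) l42 (.c (nat_lit 2732) l63 (.c (nat_lit 2731) l117 (.c (nat_lit 2430) l42 (.c (nat_lit 2447) l42 (.c (nat_lit 2445) l63 (.c (nat_lit 2728) l117 (.c (nat_lit 2732) l114 (.c (nat_lit 2732) l173 (.c (nat_lit 2732) l100 (.c (nat_lit 2732) l104 (.c (nat_lit 2605) l49 (.c (nat_lit 1869) l42 (.c (nat_lit 2672) l42 (.c (nat_lit 2664) l53 (.c (nat_lit 2703)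 l53 (.c (nat_lit 2721) l79 (.c (nat_lit 2732) l14 (.c (nat_lit 2605) l48 (.c (nat_lit 2731) l112 (.c (nat_lit 2731) l167 (.c (nat_lit 1880) l42 (.c (nat_lit 2597) l52 (.c (nat_lit 2732) l40 (.c (nat_lit 2664) l74 (.c (nat_lit 2727) l111 u3_262))))))))))))))))))))))))))))))))))))))))
noncomputable def u3_264 : St := (.c (nat_lit 2211) l45 (.c (nat_lit 2571) l82 (.c (nat_lit 1132) l45 (.c (nat_lit 2571) l55 (.c (nat_lit 2318) l45 (.c (nat_lit 2160) l47 (.c (nat_lit 2553) l45 (.c (nat_lit 1875) l45 (.c (nat_lit 2561) l45 (.c (nat_lit 1889) l45 (.c (nat_lit 2179) l45 (.c (nat_lit 2109) l45 (.c (nat_lit 2413) l45 (.c (nat_lit 2368) l45 (.c (nat_lit 2422) l55 (.c (nat_lit 2114) l43 (.c (nat_lit 1879) l45 (.c (nat_lit 2158) l55 (.c (nat_lit 2170) l43 (.c (nat_lit 2160) l43 (.c (nat_lit 2131) l55 (.c (nat_lit 2388) l55 (.c (nat_lit 1993) l58 (.c (nat_lit 2061) l45 (.c (nat_lit 2422)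 l82 (.c (nat_lit 2421) l44 (.c (nat_lit 2413) l58 (.c (nat_lit 2658) l61 (.c (nat_lit 2368) l58 (.c (nat_lit 2173) l61 (.c (nat_lit 2170) l47 (.c (nat_lit 2034) l45 (.c (nat_lit 2067) l45 .e)))))))))))))))))))))))))))))))))
noncomputable def u3_265 : St := (.c (nat_lit 1571) l45 (.c (nat_lit 2388) l55 (.c (nat_lit 1993) l58 (.c (nat_lit 1530) l58 (.c (nat_lit 2061) l45 (.c (nat_lit 2242) l45 (.c (nat_lit 2421) l44 (.c (nat_lit 2657) l58 (.c (nat_lit 2206) l43 (.c (nat_lit 2368) l58 (.c (nat_lit 2421) l61 (.c (nat_lit 2170) l47 (.c (nat_lit 2423) l61 (.c (nat_lit 2731) l124 .e))))))))))))))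
noncomputable def u3_266 : St := (.c (nat_lit 2444) l55 (.c (nat_lit 2318) l45 (.c (nat_lit 2414) l47 (.c (nat_lit 2383) l47 (.c (nat_lit 2265) l47 (.c (nat_lit 1875) l45 (.c (nat_lit 2648) l61 (.c (nat_lit 2551) l44 (.c (nat_lit 2612) l62 (.c (nat_lit 2633) l55 (.c (nat_lit 1893) l58 (.c (nat_lit 2304) l44 (.c (nat_lit 1889) l45 (.c (nat_lit 2179) l45 (.c (nat_lit 2205) l45 (.c (nat_lit 2109) l45 (.c (nat_lit 1542) l45 (.c (nat_lit 1768) l58 (.c (nat_lit 1880) l43 (.c (nat_lit 2562) l45 (.c (nat_lit 2351) l45 (.c (nat_lit 1989) l45 (.c (nat_lit 2569) l45 (.c (nat_lit 2647) l45 (.c (nat_lit 2368) l45 (.c (nat_lit 2560) l43 (.c (nat_lit 2423) l58 (.c (nat_lit 2306) l58 (.c (nat_lit 1879) l45 (.c (nat_lit 1946) l55 (.c (nat_lit 2351) l58 (.c (nat_lit 1633) l55 (.c (nat_lit 1768) l55 (.c (nat_lit 1994) l43 (.c (nat_lit 2540) l43 (.c (nat_lit 2070) l55 (.c (nat_lit 2160) l43 (.c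 (nat_lit 1836) l55 (.c (nat_lit 2006) l45 (.c (nat_lit 2732) l190 u3_265))))))))))))))))))))))))))))))))))))))))
noncomputable def u3_267 : St := (.c (nat_lit 1705) l45 (.c (nat_lit 2421) l47 (.c (nat_lit 2298) l47 (.c (nat_lit 2482) l47 (.c (nat_lit 1980) l45 (.c (nat_lit 1870) l45 (.c (nat_lit 2635) l57 (.c (nat_lit 2686) l43 (.c (nat_lit 2632) l45 (.c (nat_lit 2529) l47 (.c (nat_lit 2540) l47 (.c (nat_lit 2731) l89 (.c (nat_lit 2730) l95 (.c (nat_lit 2730) l88 (.c (nat_lit 2401) l47 (.c (nat_lit 1847) l45 (.c (nat_lit 2522) l55 (.c (nat_lit 2732) l201 (.c (nat_lit 2693) l57 (.c (nat_lit 2730) l126 (.c (nat_lit 2730) l194 (.c (nat_lit 2730) l190 (.c (nat_lit 2730) l131 (.c (nat_lit 2633) l45 (.c (nat_lit 2732) l197 (.c (nat_lit 2643) l62 (.c (nat_lit 2714) l60 (.c (nat_lit 2505) l58 (.c (nat_lit 2481) l45 (.c (nat_lit 2697) l55 (.c (nat_lit 2568) l47 (.c (nat_lit 2263) l55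 (.c (nat_lit 2211) l45 (.c (nat_lit 2539) l45 (.c (nat_lit 2656) l55 (.c (nat_lit 2356) l44 (.c (nat_lit 2383) l44 (.c (nat_lit 1132) l45 (.c (nat_lit 1529) l58 (.c (nat_lit 2732) l199 u3_266))))))))))))))))))))))))))))))))))))))))
noncomputable def u3_268 : St := (.c (nat_lit 2211) l45 (.c (nat_lit 1132) l45 (.c (nat_lit 2318) l45 (.c (nat_lit 2553) l45 (.c (nat_lit 1875) l45 (.c (nat_lit 2304) l44 (.c (nat_lit 2561) l45 (.c (nat_lit 1889) l45 (.c (nat_lit 2179) l45 (.c (nat_lit 2109) l45 (.c (nat_lit 2368) l45 (.c (nat_lit 1879) l45 (.c (nat_lit 1530) l58 (.c (nat_lit 2421) l44 (.c (nat_lit 2206) l43 (.c (nat_lit 2658) l61 (.c (nat_lit 2368) l58 .e)))))))))))))))))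
noncomputable def u3_269 : St := (.c (nat_lit 2730) l115 (.c (nat_lit 2431) l53 (.c (nat_lit 2731) l110 (.c (nat_lit 2728) l114 (.c (nat_lit 2688) l52 (.c (nat_lit 2727) l115 (.c (nat_lit 2712) l74 (.c (nat_lit 2681) l53 (.c (nat_lit 2665) l74 (.c (nat_lit 2676) l53 (.c (nat_lit 2668) l74 (.c (nat_lit 2632) l78 (.c (nat_lit 2447) l74 (.c (nat_lit 2706) l108 (.c (nat_lit 2732) l113 .e)))))))))))))))
noncomputable def u3_270 : St := (.c (nat_lit 2443) l74 (.c (nat_lit 2721) l160 (.c (nat_lit 1841) l42 (.c (nat_lit 2627) l42 (.c (nat_lit 2732) l117 (.c (nat_lit 2732) l169 (.c (nat_lit 2732) l36 (.c (nat_lit 2707) l53 (.c (nat_lit 2589) l42 (.c (nat_lit 2630) l52 (.c (nat_lit 2731) l117 (.c (nat_lit 2728) l117 (.c (nat_lit 2723) l74 (.c (nat_lit 2732) l28 (.c (nat_lit 2732) l173 (.c (nat_lit 2732) l100 (.c (nat_lit 2732) l104 (.c (nat_lit 2605) l49 (.c (nat_lit 1781) l42 (.c (nat_lit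 1869) l42 (.c (nat_lit 2664) l53 (.c (nat_lit 2721) l79 (.c (nat_lit 2605) l48 (.c (nat_lit 2731) l167 (.c (nat_lit 1880) l42 (.c (nat_lit 2597) l52 (.c (nat_lit 2552) l42 (.c (nat_lit 2732) l40 (.c (nat_lit 2664) l78 (.c (nat_lit 2728) l173 (.c (nat_lit 2664) l74 (.c (nat_lit 2730) l111 (.c (nat_lit 1763) l42 (.c (nat_lit 2541) l74 (.c (nat_lit 2726) l110 (.c (nat_lit 2731) l175 (.c (nat_lit 2720) l108 (.c (nat_lit 2730) l74 (.c (nat_lit 2731) l236 (.c (nat_lit 2729) l114 u3_269))))))))))))))))))))))))))))))))))))))))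
noncomputable def u3_271 : St := (.c (nat_lit 2732) l36 (.c (nat_lit 2485) l42 (.c (nat_lit 2707) l53 (.c (nat_lit 2725) l112 (.c (nat_lit 2703) l53 (.c (nat_lit 2706) l179 (.c (nat_lit 2731) l108 (.c (nat_lit 2278) l42 (.c (nat_lit 2720) l108 (.c (nat_lit 2731) l236 (.c (nat_lit 2705) l74 (.c (nat_lit 2712) l74 (.c (nat_lit 2676) l53 (.c (nat_lit 2587) l179 (.c (nat_lit 2732) l41 .e)))))))))))))))
noncomputable def u3_272 : St := (.c (nat_lit 2722) l107 (.c (nat_lit 2732) l159 (.c (nat_lit 2722) l49 (.c (nat_lit 2605) l49 (.c (nat_lit 2651) l42 (.c (nat_lit 1781) l42 (.c (nat_lit 2313) l1 (.c (nat_lit 2727) l74 (.c (nat_lit 2722) l48 (.c (nat_lit 2732) l14 (.c (nat_lit 2605) l48 (.c (nat_lit 2731) l112 (.c (nat_lit 2731) l167 (.c (nat_lit 2597) l52 (.c (nat_lit 2732) l168 (.c (nat_lit 2667) l65 (.c (nat_lit 2732) l20 (.c (nat_lit 2732) l40 (.c (nat_lit 2664) l78 (.c (nat_lit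 2664) l52 (.c (nat_lit 2727) l111 (.c (nat_lit 2732) l147 (.c (nat_lit 2638) l74 (.c (nat_lit 1763) l42 (.c (nat_lit 2541) l74 (.c (nat_lit 2620) l42 (.c (nat_lit 2731) l160 (.c (nat_lit 2726) l110 (.c (nat_lit 2713) l160 (.c (nat_lit 2731) l175 (.c (nat_lit 2731) l104 (.c (nat_lit 2558) l141 (.c (nat_lit 1757) l42 (.c (nat_lit 2720) l74 (.c (nat_lit 2713) l179 (.c (nat_lit 2684) l74 (.c (nat_lit 2722) l91 .e)))))))))))))))))))))))))))))))))))))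
noncomputable def u3_273 : St := (.c (nat_lit 2443) l74 (.c (nat_lit 1682) l42 (.c (nat_lit 2721) l160 (.c (nat_lit 1145) l42 (.c (nat_lit 1841) l42 (.c (nat_lit 2732) l13 (.c (nat_lit 2721) l97 (.c (nat_lit 2721) l65 (.c (nat_lit 2721) l152 (.c (nat_lit 2445) l48 (.c (nat_lit 2732) l36 (.c (nat_lit 1894) l42 (.c (nat_lit 2707) l53 (.c (nat_lit 2202) l42 (.c (nat_lit 2724) l179 (.c (nat_lit 2729) l65 (.c (nat_lit 2732) l17 (.c (nat_lit 2717) l74 (.c (nat_lit 2589) l42 (.c (nat_lit 2452) l42 (.c (nat_lit 2727) l78 (.c (nat_lit 2630) l52 (.c (nat_lit 2732) l140 (.c (nat_lit 2430) l42 (.c (nat_lit 2447) l42 (.c (nat_lit 2445) l63 (.c (nat_lit 2723) l74 (.c (nat_lit 2732) l28 (.c (nat_lit 2698) l140 (.c (nat_lit 2698) l48 (.c (nat_lit 2726) l65 (.c (nat_lit 2731) l97 (.c (nat_lit 2732) l288 (.c (nat_lit 2731) l235 (.c (nat_lit 2729) l97 (.c (nat_lit 2732) l27 (.c (nat_lit 2194)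 l160 (.c (nat_lit 2732) l18 (.c (nat_lit 2732) l100 (.c (nat_lit 2732) l104 u3_272))))))))))))))))))))))))))))))))))))))))
noncomputable def u3_274 : St := (.c (nat_lit 2478) l46 (.c (nat_lit 2728) l180 (.c (nat_lit 2720) l75 (.c (nat_lit 2624) l66 (.c (nat_lit 2682) l66 (.c (nat_lit 2720) l232 (.c (nat_lit 2719) l208 (.c (nat_lit 2725) l83 (.c (nat_lit 2281) l66 (.c (nat_lit 2263) l66 (.c (nat_lit 2484) l51 (.c (nat_lit 2300) l51 (.c (nat_lit 2435) l51 (.c (nat_lit 1873) l51 (.c (nat_lit 2719) l98 (.c (nat_lit 2065) l54 (.c (nat_lit 2660) l75 (.c (nat_lit 2502) l51 (.c (nat_lit 2464) l51 (.c (nat_lit 2369) l51 (.c (nat_lit 2656) l66 (.c (nat_lit 2684) l59 (.c (nat_lit 2336) l51 (.c (nat_lit 2279) l56 (.c (nat_lit 2305) l56 (.c (nat_lit 2279) l46 (.c (nat_lit 2625) l59 (.c (nat_lit 2701) l133 (.c (nat_lit 2701) l109 (.c (nat_lit 2501) l46 (.c (nat_lit 2651) l66 (.c (nat_lit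 1941) l46 (.c (nat_lit 2658) l75 (.c (nat_lit 2384) l46 (.c (nat_lit 2719) l153 (.c (nat_lit 2483) l46 (.c (nat_lit 2701) l83 (.c (nat_lit 2725) l184 (.c (nat_lit 2701) l172 .e)))))))))))))))))))))))))))))))))))))))
noncomputable def u3_275 : St := (.c (nat_lit 2715) l83 (.c (nat_lit 2648) l75 (.c (nat_lit 2460) l46 (.c (nat_lit 2336) l51 (.c (nat_lit 2462) l56 (.c (nat_lit 2646) l75 (.c (nat_lit 2488) l46 (.c (nat_lit 2698) l66 (.c (nat_lit 2644) l56 (.c (nat_lit 2486) l46 (.c (nat_lit 2728) l98 (.c (nat_lit 2627) l66 (.c (nat_lit 2434) l56 (.c (nat_lit 2191) l46 (.c (nat_lit 2699) l56 (.c (nat_lit 2473) l46 (.c (nat_lit 2718) l83 (.c (nat_lit 2476) l75 (.c (nat_lit 2645) l59 (.c (nat_lit 2370) l54 (.c (nat_lit 2421) l75 (.c (nat_lit 2715) l56 (.c (nat_lit 2701) l133 (.c (nat_lit 2701) l109 (.c (nat_lit 2501) l46 (.c (nat_lit 1941) l46 (.c (nat_lit 2506) l75 (.c (nat_lit 2728)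 l153 (.c (nat_lit 2658) l75 (.c (nat_lit 2659) l56 (.c (nat_lit 2384) l46 (.c (nat_lit 2719) l153 (.c (nat_lit 2575) l75 (.c (nat_lit 2720) l133 (.c (nat_lit 2445) l56 (.c (nat_lit 2683) l133 (.c (nat_lit 2649) l66 .e)))))))))))))))))))))))))))))))))))))
noncomputable def u3_276 : St := (.c (nat_lit 2590) l59 (.c (nat_lit 2728) l180 (.c (nat_lit 2717) l75 (.c (nat_lit 2664) l46 (.c (nat_lit 2718) l59 (.c (nat_lit 2664) l59 (.c (nat_lit 2720) l75 (.c (nat_lit 1972) l46 (.c (nat_lit 2627) l51 (.c (nat_lit 2720) l232 (.c (nat_lit 2263) l66 (.c (nat_lit 2593) l59 (.c (nat_lit 2636) l46 (.c (nat_lit 2680) l46 (.c (nat_lit 2649) l51 (.c (nat_lit 2683) l83 (.c (nat_lit 2443) l46 (.c (nat_lit 2605) l46 (.c (nat_lit 2719) l98 (.c (nat_lit 2553) l46 (.c (nat_lit 2720) l59 (.c (nat_lit 2720) l83 (.c (nat_lit 2065) l54 (.c (nat_lit 2427) l46 (.c (nat_lit 2515) l51 (.c (nat_lit 2507) l51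 (.c (nat_lit 2701) l59 (.c (nat_lit 2659) l46 (.c (nat_lit 2391) l75 (.c (nat_lit 2655) l75 (.c (nat_lit 2207) l46 (.c (nat_lit 2637) l59 (.c (nat_lit 2694) l56 (.c (nat_lit 2547) l51 (.c (nat_lit 2369) l51 (.c (nat_lit 2533) l51 (.c (nat_lit 2699) l83 (.c (nat_lit 2717) l180 (.c (nat_lit 2637) l46 (.c (nat_lit 2684) l59 u3_275))))))))))))))))))))))))))))))))))))))))
noncomputable def u3_277 : St := (.c (nat_lit 1955) l46 (.c (nat_lit 2506) l75 (.c (nat_lit 2658) l75 (.c (nat_lit 2659) l56 (.c (nat_lit 2384) l46 (.c (nat_lit 2575) l75 (.c (nat_lit 2683) l56 (.c (nat_lit 2701) l83 (.c (nat_lit 2720) l133 (.c (nat_lit 2593) l46 .e))))))))))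
noncomputable def u3_278 : St := (.c (nat_lit 2700) l109 (.c (nat_lit 2610) l46 (.c (nat_lit 2474) l46 (.c (nat_lit 2684) l59 (.c (nat_lit 2698) l83 (.c (nat_lit 2466) l46 (.c (nat_lit 2648) l75 (.c (nat_lit 2460) l46 (.c (nat_lit 2462) l56 (.c (nat_lit 2488) l46 (.c (nat_lit 2698) l66 (.c (nat_lit 2305) l56 (.c (nat_lit 2486) l46 (.c (nat_lit 2445) l66 (.c (nat_lit 2419) l46 (.c (nat_lit 2279) l46 (.c (nat_lit 2680) l56 (.c (nat_lit 2239) l46 (.c (nat_lit 2501) l56 (.c (nat_lit 2731) l142 (.c (nat_lit 2434) l56 (.c (nat_lit 2191) l46 (.c (nat_lit 2473) l46 (.c (nat_lit 2700) l180 (.c (nat_lit 2709) l83 (.c (nat_lit 2718) l83 (.c (nat_lit 2696) l75 (.c (nat_lit 2483) l59 (.c (nat_lit 2645) l59 (.c (nat_lit 2696) l161 (.c (nat_lit 2349) l46 (.c (nat_lit 2421) l75 (.c (nat_lit 2701) l133 (.c (nat_lit 2597) l59 (.c (nat_lit 2648) l59 (.c (nat_lit 2501) l46 (.c (nat_lit 2150) l46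 (.c (nat_lit 2698) l98 (.c (nat_lit 2112) l56 (.c (nat_lit 1941) l46 u3_277))))))))))))))))))))))))))))))))))))))))
noncomputable def u3_279 : St := (.c (nat_lit 2492) l75 (.c (nat_lit 2709) l133 (.c (nat_lit 2683) l59 (.c (nat_lit 2683) l46 (.c (nat_lit 2718) l59 (.c (nat_lit 1972) l46 (.c (nat_lit 2726) l142 (.c (nat_lit 2731) l272 (.c (nat_lit 2624) l66 (.c (nat_lit 2682) l66 (.c (nat_lit 2621) l56 (.c (nat_lit 2281) l66 (.c (nat_lit 2489) l75 (.c (nat_lit 2270) l54 (.c (nat_lit 2263) l66 (.c (nat_lit 2181) l54 (.c (nat_lit 2484) l51 (.c (nat_lit 2475) l54 (.c (nat_lit 2300) l51 (.c (nat_lit 2680) l46 (.c (nat_lit 2683) l83 (.c (nat_lit 2435) l51 (.c (nat_lit 1873) l51 (.c (nat_lit 1944) l46 (.c (nat_lit 2605) l46 (.c (nat_lit 2720) l59 (.c (nat_lit 2587) l54 (.c (nat_lit 2700) l75 (.c (nat_lit 2513) l59 (.c (nat_lit 2515) l51 (.c (nat_lit 2507) l51 (.c (nat_lit 2701) l59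 (.c (nat_lit 2659) l46 (.c (nat_lit 2502) l51 (.c (nat_lit 2391) l75 (.c (nat_lit 2207) l46 (.c (nat_lit 2597) l46 (.c (nat_lit 2533) l51 (.c (nat_lit 2537) l54 (.c (nat_lit 2421) l59 u3_278))))))))))))))))))))))))))))))))))))))))
noncomputable def u3_280 : St := (.c (nat_lit 2683) l56 (.c (nat_lit 2445) l56 (.c (nat_lit 2683) l133 .e)))
noncomputable def u3_281 : St := (.c (nat_lit 2533) l51 (.c (nat_lit 2645) l46 (.c (nat_lit 2610) l46 (.c (nat_lit 2717) l180 (.c (nat_lit 2474) l46 (.c (nat_lit 2637) l46 (.c (nat_lit 2684) l59 (.c (nat_lit 2569) l46 (.c (nat_lit 2466) l46 (.c (nat_lit 2648) l75 (.c (nat_lit 2460) l46 (.c (nat_lit 2336) l51 (.c (nat_lit 2462) l56 (.c (nat_lit 2646) l75 (.c (nat_lit 2305) l56 (.c (nat_lit 2486) l46 (.c (nat_lit 2419) l46 (.c (nat_lit 2279) l46 (.c (nat_lit 2680) l56 (.c (nat_lit 2501) l56 (.c (nat_lit 2731) l142 (.c (nat_lit 2434) l56 (.c (nat_lit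 2191) l46 (.c (nat_lit 2695) l59 (.c (nat_lit 2473) l46 (.c (nat_lit 2709) l83 (.c (nat_lit 2718) l83 (.c (nat_lit 2696) l75 (.c (nat_lit 2625) l59 (.c (nat_lit 2645) l59 (.c (nat_lit 2701) l109 (.c (nat_lit 2597) l59 (.c (nat_lit 2501) l46 (.c (nat_lit 1941) l46 (.c (nat_lit 1955) l46 (.c (nat_lit 2506) l75 (.c (nat_lit 2423) l75 (.c (nat_lit 2689) l66 (.c (nat_lit 2384) l46 (.c (nat_lit 2575) l75 u3_280))))))))))))))))))))))))))))))))))))))))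
noncomputable def u3_282 : St := (.c (nat_lit 2492) l75 (.c (nat_lit 2709) l133 (.c (nat_lit 2683) l59 (.c (nat_lit 2683) l46 (.c (nat_lit 2717) l75 (.c (nat_lit 2718) l59 (.c (nat_lit 2261) l75 (.c (nat_lit 1972) l46 (.c (nat_lit 2726) l142 (.c (nat_lit 2731) l272 (.c (nat_lit 2689) l51 (.c (nat_lit 2624) l66 (.c (nat_lit 2682) l66 (.c (nat_lit 2621) l56 (.c (nat_lit 2281) l66 (.c (nat_lit 2489) l75 (.c (nat_lit 2270) l54 (.c (nat_lit 2263) l66 (.c (nat_lit 2181) l54 (.c (nat_lit 2484) l51 (.c (nat_lit 2475) l54 (.c (nat_lit 2300) l51 (.c (nat_lit 2697) l51 (.c (nat_lit 2680) l46 (.c (nat_lit 2697) l66 (.c (nat_lit 2435) l51 (.c (nat_lit 1873) l51 (.c (nat_lit 2605) l46 (.c (nat_lit 2553) l46 (.c (nat_lit 2720) l59 (.c (nat_lit 2720) l83 (.c (nat_lit 2587) l54 (.c (nat_lit 2700) l75 (.c (nat_lit 2434) l46 (.c (nat_lit 2507) l51 (.c (nat_lit 2660) l75 (.c (nat_lit 2388) l46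 (.c (nat_lit 2502) l51 (.c (nat_lit 2207) l46 (.c (nat_lit 2597) l46 u3_281))))))))))))))))))))))))))))))))))))))))
noncomputable def u3_283 : St := (.c (nat_lit 2478) l46 (.c (nat_lit 2624) l66 (.c (nat_lit 2682) l66 (.c (nat_lit 2725) l83 (.c (nat_lit 2281) l66 (.c (nat_lit 2263) l66 (.c (nat_lit 2484) l51 (.c (nat_lit 2300) l51 (.c (nat_lit 2435) l51 (.c (nat_lit 1873) l51 (.c (nat_lit 2502) l51 (.c (nat_lit 2464) l51 (.c (nat_lit 2369) l51 (.c (nat_lit 2656) l66 (.c (nat_lit 2684) l59 (.c (nat_lit 2336) l51 (.c (nat_lit 2279) l56 (.c (nat_lit 2488) l46 (.c (nat_lit 2305) l56 (.c (nat_lit 2279) l46 (.c (nat_lit 2625) l59 (.c (nat_lit 2651) l66 (.c (nat_lit 1941) l46 (.c (nat_lit 2658) l75 (.c (nat_lit 2725) l184 .e)))))))))))))))))))))))))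
noncomputable def u3_284 : St := (.c (nat_lit 2719) l208 (.c (nat_lit 2700) l75 (.c (nat_lit 2660) l75 (.c (nat_lit 2207) l46 (.c (nat_lit 2698) l66 (.c (nat_lit 2728) l98 (.c (nat_lit 2445) l66 (.c (nat_lit 2700) l180 (.c (nat_lit 2657) l75 (.c (nat_lit 2701) l109 (.c (nat_lit 2651) l66 (.c (nat_lit 2728) l153 (.c (nat_lit 2658) l75 (.c (nat_lit 2423) l75 (.c (nat_lit 2575) l75 (.c (nat_lit 2445) l56 .e))))))))))))))))
noncomputable def u3_285 : St := (.c (nat_lit 2683) l56 (.c (nat_lit 2720) l133 .e))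
noncomputable def u3_286 : St := (.c (nat_lit 2474) l46 (.c (nat_lit 2684) l59 (.c (nat_lit 2698) l83 (.c (nat_lit 2466) l46 (.c (nat_lit 2648) l75 (.c (nat_lit 2460) l46 (.c (nat_lit 2462) l56 (.c (nat_lit 2488) l46 (.c (nat_lit 2698) l66 (.c (nat_lit 2305) l56 (.c (nat_lit 2486) l46 (.c (nat_lit 2419) l46 (.c (nat_lit 2279) l46 (.c (nat_lit 2680) l56 (.c (nat_lit 2239) l46 (.c (nat_lit 2501) l56 (.c (nat_lit 2731) l142 (.c (nat_lit 2434) l56 (.c (nat_lit 2191) l46 (.c (nat_lit 2473) l46 (.c (nat_lit 2709) l83 (.c (nat_lit 2718) l83 (.c (nat_lit 2696) l75 (.c (nat_lit 2657) l75 (.c (nat_lit 2483) l59 (.c (nat_lit 2645) l59 (.c (nat_lit 2696) l161 (.c (nat_lit 2349) l46 (.c (nat_lit 2421) l75 (.c (nat_lit 2701) l133 (.c (nat_lit 2701) l109 (.c (nat_lit 2597) l59 (.c (nat_lit 2648) l59 (.c (nat_lit 2501) l46 (.c (nat_lit 2150) l46 (.c (nat_lit 2698) l98 (.c (nat_lit 2112) l56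 (.c (nat_lit 1941) l46 (.c (nat_lit 1955) l46 (.c (nat_lit 2423) l75 u3_285))))))))))))))))))))))))))))))))))))))))
noncomputable def u3_287 : St := (.c (nat_lit 2492) l75 (.c (nat_lit 2709) l133 (.c (nat_lit 2683) l59 (.c (nat_lit 2683) l46 (.c (nat_lit 2718) l59 (.c (nat_lit 1972) l46 (.c (nat_lit 2726) l142 (.c (nat_lit 2731) l272 (.c (nat_lit 2624) l66 (.c (nat_lit 2682) l66 (.c (nat_lit 2621) l56 (.c (nat_lit 2281) l66 (.c (nat_lit 2489) l75 (.c (nat_lit 2270) l54 (.c (nat_lit 2263) l66 (.c (nat_lit 2181) l54 (.c (nat_lit 2484) l51 (.c (nat_lit 2475) l54 (.c (nat_lit 2300) l51 (.c (nat_lit 2680) l46 (.c (nat_lit 2683) l83 (.c (nat_lit 2435) l51 (.c (nat_lit 1873) l51 (.c (nat_lit 1944) l46 (.c (nat_lit 2605) l46 (.c (nat_lit 2720) l59 (.c (nat_lit 2587) l54 (.c (nat_lit 2513) l59 (.c (nat_lit 2515) l51 (.c (nat_lit 2507) l51 (.c (nat_lit 2660) l75 (.c (nat_lit 2502) l51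 (.c (nat_lit 2391) l75 (.c (nat_lit 2207) l46 (.c (nat_lit 2597) l46 (.c (nat_lit 2533) l51 (.c (nat_lit 2537) l54 (.c (nat_lit 2421) l59 (.c (nat_lit 2700) l109 (.c (nat_lit 2610) l46 u3_286))))))))))))))))))))))))))))))))))))))))
noncomputable def u3_288 : St := (.c (nat_lit 2610) l46 (.c (nat_lit 2474) l46 (.c (nat_lit 2684) l59 (.c (nat_lit 2698) l83 (.c (nat_lit 2466) l46 (.c (nat_lit 2648) l75 (.c (nat_lit 2460) l46 (.c (nat_lit 2462) l56 (.c (nat_lit 2698) l66 (.c (nat_lit 2305) l56 (.c (nat_lit 2644) l56 (.c (nat_lit 2486) l46 (.c (nat_lit 2419) l46 (.c (nat_lit 2279) l46 (.c (nat_lit 2680) l56 (.c (nat_lit 2239) l46 (.c (nat_lit 2501) l56 (.c (nat_lit 2731) l142 (.c (nat_lit 2434) l56 (.c (nat_lit 2191) l46 (.c (nat_lit 2473) l46 (.c (nat_lit 2709) l83 (.c (nat_lit 2718) l83 (.c (nat_lit 2696) l75 (.c (nat_lit 2657) l75 (.c (nat_lit 2483) l59 (.c (nat_lit 2645) l59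 (.c (nat_lit 2696) l161 (.c (nat_lit 2349) l46 (.c (nat_lit 2421) l75 (.c (nat_lit 2701) l133 (.c (nat_lit 2701) l109 (.c (nat_lit 2597) l59 (.c (nat_lit 2648) l59 (.c (nat_lit 2501) l46 (.c (nat_lit 2150) l46 (.c (nat_lit 2698) l98 (.c (nat_lit 2112) l56 (.c (nat_lit 2658) l75 (.c (nat_lit 2683) l56 .e))))))))))))))))))))))))))))))))))))))))
noncomputable def u3_289 : St := (.c (nat_lit 2492) l75 (.c (nat_lit 2709) l133 (.c (nat_lit 2683) l59 (.c (nat_lit 2683) l46 (.c (nat_lit 2718) l59 (.c (nat_lit 1972) l46 (.c (nat_lit 2726) l142 (.c (nat_lit 2731) l272 (.c (nat_lit 2624) l66 (.c (nat_lit 2682) l66 (.c (nat_lit 2621) l56 (.c (nat_lit 2281) l66 (.c (nat_lit 2489) l75 (.c (nat_lit 2270) l54 (.c (nat_lit 2263) l66 (.c (nat_lit 2181) l54 (.c (nat_lit 2484) l51 (.c (nat_lit 2475) l54 (.c (nat_lit 2300) l51 (.c (nat_lit 2680) l46 (.c (nat_lit 2683) l83 (.c (nat_lit 2435) l51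 (.c (nat_lit 1873) l51 (.c (nat_lit 1944) l46 (.c (nat_lit 2605) l46 (.c (nat_lit 2720) l59 (.c (nat_lit 2720) l83 (.c (nat_lit 2587) l54 (.c (nat_lit 2513) l59 (.c (nat_lit 2515) l51 (.c (nat_lit 2507) l51 (.c (nat_lit 2660) l75 (.c (nat_lit 2502) l51 (.c (nat_lit 2391) l75 (.c (nat_lit 2207) l46 (.c (nat_lit 2597) l46 (.c (nat_lit 2533) l51 (.c (nat_lit 2537) l54 (.c (nat_lit 2421) l59 (.c (nat_lit 2700) l109 u3_288))))))))))))))))))))))))))))))))))))))))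
noncomputable def u3_290 : St := (.c (nat_lit 2700) l75 (.c (nat_lit 2701) l59 (.c (nat_lit 2659) l46 (.c (nat_lit 2660) l75 (.c (nat_lit 2445) l66 (.c (nat_lit 2700) l180 (.c (nat_lit 2657) l75 (.c (nat_lit 2701) l133 (.c (nat_lit 2701) l109 (.c (nat_lit 2506) l75 (.c (nat_lit 2658) l75 (.c (nat_lit 2423) l75 (.c (nat_lit 2659) l56 (.c (nat_lit 2575) l75 .e))))))))))))))
noncomputable def u3_291 : St := (.c (nat_lit 2506) l75 (.c (nat_lit 2728) l153 (.c (nat_lit 2689) l66 .e)))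
noncomputable def u3_292 : St := (.c (nat_lit 2717) l75 (.c (nat_lit 2689) l51 (.c (nat_lit 2719) l208 (.c (nat_lit 2697) l51 (.c (nat_lit 2697) l66 (.c (nat_lit 1944) l46 (.c (nat_lit 2553) l46 (.c (nat_lit 2513) l59 (.c (nat_lit 2434) l46 (.c (nat_lit 2515) l51 (.c (nat_lit 2660) l75 (.c (nat_lit 2388) l46 (.c (nat_lit 2391) l75 (.c (nat_lit 2207) l46 (.c (nat_lit 2537) l54 (.c (nat_lit 2645) l46 (.c (nat_lit 2421) l59 (.c (nat_lit 2700) l109 (.c (nat_lit 2717) l180 (.c (nat_lit 2637) l46 (.c (nat_lit 2698) l83 (.c (nat_lit 2569) l46 (.c (nat_lit 2336) l51 (.c (nat_lit 2646) l75 (.c (nat_lit 2488) l46 (.c (nat_lit 2644) l56 (.c (nat_lit 2728) l98 (.c (nat_lit 2445) l66 (.c (nat_lit 2695) l59 (.c (nat_lit 2700) l180 (.c (nat_lit 2696) l161 (.c (nat_lit 2349) l46 (.c (nat_lit 2421) l75 (.c (nat_lit 2701) l133 (.c (nat_lit 2701) l109 (.c (nat_lit 2648) l59 (.c (nat_lit 2150)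 l46 (.c (nat_lit 2698) l98 (.c (nat_lit 2112) l56 (.c (nat_lit 1955) l46 u3_291))))))))))))))))))))))))))))))))))))))))
noncomputable def u3_293 : St := (.c (nat_lit 2513) l59 (.c (nat_lit 2434) l46 (.c (nat_lit 2660) l75 (.c (nat_lit 2391) l75 (.c (nat_lit 2207) l46 (.c (nat_lit 2698) l83 (.c (nat_lit 2488) l46 (.c (nat_lit 2698) l66 (.c (nat_lit 2644) l56 (.c (nat_lit 2445) l66 (.c (nat_lit 2701) l133 (.c (nat_lit 2701) l109 (.c (nat_lit 2698) l98 .e)))))))))))))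
noncomputable def u3_294 : St := (.c (nat_lit 2699) l83 (.c (nat_lit 1789) l46 (.c (nat_lit 2713) l161 (.c (nat_lit 2460) l46 (.c (nat_lit 2336) l51 (.c (nat_lit 2462) l56 (.c (nat_lit 2488) l46 (.c (nat_lit 2445) l66 (.c (nat_lit 2239) l46 (.c (nat_lit 2454) l46 (.c (nat_lit 2434) l56 (.c (nat_lit 2191) l46 (.c (nat_lit 2695) l59 (.c (nat_lit 2699) l56 (.c (nat_lit 2473) l46 (.c (nat_lit 2720) l109 (.c (nat_lit 2709) l83 (.c (nat_lit 2718) l83 (.c (nat_lit 2696) l75 (.c (nat_lit 2476) l75 (.c (nat_lit 2483) l59 (.c (nat_lit 2696) l161 (.c (nat_lit 2113) l51 (.c (nat_lit 2597) l59 (.c (nat_lit 2501) l46 .e)))))))))))))))))))))))))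
noncomputable def u3_295 : St := (.c (nat_lit 2492) l75 (.c (nat_lit 2427) l56 (.c (nat_lit 2621) l59 (.c (nat_lit 2683) l98 (.c (nat_lit 2725) l75 (.c (nat_lit 2709) l133 (.c (nat_lit 2718) l59 (.c (nat_lit 2720) l75 (.c (nat_lit 1972) l46 (.c (nat_lit 2725) l109 (.c (nat_lit 2684) l75 (.c (nat_lit 2683) l66 (.c (nat_lit 2444) l51 (.c (nat_lit 2489) l75 (.c (nat_lit 2270) l54 (.c (nat_lit 2683) l142 (.c (nat_lit 2263) l66 (.c (nat_lit 2181) l54 (.c (nat_lit 2475) l54 (.c (nat_lit 2375) l51 (.c (nat_lit 2592) l142 (.c (nat_lit 2699) l59 (.c (nat_lit 2694) l46 (.c (nat_lit 2720) l161 (.c (nat_lit 2592) l66 (.c (nat_lit 2605) l46 (.c (nat_lit 2427) l46 (.c (nat_lit 2700) l75 (.c (nat_lit 2434) l46 (.c (nat_lit 2515) l51 (.c (nat_lit 2507) l51 (.c (nat_lit 2669) l98 (.c (nat_lit 2597) l46 (.c (nat_lit 2694) l56 (.c (nat_lit 2547) l51 (.c (nat_lit 2464) l51 (.c (nat_lit 2369) l51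 (.c (nat_lit 2533) l51 (.c (nat_lit 2537) l54 (.c (nat_lit 2645) l46 u3_294))))))))))))))))))))))))))))))))))))))))
noncomputable def u3_296 : St := (.c (nat_lit 2637) l59 (.c (nat_lit 2597) l46 (.c (nat_lit 2464) l51 (.c (nat_lit 2537) l54 (.c (nat_lit 2645) l46 (.c (nat_lit 2717) l180 (.c (nat_lit 2637) l46 (.c (nat_lit 2684) l59 (.c (nat_lit 2715) l83 (.c (nat_lit 2713) l161 (.c (nat_lit 2648) l75 (.c (nat_lit 2646) l75 (.c (nat_lit 2558) l66 (.c (nat_lit 2486) l46 (.c (nat_lit 2445) l66 (.c (nat_lit 2627) l66 (.c (nat_lit 2454) l46 (.c (nat_lit 2695) l59 (.c (nat_lit 2473) l46 (.c (nat_lit 2720) l109 (.c (nat_lit 2700) l180 (.c (nat_lit 2709) l83 (.c (nat_lit 2696) l75 (.c (nat_lit 2625) l59 (.c (nat_lit 2657) l75 (.c (nat_lit 2645) l59 (.c (nat_lit 2696) l161 (.c (nat_lit 1275) l54 (.c (nat_lit 2370) l54 (.c (nat_lit 2623) l75 (.c (nat_lit 2421) l75 (.c (nat_lit 2715)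 l56 (.c (nat_lit 2113) l51 (.c (nat_lit 2597) l59 .e))))))))))))))))))))))))))))))))))
noncomputable def u3_297 : St := (.c (nat_lit 2492) l75 (.c (nat_lit 2427) l56 (.c (nat_lit 2621) l59 (.c (nat_lit 2590) l59 (.c (nat_lit 2388) l56 (.c (nat_lit 2683) l98 (.c (nat_lit 2725) l75 (.c (nat_lit 2709) l133 (.c (nat_lit 2717) l75 (.c (nat_lit 2664) l46 (.c (nat_lit 2664) l59 (.c (nat_lit 2720) l75 (.c (nat_lit 2261) l75 (.c (nat_lit 2725) l109 (.c (nat_lit 2684) l75 (.c (nat_lit 2683) l66 (.c (nat_lit 2444) l51 (.c (nat_lit 2627) l51 (.c (nat_lit 2489) l75 (.c (nat_lit 2270) l54 (.c (nat_lit 2683) l142 (.c (nat_lit 2181) l54 (.c (nat_lit 2593) l59 (.c (nat_lit 2475) l54 (.c (nat_lit 2375) l51 (.c (nat_lit 2592) l142 (.c (nat_lit 2699) l59 (.c (nat_lit 2636) l46 (.c (nat_lit 2680) l46 (.c (nat_lit 2694) l46 (.c (nat_lit 2720) l161 (.c (nat_lit 2592) l66 (.c (nat_lit 2443) l46 (.c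 (nat_lit 2553) l46 (.c (nat_lit 2720) l59 (.c (nat_lit 2434) l46 (.c (nat_lit 2669) l98 (.c (nat_lit 2388) l46 (.c (nat_lit 2391) l75 (.c (nat_lit 2655) l75 u3_296))))))))))))))))))))))))))))))))))))))))
noncomputable def u3_298 : St := (.c (nat_lit 2488) l46 (.c (nat_lit 2558) l66 (.c (nat_lit 2486) l46 (.c (nat_lit 2627) l66 (.c (nat_lit 2239) l46 (.c (nat_lit 2434) l56 (.c (nat_lit 2191) l46 (.c (nat_lit 2699) l56 (.c (nat_lit 2700) l180 (.c (nat_lit 2718) l83 (.c (nat_lit 2476) l75 (.c (nat_lit 2625) l59 (.c (nat_lit 2657) l75 (.c (nat_lit 2483) l59 (.c (nat_lit 2645) l59 (.c (nat_lit 1275) l54 (.c (nat_lit 2370) l54 (.c (nat_lit 2623) l75 (.c (nat_lit 2421) l75 (.c (nat_lit 2715) l56 .e))))))))))))))))))))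
noncomputable def u3_299 : St := (.c (nat_lit 2590) l59 (.c (nat_lit 2388) l56 (.c (nat_lit 2717) l75 (.c (nat_lit 2664) l46 (.c (nat_lit 2718) l59 (.c (nat_lit 2664) l59 (.c (nat_lit 2261) l75 (.c (nat_lit 1972) l46 (.c (nat_lit 2627) l51 (.c (nat_lit 2263) l66 (.c (nat_lit 2593) l59 (.c (nat_lit 2636) l46 (.c (nat_lit 2680) l46 (.c (nat_lit 2443) l46 (.c (nat_lit 2605) l46 (.c (nat_lit 2553) l46 (.c (nat_lit 2720) l59 (.c (nat_lit 2427) l46 (.c (nat_lit 2700) l75 (.c (nat_lit 2515) l51 (.c (nat_lit 2507) l51 (.c (nat_lit 2388) l46 (.c (nat_lit 2391) l75 (.c (nat_lit 2655) l75 (.c (nat_lit 2637) l59 (.c (nat_lit 2694) l56 (.c (nat_lit 2547) l51 (.c (nat_lit 2369) l51 (.c (nat_lit 2533) l51 (.c (nat_lit 2699) l83 (.c (nat_lit 2717) l180 (.c (nat_lit 1789) l46 (.c (nat_lit 2637) l46 (.c (nat_lit 2684) l59 (.c (nat_lit 2715) l83 (.c (nat_lit 2648) l75 (.c (nat_lit 2460) l46 (.c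 (nat_lit 2336) l51 (.c (nat_lit 2462) l56 (.c (nat_lit 2646) l75 u3_298))))))))))))))))))))))))))))))))))))))))
noncomputable def u3_300 : St := (.c (nat_lit 2239) l46 (.c (nat_lit 2454) l46 (.c (nat_lit 2501) l56 (.c (nat_lit 2731) l142 (.c (nat_lit 2434) l56 (.c (nat_lit 2191) l46 (.c (nat_lit 2695) l59 (.c (nat_lit 2699) l56 (.c (nat_lit 2700) l180 (.c (nat_lit 2718) l83 (.c (nat_lit 2476) l75 (.c (nat_lit 2483) l59 (.c (nat_lit 2696) l161 .e)))))))))))))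
noncomputable def u3_301 : St := (.c (nat_lit 2718) l59 (.c (nat_lit 2261) l75 (.c (nat_lit 1972) l46 (.c (nat_lit 2726) l142 (.c (nat_lit 2731) l272 (.c (nat_lit 2624) l66 (.c (nat_lit 2682) l66 (.c (nat_lit 2621) l56 (.c (nat_lit 2627) l51 (.c (nat_lit 2281) l66 (.c (nat_lit 2263) l66 (.c (nat_lit 2484) l51 (.c (nat_lit 2300) l51 (.c (nat_lit 2419) l59 (.c (nat_lit 2699) l59 (.c (nat_lit 2596) l46 (.c (nat_lit 2680) l46 (.c (nat_lit 2435) l51 (.c (nat_lit 1873) l51 (.c (nat_lit 2720) l59 (.c (nat_lit 2720) l83 (.c (nat_lit 2434) l46 (.c (nat_lit 2515) l51 (.c (nat_lit 2502) l51 (.c (nat_lit 2637) l59 (.c (nat_lit 2464) l51 (.c (nat_lit 2533) l51 (.c (nat_lit 2645) l46 (.c (nat_lit 2699) l83 (.c (nat_lit 2700) l109 (.c (nat_lit 2596) l56 (.c (nat_lit 2474) l46 (.c (nat_lit 2637) l46 (.c (nat_lit 2684) l59 (.c (nat_lit 2460) l46 (.c (nat_lit 2488) l46 (.c (nat_lit 2305) l56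 (.c (nat_lit 2445) l66 (.c (nat_lit 2627) l66 (.c (nat_lit 2680) l56 u3_300))))))))))))))))))))))))))))))))))))))))
noncomputable def u3_302 : St := (.c (nat_lit 2547) l51 (.c (nat_lit 2464) l51 (.c (nat_lit 2369) l51 (.c (nat_lit 2537) l54 (.c (nat_lit 2645) l46 (.c (nat_lit 2699) l83 (.c (nat_lit 2700) l109 (.c (nat_lit 2610) l46 (.c (nat_lit 2474) l46 (.c (nat_lit 2637) l46 (.c (nat_lit 2684) l59 (.c (nat_lit 2569) l46 (.c (nat_lit 2713) l161 (.c (nat_lit 2462) l56 (.c (nat_lit 2305) l56 (.c (nat_lit 2419) l46 (.c (nat_lit 2627) l66 (.c (nat_lit 2680) l56 (.c (nat_lit 2501) l56 (.c (nat_lit 2434) l56 (.c (nat_lit 2191) l46 (.c (nat_lit 2695) l59 (.c (nat_lit 2699) l56 (.c (nat_lit 2473) l46 (.c (nat_lit 2720) l109 (.c (nat_lit 2625) l59 (.c (nat_lit 2645) l59 .e)))))))))))))))))))))))))))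
noncomputable def u3_303 : St := (.c (nat_lit 2427) l56 (.c (nat_lit 2621) l59 (.c (nat_lit 2683) l98 (.c (nat_lit 2725) l75 (.c (nat_lit 2720) l75 (.c (nat_lit 1972) l46 (.c (nat_lit 2725) l109 (.c (nat_lit 2684) l75 (.c (nat_lit 2683) l66 (.c (nat_lit 2624) l66 (.c (nat_lit 2682) l66 (.c (nat_lit 2621) l56 (.c (nat_lit 2444) l51 (.c (nat_lit 2627) l51 (.c (nat_lit 2281) l66 (.c (nat_lit 2683) l142 (.c (nat_lit 2263) l66 (.c (nat_lit 2484) l51 (.c (nat_lit 2375) l51 (.c (nat_lit 2592) l142 (.c (nat_lit 2300) l51 (.c (nat_lit 2699) l59 (.c (nat_lit 2680) l46 (.c (nat_lit 2694) l46 (.c (nat_lit 2720) l161 (.c (nat_lit 2592) l66 (.c (nat_lit 2435) l51 (.c (nat_lit 1873) l51 (.c (nat_lit 2720) l59 (.c (nat_lit 2720) l83 (.c (nat_lit 2587) l54 (.c (nat_lit 2427) l46 (.c (nat_lit 2700) l75 (.c (nat_lit 2434) l46 (.c (nat_lit 2515) l51 (.c (nat_lit 2507) l51 (.c (nat_lit 2669) l98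 (.c (nat_lit 2502) l51 (.c (nat_lit 2637) l59 (.c (nat_lit 2694) l56 u3_302))))))))))))))))))))))))))))))))))))))))
noncomputable def u3_304 : St := (.c (nat_lit 2696) l75 .e)
noncomputable def u3_305 : St := (.c (nat_lit 1972) l46 (.c (nat_lit 2624) l66 (.c (nat_lit 2682) l66 (.c (nat_lit 2281) l66 (.c (nat_lit 2263) l66 (.c (nat_lit 2647) l51 (.c (nat_lit 2613) l66 (.c (nat_lit 2643) l66 (.c (nat_lit 2419) l59 (.c (nat_lit 2527) l51 (.c (nat_lit 2435) l51 (.c (nat_lit 1873) l51 (.c (nat_lit 2605) l46 (.c (nat_lit 2434) l46 (.c (nat_lit 2515) l51 (.c (nat_lit 2507) l51 (.c (nat_lit 2502) l51 (.c (nat_lit 2547) l51 (.c (nat_lit 2464) l51 (.c (nat_lit 2574) l66 (.c (nat_lit 2369) l51 (.c (nat_lit 2503) l66 (.c (nat_lit 2537) l54 (.c (nat_lit 2718) l98 (.c (nat_lit 2610) l46 (.c (nat_lit 2474) l46 (.c (nat_lit 1789) l46 (.c (nat_lit 2656) l66 (.c (nat_lit 2569) l46 (.c (nat_lit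 2460) l46 (.c (nat_lit 2462) l56 (.c (nat_lit 2646) l75 (.c (nat_lit 2419) l46 (.c (nat_lit 2239) l46 (.c (nat_lit 2454) l46 (.c (nat_lit 2501) l56 (.c (nat_lit 2434) l56 (.c (nat_lit 2191) l46 (.c (nat_lit 2695) l59 (.c (nat_lit 2700) l180 u3_304))))))))))))))))))))))))))))))))))))))))
noncomputable def u3_306 : St := (.c (nat_lit 2717) l180 (.c (nat_lit 2474) l46 (.c (nat_lit 1789) l46 (.c (nat_lit 2637) l46 (.c (nat_lit 2656) l66 (.c (nat_lit 2569) l46 (.c (nat_lit 2713) l161 (.c (nat_lit 2648) l75 (.c (nat_lit 2460) l46 (.c (nat_lit 2336) l51 (.c (nat_lit 2486) l46 (.c (nat_lit 2728) l98 (.c (nat_lit 2445) l66 (.c (nat_lit 2419) l46 (.c (nat_lit 2454) l46 (.c (nat_lit 2501) l56 (.c (nat_lit 2731) l142 (.c (nat_lit 2191) l46 (.c (nat_lit 2718) l83 .e)))))))))))))))))))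
noncomputable def u3_307 : St := (.c (nat_lit 2621) l59 (.c (nat_lit 2683) l98 (.c (nat_lit 2725) l75 (.c (nat_lit 2717) l75 (.c (nat_lit 2718) l59 (.c (nat_lit 2726) l142 (.c (nat_lit 2731) l272 (.c (nat_lit 2725) l109 (.c (nat_lit 2684) l75 (.c (nat_lit 2683) l66 (.c (nat_lit 2624) l66 (.c (nat_lit 2682) l66 (.c (nat_lit 2281) l66 (.c (nat_lit 2683) l142 (.c (nat_lit 2647) l51 (.c (nat_lit 2613) l66 (.c (nat_lit 2643) l66 (.c (nat_lit 2419) l59 (.c (nat_lit 2527) l51 (.c (nat_lit 2694) l46 (.c (nat_lit 2697) l66 (.c (nat_lit 2719) l142 (.c (nat_lit 2649) l51 (.c (nat_lit 2719) l66 (.c (nat_lit 2435) l51 (.c (nat_lit 1873) l51 (.c (nat_lit 2553) l46 (.c (nat_lit 2515) l51 (.c (nat_lit 2388) l46 (.c (nat_lit 2502) l51 (.c (nat_lit 2637) l59 (.c (nat_lit 2694) l56 (.c (nat_lit 2464) l51 (.c (nat_lit 2574) l66 (.c (nat_lit 2533) l51 (.c (nat_lit 2503) l66 (.c (nat_lit 2537) l54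 (.c (nat_lit 2645) l46 (.c (nat_lit 2718) l98 (.c (nat_lit 2610) l46 u3_306))))))))))))))))))))))))))))))))))))))))
noncomputable def u3_308 : St := (.c (nat_lit 2427) l56 (.c (nat_lit 2388) l56 (.c (nat_lit 2709) l133 (.c (nat_lit 2720) l75 (.c (nat_lit 1972) l46 (.c (nat_lit 2444) l51 (.c (nat_lit 2263) l66 (.c (nat_lit 2375) l51 (.c (nat_lit 2592) l142 (.c (nat_lit 2697) l66 (.c (nat_lit 2719) l142 (.c (nat_lit 2649) l51 (.c (nat_lit 2719) l66 (.c (nat_lit 2720) l161 (.c (nat_lit 2592) l66 (.c (nat_lit 2587) l54 (.c (nat_lit 2427) l46 (.c (nat_lit 2700) l75 (.c (nat_lit 2434) l46 (.c (nat_lit 2515) l51 (.c (nat_lit 2507) l51 (.c (nat_lit 2669) l98 (.c (nat_lit 2388) l46 (.c (nat_lit 2464) l51 (.c (nat_lit 2537) l54 (.c (nat_lit 2700) l109 (.c (nat_lit 1789) l46 (.c (nat_lit 2460) l46 (.c (nat_lit 2336) l51 (.c (nat_lit 2462) l56 (.c (nat_lit 2541) l46 (.c (nat_lit 2558)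 l66 (.c (nat_lit 2728) l98 (.c (nat_lit 2239) l46 (.c (nat_lit 2454) l46 (.c (nat_lit 2541) l59 (.c (nat_lit 2434) l56 (.c (nat_lit 2473) l46 (.c (nat_lit 2720) l109 (.c (nat_lit 2709) l83 .e))))))))))))))))))))))))))))))))))))))))
noncomputable def u3_309 : St := (.c (nat_lit 2537) l54 (.c (nat_lit 2718) l98 (.c (nat_lit 2699) l83 (.c (nat_lit 2700) l109 (.c (nat_lit 2596) l56 (.c (nat_lit 2474) l46 (.c (nat_lit 2637) l46 (.c (nat_lit 2656) l66 (.c (nat_lit 2648) l75 (.c (nat_lit 2462) l56 (.c (nat_lit 2541) l46 (.c (nat_lit 2558) l66 (.c (nat_lit 2728) l98 (.c (nat_lit 2627) l66 (.c (nat_lit 2541) l59 (.c (nat_lit 2501) l56 (.c (nat_lit 2731) l142 (.c (nat_lit 2191) l46 (.c (nat_lit 2699) l56 (.c (nat_lit 2473) l46 (.c (nat_lit 2720) l109 .e)))))))))))))))))))))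
noncomputable def u3_310 : St := (.c (nat_lit 2427) l56 (.c (nat_lit 2388) l56 (.c (nat_lit 2720) l75 (.c (nat_lit 2726) l142 (.c (nat_lit 2731) l272 (.c (nat_lit 2624) l66 (.c (nat_lit 2682) l66 (.c (nat_lit 2444) l51 (.c (nat_lit 2627) l51 (.c (nat_lit 2281) l66 (.c (nat_lit 2647) l51 (.c (nat_lit 2613) l66 (.c (nat_lit 2643) l66 (.c (nat_lit 2375) l51 (.c (nat_lit 2592) l142 (.c (nat_lit 2527) l51 (.c (nat_lit 2699) l59 (.c (nat_lit 2596) l46 (.c (nat_lit 2697) l66 (.c (nat_lit 2719) l142 (.c (nat_lit 2649) l51 (.c (nat_lit 2719) l66 (.c (nat_lit 2720) l161 (.c (nat_lit 2592) l66 (.c (nat_lit 2435) l51 (.c (nat_lit 1873) l51 (.c (nat_lit 1944) l46 (.c (nat_lit 2587) l54 (.c (nat_lit 2427) l46 (.c (nat_lit 2700) l75 (.c (nat_lit 2507) l51 (.c (nat_lit 2669) l98 (.c (nat_lit 2388) l46 (.c (nat_lit 2502) l51 (.c (nat_lit 2637) l59 (.c (nat_lit 2547) l51 (.c (nat_lit 2464) l51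 (.c (nat_lit 2574) l66 (.c (nat_lit 2369) l51 (.c (nat_lit 2503) l66 u3_309))))))))))))))))))))))))))))))))))))))))
noncomputable def u3_311 : St := (.c (nat_lit 1972) l46 (.c (nat_lit 2726) l142 (.c (nat_lit 2731) l272 (.c (nat_lit 2627) l51 (.c (nat_lit 2263) l66 (.c (nat_lit 2699) l59 (.c (nat_lit 1944) l46 (.c (nat_lit 2434) l46 (.c (nat_lit 2515) l51 (.c (nat_lit 2507) l51 (.c (nat_lit 2637) l59 (.c (nat_lit 2537) l54 (.c (nat_lit 2699) l83 (.c (nat_lit 1789) l46 (.c (nat_lit 2637) l46 (.c (nat_lit 2648) l75 (.c (nat_lit 2462) l56 (.c (nat_lit 2279) l46 (.c (nat_lit 2627) l66 (.c (nat_lit 2239) l46 (.c (nat_lit 2454) l46 (.c (nat_lit 2731) l142 (.c (nat_lit 2434) l56 (.c (nat_lit 2191) l46 (.c (nat_lit 2699) l56 .e)))))))))))))))))))))))))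
noncomputable def u3_312 : St := (.c (nat_lit 1789) l46 (.c (nat_lit 2637) l46 (.c (nat_lit 2684) l59 (.c (nat_lit 2569) l46 (.c (nat_lit 2713) l161 (.c (nat_lit 2462) l56 (.c (nat_lit 2646) l75 (.c (nat_lit 2541) l46 (.c (nat_lit 2305) l56 (.c (nat_lit 2558) l66 (.c (nat_lit 2728) l98 (.c (nat_lit 2419) l46 (.c (nat_lit 2279) l46 (.c (nat_lit 2627) l66 (.c (nat_lit 2680) l56 (.c (nat_lit 2454) l46 (.c (nat_lit 2541) l59 (.c (nat_lit 2501) l56 (.c (nat_lit 2731) l142 (.c (nat_lit 2191) l46 (.c (nat_lit 2695) l59 .e)))))))))))))))))))))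
noncomputable def u3_313 : St := (.c (nat_lit 2621) l59 (.c (nat_lit 2388) l56 (.c (nat_lit 2683) l98 (.c (nat_lit 2725) l75 (.c (nat_lit 2726) l142 (.c (nat_lit 2731) l272 (.c (nat_lit 2725) l109 (.c (nat_lit 2684) l75 (.c (nat_lit 2683) l66 (.c (nat_lit 2624) l66 (.c (nat_lit 2682) l66 (.c (nat_lit 2621) l56 (.c (nat_lit 2627) l51 (.c (nat_lit 2281) l66 (.c (nat_lit 2683) l142 (.c (nat_lit 2484) l51 (.c (nat_lit 2300) l51 (.c (nat_lit 2596) l46 (.c (nat_lit 2680) l46 (.c (nat_lit 2694) l46 (.c (nat_lit 2697) l66 (.c (nat_lit 2719) l142 (.c (nat_lit 2649) l51 (.c (nat_lit 2719) l66 (.c (nat_lit 2435) l51 (.c (nat_lit 1873) l51 (.c (nat_lit 2720) l59 (.c (nat_lit 2720) l83 (.c (nat_lit 2507) l51 (.c (nat_lit 2388) l46 (.c (nat_lit 2502) l51 (.c (nat_lit 2637) l59 (.c (nat_lit 2694) l56 (.c (nat_lit 2547) l51 (.c (nat_lit 2464) l51 (.c (nat_lit 2369) l51 (.c (nat_lit 2537) l54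 (.c (nat_lit 2596) l56 (.c (nat_lit 2610) l46 (.c (nat_lit 2474) l46 u3_312))))))))))))))))))))))))))))))))))))))))
noncomputable def u3_314 : St := (.c (nat_lit 2624) l66 (.c (nat_lit 2682) l66 (.c (nat_lit 2281) l66 (.c (nat_lit 2647) l51 (.c (nat_lit 2613) l66 (.c (nat_lit 2643) l66 (.c (nat_lit 2527) l51 (.c (nat_lit 2435) l51 (.c (nat_lit 1873) l51 (.c (nat_lit 2502) l51 (.c (nat_lit 2547) l51 (.c (nat_lit 2464) l51 (.c (nat_lit 2574) l66 (.c (nat_lit 2369) l51 (.c (nat_lit 2503) l66 (.c (nat_lit 2718) l98 (.c (nat_lit 2474) l46 (.c (nat_lit 2656) l66 (.c (nat_lit 2501) l56 .e)))))))))))))))))))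
noncomputable def u3_315 : St := (.c (nat_lit 2717) l75 (.c (nat_lit 2518) l54 (.c (nat_lit 2716) l83 (.c (nat_lit 2419) l59 (.c (nat_lit 2697) l66 (.c (nat_lit 2719) l142 (.c (nat_lit 2649) l51 (.c (nat_lit 2719) l66 (.c (nat_lit 1944) l46 (.c (nat_lit 2553) l46 (.c (nat_lit 2319) l54 (.c (nat_lit 2515) l51 (.c (nat_lit 2388) l46 (.c (nat_lit 2547) l51 (.c (nat_lit 2464) l51 (.c (nat_lit 2369) l51 (.c (nat_lit 2533) l51 (.c (nat_lit 2537) l54 (.c (nat_lit 2717) l180 (.c (nat_lit 2336) l51 (.c (nat_lit 2728) l98 (.c (nat_lit 2419) l46 (.c (nat_lit 2716) l133 .e)))))))))))))))))))))))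
noncomputable def u3_316 : St := (.c (nat_lit 2388) l56 (.c (nat_lit 2621) l56 (.c (nat_lit 2484) l51 (.c (nat_lit 2647) l51 (.c (nat_lit 2613) l66 (.c (nat_lit 2643) l66 (.c (nat_lit 2300) l51 (.c (nat_lit 2527) l51 (.c (nat_lit 2596) l46 (.c (nat_lit 2680) l46 (.c (nat_lit 2694) l46 (.c (nat_lit 2697) l66 (.c (nat_lit 2719) l142 (.c (nat_lit 2649) l51 (.c (nat_lit 2719) l66 (.c (nat_lit 1944) l46 (.c (nat_lit 2720) l59 (.c (nat_lit 2720) l83 (.c (nat_lit 2507) l51 (.c (nat_lit 2388) l46 (.c (nat_lit 2694) l56 (.c (nat_lit 2574) l66 (.c (nat_lit 2503) l66 (.c (nat_lit 2537) l54 (.c (nat_lit 2718) l98 (.c (nat_lit 2596) l56 (.c (nat_lit 2656) l66 (.c (nat_lit 2684) l59 (.c (nat_lit 2648) l75 (.c (nat_lit 2460) l46 (.c (nat_lit 2462) l56 (.c (nat_lit 2305) l56 (.c (nat_lit 2558) l66 (.c (nat_lit 2728) l98 (.c (nat_lit 2419) l46 (.c (nat_lit 2279) l46 (.c (nat_lit 2680) l56 .e)))))))))))))))))))))))))))))))))))))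
noncomputable def u3_317 : St := (.c (nat_lit 2718) l89 (.c (nat_lit 2621) l55 (.c (nat_lit 2718) l93 (.c (nat_lit 2718) l61 (.c (nat_lit 2679) l47 (.c (nat_lit 2615) l45 (.c (nat_lit 2606) l45 (.c (nat_lit 2606) l55 (.c (nat_lit 2492) l45 (.c (nat_lit 2718) l85 (.c (nat_lit 2008) l47 (.c (nat_lit 2613) l43 (.c (nat_lit 2616) l43 (.c (nat_lit 2681) l55 (.c (nat_lit 2672) l43 (.c (nat_lit 2620) l43 (.c (nat_lit 2478) l45 (.c (nat_lit 2265) l43 (.c (nat_lit 2618) l55 (.c (nat_lit 2718) l122 .e))))))))))))))))))))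
noncomputable def u3_318 : St := (.c (nat_lit 2239) l58 (.c (nat_lit 2468) l44 (.c (nat_lit 2438) l44 (.c (nat_lit 2466) l45 (.c (nat_lit 2492) l61 (.c (nat_lit 2272) l58 (.c (nat_lit 2226) l45 (.c (nat_lit 2272) l45 (.c (nat_lit 2262) l44 (.c (nat_lit 2239) l45 (.c (nat_lit 2544) l44 (.c (nat_lit 2466) l58 (.c (nat_lit 2226) l58 (.c (nat_lit 2282) l61 .e))))))))))))))
noncomputable def u3_319 : St := (.c (nat_lit 2384) l58 (.c (nat_lit 2443) l58 (.c (nat_lit 2196) l47 (.c (nat_lit 2468) l44 (.c (nat_lit 2196) l62 (.c (nat_lit 1854) l47 (.c (nat_lit 2438) l44 (.c (nat_lit 1859) l138 (.c (nat_lit 1109) l58 (.c (nat_lit 1109) l45 (.c (nat_lit 2186) l45 (.c (nat_lit 2513) l45 (.c (nat_lit 2513) l82 (.c (nat_lit 2448) l61 (.c (nat_lit 2443) l55 (.c (nat_lit 2513) l55 (.c (nat_lit 2492) l61 (.c (nat_lit 2652) l55 (.c (nat_lit 1891) l47 (.c (nat_lit 2652) l195 (.c (nat_lit 2652)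 l253 (.c (nat_lit 2186) l55 (.c (nat_lit 2448) l85 (.c (nat_lit 2513) l58 (.c (nat_lit 2384) l82 (.c (nat_lit 2443) l82 .e))))))))))))))))))))))))))
noncomputable def u3_320 : St := (.c (nat_lit 2239) l58 (.c (nat_lit 2468) l44 (.c (nat_lit 2438) l44 (.c (nat_lit 1852) l45 (.c (nat_lit 2466) l45 (.c (nat_lit 2492) l61 (.c (nat_lit 2272) l58 (.c (nat_lit 2226) l45 (.c (nat_lit 2272) l45 (.c (nat_lit 2262) l44 (.c (nat_lit 2239) l45 (.c (nat_lit 2544) l44 (.c (nat_lit 2466) l58 (.c (nat_lit 2226) l58 (.c (nat_lit 1852) l55 .e)))))))))))))))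
noncomputable def u3_321 : St := (.c (nat_lit 2239) l58 (.c (nat_lit 2468) l44 (.c (nat_lit 2438) l44 (.c (nat_lit 2466) l45 (.c (nat_lit 2492) l61 (.c (nat_lit 2272) l58 (.c (nat_lit 2226) l45 (.c (nat_lit 2272) l45 (.c (nat_lit 2262) l44 (.c (nat_lit 2239) l45 (.c (nat_lit 2544) l44 (.c (nat_lit 2466) l58 (.c (nat_lit 2226) l58 .e)))))))))))))
noncomputable def u3_322 : St := (.c (nat_lit 2573) l60 (.c (nat_lit 2415) l55 (.c (nat_lit 2415) l195 (.c (nat_lit 2573) l89 (.c (nat_lit 1154) l45 (.c (nat_lit 1947) l45 (.c (nat_lit 1213) l45 (.c (nat_lit 2652) l55 (.c (nat_lit 2701) l135 (.c (nat_lit 1872) l45 (.c (nat_lit 1858) l45 (.c (nat_lit 2267) l45 (.c (nat_lit 2652) l253 (.c (nat_lit 2281) l55 (.c (nat_lit 2415) l58 (.c (nat_lit 2720) l195 (.c (nat_lit 2659) l187 (.c (nat_lit 2701) l62 (.c (nat_lit 2701) l86 (.c (nat_lit 2438) l45 .e))))))))))))))))))))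
noncomputable def u3_323 : St := (.c (nat_lit 1768) l58 (.c (nat_lit 1947) l45 (.c (nat_lit 2698) l138 (.c (nat_lit 2610) l45 (.c (nat_lit 2486) l45 (.c (nat_lit 1213) l45 (.c (nat_lit 2296) l62 (.c (nat_lit 2592) l60 (.c (nat_lit 2513) l55 (.c (nat_lit 2705) l191 (.c (nat_lit 2503) l62 (.c (nat_lit 2434) l55 (.c (nat_lit 2445) l60 (.c (nat_lit 2701) l135 (.c (nat_lit 2655) l62 (.c (nat_lit 2282) l55 (.c (nat_lit 2698) l89 (.c (nat_lit 2226) l55 (.c (nat_lit 2226) l45 (.c (nat_lit 2652) l82 (.c (nat_lit 2698) l135 (.c (nat_lit 2438) l58 (.c (nat_lit 2727) l132 (.c (nat_lit 1872) l45 (.c (nat_lit 1858) l45 (.c (nat_lit 2272) l45 (.c (nat_lit 2713) l90 (.c (nat_lit 1872) l55 (.c (nat_lit 2267) l45 (.c (nat_lit 2282) l58 (.c (nat_lit 2384) l187 (.c (nat_lit 2557) l85 (.c (nat_lit 2652) l195 (.c (nat_lit 2262) l62 (.c (nat_lit 2439) l62 .e)))))))))))))))))))))))))))))))))))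
noncomputable def u3_324 : St := (.c (nat_lit 2719) l89 (.c (nat_lit 2718) l85 (.c (nat_lit 2630) l61 (.c (nat_lit 2493) l44 (.c (nat_lit 2446) l55 (.c (nat_lit 2589) l60 (.c (nat_lit 2694) l82 (.c (nat_lit 2725) l185 (.c (nat_lit 2718) l128 (.c (nat_lit 1852) l45 (.c (nat_lit 2593) l61 (.c (nat_lit 2681) l61 (.c (nat_lit 2585) l61 (.c (nat_lit 2719) l55 (.c (nat_lit 2688) l45 (.c (nat_lit 2699) l55 (.c (nat_lit 2698) l60 (.c (nat_lit 2720) l82 (.c (nat_lit 2628) l45 (.c (nat_lit 2706) l82 (.c (nat_lit 2628) l58 (.c (nat_lit 1109) l45 (.c (nat_lit 2719) l195 (.c (nat_lit 2513) l82 (.c (nat_lit 2415) l195 (.c (nat_lit 2573) l89 (.c (nat_lit 2448) l61 (.c (nat_lit 2443) l55 (.c (nat_lit 2680) l132 (.c (nat_lit 2592) l55 (.c (nat_lit 2401) l44 (.c (nat_lit 2442) l43 (.c (nat_lit 2491) l43 (.c (nat_lit 2624) l60 (.c (nat_lit 2625) l61 (.c (nat_lit 2645) l45 (.c (nat_lit 2719) l82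 (.c (nat_lit 2610) l58 (.c (nat_lit 2655) l57 (.c (nat_lit 2719) l138 u3_323))))))))))))))))))))))))))))))))))))))))
noncomputable def u3_325 : St := (.c (nat_lit 2694) l55 (.c (nat_lit 2557) l61 (.c (nat_lit 2384) l58 (.c (nat_lit 2279) l55 (.c (nat_lit 2731) l82 (.c (nat_lit 2620) l93 (.c (nat_lit 2731) l132 (.c (nat_lit 2706) l132 (.c (nat_lit 2573) l60 (.c (nat_lit 2415) l55 (.c (nat_lit 2718) l89 (.c (nat_lit 2698) l47 (.c (nat_lit 2718) l93 (.c (nat_lit 2727) l82 (.c (nat_lit 2718) l61 (.c (nat_lit 2731) l187 (.c (nat_lit 2591) l44 (.c (nat_lit 2685) l62 (.c (nat_lit 2591) l61 (.c (nat_lit 2443) l58 (.c (nat_lit 2719) l60 (.c (nat_lit 2585) l44 (.c (nat_lit 2434) l58 (.c (nat_lit 2688) l55 (.c (nat_lit 2705) l82 (.c (nat_lit 763) l55 (.c (nat_lit 2725) l85 (.c (nat_lit 2477) l47 (.c (nat_lit 2725) l121 (.c (nat_lit 2439) l47 (.c (nat_lit 2589) l43 (.c (nat_lit 2684) l61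 (.c (nat_lit 2720) l58 (.c (nat_lit 2593) l58 (.c (nat_lit 2280) l47 (.c (nat_lit 2680) l82 (.c (nat_lit 2683) l60 (.c (nat_lit 2499) l44 (.c (nat_lit 2274) l47 (.c (nat_lit 2462) l55 u3_324))))))))))))))))))))))))))))))))))))))))
noncomputable def u3_326 : St := (.c (nat_lit 2557) l61 (.c (nat_lit 2698) l86 (.c (nat_lit 2652) l58 (.c (nat_lit 1154) l45 (.c (nat_lit 2698) l138 (.c (nat_lit 2698) l62 (.c (nat_lit 2652) l55 (.c (nat_lit 2699) l253 (.c (nat_lit 2226) l45 (.c (nat_lit 2652) l82 (.c (nat_lit 1872) l45 (.c (nat_lit 1858) l45 (.c (nat_lit 2557) l85 (.c (nat_lit 2187) l45 .e))))))))))))))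
noncomputable def u3_327 : St := (.c (nat_lit 1768) l58 (.c (nat_lit 1880) l43 (.c (nat_lit 1989) l45 (.c (nat_lit 2569) l45 (.c (nat_lit 2575) l58 (.c (nat_lit 2260) l45 (.c (nat_lit 2560) l43 (.c (nat_lit 1947) l45 (.c (nat_lit 2698) l138 (.c (nat_lit 2584) l58 (.c (nat_lit 2486) l45 (.c (nat_lit 2493) l62 (.c (nat_lit 1213) l45 (.c (nat_lit 2265) l43 (.c (nat_lit 2440) l55 (.c (nat_lit 2191) l45 (.c (nat_lit 2628) l55 (.c (nat_lit 2513) l55 (.c (nat_lit 2705) l191 (.c (nat_lit 2503) l62 (.c (nat_lit 2434) l55 (.c (nat_lit 2492) l61 (.c (nat_lit 2445) l60 (.c (nat_lit 2652) l55 (.c (nat_lit 2624) l82 (.c (nat_lit 2701) l135 (.c (nat_lit 2655) l62 (.c (nat_lit 2272) l58 (.c (nat_lit 2282) l55 (.c (nat_lit 2114) l43 (.c (nat_lit 2698) l89 (.c (nat_lit 2700) l82 (.c (nat_lit 2226) l55 (.c (nat_lit 2488) l58 (.c (nat_lit 2496) l58 (.c (nat_lit 2698) l135 (.c (nat_lit 2727) l132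 (.c (nat_lit 1872) l55 (.c (nat_lit 2704) l60 .e)))))))))))))))))))))))))))))))))))))))
noncomputable def u3_328 : St := (.c (nat_lit 2573) l89 (.c (nat_lit 1132) l45 (.c (nat_lit 1529) l58 (.c (nat_lit 2593) l82 (.c (nat_lit 2443) l55 (.c (nat_lit 2613) l43 (.c (nat_lit 2616) l43 (.c (nat_lit 2684) l82 (.c (nat_lit 2620) l43 (.c (nat_lit 2491) l43 (.c (nat_lit 2695) l134 (.c (nat_lit 2624) l55 (.c (nat_lit 2644) l135 (.c (nat_lit 2603) l43 (.c (nat_lit 2354) l55 (.c (nat_lit 2625) l58 (.c (nat_lit 2444) l55 (.c (nat_lit 2318) l45 (.c (nat_lit 2383) l47 (.c (nat_lit 2160) l47 (.c (nat_lit 2389) l44 (.c (nat_lit 2553) l45 (.c (nat_lit 1875) l45 (.c (nat_lit 2719) l82 (.c (nat_lit 2719) l138 (.c (nat_lit 2430) l44 (.c (nat_lit 1994) l47 (.c (nat_lit 1853) l45 (.c (nat_lit 2612) l62 (.c (nat_lit 2633) l55 (.c (nat_lit 2718) l121 (.c (nat_lit 2411) l47 (.c (nat_lit 2304) l44 (.c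 (nat_lit 2356) l43 (.c (nat_lit 2561) l45 (.c (nat_lit 1889) l45 (.c (nat_lit 2179) l45 (.c (nat_lit 2205) l45 (.c (nat_lit 2109) l45 (.c (nat_lit 1542) l45 u3_327))))))))))))))))))))))))))))))))))))))))
noncomputable def u3_329 : St := (.c (nat_lit 2593) l58 (.c (nat_lit 2440) l45 (.c (nat_lit 2680) l82 (.c (nat_lit 2656) l55 (.c (nat_lit 2728) l89 (.c (nat_lit 2684) l58 (.c (nat_lit 2715) l60 (.c (nat_lit 2541) l58 (.c (nat_lit 2356) l44 (.c (nat_lit 2563) l44 (.c (nat_lit 2265) l44 (.c (nat_lit 1894) l44 (.c (nat_lit 2461) l44 (.c (nat_lit 2455) l43 (.c (nat_lit 2005) l62 (.c (nat_lit 2468) l44 (.c (nat_lit 2462) l55 (.c (nat_lit 2445) l43 (.c (nat_lit 2719) l89 (.c (nat_lit 2718) l85 (.c (nat_lit 2671) l58 (.c (nat_lit 2438) l44 (.c (nat_lit 2446) l55 (.c (nat_lit 2725) l185 (.c (nat_lit 2504) l58 (.c (nat_lit 2717) l85 (.c (nat_lit 2713) l82 (.c (nat_lit 2718) l128 (.c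 (nat_lit 2645) l58 (.c (nat_lit 2303) l45 (.c (nat_lit 2448) l47 (.c (nat_lit 2587) l58 (.c (nat_lit 2655) l61 (.c (nat_lit 2576) l47 (.c (nat_lit 2584) l45 (.c (nat_lit 2699) l55 (.c (nat_lit 2698) l60 (.c (nat_lit 2628) l45 (.c (nat_lit 2706) l82 (.c (nat_lit 2513) l45 u3_328))))))))))))))))))))))))))))))))))))))))
noncomputable def u3_330 : St := (.c (nat_lit 2611) l61 (.c (nat_lit 2683) l55 (.c (nat_lit 2683) l45 (.c (nat_lit 2680) l55 (.c (nat_lit 2719) l60 (.c (nat_lit 2615) l45 (.c (nat_lit 2582) l47 (.c (nat_lit 2583) l45 (.c (nat_lit 2667) l82 (.c (nat_lit 2711) l85 (.c (nat_lit 2662) l55 (.c (nat_lit 2590) l55 (.c (nat_lit 2196) l47 (.c (nat_lit 2583) l55 (.c (nat_lit 2705) l82 (.c (nat_lit 2730) l190 (.c (nat_lit 763) l55 (.c (nat_lit 2730) l131 (.c (nat_lit 2633) l45 (.c (nat_lit 2690) l60 (.c (nat_lit 2297) l45 (.c (nat_lit 2643) l62 (.c (nat_lit 2717) l62 (.c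 (nat_lit 2714) l60 (.c (nat_lit 2505) l58 (.c (nat_lit 2656) l58 (.c (nat_lit 2656) l45 (.c (nat_lit 2725) l85 (.c (nat_lit 2725) l121 (.c (nat_lit 2683) l58 (.c (nat_lit 2603) l47 (.c (nat_lit 1894) l47 (.c (nat_lit 2589) l43 (.c (nat_lit 2661) l60 (.c (nat_lit 2493) l47 (.c (nat_lit 2613) l47 (.c (nat_lit 2668) l58 (.c (nat_lit 2263) l55 (.c (nat_lit 2211) l45 (.c (nat_lit 2208) l55 u3_329))))))))))))))))))))))))))))))))))))))))
noncomputable def u3_331 : St := (.c (nat_lit 2298) l47 (.c (nat_lit 2590) l58 (.c (nat_lit 2482) l47 (.c (nat_lit 2704) l43 (.c (nat_lit 2005) l60 (.c (nat_lit 1980) l45 (.c (nat_lit 1870) l45 (.c (nat_lit 2279) l55 (.c (nat_lit 2686) l43 (.c (nat_lit 2540) l47 (.c (nat_lit 2731) l82 (.c (nat_lit 2730) l95 (.c (nat_lit 2715) l43 (.c (nat_lit 2711) l61 (.c (nat_lit 2694) l58 (.c (nat_lit 2730) l88 (.c (nat_lit 2731) l132 (.c (nat_lit 2668) l45 (.c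 (nat_lit 2573) l60 (.c (nat_lit 2718) l89 (.c (nat_lit 2576) l44 (.c (nat_lit 1847) l45 (.c (nat_lit 2380) l47 (.c (nat_lit 2621) l55 (.c (nat_lit 2522) l55 (.c (nat_lit 2698) l47 (.c (nat_lit 2693) l57 (.c (nat_lit 2730) l126 (.c (nat_lit 2616) l47 (.c (nat_lit 2718) l93 (.c (nat_lit 2727) l82 (.c (nat_lit 2731) l187 (.c (nat_lit 2730) l194 (.c (nat_lit 2661) l43 (.c (nat_lit 2591) l47 (.c (nat_lit 2585) l47 (.c (nat_lit 2620) l47 (.c (nat_lit 2710) l58 (.c (nat_lit 2664) l55 (.c (nat_lit 2706) l55 u3_330))))))))))))))))))))))))))))))))))))))))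
noncomputable def u3_332 : St := (.c (nat_lit 2279) l55 (.c (nat_lit 2620) l93 (.c (nat_lit 2685) l62 (.c (nat_lit 2504) l55 (.c (nat_lit 2477) l47 (.c (nat_lit 2684) l61 (.c (nat_lit 2280) l47 (.c (nat_lit 2683) l60 (.c (nat_lit 2499) l44 (.c (nat_lit 2274) l47 (.c (nat_lit 2503) l47 (.c (nat_lit 2504) l58 (.c (nat_lit 2623) l61 (.c (nat_lit 2713) l82 (.c (nat_lit 2285) l47 (.c (nat_lit 2614) l45 (.c (nat_lit 2491) l43 (.c (nat_lit 2624) l55 (.c (nat_lit 2496) l45 (.c (nat_lit 2624) l60 (.c (nat_lit 2625) l58 (.c (nat_lit 2437) l43 (.c (nat_lit 2486) l45 (.c (nat_lit 2296) l62 (.c (nat_lit 2614) l55 (.c (nat_lit 2491) l55 (.c (nat_lit 2226) l55 (.c (nat_lit 2226) l45 (.c (nat_lit 2713) l132 (.c (nat_lit 2272) l45 (.c (nat_lit 2713) l90 .e)))))))))))))))))))))))))))))))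
noncomputable def u3_333 : St := (.c (nat_lit 2694) l55 (.c (nat_lit 2731) l82 (.c (nat_lit 2731) l132 (.c (nat_lit 2573) l60 (.c (nat_lit 2718) l89 (.c (nat_lit 2718) l93 (.c (nat_lit 2727) l82 (.c (nat_lit 2718) l61 (.c (nat_lit 2731) l187 (.c (nat_lit 2688) l55 (.c (nat_lit 2720) l58 (.c (nat_lit 2718) l85 (.c (nat_lit 2694) l82 (.c (nat_lit 2718) l128 (.c (nat_lit 2645) l58 (.c (nat_lit 2688) l45 (.c (nat_lit 2699) l55 (.c (nat_lit 2698) l60 (.c (nat_lit 2720) l82 (.c (nat_lit 2628) l45 (.c (nat_lit 2652) l58 (.c (nat_lit 2573) l89 (.c (nat_lit 2719) l82 (.c (nat_lit 2486) l45 (.c (nat_lit 2191) l45 (.c (nat_lit 2628) l55 (.c (nat_lit 2541) l45 (.c (nat_lit 2699) l253 (.c (nat_lit 2701) l135 (.c (nat_lit 2698) l89 (.c (nat_lit 2652) l82 (.c (nat_lit 2727) l132 .e))))))))))))))))))))))))))))))))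
noncomputable def u3_334 : St := (.c (nat_lit 2279) l55 (.c (nat_lit 2698) l86 (.c (nat_lit 2698) l47 (.c (nat_lit 2589) l43 (.c (nat_lit 2493) l47 (.c (nat_lit 2593) l58 (.c (nat_lit 2440) l45 (.c (nat_lit 2503) l47 (.c (nat_lit 2462) l55 (.c (nat_lit 2445) l43 (.c (nat_lit 2589) l60 (.c (nat_lit 2504) l58 (.c (nat_lit 2623) l61 (.c (nat_lit 2698) l60 (.c (nat_lit 2593) l82 (.c (nat_lit 2624) l55 (.c (nat_lit 2625) l61 (.c (nat_lit 1947) l45 (.c (nat_lit 2698) l138 (.c (nat_lit 2460) l45 (.c (nat_lit 2486) l45 (.c (nat_lit 2493) l62 (.c (nat_lit 1213) l45 (.c (nat_lit 2698) l62 (.c (nat_lit 2440) l55 (.c (nat_lit 2592) l60 (.c (nat_lit 2503) l62 (.c (nat_lit 2652) l55 (.c (nat_lit 2624) l82 (.c (nat_lit 2699) l253 (.c (nat_lit 2272) l58 (.c (nat_lit 2282) l55 (.c (nat_lit 2698) l89 (.c (nat_lit 2226) l55 (.c (nat_lit 2488) l58 (.c (nat_lit 2698) l135 (.c (nat_lit 2438) l58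 .e)))))))))))))))))))))))))))))))))))))
noncomputable def u3_335 : St := (.c (nat_lit 2279) l55 (.c (nat_lit 2488) l55 (.c (nat_lit 2724) l82 (.c (nat_lit 2683) l55 (.c (nat_lit 2683) l45 (.c (nat_lit 2680) l55 (.c (nat_lit 2606) l55 (.c (nat_lit 2656) l45 (.c (nat_lit 2683) l58 (.c (nat_lit 2613) l62 (.c (nat_lit 2613) l47 (.c (nat_lit 2211) l45 (.c (nat_lit 2644) l60 (.c (nat_lit 2503) l47 (.c (nat_lit 2462) l55 (.c (nat_lit 2445) l43 (.c (nat_lit 2623) l61 (.c (nat_lit 2713) l82 (.c (nat_lit 2616) l43 (.c (nat_lit 2616) l60 (.c (nat_lit 1875) l45 (.c (nat_lit 2625) l61 (.c (nat_lit 2645) l45 (.c (nat_lit 2466) l45 (.c (nat_lit 2478) l45 (.c (nat_lit 1889) l45 (.c (nat_lit 2179) l45 (.c (nat_lit 2205) l45 (.c (nat_lit 2647) l45 (.c (nat_lit 2610) l45 (.c (nat_lit 2191) l45 (.c (nat_lit 2445) l60 (.c (nat_lit 2282) l55 (.c (nat_lit 2226) l55 (.c (nat_lit 2724) l132 .e)))))))))))))))))))))))))))))))))))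
noncomputable def u3_336 : St := (.c (nat_lit 2513) l55 (.c (nat_lit 2705) l191 (.c (nat_lit 2541) l45 (.c (nat_lit 2434) l55 (.c (nat_lit 2445) l60 (.c (nat_lit 2652) l55 (.c (nat_lit 2624) l82 (.c (nat_lit 2655) l62 (.c (nat_lit 2272) l58 (.c (nat_lit 2712) l183 (.c (nat_lit 2698) l89 (.c (nat_lit 2488) l58 (.c (nat_lit 2496) l58 (.c (nat_lit 2713) l132 (.c (nat_lit 2652) l82 (.c (nat_lit 2702) l60 .e))))))))))))))))
noncomputable def u3_337 : St := (.c (nat_lit 2719) l89 (.c (nat_lit 2720) l85 (.c (nat_lit 2695) l61 (.c (nat_lit 2493) l44 (.c (nat_lit 2644) l62 (.c (nat_lit 2504) l58 (.c (nat_lit 2713) l82 (.c (nat_lit 2645) l58 (.c (nat_lit 2448) l47 (.c (nat_lit 1852) l45 (.c (nat_lit 1862) l58 (.c (nat_lit 2593) l61 (.c (nat_lit 2681) l61 (.c (nat_lit 2585) l61 (.c (nat_lit 2719) l55 (.c (nat_lit 2698) l60 (.c (nat_lit 2628) l45 (.c (nat_lit 2706) l82 (.c (nat_lit 2628)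 l58 (.c (nat_lit 1109) l45 (.c (nat_lit 2186) l45 (.c (nat_lit 2719) l195 (.c (nat_lit 2513) l82 (.c (nat_lit 2415) l195 (.c (nat_lit 2448) l62 (.c (nat_lit 2593) l82 (.c (nat_lit 2443) l55 (.c (nat_lit 2680) l132 (.c (nat_lit 2592) l55 (.c (nat_lit 2401) l44 (.c (nat_lit 2625) l58 (.c (nat_lit 2625) l61 (.c (nat_lit 2645) l45 (.c (nat_lit 2719) l138 (.c (nat_lit 2648) l61 (.c (nat_lit 1768) l58 (.c (nat_lit 2698) l138 (.c (nat_lit 2493) l62 (.c (nat_lit 2440) l55 (.c (nat_lit 2592) l60 u3_336))))))))))))))))))))))))))))))))))))))))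
noncomputable def u3_338 : St := (.c (nat_lit 2727) l61 (.c (nat_lit 2731) l89 (.c (nat_lit 2726) l60 (.c (nat_lit 2715) l43 (.c (nat_lit 2207) l58 (.c (nat_lit 2706) l132 (.c (nat_lit 2415) l55 (.c (nat_lit 2720) l61 (.c (nat_lit 2591) l44 (.c (nat_lit 2710) l61 (.c (nat_lit 2591) l61 (.c (nat_lit 2443) l58 (.c (nat_lit 2719) l60 (.c (nat_lit 2585) l44 (.c (nat_lit 2434) l58 (.c (nat_lit 767) l58 (.c (nat_lit 2731) l138 (.c (nat_lit 2687) l43 (.c (nat_lit 2726) l138 (.c (nat_lit 2727) l85 (.c (nat_lit 2705) l82 (.c (nat_lit 763) l55 (.c (nat_lit 2504) l55 (.c (nat_lit 2712) l82 (.c (nat_lit 2492) l45 (.c (nat_lit 2493) l47 (.c (nat_lit 2691) l62 (.c (nat_lit 2691) l89 (.c (nat_lit 2630) l62 (.c (nat_lit 763) l58 (.c (nat_lit 2644) l60 (.c (nat_lit 2440) l45 (.c (nat_lit 2691) l85 (.c (nat_lit 2680) l82 (.c (nat_lit 2631) l60 (.c (nat_lit 2728) l89 (.c (nat_lit 2715) l60 (.c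 (nat_lit 2213) l55 (.c (nat_lit 2462) l55 (.c (nat_lit 2445) l43 u3_337))))))))))))))))))))))))))))))))))))))))
noncomputable def u3_339 : St := (.c (nat_lit 2279) l55 (.c (nat_lit 2712) l82 (.c (nat_lit 2589) l43 (.c (nat_lit 2493) l47 (.c (nat_lit 2680) l82 (.c (nat_lit 2503) l47 (.c (nat_lit 2589) l60 (.c (nat_lit 2623) l61 (.c (nat_lit 2698) l60 (.c (nat_lit 2680) l132 (.c (nat_lit 2624) l55 (.c (nat_lit 2492) l58 (.c (nat_lit 2625) l61 (.c (nat_lit 2698) l138 (.c (nat_lit 2460) l45 (.c (nat_lit 2486) l45 (.c (nat_lit 2493) l62 (.c (nat_lit 2592) l60 (.c (nat_lit 2191) l45 (.c (nat_lit 2503) l62 (.c (nat_lit 2445) l60 (.c (nat_lit 2624) l82 (.c (nat_lit 2272) l58 (.c (nat_lit 2712) l183 (.c (nat_lit 2698) l89 (.c (nat_lit 2226) l55 (.c (nat_lit 2488) l58 .e)))))))))))))))))))))))))))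
noncomputable def u3_340 : St := (.c (nat_lit 2488) l55 (.c (nat_lit 2621) l55 (.c (nat_lit 2679) l47 (.c (nat_lit 2492) l45 (.c (nat_lit 2623) l61 (.c (nat_lit 2008) l47 (.c (nat_lit 2672) l43 (.c (nat_lit 2623) l47 (.c (nat_lit 2624) l60 (.c (nat_lit 2603) l43 (.c (nat_lit 2616) l60 (.c (nat_lit 2356) l43 (.c (nat_lit 2418) l43 (.c (nat_lit 2618) l55 (.c (nat_lit 2623) l62 .e)))))))))))))))
noncomputable def u3_341 : St := (.c (nat_lit 2731) l82 (.c (nat_lit 2731) l132 (.c (nat_lit 2699) l58 (.c (nat_lit 2720) l61 (.c (nat_lit 2731) l187 (.c (nat_lit 2589) l43 (.c (nat_lit 2720) l58 (.c (nat_lit 2445) l43 (.c (nat_lit 2720) l85 (.c (nat_lit 2589) l60 (.c (nat_lit 2504) l58 (.c (nat_lit 2645) l58 (.c (nat_lit 2688) l45 (.c (nat_lit 2614) l45 (.c (nat_lit 2699) l55 (.c (nat_lit 2720) l82 (.c (nat_lit 2628) l45 (.c (nat_lit 2719) l195 (.c (nat_lit 2513) l45 (.c (nat_lit 2699)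 l82 (.c (nat_lit 2719) l82 (.c (nat_lit 2610) l58 (.c (nat_lit 2655) l57 (.c (nat_lit 2719) l138 (.c (nat_lit 2466) l45 (.c (nat_lit 2698) l138 (.c (nat_lit 2610) l45 (.c (nat_lit 2731) l195 (.c (nat_lit 2592) l60 (.c (nat_lit 2614) l55 .e))))))))))))))))))))))))))))))
noncomputable def u3_342 : St := (.c (nat_lit 1768) l58 (.c (nat_lit 2698) l138 (.c (nat_lit 2698) l62 (.c (nat_lit 2191) l45 (.c (nat_lit 2513) l55 (.c (nat_lit 2541) l45 (.c (nat_lit 2434) l55 .e)))))))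
noncomputable def u3_343 : St := (.c (nat_lit 2207) l58 (.c (nat_lit 2706) l132 (.c (nat_lit 2415) l55 (.c (nat_lit 2698) l86 (.c (nat_lit 2591) l44 (.c (nat_lit 2591) l61 (.c (nat_lit 2443) l58 (.c (nat_lit 2585) l44 (.c (nat_lit 2434) l58 (.c (nat_lit 767) l58 (.c (nat_lit 763) l55 (.c (nat_lit 763) l58 (.c (nat_lit 2593) l58 (.c (nat_lit 2213) l55 (.c (nat_lit 2630) l61 (.c (nat_lit 2493) l44 (.c (nat_lit 2448) l47 (.c (nat_lit 1852) l45 (.c (nat_lit 1862) l58 (.c (nat_lit 2593) l61 (.c (nat_lit 2439) l44 (.c (nat_lit 2587) l58 (.c (nat_lit 2655) l61 (.c (nat_lit 2681) l61 (.c (nat_lit 2585) l61 (.c (nat_lit 2719) l55 (.c (nat_lit 2628) l45 (.c (nat_lit 2706) l82 (.c (nat_lit 2628) l58 (.c (nat_lit 1109) l45 (.c (nat_lit 2186) l45 (.c (nat_lit 2719) l195 (.c (nat_lit 2652) l58 (.c (nat_lit 2513) l82 (.c (nat_lit 2415) l195 (.c (nat_lit 2448) l62 (.c (nat_lit 2443) l55 (.c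 (nat_lit 2592) l55 (.c (nat_lit 2401) l44 (.c (nat_lit 1154) l45 u3_342))))))))))))))))))))))))))))))))))))))))
noncomputable def u3_344 : St := (.c (nat_lit 2731) l82 (.c (nat_lit 2731) l132 (.c (nat_lit 2731) l187 (.c (nat_lit 2720) l58 (.c (nat_lit 2688) l45 (.c (nat_lit 2720) l82 (.c (nat_lit 2628) l45 (.c (nat_lit 2719) l195 (.c (nat_lit 2513) l45 (.c (nat_lit 2645) l45 (.c (nat_lit 2719) l82 (.c (nat_lit 2698) l138 (.c (nat_lit 2731) l195 .e)))))))))))))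
noncomputable def u3_345 : St := (.c (nat_lit 2590) l59 (.c (nat_lit 2478) l46 (.c (nat_lit 2446) l46 (.c (nat_lit 2717) l75 (.c (nat_lit 2664) l59 (.c (nat_lit 2727) l83 (.c (nat_lit 2727) l133 (.c (nat_lit 2593) l59 (.c (nat_lit 2419) l59 (.c (nat_lit 2628) l46 (.c (nat_lit 2694) l46 (.c (nat_lit 1944) l46 (.c (nat_lit 2553) l46 (.c (nat_lit 2720) l59 (.c (nat_lit 2427) l46 (.c (nat_lit 2642) l54 (.c (nat_lit 2515) l51 (.c (nat_lit 2391) l75 (.c (nat_lit 2655) l75 (.c (nat_lit 2207) l46 (.c (nat_lit 2597) l46 (.c (nat_lit 2694) l56 (.c (nat_lit 2547) l51 (.c (nat_lit 2369) l51 (.c (nat_lit 2533) l51 (.c (nat_lit 2537) l54 (.c (nat_lit 2699) l83 (.c (nat_lit 2626) l51 (.c (nat_lit 2717) l180 (.c (nat_lit 2474) l46 (.c (nat_lit 2637) l46 (.c (nat_lit 2715) l83 .e))))))))))))))))))))))))))))))))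
noncomputable def u3_346 : St := (.c (nat_lit 2478) l46 (.c (nat_lit 2693) l59 (.c (nat_lit 2692) l59 (.c (nat_lit 2731) l208 (.c (nat_lit 2726) l208 (.c (nat_lit 2727) l83 (.c (nat_lit 2692) l56 (.c (nat_lit 2695) l75 (.c (nat_lit 2409) l54 (.c (nat_lit 2726) l158 (.c (nat_lit 2553) l46 (.c (nat_lit 2642) l54 (.c (nat_lit 2388) l46 (.c (nat_lit 2647) l46 (.c (nat_lit 2645) l46 (.c (nat_lit 2421) l59 (.c (nat_lit 2727) l189 (.c (nat_lit 2474) l46 (.c (nat_lit 1789) l46 (.c (nat_lit 2731) l158 .e))))))))))))))))))))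
noncomputable def u3_347 : St := (.c (nat_lit 2443) l74 (.c (nat_lit 2721) l160 (.c (nat_lit 1841) l42 (.c (nat_lit 2732) l169 (.c (nat_lit 2732) l36 (.c (nat_lit 2707) l53 (.c (nat_lit 2589) l42 (.c (nat_lit 2630) l52 (.c (nat_lit 2723) l74 (.c (nat_lit 2732) l28 (.c (nat_lit 2708) l118 (.c (nat_lit 2732) l173 (.c (nat_lit 2605) l49 (.c (nat_lit 2651) l42 (.c (nat_lit 1781) l42 (.c (nat_lit 2605) l48 (.c (nat_lit 2597) l52 (.c (nat_lit 2732) l40 .e))))))))))))))))))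
noncomputable def u3_348 : St := (.c (nat_lit 2724) l179 (.c (nat_lit 2298) l42 (.c (nat_lit 2717) l74 (.c (nat_lit 2727) l78 (.c (nat_lit 2732) l288 (.c (nat_lit 2731) l235 (.c (nat_lit 2732) l27 (.c (nat_lit 2194) l160 (.c (nat_lit 2727) l74 (.c (nat_lit 2732) l14 (.c (nat_lit 2732) l118 (.c (nat_lit 2732) l168 (.c (nat_lit 2732) l20 .e)))))))))))))
noncomputable def u3_349 : St := (.c (nat_lit 2574) l45 (.c (nat_lit 2539) l45 (.c (nat_lit 2712) l84 (.c (nat_lit 2656) l55 (.c (nat_lit 2683) l60 (.c (nat_lit 2631) l60 (.c (nat_lit 2563) l44 (.c (nat_lit 1894) l44 (.c (nat_lit 2461) l44 (.c (nat_lit 2445) l43 (.c (nat_lit 2493) l44 (.c (nat_lit 2438) l44 (.c (nat_lit 2717) l85 (.c (nat_lit 2717) l90 (.c (nat_lit 2008) l47 (.c (nat_lit 2593) l61 (.c (nat_lit 2641) l55 (.c (nat_lit 2576) l47 (.c (nat_lit 1132) l45 (.c (nat_lit 1529) l58 (.c (nat_lit 2672) l43 (.c (nat_lit 2555)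 l55 (.c (nat_lit 2571) l55 (.c (nat_lit 2624) l60 (.c (nat_lit 2732) l199 (.c (nat_lit 2444) l55 (.c (nat_lit 2356) l47 (.c (nat_lit 2414) l47 (.c (nat_lit 2648) l61 (.c (nat_lit 2411) l47 (.c (nat_lit 2560) l62 (.c (nat_lit 2390) l55 (.c (nat_lit 2732) l131 .e)))))))))))))))))))))))))))))))))
noncomputable def u3_350 : St := (.c (nat_lit 2387) l47 (.c (nat_lit 2388) l58 (.c (nat_lit 2660) l58 (.c (nat_lit 2421) l47 (.c (nat_lit 2211) l58 (.c (nat_lit 1870) l45 (.c (nat_lit 2732) l119 (.c (nat_lit 2662) l58 (.c (nat_lit 2723) l88 (.c (nat_lit 2401) l47 (.c (nat_lit 2576) l44 (.c (nat_lit 2558) l55 (.c (nat_lit 1847) l45 (.c (nat_lit 2380) l47 (.c (nat_lit 2559) l45 (.c (nat_lit 2732) l201 (.c (nat_lit 2732) l126 (.c (nat_lit 2679) l47 (.c (nat_lit 2603) l44 (.c (nat_lit 2445) l47 (.c (nat_lit 2678) l55 (.c (nat_lit 2732) l123 (.c (nat_lit 1868) l45 (.c (nat_lit 2668) l61 (.c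 (nat_lit 2212) l44 (.c (nat_lit 2429) l45 (.c (nat_lit 2723) l84 (.c (nat_lit 2632) l58 (.c (nat_lit 2717) l62 (.c (nat_lit 2717) l61 (.c (nat_lit 2481) l45 (.c (nat_lit 2697) l55 (.c (nat_lit 2656) l58 (.c (nat_lit 2647) l60 (.c (nat_lit 2641) l58 (.c (nat_lit 2263) l55 (.c (nat_lit 2211) l45 (.c (nat_lit 2653) l55 (.c (nat_lit 2208) l55 (.c (nat_lit 2705) l88 u3_349))))))))))))))))))))))))))))))))))))))))
noncomputable def u3_351 : St := (.c (nat_lit 1870) l45 (.c (nat_lit 2686) l43 (.c (nat_lit 2576) l44 (.c (nat_lit 1847) l45 (.c (nat_lit 2693) l57 (.c (nat_lit 2730) l126 (.c (nat_lit 2679) l47 (.c (nat_lit 2730) l190 (.c (nat_lit 2678) l55 (.c (nat_lit 2730) l131 (.c (nat_lit 2730) l123 (.c (nat_lit 2640) l61 (.c (nat_lit 2690) l60 (.c (nat_lit 2631) l43 (.c (nat_lit 2717) l61 (.c (nat_lit 2714) l60 (.c (nat_lit 2505) l58 (.c (nat_lit 2730) l199 (.c (nat_lit 2647) l60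 (.c (nat_lit 2263) l55 (.c (nat_lit 2208) l55 (.c (nat_lit 2571) l82 (.c (nat_lit 2683) l60 (.c (nat_lit 2718) l85 (.c (nat_lit 2717) l90 (.c (nat_lit 2008) l47 (.c (nat_lit 2303) l45 (.c (nat_lit 2576) l47 (.c (nat_lit 2672) l43 (.c (nat_lit 2555) l55 (.c (nat_lit 2571) l55 (.c (nat_lit 2624) l60 (.c (nat_lit 2354) l55 (.c (nat_lit 2730) l119 (.c (nat_lit 1875) l45 (.c (nat_lit 1994) l47 (.c (nat_lit 2648) l61 (.c (nat_lit 2551) l44 (.c (nat_lit 2718) l121 .e)))))))))))))))))))))))))))))))))))))))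
noncomputable def u3_352 : St := (.c (nat_lit 2553) l45 (.c (nat_lit 2612) l62 .e))
noncomputable def u3_353 : St := (.c (nat_lit 2298) l47 (.c (nat_lit 2482) l47 (.c (nat_lit 1980) l45 (.c (nat_lit 1870) l45 (.c (nat_lit 2540) l47 (.c (nat_lit 2730) l95 (.c (nat_lit 2730) l88 (.c (nat_lit 1847) l45 (.c (nat_lit 2380) l47 (.c (nat_lit 2522) l55 (.c (nat_lit 2730) l126 (.c (nat_lit 2730) l194 (.c (nat_lit 2730) l190 (.c (nat_lit 2730) l131 (.c (nat_lit 2640) l61 (.c (nat_lit 2631) l43 (.c (nat_lit 2732) l197 (.c (nat_lit 2643) l62 (.c (nat_lit 2717) l62 (.c (nat_lit 2717) l61 (.c (nat_lit 2505) l58 (.c (nat_lit 2263) l55 (.c (nat_lit 2208) l55 (.c (nat_lit 2356) l44 (.c (nat_lit 2265) l44 (.c (nat_lit 2717) l85 (.c (nat_lit 2717) l90 (.c (nat_lit 2303) l45 (.c (nat_lit 2383) l44 (.c (nat_lit 1946) l58 (.c (nat_lit 1132) l45 (.c (nat_lit 2401) l44 (.c (nat_lit 2325) l45 (.c (nat_lit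 2354) l55 (.c (nat_lit 2732) l199 (.c (nat_lit 2444) l55 (.c (nat_lit 2318) l45 (.c (nat_lit 2383) l47 (.c (nat_lit 2160) l47 (.c (nat_lit 2389) l44 u3_352))))))))))))))))))))))))))))))))))))))))
noncomputable def u3_354 : St := (.c (nat_lit 2592) l55 (.c (nat_lit 2401) l44 (.c (nat_lit 2613) l43 (.c (nat_lit 2616) l43 (.c (nat_lit 2684) l82 (.c (nat_lit 2620) l43 (.c (nat_lit 2442) l43 (.c (nat_lit 2695) l134 (.c (nat_lit 2603) l43 (.c (nat_lit 2492) l58 (.c (nat_lit 2356) l47 (.c (nat_lit 2414) l47 (.c (nat_lit 2160) l47 (.c (nat_lit 2265) l47 (.c (nat_lit 2645) l45 (.c (nat_lit 2722) l137 .e))))))))))))))))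
noncomputable def u3_355 : St := (.c (nat_lit 2312) l47 (.c (nat_lit 2445) l43 (.c (nat_lit 1854) l47 (.c (nat_lit 2671) l58 (.c (nat_lit 2677) l61 (.c (nat_lit 2190) l47 (.c (nat_lit 2577) l60 (.c (nat_lit 2630) l61 (.c (nat_lit 2446) l55 (.c (nat_lit 2694) l82 (.c (nat_lit 2644) l62 (.c (nat_lit 2717) l85 (.c (nat_lit 2717) l90 (.c (nat_lit 2713) l82 (.c (nat_lit 2285) l47 (.c (nat_lit 2645) l58 (.c (nat_lit 2448) l47 (.c (nat_lit 1852) l45 (.c (nat_lit 1862) l58 (.c (nat_lit 2593) l61 (.c (nat_lit 2439) l44 (.c (nat_lit 2587) l58 (.c (nat_lit 2655) l61 (.c (nat_lit 2681) l61 (.c (nat_lit 2719) l55 (.c (nat_lit 2688) l45 (.c (nat_lit 2614) l45 (.c (nat_lit 2584) l45 (.c (nat_lit 2628) l45 (.c (nat_lit 2706) l82 (.c (nat_lit 2628) l58 (.c (nat_lit 1109) l45 (.c (nat_lit 2186) l45 (.c (nat_lit 2719) l195 (.c (nat_lit 2652) l58 (.c (nat_lit 2513) l45 (.c (nat_lit 2513) l82 (.c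 (nat_lit 2415) l195 (.c (nat_lit 2448) l62 (.c (nat_lit 2593) l82 u3_354))))))))))))))))))))))))))))))))))))))))
noncomputable def u3_356 : St := (.c (nat_lit 2667) l60 (.c (nat_lit 2590) l55 (.c (nat_lit 2729) l138 (.c (nat_lit 2691) l60 (.c (nat_lit 2640) l61 (.c (nat_lit 2631) l43 (.c (nat_lit 2717) l62 (.c (nat_lit 2717) l61 (.c (nat_lit 2725) l85 (.c (nat_lit 2725) l121 (.c (nat_lit 2732) l138 (.c (nat_lit 2665) l62 (.c (nat_lit 2492) l45 (.c (nat_lit 2716) l253 (.c (nat_lit 2683) l58 (.c (nat_lit 2606) l58 (.c (nat_lit 2603) l47 (.c (nat_lit 1894) l47 (.c (nat_lit 2439) l47 (.c (nat_lit 2661) l60 (.c (nat_lit 2493) l47 (.c (nat_lit 2688) l82 (.c (nat_lit 2670) l55 (.c (nat_lit 2613) l62 (.c (nat_lit 2691) l62 (.c (nat_lit 763) l58 (.c (nat_lit 2644) l60 (.c (nat_lit 2609) l61 (.c (nat_lit 2680) l82 (.c (nat_lit 2728) l89 (.c (nat_lit 2715) l60 (.c (nat_lit 2541) l58 (.c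 (nat_lit 2563) l44 (.c (nat_lit 2265) l44 (.c (nat_lit 1894) l44 (.c (nat_lit 2461) l44 (.c (nat_lit 2499) l44 (.c (nat_lit 2455) l43 (.c (nat_lit 2005) l62 (.c (nat_lit 2503) l47 u3_355))))))))))))))))))))))))))))))))))))))))
noncomputable def u3_357 : St := (.c (nat_lit 2694) l55 (.c (nat_lit 2688) l58 (.c (nat_lit 2727) l61 (.c (nat_lit 2577) l43 (.c (nat_lit 2005) l60 (.c (nat_lit 2677) l85 (.c (nat_lit 2731) l89 (.c (nat_lit 2670) l45 (.c (nat_lit 2726) l60 (.c (nat_lit 2715) l43 (.c (nat_lit 2722) l60 (.c (nat_lit 2694) l58 (.c (nat_lit 2207) l58 (.c (nat_lit 2401) l47 (.c (nat_lit 2732) l261 (.c (nat_lit 2706) l132 (.c (nat_lit 2691) l61 (.c (nat_lit 2415) l55 (.c (nat_lit 2380) l47 (.c (nat_lit 2621) l55 (.c (nat_lit 2616) l47 (.c (nat_lit 2671) l45 (.c (nat_lit 2661) l43 (.c (nat_lit 2591) l47 (.c (nat_lit 2591) l44 (.c (nat_lit 2620) l47 (.c (nat_lit 2683) l55 (.c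 (nat_lit 2683) l45 (.c (nat_lit 2591) l61 (.c (nat_lit 2443) l58 (.c (nat_lit 2680) l55 (.c (nat_lit 2606) l45 (.c (nat_lit 2582) l47 (.c (nat_lit 2434) l58 (.c (nat_lit 767) l58 (.c (nat_lit 2688) l55 (.c (nat_lit 2731) l138 (.c (nat_lit 2726) l138 (.c (nat_lit 2630) l47 (.c (nat_lit 2727) l85 u3_356))))))))))))))))))))))))))))))))))))))))
noncomputable def u3_358 : St := (.c (nat_lit 1870) l45 (.c (nat_lit 1847) l45 (.c (nat_lit 2730) l126 (.c (nat_lit 2679) l47 (.c (nat_lit 2730) l190 (.c (nat_lit 2678) l55 (.c (nat_lit 2730) l131 (.c (nat_lit 2730) l123 (.c (nat_lit 2640) l61 (.c (nat_lit 2631) l43 (.c (nat_lit 2717) l62 (.c (nat_lit 2505) l58 (.c (nat_lit 2730) l199 (.c (nat_lit 2647) l60 (.c (nat_lit 2263) l55 (.c (nat_lit 2539) l45 (.c (nat_lit 2683) l60 (.c (nat_lit 2717) l90 (.c (nat_lit 2008) l47 (.c (nat_lit 2303) l45 (.c (nat_lit 2672) l43 (.c (nat_lit 2624) l60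 (.c (nat_lit 2539) l58 (.c (nat_lit 2730) l119 .e))))))))))))))))))))))))
noncomputable def u3_359 : St := (.c (nat_lit 2207) l58 (.c (nat_lit 2706) l132 (.c (nat_lit 2415) l55 (.c (nat_lit 2591) l44 (.c (nat_lit 2591) l61 (.c (nat_lit 2443) l58 (.c (nat_lit 2585) l44 (.c (nat_lit 2434) l58 (.c (nat_lit 767) l58 (.c (nat_lit 763) l58 (.c (nat_lit 2593) l58 (.c (nat_lit 2541) l58 (.c (nat_lit 2630) l61 (.c (nat_lit 2493) l44 (.c (nat_lit 2448) l47 (.c (nat_lit 1852) l45 (.c (nat_lit 1862) l58 (.c (nat_lit 2593) l61 (.c (nat_lit 2439) l44 (.c (nat_lit 2587) l58 (.c (nat_lit 2655) l61 (.c (nat_lit 2681) l61 (.c (nat_lit 2585) l61 (.c (nat_lit 2719) l55 (.c (nat_lit 2628) l45 (.c (nat_lit 2706) l82 (.c (nat_lit 2628) l58 (.c (nat_lit 1109) l45 (.c (nat_lit 2186) l45 (.c (nat_lit 2719) l195 (.c (nat_lit 2652) l58 (.c (nat_lit 2513) l45 (.c (nat_lit 2513) l82 (.c (nat_lit 2415) l195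 (.c (nat_lit 2448) l62 (.c (nat_lit 2592) l55 .e))))))))))))))))))))))))))))))))))))
noncomputable def u3_360 : St := (.c (nat_lit 2660) l58 (.c (nat_lit 2728) l93 (.c (nat_lit 2731) l82 (.c (nat_lit 2728) l85 (.c (nat_lit 2731) l132 (.c (nat_lit 2699) l58 (.c (nat_lit 2720) l61 (.c (nat_lit 2641) l45 (.c (nat_lit 2731) l187 (.c (nat_lit 2641) l58 (.c (nat_lit 2720) l58 (.c (nat_lit 2705) l88 (.c (nat_lit 2574) l45 (.c (nat_lit 2728) l89 (.c (nat_lit 2719) l89 (.c (nat_lit 2655) l61 (.c (nat_lit 2383) l44 (.c (nat_lit 2719) l55 (.c (nat_lit 2698) l90 (.c (nat_lit 2728) l90 .e))))))))))))))))))))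
noncomputable def u3_361 : St := (.c (nat_lit 2438) l44 (.c (nat_lit 2589) l60 (.c (nat_lit 1852) l45 (.c (nat_lit 1862) l58 (.c (nat_lit 1109) l58 (.c (nat_lit 2587) l58 (.c (nat_lit 1105) l58 (.c (nat_lit 2655) l61 (.c (nat_lit 2681) l61 (.c (nat_lit 2715) l62 .e))))))))))
noncomputable def u3_362 : St := (.c (nat_lit 2589) l47 (.c (nat_lit 2731) l90 (.c (nat_lit 2715) l85 (.c (nat_lit 2660) l58 (.c (nat_lit 2590) l58 (.c (nat_lit 2727) l61 (.c (nat_lit 2577) l43 (.c (nat_lit 2728) l93 (.c (nat_lit 2731) l82 (.c (nat_lit 2731) l89 (.c (nat_lit 2601) l45 (.c (nat_lit 2728) l85 (.c (nat_lit 2731) l132 (.c (nat_lit 2699) l58 (.c (nat_lit 2691) l61 (.c (nat_lit 2720) l61 (.c (nat_lit 2641) l45 (.c (nat_lit 2698) l86 (.c (nat_lit 2731) l187 (.c (nat_lit 2591) l44 (.c (nat_lit 2591) l61 (.c (nat_lit 2675) l58 (.c (nat_lit 2589) l62 (.c (nat_lit 2585) l44 (.c (nat_lit 2434) l58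 (.c (nat_lit 767) l58 (.c (nat_lit 2641) l58 (.c (nat_lit 2589) l43 (.c (nat_lit 2720) l58 (.c (nat_lit 2440) l58 (.c (nat_lit 2609) l61 (.c (nat_lit 2705) l88 (.c (nat_lit 2574) l45 (.c (nat_lit 2715) l60 (.c (nat_lit 2461) l44 (.c (nat_lit 2312) l47 (.c (nat_lit 2719) l89 (.c (nat_lit 2577) l60 (.c (nat_lit 2630) l61 (.c (nat_lit 2493) l44 u3_361))))))))))))))))))))))))))))))))))))))))
noncomputable def u3_363 : St := (.c (nat_lit 2711) l93 (.c (nat_lit 2577) l43 (.c (nat_lit 2711) l61 (.c (nat_lit 2677) l60 (.c (nat_lit 2724) l90 (.c (nat_lit 2710) l61 (.c (nat_lit 2680) l55 (.c (nat_lit 2711) l85 (.c (nat_lit 2709) l60 (.c (nat_lit 2621) l58 (.c (nat_lit 2613) l62 (.c (nat_lit 2684) l61 (.c (nat_lit 2644) l60 (.c (nat_lit 2609) l61 (.c (nat_lit 2680) l82 (.c (nat_lit 2683) l60 (.c (nat_lit 2684) l58 (.c (nat_lit 1859) l43 (.c (nat_lit 2461) l44 (.c (nat_lit 2724) l89 (.c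 (nat_lit 2468) l44 (.c (nat_lit 2232) l47 (.c (nat_lit 2204) l47 (.c (nat_lit 2695) l61 (.c (nat_lit 2577) l60 (.c (nat_lit 2677) l62 .e))))))))))))))))))))))))))
noncomputable def u3_364 : St := (.c (nat_lit 1870) l45 (.c (nat_lit 2670) l45 (.c (nat_lit 2620) l93 (.c (nat_lit 2711) l61 (.c (nat_lit 1847) l45 (.c (nat_lit 2720) l61 (.c (nat_lit 2620) l47 (.c (nat_lit 2730) l258 (.c (nat_lit 2683) l45 (.c (nat_lit 2711) l85 (.c (nat_lit 2730) l127 (.c (nat_lit 2730) l195 (.c (nat_lit 2621) l58 (.c (nat_lit 2683) l58 (.c (nat_lit 1894) l47 (.c (nat_lit 2589) l43 (.c (nat_lit 2670) l55 (.c (nat_lit 2684) l61 (.c (nat_lit 2263) l55 (.c (nat_lit 2684) l58 (.c (nat_lit 1894) l44 (.c (nat_lit 2503) l47 (.c (nat_lit 2720) l85 (.c (nat_lit 2695) l61 (.c (nat_lit 2730) l191 .e)))))))))))))))))))))))))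
noncomputable def u3_365 : St := (.c (nat_lit 2688) l58 (.c (nat_lit 2005) l60 (.c (nat_lit 2620) l93 (.c (nat_lit 2601) l45 (.c (nat_lit 2718) l89 (.c (nat_lit 2677) l60 (.c (nat_lit 2620) l47 (.c (nat_lit 2615) l45 (.c (nat_lit 2606) l45 (.c (nat_lit 2688) l55 (.c (nat_lit 2601) l55 (.c (nat_lit 2461) l47 (.c (nat_lit 2601) l43 (.c (nat_lit 2709) l60 (.c (nat_lit 2615) l58 (.c (nat_lit 2647) l60 (.c (nat_lit 2716) l253 (.c (nat_lit 2606) l58 (.c (nat_lit 2603) l47 (.c (nat_lit 2439) l47 (.c (nat_lit 2493) l47 (.c (nat_lit 2688) l82 (.c (nat_lit 2280) l47 (.c (nat_lit 2683) l60 (.c (nat_lit 2461) l44 (.c (nat_lit 2499) l44 (.c (nat_lit 2724) l89 (.c (nat_lit 2005) l62 (.c (nat_lit 2274) l47 (.c (nat_lit 2312) l47 (.c (nat_lit 2232) l47 (.c (nat_lit 2675) l62 .e))))))))))))))))))))))))))))))))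
noncomputable def u3_366 : St := (.c (nat_lit 2654) l51 (.c (nat_lit 2612) l51 (.c (nat_lit 2731) l270 (.c (nat_lit 2621) l56 (.c (nat_lit 2484) l51 (.c (nat_lit 2647) l51 (.c (nat_lit 2613) l66 (.c (nat_lit 2300) l51 (.c (nat_lit 2547) l51 (.c (nat_lit 2612) l66 (.c (nat_lit 2369) l51 (.c (nat_lit 2638) l51 (.c (nat_lit 2503) l66 (.c (nat_lit 2718) l98 .e))))))))))))))
noncomputable def u3_367 : St := (.c (nat_lit 2478) l46 (.c (nat_lit 2654) l51 (.c (nat_lit 2624) l66 (.c (nat_lit 2731) l270 (.c (nat_lit 2682) l66 (.c (nat_lit 2643) l51 (.c (nat_lit 2281) l66 (.c (nat_lit 2484) l51 (.c (nat_lit 2300) l51 (.c (nat_lit 2527) l51 (.c (nat_lit 2435) l51 (.c (nat_lit 1873) l51 (.c (nat_lit 2502) l51 (.c (nat_lit 2574) l66 (.c (nat_lit 2369) l51 (.c (nat_lit 2638) l51 .e))))))))))))))))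
noncomputable def u3_368 : St := (.c (nat_lit 2716) l58 (.c (nat_lit 2727) l61 (.c (nat_lit 2731) l89 (.c (nat_lit 2726) l60 (.c (nat_lit 2715) l43 (.c (nat_lit 2716) l55 (.c (nat_lit 2731) l138 (.c (nat_lit 2726) l138 (.c (nat_lit 2727) l85 (.c (nat_lit 2691) l60 (.c (nat_lit 2716) l82 (.c (nat_lit 2691) l62 (.c (nat_lit 2691) l85 (.c (nat_lit 2728) l89 (.c (nat_lit 2715) l60 .e)))))))))))))))
noncomputable def u3_369 : St := (.c (nat_lit 2710) l58 (.c (nat_lit 2732) l89 (.c (nat_lit 2611) l61 (.c (nat_lit 2730) l85 (.c (nat_lit 2605) l43 (.c (nat_lit 2582) l47 (.c (nat_lit 2603) l44 (.c (nat_lit 2583) l45 (.c (nat_lit 2711) l85 (.c (nat_lit 2662) l55 (.c (nat_lit 2606) l61 (.c (nat_lit 2590) l55 (.c (nat_lit 2722) l138 (.c (nat_lit 2442) l47 (.c (nat_lit 2459) l47 (.c (nat_lit 2196) l47 (.c (nat_lit 2461) l47 (.c (nat_lit 2583) l55 (.c (nat_lit 2722) l89 (.c (nat_lit 2723)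 l82 (.c (nat_lit 2275) l58 (.c (nat_lit 2705) l55 (.c (nat_lit 2722) l190 (.c (nat_lit 2729) l132 (.c (nat_lit 2729) l199 (.c (nat_lit 2707) l60 (.c (nat_lit 2708) l60 (.c (nat_lit 2712) l55 (.c (nat_lit 2601) l43 (.c (nat_lit 2617) l82 (.c (nat_lit 2730) l199 (.c (nat_lit 2617) l58 (.c (nat_lit 2682) l90 (.c (nat_lit 2712) l132 (.c (nat_lit 2707) l62 .e)))))))))))))))))))))))))))))))))))
noncomputable def u3_370 : St := (.c (nat_lit 2617) l195 (.c (nat_lit 2711) l93 (.c (nat_lit 2732) l137 (.c (nat_lit 2672) l57 (.c (nat_lit 1877) l61 (.c (nat_lit 1111) l61 (.c (nat_lit 2666) l61 (.c (nat_lit 2723) l58 (.c (nat_lit 2666) l85 (.c (nat_lit 2666) l134 (.c (nat_lit 2677) l85 (.c (nat_lit 2682) l89 (.c (nat_lit 2732) l124 (.c (nat_lit 2729) l187 (.c (nat_lit 2708) l61 (.c (nat_lit 2722) l60 (.c (nat_lit 2711) l61 (.c (nat_lit 2730) l61 (.c (nat_lit 2672) l61 (.c (nat_lit 2723)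 l253 (.c (nat_lit 2674) l61 (.c (nat_lit 2723) l55 (.c (nat_lit 2729) l89 (.c (nat_lit 2708) l62 (.c (nat_lit 2708) l134 (.c (nat_lit 2609) l47 (.c (nat_lit 2718) l89 (.c (nat_lit 2682) l60 (.c (nat_lit 2617) l55 (.c (nat_lit 2682) l86 (.c (nat_lit 2616) l47 (.c (nat_lit 2677) l60 (.c (nat_lit 2677) l43 (.c (nat_lit 2679) l47 (.c (nat_lit 2729) l82 (.c (nat_lit 2591) l47 (.c (nat_lit 2677) l47 (.c (nat_lit 2585) l47 (.c (nat_lit 2724) l90 (.c (nat_lit 2705) l305 u3_369))))))))))))))))))))))))))))))))))))))))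
noncomputable def u3_371 : St := (.c (nat_lit 2387) l47 (.c (nat_lit 2388) l58 (.c (nat_lit 2430) l47 (.c (nat_lit 2211) l58 (.c (nat_lit 2632) l45 (.c (nat_lit 2732) l194 (.c (nat_lit 2730) l88 (.c (nat_lit 2560) l47 (.c (nat_lit 2730) l126 (.c (nat_lit 2732) l262 (.c (nat_lit 1868) l45 (.c (nat_lit 2212) l44 (.c (nat_lit 2429) l45 (.c (nat_lit 2632) l58 (.c (nat_lit 2729) l84 .e)))))))))))))))
noncomputable def u3_372 : St := (.c (nat_lit 2298) l47 (.c (nat_lit 1980) l45 (.c (nat_lit 2732) l119 (.c (nat_lit 2635) l57 (.c (nat_lit 2529) l47 (.c (nat_lit 2732) l194 (.c (nat_lit 2723) l88 (.c (nat_lit 2635) l61 (.c (nat_lit 2690) l62 (.c (nat_lit 2727) l88 (.c (nat_lit 2727) l95 (.c (nat_lit 2576) l44 (.c (nat_lit 2558) l55 (.c (nat_lit 2380) l47 (.c (nat_lit 2522) l55 (.c (nat_lit 2725) l88 (.c (nat_lit 2298) l62 (.c (nat_lit 2732) l255 (.c (nat_lit 2732) l123 .e)))))))))))))))))))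
noncomputable def u3_373 : St := (.c (nat_lit 2586) l187 (.c (nat_lit 1877) l61 (.c (nat_lit 1503) l58 (.c (nat_lit 1111) l61 (.c (nat_lit 2586) l58 (.c (nat_lit 2666) l85 (.c (nat_lit 2666) l134 (.c (nat_lit 2722) l62 (.c (nat_lit 2722) l60 (.c (nat_lit 2674) l61 (.c (nat_lit 2705) l195 (.c (nat_lit 2722) l86 (.c (nat_lit 2722) l138 (.c (nat_lit 2722) l89 (.c (nat_lit 2275) l58 (.c (nat_lit 2705) l55 (.c (nat_lit 2666) l62 (.c (nat_lit 2722) l135 .e))))))))))))))))))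
noncomputable def u3_374 : St := (.c (nat_lit 2586) l187 (.c (nat_lit 1503) l58 (.c (nat_lit 2666) l134 (.c (nat_lit 2722) l62 (.c (nat_lit 2705) l58 (.c (nat_lit 2729) l187 (.c (nat_lit 2666) l139 (.c (nat_lit 2722) l60 (.c (nat_lit 2586) l82 (.c (nat_lit 2729) l82 (.c (nat_lit 2705) l305 (.c (nat_lit 2705) l195 (.c (nat_lit 2722) l86 (.c (nat_lit 2586) l55 (.c (nat_lit 2722) l89 (.c (nat_lit 2705) l82 (.c (nat_lit 2705) l55 (.c (nat_lit 2729) l132 .e))))))))))))))))))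
noncomputable def u3_375 : St := (.c (nat_lit 2732) l93 (.c (nat_lit 2729) l253 (.c (nat_lit 2732) l85 (.c (nat_lit 2711) l61 (.c (nat_lit 2730) l61 (.c (nat_lit 2732) l30 (.c (nat_lit 2723) l55 (.c (nat_lit 2682) l60 (.c (nat_lit 2682) l86 (.c (nat_lit 2661) l43 (.c (nat_lit 2732) l89 (.c (nat_lit 2611) l61 (.c (nat_lit 2730) l85 (.c (nat_lit 2605) l43 (.c (nat_lit 2711) l85 (.c (nat_lit 2687) l43 (.c (nat_lit 2667) l60 (.c (nat_lit 2730) l134 (.c (nat_lit 2662) l55 (.c (nat_lit 2732) l24 (.c (nat_lit 2729) l195 (.c (nat_lit 2732) l122 .e))))))))))))))))))))))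
noncomputable def u3_376 : St := (.c (nat_lit 2732) l12 (.c (nat_lit 1877) l61 (.c (nat_lit 1111) l61 (.c (nat_lit 2666) l61 (.c (nat_lit 2586) l58 (.c (nat_lit 2723) l58 (.c (nat_lit 2666) l85 (.c (nat_lit 2705) l58 (.c (nat_lit 2729) l253 (.c (nat_lit 2732) l15 (.c (nat_lit 2708) l61 (.c (nat_lit 2730) l61 (.c (nat_lit 2732) l30 (.c (nat_lit 2723) l253 (.c (nat_lit 2586) l82 (.c (nat_lit 2729) l60 (.c (nat_lit 2674) l61 (.c (nat_lit 2723) l55 (.c (nat_lit 2729) l89 (.c (nat_lit 2708) l62 (.c (nat_lit 2682) l60 (.c (nat_lit 2682) l86 (.c (nat_lit 2729) l82 (.c (nat_lit 2732) l22 (.c (nat_lit 2705) l305 (.c (nat_lit 2730) l85 (.c (nat_lit 2605) l43 (.c (nat_lit 2732) l24 (.c (nat_lit 2586) l55 (.c (nat_lit 2722) l138 (.c (nat_lit 2729) l195 (.c (nat_lit 2705) l82 (.c (nat_lit 2723) l82 .e)))))))))))))))))))))))))))))))))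
noncomputable def u3_377 : St := (.c (nat_lit 2732) l12 (.c (nat_lit 2732) l15 (.c (nat_lit 2666) l139 (.c (nat_lit 2711) l61 (.c (nat_lit 2732) l30 (.c (nat_lit 2682) l60 (.c (nat_lit 2682) l86 (.c (nat_lit 2729) l82 (.c (nat_lit 2729) l55 (.c (nat_lit 2732) l22 (.c (nat_lit 2611) l61 (.c (nat_lit 2711) l85 (.c (nat_lit 2662) l55 (.c (nat_lit 2732) l24 .e))))))))))))))
noncomputable def u3_378 : St := (.c (nat_lit 2669) l47 (.c (nat_lit 2586) l58 (.c (nat_lit 2731) l82 (.c (nat_lit 2705) l58 (.c (nat_lit 2666) l139 (.c (nat_lit 2586) l82 (.c (nat_lit 2583) l58 (.c (nat_lit 2667) l55 (.c (nat_lit 2731) l132 (.c (nat_lit 2669) l62 (.c (nat_lit 2699) l58 (.c (nat_lit 2731) l187 (.c (nat_lit 2729) l82 (.c (nat_lit 2729) l191 .e))))))))))))))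
noncomputable def u3_379 : St := (.c (nat_lit 2704) l47 (.c (nat_lit 2715) l47 (.c (nat_lit 2732) l29 (.c (nat_lit 2732) l12 (.c (nat_lit 2711) l57 (.c (nat_lit 2577) l43 (.c (nat_lit 2419) l55 (.c (nat_lit 2727) l58 (.c (nat_lit 2731) l82 (.c (nat_lit 2724) l82 (.c (nat_lit 2709) l58 (.c (nat_lit 2563) l47 (.c (nat_lit 2380) l47 (.c (nat_lit 2727) l82 (.c (nat_lit 2671) l45 (.c (nat_lit 2679) l47 (.c (nat_lit 2732) l23 .e)))))))))))))))))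
noncomputable def u3_380 : St := (.c (nat_lit 1877) l61 (.c (nat_lit 1111) l61 (.c (nat_lit 2666) l61 (.c (nat_lit 2723) l58 (.c (nat_lit 2666) l85 (.c (nat_lit 2722) l139 (.c (nat_lit 2662) l58 (.c (nat_lit 2703) l61 (.c (nat_lit 2732) l85 (.c (nat_lit 2730) l61 (.c (nat_lit 2672) l61 (.c (nat_lit 2732) l30 (.c (nat_lit 2674) l61 (.c (nat_lit 2723) l55 (.c (nat_lit 2729) l89 (.c (nat_lit 2691) l61 (.c (nat_lit 2729) l82 (.c (nat_lit 2732) l139 .e))))))))))))))))))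
noncomputable def u3_381 : St := (.c (nat_lit 2668) l180 (.c (nat_lit 2590) l83 (.c (nat_lit 2667) l66 (.c (nat_lit 2668) l75 (.c (nat_lit 2590) l59 (.c (nat_lit 2590) l46 (.c (nat_lit 2590) l56 (.c (nat_lit 2666) l75 (.c (nat_lit 2667) l153 (.c (nat_lit 2431) l54 (.c (nat_lit 2591) l75 (.c (nat_lit 2592) l208 (.c (nat_lit 2669) l109 (.c (nat_lit 2592) l142 (.c (nat_lit 2669) l232 (.c (nat_lit 2065) l54 (.c (nat_lit 2667) l142 .e)))))))))))))))))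
noncomputable def u3_382 : St := (.c (nat_lit 2724) l98 (.c (nat_lit 2732) l98 (.c (nat_lit 2665) l98 (.c (nat_lit 2435) l66 (.c (nat_lit 2612) l51 (.c (nat_lit 2683) l66 (.c (nat_lit 2611) l54 (.c (nat_lit 2731) l270 (.c (nat_lit 2621) l56 (.c (nat_lit 2643) l51 (.c (nat_lit 2684) l161 (.c (nat_lit 2479) l54 (.c (nat_lit 2484) l51 (.c (nat_lit 2647) l51 (.c (nat_lit 2613) l66 (.c (nat_lit 2643) l66 (.c (nat_lit 2300) l51 (.c (nat_lit 2469) l51 (.c (nat_lit 2203) l51 (.c (nat_lit 2180) l51 (.c (nat_lit 1909) l51 (.c (nat_lit 2685) l208 (.c (nat_lit 2435) l51 (.c (nat_lit 2732) l212 .e))))))))))))))))))))))))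
noncomputable def u3_383 : St := (.c (nat_lit 2180) l51 (.c (nat_lit 2625) l161 (.c (nat_lit 2636) l46 (.c (nat_lit 2636) l56 (.c (nat_lit 2683) l83 .e)))))
noncomputable def u3_384 : St := (.c (nat_lit 2730) l254 (.c (nat_lit 2617) l46 (.c (nat_lit 2725) l59 (.c (nat_lit 2712) l46 (.c (nat_lit 2732) l263 (.c (nat_lit 2727) l59 (.c (nat_lit 2641) l56 (.c (nat_lit 2678) l56 (.c (nat_lit 2678) l59 (.c (nat_lit 2709) l133 (.c (nat_lit 2683) l59 (.c (nat_lit 2693) l59 (.c (nat_lit 2718) l59 (.c (nat_lit 2730) l59 (.c (nat_lit 2692) l59 (.c (nat_lit 2732) l133 (.c (nat_lit 2727) l83 (.c (nat_lit 2678) l46 (.c (nat_lit 2732) l198 (.c (nat_lit 2605) l51 (.c (nat_lit 2682) l56 (.c (nat_lit 2730) l188 (.c (nat_lit 2730) l189 (.c (nat_lit 2730) l196 (.c (nat_lit 2617) l59 (.c (nat_lit 2617) l83 (.c (nat_lit 2275) l46 (.c (nat_lit 2725) l83 (.c (nat_lit 2730) l133 (.c (nat_lit 2684) l232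 (.c (nat_lit 2683) l142 (.c (nat_lit 2263) l66 (.c (nat_lit 2436) l56 (.c (nat_lit 2712) l56 (.c (nat_lit 2597) l56 (.c (nat_lit 2409) l54 (.c (nat_lit 2726) l263 (.c (nat_lit 2469) l51 (.c (nat_lit 2605) l66 (.c (nat_lit 2525) l51 u3_383))))))))))))))))))))))))))))))))))))))))
noncomputable def u3_385 : St := (.c (nat_lit 2668) l180 (.c (nat_lit 2590) l83 (.c (nat_lit 2667) l66 (.c (nat_lit 2668) l75 (.c (nat_lit 2443) l56 (.c (nat_lit 2590) l59 (.c (nat_lit 2590) l46 (.c (nat_lit 2446) l46 (.c (nat_lit 2725) l75 (.c (nat_lit 2504) l59 (.c (nat_lit 2504) l46 (.c (nat_lit 2590) l56 (.c (nat_lit 2722) l98 (.c (nat_lit 2666) l75 (.c (nat_lit 2708) l75 (.c (nat_lit 2708) l180 (.c (nat_lit 1972) l46 (.c (nat_lit 2667) l153 (.c (nat_lit 2708) l66 (.c (nat_lit 2708) l158 (.c (nat_lit 2725) l180 (.c (nat_lit 2722) l153 (.c (nat_lit 2720) l232 (.c (nat_lit 2592) l56 (.c (nat_lit 2625)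 l75 (.c (nat_lit 2431) l54 (.c (nat_lit 2591) l75 (.c (nat_lit 2669) l109 (.c (nat_lit 2667) l214 (.c (nat_lit 2375) l51 (.c (nat_lit 2409) l54 (.c (nat_lit 2669) l232 (.c (nat_lit 2300) l51 (.c (nat_lit 2685) l208 (.c (nat_lit 2592) l66 .e)))))))))))))))))))))))))))))))))))
noncomputable def u3_386 : St := (.c (nat_lit 2668) l180 (.c (nat_lit 2590) l83 (.c (nat_lit 2667) l66 (.c (nat_lit 2492) l75 (.c (nat_lit 2427) l56 (.c (nat_lit 2577) l51 (.c (nat_lit 2668) l75 (.c (nat_lit 2590) l59 (.c (nat_lit 2590) l46 (.c (nat_lit 2681) l75 (.c (nat_lit 2590) l56 (.c (nat_lit 2438) l75 (.c (nat_lit 2707) l109 (.c (nat_lit 2577) l66 (.c (nat_lit 2666) l75 (.c (nat_lit 2665) l54 (.c (nat_lit 2708) l180 (.c (nat_lit 2668) l161 (.c (nat_lit 2667) l153 (.c (nat_lit 2602) l75 (.c (nat_lit 2730) l172 (.c (nat_lit 2275) l46 (.c (nat_lit 2632) l54 (.c (nat_lit 2681) l109 (.c (nat_lit 2528)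 l54 (.c (nat_lit 2489) l75 (.c (nat_lit 2270) l54 (.c (nat_lit 2424) l51 (.c (nat_lit 2615) l54 (.c (nat_lit 2470) l54 (.c (nat_lit 2591) l75 (.c (nat_lit 2498) l54 (.c (nat_lit 2592) l208 (.c (nat_lit 2669) l109 (.c (nat_lit 2490) l59 (.c (nat_lit 2592) l142 (.c (nat_lit 2452) l54 (.c (nat_lit 2669) l232 (.c (nat_lit 2730) l241 .e)))))))))))))))))))))))))))))))))))))))
noncomputable def u3_387 : St := (.c (nat_lit 2478) l59 (.c (nat_lit 2665) l66 (.c (nat_lit 2730) l254 (.c (nat_lit 2478) l46 (.c (nat_lit 2665) l98 (.c (nat_lit 2730) l83 (.c (nat_lit 2730) l59 (.c (nat_lit 2730) l188 (.c (nat_lit 2730) l196 (.c (nat_lit 2611) l54 (.c (nat_lit 2730) l133 (.c (nat_lit 2611) l75 (.c (nat_lit 2263) l66 (.c (nat_lit 2601) l51 (.c (nat_lit 2469) l51 (.c (nat_lit 2605) l66 .e))))))))))))))))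
noncomputable def u3_388 : St := (.c (nat_lit 2478) l59 (.c (nat_lit 2665) l66 (.c (nat_lit 2478) l46 (.c (nat_lit 2617) l46 (.c (nat_lit 2725) l59 (.c (nat_lit 2712) l46 (.c (nat_lit 2665) l98 (.c (nat_lit 2605) l51 (.c (nat_lit 2682) l56 (.c (nat_lit 2611) l54 (.c (nat_lit 2617) l59 (.c (nat_lit 2617) l83 (.c (nat_lit 2275) l46 (.c (nat_lit 2725) l83 (.c (nat_lit 2611) l75 (.c (nat_lit 2684) l232 (.c (nat_lit 2683) l142 (.c (nat_lit 2436) l56 (.c (nat_lit 2601) l51 (.c (nat_lit 2712) l56 .e))))))))))))))))))))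
noncomputable def u3_389 : St := (.c (nat_lit 2668) l180 (.c (nat_lit 2590) l83 (.c (nat_lit 2667) l66 (.c (nat_lit 2668) l75 (.c (nat_lit 2590) l59 (.c (nat_lit 2590) l46 (.c (nat_lit 2590) l56 (.c (nat_lit 2666) l75 (.c (nat_lit 2667) l153 (.c (nat_lit 2431) l54 (.c (nat_lit 2591) l75 (.c (nat_lit 2592) l208 (.c (nat_lit 2669) l109 (.c (nat_lit 2667) l214 .e))))))))))))))
noncomputable def u3_390 : St := (.c (nat_lit 2729) l254 (.c (nat_lit 2492) l75 (.c (nat_lit 2732) l254 (.c (nat_lit 2586) l46 (.c (nat_lit 2732) l188 (.c (nat_lit 2730) l83 (.c (nat_lit 2729) l56 (.c (nat_lit 2705) l46 (.c (nat_lit 2723) l83 (.c (nat_lit 2438) l75 (.c (nat_lit 2666) l83 (.c (nat_lit 2722) l83 (.c (nat_lit 2732) l83 (.c (nat_lit 2586) l56 (.c (nat_lit 2722) l56 (.c (nat_lit 2666) l59 (.c (nat_lit 2732) l133 (.c (nat_lit 2602) l54 (.c (nat_lit 2602) l75 (.c (nat_lit 2730) l196 (.c (nat_lit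 2729) l196 (.c (nat_lit 2732) l196 (.c (nat_lit 2723) l133 (.c (nat_lit 2730) l133 (.c (nat_lit 2705) l59 .e)))))))))))))))))))))))))
noncomputable def u3_391 : St := (.c (nat_lit 2492) l75 (.c (nat_lit 2427) l56 (.c (nat_lit 2577) l51 (.c (nat_lit 2446) l46 (.c (nat_lit 2438) l75 (.c (nat_lit 2577) l66 (.c (nat_lit 2673) l46 (.c (nat_lit 2602) l54 (.c (nat_lit 2602) l75 (.c (nat_lit 2708) l56 (.c (nat_lit 2622) l54 (.c (nat_lit 2444) l51 (.c (nat_lit 2588) l51 (.c (nat_lit 2592) l56 (.c (nat_lit 2708) l83 .e)))))))))))))))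
noncomputable def u3_392 : St := (.c (nat_lit 2665) l66 (.c (nat_lit 2730) l254 (.c (nat_lit 2732) l254 (.c (nat_lit 2732) l188 (.c (nat_lit 2665) l98 (.c (nat_lit 2730) l59 (.c (nat_lit 2732) l83 (.c (nat_lit 2673) l46 (.c (nat_lit 2732) l133 (.c (nat_lit 2730) l188 (.c (nat_lit 2631) l51 (.c (nat_lit 2732) l196 (.c (nat_lit 2695) l75 (.c (nat_lit 2681) l51 (.c (nat_lit 2627) l51 (.c (nat_lit 2687) l66 (.c (nat_lit 2673) l56 .e)))))))))))))))))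
noncomputable def u3_393 : St := (.c (nat_lit 2707) l66 (.c (nat_lit 2729) l66 (.c (nat_lit 2703) l161 (.c (nat_lit 2729) l142 (.c (nat_lit 2732) l98 (.c (nat_lit 2702) l51 (.c (nat_lit 2730) l161 (.c (nat_lit 2721) l66 (.c (nat_lit 2730) l75 (.c (nat_lit 2707) l75 (.c (nat_lit 2707) l98 (.c (nat_lit 2707) l109 (.c (nat_lit 2730) l109 .e)))))))))))))
noncomputable def s3_133 : Ss := (.s (.c (nat_lit 2730) l289 .e) (.s (.c (nat_lit 1518) l42 .e) (.s (.c (nat_lit 2411) l63 .e) (.s (.c (nat_lit 1682) l42 .e) (.s (.c (nat_lit 2502) l108 .e) (.s (.c (nat_lit 2296) l63 .e) (.s (.c (nat_lit 2293) l160 .e) (.s (.c (nat_lit 1984) l74 .e) (.s (.c (nat_lit 2478) l59 .e) (.s (.c (nat_lit 2504) l65 .e) (.s (.c (nat_lit 1937) l42 .e) (.s (.c (nat_lit 2690) l74 .e) (.s (.c (nat_lit 2443) l74 .e) (.s (.c (nat_lit 2677) l48 .e) (.s (.c (nat_lit 2715) l48 .e) (.s (.c (nat_lit 1705) l45 .e) (.s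 (.c (nat_lit 2665) l42 .e) (.s (.c (nat_lit 2704) l93 .e) (.s (.c (nat_lit 2703) l58 .e) (.s (.c (nat_lit 2729) l153 .e) (.s (.c (nat_lit 2443) l141 .e) (.s (.c (nat_lit 2443) l97 .e) (.s (.c (nat_lit 2185) l63 .e) (.s (.c (nat_lit 2481) l58 .e) (.s (.c (nat_lit 2601) l60 .e) (.s (.c (nat_lit 2662) l59 .e) (.s (.c (nat_lit 2703) l75 .e) (.s (.c (nat_lit 2621) l65 .e) (.s (.c (nat_lit 2656) l56 .e) .e)))))))))))))))))))))))))))))

noncomputable def s3_132 : Ss := (.s (.c (nat_lit 2715) l85 .e) (.s (.c (nat_lit 2732) l121 .e) (.s (.c (nat_lit 2716) l58 .e) (.s (.c (nat_lit 2731) l90 .e) (.s (.c (nat_lit 2714) l65 .e) (.s (.c (nat_lit 2704) l47 .e) (.s (.c (nat_lit 2703) l45 .e) (.s (.c (nat_lit 2721) l160 .e) (.s (.c (nat_lit 2721) l108 .e) (.s (.c (nat_lit 2718) l87 .e) (.s (.c (nat_lit 2688) l58 .e) (.s (.c (nat_lit 2589) l47 .e) (.s (.c (nat_lit 2581) l42 .e) (.s (.c (nat_lit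 2729) l214 .e) (.s (.c (nat_lit 2729) l254 .e) (.s (.c (nat_lit 2667) l66 .e) (.s (.c (nat_lit 2590) l83 .e) (.s (.c (nat_lit 2662) l56 .e) (.s (.c (nat_lit 2185) l48 .e) (.s (.c (nat_lit 2239) l58 .e) (.s (.c (nat_lit 2626) l42 .e) (.s (.c (nat_lit 2212) l47 .e) (.s (.c (nat_lit 2668) l180 .e) (.s (.c (nat_lit 2732) l270 .e) (.s (.c (nat_lit 2617) l195 .e) (.s (.c (nat_lit 2586) l187 .e) (.s (.c (nat_lit 2721) l109 .e) (.s (.c (nat_lit 2694) l55 .e) (.s (.c (nat_lit 2399) l55 .e) (.s (.c (nat_lit 2387) l47 .e) s3_133))))))))))))))))))))))))))))))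

noncomputable def s3_131 : Ss := (.s (.c (nat_lit 2264) l74 .e) (.s (.c (nat_lit 2652) l74 .e) (.s (.c (nat_lit 2590) l58 .e) (.s (.c (nat_lit 2444) l42 .e) (.s (.c (nat_lit 2581) l54 (.c (nat_lit 2668) l75 .e)) (.s (.c (nat_lit 2581) l54 .e) (.s (.c (nat_lit 2298) l47 .e) (.s (.c (nat_lit 2421) l47 .e) (.s (.c (nat_lit 2577) l51 .e) (.s (.c (nat_lit 2427) l56 .e) (.s (.c (nat_lit 2707) l66 .e) (.s (.c (nat_lit 2707) l51 .e) (.s (.c (nat_lit 2724) l98 .e) (.s (.c (nat_lit 2384) l58 .e) (.s (.c (nat_lit 2557) l61 .e) (.s (.c (nat_lit 1841) l42 .e) (.s (.c (nat_lit 2492) l75 .e) (.s (.c (nat_lit 2660) l58 .e) (.s (.c (nat_lit 2692) l58 .e) (.s (.c (nat_lit 2067) l46 .e) (.s (.c (nat_lit 2731) l161 .e) (.s (.c (nat_lit 2727) l75 .e) (.s (.c (nat_lit 2587) l79 .e) (.s (.c (nat_lit 1145) l42 .e) (.s (.c (nat_lit 1984) l45 .e) (.s (.c (nat_lit 2388) l58 .e) (.s (.c (nat_lit 2732)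 l31 .e) (.s (.c (nat_lit 2732) l29 .e) (.s (.c (nat_lit 2715) l47 .e) (.s (.c (nat_lit 2669) l47 .e) s3_132))))))))))))))))))))))))))))))

noncomputable def s3_130 : Ss := (.s (.c (nat_lit 2732) l13 .e) (.s (.c (nat_lit 2716) l65 .e) (.s (.c (nat_lit 2732) l143 .e) (.s (.c (nat_lit 2577) l43 .e) (.s (.c (nat_lit 2711) l57 .e) (.s (.c (nat_lit 2711) l93 .e) (.s (.c (nat_lit 2732) l12 .e) (.s (.c (nat_lit 2727) l63 .e) (.s (.c (nat_lit 2732) l93 .e) (.s (.c (nat_lit 2590) l46 .e) (.s (.c (nat_lit 2581) l54 (.c (nat_lit 2668) l75 (.c (nat_lit 2590) l59 .e))) (.s (.c (nat_lit 2730) l289 (.c (nat_lit 2708) l109 .e)) (.s (.c (nat_lit 2722) l133 .e) (.s (.c (nat_lit 2724) l160 .e) (.s (.c (nat_lit 2721) l51 .e) (.s (.c (nat_lit 2729) l66 .e) (.s (.c (nat_lit 2688) l74 .e) (.s (.c (nat_lit 2726) l56 .e) (.s (.c (nat_lit 2627) l42 .e) (.s (.c (nat_lit 2621) l59 .e) (.s (.c (nat_lit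 2212) l47 (.c (nat_lit 2212) l93 .e)) (.s (.c (nat_lit 2722) l84 .e) (.s (.c (nat_lit 2732) l121 (.c (nat_lit 2732) l185 .e)) (.s (.c (nat_lit 2727) l61 .e) (.s (.c (nat_lit 2730) l254 .e) (.s (.c (nat_lit 2665) l51 .e) (.s (.c (nat_lit 2665) l66 .e) (.s (.c (nat_lit 2443) l56 .e) s3_131))))))))))))))))))))))))))))

noncomputable def s3_129 : Ss := (.s (.c (nat_lit 2485) l42 .e) (.s (.c (nat_lit 1111) l61 .e) (.s (.c (nat_lit 1503) l58 .e) (.s (.c (nat_lit 1877) l61 .e) (.s (.c (nat_lit 1649) l55 .e) (.s (.c (nat_lit 2005) l60 .e) (.s (.c (nat_lit 2355) l160 .e) (.s (.c (nat_lit 1857) l42 .e) (.s (.c (nat_lit 2587) l70 .e) (.s (.c (nat_lit 1394) l42 .e) (.s (.c (nat_lit 1854) l42 .e) (.s (.c (nat_lit 2732) l36 .e) (.s (.c (nat_lit 2732) l169 .e) (.s (.c (nat_lit 2445) l48 .e) (.s (.c (nat_lit 2661) l42 .e) (.s (.c (nat_lit 2732) l117 .e) (.s (.c (nat_lit 2430) l47 .e) (.s (.c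 (nat_lit 2704) l43 .e) (.s (.c (nat_lit 2672) l57 .e) (.s (.c (nat_lit 2482) l47 .e) (.s (.c (nat_lit 2703) l45 (.c (nat_lit 2721) l55 .e)) (.s (.c (nat_lit 2732) l137 .e) (.s (.c (nat_lit 2721) l97 (.c (nat_lit 2721) l152 .e)) (.s (.c (nat_lit 2721) l65 .e) (.s (.c (nat_lit 2721) l97 .e) (.s (.c (nat_lit 2732) l107 .e) (.s (.c (nat_lit 2464) l42 .e) (.s (.c (nat_lit 2663) l42 .e) (.s (.c (nat_lit 2581) l42 (.c (nat_lit 1841) l42 (.c (nat_lit 2732) l16 .e))) s3_130)))))))))))))))))))))))))))))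

noncomputable def s3_128 : Ss := (.s (.c (nat_lit 2586) l58 .e) (.s (.c (nat_lit 2666) l61 .e) (.s (.c (nat_lit 2279) l55 .e) (.s (.c (nat_lit 1870) l45 .e) (.s (.c (nat_lit 2683) l98 .e) (.s (.c (nat_lit 1980) l45 .e) (.s (.c (nat_lit 2726) l55 .e) (.s (.c (nat_lit 2727) l58 .e) (.s (.c (nat_lit 2355) l74 .e) (.s (.c (nat_lit 2728) l180 .e) (.s (.c (nat_lit 2586) l46 .e) (.s (.c (nat_lit 2446) l46 .e) (.s (.c (nat_lit 2617) l46 .e) (.s (.c (nat_lit 1894) l42 .e) (.s (.c (nat_lit 2732) l254 .e) (.s (.c (nat_lit 2706) l65 .e) (.s (.c (nat_lit 2732) l225 .e) (.s (.c (nat_lit 2732) l223 .e) (.s (.c (nat_lit 2296) l48 .e) (.s (.c (nat_lit 2211) l58 .e) (.s (.c (nat_lit 2703) l161 .e) (.s (.c (nat_lit 2693) l48 .e) (.s (.c (nat_lit 2686) l69 .e) (.s (.c (nat_lit 1984) l45 (.c (nat_lit 2419) l55 .e)) (.s (.c (nat_lit 2502) l65 .e) (.s (.c (nat_lit 2067) l46 (.c (nat_lit 2388) l56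 .e)) (.s (.c (nat_lit 2728) l93 .e) (.s (.c (nat_lit 2618) l70 .e) (.s (.c (nat_lit 2478) l46 .e) s3_129)))))))))))))))))))))))))))))

noncomputable def s3_127 : Ss := (.s (.c (nat_lit 2731) l82 .e) (.s (.c (nat_lit 2683) l65 .e) (.s (.c (nat_lit 2202) l42 .e) (.s (.c (nat_lit 2540) l47 .e) (.s (.c (nat_lit 2529) l47 .e) (.s (.c (nat_lit 2632) l45 .e) (.s (.c (nat_lit 2686) l43 .e) (.s (.c (nat_lit 2635) l57 .e) (.s (.c (nat_lit 2732) l119 .e) (.s (.c (nat_lit 2707) l53 .e) (.s (.c (nat_lit 2682) l89 .e) (.s (.c (nat_lit 2641) l56 .e) (.s (.c (nat_lit 2727) l59 .e) (.s (.c (nat_lit 2067) l46 (.c (nat_lit 2388) l56 (.c (nat_lit 2732) l263 .e))) (.s (.c (nat_lit 2725) l75 .e) (.s (.c (nat_lit 2712) l46 .e) (.s (.c (nat_lit 2681) l75 .e) (.s (.c (nat_lit 2725) l59 .e) (.s (.c (nat_lit 2677) l85 .e) (.s (.c (nat_lit 2488) l55 .e) (.s (.c (nat_lit 2666) l134 .e) (.s (.c (nat_lit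 1111) l61 (.c (nat_lit 2666) l61 (.c (nat_lit 2666) l85 .e))) (.s (.c (nat_lit 2732) l254 (.c (nat_lit 2732) l188 .e)) (.s (.c (nat_lit 2727) l75 (.c (nat_lit 2727) l109 .e)) (.s (.c (nat_lit 2709) l56 .e) (.s (.c (nat_lit 2723) l58 .e) (.s (.c (nat_lit 2729) l142 .e) s3_128)))))))))))))))))))))))))))

noncomputable def s3_126 : Ss := (.s (.c (nat_lit 2643) l75 .e) (.s (.c (nat_lit 2726) l56 (.c (nat_lit 2717) l75 (.c (nat_lit 2662) l46 (.c (nat_lit 2726) l83 .e)))) (.s (.c (nat_lit 2662) l46 .e) (.s (.c (nat_lit 2717) l75 .e) (.s (.c (nat_lit 2707) l75 .e) (.s (.c (nat_lit 2729) l66 (.c (nat_lit 2729) l142 (.c (nat_lit 2729) l98 .e))) (.s (.c (nat_lit 2723) l59 .e) (.s (.c (nat_lit 2693) l59 .e) (.s (.c (nat_lit 2504) l46 .e) (.s (.c (nat_lit 2683) l46 .e) (.s (.c (nat_lit 2504) l59 .e) (.s (.c (nat_lit 2683) l59 .e) (.s (.c (nat_lit 2710) l75 .e) (.s (.c (nat_lit 2730) l75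 .e) (.s (.c (nat_lit 2731) l89 .e) (.s (.c (nat_lit 2729) l66 (.c (nat_lit 2703) l161 (.c (nat_lit 2729) l142 (.c (nat_lit 2732) l98 (.c (nat_lit 2702) l51 (.c (nat_lit 2721) l66 .e)))))) (.s (.c (nat_lit 2709) l56 (.c (nat_lit 2709) l133 .e)) (.s (.c (nat_lit 2678) l59 .e) (.s (.c (nat_lit 2665) l66 (.c (nat_lit 2665) l98 .e)) (.s (.c (nat_lit 2730) l161 .e) (.s (.c (nat_lit 2702) l51 .e) (.s (.c (nat_lit 2678) l56 .e) (.s (.c (nat_lit 2729) l142 (.c (nat_lit 2732) l98 .e)) (.s (.c (nat_lit 2732) l194 .e) s3_127))))))))))))))))))))))))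

noncomputable def s3_125 : Ss := (.s (.c (nat_lit 2706) l51 .e) (.s (.c (nat_lit 2451) l51 .e) (.s (.c (nat_lit 2427) l56 (.c (nat_lit 2577) l51 (.c (nat_lit 2438) l75 (.c (nat_lit 2577) l66 .e)))) (.s (.c (nat_lit 2707) l75 (.c (nat_lit 2707) l109 .e)) (.s (.c (nat_lit 2438) l75 .e) (.s (.c (nat_lit 2730) l289 (.c (nat_lit 2708) l109 (.c (nat_lit 2722) l98 .e))) (.s (.c (nat_lit 2723) l59 (.c (nat_lit 2723) l56 (.c (nat_lit 2723) l83 .e))) (.s (.c (nat_lit 2667) l66 (.c (nat_lit 2590) l46 (.c (nat_lit 2590) l56 .e))) (.s (.c (nat_lit 2732) l254 (.c (nat_lit 2617) l46 (.c (nat_lit 2586) l46 (.c (nat_lit 2712) l46 (.c (nat_lit 2705) l46 .e))))) (.s (.c (nat_lit 2662) l56 (.c (nat_lit 2702) l51 (.c (nat_lit 2678) l59 (.c (nat_lit 2710) l75 (.c (nat_lit 2662) l46 (.c (nat_lit 2723) l56 (.c (nat_lit 2730) l83 (.c (nat_lit 2730) l59 (.c (nat_lit 2702) l66 .e))))))))) (.s (.c (nat_lit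 2703) l161 (.c (nat_lit 2729) l56 .e)) (.s (.c (nat_lit 2730) l59 .e) (.s (.c (nat_lit 2709) l66 .e) (.s (.c (nat_lit 2730) l83 .e) (.s (.c (nat_lit 2707) l66 (.c (nat_lit 2707) l98 .e)) (.s (.c (nat_lit 2723) l56 .e) (.s (.c (nat_lit 2718) l59 .e) (.s (.c (nat_lit 2446) l46 (.c (nat_lit 2664) l46 .e)) s3_126))))))))))))))))))

noncomputable def s3_124 : Ss := (.s (.c (nat_lit 2617) l46 (.c (nat_lit 2586) l46 (.c (nat_lit 2732) l188 (.c (nat_lit 2705) l46 (.c (nat_lit 2586) l56 (.c (nat_lit 2722) l56 .e)))))) (.s (.c (nat_lit 2435) l66 .e) (.s (.c (nat_lit 2586) l46 (.c (nat_lit 2586) l56 .e)) (.s (.c (nat_lit 2721) l109 (.c (nat_lit 2577) l51 (.c (nat_lit 2681) l75 (.c (nat_lit 2643) l75 (.c (nat_lit 2666) l75 (.c (nat_lit 2721) l172 .e)))))) (.s (.c (nat_lit 2673) l46 .e) (.s (.c (nat_lit 2730) l232 .e) (.s (.c (nat_lit 2690) l75 .e) (.s (.c (nat_lit 2716) l59 .e) (.s (.c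 (nat_lit 2690) l109 .e) (.s (.c (nat_lit 2726) l56 (.c (nat_lit 2590) l59 (.c (nat_lit 2717) l75 (.c (nat_lit 2662) l46 (.c (nat_lit 2726) l83 (.c (nat_lit 2664) l46 (.c (nat_lit 2664) l59 .e))))))) (.s (.c (nat_lit 2665) l54 .e) (.s (.c (nat_lit 2692) l59 .e) (.s (.c (nat_lit 2728) l180 (.c (nat_lit 2731) l172 .e)) (.s (.c (nat_lit 2732) l83 .e) (.s (.c (nat_lit 2724) l75 (.c (nat_lit 2724) l109 .e)) (.s (.c (nat_lit 2709) l59 .e) (.s (.c (nat_lit 2724) l75 .e) (.s (.c (nat_lit 2666) l75 .e) (.s (.c (nat_lit 2722) l133 (.c (nat_lit 2722) l83 .e)) (.s (.c (nat_lit 2666) l83 .e) s3_125))))))))))))))))))))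

noncomputable def s3_123 : Ss := (.s (.c (nat_lit 2668) l161 .e) (.s (.c (nat_lit 1972) l46 .e) (.s (.c (nat_lit 2654) l51 (.c (nat_lit 2654) l66 .e)) (.s (.c (nat_lit 2654) l51 .e) (.s (.c (nat_lit 2261) l75 .e) (.s (.c (nat_lit 2602) l54 .e) (.s (.c (nat_lit 2708) l75 (.c (nat_lit 2708) l180 .e)) (.s (.c (nat_lit 2709) l56 (.c (nat_lit 2678) l59 (.c (nat_lit 2709) l133 (.c (nat_lit 2709) l59 (.c (nat_lit 2724) l161 .e))))) (.s (.c (nat_lit 2729) l214 (.c (nat_lit 2729) l142 (.c (nat_lit 2732) l98 (.c (nat_lit 2706) l51 (.c (nat_lit 2724) l75 (.c (nat_lit 2724) l109 (.c (nat_lit 2731) l208 (.c (nat_lit 2726) l208 (.c (nat_lit 2732) l153 .e))))))))) (.s (.c (nat_lit 2722) l133 (.c (nat_lit 2666) l83 (.c (nat_lit 2722) l83 (.c (nat_lit 2666) l59 (.c (nat_lit 2666) l133 .e))))) (.s (.c (nat_lit 2710) l161 .e) (.s u3_393 (.s (.c (nat_lit 2726) l208 .e) (.s (.c (nat_lit 2731)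 l208 .e) (.s (.c (nat_lit 2720) l75 .e) (.s (.c (nat_lit 2727) l232 .e) (.s (.c (nat_lit 2728) l180 (.c (nat_lit 2731) l172 (.c (nat_lit 2731) l109 .e))) (.s (.c (nat_lit 2732) l83 (.c (nat_lit 2732) l133 .e)) (.s (.c (nat_lit 2708) l75 .e) (.s (.c (nat_lit 2722) l133 (.c (nat_lit 2722) l83 (.c (nat_lit 2666) l59 .e))) s3_124))))))))))))))))))))

noncomputable def s3_122 : Ss := (.s (.c (nat_lit 2727) l75 (.c (nat_lit 2727) l109 (.c (nat_lit 2654) l51 (.c (nat_lit 2654) l66 (.c (nat_lit 2714) l51 (.c (nat_lit 2714) l66 (.c (nat_lit 2727) l161 .e))))))) (.s (.c (nat_lit 2716) l56 .e) (.s (.c (nat_lit 2717) l161 .e) (.s (.c (nat_lit 2727) l59 (.c (nat_lit 2727) l83 .e)) (.s (.c (nat_lit 2518) l54 .e) (.s (.c (nat_lit 2690) l51 .e) (.s (.c (nat_lit 2727) l75 (.c (nat_lit 2727) l109 (.c (nat_lit 2654) l51 (.c (nat_lit 2654) l66 (.c (nat_lit 2714) l51 (.c (nat_lit 2714) l66 .e))))))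 (.s (.c (nat_lit 2727) l75 (.c (nat_lit 2727) l109 (.c (nat_lit 2654) l51 (.c (nat_lit 2654) l66 (.c (nat_lit 2731) l297 (.c (nat_lit 2731) l272 .e)))))) (.s (.c (nat_lit 2690) l109 (.c (nat_lit 2690) l75 (.c (nat_lit 2726) l142 .e))) (.s (.c (nat_lit 2714) l51 .e) (.s (.c (nat_lit 2731) l98 .e) (.s (.c (nat_lit 2726) l66 .e) (.s (.c (nat_lit 2638) l109 .e) (.s (.c (nat_lit 2731) l297 .e) (.s (.c (nat_lit 2612) l51 .e) (.s (.c (nat_lit 2492) l75 (.c (nat_lit 2427) l56 (.c (nat_lit 2577) l51 (.c (nat_lit 2438) l75 (.c (nat_lit 2577) l66 (.c (nat_lit 2602) l54 (.c (nat_lit 2602) l75 .e))))))) (.s (.c (nat_lit 2668) l180 (.c (nat_lit 2590) l83 (.c (nat_lit 2667) l66 (.c (nat_lit 2668) l75 (.c (nat_lit 2590) l59 (.c (nat_lit 2590) l46 (.c (nat_lit 2590) l56 (.c (nat_lit 2667) l153 .e)))))))) s3_123)))))))))))))))))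

noncomputable def s3_121 : Ss := (.s (.c (nat_lit 2725) l59 (.c (nat_lit 2682) l56 (.c (nat_lit 2725) l133 .e))) (.s (.c (nat_lit 2678) l56 (.c (nat_lit 2678) l59 (.c (nat_lit 2709) l133 (.c (nat_lit 2718) l59 (.c (nat_lit 2730) l83 (.c (nat_lit 2678) l46 (.c (nat_lit 2730) l189 .e))))))) (.s (.c (nat_lit 2730) l254 (.c (nat_lit 2730) l59 (.c (nat_lit 2730) l188 .e))) (.s (.c (nat_lit 2689) l51 .e) (.s (.c (nat_lit 2708) l66 (.c (nat_lit 2708) l158 .e)) (.s (.c (nat_lit 2682) l56 .e) (.s (.c (nat_lit 2708) l66 .e) (.s (.c (nat_lit 2605) l51 .e) (.s (.c (nat_lit 2730) l232 (.c (nat_lit 2730) l109 (.c (nat_lit 2730) l172 .e))) (.s (.c (nat_lit 2706) l51 (.c (nat_lit 1972) l46 (.c (nat_lit 2722) l66 .e))) (.s (.c (nat_lit 2708) l56 .e) (.s (.c (nat_lit 2727) l83 (.c (nat_lit 2727) l133 .e)) (.s (.c (nat_lit 2732) l263 (.c (nat_lit 2727) l59 (.c (nat_lit 2732) l133 (.c (nat_lit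 2727) l83 (.c (nat_lit 2732) l198 .e))))) (.s (.c (nat_lit 2716) l59 (.c (nat_lit 2638) l109 (.c (nat_lit 2518) l54 (.c (nat_lit 2716) l56 (.c (nat_lit 2716) l83 .e))))) (.s (.c (nat_lit 2678) l46 .e) (.s (.c (nat_lit 2692) l56 .e) (.s (.c (nat_lit 2690) l51 (.c (nat_lit 2690) l66 .e)) (.s (.c (nat_lit 2690) l51 (.c (nat_lit 2690) l98 .e)) s3_122))))))))))))))))))

noncomputable def s3_120 : Ss := (.s (.c (nat_lit 2722) l98 (.c (nat_lit 2708) l75 (.c (nat_lit 2708) l180 (.c (nat_lit 2722) l153 .e)))) (.s (.c (nat_lit 2732) l254 (.c (nat_lit 2732) l188 (.c (nat_lit 2732) l83 (.c (nat_lit 2732) l133 (.c (nat_lit 2732) l196 .e))))) (.s (.c (nat_lit 2631) l51 .e) (.s (.c (nat_lit 2729) l254 (.c (nat_lit 2730) l254 (.c (nat_lit 2730) l59 (.c (nat_lit 2729) l56 (.c (nat_lit 2668) l161 (.c (nat_lit 2730) l188 (.c (nat_lit 2729) l196 .e))))))) (.s (.c (nat_lit 2725) l75 (.c (nat_lit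 2708) l66 (.c (nat_lit 2708) l158 (.c (nat_lit 2725) l180 .e)))) (.s (.c (nat_lit 2732) l270 (.c (nat_lit 2665) l51 (.c (nat_lit 2621) l59 (.c (nat_lit 2683) l98 (.c (nat_lit 2724) l109 (.c (nat_lit 2730) l232 (.c (nat_lit 2730) l109 (.c (nat_lit 2730) l172 (.c (nat_lit 2708) l66 (.c (nat_lit 2708) l98 (.c (nat_lit 2724) l172 .e))))))))))) (.s (.c (nat_lit 2621) l59 (.c (nat_lit 2684) l75 .e)) (.s (.c (nat_lit 2732) l270 (.c (nat_lit 2665) l51 (.c (nat_lit 2451) l51 (.c (nat_lit 2708) l66 (.c (nat_lit 2708) l98 .e))))) (.s (.c (nat_lit 2622) l54 .e) (.s (.c (nat_lit 2730) l254 (.c (nat_lit 2730) l59 (.c (nat_lit 2708) l56 (.c (nat_lit 2708) l66 (.c (nat_lit 2708) l158 (.c (nat_lit 2689) l51 (.c (nat_lit 2730) l188 (.c (nat_lit 2730) l196 .e)))))))) (.s (.c (nat_lit 2725) l75 (.c (nat_lit 2725) l109 .e)) s3_121)))))))))))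

noncomputable def s3_119 : Ss := (.s u3_392 (.s (.c (nat_lit 2622) l54 (.c (nat_lit 2588) l51 .e)) (.s (.c (nat_lit 2492) l75 (.c (nat_lit 2427) l56 (.c (nat_lit 2577) l51 (.c (nat_lit 2665) l66 (.c (nat_lit 2665) l98 (.c (nat_lit 2723) l83 (.c (nat_lit 2438) l75 (.c (nat_lit 2577) l66 (.c (nat_lit 2602) l54 (.c (nat_lit 2602) l75 (.c (nat_lit 2681) l51 (.c (nat_lit 2723) l133 .e)))))))))))) (.s (.c (nat_lit 2732) l254 (.c (nat_lit 2732) l188 (.c (nat_lit 2732) l83 (.c (nat_lit 2732) l133 (.c (nat_lit 2732) l196 (.c (nat_lit 2695) l75 (.c (nat_lit 2627) l51 (.c (nat_lit 2687) l66 .e)))))))) (.s (.c (nat_lit 2627) l51 .e) (.s (.c (nat_lit 2444) l51 .e) (.s (.c (nat_lit 2665) l66 (.c (nat_lit 2665) l98 (.c (nat_lit 2681) l51 .e))) (.s (.c (nat_lit 2643) l51 .e) (.s (.c (nat_lit 2621) l56 .e) (.s (.c (nat_lit 2653) l51 .e) (.s (.c (nat_lit 2695) l75 .e) (.s (.c (nat_lit 2682)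 l66 .e) (.s (.c (nat_lit 2731) l270 .e) (.s (.c (nat_lit 2611) l54 .e) (.s (.c (nat_lit 2478) l46 (.c (nat_lit 2624) l66 .e)) (.s (.c (nat_lit 2724) l98 (.c (nat_lit 2654) l51 (.c (nat_lit 2612) l51 (.c (nat_lit 2708) l66 (.c (nat_lit 2724) l153 .e))))) (.s (.c (nat_lit 2683) l66 .e) s3_120)))))))))))))))))

noncomputable def s3_118 : Ss := (.s (.c (nat_lit 2489) l75 .e) (.s (.c (nat_lit 2528) l54 .e) (.s u3_390 (.s (.c (nat_lit 2681) l75 (.c (nat_lit 2681) l109 .e)) (.s (.c (nat_lit 2665) l54 (.c (nat_lit 2632) l54 .e)) (.s (.c (nat_lit 2730) l254 (.c (nat_lit 2730) l83 (.c (nat_lit 2730) l59 (.c (nat_lit 2730) l188 (.c (nat_lit 2730) l196 (.c (nat_lit 2730) l133 .e)))))) (.s (.c (nat_lit 2281) l66 .e) (.s (.c (nat_lit 2617) l83 (.c (nat_lit 2682) l133 .e)) (.s (.c (nat_lit 2682) l56 (.c (nat_lit 2725) l133 (.c (nat_lit 2725) l83 .e))) (.s (.c (nat_lit 2509) l51 .e) (.s (.c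 (nat_lit 2719) l208 .e) (.s (.c (nat_lit 2275) l46 .e) (.s (.c (nat_lit 2431) l54 .e) (.s u3_391 (.s (.c (nat_lit 2446) l46 (.c (nat_lit 2725) l75 (.c (nat_lit 2504) l59 (.c (nat_lit 2504) l46 (.c (nat_lit 1972) l46 (.c (nat_lit 2708) l66 (.c (nat_lit 2708) l158 (.c (nat_lit 2725) l180 (.c (nat_lit 2444) l51 (.c (nat_lit 2720) l232 (.c (nat_lit 2592) l56 (.c (nat_lit 2625) l75 .e)))))))))))) (.s (.c (nat_lit 2446) l46 (.c (nat_lit 2592) l56 .e)) (.s (.c (nat_lit 2682) l56 (.c (nat_lit 2617) l83 .e)) (.s (.c (nat_lit 2720) l232 .e) (.s (.c (nat_lit 2617) l46 (.c (nat_lit 2617) l59 .e)) s3_119)))))))))))))))))))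

noncomputable def s3_117 : Ss := (.s (.c (nat_lit 2484) l51 (.c (nat_lit 2613) l66 .e)) (.s (.c (nat_lit 2275) l46 (.c (nat_lit 2436) l56 (.c (nat_lit 2683) l208 .e))) (.s (.c (nat_lit 2647) l51 .e) (.s (.c (nat_lit 2484) l51 .e) (.s (.c (nat_lit 2592) l208 .e) (.s (.c (nat_lit 2681) l75 (.c (nat_lit 2681) l109 (.c (nat_lit 2615) l54 (.c (nat_lit 2498) l54 .e)))) (.s (.c (nat_lit 2593) l59 .e) (.s (.c (nat_lit 2591) l75 .e) (.s (.c (nat_lit 2275) l46 (.c (nat_lit 2436) l56 .e)) (.s (.c (nat_lit 2681) l75 (.c (nat_lit 2681) l109 (.c (nat_lit 2615) l54 (.c (nat_lit 2181) l54 (.c (nat_lit 2470) l54 .e))))) (.s (.c (nat_lit 2181) l54 .e) (.s (.c (nat_lit 2681) l75 (.c (nat_lit 2681) l109 (.c (nat_lit 2615) l54 .e))) (.s (.c (nat_lit 2509) l51 (.c (nat_lit 2424) l51 .e)) (.s (.c (nat_lit 2683) l98 (.c (nat_lit 2683) l153 .e)) (.s (.c (nat_lit 2263) l66 .e) (.s (.c (nat_lit 2479)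 l54 .e) (.s (.c (nat_lit 2684) l161 .e) (.s (.c (nat_lit 2683) l142 .e) (.s (.c (nat_lit 2684) l232 .e) (.s (.c (nat_lit 2270) l54 .e) (.s (.c (nat_lit 2491) l66 .e) (.s (.c (nat_lit 2478) l59 (.c (nat_lit 2478) l46 (.c (nat_lit 2611) l54 (.c (nat_lit 2611) l75 .e)))) s3_118))))))))))))))))))))))

noncomputable def s3_116 : Ss := (.s (.c (nat_lit 2730) l95 .e) (.s (.c (nat_lit 2670) l45 .e) (.s (.c (nat_lit 2724) l179 .e) (.s (.c (nat_lit 1937) l42 (.c (nat_lit 2724) l141 .e)) (.s (.c (nat_lit 2709) l65 .e) (.s (.c (nat_lit 2597) l56 .e) (.s u3_388 (.s (.c (nat_lit 2665) l66 (.c (nat_lit 2665) l98 (.c (nat_lit 2605) l51 (.c (nat_lit 2479) l54 (.c (nat_lit 2601) l51 .e))))) (.s (.c (nat_lit 2681) l75 (.c (nat_lit 2681) l109 (.c (nat_lit 2270) l54 (.c (nat_lit 2615) l54 (.c (nat_lit 2470) l54 (.c (nat_lit 2375) l51 (.c (nat_lit 2592) l142 (.c (nat_lit 2452) l54 .e)))))))) (.s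 (.c (nat_lit 2375) l51 (.c (nat_lit 2592) l142 .e)) (.s (.c (nat_lit 2375) l51 .e) (.s (.c (nat_lit 2275) l46 (.c (nat_lit 2490) l59 .e)) (.s u3_389 (.s (.c (nat_lit 2681) l75 (.c (nat_lit 2681) l109 (.c (nat_lit 2615) l54 (.c (nat_lit 2470) l54 (.c (nat_lit 2475) l54 .e))))) (.s (.c (nat_lit 2681) l75 (.c (nat_lit 2666) l75 (.c (nat_lit 2431) l54 (.c (nat_lit 2509) l51 (.c (nat_lit 2681) l109 (.c (nat_lit 2424) l51 (.c (nat_lit 2615) l54 (.c (nat_lit 2591) l75 (.c (nat_lit 2498) l54 (.c (nat_lit 2592) l208 (.c (nat_lit 2669) l109 .e))))))))))) (.s (.c (nat_lit 2643) l51 (.c (nat_lit 2484) l51 (.c (nat_lit 2613) l66 (.c (nat_lit 2643) l66 .e)))) s3_117))))))))))))))))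

noncomputable def s3_115 : Ss := (.s (.c (nat_lit 2703) l61 .e) (.s (.c (nat_lit 2662) l58 .e) (.s (.c (nat_lit 2666) l139 .e) (.s (.c (nat_lit 1877) l61 (.c (nat_lit 1111) l61 (.c (nat_lit 2666) l61 (.c (nat_lit 2666) l85 (.c (nat_lit 2722) l139 .e))))) (.s (.c (nat_lit 2708) l61 .e) (.s (.c (nat_lit 2732) l12 (.c (nat_lit 2666) l134 (.c (nat_lit 2722) l90 (.c (nat_lit 2732) l15 .e)))) (.s (.c (nat_lit 2732) l135 .e) (.s (.c (nat_lit 2729) l253 .e) (.s (.c (nat_lit 2729) l187 .e) (.s (.c (nat_lit 2705) l58 .e) (.s (.c (nat_lit 2732) l93 (.c (nat_lit 2723) l58 (.c (nat_lit 2666) l134 (.c (nat_lit 2722) l90 (.c (nat_lit 2732) l90 .e))))) (.s (.c (nat_lit 2722) l62 .e) (.s (.c (nat_lit 2666) l134 (.c (nat_lit 2722) l90 .e)) (.s (.c (nat_lit 2732) l137 (.c (nat_lit 2732) l124 .e)) (.s (.c (nat_lit 2731) l101 .e) (.s (.c (nat_lit 2620) l93 .e) (.s (.c (nat_lit 2715) l43 .e) (.s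 (.c (nat_lit 2731) l89 (.c (nat_lit 2726) l60 .e)) (.s (.c (nat_lit 2709) l58 .e) (.s (.c (nat_lit 2724) l82 .e) (.s (.c (nat_lit 2721) l71 .e) (.s (.c (nat_lit 2721) l102 .e) (.s (.c (nat_lit 2702) l65 .e) s3_116)))))))))))))))))))))))

noncomputable def s3_114 : Ss := (.s (.c (nat_lit 2729) l60 .e) (.s (.c (nat_lit 2583) l58 .e) (.s (.c (nat_lit 2728) l85 .e) (.s (.c (nat_lit 2586) l58 (.c (nat_lit 2666) l139 (.c (nat_lit 2586) l82 .e))) (.s (.c (nat_lit 2723) l253 .e) (.s (.c (nat_lit 2732) l30 .e) (.s (.c (nat_lit 2563) l47 .e) (.s (.c (nat_lit 2401) l47 .e) (.s (.c (nat_lit 2732) l182 .e) (.s (.c (nat_lit 2730) l88 .e) (.s (.c (nat_lit 2635) l57 (.c (nat_lit 2529) l47 (.c (nat_lit 2635) l61 (.c (nat_lit 2690) l62 .e)))) (.s (.c (nat_lit 2672) l61 .e) (.s (.c (nat_lit 2601) l45 .e) (.s (.c (nat_lit 2635) l61 .e) (.s (.c (nat_lit 2723) l88 .e) (.s (.c (nat_lit 2732) l137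 (.c (nat_lit 2670) l45 (.c (nat_lit 2730) l95 (.c (nat_lit 2732) l124 (.c (nat_lit 2703) l61 (.c (nat_lit 2711) l61 (.c (nat_lit 2694) l58 (.c (nat_lit 2664) l58 .e)))))))) (.s (.c (nat_lit 2730) l61 .e) (.s (.c (nat_lit 1862) l45 .e) (.s (.c (nat_lit 2207) l58 .e) (.s (.c (nat_lit 2694) l58 .e) (.s (.c (nat_lit 2711) l61 .e) (.s (.c (nat_lit 2709) l58 (.c (nat_lit 2709) l45 .e)) (.s (.c (nat_lit 2732) l85 .e) (.s (.c (nat_lit 2722) l60 .e) s3_115))))))))))))))))))))))))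

noncomputable def s3_113 : Ss := (.s (.c (nat_lit 2375) l51 (.c (nat_lit 2669) l232 .e)) (.s (.c (nat_lit 2717) l74 .e) (.s (.c (nat_lit 2409) l54 .e) (.s (.c (nat_lit 2727) l88 (.c (nat_lit 2727) l95 .e)) (.s (.c (nat_lit 2298) l42 .e) (.s (.c (nat_lit 2727) l88 .e) (.s (.c (nat_lit 2715) l107 .e) (.s (.c (nat_lit 2732) l13 (.c (nat_lit 2721) l65 (.c (nat_lit 2732) l17 .e))) (.s (.c (nat_lit 2719) l65 .e) (.s (.c (nat_lit 2212) l42 .e) (.s (.c (nat_lit 1854) l42 (.c (nat_lit 2732) l32 .e)) (.s (.c (nat_lit 2729) l65 .e) (.s (.c (nat_lit 2708) l134 .e) (.s (.c (nat_lit 2708) l61 (.c (nat_lit 2723) l253 (.c (nat_lit 2729) l60 (.c (nat_lit 2729) l89 (.c (nat_lit 2708) l62 .e))))) (.s (.c (nat_lit 2723) l253 (.c (nat_lit 2729) l60 (.c (nat_lit 2729) l89 .e))) (.s (.c (nat_lit 2723) l55 .e) (.s (.c (nat_lit 2669) l47 (.c (nat_lit 2669) l62 .e)) (.s (.c (nat_lit 2668) l45 .e) (.s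 (.c (nat_lit 2706) l132 .e) (.s (.c (nat_lit 2731) l82 (.c (nat_lit 2731) l132 .e)) (.s (.c (nat_lit 2667) l55 .e) (.s (.c (nat_lit 2674) l61 .e) (.s (.c (nat_lit 2732) l261 .e) (.s (.c (nat_lit 2673) l60 .e) s3_114))))))))))))))))))))))))

noncomputable def s3_112 : Ss := (.s (.c (nat_lit 2718) l89 .e) (.s (.c (nat_lit 2409) l54 (.c (nat_lit 2300) l51 (.c (nat_lit 2685) l208 .e))) (.s (.c (nat_lit 1909) l51 .e) (.s (.c (nat_lit 2665) l66 (.c (nat_lit 2665) l98 (.c (nat_lit 2605) l51 (.c (nat_lit 2601) l51 (.c (nat_lit 2469) l51 (.c (nat_lit 2231) l51 (.c (nat_lit 2538) l51 (.c (nat_lit 2527) l51 (.c (nat_lit 2465) l51 .e))))))))) (.s (.c (nat_lit 2409) l54 (.c (nat_lit 2180) l51 (.c (nat_lit 2625) l161 .e))) (.s (.c (nat_lit 2180) l51 .e) (.s (.c (nat_lit 2203) l51 .e) (.s (.c (nat_lit 2525) l51 .e) (.s (.c (nat_lit 2527) l51 .e) (.s (.c (nat_lit 2538) l51 .e) (.s (.c (nat_lit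 2231) l51 .e) (.s u3_387 (.s (.c (nat_lit 2665) l66 (.c (nat_lit 2665) l98 (.c (nat_lit 2605) l51 (.c (nat_lit 2601) l51 (.c (nat_lit 2469) l51 .e))))) (.s (.c (nat_lit 2609) l47 .e) (.s (.c (nat_lit 2419) l59 .e) (.s (.c (nat_lit 2415) l55 .e) (.s (.c (nat_lit 2573) l60 .e) (.s (.c (nat_lit 2691) l61 .e) (.s (.c (nat_lit 2699) l58 .e) (.s (.c (nat_lit 2300) l51 .e) (.s (.c (nat_lit 2693) l59 (.c (nat_lit 2692) l59 (.c (nat_lit 2726) l263 .e))) s3_113)))))))))))))))))))))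

noncomputable def s3_111 : Ss := (.s (.c (nat_lit 2682) l60 .e) (.s (.c (nat_lit 2649) l51 .e) (.s u3_386 (.s (.c (nat_lit 2719) l142 .e) (.s (.c (nat_lit 2697) l51 (.c (nat_lit 2697) l66 .e)) (.s (.c (nat_lit 2621) l55 .e) (.s (.c (nat_lit 2682) l138 .e) (.s (.c (nat_lit 2636) l46 (.c (nat_lit 2636) l56 .e)) (.s (.c (nat_lit 2560) l47 .e) (.s (.c (nat_lit 2380) l47 .e) (.s (.c (nat_lit 1847) l45 .e) (.s (.c (nat_lit 2452) l42 .e) (.s (.c (nat_lit 2694) l46 .e) (.s (.c (nat_lit 2680) l46 .e) (.s (.c (nat_lit 2636) l46 .e) (.s (.c (nat_lit 2697) l51 .e) (.s (.c (nat_lit 2589) l42 .e) (.s (.c (nat_lit 2693) l59 (.c (nat_lit 2692) l59 (.c (nat_lit 2726) l263 (.c (nat_lit 2641) l46 .e)))) (.s (.c (nat_lit 2726) l208 (.c (nat_lit 2726) l66 (.c (nat_lit 2726) l158 .e))) (.s (.c (nat_lit 2518) l54 (.c (nat_lit 2691) l75 .e)) (.s (.c (nat_lit 2596) l46 .e) (.s (.c (nat_lit 2628) l46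 .e) (.s (.c (nat_lit 2699) l59 .e) (.s (.c (nat_lit 2732) l203 .e) (.s (.c (nat_lit 2576) l44 (.c (nat_lit 2558) l55 .e)) (.s (.c (nat_lit 2576) l44 .e) s3_112))))))))))))))))))))))))))

noncomputable def s3_110 : Ss := (.s (.c (nat_lit 2693) l59 (.c (nat_lit 2692) l59 (.c (nat_lit 2726) l263 (.c (nat_lit 2641) l46 (.c (nat_lit 2443) l46 (.c (nat_lit 2605) l46 .e)))))) (.s (.c (nat_lit 2443) l46 .e) (.s (.c (nat_lit 1944) l46 .e) (.s u3_382 (.s (.c (nat_lit 2435) l51 (.c (nat_lit 1873) l51 .e)) (.s (.c (nat_lit 2409) l54 (.c (nat_lit 2300) l51 (.c (nat_lit 2685) l208 (.c (nat_lit 2625) l232 .e)))) (.s (.c (nat_lit 2435) l51 .e) (.s (.c (nat_lit 2682) l66 (.c (nat_lit 2281) l66 (.c (nat_lit 2684) l232 (.c (nat_lit 2683) l208 (.c (nat_lit 2613) l66 (.c (nat_lit 2409) l54 (.c (nat_lit 2300) l51 (.c (nat_lit 2625) l161 (.c (nat_lit 1909) l51 (.c (nat_lit 2685) l98 .e))))))))))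 (.s u3_384 (.s u3_385 (.s (.c (nat_lit 2665) l66 (.c (nat_lit 2665) l98 (.c (nat_lit 2605) l51 (.c (nat_lit 2601) l51 (.c (nat_lit 2469) l51 (.c (nat_lit 2538) l51 (.c (nat_lit 2180) l51 (.c (nat_lit 1909) l51 (.c (nat_lit 2441) l51 .e))))))))) (.s (.c (nat_lit 2720) l161 .e) (.s (.c (nat_lit 2697) l66 (.c (nat_lit 2719) l66 .e)) (.s (.c (nat_lit 2720) l61 .e) (.s (.c (nat_lit 2682) l60 (.c (nat_lit 2682) l86 .e)) (.s (.c (nat_lit 2617) l55 .e) s3_111))))))))))))))))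

noncomputable def s3_109 : Ss := (.s (.c (nat_lit 2319) l54 (.c (nat_lit 2559) l75 .e)) (.s (.c (nat_lit 2319) l54 .e) (.s (.c (nat_lit 2449) l46 (.c (nat_lit 2650) l75 .e)) (.s (.c (nat_lit 2591) l75 (.c (nat_lit 2596) l46 (.c (nat_lit 2065) l54 (.c (nat_lit 2587) l54 (.c (nat_lit 2596) l59 .e))))) (.s (.c (nat_lit 2427) l46 .e) (.s (.c (nat_lit 2449) l46 .e) (.s u3_381 (.s (.c (nat_lit 2587) l54 .e) (.s (.c (nat_lit 2065) l54 .e) (.s (.c (nat_lit 2720) l59 (.c (nat_lit 2720) l83 .e)) (.s (.c (nat_lit 2719) l56 .e) (.s (.c (nat_lit 2591) l75 (.c (nat_lit 2654) l75 .e)) (.s (.c (nat_lit 2720) l59 .e) (.s (.c (nat_lit 2553) l46 .e) (.s (.c (nat_lit 2699) l59 (.c (nat_lit 2719) l142 (.c (nat_lit 2719) l66 (.c (nat_lit 2719) l98 .e)))) (.s (.c (nat_lit 2590) l59 (.c (nat_lit 2726) l83 (.c (nat_lit 2664) l46 (.c (nat_lit 2718) l59 (.c (nat_lit 2664) l59 (.c (nat_lit 2593) l59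 (.c (nat_lit 2596) l46 (.c (nat_lit 2636) l46 (.c (nat_lit 2694) l46 (.c (nat_lit 2726) l133 .e)))))))))) (.s (.c (nat_lit 2731) l172 (.c (nat_lit 2731) l109 (.c (nat_lit 2627) l51 (.c (nat_lit 2375) l51 (.c (nat_lit 2628) l46 (.c (nat_lit 2636) l46 (.c (nat_lit 2649) l51 (.c (nat_lit 2731) l232 .e)))))))) s3_110)))))))))))))))))

noncomputable def s3_108 : Ss := (.s (.c (nat_lit 2655) l75 .e) (.s (.c (nat_lit 2391) l75 .e) (.s (.c (nat_lit 2478) l46 (.c (nat_lit 2624) l66 (.c (nat_lit 2682) l66 (.c (nat_lit 2281) l66 (.c (nat_lit 2484) l51 (.c (nat_lit 2300) l51 (.c (nat_lit 2435) l51 (.c (nat_lit 1873) l51 (.c (nat_lit 2502) l51 .e))))))))) (.s (.c (nat_lit 2647) l46 .e) (.s (.c (nat_lit 2388) l46 .e) (.s (.c (nat_lit 2427) l56 (.c (nat_lit 2444) l51 (.c (nat_lit 2375) l51 (.c (nat_lit 2592) l142 (.c (nat_lit 2592) l66 (.c (nat_lit 2587) l54 (.c (nat_lit 2427) l46 (.c (nat_lit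 2669) l98 .e)))))))) (.s (.c (nat_lit 2660) l75 .e) (.s (.c (nat_lit 2659) l46 .e) (.s (.c (nat_lit 2518) l54 (.c (nat_lit 2632) l54 (.c (nat_lit 2650) l75 (.c (nat_lit 2731) l285 .e)))) (.s (.c (nat_lit 2448) l75 .e) (.s (.c (nat_lit 2701) l59 .e) (.s (.c (nat_lit 2507) l51 .e) (.s (.c (nat_lit 2515) l51 .e) (.s (.c (nat_lit 2319) l54 (.c (nat_lit 2559) l75 (.c (nat_lit 2513) l59 (.c (nat_lit 2434) l46 .e)))) (.s (.c (nat_lit 2656) l59 .e) (.s (.c (nat_lit 2642) l54 .e) (.s (.c (nat_lit 2513) l46 .e) (.s (.c (nat_lit 2319) l54 (.c (nat_lit 2559) l75 (.c (nat_lit 2513) l59 .e))) (.s (.c (nat_lit 2700) l75 .e) s3_109)))))))))))))))))))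

noncomputable def s3_107 : Ss := (.s (.c (nat_lit 2693) l57 .e) (.s (.c (nat_lit 2732) l119 (.c (nat_lit 2732) l182 (.c (nat_lit 2732) l126 .e))) (.s (.c (nat_lit 2732) l201 .e) (.s (.c (nat_lit 2698) l47 .e) (.s (.c (nat_lit 2698) l86 .e) (.s (.c (nat_lit 2630) l52 .e) (.s (.c (nat_lit 2727) l78 .e) (.s (.c (nat_lit 2464) l51 .e) (.s (.c (nat_lit 2478) l46 (.c (nat_lit 2612) l51 (.c (nat_lit 2624) l66 (.c (nat_lit 2682) l66 (.c (nat_lit 2621) l56 (.c (nat_lit 2281) l66 (.c (nat_lit 2613) l66 (.c (nat_lit 2300) l51 (.c (nat_lit 2435) l51 (.c (nat_lit 1873) l51 (.c (nat_lit 2502) l51 (.c (nat_lit 2612) l66 .e)))))))))))) (.s (.c (nat_lit 2547) l51 .e) (.s (.c (nat_lit 2694) l46 (.c (nat_lit 2694) l56 .e)) (.s (.c (nat_lit 2559) l45 .e) (.s (.c (nat_lit 2641) l45 .e) (.s (.c (nat_lit 2380) l47 (.c (nat_lit 2522) l55 .e)) (.s (.c (nat_lit 2502) l65 (.c (nat_lit 2502) l97 .e))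 (.s (.c (nat_lit 2597) l46 .e) (.s (.c (nat_lit 2637) l59 .e) (.s (.c (nat_lit 2655) l75 (.c (nat_lit 2207) l46 .e)) (.s (.c (nat_lit 2391) l75 (.c (nat_lit 2448) l59 .e)) (.s (.c (nat_lit 2628) l46 (.c (nat_lit 2650) l75 (.c (nat_lit 2559) l75 (.c (nat_lit 2448) l75 (.c (nat_lit 2391) l75 (.c (nat_lit 2628) l59 .e)))))) s3_108))))))))))))))))))))

noncomputable def s3_106 : Ss := (.s (.c (nat_lit 2671) l45 .e) (.s (.c (nat_lit 2728) l117 .e) (.s (.c (nat_lit 2445) l48 (.c (nat_lit 2445) l63 .e)) (.s (.c (nat_lit 2731) l82 (.c (nat_lit 2731) l132 (.c (nat_lit 2731) l187 .e))) (.s (.c (nat_lit 1682) l42 (.c (nat_lit 1145) l42 (.c (nat_lit 1894) l42 (.c (nat_lit 2447) l42 .e)))) (.s (.c (nat_lit 2724) l74 .e) (.s (.c (nat_lit 2718) l61 .e) (.s (.c (nat_lit 2718) l93 (.c (nat_lit 2716) l55 .e)) (.s (.c (nat_lit 2727) l58 (.c (nat_lit 2727) l82 .e)) (.s (.c (nat_lit 2718) l93 .e)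 (.s (.c (nat_lit 2616) l47 .e) (.s (.c (nat_lit 2430) l42 .e) (.s (.c (nat_lit 2485) l42 (.c (nat_lit 2725) l112 .e)) (.s (.c (nat_lit 2621) l74 (.c (nat_lit 2481) l74 .e)) (.s (.c (nat_lit 2621) l74 .e) (.s (.c (nat_lit 2732) l140 .e) (.s (.c (nat_lit 2627) l42 (.c (nat_lit 2731) l117 .e)) (.s (.c (nat_lit 2715) l48 (.c (nat_lit 2445) l48 (.c (nat_lit 2715) l107 (.c (nat_lit 2704) l63 .e)))) (.s (.c (nat_lit 2732) l63 .e) (.s (.c (nat_lit 2688) l74 (.c (nat_lit 2732) l107 (.c (nat_lit 2732) l91 .e))) (.s (.c (nat_lit 2731) l179 .e) (.s (.c (nat_lit 2730) l88 (.c (nat_lit 2730) l126 .e)) s3_107))))))))))))))))))))))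

noncomputable def s3_105 : Ss := (.s (.c (nat_lit 2591) l47 .e) (.s (.c (nat_lit 2670) l45 (.c (nat_lit 2730) l61 (.c (nat_lit 2730) l129 .e))) (.s (.c (nat_lit 2661) l43 .e) (.s (.c (nat_lit 2730) l194 .e) (.s (.c (nat_lit 2732) l135 (.c (nat_lit 2723) l253 (.c (nat_lit 2729) l60 (.c (nat_lit 2732) l261 (.c (nat_lit 2674) l61 (.c (nat_lit 2729) l89 (.c (nat_lit 2732) l134 .e))))))) (.s (.c (nat_lit 2732) l12 (.c (nat_lit 2732) l15 (.c (nat_lit 2666) l139 (.c (nat_lit 2729) l82 (.c (nat_lit 2732) l22 .e))))) (.s u3_378 (.s (.c (nat_lit 2685) l44 .e) (.s (.c (nat_lit 2685) l47 .e) (.s u3_379 (.s u3_380 (.s (.c (nat_lit 2729) l55 .e) (.s (.c (nat_lit 2729) l82 .e) (.s (.c (nat_lit 2732) l114 .e) (.s (.c (nat_lit 2732) l19 .e) (.s (.c (nat_lit 2626) l42 (.c (nat_lit 2627) l42 (.c (nat_lit 2704) l42 .e))) (.s (.c (nat_lit 2708) l118 .e) (.s (.c (nat_lit 2732) l36 (.c (nat_lit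 2630) l52 (.c (nat_lit 2723) l74 (.c (nat_lit 2732) l28 .e)))) (.s (.c (nat_lit 2723) l74 .e) (.s (.c (nat_lit 2679) l47 .e) (.s (.c (nat_lit 2677) l43 .e) (.s (.c (nat_lit 2718) l89 (.c (nat_lit 2677) l60 .e)) s3_106))))))))))))))))))))))

noncomputable def s3_104 : Ss := (.s (.c (nat_lit 2730) l61 (.c (nat_lit 2730) l85 .e)) (.s (.c (nat_lit 2683) l45 .e) (.s (.c (nat_lit 2685) l44 (.c (nat_lit 2730) l258 .e)) (.s (.c (nat_lit 2683) l55 .e) (.s (.c (nat_lit 2611) l61 .e) (.s (.c (nat_lit 2685) l47 (.c (nat_lit 2685) l62 .e)) (.s (.c (nat_lit 2668) l45 (.c (nat_lit 2706) l55 .e)) (.s (.c (nat_lit 2664) l55 .e) (.s (.c (nat_lit 2722) l84 (.c (nat_lit 2669) l43 .e)) (.s (.c (nat_lit 2732) l89 .e) (.s (.c (nat_lit 2732) l124 (.c (nat_lit 2718) l93 (.c (nat_lit 2716) l55 (.c (nat_lit 2718) l61 (.c (nat_lit 2671) l45 (.c (nat_lit 2732) l192 .e)))))) (.s (.c (nat_lit 2710) l58 .e)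 (.s (.c (nat_lit 2586) l187 (.c (nat_lit 1503) l58 (.c (nat_lit 2586) l58 (.c (nat_lit 2705) l195 .e)))) (.s (.c (nat_lit 2705) l305 .e) (.s (.c (nat_lit 2620) l47 .e) (.s (.c (nat_lit 2711) l93 (.c (nat_lit 2677) l85 (.c (nat_lit 2609) l47 (.c (nat_lit 2718) l89 (.c (nat_lit 2677) l60 (.c (nat_lit 2677) l43 (.c (nat_lit 2677) l47 (.c (nat_lit 2724) l90 .e)))))))) (.s (.c (nat_lit 2725) l90 .e) (.s (.c (nat_lit 2585) l47 .e) (.s (.c (nat_lit 2677) l43 (.c (nat_lit 2677) l47 .e)) (.s (.c (nat_lit 2591) l44 .e) s3_105))))))))))))))))))))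

noncomputable def s3_103 : Ss := (.s (.c (nat_lit 2691) l57 .e) (.s (.c (nat_lit 2715) l43 (.c (nat_lit 2731) l138 .e)) (.s (.c (nat_lit 2711) l61 (.c (nat_lit 2711) l85 .e)) (.s (.c (nat_lit 2688) l55 .e) (.s (.c (nat_lit 767) l58 .e) (.s (.c (nat_lit 2443) l58 (.c (nat_lit 2434) l58 .e)) (.s (.c (nat_lit 2585) l44 .e) (.s (.c (nat_lit 2589) l47 (.c (nat_lit 2590) l58 (.c (nat_lit 2601) l45 (.c (nat_lit 2591) l44 (.c (nat_lit 2591) l61 (.c (nat_lit 2443) l58 (.c (nat_lit 2675) l58 (.c (nat_lit 2589) l62 .e)))))))) (.s (.c (nat_lit 2601) l45 (.c (nat_lit 2675) l58 .e)) (.s (.c (nat_lit 2445) l47 .e) (.s (.c (nat_lit 2590) l58 (.c (nat_lit 2667) l55 (.c (nat_lit 2667) l82 .e))) (.s (.c (nat_lit 2583) l58 (.c (nat_lit 2583) l45 .e)) (.s (.c (nat_lit 2603) l44 .e) (.s (.c (nat_lit 2591) l47 (.c (nat_lit 2585) l47 (.c (nat_lit 2582) l47 .e))) (.s (.c (nat_lit 2606) l45 .e) (.s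 (.c (nat_lit 2615) l45 .e) (.s (.c (nat_lit 2719) l60 .e) (.s (.c (nat_lit 2680) l55 .e) (.s (.c (nat_lit 2443) l58 .e) (.s (.c (nat_lit 2591) l44 (.c (nat_lit 2591) l61 .e)) (.s (.c (nat_lit 2605) l43 .e) (.s (.c (nat_lit 2710) l61 .e) s3_104))))))))))))))))))))))

noncomputable def s3_102 : Ss := (.s (.c (nat_lit 1529) l55 .e) (.s (.c (nat_lit 2275) l55 .e) (.s (.c (nat_lit 2708) l134 (.c (nat_lit 2442) l47 (.c (nat_lit 2459) l47 .e))) (.s (.c (nat_lit 2442) l47 .e) (.s (.c (nat_lit 2708) l89 .e) (.s (.c (nat_lit 1877) l61 (.c (nat_lit 1111) l61 (.c (nat_lit 2666) l61 (.c (nat_lit 2666) l85 (.c (nat_lit 2674) l61 (.c (nat_lit 2722) l138 .e)))))) (.s (.c (nat_lit 2586) l55 .e) (.s (.c (nat_lit 2586) l187 (.c (nat_lit 1503) l58 (.c (nat_lit 2586) l58 (.c (nat_lit 2722) l62 (.c (nat_lit 2705) l195 (.c (nat_lit 2722) l86 .e)))))) (.s (.c (nat_lit 2590) l55 .e) (.s (.c (nat_lit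 2606) l61 .e) (.s u3_377 (.s (.c (nat_lit 2711) l61 (.c (nat_lit 2611) l61 (.c (nat_lit 2711) l85 (.c (nat_lit 2662) l55 .e)))) (.s (.c (nat_lit 2730) l61 (.c (nat_lit 2730) l85 (.c (nat_lit 2730) l134 .e))) (.s (.c (nat_lit 2601) l45 (.c (nat_lit 2601) l55 .e)) (.s (.c (nat_lit 2667) l60 .e) (.s (.c (nat_lit 2727) l61 (.c (nat_lit 2691) l57 (.c (nat_lit 2726) l138 (.c (nat_lit 2630) l47 (.c (nat_lit 2727) l85 .e))))) (.s (.c (nat_lit 2630) l47 .e) (.s (.c (nat_lit 2691) l57 (.c (nat_lit 2726) l138 .e)) (.s (.c (nat_lit 2687) l43 .e) s3_103)))))))))))))))))))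

noncomputable def s3_101 : Ss := (.s (.c (nat_lit 1529) l55 (.c (nat_lit 2722) l190 (.c (nat_lit 2729) l199 .e))) (.s (.c (nat_lit 1103) l60 .e) (.s u3_373 (.s u3_374 (.s (.c (nat_lit 2722) l190 .e) (.s (.c (nat_lit 1529) l55 (.c (nat_lit 1889) l55 .e)) (.s (.c (nat_lit 2666) l61 (.c (nat_lit 2666) l62 .e)) (.s (.c (nat_lit 2730) l58 .e) (.s (.c (nat_lit 2730) l127 .e) (.s (.c (nat_lit 2602) l44 .e) (.s u3_375 (.s (.c (nat_lit 2705) l55 .e) (.s (.c (nat_lit 2275) l58 .e) (.s u3_376 (.s (.c (nat_lit 2586) l58 (.c (nat_lit 2705) l58 (.c (nat_lit 2666) l139 (.c (nat_lit 2586) l82 (.c (nat_lit 2586) l55 (.c (nat_lit 2705) l82 .e)))))) (.s (.c (nat_lit 2586) l187 (.c (nat_lit 1503) l58 (.c (nat_lit 2586) l58 (.c (nat_lit 2666) l134 (.c (nat_lit 2722) l62 (.c (nat_lit 2722) l60 (.c (nat_lit 2705) l195 (.c (nat_lit 2722) l86 (.c (nat_lit 2722) l89 .e))))))))) (.s (.c (nat_lit 2729)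 l253 (.c (nat_lit 2729) l55 (.c (nat_lit 2705) l305 (.c (nat_lit 2729) l195 .e)))) (.s (.c (nat_lit 2583) l45 (.c (nat_lit 2583) l55 .e)) (.s (.c (nat_lit 2461) l47 .e) (.s (.c (nat_lit 2196) l47 .e) s3_102))))))))))))))))))))

noncomputable def s3_100 : Ss := (.s (.c (nat_lit 2725) l88 .e) (.s (.c (nat_lit 2504) l55 .e) (.s (.c (nat_lit 2609) l47 (.c (nat_lit 2601) l43 .e)) (.s (.c (nat_lit 2730) l195 .e) (.s (.c (nat_lit 2666) l134 (.c (nat_lit 2666) l135 .e)) (.s (.c (nat_lit 2666) l61 (.c (nat_lit 2666) l85 (.c (nat_lit 2275) l55 (.c (nat_lit 2666) l62 (.c (nat_lit 2666) l86 (.c (nat_lit 2730) l253 .e)))))) (.s (.c (nat_lit 2005) l60 (.c (nat_lit 2682) l89 (.c (nat_lit 2673) l60 (.c (nat_lit 2682) l60 (.c (nat_lit 2725) l135 .e))))) (.s (.c (nat_lit 2712) l55 .e) (.s (.c (nat_lit 763) l55 .e) (.s (.c (nat_lit 2725) l61 .e) (.s (.c (nat_lit 2730) l190 .e) (.s (.c (nat_lit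 2666) l61 (.c (nat_lit 2666) l85 (.c (nat_lit 2666) l62 (.c (nat_lit 2666) l86 .e)))) (.s (.c (nat_lit 2712) l305 .e) (.s (.c (nat_lit 2682) l138 (.c (nat_lit 2725) l90 (.c (nat_lit 2725) l86 .e))) (.s (.c (nat_lit 2679) l47 (.c (nat_lit 2707) l60 (.c (nat_lit 2708) l60 .e))) (.s (.c (nat_lit 2679) l47 (.c (nat_lit 2707) l60 .e)) (.s (.c (nat_lit 2708) l61 (.c (nat_lit 2730) l61 (.c (nat_lit 2723) l253 (.c (nat_lit 2729) l60 (.c (nat_lit 2729) l89 (.c (nat_lit 2708) l62 (.c (nat_lit 2730) l85 (.c (nat_lit 2730) l134 (.c (nat_lit 2729) l138 .e))))))))) s3_101)))))))))))))))))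

noncomputable def s3_99 : Ss := (.s (.c (nat_lit 2576) l44 (.c (nat_lit 2560) l47 (.c (nat_lit 2651) l62 .e))) (.s (.c (nat_lit 2633) l45 .e) (.s u3_372 (.s (.c (nat_lit 2730) l190 (.c (nat_lit 2730) l131 (.c (nat_lit 2730) l123 .e))) (.s (.c (nat_lit 2692) l58 (.c (nat_lit 2727) l88 (.c (nat_lit 2727) l95 (.c (nat_lit 2692) l45 .e)))) (.s (.c (nat_lit 2560) l47 (.c (nat_lit 2732) l201 (.c (nat_lit 2732) l262 .e))) (.s (.c (nat_lit 2732) l255 .e) (.s (.c (nat_lit 2730) l95 (.c (nat_lit 2730) l88 (.c (nat_lit 2730) l126 (.c (nat_lit 2730) l194 (.c (nat_lit 2730) l190 (.c (nat_lit 2730) l131 .e)))))) (.s (.c (nat_lit 2621) l55 (.c (nat_lit 2606) l45 (.c (nat_lit 2606) l55 .e))) (.s (.c (nat_lit 2709) l60 .e) (.s (.c (nat_lit 2691) l60 .e) (.s (.c (nat_lit 2678) l55 .e) (.s (.c (nat_lit 2666) l134 (.c (nat_lit 2682) l60 (.c (nat_lit 2617) l55 (.c (nat_lit 2682) l86 (.c (nat_lit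 2275) l55 (.c (nat_lit 2712) l305 (.c (nat_lit 2712) l55 (.c (nat_lit 2666) l135 (.c (nat_lit 2712) l82 (.c (nat_lit 2617) l82 .e)))))))))) (.s (.c (nat_lit 2682) l60 (.c (nat_lit 2682) l86 (.c (nat_lit 2712) l55 (.c (nat_lit 2712) l82 .e)))) (.s (.c (nat_lit 2298) l47 (.c (nat_lit 1980) l45 (.c (nat_lit 2725) l88 (.c (nat_lit 2298) l62 .e)))) s3_100)))))))))))))))

noncomputable def s3_98 : Ss := (.s (.c (nat_lit 2658) l93 .e) (.s (.c (nat_lit 2212) l47 (.c (nat_lit 2722) l84 (.c (nat_lit 2212) l93 (.c (nat_lit 1870) l45 (.c (nat_lit 2529) l47 (.c (nat_lit 2380) l47 (.c (nat_lit 2725) l88 (.c (nat_lit 2725) l119 (.c (nat_lit 2638) l62 .e))))))))) (.s (.c (nat_lit 2692) l45 (.c (nat_lit 2692) l55 .e)) (.s (.c (nat_lit 2725) l88 (.c (nat_lit 2725) l119 .e)) (.s (.c (nat_lit 2732) l119 (.c (nat_lit 2732) l182 (.c (nat_lit 2732) l126 (.c (nat_lit 2732) l255 (.c (nat_lit 2723)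 l84 (.c (nat_lit 2732) l197 .e)))))) (.s u3_371 (.s (.c (nat_lit 2631) l43 .e) (.s (.c (nat_lit 2387) l47 (.c (nat_lit 2388) l58 (.c (nat_lit 2632) l45 (.c (nat_lit 1868) l45 (.c (nat_lit 2212) l44 (.c (nat_lit 2632) l58 .e)))))) (.s (.c (nat_lit 2690) l60 .e) (.s (.c (nat_lit 2723) l84 .e) (.s (.c (nat_lit 2429) l45 .e) (.s (.c (nat_lit 2388) l58 (.c (nat_lit 1868) l45 (.c (nat_lit 2212) l44 .e))) (.s (.c (nat_lit 2662) l58 (.c (nat_lit 2591) l44 (.c (nat_lit 2591) l61 (.c (nat_lit 2603) l44 (.c (nat_lit 2445) l47 (.c (nat_lit 2668) l61 .e)))))) (.s (.c (nat_lit 2640) l61 .e) (.s (.c (nat_lit 2388) l58 (.c (nat_lit 1868) l45 .e)) (.s (.c (nat_lit 2651) l47 .e) s3_99))))))))))))))))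

noncomputable def s3_97 : Ss := (.s (.c (nat_lit 2682) l60 (.c (nat_lit 2682) l62 .e)) (.s (.c (nat_lit 2682) l89 (.c (nat_lit 2712) l305 (.c (nat_lit 2617) l58 (.c (nat_lit 2682) l90 .e)))) (.s (.c (nat_lit 2712) l305 (.c (nat_lit 2617) l58 .e)) (.s (.c (nat_lit 2275) l55 (.c (nat_lit 2730) l58 (.c (nat_lit 2730) l253 (.c (nat_lit 2730) l187 .e)))) (.s (.c (nat_lit 2656) l45 .e) (.s (.c (nat_lit 2656) l58 .e) (.s (.c (nat_lit 2568) l47 .e) (.s (.c (nat_lit 2730) l199 .e) (.s (.c (nat_lit 2651) l43 .e) (.s (.c (nat_lit 2658) l47 .e) (.s (.c (nat_lit 2632) l45 (.c (nat_lit 2697) l55 .e)) (.s (.c (nat_lit 2481) l45 .e) (.s (.c (nat_lit 2505) l58 .e) (.s (.c (nat_lit 2634) l45 .e) (.s (.c (nat_lit 2727) l88 (.c (nat_lit 2727) l119 .e)) (.s (.c (nat_lit 2727) l88 (.c (nat_lit 2727) l126 .e)) (.s (.c (nat_lit 2686) l43 (.c (nat_lit 2714) l60 .e)) (.s (.c (nat_lit 2727) l88 (.c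 (nat_lit 2726) l92 .e)) (.s (.c (nat_lit 2717) l61 .e) (.s (.c (nat_lit 2693) l57 (.c (nat_lit 2690) l60 (.c (nat_lit 2717) l62 .e))) (.s (.c (nat_lit 2540) l47 (.c (nat_lit 2643) l62 .e)) (.s (.c (nat_lit 2297) l45 .e) s3_98))))))))))))))))))))))

noncomputable def s3_96 : Ss := (.s (.c (nat_lit 2621) l58 .e) (.s (.c (nat_lit 2616) l47 (.c (nat_lit 2681) l62 .e)) (.s (.c (nat_lit 2615) l45 (.c (nat_lit 2615) l58 .e)) (.s (.c (nat_lit 2730) l95 (.c (nat_lit 2730) l88 (.c (nat_lit 2730) l126 (.c (nat_lit 2730) l194 (.c (nat_lit 2730) l190 (.c (nat_lit 2730) l131 (.c (nat_lit 2678) l58 .e))))))) (.s (.c (nat_lit 2725) l85 (.c (nat_lit 2725) l121 .e)) (.s (.c (nat_lit 2477) l47 .e) (.s (.c (nat_lit 2005) l60 (.c (nat_lit 2673) l60 (.c (nat_lit 2682) l60 (.c (nat_lit 2275) l55 (.c (nat_lit 2730) l58 (.c (nat_lit 2730) l253 (.c (nat_lit 2730) l187 (.c (nat_lit 2682) l90 (.c (nat_lit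 2725) l139 (.c (nat_lit 2725) l134 .e)))))))))) (.s (.c (nat_lit 2682) l138 (.c (nat_lit 2682) l139 .e)) (.s u3_370 (.s (.c (nat_lit 2275) l55 (.c (nat_lit 2730) l127 (.c (nat_lit 2730) l58 (.c (nat_lit 2730) l253 (.c (nat_lit 2730) l195 (.c (nat_lit 2730) l187 (.c (nat_lit 2730) l132 .e))))))) (.s (.c (nat_lit 2725) l139 .e) (.s (.c (nat_lit 2682) l138 (.c (nat_lit 2725) l61 (.c (nat_lit 2725) l85 .e))) (.s (.c (nat_lit 2617) l195 (.c (nat_lit 2712) l82 (.c (nat_lit 2712) l132 .e))) (.s (.c (nat_lit 2725) l90 (.c (nat_lit 2275) l55 (.c (nat_lit 2730) l58 (.c (nat_lit 2730) l253 (.c (nat_lit 2730) l187 (.c (nat_lit 2725) l62 .e)))))) s3_97))))))))))))))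

noncomputable def s3_95 : Ss := (.s (.c (nat_lit 2589) l43 .e) (.s (.c (nat_lit 2439) l47 .e) (.s (.c (nat_lit 1894) l47 .e) (.s (.c (nat_lit 2724) l82 (.c (nat_lit 2709) l58 (.c (nat_lit 2709) l45 (.c (nat_lit 2710) l58 (.c (nat_lit 2730) l190 (.c (nat_lit 2730) l199 (.c (nat_lit 2709) l55 .e))))))) (.s (.c (nat_lit 2616) l47 (.c (nat_lit 2591) l47 (.c (nat_lit 2585) l47 (.c (nat_lit 2620) l47 (.c (nat_lit 2582) l47 (.c (nat_lit 2603) l47 .e)))))) (.s (.c (nat_lit 2606) l45 (.c (nat_lit 2606) l58 .e)) (.s (.c (nat_lit 2641) l45 (.c (nat_lit 2641) l58 .e)) (.s (.c (nat_lit 2731) l82 (.c (nat_lit 2558) l55 (.c (nat_lit 2380) l47 (.c (nat_lit 2560) l47 (.c (nat_lit 2522) l55 (.c (nat_lit 2641) l45 (.c (nat_lit 2559) l45 (.c (nat_lit 2651) l62 (.c (nat_lit 2658) l47 (.c (nat_lit 2731) l193 .e)))))))))) (.s (.c (nat_lit 2712) l95 .e) (.s (.c (nat_lit 2683) l45 (.c (nat_lit 2683)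 l58 .e)) (.s (.c (nat_lit 2716) l253 .e) (.s (.c (nat_lit 2647) l60 .e) (.s (.c (nat_lit 2492) l45 .e) (.s (.c (nat_lit 2585) l47 (.c (nat_lit 2583) l45 (.c (nat_lit 2583) l55 (.c (nat_lit 2665) l62 .e)))) (.s (.c (nat_lit 2679) l61 .e) (.s (.c (nat_lit 2732) l261 (.c (nat_lit 2729) l138 (.c (nat_lit 2732) l138 .e))) s3_96))))))))))))))))

noncomputable def s3_94 : Ss := (.s (.c (nat_lit 763) l58 .e) (.s (.c (nat_lit 1870) l45 (.c (nat_lit 1847) l45 (.c (nat_lit 2263) l55 .e))) (.s (.c (nat_lit 2590) l58 (.c (nat_lit 2706) l132 (.c (nat_lit 2668) l45 (.c (nat_lit 2706) l55 (.c (nat_lit 2667) l82 (.c (nat_lit 2196) l47 (.c (nat_lit 2668) l58 .e))))))) (.s (.c (nat_lit 2711) l61 (.c (nat_lit 2711) l85 (.c (nat_lit 2684) l61 .e))) (.s (.c (nat_lit 2630) l47 (.c (nat_lit 2716) l253 (.c (nat_lit 2630) l62 .e))) (.s (.c (nat_lit 2691) l60 (.c (nat_lit 2691) l89 .e)) (.s (.c (nat_lit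 2716) l58 (.c (nat_lit 2727) l61 (.c (nat_lit 2691) l61 (.c (nat_lit 2716) l55 (.c (nat_lit 2726) l138 (.c (nat_lit 2727) l85 (.c (nat_lit 2691) l60 (.c (nat_lit 2716) l82 (.c (nat_lit 2691) l62 .e))))))))) (.s (.c (nat_lit 2716) l58 (.c (nat_lit 2716) l55 (.c (nat_lit 2630) l47 (.c (nat_lit 2716) l82 .e)))) (.s (.c (nat_lit 2613) l47 .e) (.s (.c (nat_lit 2613) l62 .e) (.s (.c (nat_lit 2670) l45 (.c (nat_lit 1894) l47 (.c (nat_lit 2589) l43 (.c (nat_lit 2670) l55 .e)))) (.s (.c (nat_lit 2688) l58 (.c (nat_lit 2688) l55 (.c (nat_lit 2716) l253 (.c (nat_lit 2439) l47 (.c (nat_lit 2493) l47 (.c (nat_lit 2688) l82 .e)))))) (.s (.c (nat_lit 2493) l47 .e) (.s (.c (nat_lit 2732) l261 (.c (nat_lit 2661) l43 (.c (nat_lit 2585) l47 (.c (nat_lit 2606) l45 (.c (nat_lit 2667) l60 (.c (nat_lit 2590) l55 (.c (nat_lit 2729) l138 (.c (nat_lit 2732) l138 (.c (nat_lit 2665) l62 (.c (nat_lit 2606)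 l58 (.c (nat_lit 2589) l43 (.c (nat_lit 2661) l60 .e)))))))))))) s3_95))))))))))))))

noncomputable def s3_93 : Ss := (.s (.c (nat_lit 2421) l47 (.c (nat_lit 2656) l45 (.c (nat_lit 2656) l55 .e))) (.s (.c (nat_lit 2705) l92 (.c (nat_lit 2712) l84 .e)) (.s (.c (nat_lit 2539) l45 .e) (.s (.c (nat_lit 2705) l92 .e) (.s (.c (nat_lit 2680) l55 (.c (nat_lit 2680) l82 .e)) (.s (.c (nat_lit 1523) l55 .e) (.s (.c (nat_lit 1859) l60 .e) (.s (.c (nat_lit 2691) l61 (.c (nat_lit 2691) l85 .e)) (.s (.c (nat_lit 2280) l47 .e) (.s (.c (nat_lit 2571) l82 .e) (.s (.c (nat_lit 2660) l58 (.c (nat_lit 2574) l45 .e)) (.s (.c (nat_lit 2641) l45 (.c (nat_lit 2641) l58 (.c (nat_lit 2705) l88 .e))) (.s (.c (nat_lit 2701) l61 .e) (.s (.c (nat_lit 2609) l61 .e) (.s (.c (nat_lit 2207) l58 (.c (nat_lit 763) l58 (.c (nat_lit 2593) l58 (.c (nat_lit 2440) l58 .e)))) (.s (.c (nat_lit 2440) l45 .e) (.s (.c (nat_lit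 2593) l58 .e) (.s (.c (nat_lit 2644) l60 .e) (.s (.c (nat_lit 2208) l55 .e) (.s (.c (nat_lit 2720) l58 .e) (.s (.c (nat_lit 2559) l45 (.c (nat_lit 2653) l55 .e)) (.s (.c (nat_lit 1986) l45 .e) (.s (.c (nat_lit 2305) l55 .e) (.s (.c (nat_lit 2211) l58 (.c (nat_lit 2211) l45 .e)) s3_94))))))))))))))))))))))))

noncomputable def s3_92 : Ss := (.s (.c (nat_lit 1846) l42 .e) (.s (.c (nat_lit 2433) l42 .e) (.s (.c (nat_lit 1857) l42 (.c (nat_lit 2732) l33 .e)) (.s (.c (nat_lit 2731) l179 (.c (nat_lit 2731) l235 .e)) (.s (.c (nat_lit 2717) l74 (.c (nat_lit 2727) l78 (.c (nat_lit 2732) l288 .e))) (.s (.c (nat_lit 2731) l207 .e) (.s (.c (nat_lit 2731) l141 .e) (.s (.c (nat_lit 2731) l97 .e) (.s (.c (nat_lit 2714) l65 (.c (nat_lit 2727) l63 (.c (nat_lit 2732) l143 (.c (nat_lit 2715) l107 (.c (nat_lit 2717) l74 (.c (nat_lit 2732) l186 .e)))))) (.s (.c (nat_lit 2726) l65 .e) (.s (.c (nat_lit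 2698) l48 .e) (.s (.c (nat_lit 2698) l63 .e) (.s (.c (nat_lit 2698) l140 .e) (.s (.c (nat_lit 2541) l58 .e) (.s u3_368 (.s (.c (nat_lit 2684) l58 .e) (.s (.c (nat_lit 2728) l89 .e) (.s (.c (nat_lit 2631) l43 (.c (nat_lit 2631) l60 .e)) (.s (.c (nat_lit 2678) l55 (.c (nat_lit 2647) l60 (.c (nat_lit 2683) l60 .e))) (.s (.c (nat_lit 2421) l47 (.c (nat_lit 2727) l82 (.c (nat_lit 2643) l62 (.c (nat_lit 2658) l47 (.c (nat_lit 2568) l47 (.c (nat_lit 2656) l58 (.c (nat_lit 2656) l45 (.c (nat_lit 2712) l84 (.c (nat_lit 2656) l55 (.c (nat_lit 2727) l193 .e)))))))))) s3_93))))))))))))))))))))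

noncomputable def s3_91 : Ss := (.s (.c (nat_lit 2732) l159 .e) (.s (.c (nat_lit 2731) l207 (.c (nat_lit 2714) l50 .e)) (.s (.c (nat_lit 2729) l69 .e) (.s (.c (nat_lit 2436) l69 .e) (.s (.c (nat_lit 2722) l107 .e) (.s (.c (nat_lit 2448) l63 .e) (.s (.c (nat_lit 2722) l219 .e) (.s (.c (nat_lit 2732) l100 (.c (nat_lit 2732) l104 .e)) (.s (.c (nat_lit 2721) l71 (.c (nat_lit 2452) l42 (.c (nat_lit 2721) l105 .e))) (.s (.c (nat_lit 2708) l48 .e) (.s (.c (nat_lit 2585) l42 .e) (.s (.c (nat_lit 2591) l42 .e) (.s (.c (nat_lit 2729) l207 .e) (.s (.c (nat_lit 2732) l100 .e) (.s (.c (nat_lit 2732) l13 (.c (nat_lit 2721) l65 (.c (nat_lit 2729) l65 (.c (nat_lit 2732) l17 (.c (nat_lit 2726) l65 (.c (nat_lit 2731) l97 (.c (nat_lit 2729) l97 (.c (nat_lit 2732) l18 .e)))))))) (.s (.c (nat_lit 2732) l177 .e) (.s (.c (nat_lit 2732) l169 (.c (nat_lit 2708) l118 (.c (nat_lit 2732) l173 .e))) (.s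 (.c (nat_lit 2678) l78 .e) (.s (.c (nat_lit 2724) l112 .e) (.s (.c (nat_lit 2194) l160 .e) (.s (.c (nat_lit 2724) l179 (.c (nat_lit 2298) l42 (.c (nat_lit 2724) l74 (.c (nat_lit 2731) l235 (.c (nat_lit 2732) l27 .e))))) (.s (.c (nat_lit 2729) l65 (.c (nat_lit 2729) l97 .e)) s3_92))))))))))))))))))))))

noncomputable def s3_90 : Ss := (.s (.c (nat_lit 1858) l65 .e) (.s (.c (nat_lit 1960) l42 .e) (.s (.c (nat_lit 2712) l65 .e) (.s (.c (nat_lit 2433) l42 (.c (nat_lit 1846) l42 (.c (nat_lit 2722) l101 .e))) (.s (.c (nat_lit 2732) l114 (.c (nat_lit 2732) l102 .e)) (.s (.c (nat_lit 2707) l50 .e) (.s (.c (nat_lit 2732) l33 (.c (nat_lit 2732) l100 (.c (nat_lit 2732) l145 .e))) (.s (.c (nat_lit 2731) l157 .e) (.s (.c (nat_lit 2690) l50 .e) (.s (.c (nat_lit 2605) l49 .e) (.s (.c (nat_lit 2723) l65 .e) (.s (.c (nat_lit 2732) l63 (.c (nat_lit 2731) l207 (.c (nat_lit 2732) l87 .e))) (.s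 (.c (nat_lit 2714) l50 (.c (nat_lit 2732) l136 .e)) (.s (.c (nat_lit 2722) l49 .e) (.s (.c (nat_lit 2720) l97 .e) (.s (.c (nat_lit 1487) l65 .e) (.s (.c (nat_lit 1857) l42 (.c (nat_lit 2732) l33 (.c (nat_lit 2433) l42 (.c (nat_lit 2732) l104 (.c (nat_lit 2732) l151 .e))))) (.s (.c (nat_lit 2701) l63 .e) (.s (.c (nat_lit 2698) l49 .e) (.s (.c (nat_lit 2698) l69 .e) (.s (.c (nat_lit 2719) l49 .e) (.s (.c (nat_lit 2731) l141 (.c (nat_lit 2719) l69 .e)) (.s (.c (nat_lit 2708) l48 (.c (nat_lit 2722) l107 (.c (nat_lit 2729) l107 .e))) s3_91)))))))))))))))))))))))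

noncomputable def s3_89 : Ss := (.s u3_366 (.s (.c (nat_lit 2727) l75 (.c (nat_lit 2727) l232 (.c (nat_lit 2636) l46 (.c (nat_lit 2636) l56 (.c (nat_lit 2637) l59 (.c (nat_lit 2597) l46 (.c (nat_lit 2727) l180 .e))))))) (.s (.c (nat_lit 2645) l46 .e) (.s (.c (nat_lit 2499) l44 .e) (.s (.c (nat_lit 2461) l44 .e) (.s (.c (nat_lit 2446) l58 .e) (.s (.c (nat_lit 1982) l42 .e) (.s (.c (nat_lit 2404) l74 .e) (.s (.c (nat_lit 2537) l54 .e) (.s (.c (nat_lit 1859) l43 .e) (.s (.c (nat_lit 2213) l55 .e) (.s (.c (nat_lit 2684) l160 .e) (.s (.c (nat_lit 1894) l44 .e) (.s (.c (nat_lit 2265) l44 .e) (.s (.c (nat_lit 1878) l55 .e) (.s (.c (nat_lit 2356) l44 (.c (nat_lit 2563) l44 .e)) (.s (.c (nat_lit 2492) l160 .e) (.s (.c (nat_lit 2300) l51 (.c (nat_lit 2503) l66 .e)) (.s (.c (nat_lit 2547) l51 (.c (nat_lit 2369) l51 (.c (nat_lit 2533) l51 .e))) (.s u3_367 (.s (.c (nat_lit 2574) l66 (.c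 (nat_lit 2369) l51 .e)) (.s (.c (nat_lit 2356) l44 .e) (.s (.c (nat_lit 1781) l42 .e) (.s (.c (nat_lit 2651) l42 .e) (.s (.c (nat_lit 2574) l66 .e) s3_90)))))))))))))))))))))))))

noncomputable def s3_88 : Ss := (.s (.c (nat_lit 2468) l44 .e) (.s (.c (nat_lit 2503) l47 .e) (.s (.c (nat_lit 2274) l47 .e) (.s (.c (nat_lit 2005) l60 (.c (nat_lit 2005) l62 .e)) (.s (.c (nat_lit 2718) l89 (.c (nat_lit 2677) l60 (.c (nat_lit 2461) l47 (.c (nat_lit 2601) l43 (.c (nat_lit 2709) l60 (.c (nat_lit 2647) l60 (.c (nat_lit 2683) l60 (.c (nat_lit 2461) l44 (.c (nat_lit 2724) l89 .e))))))))) (.s (.c (nat_lit 2455) l43 .e) (.s (.c (nat_lit 1869) l42 .e) (.s (.c (nat_lit 2592) l49 .e) (.s (.c (nat_lit 2693) l59 (.c (nat_lit 2692) l59 (.c (nat_lit 2727) l83 (.c (nat_lit 2692) l56 (.c (nat_lit 2553) l46 (.c (nat_lit 2642) l54 (.c (nat_lit 2388) l46 (.c (nat_lit 2647) l46 (.c (nat_lit 2537) l54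 (.c (nat_lit 2727) l189 .e)))))))))) (.s (.c (nat_lit 2645) l46 (.c (nat_lit 2610) l46 .e)) (.s (.c (nat_lit 2626) l51 .e) (.s (.c (nat_lit 2427) l56 (.c (nat_lit 2444) l51 (.c (nat_lit 2375) l51 (.c (nat_lit 2592) l142 (.c (nat_lit 2596) l46 (.c (nat_lit 2592) l66 (.c (nat_lit 2587) l54 (.c (nat_lit 2427) l46 (.c (nat_lit 2507) l51 (.c (nat_lit 2669) l98 (.c (nat_lit 2537) l54 (.c (nat_lit 2596) l56 .e)))))))))))) (.s (.c (nat_lit 2700) l75 (.c (nat_lit 2700) l109 .e)) (.s (.c (nat_lit 2421) l59 .e) (.s (.c (nat_lit 2699) l59 (.c (nat_lit 2699) l83 .e)) s3_89)))))))))))))))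

noncomputable def s3_87 : Ss := (.s u3_364 (.s (.c (nat_lit 2718) l61 (.c (nat_lit 2718) l85 .e)) (.s (.c (nat_lit 2720) l61 (.c (nat_lit 2720) l85 (.c (nat_lit 2695) l61 .e))) (.s (.c (nat_lit 2720) l61 (.c (nat_lit 2720) l85 .e)) (.s (.c (nat_lit 2719) l60 (.c (nat_lit 2719) l89 .e)) (.s (.c (nat_lit 2196) l47 (.c (nat_lit 2196) l62 (.c (nat_lit 1854) l47 .e))) (.s (.c (nat_lit 2196) l47 (.c (nat_lit 2196) l62 .e)) (.s (.c (nat_lit 1877) l47 .e) (.s u3_365 (.s (.c (nat_lit 2445) l43 .e) (.s (.c (nat_lit 2462) l55 .e) (.s (.c (nat_lit 2605) l49 (.c (nat_lit 2580) l49 .e)) (.s (.c (nat_lit 2717) l75 (.c (nat_lit 2419) l59 (.c (nat_lit 1944) l46 (.c (nat_lit 2553) l46 (.c (nat_lit 2515) l51 (.c (nat_lit 2388) l46 (.c (nat_lit 2537) l54 (.c (nat_lit 2717) l180 .e)))))))) (.s (.c (nat_lit 2100) l42 .e) (.s (.c (nat_lit 2313) l1 .e) (.s (.c (nat_lit 2502) l65 (.c (nat_lit 2502)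 l97 (.c (nat_lit 2263) l65 (.c (nat_lit 2231) l65 .e)))) (.s (.c (nat_lit 2263) l65 .e) (.s (.c (nat_lit 1859) l43 (.c (nat_lit 2204) l47 .e)) (.s (.c (nat_lit 2232) l47 .e) (.s (.c (nat_lit 2312) l47 .e) s3_88))))))))))))))))))))

noncomputable def s3_86 : Ss := (.s (.c (nat_lit 2717) l61 (.c (nat_lit 2717) l85 .e)) (.s (.c (nat_lit 2504) l58 .e) (.s (.c (nat_lit 2725) l85 (.c (nat_lit 2725) l121 (.c (nat_lit 2455) l43 (.c (nat_lit 2725) l185 .e)))) (.s (.c (nat_lit 2694) l55 (.c (nat_lit 2694) l58 (.c (nat_lit 2644) l60 (.c (nat_lit 2694) l82 (.c (nat_lit 2644) l62 .e))))) (.s (.c (nat_lit 2694) l55 (.c (nat_lit 2694) l58 (.c (nat_lit 2694) l82 .e))) (.s (.c (nat_lit 2630) l47 (.c (nat_lit 2631) l43 (.c (nat_lit 2716) l253 (.c (nat_lit 2589) l43 (.c (nat_lit 2630) l62 (.c (nat_lit 2631) l60 (.c (nat_lit 2445) l43 (.c (nat_lit 2630) l61 (.c (nat_lit 2589) l60 .e))))))))) (.s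 (.c (nat_lit 2446) l55 .e) (.s (.c (nat_lit 2438) l44 .e) (.s (.c (nat_lit 2493) l44 .e) (.s (.c (nat_lit 2630) l61 .e) (.s (.c (nat_lit 2577) l43 (.c (nat_lit 2677) l85 (.c (nat_lit 2461) l44 (.c (nat_lit 2677) l61 (.c (nat_lit 2577) l60 .e))))) (.s (.c (nat_lit 1859) l43 (.c (nat_lit 2468) l44 (.c (nat_lit 2312) l47 (.c (nat_lit 2232) l47 (.c (nat_lit 2204) l47 (.c (nat_lit 1854) l47 (.c (nat_lit 2190) l47 .e))))))) (.s (.c (nat_lit 2677) l85 (.c (nat_lit 2609) l61 (.c (nat_lit 2461) l44 (.c (nat_lit 2677) l61 .e)))) (.s (.c (nat_lit 2005) l60 (.c (nat_lit 2671) l45 (.c (nat_lit 2005) l62 (.c (nat_lit 2468) l44 (.c (nat_lit 2671) l58 .e))))) s3_87))))))))))))))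

noncomputable def s3_85 : Ss := (.s (.c (nat_lit 1109) l58 .e) (.s (.c (nat_lit 2591) l44 (.c (nat_lit 2591) l61 (.c (nat_lit 2453) l45 (.c (nat_lit 2593) l61 .e)))) (.s (.c (nat_lit 2207) l58 (.c (nat_lit 767) l58 (.c (nat_lit 763) l58 (.c (nat_lit 1862) l58 .e)))) (.s (.c (nat_lit 1859) l43 (.c (nat_lit 1859) l138 .e)) (.s (.c (nat_lit 767) l58 (.c (nat_lit 2448) l134 .e)) (.s (.c (nat_lit 1852) l45 .e) (.s (.c (nat_lit 2453) l45 .e) (.s (.c (nat_lit 2448) l47 .e) (.s (.c (nat_lit 2505) l58 (.c (nat_lit 2303) l45 .e)) (.s (.c (nat_lit 2298) l43 .e) (.s (.c (nat_lit 2008) l47 .e) (.s (.c (nat_lit 2645) l58 .e) (.s (.c (nat_lit 2285) l47 .e) (.s (.c (nat_lit 2694) l55 (.c (nat_lit 2694) l58 (.c (nat_lit 2718) l89 (.c (nat_lit 2718) l93 (.c (nat_lit 2718) l61 (.c (nat_lit 2644) l60 (.c (nat_lit 2718) l85 (.c (nat_lit 2694) l82 (.c (nat_lit 2644) l62 (.c (nat_lit 2718) l128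 .e)))))))))) (.s u3_363 (.s (.c (nat_lit 2683) l55 (.c (nat_lit 2683) l45 (.c (nat_lit 2683) l58 (.c (nat_lit 2503) l47 (.c (nat_lit 2713) l82 .e))))) (.s (.c (nat_lit 2623) l61 .e) (.s (.c (nat_lit 2640) l61 (.c (nat_lit 2631) l43 (.c (nat_lit 2717) l62 (.c (nat_lit 2717) l90 .e)))) s3_86))))))))))))))))))

noncomputable def s3_84 : Ss := (.s (.c (nat_lit 2728) l93 (.c (nat_lit 2728) l85 (.c (nat_lit 2728) l89 (.c (nat_lit 2699) l55 (.c (nat_lit 2728) l122 .e))))) (.s (.c (nat_lit 2698) l60 .e) (.s (.c (nat_lit 2699) l55 .e) (.s (.c (nat_lit 2584) l45 .e) (.s (.c (nat_lit 2614) l45 .e) (.s u3_360 (.s (.c (nat_lit 2688) l45 .e) (.s (.c (nat_lit 2698) l86 (.c (nat_lit 2698) l90 .e)) (.s (.c (nat_lit 2576) l44 (.c (nat_lit 2576) l47 .e)) (.s (.c (nat_lit 2641) l45 (.c (nat_lit 2712) l84 (.c (nat_lit 2641) l55 .e))) (.s (.c (nat_lit 2719) l55 .e) (.s (.c (nat_lit 2383) l44 .e)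 (.s u3_362 (.s (.c (nat_lit 2585) l44 (.c (nat_lit 2453) l45 (.c (nat_lit 2439) l44 (.c (nat_lit 2655) l61 (.c (nat_lit 2585) l61 .e))))) (.s (.c (nat_lit 2630) l61 (.c (nat_lit 2493) l44 (.c (nat_lit 2681) l61 .e))) (.s (.c (nat_lit 2655) l61 .e) (.s (.c (nat_lit 1105) l58 .e) (.s (.c (nat_lit 2207) l58 (.c (nat_lit 2443) l58 (.c (nat_lit 2434) l58 (.c (nat_lit 763) l58 (.c (nat_lit 2440) l58 (.c (nat_lit 2446) l58 (.c (nat_lit 1852) l45 (.c (nat_lit 1109) l58 (.c (nat_lit 2587) l58 .e))))))))) (.s (.c (nat_lit 2439) l44 .e) s3_85)))))))))))))))))))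

noncomputable def s3_83 : Ss := (.s (.c (nat_lit 2440) l45 (.c (nat_lit 1109) l45 (.c (nat_lit 2437) l45 .e))) (.s (.c (nat_lit 2513) l45 .e) (.s (.c (nat_lit 2698) l47 (.c (nat_lit 2698) l139 .e)) (.s (.c (nat_lit 2652) l58 .e) (.s (.c (nat_lit 2698) l86 (.c (nat_lit 2719) l55 (.c (nat_lit 2698) l90 (.c (nat_lit 2719) l195 .e)))) (.s (.c (nat_lit 2186) l45 .e) (.s (.c (nat_lit 1109) l45 .e) (.s (.c (nat_lit 2585) l44 (.c (nat_lit 2453) l45 (.c (nat_lit 2439) l44 (.c (nat_lit 2655) l61 (.c (nat_lit 2585) l61 (.c (nat_lit 2628) l45 (.c (nat_lit 2628) l58 .e))))))) (.s (.c (nat_lit 2706) l132 (.c (nat_lit 2591) l44 (.c (nat_lit 2591) l61 (.c (nat_lit 2446) l58 (.c (nat_lit 2630) l61 (.c (nat_lit 2493) l44 (.c (nat_lit 2453) l45 (.c (nat_lit 2593) l61 (.c (nat_lit 2681) l61 (.c (nat_lit 2706) l82 .e)))))))))) (.s (.c (nat_lit 2388) l58 (.c (nat_lit 2211) l58 (.c (nat_lit 2559)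 l45 (.c (nat_lit 1868) l45 (.c (nat_lit 2212) l44 (.c (nat_lit 2211) l45 (.c (nat_lit 2356) l44 (.c (nat_lit 2563) l44 (.c (nat_lit 1894) l44 (.c (nat_lit 2383) l44 (.c (nat_lit 2559) l58 .e))))))))))) (.s (.c (nat_lit 2578) l45 .e) (.s (.c (nat_lit 2628) l45 .e) (.s (.c (nat_lit 2720) l58 (.c (nat_lit 2720) l82 .e)) (.s (.c (nat_lit 2701) l61 (.c (nat_lit 2701) l90 .e)) s3_84))))))))))))))

noncomputable def s3_82 : Ss := (.s (.c (nat_lit 2621) l55 (.c (nat_lit 2679) l47 (.c (nat_lit 2615) l45 (.c (nat_lit 2684) l58 (.c (nat_lit 2455) l43 (.c (nat_lit 2681) l55 (.c (nat_lit 2672) l43 (.c (nat_lit 2684) l82 (.c (nat_lit 2620) l43 .e))))))))) (.s (.c (nat_lit 2621) l55 (.c (nat_lit 2684) l58 (.c (nat_lit 2684) l82 .e))) (.s (.c (nat_lit 2623) l47 .e) (.s (.c (nat_lit 2679) l47 (.c (nat_lit 2672) l43 .e)) (.s (.c (nat_lit 2615) l45 (.c (nat_lit 2681) l55 .e)) (.s (.c (nat_lit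 2616) l43 .e) (.s (.c (nat_lit 2455) l43 (.c (nat_lit 2008) l47 (.c (nat_lit 2613) l43 .e))) (.s (.c (nat_lit 2401) l44 .e) (.s u3_359 (.s (.c (nat_lit 2680) l82 (.c (nat_lit 2680) l132 .e)) (.s (.c (nat_lit 2213) l55 (.c (nat_lit 2443) l55 .e)) (.s (.c (nat_lit 2593) l58 (.c (nat_lit 2504) l58 (.c (nat_lit 2593) l82 .e))) (.s (.c (nat_lit 1529) l58 .e) (.s (.c (nat_lit 1132) l45 .e) (.s (.c (nat_lit 1946) l58 .e) (.s (.c (nat_lit 2448) l61 .e) (.s (.c (nat_lit 2448) l47 (.c (nat_lit 2448) l62 .e)) (.s (.c (nat_lit 2573) l60 (.c (nat_lit 2573) l89 .e)) (.s (.c (nat_lit 2415) l55 (.c (nat_lit 2415) l195 .e)) (.s (.c (nat_lit 2585) l44 (.c (nat_lit 2541) l58 (.c (nat_lit 2453) l45 (.c (nat_lit 2439) l44 (.c (nat_lit 2655) l61 (.c (nat_lit 2585) l61 (.c (nat_lit 2628) l45 (.c (nat_lit 2628) l58 (.c (nat_lit 2186) l45 (.c (nat_lit 2652) l58 (.c (nat_lit 2513) l82 .e)))))))))))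 s3_83))))))))))))))))))))

noncomputable def s3_81 : Ss := (.s (.c (nat_lit 2625) l58 .e) (.s (.c (nat_lit 2694) l65 .e) (.s (.c (nat_lit 2448) l48 .e) (.s (.c (nat_lit 2571) l82 (.c (nat_lit 2571) l55 (.c (nat_lit 2354) l55 .e))) (.s (.c (nat_lit 2672) l42 .e) (.s (.c (nat_lit 2727) l74 .e) (.s (.c (nat_lit 2492) l45 (.c (nat_lit 2492) l58 .e)) (.s (.c (nat_lit 2616) l43 (.c (nat_lit 2616) l60 .e)) (.s (.c (nat_lit 2679) l47 (.c (nat_lit 2008) l47 (.c (nat_lit 2616) l43 (.c (nat_lit 2672) l43 (.c (nat_lit 2603) l43 .e))))) (.s (.c (nat_lit 2624) l60 .e) (.s (.c (nat_lit 2644) l135 .e) (.s (.c (nat_lit 2571) l55 .e) (.s (.c (nat_lit 2559) l45 (.c (nat_lit 2653) l55 (.c (nat_lit 2555) l55 .e))) (.s (.c (nat_lit 2496) l45 .e) (.s (.c (nat_lit 2624) l55 .e) (.s (.c (nat_lit 1661) l45 .e) (.s (.c (nat_lit 2325) l45 .e) (.s (.c (nat_lit 2699) l58 (.c (nat_lit 2720) l61 (.c (nat_lit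 2719) l60 (.c (nat_lit 2719) l89 (.c (nat_lit 2720) l85 (.c (nat_lit 2699) l55 (.c (nat_lit 2699) l82 .e))))))) (.s (.c (nat_lit 2695) l134 .e) (.s (.c (nat_lit 2491) l43 .e) (.s (.c (nat_lit 2280) l47 (.c (nat_lit 2455) l43 (.c (nat_lit 2274) l47 (.c (nat_lit 2285) l47 (.c (nat_lit 2442) l43 .e))))) s3_82)))))))))))))))))))))

noncomputable def s3_80 : Ss := (.s (.c (nat_lit 2645) l45 .e) (.s (.c (nat_lit 2623) l61 (.c (nat_lit 2625) l61 .e)) (.s (.c (nat_lit 2654) l50 .e) (.s (.c (nat_lit 2208) l55 (.c (nat_lit 1875) l45 .e)) (.s (.c (nat_lit 2553) l45 .e) (.s (.c (nat_lit 2389) l44 .e) (.s (.c (nat_lit 2265) l44 (.c (nat_lit 2265) l47 .e)) (.s (.c (nat_lit 2160) l47 .e) (.s (.c (nat_lit 2383) l44 (.c (nat_lit 2383) l47 .e)) (.s (.c (nat_lit 2401) l47 (.c (nat_lit 2380) l47 (.c (nat_lit 2401) l44 (.c (nat_lit 2414) l47 .e)))) (.s (.c (nat_lit 2356) l44 (.c (nat_lit 2356)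 l47 .e)) (.s u3_358 (.s (.c (nat_lit 2318) l45 .e) (.s (.c (nat_lit 1870) l45 (.c (nat_lit 1847) l45 (.c (nat_lit 2380) l47 (.c (nat_lit 2522) l55 (.c (nat_lit 2263) l55 (.c (nat_lit 2208) l55 (.c (nat_lit 2571) l82 (.c (nat_lit 1132) l45 (.c (nat_lit 2325) l45 (.c (nat_lit 2571) l55 (.c (nat_lit 2444) l55 .e))))))))))) (.s (.c (nat_lit 2539) l45 (.c (nat_lit 2539) l58 .e)) (.s (.c (nat_lit 2640) l61 (.c (nat_lit 2631) l43 (.c (nat_lit 2732) l197 (.c (nat_lit 2717) l62 (.c (nat_lit 2717) l61 (.c (nat_lit 2571) l82 (.c (nat_lit 2717) l85 (.c (nat_lit 2717) l90 (.c (nat_lit 2571) l55 (.c (nat_lit 2354) l55 (.c (nat_lit 2732) l199 .e))))))))))) s3_81))))))))))))))))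

noncomputable def s3_79 : Ss := (.s (.c (nat_lit 2551) l44 .e) (.s (.c (nat_lit 2648) l61 .e) (.s (.c (nat_lit 1853) l45 .e) (.s (.c (nat_lit 2478) l45 .e) (.s (.c (nat_lit 1154) l45 .e) (.s (.c (nat_lit 1994) l47 .e) (.s (.c (nat_lit 2356) l44 (.c (nat_lit 2383) l44 (.c (nat_lit 2389) l44 (.c (nat_lit 2430) l44 .e)))) (.s (.c (nat_lit 2466) l45 .e) (.s (.c (nat_lit 2699) l58 (.c (nat_lit 2720) l61 (.c (nat_lit 2720) l85 (.c (nat_lit 2699) l55 (.c (nat_lit 2699) l82 (.c (nat_lit 2655) l57 (.c (nat_lit 2719) l138 .e))))))) (.s (.c (nat_lit 2280) l47 (.c (nat_lit 2274) l47 (.c (nat_lit 2285) l47 (.c (nat_lit 2437) l43 .e)))) (.s u3_357 (.s (.c (nat_lit 1859) l43 (.c (nat_lit 2468) l44 (.c (nat_lit 2312) l47 (.c (nat_lit 2232) l47 (.c (nat_lit 2204) l47 (.c (nat_lit 2190) l47 (.c (nat_lit 2438) l44 (.c (nat_lit 2210) l47 .e)))))))) (.s (.c (nat_lit 2655) l57 .e) (.s (.c (nat_lit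 2504) l58 (.c (nat_lit 2623) l61 (.c (nat_lit 2645) l58 (.c (nat_lit 2624) l55 (.c (nat_lit 2625) l58 (.c (nat_lit 2625) l61 (.c (nat_lit 2610) l58 .e))))))) (.s (.c (nat_lit 2728) l93 (.c (nat_lit 2731) l82 (.c (nat_lit 2728) l85 (.c (nat_lit 2731) l132 (.c (nat_lit 2731) l187 (.c (nat_lit 2720) l58 (.c (nat_lit 2728) l89 (.c (nat_lit 2699) l55 (.c (nat_lit 2728) l122 (.c (nat_lit 2720) l82 (.c (nat_lit 2719) l82 .e))))))))))) s3_80)))))))))))))))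

noncomputable def s3_78 : Ss := (.s (.c (nat_lit 2117) l62 .e) (.s u3_350 (.s (.c (nat_lit 2211) l45 (.c (nat_lit 1132) l45 (.c (nat_lit 2318) l45 (.c (nat_lit 2553) l45 (.c (nat_lit 1889) l45 (.c (nat_lit 2179) l45 .e)))))) (.s (.c (nat_lit 1889) l45 .e) (.s (.c (nat_lit 2390) l55 .e) (.s (.c (nat_lit 2334) l45 .e) (.s (.c (nat_lit 2576) l44 (.c (nat_lit 2560) l47 (.c (nat_lit 2208) l55 (.c (nat_lit 2401) l44 (.c (nat_lit 2325) l45 (.c (nat_lit 1875) l45 (.c (nat_lit 2560) l62 .e))))))) (.s (.c (nat_lit 2561) l45 .e) (.s (.c (nat_lit 2356) l43 .e) (.s (.c (nat_lit 1655) l55 .e) (.s (.c (nat_lit 2304) l44 .e) (.s (.c (nat_lit 2411) l47 .e) (.s (.c (nat_lit 1893) l58 .e) (.s (.c (nat_lit 2356) l44 (.c (nat_lit 2383) l44 (.c (nat_lit 2160) l47 (.c (nat_lit 2430) l44 (.c (nat_lit 2418) l47 (.c (nat_lit 2682) l119 .e)))))) (.s u3_351 (.s (.c (nat_lit 2356) l44 (.c (nat_lit 2383)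 l44 (.c (nat_lit 2160) l47 (.c (nat_lit 2430) l44 (.c (nat_lit 2418) l47 .e))))) (.s (.c (nat_lit 2633) l45 (.c (nat_lit 2551) l44 (.c (nat_lit 2633) l55 .e))) (.s (.c (nat_lit 2725) l197 .e) (.s u3_353 s3_79)))))))))))))))))))

noncomputable def s3_77 : Ss := (.s (.c (nat_lit 2368) l45 .e) (.s (.c (nat_lit 2575) l58 .e) (.s (.c (nat_lit 2656) l45 (.c (nat_lit 2211) l45 (.c (nat_lit 1875) l45 (.c (nat_lit 1889) l45 (.c (nat_lit 2179) l45 (.c (nat_lit 2205) l45 (.c (nat_lit 2413) l45 (.c (nat_lit 2351) l45 (.c (nat_lit 2647) l45 .e))))))))) (.s (.c (nat_lit 2562) l45 (.c (nat_lit 2351) l45 (.c (nat_lit 2569) l45 .e))) (.s (.c (nat_lit 1989) l45 .e) (.s (.c (nat_lit 2413) l45 (.c (nat_lit 2351) l45 .e)) (.s (.c (nat_lit 2574) l45 (.c (nat_lit 2574) l55 .e)) (.s (.c (nat_lit 2413) l45 (.c (nat_lit 2562) l45 .e)) (.s (.c (nat_lit 2413) l45 .e) (.s (.c (nat_lit 1880) l43 .e) (.s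 (.c (nat_lit 2211) l58 (.c (nat_lit 2211) l45 (.c (nat_lit 2563) l44 (.c (nat_lit 1529) l58 (.c (nat_lit 2325) l45 (.c (nat_lit 2389) l44 (.c (nat_lit 1542) l45 (.c (nat_lit 2638) l58 .e)))))))) (.s (.c (nat_lit 1768) l58 .e) (.s (.c (nat_lit 2356) l44 (.c (nat_lit 2383) l44 (.c (nat_lit 1946) l58 (.c (nat_lit 1529) l58 (.c (nat_lit 2325) l45 (.c (nat_lit 2430) l44 (.c (nat_lit 1542) l45 .e))))))) (.s (.c (nat_lit 2391) l58 .e) (.s (.c (nat_lit 2109) l45 .e) (.s (.c (nat_lit 2211) l45 (.c (nat_lit 2208) l55 (.c (nat_lit 2561) l45 (.c (nat_lit 2334) l45 (.c (nat_lit 1889) l45 (.c (nat_lit 2179) l45 (.c (nat_lit 2205) l45 .e))))))) s3_78))))))))))))))))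

noncomputable def s3_76 : Ss := (.s (.c (nat_lit 2617) l231 .e) (.s (.c (nat_lit 2724) l81 .e) (.s (.c (nat_lit 2721) l79 .e) (.s (.c (nat_lit 2707) l53 (.c (nat_lit 2703) l53 .e)) (.s (.c (nat_lit 2493) l47 (.c (nat_lit 2493) l62 .e)) (.s (.c (nat_lit 2460) l45 (.c (nat_lit 2486) l45 .e)) (.s (.c (nat_lit 2460) l45 .e) (.s (.c (nat_lit 2504) l58 (.c (nat_lit 2623) l61 (.c (nat_lit 2645) l58 (.c (nat_lit 2625) l61 (.c (nat_lit 2645) l45 (.c (nat_lit 2610) l58 (.c (nat_lit 2466) l45 (.c (nat_lit 2610) l45 .e)))))))) (.s (.c (nat_lit 2719) l60 (.c (nat_lit 2719) l89 (.c (nat_lit 2584) l45 (.c (nat_lit 2719) l138 (.c (nat_lit 2584) l58 .e))))) (.s (.c (nat_lit 2698) l138 .e) (.s (.c (nat_lit 2612) l97 .e) (.s (.c (nat_lit 2624) l69 .e) (.s (.c (nat_lit 2654) l50 (.c (nat_lit 2665) l50 .e)) (.s (.c (nat_lit 2664) l53 .e) (.s (.c (nat_lit 2423) l58 .e) (.s (.c (nat_lit 2150) l45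 (.c (nat_lit 2422) l55 .e)) (.s (.c (nat_lit 1947) l45 .e) (.s (.c (nat_lit 2150) l45 .e) (.s (.c (nat_lit 2555) l55 (.c (nat_lit 2560) l43 .e)) (.s (.c (nat_lit 2297) l45 (.c (nat_lit 2413) l45 (.c (nat_lit 2351) l45 (.c (nat_lit 2569) l45 (.c (nat_lit 2575) l58 (.c (nat_lit 2260) l45 .e)))))) s3_77))))))))))))))))))))

noncomputable def s3_75 : Ss := (.s (.c (nat_lit 2708) l49 .e) (.s (.c (nat_lit 2680) l65 .e) (.s (.c (nat_lit 2708) l69 .e) (.s (.c (nat_lit 2728) l102 .e) (.s (.c (nat_lit 2654) l50 (.c (nat_lit 2728) l101 .e)) (.s (.c (nat_lit 2667) l65 .e) (.s (.c (nat_lit 2718) l118 .e) (.s (.c (nat_lit 2732) l118 (.c (nat_lit 2732) l168 .e)) (.s (.c (nat_lit 2648) l63 .e) (.s (.c (nat_lit 2709) l69 .e) (.s (.c (nat_lit 2709) l65 (.c (nat_lit 2724) l97 .e)) (.s (.c (nat_lit 2715) l159 .e) (.s (.c (nat_lit 2732) l118 .e) (.s (.c (nat_lit 2605) l49 (.c (nat_lit 2605) l48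 (.c (nat_lit 2597) l52 .e))) (.s (.c (nat_lit 2612) l42 .e) (.s (.c (nat_lit 1880) l42 .e) (.s (.c (nat_lit 2731) l167 .e) (.s (.c (nat_lit 2731) l112 .e) (.s (.c (nat_lit 2605) l49 (.c (nat_lit 2605) l48 .e)) (.s (.c (nat_lit 2626) l42 (.c (nat_lit 2627) l42 (.c (nat_lit 2704) l42 (.c (nat_lit 2732) l19 (.c (nat_lit 2732) l14 .e))))) (.s (.c (nat_lit 2721) l108 (.c (nat_lit 2707) l53 (.c (nat_lit 2589) l42 (.c (nat_lit 2723) l74 (.c (nat_lit 2703) l53 (.c (nat_lit 2703) l74 .e)))))) (.s (.c (nat_lit 2722) l49 (.c (nat_lit 2722) l48 .e)) s3_76))))))))))))))))))))))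

noncomputable def s3_74 : Ss := (.s (.c (nat_lit 1789) l46 .e) (.s (.c (nat_lit 1207) l42 .e) (.s (.c (nat_lit 2478) l46 (.c (nat_lit 2474) l46 .e)) (.s (.c (nat_lit 2638) l74 .e) (.s (.c (nat_lit 2435) l42 .e) (.s (.c (nat_lit 1682) l42 (.c (nat_lit 1145) l42 (.c (nat_lit 2721) l97 (.c (nat_lit 2721) l152 (.c (nat_lit 1894) l42 (.c (nat_lit 2452) l42 (.c (nat_lit 2430) l42 (.c (nat_lit 2447) l42 (.c (nat_lit 2732) l100 (.c (nat_lit 2732) l104 (.c (nat_lit 2732) l147 .e))))))))))) (.s (.c (nat_lit 2727) l111 .e) (.s (.c (nat_lit 2664) l52 .e) (.s (.c (nat_lit 2706) l179 .e) (.s (.c (nat_lit 2664) l53 (.c (nat_lit 2664) l74 .e)) (.s (.c (nat_lit 2552) l42 (.c (nat_lit 2728) l173 .e)) (.s (.c (nat_lit 2664) l78 .e) (.s u3_347 (.s (.c (nat_lit 2727) l160 .e) (.s (.c (nat_lit 2552) l42 .e) (.s (.c (nat_lit 2690) l53 .e) (.s (.c (nat_lit 2732) l118 (.c (nat_lit 2732) l181 .e))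 (.s u3_348 (.s (.c (nat_lit 2730) l295 .e) (.s (.c (nat_lit 2617) l65 .e) (.s (.c (nat_lit 1858) l65 (.c (nat_lit 2654) l50 (.c (nat_lit 2665) l50 (.c (nat_lit 2705) l65 .e)))) (.s (.c (nat_lit 2675) l65 .e) s3_75))))))))))))))))))))))

noncomputable def s3_73 : Ss := (.s (.c (nat_lit 2569) l46 .e) (.s (.c (nat_lit 2513) l59 (.c (nat_lit 2434) l46 (.c (nat_lit 2701) l59 (.c (nat_lit 2391) l75 (.c (nat_lit 2207) l46 (.c (nat_lit 2698) l83 .e)))))) (.s u3_345 (.s (.c (nat_lit 2626) l51 (.c (nat_lit 2684) l59 .e)) (.s (.c (nat_lit 2624) l66 (.c (nat_lit 2682) l66 (.c (nat_lit 2281) l66 (.c (nat_lit 2484) l51 (.c (nat_lit 2300) l51 (.c (nat_lit 2435) l51 (.c (nat_lit 1873) l51 (.c (nat_lit 2502) l51 (.c (nat_lit 2369) l51 (.c (nat_lit 2474) l46 (.c (nat_lit 2656) l66 .e))))))))))) (.s u3_346 (.s (.c (nat_lit 2637) l46 .e) (.s (.c (nat_lit 2492) l45 (.c (nat_lit 2618) l55 .e)) (.s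 (.c (nat_lit 2732) l203 (.c (nat_lit 2732) l240 .e)) (.s (.c (nat_lit 2730) l111 (.c (nat_lit 2721) l113 .e)) (.s (.c (nat_lit 2732) l237 .e) (.s (.c (nat_lit 2594) l42 .e) (.s (.c (nat_lit 1763) l42 .e) (.s (.c (nat_lit 2691) l49 (.c (nat_lit 2691) l48 .e)) (.s (.c (nat_lit 2356) l43 (.c (nat_lit 2418) l43 .e)) (.s (.c (nat_lit 2265) l43 .e) (.s (.c (nat_lit 2683) l49 .e) (.s (.c (nat_lit 2691) l49 .e) (.s (.c (nat_lit 1213) l45 .e) (.s (.c (nat_lit 2730) l111 .e) s3_74))))))))))))))))))))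

noncomputable def s3_72 : Ss := (.s (.c (nat_lit 2493) l47 (.c (nat_lit 2593) l58 (.c (nat_lit 2440) l45 (.c (nat_lit 2504) l58 (.c (nat_lit 2593) l82 (.c (nat_lit 2493) l62 (.c (nat_lit 2440) l55 .e))))))) (.s u3_344 (.s (.c (nat_lit 2698) l86 (.c (nat_lit 2698) l138 (.c (nat_lit 2698) l62 .e))) (.s (.c (nat_lit 2486) l46 .e) (.s (.c (nat_lit 2296) l62 .e) (.s (.c (nat_lit 2388) l56 (.c (nat_lit 2388) l46 (.c (nat_lit 1789) l46 (.c (nat_lit 2558) l66 .e)))) (.s (.c (nat_lit 2541) l46 (.c (nat_lit 2644) l56 .e)) (.s (.c (nat_lit 2300) l51 (.c (nat_lit 2574) l66 (.c (nat_lit 2369) l51 (.c (nat_lit 2503) l66 (.c (nat_lit 2305) l56 .e))))) (.s (.c (nat_lit 2488) l46 (.c (nat_lit 2541) l46 .e)) (.s (.c (nat_lit 2653) l51 (.c (nat_lit 2698) l66 .e)) (.s (.c (nat_lit 2488) l46 .e) (.s (.c (nat_lit 2646) l75 .e) (.s (.c (nat_lit 2263) l66 (.c (nat_lit 2336) l51 (.c (nat_lit 2279)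 l56 .e))) (.s (.c (nat_lit 2462) l56 .e) (.s (.c (nat_lit 2336) l51 .e) (.s (.c (nat_lit 2460) l46 .e) (.s (.c (nat_lit 1944) l46 (.c (nat_lit 1789) l46 (.c (nat_lit 2648) l75 .e))) (.s (.c (nat_lit 2466) l46 .e) (.s (.c (nat_lit 2621) l59 (.c (nat_lit 2683) l98 (.c (nat_lit 2725) l75 (.c (nat_lit 2725) l109 (.c (nat_lit 2684) l75 (.c (nat_lit 2683) l66 (.c (nat_lit 2683) l142 (.c (nat_lit 2713) l161 .e)))))))) s3_73)))))))))))))))))))

noncomputable def s3_71 : Ss := (.s (.c (nat_lit 2699) l253 .e) (.s (.c (nat_lit 2624) l55 (.c (nat_lit 2624) l82 .e)) (.s (.c (nat_lit 1859) l43 (.c (nat_lit 1891) l47 .e)) (.s (.c (nat_lit 2652) l55 .e) (.s (.c (nat_lit 2445) l43 (.c (nat_lit 2445) l60 .e)) (.s (.c (nat_lit 2279) l58 .e) (.s (.c (nat_lit 2468) l44 (.c (nat_lit 2438) l44 (.c (nat_lit 2492) l61 .e))) (.s u3_343 (.s (.c (nat_lit 2541) l45 .e) (.s (.c (nat_lit 2503) l47 (.c (nat_lit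 2503) l62 .e)) (.s (.c (nat_lit 2705) l82 (.c (nat_lit 2492) l45 (.c (nat_lit 2493) l47 (.c (nat_lit 2439) l44 (.c (nat_lit 2587) l58 (.c (nat_lit 2492) l58 (.c (nat_lit 1154) l45 (.c (nat_lit 2493) l62 (.c (nat_lit 2705) l191 .e))))))))) (.s (.c (nat_lit 2698) l86 (.c (nat_lit 2541) l58 (.c (nat_lit 2513) l45 (.c (nat_lit 2698) l138 (.c (nat_lit 2698) l62 (.c (nat_lit 2513) l55 .e)))))) (.s (.c (nat_lit 2725) l85 (.c (nat_lit 2725) l121 (.c (nat_lit 2725) l185 (.c (nat_lit 2623) l61 (.c (nat_lit 2628) l45 (.c (nat_lit 2442) l43 (.c (nat_lit 2625) l61 (.c (nat_lit 2437) l43 (.c (nat_lit 2466) l45 (.c (nat_lit 2486) l45 (.c (nat_lit 2191) l45 (.c (nat_lit 2628) l55 .e)))))))))))) (.s (.c (nat_lit 2191) l45 .e) (.s (.c (nat_lit 2589) l43 (.c (nat_lit 2445) l43 (.c (nat_lit 2589) l60 (.c (nat_lit 2623) l61 (.c (nat_lit 2625) l61 (.c (nat_lit 2460) l45 (.c (nat_lit 2486) l45 (.c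 (nat_lit 2592) l60 .e)))))))) s3_72)))))))))))))))

noncomputable def s3_70 : Ss := (.s (.c (nat_lit 2226) l45 .e) (.s u3_339 (.s (.c (nat_lit 2279) l55 (.c (nat_lit 2462) l55 (.c (nat_lit 2226) l55 .e))) (.s (.c (nat_lit 2297) l45 (.c (nat_lit 2656) l58 (.c (nat_lit 2656) l45 (.c (nat_lit 2656) l55 (.c (nat_lit 2411) l47 (.c (nat_lit 1989) l45 (.c (nat_lit 2569) l45 (.c (nat_lit 2575) l58 (.c (nat_lit 2260) l45 (.c (nat_lit 2423) l58 (.c (nat_lit 2114) l43 (.c (nat_lit 2700) l82 .e)))))))))))) (.s (.c (nat_lit 2698) l60 (.c (nat_lit 2698) l138 (.c (nat_lit 2698) l89 .e))) (.s (.c (nat_lit 2114) l43 .e) (.s u3_340 (.s (.c (nat_lit 2282) l55 .e) (.s (.c (nat_lit 2712) l82 (.c (nat_lit 2492) l45 (.c (nat_lit 2680) l82 (.c (nat_lit 2462) l55 (.c (nat_lit 2445) l43 (.c (nat_lit 2680) l132 (.c (nat_lit 2445) l60 (.c (nat_lit 2712) l183 .e)))))))) (.s (.c (nat_lit 2462) l55 (.c (nat_lit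 2491) l55 .e)) (.s (.c (nat_lit 2492) l45 (.c (nat_lit 2492) l58 (.c (nat_lit 2272) l58 .e))) (.s (.c (nat_lit 2699) l58 (.c (nat_lit 2720) l61 (.c (nat_lit 2719) l60 (.c (nat_lit 2719) l89 (.c (nat_lit 2720) l85 (.c (nat_lit 2655) l61 (.c (nat_lit 2699) l55 (.c (nat_lit 2699) l82 (.c (nat_lit 2655) l62 .e))))))))) (.s u3_341 (.s (.c (nat_lit 2573) l60 (.c (nat_lit 2573) l89 (.c (nat_lit 2701) l135 .e))) s3_71))))))))))))))

noncomputable def s3_69 : Ss := (.s u3_331 (.s (.c (nat_lit 2207) l55 .e) (.s (.c (nat_lit 1103) l60 (.c (nat_lit 1859) l60 (.c (nat_lit 2448) l134 (.c (nat_lit 1891) l89 .e)))) (.s (.c (nat_lit 763) l55 (.c (nat_lit 1503) l55 .e)) (.s (.c (nat_lit 2213) l55 (.c (nat_lit 1872) l55 .e)) (.s u3_332 (.s (.c (nat_lit 2272) l45 .e) (.s (.c (nat_lit 1872) l45 (.c (nat_lit 1858) l45 .e)) (.s (.c (nat_lit 1872) l45 .e) (.s u3_333 (.s u3_334 (.s u3_335 (.s u3_338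 (.s (.c (nat_lit 2698) l86 (.c (nat_lit 2698) l47 (.c (nat_lit 2698) l60 (.c (nat_lit 2698) l138 (.c (nat_lit 2698) l62 (.c (nat_lit 2699) l253 (.c (nat_lit 2698) l89 (.c (nat_lit 2698) l135 .e)))))))) (.s (.c (nat_lit 2698) l86 (.c (nat_lit 2652) l58 (.c (nat_lit 2698) l138 (.c (nat_lit 2698) l62 (.c (nat_lit 2652) l55 (.c (nat_lit 2699) l253 (.c (nat_lit 2652) l82 .e))))))) (.s (.c (nat_lit 2504) l55 (.c (nat_lit 2503) l47 (.c (nat_lit 2713) l82 (.c (nat_lit 2624) l55 (.c (nat_lit 2496) l45 (.c (nat_lit 2625) l58 (.c (nat_lit 2503) l62 (.c (nat_lit 2713) l132 .e)))))))) (.s (.c (nat_lit 2624) l55 (.c (nat_lit 2496) l45 (.c (nat_lit 2624) l82 (.c (nat_lit 2496) l58 .e)))) s3_70)))))))))))))))))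

noncomputable def s3_68 : Ss := (.s (.c (nat_lit 2186) l45 (.c (nat_lit 2186) l55 .e)) (.s (.c (nat_lit 2483) l58 (.c (nat_lit 2239) l55 .e)) (.s (.c (nat_lit 2680) l82 (.c (nat_lit 2285) l47 (.c (nat_lit 2680) l132 (.c (nat_lit 2262) l62 .e)))) (.s (.c (nat_lit 2483) l58 .e) (.s (.c (nat_lit 2281) l55 .e) (.s u3_326 (.s (.c (nat_lit 2652) l55 (.c (nat_lit 2652) l195 (.c (nat_lit 2652) l253 .e))) (.s (.c (nat_lit 2557) l61 (.c (nat_lit 2698) l60 (.c (nat_lit 2698) l138 (.c (nat_lit 2698) l89 (.c (nat_lit 2557) l85 (.c (nat_lit 2183) l45 .e)))))) (.s (.c (nat_lit 2384) l58 (.c (nat_lit 2652) l55 (.c (nat_lit 2384) l187 (.c (nat_lit 2652) l195 .e)))) (.s (.c (nat_lit 2557) l61 (.c (nat_lit 2557) l85 .e)) (.s (.c (nat_lit 2384) l58 (.c (nat_lit 2384) l187 .e)) (.s (.c (nat_lit 2659) l55 .e) (.s (.c (nat_lit 2282) l58 .e) (.s (.c (nat_lit 2557) l61 (.c (nat_lit 2698) l86 (.c (nat_lit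 2698) l47 (.c (nat_lit 2698) l60 (.c (nat_lit 2698) l138 (.c (nat_lit 2698) l62 (.c (nat_lit 2698) l89 (.c (nat_lit 2698) l135 (.c (nat_lit 2557) l62 .e))))))))) (.s (.c (nat_lit 2267) l45 .e) (.s (.c (nat_lit 2306) l58 .e) (.s (.c (nat_lit 1212) l61 .e) (.s (.c (nat_lit 2506) l61 .e) s3_69))))))))))))))))))

noncomputable def s3_67 : Ss := (.s (.c (nat_lit 2208) l55 (.c (nat_lit 1880) l43 (.c (nat_lit 1879) l45 .e))) (.s (.c (nat_lit 2005) l60 (.c (nat_lit 2477) l47 (.c (nat_lit 2005) l62 (.c (nat_lit 2477) l62 .e)))) (.s (.c (nat_lit 1101) l45 .e) (.s (.c (nat_lit 2720) l58 (.c (nat_lit 2573) l89 (.c (nat_lit 2701) l135 (.c (nat_lit 2659) l55 (.c (nat_lit 2573) l62 (.c (nat_lit 2720) l195 (.c (nat_lit 2701) l139 (.c (nat_lit 2720) l187 .e)))))))) (.s u3_322 (.s (.c (nat_lit 2573) l60 (.c (nat_lit 2573) l89 (.c (nat_lit 2701) l135 (.c (nat_lit 2659) l55 (.c (nat_lit 2659)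 l82 (.c (nat_lit 2701) l139 .e)))))) (.s (.c (nat_lit 2573) l60 (.c (nat_lit 2573) l89 (.c (nat_lit 2701) l135 (.c (nat_lit 2701) l62 (.c (nat_lit 2701) l86 .e))))) (.s (.c (nat_lit 2573) l60 (.c (nat_lit 2701) l90 (.c (nat_lit 2573) l89 (.c (nat_lit 2701) l135 (.c (nat_lit 2701) l62 .e))))) (.s (.c (nat_lit 2415) l55 (.c (nat_lit 2415) l195 (.c (nat_lit 2659) l187 .e))) (.s (.c (nat_lit 2573) l60 (.c (nat_lit 2659) l55 (.c (nat_lit 2573) l62 (.c (nat_lit 2659) l82 .e)))) (.s (.c (nat_lit 1853) l45 (.c (nat_lit 1855) l45 .e)) (.s u3_325 (.s (.c (nat_lit 2720) l195 .e) (.s (.c (nat_lit 2415) l58 .e) (.s (.c (nat_lit 2573) l60 (.c (nat_lit 2573) l62 .e)) s3_68)))))))))))))))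

noncomputable def s3_66 : Ss := (.s (.c (nat_lit 1814) l55 .e) (.s (.c (nat_lit 1768) l55 .e) (.s (.c (nat_lit 2158) l55 .e) (.s (.c (nat_lit 1633) l55 .e) (.s (.c (nat_lit 2541) l45 (.c (nat_lit 2541) l55 .e)) (.s (.c (nat_lit 2281) l60 .e) (.s (.c (nat_lit 1860) l55 .e) (.s (.c (nat_lit 2611) l61 (.c (nat_lit 2605) l43 (.c (nat_lit 2695) l134 (.c (nat_lit 2605) l60 .e)))) (.s (.c (nat_lit 1991) l47 .e) (.s (.c (nat_lit 2296) l62 (.c (nat_lit 1960) l47 .e)) (.s (.c (nat_lit 2351) l45 (.c (nat_lit 2351) l58 .e)) (.s (.c (nat_lit 2239) l55 (.c (nat_lit 2239) l45 .e)) (.s (.c (nat_lit 1946) l55 .e) (.s (.c (nat_lit 2606) l61 (.c (nat_lit 2602) l44 (.c (nat_lit 2609) l61 (.c (nat_lit 2468) l44 (.c (nat_lit 2438) l44 (.c (nat_lit 2492) l61 (.c (nat_lit 2602) l61 .e))))))) (.s (.c (nat_lit 2262) l44 .e) (.s (.c (nat_lit 2312) l43 .e) (.s (.c (nat_lit 2190) l43 .e) (.s (.c (nat_lit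 1955) l45 .e) (.s (.c (nat_lit 870) l58 .e) (.s (.c (nat_lit 1213) l45 (.c (nat_lit 1961) l58 .e)) (.s (.c (nat_lit 1972) l45 (.c (nat_lit 2299) l58 .e)) (.s (.c (nat_lit 1958) l58 .e) (.s (.c (nat_lit 1972) l45 .e) s3_67)))))))))))))))))))))))

noncomputable def s3_65 : Ss := (.s (.c (nat_lit 2204) l47 (.c (nat_lit 2279) l58 (.c (nat_lit 1891) l47 (.c (nat_lit 2204) l62 .e)))) (.s u3_318 (.s (.c (nat_lit 2262) l44 (.c (nat_lit 2262) l61 .e)) (.s (.c (nat_lit 1523) l58 .e) (.s u3_319 (.s u3_320 (.s u3_321 (.s (.c (nat_lit 2384) l58 (.c (nat_lit 2652) l55 (.c (nat_lit 2652) l195 (.c (nat_lit 2652) l253 (.c (nat_lit 2384) l82 .e))))) (.s (.c (nat_lit 1877) l61 (.c (nat_lit 1877) l47 (.c (nat_lit 1877) l62 .e))) (.s (.c (nat_lit 1862) l45 (.c (nat_lit 1862) l55 .e)) (.s (.c (nat_lit 2239) l58 (.c (nat_lit 2468) l44 (.c (nat_lit 2438) l44 (.c (nat_lit 2513) l45 (.c (nat_lit 2513)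 l82 (.c (nat_lit 2466) l45 (.c (nat_lit 2513) l55 (.c (nat_lit 2492) l61 (.c (nat_lit 2239) l45 (.c (nat_lit 2513) l58 (.c (nat_lit 2466) l58 .e))))))))))) (.s (.c (nat_lit 2513) l45 (.c (nat_lit 2513) l82 (.c (nat_lit 2513) l55 (.c (nat_lit 2513) l58 .e)))) (.s (.c (nat_lit 2262) l44 (.c (nat_lit 2544) l44 .e)) (.s (.c (nat_lit 1859) l138 (.c (nat_lit 2448) l61 (.c (nat_lit 1859) l47 (.c (nat_lit 2448) l85 .e)))) (.s (.c (nat_lit 1861) l44 .e) (.s (.c (nat_lit 1859) l43 (.c (nat_lit 1859) l47 .e)) s3_66))))))))))))))))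

noncomputable def s3_64 : Ss := (.s (.c (nat_lit 2488) l55 (.c (nat_lit 2504) l55 (.c (nat_lit 2492) l45 (.c (nat_lit 2496) l45 (.c (nat_lit 2618) l55 (.c (nat_lit 2541) l45 (.c (nat_lit 2541) l55 (.c (nat_lit 2496) l55 .e)))))))) (.s (.c (nat_lit 2305) l55 (.c (nat_lit 2239) l55 (.c (nat_lit 2239) l45 (.c (nat_lit 2501) l82 .e)))) (.s (.c (nat_lit 2005) l60 (.c (nat_lit 2005) l62 (.c (nat_lit 2644) l135 (.c (nat_lit 2624) l60 (.c (nat_lit 2312) l43 (.c (nat_lit 1960) l47 (.c (nat_lit 1991) l47 (.c (nat_lit 2503) l43 (.c (nat_lit 2655) l60 (.c (nat_lit 2685) l89 .e)))))))))) (.s (.c (nat_lit 2005) l60 (.c (nat_lit 2504) l55 (.c (nat_lit 2477) l47 (.c (nat_lit 2005) l62 (.c (nat_lit 2478) l45 (.c (nat_lit 2541) l45 (.c (nat_lit 2506) l61 (.c (nat_lit 2477) l62 (.c (nat_lit 2541) l55 (.c (nat_lit 2506) l47 (.c (nat_lit 2506) l62 .e))))))))))) (.s (.c (nat_lit 2492) l45 (.c (nat_lit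 2618) l55 (.c (nat_lit 2282) l55 (.c (nat_lit 2655) l60 (.c (nat_lit 2493) l43 .e))))) (.s (.c (nat_lit 2655) l60 .e) (.s (.c (nat_lit 2506) l47 .e) (.s u3_317 (.s (.c (nat_lit 2503) l43 .e) (.s (.c (nat_lit 1859) l60 (.c (nat_lit 1859) l43 (.c (nat_lit 1859) l47 (.c (nat_lit 1859) l62 .e)))) (.s (.c (nat_lit 2013) l58 .e) (.s (.c (nat_lit 2207) l58 (.c (nat_lit 763) l58 (.c (nat_lit 1105) l58 (.c (nat_lit 2207) l55 (.c (nat_lit 1101) l45 (.c (nat_lit 1861) l44 (.c (nat_lit 1523) l58 (.c (nat_lit 2207) l82 .e)))))))) s3_65))))))))))))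

noncomputable def s3_63 : Ss := (.s (.c (nat_lit 2644) l135 (.c (nat_lit 2644) l138 .e)) (.s (.c (nat_lit 1647) l45 .e) (.s (.c (nat_lit 2701) l135 (.c (nat_lit 2701) l134 .e)) (.s (.c (nat_lit 2701) l61 (.c (nat_lit 2701) l62 (.c (nat_lit 2701) l86 (.c (nat_lit 2273) l45 (.c (nat_lit 2701) l85 .e))))) (.s (.c (nat_lit 2659) l55 (.c (nat_lit 2720) l195 (.c (nat_lit 2720) l253 .e))) (.s (.c (nat_lit 2273) l45 .e) (.s (.c (nat_lit 1969) l134 .e) (.s (.c (nat_lit 855) l55 .e) (.s (.c (nat_lit 2005) l60 (.c (nat_lit 2477) l47 (.c (nat_lit 2005) l62 (.c (nat_lit 2541) l45 (.c (nat_lit 2239) l55 (.c (nat_lit 2477) l62 (.c (nat_lit 2239) l45 (.c (nat_lit 2541) l55 (.c (nat_lit 2501) l82 (.c (nat_lit 1986) l55 (.c (nat_lit 2483) l55 .e))))))))))) (.s (.c (nat_lit 2299) l55 .e) (.s (.c (nat_lit 2503) l43 (.c (nat_lit 2503) l60 .e)) (.s (.c (nat_lit 2644) l60 (.c (nat_lit 2613) l43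 (.c (nat_lit 2616) l43 (.c (nat_lit 2616) l60 (.c (nat_lit 2282) l55 (.c (nat_lit 2503) l43 (.c (nat_lit 2655) l60 (.c (nat_lit 2493) l43 (.c (nat_lit 1959) l45 (.c (nat_lit 2613) l60 .e)))))))))) (.s (.c (nat_lit 2305) l55 (.c (nat_lit 1986) l55 .e)) (.s (.c (nat_lit 1959) l45 .e) (.s (.c (nat_lit 2616) l43 (.c (nat_lit 2616) l60 (.c (nat_lit 2645) l45 (.c (nat_lit 2478) l45 (.c (nat_lit 2541) l45 (.c (nat_lit 2282) l55 (.c (nat_lit 2541) l55 (.c (nat_lit 2655) l60 (.c (nat_lit 2493) l43 (.c (nat_lit 2645) l55 .e)))))))))) s3_64)))))))))))))))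

noncomputable def s3_62 : Ss := (.s (.c (nat_lit 1705) l45 (.c (nat_lit 1647) l45 (.c (nat_lit 2170) l43 (.c (nat_lit 2168) l55 (.c (nat_lit 2070) l55 (.c (nat_lit 1836) l55 (.c (nat_lit 2422) l60 .e))))))) (.s (.c (nat_lit 1836) l55 .e) (.s (.c (nat_lit 2168) l55 (.c (nat_lit 2160) l43 .e)) (.s (.c (nat_lit 1705) l45 (.c (nat_lit 2168) l55 (.c (nat_lit 2070) l55 .e))) (.s (.c (nat_lit 1655) l55 (.c (nat_lit 1994) l43 (.c (nat_lit 1994) l60 .e))) (.s (.c (nat_lit 1655) l55 (.c (nat_lit 2003) l55 .e)) (.s (.c (nat_lit 2265) l43 (.c (nat_lit 2170) l43 (.c (nat_lit 1894) l43 (.c (nat_lit 2540) l43 .e)))) (.s (.c (nat_lit 1994) l43 (.c (nat_lit 1894) l43 .e)) (.s (.c (nat_lit 1994) l43 .e) (.s (.c (nat_lit 2168) l55 .e) (.s (.c (nat_lit 2170) l43 .e) (.s (.c (nat_lit 1212) l61 (.c (nat_lit 2503) l43 (.c (nat_lit 2503) l138 .e))) (.s (.c (nat_lit 2190) l43 (.c (nat_lit 2193) l43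 .e)) (.s (.c (nat_lit 2239) l55 (.c (nat_lit 2239) l45 (.c (nat_lit 2501) l82 (.c (nat_lit 2273) l45 (.c (nat_lit 2273) l58 (.c (nat_lit 2501) l55 .e)))))) (.s (.c (nat_lit 2210) l43 .e) (.s (.c (nat_lit 2013) l55 .e) (.s (.c (nat_lit 2273) l45 (.c (nat_lit 2273) l58 .e)) (.s (.c (nat_lit 2644) l135 (.c (nat_lit 1861) l44 (.c (nat_lit 2644) l138 (.c (nat_lit 1861) l47 .e)))) s3_63))))))))))))))))))

noncomputable def s3_61 : Ss := (.s (.c (nat_lit 2334) l65 .e) (.s (.c (nat_lit 2697) l65 .e) (.s (.c (nat_lit 2620) l42 .e) (.s (.c (nat_lit 2643) l65 .e) (.s (.c (nat_lit 2541) l74 .e) (.s (.c (nat_lit 2445) l66 .e) (.s (.c (nat_lit 2697) l66 (.c (nat_lit 2719) l142 (.c (nat_lit 2649) l51 (.c (nat_lit 2719) l66 (.c (nat_lit 2728) l98 .e))))) (.s (.c (nat_lit 2571) l82 (.c (nat_lit 2571) l55 (.c (nat_lit 2160) l47 (.c (nat_lit 2114) l43 (.c (nat_lit 2158) l55 (.c (nat_lit 2160)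 l43 (.c (nat_lit 2131) l55 (.c (nat_lit 2388) l55 .e)))))))) (.s (.c (nat_lit 1571) l45 .e) (.s (.c (nat_lit 2112) l55 .e) (.s (.c (nat_lit 2732) l201 (.c (nat_lit 2732) l197 (.c (nat_lit 2732) l199 (.c (nat_lit 2158) l55 (.c (nat_lit 1814) l55 (.c (nat_lit 2131) l55 (.c (nat_lit 2732) l190 .e))))))) (.s (.c (nat_lit 2131) l55 .e) (.s (.c (nat_lit 2274) l44 .e) (.s (.c (nat_lit 2006) l45 .e) (.s (.c (nat_lit 1984) l45 (.c (nat_lit 2419) l55 (.c (nat_lit 2539) l45 (.c (nat_lit 2298) l43 (.c (nat_lit 2356) l43 (.c (nat_lit 1994) l43 (.c (nat_lit 1894) l43 (.c (nat_lit 1836) l55 (.c (nat_lit 2422) l60 (.c (nat_lit 2643) l55 .e)))))))))) (.s (.c (nat_lit 2265) l43 (.c (nat_lit 2170) l43 (.c (nat_lit 2168) l55 (.c (nat_lit 1894) l43 (.c (nat_lit 2540) l43 (.c (nat_lit 2414) l43 .e)))))) s3_62))))))))))))))))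

noncomputable def s3_60 : Ss := (.s (.c (nat_lit 2726) l65 (.c (nat_lit 2313) l1 (.c (nat_lit 2100) l42 (.c (nat_lit 2697) l65 (.c (nat_lit 2726) l157 (.c (nat_lit 2731) l104 .e)))))) (.s (.c (nat_lit 2612) l42 (.c (nat_lit 2730) l78 (.c (nat_lit 2730) l118 .e))) (.s (.c (nat_lit 2612) l42 (.c (nat_lit 2730) l181 .e)) (.s (.c (nat_lit 2726) l65 (.c (nat_lit 2100) l42 (.c (nat_lit 2697) l65 (.c (nat_lit 2726) l157 .e)))) (.s (.c (nat_lit 2731) l112 (.c (nat_lit 2731) l167 (.c (nat_lit 2664) l78 (.c (nat_lit 2664) l52 (.c (nat_lit 2727) l111 (.c (nat_lit 2541) l74 (.c (nat_lit 2726) l110 (.c (nat_lit 2731) l175 .e)))))))) (.s (.c (nat_lit 2355) l160 (.c (nat_lit 2726) l110 (.c (nat_lit 2726) l106 .e))) (.s (.c (nat_lit 2730) l78 .e) (.s (.c (nat_lit 2713) l160 .e) (.s (.c (nat_lit 2541) l74 (.c (nat_lit 2726) l110 .e)) (.s (.c (nat_lit 2712) l207 .e) (.s (.c (nat_lit 2675) l50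 .e) (.s (.c (nat_lit 2683) l65 (.c (nat_lit 2502) l97 (.c (nat_lit 2683) l157 .e))) (.s (.c (nat_lit 2724) l71 (.c (nat_lit 2732) l156 .e)) (.s (.c (nat_lit 2724) l71 .e) (.s (.c (nat_lit 2730) l295 (.c (nat_lit 2724) l106 .e)) (.s (.c (nat_lit 2651) l42 (.c (nat_lit 2731) l108 .e)) (.s (.c (nat_lit 2731) l160 .e) s3_61)))))))))))))))))

noncomputable def s3_59 : Ss := (.s (.c (nat_lit 2720) l74 (.c (nat_lit 2720) l108 .e)) (.s (.c (nat_lit 2731) l179 (.c (nat_lit 2698) l140 (.c (nat_lit 2731) l235 (.c (nat_lit 2698) l69 (.c (nat_lit 2698) l49 (.c (nat_lit 2651) l42 (.c (nat_lit 2731) l160 (.c (nat_lit 2720) l74 (.c (nat_lit 2698) l91 .e))))))))) (.s (.c (nat_lit 2701) l78 .e) (.s (.c (nat_lit 2720) l74 .e) (.s (.c (nat_lit 2250) l45 .e) (.s (.c (nat_lit 1757) l42 .e) (.s (.c (nat_lit 2278) l42 .e) (.s (.c (nat_lit 2415) l55 (.c (nat_lit 2415) l58 (.c (nat_lit 2273) l45 (.c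 (nat_lit 2273) l58 (.c (nat_lit 2573) l138 (.c (nat_lit 2415) l82 .e)))))) (.s (.c (nat_lit 2586) l207 .e) (.s (.c (nat_lit 1530) l58 .e) (.s (.c (nat_lit 1994) l47 (.c (nat_lit 1633) l55 (.c (nat_lit 1994) l43 (.c (nat_lit 1994) l60 (.c (nat_lit 1993) l58 (.c (nat_lit 1994) l93 .e)))))) (.s (.c (nat_lit 1993) l58 .e) (.s (.c (nat_lit 2573) l138 .e) (.s (.c (nat_lit 2279) l46 .e) (.s (.c (nat_lit 2305) l55 (.c (nat_lit 2305) l82 .e)) (.s (.c (nat_lit 2558) l141 .e) (.s (.c (nat_lit 2305) l65 .e) (.s (.c (nat_lit 2694) l49 .e) (.s (.c (nat_lit 2003) l58 .e) (.s (.c (nat_lit 2419) l46 .e) s3_60))))))))))))))))))))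

noncomputable def s3_58 : Ss := (.s u3_310 (.s (.c (nat_lit 2239) l46 (.c (nat_lit 2473) l46 .e)) (.s u3_311 (.s u3_313 (.s (.c (nat_lit 2541) l46 (.c (nat_lit 2541) l59 (.c (nat_lit 2191) l46 .e))) (.s (.c (nat_lit 2411) l63 (.c (nat_lit 2404) l74 (.c (nat_lit 2059) l74 .e))) (.s (.c (nat_lit 2571) l97 .e) (.s (.c (nat_lit 1972) l46 (.c (nat_lit 2263) l66 (.c (nat_lit 2434) l46 (.c (nat_lit 2515) l51 (.c (nat_lit 2507) l51 (.c (nat_lit 2537) l54 (.c (nat_lit 2462) l56 (.c (nat_lit 2541) l46 (.c (nat_lit 2279) l46 (.c (nat_lit 2541) l59 (.c (nat_lit 2434) l56 .e))))))))))) (.s (.c (nat_lit 2726) l142 (.c (nat_lit 2731) l272 (.c (nat_lit 2627) l51 (.c (nat_lit 1944) l46 (.c (nat_lit 2637) l59 (.c (nat_lit 1789) l46 (.c (nat_lit 2637) l46 (.c (nat_lit 2648) l75 (.c (nat_lit 2627) l66 (.c (nat_lit 2454) l46 (.c (nat_lit 2731) l142 .e))))))))))) (.s u3_314 (.s u3_315 (.s (.c (nat_lit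 2541) l46 (.c (nat_lit 2541) l59 .e)) (.s (.c (nat_lit 2486) l46 (.c (nat_lit 2454) l46 .e)) (.s (.c (nat_lit 2239) l46 .e) (.s u3_316 (.s (.c (nat_lit 2627) l51 (.c (nat_lit 2646) l75 (.c (nat_lit 2486) l46 (.c (nat_lit 2627) l66 .e)))) s3_59))))))))))))))))

noncomputable def s3_57 : Ss := (.s (.c (nat_lit 2113) l51 .e) (.s (.c (nat_lit 2660) l75 (.c (nat_lit 2445) l66 (.c (nat_lit 2701) l109 .e))) (.s (.c (nat_lit 2513) l59 (.c (nat_lit 2434) l46 (.c (nat_lit 2391) l75 (.c (nat_lit 2207) l46 (.c (nat_lit 2698) l83 (.c (nat_lit 2488) l46 (.c (nat_lit 2644) l56 (.c (nat_lit 2701) l133 .e)))))))) (.s u3_299 (.s (.c (nat_lit 2421) l75 .e) (.s (.c (nat_lit 2349) l46 .e) (.s (.c (nat_lit 1275) l54 (.c (nat_lit 2623) l75 .e)) (.s (.c (nat_lit 2476) l75 (.c (nat_lit 2370) l54 .e)) (.s (.c (nat_lit 1275) l54 .e) (.s u3_301 (.s u3_303 (.s (.c (nat_lit 2261) l75 (.c (nat_lit 2488)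 l46 (.c (nat_lit 2483) l59 .e))) (.s (.c (nat_lit 2419) l59 (.c (nat_lit 2700) l75 (.c (nat_lit 1789) l46 (.c (nat_lit 2419) l46 (.c (nat_lit 2700) l180 (.c (nat_lit 2657) l75 .e)))))) (.s (.c (nat_lit 2625) l59 .e) (.s (.c (nat_lit 2261) l75 (.c (nat_lit 2191) l46 (.c (nat_lit 2191) l59 .e))) (.s (.c (nat_lit 2476) l75 .e) (.s u3_305 (.s u3_307 (.s u3_308 (.s (.c (nat_lit 2419) l59 (.c (nat_lit 2700) l75 (.c (nat_lit 1789) l46 (.c (nat_lit 2419) l46 (.c (nat_lit 2700) l180 .e))))) s3_58))))))))))))))))))))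

noncomputable def s3_56 : Ss := (.s u3_289 (.s u3_290 (.s (.c (nat_lit 2728) l180 (.c (nat_lit 2720) l75 (.c (nat_lit 2720) l232 (.c (nat_lit 2719) l208 (.c (nat_lit 2719) l98 (.c (nat_lit 2065) l54 (.c (nat_lit 2660) l75 (.c (nat_lit 1941) l46 (.c (nat_lit 1955) l46 (.c (nat_lit 2719) l153 .e)))))))))) (.s (.c (nat_lit 2384) l46 .e) (.s (.c (nat_lit 2701) l59 (.c (nat_lit 2659) l46 (.c (nat_lit 2701) l133 (.c (nat_lit 2659) l56 .e)))) (.s u3_292 (.s (.c (nat_lit 2658) l75 (.c (nat_lit 2423) l75 .e)) (.s (.c (nat_lit 2658) l75 .e) (.s (.c (nat_lit 2719) l208 (.c (nat_lit 2698) l66 (.c (nat_lit 2728) l98 (.c (nat_lit 2506) l75 (.c (nat_lit 2728) l153 .e))))) (.s (.c (nat_lit 2506) l75 .e) (.s (.c (nat_lit 1941) l46 (.c (nat_lit 1955) l46 .e)) (.s (.c (nat_lit 1941) l46 .e) (.s (.c (nat_lit 2421) l59 (.c (nat_lit 2150) l46 (.c (nat_lit 2112) l56 .e))) (.s (.c (nat_lit 2651)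 l66 .e) (.s u3_293 (.s (.c (nat_lit 2421) l59 (.c (nat_lit 2150) l46 .e)) (.s u3_295 (.s (.c (nat_lit 2569) l46 (.c (nat_lit 2349) l46 (.c (nat_lit 2648) l59 .e))) (.s u3_297 s3_57)))))))))))))))))))

noncomputable def s3_55 : Ss := (.s (.c (nat_lit 2725) l78 .e) (.s (.c (nat_lit 2730) l74 .e) (.s (.c (nat_lit 2684) l74 .e) (.s (.c (nat_lit 2502) l108 (.c (nat_lit 2293) l74 .e)) (.s (.c (nat_lit 2298) l42 (.c (nat_lit 2713) l179 .e)) (.s (.c (nat_lit 1993) l58 (.c (nat_lit 2250) l45 (.c (nat_lit 2242) l45 .e))) (.s (.c (nat_lit 1993) l58 (.c (nat_lit 2288) l45 .e)) (.s (.c (nat_lit 2061) l45 .e) (.s u3_274 (.s (.c (nat_lit 2506) l75 (.c (nat_lit 2506) l59 .e)) (.s u3_276 (.s u3_279 (.s (.c (nat_lit 2299) l46 .e) (.s u3_282 (.s u3_283 (.s u3_284 (.s (.c (nat_lit 2731) l297 (.c (nat_lit 2731) l98 (.c (nat_lit 2726) l142 (.c (nat_lit 2731) l272 (.c (nat_lit 2419) l59 (.c (nat_lit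 2569) l46 (.c (nat_lit 2419) l46 (.c (nat_lit 2731) l142 (.c (nat_lit 2349) l46 (.c (nat_lit 2648) l59 (.c (nat_lit 2726) l98 .e))))))))))) (.s u3_287 (.s (.c (nat_lit 2701) l133 (.c (nat_lit 2384) l46 (.c (nat_lit 2701) l83 .e))) (.s (.c (nat_lit 2728) l180 (.c (nat_lit 2720) l75 (.c (nat_lit 2720) l232 (.c (nat_lit 2719) l208 (.c (nat_lit 2719) l98 (.c (nat_lit 2065) l54 (.c (nat_lit 2660) l75 (.c (nat_lit 2488) l46 (.c (nat_lit 2501) l46 (.c (nat_lit 2719) l153 (.c (nat_lit 2483) l46 .e))))))))))) s3_56))))))))))))))))))))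

noncomputable def s3_54 : Ss := (.s (.c (nat_lit 2720) l78 .e) (.s (.c (nat_lit 2654) l42 .e) (.s (.c (nat_lit 2651) l42 (.c (nat_lit 2731) l108 (.c (nat_lit 2728) l114 .e))) (.s (.c (nat_lit 2731) l110 .e) (.s (.c (nat_lit 2638) l74 (.c (nat_lit 2639) l53 .e)) (.s (.c (nat_lit 2666) l181 .e) (.s (.c (nat_lit 2710) l74 .e) (.s (.c (nat_lit 2482) l42 .e) (.s (.c (nat_lit 2431) l53 .e) (.s (.c (nat_lit 2603) l42 .e) (.s (.c (nat_lit 2720) l231 .e) (.s (.c (nat_lit 2700) l108 .e) (.s (.c (nat_lit 2730) l111 (.c (nat_lit 2730) l115 .e)) (.s (.c (nat_lit 2732) l203 (.c (nat_lit 2730) l111 (.c (nat_lit 2732) l240 (.c (nat_lit 2721) l81 .e)))) (.s (.c (nat_lit 2708) l118 (.c (nat_lit 2664) l53 (.c (nat_lit 2721) l79 (.c (nat_lit 2664) l74 (.c (nat_lit 2729) l114 .e))))) (.s (.c (nat_lit 2439) l166 (.c (nat_lit 2666) l52 .e)) (.s (.c (nat_lit 2194) l231 (.c (nat_lit 2587) l74 .e))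 (.s (.c (nat_lit 2439) l166 .e) (.s (.c (nat_lit 2194) l231 .e) (.s (.c (nat_lit 2664) l53 (.c (nat_lit 2705) l74 .e)) (.s (.c (nat_lit 2731) l108 (.c (nat_lit 2720) l108 (.c (nat_lit 2731) l236 .e))) (.s u3_273 s3_55))))))))))))))))))))))

noncomputable def s3_53 : Ss := (.s (.c (nat_lit 2612) l53 .e) (.s (.c (nat_lit 2593) l74 .e) (.s (.c (nat_lit 2447) l74 .e) (.s (.c (nat_lit 2632) l78 .e) (.s (.c (nat_lit 1763) l42 (.c (nat_lit 2113) l42 .e)) (.s (.c (nat_lit 2587) l74 (.c (nat_lit 2587) l108 .e)) (.s (.c (nat_lit 2668) l74 .e) (.s (.c (nat_lit 2444) l42 (.c (nat_lit 2589) l42 (.c (nat_lit 2664) l53 (.c (nat_lit 1880) l42 (.c (nat_lit 2706) l179 (.c (nat_lit 2705) l74 (.c (nat_lit 2587) l74 (.c (nat_lit 2666) l181 (.c (nat_lit 2712) l74 (.c (nat_lit 2681) l53 (.c (nat_lit 2729) l179 .e))))))))))) (.s (.c (nat_lit 2665) l74 (.c (nat_lit 2676) l53 .e)) (.s (.c (nat_lit 2708)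 l118 (.c (nat_lit 2708) l78 .e)) (.s (.c (nat_lit 2665) l74 .e) (.s (.c (nat_lit 2431) l53 (.c (nat_lit 2712) l74 (.c (nat_lit 2681) l53 .e))) (.s (.c (nat_lit 2712) l74 .e) (.s (.c (nat_lit 2442) l42 .e) (.s (.c (nat_lit 2706) l70 .e) (.s (.c (nat_lit 2721) l70 (.c (nat_lit 2721) l147 .e)) (.s (.c (nat_lit 2661) l100 (.c (nat_lit 2721) l70 .e)) (.s (.c (nat_lit 2270) l42 .e) (.s (.c (nat_lit 2661) l100 .e) (.s (.c (nat_lit 2727) l111 (.c (nat_lit 2727) l115 .e)) (.s (.c (nat_lit 2664) l52 (.c (nat_lit 2688) l52 .e)) s3_54)))))))))))))))))))))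

noncomputable def s3_52 : Ss := (.s (.c (nat_lit 2447) l74 (.c (nat_lit 2593) l78 .e)) (.s (.c (nat_lit 2664) l52 (.c (nat_lit 2688) l52 (.c (nat_lit 2728) l178 .e))) (.s (.c (nat_lit 2691) l49 (.c (nat_lit 2691) l48 (.c (nat_lit 2687) l49 .e))) (.s (.c (nat_lit 2726) l114 .e) (.s (.c (nat_lit 2632) l74 .e) (.s (.c (nat_lit 1379) l42 .e) (.s u3_270 (.s (.c (nat_lit 2581) l74 .e) (.s (.c (nat_lit 2635) l78 .e) (.s (.c (nat_lit 2727) l111 (.c (nat_lit 2727) l115 (.c (nat_lit 2662) l74 .e))) (.s (.c (nat_lit 2727) l111 (.c (nat_lit 2638) l74 (.c (nat_lit 2639) l53 (.c (nat_lit 2727) l115 (.c (nat_lit 2691) l78 .e))))) (.s (.c (nat_lit 2709) l78 .e) (.s u3_271 (.s (.c (nat_lit 2630) l52 (.c (nat_lit 2664) l78 (.c (nat_lit 2664) l52 (.c (nat_lit 2727) l111 (.c (nat_lit 2638) l74 (.c (nat_lit 1763) l42 (.c (nat_lit 2639) l53 (.c (nat_lit 2727) l115 (.c (nat_lit 2113) l42 (.c (nat_lit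 2447) l74 (.c (nat_lit 2715) l118 .e))))))))))) (.s (.c (nat_lit 2665) l74 (.c (nat_lit 2676) l53 (.c (nat_lit 2668) l74 (.c (nat_lit 2632) l78 (.c (nat_lit 2612) l53 (.c (nat_lit 2706) l108 .e)))))) (.s (.c (nat_lit 2725) l78 (.c (nat_lit 2725) l63 .e)) (.s (.c (nat_lit 2593) l74 (.c (nat_lit 2587) l179 .e)) s3_53)))))))))))))))))

noncomputable def s3_51 : Ss := (.s (.c (nat_lit 2664) l52 (.c (nat_lit 2688) l52 (.c (nat_lit 2728) l77 .e))) (.s (.c (nat_lit 1524) l74 .e) (.s (.c (nat_lit 2431) l53 (.c (nat_lit 2431) l74 (.c (nat_lit 2620) l78 (.c (nat_lit 2582) l52 (.c (nat_lit 2582) l78 .e))))) (.s (.c (nat_lit 2699) l74 .e) (.s (.c (nat_lit 2204) l52 .e) (.s (.c (nat_lit 1781) l42 (.c (nat_lit 2632) l74 (.c (nat_lit 2697) l108 .e))) (.s (.c (nat_lit 2447) l74 (.c (nat_lit 2612) l53 (.c (nat_lit 2593) l78 (.c (nat_lit 2613) l52 (.c (nat_lit 2680) l74 (.c (nat_lit 2694) l74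 (.c (nat_lit 2644) l52 .e))))))) (.s (.c (nat_lit 2694) l74 .e) (.s (.c (nat_lit 2612) l53 (.c (nat_lit 2680) l74 .e)) (.s (.c (nat_lit 2632) l74 (.c (nat_lit 2650) l74 .e)) (.s (.c (nat_lit 2582) l52 .e) (.s (.c (nat_lit 2613) l52 .e) (.s (.c (nat_lit 1781) l42 (.c (nat_lit 2731) l160 (.c (nat_lit 2731) l277 .e))) (.s (.c (nat_lit 2620) l78 .e) (.s (.c (nat_lit 1741) l2 .e) (.s (.c (nat_lit 2451) l42 .e) (.s (.c (nat_lit 2721) l79 (.c (nat_lit 2729) l110 .e)) (.s (.c (nat_lit 2730) l74 (.c (nat_lit 2730) l108 .e)) (.s (.c (nat_lit 2431) l53 (.c (nat_lit 2431) l74 .e)) (.s (.c (nat_lit 1518) l42 (.c (nat_lit 2706) l108 (.c (nat_lit 2706) l160 .e))) s3_52))))))))))))))))))))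

noncomputable def s3_50 : Ss := (.s (.c (nat_lit 2575) l160 .e) (.s (.c (nat_lit 2133) l42 .e) (.s (.c (nat_lit 2609) l42 .e) (.s (.c (nat_lit 2724) l70 .e) (.s (.c (nat_lit 2708) l69 (.c (nat_lit 2730) l107 .e)) (.s (.c (nat_lit 2594) l42 (.c (nat_lit 2732) l239 .e)) (.s (.c (nat_lit 1781) l42 (.c (nat_lit 2638) l74 (.c (nat_lit 2638) l108 (.c (nat_lit 2717) l112 .e)))) (.s (.c (nat_lit 2435) l42 (.c (nat_lit 2442) l42 (.c (nat_lit 2425) l42 .e))) (.s (.c (nat_lit 2691) l78 (.c (nat_lit 2691) l118 .e)) (.s (.c (nat_lit 2355) l74 (.c (nat_lit 2528) l74 .e)) (.s (.c (nat_lit 1781) l42 (.c (nat_lit 2638) l74 (.c (nat_lit 2638) l108 .e))) (.s (.c (nat_lit 2732) l203 (.c (nat_lit 2577) l1 .e)) (.s (.c (nat_lit 2385) l74 .e) (.s (.c (nat_lit 2428) l42 .e) (.s (.c (nat_lit 2534) l42 .e) (.s (.c (nat_lit 2578) l74 .e) (.s (.c (nat_lit 2586) l171 .e) (.s (.c (nat_lit 2335) l42 .e)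 (.s (.c (nat_lit 2518) l53 .e) (.s (.c (nat_lit 2555) l74 .e) (.s (.c (nat_lit 2448) l78 .e) (.s (.c (nat_lit 2653) l108 .e) (.s (.c (nat_lit 1741) l2 (.c (nat_lit 2653) l179 .e)) (.s (.c (nat_lit 2643) l53 .e) s3_51))))))))))))))))))))))))

noncomputable def s3_49 : Ss := (.s (.c (nat_lit 2211) l45 (.c (nat_lit 1132) l45 (.c (nat_lit 2318) l45 (.c (nat_lit 2553) l45 (.c (nat_lit 1875) l45 (.c (nat_lit 2561) l45 (.c (nat_lit 1889) l45 (.c (nat_lit 2179) l45 (.c (nat_lit 2109) l45 (.c (nat_lit 1879) l45 (.c (nat_lit 2421) l44 (.c (nat_lit 2658) l61 .e)))))))))))) (.s (.c (nat_lit 2304) l44 (.c (nat_lit 1530) l58 (.c (nat_lit 2206) l43 .e))) (.s (.c (nat_lit 2421) l44 (.c (nat_lit 2387) l43 .e)) (.s (.c (nat_lit 2413) l45 (.c (nat_lit 2413) l58 .e)) (.s (.c (nat_lit 2297) l45 (.c (nat_lit 1989) l45 (.c (nat_lit 2575) l58 (.c (nat_lit 2260) l45 (.c (nat_lit 2423) l58 (.c (nat_lit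 2306) l58 (.c (nat_lit 2003) l58 (.c (nat_lit 1530) l58 (.c (nat_lit 2250) l45 (.c (nat_lit 2657) l58 .e)))))))))) (.s (.c (nat_lit 2421) l44 .e) (.s (.c (nat_lit 2192) l42 .e) (.s (.c (nat_lit 2611) l63 .e) (.s (.c (nat_lit 1967) l58 .e) (.s (.c (nat_lit 2732) l237 (.c (nat_lit 2586) l171 (.c (nat_lit 2732) l251 .e))) (.s (.c (nat_lit 1522) l42 .e) (.s (.c (nat_lit 2732) l63 (.c (nat_lit 2732) l94 (.c (nat_lit 2635) l42 .e))) (.s (.c (nat_lit 2732) l63 (.c (nat_lit 2732) l94 .e)) (.s (.c (nat_lit 1610) l55 .e) (.s (.c (nat_lit 2422) l55 (.c (nat_lit 2422) l82 .e)) s3_50)))))))))))))))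

noncomputable def s3_48 : Ss := (.s (.c (nat_lit 1634) l58 .e) (.s (.c (nat_lit 1509) l55 .e) (.s (.c (nat_lit 2732) l201 (.c (nat_lit 2732) l197 (.c (nat_lit 2732) l199 (.c (nat_lit 2422) l55 (.c (nat_lit 2158) l55 (.c (nat_lit 1768) l55 (.c (nat_lit 1814) l55 (.c (nat_lit 2732) l190 (.c (nat_lit 2422) l82 (.c (nat_lit 2069) l55 .e)))))))))) (.s (.c (nat_lit 2411) l47 (.c (nat_lit 2304) l44 (.c (nat_lit 2170) l43 (.c (nat_lit 1530) l58 (.c (nat_lit 2421) l44 (.c (nat_lit 2206) l43 (.c (nat_lit 2421) l61 (.c (nat_lit 2423) l61 (.c (nat_lit 2411) l62 .e))))))))) (.s u3_264 (.s (.c (nat_lit 1847) l45 (.c (nat_lit 2061) l45 (.c (nat_lit 2034) l45 (.c (nat_lit 1950) l45 .e)))) (.s u3_267 (.s (.c (nat_lit 2419) l58 .e) (.s (.c (nat_lit 2061) l45 (.c (nat_lit 2034) l45 .e)) (.s (.c (nat_lit 2421) l44 (.c (nat_lit 2421) l61 (.c (nat_lit 2423) l61 .e))) (.s (.c (nat_lit 2170) l43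 (.c (nat_lit 2170) l47 .e)) (.s (.c (nat_lit 2173) l61 .e) (.s (.c (nat_lit 2117) l62 (.c (nat_lit 1768) l58 (.c (nat_lit 2422) l55 (.c (nat_lit 2422) l82 (.c (nat_lit 2421) l44 (.c (nat_lit 2421) l61 (.c (nat_lit 2390) l60 .e))))))) (.s (.c (nat_lit 2421) l44 (.c (nat_lit 2421) l61 .e)) (.s u3_268 s3_49)))))))))))))))

noncomputable def s3_47 : Ss := (.s (.c (nat_lit 1955) l45 (.c (nat_lit 1955) l58 .e)) (.s (.c (nat_lit 2659) l74 .e) (.s (.c (nat_lit 2415) l55 (.c (nat_lit 2541) l58 (.c (nat_lit 2644) l135 (.c (nat_lit 2541) l45 (.c (nat_lit 2415) l58 (.c (nat_lit 2541) l55 (.c (nat_lit 2273) l45 (.c (nat_lit 2644) l138 (.c (nat_lit 2273) l58 (.c (nat_lit 2573) l138 (.c (nat_lit 2415) l82 (.c (nat_lit 2541) l82 .e)))))))))))) (.s (.c (nat_lit 2573) l62 (.c (nat_lit 2273) l45 (.c (nat_lit 2273) l58 (.c (nat_lit 2573) l86 .e)))) (.s (.c (nat_lit 2150) l45 (.c (nat_lit 2173)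 l61 (.c (nat_lit 2163) l58 .e))) (.s (.c (nat_lit 1705) l45 (.c (nat_lit 2150) l45 (.c (nat_lit 1647) l45 (.c (nat_lit 2070) l55 (.c (nat_lit 2160) l43 (.c (nat_lit 1836) l55 (.c (nat_lit 2422) l60 (.c (nat_lit 2173) l61 (.c (nat_lit 2170) l47 (.c (nat_lit 2170) l62 (.c (nat_lit 2171) l58 (.c (nat_lit 2150) l58 .e)))))))))))) (.s (.c (nat_lit 1608) l45 .e) (.s (.c (nat_lit 1157) l45 .e) (.s (.c (nat_lit 2003) l58 (.c (nat_lit 1530) l58 (.c (nat_lit 1634) l58 (.c (nat_lit 2008) l44 .e)))) (.s (.c (nat_lit 2171) l58 .e) (.s (.c (nat_lit 1705) l45 (.c (nat_lit 1647) l45 (.c (nat_lit 2070) l55 (.c (nat_lit 2160) l43 (.c (nat_lit 1836) l55 (.c (nat_lit 2422) l60 (.c (nat_lit 2170) l47 (.c (nat_lit 2170) l62 .e)))))))) s3_48)))))))))))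

noncomputable def s3_46 : Ss := (.s (.c (nat_lit 1900) l42 .e) (.s (.c (nat_lit 2708) l112 .e) (.s (.c (nat_lit 2518) l53 (.c (nat_lit 2655) l78 .e)) (.s (.c (nat_lit 2559) l108 .e) (.s (.c (nat_lit 2231) l42 .e) (.s (.c (nat_lit 2659) l65 .e) (.s (.c (nat_lit 2586) l207 (.c (nat_lit 2675) l70 .e)) (.s (.c (nat_lit 1959) l45 (.c (nat_lit 1959) l58 .e)) (.s (.c (nat_lit 1941) l58 .e) (.s (.c (nat_lit 1972) l45 (.c (nat_lit 1972) l58 .e)) (.s (.c (nat_lit 2274) l44 (.c (nat_lit 2274) l61 .e)) (.s (.c (nat_lit 1967) l58 (.c (nat_lit 1809) l58 (.c (nat_lit 1991) l44 (.c (nat_lit 1860) l58 .e)))) (.s (.c (nat_lit 1991) l44 .e) (.s (.c (nat_lit 1809) l58 .e) (.s (.c (nat_lit 2384) l58 (.c (nat_lit 2186) l45 (.c (nat_lit 2652) l55 (.c (nat_lit 2652) l195 (.c (nat_lit 2652) l253 (.c (nat_lit 2186) l55 (.c (nat_lit 2384) l82 (.c (nat_lit 1967) l58 (.c (nat_lit 2557) l134 .e)))))))))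 (.s (.c (nat_lit 1859) l60 (.c (nat_lit 1859) l43 (.c (nat_lit 2262) l44 (.c (nat_lit 1859) l47 (.c (nat_lit 2544) l44 (.c (nat_lit 2262) l61 (.c (nat_lit 2013) l58 (.c (nat_lit 1859) l62 (.c (nat_lit 2194) l61 .e))))))))) (.s (.c (nat_lit 1523) l58 (.c (nat_lit 1121) l45 .e)) (.s (.c (nat_lit 1105) l58 (.c (nat_lit 1476) l58 .e)) s3_47))))))))))))))))))

noncomputable def s3_45 : Ss := (.s u3_263 (.s (.c (nat_lit 2586) l171 (.c (nat_lit 2666) l78 .e)) (.s (.c (nat_lit 2687) l49 (.c (nat_lit 2592) l69 (.c (nat_lit 2661) l69 .e))) (.s (.c (nat_lit 2580) l49 (.c (nat_lit 2605) l48 (.c (nat_lit 2597) l52 (.c (nat_lit 2582) l52 (.c (nat_lit 2620) l48 (.c (nat_lit 2582) l48 .e)))))) (.s (.c (nat_lit 2620) l48 .e) (.s (.c (nat_lit 2444) l65 .e) (.s (.c (nat_lit 2592) l49 (.c (nat_lit 2592) l69 .e)) (.s (.c (nat_lit 2691) l49 (.c (nat_lit 2611) l63 (.c (nat_lit 2732) l264 .e))) (.s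 (.c (nat_lit 2593) l160 .e) (.s (.c (nat_lit 2691) l49 (.c (nat_lit 2691) l48 (.c (nat_lit 2688) l52 (.c (nat_lit 2687) l48 .e)))) (.s (.c (nat_lit 2298) l42 (.c (nat_lit 2713) l179 (.c (nat_lit 2730) l231 .e))) (.s (.c (nat_lit 2732) l114 (.c (nat_lit 2313) l1 (.c (nat_lit 2620) l42 (.c (nat_lit 2616) l42 (.c (nat_lit 2732) l110 .e))))) (.s (.c (nat_lit 2732) l176 .e) (.s (.c (nat_lit 2591) l42 (.c (nat_lit 2585) l42 (.c (nat_lit 2620) l42 (.c (nat_lit 2603) l42 (.c (nat_lit 2582) l42 .e))))) (.s (.c (nat_lit 2313) l1 (.c (nat_lit 2620) l42 (.c (nat_lit 2616) l42 .e))) (.s (.c (nat_lit 2581) l50 .e) (.s (.c (nat_lit 2643) l65 (.c (nat_lit 2611) l63 (.c (nat_lit 2639) l50 .e))) s3_46)))))))))))))))))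

noncomputable def s3_44 : Ss := (.s (.c (nat_lit 2732) l176 (.c (nat_lit 2732) l155 .e)) (.s u3_256 (.s (.c (nat_lit 2506) l63 .e) (.s u3_257 (.s (.c (nat_lit 2729) l69 (.c (nat_lit 2725) l78 (.c (nat_lit 2725) l63 (.c (nat_lit 2722) l69 .e)))) (.s (.c (nat_lit 2214) l179 .e) (.s (.c (nat_lit 2194) l160 (.c (nat_lit 2439) l166 (.c (nat_lit 2439) l110 .e))) (.s (.c (nat_lit 2586) l171 (.c (nat_lit 2666) l78 (.c (nat_lit 2666) l118 .e))) (.s u3_258 (.s u3_259 (.s (.c (nat_lit 2682) l78 .e) (.s (.c (nat_lit 2385) l53 .e) (.s (.c (nat_lit 2100) l53 (.c (nat_lit 2555) l53 .e)) (.s (.c (nat_lit 2573) l52 .e) (.s (.c (nat_lit 2391) l74 .e) (.s (.c (nat_lit 2100) l53 (.c (nat_lit 2572) l53 .e)) (.s u3_260 (.s (.c (nat_lit 2559) l74 .e) (.s (.c (nat_lit 2100) l53 .e) (.s (.c (nat_lit 2556) l74 .e) (.s (.c (nat_lit 2518) l53 (.c (nat_lit 2655) l78 (.c (nat_lit 2547) l53 .e))) (.s (.c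 (nat_lit 2567) l53 .e) (.s (.c (nat_lit 2654) l53 (.c (nat_lit 2650) l53 .e)) (.s (.c (nat_lit 2654) l53 .e) s3_45))))))))))))))))))))))))

noncomputable def s3_43 : Ss := (.s (.c (nat_lit 2464) l42 (.c (nat_lit 2448) l48 (.c (nat_lit 2730) l246 .e))) (.s (.c (nat_lit 2588) l1 .e) (.s (.c (nat_lit 2667) l267 .e) (.s (.c (nat_lit 2706) l65 (.c (nat_lit 2212) l42 (.c (nat_lit 2706) l157 .e))) (.s (.c (nat_lit 2624) l65 .e) (.s (.c (nat_lit 2718) l102 .e) (.s (.c (nat_lit 2691) l49 (.c (nat_lit 2694) l49 (.c (nat_lit 2611) l63 (.c (nat_lit 2732) l264 (.c (nat_lit 2694) l69 (.c (nat_lit 2718) l107 .e)))))) (.s (.c (nat_lit 2691) l49 (.c (nat_lit 2694) l49 (.c (nat_lit 2611) l63 (.c (nat_lit 2732) l264 (.c (nat_lit 2694) l69 .e))))) (.s (.c (nat_lit 2582) l69 .e) (.s (.c (nat_lit 2727) l276 .e) (.s (.c (nat_lit 2681) l65 .e) (.s (.c (nat_lit 2581) l50 (.c (nat_lit 2676) l50 .e))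 (.s (.c (nat_lit 2438) l160 .e) (.s (.c (nat_lit 2712) l65 (.c (nat_lit 2675) l50 (.c (nat_lit 2730) l157 .e))) (.s (.c (nat_lit 2694) l65 (.c (nat_lit 2335) l42 (.c (nat_lit 2534) l42 (.c (nat_lit 2133) l42 (.c (nat_lit 2731) l150 .e))))) (.s (.c (nat_lit 2732) l114 (.c (nat_lit 2732) l102 (.c (nat_lit 2712) l65 (.c (nat_lit 1858) l65 (.c (nat_lit 1982) l42 (.c (nat_lit 2654) l50 (.c (nat_lit 2665) l50 (.c (nat_lit 2680) l65 (.c (nat_lit 2705) l65 (.c (nat_lit 2639) l50 (.c (nat_lit 2732) l110 (.c (nat_lit 2732) l106 .e)))))))))))) s3_44))))))))))))))))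

noncomputable def s3_42 : Ss := (.s (.c (nat_lit 2635) l48 .e) (.s (.c (nat_lit 2298) l42 (.c (nat_lit 2713) l179 (.c (nat_lit 2684) l74 (.c (nat_lit 2730) l108 (.c (nat_lit 2730) l231 (.c (nat_lit 2730) l171 .e)))))) (.s (.c (nat_lit 2592) l141 .e) (.s (.c (nat_lit 2669) l104 .e) (.s (.c (nat_lit 2726) l65 (.c (nat_lit 2313) l1 (.c (nat_lit 2100) l42 (.c (nat_lit 2697) l65 (.c (nat_lit 2726) l157 (.c (nat_lit 2133) l42 (.c (nat_lit 2635) l42 (.c (nat_lit 2059) l42 (.c (nat_lit 2379) l42 (.c (nat_lit 2731) l147 .e)))))))))) (.s u3_255 (.s (.c (nat_lit 2729) l69 (.c (nat_lit 2730) l78 (.c (nat_lit 2725) l78 (.c (nat_lit 2725) l63 (.c (nat_lit 2722) l69 (.c (nat_lit 2730) l63 .e)))))) (.s (.c (nat_lit 2725) l181 .e) (.s (.c (nat_lit 2705) l74 (.c (nat_lit 2705) l108 .e)) (.s (.c (nat_lit 2722) l110 .e) (.s (.c (nat_lit 2209) l42 .e) (.s (.c (nat_lit 2587) l74 (.c (nat_lit 2587)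 l108 (.c (nat_lit 2593) l160 (.c (nat_lit 2669) l114 .e)))) (.s (.c (nat_lit 2436) l48 .e) (.s (.c (nat_lit 2648) l78 .e) (.s (.c (nat_lit 2121) l42 .e) (.s (.c (nat_lit 2133) l42 (.c (nat_lit 2379) l42 .e)) (.s (.c (nat_lit 2059) l42 .e) (.s (.c (nat_lit 2507) l1 .e) s3_43))))))))))))))))))

noncomputable def s3_41 : Ss := (.s (.c (nat_lit 2732) l63 (.c (nat_lit 2732) l94 (.c (nat_lit 2635) l42 (.c (nat_lit 2529) l42 .e)))) (.s (.c (nat_lit 2307) l1 .e) (.s (.c (nat_lit 2727) l78 (.c (nat_lit 2534) l42 (.c (nat_lit 2727) l118 .e))) (.s (.c (nat_lit 2592) l65 .e) (.s (.c (nat_lit 2708) l48 (.c (nat_lit 2612) l42 (.c (nat_lit 2708) l49 (.c (nat_lit 2594) l42 (.c (nat_lit 2730) l78 (.c (nat_lit 2730) l118 (.c (nat_lit 2732) l239 (.c (nat_lit 2708) l112 (.c (nat_lit 2729) l159 .e))))))))) (.s (.c (nat_lit 2625) l78 .e) (.s u3_253 (.s u3_254 (.s (.c (nat_lit 2706) l65 (.c (nat_lit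 2212) l42 (.c (nat_lit 2722) l49 (.c (nat_lit 2706) l157 (.c (nat_lit 2667) l267 (.c (nat_lit 2588) l1 (.c (nat_lit 2669) l104 (.c (nat_lit 2519) l42 (.c (nat_lit 2722) l159 .e))))))))) (.s (.c (nat_lit 2051) l42 .e) (.s (.c (nat_lit 2731) l110 (.c (nat_lit 2727) l276 (.c (nat_lit 2731) l114 .e))) (.s (.c (nat_lit 2724) l179 (.c (nat_lit 2724) l74 (.c (nat_lit 2732) l114 (.c (nat_lit 2713) l160 (.c (nat_lit 2428) l42 (.c (nat_lit 2732) l110 (.c (nat_lit 2725) l181 (.c (nat_lit 2732) l166 .e)))))))) (.s (.c (nat_lit 1487) l65 (.c (nat_lit 2666) l52 (.c (nat_lit 2666) l48 .e))) (.s (.c (nat_lit 2519) l42 .e) s3_42))))))))))))))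

noncomputable def s3_40 : Ss := (.s (.c (nat_lit 2333) l42 .e) (.s u3_248 (.s u3_249 (.s u3_250 (.s (.c (nat_lit 2630) l52 (.c (nat_lit 2715) l159 (.c (nat_lit 2726) l110 (.c (nat_lit 2726) l106 (.c (nat_lit 2726) l114 (.c (nat_lit 2718) l102 (.c (nat_lit 2726) l102 (.c (nat_lit 2630) l48 .e)))))))) (.s (.c (nat_lit 2715) l159 (.c (nat_lit 2726) l110 (.c (nat_lit 2726) l106 (.c (nat_lit 2726) l114 (.c (nat_lit 2718) l102 (.c (nat_lit 2519) l42 (.c (nat_lit 2726) l102 (.c (nat_lit 2726) l141 .e)))))))) (.s u3_252 (.s (.c (nat_lit 2732) l63 (.c (nat_lit 2732) l94 (.c (nat_lit 2731) l100 .e))) (.s (.c (nat_lit 2727) l78 (.c (nat_lit 2718) l118 (.c (nat_lit 2730) l78 (.c (nat_lit 2720) l78 (.c (nat_lit 2534) l42 (.c (nat_lit 2730) l246 (.c (nat_lit 2625) l78 (.c (nat_lit 2727) l118 (.c (nat_lit 2730) l162 .e))))))))) (.s (.c (nat_lit 2726) l65 (.c (nat_lit 2529) l42 (.c (nat_lit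 2540) l42 (.c (nat_lit 2726) l97 .e)))) (.s (.c (nat_lit 2355) l160 (.c (nat_lit 2691) l49 (.c (nat_lit 2691) l48 (.c (nat_lit 2688) l52 (.c (nat_lit 2726) l114 (.c (nat_lit 2687) l48 (.c (nat_lit 2718) l102 (.c (nat_lit 2726) l102 .e)))))))) (.s (.c (nat_lit 2682) l48 .e) (.s (.c (nat_lit 2540) l42 .e) s3_41)))))))))))))

noncomputable def s3_39 : Ss := (.s (.c (nat_lit 2724) l81 (.c (nat_lit 2732) l237 (.c (nat_lit 2586) l171 (.c (nat_lit 2732) l251 (.c (nat_lit 1900) l42 (.c (nat_lit 2724) l117 .e)))))) (.s (.c (nat_lit 2728) l100 .e) (.s (.c (nat_lit 2635) l78 (.c (nat_lit 2635) l48 (.c (nat_lit 2635) l63 .e))) (.s u3_243 (.s u3_245 (.s (.c (nat_lit 2706) l65 (.c (nat_lit 2212) l42 (.c (nat_lit 2592) l49 (.c (nat_lit 2592) l69 (.c (nat_lit 2706) l97 .e))))) (.s u3_246 (.s u3_247 (.s (.c (nat_lit 2677) l48 (.c (nat_lit 2580) l49 (.c (nat_lit 2605) l48 (.c (nat_lit 2597)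 l52 (.c (nat_lit 2709) l69 (.c (nat_lit 2709) l78 (.c (nat_lit 2582) l52 (.c (nat_lit 2620) l48 (.c (nat_lit 2582) l48 (.c (nat_lit 2648) l78 (.c (nat_lit 2709) l63 .e))))))))))) (.s (.c (nat_lit 2708) l118 (.c (nat_lit 2612) l42 (.c (nat_lit 2730) l181 (.c (nat_lit 2708) l78 (.c (nat_lit 2676) l53 (.c (nat_lit 2730) l107 (.c (nat_lit 1900) l42 (.c (nat_lit 2730) l63 (.c (nat_lit 2592) l65 (.c (nat_lit 2730) l91 .e)))))))))) (.s (.c (nat_lit 2435) l42 (.c (nat_lit 2732) l237 (.c (nat_lit 2442) l42 (.c (nat_lit 2425) l42 (.c (nat_lit 2732) l239 (.c (nat_lit 2708) l112 (.c (nat_lit 2732) l238 .e))))))) (.s (.c (nat_lit 2556) l42 .e) s3_40))))))))))))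

noncomputable def s3_38 : Ss := (.s (.c (nat_lit 2700) l108 (.c (nat_lit 2700) l74 .e)) (.s (.c (nat_lit 2727) l78 (.c (nat_lit 2718) l118 (.c (nat_lit 2730) l78 (.c (nat_lit 2720) l78 (.c (nat_lit 2730) l246 (.c (nat_lit 2625) l78 (.c (nat_lit 2727) l118 (.c (nat_lit 2730) l162 (.c (nat_lit 2727) l181 .e))))))))) (.s (.c (nat_lit 2732) l288 (.c (nat_lit 2648) l78 (.c (nat_lit 2732) l246 .e))) (.s (.c (nat_lit 2732) l91 (.c (nat_lit 2732) l63 (.c (nat_lit 2732) l87 (.c (nat_lit 2631) l50 (.c (nat_lit 2732) l120 .e))))) (.s (.c (nat_lit 2121) l42 (.c (nat_lit 2728) l147 .e)) (.s (.c (nat_lit 2444) l65 (.c (nat_lit 2558) l65 .e)) (.s (.c (nat_lit 2719) l207 .e) (.s (.c (nat_lit 2631) l50 .e) (.s (.c (nat_lit 2577) l69 .e) (.s (.c (nat_lit 2711) l104 .e) (.s (.c (nat_lit 2355) l160 (.c (nat_lit 2688) l52 (.c (nat_lit 2726) l114 (.c (nat_lit 2687) l49 (.c (nat_lit 2687) l48 (.c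 (nat_lit 2718) l102 (.c (nat_lit 2726) l102 (.c (nat_lit 2715) l68 .e)))))))) (.s (.c (nat_lit 2719) l65 (.c (nat_lit 2731) l97 (.c (nat_lit 2731) l157 (.c (nat_lit 2697) l65 (.c (nat_lit 2719) l97 (.c (nat_lit 2731) l152 .e)))))) (.s (.c (nat_lit 2719) l65 (.c (nat_lit 2719) l97 .e)) (.s (.c (nat_lit 2631) l69 .e) (.s (.c (nat_lit 2605) l49 (.c (nat_lit 2605) l48 (.c (nat_lit 2709) l78 (.c (nat_lit 2709) l118 .e)))) s3_39)))))))))))))))

noncomputable def s3_37 : Ss := (.s (.c (nat_lit 2644) l52 (.c (nat_lit 2631) l69 (.c (nat_lit 2715) l221 (.c (nat_lit 2445) l49 (.c (nat_lit 2644) l48 .e))))) (.s (.c (nat_lit 2684) l78 .e) (.s (.c (nat_lit 2335) l42 (.c (nat_lit 2727) l246 .e)) (.s (.c (nat_lit 2732) l63 (.c (nat_lit 2732) l288 (.c (nat_lit 2335) l42 (.c (nat_lit 2534) l42 (.c (nat_lit 2133) l42 (.c (nat_lit 2732) l94 (.c (nat_lit 2635) l42 (.c (nat_lit 2648) l78 (.c (nat_lit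 2529) l42 (.c (nat_lit 2732) l246 (.c (nat_lit 2731) l233 .e))))))))))) (.s (.c (nat_lit 2725) l78 (.c (nat_lit 2725) l118 .e)) (.s (.c (nat_lit 2445) l49 (.c (nat_lit 2445) l69 .e)) (.s (.c (nat_lit 2715) l107 (.c (nat_lit 2719) l69 (.c (nat_lit 2313) l1 (.c (nat_lit 2715) l159 (.c (nat_lit 2635) l78 (.c (nat_lit 2661) l69 (.c (nat_lit 2635) l63 (.c (nat_lit 2631) l69 (.c (nat_lit 2704) l69 .e))))))))) (.s (.c (nat_lit 2445) l49 .e) (.s (.c (nat_lit 2631) l69 (.c (nat_lit 2715) l221 .e)) (.s (.c (nat_lit 1604) l74 .e) (.s (.c (nat_lit 2719) l65 (.c (nat_lit 2731) l97 (.c (nat_lit 2731) l157 (.c (nat_lit 2558) l141 (.c (nat_lit 1757) l42 (.c (nat_lit 2719) l97 (.c (nat_lit 2731) l152 (.c (nat_lit 2697) l152 .e)))))))) (.s (.c (nat_lit 2507) l50 .e) (.s (.c (nat_lit 2697) l65 (.c (nat_lit 2631) l50 (.c (nat_lit 2689) l65 .e))) s3_38)))))))))))))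

noncomputable def s3_36 : Ss := (.s (.c (nat_lit 1604) l74 (.c (nat_lit 2725) l242 .e)) (.s u3_238 (.s (.c (nat_lit 2648) l53 .e) (.s u3_240 (.s u3_242 (.s (.c (nat_lit 2682) l78 (.c (nat_lit 2682) l63 .e)) (.s (.c (nat_lit 2624) l69 (.c (nat_lit 2709) l69 (.c (nat_lit 2648) l63 (.c (nat_lit 2694) l69 (.c (nat_lit 2648) l78 (.c (nat_lit 2677) l107 .e)))))) (.s (.c (nat_lit 2695) l78 .e) (.s (.c (nat_lit 2706) l70 (.c (nat_lit 2577) l69 (.c (nat_lit 2704) l104 .e))) (.s (.c (nat_lit 2424) l1 .e) (.s (.c (nat_lit 2732) l203 (.c (nat_lit 2721) l70 (.c (nat_lit 2577) l1 (.c (nat_lit 2721) l104 .e)))) (.s (.c (nat_lit 2730) l295 (.c (nat_lit 2713) l106 .e)) (.s (.c (nat_lit 2513) l65 .e) (.s (.c (nat_lit 2203) l42 .e) (.s (.c (nat_lit 2587) l70 (.c (nat_lit 2666) l104 .e)) (.s (.c (nat_lit 2587) l70 (.c (nat_lit 2586) l207 (.c (nat_lit 2666) l100 .e))) (.s (.c (nat_lit 2708) l154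 .e) (.s (.c (nat_lit 2344) l42 .e) (.s (.c (nat_lit 2465) l42 .e) (.s (.c (nat_lit 2184) l42 .e) (.s (.c (nat_lit 2707) l53 (.c (nat_lit 2703) l53 (.c (nat_lit 2732) l237 (.c (nat_lit 2676) l53 (.c (nat_lit 2732) l239 (.c (nat_lit 2708) l112 (.c (nat_lit 2732) l238 (.c (nat_lit 2729) l160 .e)))))))) s3_37)))))))))))))))))))))

noncomputable def s3_35 : Ss := (.s (.c (nat_lit 2283) l42 .e) (.s (.c (nat_lit 2485) l42 (.c (nat_lit 2725) l112 (.c (nat_lit 2278) l42 (.c (nat_lit 2712) l74 (.c (nat_lit 2730) l108 (.c (nat_lit 2730) l236 .e)))))) (.s (.c (nat_lit 2502) l108 (.c (nat_lit 2293) l74 (.c (nat_lit 2725) l167 .e))) (.s (.c (nat_lit 2577) l1 (.c (nat_lit 2732) l226 .e)) (.s (.c (nat_lit 2348) l42 .e) (.s (.c (nat_lit 2293) l42 .e) (.s (.c (nat_lit 2556) l42 (.c (nat_lit 2554) l42 .e)) (.s (.c (nat_lit 2528) l53 .e) (.s (.c (nat_lit 2346) l42 .e) (.s (.c (nat_lit 2727) l78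 (.c (nat_lit 2051) l42 (.c (nat_lit 2727) l246 (.c (nat_lit 2727) l162 .e)))) (.s (.c (nat_lit 2418) l42 .e) (.s u3_236 (.s (.c (nat_lit 2317) l42 .e) (.s (.c (nat_lit 1699) l42 .e) (.s (.c (nat_lit 2502) l42 .e) (.s u3_237 (.s (.c (nat_lit 2497) l42 .e) (.s (.c (nat_lit 2625) l74 .e) (.s (.c (nat_lit 2313) l1 (.c (nat_lit 2620) l42 (.c (nat_lit 2730) l74 (.c (nat_lit 2730) l108 (.c (nat_lit 2616) l42 (.c (nat_lit 2682) l48 (.c (nat_lit 2730) l160 .e))))))) (.s (.c (nat_lit 2725) l63 (.c (nat_lit 2725) l181 (.c (nat_lit 1604) l74 (.c (nat_lit 2682) l63 (.c (nat_lit 2725) l242 (.c (nat_lit 2725) l91 .e)))))) s3_36))))))))))))))))))))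

noncomputable def s3_34 : Ss := (.s (.c (nat_lit 2621) l74 (.c (nat_lit 2602) l74 .e)) (.s (.c (nat_lit 2307) l1 (.c (nat_lit 2418) l42 (.c (nat_lit 2380) l42 (.c (nat_lit 2516) l1 .e)))) (.s (.c (nat_lit 2548) l42 .e) (.s u3_235 (.s (.c (nat_lit 2706) l65 (.c (nat_lit 2212) l42 (.c (nat_lit 1757) l42 (.c (nat_lit 2706) l97 (.c (nat_lit 2706) l141 .e))))) (.s (.c (nat_lit 2387) l69 .e) (.s (.c (nat_lit 2653) l97 .e) (.s (.c (nat_lit 2731) l157 (.c (nat_lit 2697) l65 (.c (nat_lit 2558) l65 (.c (nat_lit 2383) l42 (.c (nat_lit 2731) l294 .e))))) (.s (.c (nat_lit 2558) l141 (.c (nat_lit 2697) l152 (.c (nat_lit 2697) l97 .e))) (.s (.c (nat_lit 2580) l49 (.c (nat_lit 2605) l48 (.c (nat_lit 2597) l52 (.c (nat_lit 2613) l52 (.c (nat_lit 2582) l52 (.c (nat_lit 2644) l52 (.c (nat_lit 2620) l48 (.c (nat_lit 2582) l48 (.c (nat_lit 2445) l49 (.c (nat_lit 2644) l48 (.c (nat_lit 2613) l48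 .e))))))))))) (.s (.c (nat_lit 2649) l65 .e) (.s (.c (nat_lit 2704) l79 .e) (.s (.c (nat_lit 2669) l104 (.c (nat_lit 2592) l207 (.c (nat_lit 2669) l100 .e))) (.s (.c (nat_lit 2718) l114 .e) (.s (.c (nat_lit 2383) l42 .e) (.s (.c (nat_lit 2418) l42 (.c (nat_lit 2380) l42 .e)) (.s (.c (nat_lit 2592) l207 .e) s3_35)))))))))))))))))

noncomputable def s3_33 : Ss := (.s (.c (nat_lit 2587) l65 .e) (.s (.c (nat_lit 2707) l104 .e) (.s (.c (nat_lit 2311) l42 .e) (.s (.c (nat_lit 2722) l215 .e) (.s (.c (nat_lit 2665) l114 (.c (nat_lit 2665) l102 .e)) (.s (.c (nat_lit 2587) l79 (.c (nat_lit 2194) l160 (.c (nat_lit 2439) l166 (.c (nat_lit 2439) l110 (.c (nat_lit 2438) l160 (.c (nat_lit 2665) l114 .e)))))) (.s (.c (nat_lit 2697) l70 .e) (.s (.c (nat_lit 2684) l52 .e) (.s (.c (nat_lit 2686) l69 (.c (nat_lit 2387) l69 (.c (nat_lit 2693) l63 .e))) (.s (.c (nat_lit 2727) l74 (.c (nat_lit 2727)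 l160 (.c (nat_lit 2540) l42 (.c (nat_lit 2548) l42 (.c (nat_lit 2727) l108 .e))))) (.s (.c (nat_lit 2720) l78 (.c (nat_lit 2720) l118 .e)) (.s (.c (nat_lit 2405) l42 .e) (.s (.c (nat_lit 1260) l42 .e) (.s (.c (nat_lit 2693) l48 (.c (nat_lit 2664) l52 (.c (nat_lit 2688) l52 (.c (nat_lit 2728) l77 (.c (nat_lit 2635) l48 (.c (nat_lit 2686) l48 .e)))))) (.s (.c (nat_lit 2690) l74 (.c (nat_lit 2690) l108 .e)) (.s (.c (nat_lit 2391) l78 .e) (.s (.c (nat_lit 2725) l237 .e) (.s (.c (nat_lit 2694) l49 (.c (nat_lit 2694) l48 .e)) (.s (.c (nat_lit 2435) l42 (.c (nat_lit 2425) l42 (.c (nat_lit 2704) l79 (.c (nat_lit 2432) l42 .e)))) s3_34)))))))))))))))))))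

noncomputable def s3_32 : Ss := (.s (.c (nat_lit 2682) l69 .e) (.s (.c (nat_lit 2682) l49 .e) (.s (.c (nat_lit 2724) l71 (.c (nat_lit 2732) l156 (.c (nat_lit 2724) l70 (.c (nat_lit 2732) l213 .e)))) (.s (.c (nat_lit 2731) l202 .e) (.s (.c (nat_lit 2624) l69 (.c (nat_lit 2709) l69 (.c (nat_lit 2648) l63 (.c (nat_lit 2694) l49 (.c (nat_lit 2724) l70 (.c (nat_lit 2694) l69 (.c (nat_lit 2648) l78 (.c (nat_lit 2677) l107 (.c (nat_lit 2694) l48 (.c (nat_lit 2724) l100 .e)))))))))) (.s (.c (nat_lit 2581) l50 (.c (nat_lit 2664) l65 .e)) (.s (.c (nat_lit 2638) l50 .e) (.s (.c (nat_lit 2732) l156 (.c (nat_lit 2305) l65 (.c (nat_lit 2724) l102 .e))) (.s (.c (nat_lit 2718) l68 .e) (.s (.c (nat_lit 2065) l42 .e) (.s (.c (nat_lit 2611) l63 (.c (nat_lit 2732) l264 (.c (nat_lit 2694) l69 (.c (nat_lit 2718) l107 (.c (nat_lit 2727) l107 .e))))) (.s u3_233 (.s u3_234 (.s (.c (nat_lit 2730) l295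 (.c (nat_lit 2713) l106 (.c (nat_lit 2666) l49 .e))) (.s (.c (nat_lit 2716) l65 (.c (nat_lit 2727) l97 .e)) (.s (.c (nat_lit 1869) l42 (.c (nat_lit 2231) l42 (.c (nat_lit 2184) l42 (.c (nat_lit 2348) l42 (.c (nat_lit 2178) l42 .e))))) (.s (.c (nat_lit 2671) l53 .e) s3_33)))))))))))))))))

noncomputable def s3_31 : Ss := (.s (.c (nat_lit 2214) l65 .e) (.s (.c (nat_lit 2653) l70 .e) (.s (.c (nat_lit 2606) l160 .e) (.s (.c (nat_lit 1934) l42 .e) (.s (.c (nat_lit 2635) l49 .e) (.s (.c (nat_lit 2635) l69 .e) (.s (.c (nat_lit 2520) l42 .e) (.s u3_231 (.s (.c (nat_lit 2502) l108 (.c (nat_lit 1869) l42 (.c (nat_lit 2293) l74 (.c (nat_lit 2231) l42 (.c (nat_lit 2184) l42 (.c (nat_lit 2348) l42 (.c (nat_lit 2725) l167 (.c (nat_lit 2178) l42 (.c (nat_lit 2713) l112 .e))))))))) (.s (.c (nat_lit 2709) l65 (.c (nat_lit 2709) l97 .e)) (.s (.c (nat_lit 2099) l42 .e) (.s (.c (nat_lit 2625)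 l231 .e) (.s (.c (nat_lit 2625) l160 .e) (.s (.c (nat_lit 2724) l110 .e) (.s (.c (nat_lit 2476) l42 .e) (.s (.c (nat_lit 2580) l49 (.c (nat_lit 2580) l69 .e)) (.s (.c (nat_lit 2666) l100 (.c (nat_lit 2666) l101 .e)) (.s u3_232 (.s (.c (nat_lit 2624) l69 (.c (nat_lit 2709) l69 (.c (nat_lit 2648) l63 (.c (nat_lit 2724) l70 (.c (nat_lit 2694) l69 (.c (nat_lit 2648) l78 (.c (nat_lit 2677) l107 (.c (nat_lit 2730) l104 .e)))))))) (.s (.c (nat_lit 2731) l157 (.c (nat_lit 2659) l65 (.c (nat_lit 2731) l222 .e))) s3_32))))))))))))))))))))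

noncomputable def s3_30 : Ss := (.s (.c (nat_lit 2724) l160 (.c (nat_lit 2724) l74 (.c (nat_lit 2482) l42 (.c (nat_lit 2548) l42 (.c (nat_lit 2405) l42 (.c (nat_lit 2724) l108 .e)))))) (.s (.c (nat_lit 2727) l74 (.c (nat_lit 2727) l160 (.c (nat_lit 2540) l42 (.c (nat_lit 2548) l42 (.c (nat_lit 2727) l108 (.c (nat_lit 2655) l48 .e)))))) (.s u3_228 (.s (.c (nat_lit 2502) l108 (.c (nat_lit 2683) l65 (.c (nat_lit 2502) l97 (.c (nat_lit 2683) l157 (.c (nat_lit 2293) l74 (.c (nat_lit 1260) l42 (.c (nat_lit 2503) l63 .e))))))) (.s u3_229 (.s (.c (nat_lit 2728) l154 .e) (.s (.c (nat_lit 2587) l70 (.c (nat_lit 2705) l65 (.c (nat_lit 2192) l42 (.c (nat_lit 2666) l104 (.c (nat_lit 2705) l97 .e))))) (.s (.c (nat_lit 2436) l49 .e) (.s (.c (nat_lit 2601) l141 .e) (.s (.c (nat_lit 2707) l114 .e) (.s (.c (nat_lit 1855) l74 .e) (.s (.c (nat_lit 2586) l171 (.c (nat_lit 2586) l108 .e)) (.s u3_230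 (.s (.c (nat_lit 2438) l74 .e) (.s (.c (nat_lit 2194) l74 .e) (.s (.c (nat_lit 1391) l42 .e) (.s (.c (nat_lit 2281) l207 .e) (.s (.c (nat_lit 2694) l49 (.c (nat_lit 2694) l48 (.c (nat_lit 2718) l77 .e))) (.s (.c (nat_lit 1961) l74 .e) s3_31)))))))))))))))))))

noncomputable def s3_29 : Ss := (.s (.c (nat_lit 2718) l118 (.c (nat_lit 2718) l78 (.c (nat_lit 2718) l181 .e))) (.s (.c (nat_lit 2134) l42 .e) (.s u3_224 (.s u3_225 (.s (.c (nat_lit 2700) l74 (.c (nat_lit 2648) l53 (.c (nat_lit 2696) l74 .e))) (.s (.c (nat_lit 2727) l111 (.c (nat_lit 2691) l78 (.c (nat_lit 2691) l118 (.c (nat_lit 2718) l77 (.c (nat_lit 2727) l117 .e))))) (.s u3_226 (.s u3_227 (.s (.c (nat_lit 2369) l42 .e) (.s (.c (nat_lit 2133) l42 (.c (nat_lit 2648) l78 (.c (nat_lit 2718) l246 .e))) (.s (.c (nat_lit 2506) l48 .e) (.s (.c (nat_lit 2489) l42 .e) (.s (.c (nat_lit 2707) l50 (.c (nat_lit 2270) l42 (.c (nat_lit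 2676) l50 (.c (nat_lit 2293) l42 (.c (nat_lit 2710) l117 (.c (nat_lit 2730) l141 .e)))))) (.s (.c (nat_lit 2710) l117 .e) (.s (.c (nat_lit 2709) l65 (.c (nat_lit 2723) l65 (.c (nat_lit 2724) l97 (.c (nat_lit 2730) l97 .e)))) (.s (.c (nat_lit 2114) l69 .e) (.s (.c (nat_lit 2352) l42 .e) (.s (.c (nat_lit 2298) l42 (.c (nat_lit 2713) l160 (.c (nat_lit 2713) l108 .e))) (.s (.c (nat_lit 2503) l48 .e) (.s (.c (nat_lit 2718) l118 (.c (nat_lit 2718) l78 .e)) s3_30))))))))))))))))))))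

noncomputable def s3_28 : Ss := (.s u3_220 (.s u3_222 (.s (.c (nat_lit 2506) l48 (.c (nat_lit 2678) l65 (.c (nat_lit 2620) l49 .e))) (.s (.c (nat_lit 1804) l42 .e) (.s u3_223 (.s (.c (nat_lit 2700) l97 .e) (.s (.c (nat_lit 2536) l50 .e) (.s (.c (nat_lit 2612) l65 .e) (.s (.c (nat_lit 2653) l70 (.c (nat_lit 2667) l141 .e)) (.s (.c (nat_lit 2261) l42 .e) (.s (.c (nat_lit 2298) l42 (.c (nat_lit 2713) l179 (.c (nat_lit 2625) l74 (.c (nat_lit 2713) l231 .e)))) (.s (.c (nat_lit 1145) l42 (.c (nat_lit 2447) l74 (.c (nat_lit 2447) l179 .e))) (.s (.c (nat_lit 2506) l78 .e) (.s (.c (nat_lit 1942) l42 .e) (.s (.c (nat_lit 1391) l42 (.c (nat_lit 2116) l42 .e)) (.s (.c (nat_lit 2149) l42 .e) (.s (.c (nat_lit 2678) l65 .e) (.s (.c (nat_lit 1763) l65 .e) (.s (.c (nat_lit 2563) l42 .e) (.s (.c (nat_lit 2657) l74 .e) (.s (.c (nat_lit 2719) l49 (.c (nat_lit 2719) l48 .e)) (.s (.c (nat_lit 2731)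 l179 (.c (nat_lit 2651) l42 (.c (nat_lit 2718) l118 (.c (nat_lit 1763) l42 (.c (nat_lit 2731) l108 (.c (nat_lit 2720) l74 (.c (nat_lit 2720) l108 (.c (nat_lit 2700) l108 (.c (nat_lit 2113) l42 (.c (nat_lit 2718) l78 (.c (nat_lit 2718) l181 (.c (nat_lit 2731) l171 .e)))))))))))) s3_29))))))))))))))))))))))

noncomputable def s3_27 : Ss := (.s (.c (nat_lit 2673) l69 .e) (.s (.c (nat_lit 2732) l250 .e) (.s (.c (nat_lit 2556) l50 .e) (.s (.c (nat_lit 2281) l207 (.c (nat_lit 2493) l100 .e)) (.s (.c (nat_lit 2175) l1 .e) (.s (.c (nat_lit 2302) l49 .e) (.s (.c (nat_lit 2254) l42 .e) (.s (.c (nat_lit 2732) l225 (.c (nat_lit 1934) l42 (.c (nat_lit 2732) l215 .e))) (.s (.c (nat_lit 2586) l207 (.c (nat_lit 2706) l70 (.c (nat_lit 2577) l1 (.c (nat_lit 2675) l70 (.c (nat_lit 2667) l267 (.c (nat_lit 2669) l104 (.c (nat_lit 2708) l154 (.c (nat_lit 2732) l226 (.c (nat_lit 2592) l207 (.c (nat_lit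 2669) l100 (.c (nat_lit 2706) l101 .e))))))))))) (.s u3_218 (.s (.c (nat_lit 2694) l49 (.c (nat_lit 2694) l48 (.c (nat_lit 2727) l100 .e))) (.s u3_219 (.s (.c (nat_lit 2720) l97 (.c (nat_lit 2638) l50 (.c (nat_lit 2630) l49 (.c (nat_lit 2688) l65 .e)))) (.s (.c (nat_lit 2678) l65 (.c (nat_lit 2644) l49 .e)) (.s (.c (nat_lit 2678) l65 (.c (nat_lit 2536) l50 (.c (nat_lit 2644) l69 .e))) (.s (.c (nat_lit 2630) l49 .e) (.s (.c (nat_lit 2713) l157 .e) (.s (.c (nat_lit 2544) l49 .e) (.s (.c (nat_lit 2214) l65 (.c (nat_lit 2593) l65 .e)) s3_28)))))))))))))))))))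

noncomputable def s3_26 : Ss := (.s u3_214 (.s u3_215 (.s u3_216 (.s (.c (nat_lit 2385) l74 (.c (nat_lit 2391) l74 (.c (nat_lit 2385) l53 (.c (nat_lit 2557) l52 .e)))) (.s (.c (nat_lit 2557) l78 .e) (.s (.c (nat_lit 2455) l42 .e) (.s (.c (nat_lit 2193) l65 .e) (.s (.c (nat_lit 2491) l141 .e) (.s (.c (nat_lit 2417) l53 .e) (.s u3_217 (.s (.c (nat_lit 2503) l52 .e) (.s (.c (nat_lit 2214) l65 (.c (nat_lit 2593) l65 (.c (nat_lit 2448) l49 .e))) (.s (.c (nat_lit 1763) l65 (.c (nat_lit 2113) l65 .e)) (.s (.c (nat_lit 2380) l48 .e) (.s (.c (nat_lit 2575) l74 .e) (.s (.c (nat_lit 1572) l42 .e) (.s (.c (nat_lit 2172) l74 .e) (.s (.c (nat_lit 2000) l42 .e) (.s (.c (nat_lit 2245) l42 .e) (.s (.c (nat_lit 2401) l42 .e) (.s (.c (nat_lit 2410) l42 .e) (.s (.c (nat_lit 2673) l49 .e) (.s (.c (nat_lit 2654) l42 (.c (nat_lit 2728) l73 .e)) (.s (.c (nat_lit 2618) l70 (.c (nat_lit 2681) l104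 .e)) (.s (.c (nat_lit 2661) l100 (.c (nat_lit 2577) l1 (.c (nat_lit 2425) l42 (.c (nat_lit 2732) l226 (.c (nat_lit 2311) l42 (.c (nat_lit 2653) l70 (.c (nat_lit 2710) l117 (.c (nat_lit 2667) l141 (.c (nat_lit 2702) l141 .e))))))))) s3_27)))))))))))))))))))))))))

noncomputable def s3_25 : Ss := (.s (.c (nat_lit 2719) l65 (.c (nat_lit 1757) l42 (.c (nat_lit 2719) l97 (.c (nat_lit 2418) l42 (.c (nat_lit 2380) l42 (.c (nat_lit 2557) l52 (.c (nat_lit 2719) l141 (.c (nat_lit 2557) l48 .e)))))))) (.s u3_210 (.s (.c (nat_lit 2719) l65 (.c (nat_lit 2719) l207 (.c (nat_lit 2418) l42 (.c (nat_lit 2380) l42 (.c (nat_lit 1391) l42 (.c (nat_lit 2116) l42 (.c (nat_lit 2390) l65 (.c (nat_lit 2719) l157 .e)))))))) (.s u3_211 (.s (.c (nat_lit 2386) l1 .e) (.s (.c (nat_lit 2698) l49 (.c (nat_lit 2698) l159 .e)) (.s u3_212 (.s (.c (nat_lit 2698) l69 (.c (nat_lit 2113) l65 (.c (nat_lit 2390) l65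 (.c (nat_lit 2698) l107 .e)))) (.s (.c (nat_lit 2731) l157 (.c (nat_lit 2383) l42 (.c (nat_lit 1763) l65 (.c (nat_lit 2401) l42 (.c (nat_lit 2113) l65 (.c (nat_lit 2731) l306 .e)))))) (.s (.c (nat_lit 2653) l157 .e) (.s (.c (nat_lit 2113) l65 (.c (nat_lit 2390) l65 .e)) (.s (.c (nat_lit 2655) l78 (.c (nat_lit 2655) l48 (.c (nat_lit 2575) l74 (.c (nat_lit 2655) l63 .e)))) (.s (.c (nat_lit 2121) l42 (.c (nat_lit 2653) l97 (.c (nat_lit 1391) l42 (.c (nat_lit 2116) l42 (.c (nat_lit 1804) l42 (.c (nat_lit 2728) l209 .e)))))) (.s (.c (nat_lit 2345) l53 .e) s3_26))))))))))))))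

noncomputable def s3_24 : Ss := (.s u3_201 (.s (.c (nat_lit 2701) l78 (.c (nat_lit 2700) l108 (.c (nat_lit 2575) l160 (.c (nat_lit 2172) l74 (.c (nat_lit 2575) l74 (.c (nat_lit 2700) l171 (.c (nat_lit 2701) l118 .e))))))) (.s (.c (nat_lit 2700) l108 (.c (nat_lit 2720) l78 (.c (nat_lit 2575) l160 (.c (nat_lit 2720) l118 (.c (nat_lit 2172) l74 (.c (nat_lit 2700) l171 (.c (nat_lit 2660) l179 (.c (nat_lit 2720) l181 .e)))))))) (.s (.c (nat_lit 2660) l179 .e) (.s (.c (nat_lit 2720) l231 (.c (nat_lit 2099) l42 (.c (nat_lit 2134) l42 (.c (nat_lit 2563) l42 (.c (nat_lit 2149) l42 (.c (nat_lit 1572) l42 (.c (nat_lit 2575) l74 (.c (nat_lit 2728) l166 .e)))))))) (.s (.c (nat_lit 2720) l78 (.c (nat_lit 2133) l42 (.c (nat_lit 2720) l162 .e))) (.s (.c (nat_lit 2700) l108 (.c (nat_lit 2575) l160 (.c (nat_lit 2172) l74 (.c (nat_lit 2575) l74 (.c (nat_lit 2700) l171 .e))))) (.s u3_205 (.s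 (.c (nat_lit 2573) l52 (.c (nat_lit 2573) l48 .e)) (.s u3_206 (.s u3_207 (.s (.c (nat_lit 2573) l52 (.c (nat_lit 2417) l53 (.c (nat_lit 2573) l63 .e))) (.s (.c (nat_lit 1741) l2 (.c (nat_lit 2417) l53 (.c (nat_lit 2701) l140 .e))) (.s u3_208 (.s (.c (nat_lit 2719) l65 (.c (nat_lit 1757) l42 (.c (nat_lit 2719) l97 (.c (nat_lit 2418) l42 (.c (nat_lit 2380) l42 (.c (nat_lit 2557) l78 (.c (nat_lit 2557) l52 (.c (nat_lit 2719) l141 (.c (nat_lit 2557) l48 (.c (nat_lit 2557) l63 .e)))))))))) s3_25)))))))))))))))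

noncomputable def s3_23 : Ss := (.s (.c (nat_lit 2720) l74 (.c (nat_lit 2720) l231 (.c (nat_lit 2418) l42 (.c (nat_lit 2391) l78 (.c (nat_lit 2414) l42 (.c (nat_lit 2720) l179 .e)))))) (.s (.c (nat_lit 2700) l108 (.c (nat_lit 2720) l78 (.c (nat_lit 2575) l160 (.c (nat_lit 2720) l118 (.c (nat_lit 2172) l74 (.c (nat_lit 2700) l171 (.c (nat_lit 2660) l179 (.c (nat_lit 2720) l181 (.c (nat_lit 2701) l181 .e))))))))) (.s (.c (nat_lit 1741) l2 (.c (nat_lit 2169) l42 .e)) (.s (.c (nat_lit 1800) l42 .e) (.s (.c (nat_lit 2418) l42 (.c (nat_lit 2380) l42 (.c (nat_lit 2383) l42 (.c (nat_lit 2389) l42 .e)))) (.s (.c (nat_lit 2531) l49 .e) (.s (.c (nat_lit 2418) l48 .e) (.s u3_199 (.s (.c (nat_lit 2391) l78 (.c (nat_lit 2170) l63 .e)) (.s (.c (nat_lit 2683) l49 (.c (nat_lit 2635) l49 (.c (nat_lit 2728) l73 (.c (nat_lit 2728) l68 .e)))) (.s (.c (nat_lit 2693) l48 (.c (nat_lit 2684) l52 (.c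 (nat_lit 2635) l49 (.c (nat_lit 2686) l49 .e)))) (.s u3_200 (.s (.c (nat_lit 2418) l42 (.c (nat_lit 2414) l42 .e)) (.s (.c (nat_lit 2421) l78 .e) (.s (.c (nat_lit 2660) l108 .e) (.s (.c (nat_lit 1825) l42 .e) (.s (.c (nat_lit 2720) l74 (.c (nat_lit 2720) l108 (.c (nat_lit 2720) l160 .e))) s3_24)))))))))))))))))

noncomputable def s3_22 : Ss := (.s u3_197 (.s (.c (nat_lit 2164) l42 .e) (.s u3_198 (.s (.c (nat_lit 2660) l108 (.c (nat_lit 2660) l160 .e)) (.s (.c (nat_lit 2604) l52 (.c (nat_lit 2117) l48 .e)) (.s (.c (nat_lit 2380) l48 (.c (nat_lit 2531) l49 (.c (nat_lit 2604) l52 (.c (nat_lit 2552) l49 (.c (nat_lit 2548) l48 .e))))) (.s (.c (nat_lit 2380) l48 (.c (nat_lit 2552) l49 (.c (nat_lit 2411) l48 .e))) (.s (.c (nat_lit 2693) l48 (.c (nat_lit 2664) l52 (.c (nat_lit 2683) l49 (.c (nat_lit 2654) l42 (.c (nat_lit 2688) l52 (.c (nat_lit 2728) l77 (.c (nat_lit 2686) l48 (.c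 (nat_lit 2684) l52 (.c (nat_lit 2728) l68 (.c (nat_lit 2552) l49 (.c (nat_lit 2667) l49 .e))))))))))) (.s (.c (nat_lit 2552) l49 .e) (.s (.c (nat_lit 2173) l78 .e) (.s (.c (nat_lit 2117) l78 .e) (.s (.c (nat_lit 2604) l52 .e) (.s (.c (nat_lit 1810) l42 .e) (.s (.c (nat_lit 2720) l231 (.c (nat_lit 2380) l42 (.c (nat_lit 2383) l42 (.c (nat_lit 2401) l42 (.c (nat_lit 2728) l166 (.c (nat_lit 2414) l42 (.c (nat_lit 2389) l42 (.c (nat_lit 2728) l210 .e)))))))) (.s (.c (nat_lit 2172) l74 (.c (nat_lit 2550) l74 .e)) (.s (.c (nat_lit 2701) l63 (.c (nat_lit 2701) l78 (.c (nat_lit 2701) l140 (.c (nat_lit 2660) l179 (.c (nat_lit 2701) l118 (.c (nat_lit 2701) l181 (.c (nat_lit 2701) l91 .e))))))) s3_23))))))))))))))))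

noncomputable def s3_21 : Ss := (.s (.c (nat_lit 2660) l97 .e) (.s (.c (nat_lit 2730) l295 (.c (nat_lit 2305) l65 (.c (nat_lit 2610) l65 .e))) (.s (.c (nat_lit 2730) l295 (.c (nat_lit 2305) l65 (.c (nat_lit 2302) l49 (.c (nat_lit 2501) l65 .e)))) (.s (.c (nat_lit 2385) l50 .e) (.s (.c (nat_lit 2732) l228 .e) (.s (.c (nat_lit 2718) l73 .e) (.s (.c (nat_lit 2543) l42 .e) (.s (.c (nat_lit 2443) l65 .e) (.s (.c (nat_lit 2213) l69 .e) (.s u3_188 (.s (.c (nat_lit 2705) l65 (.c (nat_lit 2586) l207 (.c (nat_lit 2192) l42 (.c (nat_lit 2587) l65 (.c (nat_lit 2065) l42 (.c (nat_lit 1942) l42 (.c (nat_lit 2705) l157 .e))))))) (.s (.c (nat_lit 2193) l65 (.c (nat_lit 2434) l65 .e)) (.s u3_189 (.s u3_192 (.s (.c (nat_lit 2506) l48 (.c (nat_lit 2620) l49 (.c (nat_lit 2644) l49 (.c (nat_lit 2503) l49 (.c (nat_lit 2613) l49 .e))))) (.s (.c (nat_lit 2655) l49 .e) (.s (.c (nat_lit 2503) l49 (.c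 (nat_lit 2582) l49 .e)) (.s (.c (nat_lit 2503) l49 .e) (.s (.c (nat_lit 2611) l78 .e) (.s u3_193 (.s (.c (nat_lit 2117) l78 (.c (nat_lit 2423) l74 .e)) s3_22)))))))))))))))))))))

noncomputable def s3_20 : Ss := (.s (.c (nat_lit 2441) l50 .e) (.s (.c (nat_lit 2708) l106 .e) (.s (.c (nat_lit 2679) l110 .e) (.s (.c (nat_lit 2718) l114 (.c (nat_lit 2724) l110 (.c (nat_lit 2611) l78 (.c (nat_lit 2732) l228 (.c (nat_lit 2724) l79 (.c (nat_lit 2724) l114 (.c (nat_lit 2724) l166 .e))))))) (.s (.c (nat_lit 2732) l250 (.c (nat_lit 2732) l228 (.c (nat_lit 2732) l284 .e))) (.s (.c (nat_lit 2489) l42 (.c (nat_lit 2732) l250 (.c (nat_lit 2487) l42 .e))) (.s (.c (nat_lit 2710) l160 .e) (.s (.c (nat_lit 2625) l231 (.c (nat_lit 2724) l79 (.c (nat_lit 2724) l114 .e))) (.s (.c (nat_lit 2707) l70 .e) (.s (.c (nat_lit 2625) l231 (.c (nat_lit 2724) l79 .e)) (.s (.c (nat_lit 2732) l102 (.c (nat_lit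 2732) l156 (.c (nat_lit 2476) l42 (.c (nat_lit 2606) l160 (.c (nat_lit 2707) l114 (.c (nat_lit 2489) l42 (.c (nat_lit 2254) l42 (.c (nat_lit 2175) l1 (.c (nat_lit 2732) l250 (.c (nat_lit 2732) l146 .e)))))))))) (.s (.c (nat_lit 2670) l50 .e) (.s (.c (nat_lit 1145) l42 (.c (nat_lit 2447) l74 (.c (nat_lit 2593) l160 (.c (nat_lit 2447) l179 (.c (nat_lit 2668) l276 .e))))) (.s (.c (nat_lit 2694) l74 (.c (nat_lit 2694) l108 .e)) (.s (.c (nat_lit 2685) l114 .e) (.s (.c (nat_lit 2715) l64 .e) (.s (.c (nat_lit 2721) l70 (.c (nat_lit 2721) l147 (.c (nat_lit 2577) l69 (.c (nat_lit 2721) l104 (.c (nat_lit 2721) l100 .e))))) s3_21)))))))))))))))))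

noncomputable def s3_19 : Ss := (.s u3_187 (.s (.c (nat_lit 2221) l45 .e) (.s (.c (nat_lit 1972) l45 (.c (nat_lit 1958) l58 (.c (nat_lit 1955) l45 (.c (nat_lit 1908) l45 .e)))) (.s (.c (nat_lit 2262) l44 (.c (nat_lit 2544) l44 (.c (nat_lit 2262) l61 (.c (nat_lit 1967) l58 (.c (nat_lit 2194) l61 (.c (nat_lit 1809) l58 (.c (nat_lit 1991) l44 (.c (nat_lit 1860) l58 (.c (nat_lit 1941) l58 (.c (nat_lit 2157) l61 (.c (nat_lit 2353) l61 .e))))))))))) (.s (.c (nat_lit 1111) l61 (.c (nat_lit 1861) l44 (.c (nat_lit 1523) l58 (.c (nat_lit 1121) l45 (.c (nat_lit 1861) l61 .e))))) (.s (.c (nat_lit 1809) l58 (.c (nat_lit 2157) l61 .e)) (.s (.c (nat_lit 2727) l111 (.c (nat_lit 2204) l52 (.c (nat_lit 2715) l64 (.c (nat_lit 1891) l52 (.c (nat_lit 2715) l77 .e))))) (.s (.c (nat_lit 2210) l52 .e) (.s (.c (nat_lit 2312) l52 .e) (.s (.c (nat_lit 1891) l52 .e) (.s (.c (nat_lit 2168) l58 .e) (.s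 (.c (nat_lit 2682) l69 (.c (nat_lit 2712) l69 .e)) (.s (.c (nat_lit 1862) l65 .e) (.s (.c (nat_lit 2587) l70 (.c (nat_lit 2666) l100 (.c (nat_lit 2193) l65 (.c (nat_lit 2434) l65 (.c (nat_lit 2586) l152 .e))))) (.s (.c (nat_lit 2429) l50 .e) (.s (.c (nat_lit 2707) l114 (.c (nat_lit 2245) l42 (.c (nat_lit 2709) l110 .e))) s3_20))))))))))))))))

noncomputable def s3_18 : Ss := (.s u3_177 (.s u3_179 (.s (.c (nat_lit 1101) l45 (.c (nat_lit 1105) l55 .e)) (.s u3_181 (.s u3_183 (.s u3_184 (.s (.c (nat_lit 2573) l138 (.c (nat_lit 2573) l139 .e)) (.s (.c (nat_lit 2659) l55 (.c (nat_lit 2659) l187 (.c (nat_lit 2415) l82 (.c (nat_lit 2157) l61 (.c (nat_lit 2659) l195 .e))))) (.s u3_185 (.s u3_186 (.s (.c (nat_lit 2644) l138 (.c (nat_lit 2644) l139 .e)) (.s (.c (nat_lit 2262) l44 (.c (nat_lit 2544) l44 (.c (nat_lit 2262) l61 (.c (nat_lit 1967) l58 (.c (nat_lit 2194) l61 (.c (nat_lit 1809)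 l58 (.c (nat_lit 1991) l44 (.c (nat_lit 1860) l58 (.c (nat_lit 1941) l58 (.c (nat_lit 2157) l61 (.c (nat_lit 2353) l61 (.c (nat_lit 2280) l44 .e)))))))))))) (.s (.c (nat_lit 763) l58 (.c (nat_lit 1523) l58 (.c (nat_lit 2274) l44 (.c (nat_lit 1121) l45 (.c (nat_lit 1991) l44 (.c (nat_lit 2274) l61 (.c (nat_lit 2221) l45 (.c (nat_lit 1487) l58 (.c (nat_lit 1901) l45 (.c (nat_lit 2285) l61 .e)))))))))) (.s (.c (nat_lit 1901) l45 .e) (.s (.c (nat_lit 763) l58 (.c (nat_lit 1523) l58 (.c (nat_lit 1121) l45 (.c (nat_lit 2221) l45 (.c (nat_lit 1487) l58 .e))))) s3_19)))))))))))))))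

noncomputable def s3_17 : Ss := (.s (.c (nat_lit 1991) l47 (.c (nat_lit 1991) l44 (.c (nat_lit 1991) l61 (.c (nat_lit 1991) l62 .e)))) (.s (.c (nat_lit 1854) l43 .e) (.s (.c (nat_lit 2278) l43 .e) (.s u3_167 (.s u3_169 (.s (.c (nat_lit 1969) l61 .e) (.s (.c (nat_lit 1101) l45 (.c (nat_lit 1901) l45 (.c (nat_lit 1105) l45 (.c (nat_lit 1585) l45 .e)))) (.s u3_171 (.s u3_172 (.s (.c (nat_lit 1101) l45 (.c (nat_lit 1991) l44 (.c (nat_lit 1628) l58 (.c (nat_lit 1105) l45 (.c (nat_lit 1991) l61 .e))))) (.s (.c (nat_lit 1213) l45 (.c (nat_lit 870) l58 (.c (nat_lit 2221) l45 (.c (nat_lit 1604) l58 .e)))) (.s (.c (nat_lit 2573) l60 (.c (nat_lit 2573) l89 (.c (nat_lit 2573) l62 (.c (nat_lit 2573) l138 (.c (nat_lit 1809) l58 (.c (nat_lit 2157) l61 (.c (nat_lit 2573) l139 (.c (nat_lit 2573) l90 .e)))))))) (.s u3_174 (.s (.c (nat_lit 1101) l45 (.c (nat_lit 1105) l45 .e)) (.s (.c (nat_lit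 1628) l58 .e) (.s u3_175 (.s u3_176 (.s (.c (nat_lit 1213) l45 (.c (nat_lit 1972) l45 (.c (nat_lit 1958) l58 (.c (nat_lit 1961) l58 (.c (nat_lit 870) l58 (.c (nat_lit 1955) l45 (.c (nat_lit 1908) l45 (.c (nat_lit 2221) l45 (.c (nat_lit 1901) l45 (.c (nat_lit 1961) l45 .e)))))))))) s3_18))))))))))))))))))

noncomputable def s3_16 : Ss := (.s (.c (nat_lit 2415) l55 (.c (nat_lit 2573) l62 (.c (nat_lit 2415) l58 (.c (nat_lit 2281) l60 (.c (nat_lit 2193) l43 (.c (nat_lit 2573) l138 (.c (nat_lit 2415) l82 (.c (nat_lit 2573) l86 (.c (nat_lit 2353) l61 (.c (nat_lit 2193) l60 (.c (nat_lit 2353) l62 .e))))))))))) (.s (.c (nat_lit 2305) l55 (.c (nat_lit 2281) l60 (.c (nat_lit 2193) l43 (.c (nat_lit 2305) l82 (.c (nat_lit 2193) l60 .e))))) (.s (.c (nat_lit 1809) l55 .e) (.s (.c (nat_lit 1955) l45 (.c (nat_lit 1610) l55 (.c (nat_lit 1961) l45 (.c (nat_lit 1969) l61 (.c (nat_lit 1955) l55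 (.c (nat_lit 1969) l62 (.c (nat_lit 1961) l55 .e))))))) (.s (.c (nat_lit 1610) l55 (.c (nat_lit 1221) l58 .e)) (.s u3_164 (.s (.c (nat_lit 1959) l45 (.c (nat_lit 1959) l58 (.c (nat_lit 1969) l61 (.c (nat_lit 1969) l62 .e)))) (.s (.c (nat_lit 2305) l55 (.c (nat_lit 2305) l82 (.c (nat_lit 1941) l55 .e))) (.s (.c (nat_lit 1213) l45 (.c (nat_lit 1213) l55 .e)) (.s (.c (nat_lit 1972) l45 (.c (nat_lit 1860) l55 (.c (nat_lit 1972) l55 .e))) (.s u3_165 (.s (.c (nat_lit 1955) l45 (.c (nat_lit 1959) l45 (.c (nat_lit 1610) l55 (.c (nat_lit 1959) l58 (.c (nat_lit 1955) l55 .e))))) (.s (.c (nat_lit 2278) l43 (.c (nat_lit 1966) l43 .e)) s3_17)))))))))))))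

noncomputable def s3_15 : Ss := (.s (.c (nat_lit 2652) l55 (.c (nat_lit 2652) l195 (.c (nat_lit 2652) l253 (.c (nat_lit 2655) l60 (.c (nat_lit 1809) l55 (.c (nat_lit 2564) l60 (.c (nat_lit 2105) l43 (.c (nat_lit 2384) l55 (.c (nat_lit 1547) l45 (.c (nat_lit 2655) l89 .e)))))))))) (.s (.c (nat_lit 1547) l45 .e) (.s u3_153 (.s u3_155 (.s u3_156 (.s u3_158 (.s u3_160 (.s u3_161 (.s u3_162 (.s (.c (nat_lit 2652) l55 (.c (nat_lit 2652) l195 (.c (nat_lit 2652) l253 (.c (nat_lit 2564) l60 (.c (nat_lit 2105) l43 (.c (nat_lit 2384) l55 .e)))))) (.s u3_163 (.s (.c (nat_lit 1809) l55 (.c (nat_lit 2564) l60 (.c (nat_lit 2105) l43 .e))) (.s (.c (nat_lit 2415) l55 (.c (nat_lit 2573) l62 (.c (nat_lit 2415) l58 (.c (nat_lit 2573) l138 (.c (nat_lit 2415) l82 (.c (nat_lit 2573) l86 (.c (nat_lit 2564) l60 .e))))))) (.s (.c (nat_lit 1213) l45 (.c (nat_lit 1212) l61 (.c (nat_lit 2503) l43 (.c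 (nat_lit 2503) l60 (.c (nat_lit 1969) l134 (.c (nat_lit 2503) l138 (.c (nat_lit 1213) l55 (.c (nat_lit 2503) l89 .e)))))))) (.s (.c (nat_lit 1986) l45 (.c (nat_lit 2281) l60 (.c (nat_lit 1959) l45 (.c (nat_lit 2013) l55 (.c (nat_lit 2193) l43 (.c (nat_lit 1959) l58 (.c (nat_lit 2193) l60 (.c (nat_lit 1986) l58 .e)))))))) s3_16)))))))))))))))

noncomputable def s3_14 : Ss := (.s u3_141 (.s u3_143 (.s (.c (nat_lit 1610) l55 (.c (nat_lit 1905) l45 (.c (nat_lit 1210) l45 .e))) (.s (.c (nat_lit 870) l55 .e) (.s (.c (nat_lit 1905) l45 (.c (nat_lit 1252) l45 .e)) (.s u3_144 (.s u3_146 (.s u3_147 (.s (.c (nat_lit 1610) l55 (.c (nat_lit 1221) l55 (.c (nat_lit 1604) l55 (.c (nat_lit 2224) l45 (.c (nat_lit 2305) l187 (.c (nat_lit 1476) l55 .e)))))) (.s (.c (nat_lit 1649) l58 .e) (.s (.c (nat_lit 2305) l187 .e) (.s (.c (nat_lit 1240) l60 .e) (.s u3_148 (.s (.c (nat_lit 1905) l45 .e) (.s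 u3_149 (.s (.c (nat_lit 1610) l55 (.c (nat_lit 1221) l55 (.c (nat_lit 1604) l55 .e))) (.s u3_150 (.s u3_151 (.s (.c (nat_lit 1610) l55 (.c (nat_lit 1221) l55 .e)) (.s (.c (nat_lit 2652) l55 (.c (nat_lit 2652) l195 (.c (nat_lit 2652) l253 (.c (nat_lit 2655) l60 (.c (nat_lit 1809) l55 (.c (nat_lit 2564) l60 (.c (nat_lit 2105) l43 (.c (nat_lit 2384) l55 (.c (nat_lit 1547) l45 (.c (nat_lit 2655) l89 (.c (nat_lit 1628) l55 .e))))))))))) s3_15))))))))))))))))))))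

noncomputable def s3_13 : Ss := (.s (.c (nat_lit 1806) l45 (.c (nat_lit 1706) l45 .e)) (.s (.c (nat_lit 1806) l45 .e) (.s (.c (nat_lit 1750) l45 .e) (.s (.c (nat_lit 1789) l45 .e) (.s u3_118 (.s u3_124 (.s (.c (nat_lit 1814) l55 (.c (nat_lit 1762) l55 .e)) (.s (.c (nat_lit 1626) l45 .e) (.s (.c (nat_lit 2117) l62 (.c (nat_lit 1768) l58 (.c (nat_lit 2422) l55 (.c (nat_lit 2114) l43 (.c (nat_lit 1993) l58 (.c (nat_lit 2288) l45 (.c (nat_lit 2422) l82 (.c (nat_lit 2423) l61 (.c (nat_lit 1608) l45 (.c (nat_lit 2168) l58 (.c (nat_lit 2114) l60 (.c (nat_lit 2575) l61 .e)))))))))))) (.s u3_130 (.s u3_131 (.s (.c (nat_lit 1602) l45 (.c (nat_lit 1631) l45 .e)) (.s u3_132 (.s (.c (nat_lit 2061) l45 (.c (nat_lit 2034) l45 (.c (nat_lit 2349) l45 .e))) (.s u3_133 (.s (.c (nat_lit 2100) l50 .e) (.s u3_135 (.s (.c (nat_lit 1221) l55 (.c (nat_lit 1221) l45 .e)) (.s u3_137 (.s u3_139 (.s (.c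 (nat_lit 1213) l45 (.c (nat_lit 1969) l61 (.c (nat_lit 1213) l55 (.c (nat_lit 1969) l85 .e)))) s3_14)))))))))))))))))))))

noncomputable def s3_12 : Ss := (.s (.c (nat_lit 1268) l45 .e) (.s u3_42 (.s u3_45 (.s u3_51 (.s u3_57 (.s u3_63 (.s u3_69 (.s (.c (nat_lit 1257) l45 (.c (nat_lit 1262) l45 (.c (nat_lit 1228) l45 .e))) (.s u3_76 (.s u3_78 (.s (.c (nat_lit 1262) l45 .e) (.s u3_80 (.s (.c (nat_lit 1238) l45 .e) (.s (.c (nat_lit 1257) l45 (.c (nat_lit 1701) l45 .e)) (.s (.c (nat_lit 1806) l45 (.c (nat_lit 1706) l45 (.c (nat_lit 1257) l45 (.c (nat_lit 1704) l45 .e)))) (.s (.c (nat_lit 2159) l58 .e) (.s u3_82 (.s u3_88 (.s u3_91 (.s u3_93 (.s u3_95 (.s (.c (nat_lit 1257) l45 .e) (.s u3_101 (.s u3_102 (.s u3_108 (.s u3_114 (.s u3_116 s3_13)))))))))))))))))))))))))))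

noncomputable def s3_11 : Ss := (.s (.c (nat_lit 2307) l1 (.c (nat_lit 2731) l203 .e)) (.s (.c (nat_lit 2712) l141 .e) (.s (.c (nat_lit 2695) l181 .e) (.s (.c (nat_lit 2499) l42 .e) (.s (.c (nat_lit 1548) l42 .e) (.s (.c (nat_lit 2684) l231 .e) (.s (.c (nat_lit 2295) l42 .e) (.s (.c (nat_lit 1982) l42 (.c (nat_lit 2293) l42 (.c (nat_lit 2261) l42 (.c (nat_lit 2708) l106 (.c (nat_lit 2259) l42 .e))))) (.s (.c (nat_lit 2713) l110 .e) (.s (.c (nat_lit 2637) l52 .e) (.s (.c (nat_lit 2327) l42 .e) (.s (.c (nat_lit 2520) l42 (.c (nat_lit 2731) l244 .e)) (.s (.c (nat_lit 2634) l53 .e) (.s (.c (nat_lit 2617) l231 (.c (nat_lit 2675) l79 .e)) (.s (.c (nat_lit 2110) l50 .e) (.s (.c (nat_lit 2724) l110 (.c (nat_lit 2611) l78 (.c (nat_lit 2718) l73 (.c (nat_lit 2724) l79 (.c (nat_lit 2724) l114 (.c (nat_lit 2724) l166 (.c (nat_lit 2724) l233 .e))))))) (.s (.c (nat_lit 2718) l73 (.c (nat_lit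 2718) l110 .e)) (.s (.c (nat_lit 2722) l67 .e) (.s (.c (nat_lit 1862) l65 (.c (nat_lit 2668) l100 .e)) (.s (.c (nat_lit 2707) l70 (.c (nat_lit 2708) l100 .e)) (.s (.c (nat_lit 2193) l141 .e) (.s u3_36 s3_12))))))))))))))))))))))

noncomputable def s3_10 : Ss := (.s (.c (nat_lit 2659) l65 (.c (nat_lit 2659) l97 .e)) (.s (.c (nat_lit 2002) l42 .e) (.s u3_30 (.s u3_31 (.s (.c (nat_lit 2493) l104 .e) (.s u3_32 (.s u3_33 (.s (.c (nat_lit 2624) l65 (.c (nat_lit 2281) l207 (.c (nat_lit 2713) l157 (.c (nat_lit 2493) l100 (.c (nat_lit 2619) l50 .e))))) (.s (.c (nat_lit 2688) l160 .e) (.s (.c (nat_lit 2520) l42 (.c (nat_lit 2327) l42 (.c (nat_lit 2331) l42 (.c (nat_lit 2511) l42 .e)))) (.s (.c (nat_lit 2597) l52 (.c (nat_lit 2544) l52 (.c (nat_lit 2597) l78 .e))) (.s (.c (nat_lit 2717) l112 (.c (nat_lit 2637) l52 (.c (nat_lit 2717) l167 .e))) (.s (.c (nat_lit 2583) l50 .e) (.s (.c (nat_lit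 2731) l157 (.c (nat_lit 2731) l222 (.c (nat_lit 2385) l50 (.c (nat_lit 2731) l274 .e)))) (.s (.c (nat_lit 2209) l50 .e) (.s (.c (nat_lit 2502) l108 (.c (nat_lit 2293) l74 (.c (nat_lit 2685) l114 (.c (nat_lit 2685) l116 .e)))) (.s (.c (nat_lit 2671) l53 (.c (nat_lit 2671) l74 .e)) (.s (.c (nat_lit 2509) l1 .e) (.s (.c (nat_lit 2331) l42 .e) (.s (.c (nat_lit 2544) l52 .e) (.s u3_34 s3_11)))))))))))))))))))))

noncomputable def s3_9 : Ss := (.s (.c (nat_lit 2712) l74 (.c (nat_lit 2681) l53 (.c (nat_lit 2730) l108 (.c (nat_lit 2730) l231 (.c (nat_lit 2730) l236 (.c (nat_lit 2503) l52 (.c (nat_lit 2730) l279 .e))))))) (.s (.c (nat_lit 2213) l65 .e) (.s (.c (nat_lit 2572) l65 .e) (.s (.c (nat_lit 2385) l50 (.c (nat_lit 2385) l65 .e)) (.s (.c (nat_lit 2422) l65 .e) (.s u3_29 (.s (.c (nat_lit 2573) l49 .e) (.s (.c (nat_lit 2536) l50 (.c (nat_lit 2503) l49 (.c (nat_lit 2503) l69 (.c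 (nat_lit 2547) l50 .e)))) (.s (.c (nat_lit 2214) l65 (.c (nat_lit 2593) l65 (.c (nat_lit 2448) l49 (.c (nat_lit 2503) l49 (.c (nat_lit 2503) l69 (.c (nat_lit 2484) l65 .e)))))) (.s (.c (nat_lit 2731) l157 (.c (nat_lit 2731) l222 (.c (nat_lit 2700) l97 (.c (nat_lit 2385) l50 (.c (nat_lit 2731) l274 (.c (nat_lit 2656) l97 .e)))))) (.s (.c (nat_lit 2503) l49 (.c (nat_lit 2503) l69 .e)) (.s (.c (nat_lit 2566) l50 .e) (.s (.c (nat_lit 2624) l65 (.c (nat_lit 2556) l50 (.c (nat_lit 2385) l50 (.c (nat_lit 2431) l50 .e)))) (.s (.c (nat_lit 2404) l74 (.c (nat_lit 2658) l112 .e)) (.s (.c (nat_lit 2352) l42 (.c (nat_lit 2350) l42 .e)) (.s (.c (nat_lit 2660) l97 (.c (nat_lit 2100) l50 (.c (nat_lit 2567) l50 .e))) s3_10))))))))))))))))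

noncomputable def s3_8 : Ss := (.s (.c (nat_lit 2539) l53 .e) (.s u3_27 (.s (.c (nat_lit 2621) l74 (.c (nat_lit 2664) l74 (.c (nat_lit 2705) l74 (.c (nat_lit 2705) l108 (.c (nat_lit 2528) l53 (.c (nat_lit 2688) l160 (.c (nat_lit 2664) l108 .e))))))) (.s (.c (nat_lit 2680) l74 (.c (nat_lit 2680) l108 .e)) (.s u3_28 (.s (.c (nat_lit 1530) l74 (.c (nat_lit 2214) l108 .e)) (.s (.c (nat_lit 1530) l74 .e) (.s (.c (nat_lit 2448) l78 (.c (nat_lit 2448) l118 .e)) (.s (.c (nat_lit 2448) l181 .e) (.s (.c (nat_lit 2730) l111 (.c (nat_lit 2732) l237 (.c (nat_lit 2730) l115 (.c (nat_lit 2586) l171 (.c (nat_lit 2578) l74 (.c (nat_lit 2194) l74 (.c (nat_lit 2586) l108 (.c (nat_lit 1891) l52 (.c (nat_lit 2732) l242 (.c (nat_lit 2705) l231 .e)))))))))) (.s (.c (nat_lit 2732) l237 (.c (nat_lit 2586) l171 (.c (nat_lit 2732) l251 (.c (nat_lit 1900) l42 (.c (nat_lit 2707) l104 (.c (nat_lit 1855)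 l74 (.c (nat_lit 2707) l113 .e))))))) (.s (.c (nat_lit 1476) l74 .e) (.s (.c (nat_lit 2730) l111 (.c (nat_lit 2732) l237 (.c (nat_lit 2730) l115 (.c (nat_lit 2586) l171 (.c (nat_lit 2578) l74 (.c (nat_lit 2586) l108 (.c (nat_lit 1891) l52 (.c (nat_lit 2732) l242 .e)))))))) (.s (.c (nat_lit 2194) l74 (.c (nat_lit 2438) l74 (.c (nat_lit 2584) l74 .e))) s3_9))))))))))))))

noncomputable def s3_7 : Ss := (.s (.c (nat_lit 2684) l160 (.c (nat_lit 1982) l42 (.c (nat_lit 2684) l74 (.c (nat_lit 2695) l181 (.c (nat_lit 2002) l42 (.c (nat_lit 2684) l108 .e)))))) (.s (.c (nat_lit 2558) l141 (.c (nat_lit 2444) l141 .e)) (.s (.c (nat_lit 2100) l50 (.c (nat_lit 2566) l50 (.c (nat_lit 2572) l65 (.c (nat_lit 2660) l157 (.c (nat_lit 2566) l65 .e))))) (.s (.c (nat_lit 2571) l97 (.c (nat_lit 2110) l50 (.c (nat_lit 2110) l65 .e))) (.s (.c (nat_lit 2100) l50 (.c (nat_lit 2422) l65 (.c (nat_lit 2660)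 l157 .e))) (.s (.c (nat_lit 1503) l65 .e) (.s (.c (nat_lit 1890) l42 .e) (.s (.c (nat_lit 2190) l42 .e) (.s (.c (nat_lit 2488) l53 .e) (.s (.c (nat_lit 2453) l65 .e) (.s (.c (nat_lit 2677) l64 .e) (.s (.c (nat_lit 814) l42 .e) (.s (.c (nat_lit 2363) l42 .e) (.s (.c (nat_lit 2683) l65 (.c (nat_lit 2730) l157 (.c (nat_lit 2681) l65 (.c (nat_lit 2730) l97 (.c (nat_lit 2000) l42 (.c (nat_lit 2712) l141 (.c (nat_lit 2713) l97 (.c (nat_lit 2730) l152 .e)))))))) (.s (.c (nat_lit 2502) l108 (.c (nat_lit 2725) l112 (.c (nat_lit 2617) l231 (.c (nat_lit 2293) l74 (.c (nat_lit 2666) l78 (.c (nat_lit 2685) l114 (.c (nat_lit 2675) l79 (.c (nat_lit 2685) l116 (.c (nat_lit 2725) l116 (.c (nat_lit 2705) l78 .e)))))))))) s3_8)))))))))))))))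

noncomputable def s3_6 : Ss := (.s (.c (nat_lit 2063) l42 .e) (.s u3_26 (.s (.c (nat_lit 2643) l65 (.c (nat_lit 2065) l42 (.c (nat_lit 2636) l69 (.c (nat_lit 2643) l97 .e)))) (.s (.c (nat_lit 2636) l69 .e) (.s (.c (nat_lit 2670) l50 (.c (nat_lit 2670) l65 .e)) (.s (.c (nat_lit 2718) l114 (.c (nat_lit 2731) l202 (.c (nat_lit 2724) l110 (.c (nat_lit 2352) l42 (.c (nat_lit 2611) l78 (.c (nat_lit 2543) l42 (.c (nat_lit 2724) l79 (.c (nat_lit 2724) l114 (.c (nat_lit 2724) l166 (.c (nat_lit 2731) l244 (.c (nat_lit 2633) l50 (.c (nat_lit 2731) l204 .e)))))))))))) (.s (.c (nat_lit 2580) l49 (.c (nat_lit 2531) l49 (.c (nat_lit 2596) l69 .e))) (.s (.c (nat_lit 2513) l65 (.c (nat_lit 2718) l114 (.c (nat_lit 2543) l42 (.c (nat_lit 2718) l110 (.c (nat_lit 2724) l233 (.c (nat_lit 2731) l217 .e)))))) (.s (.c (nat_lit 2633) l50 .e) (.s (.c (nat_lit 2278) l42 (.c (nat_lit 2712) l74 (.c (nat_lit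 2712) l108 .e))) (.s (.c (nat_lit 2699) l74 (.c (nat_lit 2654) l108 .e)) (.s (.c (nat_lit 2264) l74 (.c (nat_lit 2355) l74 (.c (nat_lit 2447) l74 (.c (nat_lit 2559) l108 (.c (nat_lit 2559) l74 (.c (nat_lit 2544) l52 (.c (nat_lit 1530) l74 (.c (nat_lit 2214) l108 (.c (nat_lit 814) l42 (.c (nat_lit 2447) l108 .e)))))))))) (.s (.c (nat_lit 2488) l52 .e) s3_7)))))))))))))

noncomputable def s3_5 : Ss := (.s (.c (nat_lit 1888) l42 .e) (.s (.c (nat_lit 1504) l42 .e) (.s (.c (nat_lit 2375) l1 (.c (nat_lit 2104) l42 (.c (nat_lit 2669) l154 .e))) (.s (.c (nat_lit 2509) l50 .e) (.s (.c (nat_lit 1886) l42 .e) (.s (.c (nat_lit 2392) l42 .e) (.s (.c (nat_lit 2708) l100 (.c (nat_lit 2708) l117 .e)) (.s (.c (nat_lit 2014) l42 .e) (.s (.c (nat_lit 2104) l42 .e) (.s (.c (nat_lit 2558) l141 (.c (nat_lit 2721) l70 (.c (nat_lit 2721) l147 (.c (nat_lit 2307) l1 (.c (nat_lit 2577) l69 (.c (nat_lit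 2721) l104 (.c (nat_lit 2721) l100 (.c (nat_lit 2731) l203 (.c (nat_lit 2509) l1 (.c (nat_lit 2444) l141 (.c (nat_lit 2715) l100 .e))))))))))) (.s (.c (nat_lit 2375) l1 .e) (.s (.c (nat_lit 2509) l1 (.c (nat_lit 2721) l209 .e)) (.s u3_25 (.s (.c (nat_lit 2594) l42 (.c (nat_lit 2708) l112 (.c (nat_lit 2455) l42 (.c (nat_lit 1548) l42 (.c (nat_lit 1890) l42 (.c (nat_lit 2732) l280 .e)))))) (.s (.c (nat_lit 2706) l70 (.c (nat_lit 2577) l1 (.c (nat_lit 2667) l267 (.c (nat_lit 2669) l104 (.c (nat_lit 2732) l226 (.c (nat_lit 2592) l207 (.c (nat_lit 2669) l100 (.c (nat_lit 2706) l100 .e)))))))) (.s (.c (nat_lit 2544) l49 (.c (nat_lit 2695) l181 (.c (nat_lit 2544) l52 (.c (nat_lit 2544) l48 .e)))) s3_6))))))))))))))))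

noncomputable def s3_4 : Ss := (.s (.c (nat_lit 2621) l74 (.c (nat_lit 2278) l42 (.c (nat_lit 2712) l74 (.c (nat_lit 2680) l74 (.c (nat_lit 2680) l108 (.c (nat_lit 2712) l108 (.c (nat_lit 2615) l74 (.c (nat_lit 2498) l53 (.c (nat_lit 2675) l108 .e))))))))) (.s (.c (nat_lit 2262) l52 .e) (.s (.c (nat_lit 1377) l50 .e) (.s (.c (nat_lit 1909) l42 .e) (.s (.c (nat_lit 2351) l53 .e) (.s u3_21 (.s (.c (nat_lit 2731) l112 (.c (nat_lit 2727) l111 (.c (nat_lit 2726) l110 (.c (nat_lit 2699) l74 (.c (nat_lit 2528) l53 (.c (nat_lit 2718) l112 (.c (nat_lit 2688) l160 (.c (nat_lit 2654) l108 (.c (nat_lit 2498) l53 (.c (nat_lit 2731) l164 .e)))))))))) (.s (.c (nat_lit 2498) l53 .e) (.s (.c (nat_lit 2278) l42 (.c (nat_lit 2712) l74 (.c (nat_lit 2712) l108 (.c (nat_lit 2615) l74 .e)))) (.s (.c (nat_lit 2696) l100 .e) (.s u3_22 (.s (.c (nat_lit 2623) l117 .e) (.s (.c (nat_lit 1548) l42 (.c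 (nat_lit 2708) l110 .e)) (.s (.c (nat_lit 2375) l1 (.c (nat_lit 1544) l42 (.c (nat_lit 2669) l64 .e))) (.s (.c (nat_lit 2048) l42 .e) (.s (.c (nat_lit 2682) l116 .e) (.s (.c (nat_lit 1544) l42 (.c (nat_lit 1843) l42 .e)) (.s (.c (nat_lit 1544) l42 .e) s3_5))))))))))))))))))

noncomputable def s3_3 : Ss := (.s u3_10 (.s u3_11 (.s u3_14 (.s (.c (nat_lit 2732) l225 (.c (nat_lit 2732) l102 (.c (nat_lit 2732) l156 (.c (nat_lit 2606) l160 (.c (nat_lit 2732) l250 (.c (nat_lit 2732) l146 (.c (nat_lit 2724) l114 (.c (nat_lit 2679) l110 (.c (nat_lit 2363) l42 (.c (nat_lit 2623) l117 (.c (nat_lit 2732) l216 .e))))))))))) (.s (.c (nat_lit 2670) l50 (.c (nat_lit 2441) l50 (.c (nat_lit 2429) l50 (.c (nat_lit 2712) l141 (.c (nat_lit 2583) l50 (.c (nat_lit 2579) l50 .e)))))) (.s (.c (nat_lit 2624) l141 .e) (.s (.c (nat_lit 2614) l65 .e) (.s (.c (nat_lit 2680) l65 (.c (nat_lit 2680) l97 .e))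 (.s (.c (nat_lit 2499) l42 (.c (nat_lit 2713) l79 .e)) (.s (.c (nat_lit 2694) l49 (.c (nat_lit 2694) l69 (.c (nat_lit 2711) l104 (.c (nat_lit 2695) l78 (.c (nat_lit 2718) l114 (.c (nat_lit 2694) l48 (.c (nat_lit 2644) l69 (.c (nat_lit 2727) l100 (.c (nat_lit 2718) l110 (.c (nat_lit 2696) l100 (.c (nat_lit 2695) l63 .e))))))))))) (.s u3_15 (.s u3_16 (.s u3_17 (.s (.c (nat_lit 2670) l50 (.c (nat_lit 2670) l65 (.c (nat_lit 2725) l100 .e))) (.s (.c (nat_lit 2689) l79 .e) (.s (.c (nat_lit 2652) l160 .e) s3_4))))))))))))))))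

noncomputable def s3_2 : Ss := (.s (.c (nat_lit 2731) l102 (.c (nat_lit 2543) l42 (.c (nat_lit 2634) l53 (.c (nat_lit 2350) l42 (.c (nat_lit 2363) l42 (.c (nat_lit 2633) l50 (.c (nat_lit 2731) l146 .e))))))) (.s (.c (nat_lit 2525) l50 .e) (.s (.c (nat_lit 2544) l49 (.c (nat_lit 2193) l65 (.c (nat_lit 2434) l65 (.c (nat_lit 2695) l181 (.c (nat_lit 2544) l52 (.c (nat_lit 2209) l50 (.c (nat_lit 2544) l48 (.c (nat_lit 2624) l141 (.c (nat_lit 2203) l50 (.c (nat_lit 2437) l65 .e)))))))))) (.s (.c (nat_lit 2683) l65 (.c (nat_lit 2684) l160 (.c (nat_lit 1982) l42 (.c (nat_lit 2684) l74 (.c (nat_lit 2695) l181 (.c (nat_lit 2209) l50 (.c (nat_lit 2002) l42 (.c (nat_lit 2684) l108 (.c (nat_lit 2428) l50 (.c (nat_lit 2683) l97 .e)))))))))) (.s u3_7 (.s (.c (nat_lit 2209) l50 (.c (nat_lit 2203) l50 .e)) (.s (.c (nat_lit 2209) l50 (.c (nat_lit 2428) l50 .e)) (.s (.c (nat_lit 1512) l50 .e)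 (.s (.c (nat_lit 1529) l65 .e) (.s (.c (nat_lit 2065) l42 (.c (nat_lit 2694) l141 .e)) (.s (.c (nat_lit 2697) l70 (.c (nat_lit 2697) l71 .e)) (.s (.c (nat_lit 2680) l65 (.c (nat_lit 2675) l50 (.c (nat_lit 1942) l42 (.c (nat_lit 2000) l42 (.c (nat_lit 2680) l97 (.c (nat_lit 2675) l141 .e)))))) (.s (.c (nat_lit 2680) l65 (.c (nat_lit 2544) l49 (.c (nat_lit 2673) l69 (.c (nat_lit 2673) l49 (.c (nat_lit 2695) l181 (.c (nat_lit 2544) l52 (.c (nat_lit 2544) l48 (.c (nat_lit 2680) l97 (.c (nat_lit 2601) l65 .e))))))))) s3_3)))))))))))))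

noncomputable def s3_1 : Ss := (.s (.c (nat_lit 2586) l207 (.c (nat_lit 2706) l70 (.c (nat_lit 2675) l70 (.c (nat_lit 2697) l70 (.c (nat_lit 2499) l42 (.c (nat_lit 2713) l79 (.c (nat_lit 2697) l71 (.c (nat_lit 1475) l65 (.c (nat_lit 2711) l70 (.c (nat_lit 2706) l71 .e)))))))))) (.s (.c (nat_lit 2712) l207 (.c (nat_lit 2599) l50 .e)) (.s (.c (nat_lit 2499) l42 (.c (nat_lit 2713) l79 (.c (nat_lit 2711) l70 .e))) (.s (.c (nat_lit 2280) l42 .e) (.s (.c (nat_lit 2296) l49 .e) (.s (.c (nat_lit 1984) l53 .e) (.s (.c (nat_lit 2193) l141 (.c (nat_lit 2439) l100 .e)) (.s (.c (nat_lit 2666) l100 (.c (nat_lit 2666) l104 (.c (nat_lit 2586) l152 (.c (nat_lit 1503) l65 (.c (nat_lit 2189) l65 (.c (nat_lit 2586) l97 .e)))))) (.s (.c (nat_lit 1475) l65 .e) (.s u3_1 (.s u3_3 (.s (.c (nat_lit 2193) l65 (.c (nat_lit 2189) l65 .e)) (.s (.c (nat_lit 2732) l225 (.c (nat_lit 1934) l42 (.c (nat_lit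 2732) l215 (.c (nat_lit 2679) l110 (.c (nat_lit 2709) l110 (.c (nat_lit 2709) l106 .e)))))) (.s u3_6 (.s (.c (nat_lit 2434) l50 .e) (.s (.c (nat_lit 2435) l50 .e) (.s (.c (nat_lit 2434) l65 (.c (nat_lit 2193) l141 (.c (nat_lit 2586) l65 .e))) s3_2)))))))))))))))))

noncomputable def s3_0 : Ss := (.s (.c (nat_lit 2296) l48 (.c (nat_lit 2278) l42 (.c (nat_lit 2681) l53 (.c (nat_lit 2498) l53 (.c (nat_lit 2296) l49 (.c (nat_lit 2681) l160 .e)))))) (.s (.c (nat_lit 2491) l65 .e) (.s (.c (nat_lit 2490) l52 .e) (.s u3_0 (.s (.c (nat_lit 2732) l225 (.c (nat_lit 1934) l42 (.c (nat_lit 2732) l215 (.c (nat_lit 2679) l110 (.c (nat_lit 2709) l110 (.c (nat_lit 2709) l106 (.c (nat_lit 2617) l97 (.c (nat_lit 2617) l152 (.c (nat_lit 2490) l48 .e))))))))) (.s (.c (nat_lit 2718) l68 (.c (nat_lit 2731) l202 (.c (nat_lit 2544) l49 (.c (nat_lit 2718) l73 (.c (nat_lit 2718) l110 (.c (nat_lit 2296)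 l49 (.c (nat_lit 2718) l106 .e))))))) (.s (.c (nat_lit 2732) l225 (.c (nat_lit 2617) l65 (.c (nat_lit 1934) l42 (.c (nat_lit 2732) l215 (.c (nat_lit 2679) l110 (.c (nat_lit 2709) l110 (.c (nat_lit 2709) l106 (.c (nat_lit 2617) l152 .e)))))))) (.s (.c (nat_lit 2732) l225 (.c (nat_lit 1934) l42 (.c (nat_lit 2732) l215 (.c (nat_lit 2679) l110 (.c (nat_lit 2709) l110 (.c (nat_lit 2709) l106 (.c (nat_lit 2490) l63 .e))))))) (.s (.c (nat_lit 2732) l225 (.c (nat_lit 2617) l65 (.c (nat_lit 1934) l42 (.c (nat_lit 2732) l215 (.c (nat_lit 2679) l110 (.c (nat_lit 2709) l110 (.c (nat_lit 2709) l106 (.c (nat_lit 2617) l97 .e)))))))) (.s (.c (nat_lit 2499) l42 (.c (nat_lit 2713) l79 (.c (nat_lit 2434) l50 (.c (nat_lit 2713) l70 .e)))) s3_1))))))))))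

end Pool.Agent.L3E.RM.M
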