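import Pool.Agent.L3E.RM.DatT
import Pool.Agent.L3E.RM.DatQ
import Pool.Agent.L3E.RM.S3

set_option autoImplicit false
set_option maxRecDepth 1000000

namespace Pool.Agent.L3E.RM.M

open Pool.Agent.L3E.RMG Pool.Agent.L3E.RM

theorem k3 : run tb s3_0 (fun Q => Nat.beq Q q4) q3 = true := by decide +kernel

theorem o3 : s3_0.ok (nat_lit 2732) = true := by decide +kernel

end Pool.Agent.L3E.RM.M
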