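import Pool.Agent.L3E.RM.Chk
import Pool.Agent.L3E.RM.K0
import Pool.Agent.L3E.RM.K1
import Pool.Agent.L3E.RM.K2
import Pool.Agent.L3E.RM.K3
import Pool.Agent.L3E.CLC

set_option autoImplicit false
set_option linter.unusedSimpArgs false
set_option linter.unusedSectionVars false

/-!
# L3E: Claim M and `Stmt_R1x` (helper31)

`C E C E X^g = 0` if `x, y, g` in `D`, `y g = g y`, `y g` good, `C` good.
-/

namespace Pool.Agent.L3E.RM.M

open Pool.Agent.L3E.RMG Pool.Agent.L3E.RM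

variable {R : Type} [Ring R]

theorem pow_add_lt {b n : ℕ} (h : b < n) : 2 ^ b + b < 2 ^ n := by
  have h1 : b < 2 ^ b := Nat.lt_two_pow_self
  have h2 : 2 ^ b + 2 ^ b = 2 ^ (b + 1) := by rw [pow_succ, Nat.mul_two]
  have h3 : 2 ^ (b + 1) ≤ 2 ^ n := Nat.pow_le_pow_right (by norm_num) h
  omega

theorem evalG {t : Tb} {n hi : ℕ} (hw : WF t n hi) (h2 : (2 : R) = 0) (F : ℕ → R) (a : Lt → R)
    (H : ∀ j, dd t n F a j = 0) (hF : ∀ k < 64, F k = 0) {b : ℕ} (hb : b < n) (hb' : b < 2 ^ 64)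
    (p : Pr) (hp : ztb t p b = true) : F b * pv a p = 0 := by
  have h3 := zt_spec hw h2 F a H p (v := 2 ^ b + b) (pow_add_lt hb) hp
  rwa [vec_low F h2 hF hb'] at h3

theorem wft : WF tb 2752 2752 :=
  ⟨rfl, rfl, rfl, rfl, wx, wy, wg, wc, bx, by', bg, bc⟩

section
variable {D : Set R} {a : Lt → R} (h : Hy D a)

/-- The basis elements. -/
noncomputable def F (a : Lt → R) : ℕ → R := fam a (a .c) 2732 w0

include h

theorem step (m : ℕ) (H : ∀ j, dd tb 2752 (F a) a j ∈ K a m) (j : ℕ) :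
    dd tb 2752 (F a) a j ∈ K a (m + 1) := by
  have hF : ∀ k < 64, F a k = 0 := fun k hk => F_low a (a .c) bo k hk
  have hL : LOK (F a) a 2732 := lok h (F a) 2732 (fam_top a (a .c))
  have key := fun κ ss hok Q hQ hr => run_spec wft h.two (F a) a H hF
    (by norm_num : 2732 < 2752) (by norm_num : 2732 < 2 ^ 64) hL κ ss hok Q hQ hr
  have b0 : ∀ j, q0.testBit j = false → dd tb 2752 (F a) a j ∈ K a (m + 1) := by
    intro j hj
    have := base wft h.two a (a .c) bo zz (by norm_num : 2732 < 2752) mq j hj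
    rw [F, this]
    exact zero_mem _
  obtain ⟨Q1, e1, b1⟩ := key _ _ o0 _ b0 k0
  rw [Nat.eq_of_beq_eq_true e1] at b1
  obtain ⟨Q2, e2, b2⟩ := key _ _ o1 _ b1 k1
  rw [Nat.eq_of_beq_eq_true e2] at b2
  obtain ⟨Q3, e3, b3⟩ := key _ _ o2 _ b2 k2
  rw [Nat.eq_of_beq_eq_true e3] at b3
  obtain ⟨Q4, e4, b4⟩ := key _ _ o3 _ b3 k3
  rw [Nat.eq_of_beq_eq_true e4] at b4
  by_cases hj : j < 64
  · unfold dd
    rw [if_pos hj]
    exact zero_mem _
  · refine b4 j ?_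
    have h0 : q4 / 2 ^ 64 = 0 := by
      have h1 : Nat.shiftRight q4 64 = q4 / 2 ^ 64 := Nat.shiftRight_eq_div_pow _ _
      rw [← h1]
      exact Nat.eq_of_beq_eq_true q4z
    refine Nat.testBit_lt_two_pow (lt_of_lt_of_le (b := 2 ^ 64) ?_
      (Nat.pow_le_pow_right (by norm_num) (by omega)))
    exact (Nat.div_eq_zero_iff_lt (Nat.two_pow_pos 64)).1 h0

theorem exact (j : ℕ) : dd tb 2752 (F a) a j = 0 := by
  obtain ⟨N, hN⟩ := h.nil
  have : ∀ m, ∀ j, dd tb 2752 (F a) a j ∈ K a m := by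
    intro m
    induction m with
    | zero => intro j; exact K_zero _
    | succ m ih => exact step h m ih
  exact K_nil hN (this N j)

theorem eval (p : Pr) (hp : ztb tb p 2732 = true) :
    a .c * pv a p = 0 := by
  have hF : ∀ k < 64, F a k = 0 := fun k hk => F_low a (a .c) bo k hk
  have h3 := evalG wft h.two (F a) a (exact h) hF (by norm_num : 2732 < 2752)
    (by norm_num : 2732 < 2 ^ 64) p hp
  have h4 : F a 2732 = a .c := fam_top a (a .c)
  exact (congrArg (fun z => z * pv a p) h4.symm).trans h3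

/-- `E = [x, y] - 1`. -/
def E (a : Lt → R) : R := gw a exy - 1

theorem c1 : a .c * E a * a .c * E a * (1 + a .g) * a .x = 0 := by
  have := eval h p1 z1
  have e : pv a p1 = E a * (a .c * (E a * ((1 + a .g) * 1 * a .x))) := rfl
  rw [e, mul_one] at this
  simpa only [mul_assoc] using this

theorem c2 : a .c * E a * a .c * E a * a .x = 0 := by
  have := eval h p2 z2
  have e : pv a p2 = E a * (a .c * (E a * a .x)) := rfl
  rw [e] at this
  simpa only [mul_assoc] using this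

/-- Claim M: `C E C E` is killed by `[x, g] - 1`. -/
theorem cM : a .c * E a * a .c * E a *
    ((1 + a .x) * (1 + a .g) * (1 + a .x) * (1 + a .g) - 1) = 0 := by
  have h1 := c1 h
  have h3 := c2 h
  set W := a .c * E a * a .c * E a with hW
  have e1 : W * (1 + a .x) = W := by rw [mul_add, mul_one, h3, add_zero]
  have e2 : W * (1 + a .g) * (1 + a .x) = W * (1 + a .g) := by
    rw [mul_add (W * (1 + a .g)), mul_one, h1, add_zero]
  have e3 : W * (1 + a .g) * (1 + a .g) = W := by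
    rw [mul_assoc, unit h, mul_one]
  rw [mul_sub, mul_one, ← mul_assoc, ← mul_assoc, ← mul_assoc, e1, e2, e3, sub_self]

end

end Pool.Agent.L3E.RM.M

namespace Pool.Agent.L3E

open scoped commutatorElement
open RM RM.M CLB_

/-- (R1x). -/
theorem r1x : Stmt_R1x := by
  intro G _ D R _ ρ _ _ hD hS hR c hc x hx y hy u hu hUX
  have h2 := hR.two
  have ix : ∀ d ∈ D, d⁻¹ = d := fun d hd => inv_eq_of_mul_eq_one_left (hD.inv d hd)
  set g := u * y * u⁻¹ with hg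
  have hgD : g ∈ D := hD.conj y hy u
  set xs : Lt → G := fun l => Lt.rec (motive := fun _ => G) x y g c l with hxs
  set a : Lt → R := fun l => ρ (xs l) - 1 with ha
  set D' : Set R := {r | ∃ d ∈ D, r = ρ d - 1} with hD'
  have hgood : ∀ d ∈ D, Gd D ρ d := fun d hd => CLC_.gdD hD hR hd
  have hyu : ⁅y, u⁆ = y * g := by
    rw [commutatorElement_def, ix y hy, hg]
    group
  have hEG : EG D ⁅y, u⁆ := comm_eg hD hS hy hu
  have hM := gd_of_eg hR hEG
  have hgw : gw a yg - 1 = ρ ⁅y, u⁆ - 1 := by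
    have e : gw a yg = (1 + (ρ y - 1)) * ((1 + (ρ g - 1)) * 1) := rfl
    rw [e, mul_one, add_sub_cancel, add_sub_cancel, ← map_mul, hyu]
  have hconj : ∀ v : G, v ∈ D ∨ v = c → ∀ w ∈ D,
      (1 + (ρ v - 1)) * (ρ w - 1) * (1 + (ρ v - 1)) = ρ (v * w * v⁻¹) - 1 := by
    intro v hv w _
    have hvv : ρ v⁻¹ = ρ v := by
      rcases hv with hv | hv
      · rw [ix v hv]
      · rw [hv]
        exact BCS_.rho_inv h2 hc.sq
    rw [add_sub_cancel, conj_sub, hvv]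
  have H : Hy D' a := by
    refine ⟨h2, ?_, ?_, ?_, ?_, hc.sq, ?_, ?_, ?_, ?_, ?_, ?_, ?_⟩
    · intro l hl
      cases l
      · exact ⟨x, hx, rfl⟩
      · exact ⟨y, hy, rfl⟩
      · exact ⟨g, hgD, rfl⟩
      · exact absurd hl (by decide)
    · rintro _ ⟨v, hv, rfl⟩ _ ⟨w, hw, rfl⟩
      exact ⟨v * w * v⁻¹, hD.conj w hw v, hconj v (Or.inl hv) w hw⟩
    · rintro _ ⟨w, hw, rfl⟩
      exact ⟨c * w * c⁻¹, hD.conj w hw c, hconj c (Or.inr rfl) w hw⟩
    · rintro _ ⟨v, hv, rfl⟩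
      exact (hgood v hv).sq
    · rintro _ ⟨v, hv, rfl⟩ _ ⟨w, hw, rfl⟩
      exact (hgood v hv).pr w hw
    · rintro _ ⟨v, hv, rfl⟩
      exact hc.pr v hv
    · rintro _ ⟨v, hv, rfl⟩
      exact hc.pr' v hv
    · rintro _ ⟨v, hv, rfl⟩
      rw [hgw]
      exact hM.pr v hv
    · rintro _ ⟨v, hv, rfl⟩
      rw [hgw]
      exact hM.pr' v hv
    · have e : gw a (.k .y (.k .g yg)) = (1 + (ρ y - 1)) * ((1 + (ρ g - 1)) *
          ((1 + (ρ y - 1)) * ((1 + (ρ g - 1)) * 1))) := rfl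
      rw [e, mul_one]
      simp only [add_sub_cancel]
      rw [← map_mul, ← map_mul, ← map_mul, ← mul_assoc, ← hyu, hEG.1, map_one]
    · obtain ⟨N, hN⟩ := hR.nil
      refine ⟨N, fun w hw => ?_⟩
      have := hN (w.map xs) (by rw [List.length_map, hw])
      rw [List.map_map] at this
      exact this
  have hE : E a = ρ ⁅x, y⁆ - 1 := by
    have e : E a = (1 + (ρ x - 1)) * ((1 + (ρ y - 1)) * ((1 + (ρ x - 1)) *
        ((1 + (ρ y - 1)) * 1))) - 1 := rfl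
    rw [e, mul_one]
    simp only [add_sub_cancel]
    rw [← map_mul, ← map_mul, ← map_mul, commutatorElement_def, ix x hx, ix y hy]
    simp only [mul_assoc]
  have hcM := cM H
  rw [hE] at hcM
  have hux : ρ u * ρ x = ρ x * ρ u := by
    have h3 : ρ u * ρ x = (ρ u - 1) * (ρ x - 1) + ρ u + ρ x - 1 := by noncomm_ring
    have h4 : ρ x * ρ u = (ρ x - 1) * (ρ u - 1) + ρ u + ρ x - 1 := by noncomm_ring
    rw [h3, h4, hUX]
  have hxu : ρ (u * x * u⁻¹) = ρ x := by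
    rw [map_mul, map_mul, hux, mul_assoc, ← map_mul, mul_inv_cancel, map_one, mul_one]
  have hx2 : ρ x * ρ x = 1 := by rw [← map_mul, hD.inv x hx, map_one]
  have hEg : (1 + a .x) * (1 + a .g) * (1 + a .x) * (1 + a .g) - 1 =
      ρ (u * ⁅x, y⁆ * u⁻¹) - 1 := by
    have e1 : (1 + a .x) = ρ x := add_sub_cancel _ _
    have e2 : (1 + a .g) = ρ g := add_sub_cancel _ _
    rw [e1, e2]
    congr 1
    have e3 : u * ⁅x, y⁆ * u⁻¹ = (u * x * u⁻¹) * g * (u * x * u⁻¹) * g := by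
      rw [commutatorElement_def, ix x hx, ix y hy, hg]
      group
    rw [e3, map_mul ρ (u * x * u⁻¹ * g * (u * x * u⁻¹)) g,
      map_mul ρ (u * x * u⁻¹ * g) (u * x * u⁻¹), map_mul ρ (u * x * u⁻¹) g, hxu]
  rw [hEg] at hcM
  have hWc : (ρ c - 1) * (ρ ⁅x, y⁆ - 1) * (ρ c - 1) * (ρ ⁅x, y⁆ - 1) * (ρ ⁅x, y⁆ - 1) = 0 := by
    have : (ρ ⁅x, y⁆ - 1) * (ρ ⁅x, y⁆ - 1) = 0 := hR.sq _ (comm_eg hD hS hx hy)
    rw [mul_assoc, this, mul_zero]
  set W := (ρ c - 1) * (ρ ⁅x, y⁆ - 1) * (ρ c - 1) * (ρ ⁅x, y⁆ - 1) with hW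
  have h5 : W * (ρ u * (ρ ⁅x, y⁆ - 1) * ρ u⁻¹) = 0 := by
    rw [← conj_sub]
    exact hcM
  have h6 : W * (ρ u * (ρ ⁅x, y⁆ - 1)) = 0 := by
    have huu : ρ u⁻¹ * ρ u = 1 := by rw [← map_mul, inv_mul_cancel, map_one]
    calc W * (ρ u * (ρ ⁅x, y⁆ - 1)) = W * (ρ u * (ρ ⁅x, y⁆ - 1) * ρ u⁻¹) * ρ u := by
          rw [mul_assoc W, mul_assoc (ρ u * _), huu, mul_one]
      _ = 0 := by rw [h5, zero_mul]
  have h7 : W * (ρ u - 1) * (ρ ⁅x, y⁆ - 1) = W * (ρ u * (ρ ⁅x, y⁆ - 1)) -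
      W * (ρ ⁅x, y⁆ - 1) := by noncomm_ring
  rw [h7, h6, hWc, sub_zero]

end Pool.Agent.L3E
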