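import Pool.Agent.L3E.RM.Vec

set_option autoImplicit false
set_option linter.unusedSimpArgs false

/-!
# L3E, large right module tables: kernel checker (helper31)

A right module `γ R` over a ring of characteristic two with four letters. The basis elements have
numbers `0, ..., n - 1`; the products with the letters are given by four trees (`RMG.Tr`). The error
of the entry `j` of the table of the letter number `l` has the number `l * n + j`. Every instance of
a law gives a set of errors (a row) whose sum vanishes up to smaller terms; combinations of rows are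
used to peel off the errors one after the other.
-/

namespace Pool.Agent.L3E.RM

open Pool.Agent.L3E.RMG

/-- The four letters. -/
inductive Lt : Type
  | x | y | g | c

/-- Group words in the four letters. -/
inductive Wd : Type
  | n : Wd
  | k : Lt → Wd → Wd

/-- Products: hats of letters, group words, group words minus one. -/
inductive Pr : Type
  | fin : Lt → Pr
  | finw : Wd → Pr
  | mul : Lt → Pr → Pr
  | grp : Wd → Pr → Pr
  | mwd : Wd → Pr → Pr

/-- The table of a letter: the range of the bits is split by masks and then into blocks of 64. -/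
inductive Tp : Type
  | z : Tp
  | t : ℕ → ℕ → Tp → Tp → Tp
  | p : ℕ → Tr → Tp

/-- A table. -/
structure Tb : Type where
  ox : ℕ
  oy : ℕ
  og : ℕ
  oc : ℕ
  tx : Tp
  ty : Tp
  tg : Tp
  tc : Tp

/-- Evaluate `n` before it is used. -/
noncomputable def fo {α : Type} (n : ℕ) (f : ℕ → α) : α :=
  Nat.rec (motive := fun _ => α) (f 0) (fun m _ => f (Nat.succ m)) n

theorem fo_eq {α : Type} (n : ℕ) (f : ℕ → α) : fo n f = f n := by
  cases n <;> rfl

/-- The image of a nonzero vector under a tree (equal to `RMG.app`). -/
noncomputable def aq (t : Tr) : ℕ → ℕ :=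
  Tr.rec (motive := fun _ => ℕ → ℕ) (fun m _ => m)
    (fun d _ _ ih1 ih2 v => Nat.rec (motive := fun _ => ℕ) (ih1 v)
      (fun h _ => Nat.rec (motive := fun _ => ℕ) (ih2 (Nat.succ h))
        (fun l _ => Nat.xor (ih1 (Nat.succ l)) (ih2 (Nat.succ h))) (Nat.mod v d))
      (Nat.div v d)) t

theorem aq_eq (t : Tr) : aq t = app t := rfl

/-- The image of a vector under a tree. -/
noncomputable def ax (t : Tr) (v : ℕ) : ℕ :=
  Nat.rec (motive := fun _ => ℕ) 0 (fun k _ => aq t (Nat.succ k)) v

theorem ax_eq (t : Tr) (v : ℕ) : ax t v = app0 t v := by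
  cases v <;> rfl

/-- The image of a vector. -/
noncomputable def ay (t : Tp) (v : ℕ) : ℕ :=
  Tp.rec (motive := fun _ => ℕ) 0
    (fun m _ _ _ ih1 ih2 => Nat.rec (motive := fun _ => ℕ) 0 (fun _ _ => Nat.xor ih1 ih2)
      (Nat.land v m))
    (fun o r => ax r (Nat.mod (Nat.shiftRight v o) (nat_lit 18446744073709551616))) t

/-- The product of a vector and the hat of a letter. -/
noncomputable def ap (t : Tb) (l : Lt) (v : ℕ) : ℕ :=
  Lt.rec (motive := fun _ => ℕ) (ay t.tx v) (ay t.ty v) (ay t.tg v) (ay t.tc v) l

/-- The row with the errors of the entries of `v` for the letter `l`. -/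
noncomputable def sh (t : Tb) (l : Lt) (v : ℕ) : ℕ :=
  Lt.rec (motive := fun _ => ℕ) (Nat.shiftLeft v t.ox) (Nat.shiftLeft v t.oy)
    (Nat.shiftLeft v t.og) (Nat.shiftLeft v t.oc) l

/-- The product of a vector and a group word. -/
noncomputable def gm (t : Tb) (w : Wd) : ℕ → ℕ :=
  Wd.rec (motive := fun _ => ℕ → ℕ) (fun v => v)
    (fun l _ ih v => fo (Nat.xor v (ap t l v)) ih) w

/-- The row of a final group word minus one. -/
noncomputable def fw (t : Tb) (w : Wd) : ℕ → ℕ → ℕ → ℕ :=
  Wd.rec (motive := fun _ => ℕ → ℕ → ℕ → ℕ)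
    (fun v u r => Nat.rec (motive := fun _ => ℕ) r (fun _ _ => 0) (Nat.xor u v))
    (fun l _ ih v u r => fo (Nat.xor u (ap t l u)) (fun u' => ih v u' (Nat.xor r (sh t l u)))) w

/-- The row of a product. -/
noncomputable def ev (t : Tb) (p : Pr) : ℕ → ℕ :=
  Pr.rec (motive := fun _ => ℕ → ℕ)
    (fun l v => Nat.rec (motive := fun _ => ℕ) (sh t l v) (fun _ _ => 0) (ap t l v))
    (fun w v => fw t w v v 0)
    (fun l _ ih v => fo (ap t l v) ih)
    (fun w _ ih v => fo (gm t w v) ih)
    (fun w _ ih v => fo (Nat.xor (gm t w v) v) ih) p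

/-- The reversed word, put in front of the second one. -/
noncomputable def Wd.rev (w : Wd) : Wd → Wd :=
  Wd.rec (motive := fun _ => Wd → Wd) (fun u => u) (fun l _ ih u => ih (Wd.k l u)) w

/-- Atoms: the hat of a letter or the hat of `y g`. -/
inductive At : Type
  | l : Lt → At
  | m : At

/-- The laws. -/
inductive Lw : Type
  | sq : Lt → Lw
  | cm : Lw
  | cw : At → Wd → At → Lw
  | ic : Lw
  | iv : Wd → Lt → Lw

/-- The word `y g`. -/
def yg : Wd := .k .y (.k .g .n)

/-- Multiply by an atom. -/
noncomputable def At.mul (a : At) (p : Pr) : Pr :=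
  At.rec (motive := fun _ => Pr) (fun l => .mul l p) (.mwd yg p) a

/-- Final atom. -/
noncomputable def At.fin (a : At) : Pr :=
  At.rec (motive := fun _ => Pr) (fun l => .fin l) (.finw yg) a

/-- The product of a law. -/
noncomputable def Lw.pr (L : Lw) : Pr :=
  Lw.rec (motive := fun _ => Pr) (fun a => .mul a (.fin a)) (.finw (.k .y (.k .g yg)))
    (fun a k b => a.mul (.grp k (b.mul (.grp (k.rev .n) (a.mul (.grp k b.fin))))))
    (.fin .c)
    (fun k b => .grp k (.mul b (.grp (k.rev .n) (.mul .c (.grp k (.fin b)))))) L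

/-- Letters in `D`. -/
noncomputable def Lt.isD (l : Lt) : Bool :=
  Lt.rec (motive := fun _ => Bool) true true true false l

/-- Atoms in `D`. -/
noncomputable def At.isD (a : At) : Bool :=
  At.rec (motive := fun _ => Bool) (fun l => l.isD) false a

/-- Laws which hold for the basis element number `b` (`top` is the generator). -/
noncomputable def Lw.ok (top : ℕ) (L : Lw) (b : ℕ) : Bool :=
  Lw.rec (motive := fun _ => Bool) (fun _ => true) true (fun a _ b => a.isD || b.isD)
    (Nat.beq b top) (fun _ l => l.isD && Nat.beq b top) L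

/-- A sum of instances: basis element and law. -/
inductive St : Type
  | e : St
  | c : ℕ → Lw → St → St

/-- A sequence of sums. -/
inductive Ss : Type
  | e : Ss
  | s : St → Ss → Ss

/-- The row of an instance. -/
noncomputable def evi (t : Tb) (b : ℕ) (l : Lw) : ℕ := fo (Nat.add (Nat.pow (nat_lit 2) b) b) (ev t l.pr)

/-- The sum of rows. -/
noncomputable def xs (t : Tb) (s : St) : ℕ :=
  St.rec (motive := fun _ => ℕ) 0 (fun b l _ ih => Nat.xor (evi t b l) ih) s

/-- Run the certificate. The low bits of the state are scrambled (good keys for the caches). -/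
noncomputable def run (t : Tb) (ss : Ss) (k : ℕ → Bool) : ℕ → Bool :=
  Ss.rec (motive := fun _ => ℕ → Bool) k
    (fun s _ ih Q => (fun r => cond (Nat.beq (Nat.land r (Nat.sub r (nat_lit 1))) (nat_lit 0)) (cond (Nat.beq r (nat_lit 0)) false
        (fo (Nat.xor (Nat.xor Q r) (Nat.mod r (nat_lit 1152921504606846883))) ih)) false)
      (Nat.land (xs t s) Q)) ss

/-- All laws of a sum hold. -/
noncomputable def St.ok (top : ℕ) (s : St) : Bool :=
  St.rec (motive := fun _ => Bool) true
    (fun b l _ ih => cond (Nat.ble b top) (cond (l.ok top b) ih false) false) s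

/-- All laws of a sequence hold. -/
noncomputable def Ss.ok (top : ℕ) (s : Ss) : Bool :=
  Ss.rec (motive := fun _ => Bool) true (fun s _ ih => cond (s.ok top) ih false) s

/-- The basis elements, last one first: the number of the parent and the last letter. -/
inductive Bs : Type
  | e : Bs
  | c : ℕ → Lt → Bs → Bs

end Pool.Agent.L3E.RM
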