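import Pool.Agent.L3E.RM.Core

set_option autoImplicit false
set_option maxRecDepth 100000
set_option linter.all false

namespace Pool.Agent.L3E.RM.M

open Pool.Agent.L3E.RMG Pool.Agent.L3E.RM

noncomputable def l0 : Lw := .sq .x

noncomputable def l1 : Lw := .sq .y

noncomputable def l2 : Lw := .sq .g

noncomputable def l3 : Lw := .sq .c

noncomputable def l4 : Lw := .ic

noncomputable def l5 : Lw := .iv .n .x

noncomputable def l6 : Lw := .iv .n .y

noncomputable def l7 : Lw := .iv .n .g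

noncomputable def l8 : Lw := .iv (.k .y .n) .x

noncomputable def l9 : Lw := .iv (.k .g .n) .x

noncomputable def l10 : Lw := .iv (.k .x .n) .y

noncomputable def l11 : Lw := .iv (.k .x .n) .g

noncomputable def l12 : Lw := .iv (.k .g (.k .y .n)) .x

noncomputable def l13 : Lw := .iv (.k .g (.k .x .n)) .y

noncomputable def l14 : Lw := .iv (.k .y (.k .x .n)) .g

noncomputable def l15 : Lw := .iv (.k .g (.k .y (.k .c .n))) .x

noncomputable def l16 : Lw := .iv (.k .x (.k .g (.k .x .n))) .y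

noncomputable def l17 : Lw := .iv (.k .g (.k .x (.k .c .n))) .y

noncomputable def l18 : Lw := .iv (.k .x (.k .g (.k .c .n))) .y

noncomputable def l19 : Lw := .iv (.k .x (.k .y (.k .x .n))) .g

noncomputable def l20 : Lw := .iv (.k .y (.k .x (.k .c .n))) .g

noncomputable def l21 : Lw := .iv (.k .x (.k .y (.k .c .n))) .g

noncomputable def l22 : Lw := .iv (.k .g (.k .y (.k .c (.k .y .n)))) .x

noncomputable def l23 : Lw := .iv (.k .x (.k .y (.k .c (.k .g .n)))) .x

noncomputable def l24 : Lw := .iv (.k .g (.k .y (.k .c (.k .g .n)))) .x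

noncomputable def l25 : Lw := .iv (.k .g (.k .x (.k .c (.k .x .n)))) .y

noncomputable def l26 : Lw := .iv (.k .y (.k .x (.k .g (.k .c .n)))) .y

noncomputable def l27 : Lw := .iv (.k .y (.k .x (.k .c (.k .x .n)))) .g

noncomputable def l28 : Lw := .iv (.k .g (.k .y (.k .c (.k .x .n)))) .g

noncomputable def l29 : Lw := .iv (.k .x (.k .y (.k .c (.k .g (.k .y .n))))) .x

noncomputable def l30 : Lw := .iv (.k .g (.k .y (.k .c (.k .g (.k .y .n))))) .x

noncomputable def l31 : Lw := .iv (.k .x (.k .g (.k .c (.k .g (.k .y .n))))) .x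

noncomputable def l32 : Lw := .iv (.k .x (.k .g (.k .c (.k .g (.k .x .n))))) .y

noncomputable def l33 : Lw := .iv (.k .x (.k .y (.k .x (.k .g (.k .c .n))))) .y

noncomputable def l34 : Lw := .iv (.k .x (.k .y (.k .c (.k .y (.k .x .n))))) .g

noncomputable def l35 : Lw := .iv (.k .y (.k .x (.k .y (.k .x (.k .c .n))))) .g

noncomputable def l36 : Lw := .iv (.k .x (.k .g (.k .x (.k .y (.k .c .n))))) .g

noncomputable def l37 : Lw := .iv (.k .x (.k .y (.k .c (.k .x (.k .g (.k .x .n)))))) .y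

noncomputable def l38 : Lw := .iv (.k .y (.k .x (.k .c (.k .x (.k .g (.k .c .n)))))) .y

noncomputable def l39 : Lw := .iv (.k .y (.k .x (.k .c (.k .x (.k .y (.k .x .n)))))) .g

noncomputable def l40 : Lw := .iv (.k .x (.k .g (.k .c (.k .x (.k .y (.k .x .n)))))) .g

noncomputable def l41 : Lw := .iv (.k .y (.k .x (.k .c (.k .g (.k .c (.k .x .n)))))) .g

noncomputable def l42 : Lw := .cm

noncomputable def l43 : Lw := .cw (.l .y) .n (.l .x)

noncomputable def l44 : Lw := .cw (.l .g) .n (.l .x)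

noncomputable def l45 : Lw := .cw (.l .c) .n (.l .x)

noncomputable def l46 : Lw := .cw (.l .x) .n (.l .c)

noncomputable def l47 : Lw := .cw .m .n (.l .x)

noncomputable def l48 : Lw := .cw (.l .x) .n .m

noncomputable def l49 : Lw := .cw (.l .x) .n (.l .y)

noncomputable def l50 : Lw := .cw (.l .c) .n (.l .y)

noncomputable def l51 : Lw := .cw (.l .y) .n (.l .c)

noncomputable def l52 : Lw := .cw (.l .x) .n (.l .g)

noncomputable def l53 : Lw := .cw (.l .c) .n (.l .g)

noncomputable def l54 : Lw := .cw (.l .g) .n (.l .c)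

noncomputable def l55 : Lw := .cw (.l .c) (.k .y .n) (.l .x)

noncomputable def l56 : Lw := .cw (.l .x) (.k .y .n) (.l .c)

noncomputable def l57 : Lw := .cw .m (.k .y .n) (.l .x)

noncomputable def l58 : Lw := .cw (.l .c) (.k .g .n) (.l .x)

noncomputable def l59 : Lw := .cw (.l .x) (.k .g .n) (.l .c)

noncomputable def l60 : Lw := .cw (.l .y) (.k .c .n) (.l .x)

noncomputable def l61 : Lw := .cw (.l .g) (.k .c .n) (.l .x)

noncomputable def l62 : Lw := .cw .m (.k .c .n) (.l .x)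

noncomputable def l63 : Lw := .cw (.l .x) (.k .c .n) .m

noncomputable def l64 : Lw := .cw (.l .g) (.k .x .n) (.l .y)

noncomputable def l65 : Lw := .cw (.l .c) (.k .x .n) (.l .y)

noncomputable def l66 : Lw := .cw (.l .y) (.k .x .n) (.l .c)

noncomputable def l67 : Lw := .cw .m (.k .x .n) (.l .y)

noncomputable def l68 : Lw := .cw (.l .y) (.k .x .n) .m

noncomputable def l69 : Lw := .cw (.l .x) (.k .c .n) (.l .y)

noncomputable def l70 : Lw := .cw (.l .g) (.k .c .n) (.l .y)

noncomputable def l71 : Lw := .cw .m (.k .c .n) (.l .y)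

noncomputable def l72 : Lw := .cw (.l .y) (.k .c .n) .m

noncomputable def l73 : Lw := .cw (.l .y) (.k .x .n) (.l .g)

noncomputable def l74 : Lw := .cw (.l .c) (.k .x .n) (.l .g)

noncomputable def l75 : Lw := .cw (.l .g) (.k .x .n) (.l .c)

noncomputable def l76 : Lw := .cw .m (.k .x .n) (.l .g)

noncomputable def l77 : Lw := .cw (.l .g) (.k .x .n) .m

noncomputable def l78 : Lw := .cw (.l .x) (.k .c .n) (.l .g)

noncomputable def l79 : Lw := .cw (.l .y) (.k .c .n) (.l .g)

noncomputable def l80 : Lw := .cw .m (.k .c .n) (.l .g)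

noncomputable def l81 : Lw := .cw (.l .g) (.k .c .n) .m

noncomputable def l82 : Lw := .cw (.l .c) (.k .g (.k .y .n)) (.l .x)

noncomputable def l83 : Lw := .cw (.l .x) (.k .y (.k .g .n)) (.l .c)

noncomputable def l84 : Lw := .cw (.l .x) (.k .c (.k .y .n)) (.l .x)

noncomputable def l85 : Lw := .cw (.l .g) (.k .c (.k .y .n)) (.l .x)

noncomputable def l86 : Lw := .cw .m (.k .c (.k .y .n)) (.l .x)

noncomputable def l87 : Lw := .cw (.l .x) (.k .y (.k .c .n)) .m

noncomputable def l88 : Lw := .cw (.l .x) (.k .c (.k .g .n)) (.l .x)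

noncomputable def l89 : Lw := .cw (.l .y) (.k .c (.k .g .n)) (.l .x)

noncomputable def l90 : Lw := .cw .m (.k .c (.k .g .n)) (.l .x)

noncomputable def l91 : Lw := .cw (.l .x) (.k .g (.k .c .n)) .m

noncomputable def l92 : Lw := .cw (.l .x) (.k .y (.k .c .n)) (.l .x)

noncomputable def l93 : Lw := .cw .m (.k .y (.k .c .n)) (.l .x)

noncomputable def l94 : Lw := .cw (.l .x) (.k .c (.k .y .n)) .m

noncomputable def l95 : Lw := .cw (.l .x) (.k .g (.k .c .n)) (.l .x)

noncomputable def l96 : Lw := .cw (.l .c) (.k .g (.k .c .n)) (.l .x)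

noncomputable def l97 : Lw := .cw (.l .c) (.k .g (.k .x .n)) (.l .y)

noncomputable def l98 : Lw := .cw (.l .y) (.k .x (.k .g .n)) (.l .c)

noncomputable def l99 : Lw := .cw (.l .y) (.k .c (.k .x .n)) (.l .y)

noncomputable def l100 : Lw := .cw (.l .g) (.k .c (.k .x .n)) (.l .y)

noncomputable def l101 : Lw := .cw .m (.k .c (.k .x .n)) (.l .y)

noncomputable def l102 : Lw := .cw (.l .y) (.k .x (.k .c .n)) .m

noncomputable def l103 : Lw := .cw (.l .y) (.k .x (.k .c .n)) (.l .y)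

noncomputable def l104 : Lw := .cw (.l .g) (.k .x (.k .c .n)) (.l .y)

noncomputable def l105 : Lw := .cw .m (.k .x (.k .c .n)) (.l .y)

noncomputable def l106 : Lw := .cw (.l .y) (.k .c (.k .x .n)) .m

noncomputable def l107 : Lw := .cw (.l .x) (.k .g (.k .c .n)) (.l .y)

noncomputable def l108 : Lw := .cw (.l .c) (.k .y (.k .x .n)) (.l .g)

noncomputable def l109 : Lw := .cw (.l .g) (.k .x (.k .y .n)) (.l .c)

noncomputable def l110 : Lw := .cw (.l .y) (.k .c (.k .x .n)) (.l .g)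

noncomputable def l111 : Lw := .cw (.l .g) (.k .c (.k .x .n)) (.l .g)

noncomputable def l112 : Lw := .cw .m (.k .c (.k .x .n)) (.l .g)

noncomputable def l113 : Lw := .cw (.l .g) (.k .x (.k .c .n)) .m

noncomputable def l114 : Lw := .cw (.l .y) (.k .x (.k .c .n)) (.l .g)

noncomputable def l115 : Lw := .cw (.l .g) (.k .x (.k .c .n)) (.l .g)

noncomputable def l116 : Lw := .cw .m (.k .x (.k .c .n)) (.l .g)

noncomputable def l117 : Lw := .cw (.l .g) (.k .c (.k .x .n)) .m

noncomputable def l118 : Lw := .cw (.l .x) (.k .y (.k .c .n)) (.l .g)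

noncomputable def l119 : Lw := .cw (.l .x) (.k .c (.k .g (.k .y .n))) (.l .x)

noncomputable def l120 : Lw := .cw (.l .x) (.k .y (.k .g (.k .c .n))) .m

noncomputable def l121 : Lw := .cw (.l .g) (.k .x (.k .c (.k .y .n))) (.l .x)

noncomputable def l122 : Lw := .cw .m (.k .y (.k .c (.k .y .n))) (.l .x)

noncomputable def l123 : Lw := .cw (.l .x) (.k .g (.k .c (.k .y .n))) (.l .x)

noncomputable def l124 : Lw := .cw (.l .y) (.k .x (.k .c (.k .g .n))) (.l .x)

noncomputable def l125 : Lw := .cw (.l .c) (.k .x (.k .c (.k .g .n))) (.l .x)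

noncomputable def l126 : Lw := .cw (.l .x) (.k .y (.k .c (.k .g .n))) (.l .x)

noncomputable def l127 : Lw := .cw (.l .c) (.k .y (.k .c (.k .g .n))) (.l .x)

noncomputable def l128 : Lw := .cw .m (.k .y (.k .c (.k .g .n))) (.l .x)

noncomputable def l129 : Lw := .cw (.l .g) (.k .x (.k .y (.k .c .n))) (.l .x)

noncomputable def l130 : Lw := .cw (.l .x) (.k .c (.k .y (.k .x .n))) .m

noncomputable def l131 : Lw := .cw (.l .x) (.k .g (.k .y (.k .c .n))) (.l .x)

noncomputable def l132 : Lw := .cw (.l .c) (.k .g (.k .y (.k .c .n))) (.l .x)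

noncomputable def l133 : Lw := .cw (.l .x) (.k .c (.k .y (.k .g .n))) (.l .c)

noncomputable def l134 : Lw := .cw (.l .g) (.k .c (.k .y (.k .c .n))) (.l .x)

noncomputable def l135 : Lw := .cw .m (.k .c (.k .y (.k .c .n))) (.l .x)

noncomputable def l136 : Lw := .cw (.l .x) (.k .c (.k .y (.k .c .n))) .m

noncomputable def l137 : Lw := .cw (.l .y) (.k .x (.k .g (.k .c .n))) (.l .x)

noncomputable def l138 : Lw := .cw (.l .y) (.k .c (.k .g (.k .c .n))) (.l .x)

noncomputable def l139 : Lw := .cw .m (.k .c (.k .g (.k .c .n))) (.l .x)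

noncomputable def l140 : Lw := .cw (.l .x) (.k .c (.k .g (.k .c .n))) .m

noncomputable def l141 : Lw := .cw (.l .c) (.k .x (.k .g (.k .x .n))) (.l .y)

noncomputable def l142 : Lw := .cw (.l .y) (.k .x (.k .g (.k .x .n))) (.l .c)

noncomputable def l143 : Lw := .cw (.l .x) (.k .c (.k .g (.k .x .n))) (.l .y)

noncomputable def l144 : Lw := .cw (.l .y) (.k .c (.k .g (.k .x .n))) (.l .y)

noncomputable def l145 : Lw := .cw .m (.k .c (.k .g (.k .x .n))) (.l .y)

noncomputable def l146 : Lw := .cw (.l .y) (.k .x (.k .g (.k .c .n))) .m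

noncomputable def l147 : Lw := .cw (.l .g) (.k .x (.k .c (.k .x .n))) (.l .y)

noncomputable def l148 : Lw := .cw (.l .c) (.k .x (.k .c (.k .x .n))) (.l .y)

noncomputable def l149 : Lw := .cw .m (.k .x (.k .c (.k .x .n))) (.l .y)

noncomputable def l150 : Lw := .cw (.l .y) (.k .x (.k .c (.k .x .n))) .m

noncomputable def l151 : Lw := .cw .m (.k .y (.k .x (.k .c .n))) (.l .y)

noncomputable def l152 : Lw := .cw (.l .c) (.k .g (.k .x (.k .c .n))) (.l .y)

noncomputable def l153 : Lw := .cw (.l .y) (.k .c (.k .x (.k .g .n))) (.l .c)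

noncomputable def l154 : Lw := .cw (.l .g) (.k .c (.k .x (.k .c .n))) (.l .y)

noncomputable def l155 : Lw := .cw (.l .y) (.k .c (.k .x (.k .c .n))) .m

noncomputable def l156 : Lw := .cw (.l .y) (.k .x (.k .g (.k .c .n))) (.l .y)

noncomputable def l157 : Lw := .cw (.l .c) (.k .x (.k .g (.k .c .n))) (.l .y)

noncomputable def l158 : Lw := .cw (.l .y) (.k .c (.k .g (.k .x .n))) (.l .c)

noncomputable def l159 : Lw := .cw (.l .x) (.k .c (.k .g (.k .c .n))) (.l .y)

noncomputable def l160 : Lw := .cw (.l .c) (.k .x (.k .y (.k .x .n))) (.l .g)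

noncomputable def l161 : Lw := .cw (.l .g) (.k .x (.k .y (.k .x .n))) (.l .c)

noncomputable def l162 : Lw := .cw (.l .x) (.k .c (.k .y (.k .x .n))) (.l .g)

noncomputable def l163 : Lw := .cw (.l .g) (.k .c (.k .y (.k .x .n))) (.l .g)

noncomputable def l164 : Lw := .cw .m (.k .c (.k .y (.k .x .n))) (.l .g)

noncomputable def l165 : Lw := .cw (.l .g) (.k .x (.k .y (.k .c .n))) .m

noncomputable def l166 : Lw := .cw (.l .y) (.k .x (.k .c (.k .x .n))) (.l .g)

noncomputable def l167 : Lw := .cw .m (.k .x (.k .c (.k .x .n))) (.l .g)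

noncomputable def l168 : Lw := .cw (.l .x) (.k .y (.k .c (.k .x .n))) (.l .g)

noncomputable def l169 : Lw := .cw .m (.k .y (.k .c (.k .x .n))) (.l .g)

noncomputable def l170 : Lw := .cw (.l .c) (.k .g (.k .c (.k .x .n))) (.l .g)

noncomputable def l171 : Lw := .cw (.l .c) (.k .y (.k .x (.k .c .n))) (.l .g)

noncomputable def l172 : Lw := .cw (.l .g) (.k .c (.k .x (.k .y .n))) (.l .c)

noncomputable def l173 : Lw := .cw .m (.k .y (.k .x (.k .c .n))) (.l .g)

noncomputable def l174 : Lw := .cw (.l .x) (.k .g (.k .x (.k .c .n))) (.l .g)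

noncomputable def l175 : Lw := .cw .m (.k .g (.k .x (.k .c .n))) (.l .g)

noncomputable def l176 : Lw := .cw (.l .y) (.k .c (.k .x (.k .c .n))) (.l .g)

noncomputable def l177 : Lw := .cw .m (.k .c (.k .x (.k .c .n))) (.l .g)

noncomputable def l178 : Lw := .cw (.l .g) (.k .c (.k .x (.k .c .n))) .m

noncomputable def l179 : Lw := .cw (.l .c) (.k .x (.k .y (.k .c .n))) (.l .g)

noncomputable def l180 : Lw := .cw (.l .g) (.k .c (.k .y (.k .x .n))) (.l .c)

noncomputable def l181 : Lw := .cw (.l .x) (.k .c (.k .y (.k .c .n))) (.l .g)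

noncomputable def l182 : Lw := .cw (.l .x) (.k .y (.k .c (.k .g (.k .y .n)))) (.l .x)

noncomputable def l183 : Lw := .cw (.l .c) (.k .g (.k .x (.k .c (.k .y .n)))) (.l .x)

noncomputable def l184 : Lw := .cw (.l .x) (.k .y (.k .c (.k .x (.k .g .n)))) (.l .c)

noncomputable def l185 : Lw := .cw (.l .g) (.k .c (.k .x (.k .c (.k .y .n)))) (.l .x)

noncomputable def l186 : Lw := .cw (.l .x) (.k .y (.k .c (.k .x (.k .c .n)))) .m

noncomputable def l187 : Lw := .cw (.l .c) (.k .g (.k .y (.k .c (.k .y .n)))) (.l .x)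

noncomputable def l188 : Lw := .cw (.l .x) (.k .y (.k .c (.k .y (.k .g .n)))) (.l .c)

noncomputable def l189 : Lw := .cw (.l .x) (.k .y (.k .c (.k .g (.k .x .n)))) (.l .c)

noncomputable def l190 : Lw := .cw (.l .x) (.k .c (.k .g (.k .c (.k .y .n)))) (.l .x)

noncomputable def l191 : Lw := .cw (.l .c) (.k .y (.k .x (.k .c (.k .g .n)))) (.l .x)

noncomputable def l192 : Lw := .cw (.l .y) (.k .c (.k .x (.k .c (.k .g .n)))) (.l .x)

noncomputable def l193 : Lw := .cw (.l .c) (.k .x (.k .y (.k .c (.k .g .n)))) (.l .x)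

noncomputable def l194 : Lw := .cw (.l .x) (.k .g (.k .y (.k .c (.k .g .n)))) (.l .x)

noncomputable def l195 : Lw := .cw (.l .c) (.k .g (.k .y (.k .c (.k .g .n)))) (.l .x)

noncomputable def l196 : Lw := .cw (.l .x) (.k .g (.k .c (.k .y (.k .g .n)))) (.l .c)

noncomputable def l197 : Lw := .cw (.l .x) (.k .c (.k .y (.k .c (.k .g .n)))) (.l .x)

noncomputable def l198 : Lw := .cw (.l .x) (.k .c (.k .y (.k .x (.k .g .n)))) (.l .c)

noncomputable def l199 : Lw := .cw (.l .x) (.k .g (.k .c (.k .y (.k .c .n)))) (.l .x)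

noncomputable def l200 : Lw := .cw (.l .c) (.k .g (.k .x (.k .g (.k .c .n)))) (.l .x)

noncomputable def l201 : Lw := .cw (.l .x) (.k .y (.k .c (.k .g (.k .c .n)))) (.l .x)

noncomputable def l202 : Lw := .cw (.l .y) (.k .c (.k .x (.k .g (.k .x .n)))) (.l .y)

noncomputable def l203 : Lw := .cw (.l .g) (.k .c (.k .x (.k .g (.k .x .n)))) (.l .y)

noncomputable def l204 : Lw := .cw (.l .y) (.k .x (.k .g (.k .x (.k .c .n)))) .m

noncomputable def l205 : Lw := .cw (.l .y) (.k .x (.k .c (.k .g (.k .x .n)))) (.l .y)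

noncomputable def l206 : Lw := .cw (.l .y) (.k .g (.k .c (.k .g (.k .x .n)))) (.l .y)

noncomputable def l207 : Lw := .cw (.l .c) (.k .g (.k .x (.k .c (.k .x .n)))) (.l .y)

noncomputable def l208 : Lw := .cw (.l .y) (.k .x (.k .c (.k .x (.k .g .n)))) (.l .c)

noncomputable def l209 : Lw := .cw (.l .g) (.k .c (.k .x (.k .c (.k .x .n)))) (.l .y)

noncomputable def l210 : Lw := .cw (.l .y) (.k .x (.k .c (.k .x (.k .c .n)))) .m

noncomputable def l211 : Lw := .cw (.l .c) (.k .g (.k .y (.k .c (.k .x .n)))) (.l .y)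

noncomputable def l212 : Lw := .cw (.l .y) (.k .x (.k .c (.k .y (.k .g .n)))) (.l .c)

noncomputable def l213 : Lw := .cw (.l .y) (.k .x (.k .c (.k .y (.k .c .n)))) .m

noncomputable def l214 : Lw := .cw (.l .y) (.k .x (.k .c (.k .g (.k .x .n)))) (.l .c)

noncomputable def l215 : Lw := .cw (.l .y) (.k .c (.k .g (.k .c (.k .x .n)))) (.l .y)

noncomputable def l216 : Lw := .cw (.l .y) (.k .x (.k .c (.k .g (.k .c .n)))) .m

noncomputable def l217 : Lw := .cw (.l .g) (.k .x (.k .y (.k .x (.k .c .n)))) (.l .y)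

noncomputable def l218 : Lw := .cw (.l .y) (.k .x (.k .g (.k .x (.k .c .n)))) (.l .y)

noncomputable def l219 : Lw := .cw (.l .y) (.k .c (.k .g (.k .x (.k .c .n)))) (.l .y)

noncomputable def l220 : Lw := .cw (.l .y) (.k .c (.k .x (.k .g (.k .c .n)))) .m

noncomputable def l221 : Lw := .cw (.l .x) (.k .g (.k .c (.k .x (.k .c .n)))) (.l .y)

noncomputable def l222 : Lw := .cw (.l .c) (.k .y (.k .x (.k .g (.k .c .n)))) (.l .y)

noncomputable def l223 : Lw := .cw (.l .y) (.k .c (.k .x (.k .g (.k .c .n)))) (.l .y)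

noncomputable def l224 : Lw := .cw (.l .y) (.k .c (.k .g (.k .x (.k .c .n)))) .m

noncomputable def l225 : Lw := .cw (.l .y) (.k .x (.k .c (.k .g (.k .c .n)))) (.l .y)

noncomputable def l226 : Lw := .cw (.l .g) (.k .x (.k .c (.k .g (.k .c .n)))) (.l .y)

noncomputable def l227 : Lw := .cw (.l .y) (.k .c (.k .g (.k .c (.k .x .n)))) .m

noncomputable def l228 : Lw := .cw (.l .y) (.k .c (.k .x (.k .y (.k .x .n)))) (.l .g)

noncomputable def l229 : Lw := .cw (.l .g) (.k .c (.k .x (.k .y (.k .x .n)))) (.l .g)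

noncomputable def l230 : Lw := .cw (.l .g) (.k .x (.k .c (.k .y (.k .x .n)))) (.l .g)

noncomputable def l231 : Lw := .cw (.l .c) (.k .y (.k .x (.k .c (.k .x .n)))) (.l .g)

noncomputable def l232 : Lw := .cw (.l .g) (.k .x (.k .c (.k .x (.k .y .n)))) (.l .c)

noncomputable def l233 : Lw := .cw (.l .y) (.k .c (.k .x (.k .c (.k .x .n)))) (.l .g)

noncomputable def l234 : Lw := .cw (.l .g) (.k .x (.k .c (.k .x (.k .c .n)))) .m

noncomputable def l235 : Lw := .cw (.l .c) (.k .x (.k .y (.k .c (.k .x .n)))) (.l .g)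

noncomputable def l236 : Lw := .cw (.l .c) (.k .g (.k .y (.k .c (.k .x .n)))) (.l .g)

noncomputable def l237 : Lw := .cw (.l .g) (.k .c (.k .y (.k .c (.k .x .n)))) (.l .g)

noncomputable def l238 : Lw := .cw .m (.k .c (.k .y (.k .c (.k .x .n)))) (.l .g)

noncomputable def l239 : Lw := .cw (.l .y) (.k .c (.k .g (.k .c (.k .x .n)))) (.l .g)

noncomputable def l240 : Lw := .cw (.l .g) (.k .x (.k .c (.k .g (.k .c .n)))) .m

noncomputable def l241 : Lw := .cw (.l .g) (.k .c (.k .x (.k .y (.k .g .n)))) (.l .c)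

noncomputable def l242 : Lw := .cw (.l .g) (.k .c (.k .y (.k .x (.k .c .n)))) (.l .g)

noncomputable def l243 : Lw := .cw (.l .g) (.k .c (.k .x (.k .y (.k .c .n)))) .m

noncomputable def l244 : Lw := .cw (.l .y) (.k .x (.k .g (.k .x (.k .c .n)))) (.l .g)

noncomputable def l245 : Lw := .cw (.l .c) (.k .x (.k .g (.k .x (.k .c .n)))) (.l .g)

noncomputable def l246 : Lw := .cw (.l .x) (.k .y (.k .c (.k .x (.k .c .n)))) (.l .g)

noncomputable def l247 : Lw := .cw (.l .g) (.k .c (.k .y (.k .x (.k .y .n)))) (.l .c)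

noncomputable def l248 : Lw := .cw (.l .g) (.k .c (.k .x (.k .y (.k .c .n)))) (.l .g)

noncomputable def l249 : Lw := .cw (.l .g) (.k .c (.k .y (.k .x (.k .c .n)))) .m

noncomputable def l250 : Lw := .cw (.l .y) (.k .x (.k .c (.k .y (.k .c .n)))) (.l .g)

noncomputable def l251 : Lw := .cw (.l .g) (.k .x (.k .c (.k .y (.k .c .n)))) (.l .g)

noncomputable def l252 : Lw := .cw (.l .g) (.k .c (.k .y (.k .c (.k .x .n)))) .m

noncomputable def l253 : Lw := .cw (.l .c) (.k .g (.k .y (.k .c (.k .g (.k .y .n))))) (.l .x)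

noncomputable def l254 : Lw := .cw (.l .x) (.k .y (.k .g (.k .c (.k .y (.k .g .n))))) (.l .c)

noncomputable def l255 : Lw := .cw (.l .x) (.k .c (.k .y (.k .c (.k .g (.k .y .n))))) (.l .x)

noncomputable def l256 : Lw := .cw (.l .c) (.k .x (.k .g (.k .c (.k .g (.k .y .n))))) (.l .x)

noncomputable def l257 : Lw := .cw (.l .g) (.k .y (.k .c (.k .x (.k .c (.k .y .n))))) (.l .x)

noncomputable def l258 : Lw := .cw (.l .c) (.k .g (.k .y (.k .x (.k .c (.k .g .n))))) (.l .x)

noncomputable def l259 : Lw := .cw (.l .x) (.k .y (.k .c (.k .x (.k .c (.k .g .n))))) (.l .x)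

noncomputable def l260 : Lw := .cw (.l .c) (.k .g (.k .c (.k .y (.k .c (.k .g .n))))) (.l .x)

noncomputable def l261 : Lw := .cw (.l .y) (.k .x (.k .c (.k .g (.k .c (.k .g .n))))) (.l .x)

noncomputable def l262 : Lw := .cw (.l .x) (.k .y (.k .c (.k .g (.k .c (.k .g .n))))) (.l .x)

noncomputable def l263 : Lw := .cw (.l .x) (.k .c (.k .y (.k .x (.k .y (.k .g .n))))) (.l .c)

noncomputable def l264 : Lw := .cw (.l .x) (.k .c (.k .y (.k .c (.k .g (.k .x .n))))) (.l .y)

noncomputable def l265 : Lw := .cw (.l .c) (.k .x (.k .g (.k .c (.k .g (.k .x .n))))) (.l .y)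

noncomputable def l266 : Lw := .cw (.l .c) (.k .g (.k .x (.k .y (.k .c (.k .x .n))))) (.l .y)

noncomputable def l267 : Lw := .cw (.l .c) (.k .x (.k .c (.k .g (.k .c (.k .x .n))))) (.l .y)

noncomputable def l268 : Lw := .cw (.l .y) (.k .x (.k .c (.k .g (.k .c (.k .x .n))))) .m

noncomputable def l269 : Lw := .cw (.l .c) (.k .g (.k .x (.k .y (.k .x (.k .c .n))))) (.l .y)

noncomputable def l270 : Lw := .cw (.l .y) (.k .c (.k .x (.k .y (.k .x (.k .g .n))))) (.l .c)

noncomputable def l271 : Lw := .cw (.l .c) (.k .g (.k .x (.k .g (.k .x (.k .c .n))))) (.l .y)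

noncomputable def l272 : Lw := .cw (.l .y) (.k .c (.k .x (.k .g (.k .x (.k .g .n))))) (.l .c)

noncomputable def l273 : Lw := .cw (.l .g) (.k .x (.k .g (.k .c (.k .x (.k .c .n))))) (.l .y)

noncomputable def l274 : Lw := .cw (.l .c) (.k .x (.k .y (.k .x (.k .g (.k .c .n))))) (.l .y)

noncomputable def l275 : Lw := .cw (.l .y) (.k .x (.k .c (.k .x (.k .g (.k .c .n))))) (.l .y)

noncomputable def l276 : Lw := .cw (.l .c) (.k .x (.k .y (.k .c (.k .y (.k .x .n))))) (.l .g)

noncomputable def l277 : Lw := .cw (.l .c) (.k .x (.k .g (.k .c (.k .y (.k .x .n))))) (.l .g)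

noncomputable def l278 : Lw := .cw (.l .g) (.k .c (.k .y (.k .x (.k .c (.k .x .n))))) (.l .g)

noncomputable def l279 : Lw := .cw (.l .c) (.k .y (.k .x (.k .g (.k .c (.k .x .n))))) (.l .g)

noncomputable def l280 : Lw := .cw (.l .y) (.k .x (.k .c (.k .g (.k .c (.k .x .n))))) (.l .g)

noncomputable def l281 : Lw := .cw (.l .x) (.k .y (.k .c (.k .g (.k .c (.k .x .n))))) (.l .g)

noncomputable def l282 : Lw := .cw (.l .g) (.k .y (.k .x (.k .y (.k .x (.k .c .n))))) (.l .g)

noncomputable def l283 : Lw := .cw (.l .c) (.k .y (.k .x (.k .y (.k .x (.k .c .n))))) (.l .g)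

noncomputable def l284 : Lw := .cw (.l .y) (.k .c (.k .x (.k .y (.k .x (.k .c .n))))) (.l .g)

noncomputable def l285 : Lw := .cw (.l .g) (.k .c (.k .x (.k .g (.k .x (.k .y .n))))) (.l .c)

noncomputable def l286 : Lw := .cw (.l .y) (.k .x (.k .y (.k .c (.k .x (.k .c .n))))) (.l .g)

noncomputable def l287 : Lw := .cw (.l .g) (.k .c (.k .y (.k .c (.k .x (.k .c .n))))) (.l .g)

noncomputable def l288 : Lw := .cw (.l .x) (.k .c (.k .y (.k .x (.k .y (.k .c .n))))) (.l .g)

noncomputable def l289 : Lw := .cw (.l .g) (.k .c (.k .y (.k .x (.k .g (.k .x .n))))) (.l .c)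

noncomputable def l290 : Lw := .cw (.l .g) (.k .x (.k .c (.k .x (.k .y (.k .c .n))))) (.l .g)

noncomputable def l291 : Lw := .cw (.l .x) (.k .c (.k .g (.k .y (.k .c (.k .g (.k .y .n)))))) (.l .x)

noncomputable def l292 : Lw := .cw (.l .x) (.k .c (.k .y (.k .x (.k .y (.k .c (.k .g .n)))))) (.l .x)

noncomputable def l293 : Lw := .cw (.l .x) (.k .y (.k .c (.k .g (.k .y (.k .c (.k .g .n)))))) (.l .x)

noncomputable def l294 : Lw := .cw (.l .c) (.k .g (.k .x (.k .c (.k .x (.k .g (.k .x .n)))))) (.l .y)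

noncomputable def l295 : Lw := .cw (.l .c) (.k .g (.k .c (.k .y (.k .c (.k .g (.k .x .n)))))) (.l .y)

noncomputable def l296 : Lw := .cw (.l .x) (.k .g (.k .x (.k .g (.k .c (.k .g (.k .x .n)))))) (.l .y)

noncomputable def l297 : Lw := .cw (.l .y) (.k .x (.k .c (.k .x (.k .g (.k .x (.k .g .n)))))) (.l .c)

noncomputable def l298 : Lw := .cw (.l .c) (.k .g (.k .c (.k .g (.k .x (.k .c (.k .x .n)))))) (.l .y)

noncomputable def l299 : Lw := .cw (.l .y) (.k .c (.k .x (.k .c (.k .g (.k .c (.k .x .n)))))) (.l .y)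

noncomputable def l300 : Lw := .cw (.l .g) (.k .x (.k .y (.k .x (.k .c (.k .x (.k .y .n)))))) (.l .c)

noncomputable def l301 : Lw := .cw (.l .y) (.k .c (.k .g (.k .c (.k .x (.k .y (.k .x .n)))))) (.l .g)

noncomputable def l302 : Lw := .cw (.l .c) (.k .y (.k .c (.k .g (.k .c (.k .y (.k .x .n)))))) (.l .g)

noncomputable def l303 : Lw := .cw (.l .g) (.k .c (.k .x (.k .c (.k .y (.k .c (.k .x .n)))))) (.l .g)

noncomputable def l304 : Lw := .cw (.l .c) (.k .g (.k .x (.k .c (.k .g (.k .y (.k .c (.k .y .n))))))) (.l .x)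

noncomputable def l305 : Lw := .cw (.l .c) (.k .y (.k .c (.k .g (.k .c (.k .y (.k .c (.k .g .n))))))) (.l .x)

noncomputable def l306 : Lw := .cw (.l .c) (.k .x (.k .g (.k .c (.k .g (.k .x (.k .c (.k .x .n))))))) (.l .y)

noncomputable def l307 : Lw := .cw (.l .c) (.k .y (.k .x (.k .c (.k .x (.k .y (.k .c (.k .x .n))))))) (.l .g)

noncomputable def l308 : Lw := .cw (.l .c) (.k .y (.k .c (.k .g (.k .c (.k .y (.k .x (.k .c .n))))))) (.l .g)

noncomputable def l309 : Lw := .cw (.l .x) (.k .c (.k .y (.k .x (.k .y (.k .c (.k .x (.k .c .n))))))) (.l .g)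

noncomputable def l310 : Lw := .cw (.l .c) (.k .x (.k .y (.k .x (.k .g (.k .x (.k .y (.k .c .n))))))) (.l .g)

end Pool.Agent.L3E.RM.M
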