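import Pool.Agent.L3E.RM.Base

set_option autoImplicit false
set_option linter.unusedSimpArgs false
set_option linter.unusedSectionVars false

/-!
# L3E, large right module tables: the laws (helper31)
-/

namespace Pool.Agent.L3E.RM

open Pool.Agent.L3E.RMG

variable {R : Type} [Ring R]

/-- The hypotheses: `D` is closed under conjugation, the letters `x, y, g` lie in `D`, the letter
`c` and the element `y g` are good, `y g = g y`. -/
structure Hy (D : Set R) (a : Lt → R) : Prop where
  two : (2 : R) = 0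
  dl : ∀ l : Lt, l.isD = true → a l ∈ D
  cl : ∀ v ∈ D, ∀ w ∈ D, (1 + v) * w * (1 + v) ∈ D
  clc : ∀ w ∈ D, (1 + a .c) * w * (1 + a .c) ∈ D
  sq : ∀ v ∈ D, v * v = 0
  sqc : a .c * a .c = 0
  dd : ∀ v ∈ D, ∀ w ∈ D, v * w * v * w = 0
  cd : ∀ v ∈ D, a .c * v * a .c * v = 0
  dc : ∀ v ∈ D, v * a .c * v * a .c = 0
  md : ∀ v ∈ D, (gw a yg - 1) * v * (gw a yg - 1) * v = 0
  dm : ∀ v ∈ D, v * (gw a yg - 1) * v * (gw a yg - 1) = 0
  cm : gw a (.k .y (.k .g yg)) = 1
  nil : ∃ N : ℕ, ∀ w : List Lt, w.length = N → (w.map a).prod = 0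

/-- The value of an atom. -/
def av (a : Lt → R) : At → R
  | .l l => a l
  | .m => gw a yg - 1

/-- The value of the inverse of a word. -/
def gi (a : Lt → R) : Wd → R
  | .n => 1
  | .k l w => gi a w * (1 + a l)

theorem pv_mul (a : Lt → R) (b : At) (p : Pr) : pv a (b.mul p) = av a b * pv a p := by
  cases b <;> rfl

theorem pv_fin (a : Lt → R) (b : At) : pv a b.fin = av a b := by
  cases b <;> rfl

theorem gw_rev (a : Lt → R) (w : Wd) : ∀ u : Wd, gw a (w.rev u) = gi a w * gw a u := by
  induction w with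
  | n => intro u; rw [gi, one_mul]; rfl
  | k l w ih =>
    intro u
    have e : (Wd.k l w).rev u = w.rev (.k l u) := rfl
    rw [e, ih, gw, gi, mul_assoc]

section
variable {D : Set R} {a : Lt → R} (h : Hy D a)

include h

theorem sql (l : Lt) : a l * a l = 0 := by
  cases l
  · exact h.sq _ (h.dl .x rfl)
  · exact h.sq _ (h.dl .y rfl)
  · exact h.sq _ (h.dl .g rfl)
  · exact h.sqc

theorem unit (l : Lt) : (1 + a l) * (1 + a l) = 1 := by
  rw [mul_add, add_mul, add_mul, one_mul, mul_one, one_mul, sql h l, add_zero, add_assoc,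
    tw h.two, add_zero]

theorem gw_gi (w : Wd) : gw a w * gi a w = 1 := by
  induction w with
  | n => rw [gw, gi, one_mul]
  | k l w ih =>
    rw [gw, gi, mul_assoc, ← mul_assoc (gw a w), ih, one_mul, unit h l]

theorem gi_gw (w : Wd) : gi a w * gw a w = 1 := by
  induction w with
  | n => rw [gw, gi, one_mul]
  | k l w ih =>
    rw [gw, gi, mul_assoc, ← mul_assoc (1 + a l), unit h l, one_mul, ih]

theorem cll (l : Lt) {v : R} (hv : v ∈ D) : (1 + a l) * v * (1 + a l) ∈ D := by
  cases l
  · exact h.cl _ (h.dl .x rfl) _ hv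
  · exact h.cl _ (h.dl .y rfl) _ hv
  · exact h.cl _ (h.dl .g rfl) _ hv
  · exact h.clc _ hv

theorem cj1 (w : Wd) : ∀ {v : R}, v ∈ D → gw a w * v * gi a w ∈ D := by
  induction w with
  | n => intro v hv; rw [gw, gi, one_mul, mul_one]; exact hv
  | k l w ih =>
    intro v hv
    have := cll h l (ih hv)
    rw [gw, gi]
    simpa only [mul_assoc] using this

theorem cj2 (w : Wd) : ∀ {v : R}, v ∈ D → gi a w * v * gw a w ∈ D := by
  induction w with
  | n => intro v hv; rw [gw, gi, one_mul, mul_one]; exact hv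
  | k l w ih =>
    intro v hv
    have := ih (cll h l hv)
    rw [gw, gi]
    simpa only [mul_assoc] using this

theorem avD (b : At) (hb : b.isD = true) : av a b ∈ D := by
  cases b with
  | l l => exact h.dl l hb
  | m => exact absurd hb (by decide)

theorem law1 (b : At) {v : R} (hv : v ∈ D) : av a b * v * av a b * v = 0 := by
  cases b with
  | l l =>
    cases l
    · exact h.dd _ (h.dl .x rfl) _ hv
    · exact h.dd _ (h.dl .y rfl) _ hv
    · exact h.dd _ (h.dl .g rfl) _ hv
    · exact h.cd _ hv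
  | m => exact h.md _ hv

theorem law2 (b : At) {v : R} (hv : v ∈ D) : v * av a b * v * av a b = 0 := by
  cases b with
  | l l =>
    cases l
    · exact h.dd _ hv _ (h.dl .x rfl)
    · exact h.dd _ hv _ (h.dl .y rfl)
    · exact h.dd _ hv _ (h.dl .g rfl)
    · exact h.dc _ hv
  | m => exact h.dm _ hv

omit h in
theorem comb (α β g i : R) (hig : i * g = 1) :
    α * (g * (β * (i * (α * (g * β))))) = α * (g * β * i) * α * (g * β * i) * g := by
  have e : ∀ z : R, z * i * g = z := fun z => by rw [mul_assoc, hig, mul_one]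
  simp only [← mul_assoc]
  rw [e]

omit h in
theorem comb2 (α β g i : R) (hgi : g * i = 1) :
    α * (g * (β * (i * (α * (g * β))))) = g * ((i * α * g) * β * (i * α * g) * β) := by
  simp only [← mul_assoc]
  rw [hgi, one_mul]

theorem cw_zero (A B : At) (k : Wd) (hd : (A.isD || B.isD) = true) :
    pv a (Lw.cw A k B).pr = 0 := by
  have e : pv a (Lw.cw A k B).pr =
      av a A * (gw a k * (av a B * (gi a k * (av a A * (gw a k * av a B))))) := by
    have e1 : (Lw.cw A k B).pr =
        A.mul (.grp k (B.mul (.grp (k.rev .n) (A.mul (.grp k B.fin))))) := rfl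
    rw [e1, pv_mul, pv, pv_mul, pv, pv_mul, pv, pv_fin, gw_rev, gw, mul_one]
  rw [e]
  rw [Bool.or_eq_true] at hd
  rcases hd with hA | hB
  · rw [comb2 _ _ _ _ (gw_gi h k), law2 h B (cj2 h k (avD h A hA)), mul_zero]
  · rw [comb _ _ _ _ (gi_gw h k), law1 h A (cj1 h k (avD h B hB)), zero_mul]

theorem iv_zero (k : Wd) (l : Lt) (hl : l.isD = true) : a .c * pv a (Lw.iv k l).pr = 0 := by
  have e : pv a (Lw.iv k l).pr = gw a k * (a l * (gi a k * (a .c * (gw a k * a l)))) := by
    have e1 : (Lw.iv k l).pr =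
        .grp k (.mul l (.grp (k.rev .n) (.mul .c (.grp k (.fin l))))) := rfl
    rw [e1]
    simp only [pv]
    rw [gw_rev, gw, mul_one]
  rw [e, comb _ _ _ _ (gi_gw h k), h.cd _ (cj1 h k (h.dl l hl)), zero_mul]

/-- The laws hold. -/
theorem lok (F : ℕ → R) (top : ℕ) (hF : F top = a .c) : LOK F a top := by
  intro l b hok
  cases l with
  | sq l =>
    have e : pv a (Lw.sq l).pr = a l * a l := rfl
    rw [e, sql h l, mul_zero]
  | cm =>
    have e : pv a Lw.cm.pr = gw a (.k .y (.k .g yg)) - 1 := rfl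
    rw [e, h.cm, sub_self, mul_zero]
  | cw A k B => rw [cw_zero h A B k hok, mul_zero]
  | ic =>
    have hb : b = top := Nat.eq_of_beq_eq_true hok
    have e : pv a Lw.ic.pr = a .c := rfl
    rw [hb, hF, e, h.sqc]
  | iv k l =>
    have hok' : (l.isD && Nat.beq b top) = true := hok
    rw [Bool.and_eq_true] at hok'
    have hb : b = top := Nat.eq_of_beq_eq_true hok'.2
    rw [hb, hF]
    exact iv_zero h k l hok'.1

end

end Pool.Agent.L3E.RM
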