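import Pool.Agent.L3E.RM.Tree

set_option autoImplicit false
set_option linter.unusedSimpArgs false
set_option linter.unusedSectionVars false

/-!
# L3E, large right module tables: soundness of the run (helper31)
-/

namespace Pool.Agent.L3E.RM

open Pool.Agent.L3E.RMG

variable {R : Type} [Ring R]

/-- Well-formed tables with vectors below `2 ^ n`. -/
structure WF (t : Tb) (n hi : ℕ) : Prop where
  ox : t.ox = 64
  oy : t.oy = n + 64
  og : t.og = 2 * n + 64
  oc : t.oc = 3 * n + 64
  wx : wfp t.tx 64 hi = true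
  wy : wfp t.ty 64 hi = true
  wg : wfp t.tg 64 hi = true
  wc : wfp t.tc 64 hi = true
  bx : bp (2 ^ n) t.tx = true
  by' : bp (2 ^ n) t.ty = true
  bg : bp (2 ^ n) t.tg = true
  bc : bp (2 ^ n) t.tc = true

/-- The error of the entry `k` of the table of the letter `l`. -/
noncomputable def de (t : Tb) (F : ℕ → R) (a : Lt → R) (l : Lt) (k : ℕ) : R :=
  F k * a l - vec F (ap t l (2 ^ k))

/-- The errors, numbered. -/
noncomputable def dd (t : Tb) (n : ℕ) (F : ℕ → R) (a : Lt → R) (j : ℕ) : R :=
  if j < 64 then 0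
  else if (j - 64) / n = 0 then de t F a .x ((j - 64) % n)
  else if (j - 64) / n = 1 then de t F a .y ((j - 64) % n)
  else if (j - 64) / n = 2 then de t F a .g ((j - 64) % n)
  else if (j - 64) / n = 3 then de t F a .c ((j - 64) % n)
  else 0

/-- The number of a letter. -/
def Lt.num : Lt → ℕ
  | .x => 0
  | .y => 1
  | .g => 2
  | .c => 3

theorem dd_num (t : Tb) {n : ℕ} (F : ℕ → R) (a : Lt → R) (l : Lt) {k : ℕ} (hk : k < n) :
    dd t n F a (k + (l.num * n + 64)) = de t F a l k := by
  have hn : 0 < n := by omega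
  have e : k + (l.num * n + 64) - 64 = k + n * l.num := by rw [Nat.mul_comm]; omega
  have h1 : (k + n * l.num) / n = l.num := by
    rw [Nat.add_mul_div_left _ _ hn, Nat.div_eq_of_lt hk, Nat.zero_add]
  have h2 : (k + n * l.num) % n = k := by
    rw [Nat.add_mul_mod_self_left, Nat.mod_eq_of_lt hk]
  unfold dd
  rw [if_neg (by omega), e, h1, h2]
  cases l <;> simp [Lt.num]

section
variable {t : Tb} {n hi : ℕ} (hw : WF t n hi) (h2 : (2 : R) = 0) (F : ℕ → R) (a : Lt → R)

include hw h2 in
theorem ap_mul (l : Lt) (v : ℕ) :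
    vec F v * a l = vec F (ap t l v) + vec (de t F a l) v := by
  have key : vec F (ap t l v) = vec (fun k => vec F (ap t l (2 ^ k))) v := by
    cases l
    · exact ay_pow h2 F hw.wx v
    · exact ay_pow h2 F hw.wy v
    · exact ay_pow h2 F hw.wg v
    · exact ay_pow h2 F hw.wc v
  rw [vec_mul, key, ← vec_sum]
  congr 1
  funext k
  rw [de, add_sub_cancel]

include hw in
theorem ap_lt (l : Lt) (v : ℕ) : ap t l v < 2 ^ n := by
  cases l
  · exact ay_lt n t.tx v hw.bx
  · exact ay_lt n t.ty v hw.by'
  · exact ay_lt n t.tg v hw.bg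
  · exact ay_lt n t.tc v hw.bc

include hw in
theorem sh_spec (l : Lt) {v : ℕ} (hv : v < 2 ^ n) :
    vec (dd t n F a) (sh t l v) = vec (de t F a l) v := by
  have e : sh t l v = Nat.shiftLeft v (l.num * n + 64) := by
    cases l
    · change Nat.shiftLeft v t.ox = _
      rw [hw.ox, Lt.num, Nat.zero_mul, Nat.zero_add]
    · change Nat.shiftLeft v t.oy = _
      rw [hw.oy, Lt.num, Nat.one_mul]
    · change Nat.shiftLeft v t.og = _
      rw [hw.og, Lt.num]
    · change Nat.shiftLeft v t.oc = _
      rw [hw.oc, Lt.num]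
  rw [e, vec_shl]
  exact vec_congr_lt hv fun k hk => dd_num t F a l hk

variable {m : ℕ} (H : ∀ j, dd t n F a j ∈ K a m)

include H in
theorem de_mem (l : Lt) {v : ℕ} (hv : v < 2 ^ n) : vec (de t F a l) v ∈ K a m :=
  vec_mem hv fun k hk _ => by rw [← dd_num t F a l hk]; exact H _

theorem gm_n (v : ℕ) : gm t .n v = v := rfl

theorem gm_k (l : Lt) (w : Wd) (v : ℕ) : gm t (.k l w) v = gm t w (Nat.xor v (ap t l v)) := by
  change fo (Nat.xor v (ap t l v)) (gm t w) = _
  rw [fo_eq]

include hw in
theorem gm_lt (w : Wd) : ∀ {v : ℕ}, v < 2 ^ n → gm t w v < 2 ^ n := by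
  induction w with
  | n => intro v hv; exact hv
  | k l w ih =>
    intro v hv
    rw [gm_k]
    exact ih (Nat.xor_lt_two_pow hv (ap_lt hw l v))

include hw h2 H in
theorem gm_spec (w : Wd) : ∀ {v : ℕ}, v < 2 ^ n →
    vec F v * gw a w - vec F (gm t w v) ∈ K a m := by
  induction w with
  | n => intro v _; simp [gw, gm_n, zero_mem]
  | k l w ih =>
    intro v hv
    rw [gm_k]
    have h1 := ih (Nat.xor_lt_two_pow hv (ap_lt hw l v))
    have h3 := (K_gw w (de_mem F a H l hv)).1
    have e : vec F v * gw a (.k l w) - vec F (gm t w (Nat.xor v (ap t l v))) =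
        (vec F (Nat.xor v (ap t l v)) * gw a w - vec F (gm t w (Nat.xor v (ap t l v)))) +
          vec (de t F a l) v * gw a w := by
      rw [vec_xor h2, gw, ← mul_assoc, mul_add, mul_one, ap_mul hw h2 F a l v, add_mul, add_mul,
        add_mul]
      abel
    rw [e]
    exact add_mem h1 h3

theorem fw_n (v u r : ℕ) : fw t .n v u r =
    Nat.rec (motive := fun _ => ℕ) r (fun _ _ => 0) (Nat.xor u v) := rfl

theorem fw_k (l : Lt) (w : Wd) (v u r : ℕ) : fw t (.k l w) v u r =
    fw t w v (Nat.xor u (ap t l u)) (Nat.xor r (sh t l u)) := by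
  change fo (Nat.xor u (ap t l u)) (fun u' => fw t w v u' (Nat.xor r (sh t l u))) = _
  rw [fo_eq]

include hw h2 H in
theorem fw_spec (w : Wd) : ∀ {v u r : ℕ}, u < 2 ^ n →
    vec (dd t n F a) r + (vec F u * gw a w - vec F v) ∈ K a (m + 1) →
    vec (dd t n F a) (fw t w v u r) ∈ K a (m + 1) := by
  induction w with
  | n =>
    intro v u r _ h
    rw [fw_n]
    rcases hx : Nat.xor u v with _ | q
    · have huv : u = v := by
        have h3 : u ^^^ v = 0 := hx
        exact Nat.xor_eq_zero_iff.1 h3
      rw [huv, gw, mul_one, sub_self, add_zero] at h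
      exact h
    · change vec (dd t n F a) 0 ∈ _
      rw [vec_zero]
      exact zero_mem _
  | k l w ih =>
    intro v u r hu h
    rw [fw_k]
    refine ih (Nat.xor_lt_two_pow hu (ap_lt hw l u)) ?_
    have h3 := (K_gw w (de_mem F a H l hu)).2
    have e : vec (dd t n F a) (Nat.xor r (sh t l u)) +
        (vec F (Nat.xor u (ap t l u)) * gw a w - vec F v) =
        (vec (dd t n F a) r + (vec F u * gw a (.k l w) - vec F v)) -
          (vec (de t F a l) u * gw a w - vec (de t F a l) u) := by
      rw [vec_xor h2, vec_xor h2, sh_spec hw F a l hu, gw, ← mul_assoc, mul_add, mul_one,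
        ap_mul hw h2 F a l u, add_mul, add_mul, add_mul]
      abel
    rw [e]
    exact sub_mem h h3

theorem ev_fin (l : Lt) (v : ℕ) : ev t (.fin l) v =
    Nat.rec (motive := fun _ => ℕ) (sh t l v) (fun _ _ => 0) (ap t l v) := rfl

theorem ev_finw (w : Wd) (v : ℕ) : ev t (.finw w) v = fw t w v v 0 := rfl

theorem ev_mul (l : Lt) (p : Pr) (v : ℕ) : ev t (.mul l p) v = ev t p (ap t l v) := by
  change fo (ap t l v) (ev t p) = _
  rw [fo_eq]

theorem ev_grp (w : Wd) (p : Pr) (v : ℕ) : ev t (.grp w p) v = ev t p (gm t w v) := by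
  change fo (gm t w v) (ev t p) = _
  rw [fo_eq]

theorem ev_mwd (w : Wd) (p : Pr) (v : ℕ) :
    ev t (.mwd w p) v = ev t p (Nat.xor (gm t w v) v) := by
  change fo (Nat.xor (gm t w v) v) (ev t p) = _
  rw [fo_eq]

include hw h2 H in
theorem ev_spec (p : Pr) : ∀ {v : ℕ}, v < 2 ^ n → vec F v * pv a p ∈ K a (m + 1) →
    vec (dd t n F a) (ev t p v) ∈ K a (m + 1) := by
  induction p with
  | fin l =>
    intro v hv h
    rw [ev_fin]
    rcases hx : ap t l v with _ | q
    · change vec (dd t n F a) (sh t l v) ∈ _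
      rw [pv, ap_mul hw h2 F a l v, hx] at h
      change vec F 0 + _ ∈ _ at h
      rw [vec_zero, zero_add] at h
      rw [sh_spec hw F a l hv]
      exact h
    · change vec (dd t n F a) 0 ∈ _
      rw [vec_zero]
      exact zero_mem _
  | finw w =>
    intro v hv h
    rw [ev_finw]
    refine fw_spec hw h2 F a H w hv ?_
    rw [vec_zero, zero_add]
    rw [pv, mul_sub, mul_one] at h
    exact h
  | mul l p ih =>
    intro v hv h
    rw [ev_mul]
    refine ih (ap_lt hw l v) ?_
    have h3 := K_pv p (de_mem F a H l hv)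
    rw [pv, ← mul_assoc, ap_mul hw h2 F a l v, add_mul] at h
    have := sub_mem h h3
    rwa [add_sub_cancel_right] at this
  | grp w p ih =>
    intro v hv h
    rw [ev_grp]
    refine ih (gm_lt hw w hv) ?_
    have h3 := K_pv p (gm_spec hw h2 F a H w hv)
    rw [sub_mul] at h3
    rw [pv, ← mul_assoc] at h
    have := sub_mem h h3
    rwa [sub_sub_cancel] at this
  | mwd w p ih =>
    intro v hv h
    rw [ev_mwd]
    refine ih (Nat.xor_lt_two_pow (gm_lt hw w hv) hv) ?_
    have h3 := K_pv p (gm_spec hw h2 F a H w hv)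
    rw [pv, ← mul_assoc, mul_sub, mul_one] at h
    have := sub_mem h h3
    have e : (vec F v * gw a w - vec F v) * pv a p - (vec F v * gw a w - vec F (gm t w v)) * pv a p
        = vec F (gm t w v) * pv a p + -(vec F v * pv a p) := by
      rw [sub_mul, sub_mul]; abel
    rw [e, ng h2] at this
    rw [vec_xor h2, add_mul]
    exact this

/-- The laws which are used hold. -/
def LOK (F : ℕ → R) (a : Lt → R) (top : ℕ) : Prop :=
  ∀ (l : Lw) (b : ℕ), l.ok top b = true → F b * pv a l.pr = 0

variable {top : ℕ} (hF : ∀ k < 64, F k = 0) (htn : top < n) (ht64 : top < 2 ^ 64)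
  (hL : LOK F a top)

theorem vec_low (h2 : (2 : R) = 0) (hF : ∀ k < 64, F k = 0) {b : ℕ} (hb : b < 2 ^ 64) :
    vec F (2 ^ b + b) = F b := by
  have h1 := vec_split F b (2 ^ b + b)
  have hlt : b < 2 ^ b := Nat.lt_two_pow_self
  have e1 : (2 ^ b + b) % 2 ^ b = b := by
    rw [Nat.add_mod_left, Nat.mod_eq_of_lt hlt]
  have e2 : (2 ^ b + b) / 2 ^ b = 2 ^ 0 := by
    rw [Nat.add_div_left _ (Nat.two_pow_pos b), Nat.div_eq_of_lt hlt]
    rfl
  have e3 : vec F b = 0 := by
    rw [vec_congr_lt (g := fun _ => (0 : R)) hb fun k hk => hF k hk, vec_null _ fun _ => rfl]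
  rw [h1, e1, e2, e3, vec_two_pow, zero_add, Nat.zero_add]

include hw h2 H hF htn ht64 hL in
theorem evi_spec {b : ℕ} {l : Lw} (hb : b ≤ top) (hl : l.ok top b = true) :
    vec (dd t n F a) (evi t b l) ∈ K a (m + 1) := by
  have e : evi t b l = ev t l.pr (2 ^ b + b) := by
    change fo (Nat.add (Nat.pow 2 b) b) (ev t l.pr) = _
    rw [fo_eq]
    rfl
  rw [e]
  have hlt : b < 2 ^ b := Nat.lt_two_pow_self
  refine ev_spec hw h2 F a H _ ?_ ?_
  · calc 2 ^ b + b < 2 ^ b + 2 ^ b := by omega
      _ = 2 ^ (b + 1) := by rw [pow_succ]; omega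
      _ ≤ 2 ^ n := Nat.pow_le_pow_right (by norm_num) (by omega)
  · rw [vec_low F h2 hF (by omega), hL l b hl]
    exact zero_mem _

include hw h2 H hF htn ht64 hL in
theorem xs_spec : ∀ s : St, s.ok top = true → vec (dd t n F a) (xs t s) ∈ K a (m + 1) := by
  intro s
  induction s with
  | e =>
    intro _
    change vec (dd t n F a) 0 ∈ _
    rw [vec_zero]
    exact zero_mem _
  | c b l s ih =>
    intro h
    obtain ⟨h1, h⟩ := cond_true h
    obtain ⟨h3, h4⟩ := cond_true (c := s.ok top) h
    change vec (dd t n F a) (Nat.xor (evi t b l) (xs t s)) ∈ _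
    rw [vec_xor h2]
    exact add_mem (evi_spec hw h2 F a H hF htn ht64 hL (Nat.le_of_ble_eq_true h1) h3) (ih h4)

theorem run_s (s : St) (ss : Ss) (κ : ℕ → Bool) (Q : ℕ) : run t (.s s ss) κ Q =
    cond (Nat.beq (Nat.land (Nat.land (xs t s) Q) (Nat.land (xs t s) Q - 1)) 0)
      (cond (Nat.beq (Nat.land (xs t s) Q) 0) false
        (run t ss κ (Nat.xor (Nat.xor Q (Nat.land (xs t s) Q))
          (Nat.mod (Nat.land (xs t s) Q) 1152921504606846883)))) false := by
  rw [← fo_eq (Nat.xor (Nat.xor Q (Nat.land (xs t s) Q))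
          (Nat.mod (Nat.land (xs t s) Q) 1152921504606846883)) (run t ss κ)]
  rfl

include hw h2 H hF htn ht64 hL in
theorem run_spec (κ : ℕ → Bool) : ∀ (ss : Ss), ss.ok top = true → ∀ Q : ℕ,
    (∀ j, Q.testBit j = false → dd t n F a j ∈ K a (m + 1)) → run t ss κ Q = true →
    ∃ Q', κ Q' = true ∧ ∀ j, Q'.testBit j = false → dd t n F a j ∈ K a (m + 1) := by
  intro ss
  induction ss with
  | e => intro _ Q hQ h; exact ⟨Q, h, hQ⟩
  | s s ss ih =>
    intro hok Q hQ h
    obtain ⟨hs, hss⟩ := cond_true (c := ss.ok top) hok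
    rw [run_s] at h
    obtain ⟨hp, h⟩ := cond_true h
    have hx := xs_spec hw h2 F a H hF htn ht64 hL s hs
    set X := xs t s with hX
    set r := Nat.land X Q with hr
    have hr0 : r ≠ 0 := by
      intro h0
      rw [h0] at h
      exact absurd h (by simp [Nat.beq])
    have hr0' : Nat.beq r 0 = false := by
      cases hrr : r with
      | zero => exact absurd hrr hr0
      | succ q => rfl
    rw [hr0'] at h
    have h' : run t ss κ (Nat.xor (Nat.xor Q r) (Nat.mod r 1152921504606846883)) = true := h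
    obtain ⟨i, hi⟩ := pow2 r hr0 (Nat.eq_of_beq_eq_true hp)
    have hri : ∀ j, (X.testBit j && Q.testBit j) = decide (i = j) := by
      intro j
      have h3 : r.testBit j = (X.testBit j && Q.testBit j) := Nat.testBit_and _ _ _
      rw [← h3, hi, Nat.testBit_two_pow]
    have hXi : X.testBit i = true := by
      have := hri i
      simp only [decide_true, Bool.and_eq_true] at this
      exact this.1
    have hi' : dd t n F a i ∈ K a (m + 1) := by
      refine vec_single hXi (fun k hk hb => hQ k ?_) hx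
      have := hri k
      rw [hb, Bool.true_and] at this
      rw [this]
      simpa using fun h => hk h.symm
    refine ih hss _ ?_ h'
    intro j hj
    by_cases hj64 : j < 64
    · unfold dd
      rw [if_pos hj64]
      exact zero_mem _
    · by_cases hij : j = i
      · rw [hij]; exact hi'
      · refine hQ j ?_
        have e1 : (Nat.xor (Nat.xor Q r) (Nat.mod r 1152921504606846883)).testBit j =
            ((Nat.xor Q r).testBit j ^^ (Nat.mod r 1152921504606846883).testBit j) :=
          Nat.testBit_xor _ _ _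
        have e2 : (Nat.xor Q r).testBit j = (Q.testBit j ^^ r.testBit j) := Nat.testBit_xor _ _ _
        have e3 : (Nat.mod r 1152921504606846883).testBit j = false := by
          refine Nat.testBit_lt_two_pow (lt_of_lt_of_le (Nat.mod_lt r (by norm_num)) ?_)
          calc (1152921504606846883 : ℕ) ≤ 2 ^ 64 := by norm_num
            _ ≤ 2 ^ j := Nat.pow_le_pow_right (by norm_num) (by omega)
        have e4 : r.testBit j = false := by
          rw [hi, Nat.testBit_two_pow]
          simpa using fun h => hij h.symm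
        rw [e1, e2, e3, e4] at hj
        simpa using hj

end

end Pool.Agent.L3E.RM
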