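import Pool.Agent.L3E.RM.Core

set_option autoImplicit false
set_option linter.unusedSimpArgs false
set_option linter.unusedSectionVars false

/-!
# L3E, large right module tables: soundness (helper31)
-/

namespace Pool.Agent.L3E.RM

open Pool.Agent.L3E.RMG

variable {R : Type} [Ring R]

/-! ### The filtration -/

/-- Multiples of products of `m` hats. -/
def K (a : Lt → R) (m : ℕ) : AddSubgroup R :=
  AddSubgroup.closure {x | ∃ r : R, ∃ w : List Lt, w.length = m ∧ x = r * (w.map a).prod}

/-- The value of a group word. -/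
def gw (a : Lt → R) : Wd → R
  | .n => 1
  | .k l w => (1 + a l) * gw a w

/-- The value of a product. -/
def pv (a : Lt → R) : Pr → R
  | .fin l => a l
  | .finw w => gw a w - 1
  | .mul l p => a l * pv a p
  | .grp w p => gw a w * pv a p
  | .mwd w p => (gw a w - 1) * pv a p

section
variable {a : Lt → R} {m : ℕ}

theorem K_zero (x : R) : x ∈ K a 0 :=
  AddSubgroup.subset_closure ⟨x, [], rfl, by simp⟩

theorem K_mul {x : R} (hx : x ∈ K a m) (l : Lt) : x * a l ∈ K a (m + 1) := by
  unfold K at hx
  induction hx using AddSubgroup.closure_induction with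
  | mem x hx =>
    obtain ⟨r, w, hw, rfl⟩ := hx
    exact AddSubgroup.subset_closure ⟨r, w ++ [l], by simp [hw], by simp [mul_assoc]⟩
  | zero => rw [zero_mul]; exact zero_mem _
  | add x y _ _ h1 h2 => rw [add_mul]; exact add_mem h1 h2
  | neg x _ h1 => rw [neg_mul]; exact neg_mem h1

theorem K_succ {x : R} (hx : x ∈ K a (m + 1)) : x ∈ K a m := by
  unfold K at hx
  induction hx using AddSubgroup.closure_induction with
  | mem x hx =>
    obtain ⟨r, w, hw, rfl⟩ := hx
    cases w with
    | nil => simp at hw
    | cons l w =>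
      exact AddSubgroup.subset_closure ⟨r * a l, w, by simpa using hw, by simp [mul_assoc]⟩
  | zero => exact zero_mem _
  | add x y _ _ h1 h2 => exact add_mem h1 h2
  | neg x _ h1 => exact neg_mem h1

theorem K_nil {N : ℕ} (hN : ∀ w : List Lt, w.length = N → (w.map a).prod = 0) {x : R}
    (hx : x ∈ K a N) : x = 0 := by
  unfold K at hx
  induction hx using AddSubgroup.closure_induction with
  | mem x hx =>
    obtain ⟨r, w, hw, rfl⟩ := hx
    rw [hN w hw, mul_zero]
  | zero => rfl
  | add x y _ _ h1 h2 => rw [h1, h2, add_zero]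
  | neg x _ h1 => rw [h1, neg_zero]

theorem K_gw (w : Wd) : ∀ {x : R}, x ∈ K a m →
    x * gw a w ∈ K a m ∧ x * gw a w - x ∈ K a (m + 1) := by
  induction w with
  | n => intro x hx; simp [gw, hx, zero_mem]
  | k l w ih =>
    intro x hx
    have hl := K_mul hx l
    have h1 : x * (1 + a l) ∈ K a m := by
      rw [mul_add, mul_one]
      exact add_mem hx (K_succ hl)
    obtain ⟨h3, h4⟩ := ih h1
    rw [gw, ← mul_assoc]
    refine ⟨h3, ?_⟩
    have e : x * (1 + a l) * gw a w - x = (x * (1 + a l) * gw a w - x * (1 + a l)) + x * a l := by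
      rw [mul_add, mul_one]; abel
    rw [e]
    exact add_mem h4 hl

theorem K_pv (p : Pr) : ∀ {x : R}, x ∈ K a m → x * pv a p ∈ K a (m + 1) := by
  induction p with
  | fin l => intro x hx; exact K_mul hx l
  | finw w =>
    intro x hx
    rw [pv, mul_sub, mul_one]
    exact (K_gw w hx).2
  | mul l p ih =>
    intro x hx
    rw [pv, ← mul_assoc]
    exact ih (K_succ (K_mul hx l))
  | grp w p ih =>
    intro x hx
    rw [pv, ← mul_assoc]
    exact ih (K_gw w hx).1
  | mwd w p ih =>
    intro x hx
    rw [pv, ← mul_assoc]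
    refine ih ?_
    rw [mul_sub, mul_one]
    exact sub_mem (K_gw w hx).1 hx

end

/-! ### Vectors -/

theorem tw (h2 : (2 : R) = 0) (a : R) : a + a = 0 := by rw [← two_mul, h2, zero_mul]

theorem ng (h2 : (2 : R) = 0) (a : R) : -a = a := neg_eq_of_add_eq_zero_left (tw h2 a)

theorem vec_mem {f : ℕ → R} {A : AddSubgroup R} {v n : ℕ} (hv : v < 2 ^ n)
    (h : ∀ k < n, v.testBit k = true → f k ∈ A) : vec f v ∈ A := by
  rw [vec_eq f hv]
  refine A.sum_mem fun k hk => ?_
  by_cases hb : v.testBit k = true
  · rw [if_pos hb]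
    exact h k (Finset.mem_range.1 hk) hb
  · rw [if_neg hb]
    exact A.zero_mem

theorem vec_single {f : ℕ → R} {A : AddSubgroup R} {v i : ℕ} (hi : v.testBit i = true)
    (h : ∀ k, k ≠ i → v.testBit k = true → f k ∈ A) (hv : vec f v ∈ A) : f i ∈ A := by
  obtain ⟨n, hn⟩ : ∃ n, v < 2 ^ n := ⟨v, Nat.lt_two_pow_self⟩
  have hin : i < n := by
    by_contra hcon
    have : v.testBit i = false := Nat.testBit_lt_two_pow
      (lt_of_lt_of_le hn (Nat.pow_le_pow_right (by norm_num) (by omega)))
    rw [this] at hi
    exact absurd hi (by simp)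
  rw [vec_eq f hn, ← Finset.add_sum_erase _ _ (Finset.mem_range.2 hin), if_pos hi] at hv
  have hs : (∑ k ∈ (Finset.range n).erase i, if v.testBit k then f k else 0) ∈ A := by
    refine A.sum_mem fun k hk => ?_
    rw [Finset.mem_erase] at hk
    by_cases hb : v.testBit k = true
    · rw [if_pos hb]
      exact h k hk.1 hb
    · rw [if_neg hb]
      exact A.zero_mem
  have := A.sub_mem hv hs
  rwa [add_sub_cancel_right] at this

theorem vec_sum (f g : ℕ → R) (v : ℕ) : vec (fun k => f k + g k) v = vec f v + vec g v := by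
  unfold vec
  rw [← Finset.sum_add_distrib]
  refine Finset.sum_congr rfl fun k _ => ?_
  split_ifs <;> simp

theorem vec_congr {f g : ℕ → R} {v : ℕ} (h : ∀ k, v.testBit k = true → f k = g k) :
    vec f v = vec g v := by
  unfold vec
  refine Finset.sum_congr rfl fun k _ => ?_
  by_cases hb : v.testBit k = true
  · rw [if_pos hb, if_pos hb, h k hb]
  · rw [if_neg hb, if_neg hb]

/-- Powers of two. -/
theorem pow2 : ∀ r : ℕ, r ≠ 0 → Nat.land r (r - 1) = 0 → ∃ i, r = 2 ^ i := by
  intro r
  induction r using Nat.strong_induction_on with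
  | _ r ih =>
    intro h0 hr
    rcases Nat.even_or_odd' r with ⟨q, rfl | rfl⟩
    · have hq : q ≠ 0 := by omega
      have : Nat.land q (q - 1) = 0 := by
        apply Nat.eq_of_testBit_eq
        intro i
        have h1 := congrArg (fun n => Nat.testBit n (i + 1)) hr
        have e1 : (2 * q).testBit (i + 1) = q.testBit i := by
          rw [Nat.testBit_succ]; congr 1; omega
        have e2 : (2 * q - 1).testBit (i + 1) = (q - 1).testBit i := by
          rw [Nat.testBit_succ]; congr 1; omega
        have h2 : (Nat.land (2 * q) (2 * q - 1)).testBit (i + 1) =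
            ((2 * q).testBit (i + 1) && (2 * q - 1).testBit (i + 1)) := Nat.testBit_and _ _ _
        have h3 : (Nat.land q (q - 1)).testBit i = (q.testBit i && (q - 1).testBit i) :=
          Nat.testBit_and _ _ _
        simp only [h2, e1, e2, Nat.zero_testBit] at h1
        rw [h3, h1, Nat.zero_testBit]
      obtain ⟨i, hi⟩ := ih q (by omega) hq this
      exact ⟨i + 1, by rw [pow_succ, ← hi]; omega⟩
    · have hq : q = 0 := by
        apply Nat.eq_of_testBit_eq
        intro i
        have h1 := congrArg (fun n => Nat.testBit n (i + 1)) hr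
        have e1 : (2 * q + 1).testBit (i + 1) = q.testBit i := by
          rw [Nat.testBit_succ]; congr 1; omega
        have e2 : (2 * q + 1 - 1).testBit (i + 1) = q.testBit i := by
          rw [Nat.testBit_succ]; congr 1; omega
        have h2 : (Nat.land (2 * q + 1) (2 * q + 1 - 1)).testBit (i + 1) =
            ((2 * q + 1).testBit (i + 1) && (2 * q + 1 - 1).testBit (i + 1)) :=
          Nat.testBit_and _ _ _
        simp only [h2, e1, e2, Nat.zero_testBit, Bool.and_self] at h1
        rw [h1, Nat.zero_testBit]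
      exact ⟨0, by rw [hq]; rfl⟩

end Pool.Agent.L3E.RM
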