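import Pool.Agent.L3E.RM.Sound

set_option autoImplicit false
set_option linter.unusedSimpArgs false
set_option linter.unusedSectionVars false

/-!
# L3E, large right module tables: the trees (helper31)
-/

namespace Pool.Agent.L3E.RM

open Pool.Agent.L3E.RMG

variable {R : Type} [Ring R]

/-- Well-formed tables with the bits `lo, ..., hi - 1`. -/
noncomputable def wfp (t : Tp) : ℕ → ℕ → Bool :=
  Tp.rec (motive := fun _ => ℕ → ℕ → Bool) (fun _ _ => true)
    (fun m mid _ _ ih1 ih2 lo hi => cond (Nat.beq (Nat.add m (Nat.pow 2 lo)) (Nat.pow 2 hi))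
      (cond (Nat.ble lo mid) (cond (Nat.ble mid hi) (cond (ih1 lo mid) (ih2 mid hi) false) false)
        false) false)
    (fun o r lo hi => cond (Nat.beq o lo) (cond (Nat.beq hi (Nat.add o 64)) (wf r 64) false)
      false) t

/-- All leaves of a tree are small. -/
noncomputable def bt (B : ℕ) (r : Tr) : Bool :=
  Tr.rec (motive := fun _ => Bool) (fun m => Nat.blt m B) (fun _ _ _ ih1 ih2 => cond ih1 ih2 false) r

/-- All leaves of a table are small. -/
noncomputable def bp (B : ℕ) (t : Tp) : Bool :=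
  Tp.rec (motive := fun _ => Bool) true (fun _ _ _ _ ih1 ih2 => cond ih1 ih2 false)
    (fun _ r => bt B r) t

theorem cond_true {b : Bool} {c : Bool} (h : cond b c false = true) : b = true ∧ c = true := by
  cases b
  · exact absurd h (by simp)
  · exact ⟨rfl, h⟩

theorem aq_lt (n : ℕ) (r : Tr) : ∀ v, bt (2 ^ n) r = true → aq r v < 2 ^ n := by
  induction r with
  | l m =>
    intro v h
    change Nat.blt m (2 ^ n) = true at h
    change m < 2 ^ n
    simpa [Nat.blt] using h
  | b d s t ih1 ih2 =>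
    intro v h
    obtain ⟨h1, h2⟩ := cond_true (c := bt (2 ^ n) t) h
    have e : aq (.b d s t) v = Nat.rec (motive := fun _ => ℕ) (aq s v)
      (fun h _ => Nat.rec (motive := fun _ => ℕ) (aq t (Nat.succ h))
        (fun l _ => Nat.xor (aq s (Nat.succ l)) (aq t (Nat.succ h))) (Nat.mod v d))
      (Nat.div v d) := rfl
    rw [e]
    cases Nat.div v d with
    | zero => exact ih1 _ h1
    | succ q =>
      cases Nat.mod v d with
      | zero => exact ih2 _ h2
      | succ k => exact Nat.xor_lt_two_pow (ih1 _ h1) (ih2 _ h2)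

theorem ax_lt (n : ℕ) (r : Tr) (v : ℕ) (h : bt (2 ^ n) r = true) : ax r v < 2 ^ n := by
  cases v with
  | zero => exact Nat.two_pow_pos n
  | succ v => exact aq_lt n r _ h

theorem ay_t (m mid : ℕ) (s t : Tp) (v : ℕ) : ay (.t m mid s t) v =
    Nat.rec (motive := fun _ => ℕ) 0 (fun _ _ => Nat.xor (ay s v) (ay t v)) (Nat.land v m) := rfl

theorem ay_p (o : ℕ) (r : Tr) (v : ℕ) : ay (.p o r) v =
    ax r (Nat.mod (Nat.shiftRight v o) 18446744073709551616) := rfl

theorem ay_lt (n : ℕ) (t : Tp) (v : ℕ) (h : bp (2 ^ n) t = true) : ay t v < 2 ^ n := by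
  induction t with
  | z => exact Nat.two_pow_pos n
  | t m mid s t ih1 ih2 =>
    obtain ⟨h1, h2⟩ := cond_true (c := bp (2 ^ n) t) h
    rw [ay_t]
    cases Nat.land v m with
    | zero => exact Nat.two_pow_pos n
    | succ k => exact Nat.xor_lt_two_pow (ih1 h1) (ih2 h2)
  | p o r => exact ax_lt n r _ h

/-- The row of the bit `k`. -/
noncomputable def gp (f : ℕ → R) : Tp → ℕ → R
  | .z => fun _ => 0
  | .t _ _ s t => fun k => gp f s k + gp f t k
  | .p o r => fun k => if o ≤ k ∧ k < o + 64 then eOf r f (k - o) else 0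

theorem gp_t (f : ℕ → R) (m mid : ℕ) (s t : Tp) (k : ℕ) :
    gp f (.t m mid s t) k = gp f s k + gp f t k := rfl

theorem gp_p (f : ℕ → R) (o : ℕ) (r : Tr) (k : ℕ) : gp f (.p o r) k =
    if o ≤ k ∧ k < o + 64 then eOf r f (k - o) else 0 := rfl

theorem gp_out (f : ℕ → R) (t : Tp) : ∀ {lo hi : ℕ}, wfp t lo hi = true → ∀ k, (k < lo ∨ hi ≤ k) →
    gp f t k = 0 := by
  induction t with
  | z => intro lo hi _ k _; rfl
  | t m mid s t ih1 ih2 =>
    intro lo hi h k hk
    obtain ⟨-, h⟩ := cond_true h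
    obtain ⟨hl, h⟩ := cond_true h
    obtain ⟨hm, h⟩ := cond_true h
    obtain ⟨hs, ht⟩ := cond_true (c := wfp t mid hi) h
    have hl' := Nat.le_of_ble_eq_true hl
    have hm' := Nat.le_of_ble_eq_true hm
    rw [gp_t, ih1 hs k (by omega), ih2 ht k (by omega), add_zero]
  | p o r =>
    intro lo hi h k hk
    obtain ⟨h1, h⟩ := cond_true h
    obtain ⟨h2, -⟩ := cond_true h
    have h1' := Nat.eq_of_beq_eq_true h1
    have h2' : hi = o + 64 := Nat.eq_of_beq_eq_true h2
    rw [gp_p, if_neg (by omega)]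

theorem mask_zero {v m lo hi : ℕ} (hm : m + 2 ^ lo = 2 ^ hi) (h : lo ≤ hi)
    (hv : Nat.land v m = 0) (k : ℕ) (h1 : lo ≤ k) (h2 : k < hi) : v.testBit k = false := by
  have hb : m.testBit k = true := by
    have e : m = 2 ^ lo * (2 ^ (hi - lo) - 1) := by
      have : 2 ^ hi = 2 ^ lo * 2 ^ (hi - lo) := by rw [← pow_add]; congr 1; omega
      rw [Nat.mul_sub, mul_one, ← this]
      omega
    rw [e, Nat.testBit_two_pow_mul, Nat.testBit_two_pow_sub_one]
    simp only [Bool.and_eq_true, decide_eq_true_eq]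
    omega
  have := congrArg (fun n => Nat.testBit n k) hv
  have h3 : (Nat.land v m).testBit k = (v.testBit k && m.testBit k) := Nat.testBit_and _ _ _
  simp only [h3, hb, Bool.and_true, Nat.zero_testBit] at this
  exact this

theorem ay_spec (h2 : (2 : R) = 0) (f : ℕ → R) (t : Tp) : ∀ {lo hi : ℕ}, wfp t lo hi = true →
    ∀ v, vec f (ay t v) = vec (gp f t) v := by
  induction t with
  | z =>
    intro lo hi _ v
    change vec f 0 = vec (fun _ => 0) v
    rw [vec_zero, vec_null v fun _ => rfl]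
  | t m mid s t ih1 ih2 =>
    intro lo hi h v
    have hw := h
    obtain ⟨hm, h⟩ := cond_true h
    obtain ⟨hl, h⟩ := cond_true h
    obtain ⟨hmi, h⟩ := cond_true h
    obtain ⟨hs, ht⟩ := cond_true (c := wfp t mid hi) h
    have hl' := Nat.le_of_ble_eq_true hl
    have hm' := Nat.le_of_ble_eq_true hmi
    have hm'' : m + 2 ^ lo = 2 ^ hi := Nat.eq_of_beq_eq_true hm
    rw [ay_t]
    rcases hq : Nat.land v m with _ | q
    · change vec f 0 = _
      rw [vec_zero, vec_congr (g := fun _ => (0 : R)), vec_null v fun _ => rfl]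
      intro k hk
      by_cases hkr : lo ≤ k ∧ k < hi
      · rw [mask_zero hm'' (by omega) hq k hkr.1 hkr.2] at hk
        exact absurd hk (by simp)
      · exact gp_out f _ hw k (by omega)
    · change vec f (Nat.xor (ay s v) (ay t v)) = _
      rw [vec_xor h2, ih1 hs, ih2 ht, ← vec_sum]
      rfl
  | p o r =>
    intro lo hi h v
    obtain ⟨-, h⟩ := cond_true h
    obtain ⟨-, h⟩ := cond_true h
    have e64 : (18446744073709551616 : ℕ) = 2 ^ 64 := by norm_num
    have hsr : Nat.shiftRight v o = v / 2 ^ o := Nat.shiftRight_eq_div_pow v o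
    have e : ay (.p o r) v = app0 r (v / 2 ^ o % 2 ^ 64) := by
      rw [ay_p, ax_eq, e64, hsr]
      rfl
    rw [e, app0_spec h2 f h (Nat.mod_lt _ (by positivity))]
    have s1 := vec_split (gp f (.p o r)) o v
    have z1 : vec (gp f (.p o r)) (v % 2 ^ o) = 0 := by
      rw [vec_congr_lt (g := fun _ => (0 : R)) (Nat.mod_lt v (Nat.two_pow_pos o)),
        vec_null _ fun _ => rfl]
      intro k hk
      rw [gp_p, if_neg (by omega)]
    have s2 := vec_split (fun k => gp f (.p o r) (k + o)) 64 (v / 2 ^ o)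
    have z2 : vec (fun k => gp f (.p o r) (k + 64 + o)) (v / 2 ^ o / 2 ^ 64) = 0 := by
      refine vec_null _ fun k => ?_
      rw [gp_p, if_neg (by omega)]
    have s3 : vec (fun k => gp f (.p o r) (k + o)) (v / 2 ^ o % 2 ^ 64) =
        vec (eOf r f) (v / 2 ^ o % 2 ^ 64) := by
      refine vec_congr_lt (Nat.mod_lt _ (Nat.two_pow_pos 64)) fun k hk => ?_
      rw [gp_p, if_pos (by omega), Nat.add_sub_cancel]
    rw [s1, z1, zero_add, s2, s3]
    change _ = vec (eOf r f) _ + vec (fun k => gp f (.p o r) (k + 64 + o)) _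
    rw [z2, add_zero]

/-- Bits outside of the range. -/
theorem ay_out (t : Tp) : ∀ {lo hi : ℕ}, wfp t lo hi = true → ∀ {k : ℕ}, hi ≤ k →
    ay t (2 ^ k) = 0 := by
  induction t with
  | z => intro lo hi _ k _; rfl
  | t m mid s t ih1 ih2 =>
    intro lo hi h k hk
    obtain ⟨hm, h⟩ := cond_true h
    obtain ⟨hl, h⟩ := cond_true h
    obtain ⟨hmi, h⟩ := cond_true h
    have hm'' : m + 2 ^ lo = 2 ^ hi := Nat.eq_of_beq_eq_true hm
    have hz : Nat.land (2 ^ k) m = 0 := by
      have h3 : m < 2 ^ k := lt_of_lt_of_le (b := 2 ^ hi) (by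
        have := Nat.two_pow_pos lo
        omega) (Nat.pow_le_pow_right (by norm_num) hk)
      apply Nat.eq_of_testBit_eq
      intro i
      have e : (Nat.land (2 ^ k) m).testBit i = ((2 ^ k).testBit i && m.testBit i) :=
        Nat.testBit_and _ _ _
      rw [e, Nat.testBit_two_pow, Nat.zero_testBit]
      by_cases hik : k = i
      · subst hik
        rw [Nat.testBit_lt_two_pow h3, Bool.and_false]
      · simp [hik]
    rw [ay_t, hz]
    rfl
  | p o r =>
    intro lo hi h k hk
    obtain ⟨h1, h⟩ := cond_true h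
    obtain ⟨h2, -⟩ := cond_true h
    have h2' : hi = o + 64 := Nat.eq_of_beq_eq_true h2
    have e : Nat.mod (Nat.shiftRight (2 ^ k) o) 18446744073709551616 = 0 := by
      have e1 : Nat.shiftRight (2 ^ k) o = 2 ^ 64 * 2 ^ (k - o - 64) := by
        have h3 : Nat.shiftRight (2 ^ k) o = 2 ^ k / 2 ^ o := Nat.shiftRight_eq_div_pow _ _
        rw [h3, Nat.pow_div (by omega) (by norm_num), ← pow_add]
        congr 1
        omega
      rw [e1]
      exact Nat.mul_mod_right _ _
    rw [ay_p, e]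
    rfl

theorem ay_pow (h2 : (2 : R) = 0) (f : ℕ → R) {t : Tp} {lo hi : ℕ} (h : wfp t lo hi = true)
    (v : ℕ) : vec f (ay t v) = vec (fun k => vec f (ay t (2 ^ k))) v := by
  rw [ay_spec h2 f t h]
  congr 1
  funext k
  rw [ay_spec h2 f t h, vec_two_pow]

end Pool.Agent.L3E.RM
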