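import Mathlib

set_option autoImplicit false

/-!
# L3E, module RM.Vec: vectors over F_2 and trees (first version of GJ.Core, helper24)

Vectors over F_2 are natural numbers (bit `k` is the coefficient of the `k`-th basis element);
linear maps are binary trees with the images of the basis vectors as leaves.
-/

namespace Pool.Agent.L3E.RMG

/-! ### Vectors -/

section vec
variable {K : Type} [Ring K]

/-- The element with coefficient vector `v` with respect to the family `f`. -/
def vec (f : ℕ → K) (v : ℕ) : K := ∑ k ∈ Finset.range v.size, if v.testBit k then f k else 0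

theorem vec_eq (f : ℕ → K) {v n : ℕ} (h : v < 2 ^ n) :
    vec f v = ∑ k ∈ Finset.range n, if v.testBit k then f k else 0 := by
  unfold vec
  apply Finset.sum_subset
  · intro k hk
    rw [Finset.mem_range] at hk ⊢
    exact lt_of_lt_of_le hk (Nat.size_le.mpr h)
  · intro k _ hk
    rw [Finset.mem_range, not_lt] at hk
    have : v.testBit k = false := Nat.testBit_eq_false_of_lt
      (lt_of_lt_of_le (Nat.lt_size_self v) (Nat.pow_le_pow_right (by norm_num) hk))
    simp [this]

theorem vec_zero (f : ℕ → K) : vec f 0 = 0 := by simp [vec]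

theorem exists_bound (v w : ℕ) : ∃ n, v < 2 ^ n ∧ w < 2 ^ n := by
  refine ⟨v + w, ?_, ?_⟩
  · exact lt_of_le_of_lt (Nat.le_add_right v w) (Nat.lt_two_pow_self)
  · exact lt_of_le_of_lt (Nat.le_add_left w v) (Nat.lt_two_pow_self)

theorem vec_xor (h2 : (2 : K) = 0) (f : ℕ → K) (v w : ℕ) :
    vec f (Nat.xor v w) = vec f v + vec f w := by
  obtain ⟨n, hv, hw⟩ := exists_bound v w
  have hx : Nat.xor v w < 2 ^ n := Nat.xor_lt_two_pow hv hw
  rw [vec_eq f hv, vec_eq f hw, vec_eq f hx, ← Finset.sum_add_distrib]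
  refine Finset.sum_congr rfl fun k _ => ?_
  have e : (Nat.xor v w).testBit k = (v.testBit k ^^ w.testBit k) := Nat.testBit_xor v w k
  rw [e]
  have h : f k + f k = 0 := by rw [← two_mul, h2, zero_mul]
  cases v.testBit k <;> cases w.testBit k <;> simp [h]

theorem vec_two_pow (f : ℕ → K) (k : ℕ) : vec f (2 ^ k) = f k := by
  rw [vec_eq f (n := k + 1) (Nat.pow_lt_pow_right (by norm_num) (Nat.lt_succ_self k)),
    Finset.sum_range_succ, Finset.sum_eq_zero]
  · simp
  · intro j hj
    rw [Finset.mem_range] at hj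
    have : (2 ^ k).testBit j = false := by
      rw [Nat.testBit_two_pow]; simp; omega
    simp [this]

theorem vec_split (f : ℕ → K) (n v : ℕ) :
    vec f v = vec f (v % 2 ^ n) + vec (fun k => f (k + n)) (v / 2 ^ n) := by
  obtain ⟨m, hm⟩ : ∃ m, v < 2 ^ m := ⟨v, Nat.lt_two_pow_self⟩
  have h1 : v < 2 ^ (n + m) := lt_of_lt_of_le hm (Nat.pow_le_pow_right (by norm_num) (by omega))
  have h2 : v % 2 ^ n < 2 ^ n := Nat.mod_lt _ (by positivity)
  have h3 : v / 2 ^ n < 2 ^ m := lt_of_le_of_lt (Nat.div_le_self _ _) hm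
  rw [vec_eq f h1, vec_eq f h2, vec_eq _ h3, Finset.sum_range_add]
  congr 1
  · refine Finset.sum_congr rfl fun k hk => ?_
    rw [Finset.mem_range] at hk
    rw [Nat.testBit_mod_two_pow]
    simp [hk]
  · refine Finset.sum_congr rfl fun k _ => ?_
    rw [Nat.testBit_div_two_pow, add_comm n k]

theorem vec_congr_lt {f g : ℕ → K} {v n : ℕ} (h : v < 2 ^ n) (hfg : ∀ k < n, f k = g k) :
    vec f v = vec g v := by
  rw [vec_eq f h, vec_eq g h]
  refine Finset.sum_congr rfl fun k hk => ?_
  rw [hfg k (Finset.mem_range.mp hk)]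

theorem vec_null {f : ℕ → K} (v : ℕ) (hf : ∀ k, f k = 0) : vec f v = 0 := by
  unfold vec
  exact Finset.sum_eq_zero fun k _ => by simp [hf k]

theorem vec_mod {f : ℕ → K} {n : ℕ} (hf : ∀ k, n ≤ k → f k = 0) (v : ℕ) :
    vec f v = vec f (v % 2 ^ n) := by
  rw [vec_split f n v, vec_null (v / 2 ^ n), add_zero]
  · exact fun k => hf _ (by omega)

theorem vec_shl (f : ℕ → K) (v o : ℕ) :
    vec f (Nat.shiftLeft v o) = vec (fun k => f (k + o)) v := by
  have e : Nat.shiftLeft v o = v * 2 ^ o := Nat.shiftLeft_eq v o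
  rw [e, vec_split f o, Nat.mul_mod_left, vec_zero, zero_add, Nat.mul_div_cancel _ (by positivity)]

theorem mul_vec (z : K) (f : ℕ → K) (v : ℕ) : z * vec f v = vec (fun k => z * f k) v := by
  unfold vec
  rw [Finset.mul_sum]
  refine Finset.sum_congr rfl fun k _ => ?_
  split_ifs <;> simp

theorem vec_mul (z : K) (f : ℕ → K) (v : ℕ) : vec f v * z = vec (fun k => f k * z) v := by
  unfold vec
  rw [Finset.sum_mul]
  refine Finset.sum_congr rfl fun k _ => ?_
  split_ifs <;> simp

theorem vec_add (f g : ℕ → K) (v : ℕ) : vec (fun k => f k + g k) v = vec f v + vec g v := by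
  unfold vec
  rw [← Finset.sum_add_distrib]
  refine Finset.sum_congr rfl fun k _ => ?_
  split_ifs <;> simp

theorem vec_sub (f g : ℕ → K) (v : ℕ) : vec (fun k => f k - g k) v = vec f v - vec g v := by
  unfold vec
  rw [← Finset.sum_sub_distrib]
  refine Finset.sum_congr rfl fun k _ => ?_
  split_ifs <;> simp

end vec

/-! ### Trees -/

/-- Binary trees: a leaf holds a vector, a node `b d s t` splits the index range at `log2 d`. -/
inductive Tr : Type
  | l : ℕ → Tr
  | b : ℕ → Tr → Tr → Tr

/-- The image of the nonzero vector `v`. -/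
noncomputable def app (t : Tr) : ℕ → ℕ :=
  Tr.rec (motive := fun _ => ℕ → ℕ) (fun m _ => m)
    (fun d _ _ ih1 ih2 v => Nat.casesOn (motive := fun _ => ℕ) (Nat.div v d) (ih1 v)
      (fun h => Nat.casesOn (motive := fun _ => ℕ) (Nat.mod v d) (ih2 (Nat.succ h))
        (fun l => Nat.xor (ih1 (Nat.succ l)) (ih2 (Nat.succ h))))) t

/-- The image of the vector `v`. -/
noncomputable def app0 (t : Tr) (v : ℕ) : ℕ :=
  Nat.casesOn (motive := fun _ => ℕ) v 0 (fun k => app t (Nat.succ k))

/-- Well-formed trees with `n` leaves (a zero leaf may stand for a whole zero subtree). -/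
noncomputable def wf (t : Tr) : ℕ → Bool :=
  Tr.rec (motive := fun _ => ℕ → Bool) (fun m n => Nat.beq n 1 || Nat.beq m 0)
    (fun d _ _ ih1 ih2 n => Nat.beq (Nat.pow 2 (Nat.log2 d)) d && Nat.blt (Nat.log2 d) n &&
      ih1 (Nat.log2 d) && ih2 (Nat.sub n (Nat.log2 d))) t

/-- The `j`-th leaf. -/
noncomputable def lf (t : Tr) : ℕ → ℕ :=
  Tr.rec (motive := fun _ => ℕ → ℕ) (fun m j => if j = 0 then m else 0)
    (fun d _ _ ih1 ih2 j => if j < Nat.log2 d then ih1 j else ih2 (j - Nat.log2 d)) t

theorem wf_b {d : ℕ} {s t : Tr} {n : ℕ} (h : wf (.b d s t) n = true) :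
    d = 2 ^ Nat.log2 d ∧ Nat.log2 d < n ∧ wf s (Nat.log2 d) = true ∧
      wf t (n - Nat.log2 d) = true := by
  have h' : (Nat.beq (Nat.pow 2 (Nat.log2 d)) d && Nat.blt (Nat.log2 d) n &&
      wf s (Nat.log2 d) && wf t (Nat.sub n (Nat.log2 d))) = true := h
  simp only [Bool.and_eq_true] at h'
  obtain ⟨⟨⟨h1, h2⟩, h3⟩, h4⟩ := h'
  refine ⟨(Nat.eq_of_beq_eq_true h1).symm, ?_, h3, h4⟩
  simpa [Nat.blt] using h2

theorem wf_l {m n : ℕ} (h : wf (.l m) n = true) : n = 1 ∨ m = 0 := by
  have h' : (Nat.beq n 1 || Nat.beq m 0) = true := h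
  simp only [Bool.or_eq_true] at h'
  exact h'.imp Nat.eq_of_beq_eq_true Nat.eq_of_beq_eq_true

theorem lf_ge {t : Tr} : ∀ {n : ℕ}, wf t n = true → ∀ {j : ℕ}, n ≤ j → lf t j = 0 := by
  induction t with
  | l m =>
    intro n h j hj
    change (if j = 0 then m else 0) = 0
    rcases wf_l h with h | h
    · rw [if_neg (by omega)]
    · rw [h]; simp
  | b d s t ih1 ih2 =>
    intro n h j hj
    obtain ⟨-, h2, h3, h4⟩ := wf_b h
    change (if j < Nat.log2 d then lf s j else lf t (j - Nat.log2 d)) = 0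
    rw [if_neg (by omega)]
    exact ih2 h4 (by omega)

section
variable {K : Type} [Ring K]

/-- The family with the members `vec f (leaf j)`. -/
noncomputable def eOf (t : Tr) (f : ℕ → K) (j : ℕ) : K := vec f (lf t j)

theorem app_spec (h2 : (2 : K) = 0) (f : ℕ → K) {t : Tr} : ∀ {n v : ℕ}, wf t n = true → 0 < v →
    v < 2 ^ n → vec f (app t v) = vec (eOf t f) v := by
  induction t with
  | l m =>
    intro n v h hv hn
    change vec f m = _
    rcases wf_l h with h | h
    · subst h
      have : v = 2 ^ 0 := by omega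
      subst this
      rw [vec_two_pow]
      rfl
    · subst h
      rw [vec_zero, vec_null]
      intro k
      change vec f (if k = 0 then 0 else 0) = 0
      simp [vec_zero]
  | b d s t ih1 ih2 =>
    intro n v h hv hn
    obtain ⟨hd, hlt, hs, ht⟩ := wf_b h
    set e := Nat.log2 d with he
    have happ : app (.b d s t) v = Nat.casesOn (motive := fun _ => ℕ) (v / d) (app s v)
      (fun h => Nat.casesOn (motive := fun _ => ℕ) (v % d) (app t (Nat.succ h))
        (fun l => Nat.xor (app s (Nat.succ l)) (app t (Nat.succ h)))) := rfl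
    have hL : ∀ w : ℕ, w < 2 ^ e → vec (eOf (.b d s t) f) w = vec (eOf s f) w := by
      intro w hw
      refine vec_congr_lt hw fun k hk => ?_
      change vec f (if k < Nat.log2 d then lf s k else lf t (k - Nat.log2 d)) = vec f (lf s k)
      rw [if_pos hk]
    have hR : ∀ w : ℕ, vec (fun k => eOf (.b d s t) f (k + e)) w = vec (eOf t f) w := by
      intro w
      congr 1
      funext k
      change vec f (if k + e < Nat.log2 d then lf s (k + e) else lf t (k + e - Nat.log2 d)) =
        vec f (lf t k)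
      rw [if_neg (by omega), ← he, Nat.add_sub_cancel]
    have hsplit := vec_split (eOf (.b d s t) f) e v
    rw [← hd] at hsplit
    have hmod : v % d < 2 ^ e := by rw [← hd]; exact Nat.mod_lt _ (by rw [hd]; positivity)
    have hdiv : v / d < 2 ^ (n - e) := by
      apply Nat.div_lt_of_lt_mul
      rw [hd, ← pow_add]
      rwa [show e + (n - e) = n by omega]
    rw [hL _ hmod, hR] at hsplit
    rw [happ, hsplit]
    rcases hq : v / d with _ | q
    · have hv2 : v % d = v := by
        have := Nat.div_add_mod v d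
        rw [hq] at this
        omega
      rw [hv2] at hmod ⊢
      simp only [vec_zero, add_zero]
      exact ih1 hs hv hmod
    · rw [hq] at hdiv
      rcases hr : v % d with _ | r
      · simp only [vec_zero, zero_add]
        exact ih2 ht (Nat.succ_pos q) hdiv
      · rw [hr] at hmod
        simp only []
        rw [vec_xor h2, ih1 hs (Nat.succ_pos r) hmod, ih2 ht (Nat.succ_pos q) hdiv]

theorem app0_spec (h2 : (2 : K) = 0) (f : ℕ → K) {t : Tr} {n v : ℕ} (h : wf t n = true)
    (hn : v < 2 ^ n) : vec f (app0 t v) = vec (eOf t f) v := by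
  rcases v with _ | v
  · change vec f 0 = vec _ 0
    rw [vec_zero, vec_zero]
  · exact app_spec h2 f h (Nat.succ_pos v) hn

theorem eOf_ge (f : ℕ → K) {t : Tr} {n : ℕ} (h : wf t n = true) (k : ℕ) (hk : n ≤ k) :
    eOf t f k = 0 := by
  rw [eOf, lf_ge h hk, vec_zero]

end

end Pool.Agent.L3E.RMG
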